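import Pool.Agent.Lib.MV.Blue

open Set Pool.Agent.Lib.MP_e39d36_ag Pool.Agent.Lib.MP_e39d36_ag.Var Pool.Agent.Lib.DU

set_option linter.unusedSectionVars false
set_option linter.unusedVariables false

noncomputable section

namespace Pool.Agent.Lib.MV

namespace SmB

variable {K : Type} [Field K] [Algebra ℂ K] {X : Var K}

lemma exists_gen {x : X.Pt} [UniqueFactorizationMonoid (X.O x)] {E : X.PD}
    (h : X.O x ≤ X.O E.1) : ∃ f, LocEq (Finsupp.single E 1) x f := by
  classical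
  have h0 : mx (X.isLoc E.1) h ≠ ⊥ := fun h0 => (isV E).ne_top (eq_top_iff.2 fun z _ => by
    obtain ⟨b, h1, h2, h3⟩ := X.frac_O x z
    have h4 : Un (X.O E.1) b := by
      by_contra h5
      have h6 : (⟨b, h1⟩ : X.O x) ∈ mx (X.isLoc E.1) h := h5
      rw [h0, Ideal.mem_bot] at h6
      exact h2 (congrArg Subtype.val h6)
    exact h4.mem_of_mul (h h3))
  obtain ⟨π, hπ, hp⟩ := Ideal.IsPrime.exists_mem_prime_of_ne_bot
    (inferInstance : (mx (X.isLoc E.1) h).IsPrime) h0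
  have hne : (π : K) ≠ 0 := fun e => hp.ne_zero (Subtype.ext e)
  have := (Ideal.span_singleton_prime hp.ne_zero).2 hp
  obtain ⟨T, hT, hL, hU⟩ := exists_locP (Ideal.span {π})
  have key : ∀ F : X.PD, ∀ hF : X.O x ≤ X.O F.1, ¬Un (X.O F.1) π → T = X.O F.1 := by
    intro F hF hu
    have h1 : X.O F.1 ≤ T := (locOf_of_sp hF).le hL.1 fun b hb hb' => (hU ⟨b, hb⟩).2 fun h2 => by
      obtain ⟨c, hc⟩ := Ideal.mem_span_singleton.1 h2
      have h3 : b = π * c := congrArg Subtype.val hc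
      rw [h3] at hb'
      exact hu (hb'.of_mul (hF π.2) (hF c.2))
    refine ((isV F).eq_or_top h1).resolve_right fun h2 => ?_
    exact (hU π).1 (h2 ▸ un_top.2 hne) (Ideal.mem_span_singleton_self π)
  have hE := key E h hπ
  refine ⟨π, LocEq.mk' hne fun F hF => ?_⟩
  by_cases e : E = F
  · subst e
    rw [Finsupp.single_eq_same]
    obtain ⟨t, t0, ht⟩ := exists_unif (isV E).1
    rw [← ord_val] at ht
    have h1 : t ∈ X.O E.1 := ((isV E).mem_iff t0).2 (by rw [← ord_val, ht]; exact zero_le_one)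
    obtain ⟨b, h2, h3, h4⟩ := (locOf_of_sp h).2 t h1
    have h5 : X.ord (b * t) E.1 = 1 := by rw [ord_mul h3.1 t0, ord_un h3, ht, zero_add]
    have h6 : (⟨b * t, h4⟩ : X.O x) ∈ Ideal.span {π} := by
      by_contra h7
      have h8 := ord_un (hE ▸ (hU ⟨b * t, h4⟩).2 h7)
      rw [h5] at h8
      exact one_ne_zero h8
    obtain ⟨c, hc⟩ := Ideal.mem_span_singleton.1 h6
    have h7 : b * t = π * c := congrArg Subtype.val hc
    have h8 : (c : K) ≠ 0 := right_ne_zero_of_mul (h7 ▸ mul_ne_zero h3.1 t0)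
    rw [h7, ord_mul hne h8] at h5
    have h9 := ord_pos hne (h π.2) hπ
    have h10 := ord_nonneg (h c.2)
    omega
  · rw [Finsupp.single_eq_of_ne (Ne.symm e)]
    by_contra h1
    exact e (pd_eq (hE.symm.trans (key F hF fun hu => h1 (ord_un hu).symm)).le)

lemma fac (hu : ∀ z, UniqueFactorizationMonoid (X.O z)) (W : X.PD →₀ ℤ) : Cart W := by
  classical
  have h1 : ∀ E : X.PD, Cart (Finsupp.single E (1 : ℤ)) := fun E x => by
    by_cases h : X.O x ≤ X.O E.1
    · have := hu x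
      exact exists_gen h
    · refine ⟨1, LocEq.mk' one_ne_zero fun F hF => ?_⟩
      rw [Finsupp.single_eq_of_ne (by rintro rfl; exact h hF), ord_un Un.one]
  induction W using Finsupp.induction_linear with
  | zero => exact cart_zero
  | add W W' h h' => exact h.add h'
  | single E n =>
    obtain ⟨m, rfl | rfl⟩ := n.eq_nat_or_neg
    · simpa using (h1 E).nsmul m
    · simpa [Finsupp.single_neg] using ((h1 E).nsmul m).neg

lemma inj (z : X.Pt) [Algebra.FormallySmooth ℂ (X.O z)] :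
    Function.Injective (KaehlerDifferential.map ℂ ℂ (X.O z) K) := by
  rw [injective_iff_map_eq_zero]
  intro m hm
  obtain ⟨d, hd⟩ := (IsLocalizedModule.eq_zero_iff (nonZeroDivisors (X.O z)) _).1 hm
  obtain ⟨s, hs⟩ := Module.Projective.out (R := X.O z) (P := Ω[X.O z⁄ℂ])
  have h1 : s m = 0 := Finsupp.ext fun e => by
    have h2 := congrArg (fun m => s m e) hd
    simp only [Submonoid.smul_def, map_smul, Finsupp.smul_apply, smul_eq_mul, map_zero,
      Finsupp.zero_apply] at h2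
    exact (mul_eq_zero.1 h2).resolve_left (nonZeroDivisors.ne_zero d.2)
  rw [← hs m, h1, map_zero]

lemma map_mem (z : X.Pt) (m : Ω[X.O z⁄ℂ]) :
    KaehlerDifferential.map ℂ ℂ (X.O z) K m ∈ frm (X.O z) := by
  have hm : m ∈ Submodule.span (X.O z) (range (KaehlerDifferential.D ℂ (X.O z))) := by
    rw [KaehlerDifferential.span_range_derivation]; trivial
  induction hm using Submodule.span_induction with
  | mem x hx =>
    obtain ⟨a, rfl⟩ := hx
    rw [KaehlerDifferential.map_D]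
    exact Submodule.subset_span ⟨a, a.2, rfl⟩
  | zero => rw [map_zero]; exact zero_mem _
  | add x y _ _ hx hy => rw [map_add]; exact add_mem hx hy
  | smul a x _ hx => rw [map_smul]; exact Submodule.smul_mem _ a hx

lemma clear {z y : X.Pt} (h : X.O z ≤ X.O y) {ω : Ω[K⁄ℂ]} (hω : ω ∈ frm (X.O y)) :
    ∃ (d : X.O z) (m : Ω[X.O z⁄ℂ]), Un (X.O y) d ∧
      (d : K) • ω = KaehlerDifferential.map ℂ ℂ (X.O z) K m := by
  have sm : ∀ (a : X.O z) (m : Ω[X.O z⁄ℂ]), KaehlerDifferential.map ℂ ℂ (X.O z) K (a • m) =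
      (a : K) • KaehlerDifferential.map ℂ ℂ (X.O z) K m := fun a m => map_smul _ a m
  induction hω using Submodule.span_induction with
  | mem x hx =>
    obtain ⟨a, ha, rfl⟩ := hx
    obtain ⟨b, h1, h2, h3⟩ := (locOf_of_sp h).2 a ha
    refine ⟨⟨b, h1⟩ * ⟨b, h1⟩, (⟨b, h1⟩ : X.O z) • KaehlerDifferential.D ℂ _ (⟨_, h3⟩ : X.O z) -
      (⟨_, h3⟩ : X.O z) • KaehlerDifferential.D ℂ _ (⟨b, h1⟩ : X.O z), h2.mul h2, ?_⟩
    rw [map_sub, sm, sm, KaehlerDifferential.map_D, KaehlerDifferential.map_D]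
    change (b * b) • KaehlerDifferential.D ℂ K a = b • KaehlerDifferential.D ℂ K (b * a) -
      (b * a) • KaehlerDifferential.D ℂ K b
    rw [Derivation.leibniz]
    module
  | zero => exact ⟨1, 0, Un.one, by simp⟩
  | add x x' _ _ hx hx' =>
    obtain ⟨d, m, h1, h2⟩ := hx
    obtain ⟨d', m', h3, h4⟩ := hx'
    refine ⟨d * d', d' • m + d • m', h1.mul h3, ?_⟩
    rw [map_add, sm, sm, ← h2, ← h4]
    change ((d : K) * d') • (x + x') = _
    module
  | smul a x _ hx =>
    obtain ⟨d, m, h1, h2⟩ := hx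
    obtain ⟨b, h3, h4, h5⟩ := (locOf_of_sp h).2 a a.2
    refine ⟨⟨b, h3⟩ * d, (⟨_, h5⟩ : X.O z) • m, h4.mul h1, ?_⟩
    rw [sm, ← h2]
    change (b * d) • ((a : K) • x) = (b * a) • ((d : K) • x)
    module

lemma reg (z : X.Pt) [Algebra.FormallySmooth ℂ (X.O z)] (ω : Ω[K⁄ℂ])
    (hω : ∀ E : X.PD, X.O z ≤ X.O E.1 → ω ∈ frm (X.O E.1)) : ω ∈ frm (X.O z) := by
  have sm : ∀ (a : X.O z) (m : Ω[X.O z⁄ℂ]), KaehlerDifferential.map ℂ ℂ (X.O z) K (a • m) =
      (a : K) • KaehlerDifferential.map ℂ ℂ (X.O z) K m := fun a m => map_smul _ a m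
  obtain ⟨⟨m0, d0⟩, h0⟩ := IsLocalizedModule.surj (nonZeroDivisors (X.O z))
    (KaehlerDifferential.map ℂ ℂ (X.O z) K) ω
  have h1 : ((d0 : X.O z) : K) • ω = KaehlerDifferential.map ℂ ℂ (X.O z) K m0 := h0
  have hd : ((d0 : X.O z) : K) ≠ 0 := fun e => nonZeroDivisors.ne_zero d0.2 (Subtype.ext e)
  obtain ⟨s, hs⟩ := Module.Projective.out (R := X.O z) (P := Ω[X.O z⁄ℂ])
  have h2 : ∀ e, (s m0 e : K) / (d0 : X.O z) ∈ X.O z := fun e => hartogs fun E hE => by
    obtain ⟨d, m, h3, h4⟩ := clear hE (hω E hE)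
    have h5 : d • m0 = (d0 : X.O z) • m := inj z (by rw [sm, sm, ← h1, ← h4, smul_comm])
    have h6 := congrArg (fun m => (s m e : K)) h5
    simp only [map_smul, Finsupp.smul_apply, smul_eq_mul, Subring.coe_mul] at h6
    refine ord_nonneg (h3.mem_of_mul ?_)
    rw [← mul_div_assoc, h6, mul_div_cancel_left₀ _ hd]
    exact hE (s m e).2
  have h3 : m0 = (d0 : X.O z) • ∑ e ∈ (s m0).support, (⟨_, h2 e⟩ : X.O z) • e := by
    rw [Finset.smul_sum]
    refine (hs m0).symm.trans ?_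
    rw [Finsupp.linearCombination_apply, Finsupp.sum]
    refine Finset.sum_congr rfl fun e _ => ?_
    rw [smul_smul]
    exact congrArg (· • e) (Subtype.ext (mul_div_cancel₀ _ hd).symm)
  rw [h3, sm] at h1
  rw [smul_right_injective _ hd h1]
  exact map_mem z _

end SmB

theorem st_sm : St_SM := fun K _ _ X hs hu =>
  ⟨SmB.fac hu, fun z => have := hs z; SmB.inj z, fun z => have := hs z; SmB.reg z⟩

end Pool.Agent.Lib.MV
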