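import Pool.Agent.Lib.MV.LatBlue
import Pool.Agent.Lib.MP_e39d36_ag.Abs2

open Set Pool.Agent.Lib.MP_e39d36_ag Pool.Agent.Lib.MP_e39d36_ag.Var Pool.Agent.Lib.MV.Lat

set_option linter.unusedSectionVars false

noncomputable section

namespace Pool.Agent.Lib.MV.End

variable {K : Type} [Field K] [Algebra ℂ K] {X : Var K}

/-- Linear equivalence. -/
def LE (D D' : X.PD →₀ ℤ) : Prop := ∃ f : K, f ≠ 0 ∧ D = D' + X.div f

/-- `φ` is an automorphism over the constants that permutes the prime divisors through `e`. -/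
def Ps (φ : RingAut K) (e : X.PD ≃ X.PD) : Prop :=
  (∀ a : ℂ, φ (algebraMap ℂ K a) = algebraMap ℂ K a) ∧ ∀ f E, X.ord (φ f) (e E).1 = X.ord f E.1

/-- Transport of divisors. -/
def push (e : X.PD ≃ X.PD) : (X.PD →₀ ℤ) ≃+ (X.PD →₀ ℤ) := Finsupp.domCongr e

@[simp] lemma push_apply (e : X.PD ≃ X.PD) (D : X.PD →₀ ℤ) (E : X.PD) :
    push e D E = D (e.symm E) := rfl

lemma div_mul {f g : K} (hf : f ≠ 0) (hg : g ≠ 0) : X.div (f * g) = X.div f + X.div g :=
  Finsupp.ext fun E => ord_mul hf hg E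

lemma div_one : X.div 1 = 0 := Finsupp.ext fun E => by simp [ord_val]

lemma div_inv (f : K) : X.div f⁻¹ = -X.div f := Finsupp.ext fun E => by simp [ord_val]

lemma Ps.push_div {φ : RingAut K} {e : X.PD ≃ X.PD} (h : Ps φ e) (f : K) :
    push e (X.div f) = X.div (φ f) := Finsupp.ext fun E => by
  rw [push_apply, div_apply, div_apply, ← h.2, e.apply_symm_apply]

section le

variable {D D' D'' C C' : X.PD →₀ ℤ}

lemma LE.refl (D : X.PD →₀ ℤ) : LE D D := ⟨1, one_ne_zero, by rw [div_one, add_zero]⟩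

lemma LE.of_eq (h : D = D') : LE D D' := h ▸ LE.refl D

lemma LE.symm (h : LE D D') : LE D' D := by
  obtain ⟨f, h0, rfl⟩ := h
  exact ⟨f⁻¹, inv_ne_zero h0, by rw [div_inv]; abel⟩

lemma LE.add (h : LE D D') (h' : LE C C') : LE (D + C) (D' + C') := by
  obtain ⟨f, h0, rfl⟩ := h
  obtain ⟨g, h1, rfl⟩ := h'
  exact ⟨f * g, mul_ne_zero h0 h1, by rw [div_mul h0 h1]; abel⟩

lemma LE.trans (h : LE D D') (h' : LE D' D'') : LE D D'' := by
  obtain ⟨f, h0, rfl⟩ := h
  obtain ⟨g, h1, rfl⟩ := h'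
  exact ⟨g * f, mul_ne_zero h1 h0, by rw [div_mul h1 h0, add_assoc]⟩

lemma LE.neg (h : LE D D') : LE (-D) (-D') := by
  obtain ⟨f, h0, rfl⟩ := h
  exact ⟨f⁻¹, inv_ne_zero h0, by rw [div_inv]; abel⟩

lemma LE.sub (h : LE D D') (h' : LE C C') : LE (D - C) (D' - C') := by
  simpa only [sub_eq_add_neg] using h.add h'.neg

lemma LE.sum {α : Type*} {s : Finset α} {f g : α → X.PD →₀ ℤ} (h : ∀ a ∈ s, LE (f a) (g a)) :
    LE (∑ a ∈ s, f a) (∑ a ∈ s, g a) := by
  classical
  induction s using Finset.induction_on with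
  | empty => exact LE.refl _
  | insert a s ha ih =>
    rw [Finset.sum_insert ha, Finset.sum_insert ha]
    exact (h a (Finset.mem_insert_self _ _)).add (ih fun b hb => h b (Finset.mem_insert_of_mem hb))

lemma LE.zsmul (h : LE D D') (m : ℤ) : LE (m • D) (m • D') := by
  induction m using Int.induction_on with
  | zero => simpa using LE.refl 0
  | succ m ih => simpa only [add_smul, one_smul] using ih.add h
  | pred m ih => simpa only [sub_smul, one_smul] using ih.sub h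

lemma LE.push {φ : RingAut K} {e : X.PD ≃ X.PD} (hp : Ps φ e) (h : LE D D') :
    LE (push e D) (push e D') := by
  obtain ⟨f, h0, rfl⟩ := h
  exact ⟨φ f, (map_ne_zero φ).2 h0, by rw [map_add, hp.push_div]⟩

end le

variable (Γ : Curves X) (hc : ∀ D : X.PD →₀ ℤ, Cart D)

/-- Numerical class, when all divisors are Cartier. -/
def nc : (X.PD →₀ ℤ) →+ Γ.N1 :=
  AddMonoidHom.mk' (fun D => Γ.cls ⟨D, hc D⟩) fun D D' => Γ.cls_add ⟨D, hc D⟩ ⟨D', hc D'⟩

lemma nc_eq (D : X.CD) : nc Γ hc D.1 = Γ.cls D := rfl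

lemma LE.nc_eq {D D' : X.PD →₀ ℤ} (h : LE D D') : nc Γ hc D = nc Γ hc D' := by
  obtain ⟨f, h0, rfl⟩ := h
  rw [map_add, show nc Γ hc (X.div f) = 0 from Γ.cls_div h0, add_zero]

variable {ι : Type} [Fintype ι] [DecidableEq ι] (n : ι → ℕ) {r : ι → ℕ}
  (st : (i : ι) → Option (Fin (r i)) → X.PD →₀ ℤ)

/-- The class of a real combination of the standard divisors. -/
def cl : V r →ₗ[ℝ] Γ.N1 where
  toFun x := ∑ i, ∑ o, x i o • nc Γ hc (st i o)
  map_add' x y := by simp [add_smul, Finset.sum_add_distrib]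
  map_smul' c x := by simp [Finset.smul_sum, smul_smul]

lemma cl_apply (x : V r) : cl Γ hc st x = ∑ i, ∑ o, x i o • nc Γ hc (st i o) := rfl

/-- The divisor `H - h_a`. -/
def dE (i : ι) (a : Fin (r i)) : X.PD →₀ ℤ := st i none - st i (some a)

/-- The anticanonical divisor of one factor. -/
def dK (j : ι) : X.PD →₀ ℤ := ((n j : ℤ) + 1) • st j none - ∑ a, dE st j a

/-- The anticanonical divisor of the product of the other factors. -/
def dW (i : ι) : X.PD →₀ ℤ := ∑ j ∈ Finset.univ.erase i, dK n st j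

/-- `e` comes from a pseudo-automorphism and fixes the divisors of the other factors. -/
def Over (i : ι) (e : X.PD ≃ X.PD) : Prop :=
  (∃ φ, Ps φ e) ∧ ∀ j, j ≠ i → ∀ o, LE (push e (st j o)) (st j o)

/-- What sections one to four have to deliver. `st i none` is `H_i`, `st i (some a)` is `h_ia`,
`R i a` is the section over the point `a`. -/
structure Inp (R : (i : ι) → Fin (r i) → X.PD) : Prop where
  mov : ∀ i o, Mov (st i o)
  inj : ∀ x, cl Γ hc st x = 0 → x = 0
  spn : ∀ D, ∃ x, nc Γ hc D = cl Γ hc st x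
  num : ∀ φ e, Ps φ e → ∀ D x, nc Γ hc D = cl Γ hc st x →
    nc Γ hc (push e D) = cl Γ hc (fun i o => push e (st i o)) x
  sec : ∀ i a, LE (dE st i a) (Finsupp.single (R i a) 1)
  posp : ∀ j, r j = 0 → 2 ≤ n j → ∀ D x, 0 ≤ D → nc Γ hc D = cl Γ hc st x → 0 ≤ x j none
  res : ∀ i a D x, 0 ≤ D → D (R i a) = 0 → nc Γ hc D = cl Γ hc st x → ∃ D', 0 ≤ D' ∧
    nc Γ hc D' = cl Γ hc st (Function.update x i 0) + x i (some a) • nc Γ hc (dW n st i)
  sigh : ∀ i a, ∃ e, Over st i e ∧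
    LE (push e (st i none)) ((2 : ℤ) • st i none - (3 : ℤ) • dE st i a + dW n st i) ∧
    LE (push e (dE st i a)) (st i none - (2 : ℤ) • dE st i a + dW n st i) ∧
    ∀ b, b ≠ a → LE (push e (dE st i b)) (st i none - dE st i a - dE st i b)
  sige : ∀ i a, ∃ e, Over st i e ∧
    LE (push e (st i none)) ((6 : ℤ) • dE st i a - st i none + (6 : ℤ) • dW n st i) ∧
    LE (push e (dE st i a)) (dE st i a) ∧
    ∀ b, b ≠ a → LE (push e (dE st i b)) ((2 : ℤ) • dE st i a - dE st i b + (2 : ℤ) • dW n st i)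
  iot : ∀ j, n j = 1 → ∃ e, Over st j e ∧ LE (push e (st j none)) (dW n st j - st j none)

/-- The conclusion of the cone conjecture for a model. -/
def Cone : Prop := ∃ S : Set X.CD, S.Finite ∧ Γ.Covers (Γ.cone S) ∧ ∀ φ T, Γ.IsPull φ T → T ≠ 1 →
  interior (Γ.cone S : Set Γ.N1) ∩ T '' interior (Γ.cone S : Set Γ.N1) = ∅

end Pool.Agent.Lib.MV.End
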