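import Pool.Agent.Lib.MP_5f81cf_ag.UFD

/-! Local rings of smooth varieties over an algebraically closed field are factorial. -/

namespace Pool.Agent.Lib.MV.UFD

open MvPowerSeries Finsupp Pool.Agent.Lib.MP_5f81cf_ag

variable {k : Type} [Field k]

lemma mem_span_X {ι : Type} (s : Finset ι) : ∀ ψ : MvPowerSeries ι k,
    (∀ d : ι →₀ ℕ, (∀ i ∈ s, d i = 0) → coeff d ψ = 0) →
      ψ ∈ (Ideal.span (Set.range X) : Ideal (MvPowerSeries ι k)) := by
  classical
  induction s using Finset.induction_on with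
  | empty =>
    intro ψ h
    have : ψ = 0 := by ext d; simpa using h d (by simp)
    rw [this]; exact zero_mem _
  | insert i s hi ih =>
    intro ψ h
    let ψ' : MvPowerSeries ι k := fun d => if d i = 0 then coeff d ψ else 0
    have e : ∀ d, coeff d ψ' = if d i = 0 then coeff d ψ else 0 := fun _ => rfl
    have a1 : X i ∣ ψ - ψ' := X_dvd_iff.2 fun d hd => by rw [map_sub, e]; simp [hd]
    rw [← sub_add_cancel ψ ψ']
    refine add_mem (Ideal.mem_of_dvd _ a1 (Ideal.subset_span ⟨i, rfl⟩)) (ih _ fun d hd => ?_)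
    rw [e]
    split_ifs with h0
    · exact h d fun j hj => (Finset.mem_insert.1 hj).elim (fun e => e ▸ h0) (hd j)
    · rfl

lemma max_eq (ι : Type) [Fintype ι] :
    IsLocalRing.maximalIdeal (MvPowerSeries ι k) = Ideal.span (Set.range X) := by
  refine le_antisymm (fun ψ hψ => mem_span_X Finset.univ ψ fun d hd => ?_)
    (IsLocalRing.le_maximalIdeal fun ht => ?_)
  · have : d = 0 := by ext i; exact hd i (Finset.mem_univ _)
    rw [this]
    simpa [MvPowerSeries.isUnit_iff_constantCoeff] using hψ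
  · have := wge_of_mem_span_pow (n := 1) (φ := (1 : MvPowerSeries ι k)) (by rw [ht]; simp) 0
      (by simp)
    simp at this

lemma PProd.map {R S : Type} [CommRing R] [CommRing S] (e : R ≃+* S) {a : R} (h : PProd a) :
    PProd (e a) := by
  obtain ⟨s, h5, h6⟩ := h
  refine ⟨s.map e, fun p hp => ?_, ?_⟩
  · obtain ⟨q, hq, rfl⟩ := Multiset.mem_map.1 hp
    exact (MulEquiv.prime_iff e).2 (h5 q hq)
  · simpa [map_multiset_prod] using h6.map e

lemma pprod_reg {n N : ℕ} [UniqueFactorizationMonoid (MvPowerSeries (Fin n) k)]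
    {φ : MvPowerSeries (Fin (n + 1)) k} (h : coeff (single 0 N) φ ≠ 0) : PProd φ := by
  have h4 : IsAdicComplete (IsLocalRing.maximalIdeal (MvPowerSeries (Fin n) k))
      (MvPowerSeries (Fin n) k) := max_eq (k := k) (Fin n) ▸ inferInstance
  have := pprod_weierstrass (g := finSuccEquiv k n φ) (fun h0 => h (by
    have a1 := congrArg (PowerSeries.coeff N) h0
    rw [PowerSeries.coeff_map, LinearMap.map_zero, IsLocalRing.residue_eq_zero_iff] at a1
    have a2 : coeff 0 (PowerSeries.coeff N (finSuccEquiv k n φ)) = 0 := by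
      simpa [MvPowerSeries.isUnit_iff_constantCoeff] using a1
    rwa [coeff_coeff_finSuccEquiv, cons_zero_eq_single_zero] at a2))
  simpa using PProd.map (finSuccEquiv k n).symm.toRingEquiv this

/-- the substitution `X i ↦ c i X 0 + X i`, with `c 0 = 0` -/
noncomputable def sh {n : ℕ} (c : Fin (n + 1) → k) (i : Fin (n + 1)) :
    MvPowerSeries (Fin (n + 1)) k := c i • X 0 + X i

lemma sh_c {n : ℕ} (c : Fin (n + 1) → k) (i : Fin (n + 1)) : constantCoeff (sh c i) = 0 := by
  simp [sh, smul_eq_C_mul]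

lemma sh_has {n : ℕ} (c : Fin (n + 1) → k) : HasSubst (sh c) :=
  hasSubst_of_constantCoeff_zero (sh_c c)

lemma sh_sh {n : ℕ} {c c' : Fin (n + 1) → k} (h : c' 0 = 0) (h' : ∀ i, c i + c' i = 0)
    (φ : MvPowerSeries (Fin (n + 1)) k) : subst (sh c') (subst (sh c) φ) = φ := by
  rw [subst_comp_subst_apply (sh_has c) (sh_has c')]
  have : (fun s => subst (R := k) (sh c') (sh c s)) = X := by
    funext s
    rw [sh, subst_add (sh_has c'), subst_smul (sh_has c'), subst_X (sh_has c'),
      subst_X (sh_has c'), sh, sh, h, zero_smul, zero_add, ← add_assoc, ← add_smul, h', zero_smul,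
      zero_add]
  rw [this, subst_self, id]

/-- the substitution as an automorphism -/
noncomputable def shE {n : ℕ} (c : Fin (n + 1) → k) (h : c 0 = 0) :
    MvPowerSeries (Fin (n + 1)) k ≃+* MvPowerSeries (Fin (n + 1)) k :=
  { (substAlgHom (R := k) (sh_has c)).toRingHom with
    invFun := subst (sh (-c))
    left_inv := fun φ => by
      simpa [substAlgHom_apply] using sh_sh (c := c) (c' := -c) (by simp [h]) (by simp) φ
    right_inv := fun φ => by
      simpa [substAlgHom_apply] using sh_sh (c := -c) (c' := c) h (by simp) φ }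

lemma coeff_sh {n N : ℕ} (c : Fin (n + 1) → k) (h : c 0 = 0) (Q : MvPolynomial (Fin (n + 1)) k) :
    coeff (single 0 N) (MvPolynomial.aeval (sh c) Q) =
      MvPolynomial.eval (Function.update c 0 1) (MvPolynomial.homogeneousComponent N Q) := by
  classical
  let e : Fin 1 ↪ Fin (n + 1) := ⟨fun _ => 0, fun _ _ _ => Subsingleton.elim _ _⟩
  let θ := killCompl (R := k) e
  have hx : ∀ i, θ (sh c i) = Function.update c 0 1 i • X 0 := fun i => by
    have a0 : θ (X 0) = X 0 := killCompl_X (R := k) (e := e) 0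
    rw [sh, map_add, map_smul, a0]
    by_cases hi : i = 0
    · rw [hi, a0, h]; simp
    · rw [killCompl_X_eq_zero (fun ⟨_, h⟩ => hi h.symm), Function.update_of_ne hi, add_zero]
  have e1 : coeff (single 0 N) (MvPolynomial.aeval (sh c) Q) =
      coeff (single 0 N) (θ (MvPolynomial.aeval (sh c) Q)) := by
    simp only [θ, coeff_killCompl, embDomain_single]; rfl
  rw [e1]
  clear e1
  induction Q using MvPolynomial.induction_on' with
  | add p q hp hq => simp only [map_add, hp, hq]
  | monomial u r =>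
    rw [MvPolynomial.aeval_monomial, map_mul, AlgHom.commutes, Finsupp.prod_fintype _ _ (by simp),
      map_prod, MvPolynomial.homogeneousComponent_of_mem
        (MvPolynomial.isHomogeneous_monomial r rfl)]
    simp only [map_pow, hx, smul_pow, Finset.prod_smul, Finset.prod_pow_eq_pow_sum,
      ← Algebra.smul_def, map_smul, coeff_X_pow, ← Finsupp.degree_eq_sum]
    by_cases h : N = degree u
    · simp [h, MvPolynomial.eval_monomial, Finsupp.prod_fintype]
    · rw [if_neg h, if_neg fun h' => h (Finsupp.single_injective _ h')]; simp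

lemma exists_eval [Infinite k] {n N : ℕ} {Q : MvPolynomial (Fin (n + 1)) k} (hQ : Q ≠ 0)
    (hh : Q.IsHomogeneous N) : ∃ c : Fin (n + 1) → k, c 0 = 0 ∧
      MvPolynomial.eval (Function.update c 0 1) Q ≠ 0 := by
  obtain ⟨c, hc⟩ : ∃ c : Fin (n + 1) → k, MvPolynomial.eval c (Q * MvPolynomial.X 0) ≠ 0 := by
    by_contra! h
    exact mul_ne_zero hQ (MvPolynomial.X_ne_zero 0) (MvPolynomial.funext (by simpa using h))
  rw [map_mul, MvPolynomial.eval_X] at hc
  have h0 := right_ne_zero_of_mul hc
  refine ⟨Function.update (fun i => c i / c 0) 0 0, by simp, fun h => left_ne_zero_of_mul hc ?_⟩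
  have e : c = c 0 • Function.update (Function.update (fun i => c i / c 0) 0 0) 0 1 := by
    funext i
    by_cases hi : i = 0
    · simp [hi]
    · simp [hi, mul_div_cancel₀ _ h0]
  have hs : ∀ (t : k) (x : Fin (n + 1) → k),
      MvPolynomial.eval (t • x) Q = t ^ N * MvPolynomial.eval x Q := fun t x => by
    rw [MvPolynomial.eval_eq', MvPolynomial.eval_eq', Finset.mul_sum]
    refine Finset.sum_congr rfl fun d hd => ?_
    have : ∑ i, d i = N := by
      rw [← hh (MvPolynomial.mem_support_iff.1 hd), ← Finsupp.degree_eq_sum, degree_eq_weight_one]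
      rfl
    simp only [Pi.smul_apply, smul_eq_mul, mul_pow, Finset.prod_mul_distrib,
      Finset.prod_pow_eq_pow_sum, this]
    ring
  rw [e, hs, h, mul_zero]

theorem ps_ufd [Infinite k] (n : ℕ) : UniqueFactorizationMonoid (MvPowerSeries (Fin n) k) := by
  induction n with
  | zero => exact (isEmptyEquiv (Fin 0) k).symm.toMulEquiv.uniqueFactorizationMonoid inferInstance
  | succ n ih =>
    refine UniqueFactorizationMonoid.of_exists_prime_factors fun φ hφ => ?_
    obtain ⟨d, hd⟩ : ∃ d, coeff d φ ≠ 0 := by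
      by_contra! h
      exact hφ (by ext d; simp [h])
    obtain ⟨c, c0, hc⟩ := exists_eval (N := d.degree)
      (Q := MvPolynomial.homogeneousComponent d.degree (truncTotal (d.degree + 1) φ))
      (fun h => hd (by
        simpa [MvPolynomial.coeff_homogeneousComponent, coeff_truncTotal] using
          congrArg (MvPolynomial.coeff d) h)) (MvPolynomial.homogeneousComponent_isHomogeneous _ _)
    have h1 : coeff (single 0 d.degree) (shE c c0 φ) ≠ 0 := by
      have e := congrArg (MvPolynomial.coeff (single 0 d.degree))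
        (truncTotal_subst_eq_truncTotal_truncTotal_subst (f := φ) (k := d.degree + 1) (sh_c c))
      rw [coeff_truncTotal _ (by simp), coeff_truncTotal _ (by simp), subst_coe, coeff_sh c c0] at e
      have e2 : shE c c0 φ = subst (sh c) φ := substAlgHom_apply (sh_has c) _
      rwa [e2, e]
    have := PProd.map (shE c c0).symm (pprod_reg h1)
    rwa [RingEquiv.symm_apply_apply] at this

variable {A : Type} [CommRing A] [Algebra k A] {m : Ideal A} {n : ℕ}

lemma colon_loc [Infinite k] [IsNoetherianRing A] [IsDomain A]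
    (C : Chart (Fin n) k m) {a : A} (ha : a ≠ 0) (b : A) :
    ∃ c, a ∣ c * b ∧ ∀ d, a ∣ d * b → ∃ u, u ∉ m ∧ c ∣ u * d := by
  have := ps_ufd (k := k) n
  have hp : PProd (C.T a) := UniqueFactorizationMonoid.exists_prime_factors _
    fun h => ha (C.injective (by rw [h, map_zero]))
  obtain ⟨a', ⟨b', h1⟩, h2, h3⟩ := hp.colon (C.T b)
  obtain ⟨o, ho⟩ : ∃ o, ¬ WGe (fun _ => 1) o a' := by
    by_contra! h
    exact h2 (WGe.eq_zero h)
  obtain ⟨j, hj⟩ := Ideal.exists_pow_inf_eq_pow_smul m (Ideal.span {a, b})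
  obtain ⟨P, hP, -⟩ := Chart.exists_trunc a' (o + j)
  obtain ⟨Q, hQ, -⟩ := Chart.exists_trunc b' (o + j)
  have h4 : MvPolynomial.aeval C.x P * b - MvPolynomial.aeval C.x Q * a ∈
      (m ^ (o + j) • ⊤ : Ideal A) ⊓ Ideal.span {a, b} := by
    refine ⟨?_, sub_mem (Ideal.mul_mem_left _ _ (Ideal.subset_span (by simp)))
      (Ideal.mul_mem_left _ _ (Ideal.subset_span (by simp)))⟩
    rw [smul_eq_mul, Ideal.mul_top, SetLike.mem_coe, ← C.mem_pow]
    simp only [map_sub, map_mul, C.T_aeval]
    have e : (P : MvPowerSeries (Fin n) k) * C.T b - Q * C.T a =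
        (b' - Q) * C.T a - (a' - P) * C.T b := by linear_combination h1
    rw [e]
    exact (hQ.mul_right (C.T a)).sub (hP.mul_right (C.T b))
  rw [hj _ (by omega), Nat.add_sub_cancel] at h4
  have h5 : ∀ z ∈ m ^ o • ((m ^ j • ⊤ : Ideal A) ⊓ Ideal.span {a, b}),
      ∃ e ∈ m ^ o, ∃ f : A, z = e * b + f * a := by
    intro z hz
    refine Submodule.smul_induction_on hz (fun r hr y hy => ?_) ?_
    · obtain ⟨e, f, rfl⟩ := Ideal.mem_span_pair.1 hy.2
      exact ⟨r * f, Ideal.mul_mem_right _ _ hr, r * e, by rw [smul_eq_mul]; ring⟩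
    · rintro _ _ ⟨e, he, f, rfl⟩ ⟨e', he', f', rfl⟩
      exact ⟨e + e', add_mem he he', f + f', by ring⟩
  obtain ⟨e, he, f, h6⟩ := h5 _ h4
  have h7 : a ∣ (MvPolynomial.aeval C.x P - e) * b :=
    ⟨MvPolynomial.aeval C.x Q + f, by linear_combination h6⟩
  refine ⟨_, h7, fun d hd => C.dvd_iff.1 ?_⟩
  obtain ⟨t, ht⟩ := h3 _ (map_mul C.T _ _ ▸ map_dvd C.T h7)
  have h8 : IsUnit t := by
    by_contra hu
    obtain ⟨v, hv⟩ :=
      ((IsLocalRing.isUnit_or_isUnit_one_sub_self t).resolve_left hu).exists_right_inv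
    have h9 := ((hP.mono (by omega : o ≤ o + j)).add ((C.mem_pow _ _).2 he)).mul_right v
    rw [map_sub, C.T_aeval] at ht
    have e2 : (a' - P + C.T e) * v = a' := by linear_combination a' * hv - v * ht
    exact ho (e2 ▸ h9)
  rw [ht, h8.mul_right_dvd]
  exact h3 _ (map_mul C.T _ _ ▸ map_dvd C.T hd)

theorem chart_ufd [Infinite k] [IsNoetherianRing A] [IsDomain A]
    (C : Chart (Fin n) k m) [m.IsPrime] (B : Type) [CommRing B] [IsDomain B] [Algebra A B]
    [IsLocalization.AtPrime B m] : UniqueFactorizationMonoid B := by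
  have := IsLocalization.isNoetherianRing m.primeCompl B inferInstance
  have hu : ∀ u, u ∉ m → IsUnit (algebraMap A B u) := fun u hu =>
    IsLocalization.map_units B (⟨u, hu⟩ : m.primeCompl)
  have hs : ∀ b : B, ∃ a : A, Associated b (algebraMap A B a) := fun b => by
    obtain ⟨⟨a, u⟩, h⟩ := IsLocalization.surj m.primeCompl b
    exact ⟨a, h ▸ associated_mul_unit_right _ _ (hu _ u.2)⟩
  refine ⟨fun {π} => ⟨fun hπ => ?_, Prime.irreducible⟩⟩
  obtain ⟨a, ha⟩ := hs π
  refine ha.symm.prime ?_
  replace hπ := ha.irreducible hπ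
  refine ⟨hπ.ne_zero, hπ.not_isUnit, fun b c h => ?_⟩
  obtain ⟨b', hb⟩ := hs b
  obtain ⟨c', hc⟩ := hs c
  rw [hb.dvd_iff_dvd_right, hc.dvd_iff_dvd_right]
  rw [(hb.mul_mul hc).dvd_iff_dvd_right, ← map_mul] at h
  obtain ⟨c0, h1, h2⟩ := colon_loc C (a := a) (fun h0 => hπ.ne_zero (by simp [h0])) b'
  obtain ⟨u, hu1, h3⟩ := h2 a (dvd_mul_right _ _)
  have h4 := map_dvd (algebraMap A B) h3
  rw [map_mul, (hu u hu1).dvd_mul_left] at h4
  rcases hπ.dvd_iff.1 h4 with h5 | h5
  · left
    have := map_dvd (algebraMap A B) h1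
    rwa [map_mul, h5.dvd_mul_left] at this
  · right
    obtain ⟨v, hv, h6⟩ := (IsLocalization.algebraMap_mem_map_algebraMap_iff m.primeCompl B
      (Ideal.span {a}) (b' * c')).1 (by
        rwa [Ideal.map_span, Set.image_singleton, Ideal.mem_span_singleton])
    obtain ⟨u', hu2, h7⟩ := h2 (v * c') (by
      rw [Ideal.mem_span_singleton] at h6
      rwa [mul_assoc, mul_comm c'])
    have := map_dvd (algebraMap A B) h7
    rw [map_mul, map_mul, (hu u' hu2).dvd_mul_left, (hu v hv).dvd_mul_left] at this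
    exact h5.dvd.trans this

/-- coordinates at a closed point of a smooth affine variety -/
theorem exists_chartN [IsAlgClosed k] [Algebra.FiniteType k A] [Algebra.FormallySmooth k A]
    (hm : m.IsMaximal) : ∃ n, Nonempty (Chart (Fin n) k m) := by
  classical
  have := Algebra.FiniteType.isNoetherianRing k A
  have hres := exists_const_of_isMaximal (k := k) hm
  obtain ⟨s, hs⟩ := IsNoetherian.noetherian m
  let π : A →ₗ[k] A ⧸ m ^ 2 := (Ideal.Quotient.mkₐ k (m ^ 2)).toLinearMap
  obtain ⟨b, hb, hbs, hbl⟩ := exists_linearIndependent k (π '' (s : Set A))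
  have hfin : b.Finite := (s.finite_toSet.image π).subset hb
  letI := hfin.fintype
  choose x hx hx' using fun i : b => hb i.2
  have hxm : ∀ i, x i ∈ m := fun i => hs ▸ Ideal.subset_span (hx i)
  have hspan : ∀ a ∈ m, ∃ l : b → k, a - ∑ i, l i • x i ∈ m ^ 2 := by
    intro a ha
    have : π a ∈ Submodule.span k (π '' (s : Set A)) := by
      rw [← hs] at ha
      suffices h : a ∈ m ∧ π a ∈ Submodule.span k (π '' (s : Set A)) from h.2
      induction ha using Submodule.span_induction with
      | mem y hy => exact ⟨hs ▸ Ideal.subset_span hy, Submodule.subset_span ⟨y, hy, rfl⟩⟩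
      | zero => simp
      | add _ _ _ _ h1 h2 => exact ⟨add_mem h1.1 h2.1, by rw [map_add]; exact add_mem h1.2 h2.2⟩
      | smul r y _ h1 =>
        refine ⟨m.mul_mem_left _ h1.1, ?_⟩
        obtain ⟨c, hc⟩ := hres r
        have : π (r • y) = c • π y := by
          rw [← map_smul]
          refine Ideal.Quotient.eq.2 ?_
          rw [sq, smul_eq_mul, Algebra.smul_def, ← sub_mul]
          exact Ideal.mul_mem_mul hc h1.1
        rw [this]; exact Submodule.smul_mem _ _ h1.2
    rw [← hbs, ← Subtype.range_val (s := b), Submodule.mem_span_range_iff_exists_fun] at this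
    obtain ⟨l, hl⟩ := this
    refine ⟨l, Ideal.Quotient.eq.1 ?_⟩
    change π a = π _
    rw [← hl, map_sum]; simp only [map_smul, hx']
  have hind : ∀ l : b → k, ∑ i, l i • x i ∈ m ^ 2 → l = 0 := by
    intro l hl
    have : π (∑ i, l i • x i) = 0 := Ideal.Quotient.eq_zero_iff_mem.2 hl
    rw [map_sum] at this
    simp only [map_smul, hx'] at this
    exact funext (Fintype.linearIndependent_iff.1 hbl l this)
  let e := Fintype.equivFin b
  obtain ⟨C', -⟩ := exists_chart (x := fun j => x (e.symm j)) hm.ne_top (fun j => hxm _) hres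
    (fun a ha => by
      obtain ⟨l, hl⟩ := hspan a ha
      exact ⟨fun j => l (e.symm j), by rwa [Equiv.sum_comp e.symm fun i => l i • x i]⟩)
    (fun l hl => by
      have := hind (fun i => l (e i)) (by
        rw [← Equiv.sum_comp e.symm]; simpa using hl)
      ext j; simpa using congrFun this (e.symm j))
  exact ⟨_, ⟨C'⟩⟩

/-- localisations at primes of smooth affine domains are factorial -/
theorem smooth_ufd (k : Type) [Field k] [Algebra k A] [IsAlgClosed k] [IsDomain A]
    [Algebra.FiniteType k A] [Algebra.FormallySmooth k A] (p : Ideal A) [p.IsPrime] (B : Type)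
    [CommRing B] [Algebra A B] [IsLocalization.AtPrime B p] : UniqueFactorizationMonoid B := by
  have := Algebra.FiniteType.isNoetherianRing k A
  obtain ⟨m, hm, hle⟩ := Ideal.exists_le_maximal p (Ideal.IsPrime.ne_top inferInstance)
  obtain ⟨n, ⟨C⟩⟩ := exists_chartN (k := k) hm
  have := chart_ufd C (Localization.AtPrime m)
  have h : m.primeCompl ≤ p.primeCompl := fun x hx hp => hx (hle hp)
  letI := IsLocalization.localizationAlgebraOfSubmonoidLe (Localization.AtPrime m) B _ _ h
  have := IsLocalization.localization_isScalarTower_of_submonoid_le (Localization.AtPrime m) B _ _ h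
  have := IsLocalization.isLocalization_of_submonoid_le (Localization.AtPrime m) B _ _ h
  exact UniqueFactorizationMonoid.of_isLocalization
    (p.primeCompl.map (algebraMap A (Localization.AtPrime m))) B

open AlgebraicGeometry CategoryTheory in
/-- stalks of smooth integral schemes over an algebraically closed field are factorial -/
theorem stalk_ufd [IsAlgClosed k] {Y : Scheme.{0}} [IsIntegral Y] (s : Y ⟶ Spec (.of k))
    [Smooth s] (y : Y) : UniqueFactorizationMonoid (Y.presheaf.stalk y) := by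
  obtain ⟨_, ⟨V, hV, rfl⟩, hy, -⟩ := Y.isBasis_affineOpens.exists_subset_of_mem_open
    (Set.mem_univ y) isOpen_univ
  have h1 := s.smooth_appLE (isAffineOpen_top _) hV (V := V) le_top
  have h2 : ((Scheme.ΓSpecIso (.of k)).inv ≫ s.appLE ⊤ V le_top).hom.Smooth :=
    RingHom.Smooth.stableUnderComposition _ _
      (RingHom.Smooth.of_bijective (Scheme.ΓSpecIso (.of k)).symm.commRingCatIsoToRingEquiv.bijective)
      h1
  letI := ((Scheme.ΓSpecIso (.of k)).inv ≫ s.appLE ⊤ V le_top).hom.toAlgebra
  have h3 : Algebra.Smooth k Γ(Y, V) := h2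
  have : Nonempty V := ⟨⟨y, hy⟩⟩
  letI := Y.presheaf.algebra_section_stalk (⟨y, hy⟩ : V)
  have := hV.isLocalization_stalk ⟨y, hy⟩
  exact smooth_ufd k (hV.primeIdealOf ⟨y, hy⟩).asIdeal _

end Pool.Agent.Lib.MV.UFD
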