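import Pool.Agent.Lib.MV.Blue
import Pool.Agent.Lib.MV.UFD
import Pool.Agent.Lib.MV.EndDefs
import Pool.Agent.Lib.MP_e39d36_ag.Sch4

open AlgebraicGeometry CategoryTheory Order Pool.Agent.Lib.MP_e39d36_ag

set_option linter.unusedSectionVars false
set_option linter.style.haveILetI false
set_option linter.unusedVariables false

noncomputable section

namespace Pool.Agent.Lib.MV

variable {Y : Scheme.{0}} [IsIntegral Y] [IsLocallyNoetherian Y] (s : Y ⟶ Spec (.of ℂ))

lemma SchB.fs [Smooth s] : letI := algK s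
    ∀ (c : Coord Y) (z : Y), Algebra.FormallySmooth ℂ (c.var.O z) := by
  letI := algK s
  intro c y
  obtain ⟨_, ⟨V, hV, rfl⟩, hy, -⟩ := Y.isBasis_affineOpens.exists_subset_of_mem_open
    (Set.mem_univ y) isOpen_univ
  have h1 := s.smooth_appLE (isAffineOpen_top _) hV (V := V) le_top
  have h2 : ((Scheme.ΓSpecIso (.of ℂ)).inv ≫ s.appLE ⊤ V le_top).hom.Smooth :=
    RingHom.Smooth.stableUnderComposition _ _
      (RingHom.Smooth.of_bijective (Scheme.ΓSpecIso (.of ℂ)).symm.commRingCatIsoToRingEquiv.bijective)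
      h1
  letI := ((Scheme.ΓSpecIso (.of ℂ)).inv ≫ s.appLE ⊤ V le_top).hom.toAlgebra
  have h3 : Algebra.Smooth ℂ Γ(Y, V) := h2
  letI := Y.presheaf.algebra_section_stalk (⟨y, hy⟩ : V)
  have h4 := hV.isLocalization_stalk ⟨y, hy⟩
  letI : Algebra Γ(Y, V) (c.var.O y) :=
    ((eqO y).toRingHom.comp (algebraMap Γ(Y, V) (Y.presheaf.stalk y))).toAlgebra
  have h5 : IsLocalization.AtPrime (c.var.O y) (hV.primeIdealOf ⟨y, hy⟩).asIdeal :=
    IsLocalization.isLocalization_of_algEquiv _ (S := Y.presheaf.stalk y)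
      { eqO y with commutes' := fun _ => rfl }
  haveI : IsScalarTower ℂ Γ(Y, V) (c.var.O y) := .of_algebraMap_eq fun a => Subtype.ext (by
    have hg : genericPoint Y ∈ V := ((genericPoint_spec Y).specializes trivial).mem_open V.2 hy
    refine Eq.trans ?_ (alg_germ hg hy _).symm
    exact (Y.presheaf.germ_res_apply (homOfLE le_top) _ hg _).symm)
  haveI := Algebra.FormallySmooth.of_isLocalization (Rₘ := c.var.O y)
    (hV.primeIdealOf ⟨y, hy⟩).asIdeal.primeCompl
  exact Algebra.FormallySmooth.comp ℂ Γ(Y, V) _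

theorem sch_end (hSM : St_SM) (D : Dat)
    (H : ∀ (K : Type) [Field K] [Algebra ℂ K] (M : D.Mod K), End.Cone M.Γ) [Smooth s]
    (hY : IsProjective s) (x : ∀ i, Fin (D.n i + 1) → Y.functionField)
    (h : letI := algK s; D.IsHyp x OX (coheight · = 1)) :
    ∃ S : Set (CDiv Y), S.Finite ∧ Covers s (cone S) ∧ ∀ φ L, IsPull s φ L → L ≠ 1 →
      interior (cone S) ∩ L '' interior (cone S) = ∅ := by
  letI := algK s
  have hu := UFD.stalk_ufd s
  obtain ⟨c⟩ := exists_coord' hY (algK_spec _) fun y => by haveI := hu y; infer_instance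
  have hf := SchB.fs s c
  obtain ⟨S, h1, h2, h3⟩ := H _ ⟨c.var, c.prj, c.curves, x, h, hf, hSM _ _ hf fun z =>
    (eqO z).toMulEquiv.uniqueFactorizationMonoid (hu z)⟩
  simp only [Var.Curves.Covers, c.isPull_iff] at h2 h3
  exact ⟨S, h1, h2, h3⟩

end Pool.Agent.Lib.MV
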