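import Pool.Agent.Lib.MV.Lat2Blue

open Set Submodule
open scoped NNReal

noncomputable section

namespace Pool.Agent.Lib.MV.Lat

variable {ι : Type} [Fintype ι] [DecidableEq ι] (n : ι → ℕ) {r : ι → ℕ}

/-- Sum of the degrees on the sections `L` over the line `e`. -/
def lam (i j : ι) (e : F (r j)) (L : List (F (r i))) : V r →ₗ[ℝ] ℝ :=
  (L.map fun w => dot e ∘ₗ LinearMap.proj j ∘ₗ Bf n i w).sum

variable {n}

lemma lam_nil (i j : ι) (e : F (r j)) : lam n i j e [] = 0 := rfl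

lemma lam_cons (i j : ι) (e : F (r j)) (w : F (r i)) (L : List (F (r i))) (x : V r) :
    lam n i j e (w :: L) x = dot e (Bf n i w x j) + lam n i j e L x := rfl

/-- Nef classes on the divisors over the lines. -/
def Nef (G : Geo n r) : Prop := ∀ i j, j ≠ i → Bad (r i) → ∀ e : F (r j), Line e →
  ∀ L : List (F (r i)), (∀ w ∈ L, IsZ w ∧ dot w (kk 2 (r i)) = 1) →
    (∀ w ∈ L, 0 ≤ lam n i j e L (vh n i w)) → (∀ x ∈ G.Mov, 0 ≤ lam n i j e L x) ∧
      ∀ x ∈ G.Eff, ∃ m : ℝ, x - m • sl j e ∈ G.Eff ∧ 0 ≤ lam n i j e L (x - m • sl j e)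

/-- The lists of sections attached to a marking. -/
def St_NUM : Prop := ∀ (ι : Type) [Fintype ι] [DecidableEq ι] (n r : ι → ℕ) (i j : ι), j ≠ i →
  n j = 2 → Bad (r i) → ∀ e : F (r j), Line e → ∀ (H : F (r i)) (e' : Fin (r i) → F (r i)),
    IsMk H e' → ∃ (L : List (F (r i))) (C : ℝ), 0 < C ∧
      (∀ w ∈ L, IsZ w ∧ dot w (kk 2 (r i)) = 1) ∧ (∀ w ∈ L, 0 ≤ lam n i j e L (vh n i w)) ∧
      ∀ x, lam n i j e L x = C * (cc (r i) * dot (x j) e + dot (x i) H)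

/-- The two hypotheses of the lattice theorem. -/
def St_HVR : Prop := ∀ (ι : Type) [Fintype ι] [DecidableEq ι] (n r : ι → ℕ) (G : Geo n r),
  Ok7 n r → Nef G → HV G ∧ HR G

end Pool.Agent.Lib.MV.Lat
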