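import Pool.Agent.Lib.MV.End
import Pool.Agent.Lib.MV.Lat2Nef

open Set Submodule Pool.Agent.Lib.MP_e39d36_ag Pool.Agent.Lib.MP_e39d36_ag.Var
  Pool.Agent.Lib.MV.Lat
open scoped NNReal

set_option linter.unusedSectionVars false
set_option linter.style.haveILetI false

noncomputable section

namespace Pool.Agent.Lib.MV.End

variable {K : Type} [Field K] [Algebra ℂ K] {X : Var K} {Γ : Curves X}
  {hc : ∀ D : X.PD →₀ ℤ, Cart D} {ι : Type} [Fintype ι] [DecidableEq ι] {n r : ι → ℕ}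
  {st : (i : ι) → Option (Fin (r i)) → X.PD →₀ ℤ} {R : (i : ι) → Fin (r i) → X.PD}

lemma rg_of_basis {T : Module.End ℝ (V r)} {φ : RingAut K} {e : X.PD ≃ X.PD} (hp : Ps φ e)
    (h : ∀ i o, (T (sl i (hh o)), push e (st i o)) ∈ RG st) (x : V r) (D : X.PD →₀ ℤ)
    (hx : (x, D) ∈ RG st) : (T x, push e D) ∈ RG st := by
  obtain ⟨l, h1, h2⟩ := hx
  refine rg_le ?_ (h2.push hp)
  rw [expand_V x]
  simp only [map_sum, map_smul, map_zsmul, show ∀ i o, x i o = l i o from h1]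
  exact rg_sum fun i _ => rg_sum fun o _ => rg_zsmul (h i o) _

lemma mv_rg {i : ι} {A : Module.End ℝ (F (r i))} {ψ : F (r i) →ₗ[ℝ] ℝ} {e : X.PD ≃ X.PD}
    (ho : Over st i e) (h1 : (mv n i A ψ (sl i (hh none)), push e (st i none)) ∈ RG st)
    (h2 : ∀ a, (mv n i A ψ (sl i (ee a)), push e (dE st i a)) ∈ RG st) :
    ∀ x D, (x, D) ∈ RG st → (mv n i A ψ x, push e D) ∈ RG st := by
  obtain ⟨⟨φ, hp⟩, h3⟩ := ho
  refine rg_of_basis hp fun j o => ?_
  by_cases hj : j = i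
  · subst hj
    cases o with
    | none => exact h1
    | some a =>
      have := (RG st).sub_mem h1 (h2 a)
      rw [hh_some, map_sub, map_sub]
      simpa [dE] using this
  · rw [mv_of_zero (sl_ne (Ne.symm hj) _)]
    exact rg_le (rg_st j o) (h3 j hj o)

lemma sigh_rg {i : ι} {a : Fin (r i)} {e : X.PD ≃ X.PD} (h1 : Over st i e)
    (h2 : LE (push e (st i none)) ((2 : ℤ) • st i none - (3 : ℤ) • dE st i a + dW n st i))
    (h3 : LE (push e (dE st i a)) (st i none - (2 : ℤ) • dE st i a + dW n st i))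
    (h4 : ∀ b, b ≠ a → LE (push e (dE st i b)) (st i none - dE st i a - dE st i b)) :
    ∀ x D, (x, D) ∈ RG st → (sig n i (hh (some a)) x, push e D) ∈ RG st := by
  have h0 : NN (hh (some a) : F (r i)) = hh none - ee a := by
    rw [NN, dot_h, dg_hh, ← hh_some]; simp [hh]
  refine mv_rg h1 (rg_le (rg_eq (rg_add (rg_sub (rg_zsmul (rg_st i none) 2)
    (rg_zsmul (rg_E i a) 3)) (rg_W i)) ?_) h2) fun b => ?_
  · simp only [mv_sl, h0]
    simp only [hh_some, LinearMap.sub_apply, LinearMap.smulRight_apply, map_sub,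
      map_smul, dot_comm (kk 2 _), dot_Hk, dot_HH, dot_comm (ee a), dot_He, Module.End.one_apply]
    push_cast
    module
  by_cases hb : b = a
  · subst hb
    refine rg_le (rg_eq (rg_add (rg_sub (rg_st i none) (rg_zsmul (rg_E i b) 2)) (rg_W i)) ?_) h3
    simp only [mv_sl, h0]
    simp only [hh_some, LinearMap.sub_apply, LinearMap.smulRight_apply, map_sub,
      map_smul, dot_comm (kk 2 _), dot_ek, dot_He, dot_ee, Module.End.one_apply, if_true]
    push_cast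
    module
  · refine rg_le (rg_eq (rg_sub (rg_sub (rg_st i none) (rg_E i a)) (rg_E i b)) ?_) (h4 b hb)
    simp only [mv_sl, h0]
    simp only [hh_some, LinearMap.sub_apply, LinearMap.smulRight_apply, map_sub,
      map_smul, dot_comm (kk 2 _), dot_ek, dot_He, dot_ee, Module.End.one_apply,
      if_neg (Ne.symm hb)]
    module

lemma sige_rg {i : ι} {a : Fin (r i)} {e : X.PD ≃ X.PD} (h1 : Over st i e)
    (h2 : LE (push e (st i none)) ((6 : ℤ) • dE st i a - st i none + (6 : ℤ) • dW n st i))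
    (h3 : LE (push e (dE st i a)) (dE st i a))
    (h4 : ∀ b, b ≠ a → LE (push e (dE st i b))
      ((2 : ℤ) • dE st i a - dE st i b + (2 : ℤ) • dW n st i)) :
    ∀ x D, (x, D) ∈ RG st → (sig n i ((2 : ℝ) • ee a) x, push e D) ∈ RG st := by
  have h0 : NN ((2 : ℝ) • ee a : F (r i)) = (2 : ℝ) • ee a + (2 : ℝ) • kk 2 (r i) := by
    simp only [NN, map_smul, LinearMap.smul_apply, dot_ee, if_true, smul_eq_mul]
    module
  refine mv_rg h1 (rg_le (rg_eq (rg_add (rg_sub (rg_zsmul (rg_E i a) 6) (rg_st i none))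
    (rg_zsmul (rg_W i) 6)) ?_) h2) fun b => ?_
  · simp only [mv_sl, h0]
    simp only [LinearMap.sub_apply, LinearMap.smulRight_apply, map_sub, map_add,
      LinearMap.add_apply, LinearMap.smul_apply, smul_eq_mul,
      map_smul, dot_comm (kk 2 _), dot_Hk, dot_comm (ee a), dot_He, Module.End.one_apply]
    push_cast
    module
  by_cases hb : b = a
  · subst hb
    refine rg_le (rg_eq (rg_E i b) ?_) h3
    simp only [mv_sl, h0]
    simp only [LinearMap.sub_apply, LinearMap.smulRight_apply, map_sub, map_add,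
      LinearMap.add_apply, LinearMap.smul_apply, smul_eq_mul,
      map_smul, dot_comm (kk 2 _), dot_ek, dot_ee, Module.End.one_apply, if_true]
    module
  · refine rg_le (rg_eq (rg_add (rg_sub (rg_zsmul (rg_E i a) 2) (rg_E i b))
      (rg_zsmul (rg_W i) 2)) ?_) (h4 b hb)
    simp only [mv_sl, h0]
    simp only [LinearMap.sub_apply, LinearMap.smulRight_apply, map_sub, map_add,
      LinearMap.add_apply, LinearMap.smul_apply, smul_eq_mul,
      map_smul, dot_comm (kk 2 _), dot_ek, dot_ee, Module.End.one_apply, if_neg (Ne.symm hb)]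
    push_cast
    module

namespace Inp

variable (I : Inp Γ hc n st R)

include I

lemma iot_mem7 (ok : ∀ i, 0 < r i → n i = 2) (j : ι) (hj : n j = 1) : Lat.iot n j ∈ Gm st := by
  obtain ⟨e, h1, h2⟩ := I.iot j hj
  refine mv_mem_Gm h1 (rg_le (rg_eq (rg_sub (rg_W j) (rg_st j none)) ?_) h2)
    fun a => absurd (ok j a.pos) (by omega)
  simp only [mv_sl, dot_HH, LinearMap.neg_apply, Module.End.one_apply, map_neg]
  module

/-- The lattice data of a model. -/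
def geo7 (ok : ∀ i, 0 < r i → n i = 2) (Q : Prj X) : Geo n r where
  PD := X.PD
  pc E := I.Φ.symm (nc Γ hc (Finsupp.single E 1))
  Fr E :=
    { carrier := {x | ∃ D, (x, D) ∈ RG st ∧ 0 ≤ D ∧ D E = 0}
      zero_mem' := ⟨0, (RG st).zero_mem, le_rfl, rfl⟩
      add_mem' := by
        rintro x y ⟨D, h1, h2, h3⟩ ⟨D', h4, h5, h6⟩
        exact ⟨D + D', (RG st).add_mem h1 h4, add_nonneg h2 h5, by simp [h3, h6]⟩ }
  Eff := I.cm (Γ.cone {D | 0 ≤ D.1})
  Mov := I.cm Γ.movC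
  Γ := Gm st
  fr_int := fun _ _ ⟨_, h, _⟩ => rg_int h
  fr_h E i o := by
    obtain ⟨f, h1, h2, h3⟩ := I.mov i o E
    exact ⟨_, rg_le (rg_st i o) ⟨f, h1, rfl⟩, h2, h3⟩
  fr_e E i a h := by
    have h1 := rg_le (rg_E i a) (I.sec i a).symm
    refine ⟨_, h1, Finsupp.single_nonneg.2 zero_le_one, Finsupp.single_eq_of_ne ?_⟩
    rintro rfl
    exact h (I.symm_rg h1)
  fr_mov x hx h := by
    obtain ⟨D, hD⟩ := rg_ex (st := st) hx
    refine subset_closure (subset_span ⟨⟨D, hc D⟩, fun E => ?_, rg_nc hD⟩)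
    obtain ⟨D', h1, h2, h3⟩ := h E
    obtain ⟨f, h4, rfl⟩ := rg_uniq h1 hD
    exact ⟨f, h4, h2, h3⟩
  mov_cl := by
    haveI := I.fd
    exact isClosed_closure.preimage I.Φ.toLinearMap.continuous_of_finiteDimensional
  eff_h i o := Γ.cone_mov_le (subset_span ⟨⟨_, hc _⟩, I.mov i o, rg_nc (rg_st i o)⟩)
  eff_e i a := I.eff_of (rg_nc (rg_le (rg_E i a) (I.sec i a).symm))
    (Finsupp.single_nonneg.2 zero_le_one)
  eff_gen x hx := I.map_cone LinearMap.id (fun D hD => by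
    obtain ⟨N, h1, h2⟩ := I.rat D.1
    have h3 : (0 : ℝ) < N := by exact_mod_cast h1
    have h4 := CG.smul_mem' (C := span ℝ≥0 {x | x ∈ I.cm (Γ.cone {D | 0 ≤ D.1}) ∧ IsZV x})
      (inv_pos.2 h3).le (subset_span ⟨CG.smul_mem' h3.le
        (I.eff_of (I.Φ.apply_symm_apply _).symm hD), h2⟩)
    rwa [inv_smul_smul₀ h3.ne'] at h4) hx
  sal x h h' := by
    haveI := I.fd
    rw [I.cl_cm] at h h'
    rw [map_neg] at h'
    exact I.inj x (Γ.salient Q h h')
  posp j h1 h2 x hx := by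
    have := I.map_cone ((LinearMap.proj none : F (r j) →ₗ[ℝ] ℝ) ∘ₗ LinearMap.proj j)
      (C := span ℝ≥0 (Ici (0 : ℝ)))
      (fun D hD => subset_span (I.posp j h1 h2 D.1 _ hD (I.Φ.apply_symm_apply _).symm)) hx
    exact CG.nonneg_of_mem_span LinearMap.id (fun _ h => h) this
  res i a x hx := by
    refine map_mem_closure (Bf n i (ee a)).continuous_of_finiteDimensional
      ((I.cl_cm (C := Γ.cone {D | Mov D.1})).2 hx) fun y hy => I.map_cone _ (fun D hD => ?_) hy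
    obtain ⟨f, h1, h2, h3⟩ := hD (R i a)
    obtain ⟨D', h4, h5⟩ := I.res i a (D.1 + X.div f) _ h2 h3
      ((LE.nc_eq Γ hc ⟨f, h1, rfl⟩).trans (I.Φ.apply_symm_apply _).symm)
    refine I.eff_of (h5.trans ?_) h4
    rw [rg_nc (rg_W i), Bf, mv_apply, map_add, map_smul, dot_ee]
    simp [dot_comm (ee a), dot_e]
  Γ_int := by
    rintro T ⟨φ, e, -, h⟩ x hx
    obtain ⟨D, hD⟩ := rg_ex (st := st) hx
    exact rg_int (h x D hD)
  Γ_eff T hT x hx := by
    haveI := I.fd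
    obtain ⟨φ, L, h1, h2⟩ := I.isPull hT
    rw [mem_cm, ← h2]
    refine CG.map_mem_span L.toLinearMap ?_ hx
    rintro _ ⟨D, hD, rfl⟩
    obtain ⟨D', h3, -, h4⟩ := h1.exists_map D
    exact subset_span ⟨D', h4 hD, h3.symm⟩
  Γ_mov T hT x hx := by
    haveI := I.fd
    obtain ⟨φ, L, h1, h2⟩ := I.isPull hT
    rw [mem_cm, ← h2]
    exact (Γ.map_mem Γ L.toLinearMap h1.exists_map).2.1 _ hx
  Γ_fr := by
    rintro T ⟨φ, e, hp, h⟩
    refine ⟨e, fun E => I.Φ.symm_apply_eq.2 ?_, ?_⟩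
    · rw [← I.nc_push hp h]
      exact congrArg _ (Finsupp.equivMapDomain_single e E 1).symm
    · rintro E x ⟨D, h1, h2, h3⟩
      exact ⟨_, h x D h1, fun F => h2 _, by simpa using h3⟩
  sig_h := I.sig_h
  sig_e := I.sig_e
  iot_mem := I.iot_mem7 ok

theorem fin0 (ok : ∀ i, 0 < r i → n i = 2) (Q : Prj X) (hL : ∃ S : Set (V r), S.Finite ∧
    (∀ x ∈ S, IsZV x ∧ x ∈ (I.geo7 ok Q).Mov ∧ x ∈ (I.geo7 ok Q).Eff) ∧
    ∀ x ∈ (I.geo7 ok Q).Mov, x ∈ (I.geo7 ok Q).Eff →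
      ∃ T ∈ (I.geo7 ok Q).Γ, ∃ y ∈ span ℝ≥0 S, T y = x) : Cone Γ := by
  haveI := I.fd
  obtain ⟨S, h1, h2, h3⟩ := hL
  have hΛ : I.Φ '' S ⊆ Γ.Λ := by
    rintro _ ⟨x, hx, rfl⟩
    obtain ⟨D, hD⟩ := rg_ex (st := st) (h2 x hx).1
    exact ⟨⟨D, hc D⟩, rg_nc hD⟩
  have hE : I.Φ '' S ⊆ Γ.movE := by
    rintro _ ⟨x, hx, rfl⟩
    exact (h2 x hx).2
  have h4 : ∀ x ∈ Γ.movE, ∃ γ ∈ Γ.rho.range, ∃ y ∈ span ℝ≥0 (I.Φ '' S), γ y = x := fun x hx => by
    obtain ⟨x, rfl⟩ := I.Φ.surjective x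
    obtain ⟨T, h5, y, h6, rfl⟩ := h3 x hx.1 hx.2
    obtain ⟨φ, L, h7, h8⟩ := I.isPull h5
    exact ⟨L, Γ.mem_range_rho.2 ⟨φ, h7⟩, _,
      CG.map_mem_span I.Φ.toLinearMap (fun v hv => subset_span (mem_image_of_mem _ hv)) h6, h8 y⟩
  have h5 : ∀ γ ∈ Γ.rho.range, ∀ x ∈ Γ.movE, γ x ∈ Γ.movE := by
    rintro _ ⟨b, rfl⟩
    exact (Γ.map_mem Γ (Γ.rho b).toLinearMap (Γ.isPull_rho b).exists_map).2.2
  obtain ⟨P, h6, h7, h8, h9⟩ := (Γ.setup Q).fund Γ.movE inf_le_left h5 (h1.image _) hΛ hE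
    ((Γ.interior_cone Q).mono (interior_mono subset_closure))
    (fun x hx => h4 x (Γ.interior_movC Q hx)) fun x hx => by
      obtain ⟨γ, a1, y, a2, rfl⟩ := h4 x hx
      refine ⟨γ '' (I.Φ '' S), (h1.image _).image _, ?_, ?_,
        CG.map_mem_span γ.toLinearMap (fun v hv => subset_span (mem_image_of_mem _ hv)) a2⟩
      · rintro _ ⟨v, hv, rfl⟩
        exact (Γ.setup Q).ΓΛ γ a1 v (hΛ hv)
      · rintro _ ⟨v, hv, rfl⟩
        exact (h5 γ a1 v (hE hv)).1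
  obtain ⟨S', -, a1, rfl⟩ := SurjOn.exists_subset_injOn_image_eq (s := univ) (f := Γ.cls) (t := P)
    fun x hx => image_univ.ge (h7 hx)
  exact ⟨S', h6.of_finite_image a1, Curves.covers_iff.2 h8,
    fun φ T h => h9 T (Γ.mem_range_rho.2 ⟨φ, h⟩)⟩

theorem fin7 (hL : St_LAT7) (hH : St_HVR) (ok : Ok7 n r) (Q : Prj X) (h : Nef (I.geo7 ok.n2 Q)) :
    Cone Γ :=
  I.fin0 ok.n2 Q (hL ι n r _ ok (hH ι n r _ ok h).1 (hH ι n r _ ok h).2)

end Inp

end Pool.Agent.Lib.MV.End
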