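import Pool.Agent.Lib.MV.EndDefs

open Set Submodule Pool.Agent.Lib.MP_e39d36_ag Pool.Agent.Lib.MP_e39d36_ag.Var
  Pool.Agent.Lib.MV.Lat
open scoped NNReal

set_option linter.unusedSectionVars false
set_option linter.style.haveILetI false

noncomputable section

namespace Pool.Agent.Lib.MV.End

variable {K : Type} [Field K] [Algebra ℂ K] {X : Var K} {Γ : Curves X}
  {hc : ∀ D : X.PD →₀ ℤ, Cart D} {ι : Type} [Fintype ι] [DecidableEq ι] {n r : ι → ℕ}
  {st : (i : ι) → Option (Fin (r i)) → X.PD →₀ ℤ} {R : (i : ι) → Fin (r i) → X.PD}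

variable (st) in
/-- Pairs of a lattice point and a divisor in its linear equivalence class. -/
def RG : AddSubgroup (V r × (X.PD →₀ ℤ)) where
  carrier := {p | ∃ l : (i : ι) → Option (Fin (r i)) → ℤ, (∀ i o, p.1 i o = l i o) ∧
    LE p.2 (∑ i, ∑ o, l i o • st i o)}
  zero_mem' := ⟨0, by simp, by simpa using LE.refl 0⟩
  add_mem' := by
    rintro p q ⟨l, h1, h2⟩ ⟨m, h3, h4⟩
    exact ⟨l + m, fun i o => by simp [h1, h3],
      by simpa [add_smul, Finset.sum_add_distrib] using h2.add h4⟩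
  neg_mem' := by
    rintro p ⟨l, h1, h2⟩
    exact ⟨-l, fun i o => by simp [h1],
      h2.neg.trans (LE.of_eq (by simp only [Pi.neg_apply, neg_smul, Finset.sum_neg_distrib]))⟩

section rg

variable {x : V r} {D D' : X.PD →₀ ℤ}

lemma rg_int (h : (x, D) ∈ RG st) : IsZV x := fun i o => ⟨_, h.choose_spec.1 i o⟩

lemma rg_le (h : (x, D) ∈ RG st) (h' : LE D' D) : (x, D') ∈ RG st :=
  h.imp fun _ h => ⟨h.1, h'.trans h.2⟩

lemma rg_uniq (h : (x, D) ∈ RG st) (h' : (x, D') ∈ RG st) : LE D D' := by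
  obtain ⟨l, h1, h2⟩ := h
  obtain ⟨m, h3, h4⟩ := h'
  obtain rfl : l = m := funext fun i => funext fun o => by
    exact_mod_cast (h1 i o).symm.trans (h3 i o)
  exact h2.trans h4.symm

lemma rg_ex (h : IsZV x) : ∃ D, (x, D) ∈ RG st := by
  choose l hl using h
  exact ⟨_, l, hl, LE.refl _⟩

lemma rg_nc (h : (x, D) ∈ RG st) : nc Γ hc D = cl Γ hc st x := by
  obtain ⟨l, h1, h2⟩ := h
  rw [h2.nc_eq Γ hc, cl_apply]
  simp only [map_sum, map_zsmul, show ∀ i o, x i o = l i o from h1]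
  exact Finset.sum_congr rfl fun i _ => Finset.sum_congr rfl fun o _ =>
    (Int.cast_smul_eq_zsmul ℝ _ _).symm

lemma rg_st (i : ι) (o : Option (Fin (r i))) : (sl i (hh o), st i o) ∈ RG st := by
  refine ⟨Pi.single i (Pi.single o 1), fun j p => ?_, LE.of_eq ?_⟩
  · by_cases h : j = i
    · subst h; simp [sl_self, hh, Pi.single_apply]
    · simp [sl_ne h, h]
  · rw [Finset.sum_eq_single i (fun j _ h => by simp [h]) (by simp)]
    simp [Pi.single_apply]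

lemma rg_zsmul (h : (x, D) ∈ RG st) (m : ℤ) : ((m : ℝ) • x, m • D) ∈ RG st := by
  rw [Int.cast_smul_eq_zsmul]
  exact (RG st).zsmul_mem h m

lemma rg_add {y : V r} (h : (x, D) ∈ RG st) (h' : (y, D') ∈ RG st) : (x + y, D + D') ∈ RG st :=
  (RG st).add_mem h h'

lemma rg_sub {y : V r} (h : (x, D) ∈ RG st) (h' : (y, D') ∈ RG st) : (x - y, D - D') ∈ RG st :=
  (RG st).sub_mem h h'

lemma rg_eq {y : V r} (h : (x, D) ∈ RG st) (h' : y = x) : (y, D) ∈ RG st := h' ▸ h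

lemma rg_E (i : ι) (a : Fin (r i)) : (sl i (ee a), dE st i a) ∈ RG st := by
  rw [ee, map_sub]
  exact (RG st).sub_mem (rg_st i none) (rg_st i (some a))

lemma rg_sum {α : Type*} {s : Finset α} {f : α → V r} {g : α → X.PD →₀ ℤ}
    (h : ∀ a ∈ s, (f a, g a) ∈ RG st) : (∑ a ∈ s, f a, ∑ a ∈ s, g a) ∈ RG st := by
  rw [prod_mk_sum]
  exact (RG st).sum_mem h

lemma rg_K (j : ι) : (sl j (kk (n j) (r j)), dK n st j) ∈ RG st := by
  have := (RG st).sub_mem (rg_zsmul (rg_st j none) ((n j : ℤ) + 1))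
    (rg_sum (s := Finset.univ) fun a _ => rg_E j a)
  rw [kk_eq, map_sub, map_smul, map_sum]
  simpa [dK] using this

lemma rg_W (i : ι) : (kW n r i, dW n st i) ∈ RG st := by
  have h : kW n r i = ∑ j ∈ Finset.univ.erase i, sl j (kk (n j) (r j)) := by
    rw [← sum_sl (kW n r i), ← Finset.add_sum_erase _ _ (Finset.mem_univ i), kW_self, map_zero,
      zero_add]
    exact Finset.sum_congr rfl fun j hj => by rw [kW_ne (Finset.ne_of_mem_erase hj)]
  rw [h]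
  exact rg_sum fun j _ => rg_K j

lemma expand_V (x : V r) : x = ∑ i, ∑ o, x i o • sl i (hh o) := by
  refine (sum_sl x).symm.trans (Finset.sum_congr rfl fun i _ => ?_)
  simp only [← map_smul, ← map_sum]
  congr 1
  funext o
  simp [hh, Finset.sum_apply, Pi.single_apply]

end rg

lemma Ps.one : Ps (X := X) 1 (Equiv.refl _) := ⟨fun _ => rfl, fun _ _ => rfl⟩

lemma Ps.mul {φ φ' : RingAut K} {e e' : X.PD ≃ X.PD} (h : Ps φ e) (h' : Ps φ' e') :
    Ps (φ * φ') (e'.trans e) :=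
  ⟨fun a => (congrArg φ (h'.1 a)).trans (h.1 a), fun f E => (h.2 _ _).trans (h'.2 f E)⟩

lemma Ps.inv {φ : RingAut K} {e : X.PD ≃ X.PD} (h : Ps φ e) : Ps φ⁻¹ e.symm :=
  ⟨fun a => φ.symm_apply_eq.2 (h.1 a).symm, fun f E => by
    rw [← h.2, e.apply_symm_apply]
    exact congrArg (X.ord · E.1) (φ.apply_symm_apply f)⟩

variable (st) in
/-- Pull-back maps that respect the standard divisors. -/
def Gm : Submonoid (Module.End ℝ (V r)) where
  carrier := {T | ∃ φ e, Ps φ e ∧ ∀ x D, (x, D) ∈ RG st → (T x, push e D) ∈ RG st}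
  one_mem' := ⟨1, _, Ps.one, fun _ _ h => rg_le h (LE.of_eq (Finsupp.ext fun _ => rfl))⟩
  mul_mem' := by
    rintro T T' ⟨φ, e, h1, h2⟩ ⟨φ', e', h3, h4⟩
    exact ⟨_, _, h1.mul h3, fun x D h =>
      rg_le (h2 _ _ (h4 x D h)) (LE.of_eq (Finsupp.ext fun _ => rfl))⟩

lemma mem_Gm {T : Module.End ℝ (V r)} {φ : RingAut K} {e : X.PD ≃ X.PD} (hp : Ps φ e)
    (h : ∀ i o, (T (sl i (hh o)), push e (st i o)) ∈ RG st) : T ∈ Gm st := by
  refine ⟨φ, e, hp, ?_⟩
  rintro x D ⟨l, h1, h2⟩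
  refine rg_le ?_ (h2.push hp)
  rw [expand_V x]
  simp only [map_sum, map_smul, map_zsmul, show ∀ i o, x i o = l i o from h1]
  exact rg_sum fun i _ => rg_sum fun o _ => rg_zsmul (h i o) _

lemma mv_mem_Gm {i : ι} {A : Module.End ℝ (F (r i))} {ψ : F (r i) →ₗ[ℝ] ℝ} {e : X.PD ≃ X.PD}
    (ho : Over st i e) (h1 : (mv n i A ψ (sl i (hh none)), push e (st i none)) ∈ RG st)
    (h2 : ∀ a, (mv n i A ψ (sl i (ee a)), push e (dE st i a)) ∈ RG st) : mv n i A ψ ∈ Gm st := by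
  obtain ⟨⟨φ, hp⟩, h3⟩ := ho
  refine mem_Gm hp fun j o => ?_
  by_cases hj : j = i
  · subst hj
    cases o with
    | none => exact h1
    | some a =>
      have := (RG st).sub_mem h1 (h2 a)
      rw [hh_some, map_sub, map_sub]
      simpa [dE] using this
  · rw [mv_of_zero (sl_ne (Ne.symm hj) _)]
    exact rg_le (rg_st j o) (h3 j hj o)

namespace Inp

variable (I : Inp Γ hc n st R)

include I

/-- The identification of the numerical classes with coordinates. -/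
def Φ : V r ≃ₗ[ℝ] Γ.N1 :=
  LinearEquiv.ofBijective (cl Γ hc st) ⟨(injective_iff_map_eq_zero _).2 I.inj,
    LinearMap.range_eq_top.1 (top_le_iff.1 (Γ.span_cls.ge.trans (span_le.2 (by
      rintro _ ⟨D, rfl⟩
      exact (I.spn D.1).imp fun _ h => h.symm))))⟩

lemma Φ_apply (x : V r) : I.Φ x = cl Γ hc st x := rfl

lemma fd : FiniteDimensional ℝ Γ.N1 := I.Φ.finiteDimensional

lemma symm_rg {x : V r} {D : X.PD →₀ ℤ} (h : (x, D) ∈ RG st) : I.Φ.symm (nc Γ hc D) = x :=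
  I.Φ.symm_apply_eq.2 (rg_nc h)

lemma nc_push {T : Module.End ℝ (V r)} {φ : RingAut K} {e : X.PD ≃ X.PD} (hp : Ps φ e)
    (h : ∀ x D, (x, D) ∈ RG st → (T x, push e D) ∈ RG st) (D : X.PD →₀ ℤ) :
    nc Γ hc (push e D) = I.Φ (T (I.Φ.symm (nc Γ hc D))) := by
  rw [I.num φ e hp D _ (I.Φ.apply_symm_apply _).symm, cl_apply]
  conv_rhs => rw [expand_V (I.Φ.symm (nc Γ hc D))]
  simp only [map_sum, map_smul, rg_nc (h _ _ (rg_st _ _)), Φ_apply]

lemma isPull {T : Module.End ℝ (V r)} (hT : T ∈ Gm st) :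
    ∃ φ L, Γ.IsPull φ L ∧ ∀ x, L (I.Φ x) = I.Φ (T x) := by
  obtain ⟨φ, e, hp, h⟩ := hT
  let ε : X.CD ≃ X.CD := (push e).toEquiv.subtypeEquiv fun D => iff_of_true (hc _) (hc _)
  have h1 : ∀ D, (I.Φ.toLinearMap ∘ₗ T ∘ₗ I.Φ.symm.toLinearMap) (Γ.cls D) = Γ.cls (ε D) :=
    fun D => (I.nc_push hp h D.1).symm
  obtain ⟨L, hL⟩ := Γ.exists_equiv ε h1
    (g := cl Γ hc (fun i o => push e.symm (st i o)) ∘ₗ I.Φ.symm.toLinearMap) fun D =>
      (I.num _ _ hp.inv D.1 _ (I.Φ.apply_symm_apply _).symm).symm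
  refine ⟨φ, L, ⟨hp.1, e, ε, hp.2, fun D E => by simp [ε], hL⟩, fun x => ?_⟩
  have h2 : L.toLinearMap = I.Φ.toLinearMap ∘ₗ T ∘ₗ I.Φ.symm.toLinearMap :=
    Curves.lin_ext fun D => (hL D).trans (h1 D).symm
  simpa using LinearMap.congr_fun h2 (I.Φ x)

lemma rat (D : X.PD →₀ ℤ) : ∃ N : ℕ, 0 < N ∧ IsZV ((N : ℝ) • I.Φ.symm (nc Γ hc D)) := by
  obtain ⟨π, hπ⟩ := (Algebra.linearMap ℚ ℝ).exists_leftInverse_of_injective
    (LinearMap.ker_eq_bot.2 (algebraMap ℚ ℝ).injective)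
  have h0 : ∀ z : ℤ, π z = z := fun z => by simpa using LinearMap.congr_fun hπ (z : ℚ)
  set x := I.Φ.symm (nc Γ hc D)
  have h1 : ∀ c : {c // Γ.cv c}, ∑ i, ∑ o, x i o * (Γ.int (st i o) c.1 : ℝ) = Γ.int D c.1 :=
    fun c => by
    have := congrArg (Γ.evc c) (I.Φ.apply_symm_apply (nc Γ hc D))
    simp only [Φ_apply, cl_apply, map_sum, map_smul, smul_eq_mul] at this
    exact this
  have h2 : (fun i o => (π (x i o) : ℝ) : V r) = x := I.Φ.injective (Subtype.ext (funext fun c => by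
    rw [I.Φ.apply_symm_apply]
    have h3 := congrArg π (h1 c)
    simp only [map_sum, h0, mul_comm (x _ _), ← zsmul_eq_mul, map_zsmul] at h3
    have h4 : Γ.evc c (I.Φ fun i o => (π (x i o) : ℝ)) = Γ.int D c.1 := by
      simp only [Φ_apply, cl_apply, map_sum, map_smul, smul_eq_mul]
      have h5 := congrArg (Rat.cast : ℚ → ℝ) h3
      simp only [zsmul_eq_mul] at h5
      push_cast at h5
      simp only [mul_comm (_ : ℝ) (π _ : ℝ)] at h5
      exact h5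
    exact h4))
  refine ⟨∏ i, ∏ o, (π (x i o)).den, by positivity, fun i o => ?_⟩
  obtain ⟨m, hm⟩ : (π (x i o)).den ∣ ∏ i, ∏ o, (π (x i o)).den :=
    (Finset.dvd_prod_of_mem _ (Finset.mem_univ o)).trans
      (Finset.dvd_prod_of_mem (fun i => ∏ o, (π (x i o)).den) (Finset.mem_univ i))
  refine ⟨m * (π (x i o)).num, ?_⟩
  rw [hm, Pi.smul_apply, Pi.smul_apply, smul_eq_mul]
  have h6 := congrArg (Rat.cast : ℚ → ℝ) (Rat.den_mul_eq_num (π (x i o)))
  have h7 : (π (x i o) : ℝ) = x i o := congrFun (congrFun h2 i) o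
  push_cast at h6 ⊢
  rw [← h6, h7]
  ring

/-- Pull back a cone to coordinates. -/
def cm (C : Submodule ℝ≥0 Γ.N1) : Submodule ℝ≥0 (V r) :=
  C.comap (I.Φ.toLinearMap.restrictScalars ℝ≥0)

lemma mem_cm {C : Submodule ℝ≥0 Γ.N1} {x : V r} : x ∈ I.cm C ↔ I.Φ x ∈ C := Iff.rfl

lemma eff_of {x : V r} {D : X.PD →₀ ℤ} (h : nc Γ hc D = cl Γ hc st x) (h0 : 0 ≤ D) :
    x ∈ I.cm (Γ.cone {D | 0 ≤ D.1}) :=
  subset_span ⟨⟨D, hc D⟩, h0, h⟩

lemma map_cone {W : Type} [AddCommGroup W] [Module ℝ W] (f : V r →ₗ[ℝ] W) {S : Set X.CD}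
    {C : Submodule ℝ≥0 W} (h : ∀ D ∈ S, f (I.Φ.symm (nc Γ hc D.1)) ∈ C) {x : V r}
    (hx : x ∈ I.cm (Γ.cone S)) : f x ∈ C := by
  have := CG.map_mem_span (f ∘ₗ I.Φ.symm.toLinearMap) (E := C) (s := Γ.cls '' S)
    (by rintro _ ⟨D, hD, rfl⟩; exact h D hD) hx
  simpa using this

lemma cl_cm {C : Submodule ℝ≥0 Γ.N1} {x : V r} :
    x ∈ closure (I.cm C : Set (V r)) ↔ I.Φ x ∈ closure (C : Set Γ.N1) := by
  haveI := I.fd
  exact Set.ext_iff.1 (I.Φ.toContinuousLinearEquiv.toHomeomorph.preimage_closure C).symm x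

lemma sig_h (i : ι) (a : Fin (r i)) : sig n i (hh (some a)) ∈ Gm st := by
  obtain ⟨e, h1, h2, h3, h4⟩ := I.sigh i a
  have h0 : NN (hh (some a) : F (r i)) = hh none - ee a := by
    rw [NN, dot_h, dg_hh, ← hh_some]; simp [hh]
  refine mv_mem_Gm h1 (rg_le (rg_eq (rg_add (rg_sub (rg_zsmul (rg_st i none) 2)
    (rg_zsmul (rg_E i a) 3)) (rg_W i)) ?_) h2) fun b => ?_
  · simp only [mv_sl, h0]
    simp only [hh_some, LinearMap.sub_apply, LinearMap.smulRight_apply, map_sub,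
      map_smul, dot_comm (kk 2 _), dot_Hk, dot_HH, dot_comm (ee a), dot_He, Module.End.one_apply]
    push_cast
    module
  by_cases hb : b = a
  · subst hb
    refine rg_le (rg_eq (rg_add (rg_sub (rg_st i none) (rg_zsmul (rg_E i b) 2)) (rg_W i)) ?_) h3
    simp only [mv_sl, h0]
    simp only [hh_some, LinearMap.sub_apply, LinearMap.smulRight_apply, map_sub,
      map_smul, dot_comm (kk 2 _), dot_ek, dot_He, dot_ee, Module.End.one_apply, if_true]
    push_cast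
    module
  · refine rg_le (rg_eq (rg_sub (rg_sub (rg_st i none) (rg_E i a)) (rg_E i b)) ?_) (h4 b hb)
    simp only [mv_sl, h0]
    simp only [hh_some, LinearMap.sub_apply, LinearMap.smulRight_apply, map_sub,
      map_smul, dot_comm (kk 2 _), dot_ek, dot_He, dot_ee, Module.End.one_apply,
      if_neg (Ne.symm hb)]
    module

lemma sig_e (i : ι) (a : Fin (r i)) : sig n i ((2 : ℝ) • ee a) ∈ Gm st := by
  obtain ⟨e, h1, h2, h3, h4⟩ := I.sige i a
  have h0 : NN ((2 : ℝ) • ee a : F (r i)) = (2 : ℝ) • ee a + (2 : ℝ) • kk 2 (r i) := by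
    simp only [NN, map_smul, LinearMap.smul_apply, dot_ee, if_true, smul_eq_mul]
    module
  refine mv_mem_Gm h1 (rg_le (rg_eq (rg_add (rg_sub (rg_zsmul (rg_E i a) 6) (rg_st i none))
    (rg_zsmul (rg_W i) 6)) ?_) h2) fun b => ?_
  · simp only [mv_sl, h0]
    simp only [LinearMap.sub_apply, LinearMap.smulRight_apply, map_sub, map_add,
      LinearMap.add_apply, LinearMap.smul_apply, smul_eq_mul,
      map_smul, dot_comm (kk 2 _), dot_Hk, dot_comm (ee a), dot_He, Module.End.one_apply]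
    push_cast
    module
  by_cases hb : b = a
  · subst hb
    refine rg_le (rg_eq (rg_E i b) ?_) h3
    simp only [mv_sl, h0]
    simp only [LinearMap.sub_apply, LinearMap.smulRight_apply, map_sub, map_add,
      LinearMap.add_apply, LinearMap.smul_apply, smul_eq_mul,
      map_smul, dot_comm (kk 2 _), dot_ek, dot_ee, Module.End.one_apply, if_true]
    module
  · refine rg_le (rg_eq (rg_add (rg_sub (rg_zsmul (rg_E i a) 2) (rg_E i b))
      (rg_zsmul (rg_W i) 2)) ?_) (h4 b hb)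
    simp only [mv_sl, h0]
    simp only [LinearMap.sub_apply, LinearMap.smulRight_apply, map_sub, map_add,
      LinearMap.add_apply, LinearMap.smul_apply, smul_eq_mul,
      map_smul, dot_comm (kk 2 _), dot_ek, dot_ee, Module.End.one_apply, if_neg (Ne.symm hb)]
    push_cast
    module

lemma iot_mem (ok : Ok n r) (j : ι) (hj : n j = 1) : Lat.iot n j ∈ Gm st := by
  obtain ⟨e, h1, h2⟩ := I.iot j hj
  refine mv_mem_Gm h1 (rg_le (rg_eq (rg_sub (rg_W j) (rg_st j none)) ?_) h2)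
    fun a => absurd (ok.n2 j a.pos) (by omega)
  simp only [mv_sl, dot_HH, LinearMap.neg_apply, Module.End.one_apply, map_neg]
  module

/-- The lattice data of a model. -/
def geo (ok : Ok n r) (Q : Prj X) : Geo n r where
  PD := X.PD
  pc E := I.Φ.symm (nc Γ hc (Finsupp.single E 1))
  Fr E :=
    { carrier := {x | ∃ D, (x, D) ∈ RG st ∧ 0 ≤ D ∧ D E = 0}
      zero_mem' := ⟨0, (RG st).zero_mem, le_rfl, rfl⟩
      add_mem' := by
        rintro x y ⟨D, h1, h2, h3⟩ ⟨D', h4, h5, h6⟩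
        exact ⟨D + D', (RG st).add_mem h1 h4, add_nonneg h2 h5, by simp [h3, h6]⟩ }
  Eff := I.cm (Γ.cone {D | 0 ≤ D.1})
  Mov := I.cm Γ.movC
  Γ := Gm st
  fr_int := fun _ _ ⟨_, h, _⟩ => rg_int h
  fr_h E i o := by
    obtain ⟨f, h1, h2, h3⟩ := I.mov i o E
    exact ⟨_, rg_le (rg_st i o) ⟨f, h1, rfl⟩, h2, h3⟩
  fr_e E i a h := by
    have h1 := rg_le (rg_E i a) (I.sec i a).symm
    refine ⟨_, h1, Finsupp.single_nonneg.2 zero_le_one, Finsupp.single_eq_of_ne ?_⟩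
    rintro rfl
    exact h (I.symm_rg h1)
  fr_mov x hx h := by
    obtain ⟨D, hD⟩ := rg_ex (st := st) hx
    refine subset_closure (subset_span ⟨⟨D, hc D⟩, fun E => ?_, rg_nc hD⟩)
    obtain ⟨D', h1, h2, h3⟩ := h E
    obtain ⟨f, h4, rfl⟩ := rg_uniq h1 hD
    exact ⟨f, h4, h2, h3⟩
  mov_cl := by
    haveI := I.fd
    exact isClosed_closure.preimage I.Φ.toLinearMap.continuous_of_finiteDimensional
  eff_h i o := Γ.cone_mov_le (subset_span ⟨⟨_, hc _⟩, I.mov i o, rg_nc (rg_st i o)⟩)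
  eff_e i a := I.eff_of (rg_nc (rg_le (rg_E i a) (I.sec i a).symm))
    (Finsupp.single_nonneg.2 zero_le_one)
  eff_gen x hx := I.map_cone LinearMap.id (fun D hD => by
    obtain ⟨N, h1, h2⟩ := I.rat D.1
    have h3 : (0 : ℝ) < N := by exact_mod_cast h1
    have h4 := CG.smul_mem' (C := span ℝ≥0 {x | x ∈ I.cm (Γ.cone {D | 0 ≤ D.1}) ∧ IsZV x})
      (inv_pos.2 h3).le (subset_span ⟨CG.smul_mem' h3.le
        (I.eff_of (I.Φ.apply_symm_apply _).symm hD), h2⟩)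
    rwa [inv_smul_smul₀ h3.ne'] at h4) hx
  sal x h h' := by
    haveI := I.fd
    rw [I.cl_cm] at h h'
    rw [map_neg] at h'
    exact I.inj x (Γ.salient Q h h')
  posp j h1 h2 x hx := by
    have := I.map_cone ((LinearMap.proj none : F (r j) →ₗ[ℝ] ℝ) ∘ₗ LinearMap.proj j)
      (C := span ℝ≥0 (Ici (0 : ℝ)))
      (fun D hD => subset_span (I.posp j h1 h2 D.1 _ hD (I.Φ.apply_symm_apply _).symm)) hx
    exact CG.nonneg_of_mem_span LinearMap.id (fun _ h => h) this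
  res i a x hx := by
    refine map_mem_closure (Bf n i (ee a)).continuous_of_finiteDimensional
      ((I.cl_cm (C := Γ.cone {D | Mov D.1})).2 hx) fun y hy => I.map_cone _ (fun D hD => ?_) hy
    obtain ⟨f, h1, h2, h3⟩ := hD (R i a)
    obtain ⟨D', h4, h5⟩ := I.res i a (D.1 + X.div f) _ h2 h3
      ((LE.nc_eq Γ hc ⟨f, h1, rfl⟩).trans (I.Φ.apply_symm_apply _).symm)
    refine I.eff_of (h5.trans ?_) h4
    rw [rg_nc (rg_W i), Bf, mv_apply, map_add, map_smul, dot_ee]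
    simp [dot_comm (ee a), dot_e]
  Γ_int := by
    rintro T ⟨φ, e, -, h⟩ x hx
    obtain ⟨D, hD⟩ := rg_ex (st := st) hx
    exact rg_int (h x D hD)
  Γ_eff T hT x hx := by
    haveI := I.fd
    obtain ⟨φ, L, h1, h2⟩ := I.isPull hT
    rw [mem_cm, ← h2]
    refine CG.map_mem_span L.toLinearMap ?_ hx
    rintro _ ⟨D, hD, rfl⟩
    obtain ⟨D', h3, -, h4⟩ := h1.exists_map D
    exact subset_span ⟨D', h4 hD, h3.symm⟩
  Γ_mov T hT x hx := by
    haveI := I.fd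
    obtain ⟨φ, L, h1, h2⟩ := I.isPull hT
    rw [mem_cm, ← h2]
    exact (Γ.map_mem Γ L.toLinearMap h1.exists_map).2.1 _ hx
  Γ_fr := by
    rintro T ⟨φ, e, hp, h⟩
    refine ⟨e, fun E => I.Φ.symm_apply_eq.2 ?_, ?_⟩
    · rw [← I.nc_push hp h]
      exact congrArg _ (Finsupp.equivMapDomain_single e E 1).symm
    · rintro E x ⟨D, h1, h2, h3⟩
      exact ⟨_, h x D h1, fun F => h2 _, by simpa using h3⟩
  sig_h := I.sig_h
  sig_e := I.sig_e
  iot_mem := I.iot_mem ok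

theorem fin (hL : St_LAT) (ok : Ok n r) (Q : Prj X) : Cone Γ := by
  haveI := I.fd
  obtain ⟨S, h1, h2, h3⟩ := hL ι n r (I.geo ok Q) ok
  have hΛ : I.Φ '' S ⊆ Γ.Λ := by
    rintro _ ⟨x, hx, rfl⟩
    obtain ⟨D, hD⟩ := rg_ex (st := st) (h2 x hx).1
    exact ⟨⟨D, hc D⟩, rg_nc hD⟩
  have hE : I.Φ '' S ⊆ Γ.movE := by
    rintro _ ⟨x, hx, rfl⟩
    exact (h2 x hx).2
  have h4 : ∀ x ∈ Γ.movE, ∃ γ ∈ Γ.rho.range, ∃ y ∈ span ℝ≥0 (I.Φ '' S), γ y = x := fun x hx => by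
    obtain ⟨x, rfl⟩ := I.Φ.surjective x
    obtain ⟨T, h5, y, h6, rfl⟩ := h3 x hx.1 hx.2
    obtain ⟨φ, L, h7, h8⟩ := I.isPull h5
    exact ⟨L, Γ.mem_range_rho.2 ⟨φ, h7⟩, _,
      CG.map_mem_span I.Φ.toLinearMap (fun v hv => subset_span (mem_image_of_mem _ hv)) h6, h8 y⟩
  have h5 : ∀ γ ∈ Γ.rho.range, ∀ x ∈ Γ.movE, γ x ∈ Γ.movE := by
    rintro _ ⟨b, rfl⟩
    exact (Γ.map_mem Γ (Γ.rho b).toLinearMap (Γ.isPull_rho b).exists_map).2.2
  obtain ⟨P, h6, h7, h8, h9⟩ := (Γ.setup Q).fund Γ.movE inf_le_left h5 (h1.image _) hΛ hE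
    ((Γ.interior_cone Q).mono (interior_mono subset_closure))
    (fun x hx => h4 x (Γ.interior_movC Q hx)) fun x hx => by
      obtain ⟨γ, a1, y, a2, rfl⟩ := h4 x hx
      refine ⟨γ '' (I.Φ '' S), (h1.image _).image _, ?_, ?_,
        CG.map_mem_span γ.toLinearMap (fun v hv => subset_span (mem_image_of_mem _ hv)) a2⟩
      · rintro _ ⟨v, hv, rfl⟩
        exact (Γ.setup Q).ΓΛ γ a1 v (hΛ hv)
      · rintro _ ⟨v, hv, rfl⟩
        exact (h5 γ a1 v (hE hv)).1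
  obtain ⟨S', -, a1, rfl⟩ := SurjOn.exists_subset_injOn_image_eq (s := univ) (f := Γ.cls) (t := P)
    fun x hx => image_univ.ge (h7 hx)
  exact ⟨S', h6.of_finite_image a1, Curves.covers_iff.2 h8,
    fun φ T h => h9 T (Γ.mem_range_rho.2 ⟨φ, h⟩)⟩

end Inp

end Pool.Agent.Lib.MV.End
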