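import Pool.Agent.Lib.MV.FibC
import Pool.Agent.Lib.MV.End

open Set Pool.Agent.Lib.MP_e39d36_ag Pool.Agent.Lib.MP_e39d36_ag.Var Pool.Agent.Lib.MV.End
  Pool.Agent.Lib.MV.Lat

set_option linter.unusedSectionVars false
set_option linter.unusedVariables false

noncomputable section

namespace Pool.Agent.Lib.MV.Fb

variable {D : Dat} {K : Type} [Field K] [Algebra ℂ K] (M : D.Mod K)

/-- Numerical relations give logarithmic forms. -/
def N1 : Prop := ∀ W x, nc M.Γ M.sm.fac W = cl M.Γ M.sm.fac M.st x →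
  Res fun E => (W E : ℂ) - cmb (fun μ : D.Sl => (x μ.1 μ.2 : ℂ)) (fun μ => M.st μ.1 μ.2) E

/-- Logarithmic forms give numerical relations. -/
def N2 : Prop := ∀ (J : Type) [Fintype J] (c : J → ℂ) (W : J → Dv M.X), Res (cmb c W) →
  ∑ j, (c j).re • nc M.Γ M.sm.fac (W j) = 0

lemma over_of_inv {i : Fin D.k} {σ : K ≃ₐ[ℂ] K} {e : M.X.PD ≃ M.X.PD}
    (h : Inv (kI D M.x i) σ e) : Over M.st i e :=
  ⟨⟨_, h.ps⟩, fun j hj o => LE.of_eq (by rw [st_eq, h.push_fix (ys_mem hj o)])⟩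

lemma nc_pb (hPBR : St_PBR) (h1 : N1 M) (h2 : N2 M) (γ : CMap M.X K) {W : Dv M.X} {x : V D.r}
    (h : nc M.Γ M.sm.fac W = cl M.Γ M.sm.fac M.st x) : nc M.Γ M.sm.fac (pb γ M.sm.fac W) =
      ∑ i, ∑ o, x i o • nc M.Γ M.sm.fac (pb γ M.sm.fac (M.st i o)) := by
  have := h2 _ _ _ (hPBR K M.X M.sm γ (Option D.Sl) (fun o => o.elim 1 fun μ => -(x μ.1 μ.2 : ℂ))
    (fun o => o.elim W fun μ => M.st μ.1 μ.2) (by
      have e : cmb (fun o : Option D.Sl => o.elim 1 fun μ => -(x μ.1 μ.2 : ℂ))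
          (fun o => o.elim W fun μ => M.st μ.1 μ.2) = fun E => (W E : ℂ) -
            cmb (fun μ : D.Sl => (x μ.1 μ.2 : ℂ)) (fun μ => M.st μ.1 μ.2) E := funext fun E => by
        simp [cmb, sub_eq_add_neg]
      rw [e]; exact h1 W x h))
  rw [Fintype.sum_option, Fintype.sum_sigma] at this
  simp only [Option.elim, Complex.one_re, one_smul, Complex.neg_re, Complex.ofReal_re] at this
  rw [eq_neg_of_add_eq_zero_left this, ← Finset.sum_neg_distrib]
  refine Finset.sum_congr rfl fun i _ => ?_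
  rw [← Finset.sum_neg_distrib]
  exact Finset.sum_congr rfl fun o _ => neg_eq_iff_eq_neg.2 (neg_smul (x i o) (_ : M.Γ.N1))

theorem sec4 (hFIB : St_FIB) (hFIB1 : St_FIB1) (hH : St_SIGH) (hE : St_SIGE) (hI : St_IOT)
    (hS : St_SEC) (hPB : St_PB) (hR : St_RESF) (hPBR : St_PBR)
    (inj : ∀ x, cl M.Γ M.sm.fac M.st x = 0 → x = 0) (h1 : N1 M) (h2 : N2 M) :
    ∃ R : (i : Fin D.k) → Fin (D.r i) → M.X.PD,
      (∀ i a, LE (dE M.st i a) (Finsupp.single (R i a) 1)) ∧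
      (∀ i a W x, 0 ≤ W → W (R i a) = 0 → nc M.Γ M.sm.fac W = cl M.Γ M.sm.fac M.st x →
        ∃ W', 0 ≤ W' ∧ nc M.Γ M.sm.fac W' = cl M.Γ M.sm.fac M.st (Function.update x i 0) +
          x i (some a) • nc M.Γ M.sm.fac (dW D.n M.st i)) ∧
      (∀ i a, ∃ e, Over M.st i e ∧ LE (push e (M.st i none))
          ((2 : ℤ) • M.st i none - (3 : ℤ) • dE M.st i a + dW D.n M.st i) ∧
        LE (push e (dE M.st i a)) (M.st i none - (2 : ℤ) • dE M.st i a + dW D.n M.st i) ∧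
        ∀ b, b ≠ a → LE (push e (dE M.st i b)) (M.st i none - dE M.st i a - dE M.st i b)) ∧
      (∀ i a, ∃ e, Over M.st i e ∧ LE (push e (M.st i none))
          ((6 : ℤ) • dE M.st i a - M.st i none + (6 : ℤ) • dW D.n M.st i) ∧
        LE (push e (dE M.st i a)) (dE M.st i a) ∧ ∀ b, b ≠ a → LE (push e (dE M.st i b))
          ((2 : ℤ) • dE M.st i a - dE M.st i b + (2 : ℤ) • dW D.n M.st i)) ∧
      ∀ j, D.n j = 1 → ∃ e, Over M.st j e ∧
        LE (push e (M.st j none)) (dW D.n M.st j - M.st j none) := by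
  have hF : ∀ i (a : Fin (D.r i)), ∃ F : Fib M.X (Fin (D.r i)), F.k = kI D M.x i ∧
      F.H = M.st i none ∧ (∀ a, F.h a = M.st i (some a)) ∧ F.κ = dW D.n M.st i ∧
      ∀ a, F.e a = dE M.st i a := fun i a => by
    obtain ⟨F, e1, e2, e3, e4⟩ := hFIB D K M i a.pos.ne'
    exact ⟨F, e1, e2, e3, e4, fun a => by rw [Fib.e, e2, e3]; rfl⟩
  choose F e1 e2 e3 e4 e5 using hF
  have hne : ∀ i a, (F i a).e a ≠ 0 := fun i a h => by
    have h3 := rg_nc (Γ := M.Γ) (hc := M.sm.fac) (rg_E (st := M.st) i a)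
    rw [← e5 i a, h, map_zero] at h3
    have := congrFun (congrFun (inj _ h3.symm) i) none
    simp [sl_self, ee, hh] at this
  choose R r1 γ r2 r3 using fun i a => hS K M.X _ (F i a) a (hne i a)
  refine ⟨R, fun i a => LE.of_eq ((e5 i a a).symm.trans (r1 i a)), fun i a W x w1 w2 w3 => ?_,
    fun i a => ?_, fun i a => ?_, fun j hj => ?_⟩
  · obtain ⟨W', p1, p2⟩ := (hPB K M.X (γ i a) M.sm.fac).1 W w1 fun E hE => by
      rw [r2] at hE; rw [← pd_eq hE, w2]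
    obtain ⟨q1, q2, q3, q4⟩ := hR K M.X _ (F i a) M.sm.fac a (R i a) (γ i a) (r1 i a) (r2 i a)
      (r3 i a)
    refine ⟨W', p1, ?_⟩
    rw [← p2.nc_eq M.Γ M.sm.fac, nc_pb M hPBR h1 h2 _ w3, cl_apply,
      ← Finset.add_sum_erase _ _ (Finset.mem_univ i), ← Finset.add_sum_erase _ _ (Finset.mem_univ i),
      add_comm, Function.update_self]
    simp only [Pi.zero_apply, zero_smul, Finset.sum_const_zero, zero_add]
    refine congrArg₂ _ (Finset.sum_congr rfl fun j hj => Finset.sum_congr rfl fun o _ => ?_) ?_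
    · have hj' := Finset.ne_of_mem_erase hj
      rw [Function.update_of_ne hj', st_eq,
        (q4 _ _ (bpf_ys M _) fun t => e1 i a ▸ ys_mem hj' o t).nc_eq M.Γ M.sm.fac]
    · rw [Fintype.sum_option, ← e2 i a, q1.nc_eq M.Γ M.sm.fac, map_zero, smul_zero, zero_add,
        Finset.sum_eq_single a (fun b _ hb => by
          rw [← e3 i a, (q3 b hb).nc_eq M.Γ M.sm.fac, map_zero, smul_zero]) (by simp),
        ← e3 i a, q2.nc_eq M.Γ M.sm.fac, e4]
  · obtain ⟨σ, e, p1, -, p2⟩ := hH K M.X _ (F i a) a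
    simp only [e2, e4, e5] at p2
    exact ⟨e, over_of_inv M (e1 i a ▸ p1), p2⟩
  · obtain ⟨σ, e, p1, p2⟩ := hE K M.X _ (F i a) a
    simp only [e2, e4, e5] at p2
    exact ⟨e, over_of_inv M (e1 i a ▸ p1), p2⟩
  · rcases hFIB1 D K M j hj with h | ⟨G, p1, p2, p3⟩
    · have h3 := rg_nc (Γ := M.Γ) (hc := M.sm.fac)
        (rg_sub (rg_st (st := M.st) j none) (rg_W (n := D.n) j))
      rw [map_sub, h.nc_eq M.Γ M.sm.fac, sub_self] at h3
      have := congrFun (congrFun (inj _ h3.symm) j) none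
      simp [sl_self, kW_self, hh] at this
    · obtain ⟨σ, e, q1, q2⟩ := hI K M.X G
      rw [p2, p3] at q2
      exact ⟨e, over_of_inv M (p1 ▸ q1), q2⟩

end Pool.Agent.Lib.MV.Fb
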