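import Pool.Agent.Lib.MV.SDefs

open MvPolynomial Set Pool.Agent.Lib.MP_e39d36_ag

noncomputable section

namespace Pool.Agent.Lib.MV.Dat

variable (D : Dat) {F : Type} [Field F] [Algebra ℂ F] (x : ∀ i, Fin (D.n i + 1) → F)

/-- The function field of the product of the factors other than the `i`-th. -/
def Kw (i : Fin D.k) : Subfield F :=
  Subfield.closure (range (algebraMap ℂ F) ∪ {z | ∃ j, j ≠ i ∧ ∃ l, z = x j l})

/-- Modulo the nonunits of `T` the fibre cubic contains no line and is nonsingular at the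
points. -/
def Irr (T : Subring F) (i : Fin D.k) : Prop := ∀ τ, (D.B x τ).toSubring ≤ T →
  (∀ A A' : Fin (D.n i + 1) → F, (∀ l, A l ∈ T) → (∀ l, A' l ∈ T) →
    (∃ l l', Un T (A l * A' l' - A l' * A' l)) →
    ∃ s t : ℂ, Un T (eval (s • A + t • A') (D.Φ x τ i))) ∧
  ∀ a, ∃ l, Un T (eval (algebraMap ℂ F ∘ D.p i a) (pderiv l (D.Φ x τ i)))

/-- Let `E` be a prime divisor that is a rational section for the surface `j` and vertical for a
surface `i` with four, five or seven points. The fibres in the factor `i` through the points `z` of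
codimension at most one in `E` are general. -/
def Gen2 {Pt : Type} (O : Pt → Subring F) (pd : Pt → Prop) : Prop :=
  ∀ i j, j ≠ i → D.r i = 4 ∨ D.r i = 5 ∨ D.r i = 7 → D.r j ≠ 0 → ∀ E, pd E →
    (D.Kw x j).toSubring ≤ O E → (∀ a ∈ O E, ∃ b ∈ D.Kw x j, ¬Un (O E) (a - b)) →
    ¬(D.Kw x i).toSubring ≤ O E → ∀ z, O z ≤ O E →
    (∀ w, O z ≤ O w → O w ≤ O E → w = z ∨ w = E) →
    ∀ T : ValuationSubring F, Dom (O z) T.toSubring → D.Irr x T.toSubring i

end Pool.Agent.Lib.MV.Dat
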