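import Pool.Agent.Lib.MV.G2A
import Pool.Agent.Lib.MV.G_SIGE
import Pool.Agent.Lib.MV.FibD
import Pool.Agent.Lib.MV.SDefs2
import Pool.Agent.Lib.MV.End2

open Set Matrix WithZero Pool.Agent.Lib.MP_e39d36_ag Pool.Agent.Lib.MP_e39d36_ag.Var
  Pool.Agent.Lib.MV.End Pool.Agent.Lib.MV.Fb Pool.Agent.Lib.MV.Lat

set_option linter.unusedSectionVars false
set_option linter.unusedVariables false

noncomputable section

namespace Pool.Agent.Lib.MV.G2

section gl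

variable {K : Type} [Field K] [Algebra ℂ K] {X : Var K} {ι : Type} [Fintype ι] [DecidableEq ι]
  {r : ι → ℕ} (st : (i : ι) → Option (Fin (r i)) → X.PD →₀ ℤ)

/-- `T` describes the action of `e` on the standard divisors. -/
def RGc (T : Module.End ℝ (V r)) (e : X.PD ≃ X.PD) : Prop :=
  ∀ x D, (x, D) ∈ RG st → (T x, push e D) ∈ RG st

/-- Pull-back maps of automorphisms over `k` that are regular along `𝒜`. -/
def Wd (𝒜 : Set (ValuationSubring K)) (k : IntermediateField ℂ K) :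
    Submonoid (Module.End ℝ (V r)) where
  carrier := {T | ∃ σ e, Inv k σ e ∧ Li X 𝒜 σ ∧ RGc st T e}
  one_mem' := ⟨1, Equiv.refl _, ⟨fun _ _ => rfl, fun _ _ => rfl⟩, Li.one _,
    fun _ _ h => rg_le h (LE.of_eq (Finsupp.ext fun _ => rfl))⟩
  mul_mem' := by
    rintro T T' ⟨σ, e, h1, h2, h3⟩ ⟨σ', e', h4, h5, h6⟩
    exact ⟨σ * σ', e'.trans e, ⟨fun z hz => (congrArg σ (h4.1 z hz)).trans (h1.1 z hz),
      fun f E => (h1.2 _ _).trans (h4.2 f E)⟩, h2.mul h5, fun x D h =>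
      rg_le (h3 _ _ (h6 x D h)) (LE.of_eq (Finsupp.ext fun _ => rfl))⟩

end gl

/-- The cubic fibration of a surface factor. -/
structure IsF {D : Dat} {K : Type} [Field K] [Algebra ℂ K] (M : D.Mod K) (i : Fin D.k)
    (F : Fib M.X (Fin (D.r i))) : Prop where
  k : F.k = kI D M.x i
  H : F.H = M.st i none
  h : ∀ a, F.h a = M.st i (some a)
  κ : F.κ = dW D.n M.st i

lemma IsF.e {D : Dat} {K : Type} [Field K] [Algebra ℂ K] {M : D.Mod K} {i : Fin D.k}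
    {F : Fib M.X (Fin (D.r i))} (h : IsF M i F) (a : Fin (D.r i)) : F.e a = dE M.st i a := by
  rw [Fib.e, h.H, h.h]; rfl

/-- Charts of the base at all points. -/
def St_BAS2 : Prop := ∀ (D : Dat) (K : Type) [Field K] [Algebra ℂ K] (M : D.Mod K) (i : Fin D.k)
  (τ : D.Ch), (gW D M.x τ i ≠ 0 ∧ gW D M.x τ i ∈ kI D M.x i ∧
    (∀ E : M.X.PD, (BW D M.x τ i).toSubring ≤ M.X.O E.1 →
      dW D.n M.st i E = log (val E (gW D M.x τ i))) ∧
    (∀ z ∈ BW D M.x τ i, z ∈ kI D M.x i) ∧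
    (∀ y (V : Subring K), Dom (M.X.O y) V → (BW D M.x τ i).toSubring ≤ V →
      (BW D M.x τ i).toSubring ≤ M.X.O y) ∧
    ∀ c, (gW D M.x τ i)⁻¹ * wt D M.x i c ∈ BW D M.x τ i) ∧
  ∀ y, LocOf (D.B M.x τ).toSubring (M.X.O y) → ∀ A V : Subring K, Dom A V → Dom (M.X.O y) V →
    (BW D M.x τ i).toSubring ≤ A → (∀ o, Fr A (D.ys M.x ⟨i, o⟩)) → M.X.O y ≤ A

/-- The two linear forms through a point and the cross product define the same pencil. -/
def St_PEN2 : Prop := ∀ (K : Type) [Field K] [Algebra ℂ K] (A : Subring K) (p : Fin 3 → ℂ)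
  (u : Fin 2 → Fin 3 → ℂ) (x : Fin 3 → K) (y : Fin 2 → K), IsLoc A →
    (∀ a : ℂ, algebraMap ℂ K a ∈ A) → p ≠ 0 → LinearIndependent ℂ u → (∀ j, u j ⬝ᵥ p = 0) →
    (∀ j, y j = ∑ l, u j l • x l) → Fr A (x ⨯₃ (algebraMap ℂ K ∘ p)) → Fr A y

/-- The cubic fibration with charts at all points. -/
def St_FIBX : Prop := ∀ (D : Dat) (K : Type) [Field K] [Algebra ℂ K] (M : D.Mod K) (i : Fin D.k),
  D.r i ≠ 0 → ∃ F : Fib M.X (Fin (D.r i)), IsF M i F ∧ Lc F ∧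
    (∀ j, j ≠ i → Two F (kI D M.x j)) ∧ ∀ (V : ValuationSubring K) (y : M.X.Pt), Cen V y →
      D.Irr M.x V.toSubring i → GdV F V

/-- The class of the pull-back along a constant section. -/
def St_NCPB : Prop := ∀ (D : Dat) (K : Type) [Field K] [Algebra ℂ K] (M : D.Mod K), N1 M → N2 M →
  ∀ (i : Fin D.k) (F : Fib M.X (Fin (D.r i))), IsF M i F → ∀ a S γ, F.e a = Finsupp.single S 1 →
    Sc F.k γ S → ∀ W x, nc M.Γ M.sm.fac W = cl M.Γ M.sm.fac M.st x →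
    nc M.Γ M.sm.fac (pb γ M.sm.fac W) = cl M.Γ M.sm.fac M.st (Bf D.n i (ee a) x)

/-- The translations are regular along a class that is preserved by the involutions. -/
def St_GLM : Prop := ∀ (D : Dat) (K : Type) [Field K] [Algebra ℂ K] (M : D.Mod K) (i : Fin D.k)
  (F : Fib M.X (Fin (D.r i))), IsF M i F → Lc F → 0 < D.r i →
    ∀ 𝒜 : Set (ValuationSubring K), (∀ σ e γ, Inv F.k σ e → σ * σ = 1 → Iso F σ →
      RGc M.st (sig D.n i γ) e → Li M.X 𝒜 σ) →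
    ∀ α, IsZ α → dot α (kk 2 (D.r i)) = 0 → tau D.n i α ∈ Wd M.st 𝒜 F.k

/-- The result of the geometric part. -/
def St_NEF : Prop := ∀ (D : Dat) (K : Type) [Field K] [Algebra ℂ K] (M : D.Mod K), N1 M → N2 M →
  D.Gen2 M.x M.X.O M.X.pd → ∀ (ok : Ok7 D.n D.r) R (I : Inp M.Γ M.sm.fac D.n M.st R),
    Nef (I.geo7 ok.n2 M.Q)

end Pool.Agent.Lib.MV.G2
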