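import Pool.Agent.Lib.MV.SDefs

open MvPolynomial Set Pool.Agent.Lib.MP_e39d36_ag

noncomputable section

namespace Pool.Agent.Lib.MV.Dat

variable (D : Dat)

/-- No six of the points lie on a conic. -/
def DP : Prop := ∀ i (A : Finset (Fin (D.r i))), A.card = 6 →
  ∀ q : MvPolynomial (Fin (D.n i + 1)) ℂ, q.IsHomogeneous 2 → (∀ a ∈ A, eval (D.p i a) q = 0) →
    q = 0

/-- The products `∏ i, G c i` span the anticanonical sections of `Z`. -/
def Full : Prop := ∀ g : ∀ i, MvPolynomial (Fin (D.n i + 1)) ℂ,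
  (∀ i, (g i).IsHomogeneous (D.n i + 1) ∧ ∀ a, eval (D.p i a) (g i) = 0) →
    ∃ a : Fin D.m → ℂ, (∏ i, rename (Sigma.mk i) (g i) : MvPolynomial (Σ i, Fin (D.n i + 1)) ℂ) =
      ∑ c, a c • ∏ i, rename (Sigma.mk i) (D.G c i)

variable (a : Fin D.m → ℂ) {F : Type} [Field F] [Algebra ℂ F] (x : ∀ i, Fin (D.n i + 1) → F)

/-- The local equation on a chart of the hypersurface with coefficients `a`. -/
def fa (τ : D.Ch) : F := ∑ c, a c • ∏ i, aeval (x i) (D.G c i) / D.kap x τ i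

/-- On every chart, the relations among the affine coordinates of `x` are those of `X` modulo the
local equation. -/
def CutA {L : Type} [Field L] [Algebra ℂ L] (X : ∀ i, Fin (D.n i + 1) → L) : Prop :=
  ∀ τ (P : MvPolynomial D.Vx ℂ), aeval (D.rat x τ) P = 0 ↔
    ∃ b ∈ D.B X τ, aeval (D.rat X τ) P = D.fa a X τ * b

/-- The local rings `O` are those of the hypersurface in `Z` with coefficients `a`. -/
def HypA {Pt : Type} (O : Pt → Subring F) : Prop :=
  (∀ i, x i 0 = 1) ∧ (∀ t, D.y x t ≠ 0) ∧ (∀ z, ∃ τ, LocOf (D.B x τ).toSubring (O z)) ∧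
    D.CutA a x D.X

end Pool.Agent.Lib.MV.Dat
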