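import Pool.Agent.Lib.MV.S_WPT0
import Pool.Agent.Lib.MV.B_KAP
import Pool.Agent.Lib.MV.G2B
import Pool.Agent.Lib.MV.SDefs3

open MvPolynomial Set Matrix Pool.Agent.Lib.MP_e39d36_ag Pool.Agent.Lib.MP_e39d36_ag.Var
  Pool.Agent.Lib.MV.End Pool.Agent.Lib.MV.Fb Pool.Agent.Lib.MV.S3 Pool.Agent.Lib.MV.Dat

set_option linter.unusedSectionVars false
set_option linter.unusedVariables false
set_option linter.style.haveILetI false

noncomputable section

namespace Pool.Agent.Lib.MV.G3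

section cnt

variable {Ω : Type} [Field Ω] [Algebra ℂ Ω] {S S' T T' : Set Ω} {n n' : ℕ}

/-- Elements that are algebraic over the field generated by `S`. -/
def acl (S : Set Ω) : IntermediateField ℂ Ω :=
  (algebraicClosure (IntermediateField.adjoin ℂ S) Ω).restrictScalars ℂ

lemma coe_acl (S : Set Ω) : (acl S : Set Ω) = (AlgebraicIndependent.matroid ℂ Ω).closure S := by
  ext z
  rw [AlgebraicIndependent.matroid_closure_eq]
  exact mem_algebraicClosure_iff.trans IntermediateField.isAlgebraic_adjoin_iff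

lemma subset_acl (S : Set Ω) : S ⊆ acl S := by
  rw [coe_acl]; exact Matroid.subset_closure _ _ (subset_univ _)

lemma acl_le (h : S ⊆ acl T) : acl S ≤ acl T := by
  rw [← SetLike.coe_subset_coe, coe_acl, coe_acl]
  rw [coe_acl] at h
  exact Matroid.closure_subset_closure_of_subset_closure h

lemma acl_mono (h : S ⊆ T) : acl S ≤ acl T := acl_le (h.trans (subset_acl T))

lemma alg_aux {F E : Type} [Field F] [Field E] [Algebra F E] {z : E}
    (h : IsAlgebraic (algebraicClosure F E) z) : z ∈ algebraicClosure F E :=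
  mem_algebraicClosure_iff.2 (h.restrictScalars F)

lemma mem_acl_of_alg {z : Ω} (h : IsAlgebraic (acl S) z) : z ∈ acl S := alg_aux h

lemma aeval_mem {σ : Type} {k : IntermediateField ℂ Ω} {z : σ → Ω} (h : ∀ l, z l ∈ k)
    (G : MvPolynomial σ ℂ) : aeval z G ∈ k := by
  induction G using MvPolynomial.induction_on with
  | C a => rw [aeval_C]; exact k.algebraMap_mem a
  | add p q hp hq => rw [map_add]; exact add_mem hp hq
  | mul_X p t hp => rw [map_mul, aeval_X]; exact mul_mem hp (h t)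

/-- `T` has transcendence degree at most `n` over `S`. -/
def Ov (S T : Set Ω) (n : ℕ) : Prop := ∃ U : Finset Ω, U.card ≤ n ∧ T ⊆ acl (S ∪ U)

lemma Ov.of_subset (h : T ⊆ acl S) : Ov S T n :=
  ⟨∅, by simp, by simpa using h⟩

lemma Ov.mono (h : Ov S T n) (h1 : S ⊆ acl S') (h2 : T' ⊆ T) (h3 : n ≤ n') : Ov S' T' n' := by
  obtain ⟨U, a, b⟩ := h
  exact ⟨U, a.trans h3, h2.trans (b.trans (acl_le (union_subset
    (h1.trans (acl_mono subset_union_left)) (subset_union_right.trans (subset_acl _)))))⟩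

lemma Ov.trans (h : Ov S T n) (h' : Ov (S ∪ T) T' n') : Ov S (T ∪ T') (n + n') := by
  classical
  obtain ⟨U, a, b⟩ := h
  obtain ⟨U', a', b'⟩ := h'
  have h1 : T ⊆ acl (S ∪ ↑(U ∪ U')) :=
    b.trans (acl_mono (union_subset_union_right _ (by simp)))
  exact ⟨U ∪ U', (Finset.card_union_le _ _).trans (add_le_add a a'), union_subset h1
    (b'.trans (acl_le (union_subset (union_subset (subset_union_left.trans (subset_acl _)) h1)
      ((by simp : (U' : Set Ω) ⊆ ↑(U ∪ U')).trans (subset_union_right.trans (subset_acl _))))))⟩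

lemma Ov.of_acl (h : Ov S T n) (h' : T' ⊆ acl (S ∪ T)) : Ov S T' n :=
  (h.trans (Ov.of_subset (n := 0) h')).mono (subset_acl _) subset_union_right le_rfl

lemma Ov.range {ι : Type} [Fintype ι] (y : ι → Ω) : Ov S (range y) (Fintype.card ι) := by
  classical
  exact ⟨Finset.univ.image y, Finset.card_image_le, by
    simpa using subset_union_right.trans (subset_acl _)⟩

lemma Ov.biUnion {ι : Type} (s : Finset ι) {T : ι → Set Ω} {n : ι → ℕ}
    (h : ∀ i ∈ s, Ov S (T i) (n i)) : Ov S (⋃ i ∈ s, T i) (∑ i ∈ s, n i) := by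
  classical
  induction s using Finset.induction_on with
  | empty => exact Ov.of_subset (by simp)
  | insert a s ha ih =>
    rw [Finset.sum_insert ha, Finset.set_biUnion_insert]
    exact (h a (by simp)).trans ((ih fun i hi => h i (by simp [hi])).mono
      (subset_union_left.trans (subset_acl _)) le_rfl le_rfl)

lemma Ov.card_le {ι : Type} [Fintype ι] {b : ι → Ω} (h : Ov ∅ (Set.range b) n)
    (hb : AlgebraicIndependent ℂ b) : Fintype.card ι ≤ n := by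
  obtain ⟨U, a, c⟩ := h
  rw [coe_acl, empty_union] at c
  have h1 : (AlgebraicIndependent.matroid ℂ Ω).Indep (Set.range b) := hb.to_subtype_range
  have h2 := Matroid.eRk_mono (AlgebraicIndependent.matroid ℂ Ω) c
  rw [h1.eRk_eq_encard, Matroid.eRk_closure_eq, ← image_univ, hb.injective.encard_image] at h2
  have h3 := h2.trans (Matroid.eRk_le_encard _ _)
  rw [encard_coe_eq_coe_finsetCard, encard_univ, ENat.card_eq_coe_fintype_card] at h3
  exact (Nat.cast_le.1 h3).trans a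

/-- `φ` satisfies `c` linear conditions, defined over `k`, that are independent on `W`. -/
def Cod {N : ℕ} (W : Set (MvPolynomial (Fin N) Ω)) (k : IntermediateField ℂ Ω)
    (φ : MvPolynomial (Fin N) Ω) (c : ℕ) : Prop :=
  ∃ η : Fin c → MvPolynomial (Fin N) Ω →ₗ[Ω] Ω, (∀ j G, η j (map (algebraMap ℂ Ω) G) ∈ k) ∧
    (∀ j, η j φ = 0) ∧ ∀ l : Fin c → Ω, (∀ g ∈ W, ∑ j, l j * η j g = 0) → l = 0

/-- The form vanishes on a line. -/
def BadL {N : ℕ} (φ : MvPolynomial (Fin N) Ω) : Prop :=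
  ∃ A A' : Fin N → Ω, (∃ l l', A l * A' l' - A l' * A' l ≠ 0) ∧
    ∀ s t : ℂ, eval (s • A + t • A') φ = 0

end cnt

/-- Properties of general coefficients. -/
def Gn {m : ℕ} (p : (Fin m → ℂ) → Prop) : Prop :=
  ∃ Q : MvPolynomial (Fin m) ℂ, Q ≠ 0 ∧ ∀ a, eval a Q ≠ 0 → p a

lemma Gn.mono {m : ℕ} {p q : (Fin m → ℂ) → Prop} (h : Gn p) (h' : ∀ a, p a → q a) : Gn q :=
  h.imp fun _ h => ⟨h.1, fun a ha => h' a (h.2 a ha)⟩

lemma Gn.triv {m : ℕ} {p : (Fin m → ℂ) → Prop} (h : ∀ a, p a) : Gn p :=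
  ⟨1, one_ne_zero, fun a _ => h a⟩

lemma Gn.all {m : ℕ} {ι : Type} [Finite ι] {p : ι → (Fin m → ℂ) → Prop} (h : ∀ i, Gn (p i)) :
    Gn fun a => ∀ i, p i a := by
  haveI := Fintype.ofFinite ι
  choose Q h1 h2 using h
  refine ⟨∏ i, Q i, Finset.prod_ne_zero_iff.2 fun i _ => h1 i, fun a ha i => h2 i a ?_⟩
  rw [map_prod] at ha
  exact Finset.prod_ne_zero_iff.1 ha i (Finset.mem_univ i)

lemma Gn.imp {m : ℕ} {c : Prop} {p : (Fin m → ℂ) → Prop} (h : c → Gn p) : Gn fun a => c → p a := by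
  by_cases hc : c
  · exact (h hc).mono fun _ h _ => h
  · exact Gn.triv fun _ h => absurd h hc

lemma Gn.and {m : ℕ} {p q : (Fin m → ℂ) → Prop} (h : Gn p) (h' : Gn q) : Gn fun a => p a ∧ q a := by
  obtain ⟨Q, h1, h2⟩ := h
  obtain ⟨Q', h3, h4⟩ := h'
  refine ⟨Q * Q', mul_ne_zero h1 h3, fun a ha => ?_⟩
  rw [map_mul] at ha
  exact ⟨h2 a (left_ne_zero_of_mul ha), h4 a (right_ne_zero_of_mul ha)⟩

section dat

variable (D : Dat)

/-- The hypersurface with coefficients `a`. -/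
@[reducible] def sc (a : Fin D.m → ℂ) : Dat :=
  { D with
    G := fun c i => if (i : ℕ) = 0 then a c • D.G c i else D.G c i
    G_hom := fun c i => by
      split_ifs
      exacts [(homogeneousSubmodule _ ℂ _).smul_mem _ (D.G_hom c i), D.G_hom c i]
    G_p := fun c i b => by split_ifs <;> simp [D.G_p] }

/-- Combinations of the forms of one factor. -/
def φ {S : Type} [CommRing S] [Algebra ℂ S] (i : Fin D.k) (w : Fin D.m → S) :
    MvPolynomial (Fin (D.n i + 1)) S := ∑ c, w c • map (algebraMap ℂ S) (D.G c i)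

variable {Ω : Type} [Field Ω] [Algebra ℂ Ω]

variable (Ω) in
/-- Anticanonical forms with coefficients in `Ω`. -/
def AO (i : Fin D.k) : Set (MvPolynomial (Fin (D.n i + 1)) Ω) :=
  {g | g.IsHomogeneous (D.n i + 1) ∧ ∀ a, eval (algebraMap ℂ Ω ∘ D.p i a) g = 0}

/-- The form is singular at one of the points. -/
def BadS (i : Fin D.k) (g : MvPolynomial (Fin (D.n i + 1)) Ω) : Prop :=
  ∃ a, ∀ l, eval (algebraMap ℂ Ω ∘ D.p i a) (pderiv l g) = 0

/-- Bad fibre equations. -/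
def Bad (i : Fin D.k) (g : MvPolynomial (Fin (D.n i + 1)) Ω) : Prop :=
  ((D.r i ≠ 0 ∨ D.n i = 1) ∧ BadL g) ∨ BadS D i g

variable {D}

/-- A point of the hypersurface with coefficients `a` whose fibre is bad. -/
def Pt (a : Fin D.m → Ω) (P : ZP D Ω) (i : Fin D.k) : Prop :=
  ∑ c, a c * ∏ j, P.g c j = 0 ∧ Bad D i (φ D i fun c => a c * P.ω i c)

/-- The homogeneous coordinates of a point in one factor. -/
def xb (P : ZP D Ω) (j : Fin D.k) : Fin (D.n j + 1) → Ω := fun l => P.v (.inl ⟨j, l⟩)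

/-- All coordinates of a point in one factor. -/
def co (P : ZP D Ω) (j : Fin D.k) : Set Ω := P.v '' {t | (D.sl t).1 = j}

variable (D) in
/-- Bad points on the zero set of `b` have fewer than `e` independent coordinates. -/
def Few (a : Fin D.m → ℂ) (i : Fin D.k) (b : MvPolynomial D.Vx ℂ) (e : ℕ) : Prop :=
  ∀ (Ω : Type) [Field Ω] [Algebra ℂ Ω] (P : ZP D Ω), Pt (algebraMap ℂ Ω ∘ a) P i →
    aeval P.v b = 0 → ∀ S : Fin e → D.Vx, ¬AlgebraicIndependent ℂ (P.v ∘ S)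

variable (D) in
/-- The fibre equation on a chart. -/
def Φa (a : Fin D.m → ℂ) (x : ∀ i, Fin (D.n i + 1) → Ω) (τ : D.Ch) (i : Fin D.k) :
    MvPolynomial (Fin (D.n i + 1)) Ω :=
  φ D i fun c => algebraMap ℂ Ω (a c) *
    ∏ j ∈ Finset.univ.erase i, aeval (x j) (D.G c j) / D.kap x τ j

variable (D) in
/-- Good reduction of a form modulo the nonunits of `T`. -/
def Gd (T : Subring Ω) (i : Fin D.k) (g : MvPolynomial (Fin (D.n i + 1)) Ω) : Prop :=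
  (D.r i ≠ 0 ∨ D.n i = 1 → ∀ A A' : Fin (D.n i + 1) → Ω, (∀ l, A l ∈ T) → (∀ l, A' l ∈ T) →
    (∃ l l', Un T (A l * A' l' - A l' * A' l)) → ∃ s t : ℂ, Un T (eval (s • A + t • A') g)) ∧
  ∀ a, ∃ l, Un T (eval (algebraMap ℂ Ω ∘ D.p i a) (pderiv l g))

lemma prod_sc (a : Fin D.m → ℂ) (c : Fin D.m) {M : Type} [CommMonoid M] (t : ℂ → M) (h : t 1 = 1) :
    ∏ i : Fin D.k, t (if (i : ℕ) = 0 then a c else 1) = t (a c) := by
  obtain ⟨i, -⟩ := D.surf
  rw [Finset.prod_eq_single ⟨0, i.pos⟩ (fun b _ hb => by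
    rw [if_neg fun h => hb (Fin.ext h), h]) (by simp), if_pos rfl]

lemma G_sc (a : Fin D.m → ℂ) (c : Fin D.m) (i : Fin D.k) :
    (sc D a).G c i = (if (i : ℕ) = 0 then a c else 1) • D.G c i := by
  change ite _ _ _ = _
  split_ifs <;> simp

lemma f_sc (a : Fin D.m → ℂ) (x : ∀ i, Fin (D.n i + 1) → Ω) (τ : D.Ch) :
    (sc D a).f x τ = D.fa a x τ := by
  refine Finset.sum_congr rfl fun c _ => ?_
  rw [Algebra.smul_def, ← prod_sc a c (algebraMap ℂ Ω) (map_one _), ← Finset.prod_mul_distrib]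
  refine Finset.prod_congr rfl fun i _ => ?_
  rw [G_sc, map_smul, Algebra.smul_def, mul_div_assoc]
  rfl

lemma Φ_sc (a : Fin D.m → ℂ) (x : ∀ i, Fin (D.n i + 1) → Ω) (τ : D.Ch) (i : Fin D.k) :
    (sc D a).Φ x τ i = Φa D a x τ i := by
  refine Finset.sum_congr rfl fun c _ => ?_
  beta_reduce
  rw [← prod_sc a c (algebraMap ℂ Ω) (map_one _), ← Finset.prod_erase_mul _ _ (Finset.mem_univ i),
    mul_right_comm, ← Finset.prod_mul_distrib, mul_smul, G_sc, smul_eq_C_mul (D.G c i), map_mul,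
    map_C, ← smul_eq_C_mul]
  refine congrArg (· • _) (Finset.prod_congr rfl fun j _ => ?_)
  rw [G_sc, map_smul, Algebra.smul_def, mul_div_assoc]
  rfl

/-- Divisors in the classes of the lines along which the other fibres are good. -/
def Gen3 (M : D.Mod Ω) : Prop := ∀ i j, j ≠ i → D.r i ≠ 0 → ∀ e : Lat.F (D.r j), Lat.Line e →
  ∃ W : Dv M.X, 0 ≤ W ∧ nc M.Γ M.sm.fac W = cl M.Γ M.sm.fac M.st (Lat.sl j e) ∧
    ∀ R : M.X.PD, W R ≠ 0 → ∀ V ∈ G2.Adm R, D.Irr M.x V.toSubring i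

variable (D) in
/-- A section `g₀` of the class `v` whose zeros lie on the curve `g = 0`. -/
def Lsec (j : Fin D.k) (v : Option (Fin (D.r j)) → ℤ) (g₀ g : MvPolynomial (Fin (D.n j + 1)) ℂ) :
    Prop := ∀ (F : Type) [Field F] [Algebra ℂ F] (x : ∀ i, Fin (D.n i + 1) → F),
  (∀ t, D.y x t ≠ 0) → ∀ τ, aeval (x j) g₀ / D.gen x (Pi.single j v) τ ∈ D.B x τ ∧
    ∃ b ∈ D.B x τ, aeval (fun l => D.rat x τ (.inl ⟨j, l⟩)) g =
      aeval (x j) g₀ / D.gen x (Pi.single j v) τ * b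

end dat

/-- Solutions of linear equations. -/
def St_LIN : Prop := ∀ (Ω : Type) [Field Ω] [Algebra ℂ Ω] (k : IntermediateField ℂ Ω) (N : Type)
  [Fintype N] (c : ℕ) (M : Fin c → N → Ω) (a : N → Ω), (∀ i n, M i n ∈ k) → LinearIndependent Ω M →
    (∀ i, M i ⬝ᵥ a = 0) → ∃ (e : ℕ) (b : Fin e → N → Ω) (y : Fin e → Ω),
      e + c = Fintype.card N ∧ (∀ j n, b j n ∈ k) ∧ a = ∑ j, y j • b j

/-- Points of a hypersurface. -/
def St_DEP : Prop := ∀ (Ω : Type) [Field Ω] [Algebra ℂ Ω] (S : Set Ω) (n d : ℕ)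
  (z : Fin (n + 2) → Ω) (l₀ : Fin (n + 2)) (g : MvPolynomial (Fin (n + 2)) Ω), z l₀ = 1 → g ≠ 0 →
    g.IsHomogeneous d → (∀ μ, coeff μ g ∈ acl S) → eval z g = 0 → Ov S (range z) n

/-- The coordinates of a point in one factor. -/
def St_FAC : Prop := ∀ (D : Dat) (Ω : Type) [Field Ω] [Algebra ℂ Ω] (P : ZP D Ω) (j : Fin D.k),
  Ov ∅ (co P j) (D.n j) ∧ (∀ c, P.g c j ∈ acl (co P j)) ∧
    (∃ s, ∀ c, aeval (xb P j) (D.G c j) = P.g c j * s) ∧
    ∀ (S : Set Ω) (d e : ℕ) (g : MvPolynomial (Fin (D.n j + 1)) Ω), e + 1 = D.n j → g ≠ 0 →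
      g.IsHomogeneous d → (∀ μ, coeff μ g ∈ acl S) → eval (xb P j) g = 0 → Ov S (co P j) e

/-- Base change for forms through the points. -/
def St_BC : Prop := ∀ (Ω : Type) [Field Ω] [Algebra ℂ Ω] (N d : ℕ) (J : Type) (p : J → Fin N → ℂ)
  (g : MvPolynomial (Fin N) Ω), g.IsHomogeneous d → (∀ a, eval (algebraMap ℂ Ω ∘ p a) g = 0) →
    g ∈ Submodule.span Ω (map (algebraMap ℂ Ω) ''
      {G : MvPolynomial (Fin N) ℂ | G.IsHomogeneous d ∧ ∀ a, eval (p a) G = 0})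

/-- Conics through at most four points that miss another point, conics through five points. -/
def St_CONA : Prop := ∀ (D : Dat) (j : Fin D.k), D.r j ≠ 0 → ∀ A : Finset (Fin (D.r j)),
  (A.card ≤ 4 → ∀ (Ω : Type) [Field Ω] [Algebra ℂ Ω] (z : Fin (D.n j + 1) → Ω), z ≠ 0 →
    (∀ a ∈ A, ∃ k, ∑ l, D.u j a k l • z l ≠ 0) → ∃ q : MvPolynomial (Fin (D.n j + 1)) ℂ,
      q.IsHomogeneous 2 ∧ (∀ a ∈ A, eval (D.p j a) q = 0) ∧ aeval z q ≠ 0) ∧
  (D.DP → A.card ≤ 5 → ∀ b, b ∉ A → ∃ q : MvPolynomial (Fin (D.n j + 1)) ℂ,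
      q.IsHomogeneous 2 ∧ (∀ a ∈ A, eval (D.p j a) q = 0) ∧ eval (D.p j b) q ≠ 0)

/-- Tangent directions of the anticanonical cubics at the points. -/
def St_TAN : Prop := ∀ (D : Dat), D.DP → ∀ (j : Fin D.k) (a : Fin (D.r j)) (Ω : Type) [Field Ω]
  [Algebra ℂ Ω] (d : Fin (D.n j + 1) → Ω), (∃ k, ∑ l, D.u j a k l • d l ≠ 0) →
    ∃ g, AC D j g ∧ ∑ l, eval (D.p j a) (pderiv l g) • d l ≠ 0

/-- Anticanonical cubics that miss a point. -/
def St_OFF : Prop := ∀ (D : Dat), D.DP → ∀ (j : Fin D.k), D.r j ≠ 0 → ∀ (Ω : Type) [Field Ω]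
  [Algebra ℂ Ω] (z : Fin (D.n j + 1) → Ω), (∀ a, ∃ k, ∑ l, D.u j a k l • z l ≠ 0) →
    ∃ g, AC D j g ∧ aeval z g ≠ 0

/-- An anticanonical cubic that is singular at one of the points. -/
def St_NOD : Prop := ∀ (D : Dat) (j : Fin D.k) (a : Fin (D.r j)),
  ∃ g, AC D j g ∧ g ≠ 0 ∧ ∀ l, eval (D.p j a) (pderiv l g) = 0

/-- The anticanonical bundles are base point free. -/
def St_BPF3 : Prop := ∀ (D : Dat), D.DP → ∀ (Ω : Type) [Field Ω] [Algebra ℂ Ω] (P : ZP D Ω)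
  (j : Fin D.k), ∃ (g : MvPolynomial (Fin (D.n j + 1)) ℂ) (h : AC D j g),
    P.θ ⟨_, WPT0B.ac_mem st_kap' P.τ h⟩ ≠ 0

/-- Every anticanonical form is a fibre equation. -/
def St_SURJ : Prop := ∀ (D : Dat), D.DP → D.Full → ∀ (Ω : Type) [Field Ω] [Algebra ℂ Ω] (P : ZP D Ω)
  (i : Fin D.k), ∀ g ∈ AO D Ω i, ∃ a : Fin D.m → Ω, (φ D i fun c => a c * P.ω i c) = g

/-- Cubics that contain a line. -/
def St_CUBL : Prop := ∀ (D : Dat), D.DP → ∀ (Ω : Type) [Field Ω] [Algebra ℂ Ω] (i : Fin D.k),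
  D.r i ≠ 0 → ∀ g ∈ AO D Ω i, BadL g → g = 0 ∨
    ∃ (U : Finset Ω) (c : ℕ), U.card + 2 ≤ c ∧ Cod (AO D Ω i) (acl U) g c

/-- Cubics that are singular at one of the points, and the zero form. -/
def St_CUBS : Prop := ∀ (D : Dat), D.DP → ∀ (Ω : Type) [Field Ω] [Algebra ℂ Ω] (i : Fin D.k),
  (∀ g, BadS D i g → Cod (AO D Ω i) ⊥ g 2) ∧ (D.r i ≠ 0 ∨ D.n i = 1 → Cod (AO D Ω i) ⊥ 0 3) ∧
    (D.n i = 1 → ∀ g ∈ AO D Ω i, BadL g → g = 0)

/-- The dimension of the incidence variety. -/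
def St_CNT : Prop := ∀ (D : Dat), D.DP → D.Full → ∀ (Ω : Type) [Field Ω] [Algebra ℂ Ω]
  (a : Fin D.m → Ω) (P : ZP D Ω) (i : Fin D.k), Pt a P i → ∀ (e : ℕ) (S : Fin e → D.Vx),
    AlgebraicIndependent ℂ (Sum.elim a (P.v ∘ S)) → e + 3 ≤ ∑ j, D.n j ∧
      ∀ j, j ≠ i → ∀ (d : ℕ) (g : MvPolynomial (Fin (D.n j + 1)) ℂ), g ≠ 0 → g.IsHomogeneous d →
        aeval (xb P j) g = 0 → e + 4 ≤ ∑ j, D.n j

/-- Spreading out. -/
def St_SPR0 : Prop := ∀ (R : Type) [CommRing R] [Algebra ℂ R] (J : Set R) (m e : ℕ)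
  (α : Fin m → R) (β : Fin e → R), (∀ (Ω : Type) [Field Ω] [Algebra ℂ Ω] (ψ : R →ₐ[ℂ] Ω),
    (∀ z ∈ J, ψ z = 0) → ¬AlgebraicIndependent ℂ (Sum.elim (ψ ∘ α) (ψ ∘ β))) →
  Gn fun a => ∀ (Ω : Type) [Field Ω] [Algebra ℂ Ω] (ψ : R →ₐ[ℂ] Ω), (∀ z ∈ J, ψ z = 0) →
    ψ ∘ α = algebraMap ℂ Ω ∘ a → ¬AlgebraicIndependent ℂ (ψ ∘ β)

/-- Spreading out for bad points. -/
def St_SPR : Prop := ∀ (D : Dat) (i : Fin D.k) (b : MvPolynomial D.Vx ℂ) (e : ℕ),
  (∀ (Ω : Type) [Field Ω] [Algebra ℂ Ω] (a : Fin D.m → Ω) (P : ZP D Ω), Pt a P i →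
    aeval P.v b = 0 → ∀ S : Fin e → D.Vx, ¬AlgebraicIndependent ℂ (Sum.elim a (P.v ∘ S))) →
  Gn fun a => Few D a i b e

/-- The transcendence degree of the function field. -/
def St_TD0 : Prop := ∀ (D : Dat) (a : Fin D.m → ℂ) (K : Type) [Field K] [Algebra ℂ K]
  (x : ∀ i, Fin (D.n i + 1) → K), (∀ i, x i 0 = 1) → D.CutA a x D.X → ∀ e, e + 1 = ∑ j, D.n j →
    IndIn (⊤ : Subring K) univ e

/-- Reduction modulo a local ring. -/
def St_RES3 : Prop := ∀ (D : Dat) (a : Fin D.m → ℂ) (K : Type) [Field K] [Algebra ℂ K]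
  (x : ∀ i, Fin (D.n i + 1) → K), (∀ t, D.y x t ≠ 0) → D.CutA a x D.X → ∀ (i : Fin D.k)
  (b : MvPolynomial D.Vx ℂ) (e : ℕ), Few D a i b e → ∀ (A T : Subring K) (τ τ' : D.Ch), IsLoc T →
    LocOf (D.B x τ').toSubring A → A ≤ T → IndIn T A e → (D.B x τ).toSubring ≤ T →
    ¬Un T (aeval (D.rat x τ) b) → Gd D T i (Φa D a x τ i)

/-- Sections in the classes of the lines. -/
def St_LSEC : Prop := ∀ (D : Dat) (j : Fin D.k) (e : Lat.F (D.r j)), Lat.Line e →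
  ∃ (g₀ g : MvPolynomial (Fin (D.n j + 1)) ℂ) (d₀ d : ℕ) (v : Option (Fin (D.r j)) → ℤ),
    g₀ ≠ 0 ∧ g ≠ 0 ∧ g₀.IsHomogeneous d₀ ∧ g.IsHomogeneous d ∧ (∀ o, e o = v o) ∧ Lsec D j v g₀ g

/-- Classification of the lines. -/
def St_LCL : Prop := ∀ (r : ℕ), r ≤ 7 → ∀ e : Lat.F r, Lat.Line e → (∃ a, e = Lat.ee a) ∨
  (∃ (d : ℕ) (A : Finset (Fin r)), ((d = 1 ∧ A.card = 2) ∨ (d = 2 ∧ A.card = 5)) ∧
    e none = (d : ℝ) - A.card ∧ ∀ a, e (some a) = if a ∈ A then 1 else 0) ∨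
  (r = 7 ∧ ∃ a, e none = -5 ∧ ∀ b, e (some b) = if b = a then 2 else 1)

/-- Anticanonical cubics with a double point. -/
def St_KAP2 : Prop := ∀ (D : Dat) (F : Type) [Field F] [Algebra ℂ F]
  (x : ∀ i, Fin (D.n i + 1) → F), (∀ t, D.y x t ≠ 0) → ∀ (τ : D.Ch) (j : Fin D.k)
  (a : Fin (D.r j)) (g : MvPolynomial (Fin (D.n j + 1)) ℂ), AC D j g →
    (∀ l, eval (D.p j a) (pderiv l g) = 0) → aeval (x j) g /
      (D.kap x τ j * (D.y x (τ.1 ⟨j, some a⟩) / D.y x (τ.1 ⟨j, none⟩))) ∈ D.B x τ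

/-- The divisors over the lines. -/
def St_GEN3 : Prop := ∀ (D : Dat) (K : Type) [Field K] [Algebra ℂ K] (M : D.Mod K) (j : Fin D.k)
  (e : Lat.F (D.r j)) (g₀ g : MvPolynomial (Fin (D.n j + 1)) ℂ) (d₀ : ℕ)
  (v : Option (Fin (D.r j)) → ℤ), g₀ ≠ 0 → g₀.IsHomogeneous d₀ → (∀ o, e o = v o) →
    Lsec D j v g₀ g → (∃ i, j ≠ i) →
    ∃ W : Dv M.X, 0 ≤ W ∧ nc M.Γ M.sm.fac W = cl M.Γ M.sm.fac M.st (Lat.sl j e) ∧
      ∀ R : M.X.PD, W R ≠ 0 → ∀ (T : Subring K) τ, T ≤ M.X.O R.1 → (D.B M.x τ).toSubring ≤ T →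
        ¬Un T (aeval (fun l => D.rat M.x τ (.inl ⟨j, l⟩)) g)

/-- The result of the geometric part. -/
def St_NEF3 : Prop := ∀ (D : Dat) (K : Type) [Field K] [Algebra ℂ K] (M : D.Mod K), N1 M → N2 M →
  Gen3 M → ∀ (ok : Lat.Ok7 D.n D.r) R (I : Inp M.Γ M.sm.fac D.n M.st R),
    Lat.Nef (I.geo7 ok.n2 M.Q)

end Pool.Agent.Lib.MV.G3
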