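import Pool.Agent.Lib.MV.Defs
import Pool.Agent.Lib.MV.EndDefs
import Pool.Agent.Lib.DU.LOG
import Pool.Agent.Lib.DU.FD
import Pool.Agent.Lib.DU.RT

open Set Pool.Agent.Lib.MP_e39d36_ag Pool.Agent.Lib.MP_e39d36_ag.Var Pool.Agent.Lib.MP_cc3443_ag
  Pool.Agent.Lib.DU Pool.Agent.Lib.MV.End Pool.Agent.Lib.MV.Lat

set_option linter.unusedSectionVars false
set_option linter.style.haveILetI false

noncomputable section

namespace Pool.Agent.Lib.MV

namespace Log

variable {K : Type} [Field K] [Algebra ℂ K] {X : Var K}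

lemma exists_map {A B : Type} [CommRing A] [CommRing B] [Algebra ℂ A] [Algebra ℂ B]
    (θ : A →ₐ[ℂ] B) : ∃ φ : Ω[A⁄ℂ] →ₗ[ℂ] Ω[B⁄ℂ],
    (∀ a, φ (KaehlerDifferential.D ℂ A a) = KaehlerDifferential.D ℂ B (θ a)) ∧
    ∀ (a : A) m, φ (a • m) = θ a • φ m := by
  letI : Algebra A B := θ.toRingHom.toAlgebra
  haveI : IsScalarTower ℂ A B := IsScalarTower.of_algebraMap_eq fun a => (θ.commutes a).symm
  refine ⟨(KaehlerDifferential.map ℂ ℂ A B).restrictScalars ℂ,
    fun a => KaehlerDifferential.map_D ℂ ℂ _ B a, fun a m => ?_⟩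
  rw [LinearMap.restrictScalars_apply, map_smul, ← algebraMap_smul B]
  rfl

lemma dlog_mul {f g : K} (hf : f ≠ 0) (hg : g ≠ 0) : dlog (f * g) = dlog f + dlog g := by
  have := FD.dlog_div (mul_ne_zero hf hg) hg
  rw [mul_div_cancel_right₀ _ hg] at this
  rw [this, sub_add_cancel]

lemma dlog_one : dlog (1 : K) = 0 := by simp [dlog]

lemma dlog_inv {f : K} (hf : f ≠ 0) : dlog f⁻¹ = -dlog f := by
  rw [← one_div, FD.dlog_div one_ne_zero hf, dlog_one, zero_sub]

lemma dlog_zpow {f : K} (hf : f ≠ 0) (m : ℤ) : dlog (f ^ m) = (m : ℂ) • dlog f := by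
  induction m using Int.induction_on with
  | zero => simp [dlog_one]
  | succ m ih => rw [zpow_add_one₀ hf, dlog_mul (zpow_ne_zero _ hf) hf, ih]; simp [add_smul]
  | pred m ih =>
    rw [zpow_sub_one₀ hf, dlog_mul (zpow_ne_zero _ hf) (inv_ne_zero hf), ih, dlog_inv hf]
    simp [sub_eq_add_neg, add_smul]

lemma dlog_un {R : Subring K} {u : K} (h : Un R u) : dlog u ∈ frm R :=
  LOG.smul_mem h.2.2 (LOG.D_mem h.2.1)

lemma ne_of_ord {π : K} {E : X.PD} (h : X.ord π E.1 = 1) : π ≠ 0 := by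
  rintro rfl
  simp [ord_val] at h

lemma exists_unif (E : X.PD) : ∃ π : K, X.ord π E.1 = 1 := by
  obtain ⟨π, -, h⟩ := MP_e39d36_ag.exists_unif (isV E).1
  exact ⟨π, by rwa [ord_val]⟩

lemma dlog_loc {π f : K} {E : X.PD} (h : X.ord π E.1 = 1) (hf : f ≠ 0) :
    dlog f - (X.ord f E.1 : ℂ) • dlog π ∈ frm (X.O E.1) := by
  have h0 := ne_of_ord h
  rw [← dlog_zpow h0, ← FD.dlog_div hf (zpow_ne_zero _ h0)]
  refine dlog_un ((isV E).un_iff.2 ⟨div_ne_zero hf (zpow_ne_zero _ h0), ?_⟩)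
  rw [ord_val] at h
  rw [od_div hf (zpow_ne_zero _ h0), ord_val, od_zpow, h]
  ring

lemma loc_sum {J : Type} [Fintype J] (c : J → ℂ) {W : J → Dv X} {f : J → K} {π : K} {E : X.PD}
    (h : X.ord π E.1 = 1) (hf : ∀ j, LocEq (W j) E.1 (f j)) :
    ∑ j, c j • dlog (f j) - cmb c W E • dlog π ∈ frm (X.O E.1) := by
  rw [cmb, Finset.sum_smul, ← Finset.sum_sub_distrib]
  refine sum_mem fun j _ => ?_
  rw [mul_smul, ← smul_sub, (hf j).eq le_rfl]
  exact LOG.csmul_mem (dlog_loc h (hf j).1)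

end Log

open Log

section res

variable {K : Type} [Field K] [Algebra ℂ K] {X : Var K} {Δ Δ' : X.PD → ℂ}

lemma Res.zero : Res (0 : X.PD → ℂ) := ⟨0, fun _ _ _ => by simp⟩

lemma Res.add (h : Res Δ) (h' : Res Δ') : Res (Δ + Δ') := by
  obtain ⟨η, h⟩ := h
  obtain ⟨η', h'⟩ := h'
  refine ⟨η + η', fun E π hπ => ?_⟩
  rw [Pi.add_apply, add_smul, ← sub_add_sub_comm]
  exact add_mem (h E π hπ) (h' E π hπ)

lemma Res.smul (h : Res Δ) (c : ℂ) : Res (c • Δ) := by
  obtain ⟨η, h⟩ := h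
  refine ⟨c • η, fun E π hπ => ?_⟩
  rw [Pi.smul_apply, smul_eq_mul, mul_smul, ← smul_sub]
  exact LOG.csmul_mem (h E π hπ)

lemma Res.neg (h : Res Δ) : Res (-Δ) := by simpa using h.smul (-1)

lemma Res.sub (h : Res Δ) (h' : Res Δ') : Res (Δ - Δ') := by
  simpa [sub_eq_add_neg] using h.add h'.neg

lemma Res.sum {α : Type*} {s : Finset α} {g : α → X.PD → ℂ} (h : ∀ a ∈ s, Res (g a)) :
    Res (∑ a ∈ s, g a) :=
  Finset.sum_induction _ _ (fun _ _ => Res.add) Res.zero h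

lemma Res.congr (h : Res Δ) (h' : ∀ E, Δ' E = Δ E) : Res Δ' := funext h' ▸ h

lemma res_div {f : K} (hf : f ≠ 0) : Res fun E : X.PD => (X.div f E : ℂ) :=
  ⟨dlog f, fun _ _ h => dlog_loc h hf⟩

lemma res_le {D D' : Dv X} (h : End.LE D D') : Res fun E => (D E : ℂ) - D' E := by
  obtain ⟨f, h0, rfl⟩ := h
  exact (res_div h0).congr fun E => by simp

variable {J : Type} [Fintype J] {c : J → ℂ} {W : J → Dv X}

/-- The pointwise form. -/
lemma Res.pw (hs : Sm X) (h : Res (cmb c W)) : ∃ η : Ω[K⁄ℂ], ∀ (z : X.Pt) (f : J → K),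
    (∀ j, LocEq (W j) z (f j)) → η - ∑ j, c j • dlog (f j) ∈ frm (X.O z) := by
  obtain ⟨η, h⟩ := h
  refine ⟨η, fun z f hf => hs.reg z _ fun E hE => ?_⟩
  obtain ⟨π, hπ⟩ := Log.exists_unif E
  simpa using sub_mem (h E π hπ) (loc_sum c hπ fun j => (hf j).mono hE)

lemma res_of_pw {η : Ω[K⁄ℂ]} (h : ∀ E : X.PD, ∃ f : J → K, (∀ j, LocEq (W j) E.1 (f j)) ∧
    η - ∑ j, c j • dlog (f j) ∈ frm (X.O E.1)) : Res (cmb c W) :=
  ⟨η, fun E π hπ => by
    obtain ⟨f, h1, h2⟩ := h E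
    simpa using add_mem h2 (loc_sum c hπ h1)⟩

lemma Res.push {φ : RingAut K} {e : X.PD ≃ X.PD} (hp : Ps φ e) (h : Res Δ) :
    Res fun E => Δ (e.symm E) := by
  obtain ⟨η, h⟩ := h
  obtain ⟨m, h1, h2⟩ := exists_map (⟨φ.toRingHom, hp.1⟩ : K →ₐ[ℂ] K)
  refine ⟨m η, e.surjective.forall.2 fun E => φ.surjective.forall.2 fun π hπ => ?_⟩
  rw [hp.2] at hπ
  have h3 : ∀ a ∈ X.O E.1, φ a ∈ X.O (e E).1 := fun a ha => by
    by_cases h0 : a = 0
    · simp [h0]
    · rw [(isV _).mem_iff ((map_ne_zero φ).2 h0), ← ord_val, hp.2]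
      exact ord_nonneg ha
  have h4 : ∀ ω ∈ frm (X.O E.1), m ω ∈ frm (X.O (e E).1) := fun ω hω => by
    induction hω using Submodule.span_induction with
    | mem x hx =>
      obtain ⟨a, ha, rfl⟩ := hx
      exact h1 a ▸ LOG.D_mem (h3 a ha)
    | zero => simp
    | add x y _ _ hx hy => rw [map_add]; exact add_mem hx hy
    | smul a x _ hx => exact (h2 a x).symm ▸ LOG.smul_mem (h3 a a.2) hx
  have h5 := h4 _ (h E π hπ)
  rw [map_sub, map_smul, dlog, h2, h1] at h5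
  simpa [dlog] using h5

/-- Residue divisors are numerically trivial. -/
theorem Res.n2 (hs : Sm X) (Γ : Curves X) (h : Res (cmb c W)) (L : ℂ →ₗ[ℝ] ℝ) :
    ∑ j, L (c j) • nc Γ hs.fac (W j) = 0 := by
  obtain ⟨η, h⟩ := h.pw hs
  let e := Fintype.equivFin J
  ext x
  obtain ⟨F, _, _, _, γ, -, -, h3⟩ := Γ.int_eq x.1 x.2
  have h1 := FD.good blockRT γ (hs.inj _) (fun i => ⟨W (e.symm i), hs.fac _⟩)
    (fun i => c (e.symm i)) η fun z f hf => by
      have := h z (fun j => f (e j)) fun j => by simpa using hf (e j)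
      rw [← e.symm.sum_comp] at this
      simpa only [e.apply_symm_apply] using this
  rw [e.symm.sum_comp fun j => c j * γ.deg (W j)] at h1
  have h4 := congrArg L h1
  rw [map_sum, map_zero] at h4
  simp only [Submodule.coe_sum, Submodule.coe_smul, Finset.sum_apply, Pi.smul_apply,
    smul_eq_mul, Submodule.coe_zero, Pi.zero_apply]
  rw [← h4]
  refine Finset.sum_congr rfl fun j _ => ?_
  rw [← h3 _ (hs.fac _), mul_comm (c j), ← Complex.ofReal_intCast, ← Complex.real_smul, map_smul,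
    smul_eq_mul, mul_comm]
  rfl

variable {ι : Type} [Fintype ι] [DecidableEq ι] {r : ι → ℕ}
  (st : (i : ι) → Option (Fin (r i)) → Dv X)

/-- A divisor minus a complex combination of the standard divisors. -/
def dif (D : Dv X) (c : (i : ι) → Option (Fin (r i)) → ℂ) : X.PD → ℂ :=
  fun E => D E - ∑ i, ∑ o, c i o * st i o E

/-- The Lefschetz type statement. -/
def Lef : Prop := ∀ D, ∃ c, Res (dif st D c)

variable {st}

lemma Res.nc_dif (hs : Sm X) (Γ : Curves X) {D : Dv X} {c : (i : ι) → Option (Fin (r i)) → ℂ}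
    (h : Res (dif st D c)) (L : ℂ →ₗ[ℝ] ℝ) :
    L 1 • nc Γ hs.fac D = cl Γ hs.fac st fun i o => L (c i o) := by
  have := Res.n2 (J := Option (Σ i, Option (Fin (r i)))) (c := fun j => j.elim 1 fun μ => -c μ.1 μ.2)
    (W := fun j => j.elim D fun μ => st μ.1 μ.2) hs Γ (h.congr fun E => by
      simp [cmb, dif, Fintype.sum_option, Fintype.sum_sigma, sub_eq_add_neg]) L
  rw [Fintype.sum_option, Fintype.sum_sigma] at this
  simp only [Option.elim, map_neg] at this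
  rw [← sub_eq_zero, sub_eq_add_neg, ← map_neg]
  exact this

theorem Lef.spn (h : Lef st) (hs : Sm X) (Γ : Curves X) (D : Dv X) :
    ∃ x, nc Γ hs.fac D = cl Γ hs.fac st x := by
  obtain ⟨c, hc⟩ := h D
  exact ⟨_, by simpa using hc.nc_dif hs Γ Complex.reLm⟩

theorem Lef.n1 (h : Lef st) (hs : Sm X) (Γ : Curves X) (hi : ∀ x, cl Γ hs.fac st x = 0 → x = 0)
    {D : Dv X} {x : V r} (hx : nc Γ hs.fac D = cl Γ hs.fac st x) :
    Res (dif st D fun i o => x i o) := by
  obtain ⟨c, hc⟩ := h D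
  have h1 := hc.nc_dif hs Γ Complex.reLm
  have h2 := hc.nc_dif hs Γ Complex.imLm
  simp only [Complex.reLm_coe, Complex.one_re, one_smul, Complex.imLm_coe, Complex.one_im,
    zero_smul] at h1 h2
  have h3 := sub_eq_zero.1 (hi (x - fun i o => (c i o).re) (by rw [map_sub, ← hx, ← h1, sub_self]))
  have h4 := hi _ h2.symm
  obtain rfl : c = fun i o => (x i o : ℂ) := funext fun i => funext fun o =>
    Complex.ext (congrFun (congrFun h3 i) o).symm (congrFun (congrFun h4 i) o)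
  exact hc

theorem Lef.num (h : Lef st) (hs : Sm X) (Γ : Curves X) (hi : ∀ x, cl Γ hs.fac st x = 0 → x = 0)
    (φ : RingAut K) (e : X.PD ≃ X.PD) (hp : Ps φ e) (D : Dv X) (x : V r)
    (hx : nc Γ hs.fac D = cl Γ hs.fac st x) :
    nc Γ hs.fac (End.push e D) = cl Γ hs.fac (fun i o => End.push e (st i o)) x := by
  have := Res.nc_dif (st := fun i o => End.push e (st i o)) (D := End.push e D) hs Γ
    (c := fun i o => x i o) (((h.n1 hs Γ hi hx).push hp).congr fun E => by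
      simp only [dif, push_apply]) Complex.reLm
  simpa only [Complex.reLm_coe, Complex.one_re, one_smul, Complex.ofReal_re] using this

end res

end Pool.Agent.Lib.MV
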