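import Pool.Agent.Lib.MV.G3A

open MvPolynomial Set Matrix

noncomputable section

namespace Pool.Agent.Lib.MV.G3

theorem st_lin : St_LIN := by
  intro Ω _ _ k N _ c M a hk hM ha
  classical
  let M' : Matrix (Fin c) N k := fun i n => ⟨M i n, hk i n⟩
  have h1 : LinearIndependent k M'.row :=
    (linearIndependent_algebraMap_comp_iff (S := Ω) (v := M'.row)).1 hM
  have h2 := LinearMap.finrank_range_add_finrank_ker M'.mulVecLin
  have h3 : Module.finrank k (LinearMap.range M'.mulVecLin) = c :=
    h1.rank_matrix.trans (Fintype.card_fin c)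
  obtain ⟨R, hR⟩ := M'.mulVecLin.exists_rightInverse_of_surjective
    (Submodule.eq_top_of_finrank_eq (by simpa using h3))
  let b := Module.finBasis k (LinearMap.ker M'.mulVecLin)
  let T : (N → k) →ₗ[k] N → Ω := (Algebra.linearMap k Ω).compLeft N
  have key : a ∈ Submodule.span Ω (range fun j => T (b j)) := by
    have h4 (v : N → k) (hv : v ∈ LinearMap.ker M'.mulVecLin) :
        T v ∈ Submodule.span Ω (range fun j => T (b j)) := by
      have : v = ∑ j, b.repr ⟨v, hv⟩ j • (b j : N → k) := by
        simpa only [Submodule.coe_sum, Submodule.coe_smul] using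
          (congrArg Subtype.val (b.sum_repr ⟨v, hv⟩)).symm
      rw [this, map_sum]
      refine Submodule.sum_mem _ fun j _ => ?_
      rw [map_smul, ← algebraMap_smul Ω]
      exact Submodule.smul_mem _ _ (Submodule.subset_span ⟨j, rfl⟩)
    have h5 (n : N) : M'.mulVecLin (Pi.single n 1) = ∑ i, M' i n • Pi.single i 1 := by
      ext i
      simp [Pi.single_apply]
    have h6 : ∑ n, a n • T (R (M'.mulVecLin (Pi.single n 1))) = 0 := by
      simp only [h5, map_sum, map_smul, Finset.smul_sum]
      rw [Finset.sum_comm]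
      refine Finset.sum_eq_zero fun i _ => ?_
      simp only [← algebraMap_smul Ω (M' i _), smul_smul]
      rw [← Finset.sum_smul]
      have : ∑ n, a n * algebraMap k Ω (M' i n) = 0 := by
        rw [← ha i]
        exact Finset.sum_congr rfl fun n _ => mul_comm _ _
      rw [this, zero_smul]
    have h7 : a = ∑ n, a n • T (Pi.single n 1 - R (M'.mulVecLin (Pi.single n 1))) := by
      simp only [map_sub, smul_sub, Finset.sum_sub_distrib, h6, sub_zero]
      ext l
      simp [T, Pi.single_apply, apply_ite (algebraMap k Ω)]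
    rw [h7]
    refine Submodule.sum_mem _ fun n _ => Submodule.smul_mem _ _ (h4 _ ?_)
    rw [LinearMap.mem_ker, map_sub, sub_eq_zero]
    exact (LinearMap.congr_fun hR _).symm
  obtain ⟨y, hy⟩ := (Submodule.mem_span_range_iff_exists_fun Ω).1 key
  refine ⟨_, fun j => T (b j), y, ?_, fun j n => ((b j).1 n).2, hy.symm⟩
  rw [h3, Module.finrank_fintype_fun_eq_card] at h2
  omega

namespace BC

variable {Ω σ : Type} [Field Ω] [Algebra ℂ Ω]

/-- Apply a functional to the coefficients. -/
def cf (θ : Ω →ₗ[ℂ] ℂ) (g : MvPolynomial σ Ω) : MvPolynomial σ ℂ :=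
  ∑ μ ∈ g.support, monomial μ (θ (coeff μ g))

lemma coeff_cf (θ : Ω →ₗ[ℂ] ℂ) (g : MvPolynomial σ Ω) (μ : σ →₀ ℕ) :
    coeff μ (cf θ g) = θ (coeff μ g) := by
  classical
  simp only [cf, coeff_sum, coeff_monomial, Finset.sum_ite_eq', mem_support_iff]
  split_ifs with h
  · rfl
  · rw [not_not.1 h, map_zero]

lemma eval_cf (θ : Ω →ₗ[ℂ] ℂ) (g : MvPolynomial σ Ω) (p : σ → ℂ) :
    eval p (cf θ g) = θ (eval (algebraMap ℂ Ω ∘ p) g) := by
  rw [cf, map_sum, eval_eq, map_sum]
  refine Finset.sum_congr rfl fun μ _ => ?_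
  rw [eval_monomial, mul_comm, ← smul_eq_mul, ← map_smul, Algebra.smul_def, mul_comm]
  simp [Finsupp.prod]

end BC

theorem st_bc : St_BC := by
  intro Ω _ _ N d J p g hg h0
  classical
  let e := Module.Basis.ofVectorSpace ℂ Ω
  let T := g.support.biUnion fun μ => (e.repr (coeff μ g)).support
  have : g = ∑ α ∈ T, e α • map (algebraMap ℂ Ω) (BC.cf (e.coord α) g) := by
    ext μ
    simp only [coeff_sum, coeff_smul, coeff_map, BC.coeff_cf, smul_eq_mul]
    by_cases h : μ ∈ g.support
    · conv_lhs => rw [← e.linearCombination_repr (coeff μ g), Finsupp.linearCombination_apply,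
        Finsupp.sum_of_support_subset _ (Finset.subset_biUnion_of_mem
          (fun μ => (e.repr (coeff μ g)).support) h) _ (by simp)]
      exact Finset.sum_congr rfl fun α _ => by rw [Algebra.smul_def, mul_comm]; rfl
    · simp [notMem_support_iff.1 h]
  rw [this]
  refine Submodule.sum_mem _ fun α _ => Submodule.smul_mem _ _ (Submodule.subset_span
    ⟨_, ⟨fun μ h => hg fun h' => h ?_, fun a => ?_⟩, rfl⟩)
  · rw [BC.coeff_cf, h', map_zero]
  · rw [BC.eval_cf, h0, map_zero]

end Pool.Agent.Lib.MV.G3
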