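import Pool.Agent.Lib.MV.G3A

open MvPolynomial Set Pool.Agent.Lib.MP_e39d36_ag Pool.Agent.Lib.MV.S3 Pool.Agent.Lib.MV.Dat

set_option linter.unusedVariables false
set_option linter.style.haveILetI false

noncomputable section

namespace Pool.Agent.Lib.MV.G3

theorem st_spr0 : St_SPR0 := by
  intro R _ _ J m e α β h
  have nat : ∀ {Ω : Type} [Field Ω] [Algebra ℂ Ω] (ψ : R →ₐ[ℂ] Ω) (P : MvPolynomial _ ℂ),
      aeval (Sum.elim (ψ ∘ α) (ψ ∘ β)) P = ψ (aeval (Sum.elim α β) P) := fun ψ P => by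
    rw [← Sum.comp_elim]; exact (comp_aeval_apply _ ψ P).symm
  obtain ⟨P, h0, h1⟩ : ∃ P : MvPolynomial (Fin m ⊕ Fin e) ℂ, P ≠ 0 ∧
      aeval (Sum.elim α β) P ∈ Ideal.span J := by
    by_contra! hc
    obtain ⟨p, hp, h1, h2⟩ := (Ideal.span J).exists_le_prime_disjoint
      ((nonZeroDivisors (MvPolynomial (Fin m ⊕ Fin e) ℂ)).map (aeval (Sum.elim α β) : _ →ₐ[ℂ] R))
      (disjoint_left.2 (by rintro _ h1 ⟨P, h2, rfl⟩; exact hc P (nonZeroDivisors.ne_zero h2) h1))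
    let ψ : R →ₐ[ℂ] FractionRing (R ⧸ p) :=
      (IsScalarTower.toAlgHom ℂ (R ⧸ p) _).comp (Ideal.Quotient.mkₐ ℂ p)
    have h3 : ∀ z, ψ z = 0 ↔ z ∈ p := fun z =>
      (map_eq_zero_iff _ (IsFractionRing.injective (R ⧸ p) _)).trans Ideal.Quotient.eq_zero_iff_mem
    refine h _ ψ (fun z hz => (h3 z).2 (h1 (Ideal.subset_span hz)))
      (algebraicIndependent_iff.2 fun P hP => ?_)
    by_contra h4
    exact disjoint_left.1 h2 ((h3 _).1 ((nat ψ P).symm.trans hP))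
      ⟨P, mem_nonZeroDivisors_of_ne_zero h4, rfl⟩
  let g : MvPolynomial (Fin m ⊕ Fin e) ℂ →ₐ[ℂ] MvPolynomial (Fin e) (MvPolynomial (Fin m) ℂ) :=
    aeval (Sum.elim (C ∘ X) X)
  have hg : (aevalTower (rename Sum.inl) (X ∘ Sum.inr)).comp g = AlgHom.id ℂ _ :=
    algHom_ext (by rintro (i | i) <;> simp [g])
  obtain ⟨μ, hμ⟩ := ne_zero_iff.1 (show g P ≠ 0 from fun h2 => h0 (by
    simpa [h2] using (DFunLike.congr_fun hg P).symm))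
  refine ⟨_, hμ, fun a ha Ω _ _ ψ h2 h3 h4 => ha ?_⟩
  have h5 : (aeval (ψ ∘ β)).comp ((mapAlgHom (aeval a)).comp g) =
      aeval (Sum.elim (ψ ∘ α) (ψ ∘ β)) := algHom_ext (by rintro (i | i) <;> simp [g, h3])
  have h6 : ψ (aeval (Sum.elim α β) P) = 0 :=
    (Ideal.span_le.2 (show J ⊆ RingHom.ker ψ from h2)) h1
  have h7 := algebraicIndependent_iff.1 h4 _ ((DFunLike.congr_fun h5 P).trans ((nat ψ P).trans h6))
  simpa [coeff_map] using congrArg (coeff μ) h7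

namespace SPR

variable {D : Dat} (i : Fin D.k) (τ : D.Ch) {Ω : Type} [Field Ω] [Algebra ℂ Ω]

/-- The coordinate ring of the incidence variety. -/
abbrev RR : Type :=
  MvPolynomial (Fin D.m ⊕ (Fin (D.n i + 1) ⊕ Fin (D.n i + 1)) ⊕ Unit) (D.B D.X τ)

variable {i τ}

/-- The point of a homomorphism. -/
def pt (ψ : RR i τ →ₐ[ℂ] Ω) : ZP D Ω := ⟨τ, ψ.comp (IsScalarTower.toAlgHom ℂ _ _)⟩

variable (i τ) in
/-- Universal values of forms. -/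
def EU (H : Fin D.m → MvPolynomial (Fin (D.n i + 1)) ℂ) (z : Fin (D.n i + 1) → RR i τ) : RR i τ :=
  ∑ c, (X (.inl c) * ∏ j ∈ Finset.univ.erase i, C ⟨_, g_mem D τ c j⟩) * aeval z (H c)

lemma map_EU (ψ : RR i τ →ₐ[ℂ] Ω) (H : Fin D.m → MvPolynomial (Fin (D.n i + 1)) ℂ)
    (z : Fin (D.n i + 1) → RR i τ) : ψ (EU i τ H z) = eval (ψ ∘ z)
      (∑ c, (ψ (X (.inl c)) * (pt ψ).ω i c) • map (algebraMap ℂ Ω) (H c)) := by
  simp only [EU, map_sum, map_mul, map_prod, smul_eval, eval_map, ← aeval_def, comp_aeval_apply]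
  rfl

lemma core (h0 : St_SPR0) {b : MvPolynomial D.Vx ℂ} {e : ℕ}
    (h : ∀ (Ω : Type) [Field Ω] [Algebra ℂ Ω] (a : Fin D.m → Ω) (P : ZP D Ω), Pt a P i →
      aeval P.v b = 0 → ∀ S : Fin e → D.Vx, ¬AlgebraicIndependent ℂ (Sum.elim a (P.v ∘ S)))
    (S : Fin e → D.Vx) (J : Set (RR i τ))
    (hJ : ∀ (Ω : Type) [Field Ω] [Algebra ℂ Ω] (ψ : RR i τ →ₐ[ℂ] Ω), (∀ z ∈ J, ψ z = 0) →
      Bad D i (φ D i fun c => ψ (X (.inl c)) * (pt ψ).ω i c)) :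
    Gn fun a => ∀ (Ω : Type) [Field Ω] [Algebra ℂ Ω] (θ : D.B D.X τ →ₐ[ℂ] Ω) u,
      (∀ z ∈ J, aevalTower θ (Sum.elim (algebraMap ℂ Ω ∘ a) u) z = 0) →
      ∑ c, (algebraMap ℂ Ω ∘ a) c * ∏ j, (⟨τ, θ⟩ : ZP D Ω).g c j = 0 →
      aeval (⟨τ, θ⟩ : ZP D Ω).v b = 0 → ¬AlgebraicIndependent ℂ ((⟨τ, θ⟩ : ZP D Ω).v ∘ S) := by
  let v : D.Vx → RR i τ := fun t => C ⟨_, rat_mem τ t⟩
  let o : RR i τ := ∑ c, X (.inl c) * ∏ j, C ⟨_, g_mem D τ c j⟩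
  have a1 : ∀ {Ω : Type} [Field Ω] [Algebra ℂ Ω] (ψ : RR i τ →ₐ[ℂ] Ω),
      ψ o = ∑ c, ψ (X (.inl c)) * ∏ j, (pt ψ).g c j ∧ ψ (aeval v b) = aeval (pt ψ).v b :=
    fun ψ => ⟨by simp only [o, map_sum, map_mul, map_prod]; rfl, comp_aeval_apply _ ψ b⟩
  have a2 := h0 (RR i τ) (insert o (insert (aeval v b) J)) _ e (fun c => X (.inl c)) (v ∘ S)
    fun Ω _ _ ψ h1 => h Ω (fun c => ψ (X (.inl c))) (pt ψ)
      ⟨(a1 ψ).1.symm.trans (h1 _ (mem_insert _ _)), hJ Ω ψ fun z hz =>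
        h1 z (mem_insert_of_mem _ (mem_insert_of_mem _ hz))⟩
      ((a1 ψ).2.symm.trans (h1 _ (mem_insert_of_mem _ (mem_insert _ _)))) S
  refine a2.mono fun a h1 Ω _ _ θ u b1 b2 b3 => ?_
  obtain ⟨ψ, hψ⟩ : ∃ ψ : RR i τ →ₐ[ℂ] Ω, ψ = aevalTower θ (Sum.elim (algebraMap ℂ Ω ∘ a) u) :=
    ⟨_, rfl⟩
  have b4 : pt ψ = ⟨τ, θ⟩ :=
    congrArg (ZP.mk τ) (AlgHom.ext fun z => by rw [hψ]; exact aevalTower_C _ _ _)
  have b6 : ∀ c, ψ (X (.inl c)) = (algebraMap ℂ Ω ∘ a) c := fun c => by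
    rw [hψ]; exact aevalTower_X _ _ _
  rw [← hψ] at b1
  rw [← b4] at b2 b3 ⊢
  refine h1 Ω ψ (fun z hz => ?_) (funext b6)
  rcases mem_insert_iff.1 hz with h2 | h2
  · rw [h2, (a1 ψ).1]; simpa only [b6] using b2
  rcases mem_insert_iff.1 h2 with h3 | h3
  · rw [h3, (a1 ψ).2, b3]
  · exact b1 z h3

lemma pd_φ (w : Fin D.m → Ω) (l : Fin (D.n i + 1)) : pderiv l (φ D i w) =
    ∑ c, w c • map (algebraMap ℂ Ω) (pderiv l (D.G c i)) := by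
  simp only [φ, map_sum, Derivation.map_smul, pderiv_map]

end SPR

open SPR in
theorem st_spr (h0 : St_SPR0) : St_SPR := by
  intro D i b e h
  let A : ∀ τ, Fin (D.n i + 1) → RR i τ := fun τ l => X (.inr (.inl (.inl l)))
  let A' : ∀ τ, Fin (D.n i + 1) → RR i τ := fun τ l => X (.inr (.inl (.inr l)))
  have lin : ∀ {τ} {Ω : Type} [Field Ω] [Algebra ℂ Ω] (ψ : RR i τ →ₐ[ℂ] Ω) (s t : ℂ),
      ψ ∘ (s • A τ + t • A' τ) = s • (ψ ∘ A τ) + t • (ψ ∘ A' τ) := fun ψ s t =>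
    funext fun l => by simp
  have cst : ∀ {τ} {Ω : Type} [Field Ω] [Algebra ℂ Ω] (ψ : RR i τ →ₐ[ℂ] Ω) (c),
      ψ ∘ algebraMap ℂ _ ∘ D.p i c = algebraMap ℂ Ω ∘ D.p i c := fun ψ c =>
    funext fun l => ψ.commutes _
  refine ((Gn.all fun τ => Gn.all fun S => Gn.all fun l => Gn.all fun l' =>
    Gn.imp (c := D.r i ≠ 0 ∨ D.n i = 1) fun hi => core h0 h S
      (insert ((A τ l * A' τ l' - A τ l' * A' τ l) * X (.inr (.inr ())) - 1)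
        (range fun u : ℂ × ℂ => EU i τ (fun c => D.G c i) (u.1 • A τ + u.2 • A' τ)))
      fun Ω _ _ ψ h1 => .inl ⟨hi, ψ ∘ A τ, ψ ∘ A' τ, ⟨l, l', fun h2 => ?_⟩, fun s t => ?_⟩).and
    (Gn.all fun τ => Gn.all fun S => Gn.all fun c => core h0 h S
      (range fun l => EU i τ (fun c => pderiv l (D.G c i)) (algebraMap ℂ _ ∘ D.p i c))
      fun Ω _ _ ψ h1 => .inr ⟨c, fun l => ?_⟩)).mono ?_
  · have := h1 _ (mem_insert _ _)
    simp only [map_sub, map_mul, map_one] at this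
    simp only [Function.comp] at h2
    simp [h2] at this
  · rw [← lin]
    exact (map_EU ψ _ _).symm.trans (h1 _ (mem_insert_of_mem _ ⟨(s, t), rfl⟩))
  · rw [pd_φ, ← cst ψ]
    exact (map_EU ψ _ _).symm.trans (h1 _ ⟨l, rfl⟩)
  · rintro a ⟨h1, h2⟩ Ω _ _ ⟨τ, θ⟩ ⟨b1, b2⟩ b3 S
    have b4 : ∀ u, pt (i := i) (aevalTower θ (Sum.elim (algebraMap ℂ Ω ∘ a) u)) = ⟨τ, θ⟩ :=
      fun u => congrArg (ZP.mk τ) (AlgHom.ext fun z => aevalTower_C _ _ _)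
    rcases b2 with ⟨hi, z, z', ⟨l, l', c1⟩, c2⟩ | ⟨c, c1⟩
    · refine h1 τ S l l' hi Ω θ (Sum.elim (Sum.elim z z') fun _ => (z l * z' l' - z l' * z' l)⁻¹)
        ?_ b1 b3
      rintro _ (rfl | ⟨u, rfl⟩)
      · simp [A, A', mul_inv_cancel₀ c1]
      · rw [map_EU, lin, b4]
        simp only [aevalTower_X, Sum.elim_inl, Function.comp_def, A, A', Sum.elim_inr]
        exact c2 _ _
    · refine h2 τ S c Ω θ 0 ?_ b1 b3
      rintro _ ⟨l, rfl⟩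
      rw [map_EU, cst, b4]
      simp only [aevalTower_X, Sum.elim_inl]
      exact (congrArg _ (pd_φ _ l)).symm.trans (c1 l)

end Pool.Agent.Lib.MV.G3
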