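import Pool.Agent.Lib.MV.FibA

open Matrix WithZero Polynomial
open scoped Classical

namespace Pool.Agent.Lib.MV.Fb

namespace INVO

variable {k K : Type} [Field k] [Field K] [Algebra k K]

lemma root {z a b c d : K} (ha : a ∈ algebraicClosure k K) (hb : b ∈ algebraicClosure k K)
    (hc : c ∈ algebraicClosure k K) (hd : d ∈ algebraicClosure k K)
    (h : a * z ^ 3 + b * z ^ 2 + c * z + d = 0) (hz : z ∉ algebraicClosure k K) :
    a = 0 ∧ b = 0 ∧ c = 0 ∧ d = 0 := by
  by_contra hn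
  apply hz
  let Q : Cubic (algebraicClosure k K) := ⟨⟨a, ha⟩, ⟨b, hb⟩, ⟨c, hc⟩, ⟨d, hd⟩⟩
  have h0 : Q.toPoly ≠ 0 := fun e => hn (by
    have e1 := (Cubic.toPoly_eq_zero_iff Q).1 e
    exact ⟨congrArg (fun R : Cubic (algebraicClosure k K) => (R.a : K)) e1,
      congrArg (fun R : Cubic (algebraicClosure k K) => (R.b : K)) e1,
      congrArg (fun R : Cubic (algebraicClosure k K) => (R.c : K)) e1,
      congrArg (fun R : Cubic (algebraicClosure k K) => (R.d : K)) e1⟩)
  have h1 : IsAlgebraic (algebraicClosure k K) z := ⟨Q.toPoly, h0, by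
    simpa [Cubic.toPoly, Q] using h⟩
  exact (mem_algebraicClosure_iff).2 (h1.restrictScalars k)

lemma v1_le (z : K) : (1 : Valuation K ℤᵐ⁰) z ≤ 1 := Valuation.one_apply_le_one z

lemma v1_lt {z : K} (h : (1 : Valuation K ℤᵐ⁰) z < 1) : z = 0 := by
  by_contra h0
  rw [Valuation.one_apply_of_ne_zero h0] at h
  exact lt_irrefl _ h

lemma nm1 {y : Fin 3 → K} (h : y ≠ 0) : nm (1 : Valuation K ℤᵐ⁰) y = 1 := by
  obtain ⟨l, hl⟩ := exists_nm (v := (1 : Valuation K ℤᵐ⁰)) y
  have h1 := nm_ne (v := (1 : Valuation K ℤᵐ⁰)) h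
  rw [hl] at h1 ⊢
  exact Valuation.one_apply_of_ne_zero fun h0 => h1 (by rw [h0, map_zero])

lemma rng {z : K} (h : z ∈ (algebraMap k K).range) (L : IntermediateField k K) : z ∈ L := by
  obtain ⟨a, rfl⟩ := h
  exact L.algebraMap_mem a

lemma dot_ne (hLN : St_LN) {c : Cf K} {x l : Fin 3 → K} (G : Gen (k := k) c x) (h0 : l ≠ 0)
    (hl : ∀ i, l i ∈ algebraicClosure k K) : l ⬝ᵥ x ≠ 0 := by
  intro h
  have hx : x ≠ 0 := fun e => by simpa [e] using G.x0
  have hA : RC (1 : Valuation K ℤᵐ⁰) (algebraicClosure k K).toSubfield.toSubring := by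
    refine ⟨fun z _ => v1_le z, fun z hz => v1_lt hz ▸ zero_mem _,
      fun z hz _ => (algebraicClosure k K).inv_mem hz, fun z a b c d _ ha hb hc hd h1 h2 => ?_⟩
    by_contra hz
    obtain ⟨rfl, rfl, rfl, rfl⟩ := root ha hb hc hd (v1_lt h1) hz
    simp at h2
  have hG : Good (1 : Valuation K ℤᵐ⁰) c := ⟨fun _ _ _ => v1_le _, fun a b _ _ h1 h2 h3 h4 h5 =>
    G.nl a b (fun e => by rw [e, nm_eq_zero.2 rfl] at h1; exact zero_ne_one h1) (v1_lt h2)
      (v1_lt h3) (v1_lt h4) (v1_lt h5)⟩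
  obtain ⟨s, h1, h2⟩ := hLN K ℤᵐ⁰ 1 _ c x l hA hG (fun i j m => rng (G.ck i j m) _) G.cx hx
    ⟨1, by rw [one_smul, nm1 h0], fun i => by rw [one_mul]; exact hl i⟩
    (by rw [h, map_zero, nm1 h0, nm1 hx, one_mul]; exact zero_lt_one)
  have hs : s ≠ 0 := by
    rintro rfl
    rw [zero_smul, nm_eq_zero.2 rfl] at h1
    exact zero_ne_one h1
  have hs' : s ∈ algebraicClosure k K := by
    have := h2 0
    rwa [G.x0, mul_one] at this
  have h3 : IntermediateField.adjoin k (Set.range x) ≤ algebraicClosure k K := by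
    rw [IntermediateField.adjoin_le_iff]
    rintro _ ⟨i, rfl⟩
    have : x i = s * x i / s := by field_simp
    rw [this]
    exact div_mem (h2 i) hs'
  obtain ⟨z, hz⟩ := G.tr
  exact hz (mem_algebraicClosure_iff.1 (h3 (G.gen ▸ IntermediateField.mem_top)))

lemma basis {P : Fin 3 → K} (h0 : P ≠ 0) (hP : ∀ i, P i ∈ (algebraMap k K).range) :
    ∃ a b : Fin 3 → K, (∀ i, a i ∈ (algebraMap k K).range) ∧
      (∀ i, b i ∈ (algebraMap k K).range) ∧ P ⬝ᵥ a ⨯₃ b = 1 := by
  obtain ⟨j, hj⟩ := Function.ne_iff.1 h0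
  have hj' : P j ≠ 0 := hj
  obtain ⟨r, hr⟩ := hP j
  refine ⟨(P j)⁻¹ • Pi.single (j + 1) 1, Pi.single (j + 2) 1, fun i => ?_, single_mem _, ?_⟩
  · exact mul_mem ⟨r⁻¹, by rw [map_inv₀, hr]⟩ (single_mem _ i)
  · fin_cases j <;> simp [cross_apply, dotProduct, Fin.sum_univ_three] at hj' ⊢ <;> field_simp

lemma mix_mem {σ : Type} [SetLike σ K] [SubringClass σ K] {B : σ} {c : Cf K} {x y z : Fin 3 → K}
    (hc : ∀ i j l, c i j l ∈ B) (hx : ∀ i, x i ∈ B) (hy : ∀ i, y i ∈ B) (hz : ∀ i, z i ∈ B) :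
    mix c x y z ∈ B :=
  add_mem (add_mem (add_mem (add_mem (add_mem (tri_mem hc hx hy hz) (tri_mem hc hy hx hz))
    (tri_mem hc hx hz hy)) (tri_mem hc hy hz hx)) (tri_mem hc hz hx hy)) (tri_mem hc hz hy hx)

lemma cub_line {c : Cf K} {P : Fin 3 → K} (hP : cub c P = 0) (u : Fin 3 → K) (s : K) :
    cub c (u + s • P) = pol c P u * s ^ 2 + pol c u P * s + cub c u := by
  have := cub_comb c u P 1 s
  rw [one_smul, hP] at this
  rw [this]; ring

lemma thd_line {c : Cf K} {P : Fin 3 → K} (hP : cub c P = 0) (u : Fin 3 → K) {s s' : K}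
    (h : pol c P u * (s + s') + pol c u P = 0) :
    thd c P (u + s • P) = (-pol c P u) • (u + s' • P) := by
  have h1 := pol_comb_self c P u s 1
  have h2 := pol_comb_right c P u P s 1
  rw [one_smul, add_comm (s • P)] at h1 h2
  rw [pol_self, hP] at h2
  rw [hP] at h1
  rw [thd, h1, h2]
  funext i
  simp only [Pi.sub_apply, Pi.smul_apply, Pi.add_apply, smul_eq_mul]
  linear_combination P i * h

/-- the second coordinate is not rational in the first -/
lemma not_mem (hI : St_IRR) {c : Cf K} {x P a b : Fin 3 → K} (G : Gen (k := k) c x)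
    (hP : ∀ i, P i ∈ (algebraMap k K).range) (ha : ∀ i, a i ∈ (algebraMap k K).range)
    (hb : ∀ i, b i ∈ (algebraMap k K).range) (hd : P ⬝ᵥ a ⨯₃ b = 1) (h0 : cub c P = 0) {t s : K}
    (ht : t ∉ algebraicClosure k K) (hne : pol c P (a + t • b) ≠ 0)
    (hs : cub c (a + t • b + s • P) = 0) : s ∉ IntermediateField.adjoin k {t} := by
  intro hm
  obtain ⟨p, q, hq, e⟩ : ∃ p q : k[X], aeval t q ≠ 0 ∧ s * aeval t q = aeval t p := by
    obtain ⟨p, q, e⟩ := (IntermediateField.mem_adjoin_simple_iff k s).1 hm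
    by_cases h : aeval t q = 0
    · exact ⟨0, 1, by simp, by simp [e, h]⟩
    · exact ⟨p, q, h, by rw [e, div_mul_cancel₀ _ h]⟩
  have htr : Transcendental k t := fun h => ht (mem_algebraicClosure_iff.2 h)
  obtain ⟨a0, ea0⟩ := pol_mem G.ck hP ha
  obtain ⟨a1, ea1⟩ := pol_mem G.ck hP hb
  obtain ⟨b0, eb0⟩ := pol_mem G.ck ha hP
  obtain ⟨b1, eb1⟩ := mix_mem G.ck ha hb hP
  obtain ⟨b2, eb2⟩ := pol_mem G.ck hb hP
  obtain ⟨c0, ec0⟩ := cub_mem G.ck ha
  obtain ⟨c1, ec1⟩ := pol_mem G.ck ha hb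
  obtain ⟨c2, ec2⟩ := pol_mem G.ck hb ha
  obtain ⟨c3, ec3⟩ := cub_mem G.ck hb
  have eA : aeval t (C a0 + C a1 * X : k[X]) = pol c P (a + t • b) := by
    have := pol_comb_right c a b P 1 t
    rw [one_smul] at this
    simp only [this, map_add, map_mul, aeval_C, aeval_X, ea0, ea1]; ring
  have eB : aeval t (C b0 + C b1 * X + C b2 * X ^ 2 : k[X]) = pol c (a + t • b) P := by
    have := pol_comb_left c a b P 1 t
    rw [one_smul] at this
    simp only [this, map_add, map_mul, map_pow, aeval_C, aeval_X, eb0, eb1, eb2]; ring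
  have eC : aeval t (C c0 + C c1 * X + C c2 * X ^ 2 + C c3 * X ^ 3 : k[X]) =
      cub c (a + t • b) := by
    have := cub_comb c a b 1 t
    rw [one_smul] at this
    simp only [this, map_add, map_mul, map_pow, aeval_C, aeval_X, ec0, ec1, ec2, ec3]; ring
  rw [cub_line h0] at hs
  obtain ⟨α, β, h⟩ := hI k (C a0 + C a1 * X) (C b0 + C b1 * X + C b2 * X ^ 2)
    (C c0 + C c1 * X + C c2 * X ^ 2 + C c3 * X ^ 3) p q
    (fun h => hne (by rw [← eA, h, map_zero])) (by compute_degree) (by compute_degree)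
    (by compute_degree) (fun h => hq (by rw [h, map_zero]))
    ((transcendental_iff.1 htr) _ (by
      rw [map_add, map_add, map_mul, map_mul, map_mul, map_mul, map_pow, map_pow, eA, eB, eC, ← e]
      linear_combination aeval t q ^ 2 * hs))
  have h1 := congrArg (aeval t) h
  rw [map_add, map_add, map_mul, map_mul, map_pow, eA, eB, eC, map_zero, ← cub_line h0] at h1
  have e2 : a + t • b + aeval t (C α + C β * X : k[X]) • P =
      (1 : K) • (a + algebraMap k K α • P) + t • (b + algebraMap k K β • P) := by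
    funext i
    simp only [map_add, map_mul, aeval_C, aeval_X, Pi.add_apply, Pi.smul_apply, smul_eq_mul]
    ring
  have ma : ∀ i, (a + algebraMap k K α • P) i ∈ algebraicClosure k K := fun i =>
    rng (add_mem (ha i) (mul_mem ⟨α, rfl⟩ (hP i))) _
  have mb : ∀ i, (b + algebraMap k K β • P) i ∈ algebraicClosure k K := fun i =>
    rng (add_mem (hb i) (mul_mem ⟨β, rfl⟩ (hP i))) _
  have mc : ∀ i j l, c i j l ∈ algebraicClosure k K := fun i j l => rng (G.ck i j l) _
  rw [e2, cub_comb] at h1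
  obtain ⟨z3, z2, z1, z0⟩ := root (cub_mem mc mb) (pol_mem mc mb ma) (pol_mem mc ma mb)
    (cub_mem mc ma) (by linear_combination h1) ht
  refine G.nl _ _ (fun h2 => ?_) z0 z1 z2 z3
  have h3 : P ⬝ᵥ (a + algebraMap k K α • P) ⨯₃ (b + algebraMap k K β • P) = 1 := by
    rw [← hd]
    generalize algebraMap k K α = A
    generalize algebraMap k K β = B
    simp [cross_apply, dotProduct, Fin.sum_univ_three]
    ring
  rw [h2, dotProduct_zero] at h3
  exact zero_ne_one h3

end INVO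

open INVO in
theorem st_invo (hLN : St_LN) (hQ : St_QUAD) (hI : St_IRR) : St_INVO := by
  intro k K _ _ _ c x P G hP h0 hg
  have hP0 : P ≠ 0 := by
    rintro rfl
    refine hg ?_
    have := grad_smul c (0 : Fin 3 → K) 0
    rwa [zero_smul, zero_pow two_ne_zero, zero_smul] at this
  obtain ⟨a, b, ha, hb, hd⟩ := basis hP0 hP
  have cr : ∀ y : Fin 3 → K, y = (y ⬝ᵥ b ⨯₃ P) • a + (y ⬝ᵥ P ⨯₃ a) • b + (y ⬝ᵥ a ⨯₃ b) • P :=
    fun y => by rw [← cramer3, hd, one_smul]
  have d1 : a ⬝ᵥ b ⨯₃ P = 1 := by rw [← hd, triple_product_permutation P]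
  have d2 : b ⬝ᵥ P ⨯₃ a = 1 := by rw [← d1, triple_product_permutation a]
  have hX : x ⬝ᵥ b ⨯₃ P ≠ 0 := by
    rw [dotProduct_comm]
    exact dot_ne hLN G (fun e => by rw [e, dotProduct_zero] at d1; exact zero_ne_one d1)
      fun i => rng (cross_mem hb hP i) _
  obtain ⟨X0, eX⟩ : ∃ X0, X0 = x ⬝ᵥ b ⨯₃ P := ⟨_, rfl⟩
  obtain ⟨t, et⟩ : ∃ t, t = (x ⬝ᵥ P ⨯₃ a) / X0 := ⟨_, rfl⟩
  obtain ⟨s, es⟩ : ∃ s, s = (x ⬝ᵥ a ⨯₃ b) / X0 := ⟨_, rfl⟩
  have hX0 : X0 ≠ 0 := eX ▸ hX
  have ex : x = X0 • (a + t • b + s • P) := by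
    rw [smul_add, smul_add, smul_smul, smul_smul, et, es, mul_div_cancel₀ _ hX0,
      mul_div_cancel₀ _ hX0, eX]
    exact cr x
  have ht : t ∉ algebraicClosure k K := by
    intro h
    refine dot_ne hLN G (l := P ⨯₃ a - t • b ⨯₃ P) (fun e => ?_)
      (fun i => sub_mem (rng (cross_mem hP ha i) _) (mul_mem h (rng (cross_mem hb hP i) _))) ?_
    · have := congrArg (fun y => b ⬝ᵥ y) e
      simp only [dotProduct_sub, dotProduct_smul, d2, dot_self_cross, smul_zero, sub_zero,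
        dotProduct_zero] at this
      exact one_ne_zero this
    · rw [sub_dotProduct, smul_dotProduct, dotProduct_comm _ x, dotProduct_comm _ x, ← eX, et,
        smul_eq_mul, div_mul_cancel₀ _ hX0, sub_self]
  have mc : ∀ (L : IntermediateField k K) i j l, c i j l ∈ L := fun L i j l => rng (G.ck i j l) _
  have hne : pol c P (a + t • b) ≠ 0 := by
    intro h
    have e := pol_comb_right c a b P 1 t
    rw [one_smul, h] at e
    obtain ⟨-, -, z1, z0⟩ := root (zero_mem _) (zero_mem _) (rng (pol_mem G.ck hP hb) _)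
      (rng (pol_mem G.ck hP ha) _) (by linear_combination -e) ht
    refine hg (funext fun i => ?_)
    have z2 : pol c P P = 0 := by rw [pol_self, h0, mul_zero]
    rw [pol_eq_dot] at z0 z1 z2
    have : grad c P ⬝ᵥ Pi.single i 1 = 0 := by
      rw [cr (Pi.single i 1), dotProduct_add, dotProduct_add, dotProduct_smul, dotProduct_smul,
        dotProduct_smul, z0, z1, z2]
      simp
    simpa using this
  have hs : cub c (a + t • b + s • P) = 0 := cub_of_smul hX0 (ex ▸ G.cx)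
  refine ⟨fun e => hX ?_, ?_⟩
  · rw [triple_product_permutation, ← cross_anticomm, e, neg_zero, dotProduct_zero]
  let L := IntermediateField.adjoin k {t}
  have tL : t ∈ L := IntermediateField.mem_adjoin_simple_self k t
  have mu : ∀ i, (a + t • b) i ∈ L := fun i => add_mem (rng (ha i) _) (mul_mem tL (rng (hb i) _))
  have mP : ∀ i, P i ∈ L := fun i => rng (hP i) _
  obtain ⟨σ, h1, h2⟩ := hQ L K s ⟨_, pol_mem (mc L) mP mu⟩ ⟨_, pol_mem (mc L) mu mP⟩
    ⟨_, cub_mem (mc L) mu⟩ (fun e => hne (congrArg Subtype.val e)) ((cub_line h0 _ s).symm.trans hs)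
    (fun ⟨z, hz⟩ => not_mem hI G hP ha hb hd h0 ht hne hs (hz ▸ z.2)) (by
      have hy : ∀ i, (a + t • b + s • P) i ∈ IntermediateField.adjoin L {s} := fun i =>
        add_mem ((IntermediateField.adjoin L {s}).algebraMap_mem ⟨_, mu i⟩)
          (mul_mem (IntermediateField.mem_adjoin_simple_self L s)
            ((IntermediateField.adjoin L {s}).algebraMap_mem ⟨_, mP i⟩))
      have hx0 : X0 ∈ IntermediateField.adjoin L {s} := by
        have e := G.x0
        rw [ex, Pi.smul_apply, smul_eq_mul] at e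
        rw [eq_inv_of_mul_eq_one_left e]
        exact inv_mem (hy 0)
      have h3 : IntermediateField.adjoin k (Set.range x) ≤
          (IntermediateField.adjoin L {s}).restrictScalars k := by
        rw [IntermediateField.adjoin_le_iff]
        rintro _ ⟨i, rfl⟩
        rw [ex]
        exact mul_mem hx0 (hy i)
      rw [G.gen] at h3
      exact eq_top_iff.2 fun z _ => h3 IntermediateField.mem_top)
  have fx : ∀ z ∈ L, σ z = z := fun z hz => σ.commutes ⟨z, hz⟩
  refine ⟨σ.restrictScalars k, h1, σ X0 / (X0 ^ 2 * -pol c P (a + t • b)),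
    div_ne_zero ((map_ne_zero σ).2 hX0) (mul_ne_zero (pow_ne_zero _ hX0) (neg_ne_zero.2 hne)), ?_⟩
  have e1 := thd_smul c (a + t • b + s • P) P 1 X0
  rw [one_smul, ← ex, thd_line h0 _ h2, one_pow, one_mul, smul_smul] at e1
  rw [e1, smul_smul, div_mul_cancel₀ _ (mul_ne_zero (pow_ne_zero _ hX0) (neg_ne_zero.2 hne))]
  funext i
  have e2 := congrFun ex i
  rw [Function.comp_apply, e2]
  simp only [Pi.smul_apply, Pi.add_apply (a + t • b), smul_eq_mul, AlgEquiv.restrictScalars_apply,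
    map_mul, map_add, fx _ (mu i), fx _ (mP i)]

end Pool.Agent.Lib.MV.Fb
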