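import Pool.Agent.Lib.MV.FibA

open Matrix WithZero

set_option linter.unusedSectionVars false
set_option linter.unusedVariables false

namespace Pool.Agent.Lib.MV.Fb

namespace LN

variable {K Γ : Type} [Field K] [LinearOrderedCommGroupWithZero Γ] {v : Valuation K Γ}
  {A : Subring K} {c : Cf K}

theorem pin_near (hA : RC v A) {x y e : Fin 3 → K} {s : K} (hx : nm v x = 1) (hs : v s = 1)
    (hy : ∀ i, y i ∈ A) (he : nm v e < 1) (h : x = s • y + e) : Pin v A x := by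
  have s0 : s ≠ 0 := fun a => by simp [a] at hs
  refine ⟨s⁻¹, by rw [nm_smul, map_inv₀, hs, hx, inv_one, one_mul], fun i => ?_⟩
  rw [h, Pi.add_apply, Pi.smul_apply, smul_eq_mul, mul_add, inv_mul_cancel_left₀ s0]
  refine add_mem (hy i) (hA.mx _ ?_)
  rw [map_mul, map_inv₀, hs, inv_one, one_mul]
  exact (le_nm e i).trans_lt he

theorem pin_close (hA : RC v A) {w g : Fin 3 → K} (hw : nm v w = 1) (hg : nm v g = 1)
    (hgA : ∀ i, g i ∈ A) (h : nm v (w ⨯₃ g) < 1) : Pin v A w := by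
  obtain ⟨m, m1, m2⟩ := exists_dual hg
  have e : w = (m ⬝ᵥ w) • g + m ⨯₃ (w ⨯₃ g) := by rw [cross_cross3, m2]; simp
  have he : nm v (m ⨯₃ (w ⨯₃ g)) < 1 :=
    ((cross_le _ _).trans (mul_le_of_le_one_left' m1)).trans_lt h
  refine pin_near hA hw (((dot_le_left hw.le).trans m1).eq_or_lt.resolve_right fun a => ?_) hgA he e
  have := nm_add (v := v) ((m ⬝ᵥ w) • g) (m ⨯₃ (w ⨯₃ g))
  rw [← e, hw, nm_smul, hg, mul_one] at this
  exact (this.trans_lt (max_lt a he)).false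

theorem basis {l : Fin 3 → K} {j : Fin 3} (hj : l j = 1) (hl : ∀ i, l i ∈ A) :
    ∃ a b : Fin 3 → K, (∀ i, a i ∈ A) ∧ (∀ i, b i ∈ A) ∧ a ⨯₃ b = l := by
  have n := fun i => neg_mem (hl i)
  have z := zero_mem A
  have o := one_mem A
  fin_cases j
  · refine ⟨![-l 1, 1, 0], ![-l 2, 0, 1], fun i => ?_, fun i => ?_, funext fun i => ?_⟩ <;>
      fin_cases i <;> simp_all [cross_apply]
  · refine ⟨![0, -l 2, 1], ![1, -l 0, 0], fun i => ?_, fun i => ?_, funext fun i => ?_⟩ <;>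
      fin_cases i <;> simp_all [cross_apply]
  · refine ⟨![1, 0, -l 0], ![0, 1, -l 1], fun i => ?_, fun i => ?_, funext fun i => ?_⟩ <;>
      fin_cases i <;> simp_all [cross_apply]

theorem core (hA : RC v A) (G : Good v c) (hc : ∀ i j l, c i j l ∈ A) {x a b e : Fin 3 → K}
    {α β : K} (ha : ∀ i, a i ∈ A) (hb : ∀ i, b i ∈ A) (hab : nm v (a ⨯₃ b) = 1) (hα : v α ≤ 1)
    (hβ : v β = 1) (h0 : v (cub c (α • a + β • b)) < 1) (hx : nm v x = 1) (he : nm v e < 1)
    (h : x = α • a + β • b + e) : Pin v A x := by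
  have b0 : β ≠ 0 := fun a => by simp [a] at hβ
  have e1 : α • a + β • b = β • ((α / β) • a + (1 : K) • b) := by
    rw [smul_add, smul_smul, smul_smul, mul_div_cancel₀ _ b0, mul_one]
  rw [e1, cub_smul, map_mul, map_pow, hβ, one_pow, one_mul, cub_comb] at h0
  have lt : ∀ {z : K}, z ∈ A → v z ≠ 1 → v z < 1 := fun h1 h2 => (hA.le _ h1).lt_of_ne h2
  have hz := hA.root (α / β) _ _ _ _ (by rw [map_div₀, hβ, div_one]; exact hα) (cub_mem hc ha)
    (pol_mem hc ha hb) (pol_mem hc hb ha) (cub_mem hc hb)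
    (lt_of_eq_of_lt (congrArg v (by ring)) h0) (by
      by_contra! k
      exact G.nl a b (nm_le.2 fun i => hA.le _ (ha i)) (nm_le.2 fun i => hA.le _ (hb i)) hab
        (lt (cub_mem hc ha) k.1) (lt (pol_mem hc ha hb) k.2.1) (lt (pol_mem hc hb ha) k.2.2.1)
        (lt (cub_mem hc hb) k.2.2.2))
  exact pin_near hA hx hβ (fun i => add_mem (mul_mem hz (ha i)) (mul_mem (one_mem A) (hb i))) he
    (e1 ▸ h)

end LN

open LN in
theorem st_ln : St_LN := by
  intro K Γ _ _ v A c x l hA G hc h0 hx hl h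
  obtain ⟨s, x, hs, rfl, h1⟩ := exists_prim' (v := v) hx
  refine Pin.smul ?_ hs
  obtain ⟨j, hj⟩ := exists_nm (v := v) l
  have l0 : v (l j) ≠ 0 := hj ▸ nm_ne hl.ne
  have l1 : l j ≠ 0 := v.ne_zero_iff.1 l0
  obtain ⟨a, b, ha, hb, hab⟩ := basis (l := fun i => l i / l j) (j := j) (div_self l1)
    (hl.div_mem hA hj.symm)
  have e0 : a ⨯₃ b = (l j)⁻¹ • l := hab.trans (funext fun i => div_eq_inv_mul _ _)
  have n0 : nm v (a ⨯₃ b) = 1 := by rw [e0, nm_smul, hj, map_inv₀, inv_mul_cancel₀ l0]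
  have a1 : nm v a ≤ 1 := nm_le.2 fun i => hA.le _ (ha i)
  have b1 : nm v b ≤ 1 := nm_le.2 fun i => hA.le _ (hb i)
  have m1 : nm v (Pi.single j 1 : Fin 3 → K) ≤ 1 := nm_le.2 fun i => hA.le _ (single_mem j i)
  have e := cramer3 a b x (Pi.single j 1)
  rw [single_dotProduct, one_mul, show (a ⨯₃ b) j = 1 by rw [hab]; exact div_self l1,
    one_smul] at e
  have k1 : v (x ⬝ᵥ a ⨯₃ b) < 1 := by
    rw [dotProduct_smul, smul_eq_mul, map_mul, nm_smul, h1, mul_one, hj, mul_comm (v (l j)),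
      mul_lt_mul_iff_right₀ (zero_lt_iff.2 (v.ne_zero_iff.2 hs))] at h
    rw [e0, dotProduct_smul, smul_eq_mul, map_mul, map_inv₀, dotProduct_comm,
      inv_mul_lt_one₀ (zero_lt_iff.2 l0)]
    exact h
  have k2 := (dot_le_left (a := x) (cross_le_one b1 m1)).trans h1.le
  have k3 := (dot_le_left (a := x) (cross_le_one m1 a1)).trans h1.le
  generalize x ⬝ᵥ a ⨯₃ b = ε at *
  generalize x ⬝ᵥ b ⨯₃ Pi.single j 1 = α at *
  generalize x ⬝ᵥ Pi.single j 1 ⨯₃ a = β at *
  have k4 : nm v (ε • (Pi.single j 1 : Fin 3 → K)) < 1 := by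
    rw [nm_smul]; exact mul_lt_one_of_lt_of_le k1 m1
  have u1 : nm v (α • a + β • b) ≤ 1 := (nm_comb_le a1 b1).trans (max_le k2 k3)
  have k5 : v (cub c (α • a + β • b)) < 1 := by
    have c0 := cub_of_smul hs h0
    rw [e, ← one_smul K (α • a + β • b), cub_comb] at c0
    have : cub c (α • a + β • b) = ε * (-(pol c (α • a + β • b) (Pi.single j 1)
        + ε * (pol c (Pi.single j 1) (α • a + β • b) + ε * cub c (Pi.single j 1)))) := by
      linear_combination c0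
    rw [this, map_mul, Valuation.map_neg]
    refine mul_lt_one_of_lt_of_le k1 (v.map_add_le (G.pol_le u1 m1) ?_)
    rw [map_mul]
    refine mul_le_one' k1.le (v.map_add_le (G.pol_le m1 u1) ?_)
    rw [map_mul]
    exact mul_le_one' k1.le (G.cub_le m1)
  rcases k3.eq_or_lt with k6 | k6
  · exact core hA G hc ha hb n0 k2 k6 k5 h1 k4 e
  rcases k2.eq_or_lt with k7 | k7
  · rw [add_comm (α • a)] at k5 e
    exact core hA G hc hb ha (by rw [nm_cross_comm, n0]) k3 k7 k5 h1 k4 e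
  rw [e] at h1
  exact absurd h1
    ((nm_add _ _).trans_lt (max_lt ((nm_comb_le a1 b1).trans_lt (max_lt k7 k6)) k4)).ne

open LN in
theorem st_ur : St_UR := by
  intro K Γ _ _ v A c x p hA G hc hp p1 g1 p0 h0 hx
  have main : ds v x p < 1 → Pin v A x ∧ Pin v A (x ⨯₃ p) ∧ ds v (x ⨯₃ p) (grad c p) < 1 := by
    intro h
    obtain ⟨a, x, ha, rfl, h1⟩ := exists_prim' (v := v) (left_ne hx)
    have hx' : x ⨯₃ p ≠ 0 := fun k => hx (by simp [k])
    rw [ds_smul_left ha, ds_prim h1 p1] at h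
    refine ⟨(pin_close hA h1 p1 hp h).smul ha, ?_⟩
    obtain ⟨s, t, y, rfl, ht, e, y1, y2⟩ := exists_dec p1 hx'
    rw [← e] at h
    rw [nm_comb p1.le y1 y2] at h1
    have s1 : v s = 1 := (max_eq_iff.1 h1).elim (·.1) fun k => absurd k.1 h.ne
    have c0 := cub_of_smul ha h0
    rw [cub_comb, p0] at c0
    have c1 : s ^ 2 * pol c p y = t * (-(s * pol c y p + t * cub c y)) :=
      mul_left_cancel₀ ht (by linear_combination c0)
    have c2 : v (pol c p y) < 1 := by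
      have := congrArg v c1
      rw [map_mul, map_pow, s1, one_pow, one_mul, map_mul, Valuation.map_neg] at this
      rw [this]
      refine mul_lt_one_of_lt_of_le h (v.map_add_le ?_ ?_) <;> rw [map_mul]
      exacts [mul_le_one' s1.le (G.pol_le y1 p1.le), mul_le_one' h.le (G.cub_le y1)]
    have w1 : nm v (y ⨯₃ p) = 1 := by rw [nm_cross_comm, y2]
    have c3 : nm v ((y ⨯₃ p) ⨯₃ grad c p) < 1 := by
      rw [nm_cross_comm, cross_cross3, ← pol_eq_dot, ← pol_eq_dot, pol_self, p0, mul_zero,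
        zero_smul, zero_sub, nm_neg, nm_smul, p1, mul_one]
      exact c2
    have e2 : (a • (s • p + t • y)) ⨯₃ p = (a * t) • (y ⨯₃ p) := by simp [smul_smul]
    rw [e2, ds_smul_left (mul_ne_zero ha ht), ds_prim w1 g1]
    exact ⟨(pin_close hA w1 g1 (grad_mem hc hp) c3).smul (mul_ne_zero ha ht), c3⟩
  refine ⟨main, fun h => ?_⟩
  rcases (ds_le_one (v := v) (x := x) (P := p)).eq_or_lt with k | k
  · obtain ⟨s, s1, s2⟩ := h
    have s0 : s ≠ 0 := fun a => by
      rw [a, zero_smul, nm_eq_zero.2 rfl] at s1; exact zero_ne_one s1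
    have e : s • (x ⨯₃ p) = (s • x) ⨯₃ p := by simp
    refine ⟨s, by rw [e, ← ds_prim s1 p1, ds_smul_left s0, k], fun i => ?_⟩
    have := cross_mem (x := s • x) s2 hp i
    rwa [← e] at this
  · exact (main k).2.1

end Pool.Agent.Lib.MV.Fb
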