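import Pool.Agent.Lib.MV.FibA

open Polynomial

noncomputable section

namespace Pool.Agent.Lib.MV.Fb

namespace Quad

variable {k : Type} [Field k]

lemma lin {p q : k[X]} (hq : q ≠ 0) (h0 : q.natDegree = 0) (hp : p.natDegree ≤ 1) :
    ∃ α β : k, q * (C α + C β * X) = p := by
  obtain ⟨u, rfl⟩ := natDegree_eq_zero.1 h0
  have hu : u ≠ 0 := fun h => hq (by rw [h, map_zero])
  refine ⟨u⁻¹ * p.coeff 0, u⁻¹ * p.coeff 1, ?_⟩
  rw [mul_add, ← mul_assoc, ← map_mul, ← map_mul, mul_inv_cancel_left₀ hu,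
    mul_inv_cancel_left₀ hu, add_comm]
  exact (eq_X_add_C_of_natDegree_le_one hp).symm

lemma fac {p q p' q' : k[X]} (hq : q ≠ 0) (hq' : q' ≠ 0) (h0 : q.natDegree = 0)
    (hb : (q * p' + p * q').natDegree ≤ 2) (hc : (p * p').natDegree ≤ 3) :
    ∃ α β : k, (q * (C α + C β * X) - p) * (q' * (C α + C β * X) - p') = 0 := by
  rcases le_or_gt p.natDegree 1 with h1 | h1
  · obtain ⟨α, β, e⟩ := lin hq h0 h1
    exact ⟨α, β, by rw [e, sub_self, zero_mul]⟩
  have hp : p ≠ 0 := fun h => by simp [h] at h1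
  have h2 : p'.natDegree ≤ 1 := by
    by_cases hp' : p' = 0
    · simp [hp']
    · rw [natDegree_mul hp hp'] at hc; omega
  rcases Nat.eq_zero_or_pos q'.natDegree with h3 | h3
  · obtain ⟨α, β, e⟩ := lin hq' h3 h2
    exact ⟨α, β, by rw [e, sub_self, mul_zero]⟩
  have h4 : (q * p').natDegree ≤ 1 := natDegree_mul_le.trans (by omega)
  have h5 : (p * q').natDegree = p.natDegree + q'.natDegree := natDegree_mul hp hq'
  rw [natDegree_add_eq_right_of_natDegree_lt (by omega)] at hb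
  omega

end Quad

open Quad

theorem st_irr : St_IRR := by
  intro k _ a b c p q ha da db dc hq h
  classical
  obtain ⟨g, p, q, hg, rfl, rfl, hco⟩ : ∃ g p1 q1 : k[X], g ≠ 0 ∧ p = g * p1 ∧ q = g * q1 ∧
      IsCoprime p1 q1 := by
    have hg : EuclideanDomain.gcd p q ≠ 0 := fun h0 => hq (EuclideanDomain.gcd_eq_zero_iff.1 h0).2
    obtain ⟨p1, e1⟩ := EuclideanDomain.gcd_dvd_left p q
    obtain ⟨q1, e2⟩ := EuclideanDomain.gcd_dvd_right p q
    refine ⟨_, p1, q1, hg, e1, e2, EuclideanDomain.gcdA p q, EuclideanDomain.gcdB p q, ?_⟩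
    have e3 := EuclideanDomain.gcd_eq_gcd_ab p q
    generalize EuclideanDomain.gcdA p q = A at *
    generalize EuclideanDomain.gcdB p q = B at *
    generalize EuclideanDomain.gcd p q = g at *
    apply mul_left_cancel₀ hg
    rw [e1, e2] at e3
    linear_combination -e3
  have hq1 : q ≠ 0 := right_ne_zero_of_mul hq
  have h1 : a * p ^ 2 + b * p * q + c * q ^ 2 = 0 :=
    mul_left_cancel₀ (pow_ne_zero 2 hg) (by linear_combination h)
  obtain ⟨q', rfl⟩ : q ∣ a := (hco.symm.pow_right (n := 2)).dvd_of_dvd_mul_right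
    ⟨-(b * p + c * q), by linear_combination h1⟩
  have h2 : q' * p ^ 2 + b * p + c * q = 0 := mul_left_cancel₀ hq1 (by linear_combination h1)
  obtain ⟨p', rfl⟩ : p ∣ c := hco.dvd_of_dvd_mul_right ⟨-(q' * p + b), by linear_combination h2⟩
  by_cases hp : p = 0
  · exact ⟨0, 0, by simp [hp]⟩
  have h3 : b = -(q * p' + p * q') := mul_left_cancel₀ hp (by linear_combination h2)
  subst h3
  have hq' : q' ≠ 0 := right_ne_zero_of_mul ha
  rw [natDegree_mul hq1 hq'] at da
  rw [natDegree_neg] at db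
  rcases Nat.eq_zero_or_pos q.natDegree with h4 | h4
  · obtain ⟨α, β, e⟩ := fac hq1 hq' h4 db dc
    exact ⟨α, β, by linear_combination e⟩
  · obtain ⟨α, β, e⟩ := fac (p := p') (p' := p) hq' hq1 (by omega)
      (by rwa [add_comm, mul_comm p', mul_comm q']) (by rwa [mul_comm])
    exact ⟨α, β, by linear_combination e⟩

theorem st_quad : St_QUAD := by
  intro L K _ _ _ s a b c ha h hs hadj
  have ha' : algebraMap L K a ≠ 0 := (_root_.map_ne_zero _).2 ha
  have hev : ∀ t : K, aeval t (C a * X ^ 2 + C b * X + C c) =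
      algebraMap L K a * t ^ 2 + algebraMap L K b * t + algebraMap L K c := fun t => by simp
  have hd : (C a * X ^ 2 + C b * X + C c).natDegree = 2 := natDegree_quadratic ha
  have hP : C a * X ^ 2 + C b * X + C c ≠ 0 := fun h0 => by simp [h0] at hd
  have hint : IsIntegral L s := IsAlgebraic.isIntegral ⟨_, hP, (hev s).trans h⟩
  have h2 : 2 ≤ (minpoly L s).natDegree := (minpoly.two_le_natDegree_iff hint).2 hs
  obtain ⟨q, hq⟩ := minpoly.dvd L s ((hev s).trans h)
  have hq0 : q ≠ 0 := fun h0 => hP (by rw [hq, h0, mul_zero])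
  have hq1 : q.natDegree = 0 := by
    rw [hq, natDegree_mul (minpoly.ne_zero hint) hq0] at hd; omega
  obtain ⟨u, rfl⟩ := natDegree_eq_zero.1 hq1
  have hu : algebraMap L K u ≠ 0 := (_root_.map_ne_zero _).2 fun h0 => hq0 (by rw [h0, map_zero])
  obtain ⟨d, hd⟩ : ∃ d : L, algebraMap L K b = -(algebraMap L K a * algebraMap L K d) :=
    ⟨-b / a, by rw [← map_mul, ← map_neg, mul_div_cancel₀ _ ha, neg_neg]⟩
  have ht : aeval (algebraMap L K d - s) (minpoly L s) = 0 := by
    have := hev (algebraMap L K d - s)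
    rw [hq, map_mul, aeval_C] at this
    refine (mul_eq_zero.1 (this.trans ?_)).resolve_right hu
    rw [hd] at h ⊢
    linear_combination h
  obtain ⟨pb, hpb⟩ : ∃ pb : PowerBasis L K, pb.gen = s :=
    ⟨(IntermediateField.adjoin.powerBasis hint).map
      ((IntermediateField.equivOfEq hadj).trans IntermediateField.topEquiv), rfl⟩
  subst hpb
  have hφ : (pb.lift _ ht).comp (pb.lift _ ht) = AlgHom.id L K := pb.algHom_ext (by simp)
  refine ⟨AlgEquiv.ofAlgHom _ _ hφ hφ, fun z => DFunLike.congr_fun hφ z, ?_⟩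
  have : AlgEquiv.ofAlgHom _ _ hφ hφ pb.gen = algebraMap L K d - pb.gen := pb.lift_gen _ ht
  rw [this, hd]
  ring

end Pool.Agent.Lib.MV.Fb
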