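import Pool.Agent.Lib.MV.Basic

open Finset

set_option linter.unusedVariables false
set_option linter.unusedSectionVars false

noncomputable section

namespace Pool.Agent.Lib.MV

namespace GlueB

variable {V : Type} [LinearOrder V] {A : Type} [AddCommGroup A]

lemma cb_two' {t u : V} {s : Finset V} (h : t < u) (ht : t ∉ s) (hu : u ∉ s)
    (hs : ∀ w ∈ s, w < t ↔ w < u) {c : Finset V → A}
    (hc : ∀ x ∈ s, c (insert t (insert u (s.erase x))) = 0) :
    cb c (insert t (insert u s)) = sg t s • (c (insert u s) - c (insert t s)) := by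
  have e : sg u s = sg t s := by
    unfold sg
    rw [filter_congr hs]
  rw [cb_two h.ne ht hu hc, sg_insert hu, sg_insert ht, if_neg h.not_gt, if_pos h, e, smul_sub,
    neg_smul, sub_eq_add_neg]

variable {D : Dat}

/-- The set meets every slot. -/
def Full (s : Finset D.Vx) : Prop := ∀ μ, ∃ t ∈ s, D.sl t = μ

lemma inj (τ : D.Ch) : Function.Injective τ.1 := fun μ ν h => by
  rw [← τ.2 μ, h, τ.2 ν]

/-- The image of a chart. -/
def im (τ : D.Ch) : Finset D.Vx := univ.map ⟨τ.1, inj τ⟩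

lemma mem_im {τ : D.Ch} {t : D.Vx} : t ∈ im τ ↔ τ.1 (D.sl t) = t := by
  simp only [im, mem_map, mem_univ, true_and, Function.Embedding.coeFn_mk]
  exact ⟨by rintro ⟨μ, rfl⟩; rw [τ.2], fun h => ⟨_, h⟩⟩

lemma card_im (τ : D.Ch) : (im τ).card = Fintype.card D.Sl := by simp [im]

lemma im_inj {τ τ' : D.Ch} (h : im τ = im τ') : τ = τ' := Subtype.ext (funext fun μ => by
  have : τ.1 μ ∈ im τ' := h ▸ mem_im.2 (by rw [τ.2])
  rw [← mem_im.1 this, τ.2])

lemma full_im (τ : D.Ch) : Full (im τ) := fun μ => ⟨τ.1 μ, mem_im.2 (by rw [τ.2]), τ.2 μ⟩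

lemma step (τ : D.Ch) {u : D.Vx} (hu : u ∉ im τ) : ∃ ε : ℤ, ε * ε = 1 ∧ ∀ d : Finset D.Vx → A,
    (∀ s, ¬Full s → d s = 0) → cb d (cons u (im τ) hu) = ε • (d (im (Dat.updCh τ u)) - d (im τ)) := by
  let _ : DecidableEq D.Vx := LinearOrder.toDecidableEq
  set t := τ.1 (D.sl u) with ht
  have h1 : D.sl t = D.sl u := τ.2 _
  have h2 : t ∈ im τ := mem_im.2 (by rw [h1])
  have h3 : t ≠ u := fun h => hu (h ▸ h2)
  set s := (im τ).erase t with hs
  have h4 : ∀ w ∈ s, D.sl w ≠ D.sl u := fun w hw h =>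
    ne_of_mem_erase hw ((mem_im.1 (mem_of_mem_erase hw)).symm.trans (by rw [h]))
  have h5 : t ∉ s := notMem_erase _ _
  have h6 : u ∉ s := fun h => h4 u h rfl
  have e1 : im τ = insert t s := (insert_erase h2).symm
  have e2 : im (Dat.updCh τ u) = insert u s := by
    ext w
    rw [mem_insert, mem_im, hs, mem_erase, mem_im]
    by_cases h : D.sl w = D.sl u
    · rw [h, Dat.updCh_self, ← ht]
      exact ⟨fun h => Or.inl h.symm, fun h => h.elim Eq.symm fun h => absurd h.2.symm h.1⟩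
    · rw [Dat.updCh_ne _ _ h]
      exact ⟨fun h' => Or.inr ⟨fun e => h (e ▸ h1), h'⟩, fun h' => h'.elim (fun e => absurd (e ▸ rfl) h)
        And.right⟩
  have h7 : ∀ {a b : D.Vx}, D.sl a = D.sl u → D.sl b = D.sl u → a < b → ∀ w ∈ s, w < a ↔ w < b :=
    fun ha hb h w hw => ⟨fun h' => h'.trans h, fun h' => by
      by_contra h8
      rcases lt_trichotomy w _ |>.resolve_left h8 with h9 | h9
      · exact h4 w hw (h9 ▸ ha)
      · exact h4 w hw ((Dat.sl_convex h9 h' (ha.trans hb.symm)).trans ha)⟩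
  have h8 : ∀ {a b : D.Vx}, D.sl a = D.sl u → D.sl b = D.sl u → ∀ x ∈ s,
      ¬Full (insert a (insert b (s.erase x))) := fun ha hb x hx h => by
    obtain ⟨w, hw, e⟩ := h (D.sl x)
    rcases mem_insert.1 hw with rfl | hw
    · exact h4 x hx (e.symm.trans ha)
    rcases mem_insert.1 hw with rfl | hw
    · exact h4 x hx (e.symm.trans hb)
    exact ne_of_mem_erase hw ((mem_im.1 (mem_of_mem_erase (mem_of_mem_erase hw))).symm.trans
      (by rw [e]; exact mem_im.1 (mem_of_mem_erase hx)))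
  rw [cons_eq_insert, e2]
  rcases lt_or_gt_of_ne h3 with h | h
  · refine ⟨sg t s, sg_mul_self _ _, fun d hd => ?_⟩
    rw [e1, insert_comm, cb_two' h h5 h6 (h7 h1 rfl h) fun x hx => hd _ (h8 h1 rfl x hx)]
  · refine ⟨-sg u s, by rw [neg_mul_neg, sg_mul_self], fun d hd => ?_⟩
    rw [e1, cb_two' h h6 h5 (h7 rfl h1 h) fun x hx => hd _ (h8 rfl h1 x hx), neg_smul, ← smul_neg,
      neg_sub]

lemma conn {g : D.Ch → A} (h : ∀ τ u, g (Dat.updCh τ u) = g τ) (τ τ' : D.Ch) : g τ' = g τ := by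
  classical
  have key : ∀ S : Finset D.Sl, ∀ τ' : D.Ch, (∀ μ ∉ S, τ'.1 μ = τ.1 μ) → g τ' = g τ := fun S => by
    induction S using Finset.induction_on with
    | empty => exact fun τ' h' => by rw [show τ' = τ from Subtype.ext (funext fun μ => h' μ (by simp))]
    | insert μ S _ ih =>
      intro τ' h'
      rw [← h τ' (τ.1 μ)]
      refine ih _ fun ν hν => ?_
      by_cases e : ν = μ
      · subst e
        have := Dat.updCh_self τ' (τ.1 ν)
        rwa [τ.2] at this
      · rw [Dat.updCh_ne _ _ (by rwa [τ.2]), h' ν (by simp [e, hν])]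
  exact key univ τ' (by simp)

end GlueB

open GlueB in
theorem st_glue : St_GLUE := by
  intro D A _ N h0 H η hη
  let _ : DecidableEq D.Vx := LinearOrder.toDecidableEq
  have hN : ∀ s, ¬Full s → N s = ⊥ := fun s hs => h0 s (by
    simpa only [Full, not_forall, not_exists, not_and] using hs)
  let c : Finset D.Vx → A := fun s => by
    classical exact if h : ∃ τ, im τ = s then η h.choose else 0
  have c1 : ∀ τ, c (im τ) = η τ := fun τ => by
    have h : ∃ τ', im τ' = im τ := ⟨τ, rfl⟩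
    simp only [c, dif_pos h, im_inj h.choose_spec]
  have c2 : ∀ s, ¬Full s → c s = 0 := fun s hs => dif_neg fun ⟨τ, h⟩ => hs (h ▸ full_im τ)
  obtain ⟨b, hb, e⟩ := H (fun s => if s.card = Fintype.card D.Sl + 1 then cb c s else 0)
    (fun s => by
      split_ifs with hs
      swap
      · exact zero_mem _
      by_cases hf : Full s
      · obtain ⟨τ, hτ⟩ := Dat.exists_ch (A := univ) fun μ _ => hf μ
        have h1 : im τ ⊆ s := fun t ht => mem_im.1 ht ▸ hτ _ (mem_univ _)
        obtain ⟨u, h2, h3⟩ := exists_eq_insert_iff.2 ⟨h1, by rw [card_im, hs]⟩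
        obtain ⟨ε, -, h4⟩ := step (A := A) τ h2
        have h5 := h4 c c2
        rw [cons_eq_insert, h3, c1, c1] at h5
        rw [h5]
        refine zsmul_mem (hη s _ _ (fun μ => ?_) fun μ => hτ μ (mem_univ _)) _
        by_cases h6 : μ = D.sl u
        · rw [h6, Dat.updCh_self, ← h3]; exact mem_insert_self _ _
        · rw [Dat.updCh_ne _ _ h6]; exact hτ μ (mem_univ _)
      · rw [cb, sum_eq_zero fun t _ => by
          rw [c2 _ fun h => hf fun μ => (h μ).imp fun w hw => ⟨mem_of_mem_erase hw.1, hw.2⟩,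
            smul_zero]]
        exact zero_mem _)
    fun s hs hq => (cb_congr' hs hq fun s _ h => if_pos h).trans (cb_cb c s)
  have key : ∀ τ u, η (Dat.updCh τ u) - b (im (Dat.updCh τ u)) = η τ - b (im τ) := fun τ u => by
    by_cases hu : u ∈ im τ
    · rw [show Dat.updCh τ u = τ from Subtype.ext (by
        rw [Dat.updCh]; exact Function.update_eq_self_iff.2 (mem_im.1 hu).symm)]
    obtain ⟨ε, h1, h2⟩ := step (A := A) τ hu
    have h3 := h2 (fun s => c s - b s) fun s hs => by
      rw [c2 s hs, show b s = 0 by simpa [hN s hs] using hb s, sub_zero]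
    have h4 := e (cons u (im τ) hu) (subset_univ _) (by rw [card_cons, card_im])
    rw [if_pos (by rw [card_cons, card_im])] at h4
    rw [cb_sub, h4, sub_self, c1, c1] at h3
    rw [← sub_eq_zero, ← one_smul ℤ (_ - _), ← h1, mul_smul, ← h3, smul_zero]
  obtain ⟨τ₀⟩ : Nonempty D.Ch := inferInstance
  refine ⟨η τ₀ - b (im τ₀), fun τ => ?_⟩
  rw [← conn (g := fun τ => η τ - b (im τ)) key τ₀ τ, sub_sub_cancel]
  refine Eq.mp (congrArg (fun s => b (im τ) ∈ N s) ?_) (hb (im τ))
  ext
  simp [im]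

end Pool.Agent.Lib.MV
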