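import Pool.Agent.Lib.MV.Blue
import Pool.Agent.Lib.DU.LOG

open Set Pool.Agent.Lib.MP_e39d36_ag Pool.Agent.Lib.MP_e39d36_ag.Var
  Pool.Agent.Lib.MP_cc3443_ag Pool.Agent.Lib.DU Pool.Agent.Lib.DU.LOG

set_option linter.unusedSectionVars false
set_option linter.unusedVariables false

noncomputable section

namespace Pool.Agent.Lib.MV

namespace EtaB

variable {K : Type} [Field K] [Algebra ℂ K] {X : Var K} {B : Subring K}

lemma glue (h1 : ∀ T, IsLoc T → LocOf B T → ∃ z, X.O z = T) {ω : Ω[K⁄ℂ]}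
    (h : ∀ z, B ≤ X.O z → ω ∈ frm (X.O z)) : ω ∈ frm B := by
  let I : Ideal B :=
    { carrier := {p | (p : K) • ω ∈ frm B}
      zero_mem' := by simp
      add_mem' := fun {p q} hp hq => by
        simpa only [mem_ofPred_eq, Subring.coe_add, add_smul] using add_mem hp hq
      smul_mem' := fun r p hp => by
        simpa only [mem_ofPred_eq, smul_eq_mul, Subring.coe_mul, mul_smul] using smul_mem r.2 hp }
  obtain ⟨n, hn⟩ := rad I 1 fun T h2 h3 _ => by
    obtain ⟨z, rfl⟩ := h1 T h2 h3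
    obtain ⟨p, h4, h5, h6⟩ := frm_loc h3 (h z h3.1)
    exact ⟨⟨p, h4⟩, h6, h5⟩
  have h7 : ((1 ^ n : B) : K) • ω ∈ frm B := hn
  simpa using h7

lemma eta (h1 : ∀ T, IsLoc T → LocOf B T → ∃ z, X.O z = T) {D : X.PD →₀ ℤ} (hD : Cart D) :
    ∃ η : Ω[K⁄ℂ], ∀ x, B ≤ X.O x → ∀ f, LocEq D x f → η - dlog f ∈ frm (X.O x) := by
  let I : Ideal B :=
    { carrier := {p | ∃ η : Ω[K⁄ℂ], ∀ x, B ≤ X.O x → ∀ f, LocEq D x f →
        η - (p : K) • dlog f ∈ frm (X.O x)}
      zero_mem' := ⟨0, fun x _ f _ => by simp⟩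
      add_mem' := by
        rintro p q ⟨η, hp⟩ ⟨η', hq⟩
        refine ⟨η + η', fun x hx f hf => ?_⟩
        have e : η + η' - ((p + q : B) : K) • dlog f =
            η - (p : K) • dlog f + (η' - (q : K) • dlog f) := by
          rw [Subring.coe_add, add_smul]
          abel
        rw [e]
        exact add_mem (hp x hx f hf) (hq x hx f hf)
      smul_mem' := by
        rintro r p ⟨η, hp⟩
        refine ⟨(r : K) • η, fun x hx f hf => ?_⟩
        have e : (r : K) • η - ((r • p : B) : K) • dlog f = (r : K) • (η - (p : K) • dlog f) := by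
          rw [smul_eq_mul, Subring.coe_mul, mul_smul, smul_sub]
        rw [e]
        exact smul_mem (hx r.2) (hp x hx f hf) }
  obtain ⟨n, η, hn⟩ := rad I 1 fun T h2 h3 _ => by
    obtain ⟨x₀, rfl⟩ := h1 T h2 h3
    obtain ⟨f₀, hf₀⟩ := hD x₀
    obtain ⟨f, hf, hf'⟩ := hf₀.exists_section h3
    obtain ⟨g, hg, hg'⟩ := hf₀.neg.exists_section h3
    have k1 : ∀ x, B ≤ X.O x → ∀ h, LocEq D x h → f / h ∈ X.O x ∧ g * h ∈ X.O x := by
      intro x hx h hh
      refine ⟨hartogs fun E hE => ?_, hartogs fun E hE => ?_⟩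
      · have := hf' E (hx.trans hE)
        rw [ord_div hf.1 hh.1, ← hh.eq hE]
        omega
      · have := hg' E (hx.trans hE)
        rw [Finsupp.neg_apply] at this
        rw [ord_mul hg.1 hh.1, ← hh.eq hE]
        omega
    have k2 : f * g ∈ B := mem_of_forall_loc fun T h4 h5 => by
      obtain ⟨x, rfl⟩ := h1 T h4 h5
      obtain ⟨h, hh⟩ := hD x
      have h0 := hh.1
      have e : f * g = f / h * (g * h) := by field_simp
      rw [e]
      exact mul_mem (k1 x h5.1 h hh).1 (k1 x h5.1 h hh).2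
    refine ⟨⟨f * g, k2⟩, ⟨g • KaehlerDifferential.D ℂ K f, fun x hx h hh => ?_⟩, ?_⟩
    · have h0 := hh.1
      have k3 : KaehlerDifferential.D ℂ K f = (f / h) • KaehlerDifferential.D ℂ K h +
          h • KaehlerDifferential.D ℂ K (f / h) := by
        rw [← Derivation.leibniz, div_mul_cancel₀ _ h0]
      have e : g • KaehlerDifferential.D ℂ K f - (f * g) • dlog h =
          (g * h) • KaehlerDifferential.D ℂ K (f / h) := by
        have e1 : g * (f / h) = f * g * h⁻¹ := by field_simp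
        rw [k3, dlog, smul_add, smul_smul, smul_smul, smul_smul, e1]
        abel
      have k4 := smul_mem (k1 x hx h hh).2 (D_mem (k1 x hx h hh).1)
      rw [← e] at k4
      exact k4
    · have := hf.un (by simpa using hg.neg)
      simpa using this
  exact ⟨η, fun x hx f hf => by simpa using hn x hx f hf⟩

end EtaB

theorem st_eta : St_ETA := fun K _ _ X B h1 _ _ =>
  ⟨fun W hW => EtaB.eta h1 hW, fun ω h => EtaB.glue h1 h⟩

end Pool.Agent.Lib.MV
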