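import Pool.Agent.Lib.MV.Blue
import Pool.Agent.Lib.DU.LOG
import Pool.Agent.Lib.DU.FD

open Set WithZero Pool.Agent.Lib.MP_e39d36_ag Pool.Agent.Lib.MP_e39d36_ag.Var
  Pool.Agent.Lib.MP_cc3443_ag Pool.Agent.Lib.DU Pool.Agent.Lib.DU.LOG

set_option linter.unusedSectionVars false
set_option linter.unusedVariables false

noncomputable section

namespace Pool.Agent.Lib.MV

namespace LB

variable {K : Type} [Field K] [Algebra ℂ K]

lemma dlog_zpow {π : K} (h : π ≠ 0) (n : ℤ) : dlog (π ^ n) = (n : ℂ) • dlog π := by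
  simp only [dlog]
  rw [Derivation.leibniz_zpow, Int.cast_smul_eq_zsmul, smul_comm (π ^ n)⁻¹ n, smul_smul,
    zpow_sub_one₀ h, ← mul_assoc, inv_mul_cancel₀ (zpow_ne_zero _ h), one_mul]

lemma dlog_ord {X : Var K} (E : X.PD) {π f : K} (hπ : X.ord π E.1 = 1) (hf : f ≠ 0) :
    dlog f - (X.ord f E.1 : ℂ) • dlog π ∈ frm (X.O E.1) := by
  have h0 : π ≠ 0 := by
    rintro rfl
    rw [ord_val, od_zero] at hπ
    exact zero_ne_one hπ
  rw [← dlog_zpow h0, ← FD.dlog_div hf (zpow_ne_zero _ h0)]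
  have h1 : Un (X.O E.1) (f / π ^ X.ord f E.1) := by
    refine (isV E).un_iff.2 ⟨div_ne_zero hf (zpow_ne_zero _ h0), ?_⟩
    rw [od_div hf (zpow_ne_zero _ h0), od_zpow, ← ord_val, ← ord_val, hπ]
    ring
  exact smul_mem h1.2.2 (D_mem h1.2.1)

variable {D : Dat} {x : ∀ i, Fin (D.n i + 1) → K} {s : Finset D.Vx} {T : Subring K}

lemma gen_mem {t t' : D.Vx} (ht : t ∈ s) (h : D.sl t' = D.sl t) :
    D.y x t' / D.y x t ∈ D.Bs x s := Algebra.subset_adjoin ⟨t, ht, t', h, rfl⟩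

lemma rat_mem (τ : D.Ch) (t : D.Vx) : D.rat x τ t ∈ D.B x τ := Algebra.subset_adjoin ⟨t, rfl⟩

lemma adj_le {S : Set K} (hc : ∀ a : ℂ, algebraMap ℂ K a ∈ T) (h : ∀ z ∈ S, z ∈ T) :
    (Algebra.adjoin ℂ S).toSubring ≤ T := by
  intro z hz
  induction (hz : z ∈ Algebra.adjoin ℂ S) using Algebra.adjoin_induction with
  | mem w hw => exact h w hw
  | algebraMap c => exact hc c
  | add a b h1 h2 h3 h4 => exact add_mem h3 h4
  | mul a b h1 h2 h3 h4 => exact mul_mem h3 h4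

lemma img_le (τ : D.Ch) :
    (D.Bs x (Finset.univ.image τ.1)).toSubring ≤ (D.B x τ).toSubring := by
  refine adj_le (D.B x τ).algebraMap_mem ?_
  rintro _ ⟨t, ht, t', h, rfl⟩
  obtain ⟨μ, -, rfl⟩ := Finset.mem_image.1 ht
  have := rat_mem (x := x) τ t'
  rwa [Dat.rat, h, τ.2] at this

variable (M : D.Mod K)

lemma locOf {τ : D.Ch} (hτ : ∀ μ, τ.1 μ ∈ s) (z : M.X.Pt)
    (h : (D.Bs M.x s).toSubring ≤ M.X.O z) : LocOf (D.Bs M.x s).toSubring (M.X.O z) := by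
  obtain ⟨σ, hσ⟩ := M.hyp.chart z
  refine locOf_loc.trans (hσ.of_le (adj_le (fun a => le_frac ((D.Bs M.x s).algebraMap_mem a)) ?_)
    (loc_le h))
  rintro _ ⟨t, rfl⟩
  have h1 := M.hyp.ne (σ.1 (D.sl t))
  have h2 := M.hyp.ne (τ.1 (D.sl t))
  have h3 : D.y M.x (σ.1 (D.sl t)) / D.y M.x (τ.1 (D.sl t)) ∈ D.Bs M.x s :=
    gen_mem (hτ _) (by rw [σ.2, τ.2])
  refine ⟨_, h3, ⟨div_ne_zero h1 h2, h h3, ?_⟩, ?_⟩
  · have := hσ.1 (rat_mem σ (τ.1 (D.sl t)))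
    rwa [Dat.rat, τ.2, ← inv_div] at this
  · rw [Dat.rat, mul_comm, div_mul_div_cancel₀ h1]
    exact gen_mem (hτ _) (τ.2 _).symm

lemma pt {τ : D.Ch} (hτ : ∀ μ, τ.1 μ ∈ s) (T : Subring K) (hT : IsLoc T)
    (h : LocOf (D.Bs M.x s).toSubring T) : ∃ z, M.X.O z = T := by
  obtain ⟨V, hV⟩ := hT.exists_val
  obtain ⟨z, hz⟩ := M.X.exists_ctr_val V fun c => hV.1 (h.1 ((D.Bs M.x s).algebraMap_mem c))
  obtain ⟨σ, hσ⟩ := M.hyp.chart z
  refine ⟨z, ((locOf M hτ z (adj_le (M.X.const_mem z) ?_)).eq_loc hz).trans (h.eq_loc hV).symm⟩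
  rintro _ ⟨t, ht, t', h', rfl⟩
  have h1 := M.hyp.ne (σ.1 (D.sl t))
  have h2 : D.rat M.x σ t ∈ M.X.O z := hσ.1 (rat_mem σ t)
  have h3 : Un (M.X.O z) (D.rat M.x σ t) := by
    refine hz.2 _ h2 ⟨div_ne_zero (M.hyp.ne t) h1, hz.1 h2, ?_⟩
    rw [Dat.rat, inv_div]
    exact hV.1 (h.1 (gen_mem ht (σ.2 _)))
  have h4 := h3.div_mem (hσ.1 (rat_mem σ t'))
  rwa [Dat.rat, Dat.rat, h', div_div_div_cancel_right₀ h1] at h4

lemma st_eq (E : M.X.PD) {τ : D.Ch} (h : (D.B M.x τ).toSubring ≤ M.X.O E.1) (μ : D.Sl) :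
    M.st μ.1 μ.2 E = -M.X.ord (D.y M.x (τ.1 μ)) E.1 := by
  have h1 : nm (val E) (D.ys M.x μ) = val E (D.y M.x (τ.1 μ)) := by
    refine le_antisymm (nm_le.2 fun t => ?_) (le_nm (D.ys M.x μ) ⟨τ.1 μ, τ.2 μ⟩)
    have h2 := ((isV E).2 _).1 (h (rat_mem τ t.1))
    rw [Dat.rat, t.2, map_div₀, div_le_one₀
      (zero_lt_iff.2 ((Valuation.ne_zero_iff _).2 (M.hyp.ne _)))] at h2
    exact h2
  rw [Dat.Mod.st, Finsupp.neg_apply, vd_apply, ord_val, mo, od]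
  exact congrArg (fun w => - -log w) h1

lemma es_bot (h : ∃ μ, ∀ t ∈ s, D.sl t ≠ μ) : D.Es x s = ⊥ := by
  obtain ⟨μ, hμ⟩ := h
  rw [eq_bot_iff]
  rintro _ ⟨g, hg, rfl⟩
  have h1 : g = 0 := funext fun t => by
    have h2 : D.Ms x Finset.univ (-D.h (D.sl t)) s ≤ ⊥ := (AddSubgroup.closure_le _).2
      fun z ⟨τ, hτ, _⟩ => absurd (τ.2 μ) (hμ _ (hτ μ (Finset.mem_univ μ)))
    exact h2 (hg t trivial)
  rw [h1, map_zero]
  exact zero_mem _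

end LB

open LB in
theorem st_l (h1 : St_NY) (h2 : St_ETA) (h3 : St_FRM) (h4 : St_GLUE) : St_L := by
  intro D K _ _ M W
  have hi : ∀ (τ : D.Ch) μ, τ.1 μ ∈ Finset.univ.image τ.1 := fun τ μ =>
    Finset.mem_image_of_mem _ (Finset.mem_univ μ)
  have H : ∀ (s : Finset D.Vx) (τ : D.Ch), (∀ μ, τ.1 μ ∈ s) → _ := fun s τ hτ =>
    h2 K M.X (D.Bs M.x s).toSubring (pt M hτ) (locOf M hτ) (D.Bs M.x s).algebraMap_mem
  choose η hη using fun τ => (H _ τ (hi τ)).1 W (M.sm.fac W)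
  have mono : ∀ (s : Finset D.Vx) (τ : D.Ch), (∀ μ, τ.1 μ ∈ s) →
      (D.Bs M.x (Finset.univ.image τ.1)).toSubring ≤ (D.Bs M.x s).toSubring := fun s τ hτ =>
    adj_le (D.Bs M.x s).algebraMap_mem (by
      rintro _ ⟨t, ht, t', h, rfl⟩
      obtain ⟨μ, -, rfl⟩ := Finset.mem_image.1 ht
      exact gen_mem (hτ μ) h)
  obtain ⟨ω, hω⟩ := h4 D _ (D.Es M.x) (fun s => es_bot) (h1 D K M) (fun τ => (η τ, 0))
    fun s τ τ' hτ hτ' => by
      rw [Prod.mk_sub_mk, sub_self]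
      refine (h3 D K M.x M.hyp.ne s τ hτ).1 _ ((H s τ hτ).2 _ fun z hz => ?_)
      obtain ⟨f, hf⟩ := M.sm.fac W z
      have := sub_mem (hη τ z ((mono s τ hτ).trans hz) f hf)
        (hη τ' z ((mono s τ' hτ').trans hz) f hf)
      rwa [sub_sub_sub_cancel_right] at this
  have H' := fun τ => (h3 D K M.x M.hyp.ne _ τ (hi τ)).2 _ (hω τ)
  simp only [Prod.fst_sub, Prod.snd_sub, zero_sub, Pi.neg_apply] at H'
  choose c hc using fun μ => eq_const (X := M.X) (z := ω.2 μ) fun z => by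
    obtain ⟨τ, hτ⟩ := M.hyp.chart z
    exact neg_mem_iff.1 (hτ.1 (img_le τ ((H' τ).1 μ)))
  refine ⟨c, ω.1, fun E π hπ => ?_⟩
  obtain ⟨τ, hτ⟩ := M.hyp.chart E.1
  obtain ⟨f, hf⟩ := M.sm.fac W E.1
  have k0 := (img_le τ).trans hτ.1
  have k1 := hη τ _ k0 f hf
  have k2 := frm_mono k0 (H' τ).2
  have k3 := dlog_ord E hπ hf.1
  have k4 : ∑ μ, c μ • (dlog (D.y M.x (τ.1 μ)) - (M.X.ord (D.y M.x (τ.1 μ)) E.1 : ℂ) • dlog π) ∈
      frm (M.X.O E.1) := sum_mem fun μ _ => csmul_mem (dlog_ord E hπ (M.hyp.ne _))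
  have k5 := add_mem (add_mem (sub_mem k1 k2) k3) k4
  have e : ((W E : ℂ) - cmb c (fun μ => M.st μ.1 μ.2) E) • dlog π =
      (M.X.ord f E.1 : ℂ) • dlog π +
        ∑ μ, c μ • (M.X.ord (D.y M.x (τ.1 μ)) E.1 : ℂ) • dlog π := by
    simp only [cmb, st_eq M E hτ.1, Int.cast_neg, mul_neg, Finset.sum_neg_distrib, sub_neg_eq_add,
      add_smul, Finset.sum_smul, mul_smul, hf.eq le_rfl]
  simp only [hc, neg_smul, algebraMap_smul, Finset.sum_neg_distrib, smul_sub,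
    Finset.sum_sub_distrib] at k5
  rw [e]
  refine (congrArg (· ∈ frm (M.X.O E.1)) ?_).mp k5
  abel

end Pool.Agent.Lib.MV
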