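import Pool.Agent.Lib.MV.Blue

open MvPolynomial

set_option linter.unusedSectionVars false
set_option linter.unusedVariables false

noncomputable section

namespace Pool.Agent.Lib.MV

namespace MonB

lemma li_aff (σ : Type) [Fintype σ] : LinearIndependent ℂ fun γ : σ → ℤ =>
    ∏ a, algebraMap (MvPolynomial σ ℂ) (FractionRing (MvPolynomial σ ℂ)) (X a) ^ γ a := by
  classical
  rw [linearIndependent_iff']
  intro s g hg γ0 hγ0
  have hinj := IsFractionRing.injective (MvPolynomial σ ℂ) (FractionRing (MvPolynomial σ ℂ))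
  have hX : ∀ a : σ,
      algebraMap (MvPolynomial σ ℂ) (FractionRing (MvPolynomial σ ℂ)) (X a) ≠ 0 := fun a h =>
    X_ne_zero a (hinj (h.trans (map_zero _).symm))
  obtain ⟨N, hN⟩ : ∃ N : ℕ, ∀ γ ∈ s, ∀ a, 0 ≤ γ a + N := by
    refine ⟨s.sup fun γ => Finset.univ.sup fun a => (γ a).natAbs, fun γ hγ a => ?_⟩
    have h1 : (γ a).natAbs ≤ Finset.univ.sup fun a => (γ a).natAbs :=
      Finset.le_sup (f := fun a => (γ a).natAbs) (Finset.mem_univ a)
    have h2 : (Finset.univ.sup fun a => (γ a).natAbs) ≤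
        s.sup fun γ => Finset.univ.sup fun a => (γ a).natAbs :=
      Finset.le_sup (f := fun γ : σ → ℤ => Finset.univ.sup fun a => (γ a).natAbs) hγ
    have h3 := h1.trans h2
    omega
  let d : (σ → ℤ) → σ →₀ ℕ := fun γ => Finsupp.equivFunOnFinite.symm fun a => (γ a + N).toNat
  have hd : ∀ γ a, d γ a = (γ a + N).toNat := fun γ a => rfl
  have e : ∀ γ ∈ s, algebraMap (MvPolynomial σ ℂ) (FractionRing (MvPolynomial σ ℂ))
      (monomial (d γ) (g γ)) = (g γ • ∏ a, algebraMap (MvPolynomial σ ℂ)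
        (FractionRing (MvPolynomial σ ℂ)) (X a) ^ γ a) * ∏ a, algebraMap (MvPolynomial σ ℂ)
        (FractionRing (MvPolynomial σ ℂ)) (X a) ^ (N : ℤ) := fun γ hγ => by
    rw [monomial_eq, Finsupp.prod_fintype _ _ fun a => pow_zero _, map_mul, map_prod,
      smul_mul_assoc, ← Finset.prod_mul_distrib, Algebra.smul_def,
      IsScalarTower.algebraMap_apply ℂ (MvPolynomial σ ℂ) (FractionRing (MvPolynomial σ ℂ))]
    refine congrArg₂ _ rfl (Finset.prod_congr rfl fun a _ => ?_)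
    rw [map_pow, ← zpow_add₀ (hX a), ← zpow_natCast, hd, Int.toNat_of_nonneg (hN γ hγ a)]
  have h0 : (∑ γ ∈ s, monomial (d γ) (g γ) : MvPolynomial σ ℂ) = 0 := by
    apply hinj
    rw [map_sum, Finset.sum_congr rfl e, ← Finset.sum_mul, hg, zero_mul, map_zero]
  have h1 := congrArg (coeff (d γ0)) h0
  rw [coeff_sum, Finset.sum_eq_single_of_mem γ0 hγ0, coeff_monomial, if_pos rfl, coeff_zero] at h1
  · exact h1
  · intro γ hγ hne
    rw [coeff_monomial, if_neg]
    intro h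
    refine hne (funext fun a => ?_)
    have h2 := DFunLike.congr_fun h a
    rw [hd, hd] at h2
    have := hN γ hγ a
    have := hN γ0 hγ0 a
    omega

lemma zpow_sum' {F J : Type} [Field F] {a : F} (ha : a ≠ 0) (s : Finset J) (f : J → ℤ) :
    a ^ ∑ j ∈ s, f j = ∏ j ∈ s, a ^ f j := by
  classical
  induction s using Finset.induction_on with
  | empty => simp
  | insert j s hj ih => rw [Finset.sum_insert hj, Finset.prod_insert hj, zpow_add₀ ha, ih]

variable (D : Dat)

lemma X_ne (i : Fin D.k) (l : Fin (D.n i + 1)) : D.X i l ≠ 0 := by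
  refine Fin.cases ?_ (fun l => ?_) l
  · exact one_ne_zero
  · intro h
    exact X_ne_zero (R := ℂ) (⟨i, l⟩ : D.Ax)
      (IsFractionRing.injective (MvPolynomial D.Ax ℂ) D.L (h.trans (map_zero _).symm))

/-- Laurent monomials in the homogeneous coordinates. -/
def mon (β : D.Hx → ℤ) : D.L := ∏ w, D.X w.1 w.2 ^ β w

lemma mon_eq (β : D.Hx → ℤ) : mon D β =
    ∏ a : D.Ax, algebraMap (MvPolynomial D.Ax ℂ) D.L (X a) ^ β ⟨a.1, a.2.succ⟩ := by
  rw [mon, Fintype.prod_sigma, Fintype.prod_sigma]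
  refine Finset.prod_congr rfl fun i _ => ?_
  rw [Fin.prod_univ_succ]
  have h : D.X i 0 = 1 := rfl
  rw [h, one_zpow, one_mul]
  rfl

lemma mon_add (β β' : D.Hx → ℤ) : mon D (β + β') = mon D β * mon D β' := by
  rw [mon, mon, mon, ← Finset.prod_mul_distrib]
  exact Finset.prod_congr rfl fun w _ => zpow_add₀ (X_ne D _ _) _ _

lemma mon_single (w : D.Hx) (c : ℤ) : mon D (Pi.single w c) = D.X w.1 w.2 ^ c := by
  rw [mon, Finset.prod_eq_single w]
  · rw [Pi.single_eq_same]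
  · intro w' _ h
    rw [Pi.single_eq_of_ne h, zpow_zero]
  · intro h
    exact absurd (Finset.mem_univ w) h

variable (v : D.Λ)

/-- Exponents of the given degree. -/
abbrev Ix : Type := {β : D.Hx → ℤ // ∀ i, ∑ l, β ⟨i, l⟩ = v i none}

lemma li_mon : LinearIndependent ℂ fun β : Ix D v => mon D β.1 := by
  have h := (li_aff D.Ax).comp (fun (β : Ix D v) (a : D.Ax) => β.1 ⟨a.1, a.2.succ⟩)
    fun β β' h => by
      refine Subtype.ext (funext fun ⟨i, l⟩ => ?_)
      have h1 : ∀ l : Fin (D.n i), β.1 ⟨i, l.succ⟩ = β'.1 ⟨i, l.succ⟩ := fun l =>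
        congrFun h ⟨i, l⟩
      refine Fin.cases ?_ h1 l
      have h2 := (β.2 i).trans (β'.2 i).symm
      rw [Fin.sum_univ_succ, Fin.sum_univ_succ, Finset.sum_congr rfl fun l _ => h1 l] at h2
      exact add_right_cancel h2
  rw [funext fun β : Ix D v => mon_eq D β.1]
  exact h

/-- The monomial is regular on the cell. -/
def P (β : Ix D v) (s : Finset D.Vx) : Prop :=
  (∀ i, ∃ l, Sum.inl ⟨i, l⟩ ∈ s) ∧ ∀ w, β.1 w < 0 → Sum.inl w ∈ s

/-- The span of the regular monomials. -/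
def Nn (s : Finset D.Vx) : Submodule ℂ D.L :=
  Submodule.span ℂ ((fun β : Ix D v => mon D β.1) '' {β | P D v β s})

variable {D}

lemma sl_none {t : D.Vx} {i : Fin D.k} (h : D.sl t = ⟨i, none⟩) : ∃ l, t = .inl ⟨i, l⟩ := by
  rcases t with ⟨j, l⟩ | ⟨⟨j, a⟩, b⟩
  · have h1 : j = i := congrArg Sigma.fst h
    subst h1
    exact ⟨l, rfl⟩
  · have h1 : j = i := congrArg Sigma.fst h
    subst h1
    have h2 : (⟨j, some a⟩ : D.Sl) = ⟨j, none⟩ := h
    simp at h2

lemma mem_A0 {μ : D.Sl} : μ ∈ D.A0 ↔ μ.2 = none := by simp [Dat.A0]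

lemma mem_W {t : D.Vx} (h : t ∈ D.TA D.A0) : ∃ w, t = .inl w := by
  rcases t with w | ⟨⟨j, a⟩, b⟩
  · exact ⟨w, rfl⟩
  · have h1 := mem_A0.1 (Finset.mem_filter.1 h).2
    simp [Dat.sl] at h1

lemma inl_mem (w : D.Hx) : Sum.inl w ∈ D.TA D.A0 :=
  Finset.mem_filter.2 ⟨Finset.mem_univ _, mem_A0.2 rfl⟩

lemma gA_eq (τ : D.Ch) (l : ∀ i, Fin (D.n i + 1)) (h : ∀ i, τ.1 ⟨i, none⟩ = .inl ⟨i, l i⟩) :
    D.gA D.X D.A0 v τ = ∏ i, D.X i (l i) ^ v i none := by
  symm
  refine Finset.prod_bij (fun i _ => (⟨i, none⟩ : D.Sl)) (fun i _ => mem_A0.2 rfl)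
    (fun i _ j _ e => congrArg Sigma.fst e) (fun μ hμ => ⟨μ.1, Finset.mem_univ _, ?_⟩)
    fun i _ => ?_
  · obtain ⟨i, o⟩ := μ
    have h1 : o = none := mem_A0.1 hμ
    subst h1
    rfl
  · rw [h i]
    rfl

lemma sum_single (i : Fin D.k) (w : D.Hx) (c : ℤ) :
    ∑ l, (Pi.single w c : D.Hx → ℤ) ⟨i, l⟩ = if w.1 = i then c else 0 := by
  obtain ⟨j, m⟩ := w
  split_ifs with h
  · have h1 : j = i := h
    subst h1
    rw [Finset.sum_eq_single m, Pi.single_eq_same]
    · intro l _ hl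
      have h3 : (⟨j, l⟩ : D.Hx) ≠ ⟨j, m⟩ := fun e => hl (eq_of_heq (Sigma.mk.inj e).2)
      rw [Pi.single_eq_of_ne h3]
    · intro h2
      exact absurd (Finset.mem_univ m) h2
  · exact Finset.sum_eq_zero fun l _ =>
      Pi.single_eq_of_ne (fun e => h (congrArg Sigma.fst e).symm) _

lemma mul_mem_Nn {s : Finset D.Vx} (hs : s ⊆ D.TA D.A0) {b : D.L} (hb : b ∈ D.Bs D.X s) :
    ∀ z ∈ Nn D v s, b * z ∈ Nn D v s := by
  induction hb using Algebra.adjoin_induction with
  | mem b hb =>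
    obtain ⟨t, ht, t', e, rfl⟩ := hb
    obtain ⟨⟨i, l⟩, rfl⟩ := mem_W (hs ht)
    obtain ⟨l', rfl⟩ := sl_none (i := i) e
    intro z hz
    induction hz using Submodule.span_induction with
    | mem z hz =>
      obtain ⟨β, hβ, rfl⟩ := hz
      refine Submodule.subset_span ⟨⟨β.1 + (Pi.single ⟨i, l'⟩ 1 + Pi.single ⟨i, l⟩ (-1)),
        fun j => ?_⟩, ⟨hβ.1, fun w hw => ?_⟩, ?_⟩
      · simp only [Pi.add_apply, Finset.sum_add_distrib, sum_single, β.2 j]
        split_ifs <;> simp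
      · by_cases e1 : w = ⟨i, l⟩
        · rw [e1]
          exact ht
        · refine hβ.2 w ?_
          have h1 : (0 : ℤ) ≤ (Pi.single ⟨i, l'⟩ 1 : D.Hx → ℤ) w := by
            rw [Pi.single_apply]
            split_ifs <;> simp
          simp only [Pi.add_apply, Pi.single_eq_of_ne e1] at hw
          omega
      · simp only [mon_add, mon_single, zpow_one, zpow_neg]
        rw [mul_comm, div_eq_mul_inv]
        rfl
    | zero => rw [mul_zero]; exact zero_mem _
    | add z z' _ _ h h' => rw [mul_add]; exact add_mem h h'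
    | smul c z _ h => rw [mul_smul_comm]; exact Submodule.smul_mem _ c h
  | algebraMap c => exact fun z hz => by rw [← Algebra.smul_def]; exact Submodule.smul_mem _ c hz
  | add b b' _ _ h h' => exact fun z hz => by rw [add_mul]; exact add_mem (h z hz) (h' z hz)
  | mul b b' _ _ h h' => exact fun z hz => by rw [mul_assoc]; exact h _ (h' z hz)

lemma Ms_le {s : Finset D.Vx} (hs : s ⊆ D.TA D.A0) :
    D.Ms D.X D.A0 v s ≤ (Nn D v s).toAddSubgroup := by
  refine (AddSubgroup.closure_le _).2 ?_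
  rintro z ⟨τ, hτ, hz⟩
  choose l hl using fun i => sl_none (τ.2 ⟨i, none⟩)
  have hm : ∀ i, Sum.inl ⟨i, l i⟩ ∈ s := fun i => hl i ▸ hτ _ (mem_A0.2 rfl)
  have hg : D.gA D.X D.A0 v τ ≠ 0 := by
    rw [gA_eq v τ l hl]
    exact Finset.prod_ne_zero_iff.2 fun i _ => zpow_ne_zero _ (X_ne D _ _)
  have h1 : D.gA D.X D.A0 v τ ∈ Nn D v s := by
    refine Submodule.subset_span ⟨⟨fun w => if w.2 = l w.1 then v w.1 none else 0,
      fun j => by simp⟩, ⟨fun i => ⟨l i, hm i⟩, fun w hw => ?_⟩, ?_⟩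
    · obtain ⟨i, m⟩ := w
      by_cases e : m = l i
      · rw [e]
        exact hm i
      · simp [e] at hw
    · rw [gA_eq v τ l hl]
      simp only [mon, Fintype.prod_sigma]
      refine Finset.prod_congr rfl fun i _ => ?_
      rw [Finset.prod_eq_single (l i), if_pos rfl]
      · intro m _ e
        rw [if_neg e, zpow_zero]
      · intro h2
        exact absurd (Finset.mem_univ _) h2
  have h2 := mul_mem_Nn v hs hz _ h1
  rw [div_mul_cancel₀ _ hg] at h2
  exact h2

lemma le_Ms (s : Finset D.Vx) : (Nn D v s).toAddSubgroup ≤ D.Ms D.X D.A0 v s := by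
  have key : ∀ z ∈ Nn D v s, ∀ c : ℂ, c • z ∈ D.Ms D.X D.A0 v s := fun z hz => by
    induction hz using Submodule.span_induction with
    | mem z hz =>
      obtain ⟨β, hβ, rfl⟩ := hz
      intro c
      choose l hl using hβ.1
      let τ : D.Ch := ⟨fun μ => μ.2.elim (.inl ⟨μ.1, l μ.1⟩) fun a => .inr (⟨μ.1, a⟩, 0), by
        rintro ⟨i, _ | a⟩ <;> rfl⟩
      refine AddSubgroup.subset_closure ⟨τ, fun μ hμ => ?_, ?_⟩
      · obtain ⟨i, o⟩ := μ
        have h1 : o = none := mem_A0.1 hμ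
        subst h1
        exact hl i
      · rw [gA_eq v τ l fun i => rfl, smul_div_assoc]
        refine Subalgebra.smul_mem _ ?_ c
        have e : mon D β.1 / ∏ i, D.X i (l i) ^ v i none =
            ∏ w : D.Hx, (D.X w.1 w.2 / D.X w.1 (l w.1)) ^ β.1 w := by
          simp only [div_zpow, Finset.prod_div_distrib]
          refine congrArg₂ _ rfl ?_
          rw [Fintype.prod_sigma]
          refine Finset.prod_congr rfl fun i _ => ?_
          rw [← β.2 i]
          exact zpow_sum' (X_ne D i (l i)) _ _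
        beta_reduce
        rw [e]
        refine Subalgebra.prod_mem _ fun w _ => ?_
        rcases le_or_gt 0 (β.1 w) with h | h
        · obtain ⟨m, hm⟩ := Int.eq_ofNat_of_zero_le h
          rw [hm, zpow_natCast]
          refine pow_mem (Algebra.subset_adjoin ?_) m
          exact ⟨_, hl w.1, .inl w, rfl, rfl⟩
        · obtain ⟨m, hm⟩ := Int.eq_ofNat_of_zero_le (neg_nonneg.2 h.le)
          rw [neg_eq_iff_eq_neg.1 hm, zpow_neg, zpow_natCast, ← inv_pow, inv_div]
          refine pow_mem (Algebra.subset_adjoin ?_) m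
          exact ⟨_, hβ.2 w h, .inl ⟨w.1, l w.1⟩, rfl, rfl⟩
    | zero => exact fun c => by rw [smul_zero]; exact zero_mem _
    | add z z' _ _ h h' => exact fun c => by rw [smul_add]; exact add_mem (h c) (h' c)
    | smul c' z _ h => exact fun c => by rw [smul_smul]; exact h _
  intro z hz
  have h := key z hz 1
  rwa [one_smul] at h

lemma card_ge [DecidableEq D.Vx] (s : Finset D.Vx) :
    ∑ i, (Finset.univ.filter fun l => (Sum.inl ⟨i, l⟩ : D.Vx) ∈ s).card ≤ s.card := by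
  rw [← Finset.card_sigma]
  refine Finset.card_le_card_of_injOn Sum.inl (fun w hw => ?_) Sum.inl_injective.injOn
  exact (Finset.mem_filter.1 (Finset.mem_sigma.1 (Finset.mem_coe.1 hw)).2).2

lemma comb [DecidableEq D.Vx] (q : ℕ) (hq : (∃ i, -(D.n i : ℤ) ≤ v i none ∧ v i none ≤ -1) ∨
    q < D.k + ∑ i with v i none < 0, D.n i) (β : Ix D v) :
    (∃ t ∈ D.TA D.A0, ∀ s, t ∉ s → P D v β (insert t s) → P D v β s) ∨
      ∀ s ⊆ D.TA D.A0, s.card = q → ¬P D v β s := by
  by_cases h : ∃ i l l', 0 ≤ β.1 ⟨i, l⟩ ∧ β.1 ⟨i, l'⟩ < 0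
  · obtain ⟨i, l, l', h1, h2⟩ := h
    refine Or.inl ⟨.inl ⟨i, l⟩, inl_mem _, fun s _ hP => ?_⟩
    have h3 : ∀ w, β.1 w < 0 → Sum.inl w ∈ s := fun w hw =>
      (Finset.mem_insert.1 (hP.2 w hw)).resolve_left fun e => by
        rw [Sum.inl_injective e] at hw
        omega
    refine ⟨fun j => ?_, h3⟩
    obtain ⟨m, hm⟩ := hP.1 j
    rcases Finset.mem_insert.1 hm with e | e
    · have e1 : j = i := congrArg Sigma.fst (Sum.inl_injective e)
      subst e1
      exact ⟨l', h3 _ h2⟩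
    · exact ⟨m, e⟩
  refine Or.inr fun s _ hs hP => ?_
  have h1 : ∀ i, v i none < 0 → ∀ l, β.1 ⟨i, l⟩ < 0 := fun i hi l => by
    by_contra h2
    have h3 : 0 ≤ ∑ l, β.1 ⟨i, l⟩ := Finset.sum_nonneg fun l' _ => by
      by_contra h4
      exact h ⟨i, l, l', not_lt.1 h2, not_le.1 h4⟩
    rw [β.2 i] at h3
    omega
  rcases hq with ⟨i, h2, h3⟩ | hq
  · have h4 : ∑ l, β.1 ⟨i, l⟩ ≤ ∑ _l : Fin (D.n i + 1), (-1 : ℤ) :=
      Finset.sum_le_sum fun l _ => by
        have := h1 i (by omega) l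
        omega
    rw [β.2 i] at h4
    simp at h4
    omega
  · have h2 : ∑ i, (1 + if v i none < 0 then D.n i else 0) ≤
        ∑ i, (Finset.univ.filter fun l => (Sum.inl ⟨i, l⟩ : D.Vx) ∈ s).card :=
      Finset.sum_le_sum fun i _ => by
        split_ifs with hi
        · rw [Finset.filter_true_of_mem fun l _ => hP.2 _ (h1 i hi l)]
          simp [add_comm]
        · obtain ⟨l, hl⟩ := hP.1 i
          exact Finset.card_pos.2 ⟨l, Finset.mem_filter.2 ⟨Finset.mem_univ _, hl⟩⟩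
    have h3 := h2.trans (card_ge s)
    rw [Finset.sum_add_distrib, ← Finset.sum_filter] at h3
    simp at h3
    omega

end MonB

open MonB in
theorem st_mon : St_MON := fun D v q hq => by
  refine Ex.congr (M := fun s => (Nn D v s).toAddSubgroup)
    (fun s hs => le_antisymm (le_Ms v s) (Ms_le v hs)) ?_
  refine (Ex.map (M := supp ℂ (P D v))
    (Finsupp.linearCombination ℂ fun β : Ix D v => mon D β.1).toAddMonoidHom ?_ ?_ ?_ ?_).1
    (Ex.supp (@comb D v LinearOrder.toDecidableEq q hq))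
  · intro s s' h f hf β hβ
    exact hf β fun h1 => hβ ⟨fun i => (h1.1 i).imp fun l hl => h hl, fun w hw => h (h1.2 w hw)⟩
  · intro s f _ h
    exact linearIndependent_iff.1 (li_mon D v) f h
  · intro s f hf
    exact (Finsupp.mem_span_image_iff_linearCombination ℂ).2
      ⟨f, (Finsupp.mem_supported' ℂ f).2 hf, rfl⟩
  · intro s z hz
    obtain ⟨f, hf, e⟩ := (Finsupp.mem_span_image_iff_linearCombination ℂ).1 hz
    exact ⟨f, (Finsupp.mem_supported' ℂ f).1 hf, e⟩

end Pool.Agent.Lib.MV
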