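import Pool.Agent.Lib.MV.G3A

open MvPolynomial Set

set_option linter.unusedSectionVars false
set_option linter.unusedVariables false

noncomputable section

namespace Pool.Agent.Lib.MV.G3

namespace Dep

lemma zero_of_deh {k : Type} [Field k] [Infinite k] {N d : ℕ} (l₀ : Fin (N + 1))
    {g : MvPolynomial (Fin (N + 1)) k} (hg : g.IsHomogeneous d)
    (h : aeval (Fin.insertNth l₀ 1 X : Fin (N + 1) → MvPolynomial (Fin N) k) g = 0) : g = 0 := by
  have key : ∀ x : Fin (N + 1) → k, x l₀ = 1 → eval x g = 0 := by
    intro x hx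
    have h1 := congrArg (aeval (fun l => x (l₀.succAbove l))) h
    rw [map_zero, ← AlgHom.comp_apply, comp_aeval] at h1
    rw [← h1, ← coe_aeval_eq_eval]
    refine congrArg (fun t => aeval t g) (funext fun l => ?_)
    refine Fin.succAboveCases l₀ ?_ (fun j => ?_) l
    · simp [hx]
    · simp
  have h2 : X l₀ * g = 0 := by
    refine MvPolynomial.funext fun x => ?_
    rw [map_mul, eval_X, map_zero]
    by_cases hx : x l₀ = 0
    · rw [hx, zero_mul]
    · have h3 : eval x g = x l₀ ^ d * eval (fun l => x l / x l₀) g := by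
        conv_lhs => rw [g.as_sum]
        conv_rhs => rw [g.as_sum]
        rw [map_sum, map_sum, Finset.mul_sum]
        refine Finset.sum_congr rfl fun μ hμ => ?_
        have hd : d = ∑ l, μ l := by
          rw [← hg (mem_support_iff.1 hμ), Finsupp.weight_apply, Finsupp.sum_fintype _ _ (by simp)]
          simp
        rw [eval_monomial, eval_monomial, Finsupp.prod_fintype _ _ (by simp),
          Finsupp.prod_fintype _ _ (by simp), hd, ← Finset.prod_pow_eq_pow_sum, mul_left_comm,
          ← Finset.prod_mul_distrib]
        refine congrArg (_ * ·) (Finset.prod_congr rfl fun l _ => ?_)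
        rw [← mul_pow, mul_div_cancel₀ _ hx]
      rw [h3, key _ (div_self hx), mul_zero, mul_zero]
  exact (mul_eq_zero.1 h2).resolve_left (X_ne_zero _)

lemma ov_of_dep {Ω : Type} [Field Ω] [Algebra ℂ Ω] {S : Set Ω} {n : ℕ} {y : Fin (n + 1) → Ω}
    (h : ¬AlgebraicIndependent (acl S) y) : Ov S (range y) n := by
  classical
  by_cases hi : Function.Injective y
  · have h1 : ¬(AlgebraicIndependent.matroid (acl S) Ω).Indep (range y) := fun h1 =>
      h ((algebraicIndependent_subtype_range hi).1 h1)
    rw [Matroid.indep_iff_forall_notMem_closure_sdiff (subset_univ _)] at h1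
    push Not at h1
    obtain ⟨e, he, h2⟩ := h1
    refine ⟨(Finset.univ.image y).erase e, ?_, fun z hz => ?_⟩
    · rw [Finset.card_erase_of_mem (by simpa using he), Finset.card_image_of_injective _ hi]
      simp
    · have hU : (((Finset.univ.image y).erase e : Finset Ω) : Set Ω) = range y \ {e} := by simp
      rw [hU]
      by_cases hz' : z = e
      · subst hz'
        rw [AlgebraicIndependent.matroid_closure_eq] at h2
        have h3 : IsAlgebraic (Algebra.adjoin (acl S) (range y \ {z})) z := h2
        have h4 : acl S ≤ acl (S ∪ (range y \ {z})) := acl_mono subset_union_left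
        have h5 : Algebra.adjoin (acl S) (range y \ {z}) ≤
            (IntermediateField.extendScalars h4).toSubalgebra :=
          Algebra.adjoin_le (subset_union_right.trans (subset_acl _))
        exact mem_acl_of_alg (h3.tower_top_of_subalgebra_le h5)
      · exact subset_acl _ (Or.inr ⟨hz, hz'⟩)
  · refine ⟨Finset.univ.image y, ?_, by simpa using subset_union_right.trans (subset_acl _)⟩
    have h1 : (Finset.univ.image y).card ≤ n + 1 := Finset.card_image_le.trans (by simp)
    have h2 : (Finset.univ.image y).card ≠ n + 1 := fun h2 => hi fun a b hab =>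
      Finset.card_image_iff.1 (h2.trans (by simp)) (by simp) (by simp) hab
    omega

end Dep

theorem st_dep : St_DEP := by
  intro Ω _ _ S n d z l₀ g hz hg0 hg hc he
  obtain ⟨g', rfl⟩ : g ∈ Set.range (map (algebraMap (acl S) Ω)) := by
    rw [mem_range_map_iff_coeffs_subset]
    intro c hc'
    obtain ⟨μ, -, rfl⟩ := mem_coeffs_iff.1 hc'
    exact ⟨⟨_, hc μ⟩, rfl⟩
  have hinj : Function.Injective (algebraMap (acl S) Ω) := Subtype.val_injective
  have hg' : g'.IsHomogeneous d := hg.of_map hinj
  have : Infinite (acl S) := Infinite.of_injective _ (algebraMap ℂ (acl S)).injective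
  have h1 : ¬AlgebraicIndependent (acl S) fun l => z (l₀.succAbove l) := fun h1 => by
    refine hg0 ?_
    rw [Dep.zero_of_deh l₀ hg' (h1.eq_zero_of_aeval_eq_zero _ ?_), map_zero]
    rw [← AlgHom.comp_apply, comp_aeval, ← he, eval_map, ← aeval_def]
    refine congrArg (fun t => aeval t g') (funext fun l => ?_)
    refine Fin.succAboveCases l₀ ?_ (fun j => ?_) l
    · simp [hz]
    · simp
  refine (Dep.ov_of_dep h1).of_acl ?_
  rintro _ ⟨l, rfl⟩
  refine Fin.succAboveCases l₀ ?_ (fun j => ?_) l
  · rw [hz]; exact one_mem _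
  · exact subset_acl _ (Or.inr ⟨j, rfl⟩)

end Pool.Agent.Lib.MV.G3
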