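import Pool.Agent.Lib.MV.Blue

open MvPolynomial Set Pool.Agent.Lib.MP_e39d36_ag

set_option linter.unusedSectionVars false
set_option linter.unusedVariables false

noncomputable section

namespace Pool.Agent.Lib.MV

namespace PsiB

section graph

variable {R K : Type} [CommRing R] [IsDomain R] [Algebra ℂ R] [Field K] [Algebra ℂ K]

/-- The graph of the extension of a homomorphism to the fractions that are defined along it. -/
def Gr (φ : R →ₐ[ℂ] K) : Subalgebra ℂ (FractionRing R × K) where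
  carrier := {p | ∃ a s : R, φ s ≠ 0 ∧ p.1 * algebraMap R _ s = algebraMap R _ a ∧
    p.2 * φ s = φ a}
  mul_mem' := by
    rintro p q ⟨a, s, h1, h2, h3⟩ ⟨b, t, h4, h5, h6⟩
    refine ⟨a * b, s * t, by rw [map_mul]; exact mul_ne_zero h1 h4, ?_, ?_⟩
    · rw [map_mul, map_mul, ← h2, ← h5, Prod.fst_mul]; ring
    · rw [map_mul, map_mul, ← h3, ← h6, Prod.snd_mul]; ring
  add_mem' := by
    rintro p q ⟨a, s, h1, h2, h3⟩ ⟨b, t, h4, h5, h6⟩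
    refine ⟨a * t + b * s, s * t, by rw [map_mul]; exact mul_ne_zero h1 h4, ?_, ?_⟩
    · rw [map_add, map_mul, map_mul, map_mul, ← h2, ← h5, Prod.fst_add]; ring
    · rw [map_add, map_mul, map_mul, map_mul, ← h3, ← h6, Prod.snd_add]; ring
  algebraMap_mem' c := by
    refine ⟨algebraMap ℂ R c, 1, by simp, ?_, ?_⟩
    · rw [map_one, mul_one, ← IsScalarTower.algebraMap_apply]; rfl
    · rw [map_one, mul_one, AlgHom.commutes]; rfl

variable {φ : R →ₐ[ℂ] K}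

lemma mem_gr (a : R) : (algebraMap R (FractionRing R) a, φ a) ∈ Gr φ :=
  ⟨a, 1, by simp, by simp, by simp⟩

lemma gr_zero {w : K} (h : ((0 : FractionRing R), w) ∈ Gr φ) : w = 0 := by
  obtain ⟨a, s, h1, h2, h3⟩ := h
  rw [zero_mul, eq_comm, map_eq_zero_iff _ (IsFractionRing.injective R _)] at h2
  rw [h2, map_zero] at h3
  exact (mul_eq_zero.1 h3).resolve_right h1

lemma gr_ne {z : FractionRing R} {w : K} (h : (z, w) ∈ Gr φ) (hw : w ≠ 0) : z ≠ 0 := by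
  rintro rfl
  exact hw (gr_zero h)

lemma gr_inv {z : FractionRing R} {w : K} (h : (z, w) ∈ Gr φ) (hw : w ≠ 0) :
    (z⁻¹, w⁻¹) ∈ Gr φ := by
  have hz := gr_ne h hw
  obtain ⟨a, s, h1, h2, h3⟩ := h
  refine ⟨s, a, by rw [← h3]; exact mul_ne_zero hw h1, ?_, ?_⟩
  · rw [← h2]; exact inv_mul_cancel_left₀ hz _
  · rw [← h3]; exact inv_mul_cancel_left₀ hw _

lemma gr_div {z z' : FractionRing R} {w w' : K} (h : (z, w) ∈ Gr φ) (h' : (z', w') ∈ Gr φ)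
    (hw : w' ≠ 0) : (z / z', w / w') ∈ Gr φ := by
  rw [div_eq_mul_inv, div_eq_mul_inv]
  exact mul_mem h (gr_inv h' hw)

lemma exists_psi (φ : R →ₐ[ℂ] K) :
    ∃ ψ : FractionRing R →ₗ[ℂ] K, ∀ z w, (z, w) ∈ Gr φ → ψ z = w := by
  let e : Subalgebra.toSubmodule (Gr φ) →ₗ[ℂ] FractionRing R :=
    LinearMap.fst ℂ _ K ∘ₗ (Subalgebra.toSubmodule (Gr φ)).subtype
  have he : LinearMap.ker e = ⊥ := by
    rw [LinearMap.ker_eq_bot']
    rintro ⟨⟨z, w⟩, h⟩ h0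
    obtain rfl : z = 0 := h0
    obtain rfl := gr_zero h
    rfl
  obtain ⟨g, hg⟩ := e.exists_leftInverse_of_injective he
  refine ⟨LinearMap.snd ℂ _ K ∘ₗ (Subalgebra.toSubmodule (Gr φ)).subtype ∘ₗ g, fun z w h => ?_⟩
  have h1 : g z = ⟨(z, w), h⟩ := LinearMap.congr_fun hg ⟨(z, w), h⟩
  simp [h1]

lemma gr_aeval {ι : Type} {a : ι → FractionRing R} {b : ι → K} (h : ∀ t, (a t, b t) ∈ Gr φ)
    (P : MvPolynomial ι ℂ) : (aeval a P, aeval b P) ∈ Gr φ := by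
  induction P using MvPolynomial.induction_on with
  | C c =>
    rw [aeval_C, aeval_C]
    exact (Gr φ).algebraMap_mem c
  | add p q hp hq =>
    rw [map_add, map_add]
    exact add_mem hp hq
  | mul_X p t hp =>
    rw [map_mul, map_mul, aeval_X, aeval_X]
    exact mul_mem hp (h t)

end graph

variable {D : Dat} {F : Type} [Field F] [Algebra ℂ F] {x : ∀ i, Fin (D.n i + 1) → F}

lemma gr_y (h1 : ∀ i, x i 0 = 1) (t : D.Vx) :
    (D.y D.X t, D.y x t) ∈ Gr (aeval (D.xa x) : MvPolynomial D.Ax ℂ →ₐ[ℂ] F) := by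
  have h : ∀ i l, (D.X i l, x i l) ∈ Gr (aeval (D.xa x) : MvPolynomial D.Ax ℂ →ₐ[ℂ] F) := by
    intro i l
    refine Fin.cases ?_ (fun l => ?_) l
    · rw [h1 i]
      exact one_mem _
    · have := mem_gr (φ := (aeval (D.xa x) : MvPolynomial D.Ax ℂ →ₐ[ℂ] F)) (X ⟨i, l⟩)
      rw [aeval_X] at this
      exact this
  rcases t with v | v
  · exact h v.1 v.2
  · have h2 := Subalgebra.sum_mem _ fun l (_ : l ∈ Finset.univ) =>
      Subalgebra.smul_mem _ (h v.1.1 l) (D.u v.1.1 v.1.2 v.2 l)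
    have h3 : (D.y D.X (.inr v), D.y x (.inr v)) =
        ∑ l, D.u v.1.1 v.1.2 v.2 l • (D.X v.1.1 l, x v.1.1 l) :=
      Prod.ext (by simp [Dat.y, Prod.fst_sum]) (by simp [Dat.y, Prod.snd_sum])
    rw [h3]
    exact h2

lemma B_le {s : Finset D.Vx} {τ : D.Ch} (h : ∀ μ, τ.1 μ ∈ s) : D.B x τ ≤ D.Bs x s := by
  refine Algebra.adjoin_mono ?_
  rintro _ ⟨t, rfl⟩
  exact ⟨_, h (D.sl t), t, (τ.2 _).symm, rfl⟩

lemma clear (hx : ∀ t, D.y x t ≠ 0) {s : Finset D.Vx} (τ : D.Ch) {b : F} (hb : b ∈ D.Bs x s) :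
    ∃ c ∈ D.B x τ, c ≠ 0 ∧ c⁻¹ ∈ D.Bs x s ∧ c * b ∈ D.B x τ := by
  induction hb using Algebra.adjoin_induction with
  | mem z hz =>
    obtain ⟨t, ht, t', h, rfl⟩ := hz
    refine ⟨D.rat x τ t, Algebra.subset_adjoin ⟨t, rfl⟩, div_ne_zero (hx _) (hx _), ?_, ?_⟩
    · exact Algebra.subset_adjoin ⟨t, ht, _, τ.2 _, inv_div _ _⟩
    · refine Algebra.subset_adjoin ⟨t', ?_⟩
      have := hx t
      simp only [Dat.rat, h]
      field_simp
  | algebraMap c =>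
    exact ⟨1, one_mem _, one_ne_zero, by simp, by simp⟩
  | add z z' _ _ h h' =>
    obtain ⟨c, h1, h2, h3, h4⟩ := h
    obtain ⟨c', h5, h6, h7, h8⟩ := h'
    refine ⟨c * c', mul_mem h1 h5, mul_ne_zero h2 h6, ?_, ?_⟩
    · rw [mul_inv]; exact mul_mem h3 h7
    · have : c * c' * (z + z') = c' * (c * z) + c * (c' * z') := by ring
      rw [this]
      exact add_mem (mul_mem h5 h4) (mul_mem h1 h8)
  | mul z z' _ _ h h' =>
    obtain ⟨c, h1, h2, h3, h4⟩ := h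
    obtain ⟨c', h5, h6, h7, h8⟩ := h'
    refine ⟨c * c', mul_mem h1 h5, mul_ne_zero h2 h6, ?_, ?_⟩
    · rw [mul_inv]; exact mul_mem h3 h7
    · rw [mul_mul_mul_comm]
      exact mul_mem h4 h8

lemma f_mem (hK : St_KAP) (hx : ∀ t, D.y x t ≠ 0) (τ : D.Ch) : D.f x τ ∈ D.B x τ := by
  refine Subalgebra.sum_mem _ fun c _ => Subalgebra.prod_mem _ fun i _ => ?_
  have := hK D F x hx τ i Finset.univ (D.n i + 1) (D.G c i) (D.G_hom c i) fun a _ => D.G_p c i a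
  simpa [Dat.kap] using this

lemma f_ne (hx : ∀ t, D.y D.X t ≠ 0) (h : D.Fa ≠ 0) (τ : D.Ch) : D.f D.X τ ≠ 0 := by
  have h1 : D.f D.X τ = algebraMap (MvPolynomial D.Ax ℂ) D.L D.Fa / ∏ i, D.kap D.X τ i := by
    rw [Dat.f, Dat.Fa, map_sum, Finset.sum_div]
    refine Finset.sum_congr rfl fun c _ => ?_
    rw [Finset.prod_div_distrib, map_prod]
    congr 1
    refine Finset.prod_congr rfl fun i _ => ?_
    rw [← IsScalarTower.coe_toAlgHom' ℂ, comp_aeval_apply]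
    congr 2
    funext l
    refine Fin.cases ?_ (fun l => ?_) l
    · simp [Dat.X]
    · simp [Dat.X]
  rw [h1]
  refine div_ne_zero ((map_ne_zero_iff _ (IsFractionRing.injective _ _)).2 h) ?_
  refine Finset.prod_ne_zero_iff.2 fun i _ => mul_ne_zero (zpow_ne_zero _ (hx _)) ?_
  exact Finset.prod_ne_zero_iff.2 fun a _ => hx _

end PsiB

open PsiB

theorem st_psi (hK : St_KAP) (h1 : St_KER1) : St_PSI := by
  intro D K _ _ M
  set φ : MvPolynomial D.Ax ℂ →ₐ[ℂ] K := aeval (D.xa M.x) with hφ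
  obtain ⟨ψ, hψ⟩ := exists_psi φ
  have hy : ∀ t, (D.y D.X t, D.y M.x t) ∈ Gr φ := gr_y M.hyp.one
  have hX : ∀ t, D.y D.X t ≠ 0 := fun t => gr_ne (hy t) (M.hyp.ne t)
  have hO : ∀ z, z ∈ (Gr φ).map (AlgHom.fst ℂ D.L K) ↔ (z, ψ z) ∈ Gr φ := fun z =>
    ⟨by rintro ⟨⟨z, w⟩, h, rfl⟩; rwa [← hψ z w h] at h, fun h => ⟨_, h, rfl⟩⟩
  have hgen : ∀ (s : Finset D.Vx), ∀ t ∈ s, ∀ t', D.sl t' = D.sl t →
      (D.y D.X t' / D.y D.X t, D.y M.x t' / D.y M.x t) ∈ Gr φ ⊓ (D.Bs D.X s).prod (D.Bs M.x s) :=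
    fun s t ht t' h => ⟨gr_div (hy t') (hy t) (M.hyp.ne t),
      Algebra.subset_adjoin ⟨t, ht, t', h, rfl⟩, Algebra.subset_adjoin ⟨t, ht, t', h, rfl⟩⟩
  have hl : ∀ s, D.Bs D.X s ≤
      (Gr φ ⊓ (D.Bs D.X s).prod (D.Bs M.x s)).map (AlgHom.fst ℂ D.L K) := fun s =>
    Algebra.adjoin_le (by
      rintro _ ⟨t, ht, t', h, rfl⟩
      exact ⟨_, hgen s t ht t' h, rfl⟩)
  have hr : ∀ s, D.Bs M.x s ≤
      (Gr φ ⊓ (D.Bs D.X s).prod (D.Bs M.x s)).map (AlgHom.snd ℂ D.L K) := fun s =>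
    Algebra.adjoin_le (by
      rintro _ ⟨t, ht, t', h, rfl⟩
      exact ⟨_, hgen s t ht t' h, rfl⟩)
  have hle : ∀ s, ∀ b ∈ D.Bs D.X s, (b, ψ b) ∈ Gr φ := fun s b hb =>
    (hO b).1 (Subalgebra.map_mono inf_le_left (hl s hb))
  have hev : ∀ τ (P : MvPolynomial D.Vx ℂ),
      ψ (aeval (D.rat D.X τ) P) = aeval (D.rat M.x τ) P := fun τ P =>
    hψ _ _ (gr_aeval (fun t => gr_div (hy _) (hy _) (M.hyp.ne _)) P)
  have hB : ∀ τ, ∀ b ∈ D.B D.X τ, ∃ P : MvPolynomial D.Vx ℂ, aeval (D.rat D.X τ) P = b := by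
    intro τ b hb
    rw [Dat.B, Algebra.adjoin_range_eq_range_aeval] at hb
    exact hb
  refine ⟨(Gr φ).map (AlgHom.fst ℂ D.L K), ψ, hψ _ _ (one_mem _), ?_, ?_, ?_, ?_, ?_, ?_, ?_,
    f_mem hK hX, f_ne hX (h1 D K M).2.1, ?_, ?_⟩
  · intro a ha b hb
    exact hψ _ _ (mul_mem ((hO a).1 ha) ((hO b).1 hb))
  · intro a ha h
    exact ⟨_, gr_inv ((hO a).1 ha) h, rfl⟩
  · exact fun t => ⟨_, hy t, rfl⟩
  · exact fun t => hψ _ _ (hy t)
  · exact fun s b hb => (hO b).2 (hle s b hb)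
  · intro s b hb
    obtain ⟨⟨z, w⟩, ⟨h2, -, h3⟩, rfl⟩ := hl s hb
    rw [← hψ z w h2] at h3
    exact h3
  · intro s b hb
    obtain ⟨⟨z, w⟩, ⟨h2, h3, -⟩, rfl⟩ := hr s hb
    exact ⟨z, h3, hψ z w h2⟩
  · intro τ
    obtain ⟨P, hP⟩ := hB τ _ (f_mem hK hX τ)
    rw [← hP, hev]
    exact (M.hyp.ker τ P).2 ⟨1, one_mem _, by rw [hP, mul_one]⟩
  · intro s τ hs b hb h0
    obtain ⟨c, h2, h3, h4, h5⟩ := clear hX τ hb
    obtain ⟨P, hP⟩ := hB τ _ h5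
    have h6 : ψ (c * b) = ψ c * ψ b := hψ _ _ (mul_mem (hle s c (B_le hs h2)) (hle s b hb))
    rw [h0, mul_zero, ← hP, hev] at h6
    obtain ⟨b', h7, h8⟩ := (M.hyp.ker τ P).1 h6
    refine ⟨c⁻¹ * b', mul_mem h4 (B_le hs h7), ?_⟩
    rw [mul_left_comm, ← h8, hP, inv_mul_cancel_left₀ h3]

end Pool.Agent.Lib.MV
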