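import Pool.Agent.Lib.MV.FibA

open Pool.Agent.Lib.MP_e39d36_ag Pool.Agent.Lib.MP_e39d36_ag.Var

set_option linter.style.haveILetI false

namespace Pool.Agent.Lib.MV.Fb

namespace DIM

lemma exists_var {s : ℕ} {f : MvPolynomial (Fin s) ℂ} (hf : Prime f) :
    ∃ j, f.degreeOf j ≠ 0 := by
  by_contra! h
  have h1 : f.vars = ∅ := Finset.eq_empty_of_forall_notMem fun j hj =>
    MvPolynomial.mem_vars_iff_degreeOf_ne_zero.1 hj (h j)
  have h2 := MvPolynomial.vars_eq_empty_iff_eq_C.1 h1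
  refine hf.not_isUnit (h2 ▸ IsUnit.map MvPolynomial.C (Ne.isUnit fun h3 => hf.ne_zero ?_))
  rw [h2, h3, map_zero]

lemma not_dvd {n : ℕ} {f : MvPolynomial (Fin (n + 1)) ℂ} {j : Fin (n + 1)}
    (hj : f.degreeOf j ≠ 0) {P : MvPolynomial (Fin n) ℂ} (hP : P ≠ 0) :
    ¬f ∣ MvPolynomial.rename j.succAbove P := by
  rintro ⟨h, e⟩
  have h0 : f * h ≠ 0 := e ▸ fun h1 => hP (MvPolynomial.rename_injective _
    Fin.succAbove_right_injective (h1.trans (map_zero _).symm))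
  have h1 : (MvPolynomial.rename j.succAbove P).degreeOf j ≠ 0 := by
    rw [e, MvPolynomial.degreeOf_mul_eq (left_ne_zero_of_mul h0) (right_ne_zero_of_mul h0)]
    omega
  obtain ⟨i, -, hi⟩ := MvPolynomial.mem_vars_rename _ _
    (MvPolynomial.mem_vars_iff_degreeOf_ne_zero.2 h1)
  exact Fin.succAbove_ne j i hi

variable {K : Type} [Field K] [Algebra ℂ K] (X : Var K)

lemma noether (i : X.ι) : ∃ (s : ℕ) (g : MvPolynomial (Fin s) ℂ →ₐ[ℂ] (X.A i)),
    Function.Injective g ∧ g.IsIntegral ∧ Algebra.trdeg ℂ K = s := by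
  haveI : Algebra.FiniteType ℂ (X.A i) := ⟨(Subalgebra.fg_top _).2 (X.fg i)⟩
  obtain ⟨s, g, hg, hg'⟩ := exists_integral_inj_algHom_of_fg ℂ (X.A i)
  refine ⟨s, g, hg, hg', ?_⟩
  letI := g.toRingHom.toAlgebra
  haveI : Algebra.IsIntegral (MvPolynomial (Fin s) ℂ) (X.A i) := ⟨hg'⟩
  haveI : IsScalarTower ℂ (MvPolynomial (Fin s) ℂ) (X.A i) :=
    IsScalarTower.of_algebraMap_eq fun a => (g.commutes a).symm
  haveI : FaithfulSMul (MvPolynomial (Fin s) ℂ) (X.A i) :=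
    (faithfulSMul_iff_algebraMap_injective _ _).2 hg
  haveI : IsFractionRing (X.A i) K := isFrac (R := (X.A i).toSubring) (X.frac i)
  haveI := IsLocalization.isAlgebraic K (nonZeroDivisors (X.A i))
  rw [← trdeg_add_eq ℂ (X.A i), ← trdeg_add_eq ℂ (MvPolynomial (Fin s) ℂ) (A := X.A i),
    trdeg_eq_zero (A := K), trdeg_eq_zero (A := X.A i), MvPolynomial.trdeg_of_isDomain]
  simp

lemma indIn (E : X.PD) {d : ℕ} (hd : Algebra.trdeg ℂ K = d) :
    IndIn (X.O E.1) (X.O E.1) (d - 1) := by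
  obtain ⟨i, hi⟩ := X.chart E.1
  obtain ⟨s, g, hg, hg', hs⟩ := noether X i
  obtain rfl : d = s := by exact_mod_cast hd.symm.trans hs
  letI := g.toRingHom.toAlgebra
  haveI : Algebra.IsIntegral (MvPolynomial (Fin d) ℂ) (X.A i) := ⟨hg'⟩
  haveI : FaithfulSMul (MvPolynomial (Fin d) ℂ) (X.A i) :=
    (faithfulSMul_iff_algebraMap_injective _ _).2 hg
  let p : Ideal (X.A i) := mx (X.isLoc E.1) hi.1
  haveI : p.IsPrime := inferInstanceAs (mx (X.isLoc E.1) hi.1).IsPrime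
  have hp : p ≠ ⊥ := fun h => (isV E).ne_top (eq_top_iff.2 fun z _ => by
    obtain ⟨b, h1, h2, h3⟩ := X.frac i z
    refine Un.mem_of_mul (of_not_not fun h4 => h2 ?_) (hi.1 h3)
    have h5 : (⟨b, h1⟩ : X.A i) ∈ p := h4
    rw [h] at h5
    exact congrArg Subtype.val h5)
  obtain ⟨f, hf, hf'⟩ := Ideal.IsPrime.exists_mem_prime_of_ne_bot
    (I := p.under (MvPolynomial (Fin d) ℂ)) inferInstance
    fun h => hp (Ideal.eq_bot_of_comap_eq_bot h)
  haveI := (Ideal.span_singleton_prime hf'.ne_zero).2 hf'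
  obtain ⟨q, hq, hq1, hq2⟩ := p.exists_ideal_le_liesOver_of_le (p := Ideal.span {f})
    (q := p.under (MvPolynomial (Fin d) ℂ)) ((Ideal.span_singleton_le_iff_mem _).2 hf)
  obtain ⟨T, -, h4, h5⟩ := exists_locP (B := (X.A i).toSubring) (hp := hq1) q
  have h6 : X.O E.1 ≤ T := hi.le h4.1 fun b hb hu => (h5 ⟨b, hb⟩).2 fun h => hq h hu
  have h7 : ∀ P, g P ∈ q ↔ f ∣ P := fun P => by
    rw [← Ideal.mem_span_singleton, hq2.over]; rfl
  obtain h8 | h8 := (isV E).eq_or_top h6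
  swap
  · refine absurd ((h7 f).2 dvd_rfl) ((h5 (g f)).1 (h8 ▸ un_top.2 fun h => hf'.ne_zero (hg ?_)))
    rw [map_zero]
    exact Subtype.ext h
  obtain ⟨j, hj⟩ := exists_var hf'
  obtain ⟨n, rfl⟩ : ∃ n, d = n + 1 := ⟨d - 1, by have := j.pos; omega⟩
  refine ⟨fun l => g (MvPolynomial.X (j.succAbove l)), fun l => hi.1 (g _).2, fun P hP => ?_⟩
  have h9 : MvPolynomial.aeval (fun l : Fin n => (g (MvPolynomial.X (j.succAbove l)) : K)) P =
      g (MvPolynomial.rename j.succAbove P) :=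
    DFunLike.congr_fun (MvPolynomial.algHom_ext (f := MvPolynomial.aeval _)
      (g := (X.A i).val.comp (g.comp (MvPolynomial.rename j.succAbove))) fun l => by simp) P
  exact h9 ▸ h8 ▸ (h5 (g _)).2 (mt (h7 _).1 (not_dvd hj hP))

end DIM

theorem st_dim : St_DIM := by
  intro K _ _ X
  obtain ⟨i⟩ := X.nei
  obtain ⟨d, -, -, -, hd⟩ := DIM.noether X i
  refine ⟨d - 1, fun E => DIM.indIn X E hd, fun ⟨a, _, h⟩ => ?_⟩
  have h1 : AlgebraicIndependent ℂ a :=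
    algebraicIndependent_iff.2 fun P hP => of_not_not fun h' => (h P h').1 hP
  have h2 := h1.cardinalMk_le_trdeg
  rw [hd, Cardinal.mk_fin, Nat.cast_le] at h2
  omega

end Pool.Agent.Lib.MV.Fb
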