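import Pool.Agent.Lib.MV.FibA

open WithZero Pool.Agent.Lib.MP_e39d36_ag Pool.Agent.Lib.MP_e39d36_ag.Var

set_option linter.unusedSectionVars false
set_option linter.unusedVariables false

noncomputable section

namespace Pool.Agent.Lib.MV.Fb

namespace PRM

variable {K : Type} [Field K] [Algebra ℂ K]

lemma aeval_mem' {V : Subring K} (hV : ∀ a : ℂ, algebraMap ℂ K a ∈ V) {ι : Type} {a : ι → K}
    (h : ∀ i, a i ∈ V) (P : MvPolynomial ι ℂ) : MvPolynomial.aeval a P ∈ V := by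
  induction P using MvPolynomial.induction_on with
  | C c => simpa using hV c
  | add p q hp hq => rw [map_add]; exact add_mem hp hq
  | mul_X p i hp => rw [map_mul, MvPolynomial.aeval_X]; exact mul_mem hp (h i)

lemma cons_ne {V : Subring K} (hl : IsLoc V) (hV : ∀ a : ℂ, algebraMap ℂ K a ∈ V) {n : ℕ}
    {a : Fin n → K} (h1 : ∀ i, a i ∈ V)
    (h2 : ∀ P : MvPolynomial (Fin n) ℂ, P ≠ 0 → Un V (MvPolynomial.aeval a P)) {b : K}
    (h0 : b ≠ 0) (h3 : b ∈ V) (h5 : ¬Un V b) (P : MvPolynomial (Fin (n + 1)) ℂ) (hP : P ≠ 0) :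
    MvPolynomial.aeval (Fin.cons b a : Fin (n + 1) → K) P ≠ 0 := by
  rw [aeval_cons]
  obtain ⟨Q, h6, h7⟩ := Polynomial.exists_eq_pow_rootMultiplicity_mul_and_not_dvd
    (MvPolynomial.finSuccEquiv ℂ n P) (by simpa using hP) 0
  rw [map_zero, sub_zero] at h6 h7
  rw [h6, Polynomial.eval₂_mul, Polynomial.eval₂_X_pow, ← Q.X_mul_divX_add, add_comm (_ * _),
    Polynomial.eval₂_add, Polynomial.eval₂_C, Polynomial.eval₂_mul, Polynomial.eval₂_X]
  have h8 : Q.divX.eval₂ (MvPolynomial.aeval a).toRingHom b ∈ V := by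
    rw [Polynomial.eval₂_eq_sum]
    exact sum_mem fun n _ => mul_mem (aeval_mem' hV h1 _) (pow_mem h3 _)
  exact mul_ne_zero (pow_ne_zero _ h0) (hl.add_un (h2 _ (mt Polynomial.X_dvd_iff.2 h7))
    (mul_mem h3 h8) fun h => h5 (h.of_mul h3 h8)).1

lemma cons_tr (k : IntermediateField ℂ K) {n : ℕ} {a : Fin n → K} (h1 : ∀ i, a i ∈ k)
    (h2 : ∀ P : MvPolynomial (Fin n) ℂ, P ≠ 0 → MvPolynomial.aeval a P ≠ 0) {z : K}
    (hz : Transcendental k z) (P : MvPolynomial (Fin (n + 1)) ℂ) (hP : P ≠ 0) :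
    MvPolynomial.aeval (Fin.cons z a : Fin (n + 1) → K) P ≠ 0 := by
  rw [aeval_cons]
  let φ : MvPolynomial (Fin n) ℂ →ₐ[ℂ] k := MvPolynomial.aeval fun i => (⟨a i, h1 i⟩ : k)
  have h3 : (IsScalarTower.toAlgHom ℂ k K).comp φ = MvPolynomial.aeval a := by
    ext i
    simp [φ]
  have h4 : (algebraMap k K).comp φ.toRingHom = (MvPolynomial.aeval a).toRingHom := by
    rw [← h3]; rfl
  have h5 : Function.Injective φ.toRingHom := (injective_iff_map_eq_zero _).2 fun Q hQ => by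
    by_contra h
    refine h2 Q h ?_
    have h6 : φ Q = 0 := hQ
    rw [← h3, AlgHom.comp_apply, h6, map_zero]
  intro h
  refine hz ⟨(MvPolynomial.finSuccEquiv ℂ n P).map φ.toRingHom, ?_, ?_⟩
  · rw [Ne, Polynomial.map_eq_zero_iff h5]
    simpa using hP
  · rw [Polynomial.aeval_def, Polynomial.eval₂_map, h4, h]

end PRM

theorem st_prm : St_PRM := by
  rintro K _ _ X n hn w V y hw hd ⟨a, h1, h2⟩
  have h3 : Indep y n := ⟨a, h1, fun P hP => hd.2 _ (aeval_mem h1 P) (h2 P hP)⟩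
  have h4 : ∃ E : X.PD, X.O y ≤ X.O E.1 := by
    by_contra h
    exact hw.ne_top (top_le_iff.1 (le_trans (fun f _ => hartogs fun E hE => (h ⟨E, hE⟩).elim) hd.1))
  obtain ⟨E, hE⟩ := h4
  rcases hE.eq_or_lt with h5 | h5
  · exact ⟨E, (((isV E).eq_or_top (h5 ▸ hd.1)).resolve_right hw.ne_top).symm⟩
  · obtain ⟨x, hx⟩ := X.exists_top
    obtain ⟨b, -, h7⟩ := (h3.succ h5).succ (y := x) (hx ▸ (isV E).ne_top.lt_top)
    exact (hn ⟨b, fun _ => trivial, hx ▸ h7⟩).elim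

theorem st_two : St_TWO := by
  rintro K _ _ k v V n hv hV hk ⟨z, hz⟩ ⟨a, h1, h2⟩
  obtain ⟨b, hb, hb'⟩ := SetLike.not_le_iff_exists.1 hk
  have h0 : b ≠ 0 := by rintro rfl; exact hb' (zero_mem _)
  have h3 := PRM.cons_ne (isLoc_of_val hv.val) hV (fun i => (h1 i).2) h2 (inv_ne_zero h0)
    ((hv.val b).resolve_left hb') fun h => hb' (by simpa using h.2.2)
  exact ⟨Fin.cons z (Fin.cons b⁻¹ a), fun _ => trivial, fun P hP => un_top.2
    (PRM.cons_tr k (Fin.cases (k.inv_mem hb) fun i => (h1 i).1) h3 hz P hP)⟩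

end Pool.Agent.Lib.MV.Fb
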