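import Pool.Agent.Lib.MV.Blue

open MvPolynomial Set

set_option linter.unusedSectionVars false
set_option linter.unusedVariables false

noncomputable section

namespace Pool.Agent.Lib.MV

namespace DerB

variable (D : Dat)

/-- The coordinates as polynomials. -/
def Xp (i : Fin D.k) : Fin (D.n i + 1) → MvPolynomial (Σ i, Fin (D.n i)) ℂ :=
  Fin.cons 1 fun l => MvPolynomial.X ⟨i, l⟩

lemma X_eq (i : Fin D.k) (l : Fin (D.n i + 1)) :
    D.X i l = algebraMap (MvPolynomial (Σ i, Fin (D.n i)) ℂ) D.L (Xp D i l) := by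
  refine Fin.cases ?_ (fun l => ?_) l
  · simp [Dat.X, Xp]
  · simp [Dat.X, Xp]

lemma lin_ne (i : Fin D.k) (u : Fin (D.n i + 1) → ℂ) (hu : u ≠ 0) : ∑ l, u l • D.X i l ≠ 0 := by
  classical
  intro h
  have h1 : ∑ l, u l • Xp D i l = 0 := by
    apply IsFractionRing.injective (MvPolynomial (Σ i, Fin (D.n i)) ℂ) D.L
    rw [map_zero, ← h, map_sum]
    refine Finset.sum_congr rfl fun l _ => ?_
    rw [X_eq, Algebra.smul_def, Algebra.smul_def, map_mul, ← IsScalarTower.algebraMap_apply]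
  have h0 : u 0 = 0 := by
    have := congrArg (eval (0 : (Σ i, Fin (D.n i)) → ℂ)) h1
    simpa [Fin.sum_univ_succ, Xp] using this
  refine hu (funext fun l => Fin.cases h0 (fun l => ?_) l)
  have := congrArg (eval (Pi.single ⟨i, l⟩ 1 : (Σ i, Fin (D.n i)) → ℂ)) h1
  simpa [Fin.sum_univ_succ, Xp, h0, Pi.single_apply] using this

lemma y_ne (t : D.Vx) : D.y D.X t ≠ 0 := by
  classical
  rcases t with ⟨i, l⟩ | ⟨⟨i, a⟩, j⟩
  · have := lin_ne D i (Pi.single l 1) (by simp)
    simpa [Dat.y, Pi.single_apply] using this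
  · exact lin_ne D i _ ((D.u_ind i a).ne_zero j)

lemma Ms_empty (i : Fin D.k) (v : D.Λ) : D.Ms D.X Finset.univ v ∅ = ⊥ := by
  rw [Dat.Ms, AddSubgroup.closure_eq_bot_iff]
  rintro z ⟨τ, h, -⟩
  simpa using h ⟨i, none⟩ (Finset.mem_univ _)

/-- The starting condition of a derivation. -/
def Bas {r : ℕ} (n : ℕ) (v : Option (Fin r) → ℤ) (q : ℤ) : Prop :=
  (∀ a, v (some a) = 0 ∨ v (some a) = -1) ∧
    ((-(n : ℤ) ≤ ∑ o, v o ∧ ∑ o, v o ≤ -1) ∨ (∑ o, v o < 0 ∧ q ≤ n) ∨ q ≤ 0)

lemma base (hE : St_ELIM) (v : D.Λ) (q : Fin D.k → ℤ) (h : ∀ i, Bas (D.n i) (v i) (q i)) :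
    ExLt Finset.univ (D.Ms D.X Finset.univ v) (Fintype.card D.Sl + ∑ i, q i) := fun p hp => by
  refine hE D v p (fun i => (h i).1) ?_
  by_cases h1 : ∃ i, -(D.n i : ℤ) ≤ ∑ o, v i o ∧ ∑ o, v i o ≤ -1
  · exact Or.inl h1
  right
  have h2 : ∑ i, q i ≤ ((∑ i with ∑ o, v i o < 0, D.n i : ℕ) : ℤ) := by
    rw [Finset.sum_filter, Nat.cast_sum]
    refine Finset.sum_le_sum fun i _ => ?_
    rcases (h i).2 with h3 | h3 | h3
    · exact absurd ⟨i, h3⟩ h1
    · rw [if_pos h3.1]; exact h3.2
    · exact h3.trans (Nat.cast_nonneg _)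
  omega

lemma upd_add (v : D.Λ) (i : Fin D.k) (w c : Option (Fin (D.r i)) → ℤ) :
    Function.update v i (w + c) = Function.update v i w + Pi.single i c := by
  funext j
  by_cases h : j = i
  · subst h; simp
  · simp [h]

lemma step (hB : St_BPF) (v : D.Λ) (i : Fin D.k) (N : ℤ)
    (h0 : ∀ w p, Bas (D.n i) w p →
      ExLt Finset.univ (D.Ms D.X Finset.univ (Function.update v i w)) (N + p))
    (w : Option (Fin (D.r i)) → ℤ) (p : ℤ)
    (h : Der (D.n i) (fun c => D.Pen D.X (Pi.single i c)) w p) :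
    ExLt Finset.univ (D.Ms D.X Finset.univ (Function.update v i w)) (N + p) := by
  induction h with
  | base w p h1 h2 => exact h0 w p ⟨h1, h2⟩
  | sub w c p hc _ _ i1 i2 =>
    obtain ⟨f, g, S⟩ := hB D D.L D.X (y_ne D) _ (Function.update v i w) hc
    rw [upd_add] at i1
    rw [upd_add, upd_add, ← add_sub_assoc] at i2
    exact S.ruleB (Ms_empty D i _) i1 i2
  | quo w c p hc _ _ i1 i2 =>
    obtain ⟨f, g, S⟩ := hB D D.L D.X (y_ne D) _ (Function.update v i w) hc
    rw [upd_add] at i1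
    rw [← add_assoc] at i2
    rw [upd_add, upd_add]
    exact S.ruleA i1 i2
  | mid w c p hc _ _ i1 i2 =>
    obtain ⟨f, g, S⟩ := hB D D.L D.X (y_ne D) _ (Function.update v i w) hc
    rw [upd_add, upd_add] at i2
    rw [upd_add]
    exact S.ruleC i1 i2

lemma ind (hE : St_ELIM) (hB : St_BPF) (S : Finset (Fin D.k)) : ∀ (v : D.Λ) (q : Fin D.k → ℤ),
    (∀ i ∈ S, Der (D.n i) (fun c => D.Pen D.X (Pi.single i c)) (v i) (q i)) →
    (∀ i ∉ S, Bas (D.n i) (v i) (q i)) →
      ExLt Finset.univ (D.Ms D.X Finset.univ v) (Fintype.card D.Sl + ∑ i, q i) := by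
  induction S using Finset.induction_on with
  | empty => exact fun v q _ h => base D hE v q fun i => h i (Finset.notMem_empty i)
  | insert i S hi ih =>
    intro v q h1 h2
    have e : ∀ p : ℤ, (Fintype.card D.Sl : ℤ) + ∑ j, Function.update q i p j =
        Fintype.card D.Sl + ∑ j ∈ Finset.univ \ {i}, q j + p := fun p => by
      rw [Finset.sum_update_of_mem (Finset.mem_univ i)]; ring
    have := step D hB v i (Fintype.card D.Sl + ∑ j ∈ Finset.univ \ {i}, q j) (fun w p h => by
      rw [← e]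
      refine ih _ _ (fun j hj => ?_) fun j hj => ?_
      · have hji : j ≠ i := by rintro rfl; exact hi hj
        rw [Function.update_of_ne hji, Function.update_of_ne hji]
        exact h1 j (Finset.mem_insert_of_mem hj)
      · by_cases hji : j = i
        · subst hji
          rw [Function.update_self, Function.update_self]
          exact h
        · rw [Function.update_of_ne hji, Function.update_of_ne hji]
          exact h2 j (by simp [hji, hj])) (v i) (q i) (h1 i (Finset.mem_insert_self _ _))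
    rwa [← e, Function.update_eq_self, Function.update_eq_self] at this

end DerB

theorem st_der (hE : St_ELIM) (hB : St_BPF) : St_DER := fun D v q h =>
  DerB.ind D hE hB Finset.univ v q (fun i _ => h i) fun i hi => absurd (Finset.mem_univ i) hi

end Pool.Agent.Lib.MV
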