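import Pool.Agent.Lib.MV.Blue

open MvPolynomial Set Pool.Agent.Lib.MP_e39d36_ag

set_option linter.unusedSectionVars false
set_option linter.unusedVariables false

noncomputable section

namespace Pool.Agent.Lib.MV

namespace XiB

section gen

variable {σ F : Type} [Fintype σ] [CommRing F] [Algebra ℂ F]

/-- The chain rule. -/
lemma chain {M : Type} [AddCommGroup M] [Module F M] [Module ℂ M] [IsScalarTower ℂ F M]
    (d : Derivation ℂ F M) (z : σ → F) (P : MvPolynomial σ ℂ) :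
    ∑ v, aeval z (pderiv v P) • d (z v) = d (aeval z P) := by
  classical
  induction P using MvPolynomial.induction_on with
  | C a => simp
  | add p q hp hq => simp only [map_add, add_smul, Finset.sum_add_distrib, hp, hq]
  | mul_X p w hp =>
    simp only [Derivation.leibniz, smul_eq_mul, map_add, map_mul, aeval_X, add_smul, mul_smul,
      Finset.sum_add_distrib, ← Finset.smul_sum, hp, pderiv_X]
    rw [Finset.sum_eq_single w (fun v _ hv => by simp [Pi.single_eq_of_ne hv.symm])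
      (fun h => absurd (Finset.mem_univ w) h)]
    simp

/-- The derivative at a point along a vector. -/
def dv (z δ : σ → F) (P : MvPolynomial σ ℂ) : F := ∑ t, aeval z (pderiv t P) * δ t

variable (z δ : σ → F)

lemma dv_X (t : σ) : dv z δ (X t) = δ t := by
  classical
  rw [dv, Finset.sum_eq_single t (fun v _ hv => by simp [pderiv_X, Pi.single_eq_of_ne hv.symm])
    (fun h => absurd (Finset.mem_univ t) h)]
  simp

lemma dv_C (c : ℂ) : dv z δ (C c) = 0 := by simp [dv]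

lemma dv_sub (P Q : MvPolynomial σ ℂ) : dv z δ (P - Q) = dv z δ P - dv z δ Q := by
  simp only [dv, map_sub, sub_mul, Finset.sum_sub_distrib]

lemma dv_mul (P Q : MvPolynomial σ ℂ) :
    dv z δ (P * Q) = aeval z P * dv z δ Q + aeval z Q * dv z δ P := by
  simp only [dv, Derivation.leibniz, smul_eq_mul, map_add, map_mul, add_mul, Finset.sum_add_distrib,
    Finset.mul_sum, mul_assoc]

lemma dv_sum {ι : Type} (s : Finset ι) (P : ι → MvPolynomial σ ℂ) :
    dv z δ (∑ i ∈ s, P i) = ∑ i ∈ s, dv z δ (P i) := by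
  simp only [dv, map_sum, Finset.sum_mul]
  exact Finset.sum_comm

omit [Fintype σ] in
lemma pderiv_rename_ne {τ : Type} (f : σ → τ) {t : τ} (h : ∀ v, f v ≠ t) (P : MvPolynomial σ ℂ) :
    pderiv t (rename f P) = 0 :=
  pderiv_eq_zero_of_notMem_vars fun h' => by
    obtain ⟨v, -, hv⟩ := mem_vars_rename f P h'
    exact h v hv

lemma scale {F : Type} [Field F] [Algebra ℂ F] (z : σ → F) (c : F) {P : MvPolynomial σ ℂ} {m : ℕ}
    (h : P.IsHomogeneous m) : aeval (fun l => z l / c) P = aeval z P / c ^ m := by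
  simp only [div_eq_mul_inv, aeval_def]
  rw [eval₂_scale _ _ _ h, inv_pow]

end gen

variable (D : Dat) {F : Type} [Field F] [Algebra ℂ F] (x : ∀ i, Fin (D.n i + 1) → F)

lemma y_X_ne (t : D.Vx) : D.y D.X t ≠ 0 := by
  have inj := IsFractionRing.injective (MvPolynomial (Σ i, Fin (D.n i)) ℂ) D.L
  rcases t with ⟨i, l⟩ | ⟨⟨i, a⟩, j⟩
  · refine Fin.cases (motive := fun l => D.X i l ≠ 0) one_ne_zero (fun l => ?_) l
    exact (map_ne_zero_iff _ inj).2 (X_ne_zero _)
  · intro h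
    refine (D.u_ind i a).ne_zero j ?_
    have h1 : algebraMap (MvPolynomial (Σ i, Fin (D.n i)) ℂ) D.L
        (C (D.u i a j 0) + ∑ l : Fin (D.n i), C (D.u i a j l.succ) * X ⟨i, l⟩) = 0 := by
      rw [← h]
      simp only [Dat.y, Sum.elim_inr, Fin.sum_univ_succ, Dat.X, Fin.cons_zero, Fin.cons_succ, map_add,
        map_sum, map_mul, Algebra.smul_def, mul_one]
      rfl
    have h2 := (map_eq_zero_iff _ inj).1 h1
    have h3 : D.u i a j 0 = 0 := by simpa using congrArg (eval 0) h2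
    funext l
    refine Fin.cases h3 (fun l => ?_) l
    have h4 := congrArg (eval (Pi.single (M := fun _ => ℂ) (⟨i, l⟩ : Σ i, Fin (D.n i)) 1)) h2
    simp only [map_add, map_sum, map_mul, eval_C, eval_X, h3, zero_add] at h4
    rw [map_zero] at h4
    rw [Finset.sum_eq_single l (fun v _ hv => by
      rw [Pi.single_eq_of_ne ((sigma_mk_injective (β := fun i => Fin (D.n i)) (i := i)).ne hv),
        mul_zero])
      (fun h => absurd (Finset.mem_univ l) h), Pi.single_eq_same, mul_one] at h4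
    exact h4

lemma aeval_Fp : aeval (fun w : D.Hx => x w.1 w.2) D.Fp = D.Fx x := by
  simp only [Dat.Fp, Dat.Fx, map_sum, map_prod, aeval_rename]
  rfl

lemma phi_inl (i : Fin D.k) (l : Fin (D.n i + 1)) : D.φ x (.inl ⟨i, l⟩) =
    ∑ c, (∏ j ∈ Finset.univ.erase i, aeval (x j) (D.G c j)) * aeval (x i) (pderiv l (D.G c i)) := by
  simp only [Dat.φ, Sum.elim_inl, Dat.Fp, map_sum]
  refine Finset.sum_congr rfl fun c _ => ?_
  have h0 : pderiv (⟨i, l⟩ : D.Hx) (∏ j ∈ Finset.univ.erase i, rename (Sigma.mk j) (D.G c j)) = 0 := by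
    refine Finset.prod_induction _ (fun P : MvPolynomial D.Hx ℂ => pderiv (⟨i, l⟩ : D.Hx) P = 0)
      (fun p q hp hq => by rw [Derivation.leibniz, hp, hq, smul_zero, smul_zero, add_zero])
      (Derivation.map_one_eq_zero _) fun j hj => ?_
    exact pderiv_rename_ne _ (fun v e => Finset.ne_of_mem_erase hj (congrArg Sigma.fst e)) _
  rw [← Finset.mul_prod_erase _ _ (Finset.mem_univ i), Derivation.leibniz, h0, smul_zero, zero_add,
    pderiv_rename sigma_mk_injective, smul_eq_mul, map_mul, map_prod]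
  simp only [aeval_rename]
  rfl

lemma euler (i : Fin D.k) : ∑ l, D.φ x (.inl ⟨i, l⟩) * x i l = (D.n i + 1) • D.Fx x := by
  simp only [phi_inl, Finset.sum_mul, Dat.Fx, Finset.smul_sum]
  rw [Finset.sum_comm]
  refine Finset.sum_congr rfl fun c _ => ?_
  have h := congrArg (aeval (x i)) (D.G_hom c i).sum_X_mul_pderiv
  simp only [map_sum, map_mul, aeval_X, map_nsmul] at h
  rw [← Finset.mul_prod_erase _ _ (Finset.mem_univ i), ← smul_mul_assoc, ← h, Finset.sum_mul]
  exact Finset.sum_congr rfl fun l _ => by ring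

lemma beta_single (t : D.Vx) (c : F) : D.β x (Pi.single t c) =
    (c • KaehlerDifferential.D ℂ F (D.y x t), Pi.single (D.sl t) (c * D.y x t)) := by
  refine Prod.ext ?_ (funext fun μ => ?_)
  · change ∑ t', (Pi.single t c : D.Vx → F) t' • KaehlerDifferential.D ℂ F (D.y x t') = _
    rw [Finset.sum_eq_single t (fun v _ hv => by rw [Pi.single_eq_of_ne hv, zero_smul])
      (fun h => absurd (Finset.mem_univ t) h), Pi.single_eq_same]
  · change ∑ t' with D.sl t' = μ, (Pi.single t c : D.Vx → F) t' * D.y x t' =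
      (Pi.single (D.sl t) (c * D.y x t) : D.Sl → F) μ
    rw [Finset.sum_filter, Finset.sum_eq_single t
      (fun v _ hv => by rw [Pi.single_eq_of_ne hv, zero_mul, ite_self])
      (fun h => absurd (Finset.mem_univ t) h), Pi.single_eq_same, Pi.single_apply]
    exact if_congr eq_comm rfl rfl

lemma y_inr (w : Σ i, Fin (D.r i)) (j : Fin 2) :
    D.y x (.inr (w, j)) = ∑ l, D.u w.1 w.2 j l • x w.1 l := rfl

lemma beta_rho (w : Σ i, Fin (D.r i)) : D.β x (D.ρ x w) = 0 := by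
  rw [Dat.ρ, map_add, map_sub, map_sum]
  simp only [beta_single]
  have hd : ∀ j, KaehlerDifferential.D ℂ F (D.y x (.inr (w, j))) =
      ∑ l, D.u w.1 w.2 j l • KaehlerDifferential.D ℂ F (D.y x (.inl ⟨w.1, l⟩)) := fun j => by
    rw [y_inr, map_sum]
    exact Finset.sum_congr rfl fun l _ => Derivation.map_smul _ _ _
  refine Prod.ext ?_ ?_
  · simp only [Prod.fst_add, Prod.fst_sub, Prod.fst_sum, Prod.fst_zero, sub_smul, hd, Finset.smul_sum,
      Finset.sum_sub_distrib, smul_assoc, smul_comm (D.y x _) (D.u _ _ _ _)]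
    abel
  · simp only [Prod.snd_add, Prod.snd_sub, Prod.snd_sum, Prod.snd_zero]
    have e1 : D.sl (.inr (w, 1)) = D.sl (.inr (w, 0)) := rfl
    have e2 : ∀ l, D.sl (.inl ⟨w.1, l⟩) = ⟨w.1, none⟩ := fun l => rfl
    simp only [e2]
    rw [e1, mul_comm, sub_self, zero_add]
    refine (map_sum (AddMonoidHom.single (fun _ : D.Sl => F) ⟨w.1, none⟩) _ _).symm.trans
      ((congrArg _ ?_).trans (map_zero _))
    have e3 : ∀ j, ∑ l, D.u w.1 w.2 j l • D.y x (.inl ⟨w.1, l⟩) = D.y x (.inr (w, j)) := fun j => rfl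
    simp only [sub_mul, Finset.sum_sub_distrib, smul_mul_assoc, ← mul_smul_comm, ← Finset.mul_sum, e3]
    ring

lemma beta_phi (h : D.Fx x = 0) : D.β x (D.φ x) = 0 := by
  refine Prod.ext ?_ (funext fun μ => ?_)
  · change ∑ t, D.φ x t • KaehlerDifferential.D ℂ F (D.y x t) = 0
    rw [Fintype.sum_sum_type]
    have e := chain (KaehlerDifferential.D ℂ F) (fun w : D.Hx => x w.1 w.2) D.Fp
    rw [aeval_Fp, h, map_zero] at e
    simp only [Dat.φ, Sum.elim_inl, Sum.elim_inr, zero_smul, Finset.sum_const_zero, add_zero]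
    exact e
  · change ∑ t with D.sl t = μ, D.φ x t * D.y x t = 0
    rw [Finset.sum_filter, Fintype.sum_sum_type, Fintype.sum_sigma]
    have e1 : ∀ v, D.φ x (.inr v) = 0 := fun v => rfl
    simp only [e1, zero_mul, ite_self, Finset.sum_const_zero, add_zero]
    refine Finset.sum_eq_zero fun i _ => ?_
    have e2 : ∀ l, D.sl (.inl ⟨i, l⟩) = ⟨i, none⟩ := fun l => rfl
    simp only [e2]
    split_ifs
    · exact (euler D x i).trans (by rw [h, smul_zero])
    · exact Finset.sum_const_zero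

/-- The coordinates as linear forms in the coordinates of the projective spaces. -/
def Lf : D.Vx → MvPolynomial D.Vx ℂ :=
  Sum.elim (fun v => X (.inl v)) fun v => ∑ l, C (D.u v.1.1 v.1.2 v.2 l) * X (.inl ⟨v.1.1, l⟩)

/-- The slot of the projective space under a slot. -/
def base (μ : D.Sl) : D.Sl := ⟨μ.1, none⟩

lemma aeval_Lf (τ : D.Ch) (t : D.Vx) :
    aeval (D.rat x τ) (Lf D t) = D.y x t / D.y x (τ.1 (base D (D.sl t))) := by
  rcases t with v | ⟨w, j⟩
  · exact aeval_X _ _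
  · simp only [Lf, Sum.elim_inr, map_sum, map_mul, aeval_C, aeval_X, y_inr, Finset.sum_div,
      Algebra.smul_def, mul_div_assoc]
    rfl

lemma rat_inl (τ : D.Ch) : D.rat x τ ∘ Sum.inl =
    fun w : D.Hx => (fun i l => x i l / D.y x (τ.1 ⟨i, none⟩)) w.1 w.2 := rfl

lemma Fx_scale (c : Fin D.k → F) :
    D.Fx (fun i l => x i l / c i) = D.Fx x / ∏ i, c i ^ (D.n i + 1) := by
  simp only [Dat.Fx, Finset.sum_div, ← Finset.prod_div_distrib]
  exact Finset.sum_congr rfl fun e _ => Finset.prod_congr rfl fun i _ => scale _ _ (D.G_hom e i)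

lemma phi_scale (c : Fin D.k → F) (hc : ∀ i, c i ≠ 0) (v : D.Hx) :
    D.φ (fun i l => x i l / c i) (.inl v) = D.φ x (.inl v) * c v.1 / ∏ i, c i ^ (D.n i + 1) := by
  obtain ⟨i, l⟩ := v
  simp only [phi_inl, Finset.sum_div, Finset.sum_mul]
  refine Finset.sum_congr rfl fun e _ => ?_
  rw [scale _ _ (D.G_hom e i).pderiv, Finset.prod_congr rfl fun j _ => scale (x j) (c j) (D.G_hom e j),
    Finset.prod_div_distrib, ← Finset.mul_prod_erase _ _ (Finset.mem_univ i), Nat.add_sub_cancel]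
  have h1 := hc i
  have h2 : ∏ j ∈ Finset.univ.erase i, c j ^ (D.n j + 1) ≠ 0 :=
    Finset.prod_ne_zero_iff.2 fun j _ => pow_ne_zero _ (hc j)
  field_simp
  ring

/-- The product of the chosen forms. -/
def Qp (τ : D.Ch) : MvPolynomial D.Vx ℂ := ∏ i, ∏ a, Lf D (τ.1 ⟨i, some a⟩)

lemma aeval_Qp (hy : ∀ t, D.y x t ≠ 0) (τ : D.Ch) : aeval (D.rat x τ) (Qp D τ) =
    (∏ i, D.kap x τ i) / ∏ i, D.y x (τ.1 ⟨i, none⟩) ^ (D.n i + 1) := by
  simp only [Qp, map_prod, aeval_Lf, τ.2]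
  rw [← Finset.prod_div_distrib]
  refine Finset.prod_congr rfl fun i _ => ?_
  have h := hy (τ.1 ⟨i, none⟩)
  have e : ∀ a, base D ⟨i, some a⟩ = ⟨i, none⟩ := fun a => rfl
  simp only [e]
  rw [Finset.prod_div_distrib, Finset.prod_const, Finset.card_univ, Fintype.card_fin, Dat.kap,
    zpow_sub₀ h, zpow_natCast, show (D.n i : ℤ) + 1 = ((D.n i + 1 : ℕ) : ℤ) by push_cast; rfl,
    zpow_natCast]
  field_simp

lemma gen_kap (τ : D.Ch) : D.gen x D.κ τ = ∏ i, D.kap x τ i := by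
  rw [Dat.gen, Dat.gA, Fintype.prod_sigma]
  refine Finset.prod_congr rfl fun i _ => ?_
  rw [Fintype.prod_option]
  simp only [Dat.κ, kz, Option.elim_none, Option.elim_some, zpow_one, Dat.kap]

lemma kap_ne (hy : ∀ t, D.y x t ≠ 0) (τ : D.Ch) : ∏ i, D.kap x τ i ≠ 0 :=
  Finset.prod_ne_zero_iff.2 fun i _ => mul_ne_zero (zpow_ne_zero _ (hy _))
    (Finset.prod_ne_zero_iff.2 fun a _ => hy _)

lemma xi_single (τ : D.Ch) (δ : D.Vx → F) (t : D.Vx) (c : F) :
    D.ξ x τ δ (Pi.single t c) = c * (D.y x (τ.1 (D.sl t)) * δ t) := by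
  rw [Dat.ξ, Fintype.linearCombination_apply_single, smul_eq_mul]

variable {D x} {τ : D.Ch} {δ : D.Vx → F}

lemma xi_rho (hy : ∀ t, D.y x t ≠ 0) (h : D.Drv x τ δ) (w : Σ i, Fin (D.r i)) :
    D.ξ x τ δ (D.ρ x w) = 0 := by
  have e1 : ∀ j, D.sl (.inr (w, j)) = ⟨w.1, some w.2⟩ := fun j => rfl
  have e2 : ∀ l, D.sl (.inl ⟨w.1, l⟩) = ⟨w.1, none⟩ := fun l => rfl
  have e3 : base D ⟨w.1, some w.2⟩ = ⟨w.1, none⟩ := rfl
  have h1 := h (X (.inr (w, 0)) * Lf D (.inr (w, 1)) - X (.inr (w, 1)) * Lf D (.inr (w, 0))) 0 (by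
    simp only [map_sub, map_mul, aeval_X, aeval_Lf, Dat.rat, e1, map_zero, mul_zero]
    ring)
  have h2 : ∀ j, dv (D.rat x τ) δ (Lf D (.inr (w, j))) =
      ∑ l, D.u w.1 w.2 j l • δ (.inl ⟨w.1, l⟩) := fun j => by
    simp only [Lf, Sum.elim_inr, dv_sum, dv_mul, dv_C, dv_X, aeval_C, mul_zero, add_zero,
      Algebra.smul_def]
  change dv _ _ _ = _ at h1
  simp only [dv_sub, dv_mul, dv_X, h2, aeval_X, aeval_Lf, Dat.rat, e1, e3, map_zero] at h1
  rw [Dat.ρ, map_add, map_sub, map_sum]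
  simp only [xi_single, e1, e2, sub_mul, Finset.sum_sub_distrib, smul_mul_assoc, ← mul_smul_comm,
    ← Finset.mul_sum]
  have a1 := hy (τ.1 ⟨w.1, none⟩)
  have a2 := hy (τ.1 ⟨w.1, some w.2⟩)
  field_simp at h1
  linear_combination h1

lemma xi_phi (hy : ∀ t, D.y x t ≠ 0) (h : D.Drv x τ δ) : D.ξ x τ δ (D.φ x) = D.gen x D.κ τ := by
  have h1 := h (rename Sum.inl D.Fp) (Qp D τ) (by
    rw [aeval_rename, rat_inl, aeval_Fp D fun i l => D.X i l / D.y D.X (τ.1 ⟨i, none⟩), Fx_scale,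
      aeval_Qp D _ (y_X_ne D)]
    have e : D.f D.X τ = D.Fx D.X / ∏ i, D.kap D.X τ i := by
      simp only [Dat.f, Dat.Fx, Finset.sum_div, Finset.prod_div_distrib]
    rw [e, div_mul_div_cancel₀ (kap_ne D _ (y_X_ne D) τ)])
  have h2 : ∀ v, pderiv (Sum.inr v : D.Vx) (rename Sum.inl D.Fp) = 0 := fun v =>
    pderiv_rename_ne _ (fun _ => Sum.inl_ne_inr) _
  have h3 : ∀ v : D.Hx, aeval (D.rat x τ) (pderiv (Sum.inl v : D.Vx) (rename Sum.inl D.Fp)) =
      D.φ x (.inl v) * D.y x (τ.1 ⟨v.1, none⟩) / ∏ i, D.y x (τ.1 ⟨i, none⟩) ^ (D.n i + 1) := fun v => by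
    rw [pderiv_rename Sum.inl_injective, aeval_rename, rat_inl]
    exact phi_scale D x (fun i => D.y x (τ.1 ⟨i, none⟩)) (fun i => hy _) v
  rw [Fintype.sum_sum_type, aeval_Qp D x hy] at h1
  simp only [h2, h3, map_zero, zero_mul, Finset.sum_const_zero, add_zero, div_mul_eq_mul_div,
    ← Finset.sum_div] at h1
  have h4 : ∏ i, D.y x (τ.1 ⟨i, none⟩) ^ (D.n i + 1) ≠ 0 :=
    Finset.prod_ne_zero_iff.2 fun j _ => pow_ne_zero _ (hy _)
  rw [div_left_inj' h4] at h1
  rw [gen_kap, ← h1, Dat.ξ, Fintype.linearCombination_apply, Fintype.sum_sum_type]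
  have e1 : ∀ v, D.φ x (.inr v) = 0 := fun v => rfl
  simp only [e1, zero_mul, Finset.sum_const_zero, add_zero, smul_eq_mul, mul_assoc]
  rfl

lemma delta_zero (h : D.Drv x τ δ) (μ : D.Sl) : δ (τ.1 μ) = 0 := by
  have h1 := h (X (τ.1 μ) - C 1) 0 (by
    simp only [map_sub, aeval_X, Dat.rat, τ.2, map_one, map_zero, mul_zero]
    rw [div_self (y_X_ne D _), sub_self])
  change dv _ _ _ = _ at h1
  rwa [dv_sub, dv_X, dv_C, sub_zero, map_zero] at h1

end XiB

theorem st_xi : St_XI := fun D F _ _ x hy =>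
  ⟨XiB.beta_rho D x, XiB.beta_phi D x, fun τ δ h =>
    ⟨XiB.delta_zero h, XiB.xi_rho hy h, XiB.xi_phi hy h⟩⟩

end Pool.Agent.Lib.MV
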