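import Pool.Agent.Lib.MV.Basic
import Pool.Agent.Lib.MV.B_XI

open MvPolynomial Set Pool.Agent.Lib.MP_e39d36_ag

set_option linter.unusedSectionVars false
set_option linter.unusedVariables false

noncomputable section

namespace Pool.Agent.Lib.MV

namespace DfB

variable (D : Dat) {F : Type} [Field F] [Algebra ℂ F] (x : ∀ i, Fin (D.n i + 1) → F)

lemma f_mem (hK : St_KAP) (hy : ∀ t, D.y x t ≠ 0) (τ : D.Ch) : D.f x τ ∈ D.B x τ := by
  refine sum_mem fun c _ => prod_mem fun i _ => ?_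
  have h := hK D F x hy τ i Finset.univ (D.n i + 1) (D.G c i) (D.G_hom c i) fun a _ => D.G_p c i a
  rw [Finset.card_univ, Fintype.card_fin, Nat.cast_add, Nat.cast_one] at h
  exact h

/-- The differential of an affine coordinate in terms of the homogeneous ones. -/
def e (τ : D.Ch) (t : D.Vx) : D.Vx → F :=
  Pi.single t (D.y x (τ.1 (D.sl t)))⁻¹ -
    Pi.single (τ.1 (D.sl t)) (D.rat x τ t * (D.y x (τ.1 (D.sl t)))⁻¹)

variable {D x}

lemma e_mem (hy : ∀ t, D.y x t ≠ 0) (τ : D.Ch) (t t' : D.Vx) :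
    e D x τ t t' * D.y x (τ.1 (D.sl t')) ∈ D.B x τ := by
  rw [e, Pi.sub_apply, sub_mul]
  refine sub_mem ?_ ?_
  · by_cases h : t' = t
    · rw [h, Pi.single_eq_same, inv_mul_cancel₀ (hy _)]
      exact one_mem _
    · rw [Pi.single_eq_of_ne h, zero_mul]
      exact zero_mem _
  · by_cases h : t' = τ.1 (D.sl t)
    · rw [h, Pi.single_eq_same, τ.2, mul_assoc, inv_mul_cancel₀ (hy _), mul_one]
      exact Dat.rat_mem τ t
    · rw [Pi.single_eq_of_ne h, zero_mul]
      exact zero_mem _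

lemma beta_e (hy : ∀ t, D.y x t ≠ 0) (τ : D.Ch) (t : D.Vx) :
    D.β x (e D x τ t) = (KaehlerDifferential.D ℂ F (D.rat x τ t), 0) := by
  have h0 := hy (τ.1 (D.sl t))
  have h1 : D.y x t = D.rat x τ t * D.y x (τ.1 (D.sl t)) := (div_mul_cancel₀ _ h0).symm
  rw [e, map_sub, XiB.beta_single, XiB.beta_single, τ.2, Prod.mk_sub_mk]
  refine Prod.ext ?_ ?_
  · have h2 := congrArg (KaehlerDifferential.D ℂ F) h1
    rw [Derivation.leibniz] at h2
    change _ • _ - _ • _ = KaehlerDifferential.D ℂ F (D.rat x τ t)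
    rw [h2, smul_add, smul_smul, smul_smul, inv_mul_cancel₀ h0, one_smul, mul_comm,
      add_sub_cancel_left]
  · change _ - _ = (0 : D.Sl → F)
    rw [mul_assoc, inv_mul_cancel₀ h0, mul_one, mul_comm, ← div_eq_mul_inv]
    exact sub_self _

lemma xi_e (hy : ∀ t, D.y x t ≠ 0) {τ : D.Ch} {δ : D.Vx → F} (h : D.Drv x τ δ) (t : D.Vx) :
    D.ξ x τ δ (e D x τ t) = δ t := by
  rw [e, map_sub, XiB.xi_single, XiB.xi_single, XiB.delta_zero h, mul_zero, mul_zero, sub_zero,
    ← mul_assoc, inv_mul_cancel₀ (hy _), one_mul]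

end DfB

theorem st_df (hK : St_KAP) : St_DF := fun D K _ _ M τ => by
  have hy := M.hyp.ne
  obtain ⟨p, hp⟩ := Dat.mem_B_iff.1 (DfB.f_mem D D.X hK Dat.yX_ne τ)
  refine ⟨∑ t, aeval (D.rat M.x τ) (pderiv t p) • DfB.e D M.x τ t, fun t' => ?_, ?_, fun δ h => ?_⟩
  · rw [Finset.sum_apply, Finset.sum_mul]
    refine sum_mem fun t _ => ?_
    rw [Pi.smul_apply, smul_eq_mul, mul_assoc]
    exact mul_mem (Dat.aeval_mem_B _) (DfB.e_mem hy τ t t')
  · have h0 : aeval (D.rat M.x τ) p = 0 := (M.hyp.ker τ p).2 ⟨1, one_mem _, by rw [hp, mul_one]⟩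
    have h1 := XiB.chain (KaehlerDifferential.D ℂ K) (D.rat M.x τ) p
    rw [h0, map_zero] at h1
    rw [map_sum]
    simp only [map_smul, DfB.beta_e hy, Prod.smul_mk, smul_zero]
    refine Prod.ext ?_ ?_
    · rw [Prod.fst_sum]
      exact h1
    · rw [Prod.snd_sum]
      exact Finset.sum_const_zero
  · have h1 := h p 1 (by rw [hp, map_one, mul_one])
    rw [map_one] at h1
    rw [map_sum]
    simp only [map_smul, DfB.xi_e hy h, smul_eq_mul]
    exact h1

end Pool.Agent.Lib.MV
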