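import Pool.Agent.Lib.MV.Basic

open MvPolynomial Set WithZero Pool.Agent.Lib.MP_e39d36_ag Pool.Agent.Lib.MP_e39d36_ag.Var
  Pool.Agent.Lib.MP_cc3443_ag Pool.Agent.Lib.DU

set_option linter.unusedSectionVars false
set_option linter.unusedVariables false

noncomputable section

namespace Pool.Agent.Lib.MV

namespace DrvB

section abstract

variable {R A : Type} [CommRing R] [CommRing A] [Algebra ℂ R] [Algebra ℂ A]

/-- First order deviation of `a` from the section `σ`, measured in units of `f`. -/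
def Rel (f : R) (ψ : R →ₐ[ℂ] A) (σ : A →ₐ[ℂ] R ⧸ Ideal.span {f ^ 2}) (a : R) (e : A) : Prop :=
  ∃ d : R, Ideal.Quotient.mk (Ideal.span {f ^ 2}) a - σ (ψ a) =
    Ideal.Quotient.mk (Ideal.span {f ^ 2}) (f * d) ∧ ψ d = e

variable {f : R} {ψ : R →ₐ[ℂ] A} {σ : A →ₐ[ℂ] R ⧸ Ideal.span {f ^ 2}}

lemma mk_sq (c : R) : Ideal.Quotient.mk (Ideal.span {f ^ 2}) (f ^ 2 * c) = 0 :=
  Ideal.Quotient.eq_zero_iff_mem.2 (Ideal.mul_mem_right _ _ (Ideal.subset_span rfl))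

lemma Rel.uniq [IsDomain R] (hf : f ≠ 0) (h0 : ψ f = 0) {a : R} {e e' : A}
    (h : Rel f ψ σ a e) (h' : Rel f ψ σ a e') : e = e' := by
  obtain ⟨d, h1, rfl⟩ := h
  obtain ⟨d', h2, rfl⟩ := h'
  have h3 := Ideal.Quotient.eq.1 (h1.symm.trans h2)
  obtain ⟨c, hc⟩ := Ideal.mem_span_singleton'.1 h3
  have h4 : d - d' = f * c := mul_left_cancel₀ hf (by linear_combination -hc)
  have h5 : ψ (d - d') = 0 := by rw [h4, map_mul, h0, zero_mul]
  rwa [map_sub, sub_eq_zero] at h5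

lemma Rel.const (c : ℂ) : Rel f ψ σ (algebraMap ℂ R c) 0 := by
  refine ⟨0, ?_, map_zero _⟩
  rw [ψ.commutes, σ.commutes, mul_zero, map_zero, sub_eq_zero]
  rfl

lemma Rel.add {a b : R} {e e' : A} (h : Rel f ψ σ a e) (h' : Rel f ψ σ b e') :
    Rel f ψ σ (a + b) (e + e') := by
  obtain ⟨d, h1, rfl⟩ := h
  obtain ⟨d', h2, rfl⟩ := h'
  refine ⟨d + d', ?_, map_add _ _ _⟩
  simp only [map_add, map_mul] at h1 h2 ⊢
  linear_combination h1 + h2

lemma Rel.mul {a b : R} {e e' : A} (h : Rel f ψ σ a e) (h' : Rel f ψ σ b e') :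
    Rel f ψ σ (a * b) (e * ψ b + ψ a * e') := by
  obtain ⟨d, h1, rfl⟩ := h
  obtain ⟨d', h2, rfl⟩ := h'
  refine ⟨d * b + a * d', ?_, by simp only [map_add, map_mul]⟩
  have h3 := mk_sq (f := f) (d * d')
  simp only [map_add, map_mul, map_pow] at h1 h2 h3 ⊢
  linear_combination Ideal.Quotient.mk (Ideal.span {f ^ 2}) a * h2 + σ (ψ b) * h1 -
    Ideal.Quotient.mk (Ideal.span {f ^ 2}) f * Ideal.Quotient.mk (Ideal.span {f ^ 2}) d * h2 - h3

lemma Rel.f_mul (h0 : ψ f = 0) (b : R) : Rel f ψ σ (f * b) (ψ b) :=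
  ⟨b, by rw [map_mul ψ, h0, zero_mul, map_zero, sub_zero], rfl⟩

lemma exists_sec [Algebra.FormallySmooth ℂ A] (ψ : R →ₐ[ℂ] A) (hs : Function.Surjective ψ)
    (h0 : ψ f = 0) (hk : ∀ a, ψ a = 0 → ∃ b, a = f * b) :
    ∃ σ : A →ₐ[ℂ] R ⧸ Ideal.span {f ^ 2}, ∀ a, ∃ e, Rel f ψ σ a e := by
  let g : (R ⧸ Ideal.span {f ^ 2}) →ₐ[ℂ] A := Ideal.Quotient.liftₐ _ ψ fun a ha => by
    obtain ⟨c, rfl⟩ := Ideal.mem_span_singleton'.1 ha
    rw [map_mul, map_pow, h0]; ring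
  have hg : ∀ a, g (Ideal.Quotient.mk _ a) = ψ a := fun a => rfl
  have hk' : ∀ w, g w = 0 → ∃ d, w = Ideal.Quotient.mk (Ideal.span {f ^ 2}) (f * d) := fun w hw => by
    obtain ⟨a, rfl⟩ := Ideal.Quotient.mk_surjective w
    obtain ⟨b, rfl⟩ := hk a hw
    exact ⟨b, rfl⟩
  have hsurj : Function.Surjective g := fun e => by
    obtain ⟨a, rfl⟩ := hs e
    exact ⟨_, hg a⟩
  have hnil : IsNilpotent (RingHom.ker (g : (R ⧸ Ideal.span {f ^ 2}) →+* A)) := by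
    refine ⟨2, ?_⟩
    rw [pow_two (RingHom.ker _), Ideal.zero_eq_bot, eq_bot_iff, Ideal.mul_le]
    intro r hr s hs
    obtain ⟨d, rfl⟩ := hk' r hr
    obtain ⟨d', rfl⟩ := hk' s hs
    rw [Ideal.mem_bot, ← map_mul, ← mk_sq (f := f) (d * d')]
    congr 1; ring
  refine ⟨Algebra.FormallySmooth.liftOfSurjective (AlgHom.id ℂ A) g hsurj hnil, fun a => ?_⟩
  obtain ⟨d, hd⟩ := hk' (Ideal.Quotient.mk _ a -
    Algebra.FormallySmooth.liftOfSurjective (AlgHom.id ℂ A) g hsurj hnil (ψ a)) (by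
      rw [map_sub, Algebra.FormallySmooth.liftOfSurjective_apply, hg]
      exact sub_self _)
  exact ⟨_, d, hd, rfl⟩

lemma rel_aeval {ι : Type} [Fintype ι] [DecidableEq ι] {r : ι → R} {δ : ι → A}
    (h : ∀ t, Rel f ψ σ (r t) (δ t)) (P : MvPolynomial ι ℂ) :
    Rel f ψ σ (aeval r P) (∑ t, ψ (aeval r (pderiv t P)) * δ t) := by
  induction P using MvPolynomial.induction_on with
  | C c => simpa using Rel.const (f := f) (ψ := ψ) (σ := σ) c
  | add p q hp hq => simpa [add_mul, Finset.sum_add_distrib] using hp.add hq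
  | mul_X p j hp =>
    have h1 := hp.mul (h j)
    have e : ∑ t, ψ (aeval r (pderiv t (p * X j))) * δ t =
        (∑ t, ψ (aeval r (pderiv t p)) * δ t) * ψ (r j) + ψ (aeval r p) * δ j := by
      simp only [pderiv_mul, map_add, map_mul, aeval_X, add_mul, Finset.sum_add_distrib,
        Finset.sum_mul]
      congr 1
      · exact Finset.sum_congr rfl fun t _ => by ring
      · rw [Finset.sum_eq_single j (fun t _ ht => by simp [pderiv_X, Ne.symm ht]) (by simp)]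
        simp
    rw [e, map_mul, aeval_X]
    exact h1

lemma exists_drv [IsDomain R] [Algebra.FormallySmooth ℂ A] (ψ : R →ₐ[ℂ] A)
    (hs : Function.Surjective ψ) (hf : f ≠ 0) (h0 : ψ f = 0) (hk : ∀ a, ψ a = 0 → ∃ b, a = f * b)
    {ι : Type} [Fintype ι] [DecidableEq ι] (r : ι → R) :
    ∃ δ : ι → A, ∀ P Q : MvPolynomial ι ℂ, aeval r P = f * aeval r Q →
      ∑ t, ψ (aeval r (pderiv t P)) * δ t = ψ (aeval r Q) := by
  obtain ⟨σ, hσ⟩ := exists_sec ψ hs h0 hk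
  choose δ hδ using fun t => hσ (r t)
  refine ⟨δ, fun P Q h => Rel.uniq hf h0 (rel_aeval hδ P) ?_⟩
  rw [h]
  exact Rel.f_mul h0 _

end abstract

variable {L K : Type} [Field L] [Field K] [Algebra ℂ L] [Algebra ℂ K]

/-- Fractions whose denominator restricts to a unit of `T`. -/
def RR (B O : Subalgebra ℂ L) (ψ : L →ₗ[ℂ] K) (T : Subring K) (hB : B ≤ O) (h1 : ψ 1 = 1)
    (hm : ∀ a ∈ O, ∀ b ∈ O, ψ (a * b) = ψ a * ψ b) : Subalgebra ℂ L where
  carrier := {w | ∃ s ∈ B, Un T (ψ s) ∧ s * w ∈ B}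
  mul_mem' := by
    rintro x y ⟨a, h1, h2, h3⟩ ⟨b, h4, h5, h6⟩
    refine ⟨a * b, mul_mem h1 h4, by rw [hm a (hB h1) b (hB h4)]; exact h2.mul h5, ?_⟩
    rw [mul_mul_mul_comm]
    exact mul_mem h3 h6
  add_mem' := by
    rintro x y ⟨a, h1, h2, h3⟩ ⟨b, h4, h5, h6⟩
    refine ⟨a * b, mul_mem h1 h4, by rw [hm a (hB h1) b (hB h4)]; exact h2.mul h5, ?_⟩
    have e : a * b * (x + y) = b * (a * x) + a * (b * y) := by ring
    rw [e]
    exact add_mem (mul_mem h4 h3) (mul_mem h1 h6)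
  algebraMap_mem' c := ⟨1, one_mem _, by rw [h1]; exact Un.one, by
    rw [one_mul]; exact B.algebraMap_mem c⟩

end DrvB

open DrvB in
theorem st_drv (hPSI : St_PSI) : St_DRV := by
  intro D K _ _ M z τ hle
  classical
  obtain ⟨O, ψ, hψ⟩ := hPSI D K M
  have := M.fs z
  have hloc := M.locOf hle
  have hs0 : ∀ μ, τ.1 μ ∈ Finset.univ.image τ.1 := fun μ =>
    Finset.mem_image_of_mem _ (Finset.mem_univ _)
  have hB : D.B D.X τ ≤ O := Dat.Bs_image (x := D.X) (τ := τ) ▸ hψ.le _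
  have hmap : ∀ b ∈ D.B D.X τ, ψ b ∈ D.B M.x τ := by
    have := hψ.map (Finset.univ.image τ.1)
    rwa [Dat.Bs_image, Dat.Bs_image] at this
  have hsurj : ∀ b ∈ D.B M.x τ, ∃ b' ∈ D.B D.X τ, ψ b' = b := by
    have := hψ.surj (Finset.univ.image τ.1)
    rwa [Dat.Bs_image, Dat.Bs_image] at this
  have hker : ∀ b ∈ D.B D.X τ, ψ b = 0 → ∃ b' ∈ D.B D.X τ, b = D.f D.X τ * b' := by
    have := hψ.ker (Finset.univ.image τ.1) τ hs0
    rwa [Dat.Bs_image] at this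
  let R : Subalgebra ℂ D.L := RR (D.B D.X τ) O ψ (M.X.O z) hB hψ.one hψ.mul
  have hne : ∀ s, Un (M.X.O z) (ψ s) → s ≠ 0 := fun s hs h0 => hs.1 (by rw [h0, map_zero])
  have hBR : ∀ b ∈ D.B D.X τ, b ∈ R := fun b hb =>
    ⟨1, one_mem _, by rw [hψ.one]; exact Un.one, by rwa [one_mul]⟩
  have hdiv : ∀ s ∈ D.B D.X τ, Un (M.X.O z) (ψ s) → ∀ a ∈ D.B D.X τ, s⁻¹ * a ∈ R :=
    fun s h1 h2 a ha => ⟨s, h1, h2, by rwa [mul_inv_cancel_left₀ (hne s h2)]⟩
  have hRO : ∀ w ∈ R, w ∈ O := by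
    rintro w ⟨s, h1, h2, h3⟩
    have := mul_mem (hψ.inv s (hB h1) h2.1) (hB h3)
    rwa [inv_mul_cancel_left₀ (hne s h2)] at this
  have hRT : ∀ w ∈ R, ψ w ∈ M.X.O z := by
    rintro w hw
    obtain ⟨s, h1, h2, h3⟩ := id hw
    refine h2.mem_of_mul ?_
    rw [← hψ.mul s (hB h1) w (hRO w hw)]
    exact hle (hmap _ h3)
  let φ : R →ₐ[ℂ] M.X.O z :=
    { toFun := fun w => ⟨ψ w.1, hRT _ w.2⟩
      map_one' := Subtype.ext hψ.one
      map_mul' := fun a b => Subtype.ext (hψ.mul _ (hRO _ a.2) _ (hRO _ b.2))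
      map_zero' := Subtype.ext (map_zero ψ)
      map_add' := fun a b => Subtype.ext (map_add ψ _ _)
      commutes' := fun c => Subtype.ext (by
        show ψ (algebraMap ℂ D.L c) = algebraMap ℂ K c
        rw [Algebra.algebraMap_eq_smul_one, map_smul, hψ.one, Algebra.algebraMap_eq_smul_one]) }
  have hφ : ∀ w : R, (φ w : K) = ψ w := fun w => rfl
  have hφs : Function.Surjective φ := by
    rintro ⟨w, hw⟩
    obtain ⟨b, h1, h2, h3⟩ := hloc.2 w hw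
    obtain ⟨s, h4, rfl⟩ := hsurj b h1
    obtain ⟨a, h5, h6⟩ := hsurj _ h3
    refine ⟨⟨_, hdiv s h4 h2 a h5⟩, Subtype.ext (mul_left_cancel₀ h2.1 ?_)⟩
    rw [hφ, ← hψ.mul s (hB h4) _ (hRO _ (hdiv s h4 h2 a h5)), mul_inv_cancel_left₀ (hne s h2), h6]
  let f : R := ⟨D.f D.X τ, hBR _ (hψ.f_mem τ)⟩
  have hf : f ≠ 0 := fun h => hψ.f_ne τ (congrArg Subtype.val h)
  have h0 : φ f = 0 := Subtype.ext (hψ.f_zero τ)
  have hk : ∀ a, φ a = 0 → ∃ b, a = f * b := by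
    rintro ⟨w, hw⟩ h
    have h' : ψ w = 0 := congrArg Subtype.val h
    obtain ⟨s, h1, h2, h3⟩ := id hw
    obtain ⟨b, h4, h5⟩ := hker _ h3 (by rw [hψ.mul s (hB h1) w (hRO w hw), h', mul_zero])
    refine ⟨⟨_, hdiv s h1 h2 b h4⟩, Subtype.ext ?_⟩
    show w = D.f D.X τ * (s⁻¹ * b)
    rw [mul_left_comm, ← h5, inv_mul_cancel_left₀ (hne s h2)]
  let r : D.Vx → R := fun t => ⟨D.rat D.X τ t, hBR _ (Dat.rat_mem τ t)⟩
  have hr : ∀ t, ψ (D.rat D.X τ t) = D.rat M.x τ t := fun t => by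
    have h1 := hψ.mul _ (hB (Dat.rat_mem τ t)) _ (hψ.mem (τ.1 (D.sl t)))
    rw [Dat.rat, div_mul_cancel₀ _ (Dat.yX_ne _), hψ.val, hψ.val] at h1
    rw [Dat.rat, Dat.rat, eq_div_iff (M.ne _), h1]
  have hv : ∀ P : MvPolynomial D.Vx ℂ, ((aeval r P : R) : D.L) = aeval (D.rat D.X τ) P := fun P => by
    exact (comp_aeval_apply (f := r) R.val P).trans rfl
  have hw : ∀ P : MvPolynomial D.Vx ℂ, (φ (aeval r P) : K) = aeval (D.rat M.x τ) P := fun P => by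
    induction P using MvPolynomial.induction_on with
    | C c => rw [aeval_C, aeval_C, φ.commutes]; rfl
    | add p q hp hq => rw [map_add, map_add, map_add, Subring.coe_add, hp, hq]
    | mul_X p j hp =>
      rw [map_mul, map_mul, map_mul, Subring.coe_mul, hp, aeval_X, aeval_X, hφ, hr]
  obtain ⟨δ, hδ⟩ := exists_drv φ hφs hf h0 hk r
  refine ⟨fun t => δ t, fun t => (δ t).2, fun P Q h => ?_⟩
  have h1 := hδ P Q (Subtype.ext (by rw [Subalgebra.coe_mul, hv, hv]; exact h))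
  have h2 := congrArg (M.X.O z).subtype h1
  simpa only [map_sum, map_mul, Subring.coe_subtype, hw] using h2

end Pool.Agent.Lib.MV
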