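import Pool.Agent.Lib.MV.Basic

open MvPolynomial Set

set_option linter.unusedSectionVars false
set_option linter.unusedVariables false

noncomputable section

namespace Pool.Agent.Lib.MV

namespace EL1B

lemma elim' {V A : Type} [LinearOrder V] [d : DecidableEq V] [AddCommGroup A] {W : Finset V}
    {q : ℕ} {M M' : Finset V → AddSubgroup A} {t u : V} (h : t ≠ u) (ht : t ∉ W) (hu : u ∉ W)
    (hM : Monotone M) (h0 : ∀ s ⊆ W, M s = ⊥)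
    (h1 : ∀ s ⊆ W, M (insert t (insert u s)) ≤ M (insert t s) ⊔ M (insert u s))
    (h2 : ∀ s ⊆ W, M' s = M (insert t s) ⊓ M (insert u s)) (H : Ex W M' q) :
    Ex (insert t (insert u W)) M (q + 1) := by
  obtain rfl : d = fun a b => LinearOrder.toDecidableEq a b := Subsingleton.elim _ _
  exact Ex.elim h ht hu hM h0 h1 h2 H

variable {F : Type} [Field F] [Algebra ℂ F]

lemma mon_ind {G : Set F} {B : Subalgebra ℂ F} {T : F} (hT : T ≠ 0)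
    (hG : ∀ z ∈ G, ∃ b ∈ B, ∃ k : ℤ, z = b * T ^ k) {N : AddSubgroup F}
    (hN : ∀ b ∈ B, ∀ k : ℤ, b * T ^ k ∈ N) : ∀ z ∈ Algebra.adjoin ℂ G, z ∈ N := by
  let N0 : AddSubgroup F := AddSubgroup.closure {z | ∃ b ∈ B, ∃ k : ℤ, z = b * T ^ k}
  have h0 : N0 ≤ N := (AddSubgroup.closure_le _).2 (by rintro _ ⟨b, hb, k, rfl⟩; exact hN b hb k)
  have hm : ∀ b ∈ B, ∀ k : ℤ, ∀ n ∈ N0, b * T ^ k * n ∈ N0 := by
    intro b hb k n hn
    induction hn using AddSubgroup.closure_induction with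
    | mem x hx =>
      obtain ⟨b', hb', k', rfl⟩ := hx
      refine AddSubgroup.subset_closure ⟨b * b', mul_mem hb hb', k + k', ?_⟩
      rw [zpow_add₀ hT]; ring
    | zero => rw [mul_zero]; exact zero_mem _
    | add x y _ _ h1 h2 => rw [mul_add]; exact add_mem h1 h2
    | neg x _ h1 => rw [mul_neg]; exact neg_mem h1
  have key : ∀ z ∈ Algebra.adjoin ℂ G, ∀ n ∈ N0, z * n ∈ N0 := by
    intro z hz
    induction hz using Algebra.adjoin_induction with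
    | mem x hx =>
      obtain ⟨b, hb, k, rfl⟩ := hG x hx
      exact hm b hb k
    | algebraMap r =>
      intro n hn
      have := hm _ (B.algebraMap_mem r) 0 n hn
      rwa [zpow_zero, mul_one] at this
    | add x y _ _ h1 h2 => intro n hn; rw [add_mul]; exact add_mem (h1 n hn) (h2 n hn)
    | mul x y _ _ h1 h2 => intro n hn; rw [mul_assoc]; exact h1 _ (h2 n hn)
  intro z hz
  have := key z hz 1 (AddSubgroup.subset_closure ⟨1, one_mem _, 0, by simp⟩)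
  rw [mul_one] at this
  exact h0 this

lemma pow_ind {G : Set F} {B : Subalgebra ℂ F} {c : F} (hc : c ∈ B)
    (hG : ∀ z ∈ G, c * z ∈ B) : ∀ z ∈ Algebra.adjoin ℂ G, ∃ N : ℕ, c ^ N * z ∈ B := by
  intro z hz
  induction hz using Algebra.adjoin_induction with
  | mem x hx => exact ⟨1, by rw [pow_one]; exact hG x hx⟩
  | algebraMap r => exact ⟨0, by rw [pow_zero, one_mul]; exact B.algebraMap_mem r⟩
  | add x y _ _ h1 h2 =>
    obtain ⟨N, h1⟩ := h1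
    obtain ⟨N', h2⟩ := h2
    refine ⟨N + N', ?_⟩
    rw [show c ^ (N + N') * (x + y) = c ^ N' * (c ^ N * x) + c ^ N * (c ^ N' * y) by ring]
    exact add_mem (mul_mem (pow_mem hc _) h1) (mul_mem (pow_mem hc _) h2)
  | mul x y _ _ h1 h2 =>
    obtain ⟨N, h1⟩ := h1
    obtain ⟨N', h2⟩ := h2
    refine ⟨N + N', ?_⟩
    rw [show c ^ (N + N') * (x * y) = (c ^ N * x) * (c ^ N' * y) by ring]
    exact mul_mem h1 h2

variable {D : Dat} {x : ∀ i, Fin (D.n i + 1) → F}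

lemma Bs_mono {s s' : Finset D.Vx} (h : s ⊆ s') : D.Bs x s ≤ D.Bs x s' :=
  Algebra.adjoin_mono fun _ ⟨t, ht, h'⟩ => ⟨t, h ht, h'⟩

lemma gen_mem {s : Finset D.Vx} {t t' : D.Vx} (ht : t ∈ s) (h : D.sl t' = D.sl t) :
    D.y x t' / D.y x t ∈ D.Bs x s := Algebra.subset_adjoin ⟨t, ht, t', h, rfl⟩

lemma zpow_mem' {B : Subalgebra ℂ F} {c : F} (h1 : c ∈ B) (h2 : c⁻¹ ∈ B) (k : ℤ) : c ^ k ∈ B := by
  rcases k with k | k
  · simpa using pow_mem h1 k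
  · rw [zpow_negSucc, ← inv_pow]; exact pow_mem h2 _

lemma Ms_mono (A : Finset D.Sl) (v : D.Λ) : Monotone (D.Ms x A v) := fun _ _ h =>
  AddSubgroup.closure_mono fun _ ⟨τ, h1, h2⟩ => ⟨τ, fun μ hμ => h (h1 μ hμ), Bs_mono h h2⟩

lemma Ms_bot {A : Finset D.Sl} {v : D.Λ} {s : Finset D.Vx}
    (h : ¬∃ τ : D.Ch, ∀ μ ∈ A, τ.1 μ ∈ s) : D.Ms x A v s = ⊥ :=
  le_bot_iff.1 ((AddSubgroup.closure_le _).2 fun _ ⟨τ, h1, _⟩ => absurd ⟨τ, h1⟩ h)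

lemma mem_Ms (hx : ∀ t, D.y x t ≠ 0) {A : Finset D.Sl} {v : D.Λ} {s : Finset D.Vx} {τ : D.Ch}
    (hτ : ∀ μ ∈ A, τ.1 μ ∈ s) {z : F} : z ∈ D.Ms x A v s ↔ z / D.gA x A v τ ∈ D.Bs x s := by
  refine ⟨fun h => ?_, fun h => AddSubgroup.subset_closure ⟨τ, hτ, h⟩⟩
  induction h using AddSubgroup.closure_induction with
  | mem z hz =>
    obtain ⟨τ', h1, h2⟩ := hz
    have hne : D.gA x A v τ' ≠ 0 := Finset.prod_ne_zero_iff.2 fun μ _ => zpow_ne_zero _ (hx _)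
    have : z / D.gA x A v τ = z / D.gA x A v τ' *
        ∏ μ ∈ A, (D.y x (τ'.1 μ) / D.y x (τ.1 μ)) ^ v μ.1 μ.2 := by
      simp only [div_zpow, Finset.prod_div_distrib]
      change _ = _ * (D.gA x A v τ' / D.gA x A v τ)
      rw [div_mul_div_cancel₀ hne]
    rw [this]
    refine mul_mem h2 (prod_mem fun μ hμ => zpow_mem' ?_ ?_ _)
    · exact gen_mem (hτ μ hμ) ((τ'.2 μ).trans (τ.2 μ).symm)
    · rw [inv_div]; exact gen_mem (h1 μ hμ) ((τ.2 μ).trans (τ'.2 μ).symm)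
  | zero => rw [zero_div]; exact zero_mem _
  | add x y _ _ h1 h2 => rw [add_div]; exact add_mem h1 h2
  | neg x _ h1 => rw [neg_div]; exact neg_mem h1

lemma sl_some {i : Fin D.k} {a : Fin (D.r i)} {t : D.Vx} :
    D.sl t = ⟨i, some a⟩ ↔ ∃ j, t = .inr (⟨i, a⟩, j) := by
  refine ⟨fun h => ?_, by rintro ⟨j, rfl⟩; rfl⟩
  rcases t with ⟨i', l⟩ | ⟨⟨i', a'⟩, j⟩
  · obtain ⟨rfl, h'⟩ := Sigma.mk.inj h
    simp at h'
  · obtain ⟨rfl, h'⟩ := Sigma.mk.inj h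
    obtain rfl : a' = a := Option.some.inj (eq_of_heq h')
    exact ⟨j, rfl⟩

lemma sl_none {i : Fin D.k} {t : D.Vx} (h : D.sl t = ⟨i, none⟩) : ∃ l, t = .inl ⟨i, l⟩ := by
  rcases t with ⟨i', l⟩ | ⟨⟨i', a'⟩, j⟩
  · obtain ⟨rfl, h'⟩ := Sigma.mk.inj h
    exact ⟨l, rfl⟩
  · obtain ⟨rfl, h'⟩ := Sigma.mk.inj h
    simp at h'

lemma u_mem {s : Finset D.Vx} {i : Fin D.k} (a : Fin (D.r i)) {l : Fin (D.n i + 1)}
    (hl : Sum.inl ⟨i, l⟩ ∈ s) (j : Fin 2) : D.y x (.inr (⟨i, a⟩, j)) / x i l ∈ D.Bs x s := by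
  change (∑ m, D.u i a j m • x i m) / x i l ∈ _
  rw [Finset.sum_div]
  refine sum_mem fun m _ => ?_
  rw [smul_div_assoc]
  exact Subalgebra.smul_mem _ (gen_mem (t' := .inl ⟨i, m⟩) hl rfl) _

/-- change of a chart in one slot -/
def upd (τ : D.Ch) (t : D.Vx) : D.Ch :=
  ⟨Function.update τ.1 (D.sl t) t, fun μ => by
    by_cases h : μ = D.sl t
    · rw [h, Function.update_self]
    · rw [Function.update_of_ne h]; exact τ.2 μ⟩

lemma mem_ins (hx : ∀ t, D.y x t ≠ 0) {A : Finset D.Sl} {v : D.Λ} {s : Finset D.Vx} {τ : D.Ch}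
    {t : D.Vx} {μ : D.Sl} (hμ : D.sl t = μ) (hA : μ ∉ A) (ht : t ∈ s)
    (hτ : ∀ μ ∈ A, τ.1 μ ∈ s) {z : F} : z ∈ D.Ms x (insert μ A) v s ↔
      z / (D.y x t ^ v μ.1 μ.2 * D.gA x A v τ) ∈ D.Bs x s := by
  subst hμ
  have h1 : ∀ μ ∈ A, (upd τ t).1 μ = τ.1 μ := fun μ h =>
    Function.update_of_ne (by rintro rfl; exact hA h) _ _
  have h2 : (upd τ t).1 (D.sl t) = t := Function.update_self ..
  rw [mem_Ms hx (τ := upd τ t) fun μ h => ?_]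
  · unfold Dat.gA
    rw [Finset.prod_insert hA, h2, Finset.prod_congr rfl fun μ h => by rw [h1 μ h]]
  · rcases Finset.mem_insert.1 h with rfl | h
    · rw [h2]; exact ht
    · rw [h1 μ h]; exact hτ μ h

lemma gA_shift (hx : ∀ t, D.y x t ≠ 0) {A : Finset D.Sl} {v v' : D.Λ} {i : Fin D.k} {e : ℤ}
    (hA : ⟨i, none⟩ ∈ A) (h1 : v' i none = v i none + e)
    (h2 : ∀ μ ∈ A, μ ≠ ⟨i, none⟩ → v' μ.1 μ.2 = v μ.1 μ.2) (τ : D.Ch) :
    D.gA x A v' τ = D.y x (τ.1 ⟨i, none⟩) ^ e * D.gA x A v τ := by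
  unfold Dat.gA
  rw [← Finset.mul_prod_erase A _ hA, ← Finset.mul_prod_erase A _ hA,
    Finset.prod_congr rfl fun μ h => by
      rw [h2 μ (Finset.mem_of_mem_erase h) (Finset.ne_of_mem_erase h)]]
  change D.y x _ ^ v' i none * _ = _ * (D.y x _ ^ v i none * _)
  rw [h1, zpow_add₀ (hx _)]
  ring

lemma clear (hx : ∀ t, D.y x t ≠ 0) {s : Finset D.Vx} {i : Fin D.k} (a : Fin (D.r i))
    {l : Fin (D.n i + 1)} (hl : Sum.inl ⟨i, l⟩ ∈ s) (j : Fin 2) {z : F}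
    (hz : z ∈ D.Bs x (insert (.inr (⟨i, a⟩, j)) s)) :
    ∃ N : ℕ, (D.y x (.inr (⟨i, a⟩, j)) / x i l) ^ N * z ∈ D.Bs x s := by
  refine pow_ind (u_mem a hl j) ?_ z hz
  rintro _ ⟨t, ht, t', h, rfl⟩
  rcases Finset.mem_insert.1 ht with rfl | ht
  · obtain ⟨j', rfl⟩ := sl_some.1 h
    rw [mul_comm, div_mul_div_cancel₀ (hx _)]
    exact u_mem a hl j'
  · exact mul_mem (u_mem a hl j) (gen_mem ht h)

lemma split {B B0 B1 : Subalgebra ℂ F} {U0 U1 g : F} {e : ℤ} (h0 : U0 ≠ 0) (h1 : U1 ≠ 0)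
    (hg : g ≠ 0) (he : e = 0 ∨ e = -1) (l0 : B ≤ B0) (l1 : B ≤ B1) (m0 : U1 / U0 ∈ B0)
    (m1 : U0 / U1 ∈ B1) {N0 N1 : AddSubgroup F} (e0 : ∀ z, z / (U0 ^ e * g) ∈ B0 → z ∈ N0)
    (e1 : ∀ z, z / (U1 ^ e * g) ∈ B1 → z ∈ N1) (b : F) (hb : b ∈ B) (k : ℤ) :
    b * (U1 / U0) ^ k * (U0 ^ e * g) ∈ N0 ⊔ N1 := by
  rcases k with k | k
  · refine AddSubgroup.mem_sup_left (e0 _ ?_)
    rw [mul_div_cancel_right₀ _ (mul_ne_zero (zpow_ne_zero _ h0) hg)]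
    exact mul_mem (l0 hb) (by simpa using pow_mem m0 k)
  · refine AddSubgroup.mem_sup_right (e1 _ ?_)
    rw [zpow_negSucc, ← inv_pow, inv_div]
    rcases he with rfl | rfl
    · simp only [zpow_zero, one_mul]
      rw [mul_div_cancel_right₀ _ hg]
      exact mul_mem (l1 hb) (pow_mem m1 _)
    · have : b * (U0 / U1) ^ (k + 1) * (U0 ^ (-1 : ℤ) * g) / (U1 ^ (-1 : ℤ) * g) =
          b * (U0 / U1) ^ k := by
        rw [zpow_neg_one, zpow_neg_one, pow_succ]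
        field_simp
      rw [this]
      exact mul_mem (l1 hb) (pow_mem m1 _)

lemma split' {B B0 B1 : Subalgebra ℂ F} {U0 U1 g : F} {e : ℤ} (h0 : U0 ≠ 0) (h1 : U1 ≠ 0)
    (hg : g ≠ 0) (he : e = 0 ∨ e = -1) (l0 : B ≤ B0) (l1 : B ≤ B1) (m0 : U1 / U0 ∈ B0)
    (m1 : U0 / U1 ∈ B1) {N0 N1 : AddSubgroup F} (e0 : ∀ z, z / (U0 ^ e * g) ∈ B0 → z ∈ N0)
    (e1 : ∀ z, z / (U1 ^ e * g) ∈ B1 → z ∈ N1) {G : Set F}
    (hG : ∀ z ∈ G, ∃ b ∈ B, ∃ k : ℤ, z = b * (U1 / U0) ^ k) {z : F}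
    (hz : z / (U0 ^ e * g) ∈ Algebra.adjoin ℂ G) : z ∈ N0 ⊔ N1 := by
  have := mon_ind (div_ne_zero h1 h0) hG
    (N := AddSubgroup.comap (AddMonoidHom.mulRight (U0 ^ e * g)) (N0 ⊔ N1))
    (split h0 h1 hg he l0 l1 m0 m1 e0 e1) _ hz
  rwa [AddSubgroup.mem_comap, AddMonoidHom.mulRight_apply,
    div_mul_cancel₀ _ (mul_ne_zero (zpow_ne_zero _ h0) hg)] at this

lemma gens (hx : ∀ t, D.y x t ≠ 0) {s : Finset D.Vx} {i : Fin D.k} {a : Fin (D.r i)} {z : F}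
    (hz : ∃ t ∈ insert (Sum.inr (⟨i, a⟩, 0)) (insert (Sum.inr (⟨i, a⟩, 1)) s), ∃ t',
      D.sl t' = D.sl t ∧ z = D.y x t' / D.y x t) : ∃ b ∈ D.Bs x s, ∃ k : ℤ,
      z = b * (D.y x (.inr (⟨i, a⟩, 1)) / D.y x (.inr (⟨i, a⟩, 0))) ^ k := by
  obtain ⟨t, ht, t', h, rfl⟩ := hz
  rcases Finset.mem_insert.1 ht with rfl | ht
  · obtain ⟨j, rfl⟩ := sl_some.1 h
    fin_cases j
    · exact ⟨1, one_mem _, 0, by rw [zpow_zero, mul_one]; exact div_self (hx _)⟩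
    · exact ⟨1, one_mem _, 1, by rw [zpow_one, one_mul]; rfl⟩
  rcases Finset.mem_insert.1 ht with rfl | ht
  · obtain ⟨j, rfl⟩ := sl_some.1 h
    fin_cases j
    · exact ⟨1, one_mem _, -1, by rw [zpow_neg_one, one_mul, inv_div]; rfl⟩
    · exact ⟨1, one_mem _, 0, by rw [zpow_zero, mul_one]; exact div_self (hx _)⟩
  · exact ⟨_, gen_mem ht h, 0, by rw [zpow_zero, mul_one]⟩

lemma up {B B0 : Subalgebra ℂ F} {U c g z : F} {e : ℤ} (hU : U ≠ 0) (hc : c ≠ 0) (hg : g ≠ 0)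
    (he : e = 0 ∨ e = -1) (l : B ≤ B0) (m : U / c ∈ B) (hz : z / (c ^ e * g) ∈ B) :
    z / (U ^ e * g) ∈ B0 := by
  rcases he with rfl | rfl
  · simpa using l hz
  · have : z / (U ^ (-1 : ℤ) * g) = z / (c ^ (-1 : ℤ) * g) * (U / c) := by
      rw [zpow_neg_one, zpow_neg_one]
      field_simp
    rw [this]
    exact l (mul_mem hz m)

lemma down {B : Subalgebra ℂ F} {U c g z : F} {e : ℤ} (hU : U ≠ 0) (hc : c ≠ 0) (hg : g ≠ 0)
    (he : e = 0 ∨ e = -1) (m : U / c ∈ B) {N N' : ℕ} (hN : N < N')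
    (hz : (U / c) ^ N * (z / (U ^ e * g)) ∈ B) : (U / c) ^ N' * (z / (c ^ e * g)) ∈ B := by
  obtain ⟨n, rfl⟩ := Nat.exists_eq_add_of_lt hN
  rcases he with rfl | rfl
  · simp only [zpow_zero, one_mul] at hz ⊢
    rw [add_assoc, add_comm, pow_add, mul_assoc]
    exact mul_mem (pow_mem m _) hz
  · have : (U / c) ^ (N + n + 1) * (z / (c ^ (-1 : ℤ) * g)) =
        (U / c) ^ n * ((U / c) ^ N * (z / (U ^ (-1 : ℤ) * g))) := by
      rw [zpow_neg_one, zpow_neg_one, pow_succ, pow_add]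
      field_simp
    rw [this]
    exact mul_mem (pow_mem m _) hz

lemma main (hx : ∀ t, D.y x t ≠ 0) {A : Finset D.Sl} {i : Fin D.k} {a : Fin (D.r i)}
    (hR : ∀ (s : Finset D.Vx) (l : Fin (D.n i + 1)), Sum.inl ⟨i, l⟩ ∈ s →
      (∀ t ∈ s, D.sl t ≠ ⟨i, some a⟩) → ∀ (z : F) (N : ℕ),
      (∀ j, (D.y x (.inr (⟨i, a⟩, j)) / x i l) ^ N * z ∈ D.Bs x s) → z ∈ D.Bs x s)
    {v v' : D.Λ} {q : ℕ} (hin : ⟨i, none⟩ ∈ A) (hA : ⟨i, some a⟩ ∉ A)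
    (he : v i (some a) = 0 ∨ v i (some a) = -1) (h1 : v' i none = v i none + v i (some a))
    (h2 : ∀ μ ∈ A, μ ≠ ⟨i, none⟩ → v' μ.1 μ.2 = v μ.1 μ.2)
    (H : Ex (D.TA A) (D.Ms x A v') q) :
    Ex (D.TA (insert ⟨i, some a⟩ A)) (D.Ms x (insert ⟨i, some a⟩ A) v) (q + 1) := by
  have hW : ∀ t, t ∈ D.TA A ↔ D.sl t ∈ A := fun t => by simp [Dat.TA]
  have hT : D.TA (insert ⟨i, some a⟩ A) =
      insert (.inr (⟨i, a⟩, 0)) (insert (.inr (⟨i, a⟩, 1)) (D.TA A)) := by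
    ext t
    simp only [Dat.TA, Finset.mem_filter, Finset.mem_univ, true_and, Finset.mem_insert, sl_some,
      Fin.exists_fin_two, or_assoc]
  have hn : ∀ j, Sum.inr (⟨i, a⟩, j) ∉ D.TA A := fun j h => hA ((hW _).1 h)
  have hb : ∀ s S : Finset D.Vx, (∀ t ∈ S, D.sl t ∈ A → t ∈ s) →
      (¬∃ τ : D.Ch, ∀ μ ∈ A, τ.1 μ ∈ s) → D.Ms x (insert ⟨i, some a⟩ A) v S = ⊥ :=
    fun s S hS h => Ms_bot fun ⟨τ, hτ⟩ => h ⟨τ, fun μ hμ =>
      hS _ (hτ μ (Finset.mem_insert_of_mem hμ)) (by rw [τ.2]; exact hμ)⟩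
  have hg : ∀ τ, D.gA x A v τ ≠ 0 := fun τ =>
    Finset.prod_ne_zero_iff.2 fun μ _ => zpow_ne_zero _ (hx _)
  have ee : ∀ (s : Finset D.Vx) (τ : D.Ch), (∀ μ ∈ A, τ.1 μ ∈ s) → ∀ j z,
      z ∈ D.Ms x (insert ⟨i, some a⟩ A) v (insert (.inr (⟨i, a⟩, j)) s) ↔
      z / (D.y x (.inr (⟨i, a⟩, j)) ^ v i (some a) * D.gA x A v τ) ∈
        D.Bs x (insert (.inr (⟨i, a⟩, j)) s) := fun s τ hτ j z =>
    mem_ins hx (t := .inr (⟨i, a⟩, j)) rfl hA (Finset.mem_insert_self _ s)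
      fun μ h => Finset.mem_insert_of_mem (hτ μ h)
  have bb : ∀ (s : Finset D.Vx) j, D.Bs x s ≤ D.Bs x (insert (.inr (⟨i, a⟩, j)) s) :=
    fun s j => Bs_mono (Finset.subset_insert _ s)
  rw [hT]
  refine elim' (by simp) (hn 0) (hn 1) (Ms_mono _ _) (fun s hs => Ms_bot fun ⟨τ, hτ⟩ => ?_)
    (fun s hs => ?_) (fun s hs => ?_) H
  · have := (hW _).1 (hs (hτ _ (Finset.mem_insert_self _ _)))
    rw [τ.2] at this
    exact hA this
  · by_cases hs' : ∃ τ : D.Ch, ∀ μ ∈ A, τ.1 μ ∈ s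
    swap
    · rw [hb s _ ?_ hs']
      · exact bot_le
      intro t ht hA'
      rcases Finset.mem_insert.1 ht with rfl | ht
      · exact absurd hA' hA
      rcases Finset.mem_insert.1 ht with rfl | ht
      · exact absurd hA' hA
      · exact ht
    obtain ⟨τ, hτ⟩ := hs'
    intro z hz
    rw [ee _ τ fun μ h => Finset.mem_insert_of_mem (hτ μ h)] at hz
    have m0 := gen_mem (x := x) (t' := .inr (⟨i, a⟩, 1))
      (Finset.mem_insert_self (.inr (⟨i, a⟩, 0)) s) rfl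
    have m1 := gen_mem (x := x) (t' := .inr (⟨i, a⟩, 0))
      (Finset.mem_insert_self (.inr (⟨i, a⟩, 1)) s) rfl
    exact split' (hx _) (hx _) (hg τ) he (bb s 0) (bb s 1) m0 m1
      (fun z => (ee s τ hτ 0 z).2) (fun z => (ee s τ hτ 1 z).2) (fun z hz => gens hx hz) hz
  · by_cases hs' : ∃ τ : D.Ch, ∀ μ ∈ A, τ.1 μ ∈ s
    swap
    · rw [hb s _ ?_ hs', Ms_bot hs', bot_inf_eq]
      intro t ht hA'
      rcases Finset.mem_insert.1 ht with rfl | ht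
      · exact absurd hA' hA
      · exact ht
    obtain ⟨τ, hτ⟩ := hs'
    obtain ⟨l, hl⟩ := sl_none (τ.2 ⟨i, none⟩)
    have hls : Sum.inl ⟨i, l⟩ ∈ s := hl ▸ hτ _ hin
    have hc : x i l ≠ 0 := hx (.inl ⟨i, l⟩)
    ext z
    rw [AddSubgroup.mem_inf, ee s τ hτ, ee s τ hτ, mem_Ms hx hτ, gA_shift hx hin h1 h2, hl]
    change z / (x i l ^ _ * _) ∈ _ ↔ _
    refine ⟨fun h => ⟨up (hx _) hc (hg τ) he (bb s 0) (u_mem a hls 0) h,
      up (hx _) hc (hg τ) he (bb s 1) (u_mem a hls 1) h⟩, fun h => ?_⟩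
    obtain ⟨N0, h0⟩ := clear hx a hls 0 h.1
    obtain ⟨N1, h1⟩ := clear hx a hls 1 h.2
    refine hR s l hls (fun t ht e => hA (e ▸ (hW t).1 (hs ht))) _ (N0 + N1 + 1) fun j => ?_
    fin_cases j
    · exact down (hx _) hc (hg τ) he (u_mem a hls 0) (by omega) h0
    · exact down (hx _) hc (hg τ) he (u_mem a hls 1) (by omega) h1

end EL1B

open EL1B in
theorem st_el1 (hR : St_REGS) : St_EL1 := fun D A i a v v' q hA0 hA he h1 h2 H =>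
  main Dat.yX_ne (fun s l => hR D s i a l) (hA0 (by simp [Dat.A0])) hA he h1 h2 H

end Pool.Agent.Lib.MV
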