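import Pool.Agent.Lib.MV.Blue

noncomputable section

namespace Pool.Agent.Lib.MV

namespace ElimB

variable (D : Dat)

/-- the slot of a point -/
def pt (w : Σ i, Fin (D.r i)) : D.Sl := ⟨w.1, some w.2⟩

/-- the slots of the projective spaces and of the points in `P` -/
def AP (P : Finset (Σ i, Fin (D.r i))) : Finset D.Sl := D.A0 ∪ P.image (pt D)

/-- the degree in the factor `i`, counting only the points in `P` -/
def S (P : Finset (Σ i, Fin (D.r i))) (v : D.Λ) (i : Fin D.k) : ℤ :=
  v i none + ∑ w ∈ P, if w.1 = i then v w.1 (some w.2) else 0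

theorem pt_inj : Function.Injective (pt D) := by
  rintro ⟨i, a⟩ ⟨j, b⟩ h
  obtain ⟨rfl, h2⟩ := Sigma.mk.inj h
  obtain rfl : a = b := Option.some.inj (eq_of_heq h2)
  rfl

theorem main (hMON : St_MON) (hEL1 : St_EL1) (P : Finset (Σ i, Fin (D.r i))) :
    ∀ (v : D.Λ) (q : ℕ), (∀ i a, v i (some a) = 0 ∨ v i (some a) = -1) →
      ((∃ i, -(D.n i : ℤ) ≤ S D P v i ∧ S D P v i ≤ -1) ∨
        q < D.k + P.card + ∑ i with S D P v i < 0, D.n i) →
      Ex (D.TA (AP D P)) (D.Ms D.X (AP D P) v) q := by
  induction P using Finset.induction_on with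
  | empty =>
    intro v q _ h
    have e : AP D ∅ = D.A0 := by simp [AP]
    rw [e]
    exact hMON D v q (by simpa [S] using h)
  | insert w P hw ih =>
    intro v q hv h
    have e : AP D (insert w P) = insert ⟨w.1, some w.2⟩ (AP D P) := by
      rw [AP, Finset.image_insert, Finset.union_insert]; rfl
    rw [e]
    cases q with
    | zero =>
      refine Ex.zero (eq_bot_iff.2 ((AddSubgroup.closure_le _).2 ?_))
      rintro z ⟨τ, hτ, -⟩
      exact absurd (hτ _ (Finset.mem_insert_self _ _)) (Finset.notMem_empty _)
    | succ q =>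
      let v' : D.Λ := fun i o => v i o + if i = w.1 ∧ o = none then v w.1 (some w.2) else 0
      have h1 : ∀ i a, v' i (some a) = v i (some a) := fun i a => by simp [v']
      have h2 : S D P v' = S D (insert w P) v := by
        funext i
        simp only [S, h1, Finset.sum_insert hw]
        by_cases hi : i = w.1
        · simp [v', hi, add_assoc]
        · simp [v', hi, Ne.symm hi]
      refine hEL1 D (AP D P) w.1 w.2 v v' q Finset.subset_union_left ?_ (hv _ _) (by simp [v'])
        ?_ (ih v' q (fun i a => by rw [h1]; exact hv i a) ?_)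
      · intro hm
        rcases Finset.mem_union.1 hm with hm | hm
        · simp [Dat.A0] at hm
        · obtain ⟨w', hw', e'⟩ := Finset.mem_image.1 hm
          exact hw (pt_inj D (a₁ := w') (a₂ := w) e' ▸ hw')
      · rintro ⟨i, o⟩ - hne
        have : ¬(i = w.1 ∧ o = none) := by
          rintro ⟨rfl, rfl⟩
          exact hne rfl
        simp only [v', if_neg this, add_zero]
      · rw [h2]
        rw [Finset.card_insert_of_notMem hw] at h
        exact h.imp_right fun h => by omega

theorem AP_univ : AP D Finset.univ = Finset.univ := by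
  refine Finset.eq_univ_iff_forall.2 ?_
  rintro ⟨i, _ | a⟩
  · exact Finset.mem_union_left _ (by simp [Dat.A0])
  · exact Finset.mem_union_right _ (Finset.mem_image.2 ⟨⟨i, a⟩, Finset.mem_univ _, rfl⟩)

theorem S_univ (v : D.Λ) (i : Fin D.k) : S D Finset.univ v i = ∑ o, v i o := by
  rw [S, Fintype.sum_option, Fintype.sum_sigma, Finset.sum_eq_single i]
  · simp
  · intro j _ hj
    simp [hj]
  · simp

theorem card_Sl : Fintype.card D.Sl =
    D.k + (Finset.univ : Finset (Σ i, Fin (D.r i))).card := by
  simp [Fintype.card_sigma, Finset.sum_add_distrib, add_comm]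

end ElimB

open ElimB in
theorem st_elim (hMON : St_MON) (hEL1 : St_EL1) : St_ELIM := by
  intro D v q hv h
  have H := main D hMON hEL1 Finset.univ v q hv (by
    simp only [S_univ]
    rwa [← card_Sl])
  have e : D.TA Finset.univ = Finset.univ := by simp [Dat.TA]
  rwa [AP_univ, e] at H

end Pool.Agent.Lib.MV
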