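import Pool.Agent.Lib.MV.Blue

open MvPolynomial Set Pool.Agent.Lib.DU

noncomputable section

namespace Pool.Agent.Lib.MV

namespace FrmB

variable {D : Dat} {F : Type} [Field F] [Algebra ℂ F] {x : ∀ i, Fin (D.n i + 1) → F}
  {s : Finset D.Vx} {τ : D.Ch}

lemma gen_neg_h (μ : D.Sl) (σ : D.Ch) :
    D.gA x Finset.univ (-D.h μ) σ = (D.y x (σ.1 μ))⁻¹ := by
  unfold Dat.gA
  rw [Finset.prod_eq_single μ]
  · simp [Dat.h]
  · rintro ⟨j, o⟩ _ hne
    obtain ⟨i, o'⟩ := μ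
    by_cases hj : j = i
    · subst hj
      have ho : o ≠ o' := fun h => hne (by rw [h])
      simp [Dat.h, ho]
    · simp [Dat.h, hj]
  · simp

lemma div_mem {t t' : D.Vx} (ht : t ∈ s) (h : D.sl t' = D.sl t) :
    D.y x t' / D.y x t ∈ D.Bs x s :=
  Algebra.subset_adjoin ⟨t, ht, t', h, rfl⟩

lemma mem_h (hy : ∀ t, D.y x t ≠ 0) (hτ : ∀ μ, τ.1 μ ∈ s) (μ : D.Sl) (z : F) :
    z ∈ D.Ms x Finset.univ (-D.h μ) s ↔ z * D.y x (τ.1 μ) ∈ D.Bs x s := by
  constructor
  · intro hz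
    induction hz using AddSubgroup.closure_induction with
    | mem z hz =>
      obtain ⟨σ, hσ, hz⟩ := hz
      rw [gen_neg_h, div_inv_eq_mul] at hz
      have h := (D.Bs x s).mul_mem hz
        (div_mem (x := x) (hσ μ (Finset.mem_univ μ)) ((τ.2 μ).trans (σ.2 μ).symm))
      rwa [mul_assoc, mul_div_cancel₀ _ (hy _)] at h
    | zero => simp
    | add a b _ _ ha hb =>
      rw [add_mul]
      exact add_mem ha hb
    | neg a _ ha =>
      rw [neg_mul]
      exact neg_mem ha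
  · intro hz
    exact AddSubgroup.subset_closure ⟨τ, fun ν _ => hτ ν, by rwa [gen_neg_h, div_inv_eq_mul]⟩

lemma mem_Ps (hy : ∀ t, D.y x t ≠ 0) (hτ : ∀ μ, τ.1 μ ∈ s) (g : D.Vx → F) :
    g ∈ D.Ps x s ↔ ∀ t, g t * D.y x (τ.1 (D.sl t)) ∈ D.Bs x s := by
  simp only [Dat.Ps, AddSubgroup.mem_pi, mem_univ, forall_true_left, mem_h hy hτ]

lemma single_mem (hy : ∀ t, D.y x t ≠ 0) (hτ : ∀ μ, τ.1 μ ∈ s) {t : D.Vx} {c : F}
    (h : c * D.y x (τ.1 (D.sl t)) ∈ D.Bs x s) : Pi.single t c ∈ D.Ps x s := by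
  refine (mem_Ps hy hτ _).2 fun u => ?_
  by_cases hu : u = t
  · subst hu
    rwa [Pi.single_eq_same]
  · simp [hu]

lemma beta_single (t : D.Vx) (c : F) : D.β x (Pi.single t c) =
    (c • KaehlerDifferential.D ℂ F (D.y x t), Pi.single (D.sl t) (c * D.y x t)) := by
  refine Prod.ext ?_ (funext fun μ => ?_)
  · show ∑ u, (Pi.single t c : D.Vx → F) u • _ = _
    rw [Finset.sum_eq_single t (fun u _ hu => by simp [hu]) (by simp), Pi.single_eq_same]
  · show ∑ u with D.sl u = μ, (Pi.single t c : D.Vx → F) u * D.y x u = _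
    rw [Finset.sum_filter, Finset.sum_eq_single t (fun u _ hu => by simp [hu]) (by simp),
      Pi.single_eq_same]
    by_cases h : D.sl t = μ
    · simp [h]
    · simp [h, Ne.symm h]

lemma smul_mem (hy : ∀ t, D.y x t ≠ 0) (hτ : ∀ μ, τ.1 μ ∈ s) {b : F} (hb : b ∈ D.Bs x s)
    {ω : Ω[F⁄ℂ]} (h : (ω, 0) ∈ D.Es x s) : (b • ω, 0) ∈ D.Es x s := by
  obtain ⟨g, hg, he⟩ := h
  refine ⟨b • g, (mem_Ps hy hτ _).2 fun t => ?_, ?_⟩
  · rw [Pi.smul_apply, smul_eq_mul, mul_assoc]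
    exact mul_mem hb ((mem_Ps hy hτ _).1 hg t)
  · have he' : D.β x g = (ω, 0) := he
    show D.β x (b • g) = _
    rw [map_smul, he', Prod.smul_mk, smul_zero]

lemma add_mem' {ω ω' : Ω[F⁄ℂ]} (h : (ω, 0) ∈ D.Es x s) (h' : (ω', 0) ∈ D.Es x s) :
    (ω + ω', 0) ∈ D.Es x s := by
  simpa using add_mem h h'

lemma d_mem (hy : ∀ t, D.y x t ≠ 0) (hτ : ∀ μ, τ.1 μ ∈ s) {b : F} (hb : b ∈ D.Bs x s) :
    (KaehlerDifferential.D ℂ F b, 0) ∈ D.Es x s := by
  induction hb using Algebra.adjoin_induction with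
  | mem z hz =>
    obtain ⟨t, ht, t', h, rfl⟩ := hz
    have h0 := hy t
    refine ⟨Pi.single t' (D.y x t)⁻¹ - Pi.single t (D.y x t' / D.y x t / D.y x t),
      sub_mem (single_mem hy hτ ?_) (single_mem hy hτ ?_), ?_⟩
    · rw [inv_mul_eq_div]
      exact div_mem ht ((τ.2 _).trans h)
    · rw [div_mul_eq_mul_div, mul_div_assoc]
      exact mul_mem (div_mem ht h) (div_mem ht (τ.2 _))
    · show D.β x _ = _
      rw [map_sub, beta_single, beta_single, h, Derivation.leibniz_div, Prod.mk_sub_mk,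
        inv_mul_eq_div, div_mul_cancel₀ _ h0, sub_self, smul_sub, smul_smul, smul_smul]
      have e1 : (D.y x t)⁻¹ ^ 2 * D.y x t = (D.y x t)⁻¹ := by field_simp
      have e2 : (D.y x t)⁻¹ ^ 2 * D.y x t' = D.y x t' / D.y x t / D.y x t := by field_simp
      rw [e1, e2]
  | algebraMap c =>
    rw [Derivation.map_algebraMap]
    exact zero_mem _
  | add a b _ _ ha hb =>
    rw [map_add]
    exact add_mem' ha hb
  | mul a b ha' hb' ha hb =>
    rw [Derivation.leibniz]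
    exact add_mem' (smul_mem hy hτ ha' hb) (smul_mem hy hτ hb' ha)

end FrmB

open FrmB

theorem st_frm : St_FRM := by
  intro D F _ _ x hy s τ hτ
  refine ⟨fun ω hω => ?_, ?_⟩
  · induction hω using Submodule.span_induction with
    | mem ω hω =>
      obtain ⟨b, hb, rfl⟩ := hω
      exact d_mem hy hτ hb
    | zero => exact zero_mem _
    | add a b _ _ ha hb => exact add_mem' ha hb
    | smul b ω _ h => exact smul_mem hy hτ b.2 h
  · rintro _ ⟨g, hg, rfl⟩
    have hg' := (mem_Ps hy hτ g).1 hg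
    refine ⟨fun μ => ?_, ?_⟩
    · show ∑ t with D.sl t = μ, g t * D.y x t ∈ _
      refine sum_mem fun t ht => ?_
      have h := mul_mem (hg' t) (div_mem (x := x) (hτ (D.sl t)) (τ.2 (D.sl t)).symm)
      rwa [mul_assoc, mul_div_cancel₀ _ (hy _)] at h
    · show ∑ t, g t • KaehlerDifferential.D ℂ F (D.y x t) -
        ∑ μ, (∑ t with D.sl t = μ, g t * D.y x t) • dlog (D.y x (τ.1 μ)) ∈ _
      have h1 : ∑ μ, (∑ t with D.sl t = μ, g t * D.y x t) • dlog (D.y x (τ.1 μ)) =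
          ∑ t, (g t * D.y x t) • dlog (D.y x (τ.1 (D.sl t))) := by
        rw [← Finset.sum_fiberwise Finset.univ D.sl]
        refine Finset.sum_congr rfl fun μ _ => ?_
        rw [Finset.sum_smul]
        exact Finset.sum_congr rfl fun t ht => by rw [(Finset.mem_filter.1 ht).2]
      rw [h1, ← Finset.sum_sub_distrib]
      refine sum_mem fun t _ => ?_
      have h0 := hy (τ.1 (D.sl t))
      have h2 : g t • KaehlerDifferential.D ℂ F (D.y x t) -
          (g t * D.y x t) • dlog (D.y x (τ.1 (D.sl t))) = (g t * D.y x (τ.1 (D.sl t))) •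
            KaehlerDifferential.D ℂ F (D.y x t / D.y x (τ.1 (D.sl t))) := by
        rw [Derivation.leibniz_div, dlog, smul_smul, smul_smul, smul_sub, smul_smul, smul_smul]
        refine congrArg₂ _ (congrArg (· • _) ?_) (congrArg (· • _) ?_) <;> field_simp
      rw [h2]
      exact (frm (D.Bs x s).toSubring).smul_mem ⟨_, hg' t⟩
        (Submodule.subset_span ⟨_, div_mem (hτ (D.sl t)) (τ.2 (D.sl t)).symm, rfl⟩)

end Pool.Agent.Lib.MV
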