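import Pool.Agent.Lib.MV.FibC

open Set Matrix WithZero MvPolynomial Pool.Agent.Lib.MP_e39d36_ag Pool.Agent.Lib.MP_e39d36_ag.Var
  Pool.Agent.Lib.MV.End

set_option linter.unusedSectionVars false
set_option linter.unusedVariables false

noncomputable section

namespace Pool.Agent.Lib.MV.Fb

namespace KER

lemma dvd_of_primes {R : Type} [CommRing R] [IsDomain R] [UniqueFactorizationMonoid R] (a : R) :
    a ≠ 0 → ∀ b : R, (∀ π : R, Prime π → ∃ c, ¬π ∣ c ∧ a ∣ b * c) → a ∣ b := by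
  refine UniqueFactorizationMonoid.induction_on_prime a (fun h => absurd rfl h)
    (fun u hu _ b _ => hu.dvd) fun a π ha hπ ih _ b h => ?_
  obtain ⟨c, h1, h2⟩ := h π hπ
  obtain ⟨b, rfl⟩ := (hπ.dvd_or_dvd (dvd_of_mul_right_dvd h2)).resolve_right h1
  refine mul_dvd_mul_left π (ih ha b fun π' hπ' => ?_)
  obtain ⟨c', h3, h4⟩ := h π' hπ'
  rw [mul_assoc] at h4
  exact ⟨c', h3, (mul_dvd_mul_iff_left hπ.ne_zero).1 h4⟩

lemma eq_C_mul {σ : Type} {π p : MvPolynomial σ ℂ} (hπ : Prime π) (h0 : p ≠ 0)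
    (h1 : p.totalDegree ≤ 1) (h : π ∣ p) : ∃ c : ℂ, p = c • π := by
  obtain ⟨q, rfl⟩ := h
  rw [totalDegree_mul_of_isDomain hπ.ne_zero (right_ne_zero_of_mul h0)] at h1
  have h2 : π.totalDegree ≠ 0 := fun h2 => by
    rw [totalDegree_eq_zero_iff_eq_C] at h2
    have h3 : π.coeff 0 ≠ 0 := fun h3 => hπ.ne_zero (by rw [h2, h3, map_zero])
    exact hπ.not_unit (h2 ▸ (IsUnit.mk0 _ h3).map C)
  have h3 : q.totalDegree = 0 := by omega
  rw [totalDegree_eq_zero_iff_eq_C] at h3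
  exact ⟨q.coeff 0, by rw [smul_eq_C_mul, ← h3, mul_comm]⟩

variable (D : Dat)

/-- The homogeneous coordinates as polynomials in the affine ones. -/
def Xp (i : Fin D.k) : Fin (D.n i + 1) → MvPolynomial D.Ax ℂ :=
  Fin.cons 1 fun l => MvPolynomial.X ⟨i, l⟩

/-- Affine linear forms. -/
def lin (i : Fin D.k) (v : Fin (D.n i + 1) → ℂ) : MvPolynomial D.Ax ℂ := ∑ l, v l • Xp D i l

/-- The charts inside the affine part. -/
def ch (j : (Σ i, Fin (D.r i)) → Fin 2) : D.Ch :=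
  ⟨fun μ => μ.2.elim (.inl ⟨μ.1, 0⟩) fun a => .inr (⟨μ.1, a⟩, j ⟨μ.1, a⟩), by
    rintro ⟨i, _ | a⟩ <;> rfl⟩

/-- The linear forms through the points. -/
def U (w : Σ i, Fin (D.r i)) (e : Fin 2) : MvPolynomial D.Ax ℂ := lin D w.1 (D.u w.1 w.2 e)

variable {D}

lemma lin_deg (i : Fin D.k) (v : Fin (D.n i + 1) → ℂ) : (lin D i v).totalDegree ≤ 1 := by
  refine (totalDegree_finsetSum _ _).trans (Finset.sup_le fun l _ =>
    (totalDegree_smul_le _ _).trans ?_)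
  refine Fin.cases ?_ (fun l => ?_) l
  · simp [Xp]
  · simp [Xp]

lemma lin_zero {i : Fin D.k} {v : Fin (D.n i + 1) → ℂ} (h : lin D i v = 0) : v = 0 := by
  classical
  have h1 : ∀ z : D.Ax → ℂ, v 0 + ∑ l : Fin (D.n i), v l.succ * z ⟨i, l⟩ = 0 := fun z => by
    have := congrArg (eval z) h
    simpa [lin, Xp, Fin.sum_univ_succ] using this
  have h2 : v 0 = 0 := by simpa using h1 0
  funext l
  refine Fin.cases h2 (fun l => ?_) l
  have := h1 (Pi.single ⟨i, l⟩ 1)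
  rw [h2, zero_add, Finset.sum_eq_single l (fun l' _ hl => by
    rw [Pi.single_eq_of_ne (i' := (⟨i, l'⟩ : D.Ax)) (i := ⟨i, l⟩)
      (fun e => hl (sigma_mk_injective (β := fun i => Fin (D.n i)) e)), mul_zero])
    (fun h => absurd (Finset.mem_univ _) h), Pi.single_eq_same, mul_one] at this
  exact this

lemma U_ne (w : Σ i, Fin (D.r i)) (e : Fin 2) : U D w e ≠ 0 := fun h =>
  (D.u_ind w.1 w.2).ne_zero e (lin_zero h)

lemma exists_not_dvd {π : MvPolynomial D.Ax ℂ} (hπ : Prime π) (w : Σ i, Fin (D.r i)) :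
    ∃ e, ¬π ∣ U D w e := by
  by_contra! h
  choose c hc using fun e => eq_C_mul hπ (U_ne w e) (lin_deg _ _) (h e)
  have h1 : lin D w.1 (c 1 • D.u w.1 w.2 0 + (-c 0) • D.u w.1 w.2 1) =
      c 1 • U D w 0 + (-c 0) • U D w 1 := by
    simp only [U, lin, Pi.add_apply, Pi.smul_apply, smul_eq_mul, add_smul, mul_smul,
      Finset.sum_add_distrib, Finset.smul_sum]
  rw [hc 0, hc 1, smul_smul, smul_smul, ← add_smul, show c 1 * c 0 + -c 0 * c 1 = 0 by ring,
    zero_smul] at h1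
  have h2 := Fintype.linearIndependent_iff.1 (D.u_ind w.1 w.2) ![c 1, -c 0] (by
    simpa [Fin.sum_univ_two] using lin_zero h1) 0
  exact U_ne w 1 (by rw [hc 1, show c 1 = 0 from h2, zero_smul])

variable {F : Type} [Field F] [Algebra ℂ F] {x : ∀ i, Fin (D.n i + 1) → F} (h1 : ∀ i, x i 0 = 1)
  (j : (Σ i, Fin (D.r i)) → Fin 2)

include h1

lemma ev_Xp (i : Fin D.k) (l : Fin (D.n i + 1)) : aeval (D.xa x) (Xp D i l) = x i l := by
  refine Fin.cases ?_ (fun l => ?_) l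
  · simp [Xp, h1]
  · simp [Xp, Dat.xa]

lemma ev_U (w : Σ i, Fin (D.r i)) (e : Fin 2) :
    aeval (D.xa x) (U D w e) = D.y x (.inr (w, e)) := by
  simp only [U, lin, map_sum, map_smul, ev_Xp h1]
  rfl

lemma ev_Fa : aeval (D.xa x) D.Fa = D.Fx x := by
  simp only [Dat.Fa, Dat.Fx, map_sum, map_prod]
  refine Finset.sum_congr rfl fun c _ => Finset.prod_congr rfl fun i _ => ?_
  rw [← AlgHom.comp_apply, comp_aeval]
  exact congrArg (fun z => aeval z (D.G c i)) (funext (ev_Xp h1 i))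

lemma rat_inl (v : Σ i, Fin (D.n i + 1)) : D.rat x (ch D j) (.inl v) = x v.1 v.2 := by
  change x v.1 v.2 / x v.1 0 = _
  rw [h1, _root_.div_one]

lemma ev_rename (P : MvPolynomial D.Ax ℂ) : aeval (D.rat x (ch D j))
    (rename (fun w : D.Ax => (.inl ⟨w.1, w.2.succ⟩ : D.Vx)) P) = aeval (D.xa x) P := by
  rw [aeval_rename]
  exact congrArg (fun z => aeval z P) (funext fun w => rat_inl h1 j _)

lemma f_eq : D.f x (ch D j) = aeval (D.xa x) D.Fa / aeval (D.xa x) (∏ w, U D w (j w)) := by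
  have h2 : ∀ i, D.kap x (ch D j) i = ∏ a, D.y x (.inr (⟨i, a⟩, j ⟨i, a⟩)) := fun i => by
    change x i 0 ^ _ * _ = _
    rw [h1, _root_.one_zpow, one_mul]
    rfl
  simp only [ev_Fa h1, map_prod, ev_U h1, Dat.f, Dat.Fx, h2, Finset.prod_div_distrib,
    Finset.sum_div]
  rw [Fintype.prod_sigma]

lemma W_mem : aeval (D.xa x) (∏ w, U D w (j w)) ∈ D.B x (ch D j) := by
  simp only [U, lin, map_prod, map_sum, map_smul, ev_Xp h1]
  exact prod_mem fun w _ => sum_mem fun l _ => Subalgebra.smul_mem _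
    (Algebra.subset_adjoin (Set.mem_range.2 ⟨.inl ⟨w.1, l⟩, rat_inl h1 j _⟩)) _

lemma clear (h0 : ∀ w e, D.y x (.inr (w, e)) ≠ 0) {b : F} (hb : b ∈ D.B x (ch D j)) :
    ∃ (N : ℕ) (q : MvPolynomial D.Ax ℂ),
      b * aeval (D.xa x) (∏ w, U D w (j w)) ^ N = aeval (D.xa x) q := by
  classical
  induction hb using Algebra.adjoin_induction with
  | mem z hz =>
    obtain ⟨v | ⟨w, e⟩, rfl⟩ := hz
    · exact ⟨0, Xp D v.1 v.2, by rw [pow_zero, mul_one, rat_inl h1, ev_Xp h1]⟩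
    · refine ⟨1, U D w e * ∏ w' ∈ Finset.univ.erase w, U D w' (j w'), ?_⟩
      rw [pow_one, ← Finset.mul_prod_erase _ _ (Finset.mem_univ w), map_mul, map_mul, ev_U h1,
        ev_U h1, ← mul_assoc]
      exact congrArg (· * _) (div_mul_cancel₀ _ (h0 w (j w)))
  | algebraMap c => exact ⟨0, C c, by rw [pow_zero, mul_one, aeval_C]⟩
  | add a b _ _ ha hb =>
    obtain ⟨N, q, h⟩ := ha
    obtain ⟨N', q', h'⟩ := hb
    refine ⟨N + N', q * (∏ w, U D w (j w)) ^ N' + q' * (∏ w, U D w (j w)) ^ N, ?_⟩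
    rw [map_add, map_mul, map_mul, map_pow, map_pow, ← h, ← h']
    ring
  | mul a b _ _ ha hb =>
    obtain ⟨N, q, h⟩ := ha
    obtain ⟨N', q', h'⟩ := hb
    refine ⟨N + N', q * q', ?_⟩
    rw [map_mul, ← h, ← h']
    ring

omit h1

lemma X_one (i : Fin D.k) : D.X i 0 = 1 := rfl

lemma ev_inj : Function.Injective (aeval (D.xa D.X) : MvPolynomial D.Ax ℂ →ₐ[ℂ] D.L) := by
  have h : (aeval (D.xa D.X) : MvPolynomial D.Ax ℂ →ₐ[ℂ] D.L) =
      IsScalarTower.toAlgHom ℂ (MvPolynomial D.Ax ℂ) D.L := algHom_ext fun w => by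
    rw [aeval_X]; rfl
  rw [h]
  exact IsFractionRing.injective (MvPolynomial D.Ax ℂ) D.L

lemma W_ne : (∏ w, U D w (j w)) ≠ 0 := Finset.prod_ne_zero_iff.2 fun w _ => U_ne w _

end KER

open KER in
theorem st_ker : St_KER := by
  intro D K _ _ M P
  have hW : ∀ j : (Σ i, Fin (D.r i)) → Fin 2, aeval (D.xa D.X) (∏ w, U D w (j w)) ≠ 0 :=
    fun j h => W_ne j (ev_inj (h.trans (map_zero _).symm))
  refine ⟨fun h => ?_, ?_⟩
  · have h1 : ∀ j : (Σ i, Fin (D.r i)) → Fin 2, ∃ N, D.Fa ∣ P * (∏ w, U D w (j w)) ^ N := by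
      intro j
      obtain ⟨b, hb, e⟩ := (M.hyp.ker (ch D j) _).1 ((ev_rename M.hyp.one j P).trans h)
      rw [ev_rename X_one, f_eq X_one] at e
      obtain ⟨N, q, hq⟩ := clear X_one j (fun w e h => U_ne w e (ev_inj
        (((ev_U X_one w e).trans h).trans (map_zero _).symm))) hb
      refine ⟨N + 1, q, ev_inj ?_⟩
      rw [map_mul, map_mul, map_pow, e, ← hq, pow_succ]
      have := hW j
      field_simp
    by_cases h0 : D.Fa = 0
    · obtain ⟨N, hN⟩ := h1 fun _ => 0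
      rw [h0, zero_dvd_iff] at hN
      rw [(mul_eq_zero.1 hN).resolve_right (pow_ne_zero _ (W_ne _))]
      exact dvd_zero _
    · refine dvd_of_primes _ h0 P fun π hπ => ?_
      choose j hj using exists_not_dvd hπ
      obtain ⟨N, hN⟩ := h1 j
      refine ⟨_, fun h2 => ?_, hN⟩
      obtain ⟨w, -, hw⟩ := (hπ.dvd_finsetProd_iff _).1 (hπ.dvd_of_dvd_pow h2)
      exact hj w hw
  · rintro ⟨q, rfl⟩
    have h1 := (M.hyp.ker (ch D fun _ => 0) _).2 ⟨_, W_mem X_one _, by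
      rw [ev_rename X_one _ D.Fa, f_eq X_one, div_mul_cancel₀ _ (hW _)]⟩
    rw [ev_rename M.hyp.one] at h1
    rw [map_mul, h1, zero_mul]

end Pool.Agent.Lib.MV.Fb
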