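import Pool.Agent.Lib.MV.Blue
import Pool.Agent.Lib.MV.F_KER

namespace Pool.Agent.Lib.MV

theorem st_ker0 : St_KER0 := Fb.st_ker

end Pool.Agent.Lib.MV
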