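import Pool.Agent.Lib.MV.Basic

open MvPolynomial Set WithZero Pool.Agent.Lib.MP_e39d36_ag Pool.Agent.Lib.MP_e39d36_ag.Var
  Pool.Agent.Lib.MP_cc3443_ag Pool.Agent.Lib.DU

set_option linter.unusedSectionVars false
set_option linter.unusedVariables false

noncomputable section

namespace Pool.Agent.Lib.MV

namespace Ker1B

open Dat

variable {D : Dat} {F : Type} [Field F] [Algebra ℂ F] {x : ∀ i, Fin (D.n i + 1) → F}

lemma deg_lin {σ : Type} {w w' : σ} (h : w' ≠ w) (c : ℂ) :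
    (MvPolynomial.X w - C c : MvPolynomial σ ℂ).degreeOf w' = 0 := by
  classical
  have := degreeOf_sub_le w' (MvPolynomial.X w : MvPolynomial σ ℂ) (C c)
  rw [degreeOf_X, if_neg h, degreeOf_C] at this
  simpa using this

lemma lin_ne {σ : Type} (w : σ) (c : ℂ) : (MvPolynomial.X w - C c : MvPolynomial σ ℂ) ≠ 0 :=
  fun h => by simpa using congrArg (eval fun _ => c + 1) h

lemma pd_ne (h0 : St_KER0) {K : Type} [Field K] [Algebra ℂ K] (M : D.Mod K) :
    Nonempty M.X.PD := by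
  by_contra hn
  choose c hc using fun w : D.Ax =>
    eq_const (X := M.X) (z := D.xa M.x w) fun z => hartogs fun E _ => (hn ⟨E⟩).elim
  have h1 : ∀ w, D.Fa ≠ 0 ∧ ∀ w', w' ≠ w → D.Fa.degreeOf w' = 0 := fun w => by
    obtain ⟨q, hq⟩ := (h0 D K M (MvPolynomial.X w - C (c w))).1 (by simp [hc])
    have h2 := lin_ne w (c w)
    rw [hq] at h2
    refine ⟨left_ne_zero_of_mul h2, fun w' hw => ?_⟩
    have h3 := deg_lin hw (c w)
    rw [hq, degreeOf_mul_eq (left_ne_zero_of_mul h2) (right_ne_zero_of_mul h2)] at h3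
    omega
  have h2 : Nontrivial D.Ax := Fintype.one_lt_card_iff_nontrivial.1 (by
    have := D.dim
    simp only [Fintype.card_sigma, Fintype.card_fin]
    omega)
  have hv : D.Fa.vars = ∅ := Finset.eq_empty_of_forall_notMem fun w hw => by
    obtain ⟨w', h⟩ := exists_ne w
    exact mem_vars_iff_degreeOf_ne_zero.1 hw ((h1 w').2 w h.symm)
  have h3 := (h0 D K M _).2 dvd_rfl
  have h4 := vars_eq_empty_iff_eq_C.1 hv
  rw [h4, aeval_C, map_eq_zero] at h3
  obtain ⟨w⟩ : Nonempty D.Ax := inferInstance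
  exact (h1 w).1 (by rw [h4, h3, C_0])

lemma Fx_zero (h : D.Fa = 0) (hx : ∀ i, x i 0 ≠ 0) : D.Fx x = 0 := by
  have h1 := aeval_Fa (D := D) (x := fun i l => x i l / x i 0) fun i => div_self (hx i)
  rw [h, map_zero, Fx] at h1
  simp only [fun c i => aeval_div (D.G_hom c i) (x i) (x i 0), Finset.prod_div_distrib,
    ← Finset.sum_div] at h1
  exact (div_eq_zero_iff.1 h1.symm).resolve_right
    (Finset.prod_ne_zero_iff.2 fun i _ => pow_ne_zero _ (hx i))

lemma eval_Φ (τ : D.Ch) (i : Fin D.k) (z : Fin (D.n i + 1) → F) : eval z (D.Φ x τ i) =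
    D.Fx (Function.update x i z) / ∏ j ∈ Finset.univ.erase i, D.kap x τ j := by
  simp only [Φ, Fx, map_sum, Finset.sum_div, smul_eval]
  refine Finset.sum_congr rfl fun c _ => ?_
  rw [← Finset.prod_erase_mul _ _ (Finset.mem_univ i), Function.update_self, eval_map,
    ← aeval_def, Finset.prod_div_distrib, div_mul_eq_mul_div]
  refine congrArg (fun w => w * _ / _) (Finset.prod_congr rfl fun j hj => ?_)
  rw [Function.update_of_ne (Finset.ne_of_mem_erase hj)]

lemma Φ_zero (h : D.Fa = 0) (hx : ∀ i, x i 0 ≠ 0) (τ : D.Ch) (i : Fin D.k) : D.Φ x τ i = 0 := by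
  have : Infinite F := .of_injective _ (algebraMap ℂ F).injective
  have h1 : D.Φ x τ i * MvPolynomial.X 0 = 0 := MvPolynomial.funext fun z => by
    rw [map_mul, eval_X, map_zero]
    by_cases hz : z 0 = 0
    · rw [hz, mul_zero]
    · rw [eval_Φ, Fx_zero h fun j => ?_, zero_div, zero_mul]
      by_cases hj : j = i
      · subst hj; rwa [Function.update_self]
      · rw [Function.update_of_ne hj]; exact hx j
  exact (mul_eq_zero.1 h1).resolve_right (X_ne_zero _)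

lemma Fa_ne {K : Type} [Field K] [Algebra ℂ K] (M : D.Mod K) (E : M.X.PD) : D.Fa ≠ 0 := fun h => by
  obtain ⟨i, hi⟩ := D.surf
  obtain ⟨τ, hτ⟩ := M.hyp.chart E.1
  obtain ⟨l, hl⟩ := M.hyp.nonsing E.1 E.2 τ hτ.1 i ⟨0, by omega⟩
  rw [Φ_zero h (fun j => M.ne (.inl ⟨j, 0⟩)), map_zero, map_zero] at hl
  exact hl.1 rfl

lemma exists_R (τ : D.Ch) : ∃ R : MvPolynomial D.Vx ℂ, ∀ x : ∀ i, Fin (D.n i + 1) → F,
    aeval (D.rat x τ) R = ∏ w : Σ i, Fin (D.r i),
      D.y x (τ.1 ⟨w.1, some w.2⟩) / D.y x (τ.1 ⟨w.1, none⟩) := by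
  obtain ⟨l, j, rfl⟩ := exists_mkCh τ
  refine ⟨∏ w : Σ i, Fin (D.r i), rename (fun m => .inl ⟨w.1, m⟩) (D.Up w.1 w.2 (j w)),
    fun x => ?_⟩
  rw [map_prod]
  refine Finset.prod_congr rfl fun w _ => ?_
  rw [aeval_rename, aeval_Up, mkCh_some, y_inr, Finset.sum_div]
  exact Finset.sum_congr rfl fun m _ => (smul_div_assoc _ _ _).symm

/-- The generic point of a coordinate hyperplane. -/
def Xh (D : Dat) (i : Fin D.k) : ∀ j, Fin (D.n j + 1) → D.L :=
  Function.update D.X i (Fin.cons 0 fun l => D.X i l.succ)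

lemma exists_ne_Xh (i : Fin D.k) (μ : D.Sl) : ∃ t, D.sl t = μ ∧ D.y (Xh D i) t ≠ 0 := by
  obtain ⟨j, o⟩ := μ
  by_cases hj : j = i
  · subst hj
    rcases o with _ | a
    · refine ⟨.inl ⟨j, Fin.succ ⟨0, D.n_pos j⟩⟩, rfl, ?_⟩
      rw [y_inl, Xh, Function.update_self, Fin.cons_succ]
      exact yX_ne (D := D) (.inl ⟨j, Fin.succ ⟨0, D.n_pos j⟩⟩)
    · by_contra! h
      have h1 : ∀ k (l : Fin (D.n j)), D.u j a k l.succ = 0 := fun k l => by
        have h2 : (∑ l : Fin (D.n j), C (D.u j a k l.succ) * MvPolynomial.X ⟨j, l⟩ :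
            MvPolynomial D.Ax ℂ) = 0 := IsFractionRing.injective _ D.L (by
          rw [map_zero, ← h (.inr (⟨j, a⟩, k)) rfl, y_inr, Fin.sum_univ_succ]
          simp only [Xh, Function.update_self, X_succ, Algebra.smul_def, map_sum, map_mul,
            Fin.cons_zero, Fin.cons_succ, mul_zero, zero_add,
            IsScalarTower.algebraMap_apply ℂ (MvPolynomial D.Ax ℂ) D.L, algebraMap_eq])
        have := congrArg (eval (Pi.single ⟨j, l⟩ 1)) h2
        simpa [Pi.single_apply] using this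
      obtain ⟨w, hw⟩ := exists_dual_u j a ![1, 0]
      have h2 := hw 0
      have h3 := hw 1
      simp only [dotProduct, Fin.sum_univ_succ, h1, zero_mul, Finset.sum_const_zero, add_zero,
        Matrix.cons_val_zero, Matrix.cons_val_one] at h2 h3
      refine (D.u_ind j a).ne_zero 1 (funext (Fin.cases ?_ (h1 1)))
      exact (mul_eq_zero.1 h3).resolve_right fun e => by simp [e] at h2
  · rcases o with _ | a
    · refine ⟨.inl ⟨j, 0⟩, rfl, ?_⟩
      simp [Xh, hj, X_zero]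
    · refine ⟨.inr (⟨j, a⟩, 0), rfl, ?_⟩
      have := yX_ne (D := D) (.inr (⟨j, a⟩, 0))
      rw [y_inr] at this ⊢
      simpa only [Xh, Function.update_of_ne hj] using this

lemma not_dvd (hP : St_PTZ) {K : Type} [Field K] [Algebra ℂ K] (M : D.Mod K) (h : D.Fa ≠ 0)
    (i : Fin D.k) : ¬MvPolynomial.X ⟨i, 0⟩ ∣ D.Fp := by
  rintro ⟨G, hG⟩
  choose t h1 h2 using exists_ne_Xh (D := D) i
  obtain ⟨τ, hτ⟩ : ∃ τ : D.Ch, ∀ μ, D.y (Xh D i) (τ.1 μ) ≠ 0 := ⟨⟨t, h1⟩, h2⟩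
  have h3 : aeval (D.rat M.x τ) (rename Sum.inl G) = 0 := by
    have := aeval_rat_Fp (x := M.x) (τ := τ)
    rw [M.Fx_eq, zero_div, hG, map_mul, map_mul, rename_X, aeval_X] at this
    exact (mul_eq_zero.1 this).resolve_left (div_ne_zero (M.ne _) (M.ne _))
  obtain ⟨b, hb, e⟩ := (M.hyp.ker τ _).1 h3
  obtain ⟨Q, rfl⟩ := mem_B_iff.1 hb
  obtain ⟨R, hR⟩ := exists_R (F := D.L) τ
  have h4 := (aeval_rat_Fp (x := D.X) (τ := τ)).trans (Fx_div yX_ne)
  have h5 : D.f D.X τ ≠ 0 := by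
    rw [f_eq, Fx_X]
    exact div_ne_zero ((map_ne_zero_iff _ (IsFractionRing.injective _ _)).2 h) (gA_ne yX_ne)
  rw [hG, map_mul, map_mul, rename_X, e, mul_left_comm, mul_right_inj' h5, ← hR] at h4
  have h6 := hP D D.L (D.y (Xh D i)) τ (fun j a => mul_comm _ _) hτ
    (MvPolynomial.X (.inl ⟨i, 0⟩) * Q - R) (by rw [map_sub, map_mul, h4, sub_self])
  have h7 : D.zr (D.y (Xh D i)) τ (.inl ⟨i, 0⟩) = 0 := by simp [zr, Xh]
  rw [map_sub, map_mul, aeval_X, h7, zero_mul, zero_sub, neg_eq_zero] at h6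
  exact Finset.prod_ne_zero_iff.2 (fun w _ => div_ne_zero (hτ _) (hτ _)) ((hR _).symm.trans h6)

end Ker1B

open Ker1B in
theorem st_ker1 (h0 : St_KER0) (hP : St_PTZ) : St_KER1 := fun D K _ _ M =>
  have h := (pd_ne h0 M).elim (Fa_ne M)
  ⟨pd_ne h0 M, h, not_dvd hP M h⟩

end Pool.Agent.Lib.MV
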