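import Pool.Agent.Lib.MV.Blue

open MvPolynomial Set Pool.Agent.Lib.MP_e39d36_ag

set_option linter.unusedSectionVars false
set_option linter.unusedVariables false

noncomputable section

namespace Pool.Agent.Lib.MV

namespace PenB

theorem form_zero {m : ℕ} (hm : m = 3) {p q r u : Fin m → ℂ} (h : LinearIndependent ℂ ![p, q, r])
    (h1 : u ⬝ᵥ p = 0) (h2 : u ⬝ᵥ q = 0) (h3 : u ⬝ᵥ r = 0) : u = 0 := by
  have hs := h.span_eq_top_of_card_eq_finrank (by simp [hm])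
  refine dotProduct_eq_zero u fun w => ?_
  have hw : w ∈ Submodule.span ℂ (range ![p, q, r]) := hs ▸ Submodule.mem_top
  induction hw using Submodule.span_induction with
  | mem _ hx =>
    obtain ⟨j, rfl⟩ := hx
    fin_cases j
    exacts [h1, h2, h3]
  | zero => exact dotProduct_zero u
  | add _ _ _ _ a b => rw [dotProduct_add, a, b, add_zero]
  | smul _ _ _ a => rw [dotProduct_smul, a, smul_zero]

theorem exists_form {m : ℕ} (hm : m = 3) (p q : Fin m → ℂ) :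
    ∃ u : Fin m → ℂ, u ≠ 0 ∧ u ⬝ᵥ p = 0 ∧ u ⬝ᵥ q = 0 := by
  let f : (Fin m → ℂ) →ₗ[ℂ] ℂ × ℂ :=
    { toFun := fun u => (u ⬝ᵥ p, u ⬝ᵥ q)
      map_add' := fun a b => by simp [add_dotProduct]
      map_smul' := fun a b => by simp [smul_dotProduct] }
  obtain ⟨u, hu, h0⟩ := (Submodule.ne_bot_iff _).1
    (LinearMap.ker_ne_bot_of_finrank_lt (f := f) (by simp [hm]))
  exact ⟨u, h0, congrArg Prod.fst hu, congrArg Prod.snd hu⟩

theorem comb_form {m : ℕ} (hm : m = 3) {p q r u l l' : Fin m → ℂ}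
    (h : LinearIndependent ℂ ![p, q, r]) (hu : u ⬝ᵥ p = 0) (hl : l ≠ 0) (h1 : l ⬝ᵥ p = 0)
    (h2 : l ⬝ᵥ q = 0) (hl' : l' ≠ 0) (h3 : l' ⬝ᵥ p = 0) (h4 : l' ⬝ᵥ r = 0) :
    ∃ s s' : ℂ, u = s • l + s' • l' := by
  have a1 : l ⬝ᵥ r ≠ 0 := fun e => hl (form_zero hm h h1 h2 e)
  have a2 : l' ⬝ᵥ q ≠ 0 := fun e => hl' (form_zero hm h h3 e h4)
  refine ⟨u ⬝ᵥ r / l ⬝ᵥ r, u ⬝ᵥ q / l' ⬝ᵥ q, sub_eq_zero.1 (form_zero hm h ?_ ?_ ?_)⟩ <;>
    rw [sub_dotProduct, add_dotProduct, smul_dotProduct, smul_dotProduct, smul_eq_mul, smul_eq_mul]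
  · rw [hu, h1, h3]; ring
  · rw [h2, div_mul_cancel₀ _ a2]; ring
  · rw [h4, div_mul_cancel₀ _ a1]; ring

variable (D : Dat) {F : Type} [Field F] [Algebra ℂ F] (x : ∀ i, Fin (D.n i + 1) → F)

theorem ch_some (τ : D.Ch) (i : Fin D.k) (a : Fin (D.r i)) :
    ∃ j, τ.1 ⟨i, some a⟩ = .inr (⟨i, a⟩, j) := by
  have h := τ.2 ⟨i, some a⟩
  generalize τ.1 ⟨i, some a⟩ = t at h
  rcases t with ⟨i', l⟩ | ⟨⟨i', a'⟩, j⟩
  · cases h
  · cases h
    exact ⟨j, rfl⟩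

theorem gen_single (i : Fin D.k) (w : Option (Fin (D.r i)) → ℤ) (τ : D.Ch) :
    D.gen x (Pi.single i w) τ = ∏ o, D.y x (τ.1 ⟨i, o⟩) ^ w o := by
  unfold Dat.gen Dat.gA
  rw [Fintype.prod_sigma, Finset.prod_eq_single i (fun j _ hj => by
    simp [Pi.single_eq_of_ne hj]) (by simp)]
  simp

theorem prod_single {J : Type} [Fintype J] [DecidableEq J] (Y : J → F) (o : J) (c : ℤ) :
    ∏ o', Y o' ^ (Pi.single o c : J → ℤ) o' = Y o ^ c := by
  rw [Finset.prod_eq_single o (fun j _ hj => by simp [Pi.single_eq_of_ne hj]) (by simp)]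
  simp

theorem prod_add {J : Type} [Fintype J] {Y : J → F} (hY : ∀ o, Y o ≠ 0) (v w : J → ℤ) :
    ∏ o, Y o ^ (v + w) o = (∏ o, Y o ^ v o) * ∏ o, Y o ^ w o := by
  rw [← Finset.prod_mul_distrib]
  exact Finset.prod_congr rfl fun o _ => zpow_add₀ (hY o) _ _

/-- value of a linear form -/
def lv (i : Fin D.k) (u : Fin (D.n i + 1) → ℂ) : F := ∑ l, u l • x i l

/-- the local equation of the line through two points -/
def mm (τ : D.Ch) (i : Fin D.k) (u : Fin (D.n i + 1) → ℂ) (a b : Fin (D.r i)) : F :=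
  lv D x i u * D.y x (τ.1 ⟨i, none⟩) / (D.y x (τ.1 ⟨i, some a⟩) * D.y x (τ.1 ⟨i, some b⟩))

theorem mm_comm (τ : D.Ch) (i : Fin D.k) (u : Fin (D.n i + 1) → ℂ) (a b : Fin (D.r i)) :
    mm D x τ i u a b = mm D x τ i u b a := by
  rw [mm, mm, mul_comm (D.y x (τ.1 ⟨i, some a⟩))]

theorem kap1 (hK : St_KAP) (hx : ∀ t, D.y x t ≠ 0) (τ : D.Ch) (i : Fin D.k)
    (A : Finset (Fin (D.r i))) (u : Fin (D.n i + 1) → ℂ) (h : ∀ a ∈ A, u ⬝ᵥ D.p i a = 0) :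
    lv D x i u / (D.y x (τ.1 ⟨i, none⟩) ^ (1 - (A.card : ℤ)) * ∏ a ∈ A, D.y x (τ.1 ⟨i, some a⟩)) ∈
      D.B x τ := by
  have h1 := hK D F x hx τ i A 1 (∑ l, C (u l) * X l)
    (IsHomogeneous.sum _ _ _ fun l _ => isHomogeneous_C_mul_X _ _)
    (fun a ha => by simpa [dotProduct] using h a ha)
  have e : aeval (x i) (∑ l, C (u l) * X l : MvPolynomial (Fin (D.n i + 1)) ℂ) = lv D x i u := by
    simp [lv, Algebra.smul_def]
  rwa [e, Nat.cast_one] at h1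

theorem mm_mem (hK : St_KAP) (hx : ∀ t, D.y x t ≠ 0) (τ : D.Ch) {i : Fin D.k}
    {a b : Fin (D.r i)} (hab : a ≠ b) {u : Fin (D.n i + 1) → ℂ} (ha : u ⬝ᵥ D.p i a = 0)
    (hb : u ⬝ᵥ D.p i b = 0) : mm D x τ i u a b ∈ D.B x τ := by
  have h := kap1 D x hK hx τ i {a, b} u (by simpa using ⟨ha, hb⟩)
  rw [Finset.card_pair hab, Finset.prod_pair hab] at h
  have e : mm D x τ i u a b = lv D x i u / (D.y x (τ.1 ⟨i, none⟩) ^ (1 - ((2 : ℕ) : ℤ)) *
      (D.y x (τ.1 ⟨i, some a⟩) * D.y x (τ.1 ⟨i, some b⟩))) := by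
    have := hx (τ.1 ⟨i, none⟩)
    have := hx (τ.1 ⟨i, some a⟩)
    have := hx (τ.1 ⟨i, some b⟩)
    rw [mm, show (1 - ((2 : ℕ) : ℤ)) = -1 from rfl, zpow_neg_one]
    field_simp
  rwa [e]

theorem pt_mem (hK : St_KAP) (hx : ∀ t, D.y x t ≠ 0) (τ : D.Ch) (i : Fin D.k) (a : Fin (D.r i)) :
    D.y x (τ.1 ⟨i, some a⟩) / D.y x (τ.1 ⟨i, none⟩) ∈ D.B x τ := by
  obtain ⟨j, hj⟩ := ch_some D τ i a
  have h := kap1 D x hK hx τ i ∅ (D.u i a j) (by simp)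
  rw [hj]
  change lv D x i (D.u i a j) / _ ∈ _
  simpa using h

theorem mm_un (hK : St_KAP) (hx : ∀ t, D.y x t ≠ 0) (τ : D.Ch) {T : Subring F} (hT : IsLoc T)
    (hle : (D.B x τ).toSubring ≤ T) {i : Fin D.k} {a b c : Fin (D.r i)} (hab : a ≠ b)
    (hac : a ≠ c) (hbc : b ≠ c) {l l' : Fin (D.n i + 1) → ℂ} (hl : l ≠ 0)
    (h1 : l ⬝ᵥ D.p i a = 0) (h2 : l ⬝ᵥ D.p i b = 0) (hl' : l' ≠ 0) (h3 : l' ⬝ᵥ D.p i a = 0)
    (h4 : l' ⬝ᵥ D.p i c = 0) : Un T (mm D x τ i l a b) ∨ Un T (mm D x τ i l' a c) := by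
  obtain ⟨j, hj⟩ := ch_some D τ i a
  obtain ⟨s, s', hs⟩ := comb_form (by rw [D.n_eq i a.pos.ne']) (D.col i a b c hab hac hbc)
    (D.u_p i a j) hl h1 h2 hl' h3 h4
  have e1 : D.y x (τ.1 ⟨i, some a⟩) = s • lv D x i l + s' • lv D x i l' := by
    rw [hj]
    change lv D x i (D.u i a j) = _
    rw [hs]
    simp [lv, add_smul, mul_smul, Finset.sum_add_distrib, Finset.smul_sum]
  have m1 := hle (mm_mem D x hK hx τ hab h1 h2)
  have m2 := hle (mm_mem D x hK hx τ hac h3 h4)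
  have m3 := hle ((D.B x τ).smul_mem (pt_mem D x hK hx τ i b) s)
  have m4 := hle ((D.B x τ).smul_mem (pt_mem D x hK hx τ i c) s')
  have e2 : mm D x τ i l a b * s • (D.y x (τ.1 ⟨i, some b⟩) / D.y x (τ.1 ⟨i, none⟩)) +
      mm D x τ i l' a c * s' • (D.y x (τ.1 ⟨i, some c⟩) / D.y x (τ.1 ⟨i, none⟩)) = 1 := by
    have := hx (τ.1 ⟨i, none⟩)
    have := hx (τ.1 ⟨i, some a⟩)
    have := hx (τ.1 ⟨i, some b⟩)
    have := hx (τ.1 ⟨i, some c⟩)
    simp only [Algebra.smul_def] at e1 ⊢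
    rw [mm, mm]
    field_simp
    rw [e1]
    ring
  exact (hT.of_add (mul_mem m1 m3) (mul_mem m2 m4) (e2 ▸ Un.one)).imp
    (fun h => h.of_mul m1 m3) fun h => h.of_mul m2 m4

end PenB

open PenB in
theorem st_pen (hK : St_KAP) : St_PEN := by
  intro D F _ _ x hx i
  refine ⟨fun a => ?_, fun a b c d hab hac had hbc hbd hcd => ?_⟩
  · have hg : ∀ τ, D.gen x (Pi.single i (Pi.single (some a) 1)) τ = D.y x (τ.1 ⟨i, some a⟩) :=
      fun τ => by rw [gen_single, prod_single, zpow_one]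
    have hs : ∀ j, D.Sec x (Pi.single i (Pi.single (some a) 1)) (D.y x (.inr (⟨i, a⟩, j))) :=
      fun j τ => by
        rw [hg]
        exact Algebra.subset_adjoin ⟨.inr (⟨i, a⟩, j), rfl⟩
    refine ⟨_, _, hs 0, hs 1, fun τ T _ _ => ?_⟩
    obtain ⟨j, hj⟩ := ch_some D τ i a
    rw [hg, hj]
    fin_cases j
    · exact Or.inl (by simpa [div_self (hx _)] using Un.one)
    · exact Or.inr (by simpa [div_self (hx _)] using Un.one)
  · have hn : D.n i + 1 = 3 := by rw [D.n_eq i a.pos.ne']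
    obtain ⟨l1, n1, p1, q1⟩ := exists_form hn (D.p i a) (D.p i b)
    obtain ⟨l2, n2, p2, q2⟩ := exists_form hn (D.p i c) (D.p i d)
    obtain ⟨l3, n3, p3, q3⟩ := exists_form hn (D.p i a) (D.p i c)
    obtain ⟨l4, n4, p4, q4⟩ := exists_form hn (D.p i b) (D.p i d)
    have hg : ∀ τ : D.Ch, D.gen x (Pi.single i (conic a b c d)) τ =
        D.y x (τ.1 ⟨i, none⟩) ^ (-2 : ℤ) * D.y x (τ.1 ⟨i, some a⟩) * D.y x (τ.1 ⟨i, some b⟩) *
          D.y x (τ.1 ⟨i, some c⟩) * D.y x (τ.1 ⟨i, some d⟩) := fun τ => by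
      have hY : ∀ o, D.y x (τ.1 ⟨i, o⟩) ≠ 0 := fun o => hx _
      rw [gen_single, conic, prod_add hY, prod_add hY, prod_add hY, prod_add hY]
      simp only [prod_single, zpow_one]
    have e : ∀ τ : D.Ch,
        lv D x i l1 * lv D x i l2 / D.gen x (Pi.single i (conic a b c d)) τ =
          mm D x τ i l1 a b * mm D x τ i l2 c d ∧
        lv D x i l3 * lv D x i l4 / D.gen x (Pi.single i (conic a b c d)) τ =
          mm D x τ i l3 a c * mm D x τ i l4 b d := fun τ => by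
      have := hx (τ.1 ⟨i, none⟩)
      have := hx (τ.1 ⟨i, some a⟩)
      have := hx (τ.1 ⟨i, some b⟩)
      have := hx (τ.1 ⟨i, some c⟩)
      have := hx (τ.1 ⟨i, some d⟩)
      rw [hg, mm, mm, mm, mm, zpow_neg, zpow_ofNat]
      constructor <;> field_simp
    refine ⟨lv D x i l1 * lv D x i l2, lv D x i l3 * lv D x i l4, fun τ => ?_, fun τ => ?_,
      fun τ T hT hle => ?_⟩
    · rw [(e τ).1]
      exact mul_mem (mm_mem D x hK hx τ hab p1 q1) (mm_mem D x hK hx τ hcd p2 q2)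
    · rw [(e τ).2]
      exact mul_mem (mm_mem D x hK hx τ hac p3 q3) (mm_mem D x hK hx τ hbd p4 q4)
    · rw [(e τ).1, (e τ).2]
      have u1 := mm_un D x hK hx τ hT hle hab hac hbc n1 p1 q1 n3 p3 q3
      have u2 := mm_un D x hK hx τ hT hle hab.symm hbd had n1 q1 p1 n4 p4 q4
      have u3 := mm_un D x hK hx τ hT hle hcd hac.symm had.symm n2 p2 q2 n3 q3 p3
      have u4 := mm_un D x hK hx τ hT hle hcd.symm hbd.symm hbc.symm n2 q2 p2 n4 q4 p4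
      rw [mm_comm D x τ i l1] at u2
      rw [mm_comm D x τ i l3] at u3
      rw [mm_comm D x τ i l2, mm_comm D x τ i l4] at u4
      by_cases v1 : Un T (mm D x τ i l1 a b)
      · by_cases v2 : Un T (mm D x τ i l2 c d)
        · exact Or.inl (v1.mul v2)
        · exact Or.inr ((u3.resolve_left v2).mul (u4.resolve_left v2))
      · exact Or.inr ((u1.resolve_left v1).mul (u2.resolve_left v1))

end Pool.Agent.Lib.MV
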