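import Pool.Agent.Lib.MV.Blue

open MvPolynomial

noncomputable section

namespace Pool.Agent.Lib.MV

namespace PtzB

/-- Relations between fractions are preserved by specialisation. -/
theorem spec {σ A K F : Type} [CommRing A] [Algebra ℂ A] [Field K] [Algebra ℂ K] [Field F]
    [Algebra ℂ F] (ι : A →ₐ[ℂ] K) (hι : Function.Injective ι) (φ : A →ₐ[ℂ] F) {ρ : σ → K}
    {ρ' : σ → F} (h : ∀ t, ∃ a b : A, φ b ≠ 0 ∧ ρ t = ι a / ι b ∧ ρ' t = φ a / φ b)
    (P : MvPolynomial σ ℂ) (hP : aeval ρ P = 0) : aeval ρ' P = 0 := by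
  have key : ∀ P : MvPolynomial σ ℂ, ∃ q s : A, φ s ≠ 0 ∧ aeval ρ P * ι s = ι q ∧
      aeval ρ' P * φ s = φ q := by
    intro P
    induction P using MvPolynomial.induction_on with
    | C c => exact ⟨algebraMap ℂ A c, 1, by simp, by simp, by simp⟩
    | add P Q hP hQ =>
      obtain ⟨q, s, h1, h2, h3⟩ := hP
      obtain ⟨q', s', h1', h2', h3'⟩ := hQ
      refine ⟨q * s' + q' * s, s * s', by rw [map_mul]; exact mul_ne_zero h1 h1', ?_, ?_⟩
      · simp only [map_add, map_mul, ← h2, ← h2']; ring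
      · simp only [map_add, map_mul, ← h3, ← h3']; ring
    | mul_X P t hP =>
      obtain ⟨q, s, h1, h2, h3⟩ := hP
      obtain ⟨a, b, hb, e, e'⟩ := h t
      have hb' : ι b ≠ 0 := fun e0 => hb (by rw [hι (e0.trans (map_zero ι).symm), map_zero])
      refine ⟨q * a, s * b, by rw [map_mul]; exact mul_ne_zero h1 hb, ?_, ?_⟩
      · simp only [map_mul, aeval_X, ← h2, e]; field_simp
      · simp only [map_mul, aeval_X, ← h3, e']; field_simp
  obtain ⟨q, s, h1, h2, h3⟩ := key P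
  rw [hP, zero_mul] at h2
  rw [hι (h2.symm.trans (map_zero ι).symm), map_zero] at h3
  exact (mul_eq_zero.1 h3).resolve_right h1

variable (D : Dat)

/-- The slot coordinates with values in a ring. -/
def yR {A : Type} [CommRing A] [Algebra ℂ A] (x : ∀ i, Fin (D.n i + 1) → A) : D.Vx → A :=
  Sum.elim (fun v => x v.1 v.2) fun v => ∑ l, D.u v.1.1 v.1.2 v.2 l • x v.1.1 l

theorem map_yR {A K : Type} [CommRing A] [Algebra ℂ A] [Field K] [Algebra ℂ K] (g : A →ₐ[ℂ] K)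
    (x : ∀ i, Fin (D.n i + 1) → A) (t : D.Vx) :
    g (yR D x t) = D.y (fun i l => g (x i l)) t := by
  rcases t with v | v
  · rfl
  · simp [yR, Dat.y, map_sum]

theorem y_div {K : Type} [Field K] [Algebra ℂ K] (x : ∀ i, Fin (D.n i + 1) → K) (c : Fin D.k → K)
    (t : D.Vx) : D.y (fun i l => x i l / c i) t = D.y x t / c (D.sl t).1 := by
  rcases t with v | v
  · rfl
  · simp only [Dat.y, Dat.sl, Sum.elim_inr, Finset.sum_div, smul_div_assoc]

theorem step1 {K : Type} [Field K] [Algebra ℂ K] (x : ∀ i, Fin (D.n i + 1) → K) (τ : D.Ch)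
    (h0 : ∀ i, x i 0 ≠ 0) (h1 : ∀ μ, D.y x (τ.1 μ) ≠ 0) (P : MvPolynomial D.Vx ℂ)
    (hP : aeval (D.rat D.X τ) P = 0) : aeval (D.rat x τ) P = 0 := by
  let xA : ∀ i, Fin (D.n i + 1) → MvPolynomial (Σ i, Fin (D.n i)) ℂ := fun i =>
    Fin.cons 1 fun l => MvPolynomial.X ⟨i, l⟩
  let ι := IsScalarTower.toAlgHom ℂ (MvPolynomial (Σ i, Fin (D.n i)) ℂ) D.L
  let φ : MvPolynomial (Σ i, Fin (D.n i)) ℂ →ₐ[ℂ] K := aeval fun w => x w.1 w.2.succ / x w.1 0
  have e1 : (fun i l => ι (xA i l)) = D.X := by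
    funext i l
    refine Fin.cases ?_ (fun l => ?_) l
    · exact map_one ι
    · rfl
  have e2 : (fun i l => φ (xA i l)) = fun i l => x i l / x i 0 := by
    funext i l
    refine Fin.cases ?_ (fun l => ?_) l
    · exact (map_one φ).trans (div_self (h0 i)).symm
    · exact aeval_X _ _
  refine spec ι (IsFractionRing.injective _ _) φ (fun t => ⟨yR D xA t, yR D xA (τ.1 (D.sl t)),
    ?_, ?_, ?_⟩) P hP
  · rw [map_yR, e2, y_div]
    exact div_ne_zero (h1 _) (h0 _)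
  · rw [map_yR, map_yR, e1]; rfl
  · rw [map_yR, map_yR, e2, y_div, y_div, τ.2, div_div_div_cancel_right₀ (h0 _)]; rfl

theorem rank_u (i : Fin D.k) (a : Fin (D.r i)) :
    Module.finrank ℂ (LinearMap.range (Matrix.of (D.u i a)).mulVecLin) = 2 :=
  (LinearIndependent.rank_matrix (M := Matrix.of (D.u i a)) (D.u_ind i a)).trans (by simp)

theorem exists_dual (i : Fin D.k) (a : Fin (D.r i)) (c : Fin 2 → ℂ) :
    ∃ d : Fin (D.n i + 1) → ℂ, ∀ j, D.u i a j ⬝ᵥ d = c j := by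
  have h : LinearMap.range (Matrix.of (D.u i a)).mulVecLin = ⊤ :=
    Submodule.eq_top_of_finrank_eq ((rank_u D i a).trans (by simp))
  obtain ⟨d, hd⟩ := LinearMap.range_eq_top.1 h c
  exact ⟨d, fun j => congrFun hd j⟩

theorem ker_u (i : Fin D.k) (a : Fin (D.r i)) {v : Fin (D.n i + 1) → ℂ}
    (h : ∀ j, D.u i a j ⬝ᵥ v = 0) : ∃ c : ℂ, c • D.p i a = v := by
  have h1 := LinearMap.finrank_range_add_finrank_ker (Matrix.of (D.u i a)).mulVecLin
  have h2 : D.n i = 2 := D.n_eq i fun e => by have := a.2; omega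
  rw [rank_u, Module.finrank_fin_fun] at h1
  have h3 : Module.finrank ℂ (LinearMap.ker (Matrix.of (D.u i a)).mulVecLin) = 1 := by omega
  obtain ⟨c, hc⟩ := (finrank_eq_one_iff_of_nonzero'
    (⟨D.p i a, funext (D.u_p i a)⟩ : LinearMap.ker (Matrix.of (D.u i a)).mulVecLin)
    (fun e => D.p_ne i a (congrArg Subtype.val e))).1 h3 ⟨v, funext h⟩
  exact ⟨c, congrArg Subtype.val hc⟩

theorem two {F : Type} [Field F] [Algebra ℂ F] (i : Fin D.k) {a b : Fin (D.r i)} (hab : a ≠ b)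
    {z : Fin (D.n i + 1) → F} (ha : ∀ j, ∑ l, D.u i a j l • z l = 0)
    (hb : ∀ j, ∑ l, D.u i b j l • z l = 0) (l : Fin (D.n i + 1)) : z l = 0 := by
  refine (Module.forall_dual_apply_eq_zero_iff ℂ (z l)).1 fun g => ?_
  have h : ∀ a : Fin (D.r i), (∀ j, ∑ l, D.u i a j l • z l = 0) →
      ∃ c : ℂ, c • D.p i a = fun l => g (z l) := fun a ha => ker_u D i a fun j => by
    have := congrArg g (ha j)
    simpa [map_sum, dotProduct] using this
  obtain ⟨c, hc⟩ := h a ha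
  obtain ⟨c', hc'⟩ := h b hb
  have h1 := (LinearIndependent.pair_iff.1 (D.dist i a b hab) c (-c')
    (by rw [neg_smul, hc, hc', add_neg_cancel])).1
  rw [h1, zero_smul] at hc
  exact (congrFun hc l).symm

theorem exists_w {F : Type} [Field F] [Algebra ℂ F] (i : Fin D.k) {z : Fin (D.n i + 1) → F}
    {l₀ : Fin (D.n i + 1)} (hz : z l₀ ≠ 0) (c : Fin (D.r i) → Fin 2 → F) :
    ∃ w : Fin (D.n i + 1) → F, ∀ a, (∀ j, ∑ l, D.u i a j l • z l = 0) →
      ∀ j, ∑ l, D.u i a j l • w l = c a j := by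
  by_cases h : ∃ a, ∀ j, ∑ l, D.u i a j l • z l = 0
  · obtain ⟨a, ha⟩ := h
    choose d hd using fun k : Fin 2 => exists_dual D i a (Pi.single k 1)
    refine ⟨fun l => ∑ k, d k l • c a k, fun b hb j => ?_⟩
    obtain rfl : b = a := by
      by_contra hab
      exact hz (two D i hab hb ha l₀)
    have e : ∀ k, ∑ l, D.u i b j l * d k l = (Pi.single k 1 : Fin 2 → ℂ) j := fun k => hd k j
    simp only [Finset.smul_sum, smul_smul]
    rw [Finset.sum_comm]
    simp only [← Finset.sum_smul, e]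
    fin_cases j <;> simp
  · exact ⟨0, fun a ha => absurd ⟨a, ha⟩ h⟩

theorem slot_none (τ : D.Ch) (i : Fin D.k) : ∃ l, τ.1 ⟨i, none⟩ = .inl ⟨i, l⟩ := by
  have h := τ.2 ⟨i, none⟩
  rcases e : τ.1 ⟨i, none⟩ with ⟨i', l⟩ | ⟨⟨i', a⟩, j⟩
  · rw [e] at h
    obtain rfl : i' = i := congrArg Sigma.fst h
    exact ⟨l, rfl⟩
  · rw [e] at h
    obtain rfl : i' = i := congrArg Sigma.fst h
    exact absurd (eq_of_heq (Sigma.mk.inj h).2) (by simp)

theorem slot_some (τ : D.Ch) (i : Fin D.k) (a : Fin (D.r i)) :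
    ∃ j, τ.1 ⟨i, some a⟩ = .inr (⟨i, a⟩, j) := by
  have h := τ.2 ⟨i, some a⟩
  rcases e : τ.1 ⟨i, some a⟩ with ⟨i', l⟩ | ⟨⟨i', a'⟩, j⟩
  · rw [e] at h
    obtain rfl : i' = i := congrArg Sigma.fst h
    exact absurd (eq_of_heq (Sigma.mk.inj h).2) (by simp)
  · rw [e] at h
    obtain rfl : i' = i := congrArg Sigma.fst h
    obtain rfl : a' = a := Option.some_injective _ (eq_of_heq (Sigma.mk.inj h).2)
    exact ⟨j, rfl⟩

end PtzB

open PtzB in
theorem st_ptz : St_PTZ := by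
  intro D F _ _ z τ hI hz P hP
  choose l₀ hl₀ using slot_none D τ
  choose j₀ hj₀ using slot_some D τ
  have hz0 : ∀ i, z (.inl ⟨i, l₀ i⟩) ≠ 0 := fun i => hl₀ i ▸ hz ⟨i, none⟩
  have hz1 : ∀ i a, z (.inr (⟨i, a⟩, j₀ i a)) ≠ 0 := fun i a => hj₀ i a ▸ hz ⟨i, some a⟩
  choose w hw using fun i => exists_w D i (z := fun l => z (.inl ⟨i, l⟩)) (hz0 i)
    fun a j => z (.inr (⟨i, a⟩, j))
  let xp : ∀ i, Fin (D.n i + 1) → Polynomial F := fun i l =>
    Polynomial.C (z (.inl ⟨i, l⟩)) + Polynomial.X * (Polynomial.C (w i l) +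
      Polynomial.X * Polynomial.C (if l = 0 then 1 else 0))
  let ι := IsScalarTower.toAlgHom ℂ (Polynomial F) (FractionRing (Polynomial F))
  have hι : Function.Injective ι := IsFractionRing.injective _ _
  let φ : Polynomial F →ₐ[ℂ] F := (Polynomial.aeval (0 : F)).restrictScalars ℂ
  have hφ : ∀ (c : F) (q : Polynomial F), φ (Polynomial.C c + Polynomial.X * q) = c :=
    fun c q => by simp [φ]
  have hC : ∀ (s : ℂ) (c : F), s • Polynomial.C c = Polynomial.C (s • c) := fun s c =>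
    Polynomial.smul_C s c
  have hy : ∀ i a j, ∃ q, yR D xp (.inr (⟨i, a⟩, j)) =
      Polynomial.C (∑ l, D.u i a j l • z (.inl ⟨i, l⟩)) +
        Polynomial.X * (Polynomial.C (∑ l, D.u i a j l • w i l) + Polynomial.X * q) :=
    fun i a j => ⟨∑ l, D.u i a j l • Polynomial.C (if l = 0 then 1 else 0), by
      simp only [yR, Sum.elim_inr, xp, map_sum, ← hC, smul_add, Finset.mul_sum, mul_add,
        mul_smul_comm, Finset.sum_add_distrib]⟩
  have key : ∀ μ : D.Sl, ∃ c : Polynomial F, c ≠ 0 ∧ ∃ g : D.Vx → Polynomial F,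
      (∀ t, D.sl t = μ → yR D xp t = c * g t) ∧ φ (g (τ.1 μ)) ≠ 0 ∧
      ∀ t, D.sl t = μ → z t / z (τ.1 μ) = φ (g t) / φ (g (τ.1 μ)) := by
    rintro ⟨i, _ | a⟩
    · have e : ∀ t, D.sl t = ⟨i, none⟩ → φ (yR D xp t) = z t := by
        rintro (⟨i', l⟩ | ⟨⟨i', a⟩, j⟩) h
        · exact hφ _ _
        · obtain rfl : i' = i := congrArg Sigma.fst h
          exact absurd (eq_of_heq (Sigma.mk.inj h).2) (by simp)
      refine ⟨1, one_ne_zero, yR D xp, fun t _ => (one_mul _).symm, ?_, fun t ht => ?_⟩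
      · rw [e _ (τ.2 _)]; exact hz _
      · rw [e _ (τ.2 _), e t ht]
    · have e : ∀ t, D.sl t = ⟨i, some a⟩ → ∃ j, t = .inr (⟨i, a⟩, j) := by
        rintro (⟨i', l⟩ | ⟨⟨i', a'⟩, j⟩) h
        · obtain rfl : i' = i := congrArg Sigma.fst h
          exact absurd (eq_of_heq (Sigma.mk.inj h).2) (by simp)
        · obtain rfl : i' = i := congrArg Sigma.fst h
          obtain rfl : a' = a := Option.some_injective _ (eq_of_heq (Sigma.mk.inj h).2)
          exact ⟨j, rfl⟩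
      by_cases hb : ∀ j, ∑ l, D.u i a j l • z (.inl ⟨i, l⟩) = 0
      · choose q hq using hy i a
        refine ⟨Polynomial.X, Polynomial.X_ne_zero, Sum.elim 0 fun v =>
          Polynomial.C (z (.inr (⟨i, a⟩, v.2))) + Polynomial.X * q v.2, fun t ht => ?_, ?_,
          fun t ht => ?_⟩
        · obtain ⟨j, rfl⟩ := e t ht
          rw [hq, hb, hw i a hb, map_zero, zero_add]; rfl
        · rw [hj₀, Sum.elim_inr, hφ]; exact hz1 i a
        · obtain ⟨j, rfl⟩ := e t ht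
          rw [hj₀, Sum.elim_inr, Sum.elim_inr, hφ, hφ]
      · have e1 : ∀ j, φ (yR D xp (.inr (⟨i, a⟩, j))) = ∑ l, D.u i a j l • z (.inl ⟨i, l⟩) :=
          fun j => by
            obtain ⟨q, hq⟩ := hy i a j
            rw [hq, hφ]
        have e2 : ∀ j j', z (.inr (⟨i, a⟩, j)) * ∑ l, D.u i a j' l • z (.inl ⟨i, l⟩) =
            z (.inr (⟨i, a⟩, j')) * ∑ l, D.u i a j l • z (.inl ⟨i, l⟩) := fun j j' => by
          fin_cases j <;> fin_cases j'
          · rfl
          · exact hI i a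
          · exact (hI i a).symm
          · rfl
        have e3 : ∑ l, D.u i a (j₀ i a) l • z (.inl ⟨i, l⟩) ≠ 0 := fun e0 => hb fun j => by
          have := e2 j (j₀ i a)
          rw [e0, mul_zero] at this
          exact (mul_eq_zero.1 this.symm).resolve_left (hz1 i a)
        refine ⟨1, one_ne_zero, yR D xp, fun t _ => (one_mul _).symm, ?_, fun t ht => ?_⟩
        · rw [hj₀, e1]; exact e3
        · obtain ⟨j, rfl⟩ := e t ht
          rw [hj₀, e1, e1, div_eq_div_iff (hz1 i a) e3, e2 j (j₀ i a), mul_comm]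
  choose c hc g hg hg0 hg1 using key
  have hne : ∀ {q : Polynomial F}, q ≠ 0 → ι q ≠ 0 := fun h e =>
    h (hι (e.trans (map_zero ι).symm))
  have h1 := step1 D (fun i l => ι (xp i l)) τ (fun i => hne fun e => by
      have := congrArg (fun q => q.coeff 2) e
      simp [xp, Polynomial.coeff_X_mul, Polynomial.coeff_C, Polynomial.coeff_X] at this)
    (fun μ => by
      rw [← map_yR, hg μ _ (τ.2 μ)]
      exact hne (mul_ne_zero (hc μ) fun e => hg0 μ (by rw [e, map_zero]))) P hP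
  refine spec ι hι φ (fun t => ⟨g (D.sl t) t, g (D.sl t) (τ.1 (D.sl t)), hg0 _, ?_,
    hg1 _ t rfl⟩) P h1
  rw [Dat.rat, ← map_yR, ← map_yR, hg _ t rfl, hg _ _ (τ.2 _), map_mul, map_mul,
    mul_div_mul_left _ _ (hne (hc _))]

end Pool.Agent.Lib.MV
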