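import Pool.Agent.Lib.MV.Blue

open MvPolynomial Set WithZero Pool.Agent.Lib.MP_e39d36_ag Pool.Agent.Lib.MP_e39d36_ag.Var

noncomputable section

namespace Pool.Agent.Lib.MV

namespace RegsB

/-- two independent elements form a regular sequence -/
lemma reg {R L : Type} [CommRing R] [IsDomain R] [Field L] [Algebra R L] {u : Fin 2 → L}
    (hu : AlgebraicIndependent R u) {w : L} {N : ℕ}
    (h : ∀ j, u j ^ N * w ∈ Algebra.adjoin R (range u)) : w ∈ Algebra.adjoin R (range u) := by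
  rw [Algebra.adjoin_range_eq_range_aeval] at h ⊢
  obtain ⟨P, hP⟩ := h 0
  obtain ⟨Q, hQ⟩ := h 1
  have e : X 1 ^ N * P = X 0 ^ N * Q := hu (by
    change aeval u P = _ at hP
    change aeval u Q = _ at hQ
    simp only [map_mul, map_pow, aeval_X, hP, hQ]
    ring)
  have hp : Prime (X 0 : MvPolynomial (Fin 2) R) := X_prime
  obtain ⟨S, rfl⟩ := hp.pow_dvd_of_dvd_mul_left N
    (fun h => absurd (X_dvd_X.1 (hp.dvd_of_dvd_pow h)) (by decide)) ⟨Q, e⟩
  refine ⟨S, mul_left_cancel₀ (pow_ne_zero N (hu.ne_zero 0)) ?_⟩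
  rw [← hP]
  change _ * aeval u S = aeval u _
  simp only [map_mul, map_pow, aeval_X]

lemma ex_sub {L : Type} [Field L] [Algebra ℂ L] (K : IntermediateField ℂ L)
    (E : IntermediateField K L) : ∃ A : Subalgebra ℂ L, ∀ x, x ∈ A ↔ x ∈ E :=
  ⟨(E.restrictScalars ℂ).toSubalgebra, fun _ => Iff.rfl⟩

/-- the polynomial ring in two elements independent over a subfield -/
lemma ex_ring {L : Type} [Field L] [Algebra ℂ L] (K : IntermediateField ℂ L) (B : Subalgebra ℂ L)
    {u : Fin 2 → L} (hu : AlgebraicIndependent K u) (hB : ∀ j, u j ∈ B) :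
    ∃ A : Subalgebra ℂ L, A ≤ B ∧ (∀ j, u j ∈ A) ∧ (∀ x ∈ B, x ∈ K → x ∈ A) ∧
      ∀ (w : L) (N : ℕ), (∀ j, u j ^ N * w ∈ A) → w ∈ A := by
  let R : Subalgebra ℂ L := B ⊓ K.toSubalgebra
  have i2 : AlgebraicIndependent R u :=
    AlgebraicIndependent.of_ringHom_of_comp_eq (S := K) (B := L)
      ((algebraMap R L).codRestrict K fun r => r.2.2) (RingHom.id L) hu
      (fun _ _ e => Subtype.ext (congrArg (fun y : K => (y : L)) e)) (RingHom.ext fun _ => rfl)
  obtain ⟨A, hA⟩ : ∃ A : Subalgebra ℂ L, ∀ x, x ∈ A ↔ x ∈ Algebra.adjoin R (range u) :=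
    ⟨(Algebra.adjoin R (range u)).restrictScalars ℂ, fun _ => Iff.rfl⟩
  refine ⟨A, fun x hx => ?_, fun j => (hA _).2 (Algebra.subset_adjoin ⟨j, rfl⟩),
    fun x h1 h2 => (hA _).2 ((Algebra.adjoin R (range u)).algebraMap_mem ⟨x, h1, h2⟩),
    fun w N h => (hA _).2 (reg i2 fun j => (hA _).1 (h j))⟩
  replace hx := (hA _).1 hx
  induction hx using Algebra.adjoin_induction with
  | mem x hx => obtain ⟨j, rfl⟩ := hx; exact hB j
  | algebraMap r => exact r.2.1
  | add x y _ _ hx hy => exact add_mem hx hy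
  | mul x y _ _ hx hy => exact mul_mem hx hy

variable (D : Dat) (i : Fin D.k)

/-- a form through a point is a combination of the two lines -/
lemma span_u (a : Fin (D.r i)) {c : Fin (D.n i + 1) → ℂ} (h : c ⬝ᵥ D.p i a = 0) :
    ∃ c0 c1 : ℂ, c = c0 • D.u i a 0 + c1 • D.u i a 1 := by
  let f : (Fin (D.n i + 1) → ℂ) →ₗ[ℂ] ℂ :=
    ⟨⟨fun c => c ⬝ᵥ D.p i a, fun _ _ => add_dotProduct _ _ _⟩, fun r c => smul_dotProduct r c _⟩
  have hn : D.n i = 2 := D.n_eq i (Nat.ne_of_gt (Fin.pos a))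
  have h1 : LinearMap.ker f ≠ ⊤ := fun e => D.p_ne i a (funext fun m => by
    have : Pi.single m 1 ∈ LinearMap.ker f := e ▸ Submodule.mem_top
    simpa [f] using this)
  have h2 := Submodule.finrank_lt h1
  rw [Module.finrank_fin_fun] at h2
  have h3 : Submodule.span ℂ (range (D.u i a)) = LinearMap.ker f := by
    refine Submodule.eq_of_le_of_finrank_le (Submodule.span_le.2 ?_) ?_
    · rintro _ ⟨j, rfl⟩
      exact D.u_p i a j
    · rw [finrank_span_eq_card (D.u_ind i a), Fintype.card_fin]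
      omega
  have h4 : c ∈ Submodule.span ℂ (range (D.u i a)) := by rw [h3]; exact h
  obtain ⟨d, hd⟩ := (Submodule.mem_span_range_iff_exists_fun ℂ).1 h4
  exact ⟨d 0, d 1, by rw [← hd, Fin.sum_univ_two]⟩

/-- one of the two lines through `p b` misses `p a` -/
lemma two (a b : Fin (D.r i)) (hab : a ≠ b) : ∃ j, D.u i b j ⬝ᵥ D.p i a ≠ 0 := by
  by_contra! h
  obtain ⟨m, hm⟩ := Function.ne_iff.1 (D.p_ne i b)
  refine hm ((LinearIndependent.pair_iff.1 (D.dist i a b hab) (D.p i b m) (-D.p i a m) ?_).1)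
  funext m'
  obtain ⟨c0, c1, e⟩ := span_u D i b
    (c := D.p i b m • Pi.single m' 1 - D.p i b m' • Pi.single m 1) (by simp [mul_comm])
  have := congrArg (· ⬝ᵥ D.p i a) e
  simp only [sub_dotProduct, add_dotProduct, smul_dotProduct, single_dotProduct, h, smul_eq_mul,
    one_mul, mul_zero, add_zero] at this
  simp only [Pi.add_apply, Pi.smul_apply, smul_eq_mul, Pi.zero_apply]
  linear_combination this

lemma X_ne (m : Fin (D.n i + 1)) : D.X i m ≠ 0 := by
  refine Fin.cases one_ne_zero (fun m => ?_) m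
  exact (map_ne_zero_iff _ (IsFractionRing.injective _ _)).2 (X_ne_zero _)

/-- the value of a linear form -/
def fv (c : Fin (D.n i + 1) → ℂ) : D.L := ∑ m, c m • D.X i m

lemma ev_single (m : Fin (D.n i + 1)) : fv D i (Pi.single m 1) = D.X i m := by
  simp [fv, Pi.single_apply]

lemma ev_comb (a b : ℂ) (c d : Fin (D.n i + 1) → ℂ) :
    fv D i (a • c + b • d) = a • fv D i c + b • fv D i d := by
  simp [fv, add_smul, mul_smul, Finset.sum_add_distrib, Finset.smul_sum]

/-- the value of a form in terms of the two lines -/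
lemma ev_eq (a : Fin (D.r i)) (l : Fin (D.n i + 1)) (c : Fin (D.n i + 1) → ℂ) :
    ∃ c0 c1 : ℂ, D.p i a l • (fv D i c / D.X i l) = algebraMap ℂ D.L (c ⬝ᵥ D.p i a) +
      (c0 • (fv D i (D.u i a 0) / D.X i l) + c1 • (fv D i (D.u i a 1) / D.X i l)) := by
  obtain ⟨c0, c1, e⟩ := span_u D i a
    (c := D.p i a l • c + (-(c ⬝ᵥ D.p i a)) • Pi.single l 1) (by simp [mul_comm])
  have := congrArg (fv D i) e
  rw [ev_comb, ev_comb, ev_single] at this
  refine ⟨c0, c1, ?_⟩
  have h := X_ne D i l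
  simp only [Algebra.smul_def, map_neg] at this ⊢
  field_simp
  linear_combination this

/-- the function field of the other factors -/
def Kp : IntermediateField ℂ D.L :=
  IntermediateField.adjoin ℂ (D.xa D.X '' {w | w.1 ≠ i})

lemma X_mem {j : Fin D.k} (h : j ≠ i) (m : Fin (D.n j + 1)) : D.X j m ∈ Kp D i :=
  Fin.cases (one_mem _) (fun m => IntermediateField.subset_adjoin _ _ ⟨⟨j, m⟩, h, rfl⟩) m

lemma y_mem {t : D.Vx} (h : (D.sl t).1 ≠ i) : D.y D.X t ∈ Kp D i := by
  rcases t with ⟨j, m⟩ | ⟨⟨j, b⟩, k⟩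
  · exact X_mem D i h m
  · change ∑ m, D.u j b k m • D.X j m ∈ _
    exact sum_mem fun m _ => IntermediateField.smul_mem _ (X_mem D i (j := j) h m)

lemma indep (hn : D.n i = 2) {u : Fin 2 → D.L}
    (h : ∀ m, D.X i m ∈ IntermediateField.adjoin (Kp D i) (range u)) :
    AlgebraicIndependent (Kp D i) u := by
  have h1 : AlgebraicIndependent ℂ (D.xa D.X) :=
    (algebraicIndependent_X D.Ax ℂ).map' (f := IsScalarTower.toAlgHom ℂ _ D.L)
      (IsFractionRing.injective _ _)
  have h2 := IntermediateField.algebraicIndependent_adjoin_iff.2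
    (h1.adjoin_of_disjoint (s := {w | w.1 ≠ i}) (t := {w | w.1 = i})
      (disjoint_left.2 fun _ a b => a b))
  have h3 := (h2.comp (fun m : Fin (D.n i) => (⟨⟨i, m⟩, rfl⟩ : {w : D.Ax | w.1 = i}))
    fun m m' e => eq_of_heq (Sigma.mk.inj (congrArg Subtype.val e)).2).cardinalMk_le_trdeg
  have h4 : ∀ P : MvPolynomial D.Ax ℂ,
      algebraMap _ D.L P ∈ IntermediateField.adjoin (Kp D i) (range u) := by
    intro P
    induction P using MvPolynomial.induction_on with
    | C c => exact IntermediateField.algebraMap_mem _ (algebraMap ℂ (Kp D i) c)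
    | add P Q hP hQ => rw [map_add]; exact add_mem hP hQ
    | mul_X P w hP =>
      rw [map_mul]
      refine mul_mem hP ?_
      obtain ⟨j, m⟩ := w
      by_cases hj : j = i
      · subst hj
        exact h m.succ
      · exact IntermediateField.algebraMap_mem _ (⟨_, X_mem D i hj m.succ⟩ : Kp D i)
  have h5 : Algebra.IsAlgebraic (Algebra.adjoin (Kp D i) (range u)) D.L := by
    refine IntermediateField.isAlgebraic_adjoin_iff_top.1 ⟨fun z => ?_⟩
    obtain ⟨P, Q, -, rfl⟩ := IsFractionRing.div_surjective (A := MvPolynomial D.Ax ℂ) z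
    exact isAlgebraic_algebraMap
      (⟨_, div_mem (h4 P) (h4 Q)⟩ : IntermediateField.adjoin (Kp D i) (range u))
  refine (Algebra.IsAlgebraic.isTranscendenceBasis_of_le_trdeg_of_finite (Kp D i) u ?_).1
  rw [hn] at h3
  exact h3

end RegsB

open RegsB in
theorem st_regs : St_REGS := by
  intro D s i a l hl hs z N h
  set B := D.Bs D.X s with hB
  let u : Fin 2 → D.L := fun j => fv D i (D.u i a j) / D.X i l
  have hX := X_ne D i l
  have b1 : ∀ c, fv D i c / D.X i l ∈ B := fun c => by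
    rw [fv, Finset.sum_div]
    refine sum_mem fun m _ => ?_
    rw [smul_div_assoc]
    exact B.smul_mem (Algebra.subset_adjoin ⟨_, hl, .inl ⟨i, m⟩, rfl, rfl⟩) _
  let I : Ideal B.toSubring :=
    { carrier := {b | (b : D.L) * z ∈ B}
      zero_mem' := by simp
      add_mem' := fun {x y} hx hy => by
        change ((x : D.L) + y) * z ∈ B
        rw [add_mul]; exact add_mem hx hy
      smul_mem' := fun x y hy => by
        change ((x : D.L) * y) * z ∈ B
        rw [mul_assoc]; exact mul_mem x.2 hy }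
  by_contra hz
  obtain ⟨m, hm, hI⟩ := Ideal.exists_le_maximal I ((Ideal.ne_top_iff_one I).2 fun e => hz (by
    have : (1 : D.L) * z ∈ B := e
    rwa [one_mul] at this))
  obtain ⟨T, hT, hBT, hU⟩ := exists_locP m (hp := hm.isPrime)
  have hle : ∀ {x}, x ∈ B → x ∈ T := fun hx => hBT.1 hx
  have t1 : ∀ j, ¬Un T (u j) := fun j e => (hU ⟨u j, b1 _⟩).1 e
    (hm.isPrime.mem_of_pow_mem N (hI (h j)))
  have t2 : ∀ c : ℂ, c ≠ 0 → Un T (algebraMap ℂ D.L c) := fun c hc =>
    ⟨by simpa using hc, hle (B.algebraMap_mem c), by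
      rw [← map_inv₀]; exact hle (B.algebraMap_mem _)⟩
  have t3 : ∀ c0 c1 : ℂ, ¬Un T (c0 • u 0 + c1 • u 1) := fun c0 c1 e => by
    rcases hT.of_add (hle (B.smul_mem (b1 _) _)) (hle (B.smul_mem (b1 _) _)) e with e | e <;>
      rw [Algebra.smul_def] at e <;>
      exact t1 _ (e.of_mul' (hle (B.algebraMap_mem _)) (hle (b1 _)))
  have t4 : ∀ c, Un T (D.p i a l • (fv D i c / D.X i l)) ↔ c ⬝ᵥ D.p i a ≠ 0 := fun c => by
    obtain ⟨c0, c1, e⟩ := ev_eq D i a l c
    rw [e]
    refine ⟨fun e' h0 => ?_, fun h0 => hT.add_un (t2 _ h0)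
      (hle (add_mem (B.smul_mem (b1 _) _) (B.smul_mem (b1 _) _))) (t3 c0 c1)⟩
    rw [h0, map_zero, zero_add] at e'
    exact t3 c0 c1 e'
  have hp : D.p i a l ≠ 0 := fun h0 => by
    obtain ⟨c0, c1, e⟩ := span_u D i a (c := Pi.single l 1) (by simp [h0])
    have := congrArg (fun c => fv D i c / D.X i l) e
    simp only [ev_single, ev_comb, div_self hX, add_div, smul_div_assoc] at this
    exact t3 c0 c1 (this ▸ Un.one)
  have t5 : ∀ c, Un T (fv D i c / D.X i l) ↔ c ⬝ᵥ D.p i a ≠ 0 := fun c => by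
    rw [← t4, Algebra.smul_def]
    exact ⟨(t2 _ hp).mul, fun e => e.of_mul' (hle (B.algebraMap_mem _)) (hle (b1 _))⟩
  have a1 : ∀ (A : Subalgebra ℂ D.L), (∀ j, u j ∈ A) → ∀ c, fv D i c / D.X i l ∈ A := by
    intro A hA c
    obtain ⟨c0, c1, e⟩ := ev_eq D i a l c
    rw [← inv_smul_smul₀ hp (fv D i c / D.X i l), e]
    exact A.smul_mem (add_mem (A.algebraMap_mem _)
      (add_mem (A.smul_mem (hA 0) _) (A.smul_mem (hA 1) _))) _
  have i1 : AlgebraicIndependent (Kp D i) u := by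
    refine indep D i (D.n_eq i (Nat.ne_of_gt (Fin.pos a))) fun m => ?_
    obtain ⟨A, hA⟩ := ex_sub (Kp D i) (IntermediateField.adjoin (Kp D i) (range u))
    have e := a1 A fun j => (hA _).2 (IntermediateField.subset_adjoin _ _ ⟨j, rfl⟩)
    have e1 := (hA _).1 (e (Pi.single m 1))
    have e2 := (hA _).1 (e (Pi.single 0 1))
    rw [ev_single] at e1 e2
    have e3 : D.X i m = D.X i m / D.X i l / (D.X i 0 / D.X i l) := by
      rw [show D.X i 0 = 1 from rfl]; field_simp
    rw [e3]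
    exact div_mem e1 e2
  obtain ⟨A, a3, r1, r2, r3⟩ := ex_ring (Kp D i) B i1 fun j => b1 _
  have a2 : ∀ c, fv D i c / D.X i l ∈ A := a1 A r1
  have g1 : ∀ c c' c'', c'' ⬝ᵥ D.p i a ≠ 0 → fv D i c'' / fv D i c ∈ B → fv D i c = 0 ∨
      fv D i c' / fv D i c ∈ loc A.toSubring T := fun c c' c'' h1 h2 => by
    refine or_iff_not_imp_left.2 fun h0 => ⟨fv D i c / D.X i l, a2 c, ?_, ?_⟩
    · refine Un.of_mul' (a := fv D i c'' / fv D i c) ?_ (hle h2) (hle (b1 c))
      rw [div_mul_div_cancel₀ h0]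
      exact (t5 _).2 h1
    · rw [mul_comm, div_mul_div_cancel₀ h0]
      exact a2 c'
  have g2 : ∀ c c' c'', c'' ⬝ᵥ D.p i a ≠ 0 → fv D i c'' / fv D i c ∈ B →
      fv D i c' / fv D i c ∈ loc A.toSubring T := fun c c' c'' h1 h2 =>
    (g1 c c' c'' h1 h2).elim (fun h0 => by rw [h0, div_zero]; exact zero_mem _) id
  have a4 : ∀ x ∈ B, x ∈ loc A.toSubring T := fun x hx => by
    induction hx using Algebra.adjoin_induction with
    | algebraMap r => exact le_frac (A.algebraMap_mem r)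
    | add x y _ _ hx hy => exact add_mem hx hy
    | mul x y _ _ hx hy => exact mul_mem hx hy
    | mem x hx =>
      obtain ⟨t, ht, t', e, rfl⟩ := hx
      by_cases hi : (D.sl t).1 = i
      · rcases t with ⟨j, k⟩ | ⟨⟨j, b⟩, k⟩
        · obtain rfl : j = i := hi
          rcases t' with ⟨j', k'⟩ | ⟨⟨j', b'⟩, k'⟩
          · obtain rfl : j' = j := congrArg Sigma.fst e
            have := g2 (Pi.single k 1) (Pi.single k' 1) (Pi.single l 1) (by simpa using hp) (by
              rw [ev_single, ev_single]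
              exact Algebra.subset_adjoin ⟨_, ht, .inl ⟨j', l⟩, rfl, rfl⟩)
            rwa [ev_single, ev_single] at this
          · obtain rfl : j' = j := congrArg Sigma.fst e
            exact absurd (eq_of_heq (Sigma.mk.inj e).2) (Option.some_ne_none _)
        · obtain rfl : j = i := hi
          rcases t' with ⟨j', k'⟩ | ⟨⟨j', b'⟩, k'⟩
          · obtain rfl : j' = j := congrArg Sigma.fst e
            exact absurd (eq_of_heq (Sigma.mk.inj e).2).symm (Option.some_ne_none _)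
          · obtain rfl : j' = j := congrArg Sigma.fst e
            obtain rfl : b' = b := Option.some_injective _ (eq_of_heq (Sigma.mk.inj e).2)
            obtain ⟨k'', h1⟩ := two D j' a b' fun e' => hs _ ht (by rw [e']; rfl)
            exact g2 (D.u j' b' k) (D.u j' b' k') _ h1
              (Algebra.subset_adjoin ⟨_, ht, .inr (⟨j', b'⟩, k''), rfl, rfl⟩)
      · exact le_frac (r2 _ (Algebra.subset_adjoin ⟨t, ht, t', e, rfl⟩)
          (div_mem (y_mem D i (by rw [e]; exact hi)) (y_mem D i hi)))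
  choose q q1 q2 q3 using fun j => a4 _ (h j)
  have f1 : q 0 * q 1 * z ∈ A := r3 _ N fun j => by
    have e0 : u 0 ^ N * (q 0 * q 1 * z) = q 1 * (q 0 * (u 0 ^ N * z)) := by ring
    have e1 : u 1 ^ N * (q 0 * q 1 * z) = q 0 * (q 1 * (u 1 ^ N * z)) := by ring
    refine Fin.cases ?_ (fun j => ?_) j
    · exact e0 ▸ mul_mem (s := A) (q1 1) (q3 0)
    · obtain rfl : j = 0 := Subsingleton.elim _ _
      exact e1 ▸ mul_mem (s := A) (q1 0) (q3 1)
  exact (hU ⟨q 0 * q 1, a3 (mul_mem (s := A) (q1 0) (q1 1))⟩).1 (Un.mul (q2 0) (q2 1))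
    (hI (a3 f1))

end Pool.Agent.Lib.MV
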