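import Pool.Agent.Lib.MV.B_KER0
import Pool.Agent.Lib.DU.DER

open MvPolynomial Set Pool.Agent.Lib.MP_e39d36_ag

set_option linter.unusedSectionVars false
set_option linter.unusedVariables false

noncomputable section

namespace Pool.Agent.Lib.MV

namespace RelB

variable {D : Dat} {F : Type} [Field F] [Algebra ℂ F] {x : ∀ i, Fin (D.n i + 1) → F}

/-- The weight of a slot determines one entry from the others. -/
lemma wt_zero (hne : ∀ t, D.y x t ≠ 0) {g : D.Vx → F} (hg : D.β x g = 0) (t0 : D.Vx)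
    (h : ∀ t, t ≠ t0 → D.sl t = D.sl t0 → g t = 0) : g t0 = 0 := by
  have h1 : ∑ t with D.sl t = D.sl t0, g t * D.y x t = 0 := congrFun (congrArg Prod.snd hg) (D.sl t0)
  rw [Finset.sum_eq_single_of_mem t0 (Finset.mem_filter.2 ⟨Finset.mem_univ _, rfl⟩ :
    t0 ∈ Finset.univ.filter fun t => D.sl t = D.sl t0) (fun t ht hne => by
      rw [h t hne (Finset.mem_filter.1 ht).2, zero_mul])] at h1
  exact (mul_eq_zero.1 h1).resolve_right (hne t0)

lemma sl_ne (v : D.Hx) (w : (Σ i, Fin (D.r i)) × Fin 2) : D.sl (.inl v) ≠ D.sl (.inr w) := by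
  obtain ⟨i, l⟩ := v
  obtain ⟨⟨j, a⟩, e⟩ := w
  intro h
  have h1 : (⟨i, none⟩ : D.Sl) = ⟨j, some a⟩ := h
  obtain rfl : i = j := congrArg Sigma.fst h1
  exact absurd (sigma_mk_injective (β := fun i => Option (Fin (D.r i))) h1) (by simp)

lemma sl_inr {w w' : (Σ i, Fin (D.r i)) × Fin 2} (h : D.sl (.inr w) = D.sl (.inr w')) :
    w.1 = w'.1 := by
  obtain ⟨⟨i, b⟩, e⟩ := w
  obtain ⟨⟨j, a⟩, e'⟩ := w'
  have h1 : (⟨i, some b⟩ : D.Sl) = ⟨j, some a⟩ := h
  obtain rfl : i = j := congrArg Sigma.fst h1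
  obtain rfl : b = a :=
    Option.some.inj (sigma_mk_injective (β := fun i => Option (Fin (D.r i))) h1)
  rfl

/-- A relation is determined by the entries `(w, 0)` and one affine entry. -/
lemma eq_zero (hone : ∀ i, x i 0 = 1) (hne : ∀ t, D.y x t ≠ 0) (w0 : D.Ax)
    (hb : IsTranscendenceBasis ℂ fun w : {w : D.Ax // w ≠ w0} => D.xa x w.1) {g : D.Vx → F}
    (hg : D.β x g = 0) (h0 : ∀ w, g (.inr (w, 0)) = 0) (h1 : g (.inl ⟨w0.1, w0.2.succ⟩) = 0) :
    g = 0 := by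
  classical
  have h2 : ∀ w, g (.inr w) = 0 := by
    rintro ⟨w, e⟩
    refine wt_zero hne hg _ ?_ |> fun h => (Fin.eq_zero_or_eq_succ e).elim
      (fun he => he ▸ h0 w) fun ⟨e', he⟩ => (show e = 1 from he.trans (by
        rw [Subsingleton.elim e' 0]; rfl)) ▸ (h : g (.inr (w, 1)) = 0)
    rintro (v | ⟨w', e'⟩) ht hs
    · exact absurd hs (sl_ne _ _)
    · obtain rfl : w' = w := sl_inr hs
      have : e' = 0 := by
        have : e' ≠ 1 := fun h => ht (by rw [h])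
        omega
      rw [this]
      exact h0 _
  have h3 : ∑ w : D.Ax, g (.inl ⟨w.1, w.2.succ⟩) • KaehlerDifferential.D ℂ F (D.xa x w) = 0 := by
    have h4 : ∑ t, g t • KaehlerDifferential.D ℂ F (D.y x t) = 0 := congrArg Prod.fst hg
    rw [Fintype.sum_sum_type, Finset.sum_eq_zero (s := Finset.univ)
      (f := fun w => g (.inr w) • KaehlerDifferential.D ℂ F (D.y x (.inr w)))
      (fun w _ => by rw [h2, zero_smul]), add_zero, Fintype.sum_sigma] at h4
    rw [Fintype.sum_sigma, ← h4]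
    refine Finset.sum_congr rfl fun i _ => ?_
    rw [Fin.sum_univ_succ]
    have h5 : D.y x (.inl ⟨i, 0⟩) = 1 := hone i
    rw [h5, Derivation.map_one_eq_zero, smul_zero, zero_add]
    rfl
  have h4 : ∀ w : D.Ax, g (.inl ⟨w.1, w.2.succ⟩) = 0 := by
    intro w
    by_cases hw : w = w0
    · rw [hw]
      exact h1
    obtain ⟨δ, hδ⟩ := DU.blockDER ℂ F _ _ hb (Pi.single ⟨w, hw⟩ 1)
    have h5 := congrArg δ.liftKaehlerDifferential h3
    simp only [map_sum, map_smul, Derivation.liftKaehlerDifferential_comp_D, map_zero] at h5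
    rw [Finset.sum_eq_single w (fun w' _ hw' => by
      by_cases h6 : w' = w0
      · rw [h6, h1, zero_smul]
      · rw [hδ ⟨w', h6⟩, Pi.single_eq_of_ne (fun h => hw' (congrArg Subtype.val h)), smul_zero])
      (fun h => absurd (Finset.mem_univ _) h), hδ ⟨w, hw⟩, Pi.single_eq_same, smul_eq_mul,
      mul_one] at h5
    exact h5
  funext t
  rcases t with ⟨i, l⟩ | w
  · refine Fin.cases ?_ (fun l => h4 ⟨i, l⟩) l
    refine wt_zero hne hg _ ?_
    rintro (⟨j, l'⟩ | w) ht hs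
    · obtain rfl : j = i := congrArg Sigma.fst hs
      revert ht
      refine Fin.cases (fun ht => absurd rfl ht) (fun l' _ => h4 ⟨j, l'⟩) l'
    · exact h2 w
  · exact h2 w

lemma rho_apply (w w' : Σ i, Fin (D.r i)) :
    D.ρ x w' (.inr (w, 0)) = if w' = w then D.y x (.inr (w, 1)) else 0 := by
  classical
  have h1 : ∀ (l : Fin (D.n w'.1 + 1)) (c : F),
      (Pi.single (.inl ⟨w'.1, l⟩ : D.Vx) c : D.Vx → F) (.inr (w, 0)) = 0 :=
    fun l c => Pi.single_eq_of_ne (by simp) _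
  have h2 : ∀ c : F, (Pi.single (.inr (w', 1) : D.Vx) c : D.Vx → F) (.inr (w, 0)) = 0 :=
    fun c => Pi.single_eq_of_ne (by simp) _
  simp only [Dat.ρ, Pi.add_apply, Pi.sub_apply, Finset.sum_apply, h1, h2, Finset.sum_const_zero,
    add_zero, sub_zero]
  split_ifs with h
  · rw [h, Pi.single_eq_same]
  · exact Pi.single_eq_of_ne (fun e => h (congrArg Prod.fst (Sum.inr.inj e)).symm) _

lemma alpha_apply (a : (Σ i, Fin (D.r i)) → F) (w : Σ i, Fin (D.r i)) :
    D.α x a (.inr (w, 0)) = a w * D.y x (.inr (w, 1)) := by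
  classical
  simp only [Dat.α, Fintype.linearCombination_apply, Finset.sum_apply, Pi.smul_apply, rho_apply,
    smul_eq_mul, mul_ite, mul_zero, Finset.sum_ite_eq', Finset.mem_univ, if_true]

end RelB

theorem st_rel (hXI : St_XI) (hTRD : St_TRD) : St_REL := by
  intro D K _ _ M hφ g hg
  obtain ⟨i, -⟩ := D.surf
  obtain ⟨l, hb⟩ := (hTRD D K M).1 i
  obtain ⟨hρ, hβ, -⟩ := hXI D K M.x M.hyp.ne
  have hF : D.Fx M.x = 0 := by
    rw [← Fb.KER.ev_Fa M.hyp.one]
    exact (st_ker0 D K M D.Fa).2 dvd_rfl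
  have hφ0 : D.φ M.x (.inl ⟨i, l.succ⟩) ≠ 0 := fun h =>
    hφ (RelB.eq_zero M.hyp.one M.hyp.ne ⟨i, l⟩ hb (hβ hF) (fun _ => rfl) h)
  have hα : ∀ a, D.β M.x (D.α M.x a) = 0 := fun a => by
    simp only [Dat.α, Fintype.linearCombination_apply, map_sum, map_smul, hρ, smul_zero,
      Finset.sum_const_zero]
  let a : (Σ i, Fin (D.r i)) → K := fun w => g (.inr (w, 0)) / D.y M.x (.inr (w, 1))
  let m : K := (g - D.α M.x a) (.inl ⟨i, l.succ⟩) / D.φ M.x (.inl ⟨i, l.succ⟩)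
  refine ⟨a, m, ?_⟩
  have h := RelB.eq_zero M.hyp.one M.hyp.ne ⟨i, l⟩ hb (g := g - D.α M.x a - m • D.φ M.x)
    (by rw [map_sub, map_sub, map_smul, hg, hα, hβ hF, smul_zero, sub_zero, sub_zero])
    (fun w => by
      have h1 : D.φ M.x (.inr (w, 0)) = 0 := rfl
      rw [Pi.sub_apply, Pi.sub_apply, Pi.smul_apply, h1, smul_zero, sub_zero, RelB.alpha_apply,
        div_mul_cancel₀ _ (M.hyp.ne _), sub_self])
    (by rw [Pi.sub_apply, Pi.smul_apply, smul_eq_mul, div_mul_cancel₀ _ hφ0, sub_self])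
  rw [sub_sub, sub_eq_zero] at h
  exact h

end Pool.Agent.Lib.MV
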