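import Pool.Agent.Lib.MV.Blue

open Set Matrix Pool.Agent.Lib.MP_e39d36_ag

noncomputable section

namespace Pool.Agent.Lib.MV

namespace SatB

lemma pair {V : Type} [AddCommGroup V] [Module ℂ V] {u : Fin 2 → V} (h : LinearIndependent ℂ u) :
    LinearIndependent ℂ ![u 0, u 1] := by
  have e : ![u 0, u 1] = u := funext fun k => by fin_cases k <;> rfl
  rwa [e]

lemma exists_one {c : Fin 3 → ℂ} (h : c ≠ 0) : ∃ z : Fin 3 → ℂ, z ⬝ᵥ c = 1 := by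
  obtain ⟨l, hl⟩ := Function.ne_iff.1 h
  exact ⟨Pi.single l (c l)⁻¹, by rw [single_dotProduct, inv_mul_cancel₀ hl]⟩

lemma cross_eq {u : Fin 2 → Fin 3 → ℂ} {p : Fin 3 → ℂ} (hu : LinearIndependent ℂ u)
    (h : ∀ k, u k ⬝ᵥ p = 0) (hp : p ≠ 0) : ∃ a : ℂ, a ≠ 0 ∧ u 0 ⨯₃ u 1 = a • p := by
  obtain ⟨a, ha⟩ := eq_smul_of_cross (P := u 0 ⨯₃ u 1) hp (by
    rw [← cross_anticomm, cross_cross3, dotProduct_comm p, dotProduct_comm p, h, h]; simp)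
  refine ⟨a, fun h0 => crossProduct_ne_zero_iff_linearIndependent.2 (pair hu) ?_, ha⟩
  rw [ha, h0, zero_smul]

/-- the forms through two different points span all forms -/
lemma two {n : ℕ} (hn : n = 2) {u u' : Fin 2 → Fin (n + 1) → ℂ} {p p' : Fin (n + 1) → ℂ}
    (hu : LinearIndependent ℂ u) (hu' : LinearIndependent ℂ u') (h : ∀ k, u k ⬝ᵥ p = 0)
    (h' : ∀ k, u' k ⬝ᵥ p' = 0) (hp : LinearIndependent ℂ ![p, p']) (w : Fin (n + 1) → ℂ) :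
    ∃ (c0 c1 c : ℂ) (k : Fin 2), w = c0 • u 0 + c1 • u 1 + c • u' k := by
  subst hn
  have hpp := crossProduct_ne_zero_iff_linearIndependent.2 hp
  obtain ⟨a, ha, e⟩ := cross_eq hu h (left_ne hpp)
  obtain ⟨k, hk⟩ : ∃ k, u' k ⬝ᵥ p ≠ 0 := by
    by_contra! h1
    obtain ⟨b, hb, e1⟩ := cross_eq hu' h1 (left_ne hpp)
    obtain ⟨b', hb', e2⟩ := cross_eq hu' h' (right_ne hpp)
    have h2 : (b • p) ⨯₃ (b' • p') = 0 := by rw [← e1, ← e2, cross_self]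
    simp only [map_smul, LinearMap.smul_apply] at h2
    exact smul_ne_zero hb' (smul_ne_zero hb hpp) h2
  obtain ⟨z, hz⟩ := exists_one (crossProduct_ne_zero_iff_linearIndependent.2 (pair hu))
  have h3 := cramer3 (u 0) (u 1) (w - (w ⬝ᵥ p / u' k ⬝ᵥ p) • u' k) z
  have h4 : (w - (w ⬝ᵥ p / u' k ⬝ᵥ p) • u' k) ⬝ᵥ u 0 ⨯₃ u 1 = 0 := by
    rw [e, dotProduct_smul, sub_dotProduct, smul_dotProduct, smul_eq_mul, smul_eq_mul,
      div_mul_cancel₀ _ hk, sub_self, mul_zero]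
  rw [hz, one_smul, h4, zero_smul, add_zero, sub_eq_iff_eq_add] at h3
  exact ⟨_, _, _, k, h3⟩

lemma dual {n : ℕ} (hn : n = 2) {u : Fin 2 → Fin (n + 1) → ℂ} (hu : LinearIndependent ℂ u)
    (c0 c1 : ℂ) : ∃ e : Fin (n + 1) → ℂ, u 0 ⬝ᵥ e = c0 ∧ u 1 ⬝ᵥ e = c1 := by
  subst hn
  obtain ⟨z, hz⟩ := exists_one (crossProduct_ne_zero_iff_linearIndependent.2 (pair hu))
  refine ⟨c0 • u 1 ⨯₃ z + c1 • z ⨯₃ u 0, ?_, ?_⟩
  · rw [dotProduct_add, dotProduct_smul, dotProduct_smul, dot_cross_self,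
      triple_product_permutation, triple_product_permutation, hz]; simp
  · rw [dotProduct_add, dotProduct_smul, dotProduct_smul, dot_self_cross,
      triple_product_permutation, hz]; simp

lemma mem_of_loc {K : Type} [Field K] {B : Subring K} {z : K}
    (h : ∀ T : Subring K, IsLoc T → B ≤ T → z ∈ T) : z ∈ B := by
  let I : Ideal B :=
    { carrier := {b | (b : K) * z ∈ B}
      add_mem' := fun {a b} ha hb => by
        show ((a : K) + b) * z ∈ B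
        rw [add_mul]; exact add_mem ha hb
      zero_mem' := by
        show (0 : K) * z ∈ B
        rw [zero_mul]; exact zero_mem _
      smul_mem' := fun c a ha => by
        show ((c : K) * a) * z ∈ B
        rw [mul_assoc]; exact mul_mem c.2 ha }
  by_contra h1
  obtain ⟨p, hp, hI⟩ := Ideal.exists_le_maximal I fun h2 => h1 (by
    have h3 : (1 : K) * z ∈ B := (Ideal.eq_top_iff_one I).1 h2
    rwa [one_mul] at h3)
  obtain ⟨T, h2, h3, h4⟩ := exists_locP p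
  obtain ⟨b, h5, h6, h7⟩ := h3.2 z (h T h2 h3.1)
  exact (h4 ⟨b, h5⟩).1 h6 (hI h7)

variable {D : Dat} {F : Type} [Field F] [Algebra ℂ F] {x : ∀ i, Fin (D.n i + 1) → F}

lemma sl_none {t : D.Vx} {i : Fin D.k} (h : D.sl t = ⟨i, none⟩) : ∃ j, t = .inl ⟨i, j⟩ := by
  rcases t with ⟨i', j⟩ | ⟨⟨i', b⟩, k⟩
  · obtain rfl : i' = i := congrArg Sigma.fst h
    exact ⟨j, rfl⟩
  · obtain rfl : i' = i := congrArg Sigma.fst h
    exact absurd (eq_of_heq (Sigma.mk.inj h).2) (Option.some_ne_none b)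

lemma sl_some {t : D.Vx} {i : Fin D.k} {a : Fin (D.r i)} (h : D.sl t = ⟨i, some a⟩) :
    ∃ k, t = .inr (⟨i, a⟩, k) := by
  rcases t with ⟨i', j⟩ | ⟨⟨i', b⟩, k⟩
  · obtain rfl : i' = i := congrArg Sigma.fst h
    exact absurd (eq_of_heq (Sigma.mk.inj h).2).symm (Option.some_ne_none a)
  · obtain rfl : i' = i := congrArg Sigma.fst h
    obtain rfl : b = a := Option.some.inj (eq_of_heq (Sigma.mk.inj h).2)
    exact ⟨k, rfl⟩

lemma div_mem {s : Finset D.Vx} {τ : D.Ch} (hτ : ∀ μ, τ.1 μ ∈ s) {t : D.Vx} {μ : D.Sl}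
    (h : D.sl t = μ) : D.y x t / D.y x (τ.1 μ) ∈ D.Bs x s :=
  Algebra.subset_adjoin ⟨_, hτ μ, t, h.trans (τ.2 μ).symm, rfl⟩

lemma mem_Ms (hy : ∀ t, D.y x t ≠ 0) {s : Finset D.Vx} {τ : D.Ch} (hτ : ∀ μ, τ.1 μ ∈ s)
    {v : D.Λ} {z : F} : z ∈ D.Ms x Finset.univ v s ↔ z / D.gen x v τ ∈ D.Bs x s := by
  refine ⟨fun h => ?_, fun h => AddSubgroup.subset_closure ⟨τ, fun μ _ => hτ μ, h⟩⟩
  induction h using AddSubgroup.closure_induction with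
  | zero => rw [zero_div]; exact zero_mem _
  | add a b _ _ ha hb => rw [add_div]; exact add_mem ha hb
  | neg a _ ha => rw [neg_div]; exact neg_mem ha
  | mem z hz =>
    obtain ⟨τ', h1, h2⟩ := hz
    have h3 : D.gen x v τ' ≠ 0 := Finset.prod_ne_zero_iff.2 fun μ _ => zpow_ne_zero _ (hy _)
    rw [← div_mul_div_cancel₀ (a := z) h3]
    refine mul_mem h2 ?_
    rw [Dat.gen, Dat.gen, Dat.gA, Dat.gA, ← Finset.prod_div_distrib]
    refine prod_mem fun μ _ => ?_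
    rw [← div_zpow]
    obtain ⟨m, hm | hm⟩ := (v μ.1 μ.2).eq_nat_or_neg
    · rw [hm, zpow_natCast]; exact pow_mem (div_mem hτ (τ'.2 μ)) m
    · rw [hm, _root_.zpow_neg, zpow_natCast, ← inv_pow, inv_div]
      exact pow_mem (div_mem (fun μ => h1 μ (Finset.mem_univ μ)) (τ.2 μ)) m

lemma Ms_zero {s : Finset D.Vx} (h : ¬∃ τ : D.Ch, ∀ μ, τ.1 μ ∈ s) {v : D.Λ} {z : F} :
    z ∈ D.Ms x Finset.univ v s ↔ z = 0 := by
  rw [← AddSubgroup.mem_bot, Dat.Ms, (AddSubgroup.closure_eq_bot_iff).2]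
  rintro z ⟨τ, h1, -⟩
  exact absurd ⟨τ, fun μ => h1 μ (Finset.mem_univ μ)⟩ h

lemma h_self (μ : D.Sl) : D.h μ μ.1 μ.2 = 1 := by
  rw [Dat.h, Pi.single_eq_same, Pi.single_eq_same]

lemma h_ne {μ ν : D.Sl} (h : ν ≠ μ) : D.h μ ν.1 ν.2 = 0 := by
  obtain ⟨i, o⟩ := μ
  obtain ⟨j, o'⟩ := ν
  by_cases h1 : j = i
  · subst h1
    rw [Dat.h, Pi.single_eq_same, Pi.single_eq_of_ne fun e => h (congrArg _ e)]
  · rw [Dat.h, Pi.single_eq_of_ne h1]; rfl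

lemma gen_h (μ : D.Sl) (τ : D.Ch) : D.gen x (-D.h μ) τ = (D.y x (τ.1 μ))⁻¹ := by
  rw [Dat.gen, Dat.gA, Finset.prod_eq_single μ (fun ν _ hν => by
    rw [Pi.neg_apply, Pi.neg_apply, h_ne hν, neg_zero, zpow_zero]) (by simp),
    Pi.neg_apply, Pi.neg_apply, h_self, _root_.zpow_neg_one]

lemma gen_hh (hy : ∀ t, D.y x t ≠ 0) (μ ν : D.Sl) (τ : D.Ch) :
    D.gen x (-D.h μ - D.h ν) τ = (D.y x (τ.1 μ) * D.y x (τ.1 ν))⁻¹ := by
  rw [mul_inv, ← gen_h, ← gen_h, Dat.gen, Dat.gen, Dat.gen, Dat.gA, Dat.gA, Dat.gA,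
    ← Finset.prod_mul_distrib]
  refine Finset.prod_congr rfl fun κ _ => ?_
  rw [← zpow_add₀ (hy _), sub_eq_add_neg]; rfl

lemma α_apply (a : (Σ i, Fin (D.r i)) → F) (t : D.Vx) : D.α x a t = ∑ w, a w * D.ρ x w t := by
  rw [Dat.α, Fintype.linearCombination_apply, Finset.sum_apply]; rfl

lemma α0 (a : (Σ i, Fin (D.r i)) → F) (w : Σ i, Fin (D.r i)) :
    D.α x a (.inr (w, 0)) = a w * D.y x (.inr (w, 1)) := by
  rw [α_apply, Finset.sum_eq_single w (fun w' _ h => by simp [Dat.ρ, h.symm]) (by simp)]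
  simp [Dat.ρ]

lemma α1 (a : (Σ i, Fin (D.r i)) → F) (w : Σ i, Fin (D.r i)) :
    D.α x a (.inr (w, 1)) = -(a w * D.y x (.inr (w, 0))) := by
  rw [α_apply, Finset.sum_eq_single w (fun w' _ h => by simp [Dat.ρ, h.symm]) (by simp)]
  simp [Dat.ρ]

lemma αl (a : (Σ i, Fin (D.r i)) → F) (i : Fin D.k) (l : Fin (D.n i + 1)) :
    D.α x a (.inl ⟨i, l⟩) = ∑ b, a ⟨i, b⟩ * (D.u i b 1 l • D.y x (.inr (⟨i, b⟩, 0)) -
      D.u i b 0 l • D.y x (.inr (⟨i, b⟩, 1))) := by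
  rw [α_apply, Fintype.sum_sigma, Finset.sum_eq_single i (fun j _ h => Finset.sum_eq_zero
    fun b _ => by simp [Dat.ρ, h.symm]) (by simp)]
  refine Finset.sum_congr rfl fun b _ => ?_
  simp [Dat.ρ, Pi.single_apply]

lemma U_mem {s : Finset D.Vx} {τ : D.Ch} (hτ : ∀ μ, τ.1 μ ∈ s) (w : Σ i, Fin (D.r i)) (k : Fin 2) :
    D.y x (.inr (w, k)) / D.y x (τ.1 ⟨w.1, none⟩) ∈ D.Bs x s := by
  show (∑ l, D.u w.1 w.2 k l • x w.1 l) / _ ∈ _
  rw [Finset.sum_div]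
  refine sum_mem fun l _ => ?_
  rw [smul_div_assoc]
  exact Subalgebra.smul_mem _ (div_mem hτ (t := .inl ⟨w.1, l⟩) rfl) _

lemma smul_mem {s : Finset D.Vx} {T : Subring F} (hT : (D.Bs x s).toSubring ≤ T) (c : ℂ) {z : F}
    (hz : z ∈ T) : c • z ∈ T := by
  rw [Algebra.smul_def]; exact mul_mem (hT ((D.Bs x s).algebraMap_mem c)) hz

lemma two_pts (hy : ∀ t, D.y x t ≠ 0) {s : Finset D.Vx} {τ : D.Ch} (hτ : ∀ μ, τ.1 μ ∈ s)
    {T : Subring F} (hT : IsLoc T) (hB : (D.Bs x s).toSubring ≤ T) {i : Fin D.k}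
    {a b : Fin (D.r i)} (hab : a ≠ b) :
    (∃ k, Un T (D.y x (.inr (⟨i, a⟩, k)) / D.y x (τ.1 ⟨i, none⟩))) ∨
      ∃ k, Un T (D.y x (.inr (⟨i, b⟩, k)) / D.y x (τ.1 ⟨i, none⟩)) := by
  obtain ⟨j, hj⟩ := sl_none (τ.2 ⟨i, none⟩)
  obtain ⟨c0, c1, c, k, e⟩ := two (D.n_eq i (Nat.pos_iff_ne_zero.1 a.pos)) (D.u_ind i a)
    (D.u_ind i b) (D.u_p i a) (D.u_p i b) (D.dist i a b hab) (Pi.single j 1)
  have h1 : D.y x (τ.1 ⟨i, none⟩) = c0 • D.y x (.inr (⟨i, a⟩, 0)) +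
      c1 • D.y x (.inr (⟨i, a⟩, 1)) + c • D.y x (.inr (⟨i, b⟩, k)) := by
    have h2 : x i j = ∑ l, (Pi.single j 1 : Fin (D.n i + 1) → ℂ) l • x i l := by
      simp [Pi.single_apply]
    rw [hj]
    show x i j = c0 • ∑ l, D.u i a 0 l • x i l + c1 • ∑ l, D.u i a 1 l • x i l +
      c • ∑ l, D.u i b k l • x i l
    rw [h2, e]
    simp only [Pi.add_apply, Pi.smul_apply, add_smul, smul_assoc, Finset.sum_add_distrib,
      Finset.smul_sum]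
  have m := fun b k => hB (U_mem (x := x) hτ ⟨i, b⟩ k)
  have cst : ∀ c : ℂ, algebraMap ℂ F c ∈ T := fun c => hB ((D.Bs x s).algebraMap_mem c)
  have h3 : Un T (algebraMap ℂ F c0 * (D.y x (.inr (⟨i, a⟩, 0)) / D.y x (τ.1 ⟨i, none⟩)) +
      algebraMap ℂ F c1 * (D.y x (.inr (⟨i, a⟩, 1)) / D.y x (τ.1 ⟨i, none⟩)) +
      algebraMap ℂ F c * (D.y x (.inr (⟨i, b⟩, k)) / D.y x (τ.1 ⟨i, none⟩))) := by
    rw [← mul_div_assoc, ← mul_div_assoc, ← mul_div_assoc, ← add_div, ← add_div,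
      ← Algebra.smul_def, ← Algebra.smul_def, ← Algebra.smul_def, ← h1, div_self (hy _)]
    exact Un.one
  rcases hT.of_add (add_mem (mul_mem (cst _) (m a 0)) (mul_mem (cst _) (m a 1)))
    (mul_mem (cst _) (m b k)) h3 with h4 | h4
  · rcases hT.of_add (mul_mem (cst _) (m a 0)) (mul_mem (cst _) (m a 1)) h4 with h5 | h5
    · exact Or.inl ⟨0, h5.of_mul' (cst _) (m a 0)⟩
    · exact Or.inl ⟨1, h5.of_mul' (cst _) (m a 1)⟩
  · exact Or.inr ⟨k, h4.of_mul' (cst _) (m b k)⟩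

end SatB

open SatB in
theorem st_sat : St_SAT := by
  intro D F _ _ x hy
  have inj : ∀ a, D.α x a = 0 → a = 0 := fun a h => funext fun w => by
    have h1 := α0 (x := x) a w
    rw [h] at h1
    exact (mul_eq_zero.1 h1.symm).resolve_right (hy _)
  refine ⟨inj, fun s a => ?_⟩
  by_cases hs : ∃ τ : D.Ch, ∀ μ, τ.1 μ ∈ s
  swap
  · simp only [Dat.Ps, Dat.Rs, AddSubgroup.mem_pi, mem_univ, true_imp_iff, Ms_zero hs]
    refine ⟨fun h => congrFun (inj a (funext h)), fun h => congrFun ?_⟩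
    rw [show a = 0 from funext h, map_zero]; rfl
  obtain ⟨τ, hτ⟩ := hs
  simp only [Dat.Ps, Dat.Rs, AddSubgroup.mem_pi, mem_univ, true_imp_iff, mem_Ms hy hτ, gen_h,
    gen_hh hy, div_inv_eq_mul]
  have e1 : ∀ (w : Σ i, Fin (D.r i)) (k : Fin 2),
      a w * D.y x (.inr (w, k)) * D.y x (τ.1 ⟨w.1, some w.2⟩) =
      D.y x (.inr (w, k)) / D.y x (τ.1 ⟨w.1, none⟩) *
        (a w * (D.y x (τ.1 ⟨w.1, none⟩) * D.y x (τ.1 ⟨w.1, some w.2⟩))) := fun w k => by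
    have := hy (τ.1 ⟨w.1, none⟩)
    field_simp
  have e2 : ∀ i l, D.α x a (.inl ⟨i, l⟩) * D.y x (τ.1 ⟨i, none⟩) =
      ∑ b, a ⟨i, b⟩ * (D.y x (τ.1 ⟨i, none⟩) * D.y x (τ.1 ⟨i, some b⟩)) *
        (D.u i b 1 l • (D.y x (.inr (⟨i, b⟩, 0)) / D.y x (τ.1 ⟨i, some b⟩)) -
          D.u i b 0 l • (D.y x (.inr (⟨i, b⟩, 1)) / D.y x (τ.1 ⟨i, some b⟩))) := fun i l => by
    rw [αl, Finset.sum_mul]
    refine Finset.sum_congr rfl fun b _ => ?_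
    have := hy (τ.1 ⟨i, some b⟩)
    simp only [Algebra.smul_def]
    field_simp
  have m1 : ∀ i b l, D.u i b 1 l • (D.y x (.inr (⟨i, b⟩, 0)) / D.y x (τ.1 ⟨i, some b⟩)) -
      D.u i b 0 l • (D.y x (.inr (⟨i, b⟩, 1)) / D.y x (τ.1 ⟨i, some b⟩)) ∈ D.Bs x s :=
    fun i b l => sub_mem (Subalgebra.smul_mem _ (div_mem hτ rfl) _)
      (Subalgebra.smul_mem _ (div_mem hτ rfl) _)
  refine ⟨fun h w => ?_, fun h t => ?_⟩
  · refine mem_of_loc (B := (D.Bs x s).toSubring) fun T hT hB => ?_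
    have good : ∀ w : Σ i, Fin (D.r i),
        (∃ k, Un T (D.y x (.inr (w, k)) / D.y x (τ.1 ⟨w.1, none⟩))) →
        a w * (D.y x (τ.1 ⟨w.1, none⟩) * D.y x (τ.1 ⟨w.1, some w.2⟩)) ∈ T := by
      rintro w ⟨k, hk⟩
      refine hk.mem_of_mul (hB ?_)
      rw [← e1]
      fin_cases k
      · have h1 := neg_mem (h (.inr (w, 1)))
        rw [α1, neg_mul, neg_neg] at h1
        exact h1
      · have h1 := h (.inr (w, 0))
        rw [α0] at h1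
        exact h1
    obtain ⟨i, b⟩ := w
    by_cases hb : ∃ k, Un T (D.y x (.inr (⟨i, b⟩, k)) / D.y x (τ.1 ⟨i, none⟩))
    · exact good ⟨i, b⟩ hb
    have h2 : ∀ l, a ⟨i, b⟩ * (D.y x (τ.1 ⟨i, none⟩) * D.y x (τ.1 ⟨i, some b⟩)) *
        (D.u i b 1 l • (D.y x (.inr (⟨i, b⟩, 0)) / D.y x (τ.1 ⟨i, some b⟩)) -
          D.u i b 0 l • (D.y x (.inr (⟨i, b⟩, 1)) / D.y x (τ.1 ⟨i, some b⟩))) ∈ T := fun l => by
      have h3 := hB (e2 i l ▸ h (.inl ⟨i, l⟩))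
      rw [← Finset.add_sum_erase _ _ (Finset.mem_univ b)] at h3
      exact (add_mem_cancel_right (sum_mem fun c hc => mul_mem (good ⟨i, c⟩
        ((two_pts hy hτ hT hB (Finset.mem_erase.1 hc).1).resolve_right hb)) (hB (m1 i c l)))).1 h3
    obtain ⟨c0, c1, hc⟩ : ∃ c0 c1 : ℂ, c1 • (D.y x (.inr (⟨i, b⟩, 0)) / D.y x (τ.1 ⟨i, some b⟩)) -
        c0 • (D.y x (.inr (⟨i, b⟩, 1)) / D.y x (τ.1 ⟨i, some b⟩)) = 1 := by
      obtain ⟨k, hk⟩ := sl_some (τ.2 ⟨i, some b⟩)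
      rw [hk]
      fin_cases k
      · exact ⟨0, 1, by simp [hy]⟩
      · exact ⟨-1, 0, by simp [hy]⟩
    obtain ⟨e, h0, h1⟩ := dual (D.n_eq i (Nat.pos_iff_ne_zero.1 b.pos)) (D.u_ind i b) c0 c1
    have h4 := sum_mem fun l (_ : l ∈ Finset.univ) => smul_mem hB (e l) (h2 l)
    simp only [← mul_smul_comm, ← Finset.mul_sum, smul_sub, smul_smul, Finset.sum_sub_distrib,
      ← Finset.sum_smul] at h4
    rw [← dotProduct, ← dotProduct, dotProduct_comm, h1, dotProduct_comm, h0, hc, mul_one] at h4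
    exact h4
  · rcases t with ⟨i, l⟩ | ⟨w, k⟩
    · exact e2 i l ▸ sum_mem fun b _ => mul_mem (h ⟨i, b⟩) (m1 i b l)
    · fin_cases k
      · have h1 := mul_mem (U_mem hτ w 1) (h w)
        rw [← e1, ← α0] at h1
        exact h1
      · have h1 := neg_mem (mul_mem (U_mem hτ w 0) (h w))
        rw [← e1, ← neg_mul, ← α1] at h1
        exact h1

end Pool.Agent.Lib.MV
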