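import Pool.Agent.Lib.MV.Blue

open MvPolynomial Set Pool.Agent.Lib.MP_e39d36_ag Pool.Agent.Lib.MP_e39d36_ag.Var

set_option linter.unusedSectionVars false
set_option linter.unusedVariables false

noncomputable section

namespace Pool.Agent.Lib.MV

namespace TrdB

lemma coeff_top {A : Type} [CommRing A] [Algebra ℂ A] {n d : ℕ}
    {G : MvPolynomial (Fin (n + 1)) ℂ} (hG : G.IsHomogeneous d) (a : Fin n → A) :
    (aeval (Fin.cons 1 fun l => Polynomial.X * Polynomial.C (a l) : Fin (n + 1) → Polynomial A)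
      G).coeff d = aeval (Fin.cons 0 a : Fin (n + 1) → A) G := by
  rw [aeval_def, aeval_def, eval₂_eq', eval₂_eq', Polynomial.finset_sum_coeff]
  refine Finset.sum_congr rfl fun s hs => ?_
  have h1 : s 0 + ∑ l : Fin n, s l.succ = d := by
    rw [← Fin.sum_univ_succ, ← Finsupp.degree_eq_sum, Finsupp.degree_eq_weight_one]
    exact hG (mem_support_iff.1 hs)
  simp only [Fin.prod_univ_succ, Fin.cons_zero, Fin.cons_succ, one_pow, one_mul, mul_pow,
    Finset.prod_mul_distrib, Finset.prod_pow_eq_pow_sum, ← map_pow, ← map_prod,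
    Polynomial.algebraMap_apply, Polynomial.coeff_C_mul, Polynomial.coeff_mul_C,
    Polynomial.coeff_X_pow]
  by_cases h : s 0 = 0
  · rw [if_pos (by omega), h, pow_zero]
  · rw [if_neg (by omega), zero_pow h]

variable {D : Dat}

/-- Scaling of the variables of one factor. -/
def sc (i : Fin D.k) : MvPolynomial D.Ax ℂ →ₐ[ℂ] Polynomial (MvPolynomial D.Ax ℂ) :=
  aeval fun w => (if w.1 = i then Polynomial.X else 1) * Polynomial.C (X w)

lemma sc_inj (i : Fin D.k) {P : MvPolynomial D.Ax ℂ} (h : sc i P = 0) : P = 0 := by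
  have h1 : ((Polynomial.aeval (1 : MvPolynomial D.Ax ℂ)).restrictScalars ℂ).comp (sc i) =
      AlgHom.id ℂ _ := by
    refine algHom_ext fun w => ?_
    by_cases hw : w.1 = i <;> simp [sc, hw]
  have h2 := DFunLike.congr_fun h1 P
  rw [AlgHom.comp_apply, h, map_zero] at h2
  exact h2.symm

lemma sc_rename (i : Fin D.k) (p : MvPolynomial {w : D.Ax // w.1 ≠ i} ℂ) :
    sc i (rename Subtype.val p) = Polynomial.C (rename Subtype.val p) := by
  have h1 : (sc i).comp (rename (Subtype.val : {w : D.Ax // w.1 ≠ i} → D.Ax)) =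
      Polynomial.CAlgHom.comp (rename Subtype.val) := by
    refine algHom_ext fun w => ?_
    simp [sc, w.2]
  exact DFunLike.congr_fun h1 p

lemma aeval_cons' {A B : Type} [CommRing A] [Algebra ℂ A] [CommRing B] [Algebra ℂ B] {n : ℕ}
    (φ : A →ₐ[ℂ] B) (e : A) (a : Fin n → A) (G : MvPolynomial (Fin (n + 1)) ℂ) :
    φ (aeval (Fin.cons e a : Fin (n + 1) → A) G) =
      aeval (Fin.cons (φ e) fun l => φ (a l) : Fin (n + 1) → B) G := by
  rw [comp_aeval_apply]
  refine congrArg (fun f => aeval f G) (funext fun l => ?_)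
  refine Fin.cases ?_ (fun l => ?_) l <;> rfl

lemma sc_coeff (i : Fin D.k) : (sc i D.Fa).coeff (D.n i + 1) = ∑ c, ∏ j, aeval
    (Fin.cons (if j = i then 0 else 1) fun l => X ⟨j, l⟩ :
      Fin (D.n j + 1) → MvPolynomial D.Ax ℂ) (D.G c j) := by
  rw [Dat.Fa, map_sum, Polynomial.finset_sum_coeff]
  refine Finset.sum_congr rfl fun c _ => ?_
  rw [map_prod, ← Finset.mul_prod_erase _ _ (Finset.mem_univ i),
    ← Finset.mul_prod_erase _ _ (Finset.mem_univ i)]
  have h1 : ∀ j ∈ Finset.univ.erase i, sc i (aeval (Fin.cons 1 fun l => X ⟨j, l⟩ :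
      Fin (D.n j + 1) → MvPolynomial D.Ax ℂ) (D.G c j)) = Polynomial.C (aeval
      (Fin.cons (if j = i then 0 else 1) fun l => X ⟨j, l⟩ :
        Fin (D.n j + 1) → MvPolynomial D.Ax ℂ) (D.G c j)) := fun j hj => by
    have hj' := Finset.ne_of_mem_erase hj
    refine Eq.trans ?_ (aeval_cons' Polynomial.CAlgHom _ _ _).symm
    rw [aeval_cons']
    simp [sc, hj']
  rw [Finset.prod_congr rfl h1, ← map_prod, Polynomial.coeff_mul_C, aeval_cons', if_pos rfl,
    ← coeff_top (D.G_hom c i)]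
  simp [sc]

lemma sub_dvd {σ : Type} [DecidableEq σ] (w : σ) (P : MvPolynomial σ ℂ) :
    X w ∣ P - aeval (Function.update (X : σ → MvPolynomial σ ℂ) w 0) P := by
  induction P using MvPolynomial.induction_on with
  | C c => simp
  | add p q hp hq => rw [map_add, add_sub_add_comm]; exact dvd_add hp hq
  | mul_X p v hp =>
    rw [map_mul, aeval_X]
    by_cases h : v = w
    · simp [h]
    · rw [Function.update_of_ne h, ← sub_mul]
      exact hp.mul_right _

lemma coeff_ne {i : Fin D.k} (h : ¬X ⟨i, 0⟩ ∣ D.Fp) : (sc i D.Fa).coeff (D.n i + 1) ≠ 0 := by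
  intro h0
  rw [sc_coeff] at h0
  refine h ?_
  have h1 := sub_dvd (⟨i, 0⟩ : D.Hx) D.Fp
  suffices h2 : aeval (Function.update (X : D.Hx → MvPolynomial D.Hx ℂ) ⟨i, 0⟩ 0) D.Fp = 0 by
    rwa [h2, sub_zero] at h1
  let F := FractionRing (MvPolynomial D.Hx ℂ)
  let ι : MvPolynomial D.Hx ℂ →ₐ[ℂ] F := IsScalarTower.toAlgHom ℂ _ F
  have hι : Function.Injective ι := IsFractionRing.injective (MvPolynomial D.Hx ℂ) F
  let t : Fin D.k → F := fun j => if j = i then 1 else ι (X ⟨j, 0⟩)
  have ht : ∀ j, t j ≠ 0 := fun j => by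
    by_cases hj : j = i
    · simp [t, hj]
    · simp only [t, if_neg hj]
      exact (map_ne_zero_iff ι hι).2 (X_ne_zero _)
  have h3 := congrArg (aeval fun w : D.Ax => ι (X ⟨w.1, w.2.succ⟩) / t w.1) h0
  rw [map_zero, map_sum] at h3
  refine hι ?_
  rw [map_zero, comp_aeval_apply, Dat.Fp, map_sum, ← zero_mul (∏ j, t j ^ (D.n j + 1)), ← h3,
    Finset.sum_mul]
  refine Finset.sum_congr rfl fun c _ => ?_
  rw [map_prod, map_prod, ← Finset.prod_mul_distrib]
  refine Finset.prod_congr rfl fun j _ => ?_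
  rw [aeval_rename, aeval_cons', aeval_def, aeval_def, ← eval₂_scale _ _ _ (D.G_hom c j)]
  refine congrArg (fun f => eval₂ _ f _) (funext fun l => ?_)
  refine Fin.cases ?_ (fun l => ?_) l
  · by_cases hj : j = i
    · subst hj
      simp
    · have h4 : (⟨j, 0⟩ : D.Hx) ≠ ⟨i, 0⟩ := fun h => hj (congrArg Sigma.fst h)
      simp [t, hj, Function.update_of_ne h4]
  · have h4 : (⟨j, l.succ⟩ : D.Hx) ≠ ⟨i, 0⟩ := fun h => by
      obtain rfl : j = i := congrArg Sigma.fst h
      exact Fin.succ_ne_zero l (eq_of_heq (Sigma.mk.inj h).2)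
    simp only [Function.comp_apply, Function.update_of_ne h4, Fin.cons_succ, aeval_X]
    exact (div_mul_cancel₀ _ (ht j)).symm

lemma core {i : Fin D.k} (h : ¬X ⟨i, 0⟩ ∣ D.Fp) {P : MvPolynomial D.Ax ℂ} (h0 : P ≠ 0)
    (h1 : D.Fa ∣ P) : D.n i + 1 ≤ (sc i P).natDegree :=
  (Polynomial.le_natDegree_of_ne_zero (coeff_ne h)).trans
    (Polynomial.natDegree_le_of_dvd (map_dvd _ h1) fun h2 => h0 (sc_inj i h2))

variable {K : Type} [Field K] [Algebra ℂ K] (M : D.Mod K)

lemma mem_adj (z : K) : z ∈ IntermediateField.adjoin ℂ (range (D.xa M.x)) := by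
  obtain ⟨p, hp⟩ := M.X.exists_top
  obtain ⟨τ, hτ⟩ := M.hyp.chart p
  have h1 : ∀ i l, M.x i l ∈ IntermediateField.adjoin ℂ (range (D.xa M.x)) := fun i l => by
    refine Fin.cases ?_ (fun l => ?_) l
    · rw [M.hyp.one]; exact one_mem _
    · exact IntermediateField.subset_adjoin _ _ ⟨⟨i, l⟩, rfl⟩
  have h2 : ∀ t, D.y M.x t ∈ IntermediateField.adjoin ℂ (range (D.xa M.x)) := by
    rintro (t | t)
    · exact h1 _ _
    · exact sum_mem (t := Finset.univ) fun l _ => IntermediateField.smul_mem _ (h1 t.1.1 l)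
  have h3 : D.B M.x τ ≤ (IntermediateField.adjoin ℂ (range (D.xa M.x))).toSubalgebra :=
    Algebra.adjoin_le (by
      rintro _ ⟨t, rfl⟩
      exact IntermediateField.div_mem _ (h2 _) (h2 _))
  obtain ⟨b, h4, h5, h6⟩ := hτ.2 z (hp ▸ trivial)
  have h7 : b * z / b ∈ IntermediateField.adjoin ℂ (range (D.xa M.x)) := div_mem (h3 h6) (h3 h4)
  rwa [mul_div_cancel_left₀ _ h5.1] at h7

end TrdB

open TrdB in
theorem st_trd (h0 : St_KER0) (h1 : St_KER1) : St_TRD := by
  intro D K _ _ M
  obtain ⟨-, hF, hX⟩ := h1 D K M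
  have hk := h0 D K M
  have a3 : ∀ i, AlgebraicIndependent ℂ fun w : {w : D.Ax // w.1 ≠ i} => D.xa M.x w.1 :=
    fun i => algebraicIndependent_iff.2 fun p hp => by
      by_contra h
      have h2 := core (hX i) ((map_ne_zero_iff _ (rename_injective _ Subtype.val_injective)).2 h)
        ((hk _).1 (by rw [aeval_rename]; exact hp))
      rw [sc_rename, Polynomial.natDegree_C] at h2
      omega
  have a0 : aeval (D.xa M.x) D.Fa = 0 := (hk _).2 dvd_rfl
  have a1 : ∀ i, ∃ l : Fin (D.n i),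
      IsTranscendenceBasis ℂ fun w : {w : D.Ax // w ≠ ⟨i, l⟩} => D.xa M.x w.1 := fun i => by
    obtain ⟨l, hl⟩ : ∃ l : Fin (D.n i),
        AlgebraicIndependent ℂ fun w : {w : D.Ax // w ≠ ⟨i, l⟩} => D.xa M.x w.1 := by
      by_contra! h
      obtain ⟨q, hq⟩ := exists_rename_eq_of_vars_subset_range D.Fa
        (Subtype.val : {w : D.Ax // w.1 ≠ i} → D.Ax) Subtype.val_injective (by
          rintro ⟨j, l⟩ hw
          refine ⟨⟨⟨j, l⟩, ?_⟩, rfl⟩
          rintro rfl
          refine h l (algebraicIndependent_iff.2 fun p hp => of_not_not fun h2 => ?_)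
          have h3 := (map_ne_zero_iff _ (rename_injective (R := ℂ) _ Subtype.val_injective)).2 h2
          obtain ⟨Q, hQ⟩ := (hk (rename Subtype.val p)).1 (by rw [aeval_rename]; exact hp)
          have h4 : (⟨j, l⟩ : D.Ax) ∈ (rename Subtype.val p).vars := by
            rw [mem_vars_iff_degreeOf_ne_zero, hQ,
              degreeOf_mul_eq hF (right_ne_zero_of_mul (hQ ▸ h3))]
            have h5 := mem_vars_iff_degreeOf_ne_zero.1 hw
            omega
          obtain ⟨w, -, h5⟩ := mem_vars_rename _ _ h4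
          exact w.2 h5)
      rw [← hq, aeval_rename] at a0
      exact hF (by rw [← hq, algebraicIndependent_iff.1 (a3 i) q a0, map_zero])
    refine ⟨l, hl.isTranscendenceBasis_iff_isAlgebraic.2 ⟨fun z => ?_⟩⟩
    induction mem_adj M z using IntermediateField.adjoin_induction with
    | mem z hz =>
      obtain ⟨w, rfl⟩ := hz
      by_cases hw : w = ⟨i, l⟩
      · by_contra h
        have h2 := ((hl.option_iff_transcendental _).2 h).comp _
          (Equiv.optionSubtypeNe (⟨i, l⟩ : D.Ax)).symm.injective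
        refine hF (algebraicIndependent_iff.1 h2 _ (Eq.trans ?_ a0))
        refine congrArg (fun f => aeval f D.Fa) (funext fun v => ?_)
        by_cases hv : v = ⟨i, l⟩
        · simp [hv, hw]
        · simp [Equiv.optionSubtypeNe_symm_of_ne hv]
      · exact isAlgebraic_algebraMap (⟨_, Algebra.subset_adjoin ⟨⟨w, hw⟩, rfl⟩⟩ :
          Algebra.adjoin ℂ (range fun w : {w : D.Ax // w ≠ ⟨i, l⟩} => D.xa M.x w.1))
    | algebraMap a => exact isAlgebraic_algebraMap (⟨_, Subalgebra.algebraMap_mem _ a⟩ :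
          Algebra.adjoin ℂ (range fun w : {w : D.Ax // w ≠ ⟨i, l⟩} => D.xa M.x w.1))
    | add x y _ _ hx hy => exact hx.add hy
    | inv x _ hx => exact hx.inv
    | mul x y _ _ hx hy => exact hx.mul hy
  refine ⟨a1, ?_, a3, fun j hj hm => ?_⟩
  · obtain ⟨i, -⟩ := D.surf
    obtain ⟨l, hl⟩ := a1 i
    rw [← hl.cardinalMk_eq_trdeg, ← Cardinal.mk_option,
      Cardinal.mk_congr (Equiv.optionSubtypeNe (⟨i, l⟩ : D.Ax))]
    simp
  · have h2 : D.K' M.x j ≤ (IntermediateField.adjoin ℂ
        (range fun w : {w : D.Ax // w.1 ≠ j} => D.xa M.x w.1)).toSubfield := by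
      refine Subfield.closure_le.2 ?_
      rintro _ (⟨a, rfl⟩ | ⟨i, hi, l, rfl⟩)
      · exact IntermediateField.algebraMap_mem _ a
      · refine Fin.cases ?_ (fun l => ?_) l
        · rw [M.hyp.one]; exact one_mem _
        · exact IntermediateField.subset_adjoin _ _ ⟨⟨⟨i, l⟩, hi⟩, rfl⟩
    obtain ⟨r, s, h3⟩ := (IntermediateField.mem_adjoin_range_iff _ _ _).1 (h2 hm)
    have h4 : M.x j (Fin.last _) ≠ 0 := M.hyp.ne (.inl ⟨j, Fin.last _⟩)
    have h5 : aeval (fun w : {w : D.Ax // w.1 ≠ j} => D.xa M.x w.1) s ≠ 0 := fun h =>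
      h4 (by rw [h3, h, div_zero])
    obtain ⟨l, hl⟩ := Fin.eq_succ_of_ne_zero (i := Fin.last (D.n j)) fun h => by
      have := congrArg Fin.val h
      simp [hj] at this
    have h6 : sc j (rename Subtype.val s * X ⟨j, l⟩ - rename Subtype.val r) =
        Polynomial.C (rename Subtype.val s * X ⟨j, l⟩) * Polynomial.X +
          Polynomial.C (-rename Subtype.val r) := by
      rw [map_sub, map_mul, sc_rename, sc_rename]
      simp only [sc, aeval_X, if_pos, map_mul, map_neg]
      ring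
    have h7 := core (hX j) (P := rename Subtype.val s * X ⟨j, l⟩ - rename Subtype.val r)
      (fun h => by
        have h8 := congrArg (fun p => Polynomial.coeff p 1) h6
        simp only [h, map_zero, Polynomial.coeff_zero, Polynomial.coeff_add, Polynomial.coeff_C_mul,
          Polynomial.coeff_X_one, mul_one, Polynomial.coeff_C_succ, add_zero] at h8
        have h9 := (mul_eq_zero.1 h8.symm).resolve_right (X_ne_zero _)
        rw [map_eq_zero_iff _ (rename_injective _ Subtype.val_injective)] at h9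
        exact h5 (by rw [h9, map_zero]))
      ((hk _).1 (by
        rw [map_sub, map_mul, aeval_rename, aeval_rename, aeval_X, Dat.xa, ← hl, h3]
        exact sub_eq_zero.2 (mul_div_cancel₀ _ h5)))
    have h8 := h7.trans (h6 ▸ Polynomial.natDegree_linear_le)
    omega

end Pool.Agent.Lib.MV
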