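import Pool.Agent.Lib.MV.Basic

open MvPolynomial Set WithZero Pool.Agent.Lib.MP_e39d36_ag Pool.Agent.Lib.MP_e39d36_ag.Var
  Pool.Agent.Lib.MP_cc3443_ag Pool.Agent.Lib.DU

set_option linter.unusedSectionVars false
set_option linter.unusedVariables false

noncomputable section

namespace Pool.Agent.Lib.MV

namespace VanyB

variable {D : Dat} {F : Type} [Field F] [Algebra ℂ F] {x : ∀ i, Fin (D.n i + 1) → F}
  {O : Subalgebra ℂ D.L} {ψ : D.L →ₗ[ℂ] F} (h : D.Psi x O ψ) {a : D.L}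
include h

lemma psi_pow (ha : a ∈ O) (n : ℕ) : ψ (a ^ n) = ψ a ^ n := by
  induction n with
  | zero => simp [h.one]
  | succ n ih => rw [pow_succ, h.mul _ (pow_mem ha n) _ ha, ih, pow_succ]

lemma psi_inv (ha : a ∈ O) (h0 : ψ a ≠ 0) : ψ a⁻¹ = (ψ a)⁻¹ := by
  have h1 : a ≠ 0 := by rintro rfl; simp at h0
  have := h.mul _ ha _ (h.inv a ha h0)
  rw [mul_inv_cancel₀ h1, h.one] at this
  exact eq_inv_of_mul_eq_one_right this.symm

lemma psi_zpow (ha : a ∈ O) (h0 : ψ a ≠ 0) (n : ℤ) : a ^ n ∈ O ∧ ψ (a ^ n) = ψ a ^ n := by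
  rcases n with n | n
  · simpa using ⟨pow_mem ha n, psi_pow h ha n⟩
  · have h1 := psi_pow h ha (n + 1)
    have h2 : ψ (a ^ (n + 1)) ≠ 0 := h1 ▸ pow_ne_zero _ h0
    rw [zpow_negSucc, zpow_negSucc]
    exact ⟨h.inv _ (pow_mem ha _) h2, by rw [psi_inv h (pow_mem ha _) h2, h1]⟩

variable (hy : ∀ t, D.y x t ≠ 0)
include hy

lemma psi_gA (A : Finset D.Sl) (v : D.Λ) (τ : D.Ch) :
    D.gA D.X A v τ ∈ O ∧ ψ (D.gA D.X A v τ) = D.gA x A v τ := by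
  induction A using Finset.induction_on with
  | empty => simp [Dat.gA, h.one]
  | insert μ A hμ ih =>
    rw [Dat.gA_insert hμ, Dat.gA_insert hμ]
    have := psi_zpow h (h.mem (τ.1 μ)) (by rw [h.val]; exact hy _) (v μ.1 μ.2)
    exact ⟨mul_mem this.1 ih.1, by rw [h.mul _ this.1 _ ih.1, this.2, ih.2, h.val]⟩

lemma psi_div {s : Finset D.Vx} {v : D.Λ} {τ : D.Ch} {z : D.L}
    (hz : z / D.gen D.X v τ ∈ D.Bs D.X s) : ψ (z / D.gen D.X v τ) = ψ z / D.gen x v τ := by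
  have h1 := psi_gA h hy Finset.univ v τ
  have h2 := h.mul _ (h.le s hz) _ h1.1
  rw [div_mul_cancel₀ _ (Dat.gA_ne Dat.yX_ne), h1.2] at h2
  rw [h2, mul_div_cancel_right₀ _ (Dat.gA_ne hy)]

omit h hy in
lemma Fx_mul (v : D.Λ) (τ : D.Ch) (z : D.L) : D.Fx D.X * z / D.gen D.X v τ =
    D.f D.X τ * (z / D.gen D.X (v - D.κ) τ) := by
  have h1 : D.gen D.X v τ ≠ 0 := Dat.gA_ne Dat.yX_ne
  have h2 : D.gen D.X D.κ τ ≠ 0 := Dat.gA_ne Dat.yX_ne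
  rw [Dat.f_eq, show D.gen D.X (v - D.κ) τ = D.gen D.X v τ / D.gen D.X D.κ τ from
    Dat.gA_sub Dat.yX_ne]
  field_simp

lemma ses (v : D.Λ) : SES (D.Ms D.X Finset.univ (v - D.κ)) (D.Ms D.X Finset.univ v)
    (D.Ms x Finset.univ v) (AddMonoidHom.mulLeft (D.Fx D.X)) ψ.toAddMonoidHom := by
  have hF : D.Fx D.X ≠ 0 := fun h0 => by
    obtain ⟨τ⟩ : Nonempty D.Ch := inferInstance
    exact h.f_ne τ (by rw [Dat.f_eq, h0, zero_div])
  have hm : ∀ (s : Finset D.Vx) (τ : D.Ch), (∀ μ ∈ Finset.univ, τ.1 μ ∈ s) →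
      D.f D.X τ ∈ D.Bs D.X s := fun s τ hτ =>
    Dat.B_le_Bs (fun μ => hτ μ (Finset.mem_univ _)) (h.f_mem τ)
  refine ⟨Dat.Ms_mono, Dat.Ms_mono, fun s z _ h0 => (mul_eq_zero.1 h0).resolve_left hF,
    fun s z hz => ?_, fun s z hz => ?_, fun s z hz => ?_, fun s z hz h0 => ?_, fun s z hz => ?_⟩ <;>
  by_cases hc : ∃ τ : D.Ch, ∀ μ ∈ Finset.univ, τ.1 μ ∈ s
  all_goals first
    | (rw [Dat.Ms_bot hc, AddSubgroup.mem_bot] at hz; subst hz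
       first | (rw [map_zero]; first | exact zero_mem _ | exact map_zero _) |
         exact ⟨0, zero_mem _, map_zero _⟩)
    | obtain ⟨τ, hτ⟩ := hc
  · rw [Dat.mem_Ms Dat.yX_ne hτ] at hz ⊢
    rw [AddMonoidHom.coe_mulLeft, Fx_mul]
    exact mul_mem (hm s τ hτ) hz
  · rw [Dat.mem_Ms Dat.yX_ne hτ] at hz
    rw [Dat.mem_Ms hy hτ, LinearMap.toAddMonoidHom_coe, ← psi_div h hy hz]
    exact h.map s _ hz
  · rw [Dat.mem_Ms Dat.yX_ne hτ] at hz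
    have h1 := psi_div h hy (s := s) (v := v) (τ := τ) (z := D.Fx D.X * z)
      (by rw [Fx_mul]; exact mul_mem (hm s τ hτ) hz)
    rw [Fx_mul, h.mul _ (h.le s (hm s τ hτ)) _ (h.le s hz), h.f_zero, zero_mul, eq_comm,
      div_eq_zero_iff] at h1
    exact h1.resolve_right (Dat.gA_ne hy)
  · rw [Dat.mem_Ms Dat.yX_ne hτ] at hz
    obtain ⟨b, hb, e⟩ := h.ker s τ (fun μ => hτ μ (Finset.mem_univ _)) _ hz (by
      rw [psi_div h hy hz, show ψ z = 0 from h0, zero_div])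
    have h1 : b * D.gen D.X (v - D.κ) τ / D.gen D.X (v - D.κ) τ = b :=
      mul_div_cancel_right₀ _ (Dat.gA_ne Dat.yX_ne)
    refine ⟨b * D.gen D.X (v - D.κ) τ, (Dat.mem_Ms Dat.yX_ne hτ).2 (by rwa [h1]), ?_⟩
    have h2 := Fx_mul v τ (b * D.gen D.X (v - D.κ) τ)
    rw [h1, ← e, div_left_inj' (Dat.gA_ne Dat.yX_ne)] at h2
    exact h2
  · rw [Dat.mem_Ms hy hτ] at hz
    obtain ⟨b, hb, e⟩ := h.surj s _ hz
    have h1 : b * D.gen D.X v τ / D.gen D.X v τ = b :=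
      mul_div_cancel_right₀ _ (Dat.gA_ne Dat.yX_ne)
    refine ⟨b * D.gen D.X v τ, (Dat.mem_Ms Dat.yX_ne hτ).2 (by rwa [h1]), ?_⟩
    have h2 := psi_div h hy (s := s) (v := v) (τ := τ) (z := b * D.gen D.X v τ) (by rwa [h1])
    rw [h1, e, div_left_inj' (Dat.gA_ne hy)] at h2
    exact h2.symm

lemma van {v : D.Λ} {q : ℕ} (H : D.Van D.X v q ∧ D.Van D.X (v - D.κ) (q + 1)) : D.Van x v q :=
  (ses h hy v).exC H.1 H.2

end VanyB

theorem st_vany (hPSI : St_PSI) (hVANZ : St_VANZ) : St_VANY := fun D K _ _ M => by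
  obtain ⟨O, ψ, h⟩ := hPSI D K M
  obtain ⟨h1, h2, h3⟩ := hVANZ D
  exact ⟨fun μ => VanyB.van h M.ne (h1 μ), fun i a => VanyB.van h M.ne (h2 i a),
    VanyB.van h M.ne h3⟩

end Pool.Agent.Lib.MV
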