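import Pool.Agent.Lib.MV.B_DERK

set_option linter.unusedSectionVars false
set_option linter.unusedVariables false

namespace Pool.Agent.Lib.MV

namespace DerkB

lemma d7 (Pn : (Option (Fin 7) → ℤ) → Prop) (h1 : ∀ a, Pn (Pi.single (some a) 1))
    (h2 : ∀ a b c d, a ≠ b → a ≠ c → a ≠ d → b ≠ c → b ≠ d → c ≠ d → Pn (conic a b c d)) :
    Der 2 Pn (-kz 2 7 - kz 2 7) 2 := by
  refine Der.sub _ _ _ (cn h2 0 1 2 3 (by decide)) ?_ ?_
  · refine Der.sub _ _ _ (cn h2 0 4 5 6 (by decide)) ?_ ?_
    · exact Der.base _ _ (by decide) (by decide)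
    · refine quo (h1 0) ?_ ?_
      · exact Der.base _ _ (by decide) (by decide)
      · exact Der.base _ _ (by decide) (by decide)
  · refine mid (cn h2 0 4 5 6 (by decide)) ?_ ?_
    · refine quo (h1 1) ?_ ?_
      · refine Der.sub _ _ _ (cn h2 0 4 5 6 (by decide)) ?_ ?_
        · refine Der.sub _ _ _ (cn h2 1 4 5 6 (by decide)) ?_ ?_
          · exact Der.base _ _ (by decide) (by decide)
          · refine quo (h1 1) ?_ ?_
            · exact Der.base _ _ (by decide) (by decide)
            · exact Der.base _ _ (by decide) (by decide)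
        · refine quo (h1 0) ?_ ?_
          · exact Der.base _ _ (by decide) (by decide)
          · exact Der.base _ _ (by decide) (by decide)
      · refine Der.sub _ _ _ (cn h2 1 4 5 6 (by decide)) ?_ ?_
        · refine Der.sub _ _ _ (cn h2 0 4 5 6 (by decide)) ?_ ?_
          · exact Der.base _ _ (by decide) (by decide)
          · refine quo (h1 0) ?_ ?_
            · exact Der.base _ _ (by decide) (by decide)
            · exact Der.base _ _ (by decide) (by decide)
        · exact Der.base _ _ (by decide) (by decide)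
    · refine quo (h1 0) ?_ ?_
      · exact Der.base _ _ (by decide) (by decide)
      · exact Der.base _ _ (by decide) (by decide)

end DerkB

theorem derk7 (r : ℕ) (h1 : 1 ≤ r) (h7 : r ≤ 7) (Pn : (Option (Fin r) → ℤ) → Prop)
    (h2 : ∀ a, Pn (Pi.single (some a) 1))
    (h3 : ∀ a b c d, a ≠ b → a ≠ c → a ≠ d → b ≠ c → b ≠ d → c ≠ d → Pn (conic a b c d)) :
    Der 2 Pn (-kz 2 r - kz 2 r) 2 := by
  rcases h7.eq_or_lt with rfl | h
  exacts [DerkB.d7 Pn h2 h3, st_derk r h1 (by omega) Pn h2 h3]

end Pool.Agent.Lib.MV
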