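import Pool.Agent.Lib.MV.Basic
import Pool.Agent.Lib.MV.B_DERK7

set_option linter.unusedSectionVars false
set_option linter.unusedVariables false

namespace Pool.Agent.Lib.MV

namespace Vanz7

variable {n r : ℕ} {Pn : (Option (Fin r) → ℤ) → Prop}

lemma sum_kz : ∑ o, kz n r o = n + 1 := by
  simp [Fintype.sum_option, kz]

lemma sum_single (o : Option (Fin r)) : ∑ o', (Pi.single o 1 : Option (Fin r) → ℤ) o' = 1 := by
  simp

lemma single_some (o : Option (Fin r)) (a : Fin r) :
    (Pi.single o 1 : Option (Fin r) → ℤ) (some a) = 0 ∨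
      (Pi.single o 1 : Option (Fin r) → ℤ) (some a) = 1 := by
  by_cases h : some a = o
  · subst h; simp
  · simp [h]

lemma single_none (a : Fin r) : (Pi.single none 1 : Option (Fin r) → ℤ) (some a) = 0 := by simp

lemma kz_some (a : Fin r) : kz n r (some a) = 1 := rfl

lemma d_zero : Der n Pn 0 0 := Der.base _ _ (fun _ => Or.inl rfl) (Or.inr (Or.inr le_rfl))

lemma d_h (hn : 1 ≤ n) (o : Option (Fin r)) (q : ℤ) : Der n Pn (-Pi.single o 1) q := by
  refine Der.base _ _ (fun a => ?_) (Or.inl ?_)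
  · have := single_some o a
    simp only [Pi.neg_apply]; omega
  · simp only [Pi.neg_apply, Finset.sum_neg_distrib, sum_single]; omega

lemma d_hh (hn : n = 2) (a : Fin r) (q : ℤ) :
    Der n Pn (-Pi.single none 1 - Pi.single (some a) 1) q := by
  refine Der.base _ _ (fun b => ?_) (Or.inl ?_)
  · have := single_some (some a) b
    simp only [Pi.sub_apply, Pi.neg_apply, single_none]; omega
  · simp only [Pi.sub_apply, Pi.neg_apply, Finset.sum_sub_distrib, Finset.sum_neg_distrib,
      sum_single]; omega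

lemma d_k : Der n Pn (-kz n r) n := by
  refine Der.base _ _ (fun b => Or.inr rfl) (Or.inr (Or.inl ⟨?_, le_rfl⟩))
  simp only [Pi.neg_apply, Finset.sum_neg_distrib, sum_kz]; omega

lemma d_Hk : Der n Pn (-Pi.single none 1 - kz n r) n := by
  refine Der.base _ _ (fun b => Or.inr ?_) (Or.inr (Or.inl ⟨?_, le_rfl⟩))
  · simp only [Pi.sub_apply, Pi.neg_apply, single_none, kz_some]; omega
  · simp only [Pi.sub_apply, Pi.neg_apply, Finset.sum_sub_distrib, Finset.sum_neg_distrib,
      sum_single, sum_kz]; omega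

lemma d_ak (a : Fin r) (ha : Pn (Pi.single (some a) 1)) :
    Der n Pn (-Pi.single (some a) 1 - kz n r) n := by
  refine Der.sub _ _ _ ha ?_ ?_
  · rw [show -Pi.single (some a) 1 - kz n r + Pi.single (some a) 1 = -kz n r by abel]
    exact d_k
  · rw [show -Pi.single (some a) 1 - kz n r + Pi.single (some a) 1 + Pi.single (some a) 1 =
      Pi.single (some a) 1 - kz n r by abel]
    refine Der.base _ _ (fun b => ?_) ?_
    · have := single_some (some a) b
      simp only [Pi.sub_apply, kz_some]; omega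
    · simp only [Pi.sub_apply, Finset.sum_sub_distrib, sum_single, sum_kz]; omega

lemma d_Hak (a : Fin r) (ha : Pn (Pi.single (some a) 1)) :
    Der n Pn (-Pi.single none 1 - Pi.single (some a) 1 - kz n r) n := by
  refine Der.sub _ _ _ ha ?_ ?_
  · rw [show -Pi.single none 1 - Pi.single (some a) 1 - kz n r + Pi.single (some a) 1 =
      -Pi.single none 1 - kz n r by abel]
    exact d_Hk
  · rw [show -Pi.single none 1 - Pi.single (some a) 1 - kz n r + Pi.single (some a) 1 +
      Pi.single (some a) 1 = Pi.single (some a) 1 - Pi.single none 1 - kz n r by abel]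
    refine Der.base _ _ (fun b => ?_) ?_
    · have := single_some (some a) b
      simp only [Pi.sub_apply, kz_some, single_none]; omega
    · simp only [Pi.sub_apply, Finset.sum_sub_distrib, sum_single, sum_kz]; omega

lemma d_ok (o : Option (Fin r)) (ha : ∀ a, Pn (Pi.single (some a) 1)) :
    Der n Pn (-Pi.single o 1 - kz n r) n := by
  cases o with
  | none => exact d_Hk
  | some a => exact d_ak a (ha a)

lemma d_kk0 (hr : r = 0) : Der n Pn (-kz n r - kz n r) n := by
  subst hr
  refine Der.base _ _ (fun b => b.elim0) (Or.inr (Or.inl ⟨?_, le_rfl⟩))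
  simp only [Pi.sub_apply, Pi.neg_apply, Finset.sum_sub_distrib, Finset.sum_neg_distrib, sum_kz]
  omega

end Vanz7

open Vanz7 in
theorem st_vanz7 (hDER : St_DER) (hPEN : St_PEN) : St_VANZ := by
  intro D
  have hP := hPEN D D.L D.X Dat.yX_ne
  have key : ∀ (v : D.Λ) (q : Fin D.k → ℤ) (m : ℕ),
      (∀ i, Der (D.n i) (fun c => D.Pen D.X (Pi.single i c)) (v i) (q i)) → (m : ℤ) < ∑ i, q i →
      D.Van D.X v m := fun v q m h hm => hDER D v q h _ (by push_cast; omega)
  have hd : (4 : ℤ) ≤ ∑ i, (D.n i : ℤ) := by exact_mod_cast D.dim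
  have k1 : ∀ (i : Fin D.k) (c : Option (Fin (D.r i)) → ℤ) (m : ℕ),
      (∀ q, Der (D.n i) (fun c => D.Pen D.X (Pi.single i c)) c q) →
      D.Van D.X (Pi.single i c) m := fun i c m h => by
    refine key _ (Pi.single i (m + 1)) m (fun j => ?_) (by simp)
    by_cases e : j = i
    · subst e
      rw [Pi.single_eq_same]
      exact h _
    · rw [Pi.single_eq_of_ne e, Pi.single_eq_of_ne e]
      exact d_zero
  have k2 : ∀ (i : Fin D.k) (c : Option (Fin (D.r i)) → ℤ) (m : ℕ), m ≤ 3 →
      Der (D.n i) (fun c => D.Pen D.X (Pi.single i c)) (c - kz (D.n i) (D.r i)) (D.n i) →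
      D.Van D.X (Pi.single i c - D.κ) m := fun i c m hm h => by
    refine key _ (fun j => D.n j) m (fun j => ?_) (by omega)
    by_cases e : j = i
    · subst e
      rw [Pi.sub_apply, Pi.single_eq_same]
      exact h
    · rw [Pi.sub_apply, Pi.single_eq_of_ne e, zero_sub]
      exact d_k
  have e1 : ∀ μ : D.Sl, -D.h μ = Pi.single μ.1 (-Pi.single μ.2 1) := fun μ =>
    (Pi.single_neg _ _).symm
  have e2 : ∀ i a, -D.h ⟨i, none⟩ - D.h ⟨i, some a⟩ =
      Pi.single i (-Pi.single none 1 - Pi.single (some a) 1) := fun i a => by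
    rw [Pi.single_sub, Pi.single_neg]; rfl
  refine ⟨fun μ => ?_, fun i a => ?_, ?_, ?_⟩
  · rw [e1]
    exact ⟨k1 _ _ _ (d_h (D.n_pos _) _), k2 _ _ _ (by omega) (d_ok _ (hP _).1)⟩
  · rw [e2]
    exact ⟨k1 _ _ _ (d_hh (D.n_eq i a.pos.ne') a), k2 _ _ _ le_rfl (d_Hak a ((hP i).1 a))⟩
  · exact key _ (fun j => D.n j) 2 (fun j => d_k) (by omega)
  · refine key _ (fun j => D.n j) 3 (fun j => ?_) (by omega)
    change Der (D.n j) (fun c => D.Pen D.X (Pi.single j c))
      (-kz (D.n j) (D.r j) - kz (D.n j) (D.r j)) (D.n j)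
    by_cases hr : D.r j = 0
    · exact d_kk0 hr
    · have := derk7 (D.r j) (by omega) (D.r_le j) (fun c => D.Pen D.X (Pi.single j c))
        (hP j).1 (hP j).2
      generalize (fun c => D.Pen D.X (Pi.single j c)) = Pn at this ⊢
      rw [D.n_eq j hr]
      exact this

end Pool.Agent.Lib.MV
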