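import Pool.Agent.Lib.MV.B_BPF
import Pool.Agent.Lib.MV.B_DER
import Pool.Agent.Lib.MV.B_DF
import Pool.Agent.Lib.MV.B_DRV
import Pool.Agent.Lib.MV.B_EL1
import Pool.Agent.Lib.MV.B_ELIM
import Pool.Agent.Lib.MV.B_ETA
import Pool.Agent.Lib.MV.B_FRM
import Pool.Agent.Lib.MV.B_GLUE
import Pool.Agent.Lib.MV.B_KAP
import Pool.Agent.Lib.MV.B_KER0
import Pool.Agent.Lib.MV.B_KER1
import Pool.Agent.Lib.MV.B_L
import Pool.Agent.Lib.MV.B_MON
import Pool.Agent.Lib.MV.B_NY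
import Pool.Agent.Lib.MV.B_PEN
import Pool.Agent.Lib.MV.B_PSI
import Pool.Agent.Lib.MV.B_PTZ
import Pool.Agent.Lib.MV.B_REGS
import Pool.Agent.Lib.MV.B_REL
import Pool.Agent.Lib.MV.B_SAT
import Pool.Agent.Lib.MV.B_TRD
import Pool.Agent.Lib.MV.B_VANY
import Pool.Agent.Lib.MV.B_VANZ7
import Pool.Agent.Lib.MV.B_XI

namespace Pool.Agent.Lib.MV

theorem all_vanz : St_VANZ :=
  st_vanz7 (st_der (st_elim st_mon (st_el1 st_regs)) st_bpf) (st_pen st_kap')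

theorem all_L : St_L :=
  have h1 := st_ker1 st_ker0 st_ptz
  have hP := st_psi st_kap' h1
  st_l (st_ny (st_drv hP) st_xi (st_rel st_xi (st_trd st_ker0 h1)) st_sat (st_df st_kap')
    (st_vany hP all_vanz)) st_eta st_frm st_glue

end Pool.Agent.Lib.MV
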