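import Pool.Agent.Lib.MV.Blue

open MvPolynomial Set WithZero Pool.Agent.Lib.MP_e39d36_ag Pool.Agent.Lib.MP_e39d36_ag.Var
  Pool.Agent.Lib.MP_cc3443_ag Pool.Agent.Lib.DU

set_option linter.unusedSectionVars false
set_option linter.unusedVariables false

noncomputable section

namespace Pool.Agent.Lib.MV

section loc

variable {F : Type} [Field F] {B T : Subring F} {a b z : F}

lemma mem_of_loc (h : ∀ T, IsLoc T → LocOf B T → z ∈ T) : z ∈ B := mem_of_forall_loc h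

lemma exists_comb (ha : a ∈ B) (hb : b ∈ B) (h : ∀ T, IsLoc T → LocOf B T → Un T a ∨ Un T b) :
    ∃ p ∈ B, ∃ q ∈ B, p * a + q * b = 1 := by
  by_contra h1
  obtain ⟨m, hm, hm'⟩ := Ideal.exists_le_maximal (Ideal.span {(⟨a, ha⟩ : B), ⟨b, hb⟩})
    ((Ideal.ne_top_iff_one _).2 fun h2 => by
      obtain ⟨p, q, e⟩ := Ideal.mem_span_pair.1 h2
      exact h1 ⟨p, p.2, q, q.2, congrArg Subtype.val e⟩)
  obtain ⟨T, h2, h3, h4⟩ := exists_locP m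
  rcases h T h2 h3 with h5 | h5
  · exact (h4 ⟨a, ha⟩).1 h5 (hm' (Ideal.subset_span (by simp)))
  · exact (h4 ⟨b, hb⟩).1 h5 (hm' (Ideal.subset_span (by simp)))

lemma un_zpow (ha : Un T a) (n : ℤ) : Un T (a ^ n) := by
  rcases n with n | n
  · simpa using ha.pow n
  · simpa using (ha.pow (n + 1)).inv

lemma un_mul_mem_iff (ha : Un T a) : a * z ∈ T ↔ z ∈ T :=
  ⟨ha.mem_of_mul, mul_mem ha.2.1⟩

variable [Algebra ℂ F]

lemma smul_mem_of (hT : ∀ c : ℂ, algebraMap ℂ F c ∈ T) (c : ℂ) (hz : z ∈ T) : c • z ∈ T := by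
  rw [Algebra.smul_def]; exact mul_mem (hT c) hz

lemma un_of_smul (hT : ∀ c : ℂ, algebraMap ℂ F c ∈ T) {c : ℂ} (hz : z ∈ T) (h : Un T (c • z)) :
    Un T z := by
  rw [Algebra.smul_def] at h; exact h.of_mul' (hT c) hz

lemma un_of_sum_smul {J : Type} {s : Finset J} (hT : IsLoc T) (hc : ∀ c : ℂ, algebraMap ℂ F c ∈ T)
    {c : J → ℂ} {w : J → F} (hw : ∀ j ∈ s, w j ∈ T) (h : Un T (∑ j ∈ s, c j • w j)) :
    ∃ j ∈ s, Un T (w j) := by
  obtain ⟨j, hj, h1⟩ := hT.of_sum (fun j hj => smul_mem_of hc _ (hw j hj)) h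
  exact ⟨j, hj, un_of_smul hc (hw j hj) h1⟩

end loc

lemma mo_eq_od {K J : Type} [Field K] [Fintype J] {v : Valuation K ℤᵐ⁰} {a : J → K} {l : J}
    (h : ∀ j, v (a j) ≤ v (a l)) : mo v a = od v (a l) := by
  rw [mo, od, le_antisymm (nm_le.2 h) (le_nm a l)]

namespace Dat

variable {D : Dat}

@[simp] lemma sl_inl (v : D.Hx) : D.sl (.inl v) = ⟨v.1, none⟩ := rfl

@[simp] lemma sl_inr (w : Σ i, Fin (D.r i)) (j : Fin 2) : D.sl (.inr (w, j)) = ⟨w.1, some w.2⟩ := rfl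

lemma sl_τ (τ : D.Ch) (μ : D.Sl) : D.sl (τ.1 μ) = μ := τ.2 μ

lemma exists_inl {t : D.Vx} {i : Fin D.k} (h : D.sl t = ⟨i, none⟩) : ∃ l, t = .inl ⟨i, l⟩ := by
  rcases t with ⟨j, l⟩ | ⟨⟨j, a⟩, l⟩
  · obtain rfl : j = i := congrArg Sigma.fst h
    exact ⟨l, rfl⟩
  · obtain rfl : j = i := congrArg Sigma.fst h
    simp at h

lemma exists_inr {t : D.Vx} {i : Fin D.k} {a : Fin (D.r i)} (h : D.sl t = ⟨i, some a⟩) :
    ∃ j, t = .inr (⟨i, a⟩, j) := by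
  rcases t with ⟨j, l⟩ | ⟨⟨j, b⟩, l⟩
  · obtain rfl : j = i := congrArg Sigma.fst h
    simp at h
  · obtain rfl : j = i := congrArg Sigma.fst h
    obtain rfl : b = a := by simpa using h
    exact ⟨l, rfl⟩

/-- A chart from a choice of indices. -/
def mkCh (l : ∀ i, Fin (D.n i + 1)) (j : (Σ i, Fin (D.r i)) → Fin 2) : D.Ch :=
  ⟨fun μ => μ.2.elim (.inl ⟨μ.1, l μ.1⟩) fun a => .inr (⟨μ.1, a⟩, j ⟨μ.1, a⟩), fun μ => by
    rcases μ with ⟨i, _ | a⟩ <;> rfl⟩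

@[simp] lemma mkCh_none (l : ∀ i, Fin (D.n i + 1)) (j : (Σ i, Fin (D.r i)) → Fin 2) (i : Fin D.k) :
    (mkCh l j).1 ⟨i, none⟩ = .inl ⟨i, l i⟩ := rfl

@[simp] lemma mkCh_some (l : ∀ i, Fin (D.n i + 1)) (j : (Σ i, Fin (D.r i)) → Fin 2) (i : Fin D.k)
    (a : Fin (D.r i)) : (mkCh l j).1 ⟨i, some a⟩ = .inr (⟨i, a⟩, j ⟨i, a⟩) := rfl

lemma exists_mkCh (τ : D.Ch) : ∃ l j, τ = mkCh l j := by
  choose l hl using fun i => exists_inl (sl_τ τ ⟨i, none⟩)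
  choose j hj using fun w : Σ i, Fin (D.r i) => exists_inr (sl_τ τ ⟨w.1, some w.2⟩)
  refine ⟨l, j, Subtype.ext (funext fun μ => ?_)⟩
  rcases μ with ⟨i, _ | a⟩
  exacts [hl i, hj ⟨i, a⟩]

instance : Nonempty D.Ch := ⟨mkCh (fun _ => 0) fun _ => 0⟩

instance : Nonempty (Fin D.k) := D.surf.elim fun i _ => ⟨i⟩

instance : Nonempty D.Sl := D.surf.elim fun i _ => ⟨⟨i, none⟩⟩

/-- Change a chart in one slot. -/
def updCh (τ : D.Ch) (t : D.Vx) : D.Ch :=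
  ⟨Function.update τ.1 (D.sl t) t, fun μ => by
    by_cases h : μ = D.sl t
    · subst h; simp
    · rw [Function.update_of_ne h, sl_τ]⟩

@[simp] lemma updCh_self (τ : D.Ch) (t : D.Vx) : (updCh τ t).1 (D.sl t) = t := by simp [updCh]

lemma updCh_ne (τ : D.Ch) (t : D.Vx) {μ : D.Sl} (h : μ ≠ D.sl t) : (updCh τ t).1 μ = τ.1 μ :=
  Function.update_of_ne h _ _

lemma exists_ch {A : Finset D.Sl} {s : Finset D.Vx} (h : ∀ μ ∈ A, ∃ t ∈ s, D.sl t = μ) :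
    ∃ τ : D.Ch, ∀ μ ∈ A, τ.1 μ ∈ s := by
  obtain ⟨τ⟩ : Nonempty D.Ch := inferInstance
  have : ∀ μ, ∃ t, D.sl t = μ ∧ (μ ∈ A → t ∈ s) := fun μ => by
    by_cases h1 : μ ∈ A
    · obtain ⟨t, h2, h3⟩ := h μ h1
      exact ⟨t, h3, fun _ => h2⟩
    · exact ⟨_, sl_τ τ μ, fun h2 => absurd h2 h1⟩
  choose f h1 h2 using this
  exact ⟨⟨f, h1⟩, h2⟩

@[simp] lemma mem_TA {A : Finset D.Sl} {t : D.Vx} : t ∈ D.TA A ↔ D.sl t ∈ A := by simp [TA]

@[simp] lemma TA_univ : D.TA Finset.univ = Finset.univ := by simp [TA]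

@[simp] lemma mem_A0 {μ : D.Sl} : μ ∈ D.A0 ↔ μ.2 = none := by simp [A0]

instance : Preorder D.Vx := (inferInstance : LinearOrder D.Vx).toPreorder

instance : LT D.Vx := (inferInstance : LinearOrder D.Vx).toLT

instance : LE D.Vx := (inferInstance : LinearOrder D.Vx).toLE

lemma sl_convex {t u w : D.Vx} (h1 : t < u) (h2 : u < w) (h : D.sl t = D.sl w) :
    D.sl u = D.sl t := by
  have k : ∀ {a b : D.Vx}, a < b →
      (Fintype.equivFin D.Sl (D.sl a) : ℕ) ≤ Fintype.equivFin D.Sl (D.sl b) := fun {a b} h => by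
    have h' : toLex ((Fintype.equivFin D.Sl (D.sl a) : ℕ), (Fintype.equivFin D.Vx a : ℕ)) <
      toLex ((Fintype.equivFin D.Sl (D.sl b) : ℕ), (Fintype.equivFin D.Vx b : ℕ)) := h
    exact Prod.Lex.monotone_fst _ _ h'.le
  exact (Fintype.equivFin D.Sl).injective (Fin.ext (le_antisymm (h ▸ k h2) (k h1)))

lemma sum_sl {M : Type} [AddCommMonoid M] (f : D.Sl → M) :
    ∑ μ, f μ = ∑ i, (f ⟨i, none⟩ + ∑ a, f ⟨i, some a⟩) := by
  rw [Fintype.sum_sigma]; simp only [Fintype.sum_option]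

lemma prod_sl {M : Type} [CommMonoid M] (f : D.Sl → M) :
    ∏ μ, f μ = ∏ i, (f ⟨i, none⟩ * ∏ a, f ⟨i, some a⟩) := by
  rw [Fintype.prod_sigma]; simp only [Fintype.prod_option]

lemma h_apply (μ ν : D.Sl) : D.h μ ν.1 ν.2 = if ν = μ then 1 else 0 := by
  obtain ⟨i, o⟩ := μ
  obtain ⟨j, o'⟩ := ν
  by_cases h : j = i
  · subst h; simp [Dat.h, Pi.single_apply]
  · simp [Dat.h, h]

lemma exists_dual_u (i : Fin D.k) (a : Fin (D.r i)) (c : Fin 2 → ℂ) :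
    ∃ w : Fin (D.n i + 1) → ℂ, ∀ j, D.u i a j ⬝ᵥ w = c j := by
  have h := (Matrix.vecMul_injective_iff (M := Matrix.of (D.u i a))).2 (D.u_ind i a)
  have h1 : (Matrix.of (D.u i a)).rank = Fintype.card (Fin 2) := (D.u_ind i a).rank_matrix
  have h2 : LinearMap.range (Matrix.of (D.u i a)).mulVecLin = ⊤ :=
    Submodule.eq_top_of_finrank_eq (by simpa [Matrix.rank] using h1)
  obtain ⟨w, hw⟩ := LinearMap.range_eq_top.1 h2 c
  exact ⟨w, fun j => congrFun hw j⟩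

/-- Every form through the point is a combination of the two chosen forms. -/
lemma span_u (i : Fin D.k) (a : Fin (D.r i)) {m : Fin (D.n i + 1) → ℂ} (h : m ⬝ᵥ D.p i a = 0) :
    ∃ c : Fin 2 → ℂ, m = ∑ j, c j • D.u i a j := by
  let φ : (Fin (D.n i + 1) → ℂ) →ₗ[ℂ] ℂ := (dotProductBilin ℂ ℂ).flip (D.p i a)
  have h1 : LinearMap.range φ = ⊤ := by
    obtain ⟨l, hl⟩ := Function.ne_iff.1 (D.p_ne i a)
    refine LinearMap.range_eq_top.2 fun c => ⟨Pi.single l (c / D.p i a l), ?_⟩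
    simpa [φ] using div_mul_cancel₀ c hl
  have h2 := φ.finrank_range_add_finrank_ker
  have h3 := D.n_eq i (Fin.pos a).ne'
  rw [h1] at h2
  have h4 : Submodule.span ℂ (range (D.u i a)) = LinearMap.ker φ :=
    Submodule.eq_of_le_of_finrank_eq (Submodule.span_le.2 (by
      rintro _ ⟨j, rfl⟩; exact D.u_p i a j)) (by
        rw [finrank_span_eq_card (D.u_ind i a)]; simp at h2 ⊢; omega)
  obtain ⟨c, hc⟩ := (Submodule.mem_span_range_iff_exists_fun ℂ).1 (h4.ge (show m ∈ _ from h))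
  exact ⟨c, hc.symm⟩

/-- Every form is a sum of forms through two different points. -/
lemma two_pts {i : Fin D.k} {a b : Fin (D.r i)} (h : a ≠ b) (m : Fin (D.n i + 1) → ℂ) :
    ∃ c c' : Fin 2 → ℂ, m = ∑ j, c j • D.u i a j + ∑ j, c' j • D.u i b j := by
  have h1 : ∃ j, D.u i a j ⬝ᵥ D.p i b ≠ 0 := by
    by_contra! h1
    obtain ⟨l, hl⟩ := Function.ne_iff.1 (D.p_ne i a)
    have h2 := (LinearIndependent.pair_iff.1 (D.dist i a b h)) (D.p i b l) (-D.p i a l) (by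
      funext l'
      obtain ⟨c, hc⟩ := span_u i a (m := Pi.single l' (D.p i a l) - Pi.single l (D.p i a l'))
        (by simp [mul_comm])
      have := congrArg (· ⬝ᵥ D.p i b) hc
      simp only [sum_dotProduct, smul_dotProduct, h1, smul_zero, Finset.sum_const_zero,
        sub_dotProduct, single_dotProduct] at this
      simp only [Pi.add_apply, Pi.smul_apply, smul_eq_mul, Pi.zero_apply]
      linear_combination -this)
    exact hl (neg_eq_zero.1 h2.2)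
  obtain ⟨j, hj⟩ := h1
  obtain ⟨c', hc'⟩ := span_u i b (m := m - (m ⬝ᵥ D.p i b / D.u i a j ⬝ᵥ D.p i b) • D.u i a j)
    (by simp [div_mul_cancel₀ _ hj])
  refine ⟨Pi.single j (m ⬝ᵥ D.p i b / D.u i a j ⬝ᵥ D.p i b), c', ?_⟩
  rw [← hc', Finset.sum_eq_single j (fun k _ hk => by simp [hk]) (by simp)]
  simp

variable {F : Type} [Field F] [Algebra ℂ F] {x : ∀ i, Fin (D.n i + 1) → F} {τ τ' : D.Ch}
  {s s' : Finset D.Vx} {t t' : D.Vx} {A : Finset D.Sl} {v v' : D.Λ} {T : Subring F} {z : F}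

@[simp] lemma y_inl (w : D.Hx) : D.y x (.inl w) = x w.1 w.2 := rfl

lemma y_inr (w : Σ i, Fin (D.r i)) (j : Fin 2) :
    D.y x (.inr (w, j)) = ∑ l, D.u w.1 w.2 j l • x w.1 l := rfl

lemma aeval_Up (i : Fin D.k) (a : Fin (D.r i)) (j : Fin 2) (w : Fin (D.n i + 1) → F) :
    aeval w (D.Up i a j) = ∑ l, D.u i a j l • w l := by simp [Up, Algebra.smul_def]

lemma isHomogeneous_Up (i : Fin D.k) (a : Fin (D.r i)) (j : Fin 2) :
    (D.Up i a j).IsHomogeneous 1 :=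
  IsHomogeneous.sum _ _ _ fun l _ => (isHomogeneous_X ℂ l).C_mul _

lemma form_eq {i : Fin D.k} {a : Fin (D.r i)} (c : Fin 2 → ℂ) :
    ∑ l, (∑ j, c j • D.u i a j) l • x i l = ∑ j, c j • D.y x (.inr (⟨i, a⟩, j)) := by
  simp [y_inr, add_smul, Finset.sum_add_distrib, Finset.smul_sum, smul_smul]

lemma yX_ne (t : D.Vx) : D.y D.X t ≠ 0 := by
  have hi := IsFractionRing.injective (MvPolynomial D.Ax ℂ) D.L
  rcases t with ⟨i, l⟩ | ⟨⟨i, a⟩, j⟩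
  · refine Fin.cases one_ne_zero (fun l => ?_) l
    exact (map_ne_zero_iff _ hi).2 (MvPolynomial.X_ne_zero _)
  · intro h
    have h1 : (C (D.u i a j 0) + ∑ l : Fin (D.n i), C (D.u i a j l.succ) * MvPolynomial.X ⟨i, l⟩ :
        MvPolynomial D.Ax ℂ) = 0 := hi (by
      rw [map_zero, ← h, y_inr, Fin.sum_univ_succ]
      simp only [Dat.X, Algebra.smul_def, map_add, map_sum, map_mul, Fin.cons_zero, Fin.cons_succ,
        mul_one, IsScalarTower.algebraMap_apply ℂ (MvPolynomial D.Ax ℂ) D.L, algebraMap_eq])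
    have h2 : D.u i a j 0 = 0 := by simpa using congrArg (eval 0) h1
    refine (D.u_ind i a).ne_zero j (funext (Fin.cases h2 fun l => ?_))
    have := congrArg (eval (Pi.single ⟨i, l⟩ 1)) h1
    simpa [h2, Pi.single_apply] using this

lemma X_zero (i : Fin D.k) : D.X i 0 = 1 := rfl

lemma X_succ (i : Fin D.k) (l : Fin (D.n i)) :
    D.X i l.succ = algebraMap (MvPolynomial D.Ax ℂ) D.L (MvPolynomial.X ⟨i, l⟩) := rfl

lemma rat_mem (τ : D.Ch) (t : D.Vx) : D.rat x τ t ∈ D.B x τ := Algebra.subset_adjoin ⟨t, rfl⟩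

lemma div_mem_B {μ : D.Sl} (h : D.sl t = μ) : D.y x t / D.y x (τ.1 μ) ∈ D.B x τ :=
  h ▸ rat_mem τ t

lemma mem_B_iff : z ∈ D.B x τ ↔ ∃ P : MvPolynomial D.Vx ℂ, aeval (D.rat x τ) P = z := by
  rw [B, Algebra.adjoin_range_eq_range_aeval]; rfl

lemma aeval_mem_B (P : MvPolynomial D.Vx ℂ) : aeval (D.rat x τ) P ∈ D.B x τ := mem_B_iff.2 ⟨P, rfl⟩

lemma div_mem_Bs (ht : t ∈ s) (h : D.sl t' = D.sl t) : D.y x t' / D.y x t ∈ D.Bs x s :=
  Algebra.subset_adjoin ⟨t, ht, t', h, rfl⟩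

lemma Bs_mono (h : s ⊆ s') : D.Bs x s ≤ D.Bs x s' :=
  Algebra.adjoin_mono fun _ ⟨t, ht, h'⟩ => ⟨t, h ht, h'⟩

lemma B_le_Bs (h : ∀ μ, τ.1 μ ∈ s) : D.B x τ ≤ D.Bs x s :=
  Algebra.adjoin_le (by rintro _ ⟨t, rfl⟩; exact div_mem_Bs (h _) (sl_τ τ _).symm)

lemma Bs_image : D.Bs x (Finset.univ.image τ.1) = D.B x τ :=
  le_antisymm (Algebra.adjoin_le (by
    rintro _ ⟨t, ht, t', h, rfl⟩
    obtain ⟨μ, -, rfl⟩ := Finset.mem_image.1 ht
    exact div_mem_B (h.trans (sl_τ τ μ)))) (B_le_Bs fun μ => Finset.mem_image_of_mem _ (by simp))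

lemma form_div_mem {i : Fin D.k} {c : F} (hc : ∀ c : ℂ, algebraMap ℂ F c ∈ T)
    (h : ∀ l, x i l / c ∈ T) (a : Fin (D.r i)) (j : Fin 2) : D.y x (.inr (⟨i, a⟩, j)) / c ∈ T := by
  rw [y_inr, Finset.sum_div]
  exact sum_mem fun l _ => by rw [smul_div_assoc]; exact smul_mem_of hc _ (h l)

lemma U_div_mem_B (i : Fin D.k) (a : Fin (D.r i)) (j : Fin 2) :
    D.y x (.inr (⟨i, a⟩, j)) / D.y x (τ.1 ⟨i, none⟩) ∈ D.B x τ :=
  form_div_mem (T := (D.B x τ).toSubring) (D.B x τ).algebraMap_mem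
    (fun l => div_mem_B (t := .inl ⟨i, l⟩) rfl) a j

/-- A local ring lies over at most one of the points. -/
lemma un_of_two (hT : IsLoc T) (hc : ∀ c : ℂ, algebraMap ℂ F c ∈ T) {i : Fin D.k}
    {l₀ : Fin (D.n i + 1)} (h0 : x i l₀ ≠ 0) (h : ∀ l, x i l / x i l₀ ∈ T) {a b : Fin (D.r i)}
    (hab : a ≠ b) : (∃ j, Un T (D.y x (.inr (⟨i, a⟩, j)) / x i l₀)) ∨
      ∃ j, Un T (D.y x (.inr (⟨i, b⟩, j)) / x i l₀) := by
  obtain ⟨c, c', e⟩ := two_pts hab (Pi.single l₀ 1)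
  have h1 : (∑ j, c j • (D.y x (.inr (⟨i, a⟩, j)) / x i l₀)) +
      ∑ j, c' j • (D.y x (.inr (⟨i, b⟩, j)) / x i l₀) = 1 := by
    simp only [← smul_div_assoc, ← Finset.sum_div, ← add_div, ← form_eq, ← Finset.sum_add_distrib,
      ← add_smul]
    simp only [← Pi.add_apply, ← e]
    rw [Finset.sum_eq_single l₀ (fun k _ hk => by simp [hk]) (by simp)]
    simp [h0]
  have h2 := fun a => form_div_mem hc h a
  refine (hT.of_add (sum_mem fun j _ => smul_mem_of hc _ (h2 a j))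
    (sum_mem fun j _ => smul_mem_of hc _ (h2 b j)) (h1 ▸ Un.one)).imp (fun h3 => ?_) fun h3 => ?_
  · exact (un_of_sum_smul hT hc (fun j _ => h2 a j) h3).imp fun j hj => hj.2
  · exact (un_of_sum_smul hT hc (fun j _ => h2 b j) h3).imp fun j hj => hj.2

lemma gA_insert {μ : D.Sl} (h : μ ∉ A) :
    D.gA x (insert μ A) v τ = D.y x (τ.1 μ) ^ v μ.1 μ.2 * D.gA x A v τ := Finset.prod_insert h

@[simp] lemma gA_zero : D.gA x A 0 τ = 1 := by simp [gA]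

lemma gA_neg : D.gA x A (-v) τ = (D.gA x A v τ)⁻¹ := by simp [gA]

lemma gen_single (i : Fin D.k) (c : Option (Fin (D.r i)) → ℤ) :
    D.gen x (Pi.single i c) τ = ∏ o, D.y x (τ.1 ⟨i, o⟩) ^ c o := by
  rw [gen, gA, Fintype.prod_sigma, Finset.prod_eq_single i (fun j _ hj => by simp [hj]) (by simp)]
  simp

lemma gen_h (μ : D.Sl) : D.gen x (D.h μ) τ = D.y x (τ.1 μ) := by
  rw [gen, gA, Finset.prod_eq_single μ (fun ν _ h => by simp [h_apply, h]) (by simp)]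
  simp [h_apply]

lemma gen_κ : D.gen x D.κ τ = ∏ i, D.kap x τ i := by
  rw [gen, gA, prod_sl]; simp [κ, kz, kap]

lemma f_eq : D.f x τ = D.Fx x / D.gen x D.κ τ := by
  simp only [f, Fx, gen_κ, Finset.prod_div_distrib, Finset.sum_div]

lemma Ms_mono : Monotone (D.Ms x A v) := fun s s' h =>
  AddSubgroup.closure_mono fun _ ⟨τ, h1, h2⟩ => ⟨τ, fun μ hμ => h (h1 μ hμ), Bs_mono h h2⟩

lemma Ms_bot (h : ¬∃ τ : D.Ch, ∀ μ ∈ A, τ.1 μ ∈ s) : D.Ms x A v s = ⊥ :=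
  le_bot_iff.1 ((AddSubgroup.closure_le ⊥).2 fun _ ⟨τ, h1, _⟩ => (h ⟨τ, h1⟩).elim)

lemma Ms_bot' {μ : D.Sl} (hμ : μ ∈ A) (h : ∀ t ∈ s, D.sl t ≠ μ) : D.Ms x A v s = ⊥ :=
  Ms_bot fun ⟨τ, h1⟩ => h _ (h1 μ hμ) (sl_τ τ μ)

lemma Ms_empty (h : A.Nonempty) : D.Ms x A v ∅ = ⊥ := Ms_bot' h.choose_spec (by simp)

lemma aeval_Fp : aeval (fun w : D.Hx => x w.1 w.2) D.Fp = D.Fx x := by
  simp only [Fp, Fx, map_sum, map_prod, aeval_rename]; rfl

lemma aeval_Fa (h : ∀ i, x i 0 = 1) : aeval (D.xa x) D.Fa = D.Fx x := by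
  simp only [Fa, Fx, map_sum, map_prod]
  refine Finset.sum_congr rfl fun c _ => Finset.prod_congr rfl fun i _ => ?_
  rw [← AlgHom.comp_apply, comp_aeval]
  congr 2
  exact funext (Fin.cases (by simp [h]) fun l => by simp [xa])

lemma aeval_xa_X (P : MvPolynomial D.Ax ℂ) : aeval (D.xa D.X) P = algebraMap _ D.L P := by
  have : (aeval (D.xa D.X) : _ →ₐ[ℂ] D.L) = IsScalarTower.toAlgHom ℂ _ _ :=
    algHom_ext fun w => by simp [xa, X_succ]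
  rw [this]; rfl

lemma Fx_X : D.Fx D.X = algebraMap _ D.L D.Fa := by rw [← aeval_Fa X_zero, aeval_xa_X]

lemma aeval_div {σ : Type} [Fintype σ] {G : MvPolynomial σ ℂ} {d : ℕ} (h : G.IsHomogeneous d)
    (w : σ → F) (c : F) : aeval (fun l => w l / c) G = aeval w G / c ^ d := by
  simp only [div_eq_mul_inv, ← inv_pow]
  exact eval₂_scale _ _ _ h

variable (hy : ∀ t, D.y x t ≠ 0)
include hy

lemma rat_self (μ : D.Sl) : D.rat x τ (τ.1 μ) = 1 := by rw [rat, sl_τ, div_self (hy _)]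

lemma un_div_Bs (ht : t ∈ s) (ht' : t' ∈ s) (h : D.sl t' = D.sl t) :
    Un (D.Bs x s).toSubring (D.y x t' / D.y x t) :=
  ⟨div_ne_zero (hy _) (hy _), div_mem_Bs ht h, by rw [inv_div]; exact div_mem_Bs ht' h.symm⟩

lemma gA_ne : D.gA x A v τ ≠ 0 := Finset.prod_ne_zero_iff.2 fun _ _ => zpow_ne_zero _ (hy _)

lemma gA_add : D.gA x A (v + v') τ = D.gA x A v τ * D.gA x A v' τ := by
  simp [gA, zpow_add₀ (hy _), Finset.prod_mul_distrib]

lemma gA_sub : D.gA x A (v - v') τ = D.gA x A v τ / D.gA x A v' τ := by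
  rw [sub_eq_add_neg, gA_add hy, gA_neg, div_eq_mul_inv]

lemma un_gA_of (h : ∀ μ ∈ A, Un T (D.y x (τ'.1 μ) / D.y x (τ.1 μ))) :
    Un T (D.gA x A v τ' / D.gA x A v τ) := by
  rw [gA, gA, ← Finset.prod_div_distrib]
  exact Un.prod fun μ hμ => by rw [← div_zpow]; exact un_zpow (h μ hμ) _

lemma un_gA (h : ∀ μ ∈ A, τ.1 μ ∈ s) (h' : ∀ μ ∈ A, τ'.1 μ ∈ s) :
    Un (D.Bs x s).toSubring (D.gA x A v τ' / D.gA x A v τ) :=
  un_gA_of hy fun μ hμ => un_div_Bs hy (h μ hμ) (h' μ hμ) (by rw [sl_τ, sl_τ])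

lemma mem_Ms (h : ∀ μ ∈ A, τ.1 μ ∈ s) : z ∈ D.Ms x A v s ↔ z / D.gA x A v τ ∈ D.Bs x s := by
  refine ⟨fun hz => ?_, fun hz => AddSubgroup.subset_closure ⟨τ, h, hz⟩⟩
  induction hz using AddSubgroup.closure_induction with
  | mem z hz =>
    obtain ⟨τ', h1, h2⟩ := hz
    have := mul_mem h2 (un_gA hy h h1 (v := v)).2.1
    rwa [div_mul_div_cancel₀ (gA_ne hy)] at this
  | zero => simp
  | add a b _ _ ha hb => rw [add_div]; exact add_mem ha hb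
  | neg a _ ha => rw [neg_div]; exact neg_mem ha

lemma mul_mem_Ms {b : F} (hb : b ∈ D.Bs x s) (hz : z ∈ D.Ms x A v s) : b * z ∈ D.Ms x A v s := by
  by_cases h : ∃ τ : D.Ch, ∀ μ ∈ A, τ.1 μ ∈ s
  · obtain ⟨τ, h⟩ := h
    rw [mem_Ms hy h] at hz ⊢
    rw [mul_div_assoc]; exact mul_mem hb hz
  · rw [Ms_bot h, AddSubgroup.mem_bot] at hz
    simp [hz]

lemma mem_Ps {g : D.Vx → F} (h : ∀ μ, τ.1 μ ∈ s) :
    g ∈ D.Ps x s ↔ ∀ t, g t * D.y x (τ.1 (D.sl t)) ∈ D.Bs x s := by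
  simp only [Ps, AddSubgroup.mem_pi, mem_univ, true_imp_iff, mem_Ms hy fun μ _ => h μ, gA_neg,
    gen_h, div_inv_eq_mul]

lemma mem_Rs {a : (Σ i, Fin (D.r i)) → F} (h : ∀ μ, τ.1 μ ∈ s) : a ∈ D.Rs x s ↔
    ∀ w, a w * (D.y x (τ.1 ⟨w.1, none⟩) * D.y x (τ.1 ⟨w.1, some w.2⟩)) ∈ D.Bs x s := by
  simp only [Rs, AddSubgroup.mem_pi, mem_univ, true_imp_iff, mem_Ms hy fun μ _ => h μ, ← neg_add',
    gA_neg, gA_add hy, gen_h, div_inv_eq_mul]

lemma B_le_of_un (h : (D.B x τ).toSubring ≤ T) (hu : ∀ μ, Un T (D.y x (τ'.1 μ) / D.y x (τ.1 μ))) :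
    (D.B x τ').toSubring ≤ T := by
  let T' : Subalgebra ℂ F := { T with algebraMap_mem' := fun c => h ((D.B x τ).algebraMap_mem c) }
  refine (Algebra.adjoin_le (S := T') ?_ :)
  rintro _ ⟨t, rfl⟩
  have := (hu (D.sl t)).div_mem (h (rat_mem τ t))
  rwa [rat, div_div_div_cancel_right₀ (hy _)] at this

lemma un_of_B_le (h : (D.B x τ).toSubring ≤ T) (h' : (D.B x τ').toSubring ≤ T) (μ : D.Sl) :
    Un T (D.y x (τ'.1 μ) / D.y x (τ.1 μ)) :=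
  ⟨div_ne_zero (hy _) (hy _), h (div_mem_B (sl_τ _ _)), by
    rw [inv_div]; exact h' (div_mem_B (sl_τ _ _))⟩

lemma locOf_Bs (h : ∀ μ, τ.1 μ ∈ s) : LocOf (D.B x τ).toSubring (D.Bs x s).toSubring := by
  refine ⟨B_le_Bs h, fun z hz => ?_⟩
  let T' : Subalgebra ℂ F := { loc (D.B x τ).toSubring (D.Bs x s).toSubring with
    algebraMap_mem' := fun c => locOf_loc.1 ((D.B x τ).algebraMap_mem c) }
  refine (Algebra.adjoin_le (S := T') ?_ : D.Bs x s ≤ T') hz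
  rintro _ ⟨t, ht, t', e, rfl⟩
  refine ⟨_, rat_mem τ t, un_div_Bs hy (h _) ht (sl_τ _ _).symm, ?_⟩
  rw [rat, mul_comm, div_mul_div_cancel₀ (hy _)]
  exact div_mem_B e

lemma exists_ch_val (V : ValuationSubring F) (hV : ∀ c : ℂ, algebraMap ℂ F c ∈ V) :
    ∃ τ, (D.B x τ).toSubring ≤ V.toSubring := by
  obtain ⟨τ⟩ : Nonempty D.Ch := inferInstance
  have : ∀ μ, ∃ t, D.sl t = μ ∧ ∀ t', D.sl t' = μ → D.y x t' / D.y x t ∈ V := fun μ => by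
    obtain ⟨t, h1, h2⟩ := (Finset.univ.filter fun t => D.sl t = μ).exists_max_image
      (fun t => V.valuation (D.y x t)) ⟨τ.1 μ, by simp [sl_τ]⟩
    refine ⟨t, by simpa using h1, fun t' h => (V.valuation_le_one_iff _).1 ?_⟩
    rw [map_div₀]
    exact div_le_one_of_le₀ (h2 t' (by simpa using h)) zero_le
  choose f h1 h2 using this
  let T' : Subalgebra ℂ F := { V.toSubring with algebraMap_mem' := hV }
  have h3 : D.B x ⟨f, h1⟩ ≤ T' := Algebra.adjoin_le (by rintro _ ⟨t, rfl⟩; exact h2 _ t rfl)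
  exact ⟨⟨f, h1⟩, h3⟩

lemma Fx_div : D.Fx x / ∏ i, D.y x (τ.1 ⟨i, none⟩) ^ (D.n i + 1) =
    D.f x τ * ∏ w : Σ i, Fin (D.r i), D.y x (τ.1 ⟨w.1, some w.2⟩) / D.y x (τ.1 ⟨w.1, none⟩) := by
  rw [f_eq, gen_κ, Fintype.prod_sigma, div_mul_eq_mul_div, mul_div_assoc, ← Finset.prod_div_distrib,
    div_eq_mul_inv, ← Finset.prod_inv_distrib]
  congr 1
  refine Finset.prod_congr rfl fun i _ => ?_
  have h1 := hy (τ.1 ⟨i, none⟩)
  have h2 : ∏ a, D.y x (τ.1 ⟨i, some a⟩) ≠ 0 := Finset.prod_ne_zero_iff.2 fun _ _ => hy _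
  dsimp only
  rw [kap, Finset.prod_div_distrib, Finset.prod_const, Finset.card_univ, Fintype.card_fin,
    zpow_sub₀ h1, zpow_natCast, zpow_add_one₀ h1, zpow_natCast]
  field_simp
  ring

omit hy in
lemma aeval_rat_Fp : aeval (D.rat x τ) (rename Sum.inl D.Fp) =
    D.Fx x / ∏ i, D.y x (τ.1 ⟨i, none⟩) ^ (D.n i + 1) := by
  rw [Fp, Fx, map_sum, map_sum, Finset.sum_div]
  refine Finset.sum_congr rfl fun c _ => ?_
  rw [map_prod, map_prod, ← Finset.prod_div_distrib]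
  refine Finset.prod_congr rfl fun i _ => ?_
  rw [aeval_rename, aeval_rename, ← aeval_div (D.G_hom c i)]
  rfl

end Dat

namespace Dat.Mod

variable {D : Dat} {K : Type} [Field K] [Algebra ℂ K] (M : D.Mod K) {τ : D.Ch} {T : Subring K}
  {s : Finset D.Vx} {z : M.X.Pt}

lemma ne (t : D.Vx) : D.y M.x t ≠ 0 := M.hyp.ne t

lemma locOf (h : (D.B M.x τ).toSubring ≤ M.X.O z) : LocOf (D.B M.x τ).toSubring (M.X.O z) := by
  obtain ⟨τ', h'⟩ := M.hyp.chart z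
  have h1 : (D.B M.x τ').toSubring ≤ loc (D.B M.x τ).toSubring (M.X.O z) :=
    B_le_of_un M.ne locOf_loc.1 fun μ =>
      (dom_loc h).2 _ (locOf_loc.1 (div_mem_B (sl_τ _ _))) (un_of_B_le M.ne h h'.1 μ)
  have h2 := h'.le h1 fun b hb hu => (dom_loc h).2 b (h1 hb) hu
  exact ⟨h, fun w hw => h2 hw⟩

lemma exists_ctr (hT : IsLoc T) (h : (D.B M.x τ).toSubring ≤ T) :
    ∃ z, Dom (M.X.O z) T ∧ LocOf (D.B M.x τ).toSubring (M.X.O z) := by
  obtain ⟨V, hV⟩ := hT.exists_val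
  obtain ⟨z, hz⟩ := M.X.exists_ctr_val V fun c => hV.1 (h ((D.B M.x τ).algebraMap_mem c))
  obtain ⟨τ', h'⟩ := M.hyp.chart z
  have h1 := M.locOf (B_le_of_un M.ne h'.1 fun μ => hz.2 _ (h'.1 (div_mem_B (sl_τ _ _)))
    (un_of_B_le M.ne (h'.1.trans hz.1) (h.trans hV.1) μ))
  refine ⟨z, ?_, h1⟩
  have h2 := h1.le h fun b hb hu => hV.2 b (h hb) (hu.mono hz.1)
  exact ⟨h2, fun w hw hu => hz.2 w hw (hu.mono hV.1)⟩

lemma pt (hT : IsLoc T) (h : LocOf (D.B M.x τ).toSubring T) : ∃ z, M.X.O z = T := by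
  obtain ⟨z, h1, h2⟩ := M.exists_ctr hT h.1
  exact ⟨z, (h2.eq_loc h1).trans (h.eq_loc Dom.refl).symm⟩

lemma pt_Bs (hs : ∀ μ, τ.1 μ ∈ s) (hT : IsLoc T) (h : LocOf (D.Bs M.x s).toSubring T) :
    ∃ z, M.X.O z = T := M.pt hT ((locOf_Bs M.ne hs).trans h)

lemma locOf_Bs (hs : ∀ μ, τ.1 μ ∈ s) (h : (D.Bs M.x s).toSubring ≤ M.X.O z) :
    LocOf (D.Bs M.x s).toSubring (M.X.O z) :=
  (M.locOf ((show (D.B M.x τ).toSubring ≤ _ from B_le_Bs hs).trans h)).of_le (B_le_Bs hs) h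

lemma mem_B {w : K} (h : ∀ z, (D.B M.x τ).toSubring ≤ M.X.O z → w ∈ M.X.O z) : w ∈ D.B M.x τ :=
  mem_of_loc (B := (D.B M.x τ).toSubring) fun T h1 h2 => by
    obtain ⟨z, rfl⟩ := M.pt h1 h2
    exact h z h2.1

lemma mem_Bs (hs : ∀ μ, τ.1 μ ∈ s) {w : K}
    (h : ∀ z, (D.Bs M.x s).toSubring ≤ M.X.O z → w ∈ M.X.O z) : w ∈ D.Bs M.x s :=
  mem_of_loc (B := (D.Bs M.x s).toSubring) fun T h1 h2 => by
    obtain ⟨z, rfl⟩ := M.pt_Bs hs h1 h2
    exact h z h2.1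

lemma frac (τ : D.Ch) (w : K) : ∃ b ∈ D.B M.x τ, b ≠ 0 ∧ b * w ∈ D.B M.x τ := by
  obtain ⟨z, hz⟩ := M.X.exists_top
  obtain ⟨b, h1, h2, h3⟩ := (M.locOf (τ := τ) (hz ▸ le_top)).2 w (hz ▸ trivial)
  exact ⟨b, h1, h2.1, h3⟩

lemma mem_of_x {S : Subfield K} (hc : ∀ c : ℂ, algebraMap ℂ K c ∈ S) (hx : ∀ i l, M.x i l ∈ S)
    (w : K) : w ∈ S := by
  obtain ⟨τ⟩ : Nonempty D.Ch := inferInstance
  obtain ⟨b, h1, h2, h3⟩ := M.frac τ w
  let T' : Subalgebra ℂ K := { S.toSubring with algebraMap_mem' := hc }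
  have h4 : ∀ t, D.y M.x t ∈ S := fun t => by
    rcases t with v | ⟨w, j⟩
    · exact hx _ _
    · rw [y_inr]
      exact sum_mem fun l _ => smul_mem_of (T := S.toSubring) hc _ (hx _ _)
  have h5 : D.B M.x τ ≤ T' := Algebra.adjoin_le (by
    rintro _ ⟨t, rfl⟩; exact S.div_mem (h4 _) (h4 _))
  have := div_mem (show b * w ∈ S from h5 h3) (show b ∈ S from h5 h1)
  rwa [mul_div_cancel_left₀ _ h2] at this

lemma frac_xa (w : K) : ∃ P Q : MvPolynomial D.Ax ℂ, aeval (D.xa M.x) Q ≠ 0 ∧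
    w = aeval (D.xa M.x) P / aeval (D.xa M.x) Q := by
  have : w ∈ IntermediateField.adjoin ℂ (range (D.xa M.x)) :=
    M.mem_of_x (S := (IntermediateField.adjoin ℂ (range (D.xa M.x))).toSubfield)
      (fun c => IntermediateField.algebraMap_mem _ c) (fun i => Fin.cases (by
        rw [M.hyp.one]; exact one_mem _) fun l =>
          IntermediateField.subset_adjoin ℂ _ ⟨⟨i, l⟩, rfl⟩) w
  obtain ⟨P, Q, e⟩ := (IntermediateField.mem_adjoin_range_iff ℂ _ w).1 this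
  by_cases h : aeval (D.xa M.x) Q = 0
  · exact ⟨0, 1, by simp, by simp [e, h]⟩
  · exact ⟨P, Q, h, e⟩

lemma Fx_eq : D.Fx M.x = 0 := by
  obtain ⟨τ⟩ : Nonempty D.Ch := inferInstance
  have h := (M.hyp.ker τ (rename Sum.inl D.Fp)).2 ⟨_, prod_mem fun (w : Σ i, Fin (D.r i)) _ => by
    obtain ⟨j, hj⟩ := exists_inr (sl_τ τ ⟨w.1, some w.2⟩)
    rw [hj]; exact U_div_mem_B w.1 w.2 j, aeval_rat_Fp.trans (Fx_div yX_ne)⟩
  rw [aeval_rat_Fp, div_eq_zero_iff] at h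
  exact h.resolve_right (Finset.prod_ne_zero_iff.2 fun _ _ => pow_ne_zero _ (M.ne _))

lemma st_apply {E : M.X.PD} (h : (D.B M.x τ).toSubring ≤ M.X.O E.1) (μ : D.Sl) :
    M.st μ.1 μ.2 E = -M.X.ord (D.y M.x (τ.1 μ)) E.1 := by
  rw [st, Finsupp.neg_apply, vd_apply, ord_val, mo_eq_od (l := ⟨τ.1 μ, sl_τ τ μ⟩) fun t => ?_]
  · rfl
  have := ((isV E).2 _).1 (h (div_mem_B t.2))
  rwa [map_div₀, div_le_one₀ (zero_lt_iff.2 ((val E).ne_zero_iff.2 (M.ne _)))] at this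

lemma locEq_st (h : (D.B M.x τ).toSubring ≤ M.X.O z) (μ : D.Sl) :
    LocEq (M.st μ.1 μ.2) z (D.y M.x (τ.1 μ))⁻¹ :=
  .mk' (inv_ne_zero (M.ne _)) fun E hE => by
    rw [M.st_apply (h.trans hE), ord_val, ord_val, od_inv]

lemma std_apply {E : M.X.PD} (h : (D.B M.x τ).toSubring ≤ M.X.O E.1) (v : D.Λ) :
    M.std v E = -M.X.ord (D.gen M.x v τ) E.1 := by
  rw [std, Finsupp.finsetSum_apply, gen, gA, ord_val, od_prod fun _ _ => zpow_ne_zero _ (M.ne _),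
    ← Finset.sum_neg_distrib]
  refine Finset.sum_congr rfl fun μ _ => ?_
  rw [Finsupp.smul_apply, M.st_apply h, ord_val]
  simp [od]

lemma locEq_std (h : (D.B M.x τ).toSubring ≤ M.X.O z) (v : D.Λ) :
    LocEq (M.std v) z (D.gen M.x v τ)⁻¹ :=
  .mk' (inv_ne_zero (gA_ne M.ne)) fun E hE => by
    rw [M.std_apply (h.trans hE), ord_val, ord_val, od_inv]

lemma std_add (v v' : D.Λ) : M.std (v + v') = M.std v + M.std v' := by
  simp [std, add_smul, Finset.sum_add_distrib]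

lemma std_h (μ : D.Sl) : M.std (D.h μ) = M.st μ.1 μ.2 := by
  simp [std, h_apply]

lemma st_add_nonneg (t : D.Vx) (E : M.X.PD) :
    0 ≤ M.st (D.sl t).1 (D.sl t).2 E + M.X.ord (D.y M.x t) E.1 := by
  obtain ⟨τ, h⟩ := M.hyp.chart E.1
  have := ord_nonneg (h.1 (rat_mem τ t))
  rw [rat, ord_div (M.ne _) (M.ne _)] at this
  rw [M.st_apply h.1]; omega

lemma mov_st (i : Fin D.k) (o : Option (Fin (D.r i))) : Mov (M.st i o) := fun E => by
  obtain ⟨τ, h⟩ := M.hyp.chart E.1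
  refine ⟨_, M.ne (τ.1 ⟨i, o⟩), fun F => ?_, by rw [M.st_apply h.1 ⟨i, o⟩, neg_add_cancel]⟩
  have := M.st_add_nonneg (τ.1 ⟨i, o⟩) F
  rwa [sl_τ] at this

end Dat.Mod

end Pool.Agent.Lib.MV
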