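import Pool.Agent.Lib.MV.Defs

open MvPolynomial Set WithZero Pool.Agent.Lib.MP_e39d36_ag Pool.Agent.Lib.MP_e39d36_ag.Var
  Pool.Agent.Lib.MP_cc3443_ag Pool.Agent.Lib.DU

set_option linter.unusedSectionVars false
set_option linter.unusedVariables false

noncomputable section

namespace Pool.Agent.Lib.MV

/-! ### The model -/

/-- Consequences of smoothness. -/
def St_SM : Prop := ∀ (K : Type) [Field K] [Algebra ℂ K] (X : Var K),
  (∀ z, Algebra.FormallySmooth ℂ (X.O z)) → (∀ z, UniqueFactorizationMonoid (X.O z)) → Sm X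

/-- The residue field of a prime divisor has transcendence degree one less than the field. -/
def St_DIM : Prop := ∀ (K : Type) [Field K] [Algebra ℂ K] (X : Var K) (E : X.PD) (k : ℕ),
  ((k + 1 : ℕ) : Cardinal) ≤ Algebra.trdeg ℂ K → Indep E.1 k

/-- A form through a point is a combination of the two lines. -/
def St_DEC : Prop := ∀ (D : Dat) (i : Fin D.k) (a : Fin (D.r i)) (d : ℕ)
  (G : MvPolynomial (Fin (D.n i + 1)) ℂ), G.IsHomogeneous (d + 1) → eval (D.p i a) G = 0 →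
    ∃ G0 G1 : MvPolynomial (Fin (D.n i + 1)) ℂ, G0.IsHomogeneous d ∧ G1.IsHomogeneous d ∧
      G = D.Up i a 0 * G0 + D.Up i a 1 * G1

/-- A form through some of the points is a section of `d H - ∑ e a`. -/
def St_KAP : Prop := ∀ (D : Dat) (F : Type) [Field F] [Algebra ℂ F]
  (x : ∀ i, Fin (D.n i + 1) → F), (∀ t, D.y x t ≠ 0) → ∀ (τ : D.Ch) (i : Fin D.k)
  (A : Finset (Fin (D.r i))) (d : ℕ) (G : MvPolynomial (Fin (D.n i + 1)) ℂ), G.IsHomogeneous d →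
    (∀ a ∈ A, eval (D.p i a) G = 0) → aeval (x i) G /
      (D.y x (τ.1 ⟨i, none⟩) ^ ((d : ℤ) - A.card) * ∏ a ∈ A, D.y x (τ.1 ⟨i, some a⟩)) ∈ D.B x τ

/-- Points of the slots that satisfy the incidence equations are points of `Z`. -/
def St_PTZ : Prop := ∀ (D : Dat) (F : Type) [Field F] [Algebra ℂ F] (z : D.Vx → F) (τ : D.Ch),
  D.Inc z → (∀ μ, z (τ.1 μ) ≠ 0) → ∀ P : MvPolynomial D.Vx ℂ,
    aeval (D.rat D.X τ) P = 0 → aeval (D.zr z τ) P = 0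

/-- The ideal of the hypersurface in the affine chart. -/
def St_KER0 : Prop := ∀ (D : Dat) (K : Type) [Field K] [Algebra ℂ K] (M : D.Mod K)
  (P : MvPolynomial D.Ax ℂ), aeval (D.xa M.x) P = 0 ↔ D.Fa ∣ P

/-- The equation involves every factor with full degree. -/
def St_KER1 : Prop := ∀ (D : Dat) (K : Type) [Field K] [Algebra ℂ K] (M : D.Mod K),
  Nonempty M.X.PD ∧ D.Fa ≠ 0 ∧ ∀ i, ¬MvPolynomial.X ⟨i, 0⟩ ∣ D.Fp

/-- Transcendence bases. -/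
def St_TRD : Prop := ∀ (D : Dat) (K : Type) [Field K] [Algebra ℂ K] (M : D.Mod K),
  (∀ i, ∃ l : Fin (D.n i),
    IsTranscendenceBasis ℂ fun w : {w : D.Ax // w ≠ ⟨i, l⟩} => D.xa M.x w.1) ∧
  Algebra.trdeg ℂ K + 1 = ((∑ i, D.n i : ℕ) : Cardinal) ∧
  (∀ i, AlgebraicIndependent ℂ fun w : {w : D.Ax // w.1 ≠ i} => D.xa M.x w.1) ∧
  ∀ j, D.n j = 1 → M.x j (Fin.last _) ∉ D.K' M.x j

/-- Restriction of functions to the hypersurface. -/
def St_PSI : Prop := ∀ (D : Dat) (K : Type) [Field K] [Algebra ℂ K] (M : D.Mod K),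
  ∃ O ψ, D.Psi M.x O ψ

/-! ### Cohomology of line bundles on `Z` -/

/-- Line bundles on a product of projective spaces. -/
def St_MON : Prop := ∀ (D : Dat) (v : D.Λ) (q : ℕ),
  ((∃ i, -(D.n i : ℤ) ≤ v i none ∧ v i none ≤ -1) ∨ q < D.k + ∑ i with v i none < 0, D.n i) →
    Ex (D.TA D.A0) (D.Ms D.X D.A0 v) q

/-- The two lines through a point that is not blown up form a regular sequence. -/
def St_REGS : Prop := ∀ (D : Dat) (s : Finset D.Vx) (i : Fin D.k) (a : Fin (D.r i))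
  (l : Fin (D.n i + 1)), Sum.inl ⟨i, l⟩ ∈ s → (∀ t ∈ s, D.sl t ≠ ⟨i, some a⟩) → ∀ (z : D.L) (N : ℕ),
    (∀ j, (D.y D.X (.inr (⟨i, a⟩, j)) / D.X i l) ^ N * z ∈ D.Bs D.X s) → z ∈ D.Bs D.X s

/-- Removing one blown up point. -/
def St_EL1 : Prop := ∀ (D : Dat) (A : Finset D.Sl) (i : Fin D.k) (a : Fin (D.r i)) (v v' : D.Λ)
  (q : ℕ), D.A0 ⊆ A → ⟨i, some a⟩ ∉ A → (v i (some a) = 0 ∨ v i (some a) = -1) →
    v' i none = v i none + v i (some a) → (∀ μ ∈ A, μ ≠ ⟨i, none⟩ → v' μ.1 μ.2 = v μ.1 μ.2) →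
    Ex (D.TA A) (D.Ms D.X A v') q →
      Ex (D.TA (insert ⟨i, some a⟩ A)) (D.Ms D.X (insert ⟨i, some a⟩ A) v) (q + 1)

/-- Line bundles with multiplicities zero and one. -/
def St_ELIM : Prop := ∀ (D : Dat) (v : D.Λ) (q : ℕ), (∀ i a, v i (some a) = 0 ∨ v i (some a) = -1) →
  ((∃ i, -(D.n i : ℤ) ≤ ∑ o, v i o ∧ ∑ o, v i o ≤ -1) ∨
    q < Fintype.card D.Sl + ∑ i with ∑ o, v i o < 0, D.n i) →
      Ex Finset.univ (D.Ms D.X Finset.univ v) q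

/-- The Koszul sequence of a base point free pencil. -/
def St_BPF : Prop := ∀ (D : Dat) (F : Type) [Field F] [Algebra ℂ F]
  (x : ∀ i, Fin (D.n i + 1) → F), (∀ t, D.y x t ≠ 0) → ∀ c v : D.Λ, D.Pen x c →
    ∃ (f : F →+ F × F) (g : F × F →+ F), SES (D.Ms x Finset.univ v)
      (fun s => (D.Ms x Finset.univ (v + c) s).prod (D.Ms x Finset.univ (v + c) s))
      (D.Ms x Finset.univ (v + c + c)) f g

/-- Pencils of lines and of conics. -/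
def St_PEN : Prop := ∀ (D : Dat) (F : Type) [Field F] [Algebra ℂ F]
  (x : ∀ i, Fin (D.n i + 1) → F), (∀ t, D.y x t ≠ 0) → ∀ i : Fin D.k,
    (∀ a, D.Pen x (Pi.single i (Pi.single (some a) 1))) ∧
    ∀ a b c d, a ≠ b → a ≠ c → a ≠ d → b ≠ c → b ≠ d → c ≠ d →
      D.Pen x (Pi.single i (conic a b c d))

/-- The derivations for twice the canonical class. -/
def St_DERK : Prop := ∀ (r : ℕ), 1 ≤ r → r ≤ 6 → ∀ Pn : (Option (Fin r) → ℤ) → Prop,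
  (∀ a, Pn (Pi.single (some a) 1)) →
  (∀ a b c d, a ≠ b → a ≠ c → a ≠ d → b ≠ c → b ≠ d → c ≠ d → Pn (conic a b c d)) →
    Der 2 Pn (-kz 2 r - kz 2 r) 2

/-- Derivations give exactness. -/
def St_DER : Prop := ∀ (D : Dat) (v : D.Λ) (q : Fin D.k → ℤ),
  (∀ i, Der (D.n i) (fun c => D.Pen D.X (Pi.single i c)) (v i) (q i)) →
    ExLt Finset.univ (D.Ms D.X Finset.univ v) (Fintype.card D.Sl + ∑ i, q i)

/-- The vanishing theorems on `Z`. -/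
def St_VANZ : Prop := ∀ D : Dat,
  (∀ μ, D.Van D.X (-D.h μ) 1 ∧ D.Van D.X (-D.h μ - D.κ) 2) ∧
  (∀ i a, D.Van D.X (-D.h ⟨i, none⟩ - D.h ⟨i, some a⟩) 2 ∧
    D.Van D.X (-D.h ⟨i, none⟩ - D.h ⟨i, some a⟩ - D.κ) 3) ∧
  D.Van D.X (-D.κ) 2 ∧ D.Van D.X (-D.κ - D.κ) 3

/-! ### The hypersurface -/

/-- The vanishing theorems on the hypersurface. -/
def St_VANY : Prop := ∀ (D : Dat) (K : Type) [Field K] [Algebra ℂ K] (M : D.Mod K),
  (∀ μ, D.Van M.x (-D.h μ) 1) ∧ (∀ i a, D.Van M.x (-D.h ⟨i, none⟩ - D.h ⟨i, some a⟩) 2) ∧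
    D.Van M.x (-D.κ) 2

/-- Splitting of the conormal sequence at a point. -/
def St_DRV : Prop := ∀ (D : Dat) (K : Type) [Field K] [Algebra ℂ K] (M : D.Mod K) (z : M.X.Pt)
  (τ : D.Ch), (D.B M.x τ).toSubring ≤ M.X.O z → ∃ δ, (∀ t, δ t ∈ M.X.O z) ∧ D.Drv M.x τ δ

/-- Values of the maps on the relations. -/
def St_XI : Prop := ∀ (D : Dat) (F : Type) [Field F] [Algebra ℂ F]
  (x : ∀ i, Fin (D.n i + 1) → F), (∀ t, D.y x t ≠ 0) → (∀ w, D.β x (D.ρ x w) = 0) ∧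
    (D.Fx x = 0 → D.β x (D.φ x) = 0) ∧ ∀ τ δ, D.Drv x τ δ → (∀ μ, δ (τ.1 μ) = 0) ∧
      (∀ w, D.ξ x τ δ (D.ρ x w) = 0) ∧ D.ξ x τ δ (D.φ x) = D.gen x D.κ τ

/-- All relations over the function field. -/
def St_REL : Prop := ∀ (D : Dat) (K : Type) [Field K] [Algebra ℂ K] (M : D.Mod K),
  D.φ M.x ≠ 0 → ∀ g, D.β M.x g = 0 → ∃ (a : _) (m : K), g = D.α M.x a + m • D.φ M.x

/-- The incidence relations span a saturated subsheaf. -/
def St_SAT : Prop := ∀ (D : Dat) (F : Type) [Field F] [Algebra ℂ F]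
  (x : ∀ i, Fin (D.n i + 1) → F), (∀ t, D.y x t ≠ 0) → (∀ a, D.α x a = 0 → a = 0) ∧
    ∀ s a, D.α x a ∈ D.Ps x s ↔ a ∈ D.Rs x s

/-- The differential of the local equation. -/
def St_DF : Prop := ∀ (D : Dat) (K : Type) [Field K] [Algebra ℂ K] (M : D.Mod K) (τ : D.Ch),
  ∃ g : D.Vx → K, (∀ t, g t * D.y M.x (τ.1 (D.sl t)) ∈ D.B M.x τ) ∧ D.β M.x g = 0 ∧
    ∀ δ, D.Drv M.x τ δ → D.ξ M.x τ δ g = 1

/-- The extension of the differentials has no first cohomology. -/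
def St_NY : Prop := ∀ (D : Dat) (K : Type) [Field K] [Algebra ℂ K] (M : D.Mod K),
  Ex Finset.univ (D.Es M.x) (Fintype.card D.Sl + 1)

/-- Logarithmic forms on an affine chart. -/
def St_ETA : Prop := ∀ (K : Type) [Field K] [Algebra ℂ K] (X : Var K) (B : Subring K),
  (∀ T, IsLoc T → LocOf B T → ∃ z, X.O z = T) → (∀ z, B ≤ X.O z → LocOf B (X.O z)) →
  (∀ a : ℂ, algebraMap ℂ K a ∈ B) →
    (∀ W : Dv X, Cart W → ∃ η : Ω[K⁄ℂ], ∀ z, B ≤ X.O z → ∀ f, LocEq W z f →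
      η - dlog f ∈ frm (X.O z)) ∧
    ∀ ω : Ω[K⁄ℂ], (∀ z, B ≤ X.O z → ω ∈ frm (X.O z)) → ω ∈ frm B

/-- Regular forms are sections of the extension. -/
def St_FRM : Prop := ∀ (D : Dat) (F : Type) [Field F] [Algebra ℂ F]
  (x : ∀ i, Fin (D.n i + 1) → F), (∀ t, D.y x t ≠ 0) → ∀ (s : Finset D.Vx) (τ : D.Ch),
    (∀ μ, τ.1 μ ∈ s) → (∀ ω ∈ frm (D.Bs x s).toSubring, (ω, 0) ∈ D.Es x s) ∧
      ∀ e ∈ D.Es x s, (∀ μ, e.2 μ ∈ D.Bs x s) ∧
        e.1 - ∑ μ, e.2 μ • dlog (D.y x (τ.1 μ)) ∈ frm (D.Bs x s).toSubring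

/-- Gluing of a family indexed by the charts. -/
def St_GLUE : Prop := ∀ (D : Dat) (A : Type) [AddCommGroup A] (N : Finset D.Vx → AddSubgroup A),
  (∀ s, (∃ μ, ∀ t ∈ s, D.sl t ≠ μ) → N s = ⊥) →
  Ex Finset.univ N (Fintype.card D.Sl + 1) → ∀ η : D.Ch → A,
    (∀ (s : Finset D.Vx) (τ τ' : D.Ch), (∀ μ, τ.1 μ ∈ s) → (∀ μ, τ'.1 μ ∈ s) → η τ - η τ' ∈ N s) →
      ∃ ω : A, ∀ τ : D.Ch, η τ - ω ∈ N (Finset.univ.image τ.1)

/-- The Lefschetz theorem in terms of logarithmic forms. -/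
def St_L : Prop := ∀ (D : Dat) (K : Type) [Field K] [Algebra ℂ K] (M : D.Mod K) (W : Dv M.X),
  ∃ c : D.Sl → ℂ, Res fun E => (W E : ℂ) - cmb c (fun μ => M.st μ.1 μ.2) E

end Pool.Agent.Lib.MV
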