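import Pool.Agent.Lib.MV.FibC

open Set Matrix WithZero MvPolynomial Pool.Agent.Lib.MP_e39d36_ag Pool.Agent.Lib.MP_e39d36_ag.Var
  Pool.Agent.Lib.MV.End

noncomputable section

namespace Pool.Agent.Lib.MV.Fb

namespace BASE

variable {D : Dat} {K : Type} [Field K] [Algebra ℂ K]

lemma rat_eq (x : ∀ i, Fin (D.n i + 1) → K) (τ : D.Ch) (μ : D.Sl) (t : {t // D.sl t = μ}) :
    D.ys x μ t / D.ys x μ ⟨τ.1 μ, τ.2 μ⟩ = D.rat x τ t.1 := by
  rw [Dat.rat, t.2]; rfl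

lemma rat_mem (x : ∀ i, Fin (D.n i + 1) → K) (τ : D.Ch) (t : D.Vx) : D.rat x τ t ∈ D.B x τ :=
  Algebra.subset_adjoin ⟨t, rfl⟩

lemma BW_le (x : ∀ i, Fin (D.n i + 1) → K) (τ : D.Ch) (i : Fin D.k) : BW D x τ i ≤ D.B x τ :=
  Algebra.adjoin_mono (image_subset_range _ _)

lemma nm_eq (M : D.Mod K) {E : M.X.PD} {τ : D.Ch} (h : (D.B M.x τ).toSubring ≤ M.X.O E.1)
    (μ : D.Sl) : val E (D.ys M.x μ ⟨τ.1 μ, τ.2 μ⟩) = nm (val E) (D.ys M.x μ) := by
  refine le_antisymm (le_nm _ _) (nm_le.2 fun t => ?_)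
  have := ((isV E).2 _).1 (h (rat_mem M.x τ t.1))
  have h0 : D.ys M.x μ ⟨τ.1 μ, τ.2 μ⟩ ≠ 0 := M.hyp.ne _
  rwa [← rat_eq, map_div₀, div_le_one₀ (zero_lt_iff.2 ((val E).ne_zero_iff.2 h0))] at this

lemma st_val (M : D.Mod K) {E : M.X.PD} {τ : D.Ch} (h : (D.B M.x τ).toSubring ≤ M.X.O E.1)
    (j : Fin D.k) (o : Option (Fin (D.r j))) :
    M.st j o E = log (val E (D.y M.x (τ.1 ⟨j, o⟩))) := by
  rw [st_eq, sd_apply, ← nm_eq M h]; rfl

lemma log_prod' {ι : Type} (s : Finset ι) {f : ι → ℤᵐ⁰} (hf : ∀ i, f i ≠ 0) :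
    log (∏ i ∈ s, f i) = ∑ i ∈ s, log (f i) := by
  classical
  induction s using Finset.induction_on with
  | empty => simp
  | insert a s ha ih =>
    rw [Finset.prod_insert ha, Finset.sum_insert ha,
      log_mul (hf a) (Finset.prod_ne_zero_iff.2 fun i _ => hf i), ih]

lemma kap_ne (M : D.Mod K) (τ : D.Ch) (j : Fin D.k) : D.kap M.x τ j ≠ 0 :=
  mul_ne_zero (zpow_ne_zero _ (M.hyp.ne _)) (Finset.prod_ne_zero_iff.2 fun _ _ => M.hyp.ne _)

lemma dK_val (M : D.Mod K) {E : M.X.PD} {τ : D.Ch} (h : (D.B M.x τ).toSubring ≤ M.X.O E.1)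
    (j : Fin D.k) : dK D.n M.st j E = log (val E (D.kap M.x τ j)) := by
  have h0 : ∀ t, val E (D.y M.x t) ≠ 0 := fun t => (val E).ne_zero_iff.2 (M.hyp.ne t)
  rw [Dat.kap, map_mul, map_zpow₀, map_prod, log_mul (zpow_ne_zero _ (h0 _))
    (Finset.prod_ne_zero_iff.2 fun _ _ => h0 _), log_zpow, log_prod' _ fun _ => h0 _]
  simp only [dK, dE, Finsupp.sub_apply, Finsupp.smul_apply, Finsupp.finsetSum_apply, st_val M h,
    Finset.sum_sub_distrib, Finset.sum_const, Finset.card_univ, Fintype.card_fin, smul_eq_mul,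
    nsmul_eq_mul]
  ring

lemma adj_le {x : ∀ i, Fin (D.n i + 1) → K} {τ : D.Ch} {S : Set D.Vx} {A : Subring K}
    (hc : ∀ a : ℂ, algebraMap ℂ K a ∈ A) (h : ∀ t ∈ S, D.rat x τ t ∈ A) :
    (Algebra.adjoin ℂ (D.rat x τ '' S)).toSubring ≤ A := by
  rw [Algebra.adjoin_eq_ring_closure]
  refine Subring.closure_le.2 ?_
  rintro _ (⟨a, rfl⟩ | ⟨t, ht, rfl⟩)
  · exact hc a
  · exact h t ht

end BASE

open BASE in
theorem st_base (hGK : St_GK) : St_BASE := by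
  intro D K _ _ M i E τ hτ
  have hsl : ∀ (j : Fin D.k) (o : Option (Fin (D.r j))), j ≠ i → (D.sl (τ.1 ⟨j, o⟩)).1 ≠ i :=
    fun j o hj => by rw [τ.2]; exact hj
  refine ⟨⟨Finset.prod_ne_zero_iff.2 fun j _ => kap_ne M τ j, ?_, ?_, ?_,
    fun z hz => hτ.1 (BW_le M.x τ i hz), fun y V hV hB => ?_⟩, fun c => ?_, fun A hA hB hP => ?_⟩
  · refine prod_mem fun j hj => mul_mem (zpow_mem (y_mem (hsl j _ (Finset.ne_of_mem_erase hj))) _)
      (prod_mem fun a _ => y_mem (hsl j _ (Finset.ne_of_mem_erase hj)))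
  · rw [gW, map_prod, log_prod' _ fun j => (val E).ne_zero_iff.2 (kap_ne M τ j), dW,
      Finsupp.finsetSum_apply]
    exact Finset.sum_congr rfl fun j _ => dK_val M hτ.1 j
  · refine fun z hz => adj_le (A := (kI D M.x i).toSubring) (kI D M.x i).algebraMap_mem
      (fun t ht => ?_) hz
    exact (div_mem (y_mem ht) (y_mem (by rw [τ.2]; exact ht)) : _ ∈ kI D M.x i)
  · refine adj_le (M.X.const_mem y) fun t ht => ?_
    rw [← rat_eq M.x τ (D.sl t) ⟨t, rfl⟩]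
    refine (bpf_ys M _).mem hV (M.hyp.ne _) (fun t' => hB ?_) _
    rw [rat_eq]
    exact Algebra.subset_adjoin ⟨t'.1, by rw [mem_ofPred_eq, t'.2]; exact ht, rfl⟩
  · rw [gW, wt, ← div_eq_inv_mul, ← Finset.prod_div_distrib]
    refine prod_mem fun j hj => Algebra.adjoin_mono (image_mono fun t ht => ?_)
      (hGK D K M.x M.hyp.ne τ c j)
    rw [mem_ofPred_eq] at ht ⊢
    rw [ht]; exact Finset.ne_of_mem_erase hj
  · have hc : ∀ a : ℂ, algebraMap ℂ K a ∈ A := fun a => hB ((BW D M.x τ i).algebraMap_mem a)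
    have h1 : (D.B M.x τ).toSubring ≤ A := by
      rw [Dat.B, ← image_univ]
      refine adj_le hc fun t _ => ?_
      by_cases ht : (D.sl t).1 = i
      · have h2 : ∀ μ : D.Sl, μ.1 = i → Pin (val E) A (D.ys M.x μ) := by
          rintro ⟨j, o⟩ rfl
          exact hP o
        rw [← rat_eq M.x τ (D.sl t) ⟨t, rfl⟩]
        exact (h2 _ ht).div_mem hA (nm_eq M hτ.1 _) _
      · exact hB (Algebra.subset_adjoin ⟨t, ht, rfl⟩)
    intro z hz
    obtain ⟨b, hb, hu, hbz⟩ := hτ.2 z hz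
    have h3 : val E b = 1 := by
      have := (isV E).un_iff.1 hu
      rw [val_eq_exp this.1, this.2]; rfl
    have := mul_mem (hA.inv b (h1 hb) h3) (h1 hbz)
    rwa [inv_mul_cancel_left₀ hu.1] at this

end Pool.Agent.Lib.MV.Fb
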