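import Pool.Agent.Lib.MV.FibA

open Matrix WithZero Pool.Agent.Lib.MP_e39d36_ag Pool.Agent.Lib.MP_e39d36_ag.Var

set_option linter.unusedSectionVars false
set_option linter.unusedVariables false
set_option linter.style.haveILetI false

noncomputable section

namespace Pool.Agent.Lib.MV.Fb

namespace EXT

/-- A root of a nonzero polynomial of degree at most three over the relative algebraic closure
lies in it. -/
lemma root_mem {F E : Type} [Field F] [Field E] [Algebra F E] {z a b c d : E}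
    (ha : a ∈ algebraicClosure F E) (hb : b ∈ algebraicClosure F E)
    (hc : c ∈ algebraicClosure F E) (hd : d ∈ algebraicClosure F E)
    (h : a * z ^ 3 + b * z ^ 2 + c * z + d = 0) (h0 : a ≠ 0 ∨ b ≠ 0 ∨ c ≠ 0 ∨ d ≠ 0) :
    z ∈ algebraicClosure F E := by
  rw [mem_algebraicClosure_iff]
  let P : Cubic (algebraicClosure F E) := ⟨⟨a, ha⟩, ⟨b, hb⟩, ⟨c, hc⟩, ⟨d, hd⟩⟩
  have h1 : P.toPoly ≠ 0 := by
    rcases h0 with h | h | h | h
    · exact Cubic.ne_zero_of_a_ne_zero fun h1 => h (congrArg Subtype.val h1)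
    · exact Cubic.ne_zero_of_b_ne_zero fun h1 => h (congrArg Subtype.val h1)
    · exact Cubic.ne_zero_of_c_ne_zero fun h1 => h (congrArg Subtype.val h1)
    · exact Cubic.ne_zero_of_d_ne_zero fun h1 => h (congrArg Subtype.val h1)
  have h2 : IsAlgebraic (algebraicClosure F E) z := ⟨P.toPoly, h1, by
    simp only [Cubic.toPoly, map_add, map_mul, map_pow, Polynomial.aeval_C, Polynomial.aeval_X]
    exact h⟩
  exact h2.restrictScalars F

/-- Independent elements inside a set over which the field is algebraic. -/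
lemma pick {E : Type} [Field E] [Algebra ℂ E] (T : Set E) {n : ℕ}
    (h : ∀ z : E, z ∈ algebraicClosure (IntermediateField.adjoin ℂ T) E) {a : Fin n → E}
    (ha : AlgebraicIndependent ℂ a) :
    ∃ b : Fin n → E, (∀ i, b i ∈ T) ∧ AlgebraicIndependent ℂ b := by
  haveI : Algebra.IsAlgebraic (Algebra.adjoin ℂ T) E :=
    IntermediateField.isAlgebraic_adjoin_iff_top.1 ⟨fun z => mem_algebraicClosure_iff.1 (h z)⟩
  obtain ⟨t, ht, hb⟩ := exists_isTranscendenceBasis_subset (R := ℂ) T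
  have h1 := ha.cardinalMk_le_trdeg
  rw [← hb.cardinalMk_eq_trdeg] at h1
  obtain ⟨e⟩ := (Cardinal.le_def _ _).1 h1
  exact ⟨fun i => e i, fun i => ht (e i).2, hb.1.comp e e.injective⟩

end EXT

theorem st_ext : St_EXT := by
  intro K _ _ v V S n hv hC hS hA hI
  obtain ⟨a, ha, hP⟩ := hI
  have hun : ∀ z, Un V z ↔ v z = 1 := fun z => by
    refine ⟨fun h => le_antisymm ((hv.2 _).1 h.2.1) ?_, fun h => ⟨fun h0 => by simp [h0] at h,
      (hv.2 _).2 h.le, (hv.2 _).2 (by simp [h])⟩⟩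
    have h1 := (hv.2 _).1 h.2.2
    rwa [map_inv₀, inv_le_one₀ (zero_lt_iff.2 (v.ne_zero_iff.2 h.1))] at h1
  have hloc : IsLoc V := fun z hz => by
    rw [hun, hun]
    rcases ((hv.2 z).1 hz).eq_or_lt with h | h
    · exact Or.inl h
    · exact Or.inr (v.map_one_sub_of_lt h)
  haveI := hloc.isLocalRing
  letI : Algebra ℂ V := ((algebraMap ℂ K).codRestrict V hC).toAlgebra
  let ι : V →ₐ[ℂ] K := ⟨V.subtype, fun _ => rfl⟩
  let ρ : V →ₐ[ℂ] IsLocalRing.ResidueField V := IsScalarTower.toAlgHom ℂ V _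
  have hρ : ∀ z : V, ρ z ≠ 0 ↔ v z = 1 := fun z => by
    rw [← hun, ← isUnit_iff_un]
    exact IsLocalRing.residue_ne_zero_iff_isUnit z
  have hρ0 : ∀ z : V, v z < 1 → ρ z = 0 := fun z h => of_not_not fun h1 => h.ne ((hρ z).1 h1)
  have hind : ∀ b : Fin n → V, (∀ P : MvPolynomial (Fin n) ℂ, P ≠ 0 →
      Un V (MvPolynomial.aeval (fun i => (b i : K)) P)) ↔
      AlgebraicIndependent ℂ fun i => ρ (b i) := fun b => by
    rw [algebraicIndependent_iff]
    refine forall_congr' fun P => ?_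
    have h1 := MvPolynomial.comp_aeval_apply b ι P
    rw [← MvPolynomial.comp_aeval_apply]
    refine (imp_congr_right fun _ => ?_).trans not_imp_not
    rw [hun]
    exact (Eq.congr_left (congrArg v h1)).symm.trans (hρ _).symm
  let T : Set (IsLocalRing.ResidueField V) := ρ '' {z | z.1 ∈ S}
  let L := algebraicClosure (IntermediateField.adjoin ℂ T) (IsLocalRing.ResidueField V)
  let A : Subring K := (L.toSubring.comap ρ.toRingHom).map V.subtype
  have hm : ∀ z : V, ρ z ∈ L → z.1 ∈ A := fun z h => ⟨z, h, rfl⟩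
  have hF : ∀ z ∈ IntermediateField.adjoin ℂ T, z ∈ L := fun z h => L.algebraMap_mem ⟨z, h⟩
  have hVA := hA A ⟨by
      rintro _ ⟨z, -, rfl⟩
      exact (hv.2 _).1 z.2, fun z h => hm ⟨z, (hv.2 _).2 h.le⟩ (by
      rw [hρ0 _ h]; exact zero_mem _), by
      rintro _ ⟨z, hz, rfl⟩ h
      have h1 := (hun _).2 h
      refine hm ⟨_, h1.2.2⟩ ?_
      have h2 : ρ z * ρ ⟨_, h1.2.2⟩ = 1 := by
        rw [← map_mul, ← map_one ρ]
        exact congrArg ρ (Subtype.ext (mul_inv_cancel₀ h1.1))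
      rw [← inv_eq_of_mul_eq_one_right h2]
      exact inv_mem hz, by
      rintro z _ _ _ _ hz ⟨a, ha, rfl⟩ ⟨b, hb, rfl⟩ ⟨c, hc, rfl⟩ ⟨d, hd, rfl⟩ h h0
      refine hm ⟨z, (hv.2 _).2 hz⟩ (EXT.root_mem ha hb hc hd ?_
        (h0.imp (hρ a).2 (Or.imp (hρ b).2 (Or.imp (hρ c).2 (hρ d).2))))
      have h1 := hρ0 (a * ⟨z, (hv.2 _).2 hz⟩ ^ 3 + b * ⟨z, (hv.2 _).2 hz⟩ ^ 2 +
        c * ⟨z, (hv.2 _).2 hz⟩ + d) h
      simp only [map_add, map_mul, map_pow] at h1
      exact h1⟩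
    (fun c => hm ⟨_, hC c⟩ (hF _ (by
      rw [show ρ ⟨_, hC c⟩ = algebraMap ℂ _ c from ρ.commutes c]
      exact IntermediateField.algebraMap_mem _ c)))
    (fun z h => hm ⟨z, hS h⟩ (hF _ (IntermediateField.subset_adjoin _ _ ⟨_, h, rfl⟩)))
  obtain ⟨b, hb, hb'⟩ := EXT.pick T (fun w => by
    obtain ⟨z, rfl⟩ := IsLocalRing.residue_surjective w
    obtain ⟨y, hy, hyz⟩ := hVA z.2
    obtain rfl : y = z := Subtype.ext hyz
    exact hy) ((hind fun i => ⟨a i, ha i⟩).1 hP)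
  choose c hc hcb using hb
  obtain rfl : (fun i => ρ (c i)) = b := funext hcb
  exact ⟨fun i => c i, hc, (hind c).2 hb'⟩

end Pool.Agent.Lib.MV.Fb
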