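import Pool.Agent.Lib.MV.FibC

open Set Matrix WithZero MvPolynomial Pool.Agent.Lib.MP_e39d36_ag Pool.Agent.Lib.MP_e39d36_ag.Var
  Pool.Agent.Lib.MV.End

noncomputable section

namespace Pool.Agent.Lib.MV.Fb

namespace FIB

variable {K : Type} [Field K] {ι ι' : Type} [Fintype ι] [Fintype ι'] {y : ι → K} {y' : ι' → K}

lemma nm_range {v : Valuation K ℤᵐ⁰} (h : range y = range y') : nm v y = nm v y' :=
  eq_of_forall_ge_iff fun g => by
    rw [nm_le, nm_le, ← forall_mem_range (p := fun z => v z ≤ g), h, forall_mem_range]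

lemma pin_range {v : Valuation K ℤᵐ⁰} {A : Subring K} (h : range y = range y') (hy : Pin v A y) :
    Pin v A y' := by
  obtain ⟨s, h1, h2⟩ := hy
  refine ⟨s, by rw [nm_smul, ← nm_range h, ← nm_smul, h1], ?_⟩
  rwa [← forall_mem_range (p := fun z => s * z ∈ A), ← h, forall_mem_range]

lemma tri_sum {J : Type} (s : Finset J) (c : J → Cf K) (x y z : Fin 3 → K) :
    tri (∑ j ∈ s, c j) x y z = ∑ j ∈ s, tri (c j) x y z := by
  classical
  induction s using Finset.induction_on with
  | empty => simp [tri]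
  | insert a s ha ih =>
    rw [Finset.sum_insert ha, Finset.sum_insert ha, ← ih]
    simp [tri, add_mul, Finset.sum_add_distrib]

variable [Algebra ℂ K] {X : Var K}

lemma sd_range (h : range y = range y') : sd X y = sd X y' :=
  Finsupp.ext fun E => by rw [sd_apply, sd_apply, nm_range h]

omit [Fintype ι] [Fintype ι'] in
lemma bpf_range (h : range y = range y') (hy : Bpf X y) : Bpf X y' := fun z => by
  obtain ⟨l, h1, h2⟩ := hy z
  obtain ⟨l', e⟩ : y l ∈ range y' := h ▸ mem_range_self l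
  refine ⟨l', e ▸ h1, ?_⟩
  rwa [e, ← forall_mem_range (p := fun w => w / y l ∈ X.O z), ← h, forall_mem_range]

lemma val_un {E : X.PD} {z : K} : Un (X.O E.1) z ↔ val E z = 1 := by
  rw [(isV E).un_iff]
  refine ⟨fun h => by rw [val_eq_exp h.1, h.2]; rfl, fun h => ⟨fun e => by simp [e] at h, ?_⟩⟩
  simp [od, h]

variable {D : Dat} (x : ∀ i, Fin (D.n i + 1) → K)

lemma range_none (i : Fin D.k) : range (x i) = range (D.ys x ⟨i, none⟩) := by
  refine subset_antisymm ?_ ?_
  · rintro _ ⟨l, rfl⟩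
    exact ⟨⟨.inl ⟨i, l⟩, rfl⟩, rfl⟩
  · rintro _ ⟨⟨⟨j, l⟩ | t, h⟩, rfl⟩
    · obtain rfl : j = i := congrArg Sigma.fst h
      exact ⟨l, rfl⟩
    · obtain ⟨⟨j, b⟩, l⟩ := t
      obtain rfl : j = i := congrArg Sigma.fst h
      simp [Dat.sl] at h

lemma range_some (i : Fin D.k) (a : Fin (D.r i)) :
    range (fun j => D.y x (.inr (⟨i, a⟩, j))) = range (D.ys x ⟨i, some a⟩) := by
  refine subset_antisymm ?_ ?_
  · rintro _ ⟨l, rfl⟩
    exact ⟨⟨.inr (⟨i, a⟩, l), rfl⟩, rfl⟩
  · rintro _ ⟨⟨⟨j, l⟩ | t, h⟩, rfl⟩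
    · obtain rfl : j = i := congrArg Sigma.fst h
      simp [Dat.sl] at h
    · obtain ⟨⟨j, b⟩, l⟩ := t
      obtain rfl : j = i := congrArg Sigma.fst h
      obtain rfl : b = a := by simpa [Dat.sl] using h
      exact ⟨l, rfl⟩

lemma eval_Φ0 (i : Fin D.k) (w : Fin (D.n i + 1) → K) :
    eval w (D.Φ0 x i) = ∑ c, wt D x i c * aeval w (D.G c i) := by
  simp only [Dat.Φ0, map_sum, smul_eval, eval_map, aeval_def, wt]

lemma eval_dΦ0 (i : Fin D.k) (w : Fin (D.n i + 1) → K) (l) :
    eval w (pderiv l (D.Φ0 x i)) = ∑ c, wt D x i c * aeval w (pderiv l (D.G c i)) := by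
  simp only [Dat.Φ0, map_sum, Derivation.map_smul, pderiv_map, smul_eval, eval_map, aeval_def, wt]

end FIB

open FIB in
theorem st_fib (hK : St_KER2) (hT : St_TR) (hB : St_BASE) (hTri : St_TRI) (hP : St_PEN) :
    St_FIB := by
  intro D K _ _ M i h
  have hn := D.n_eq i h
  obtain ⟨e, e0⟩ : ∃ e : Fin 3 ≃ Fin (D.n i + 1), e 0 = 0 := ⟨Dat.c3 h, Fin.ext rfl⟩
  choose cG hG using fun c => hTri (rename e.symm (D.G c i))
    (by simpa only [hn] using (D.G_hom c i).rename_isHomogeneous (f := e.symm))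
  obtain ⟨c, hc⟩ : ∃ c : Cf K, c = ∑ j, wt D M.x i j • cmap (algebraMap ℂ K) (cG j) := ⟨_, rfl⟩
  have hcs : ∀ a b l, c a b l = ∑ j, wt D M.x i j * algebraMap ℂ K (cG j a b l) := fun a b l => by
    simp [hc, cmap, Finset.sum_apply]
  have K1 : ∀ w, cub c (w ∘ e) = eval w (D.Φ0 M.x i) := fun w => by
    rw [eval_Φ0, hc, cub, tri_sum]
    refine Finset.sum_congr rfl fun j _ => ?_
    rw [← cub, cub_csmul, ← (hG j K _).1, aeval_rename, Function.comp_assoc, e.self_comp_symm,
      Function.comp_id]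
  have K2 : ∀ w l, grad c (w ∘ e) l = eval w (pderiv (e l) (D.Φ0 M.x i)) := fun w l => by
    rw [eval_dΦ0, hc, grad, pol, tri_sum, tri_sum, tri_sum, ← Finset.sum_add_distrib,
      ← Finset.sum_add_distrib]
    refine Finset.sum_congr rfl fun j _ => ?_
    have := pderiv_rename e.symm.injective (e l) (D.G j i)
    rw [e.symm_apply_apply] at this
    rw [← pol, pol_csmul, ← grad, ← (hG j K _).2, this, aeval_rename, Function.comp_assoc,
      e.self_comp_symm, Function.comp_id]
  have rx : range (M.x i ∘ e) = range (D.ys M.x ⟨i, none⟩) := by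
    rw [e.surjective.range_comp, range_none]
  have li : ∀ v : Fin 2 → Fin (D.n i + 1) → ℂ, LinearIndependent ℂ v →
      LinearIndependent ℂ fun j => v j ∘ e := fun v hv =>
    hv.map' (LinearEquiv.funCongrLeft ℂ ℂ e).toLinearMap (LinearEquiv.ker _)
  have p0 : ∀ a, D.p i a ∘ e ≠ 0 := fun a h0 => D.p_ne i a (funext fun l => by
    simpa using congrFun h0 (e.symm l))
  have pen := fun a => hP K M.X (Fin 2) (Equiv.refl _) (D.p i a ∘ e) (fun j => D.u i a j ∘ e)
    (M.x i ∘ e) (fun j => D.y M.x (.inr (⟨i, a⟩, j))) (p0 a) (li _ (D.u_ind i a))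
    (fun j => by rw [comp_equiv_dotProduct_comp_equiv, D.u_p])
    fun j => (e.sum_comp fun l => D.u i a j l • M.x i l).symm
  refine ⟨{ k := kI D M.x i, x := M.x i ∘ e, c := c, p := fun a => D.p i a ∘ e
            κ := dW D.n M.st i, ck := fun a b l => ?_, x0 := ?_, cx := ?_, gen := ?_
            tr := hT D K M i hn.ge, cp := fun a => ?_, p0 := p0, pp := fun a b hab => ?_
            bx := bpf_range rx.symm (bpf_ys M _)
            bp := fun a => (pen a).2.1 (bpf_range (range_some M.x i a).symm (bpf_ys M _))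
            loc := fun E => ?_ }, rfl, ?_, fun a => ?_, rfl⟩
  · rw [hcs]
    exact sum_mem fun j _ => mul_mem (wt_mem i j) (algebraMap_mem _ _)
  · rw [Function.comp_apply, e0, M.hyp.one]
  · rw [K1, eval_Φ0, ← Fx_eq, (hK D K M i).1]
  · rw [e.surjective.range_comp, (hK D K M i).2.1]
  · rw [← Function.comp_assoc, K1, eval_Φ0]
    refine Finset.sum_eq_zero fun j _ => ?_
    rw [aeval_algebraMap_apply, aeval_eq_eval, D.G_p, map_zero, mul_zero]
  · rw [crossProduct_ne_zero_iff_linearIndependent]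
    have := li _ (D.dist i a b hab)
    rwa [show (fun j => ![D.p i a, D.p i b] j ∘ e) = ![D.p i a ∘ e, D.p i b ∘ e] from
      funext fun j => by fin_cases j <;> rfl] at this
  · obtain ⟨τ, hτ⟩ := M.hyp.chart E.1
    obtain ⟨b1, b2, b3⟩ := hB D K M i E τ hτ
    have cB : ∀ a b l, ((gW D M.x τ i)⁻¹ • c) a b l ∈ BW D M.x τ i := fun a b l => by
      simp only [Pi.smul_apply, smul_eq_mul, hcs, Finset.mul_sum, ← mul_assoc]
      exact sum_mem fun j _ => mul_mem (b2 j) (algebraMap_mem _ _)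
    have good : Good (val E) ((gW D M.x τ i)⁻¹ • c) := by
      refine ⟨fun a b l => ((isV E).2 _).1 (b1.BO (cB a b l)), fun a b ha hb hab h1 h2 h3 h4 => ?_⟩
      obtain ⟨s, t, hu⟩ := M.hyp.noline E.1 E.2 τ hτ.1 i h (a ∘ e.symm) (b ∘ e.symm)
        (fun l => ((isV E).2 _).2 (nm_le.1 ha _)) (fun l => ((isV E).2 _).2 (nm_le.1 hb _)) (by
          obtain ⟨l, hl⟩ := exists_nm (v := val E) (a ⨯₃ b)
          rw [hab, eq_comm, ← val_un] at hl
          fin_cases l
          · exact ⟨e 1, e 2, by simpa [cross_apply] using hl⟩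
          · exact ⟨e 2, e 0, by simpa [cross_apply] using hl⟩
          · exact ⟨e 0, e 1, by simpa [cross_apply] using hl⟩)
      rw [Φ_eq, smul_eval, ← K1, ← cub_csmul, val_un, show (s • a ∘ e.symm + t • b ∘ e.symm) ∘ e =
        algebraMap ℂ K s • a + algebraMap ℂ K t • b from funext fun l => by
          simp [Algebra.smul_def], cub_comb] at hu
      have hs := ((isV E).2 _).1 (M.X.const_mem E.1 s)
      have ht := ((isV E).2 _).1 (M.X.const_mem E.1 t)
      have q : ∀ {u z : K}, val E u ≤ 1 → val E z < 1 → val E (u * z) < 1 := fun hu hz => by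
        rw [map_mul]; exact mul_lt_one_of_nonneg_of_lt_one_right hu zero_le hz
      refine hu.not_lt ((val E).map_add_lt ((val E).map_add_lt ((val E).map_add_lt (q ?_ h1)
        (q ?_ h2)) (q ?_ h3)) (q ?_ h4)) <;> simp only [map_mul, map_pow]
      exacts [pow_le_one' hs _, mul_le_one' (pow_le_one' hs _) ht,
        mul_le_one' hs (pow_le_one' ht _), pow_le_one' ht _]
    refine ⟨_, _, b1, cB, good, fun a => ?_, fun A hA hBA h1 h2 => b3 A hA hBA fun o => ?_⟩
    · refine le_antisymm (good.grad_le (nm_const E (p0 a)).le) ?_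
      obtain ⟨l, hl⟩ := M.hyp.nonsing E.1 E.2 τ hτ.1 i a
      rw [Φ_eq, Derivation.map_smul, smul_eval, ← e.apply_symm_apply l, ← K2, val_un] at hl
      rw [grad_csmul, ← hl]
      exact le_nm (v := val E) ((gW D M.x τ i)⁻¹ • grad c _) (e.symm l)
    · rcases o with _ | a
      · exact pin_range rx h1
      · exact pin_range (range_some M.x i a) ((pen a).2.2 E A
          (fun z => hBA ((BW D M.x τ i).algebraMap_mem z)) (h2 a))
  · rw [st_eq]; exact sd_range rx
  · rw [st_eq]; exact (pen a).1.trans (sd_range (range_some M.x i a))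

end Pool.Agent.Lib.MV.Fb
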