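import Pool.Agent.Lib.MV.FibC

open Set Matrix WithZero MvPolynomial Pool.Agent.Lib.MP_e39d36_ag Pool.Agent.Lib.MP_e39d36_ag.Var
  Pool.Agent.Lib.MV.End

set_option linter.unusedSectionVars false
set_option linter.unusedVariables false

noncomputable section

namespace Pool.Agent.Lib.MV.Fb

namespace Fib1A

lemma quad {n : ℕ} (hn : n = 1) {G : MvPolynomial (Fin (n + 1)) ℂ} (hG : G.IsHomogeneous (n + 1)) :
    ∃ a : Fin 3 → ℂ, G = C (a 0) * X 0 ^ 2 + C (a 1) * (X 0 * X (Fin.last n)) +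
      C (a 2) * X (Fin.last n) ^ 2 := by
  subst hn
  rw [G.as_sum]
  refine Finset.sum_induction _ (fun P : MvPolynomial (Fin (1 + 1)) ℂ => ∃ a : Fin 3 → ℂ,
    P = C (a 0) * X 0 ^ 2 + C (a 1) * (X 0 * X (Fin.last 1)) + C (a 2) * X (Fin.last 1) ^ 2)
    ?_ ⟨0, by simp⟩ fun d hd => ?_
  · rintro _ _ ⟨a, rfl⟩ ⟨b, rfl⟩
    exact ⟨a + b, by simp only [Pi.add_apply, C_add]; ring⟩
  · have h1 : d 0 + d 1 = 2 := by
      have := hG (mem_support_iff.1 hd)
      rw [Finsupp.weight_apply, Finsupp.sum_fintype _ _ (by simp)] at this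
      simpa [Fin.sum_univ_succ] using this
    have h2 : monomial d (coeff d G) = C (coeff d G) * (X 0 ^ d 0 * X 1 ^ d 1) := by
      rw [monomial_eq, Finsupp.prod_fintype _ _ (by simp)]
      simp [Fin.prod_univ_succ]
    rw [h2]
    have h3 : (d 0 = 2 ∧ d 1 = 0) ∨ (d 0 = 1 ∧ d 1 = 1) ∨ (d 0 = 0 ∧ d 1 = 2) := by omega
    rcases h3 with ⟨h, h'⟩ | ⟨h, h'⟩ | ⟨h, h'⟩
    · exact ⟨![coeff d G, 0, 0], by simp [h, h']⟩
    · exact ⟨![0, coeff d G, 0], by simp [h, h', Fin.last]⟩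
    · exact ⟨![0, 0, coeff d G], by simp [h, h', Fin.last]⟩

section rng

variable {K Γ : Type} [Field K] [LinearOrderedCommGroupWithZero Γ] {v : Valuation K Γ}
  {ι ι' : Type} [Fintype ι] [Fintype ι'] {y : ι → K} {y' : ι' → K}

lemma nm_mono (h : range y ⊆ range y') : nm v y ≤ nm v y' := nm_le.2 fun l => by
  obtain ⟨j, hj⟩ := h ⟨l, rfl⟩
  exact hj ▸ le_nm y' j

lemma nm_rng (h : range y = range y') : nm v y = nm v y' :=
  le_antisymm (nm_mono h.le) (nm_mono h.ge)

lemma pin_rng {A : Subring K} (h : range y = range y') (hp : Pin v A y') : Pin v A y := by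
  obtain ⟨s, h1, h2⟩ := hp
  refine ⟨s, by rwa [nm_smul, nm_rng h, ← nm_smul], fun i => ?_⟩
  obtain ⟨j, hj⟩ := h.le ⟨i, rfl⟩
  exact hj ▸ h2 j

end rng

variable {D : Dat} {K : Type} [Field K] [Algebra ℂ K]

lemma range_ys (x : ∀ i, Fin (D.n i + 1) → K) (i : Fin D.k) :
    range (D.ys x ⟨i, none⟩) = range (x i) := by
  ext z
  refine ⟨?_, ?_⟩
  · rintro ⟨⟨⟨j, l⟩ | ⟨⟨j, a⟩, b⟩, h⟩, rfl⟩
    · obtain rfl : j = i := congrArg Sigma.fst h
      exact ⟨l, rfl⟩
    · obtain rfl : j = i := congrArg Sigma.fst h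
      cases eq_of_heq (Sigma.mk.inj h).2
  · rintro ⟨l, rfl⟩
    exact ⟨⟨.inl ⟨i, l⟩, rfl⟩, rfl⟩

lemma range_x {n : ℕ} (hn : n = 1) {x : Fin (n + 1) → K} (h0 : x 0 = 1) :
    range x = range ![1, x (Fin.last n)] := by
  subst hn
  congr 1
  funext l
  fin_cases l
  · exact h0
  · rfl

lemma lin {q : Fin 3 → K} {s : K} {n : ℕ} (l : Fin n)
    (h : (C (q 0) + C (q 1) * X l + C (q 2) * X l ^ 2 : MvPolynomial (Fin n) K) ∣ X l - C s)
    (he : q 2 * s ^ 2 + q 1 * s + q 0 = 0) : q 1 ≠ 0 ∧ q = q 1 • ![-s, 1, 0] := by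
  have h1 : Polynomial.C (q 2) * Polynomial.X ^ 2 + Polynomial.C (q 1) * Polynomial.X +
      Polynomial.C (q 0) ∣ Polynomial.X - Polynomial.C s := by
    have := map_dvd (aeval fun _ : Fin n => (Polynomial.X : Polynomial K)) h
    simp only [map_add, map_mul, map_sub, map_pow, aeval_X, aeval_C,
      Polynomial.algebraMap_eq] at this
    rwa [add_comm, add_comm (Polynomial.C (q 0)), ← add_assoc] at this
  have h2 : q 2 = 0 := by
    by_contra h2
    have := Polynomial.natDegree_le_of_dvd h1 (Polynomial.X_sub_C_ne_zero s)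
    rw [Polynomial.natDegree_quadratic h2, Polynomial.natDegree_X_sub_C] at this
    omega
  have h3 : q 0 = q 1 * -s := by rw [h2] at he; linear_combination he
  refine ⟨fun h4 => Polynomial.X_sub_C_ne_zero s ?_, funext fun j => ?_⟩
  · simpa [h2, h3, h4] using h1
  · fin_cases j <;> simp [h2, h3]

end Fib1A

open Fib1A in
theorem st_fib1 (hK : St_KER2) (hB : St_BASE) : St_FIB1 := by
  intro D K _ _ M i hn
  obtain ⟨hF, hg, hk⟩ := hK D K M i
  choose a ha using fun c => quad hn (D.G_hom c i)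
  set s := M.x i (Fin.last _) with hs
  set q : Fin 3 → K := fun j => ∑ c, wt D M.x i c * algebraMap ℂ K (a c j) with hq
  have hΦ : D.Φ0 M.x i = C (q 0) * X 0 ^ 2 + C (q 1) * (X 0 * X (Fin.last _)) +
      C (q 2) * X (Fin.last _) ^ 2 := by
    simp only [hq, map_sum, Finset.sum_mul, ← Finset.sum_add_distrib]
    refine Finset.sum_congr rfl fun c _ => ?_
    rw [ha c, smul_eq_C_mul]
    simp only [map_add, map_mul, map_pow, map_C, map_X, wt]
    ring
  have hr : range (D.ys M.x ⟨i, none⟩) = range ![1, s] :=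
    (range_ys M.x i).trans (range_x hn (M.hyp.one i))
  have hst : sd M.X ![1, s] = M.st i none := by
    rw [st_eq]
    exact Finsupp.ext fun E => congrArg log (nm_rng hr.symm)
  have he : q 2 * s ^ 2 + q 1 * s + q 0 = 0 := by
    rw [← hF, Fx_eq i]
    simp only [hq, Finset.sum_mul, ← Finset.sum_add_distrib]
    refine Finset.sum_congr rfl fun c _ => ?_
    rw [ha c]
    simp only [map_add, map_mul, map_pow, aeval_C, aeval_X, M.hyp.one i, ← hs]
    ring
  have hl : ∀ E : M.X.PD, ∃ g B, Base M.X (kI D M.x i) (dW D.n M.st i) E g B ∧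
      (∀ j, g⁻¹ * q j ∈ B) ∧ nm (val E) q = val E g ∧ ∀ A : Subring K, RC (val E) A →
        B.toSubring ≤ A → Pin (val E) A ![1, s] → M.X.O E.1 ≤ A := fun E => by
    obtain ⟨τ, hτ⟩ := M.hyp.chart E.1
    obtain ⟨h1, h2, h3⟩ := hB D K M i E τ hτ
    have h4 : ∀ j, (gW D M.x τ i)⁻¹ * q j ∈ BW D M.x τ i := fun j => by
      simp only [hq, Finset.mul_sum, ← mul_assoc]
      exact sum_mem fun c _ => mul_mem (h2 c) (Subalgebra.algebraMap_mem _ _)
    refine ⟨_, _, h1, h4, ?_, fun A hA hBA hp => h3 A hA hBA fun o => ?_⟩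
    · obtain ⟨z, hz⟩ := M.hyp.nonzero E.1 E.2 τ hτ.1 i hn
      have h5 : eval (algebraMap ℂ K ∘ z) (D.Φ M.x τ i) = ((gW D M.x τ i)⁻¹ • q) ⬝ᵥ
          (algebraMap ℂ K ∘ ![z 0 ^ 2, z 0 * z (Fin.last _), z (Fin.last _) ^ 2]) := by
        rw [Φ_eq, hΦ, smul_eval]
        simp [dotProduct, Fin.sum_univ_succ]
        ring
      have h6 : val E (eval (algebraMap ℂ K ∘ z) (D.Φ M.x τ i)) = 1 := by
        have := (isV E).un_iff.1 hz
        rw [val_eq_exp this.1, this.2]; rfl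
      have h7 : nm (val E) ((gW D M.x τ i)⁻¹ • q) = 1 := by
        refine le_antisymm (nm_le.2 fun j => ((isV E).2 _).1 (h1.BO (h4 j))) ?_
        rw [← h6, h5]
        exact dot_le_left (nm_le.2 fun j => ((isV E).2 _).1 (M.X.const_mem _ _))
      rwa [nm_smul, map_inv₀, inv_mul_eq_one₀ ((val E).ne_zero_iff.2 h1.g0), eq_comm] at h7
    · rcases o with _ | b
      · exact pin_rng hr hp
      · have := D.n_eq i b.pos.ne'
        omega
  by_cases hsk : s ∈ kI D M.x i
  · left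
    set l : Fin (D.n i) := ⟨0, D.n_pos i⟩
    have h1 : l.succ = Fin.last _ := Fin.ext hn.symm
    have h2 := hk (X l - C ⟨s, hsk⟩) (by simp [h1, hs])
    have h3 : Φa D M.x i = C (q 0) + C (q 1) * X l + C (q 2) * X l ^ 2 := by
      simp [Φa, hΦ, ← h1]
    rw [h3, map_sub, map_X, map_C] at h2
    obtain ⟨h4, h5⟩ := lin (s := s) l h2 he
    refine ⟨q 1, h4, Finsupp.ext fun E => ?_⟩
    obtain ⟨g, B, h6, -, h7, -⟩ := hl E
    have h8 : nm (val E) ![-s, 1, 0] = nm (val E) ![1, s] := le_antisymm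
      (nm_le.2 fun j => by
        fin_cases j
        · exact ((val E).map_neg s).trans_le (le_nm ![1, s] 1)
        · exact le_nm ![1, s] 0
        · simp)
      (nm_le.2 fun j => by
        fin_cases j
        · exact le_nm ![-s, 1, 0] 1
        · exact ((val E).map_neg s).symm.trans_le (le_nm ![-s, 1, 0] 0))
    rw [← hst, Finsupp.add_apply, sd_apply, h6.ord, ← h7, div_apply, ord_log, ← h8,
      congrArg (nm (val E)) h5, nm_smul, log_mul ((val E).ne_zero_iff.2 h4)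
        (nm_ne fun h => one_ne_zero (congrFun h 1))]
    ring
  · refine Or.inr ⟨⟨kI D M.x i, s, q, _, fun j => sum_mem fun c _ =>
      mul_mem (wt_mem i c) (algebraMap_mem _ _), he, hsk, ?_, hl⟩, rfl, hst, rfl⟩
    rw [eq_top_iff, ← hg, range_x hn (M.hyp.one i), IntermediateField.adjoin_le_iff]
    rintro _ ⟨j, rfl⟩
    fin_cases j
    · exact one_mem _
    · exact IntermediateField.mem_adjoin_simple_self _ _

end Pool.Agent.Lib.MV.Fb
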