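import Pool.Agent.Lib.MV.FibC

open Matrix MvPolynomial

namespace Pool.Agent.Lib.MV.Fb

namespace GK

lemma aeval_mul {σ S : Type} [CommRing S] [Algebra ℂ S] {G : MvPolynomial σ ℂ} {d : ℕ}
    (h : G.IsHomogeneous d) (s : S) (w : σ → S) :
    aeval (fun l => s * w l) G = s ^ d * aeval w G := by
  rw [G.as_sum, map_sum, map_sum, Finset.mul_sum]
  refine Finset.sum_congr rfl fun e he => ?_
  rw [aeval_monomial, aeval_monomial, ← h (mem_support_iff.1 he), Finsupp.prod, Finsupp.prod]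
  simp [mul_pow, Finset.prod_mul_distrib, Finset.prod_pow_eq_pow_sum, Finsupp.weight_apply,
    Finsupp.sum, mul_left_comm]

variable {N : ℕ}

lemma exists_dot {W : Submodule ℂ (Fin N → ℂ)} {p : Fin N → ℂ} (h : p ∉ W) :
    ∃ m : Fin N → ℂ, m ⬝ᵥ p = 1 ∧ ∀ q ∈ W, m ⬝ᵥ q = 0 := by
  obtain ⟨f, h1, h2⟩ := Submodule.exists_le_ker_of_notMem h
  obtain ⟨m, rfl⟩ := (dotProductEquiv ℂ (Fin N)).surjective f
  have h3 : m ⬝ᵥ p ≠ 0 := h1
  exact ⟨(m ⬝ᵥ p)⁻¹ • m, by rw [smul_dotProduct, smul_eq_mul, inv_mul_cancel₀ h3], fun q hq => by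
    rw [smul_dotProduct, show m ⬝ᵥ q = 0 from h2 hq, smul_zero]⟩

lemma mem_span (hN : N = 3) {p : Fin N → ℂ} (hp : p ≠ 0) {u : Fin 2 → Fin N → ℂ}
    (hu : LinearIndependent ℂ u) (h : ∀ k, u k ⬝ᵥ p = 0) {v : Fin N → ℂ} (hv : v ⬝ᵥ p = 0) :
    v ∈ Submodule.span ℂ (Set.range u) := by
  have h1 := Module.Dual.finrank_ker_add_one_of_ne_zero
    ((dotProductEquiv ℂ (Fin N)).map_ne_zero_iff.2 hp)
  have h2 : Submodule.span ℂ (Set.range u) = LinearMap.ker (dotProductEquiv ℂ (Fin N) p) := by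
    refine Submodule.eq_of_le_of_finrank_eq (Submodule.span_le.2 ?_) ?_
    · rintro _ ⟨k, rfl⟩
      exact (dotProduct_comm _ _).trans (h k)
    · rw [finrank_span_eq_card hu]
      rw [Module.finrank_fin_fun] at h1
      rw [Fintype.card_fin]
      omega
  rw [h2]
  exact (dotProduct_comm _ _).trans hv

variable {B : Type} [CommRing B] [Algebra ℂ B]

lemma dvd_aeval {z : Fin N → B} {w : B} {p : Fin N → ℂ} (hp : p ≠ 0)
    (h : ∀ v, v ⬝ᵥ p = 0 → w ∣ Fintype.linearCombination ℂ z v) {G : MvPolynomial (Fin N) ℂ}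
    {d : ℕ} (hG : G.IsHomogeneous d) (h0 : eval p G = 0) : w ∣ aeval z G := by
  obtain ⟨m, hm, -⟩ := exists_dot (W := ⊥) hp
  let π := Ideal.Quotient.mkₐ ℂ (Ideal.span {w})
  have h1 : ∀ l, π (z l) = π (Fintype.linearCombination ℂ z m) * algebraMap ℂ _ (p l) := fun l => by
    have h2 := h (Pi.single l 1 - p l • m) (by
      rw [sub_dotProduct, smul_dotProduct, hm, single_dotProduct]; simp)
    rw [map_sub, map_smul, Fintype.linearCombination_apply_single, one_smul] at h2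
    rw [mul_comm, ← Algebra.smul_def, ← map_smul]
    exact Ideal.Quotient.eq.2 (Ideal.mem_span_singleton.2 h2)
  refine Ideal.mem_span_singleton.1 (Ideal.Quotient.eq_zero_iff_mem.1 (?_ : π _ = 0))
  rw [← AlgHom.comp_apply, comp_aeval, funext h1, aeval_mul hG]
  refine mul_eq_zero_of_right _ ?_
  rw [show (fun l => algebraMap ℂ (B ⧸ Ideal.span {w}) (p l)) = algebraMap ℂ _ ∘ p from rfl,
    aeval_algebraMap_apply, show aeval p G = 0 from h0, map_zero]

variable {D : Dat} {j : Fin D.k}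

lemma sl_none {t : D.Vx} (h : D.sl t = ⟨j, none⟩) : ∃ l, t = .inl ⟨j, l⟩ := by
  rcases t with ⟨i, l⟩ | ⟨⟨i, a⟩, k⟩ <;> cases h
  exact ⟨l, rfl⟩

lemma sl_some {t : D.Vx} {a : Fin (D.r j)} (h : D.sl t = ⟨j, some a⟩) :
    ∃ k, t = .inr (⟨j, a⟩, k) := by
  rcases t with ⟨i, l⟩ | ⟨⟨i, a⟩, k⟩ <;> cases h
  exact ⟨k, rfl⟩

end GK

open GK in
theorem st_gk : St_GK := by
  intro D F _ _ x hy τ c j
  obtain ⟨l0, h0⟩ := sl_none (τ.2 ⟨j, none⟩)
  choose k hk using fun a => sl_some (τ.2 ⟨j, some a⟩)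
  have hx : x j l0 ≠ 0 := hy (.inl ⟨j, l0⟩)
  let ρ : ∀ t : D.Vx, (D.sl t).1 = j → BI D x τ j := fun t ht =>
    ⟨D.rat x τ t, Algebra.subset_adjoin ⟨t, ht, rfl⟩⟩
  let z : Fin (D.n j + 1) → BI D x τ j := fun l => ρ (.inl ⟨j, l⟩) rfl
  have hz : ∀ l, (z l : F) = (x j l0)⁻¹ * x j l := fun l => by
    change x j l / D.y x (τ.1 ⟨j, none⟩) = _
    rw [h0, div_eq_inv_mul]; rfl
  have hΛ : ∀ a k, (Fintype.linearCombination ℂ z (D.u j a k) : F) =
      (x j l0)⁻¹ * D.y x (.inr (⟨j, a⟩, k)) := fun a k => by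
    simp [Fintype.linearCombination_apply, hz, Dat.y, Finset.mul_sum]
  let w : Fin (D.r j) → BI D x τ j := fun a => Fintype.linearCombination ℂ z (D.u j a (k a))
  have h1 : ∀ a v, v ⬝ᵥ D.p j a = 0 → w a ∣ Fintype.linearCombination ℂ z v := fun a v hv => by
    have h2 := mem_span (by rw [D.n_eq j a.pos.ne']) (D.p_ne j a) (D.u_ind j a) (D.u_p j a) hv
    clear hv
    induction h2 using Submodule.span_induction with
    | mem _ h =>
      obtain ⟨k', rfl⟩ := h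
      refine ⟨ρ (.inr (⟨j, a⟩, k')) rfl, Subtype.ext ?_⟩
      rw [MulMemClass.coe_mul, hΛ, hΛ]
      change _ = _ * (_ / D.y x (τ.1 ⟨j, some a⟩))
      rw [hk, mul_assoc, mul_div_cancel₀ _ (hy _)]
    | zero => simp
    | add _ _ _ _ h h' => rw [map_add]; exact dvd_add h h'
    | smul s _ _ h => rw [map_smul, Algebra.smul_def]; exact h.mul_left _
  have h3 : ∀ a b, a ≠ b → IsCoprime (w a) (w b) := fun a b hab => by
    obtain ⟨m, h4, h5⟩ := exists_dot ((linearIndependent_fin2.1 (D.dist j a b hab)).2 |>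
      fun h => (fun h' => (Submodule.mem_span_singleton.1 h').elim h :
        D.p j a ∉ Submodule.span ℂ {D.p j b}))
    obtain ⟨s, hs⟩ := h1 a (Pi.single l0 1 - D.p j a l0 • m) (by
      rw [sub_dotProduct, smul_dotProduct, h4, single_dotProduct]; simp)
    obtain ⟨s', hs'⟩ := h1 b (D.p j a l0 • m) (by
      rw [smul_dotProduct, h5 _ (Submodule.mem_span_singleton_self _), smul_zero])
    refine ⟨s, s', ?_⟩
    rw [mul_comm s, mul_comm s', ← hs, ← hs', ← map_add, sub_add_cancel,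
      Fintype.linearCombination_apply_single, one_smul]
    exact Subtype.ext ((hz l0).trans (inv_mul_cancel₀ hx))
  obtain ⟨b, hb⟩ : ∏ a, w a ∣ aeval z (D.G c j) :=
    Finset.prod_dvd_of_coprime (fun a _ b _ hab => h3 a b hab) fun a _ =>
      dvd_aeval (D.p_ne j a) (h1 a) (D.G_hom c j) (D.G_p c j a)
  have h6 := congrArg (BI D x τ j).val hb
  rw [← AlgHom.comp_apply, comp_aeval, map_mul, map_prod] at h6
  simp only [Subalgebra.coe_val, hz, w, hΛ] at h6
  rw [aeval_mul (D.G_hom c j), Finset.prod_mul_distrib, Finset.prod_const, Finset.card_fin,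
    inv_pow, inv_pow, inv_mul_eq_iff_eq_mul₀ (pow_ne_zero _ hx)] at h6
  have h7 : ∏ a, D.y x (.inr (⟨j, a⟩, k a)) ≠ 0 := Finset.prod_ne_zero_iff.2 fun a _ => hy _
  have h8 : aeval (x j) (D.G c j) / D.kap x τ j = b := by
    rw [Dat.kap, h0, Finset.prod_congr rfl fun a _ => congrArg (D.y x) (hk a),
      show D.y x (.inl ⟨j, l0⟩) = x j l0 from rfl, zpow_sub₀ hx, zpow_add₀ hx, zpow_natCast,
      zpow_natCast, zpow_one, ← pow_succ, h6]
    field_simp
  exact h8 ▸ b.2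

end Pool.Agent.Lib.MV.Fb
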