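import Pool.Agent.Lib.MV.FibB

open Set Matrix WithZero Pool.Agent.Lib.MP_e39d36_ag Pool.Agent.Lib.MP_e39d36_ag.Var
  Pool.Agent.Lib.MP_cc3443_ag Pool.Agent.Lib.MV.End

noncomputable section

namespace Pool.Agent.Lib.MV.Fb

namespace Iot

variable {K Γ : Type} [Field K] [LinearOrderedCommGroupWithZero Γ] {v : Valuation K Γ}

lemma nm2 (a b : K) : nm v ![a, b] = max (v a) (v b) :=
  le_antisymm (nm_le.2 fun l => by
    fin_cases l
    · exact le_max_left _ _
    · exact le_max_right _ _) (max_le (le_nm ![a, b] 0) (le_nm ![a, b] 1))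

lemma nm3 (q : Fin 3 → K) : nm v q = max (max (v (q 2)) (v (q 1))) (v (q 0)) :=
  le_antisymm (nm_le.2 fun l => by
    fin_cases l
    · exact le_max_right _ _
    · exact (le_max_right _ _).trans (le_max_left _ _)
    · exact (le_max_left _ _).trans (le_max_left _ _))
    (max_le (max_le (le_nm q 2) (le_nm q 1)) (le_nm q 0))

lemma pin {A : Subring K} (hA : RC v A) {q : Fin 3 → K} {s : K} (hq : ∀ i, q i ∈ A)
    (h1 : nm v q = 1) (he : q 2 * s ^ 2 + q 1 * s + q 0 = 0) : Pin v A ![1, s] := by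
  have hu : v (q 2) = 1 ∨ v (q 1) = 1 ∨ v (q 0) = 1 := by
    obtain ⟨l, hl⟩ := exists_nm (v := v) q
    rw [h1] at hl
    fin_cases l
    · exact Or.inr (Or.inr hl.symm)
    · exact Or.inr (Or.inl hl.symm)
    · exact Or.inl hl.symm
  rcases le_total (v s) 1 with hs | hs
  · have hm : s ∈ A := hA.root s 0 (q 2) (q 1) (q 0) hs (zero_mem _) (hq 2) (hq 1) (hq 0)
      (by rw [zero_mul, zero_add, he, map_zero]; exact zero_lt_one) (Or.inr hu)
    refine pin_of_div (j := 0) (by simp) (by rw [nm2, map_one, max_eq_left hs]; simp) fun i => ?_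
    fin_cases i
    · simp
    · simpa using hm
  · have h0 : s ≠ 0 := by
      rintro rfl
      simp at hs
    have hs' : v s⁻¹ ≤ 1 := by rw [map_inv₀]; exact inv_le_one_of_one_le₀ hs
    have e : 0 * s⁻¹ ^ 3 + q 0 * s⁻¹ ^ 2 + q 1 * s⁻¹ + q 2 = 0 := by
      have e0 : s * s⁻¹ = 1 := mul_inv_cancel₀ h0
      linear_combination s⁻¹ ^ 2 * he - (q 1 * s⁻¹ + q 2 * (1 + s * s⁻¹)) * e0
    have hm : s⁻¹ ∈ A := hA.root s⁻¹ 0 (q 0) (q 1) (q 2) hs' (zero_mem _) (hq 0) (hq 1) (hq 2)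
      (by rw [e, map_zero]; exact zero_lt_one) (Or.inr (by tauto))
    refine pin_of_div (j := 1) (by simpa using h0)
      (by rw [nm2, map_one, max_eq_right hs]; simp) fun i => ?_
    fin_cases i
    · simpa using hm
    · simp [h0]

lemma nm_prod {q : Fin 3 → K} {s t : K} (he : q 2 * s ^ 2 + q 1 * s + q 0 = 0)
    (ht : q 2 * (s + t) + q 1 = 0) : nm v q = nm v ![1, s] * (v (q 2) * nm v ![1, t]) := by
  have h := gauss2 (v := v) s 1 (q 2) (q 2 * t)
  have e1 : s * q 2 + 1 * (q 2 * t) = -q 1 := by linear_combination ht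
  have e2 : s * (q 2 * t) = q 0 := by linear_combination s * ht - he
  rw [e1, e2, one_mul, v.map_neg] at h
  rw [nm3, h, nm2, nm2, max_comm (v s), mul_max (v (q 2)), ← map_mul, ← map_mul, mul_one]

end Iot

open Iot in
theorem st_iot (hQ : St_QUAD) (hP : St_PERM0) : St_IOT := by
  intro K _ _ X F
  rcases isEmpty_or_nonempty X.PD with h | ⟨⟨E0⟩⟩
  · exact ⟨AlgEquiv.refl, Equiv.refl _, ⟨fun _ _ => rfl, fun _ _ => rfl⟩,
      LE.of_eq (Finsupp.ext fun E => h.elim E)⟩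
  have h2 : F.q 2 ≠ 0 := by
    intro h2
    obtain ⟨g, B, hB, -, hn, -⟩ := F.loc E0
    have he := F.eq
    rw [h2, zero_mul, zero_add] at he
    have h1 : F.q 1 = 0 := by
      by_contra h1
      refine F.sk ?_
      rw [show F.s = -F.q 0 / F.q 1 by field_simp; linear_combination he]
      exact div_mem (neg_mem (F.qk 0)) (F.qk 1)
    rw [h1, zero_mul, zero_add] at he
    rw [nm3, h2, h1, he, map_zero, max_self, max_self] at hn
    exact (val E0).ne_zero_iff.2 hB.g0 hn.symm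
  obtain ⟨σ, hσ, ht⟩ := hQ F.k K F.s ⟨F.q 2, F.qk 2⟩ ⟨F.q 1, F.qk 1⟩ ⟨F.q 0, F.qk 0⟩
    (fun h => h2 (congrArg Subtype.val h)) F.eq (by rintro ⟨a, ha⟩; exact F.sk (ha ▸ a.2)) F.gen
  replace ht : F.q 2 * (F.s + σ F.s) + F.q 1 = 0 := ht
  have hk : ∀ z ∈ F.k, σ.restrictScalars ℂ z = z := fun z hz => σ.commutes ⟨z, hz⟩
  obtain ⟨e, he⟩ := hP K X (σ.restrictScalars ℂ) hσ fun E => by
    obtain ⟨g, B, hB, hq, hn, hA⟩ := F.loc E
    refine ⟨B, hB.BO, fun z hz => hk z (hB.Bk z hz), fun A hR _ hBA => hA A hR hBA ?_,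
      fun y hy => hB.ctr y _ hy fun z hz => ?_⟩
    · refine pin hR (q := g⁻¹ • F.q) (fun i => hBA (hq i)) ?_ ?_
      · rw [nm_smul, hn, map_inv₀, inv_mul_cancel₀ ((val E).ne_zero_iff.2 hB.g0)]
      · simp only [Pi.smul_apply, smul_eq_mul]
        linear_combination g⁻¹ * F.eq
    · change σ.restrictScalars ℂ z ∈ X.O E.1
      rw [hk z (hB.Bk z hz)]
      exact hB.BO hz
  have hI : Inv F.k (σ.restrictScalars ℂ) e := ⟨hk, he⟩
  refine ⟨_, e, hI, F.q 2, h2, ?_⟩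
  have e1 : (σ.restrictScalars ℂ) ∘ ![1, F.s] = ![1, σ F.s] := by
    funext i
    fin_cases i
    · exact map_one _
    · rfl
  have hne : ∀ t : K, (![1, t] : Fin 2 → K) ≠ 0 := fun t h => one_ne_zero (congrFun h 0)
  rw [hI.push_sd, e1]
  refine Finsupp.ext fun E => ?_
  obtain ⟨g, B, hB, -, hn, -⟩ := F.loc E
  have h3 := (val E).ne_zero_iff.2 h2
  rw [Finsupp.add_apply, Finsupp.sub_apply, sd_apply, sd_apply, div_apply, ord_log, hB.ord, ← hn,
    nm_prod F.eq ht, log_mul (nm_ne (hne _)) (mul_ne_zero h3 (nm_ne (hne _))),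
    log_mul h3 (nm_ne (hne _))]
  ring

end Pool.Agent.Lib.MV.Fb
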