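import Pool.Agent.Lib.MV.FibC

open Set MvPolynomial Pool.Agent.Lib.MP_e39d36_ag Pool.Agent.Lib.MP_e39d36_ag.Var

set_option linter.unusedSectionVars false
set_option linter.unusedVariables false

noncomputable section

namespace Pool.Agent.Lib.MV.Fb

namespace KER2

variable {D : Dat} {K : Type} [Field K] [Algebra ℂ K]

lemma aeval_Fa {R : Type} [CommRing R] [Algebra ℂ R] (g : D.Ax → R) :
    aeval g D.Fa = ∑ c, ∏ i,
      aeval (Fin.cons 1 fun l => g ⟨i, l⟩ : Fin (D.n i + 1) → R) (D.G c i) := by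
  simp only [Dat.Fa, map_sum, map_prod]
  refine Finset.sum_congr rfl fun c _ => Finset.prod_congr rfl fun i _ => ?_
  rw [← AlgHom.comp_apply, comp_aeval]
  refine congrArg (fun h => aeval h (D.G c i)) (funext fun l => ?_)
  refine Fin.cases ?_ (fun l => ?_) l <;> simp

lemma cons_x {x : ∀ i, Fin (D.n i + 1) → K} (h : ∀ i, x i 0 = 1) (i : Fin D.k) :
    (Fin.cons 1 fun l => x i l.succ : Fin (D.n i + 1) → K) = x i :=
  funext fun l => Fin.cases (by simp [h]) (fun l => by simp) l

lemma Fx_aeval {x : ∀ i, Fin (D.n i + 1) → K} (h : ∀ i, x i 0 = 1) :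
    aeval (D.xa x) D.Fa = D.Fx x := by
  rw [aeval_Fa]
  simp only [Dat.xa, cons_x h, Dat.Fx]

/-- The images of the affine coordinates in the polynomial ring of the fibre. -/
def gv (x : ∀ i, Fin (D.n i + 1) → K) (i : Fin D.k) :
    ∀ j, Fin (D.n j) → MvPolynomial (Fin (D.n i)) K :=
  Function.update (fun j l => C (x j l.succ)) i MvPolynomial.X

/-- Substitution of the coordinates of the other factors. -/
def ev (x : ∀ i, Fin (D.n i + 1) → K) (i : Fin D.k) :
    MvPolynomial D.Ax ℂ →ₐ[ℂ] MvPolynomial (Fin (D.n i)) K :=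
  aeval fun w => gv x i w.1 w.2

variable {x : ∀ i, Fin (D.n i + 1) → K} {i : Fin D.k}

lemma gv_self (l : Fin (D.n i)) : gv x i i l = MvPolynomial.X l := by simp [gv]

lemma gv_ne {j : Fin D.k} (h : j ≠ i) (l : Fin (D.n j)) : gv x i j l = C (x j l.succ) := by
  simp [gv, h]

lemma eval_ev (P : MvPolynomial D.Ax ℂ) :
    eval (fun l => x i l.succ) (ev x i P) = aeval (D.xa x) P := by
  induction P using MvPolynomial.induction_on with
  | C a => simp [ev]
  | add p q hp hq => simp only [map_add, hp, hq]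
  | mul_X p w hp =>
    rw [map_mul, map_mul, map_mul, hp, ev, aeval_X, aeval_X]
    obtain ⟨j, l⟩ := w
    by_cases h : j = i
    · subst h; simp [gv_self, Dat.xa]
    · simp [gv_ne h, Dat.xa]

lemma aeval_C' {n : ℕ} (z : Fin n → K) (G : MvPolynomial (Fin n) ℂ) :
    aeval (fun l => (C (z l) : MvPolynomial (Fin (D.n i)) K)) G = C (aeval z G) := by
  induction G using MvPolynomial.induction_on with
  | C a => simp
  | add p q hp hq => simp only [map_add, hp, hq]
  | mul_X p w hp => simp only [map_mul, hp, aeval_X]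

lemma ev_Fa (h : ∀ i, x i 0 = 1) : ev x i D.Fa = Φa D x i := by
  rw [ev, aeval_Fa, Φa, Dat.Φ0, map_sum]
  refine Finset.sum_congr rfl fun c _ => ?_
  rw [map_smul, aeval_map_algebraMap, ← Finset.prod_erase_mul _ _ (Finset.mem_univ i),
    smul_eq_C_mul, map_prod]
  refine congrArg₂ (· * ·) (Finset.prod_congr rfl fun j hj => ?_) ?_
  · rw [← aeval_C']
    refine congrArg (fun g => aeval g (D.G c j)) (funext fun l => ?_)
    refine Fin.cases ?_ (fun l => ?_) l
    · simp [h]
    · simp [gv_ne (Finset.ne_of_mem_erase hj)]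
  · simp only [gv_self]

lemma eval_Φa (h : ∀ i, x i 0 = 1) : eval (fun l => x i l.succ) (Φa D x i) = D.Fx x := by
  rw [← ev_Fa h, eval_ev, Fx_aeval h]

lemma den (h : ∀ i, x i 0 = 1) (a : kI D x i) :
    ∃ b : K, b ≠ 0 ∧ C b ∈ (ev x i).range ∧ C (b * a) ∈ (ev x i).range := by
  have hle : Subring.closure (range (algebraMap ℂ K) ∪ {z | ∃ j, j ≠ i ∧ ∃ l, z = x j l}) ≤
      (ev x i).range.toSubring.comap C := by
    refine Subring.closure_le.2 ?_
    rintro _ (⟨c, rfl⟩ | ⟨j, hj, l, rfl⟩)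
    · exact (ev x i).range.algebraMap_mem c
    · change C (x j l) ∈ (ev x i).range
      refine Fin.cases ?_ (fun l => ?_) l
      · rw [h, C_1]; exact one_mem _
      · exact ⟨MvPolynomial.X ⟨j, l⟩, by simp [ev, gv_ne hj]⟩
  obtain ⟨y, hy, z, hz, e⟩ := Subfield.mem_closure_iff.1 a.2
  by_cases h0 : z = 0
  · refine ⟨1, one_ne_zero, by rw [C_1]; exact one_mem _, ?_⟩
    rw [← e, h0, div_zero, mul_zero, C_0]
    exact zero_mem _
  · exact ⟨z, h0, hle hz, by rw [← e, mul_div_cancel₀ _ h0]; exact hle hy⟩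

lemma den_poly (h : ∀ i, x i 0 = 1) (P : MvPolynomial (Fin (D.n i)) (kI D x i)) :
    ∃ b : K, b ≠ 0 ∧ C b ∈ (ev x i).range ∧
      C b * map (algebraMap (kI D x i) K) P ∈ (ev x i).range := by
  induction P using MvPolynomial.induction_on with
  | C a =>
    obtain ⟨b, h1, h2, h3⟩ := den h a
    exact ⟨b, h1, h2, by rw [map_C, ← C_mul]; exact h3⟩
  | add p q hp hq =>
    obtain ⟨b, h1, h2, h3⟩ := hp
    obtain ⟨b', h1', h2', h3'⟩ := hq
    refine ⟨b * b', mul_ne_zero h1 h1', by rw [C_mul]; exact mul_mem h2 h2', ?_⟩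
    have : C (b * b') * map (algebraMap (kI D x i) K) (p + q) =
        C b' * (C b * map (algebraMap (kI D x i) K) p) +
          C b * (C b' * map (algebraMap (kI D x i) K) q) := by
      rw [map_add, C_mul]; ring
    rw [this]
    exact add_mem (mul_mem h2' h3) (mul_mem h2 h3')
  | mul_X p w hp =>
    obtain ⟨b, h1, h2, h3⟩ := hp
    refine ⟨b, h1, h2, ?_⟩
    rw [map_mul, map_X, ← mul_assoc]
    exact mul_mem h3 ⟨MvPolynomial.X ⟨i, w⟩, by simp [ev, gv_self]⟩

end KER2

open KER2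

theorem st_ker2 (hK : St_KER) : St_KER2 := by
  intro D K _ _ M i
  have h1 := M.hyp.one
  refine ⟨by rw [← Fx_aeval h1]; exact (hK D K M _).2 dvd_rfl, ?_, fun P hP => ?_⟩
  · obtain ⟨S, hS⟩ : ∃ S, S = IntermediateField.adjoin (kI D M.x i) (range (M.x i)) := ⟨_, rfl⟩
    rw [← hS]
    have hk : ∀ z ∈ kI D M.x i, z ∈ S := fun z hz => S.algebraMap_mem ⟨z, hz⟩
    have hx : ∀ j l, M.x j l ∈ S := fun j l => by
      by_cases h : j = i
      · subst h; exact hS ▸ IntermediateField.subset_adjoin _ _ ⟨l, rfl⟩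
      · exact hk _ (x_mem h l)
    have hy : ∀ t, D.y M.x t ∈ S := by
      rintro (t | t)
      · exact hx _ _
      · change ∑ l, D.u t.1.1 t.1.2 t.2 l • M.x t.1.1 l ∈ _
        refine sum_mem fun l _ => ?_
        rw [Algebra.smul_def]
        exact mul_mem (hk _ ((kI D M.x i).algebraMap_mem _)) (hx _ l)
    obtain ⟨η, hη⟩ := M.X.exists_top
    obtain ⟨τ, hτ⟩ := M.hyp.chart η
    have hB : ∀ z ∈ D.B M.x τ, z ∈ S := fun z hz => by
      induction hz using Algebra.adjoin_induction with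
      | mem z hz => obtain ⟨t, rfl⟩ := hz; exact div_mem (hy _) (hy _)
      | algebraMap a => exact hk _ ((kI D M.x i).algebraMap_mem _)
      | add _ _ _ _ ha hb => exact add_mem ha hb
      | mul _ _ _ _ ha hb => exact mul_mem ha hb
    refine eq_top_iff.2 fun z _ => ?_
    obtain ⟨b, hb, hu, hz⟩ := hτ.2 z (by rw [hη]; trivial)
    rw [← mul_div_cancel_left₀ z hu.1]
    exact div_mem (hB _ hz) (hB _ hb)
  · obtain ⟨b, hb, -, P', hP'⟩ := den_poly h1 P
    have h2 : aeval (D.xa M.x) P' = 0 := by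
      rw [← eval_ev (i := i)]
      change eval _ ((ev M.x i).toRingHom P') = 0
      rw [hP', map_mul, eval_map, ← aeval_def, hP, mul_zero]
    have h3 := _root_.map_dvd (ev M.x i) ((hK D K M P').1 h2)
    rw [ev_Fa h1] at h3
    have h4 : Φa D M.x i ∣ C b * map (algebraMap (kI D M.x i) K) P := hP' ▸ h3
    exact ((hb.isUnit.map C).dvd_mul_left).1 h4

theorem st_tr (hK : St_KER2) : St_TR := by
  intro D K _ _ M i hn
  obtain ⟨h0, -, hk⟩ := hK D K M i
  by_contra hc
  push Not at hc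
  have key : ∀ l : Fin (D.n i), Φa D M.x i ≠ 0 ∧ ∀ l', l' ≠ l → (Φa D M.x i).degreeOf l' = 0 := by
    intro l
    obtain ⟨m, hm, hz⟩ : IsAlgebraic (kI D M.x i) (M.x i l.succ) := not_not.1 (hc _)
    obtain ⟨Q, hQ⟩ := hk (m.toMvPolynomial l) (by rw [aeval_toMvPolynomial]; exact hz)
    have hne : map (algebraMap (kI D M.x i) K) (m.toMvPolynomial l) ≠ 0 := fun h =>
      hm (Polynomial.toMvPolynomial_injective l (by
        rw [map_zero]
        exact map_injective _ (algebraMap (kI D M.x i) K).injective (by rw [h, map_zero])))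
    have hne' := hne
    rw [hQ] at hne'
    refine ⟨left_ne_zero_of_mul hne', fun l' hl => ?_⟩
    have h2 : (map (algebraMap (kI D M.x i) K) (m.toMvPolynomial l)).degreeOf l' = 0 := by
      by_contra h
      have h3 := vars_map _ _ (mem_vars_iff_degreeOf_ne_zero.2 h)
      rw [Polynomial.toMvPolynomial_eq_rename_comp, AlgHom.comp_apply] at h3
      obtain ⟨_, -, e⟩ := mem_vars_rename _ _ h3
      exact hl e.symm
    rw [hQ, degreeOf_mul_eq (left_ne_zero_of_mul hne') (right_ne_zero_of_mul hne')] at h2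
    omega
  have hv : (Φa D M.x i).vars = ∅ := Finset.eq_empty_of_forall_notMem fun l hl => by
    refine mem_vars_iff_degreeOf_ne_zero.1 hl ?_
    by_cases h : l = ⟨0, by omega⟩
    · exact (key ⟨1, by omega⟩).2 l (by rw [h]; simp)
    · exact (key _).2 l h
  have h3 := eval_Φa (i := i) M.hyp.one
  have h4 := vars_eq_empty_iff_eq_C.1 hv
  rw [h0, h4, eval_C] at h3
  exact (key ⟨0, by omega⟩).1 (by rw [h4, h3, C_0])

end Pool.Agent.Lib.MV.Fb
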