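import Pool.Agent.Lib.MV.FibB

open Set Matrix WithZero Pool.Agent.Lib.MP_e39d36_ag Pool.Agent.Lib.MP_e39d36_ag.Var
  Pool.Agent.Lib.MP_cc3443_ag Pool.Agent.Lib.MV.End

noncomputable section

namespace Pool.Agent.Lib.MV.Fb

namespace PB

variable {K : Type} [Field K] [Algebra ℂ K] {X : Var K} {γ : CMap X K}

lemma τ_mem {E : X.PD} {a : K} (h : a ∈ X.O (γ.ctr (plc E))) : γ.τ a ∈ X.O E.1 :=
  (CMap.mem_T.1 ((γ.dom_ctr _).1 h)).2

lemma pb_le (hc : ∀ D : X.PD →₀ ℤ, Cart D) {D D' : X.PD →₀ ℤ} {f : X.PD → K} {g : K}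
    (hf : ∀ E, LocEq D (γ.ctr (plc E)) (f E)) (hg : LocEq D γ.c g)
    (h : ∀ E, D' E = X.ord (γ.τ (f E / g)) E.1) : LE (pb γ hc D) D' := by
  have h1 := hg.un ((hc D).lf γ.c)
  refine ⟨γ.τ (g / lf D γ.c), CMap.τ_ne h1, Finsupp.ext fun E => ?_⟩
  have h3 := ((hc D).lf (γ.ctr (plc E))).un (hf E)
  have h4 := ((hf E).mono (γ.ctr_le _)).un hg
  have h5 := h3.mono (γ.ctr_le _)
  have h6 : lf D (γ.ctr (plc E)) / lf D γ.c =
      lf D (γ.ctr (plc E)) / f E * (f E / g * (g / lf D γ.c)) := by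
    have := (hf E).1
    have := hg.1
    field_simp
  have h7 : X.ord (γ.τ (lf D (γ.ctr (plc E)) / f E)) E.1 = 0 :=
    ord_un (CMap.un_T.1 (h3.mono (γ.dom_ctr _).1)).2
  rw [Finsupp.add_apply, pb_apply, Var.div_apply, h, h6, γ.mul _ h5.2.1 _ (h4.mul h1).2.1,
    γ.mul _ h4.2.1 _ h1.2.1, ord_mul (CMap.τ_ne h5) (mul_ne_zero (CMap.τ_ne h4) (CMap.τ_ne h1)),
    ord_mul (CMap.τ_ne h4) (CMap.τ_ne h1), h7, zero_add]

end PB

theorem st_pb : St_PB := by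
  intro K _ _ X γ hc
  refine ⟨fun D h0 hD => ?_, fun ι _ y s hy hs hne => ?_⟩
  · have hg : LocEq D γ.c 1 := .mk' one_ne_zero fun E hE => by simp [hD E hE, ord_val]
    refine ⟨Finsupp.ofSupportFinite _ (pb_fin γ (fun _ => (hc D).lf _) hg), fun E => ?_,
      PB.pb_le hc (fun _ => (hc D).lf _) hg fun _ => rfl⟩
    refine ord_nonneg (f := γ.τ (lf D (γ.ctr (plc E)) / 1)) ?_
    rw [_root_.div_one]
    exact PB.τ_mem (((hc D).lf _).mem h0)
  · obtain ⟨i, hi⟩ := hne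
    have hu := CMap.un_of_ne (hs i) hi
    have hs0 : s ≠ 0 := left_ne_zero_of_mul hu.1
    have hg : LocEq (sd X y) γ.c s := by
      refine (hy.locEq (right_ne_zero_of_mul hu.1) fun j => ?_).of_un ?_
      · rw [← mul_div_mul_left _ _ hs0]
        exact hu.div_mem (hs j)
      · rwa [div_inv_eq_mul]
    choose l hl0 hl using fun E : X.PD => hy (γ.ctr (plc E))
    refine PB.pb_le hc (fun E => hy.locEq (hl0 E) (hl E)) hg fun E => ?_
    have h1 := hg.un ((hy.locEq (hl0 E) (hl E)).mono (γ.ctr_le _))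
    rw [div_inv_eq_mul] at h1
    rw [div_eq_mul_inv, ← mul_inv, mul_comm (y (l E)), CMap.τ_inv' h1, ord_log, map_inv₀, log_inv,
      neg_neg, sd_apply]
    refine congrArg _ (le_antisymm (nm_le.2 fun j => ?_) (le_nm (fun i => γ.τ (s * y i)) (l E)))
    have h2 : s * y j = s * y (l E) * (y j / y (l E)) := by
      have := hl0 E
      field_simp
    rw [h2, γ.mul _ h1.2.1 _ (γ.ctr_le _ (hl E j)), map_mul]
    exact mul_le_of_le_one_right' (((isV E).2 _).1 (PB.τ_mem (hl E j)))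

end Pool.Agent.Lib.MV.Fb
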