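import Pool.Agent.Lib.MV.FibC
import Pool.Agent.Lib.DU.FD

open Set Pool.Agent.Lib.MP_e39d36_ag Pool.Agent.Lib.MP_e39d36_ag.Var Pool.Agent.Lib.DU

set_option linter.unusedSectionVars false
set_option linter.unusedVariables false

noncomputable section

namespace Pool.Agent.Lib.MV.Fb

namespace PBR

variable {K : Type} [Field K] [Algebra ℂ K] {X : Var K}

lemma csm {x : X.Pt} (c : ℂ) {ω : Ω[K⁄ℂ]} (h : ω ∈ frm (X.O x)) : c • ω ∈ frm (X.O x) := by
  have : algebraMap ℂ K c • ω ∈ frm (X.O x) :=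
    (frm (X.O x)).smul_mem (⟨_, X.const_mem x c⟩ : X.O x) h
  rwa [algebraMap_smul] at this

lemma dlog_un {R : Subring K} {u : K} (h : Un R u) : dlog u ∈ frm R :=
  (frm R).smul_mem (⟨_, h.2.2⟩ : R) (Submodule.subset_span ⟨u, h.2.1, rfl⟩)

lemma dlog_zpow {π : K} (h : π ≠ 0) (n : ℤ) : dlog (π ^ n) = (n : ℂ) • dlog π := by
  simp only [dlog]
  rw [Derivation.leibniz_zpow, Int.cast_smul_eq_zsmul, smul_comm (π ^ n)⁻¹ n, smul_smul,
    zpow_sub_one₀ h, ← mul_assoc, inv_mul_cancel₀ (zpow_ne_zero _ h), one_mul]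

/-- The logarithmic differential of a function at a prime divisor. -/
lemma step1 (E : X.PD) {π f : K} (hπ : X.ord π E.1 = 1) (hf : f ≠ 0) :
    dlog f - (X.ord f E.1 : ℂ) • dlog π ∈ frm (X.O E.1) := by
  have h0 : π ≠ 0 := by
    rintro rfl
    rw [ord_val, od_zero] at hπ
    exact zero_ne_one hπ
  rw [← dlog_zpow h0, ← FD.dlog_div hf (zpow_ne_zero _ h0)]
  refine dlog_un ((isV E).un_iff.2 ⟨div_ne_zero hf (zpow_ne_zero _ h0), ?_⟩)
  rw [od_div hf (zpow_ne_zero _ h0), od_zpow, ← ord_val, ← ord_val, hπ]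
  ring

lemma step1s {J : Type} [Fintype J] (c : J → ℂ) (E : X.PD) {π : K} {f : J → K}
    (hπ : X.ord π E.1 = 1) (hf : ∀ j, f j ≠ 0) :
    ∑ j, c j • dlog (f j) - (∑ j, c j * (X.ord (f j) E.1 : ℂ)) • dlog π ∈ frm (X.O E.1) := by
  rw [Finset.sum_smul, ← Finset.sum_sub_distrib]
  refine sum_mem fun j _ => ?_
  rw [mul_smul, ← smul_sub]
  exact csm _ (step1 E hπ (hf j))

lemma step2 (hs : Sm X) {J : Type} [Fintype J] {c : J → ℂ} {W : J → Dv X} {η : Ω[K⁄ℂ]}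
    (h : ∀ (E : X.PD) (π : K), X.ord π E.1 = 1 → η - cmb c W E • dlog π ∈ frm (X.O E.1))
    (z : X.Pt) (f : J → K) (hf : ∀ j, LocEq (W j) z (f j)) :
    η - ∑ j, c j • dlog (f j) ∈ frm (X.O z) := by
  refine hs.reg z _ fun E hE => ?_
  obtain ⟨π, -, hπ⟩ := exists_unif (isV E).1
  rw [← ord_val] at hπ
  have h1 := sub_mem (h E π hπ) (step1s c E hπ fun j => (hf j).1)
  have h2 : cmb c W E = ∑ j, c j * (X.ord (f j) E.1 : ℂ) :=
    Finset.sum_congr rfl fun j _ => by rw [(hf j).eq hE]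
  rw [h2, sub_sub_sub_cancel_right] at h1
  exact h1

end PBR

open PBR in
theorem st_pbr : St_PBR := by
  rintro K _ _ X hs γ J _ c W ⟨η, hη⟩
  have h := step2 hs hη
  have hD := fun j => hs.fac (W j)
  obtain ⟨φ, h1, h2⟩ := FD.exists_pb γ
  obtain ⟨m, h3, -⟩ := FD.exists_lift γ φ h1 h2 (R' := ⊤) le_rfl (fun _ _ => trivial)
    (h γ.c _ fun j => (hD j).lf _)
  refine ⟨φ m, fun E π hπ => ?_⟩
  have hu : ∀ j, Un (X.O γ.c) (lf (W j) (γ.ctr (plc E)) / lf (W j) γ.c) := fun j =>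
    (((hD j).lf _).mono (γ.ctr_le _)).un ((hD j).lf _)
  obtain ⟨m', h4, h5⟩ := FD.exists_lift γ φ h1 h2 (R' := X.O E.1) (γ.ctr_le (plc E))
    (fun a ha => (CMap.mem_T.1 ((γ.dom_ctr (plc E)).1 ha)).2)
    (h (γ.ctr (plc E)) _ fun j => (hD j).lf _)
  have h6 : m' = m - ∑ j, c j • ((⟨_, (hu j).2.2⟩ : X.O γ.c) •
      KaehlerDifferential.D ℂ (X.O γ.c) ⟨_, (hu j).2.1⟩) := by
    apply hs.inj γ.c
    rw [h4, map_sub, h3, map_sum, sub_sub, ← Finset.sum_add_distrib]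
    refine congrArg _ (Finset.sum_congr rfl fun j _ => ?_)
    rw [LinearMap.map_smul_of_tower, map_smul, KaehlerDifferential.map_D, ← smul_add]
    refine congrArg _ ?_
    have := FD.dlog_div ((hD j).lf (γ.ctr (plc E))).1 ((hD j).lf γ.c).1
    rw [eq_sub_iff_add_eq] at this
    rw [← this, add_comm]
    rfl
  have h7 : φ m' = φ m - ∑ j, c j • dlog (γ.τ (lf (W j) (γ.ctr (plc E)) / lf (W j) γ.c)) := by
    rw [h6, map_sub, map_sum]
    refine congrArg _ (Finset.sum_congr rfl fun j _ => ?_)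
    rw [map_smul, h2, h1, dlog, CMap.τ_inv' (hu j)]
  rw [h7] at h5
  have h8 := add_mem h5 (step1s c E hπ fun j => CMap.τ_ne (hu j))
  rw [sub_add_sub_cancel] at h8
  exact h8

end Pool.Agent.Lib.MV.Fb
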