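import Pool.Agent.Lib.MV.FibB

open Set Matrix WithZero Pool.Agent.Lib.MP_e39d36_ag Pool.Agent.Lib.MP_e39d36_ag.Var
  Pool.Agent.Lib.MP_cc3443_ag Pool.Agent.Lib.MV.End

noncomputable section

namespace Pool.Agent.Lib.MV.Fb

namespace PermB

variable {K Γ : Type} [Field K] [LinearOrderedCommGroupWithZero Γ] {v : Valuation K Γ}

lemma eq_one_of_mul {a b : Γ} (ha : a ≤ 1) (hb : b ≤ 1) (h : a * b ^ 2 = 1) : a = 1 :=
  le_antisymm ha (h ▸ mul_le_of_le_one_right' (pow_le_one' hb 2))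

/-- If the generic point is not defined over `A`, the third point stays away from `Q`. -/
lemma ds_thd (hL : St_LN) {A : Subring K} {c : Cf K} {x Q : Fin 3 → K} (hA : RC v A)
    (G : Good v c) (hc : ∀ i j l, c i j l ∈ A) (hQ : ∀ i, Q i ∈ A) (h1 : nm v Q = 1)
    (h2 : nm v (grad c Q) = 1) (hcQ : cub c Q = 0) (hcx : cub c x = 0) (h : x ⨯₃ Q ≠ 0)
    (hn : ¬Pin v A x) : ds v (thd c Q x) Q = 1 := by
  have hp : Pin v A (grad c Q) :=
    ⟨1, by rw [one_smul, h2], fun i => by rw [one_mul]; exact grad_mem hc hQ i⟩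
  have h3 : v (grad c Q ⬝ᵥ x) = nm v (grad c Q) * nm v x :=
    le_antisymm (dot_le _ _) (not_lt.1 fun h4 => hn (hL K Γ v A c x _ hA G hc hcx (left_ne h) hp h4))
  have h4 := G.A2 hcQ hcx h
  rw [pol_eq_dot, h3, h1, h2, one_pow, mul_one, one_mul] at h4
  exact eq_one_of_mul ds_le_one ds_le_one ((mul_eq_right₀ (nm_ne (left_ne h))).1 h4)

end PermB

open PermB in
theorem st_perm (hL : St_LN) (hU : St_UR) (hI : St_INVO) (hP : St_PERM0) : St_PERM := by
  intro K _ _ X J F Q hQ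
  have hgr : grad F.c Q ≠ 0 := by
    intro h0
    obtain ⟨E⟩ := F.nePD
    obtain ⟨g, B, hB⟩ := F.loc E
    obtain ⟨s, -, -, -, h⟩ := hQ.loc E g B hB
    rw [grad_csmul, grad_smul, h0, smul_zero, smul_zero, nm_eq_zero.2 rfl] at h
    exact zero_ne_one h
  obtain ⟨hx, σ, hσ, w, hw, hσx⟩ := hI F.k K F.c F.x Q F.toGen
    (fun i => ⟨⟨_, hQ.mem i⟩, rfl⟩) hQ.cub hgr
  have hk : ∀ z ∈ F.k, σ.restrictScalars ℂ z = z := fun z hz => σ.commutes ⟨z, hz⟩
  have hk' : ∀ z ∈ F.k, σ z = z := hk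
  refine ⟨hx, ?_⟩
  obtain ⟨e, he⟩ := hP K X (σ.restrictScalars ℂ) hσ fun E => by
    obtain ⟨g, B, hB⟩ := F.loc E
    obtain ⟨s, hs, hsB, hn1, hn2⟩ := hQ.loc E g B hB
    have hcx : cub (g⁻¹ • F.c) F.x = 0 := by rw [cub_csmul, F.cx, mul_zero]
    have hcQ : cub (g⁻¹ • F.c) (s • Q) = 0 := by
      rw [cub_csmul, cub_smul, hQ.cub, mul_zero, mul_zero]
    have hx' : F.x ⨯₃ (s • Q) ≠ 0 := by
      rw [map_smul]
      exact smul_ne_zero hs hx
    have halg : ∀ A : Subring K, RC (val E) A → B.toSubring ≤ A → Pin (val E) A F.x →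
        X.O E.1 ≤ A := fun A hR hBA hp => hB.alg A hR hBA hp fun a =>
      (hU K _ (val E) A (g⁻¹ • F.c) F.x (F.P a) hR hB.good (fun i j l => hBA (hB.cB i j l))
        (fun i => hBA (B.algebraMap_mem _)) (F.nm_P a E) (hB.ns a)
        (by rw [cub_csmul, F.cp, mul_zero]) hcx (F.cross_P_ne a)).2 hp
    have hctr : ∀ y, Dom (X.O y) ((X.O E.1).comap
        (σ.restrictScalars ℂ).toRingEquiv.toRingHom) → B.toSubring ≤ X.O y := fun y hy =>
      hB.ctr y _ hy fun z hz => by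
        change σ.restrictScalars ℂ z ∈ X.O E.1
        rw [hk z (hB.Bk z hz)]
        exact hB.BO hz
    by_cases hall : ∀ A : Subring K, RC (val E) A → B.toSubring ≤ A → Pin (val E) A F.x
    · exact ⟨B, hB.BO, fun z hz => hk z (hB.Bk z hz),
        fun A hR _ hBA => halg A hR hBA (hall A hR hBA), hctr⟩
    simp only [not_forall] at hall
    obtain ⟨A0, hR0, hB0, hn0⟩ := hall
    have hds := ds_thd hL hR0 hB.good (fun i j l => hB0 (hB.cB i j l)) (fun i => hB0 (hsB i))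
      hn1 hn2 hcQ hcx hx' hn0
    have hw' : w * g / s ^ 2 ≠ 0 := div_ne_zero (mul_ne_zero hw hB.g0) (pow_ne_zero 2 hs)
    have hσx' : σ ∘ F.x = (w * g / s ^ 2) • thd (g⁻¹ • F.c) (s • Q) F.x := by
      have h1 := thd_smul F.c F.x Q s 1
      rw [one_smul, one_pow, mul_one] at h1
      have h2 : w * g / s ^ 2 * (g⁻¹ * s ^ 2) = w := by
        have := hB.g0
        field_simp
      rw [thd_csmul, h1, smul_smul, smul_smul, mul_assoc, h2, hσx]
    have hσQ : σ ∘ (s • Q) = s • Q := funext fun i => hk' _ (hB.Bk _ (hsB i))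
    set y := F.x ⨯₃ (s • Q) with hy
    set lam := w * g / s ^ 2 * -pol (g⁻¹ • F.c) (s • Q) F.x with hlam
    have hσy : σ ∘ y = lam • y := by
      rw [hy, map_cross, hσQ, hσx', LinearMap.map_smul₂, thd_cross, smul_smul]
    have hσy' : ∀ i, σ (y i) = lam * y i := fun i => congrFun hσy i
    obtain ⟨j, hj⟩ := exists_nm (v := val E) y
    have hj0 : y j ≠ 0 := fun h0 => nm_ne (v := val E) hx' (by rw [hj, h0, map_zero])
    have hl0 : lam ≠ 0 := fun h0 => hj0 (by
      have := hσy' j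
      rwa [h0, zero_mul, map_eq_zero] at this)
    have hvj : 0 < val E (y j) := zero_lt_iff.2 ((val E).ne_zero_iff.2 hj0)
    refine ⟨B ∪ range fun i => y i / y j, ?_, ?_, fun A hR _ hS => ?_, fun z hz => ?_⟩
    · rintro t (ht | ⟨i, rfl⟩)
      · exact hB.BO ht
      · refine ((isV E).2 _).2 ?_
        rw [map_div₀, div_le_one₀ hvj, ← hj]
        exact le_nm y i
    · rintro t (ht | ⟨i, rfl⟩)
      · exact hk t (hB.Bk t ht)
      · change σ (y i / y j) = y i / y j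
        rw [map_div₀, hσy', hσy', mul_div_mul_left _ _ hl0]
    · have hBA : B.toSubring ≤ A := fun t ht => hS (Or.inl ht)
      refine halg A hR hBA (hL K _ (val E) A (g⁻¹ • F.c) F.x y hR hB.good
        (fun i j l => hBA (hB.cB i j l)) hcx F.x_ne
        (pin_of_div hj0 hj.symm fun i => hS (Or.inr ⟨i, rfl⟩)) ?_)
      rw [dotProduct_comm, hy, dot_self_cross, map_zero]
      exact zero_lt_iff.2 (mul_ne_zero (nm_ne hx') (nm_ne F.x_ne))
    · have hBz := hctr z hz
      rintro t (ht | ⟨i, rfl⟩)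
      · exact hBz ht
      obtain ⟨l, hl, hl'⟩ := F.bx z
      have hσl : σ (F.x l) ≠ 0 := (map_ne_zero σ).2 hl
      have hvl : 0 < val E (σ (F.x l)) := zero_lt_iff.2 ((val E).ne_zero_iff.2 hσl)
      have h1 : nm (val E) (σ ∘ F.x) = val E (σ (F.x l)) := by
        refine le_antisymm (nm_le.2 fun i => ?_) (le_nm (σ ∘ F.x) l)
        have h2 : σ (F.x i / F.x l) ∈ X.O E.1 := hz.1 (hl' i)
        have h3 := ((isV E).2 _).1 h2
        rwa [map_div₀, map_div₀, div_le_one₀ hvl] at h3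
      have h2 : σ ∘ y = (σ ∘ F.x) ⨯₃ (s • Q) := by rw [hy, map_cross, hσQ]
      have h3 : (σ ∘ F.x) ⨯₃ (s • Q) ≠ 0 := by
        rw [← h2, hσy]
        exact smul_ne_zero hl0 hx'
      have h4 : ds (val E) (σ ∘ F.x) (s • Q) = 1 := by rw [hσx', ds_smul_left hw', hds]
      have h5 : val E (σ (y j)) = val E (σ (F.x l)) := by
        have h6 := nm_cross (v := val E) h3
        rw [h4, hn1, one_mul, mul_one, h1, ← h2, hσy, nm_smul, hj, ← map_mul, ← hσy'] at h6
        exact h6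
      have h6 : ∀ i, y i / F.x l ∈ X.O z := fun i => by
        have h7 := cross_mem (B := X.O z) (x := fun i => F.x i / F.x l) (y := s • Q) hl'
          (fun i => hBz (hsB i)) i
        have h8 : (fun i => F.x i / F.x l) = (F.x l)⁻¹ • F.x := funext fun i => by
          rw [Pi.smul_apply, smul_eq_mul, div_eq_inv_mul]
        rw [h8, LinearMap.map_smul₂, Pi.smul_apply, smul_eq_mul, ← div_eq_inv_mul] at h7
        exact h7
      have h7 : Un (X.O z) (y j / F.x l) := by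
        refine hz.2 _ (h6 j) ⟨div_ne_zero hj0 hl, hz.1 (h6 j), ?_⟩
        change σ (y j / F.x l)⁻¹ ∈ X.O E.1
        refine ((isV E).2 _).2 ?_
        rw [inv_div, map_div₀, map_div₀, h5, div_self hvl.ne']
      have h8 := h7.div_mem (h6 i)
      rwa [div_div_div_cancel_right₀ hl] at h8
  exact ⟨σ.restrictScalars ℂ, e, ⟨hk, he⟩, w, hw, hσx⟩

end Pool.Agent.Lib.MV.Fb
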