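import Pool.Agent.Lib.MV.FibA

open Matrix WithZero Pool.Agent.Lib.MP_e39d36_ag Pool.Agent.Lib.MP_e39d36_ag.Var

noncomputable section

namespace Pool.Agent.Lib.MV.Fb

theorem st_perm0 (hD : St_DIM) (hP : St_PRM) (hE : St_EXT) : St_PERM0 := by
  intro K _ _ X σ hσ h
  obtain ⟨n, h1, h2⟩ := hD K X
  have key : ∀ E : X.PD, ∃ F : X.PD, ∀ f, val F f = val E (σ f) := by
    intro E
    obtain ⟨S, s1, s2, s3, s4⟩ := h E
    let V : Subring K := (X.O E.1).comap σ.toRingEquiv.toRingHom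
    let w : Valuation K ℤᵐ⁰ := (val E).comap σ.toRingEquiv.toRingHom
    have hV : ∀ z, z ∈ V ↔ σ z ∈ X.O E.1 := fun _ => Iff.rfl
    have hw : IsV w V := ⟨(isV E).1.comp σ.surjective, fun z => (isV E).2 (σ z)⟩
    obtain ⟨i, hi⟩ := X.exists_chart_val ⟨V, hw.val⟩ fun a => by
      change σ _ ∈ X.O E.1
      rw [σ.commutes]
      exact X.const_mem _ a
    obtain ⟨y, hy, -⟩ := exists_centre (isLoc_of_val hw.val) hi
    obtain ⟨a, a1, a2⟩ := hE K (val E) (X.O E.1) S n (isV E) (X.const_mem _) s1 s3 (h1 E)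
    obtain ⟨F, hF⟩ := hP K X n h2 w V y hw hy ⟨a, fun j => s4 y hy (a1 j), fun P hP0 => by
      have e : σ (MvPolynomial.aeval a P) = MvPolynomial.aeval a P := by
        have := MvPolynomial.comp_aeval_apply a σ.toAlgHom P
        rw [show (fun j => σ.toAlgHom (a j)) = a from funext fun j => s2 _ (a1 j)] at this
        exact this
      obtain ⟨b1, b2, b3⟩ := a2 P hP0
      exact ⟨b1, (hV _).2 (by rwa [e]), (hV _).2 (by rwa [map_inv₀, e])⟩⟩
    exact ⟨F, fun f => by rw [(isV F).unique (hF ▸ hw)]; rfl⟩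
  choose e he using key
  have hi : Function.Involutive e := fun E => pd_eq fun z hz => by
    rw [(isV _).2] at hz ⊢
    rwa [he, he, hσ] at hz
  exact ⟨hi.toPerm e, fun f E => (he E (σ f)).trans (by rw [hσ])⟩

end Pool.Agent.Lib.MV.Fb
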