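import Pool.Agent.Lib.MV.FibB

open Set Matrix WithZero Pool.Agent.Lib.MP_e39d36_ag Pool.Agent.Lib.MP_e39d36_ag.Var
  Pool.Agent.Lib.MP_cc3443_ag Pool.Agent.Lib.MV.End

set_option linter.unusedSectionVars false
set_option linter.unusedVariables false

noncomputable section

namespace Pool.Agent.Lib.MV.Fb

namespace RESF

variable {K : Type} [Field K] [Algebra ℂ K] {X : Var K} {γ : CMap X K} {R : X.PD}

lemma tau_cross {u w : Fin 3 → K} (hu : ∀ i, u i ∈ X.O γ.c) (hw : ∀ i, w i ∈ X.O γ.c) :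
    γ.τ ∘ (u ⨯₃ w) = (γ.τ ∘ u) ⨯₃ (γ.τ ∘ w) := by
  have h1 := map_cross (x := fun i => (⟨u i, hu i⟩ : X.O γ.c)) (y := fun i => ⟨w i, hw i⟩) γ.hom
  have h2 := map_cross (x := fun i => (⟨u i, hu i⟩ : X.O γ.c)) (y := fun i => ⟨w i, hw i⟩)
    (X.O γ.c).subtype
  have h3 : u ⨯₃ w = (X.O γ.c).subtype ∘
      ((fun i => (⟨u i, hu i⟩ : X.O γ.c)) ⨯₃ fun i => ⟨w i, hw i⟩) := h2.symm
  rw [h3]
  exact h1

lemma un_val {z : K} (h : Un (X.O R.1) z) : val R z = 1 := by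
  have := (isV R).un_iff.1 h
  rw [val_eq_exp this.1, this.2]; rfl

lemma val_un {z : K} (h : val R z = 1) : Un (X.O R.1) z :=
  (isV R).un_iff.2 ⟨by rintro rfl; simp at h, by simp [od, h]⟩

lemma exists_res (hR : γ.c = R.1) {y Q : Fin 3 → K} (hy : y ≠ 0)
    (hQ : ∀ i, Q i ∈ X.O R.1 ∧ γ.τ (Q i) = Q i) (h1 : nm (val R) Q = 1)
    (h2 : ds (val R) y Q < 1) :
    ∃ s θ : K, θ ≠ 0 ∧ (∀ i, (s • y) i ∈ X.O γ.c) ∧ γ.τ ∘ (s • y) = θ • Q := by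
  obtain ⟨a, ha, -, h3⟩ := exists_prim (v := val R) hy
  have h4 : ∀ i, (a⁻¹ • y) i ∈ X.O γ.c := fun i =>
    hR ▸ ((isV R).2 _).2 (h3 ▸ le_nm (a⁻¹ • y) i)
  have hQ0 : Q ≠ 0 := fun h => by
    rw [h, nm_eq_zero.2 rfl] at h1
    exact zero_ne_one h1
  have h5 : ∀ i, Q i ∈ X.O γ.c := fun i => hR ▸ (hQ i).1
  have h6 : γ.τ ∘ Q = Q := funext fun i => (hQ i).2
  have h7 : nm (val R) ((a⁻¹ • y) ⨯₃ Q) < 1 := by
    rw [← ds_prim h3 h1, ds_smul_left (inv_ne_zero ha)]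
    exact h2
  have h8 : (γ.τ ∘ (a⁻¹ • y)) ⨯₃ Q = 0 := by
    rw [← h6, ← tau_cross h4 h5]
    funext i
    refine γ.zero _ (cross_mem h4 h5 i) fun hu => ?_
    rw [hR] at hu
    exact ((le_nm _ i).trans_lt h7).ne (un_val hu)
  obtain ⟨θ, hθ⟩ := eq_smul_of_cross hQ0 h8
  refine ⟨a⁻¹, θ, ?_, h4, hθ⟩
  rintro rfl
  obtain ⟨l, hl⟩ := exists_nm (v := val R) (a⁻¹ • y)
  have h9 : Un (X.O γ.c) ((a⁻¹ • y) l) := hR ▸ val_un (hl.symm.trans h3)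
  exact CMap.τ_ne h9 (by simpa using congrFun hθ l)

lemma le_res (hPB : St_PB) (hc : ∀ D : X.PD →₀ ℤ, Cart D) {ι : Type} [Fintype ι] {y Q : ι → K}
    (hy : Bpf X y) (hQ : Q ≠ 0) {s θ : K} (hθ : θ ≠ 0) (h1 : ∀ i, (s • y) i ∈ X.O γ.c)
    (h2 : γ.τ ∘ (s • y) = θ • Q) : LE (pb γ hc (sd X y)) (sd X Q) := by
  obtain ⟨l, hl⟩ := Function.ne_iff.1 hQ
  have h3 := (hPB K X γ hc).2 ι y s hy h1 ⟨l, fun h => mul_ne_zero hθ hl
    ((congrFun h2 l).symm.trans h)⟩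
  have h4 : (fun i => γ.τ (s * y i)) = θ • Q := h2
  rw [h4] at h3
  exact h3.trans (LE_sd_smul hθ hQ)

end RESF

open RESF in
theorem st_resf (hPB : St_PB) (hUR : St_UR) : St_RESF := by
  intro K _ _ X J F hc a R γ he hR hk
  have hP : ∀ b i, F.P b i ∈ X.O R.1 ∧ γ.τ (F.P b i) = F.P b i := fun b i => hk _ (F.P_mem b i)
  have hd : ds (val R) F.x (F.P a) < 1 := by
    refine ds_le_one.lt_of_ne fun h => ?_
    have h1 := dd_apply (F.cross_P_ne a) R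
    rw [← F.e_eq, he, h, Finsupp.single_eq_same, log_one] at h1
    omega
  obtain ⟨s, θ, hθ, h1, h2⟩ := exists_res hR F.x_ne (hP a) (F.nm_P a R) hd
  refine ⟨?_, ?_, fun b hb => ?_, fun ι _ y hy hyk => ?_⟩
  · have := le_res hPB hc F.bx (F.P_ne a) hθ h1 h2
    rwa [sd_const (F.p0 a)] at this
  · obtain ⟨g, B, hB⟩ := F.loc R
    have hg : g⁻¹ ≠ 0 := inv_ne_zero hB.g0
    have h3 := (((hUR K _ (val R) (X.O R.1) (g⁻¹ • F.c) F.x (F.P a) (rc_self R) hB.good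
      (fun i j l => hB.BO (hB.cB i j l)) (fun i => (hP a i).1) (F.nm_P a R) (hB.ns a)
      (by rw [cub_csmul, F.cp a, mul_zero]) (by rw [cub_csmul, F.cx, mul_zero])
      (F.cross_P_ne a)).1 hd).2).2
    rw [grad_csmul, ds_smul_right hg] at h3
    have h4 : ∀ i, grad F.c (F.P a) i ∈ F.k := grad_mem F.ck (F.P_mem a)
    have h5 : grad F.c (F.P a) ≠ 0 := fun h => by
      have := hB.ns a
      rw [grad_csmul, h, smul_zero, nm_eq_zero.2 rfl] at this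
      exact zero_ne_one this
    obtain ⟨s', θ', hθ', h6, h7⟩ := exists_res hR (F.cross_P_ne a) (fun i => hk _ (h4 i))
      (nm_hor (fun z hz => (hk z hz).1) h4 h5) h3
    rw [F.κ_eq a]
    exact le_res hPB hc (F.bp a) h5 hθ' h6 h7
  · have h3 : ∀ i, F.P b i ∈ X.O γ.c := fun i => hR ▸ (hP b i).1
    have h4 : s • (F.x ⨯₃ F.P b) = (s • F.x) ⨯₃ F.P b := by
      rw [map_smul, LinearMap.smul_apply]
    have h5 : F.P a ⨯₃ F.P b = algebraMap ℂ K ∘ (F.p a ⨯₃ F.p b) :=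
      (map_cross (algebraMap ℂ K)).symm
    have h6 : F.p a ⨯₃ F.p b ≠ 0 := F.pp a b hb.symm
    have h7 : algebraMap ℂ K ∘ (F.p a ⨯₃ F.p b) ≠ 0 := fun h => by
      obtain ⟨l, hl⟩ := Function.ne_iff.1 h6
      exact hl ((map_eq_zero _).1 (congrFun h l))
    have := le_res hPB hc (F.bp b) h7 (s := s) hθ (by rw [h4]; exact cross_mem h1 h3) (by
      rw [h4, tau_cross h1 h3, h2, show γ.τ ∘ F.P b = F.P b from funext fun i => (hP b i).2,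
        map_smul, LinearMap.smul_apply, h5])
    rwa [sd_const h6] at this
  · obtain ⟨l, hl, -⟩ := hy γ.c
    refine le_res hPB hc hy (Function.ne_iff.2 ⟨l, hl⟩) (s := 1) one_ne_zero (fun i => ?_) ?_
    · rw [one_smul, hR]; exact (hk _ (hyk i)).1
    · rw [one_smul]; exact funext fun i => (hk _ (hyk i)).2

end Pool.Agent.Lib.MV.Fb
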