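import Pool.Agent.Lib.MV.FibB

open Set Matrix WithZero Pool.Agent.Lib.MP_e39d36_ag Pool.Agent.Lib.MP_e39d36_ag.Var
  Pool.Agent.Lib.MP_cc3443_ag Pool.Agent.Lib.MV.End

set_option linter.unusedSectionVars false
set_option linter.unusedVariables false

noncomputable section

namespace Pool.Agent.Lib.MV.Fb

namespace SEC

variable {K : Type} [Field K] [Algebra ℂ K] {X : Var K}

/-- The residue map of a prime divisor whose residue field is `k`. -/
lemma exists_cmap {k : IntermediateField ℂ K} {R : X.PD} (hk : k.toSubring ≤ X.O R.1)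
    (hr : ∀ z, val R z ≤ 1 → ∃ a : K, a ∈ k ∧ val R (z - a) < 1) :
    ∃ γ : CMap X K, γ.c = R.1 ∧ ∀ z ∈ k, γ.τ z = z := by
  have hr' : ∀ z : K, ∃ a : K, z ∈ X.O R.1 → a ∈ k ∧ val R (z - a) < 1 := fun z => by
    by_cases h : z ∈ X.O R.1
    · obtain ⟨a, ha⟩ := hr z (((isV R).2 z).1 h)
      exact ⟨a, fun _ => ha⟩
    · exact ⟨0, fun h' => absurd h' h⟩
  choose τ hτ using hr'
  have hu : ∀ z ∈ X.O R.1, ∀ u ∈ k, val R (z - u) < 1 → τ z = u := fun z hz u hu h => by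
    by_contra h0
    have h1 := val_hor hk (sub_mem (hτ z hz).1 hu) (sub_ne_zero.2 h0)
    have h2 : val R ((z - u) - (z - τ z)) < 1 := (val R).map_sub_lt h (hτ z hz).2
    rw [show z - u - (z - τ z) = τ z - u by ring, h1] at h2
    exact lt_irrefl _ h2
  have hz : ∀ z ∈ k, τ z = z := fun z h => hu z (hk h) z h (by simp)
  refine ⟨⟨R.1, τ, fun a ha b hb => ?_, fun a ha b hb => ?_, fun a => hz _ (k.algebraMap_mem a),
    fun a ha h => ?_⟩, rfl, hz⟩
  · refine hu _ (add_mem ha hb) _ (add_mem (hτ a ha).1 (hτ b hb).1) ?_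
    rw [show a + b - (τ a + τ b) = (a - τ a) + (b - τ b) by ring]
    exact (val R).map_add_lt (hτ a ha).2 (hτ b hb).2
  · refine hu _ (mul_mem ha hb) _ (mul_mem (hτ a ha).1 (hτ b hb).1) ?_
    rw [show a * b - τ a * τ b = (a - τ a) * b + τ a * (b - τ b) by ring]
    refine (val R).map_add_lt ?_ ?_ <;> rw [map_mul]
    · exact mul_lt_one_of_lt_of_le (hτ a ha).2 (((isV R).2 b).1 hb)
    · rw [mul_comm]
      exact mul_lt_one_of_lt_of_le (hτ b hb).2 (((isV R).2 _).1 (hk (hτ a ha).1))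
  · refine hu a ha 0 k.zero_mem ?_
    rw [sub_zero]
    refine (((isV R).2 a).1 ha).lt_of_ne fun h1 => h ⟨?_, ha, ((isV R).2 _).2 ?_⟩
    · rintro rfl; simp at h1
    · rw [map_inv₀, h1, inv_one]

end SEC

theorem st_sec (hVT : St_VT) (hS : St_SEC0) : St_SEC := by
  intro K _ _ X J F a h0
  have hx := F.cross_P_ne a
  have key : ∀ E : X.PD, F.e a E ≠ 0 →
      ds (val E) F.x (F.P a) < 1 ∧ F.k.toSubring ≤ X.O E.1 := fun E hE => by
    have h1 : ds (val E) F.x (F.P a) ≠ 1 := fun h => hE (by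
      rw [F.e_eq, dd_apply hx, h, log_one, neg_zero])
    exact ⟨ds_le_one.lt_of_ne h1, of_not_not fun h =>
      h1 (hVT K X J F E h _ (F.P_mem a) (F.P_ne a))⟩
  obtain ⟨R, hR⟩ := Finsupp.ne_iff.1 h0
  obtain ⟨h1, h2⟩ := key R hR
  have hg : grad F.c (F.P a) ≠ 0 := fun h => by
    obtain ⟨g, B, hC⟩ := F.loc R
    have := hC.ns a
    rw [grad_csmul, h, smul_zero, nm_eq_zero.2 rfl] at this
    exact zero_ne_one this
  obtain ⟨e1, e2, e3⟩ := hS F.k K F.c F.x (F.P a) F.toGen (fun i => ⟨⟨_, F.P_mem a i⟩, rfl⟩)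
    (F.cp a) hg hx (val R) (isV R).1 (fun z => ((isV R).2 _).1 (h2 z.2)) h1
  obtain ⟨γ, g1, g2⟩ := SEC.exists_cmap h2 fun z hz => by
    obtain ⟨u, hu⟩ := e2 z hz
    exact ⟨u, u.2, hu⟩
  refine ⟨R, Finsupp.ext fun E => ?_, γ, g1, fun z hz => ⟨h2 hz, g2 z hz⟩⟩
  by_cases hE : E = R
  · rw [hE, Finsupp.single_eq_same, F.e_eq, dd_apply hx, e1, log_exp, neg_neg]
  · rw [Finsupp.single_eq_of_ne hE]
    by_contra h3
    obtain ⟨h4, h5⟩ := key E h3
    have h6 := e3 (val E) (isV E).1 (fun z => ((isV E).2 _).1 (h5 z.2)) h4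
    exact hE (pd_eq fun z hz => ((isV R).2 z).2 (h6 ▸ ((isV E).2 z).1 hz))

end Pool.Agent.Lib.MV.Fb
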