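import Pool.Agent.Lib.MV.FibB

open Set Matrix WithZero Pool.Agent.Lib.MP_e39d36_ag Pool.Agent.Lib.MP_e39d36_ag.Var
  Pool.Agent.Lib.MV.End

noncomputable section

namespace Pool.Agent.Lib.MV.Fb

namespace Sige

variable {K : Type} [Field K] [Algebra ℂ K] {X : Var K} {J : Type} (F : Fib X J)

lemma vert (hV : St_VT) {σ : K ≃ₐ[ℂ] K} {e : X.PD ≃ X.PD} (h : Inv F.k σ e) {E : X.PD}
    (hE : ¬F.k.toSubring ≤ X.O E.1) {Q : Fin 3 → K} (hQ : ∀ i, Q i ∈ F.k) (h0 : Q ≠ 0) :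
    ds (val E) (σ ∘ F.x) Q = 1 := by
  have h1 := h.ds F.x Q (e.symm E)
  have h2 := h.hor (e.symm E)
  rw [e.apply_symm_apply] at h1 h2
  rw [h.fix hQ] at h1
  rw [h1]
  exact hV K X J F _ (fun h3 => hE (h2.2 h3)) Q hQ h0

lemma hor {E : X.PD} (hE : F.k.toSubring ≤ X.O E.1) {P Q : Fin 3 → K} (hP : ∀ i, P i ∈ F.k)
    (hQ : ∀ i, Q i ∈ F.k) : ds (val E) P Q = 1 ∨ P ⨯₃ Q = 0 := by
  refine or_iff_not_imp_right.2 fun h => ?_
  rw [ds_prim (nm_hor hE hP (left_ne h)) (nm_hor hE hQ (right_ne h)),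
    nm_hor hE (cross_mem hP hQ) h]

lemma cross_map {σ : K ≃ₐ[ℂ] K} {e : X.PD ≃ X.PD} (h : Inv F.k σ e) {Q : Fin 3 → K}
    (hQ : ∀ i, Q i ∈ F.k) (h0 : Q ≠ 0) : (σ ∘ F.x) ⨯₃ Q ≠ 0 := fun h1 => by
  rw [← h.fix hQ, ← map_cross] at h1
  exact F.cross_ne hQ h0 (funext fun i => (map_eq_zero σ).1 (congrFun h1 i))

lemma ds_thd {v : Valuation K ℤᵐ⁰} {g s w : K} (hg : g ≠ 0) (hs : s ≠ 0) (hw : w ≠ 0)
    (Q P : Fin 3 → K) : ds v (thd (g⁻¹ • F.c) (s • Q) F.x) P = ds v (w • thd F.c Q F.x) P := by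
  have h1 := thd_smul F.c F.x Q s 1
  rw [one_smul] at h1
  rw [thd_csmul, h1, ds_smul_left (inv_ne_zero hg), ds_smul_left (by simpa using hs),
    ds_smul_left hw]

end Sige

theorem st_sige (hP : St_PERM) (hV : St_VT) (hH : St_SIGH) : St_SIGE := by
  intro K _ _ X J F a
  obtain ⟨l, hl⟩ := Function.ne_iff.1 (F.p0 a)
  have hm0 : (Pi.single l (F.p a l)⁻¹ : Fin 3 → ℂ) ⬝ᵥ F.p a = 1 := by
    rw [single_dotProduct, inv_mul_cancel₀ hl]
  have hm1 : (Pi.single l (F.p a l)⁻¹ : Fin 3 → ℂ) ≠ 0 := fun h => by simp [h] at hm0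
  generalize (Pi.single l (F.p a l)⁻¹ : Fin 3 → ℂ) = m₀ at hm0 hm1
  set m : Fin 3 → K := algebraMap ℂ K ∘ m₀ with hmdef
  have hmp : m ⬝ᵥ F.P a = 1 := by rw [hmdef, ← map_dot, hm0, map_one]
  have hm : ∀ E : X.PD, nm (val E) m ≤ 1 := fun E => (nm_const E hm1).le
  set q := tq F.c (F.P a) m with hq
  have hqk : ∀ i, q i ∈ F.k := tq_mem F.ck (F.P_mem a) fun i => F.k.algebraMap_mem _
  have hc0 : ∀ (g : K) {y : Fin 3 → K}, cub F.c y = 0 → cub (g⁻¹ • F.c) y = 0 := fun g y h => by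
    rw [cub_csmul, h, mul_zero]
  have hs : ∀ g : K, tq (g⁻¹ • F.c) (F.P a) m = g⁻¹ ^ 4 • q := fun g => tq_csmul ..
  have hn1 : ∀ {E g B}, F.Ch E g B → nm (val E) (g⁻¹ ^ 4 • q) = 1 := fun {E g B} h =>
    hs g ▸ h.good.nm_tq (F.nm_P a E) (hm E) hmp (hc0 g (F.cp a)) (h.ns a)
  have hn2 : ∀ {E g B}, F.Ch E g B → nm (val E) (grad (g⁻¹ • F.c) (g⁻¹ ^ 4 • q)) = 1 :=
    fun {E g B} h => hs g ▸ h.good.ns_tq (F.nm_P a E) (hm E) hmp (hc0 g (F.cp a)) (h.ns a)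
  have hcq : cub F.c q = 0 := cub_tq (F.cp a)
  have hpt : F.Pt q := ⟨hqk, hcq, fun E g B h => ⟨g⁻¹ ^ 4, pow_ne_zero _ (inv_ne_zero h.g0),
    hs g ▸ tq_mem h.cB (fun i => B.algebraMap_mem _) fun i => B.algebraMap_mem _, hn1 h, hn2 h⟩⟩
  obtain ⟨hxq, σ, e, hI, w, hw, hσ⟩ := hP K X J F q hpt
  have hq0 : q ≠ 0 := right_ne hxq
  have hxa := F.cross_P_ne a
  have hC : ∀ {E g B}, F.Ch E g B → (val E g)⁻¹ * val E (pol F.c (F.P a) F.x) =
      ds (val E) F.x (F.P a) ^ 2 * ds (val E) F.x q * nm (val E) F.x := fun {E g B} h => by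
    have h1 := h.good.C (F.nm_P a E) (hm E) hmp (hc0 g (F.cp a)) (h.ns a) F.x_ne (hc0 g F.cx)
    rwa [hs, ds_smul_right (pow_ne_zero _ (inv_ne_zero h.g0)), pol_csmul, map_mul, map_inv₀] at h1
  have hf : pol F.c (F.P a) F.x ≠ 0 := fun h0 => by
    obtain ⟨E⟩ := F.nePD
    obtain ⟨g, B, h⟩ := F.loc E
    have h1 := hC h
    rw [h0, map_zero, mul_zero] at h1
    exact mul_ne_zero (mul_ne_zero (pow_ne_zero _ (ds_ne hxa)) (ds_ne hxq)) (nm_ne F.x_ne) h1.symm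
  have hdd : LE (dd X F.x q) (F.H - (2 : ℤ) • F.e a + F.κ) := ⟨_, hf, Finsupp.ext fun E => by
    obtain ⟨g, B, h⟩ := F.loc E
    have h1 := congrArg log (hC h)
    rw [log_mul (inv_ne_zero ((val E).ne_zero_iff.2 h.g0)) ((val E).ne_zero_iff.2 hf), log_inv,
      log_mul (mul_ne_zero (pow_ne_zero _ (ds_ne hxa)) (ds_ne hxq)) (nm_ne F.x_ne),
      log_mul (pow_ne_zero _ (ds_ne hxa)) (ds_ne hxq), log_pow] at h1
    rw [Finsupp.add_apply, Finsupp.add_apply, Finsupp.sub_apply, Finsupp.smul_apply, F.e_eq,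
      dd_apply hxq, dd_apply hxa, div_apply, ord_log, h.ord, Fib.H, sd_apply]
    simp only [smul_eq_mul, nsmul_eq_mul] at h1 ⊢
    push_cast at h1
    linarith⟩
  have hth : thd F.c q F.x ≠ 0 := fun h0 => by
    have h1 := congrFun hσ 0
    rw [h0, smul_zero, Function.comp_apply, F.x0, map_one] at h1
    exact one_ne_zero h1
  have hA : sd X (thd F.c q F.x) = (2 : ℤ) • F.H + (9 : ℤ) • F.κ - (3 : ℤ) • dd X F.x q :=
    Finsupp.ext fun E => by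
      obtain ⟨g, B, h⟩ := F.loc E
      have hg := (val E).ne_zero_iff.2 h.g0
      have h1 := congrArg log (h.good.A (hc0 g hcq) (hc0 g F.cx) hxq)
      have h2 := congrArg log (hn1 h)
      rw [nm_smul, map_pow, map_inv₀, log_mul (pow_ne_zero _ (inv_ne_zero hg)) (nm_ne hq0), log_pow,
        log_inv, log_one] at h2
      rw [thd_csmul, nm_smul, map_inv₀, log_mul (inv_ne_zero hg) (nm_ne hth), log_inv,
        log_mul (pow_ne_zero _ (ds_ne hxq)) (mul_ne_zero (pow_ne_zero _ (nm_ne F.x_ne))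
          (pow_ne_zero _ (nm_ne hq0))), log_mul (pow_ne_zero _ (nm_ne F.x_ne))
          (pow_ne_zero _ (nm_ne hq0)), log_pow, log_pow, log_pow] at h1
      rw [Finsupp.sub_apply, Finsupp.add_apply, Finsupp.smul_apply, Finsupp.smul_apply,
        Finsupp.smul_apply, dd_apply hxq, h.ord, Fib.H, sd_apply, sd_apply]
      simp only [smul_eq_mul, nsmul_eq_mul] at h1 h2 ⊢
      push_cast at h1 h2
      linarith
  have hxs : ∀ {g : K}, g ≠ 0 → F.x ⨯₃ (g⁻¹ ^ 4 • q) ≠ 0 := fun hg => by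
    rw [map_smul]; exact smul_ne_zero (pow_ne_zero _ (inv_ne_zero hg)) hxq
  have hsk : ∀ {g : K}, g ∈ F.k → ∀ i, (g⁻¹ ^ 4 • q) i ∈ F.k := fun hg i =>
    mul_mem (pow_mem (inv_mem hg) 4) (hqk i)
  refine ⟨σ, e, hI, ?_, LE.of_eq ?_, fun b hb => ?_⟩
  · rw [Fib.H, hI.push_sd, hσ]
    refine (LE_sd_smul hw hth).trans ?_
    rw [hA]
    exact ((LE.refl _).sub (hdd.zsmul 3)).trans (LE.of_eq (by rw [Fib.H]; module))
  · rw [F.e_eq, hI.push_dd, hI.fix (F.P_mem a)]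
    refine Finsupp.ext fun E => ?_
    rw [dd_apply (Sige.cross_map F hI (F.P_mem a) (F.P_ne a)), dd_apply hxa]
    by_cases hE : F.k.toSubring ≤ X.O E.1
    · obtain ⟨g, B, h⟩ := F.loc E
      have h1 := h.good.D (F.nm_P a E) (hm E) hmp (hc0 g (F.cp a)) (h.ns a) (hc0 g F.cx) hxa
        (hs g ▸ hxs h.g0) (hs g ▸ Sige.hor F hE (hsk h.gk) (F.P_mem a))
      rw [hs, Sige.ds_thd F h.g0 (pow_ne_zero _ (inv_ne_zero h.g0)) hw] at h1
      rw [hσ, h1]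
    · rw [Sige.vert F hV hI hE (F.P_mem a) (F.P_ne a), hV K X J F E hE _ (F.P_mem a) (F.P_ne a)]
  · obtain ⟨σ', e', hI', ⟨w', hw', hσ'⟩, l1, -, l3⟩ := hH K X J F b
    have h0 : push e (F.e b) = push e' (dd X F.x q) := by
      rw [F.e_eq, hI.push_dd, hI.fix (F.P_mem b), hI'.push_dd, hI'.fix hqk]
      refine Finsupp.ext fun E => ?_
      rw [dd_apply (Sige.cross_map F hI (F.P_mem b) (F.P_ne b)),
        dd_apply (Sige.cross_map F hI' hqk hq0)]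
      by_cases hE : F.k.toSubring ≤ X.O E.1
      · obtain ⟨g, B, h⟩ := F.loc E
        have h4 := pow_ne_zero 4 (inv_ne_zero h.g0)
        have h1 := h.good.E (hc0 g (by rw [cub_smul, hcq, mul_zero])) (hc0 g (F.cp b)) (hc0 g F.cx)
          (hxs h.g0) (F.cross_P_ne b) (Sige.hor F hE (hsk h.gk) (F.P_mem b))
          (by rw [NS, hn1 h, hn2 h, one_pow]) (by rw [NS, F.nm_P, one_pow]; exact h.ns b)
        have h2 := Sige.ds_thd F (v := val E) h.g0 one_ne_zero hw' (F.P b) q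
        rw [one_smul] at h2
        rw [Sige.ds_thd F h.g0 h4 hw, ds_smul_right h4, h2] at h1
        rw [hσ, hσ', h1]
      · rw [Sige.vert F hV hI hE (F.P_mem b) (F.P_ne b), Sige.vert F hV hI' hE hqk hq0]
    have hκ : push e' F.κ = F.κ := by
      rw [F.κ_eq a]; exact hI'.push_fix (grad_mem F.ck (F.P_mem a))
    rw [h0]
    refine (hdd.push hI'.ps).trans ?_
    rw [map_add, map_sub, map_zsmul, hκ]
    exact ((l1.sub ((l3 a hb.symm).zsmul 2)).add (LE.refl _)).trans (LE.of_eq (by module))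

end Pool.Agent.Lib.MV.Fb
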