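import Pool.Agent.Lib.MV.FibB

open Set Matrix WithZero Pool.Agent.Lib.MP_e39d36_ag Pool.Agent.Lib.MP_e39d36_ag.Var
  Pool.Agent.Lib.MP_cc3443_ag Pool.Agent.Lib.MV.End

set_option linter.unusedSectionVars false
set_option linter.unusedVariables false

noncomputable section

namespace Pool.Agent.Lib.MV.Fb

namespace SigH

variable {K : Type} [Field K] [Algebra ℂ K] {X : Var K} {J : Type} (F : Fib X J)

lemma cP (g : K) (a : J) : cub (g⁻¹ • F.c) (F.P a) = 0 := by rw [cub_csmul, F.cp a, mul_zero]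

lemma cX (g : K) : cub (g⁻¹ • F.c) F.x = 0 := by rw [cub_csmul, F.cx, mul_zero]

lemma e_ap (a : J) (E : X.PD) : F.e a E = -log (ds (val E) F.x (F.P a)) := by
  rw [F.e_eq, dd_apply (F.cross_P_ne a)]

lemma H_ap (E : X.PD) : F.H E = log (nm (val E) F.x) := rfl

lemma sd_thd (a : J) (hT : thd F.c (F.P a) F.x ≠ 0) :
    sd X (thd F.c (F.P a) F.x) = (2 : ℤ) • F.H - (3 : ℤ) • F.e a + F.κ := Finsupp.ext fun E => by
  obtain ⟨g, B, h⟩ := F.loc E
  have h1 := congrArg log (h.good.A (cP F g a) (cX F g) (F.cross_P_ne a))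
  have g0 := (val E).ne_zero_iff.2 h.g0
  have d0 := ds_ne (v := val E) (F.cross_P_ne a)
  have x0 := nm_ne (v := val E) F.x_ne
  rw [thd_csmul, nm_smul, map_inv₀, F.nm_P, one_pow, mul_one, log_mul (inv_ne_zero g0) (nm_ne hT),
    log_inv, log_mul (pow_ne_zero _ d0) (pow_ne_zero _ x0), log_pow, log_pow] at h1
  simp only [Finsupp.add_apply, Finsupp.sub_apply, Finsupp.smul_apply, smul_eq_mul, e_ap, H_ap,
    h.ord, sd_apply, nsmul_eq_mul] at h1 ⊢
  push_cast at h1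
  linarith

lemma dd_self (a : J) (hT : thd F.c (F.P a) F.x ⨯₃ F.P a ≠ 0) :
    LE (dd X (thd F.c (F.P a) F.x) (F.P a)) (F.H - (2 : ℤ) • F.e a + F.κ) := by
  have p0 : pol F.c (F.P a) F.x ≠ 0 := fun h0 => hT (by rw [thd_cross, h0, neg_zero, zero_smul])
  refine ⟨_, p0, Finsupp.ext fun E => ?_⟩
  obtain ⟨g, B, h⟩ := F.loc E
  have h1 := congrArg log (h.good.A2 (cP F g a) (cX F g) (F.cross_P_ne a))
  have g0 := (val E).ne_zero_iff.2 h.g0
  have d0 := ds_ne (v := val E) (F.cross_P_ne a)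
  have d1 := ds_ne (v := val E) hT
  have x0 := nm_ne (v := val E) F.x_ne
  rw [thd_csmul, ds_smul_left (inv_ne_zero h.g0), pol_csmul, map_mul, map_inv₀, F.nm_P, one_pow,
    mul_one, log_mul (inv_ne_zero g0) ((val E).ne_zero_iff.2 p0), log_inv,
    log_mul (mul_ne_zero d1 (pow_ne_zero _ d0)) x0, log_mul d1 (pow_ne_zero _ d0), log_pow] at h1
  simp only [Finsupp.add_apply, Finsupp.sub_apply, Finsupp.smul_apply, smul_eq_mul, e_ap, H_ap,
    h.ord, dd_apply hT, div_apply, ord_log, nsmul_eq_mul] at h1 ⊢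
  push_cast at h1
  linarith

lemma dd_other (a b : J) (hb : b ≠ a) (hT : thd F.c (F.P a) F.x ⨯₃ F.P b ≠ 0) :
    LE (dd X (thd F.c (F.P a) F.x) (F.P b)) (F.H - F.e a - F.e b) := by
  have key : ∀ E : X.PD, ds (val E) (thd F.c (F.P a) F.x) (F.P b) * ds (val E) F.x (F.P b) *
      ds (val E) F.x (F.P a) * nm (val E) F.x = val E (F.x ⬝ᵥ F.P a ⨯₃ F.P b) := fun E => by
    obtain ⟨g, B, h⟩ := F.loc E
    have h2 : ds (val E) (F.P a) (F.P b) = 1 := by
      rw [ds_prim (F.nm_P a E) (F.nm_P b E), ← map_cross, nm_const E (F.pp a b hb.symm)]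
    have h1 := h.good.B (cP F g a) (cP F g b) (cX F g) (F.cross_P_ne a) h2
      ((h.ns b).trans (by rw [F.nm_P, one_pow]))
    rwa [thd_csmul, ds_smul_left (inv_ne_zero h.g0), F.nm_P, F.nm_P, mul_one, mul_one] at h1
  have p0 : F.x ⬝ᵥ F.P a ⨯₃ F.P b ≠ 0 := by
    obtain ⟨E⟩ := F.nePD
    rw [← (val E).ne_zero_iff, ← key E]
    exact mul_ne_zero (mul_ne_zero (mul_ne_zero (ds_ne hT) (ds_ne (F.cross_P_ne b)))
      (ds_ne (F.cross_P_ne a))) (nm_ne F.x_ne)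
  refine ⟨_, p0, Finsupp.ext fun E => ?_⟩
  have h1 := congrArg log (key E)
  have d0 := ds_ne (v := val E) (F.cross_P_ne a)
  have d2 := ds_ne (v := val E) (F.cross_P_ne b)
  have d1 := ds_ne (v := val E) hT
  have x0 := nm_ne (v := val E) F.x_ne
  rw [log_mul (mul_ne_zero (mul_ne_zero d1 d2) d0) x0, log_mul (mul_ne_zero d1 d2) d0,
    log_mul d1 d2] at h1
  simp only [Finsupp.add_apply, Finsupp.sub_apply, e_ap, H_ap, dd_apply hT, div_apply, ord_log]
  linarith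

lemma dd_smul {y Q : Fin 3 → K} {w : K} (hw : w ≠ 0) (h : y ⨯₃ Q ≠ 0) :
    dd X (w • y) Q = dd X y Q := Finsupp.ext fun E => by
  rw [dd_apply h, dd_apply (by
    rw [map_smul, LinearMap.smul_apply]; exact smul_ne_zero hw h), ds_smul_left hw]

end SigH

open SigH in
theorem st_sigh (hP : St_PERM) : St_SIGH := by
  intro K _ _ X J F a
  obtain ⟨-, σ, e, hI, w, hw, hσ⟩ := hP K X J F _ (F.pt_P a)
  have hc : ∀ b, thd F.c (F.P a) F.x ⨯₃ F.P b ≠ 0 := fun b h0 => by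
    have h1 : σ ∘ (F.x ⨯₃ F.P b) = 0 := by
      rw [map_cross, hI.fix (F.P_mem b), hσ, map_smul, LinearMap.smul_apply, h0, smul_zero]
    exact F.cross_P_ne b (funext fun i => (map_eq_zero σ).1 (congrFun h1 i))
  have he : ∀ b, push e (F.e b) = dd X (thd F.c (F.P a) F.x) (F.P b) := fun b => by
    rw [F.e_eq, hI.push_dd, hI.fix (F.P_mem b), hσ, dd_smul hw (hc b)]
  refine ⟨σ, e, hI, ⟨w, hw, hσ⟩, ?_, ?_, fun b hb => ?_⟩
  · rw [Fib.H, hI.push_sd, hσ, ← Fib.H, ← sd_thd F a (left_ne (hc a))]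
    exact LE_sd_smul hw (left_ne (hc a))
  · rw [he]; exact dd_self F a (hc a)
  · rw [he]; exact dd_other F a b hb (hc b)

end Pool.Agent.Lib.MV.Fb
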