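import Pool.Agent.Lib.MV.FibC

open Set Matrix WithZero MvPolynomial Pool.Agent.Lib.MP_e39d36_ag Pool.Agent.Lib.MP_e39d36_ag.Var

noncomputable section

namespace Pool.Agent.Lib.MV.Fb

namespace TRI

/-- The cubic polynomial of a trilinear form. -/
def pl (c : Cf ℂ) : MvPolynomial (Fin 3) ℂ := ∑ i, ∑ j, ∑ l, C (c i j l) * X i * X j * X l

lemma pl_add (c c' : Cf ℂ) : pl (c + c') = pl c + pl c' := by
  simp only [pl, Pi.add_apply, map_add, add_mul, Finset.sum_add_distrib]

lemma pl_single (i j l : Fin 3) (a : ℂ) :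
    pl (Pi.single i (Pi.single j (Pi.single l a))) = C a * X i * X j * X l := by
  rw [pl, Finset.sum_eq_single i (fun b _ h => by simp [h]) (by simp),
    Finset.sum_eq_single j (fun b _ h => by simp [h]) (by simp),
    Finset.sum_eq_single l (fun b _ h => by simp [h]) (by simp)]
  simp

lemma three {d : Fin 3 →₀ ℕ} (h : d.degree = 3) :
    ∃ i j l, d = Finsupp.single i 1 + Finsupp.single j 1 + Finsupp.single l 1 := by
  have h1 : Multiset.card (Finsupp.toMultiset d) = 3 := by rw [Finsupp.card_toMultiset]; exact h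
  obtain ⟨i, j, l, h2⟩ := Multiset.card_eq_three.1 h1
  refine ⟨i, j, l, Multiset.toFinsupp.symm.injective ?_⟩
  change Finsupp.toMultiset d = Finsupp.toMultiset _
  rw [h2, Finsupp.toMultiset_add, Finsupp.toMultiset_add, Finsupp.toMultiset_single,
    Finsupp.toMultiset_single, Finsupp.toMultiset_single, one_nsmul, one_nsmul, one_nsmul]
  rfl

lemma exists_pl {G : MvPolynomial (Fin 3) ℂ} (h : G.IsHomogeneous 3) : ∃ c, G = pl c := by
  rw [G.as_sum]
  refine Finset.sum_induction _ (fun q => ∃ c, q = pl c) ?_ ⟨0, by simp [pl]⟩ fun d hd => ?_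
  · rintro _ _ ⟨c, rfl⟩ ⟨c', rfl⟩
    exact ⟨c + c', (pl_add c c').symm⟩
  · obtain ⟨i, j, l, rfl⟩ := three (d := d) (by
      rw [Finsupp.degree_eq_weight_one]; exact h (mem_support_iff.1 hd))
    generalize coeff _ G = a
    refine ⟨_, Eq.trans ?_ (pl_single i j l a).symm⟩
    rw [monomial_add_single, monomial_add_single, pow_one, pow_one, C_mul_X_eq_monomial]

/-- Every coordinate of `y` is a constant linear combination of the coordinates of `w`. -/
def Lin {K ι κ : Type} [Field K] [Algebra ℂ K] (y : ι → K) (w : κ → K) : Prop :=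
  ∀ i, y i ∈ Submodule.span ℂ (range w)

variable {K ι κ : Type} [Field K] [Algebra ℂ K] [Fintype ι] [Fintype κ] {y : ι → K} {w : κ → K}
  {X : Var K}

omit [Fintype ι] in
lemma Lin.sum (h : Lin y w) (i : ι) (s : K) :
    ∃ a : κ → ℂ, s * y i = ∑ l, algebraMap ℂ K (a l) * (s * w l) := by
  obtain ⟨a, ha⟩ := (Submodule.mem_span_range_iff_exists_fun ℂ).1 (h i)
  refine ⟨a, ?_⟩
  rw [← ha, Finset.mul_sum]
  exact Finset.sum_congr rfl fun l _ => by rw [Algebra.smul_def]; ring

omit [Fintype ι] in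
lemma Lin.mem (h : Lin y w) {A : Subring K} (hA : ∀ a : ℂ, algebraMap ℂ K a ∈ A) {s : K}
    (hs : ∀ l, s * w l ∈ A) (i : ι) : s * y i ∈ A := by
  obtain ⟨a, ha⟩ := h.sum i s
  rw [ha]
  exact sum_mem fun l _ => mul_mem (hA _) (hs l)

lemma Lin.le (h : Lin y w) (E : X.PD) : nm (val E) y ≤ nm (val E) w := nm_le.2 fun i => by
  obtain ⟨a, ha⟩ := h.sum i 1
  rw [one_mul] at ha
  rw [ha]
  refine (val E).map_sum_le fun l _ => ?_
  rw [map_mul, one_mul]
  exact (mul_le_of_le_one_left' (((isV E).2 _).1 (X.const_mem _ _))).trans (le_nm w l)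

lemma Lin.bpf (h : Lin y w) (h' : Lin w y) (hy : Bpf X y) : Bpf X w := fun z => by
  obtain ⟨l, h0, h1⟩ := hy z
  have h2 := h'.mem (X.const_mem z) (s := (y l)⁻¹) fun i => by
    rw [mul_comm, ← div_eq_mul_inv]; exact h1 i
  obtain ⟨a, ha⟩ := h.sum l (y l)⁻¹
  rw [inv_mul_cancel₀ h0] at ha
  obtain ⟨m, -, hm⟩ := (X.isLoc z).of_sum (fun m _ => mul_mem (X.const_mem z (a m)) (h2 m))
    (ha ▸ Un.one)
  have h3 := hm.of_mul' (X.const_mem z _) (h2 m)
  refine ⟨m, right_ne_zero_of_mul h3.1, fun m' => ?_⟩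
  have h4 := h3.div_mem (h2 m')
  rwa [mul_div_mul_left _ _ (inv_ne_zero h0)] at h4

end TRI

theorem st_tri : St_TRI := by
  intro G hG
  obtain ⟨c, rfl⟩ := TRI.exists_pl hG
  refine ⟨c, fun R _ _ z => ⟨by simp [TRI.pl, cub, tri, cmap], fun l => ?_⟩⟩
  have h : ∀ i, aeval z (pderiv l (X i : MvPolynomial (Fin 3) ℂ)) = (Pi.single l 1 : Fin 3 → R) i :=
    fun i => by
      rw [pderiv_X, Pi.single_apply, Pi.single_apply]
      split_ifs <;> simp
  simp only [TRI.pl, grad, pol, tri, cmap, map_sum, Derivation.leibniz, pderiv_C, smul_eq_mul,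
    map_add, map_mul, h, aeval_X, aeval_C, ← Finset.sum_add_distrib, map_zero]
  exact Finset.sum_congr rfl fun i _ => Finset.sum_congr rfl fun j _ =>
    Finset.sum_congr rfl fun m _ => by ring

theorem st_pen : St_PEN := by
  intro K _ _ X ι _ e p u x y hp hu hup hy
  have hy' : ∀ j, y (e j) = x ⬝ᵥ (algebraMap ℂ K ∘ u j) := fun j => by
    rw [hy, dotProduct]
    exact Finset.sum_congr rfl fun l _ => by rw [Algebra.smul_def, mul_comm]; rfl
  have h1 : TRI.Lin y (x ⨯₃ (algebraMap ℂ K ∘ p)) := fun i => by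
    obtain ⟨j, rfl⟩ := e.surjective i
    obtain ⟨l, hl⟩ := Function.ne_iff.1 hp
    have h2 := cross_cross3 p (u j) (Pi.single l (p l)⁻¹)
    rw [dotProduct_single, mul_inv_cancel₀ hl, dotProduct_comm, hup, one_smul, zero_smul,
      sub_zero] at h2
    rw [hy', ← h2, map_cross, triple_product_permutation, triple_product_permutation, dotProduct]
    refine Submodule.sum_mem _ fun m _ => ?_
    rw [Function.comp_apply, ← Algebra.smul_def]
    exact Submodule.smul_mem _ _ (Submodule.subset_span ⟨m, rfl⟩)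
  have h2 : TRI.Lin (x ⨯₃ (algebraMap ℂ K ∘ p)) y := fun i => by
    have h3 : u 0 ⨯₃ u 1 ≠ 0 := crossProduct_ne_zero_iff_linearIndependent.2 (by
      have : ![u 0, u 1] = u := by ext j; fin_cases j <;> rfl
      rwa [this])
    obtain ⟨a, ha⟩ := eq_smul_of_cross h3 (P := p) (by
      rw [cross_cross3, dotProduct_comm p, dotProduct_comm p, hup, hup, zero_smul, zero_smul,
        sub_zero])
    have h4 : algebraMap ℂ K ∘ p =
        algebraMap ℂ K a • ((algebraMap ℂ K ∘ u 0) ⨯₃ (algebraMap ℂ K ∘ u 1)) := by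
      rw [← map_cross, ha]
      ext m
      simp
    have h5 : (x ⨯₃ (algebraMap ℂ K ∘ p)) i = (a * u 0 i) • y (e 1) - (a * u 1 i) • y (e 0) := by
      rw [h4, map_smul, cross_cross3, ← hy', ← hy', Algebra.smul_def (a * u 0 i),
        Algebra.smul_def (a * u 1 i)]
      simp only [Pi.smul_apply, Pi.sub_apply, Function.comp_apply, smul_eq_mul, map_mul]
      ring
    rw [h5]
    exact Submodule.sub_mem _ (Submodule.smul_mem _ _ (Submodule.subset_span ⟨_, rfl⟩))
      (Submodule.smul_mem _ _ (Submodule.subset_span ⟨_, rfl⟩))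
  have h3 : ∀ E : X.PD, nm (val E) (x ⨯₃ (algebraMap ℂ K ∘ p)) = nm (val E) y := fun E =>
    le_antisymm (h2.le E) (h1.le E)
  refine ⟨Finsupp.ext fun E => by rw [sd_apply, sd_apply, h3], h1.bpf h2, ?_⟩
  rintro E A hA ⟨s, h4, h5⟩
  exact ⟨s, by rw [nm_smul, ← h3, ← nm_smul, h4], h1.mem hA h5⟩

end Pool.Agent.Lib.MV.Fb
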