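import Pool.Agent.Lib.MV.FibB

open Set Matrix WithZero Pool.Agent.Lib.MP_e39d36_ag Pool.Agent.Lib.MP_e39d36_ag.Var

noncomputable section

namespace Pool.Agent.Lib.MV.Fb

namespace VT

lemma pin_near {K Γ : Type} [Field K] [LinearOrderedCommGroupWithZero Γ] {v : Valuation K Γ}
    {A : Subring K} {x Q : Fin 3 → K} (hA : RC v A) (hQ : Pin v A Q) (h : x ⨯₃ Q ≠ 0)
    (hd : ds v x Q < 1) : Pin v A x := by
  obtain ⟨s, h1, h2⟩ := hQ
  have hs : s ≠ 0 := by
    rintro rfl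
    rw [zero_smul, nm_eq_zero.2 rfl] at h1
    exact zero_ne_one h1
  have h0 := ds_ne (v := v) h
  obtain ⟨a, y, ha, rfl, hy⟩ := exists_prim' (v := v) (left_ne h)
  rw [← ds_smul_right hs, ds_smul_left ha] at hd h0
  obtain ⟨u, t, w, e, -, ht, hw, h3⟩ := exists_dec h1 (cross_ne_of_ds h0)
  rw [ds_prim hy h1, ← ht] at hd
  have hu : v u = 1 := by
    have h4 := nm_comb (s := u) (t := t) h1.le hw h3
    rw [← e, hy] at h4
    rcases max_choice (v u) (v t) with h5 | h5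
    · exact (h4.trans h5).symm
    · exact absurd (h4.trans h5) hd.ne'
  have hu0 : u ≠ 0 := fun h5 => by simp [h5] at hu
  refine Pin.smul ⟨u⁻¹, by rw [nm_smul, map_inv₀, hu, hy, inv_one, one_mul], fun i => ?_⟩ ha
  have e2 : u⁻¹ * y i = s * Q i + u⁻¹ * (t * w i) := by
    rw [congrFun e i]
    simp only [Pi.add_apply, Pi.smul_apply, smul_eq_mul]
    rw [mul_add, inv_mul_cancel_left₀ hu0]
  rw [e2]
  refine add_mem (h2 i) (hA.mx _ ?_)
  rw [map_mul, map_mul, map_inv₀, hu, inv_one, one_mul]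
  exact (mul_le_of_le_one_right' ((le_nm w i).trans hw)).trans_lt hd

end VT

theorem st_vt (hUR : St_UR) (hDIM : St_DIM) (hEXT : St_EXT) (hTWO : St_TWO) : St_VT := by
  intro K _ _ X J F E hE Q hQ hQ0
  refine ds_le_one.eq_or_lt.resolve_right fun hd => ?_
  obtain ⟨n, h1, h2⟩ := hDIM K X
  obtain ⟨g, B, hB⟩ := F.loc E
  refine h2 (hTWO K F.k (val E) (X.O E.1) n (isV E) (X.const_mem _) hE F.tr
    (hEXT K (val E) (X.O E.1) _ n (isV E) (X.const_mem _) inter_subset_right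
      (fun A hA hC hS => ?_) (h1 E)))
  have hBA : B.toSubring ≤ A := fun z hz => hS ⟨hB.Bk z hz, hB.BO hz⟩
  obtain ⟨j, hj⟩ := exists_nm (v := val E) Q
  have hj0 : Q j ≠ 0 := fun h => nm_ne (v := val E) hQ0 (by rw [hj, h, map_zero])
  have hp : Pin (val E) A Q := pin_of_div hj0 hj.symm fun i => hS ⟨div_mem (hQ i) (hQ j), by
    refine ((isV E).2 _).2 ?_
    rw [map_div₀, div_le_one₀ (zero_lt_iff.2 ((val E).ne_zero_iff.2 hj0)), ← hj]
    exact le_nm Q i⟩
  have hx := VT.pin_near hA hp (F.cross_ne hQ hQ0) hd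
  refine hB.alg A hA hBA hx fun a => ?_
  exact (hUR K _ (val E) A (g⁻¹ • F.c) F.x (F.P a) hA hB.good (fun i j l => hBA (hB.cB i j l))
    (fun i => hC _) (F.nm_P a E) (hB.ns a) (by rw [cub_csmul, F.cp a, mul_zero])
    (by rw [cub_csmul, F.cx, mul_zero]) (F.cross_P_ne a)).2 hx

end Pool.Agent.Lib.MV.Fb
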