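import Pool.Agent.Lib.MV.FibD
import Pool.Agent.Lib.MV.Log
import Pool.Agent.Lib.MV.Basic
import Pool.Agent.Lib.MV.Blue
import Pool.Agent.Lib.MV.F_BASE
import Pool.Agent.Lib.MV.F_DIM
import Pool.Agent.Lib.MV.F_EXT
import Pool.Agent.Lib.MV.F_FIB
import Pool.Agent.Lib.MV.F_FIB1
import Pool.Agent.Lib.MV.F_GK
import Pool.Agent.Lib.MV.F_INVO
import Pool.Agent.Lib.MV.F_IOT
import Pool.Agent.Lib.MV.F_KER
import Pool.Agent.Lib.MV.F_KER2
import Pool.Agent.Lib.MV.F_LN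
import Pool.Agent.Lib.MV.F_PB
import Pool.Agent.Lib.MV.F_PBR
import Pool.Agent.Lib.MV.F_PERM
import Pool.Agent.Lib.MV.F_PERM0
import Pool.Agent.Lib.MV.F_PRM
import Pool.Agent.Lib.MV.F_QUAD
import Pool.Agent.Lib.MV.F_RESF
import Pool.Agent.Lib.MV.F_SEC
import Pool.Agent.Lib.MV.F_SEC0
import Pool.Agent.Lib.MV.F_SIGE
import Pool.Agent.Lib.MV.F_SIGH
import Pool.Agent.Lib.MV.F_TRI
import Pool.Agent.Lib.MV.F_VT

open Pool.Agent.Lib.MP_e39d36_ag Pool.Agent.Lib.MP_e39d36_ag.Var Pool.Agent.Lib.MV.End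
  Pool.Agent.Lib.MV.Lat

noncomputable section

namespace Pool.Agent.Lib.MV.Fb

theorem all_perm0 : St_PERM0 := st_perm0 st_dim st_prm st_ext

theorem all_perm : St_PERM := st_perm st_ln st_ur (st_invo st_ln st_quad st_irr) all_perm0

theorem all_vt : St_VT := st_vt st_ur st_dim st_ext st_two

theorem all_ker2 : St_KER2 := st_ker2 st_ker

theorem all_fib : St_FIB := st_fib all_ker2 (st_tr all_ker2) (st_base st_gk) st_tri st_pen

/-- Section four gives five of the ten fields of the input of the ending. -/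
theorem inp_of {D : Dat} {K : Type} [Field K] [Algebra ℂ K] (M : D.Mod K) (h1 : N1 M) (h2 : N2 M)
    (mov : ∀ i o, Mov (M.st i o)) (inj : ∀ x, cl M.Γ M.sm.fac M.st x = 0 → x = 0)
    (spn : ∀ W, ∃ x, nc M.Γ M.sm.fac W = cl M.Γ M.sm.fac M.st x)
    (num : ∀ φ e, Ps φ e → ∀ W x, nc M.Γ M.sm.fac W = cl M.Γ M.sm.fac M.st x →
      nc M.Γ M.sm.fac (push e W) = cl M.Γ M.sm.fac (fun i o => push e (M.st i o)) x)
    (posp : ∀ j, D.r j = 0 → 2 ≤ D.n j → ∀ W x, 0 ≤ W →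
      nc M.Γ M.sm.fac W = cl M.Γ M.sm.fac M.st x → 0 ≤ x j none) :
    ∃ R, Inp M.Γ M.sm.fac D.n M.st R := by
  obtain ⟨R, a, b, c, d, e⟩ := sec4 M all_fib (st_fib1 all_ker2 (st_base st_gk))
    (st_sigh all_perm) (st_sige all_perm all_vt (st_sigh all_perm)) (st_iot st_quad all_perm0)
    (st_sec all_vt st_sec0) st_pb (st_resf st_pb st_ur) st_pbr inj h1 h2
  exact ⟨R, mov, inj, spn, num, a, posp, b, c, d, e⟩

/-- The input of the ending from the Lefschetz theorem, injectivity and positivity. -/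
theorem inp_of_L (hL : St_L) {D : Dat} {K : Type} [Field K] [Algebra ℂ K] (M : D.Mod K)
    (inj : ∀ x, cl M.Γ M.sm.fac M.st x = 0 → x = 0)
    (posp : ∀ j, D.r j = 0 → 2 ≤ D.n j → ∀ W x, 0 ≤ W →
      nc M.Γ M.sm.fac W = cl M.Γ M.sm.fac M.st x → 0 ≤ x j none) :
    ∃ R, Inp M.Γ M.sm.fac D.n M.st R := by
  have h : Lef M.st := fun W => by
    obtain ⟨c, hc⟩ := hL D K M W
    exact ⟨fun i o => c ⟨i, o⟩, hc.congr fun E => by simp only [dif, cmb, Fintype.sum_sigma]⟩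
  exact inp_of M (fun W x hx => (h.n1 M.sm M.Γ inj hx).congr fun E => by
    simp only [dif, cmb, Fintype.sum_sigma]) (fun J _ c W hW => hW.n2 M.sm M.Γ Complex.reLm)
    M.mov_st inj (h.spn M.sm M.Γ) (h.num M.sm M.Γ inj) posp

end Pool.Agent.Lib.MV.Fb
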