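import Pool.Agent.Lib.MV.Basic
import Pool.Agent.Lib.MV.F_GK
import Pool.Agent.Lib.MV.Log

open MvPolynomial Set Pool.Agent.Lib.MP_e39d36_ag Pool.Agent.Lib.MP_e39d36_ag.Var
  Pool.Agent.Lib.MP_cc3443_ag Pool.Agent.Lib.MV.End Pool.Agent.Lib.MV.Dat

set_option linter.unusedSectionVars false
set_option linter.unusedVariables false

noncomputable section

namespace Pool.Agent.Lib.MV.S3

/-- Points of `Z` with values in a field, in a chart. -/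
structure ZP (D : Dat) (F : Type) [Field F] [Algebra ℂ F] where
  τ : D.Ch
  θ : D.B D.X τ →ₐ[ℂ] F

lemma BI_le {D : Dat} {F : Type} [Field F] [Algebra ℂ F] (x : ∀ i, Fin (D.n i + 1) → F) (τ : D.Ch)
    (j : Fin D.k) : Fb.BI D x τ j ≤ D.B x τ := Algebra.adjoin_mono (image_subset_range _ _)

lemma g_mem (D : Dat) (τ : D.Ch) (c : Fin D.m) (j : Fin D.k) :
    aeval (D.X j) (D.G c j) / D.kap D.X τ j ∈ D.B D.X τ :=
  BI_le _ _ _ (Fb.st_gk D D.L D.X yX_ne τ c j)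

namespace ZP

variable {D : Dat} {F : Type} [Field F] [Algebra ℂ F] (P : ZP D F)

/-- The affine coordinates of a point. -/
def v (t : D.Vx) : F := P.θ ⟨D.rat D.X P.τ t, rat_mem P.τ t⟩

/-- The values of the anticanonical sections of one factor. -/
def g (c : Fin D.m) (j : Fin D.k) : F := P.θ ⟨_, g_mem D P.τ c j⟩

/-- The weights of the fibre equation. -/
def ω (i : Fin D.k) (c : Fin D.m) : F := ∏ j ∈ Finset.univ.erase i, P.g c j

/-- The point lies on the hypersurface. -/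
def On : Prop := ∑ c, ∏ j, P.g c j = 0

/-- The gradient of the fibre equation at a blown up point. -/
def gr (i : Fin D.k) (a : Fin (D.r i)) (l : Fin (D.n i + 1)) : F :=
  ∑ c, eval (D.p i a) (pderiv l (D.G c i)) • P.ω i c

lemma on_iff (i : Fin D.k) : P.On ↔ ∑ c, P.ω i c * P.g c i = 0 := by
  simp only [On, ω, Finset.prod_erase_mul _ _ (Finset.mem_univ i)]

lemma θ_aeval (Q : MvPolynomial D.Vx ℂ) : P.θ ⟨_, aeval_mem_B Q⟩ = aeval P.v Q := by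
  have h : ∀ (b : D.B D.X P.τ), b.1 = aeval (D.rat D.X P.τ) Q → P.θ b = aeval P.v Q := by
    induction Q using MvPolynomial.induction_on with
    | C a =>
      intro b hb
      have : b = algebraMap ℂ _ a := Subtype.ext (by rw [hb, aeval_C]; rfl)
      rw [this, AlgHom.commutes, aeval_C]
    | add p q hp hq =>
      intro b hb
      have : b = ⟨_, aeval_mem_B p⟩ + ⟨_, aeval_mem_B q⟩ := Subtype.ext (by rw [hb, map_add]; rfl)
      rw [this, map_add, map_add, hp _ rfl, hq _ rfl]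
    | mul_X p t hp =>
      intro b hb
      have : b = ⟨_, aeval_mem_B p⟩ * ⟨_, rat_mem P.τ t⟩ :=
        Subtype.ext (by rw [hb, map_mul, aeval_X]; rfl)
      rw [this, map_mul, map_mul, hp _ rfl, aeval_X]
      rfl
  exact h _ rfl

lemma rel {Q : MvPolynomial D.Vx ℂ} (h : aeval (D.rat D.X P.τ) Q = 0) : aeval P.v Q = 0 := by
  rw [← θ_aeval, ← map_zero P.θ]
  exact congrArg _ (Subtype.ext h)

lemma v_τ (μ : D.Sl) : P.v (P.τ.1 μ) = 1 := by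
  rw [← map_one P.θ]
  exact congrArg _ (Subtype.ext (rat_self yX_ne μ))

lemma f_mem (τ : D.Ch) : D.f D.X τ ∈ D.B D.X τ :=
  sum_mem fun c _ => prod_mem fun j _ => g_mem D τ c j

lemma θ_f : P.θ ⟨_, f_mem P.τ⟩ = ∑ c, ∏ j, P.g c j := by
  simp only [g, ← map_prod, ← map_sum]
  exact congrArg _ (Subtype.ext (by simp [Dat.f]))

lemma inc : D.Inc P.v := fun i a => by
  have := P.rel (Q := X (.inr (⟨i, a⟩, 0)) * ∑ l, D.u i a 1 l • X (.inl ⟨i, l⟩) -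
      X (.inr (⟨i, a⟩, 1)) * ∑ l, D.u i a 0 l • X (.inl ⟨i, l⟩)) (by
    simp only [map_sub, map_mul, map_sum, map_smul, aeval_X, Dat.rat, ← smul_div_assoc]
    change _ / D.y D.X (P.τ.1 ⟨i, some a⟩) * ∑ l, _ / D.y D.X (P.τ.1 ⟨i, none⟩) -
      _ / D.y D.X (P.τ.1 ⟨i, some a⟩) * ∑ l, _ / D.y D.X (P.τ.1 ⟨i, none⟩) = 0
    rw [← Finset.sum_div, ← Finset.sum_div, y_inr, y_inr]
    change (∑ l, D.u i a 0 l • D.X i l) / _ * ((∑ l, D.u i a 1 l • D.X i l) / _) -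
      (∑ l, D.u i a 1 l • D.X i l) / _ * ((∑ l, D.u i a 0 l • D.X i l) / _) = 0
    ring)
  simpa only [map_sub, map_mul, map_sum, map_smul, aeval_X, sub_eq_zero] using this

end ZP

lemma exists_ZP {D : Dat} {F : Type} [Field F] [Algebra ℂ F] (τ : D.Ch) (z : D.Vx → F)
    (h : ∀ Q : MvPolynomial D.Vx ℂ, aeval (D.rat D.X τ) Q = 0 → aeval z Q = 0) :
    ∃ P : ZP D F, P.τ = τ ∧ P.v = z := by
  let e : MvPolynomial D.Vx ℂ →ₐ[ℂ] D.B D.X τ :=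
    (aeval (D.rat D.X τ)).codRestrict _ aeval_mem_B
  have he : Function.Surjective e := fun b => by
    obtain ⟨Q, hQ⟩ := mem_B_iff.1 b.2
    exact ⟨Q, Subtype.ext hQ⟩
  refine ⟨⟨τ, (Ideal.Quotient.liftₐ (RingHom.ker e) (aeval z) fun Q hQ =>
    h Q (congrArg Subtype.val hQ)).comp (Ideal.quotientKerAlgEquivOfSurjective he).symm⟩, rfl,
    funext fun t => ?_⟩
  have h1 : (⟨D.rat D.X τ t, rat_mem τ t⟩ : D.B D.X τ) =
      Ideal.quotientKerAlgEquivOfSurjective he (Ideal.Quotient.mk _ (X t)) :=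
    Subtype.ext (aeval_X (D.rat D.X τ) t).symm
  simp [ZP.v, h1]

/-- Changing the coordinates of one factor. -/
def St_MOD : Prop := ∀ (D : Dat) (F₀ F : Type) [Field F₀] [Algebra ℂ F₀] [Field F] [Algebra ℂ F]
  (P : ZP D F₀) (φ : F₀ →ₐ[ℂ] F) (i : Fin D.k) (z : D.Vx → F) (τ : D.Ch),
    (∀ a, z (.inr (⟨i, a⟩, 0)) * ∑ l, D.u i a 1 l • z (.inl ⟨i, l⟩) =
      z (.inr (⟨i, a⟩, 1)) * ∑ l, D.u i a 0 l • z (.inl ⟨i, l⟩)) →
    (∀ μ : D.Sl, μ.1 ≠ i → τ.1 μ = P.τ.1 μ) → (∀ o, z (τ.1 ⟨i, o⟩) ≠ 0) →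
    ∃ P' : ZP D F, P'.τ = τ ∧ (∀ t, (D.sl t).1 ≠ i → P'.v t = φ (P.v t)) ∧
      (∀ c, P'.ω i c = φ (P.ω i c)) ∧ ∀ t, (D.sl t).1 = i → P'.v t = z t / z (τ.1 (D.sl t))

/-- Values of the sections away from the exceptional curves. -/
def St_VALA : Prop := ∀ (D : Dat) (F : Type) [Field F] [Algebra ℂ F] (P : ZP D F) (i : Fin D.k),
  (∀ a, ∃ k, ∑ l, D.u i a k l • P.v (.inl ⟨i, l⟩) ≠ 0) →
    ∃ κ : F, κ ≠ 0 ∧ ∀ c, P.g c i = κ * aeval (fun l => P.v (.inl ⟨i, l⟩)) (D.G c i)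

/-- Values of the sections on an exceptional curve. -/
def St_VALB : Prop := ∀ (D : Dat) (F : Type) [Field F] [Algebra ℂ F] (P : ZP D F) (i : Fin D.k)
  (a : Fin (D.r i)) (s : F) (d : Fin (D.n i + 1) → F), (∀ l, P.v (.inl ⟨i, l⟩) = D.p i a l • s) →
    (∀ k, ∑ l, D.u i a k l • d l = P.v (.inr (⟨i, a⟩, k))) →
    ∃ κ : F, ∀ c, P.g c i = κ * ∑ l, eval (D.p i a) (pderiv l (D.G c i)) • d l

/-- Two algebraically independent elements are not algebraic over a simple extension. -/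
def St_TWOI : Prop := ∀ (L : Type) [Field L] [Algebra ℂ L] (t : L) (x : Fin 2 → L),
  AlgebraicIndependent ℂ x → ¬∀ j, IsAlgebraic (IntermediateField.adjoin ℂ {t}) (x j)

/-- Conics through five points, and forms at the generic point. -/
def St_CONQ : Prop := ∀ (D : Dat) (j : Fin D.k),
  (∀ (d : ℕ) (G : MvPolynomial (Fin (D.n j + 1)) ℂ), G.IsHomogeneous d → G ≠ 0 →
    aeval (D.X j) G ≠ 0) ∧
  ∀ A : Finset (Fin (D.r j)), A.card ≤ 5 → ∃ C : MvPolynomial (Fin (D.n j + 1)) ℂ,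
    C ≠ 0 ∧ C.IsHomogeneous (D.n j) ∧ ∀ a ∈ A, eval (D.p j a) C = 0

/-- Anticanonical forms of one factor. -/
def AC (D : Dat) (j : Fin D.k) (G : MvPolynomial (Fin (D.n j + 1)) ℂ) : Prop :=
  G.IsHomogeneous (D.n j + 1) ∧ ∀ a, eval (D.p j a) G = 0

/-- The anticanonical map of a factor is birational. -/
def St_RAT : Prop := ∀ (D : Dat) (j : Fin D.k), (∃ G, AC D j G ∧ aeval (D.X j) G ≠ 0) ∧
  ∀ A : IntermediateField ℂ D.L, (∀ G G', AC D j G → AC D j G' →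
    aeval (D.X j) G / aeval (D.X j) G' ∈ A) → ∀ l, D.X j l ∈ A

/-- Two anticanonical sections of the base have a common zero. -/
def St_WPT0 : Prop := ∀ (D : Dat) (i : Fin D.k), D.r i ≠ 0 → ∀ (w : Fin 2 → D.L)
  (h : ∀ k τ, w k / Fb.gW D D.X τ i ∈ D.B D.X τ), ∃ P : ZP D ℂ, ∀ k, P.θ ⟨_, h k P.τ⟩ = 0

/-- A fibre that is singular at a blown up point. -/
def St_WPT : Prop := ∀ (D : Dat) (i : Fin D.k) (a : Fin (D.r i)),
  ∃ P : ZP D ℂ, ∀ l, P.gr i a l = 0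

/-- Points of `Z` on the hypersurface are points of the model. -/
def St_PTS : Prop := ∀ (D : Dat) (K : Type) [Field K] [Algebra ℂ K] (M : D.Mod K) (F : Type)
  [Field F] [Algebra ℂ F] (P : ZP D F), P.On → ∃ γ : CMap M.X F,
    (D.B M.x P.τ).toSubring ≤ M.X.O γ.c ∧ ∀ t, γ.τ (D.rat M.x P.τ t) = P.v t

/-- Points of the model are points of `Z`. -/
def St_PTY : Prop := ∀ (D : Dat) (K : Type) [Field K] [Algebra ℂ K] (M : D.Mod K) (F : Type)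
  [Field F] [Algebra ℂ F] (γ : CMap M.X F) (τ : D.Ch), (D.B M.x τ).toSubring ≤ M.X.O γ.c →
    ∃ P : ZP D F, P.τ = τ ∧ P.On ∧ ∀ t, P.v t = γ.τ (D.rat M.x τ t)

/-- Degrees of the standard divisors on a curve. -/
def St_DEG : Prop := ∀ (D : Dat) (K : Type) [Field K] [Algebra ℂ K] (M : D.Mod K) (F : Type)
  [Field F] [Algebra ℂ F] [IsFF F] (γ : CMap M.X F) (τ : D.Ch),
    (D.B M.x τ).toSubring ≤ M.X.O γ.c → ∀ μ : D.Sl,
    ((∀ t, D.sl t = μ → γ.τ (D.rat M.x τ t) ∈ range (algebraMap ℂ F)) →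
      γ.deg (M.st μ.1 μ.2) = 0) ∧
    ∀ t, D.sl t = μ → γ.τ (D.rat M.x τ t) ∉ range (algebraMap ℂ F) → 0 < γ.deg (M.st μ.1 μ.2)

/-- Closed points outside finitely many divisors. -/
def St_CLP : Prop := ∀ (K : Type) [Field K] [Algebra ℂ K] (X : Var K) (S : Set X.PD), S.Finite →
  ∃ γ : CMap X ℂ, ∀ E ∈ S, ¬X.O γ.c ≤ X.O E.1

/-- A curve in a hypersurface through a given point. -/
def St_FIBC : Prop := ∀ (n : ℕ), 2 ≤ n → ∀ (Φ : MvPolynomial (Fin (n + 1)) ℂ) (q : Fin (n + 1) → ℂ)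
  (l₀ : Fin (n + 1)), eval q Φ = 0 →
    ∃ (F : Type) (_ : Field F) (_ : Algebra ℂ F) (_ : IsFF F) (Q : Place F) (z : Fin (n + 1) → F),
      aeval z Φ = 0 ∧ z l₀ = algebraMap ℂ F (q l₀) ∧ (∀ l, Q.val (z l - algebraMap ℂ F (q l)) < 1) ∧
        ∃ l, z l ∉ range (algebraMap ℂ F)

/-- Lifting a point of the base to a section. -/
def St_SECT : Prop := ∀ (D : Dat) (F₀ F : Type) [Field F₀] [Algebra ℂ F₀] [Field F] [Algebra ℂ F]
  (P : ZP D F₀) (φ : F₀ →ₐ[ℂ] F) (i : Fin D.k) (a : Fin (D.r i)) (d : Fin (D.n i + 1) → F)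
  (k₀ : Fin 2), ∑ l, D.u i a k₀ l • d l ≠ 0 → ∑ l, d l * φ (P.gr i a l) = 0 →
    ∃ P' : ZP D F, P'.On ∧ (∀ t, (D.sl t).1 ≠ i → P'.v t = φ (P.v t)) ∧
      (∀ t, (D.sl t).1 = i → D.sl t ≠ ⟨i, some a⟩ → P'.v t ∈ range (algebraMap ℂ F)) ∧
      ∀ k, P'.v (.inr (⟨i, a⟩, k)) = (∑ l, D.u i a k l • d l) / ∑ l, D.u i a k₀ l • d l

/-- A curve in a fibre through a given point. -/
def St_FIBP : Prop := ∀ (D : Dat) (P : ZP D ℂ) (i : Fin D.k), 2 ≤ D.n i →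
  ∀ (q : Fin (D.n i + 1) → ℂ) (l₀ : Fin (D.n i + 1)), q l₀ = 1 →
    ∑ c, P.ω i c * eval q (D.G c i) = 0 →
    ∃ (F : Type) (_ : Field F) (_ : Algebra ℂ F) (_ : IsFF F) (Q : Place F) (P' : ZP D F),
      P'.On ∧ (∀ μ : D.Sl, μ.1 ≠ i → P'.τ.1 μ = P.τ.1 μ) ∧ P'.τ.1 ⟨i, none⟩ = .inl ⟨i, l₀⟩ ∧
      (∀ t, (D.sl t).1 ≠ i → P'.v t = algebraMap ℂ F (P.v t)) ∧
      (∀ l, Q.val (P'.v (.inl ⟨i, l⟩) - algebraMap ℂ F (q l)) < 1) ∧
      ∃ l, P'.v (.inl ⟨i, l⟩) ∉ range (algebraMap ℂ F)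

/-- The standard divisors are numerically independent. -/
def St_INJ : Prop := ∀ (D : Dat) (K : Type) [Field K] [Algebra ℂ K] (M : D.Mod K) (x : Lat.V D.r),
  cl M.Γ M.sm.fac M.st x = 0 → x = 0

/-- Positivity along the projective spaces of dimension at least two. -/
def St_POSP : Prop := ∀ (D : Dat) (K : Type) [Field K] [Algebra ℂ K] (M : D.Mod K) (j : Fin D.k),
  D.r j = 0 → 2 ≤ D.n j → ∀ W x, 0 ≤ W → nc M.Γ M.sm.fac W = cl M.Γ M.sm.fac M.st x →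
    0 ≤ x j none

end Pool.Agent.Lib.MV.S3
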