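import Pool.Agent.Lib.MV.L2_ALL
import Pool.Agent.Lib.MV.F_ALL
import Pool.Agent.Lib.MV.S3Blue
import Pool.Agent.Lib.MV.G2B
import Pool.Agent.Lib.MV.Sch

open AlgebraicGeometry CategoryTheory Order Pool.Agent.Lib.MP_e39d36_ag
  Pool.Agent.Lib.MP_e39d36_ag.Var Pool.Agent.Lib.MV.End Pool.Agent.Lib.MV.Lat

set_option linter.style.haveILetI false

noncomputable section

namespace Pool.Agent.Lib.MV

lemma Dat.ok7 (D : Dat) : Ok7 D.n D.r where
  n1 := D.n_pos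
  r7 := fun i => by have := D.r_le i; omega
  n2 := fun i hi => D.n_eq i hi.ne'
  two := fun i => by
    by_contra! h1
    obtain ⟨j, hj⟩ := D.surf
    have h2 := D.dim
    rw [Finset.sum_eq_single j (fun b _ hb => absurd ((h1 b).trans (h1 j).symm) hb) (by simp),
      D.n_eq j hj] at h2
    omega
  ex := D.surf.imp fun _ => Nat.pos_of_ne_zero

lemma Fb.n12 (hL : St_L) {D : Dat} {K : Type} [Field K] [Algebra ℂ K] (M : D.Mod K)
    (inj : ∀ x, cl M.Γ M.sm.fac M.st x = 0 → x = 0) : Fb.N1 M ∧ Fb.N2 M := by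
  have h : Lef M.st := fun W => by
    obtain ⟨c, hc⟩ := hL D K M W
    exact ⟨fun i o => c ⟨i, o⟩, hc.congr fun E => by simp only [dif, cmb, Fintype.sum_sigma]⟩
  exact ⟨fun W x hx => (h.n1 M.sm M.Γ inj hx).congr fun E => by
    simp only [dif, cmb, Fintype.sum_sigma], fun J _ c W hW => hW.n2 M.sm M.Γ Complex.reLm⟩

theorem cone_of7 (hL : St_L) (hI : S3.St_INJ) (hP : S3.St_POSP) (hN : G2.St_NEF)
    (D : Dat) (K : Type) [Field K] [Algebra ℂ K] (M : D.Mod K) (h : D.Gen2 M.x M.X.O M.X.pd) :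
    End.Cone M.Γ := by
  obtain ⟨R, I⟩ := Fb.inp_of_L hL M (hI D K M) (hP D K M)
  obtain ⟨h1, h2⟩ := Fb.n12 hL M (hI D K M)
  exact I.fin7 lat7 hvr D.ok7 M.Q (hN D K M h1 h2 h D.ok7 R I)

theorem sch_end2 {Y : Scheme.{0}} [IsIntegral Y] [IsLocallyNoetherian Y] (s : Y ⟶ Spec (.of ℂ))
    (hSM : St_SM) (D : Dat) (H : ∀ (K : Type) [Field K] [Algebra ℂ K] (M : D.Mod K),
      D.Gen2 M.x M.X.O M.X.pd → End.Cone M.Γ) [Smooth s]
    (hY : IsProjective s) (x : ∀ i, Fin (D.n i + 1) → Y.functionField)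
    (h : letI := algK s; D.IsHyp x OX (coheight · = 1))
    (h' : letI := algK s; D.Gen2 x OX (coheight · = 1)) :
    ∃ S : Set (CDiv Y), S.Finite ∧ Covers s (cone S) ∧ ∀ φ L, IsPull s φ L → L ≠ 1 →
      interior (cone S) ∩ L '' interior (cone S) = ∅ := by
  letI := algK s
  have hu := UFD.stalk_ufd s
  obtain ⟨c⟩ := exists_coord' hY (algK_spec _) fun y => by haveI := hu y; infer_instance
  have hf := SchB.fs s c
  obtain ⟨S, h1, h2, h3⟩ := H _ ⟨c.var, c.prj, c.curves, x, h, hf, hSM _ _ hf fun z =>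
    (eqO z).toMulEquiv.uniqueFactorizationMonoid (hu z)⟩ h'
  simp only [Var.Curves.Covers, c.isPull_iff] at h2 h3
  exact ⟨S, h1, h2, h3⟩

end Pool.Agent.Lib.MV
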