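import Pool.Agent.Lib.MV.G3A
import Pool.Agent.Lib.MV.Asm2

open MvPolynomial Set AlgebraicGeometry CategoryTheory Order Pool.Agent.Lib.MP_e39d36_ag
  Pool.Agent.Lib.MP_e39d36_ag.Var Pool.Agent.Lib.MV.End Pool.Agent.Lib.MV.Lat

set_option linter.style.haveILetI false
set_option linter.unusedVariables false

noncomputable section

namespace Pool.Agent.Lib.MV.G3

lemma isHyp_sc {D : Dat} {a : Fin D.m → ℂ} {K : Type} [Field K] [Algebra ℂ K] {X : Var K}
    {x : ∀ i, Fin (D.n i + 1) → K} (h : D.HypA a x X.O)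
    (g : ∀ E, X.pd E → ∀ τ, (D.B x τ).toSubring ≤ X.O E → ∀ i, Gd D (X.O E) i (Φa D a x τ i)) :
    (sc D a).IsHyp x X.O X.pd where
  one := h.1
  ne := h.2.1
  chart := h.2.2.1
  ker τ P := by rw [f_sc]; exact h.2.2.2 τ P
  noline E e τ t i hi := by rw [Φ_sc]; exact (g E e τ t i).1 (.inl hi)
  nonsing E e τ t i := by rw [Φ_sc]; exact (g E e τ t i).2
  nonzero E e τ t i hi := by
    have h1 : (0 : Fin (D.n i + 1)) ≠ Fin.last _ := fun h => by
      have := congrArg Fin.val h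
      simp only [Fin.val_zero, Fin.val_last] at this
      exact absurd (this.trans hi) (by decide)
    have h2 : ∀ l l' : Fin (D.n i + 1), (Pi.single l 1 : Fin (D.n i + 1) → K) l' ∈ X.O E :=
      fun l l' => by
        rw [Pi.single_apply]
        split_ifs
        exacts [one_mem _, zero_mem _]
    obtain ⟨s, t, h3⟩ := (g E e τ t i).1 (.inr hi) _ _ (h2 0) (h2 (Fin.last _))
      ⟨0, Fin.last _, by simp [h1, Un]⟩
    refine ⟨s • Pi.single 0 1 + t • Pi.single (Fin.last _) 1, ?_⟩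
    rw [Φ_sc]
    refine (congrArg (fun z => Un (X.O E) (eval z (Φa D a x τ i))) (funext fun l => ?_)).mp h3
    simp only [Pi.add_apply, Pi.smul_apply, Pi.single_apply, Function.comp]
    split_ifs <;> simp [Algebra.smul_def]

theorem gen_cone (hC : St_CNT) (hS : St_SPR) (hT : St_TD0) (hR : St_RES3) (hE : St_LSEC)
    (hG : St_GEN3) (hN : St_NEF3) (hL : St_L) (hI : S3.St_INJ) (hP : S3.St_POSP) (D : Dat)
    (hD : D.DP) (hU : D.Full) : Gn fun a => ∀ (K : Type) [Field K] [Algebra ℂ K] (X : Var K)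
      (Q : Prj X) (Γ : Curves X) (x : ∀ i, Fin (D.n i + 1) → K), D.HypA a x X.O →
      (∀ z, Algebra.FormallySmooth ℂ (X.O z)) → Sm X → End.Cone Γ := by
  have h4 := D.dim
  choose g₀ g d₀ d v e1 e2 e3 e4 e5 e6 using hE D
  haveI : ∀ j, Finite {e : F (D.r j) // Line e} := fun j =>
    ((st_fin (D.r j) (by have := D.r_le j; omega) 1 (-1)).subset
      fun e (h : Line e) => ⟨h.1, h.2.2, h.2.1⟩).to_subtype
  have q1 := Gn.all fun i => hS D i 0 (∑ j, D.n j - 2) fun Ω _ _ a P h _ S h' => by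
    have := (hC D hD hU Ω a P i h _ S h').1
    omega
  have q2 := Gn.all fun i => Gn.all fun j => Gn.all fun e : {e : F (D.r j) // Line e} =>
    Gn.imp fun hj : j ≠ i => hS D i (rename (fun l => .inl ⟨j, l⟩) (g j e.1 e.2))
      (∑ j, D.n j - 3) fun Ω _ _ a P h h0 S h' => by
        have := (hC D hD hU Ω a P i h _ S h').2 j hj _ _ (e2 j e.1 e.2) (e4 j e.1 e.2)
          ((aeval_rename _ _ _).symm.trans h0)
        omega
  refine (q1.and q2).mono fun a ⟨f1, f2⟩ K _ _ X Q Γ x h fs sm => ?_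
  have td := hT D a K x h.1 h.2.2.2 (∑ j, D.n j - 1) (by omega)
  obtain ⟨n₀, a1, a2⟩ := Fb.st_dim K X
  have a3 : ∑ j, D.n j - 2 ≤ n₀ := by
    by_contra! h'
    exact a2 (G2.indIn_le td (by omega))
  let M : (sc D a).Mod K := ⟨X, Q, Γ, x, isHyp_sc h fun E e τ t i => by
    obtain ⟨τ', c⟩ := h.2.2.1 E
    exact hR D a K x h.2.1 h.2.2.2 i 0 _ (f1 i) _ _ τ τ' (X.isLoc E) c le_rfl
      (G2.indIn_le (a1 ⟨E, e⟩) a3) t fun h => h.1 (map_zero _), fs, sm⟩
  have g3 : Gen3 M := fun i j hj hi e he => by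
    obtain ⟨W, b1, b2, b3⟩ := hG _ K M j e _ _ _ _ (e1 j e he) (e3 j e he) (e5 j e he) (e6 j e he)
      ⟨i, hj⟩
    refine ⟨W, b1, b2, fun R hW V ⟨c1, y, c2, c3⟩ τ t => ?_⟩
    obtain ⟨τ', c⟩ := h.2.2.1 y
    have := hR D a K x h.2.1 h.2.2.2 i _ _ (f2 i j ⟨e, he⟩ hj) _ _ τ τ' (G2.isLoc_V V) c c2.1
      (G2.indIn_mono (c3 _ (G2.indIn_le td (by omega))) c2.1 le_rfl) t
      (by rw [aeval_rename]; exact b3 R hW _ τ c1 t)
    rw [← Φ_sc] at this
    exact ⟨this.1 (.inl hi), this.2⟩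
  obtain ⟨R, I⟩ := Fb.inp_of_L hL M (hI _ K M) (hP _ K M)
  obtain ⟨h1, h2⟩ := Fb.n12 hL M (hI _ K M)
  exact I.fin7 lat7 hvr (sc D a).ok7 M.Q (hN _ K M h1 h2 g3 (sc D a).ok7 R I)

theorem sch_end3 {Y : Scheme.{0}} [IsIntegral Y] [IsLocallyNoetherian Y] (s : Y ⟶ Spec (.of ℂ))
    (hSM : St_SM) {D : Dat} {a : Fin D.m → ℂ} (H : ∀ (K : Type) [Field K] [Algebra ℂ K] (X : Var K)
      (Q : Prj X) (Γ : Curves X) (x : ∀ i, Fin (D.n i + 1) → K), D.HypA a x X.O →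
      (∀ z, Algebra.FormallySmooth ℂ (X.O z)) → Sm X → End.Cone Γ) [Smooth s]
    (hY : IsProjective s) (x : ∀ i, Fin (D.n i + 1) → Y.functionField)
    (h : letI := algK s; D.HypA a x OX) :
    ∃ S : Set (CDiv Y), S.Finite ∧ Covers s (cone S) ∧ ∀ φ L, IsPull s φ L → L ≠ 1 →
      interior (cone S) ∩ L '' interior (cone S) = ∅ := by
  letI := algK s
  have hu := UFD.stalk_ufd s
  obtain ⟨c⟩ := exists_coord' hY (algK_spec _) fun y => by haveI := hu y; infer_instance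
  have hf := SchB.fs s c
  obtain ⟨S, h1, h2, h3⟩ := H _ c.var c.prj c.curves x h hf (hSM _ _ hf fun z =>
    (eqO z).toMulEquiv.uniqueFactorizationMonoid (hu z))
  simp only [Var.Curves.Covers, c.isPull_iff] at h2 h3
  exact ⟨S, h1, h2, h3⟩

end Pool.Agent.Lib.MV.G3
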