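import Pool.Agent.Lib.MV.Blue

open MvPolynomial Set Pool.Agent.Lib.MP_e39d36_ag

noncomputable section

namespace Pool.Agent.Lib.MV

namespace BpfB

variable {D : Dat} {F : Type} [Field F] [Algebra ℂ F] {x : ∀ i, Fin (D.n i + 1) → F}

lemma gen_ne (hy : ∀ t, D.y x t ≠ 0) (v : D.Λ) (τ : D.Ch) : D.gen x v τ ≠ 0 :=
  Finset.prod_ne_zero_iff.2 fun _ _ => zpow_ne_zero _ (hy _)

lemma gen_add (hy : ∀ t, D.y x t ≠ 0) (v c : D.Λ) (τ : D.Ch) :
    D.gen x (v + c) τ = D.gen x v τ * D.gen x c τ := by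
  rw [Dat.gen, Dat.gA, Dat.gen, Dat.gA, Dat.gen, Dat.gA, ← Finset.prod_mul_distrib]
  exact Finset.prod_congr rfl fun μ _ => zpow_add₀ (hy _) _ _

lemma B_le {s : Finset D.Vx} {τ : D.Ch} (h : ∀ μ, τ.1 μ ∈ s) : D.B x τ ≤ D.Bs x s :=
  Algebra.adjoin_mono (by
    rintro _ ⟨t, rfl⟩
    exact ⟨τ.1 (D.sl t), h _, t, (τ.2 _).symm, rfl⟩)

lemma zpow_mem' {B : Subalgebra ℂ F} {a : F} (h : a ∈ B) (h' : a⁻¹ ∈ B) (n : ℤ) : a ^ n ∈ B := by
  cases n with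
  | ofNat n => rw [Int.ofNat_eq_natCast, zpow_natCast]; exact pow_mem h n
  | negSucc n => rw [zpow_negSucc, ← inv_pow]; exact pow_mem h' _

lemma ratio {s : Finset D.Vx} {τ τ' : D.Ch} (h : ∀ μ, τ.1 μ ∈ s) (h' : ∀ μ, τ'.1 μ ∈ s)
    (v : D.Λ) : D.gen x v τ' / D.gen x v τ ∈ D.Bs x s := by
  rw [Dat.gen, Dat.gA, Dat.gen, Dat.gA, ← Finset.prod_div_distrib]
  refine prod_mem fun μ _ => ?_
  rw [← div_zpow]
  refine zpow_mem' (Algebra.subset_adjoin ?_) (Algebra.subset_adjoin ?_) _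
  · exact ⟨_, h μ, _, (τ'.2 μ).trans (τ.2 μ).symm, rfl⟩
  · exact ⟨_, h' μ, _, (τ.2 μ).trans (τ'.2 μ).symm, inv_div _ _⟩

lemma mem_Ms (hy : ∀ t, D.y x t ≠ 0) {s : Finset D.Vx} {τ : D.Ch} (h : ∀ μ, τ.1 μ ∈ s)
    {v : D.Λ} {z : F} : z ∈ D.Ms x Finset.univ v s ↔ z / D.gen x v τ ∈ D.Bs x s := by
  refine ⟨fun hz => ?_, fun hz => AddSubgroup.subset_closure ⟨τ, fun μ _ => h μ, hz⟩⟩
  induction hz using AddSubgroup.closure_induction with
  | mem z hz =>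
    obtain ⟨τ', h', hz⟩ := hz
    have := mul_mem hz (ratio (x := x) h (fun μ => h' μ (Finset.mem_univ μ)) v)
    rwa [div_mul_div_cancel₀ (gen_ne hy v τ')] at this
  | zero => rw [zero_div]; exact zero_mem _
  | add a b _ _ ha hb => rw [add_div]; exact add_mem ha hb
  | neg a _ ha => rw [neg_div]; exact neg_mem ha

lemma eq_zero {s : Finset D.Vx} (h : ¬∃ τ : D.Ch, ∀ μ, τ.1 μ ∈ s) {v : D.Λ} {z : F}
    (hz : z ∈ D.Ms x Finset.univ v s) : z = 0 := by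
  refine (AddSubgroup.closure_le ⊥).2 ?_ hz
  rintro _ ⟨τ, h', -⟩
  exact (h ⟨τ, fun μ => h' μ (Finset.mem_univ μ)⟩).elim

lemma mono (v : D.Λ) : Monotone (D.Ms x Finset.univ v) := fun s s' h =>
  AddSubgroup.closure_mono (by
    rintro _ ⟨τ, h1, h2⟩
    refine ⟨τ, fun μ hμ => h (h1 μ hμ), Algebra.adjoin_mono ?_ h2⟩
    rintro _ ⟨t, ht, h3⟩
    exact ⟨t, h ht, h3⟩)

lemma unit {B B' : Subalgebra ℂ F} (hB : B ≤ B') {e e' : F} (he : e ∈ B) (he' : e' ∈ B)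
    (h : ∀ T : Subring F, IsLoc T → B.toSubring ≤ T → Un T e ∨ Un T e') :
    ∃ p ∈ B', ∃ p' ∈ B', p * e + p' * e' = 1 := by
  let a : B'.toSubring := ⟨e, hB he⟩
  let a' : B'.toSubring := ⟨e', hB he'⟩
  by_cases ht : Ideal.span {a, a'} = ⊤
  · obtain ⟨p, p', hp⟩ := Ideal.mem_span_pair.1 ((Ideal.eq_top_iff_one _).1 ht)
    exact ⟨p, p.2, p', p'.2, congrArg Subtype.val hp⟩
  · obtain ⟨M, hM, hle⟩ := Ideal.exists_le_maximal _ ht
    have := hM.isPrime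
    obtain ⟨T, h1, h2, h3⟩ := exists_locP M
    rcases h T h1 (fun _ hz => h2.1 (hB hz)) with h4 | h4
    · exact ((h3 a).1 h4 (hle (Ideal.subset_span (by simp)))).elim
    · exact ((h3 a').1 h4 (hle (Ideal.subset_span (by simp)))).elim

end BpfB

open BpfB in
theorem st_bpf : St_BPF := by
  intro D F _ _ x hy c v ⟨g, g', hg, hg', hP⟩
  have hu : ∀ {s : Finset D.Vx} {τ : D.Ch}, (∀ μ, τ.1 μ ∈ s) → ∃ p ∈ D.Bs x s, ∃ p' ∈ D.Bs x s,
      p * (g / D.gen x c τ) + p' * (g' / D.gen x c τ) = 1 := fun {s τ} h =>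
    unit (B_le h) (hg τ) (hg' τ) (hP τ)
  have up : ∀ {a : F}, D.Sec x c a → ∀ (w : D.Λ) (s : Finset D.Vx),
      ∀ z ∈ D.Ms x Finset.univ w s, a * z ∈ D.Ms x Finset.univ (w + c) s := by
    intro a ha w s z hz
    by_cases h : ∃ τ : D.Ch, ∀ μ, τ.1 μ ∈ s
    · obtain ⟨τ, h⟩ := h
      rw [mem_Ms hy h, gen_add hy, mul_comm a, mul_div_mul_comm]
      exact mul_mem ((mem_Ms hy h).1 hz) (B_le h (ha τ))
    · rw [eq_zero h hz, mul_zero]; exact zero_mem _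
  have down : ∀ {s : Finset D.Vx} {τ : D.Ch}, (∀ μ, τ.1 μ ∈ s) → ∀ {w : D.Λ}, ∀ p ∈ D.Bs x s,
      ∀ z ∈ D.Ms x Finset.univ (w + c) s, p * z / D.gen x c τ ∈ D.Ms x Finset.univ w s := by
    intro s τ h w p hp z hz
    rw [mem_Ms hy h, gen_add hy] at hz
    rw [mem_Ms hy h, div_div, mul_comm (D.gen x c τ), mul_div_assoc]
    exact mul_mem hp hz
  refine ⟨(AddMonoidHom.mulLeft g).prod (AddMonoidHom.mulLeft g'),
    (AddMonoidHom.mulLeft g').coprod (AddMonoidHom.mulLeft (-g)), mono v,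
    fun s s' h => AddSubgroup.prod_mono (mono _ h) (mono _ h), fun s z hz h0 => ?_,
    fun s z hz => ⟨up hg v s z hz, up hg' v s z hz⟩,
    fun s y hz => add_mem (up hg' _ s _ hz.1) ?_, fun s z _ => ?_, fun s y hz h0 => ?_,
    fun s z hz => ?_⟩
  · by_cases h : ∃ τ : D.Ch, ∀ μ, τ.1 μ ∈ s
    · obtain ⟨τ, h⟩ := h
      obtain ⟨p, -, p', -, e⟩ := hu h
      have h1 : g * z = 0 := congrArg Prod.fst h0
      have h2 : g' * z = 0 := congrArg Prod.snd h0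
      linear_combination (-z) * e + p / D.gen x c τ * h1 + p' / D.gen x c τ * h2
    · exact eq_zero h hz
  · have := neg_mem (up hg _ s _ hz.2)
    rwa [← neg_mul] at this
  · change g' * (g * z) + -g * (g' * z) = 0
    ring
  · replace h0 : g' * y.1 + -g * y.2 = 0 := h0
    by_cases h : ∃ τ : D.Ch, ∀ μ, τ.1 μ ∈ s
    · obtain ⟨τ, h⟩ := h
      obtain ⟨p, hp, p', hp', e⟩ := hu h
      refine ⟨_, add_mem (down h p hp _ hz.1) (down h p' hp' _ hz.2), Prod.ext ?_ ?_⟩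
      · change g * _ = _
        linear_combination y.1 * e - p' / D.gen x c τ * h0
      · change g' * _ = _
        linear_combination y.2 * e + p / D.gen x c τ * h0
    · refine ⟨0, zero_mem _, ?_⟩
      rw [map_zero]
      exact Prod.ext (eq_zero h hz.1).symm (eq_zero h hz.2).symm
  · by_cases h : ∃ τ : D.Ch, ∀ μ, τ.1 μ ∈ s
    · obtain ⟨τ, h⟩ := h
      obtain ⟨p, hp, p', hp', e⟩ := hu h
      refine ⟨(_, _), ⟨down h p' hp' z hz, AddSubgroup.neg_mem _ (down h p hp z hz)⟩, ?_⟩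
      change g' * (p' * z / D.gen x c τ) + -g * -(p * z / D.gen x c τ) = z
      linear_combination z * e
    · exact ⟨0, zero_mem _, by rw [map_zero, eq_zero h hz]⟩

end Pool.Agent.Lib.MV
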