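import Pool.Agent.Lib.MV.Blue

open MvPolynomial

noncomputable section

namespace Pool.Agent.Lib.MV

namespace DecB

variable {σ : Type} [Fintype σ]

/-- The linear form with given coefficients. -/
def lf (v : σ → ℂ) : MvPolynomial σ ℂ := ∑ l, C (v l) * X l

theorem lf_hom (v : σ → ℂ) : (lf v).IsHomogeneous 1 :=
  IsHomogeneous.sum _ _ _ fun _ _ => isHomogeneous_C_mul_X _ _

theorem eval_lf (v p : σ → ℂ) : eval p (lf v) = v ⬝ᵥ p := by
  simp [lf, dotProduct]

theorem exists_lf {L : MvPolynomial σ ℂ} (h : L ∈ homogeneousSubmodule σ ℂ 1) :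
    ∃ v, L = lf v := by
  rw [homogeneousSubmodule_one_eq_span_X, Submodule.mem_span_range_iff_exists_fun] at h
  obtain ⟨c, rfl⟩ := h
  exact ⟨c, by simp [lf, smul_eq_C_mul]⟩

theorem lf_comb (a b c : ℂ) (u v w : σ → ℂ) :
    lf (a • u + b • v + c • w) = C a * lf u + C b * lf v + C c * lf w := by
  simp only [lf, Finset.mul_sum, ← Finset.sum_add_distrib]
  refine Finset.sum_congr rfl fun l _ => ?_
  simp only [Pi.add_apply, Pi.smul_apply, smul_eq_mul, map_add, map_mul]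
  ring

theorem span_perp (hσ : Fintype.card σ = 3) {p : σ → ℂ} {u : Fin 2 → σ → ℂ}
    (hu : LinearIndependent ℂ u) (hup : ∀ j, u j ⬝ᵥ p = 0) {w : σ → ℂ} (hw : w ⬝ᵥ p = 1)
    {v : σ → ℂ} (hv : v ⬝ᵥ p = 0) : ∃ a b : ℂ, v = a • u 0 + b • u 1 := by
  let φ : (σ → ℂ) →ₗ[ℂ] ℂ :=
    { toFun := fun x => x ⬝ᵥ p
      map_add' := fun x y => add_dotProduct x y p
      map_smul' := fun c x => smul_dotProduct c x p }
  have hr : LinearMap.range φ = ⊤ := LinearMap.range_eq_top.2 fun c =>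
    ⟨c • w, by rw [map_smul]; show c • (w ⬝ᵥ p) = c; rw [hw, smul_eq_mul, mul_one]⟩
  have hk : Module.finrank ℂ (LinearMap.ker φ) = 2 := by
    have := LinearMap.finrank_range_add_finrank_ker φ
    rw [hr, finrank_top, Module.finrank_self, Module.finrank_fintype_fun_eq_card, hσ] at this
    omega
  have hle : Submodule.span ℂ (Set.range u) ≤ LinearMap.ker φ :=
    Submodule.span_le.2 (by rintro _ ⟨j, rfl⟩; exact hup j)
  have he := Submodule.eq_of_le_of_finrank_eq hle (by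
    rw [finrank_span_eq_card hu, hk, Fintype.card_fin])
  have hm : v ∈ Submodule.span ℂ (Set.range u) := he ▸ (show v ∈ LinearMap.ker φ from hv)
  obtain ⟨c, hc⟩ := (Submodule.mem_span_range_iff_exists_fun ℂ).1 hm
  exact ⟨c 0, c 1, by rw [← hc, Fin.sum_univ_two]⟩

theorem dec (hσ : Fintype.card σ = 3) {p : σ → ℂ} (hp : p ≠ 0) {u : Fin 2 → σ → ℂ}
    (hu : LinearIndependent ℂ u) (hup : ∀ j, u j ⬝ᵥ p = 0) (d : ℕ) (G : MvPolynomial σ ℂ)
    (hG : G.IsHomogeneous (d + 1)) (h0 : eval p G = 0) :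
    ∃ G0 G1 : MvPolynomial σ ℂ, G0.IsHomogeneous d ∧ G1.IsHomogeneous d ∧
      G = lf (u 0) * G0 + lf (u 1) * G1 := by
  classical
  obtain ⟨l0, hl0⟩ := Function.ne_iff.1 hp
  have hw : (Pi.single l0 (p l0)⁻¹ : σ → ℂ) ⬝ᵥ p = 1 := by
    rw [single_dotProduct]; exact inv_mul_cancel₀ hl0
  set w : σ → ℂ := Pi.single l0 (p l0)⁻¹
  have lin : ∀ L ∈ homogeneousSubmodule σ ℂ 1, ∃ a b : ℂ,
      L = C a * lf (u 0) + C b * lf (u 1) + C (eval p L) * lf w := by
    intro L hL
    obtain ⟨v, rfl⟩ := exists_lf hL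
    obtain ⟨a, b, h⟩ := span_perp hσ hu hup hw (v := v - (v ⬝ᵥ p) • w)
      (by rw [sub_dotProduct, smul_dotProduct, hw, smul_eq_mul, mul_one, sub_self])
    refine ⟨a, b, ?_⟩
    rw [eval_lf, ← lf_comb, ← h, sub_add_cancel]
  have key : ∀ (d : ℕ), ∀ G ∈ homogeneousSubmodule σ ℂ (d + 1), ∃ G0 G1 : MvPolynomial σ ℂ,
      G0.IsHomogeneous d ∧ G1.IsHomogeneous d ∧
        G = lf (u 0) * G0 + lf (u 1) * G1 + C (eval p G) * lf w ^ (d + 1) := by
    intro d
    induction d with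
    | zero =>
      intro G hG
      obtain ⟨a, b, h⟩ := lin G hG
      exact ⟨C a, C b, isHomogeneous_C _ _, isHomogeneous_C _ _, by linear_combination h⟩
    | succ d ih =>
      intro G hG
      rw [← homogeneousSubmodule_one_pow, pow_succ', homogeneousSubmodule_one_pow] at hG
      refine Submodule.mul_induction_on hG (fun L hL K hK => ?_) ?_
      · obtain ⟨a, b, h⟩ := lin L hL
        obtain ⟨K0, K1, h0, h1, h2⟩ := ih K hK
        have hK' : K.IsHomogeneous (d + 1) := hK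
        have e : ∀ A : MvPolynomial σ ℂ, A.IsHomogeneous d → ∀ c : ℂ,
            (C c * (lf w * A)).IsHomogeneous (d + 1) := fun A hA c => by
          have := ((lf_hom w).mul hA).C_mul c
          rwa [add_comm] at this
        refine ⟨C a * K + C (eval p L) * (lf w * K0), C b * K + C (eval p L) * (lf w * K1),
          (hK'.C_mul a).add (e _ h0 _), (hK'.C_mul b).add (e _ h1 _), ?_⟩
        rw [map_mul, map_mul]
        linear_combination K * h + C (eval p L) * lf w * h2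
      · rintro x y ⟨x0, x1, hx0, hx1, hx⟩ ⟨y0, y1, hy0, hy1, hy⟩
        refine ⟨x0 + y0, x1 + y1, hx0.add hy0, hx1.add hy1, ?_⟩
        rw [map_add, map_add]
        linear_combination hx + hy
  obtain ⟨G0, G1, h1, h2, h3⟩ := key d G hG
  exact ⟨G0, G1, h1, h2, by rw [h0, map_zero, zero_mul, add_zero] at h3; exact h3⟩

end DecB

theorem st_dec : St_DEC := fun D i a d G hG h0 =>
  DecB.dec (by rw [Fintype.card_fin, D.n_eq i (Nat.pos_iff_ne_zero.1 a.pos)]) (D.p_ne i a)
    (D.u_ind i a) (D.u_p i a) d G hG h0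

end Pool.Agent.Lib.MV
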