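import Pool.Agent.Lib.MV.Blue

set_option linter.unusedSectionVars false
set_option linter.unusedVariables false

namespace Pool.Agent.Lib.MV

namespace DerkB

variable {n r : ℕ} {Pn : (Option (Fin r) → ℤ) → Prop} {v c : Option (Fin r) → ℤ} {q : ℤ}

lemma mid (hc : Pn c) (h1 : Der n Pn (v - c) q) (h2 : Der n Pn (v + c) q) : Der n Pn v q := by
  have h := Der.mid (n := n) (v - c) c q hc h1 (by rwa [sub_add_cancel])
  rwa [sub_add_cancel] at h

lemma quo (hc : Pn c) (h1 : Der n Pn (v - c) q) (h2 : Der n Pn (v - c - c) (q + 1)) :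
    Der n Pn v q := by
  have h := Der.quo (n := n) (v - c - c) c q hc (by rwa [sub_add_cancel]) h2
  rwa [sub_add_cancel, sub_add_cancel] at h

lemma cn (h2 : ∀ a b c d, a ≠ b → a ≠ c → a ≠ d → b ≠ c → b ≠ d → c ≠ d → Pn (conic a b c d))
    (a b c d : Fin r) (h : a ≠ b ∧ a ≠ c ∧ a ≠ d ∧ b ≠ c ∧ b ≠ d ∧ c ≠ d) : Pn (conic a b c d) :=
  h2 a b c d h.1 h.2.1 h.2.2.1 h.2.2.2.1 h.2.2.2.2.1 h.2.2.2.2.2

lemma d1 (Pn : (Option (Fin 1) → ℤ) → Prop) (h1 : ∀ a, Pn (Pi.single (some a) 1))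
    (h2 : ∀ a b c d, a ≠ b → a ≠ c → a ≠ d → b ≠ c → b ≠ d → c ≠ d → Pn (conic a b c d)) :
    Der 2 Pn (-kz 2 1 - kz 2 1) 2 := by
  refine Der.sub _ _ _ (h1 0) ?_ ?_
  · exact Der.base _ _ (by decide) (by decide)
  · exact Der.base _ _ (by decide) (by decide)

lemma d2 (Pn : (Option (Fin 2) → ℤ) → Prop) (h1 : ∀ a, Pn (Pi.single (some a) 1))
    (h2 : ∀ a b c d, a ≠ b → a ≠ c → a ≠ d → b ≠ c → b ≠ d → c ≠ d → Pn (conic a b c d)) :
    Der 2 Pn (-kz 2 2 - kz 2 2) 2 := by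
  refine Der.sub _ _ _ (h1 0) ?_ ?_
  · refine Der.sub _ _ _ (h1 1) ?_ ?_
    · exact Der.base _ _ (by decide) (by decide)
    · exact Der.base _ _ (by decide) (by decide)
  · refine Der.sub _ _ _ (h1 1) ?_ ?_
    · exact Der.base _ _ (by decide) (by decide)
    · exact Der.base _ _ (by decide) (by decide)

lemma d3 (Pn : (Option (Fin 3) → ℤ) → Prop) (h1 : ∀ a, Pn (Pi.single (some a) 1))
    (h2 : ∀ a b c d, a ≠ b → a ≠ c → a ≠ d → b ≠ c → b ≠ d → c ≠ d → Pn (conic a b c d)) :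
    Der 2 Pn (-kz 2 3 - kz 2 3) 2 := by
  refine Der.sub _ _ _ (h1 0) ?_ ?_
  · refine Der.sub _ _ _ (h1 1) ?_ ?_
    · refine Der.sub _ _ _ (h1 2) ?_ ?_
      · exact Der.base _ _ (by decide) (by decide)
      · exact Der.base _ _ (by decide) (by decide)
    · refine Der.sub _ _ _ (h1 2) ?_ ?_
      · exact Der.base _ _ (by decide) (by decide)
      · exact Der.base _ _ (by decide) (by decide)
  · refine Der.sub _ _ _ (h1 1) ?_ ?_
    · refine Der.sub _ _ _ (h1 2) ?_ ?_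
      · exact Der.base _ _ (by decide) (by decide)
      · exact Der.base _ _ (by decide) (by decide)
    · refine Der.sub _ _ _ (h1 2) ?_ ?_
      · exact Der.base _ _ (by decide) (by decide)
      · exact Der.base _ _ (by decide) (by decide)

lemma d4 (Pn : (Option (Fin 4) → ℤ) → Prop) (h1 : ∀ a, Pn (Pi.single (some a) 1))
    (h2 : ∀ a b c d, a ≠ b → a ≠ c → a ≠ d → b ≠ c → b ≠ d → c ≠ d → Pn (conic a b c d)) :
    Der 2 Pn (-kz 2 4 - kz 2 4) 2 := by
  refine Der.sub _ _ _ (cn h2 0 1 2 3 (by decide)) ?_ ?_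
  · exact Der.base _ _ (by decide) (by decide)
  · exact Der.base _ _ (by decide) (by decide)

lemma d5 (Pn : (Option (Fin 5) → ℤ) → Prop) (h1 : ∀ a, Pn (Pi.single (some a) 1))
    (h2 : ∀ a b c d, a ≠ b → a ≠ c → a ≠ d → b ≠ c → b ≠ d → c ≠ d → Pn (conic a b c d)) :
    Der 2 Pn (-kz 2 5 - kz 2 5) 2 := by
  refine Der.sub _ _ _ (h1 0) ?_ ?_
  · refine Der.sub _ _ _ (cn h2 1 2 3 4 (by decide)) ?_ ?_
    · exact Der.base _ _ (by decide) (by decide)
    · exact Der.base _ _ (by decide) (by decide)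
  · refine Der.sub _ _ _ (cn h2 1 2 3 4 (by decide)) ?_ ?_
    · exact Der.base _ _ (by decide) (by decide)
    · exact Der.base _ _ (by decide) (by decide)

lemma d6 (Pn : (Option (Fin 6) → ℤ) → Prop) (h1 : ∀ a, Pn (Pi.single (some a) 1))
    (h2 : ∀ a b c d, a ≠ b → a ≠ c → a ≠ d → b ≠ c → b ≠ d → c ≠ d → Pn (conic a b c d)) :
    Der 2 Pn (-kz 2 6 - kz 2 6) 2 := by
  refine Der.sub _ _ _ (h1 0) ?_ ?_
  · refine Der.sub _ _ _ (cn h2 1 2 3 4 (by decide)) ?_ ?_
    · refine Der.sub _ _ _ (h1 5) ?_ ?_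
      · exact Der.base _ _ (by decide) (by decide)
      · exact Der.base _ _ (by decide) (by decide)
    · refine mid (cn h2 1 2 3 5 (by decide)) ?_ ?_
      · refine Der.sub _ _ _ (h1 5) ?_ ?_
        · refine Der.sub _ _ _ (h1 5) ?_ ?_
          · exact Der.base _ _ (by decide) (by decide)
          · exact Der.base _ _ (by decide) (by decide)
        · exact Der.base _ _ (by decide) (by decide)
      · refine quo (cn h2 1 2 3 4 (by decide)) ?_ ?_
        · exact Der.base _ _ (by decide) (by decide)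
        · refine Der.sub _ _ _ (h1 4) ?_ ?_
          · exact Der.base _ _ (by decide) (by decide)
          · exact Der.base _ _ (by decide) (by decide)
  · refine Der.sub _ _ _ (h1 1) ?_ ?_
    · refine Der.sub _ _ _ (cn h2 2 3 4 5 (by decide)) ?_ ?_
      · exact Der.base _ _ (by decide) (by decide)
      · exact Der.base _ _ (by decide) (by decide)
    · refine Der.sub _ _ _ (cn h2 2 3 4 5 (by decide)) ?_ ?_
      · exact Der.base _ _ (by decide) (by decide)
      · exact Der.base _ _ (by decide) (by decide)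

end DerkB

theorem st_derk : St_DERK := by
  intro r h1 h6
  interval_cases r
  exacts [DerkB.d1, DerkB.d2, DerkB.d3, DerkB.d4, DerkB.d5, DerkB.d6]

end Pool.Agent.Lib.MV
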