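import Pool.Agent.Lib.MV.Blue
import Pool.Agent.Lib.MV.F_DIM

open Pool.Agent.Lib.MP_e39d36_ag Pool.Agent.Lib.MP_e39d36_ag.Var

namespace Pool.Agent.Lib.MV

theorem st_dim : St_DIM := by
  intro K _ _ X E k hk
  obtain ⟨i⟩ := X.nei
  obtain ⟨d, -, -, -, hd⟩ := Fb.DIM.noether X i
  obtain ⟨a, h1, h2⟩ := Fb.DIM.indIn X E hd
  rw [hd, Nat.cast_le] at hk
  have hle : k ≤ d - 1 := by omega
  refine ⟨a ∘ Fin.castLE hle, fun l => h1 _, fun P hP => ?_⟩
  rw [← MvPolynomial.aeval_rename]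
  exact h2 _ fun h => hP (MvPolynomial.rename_injective _ (Fin.castLE_injective hle)
    (h.trans (map_zero _).symm))

end Pool.Agent.Lib.MV
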