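import Pool.Agent.Lib.MV.Blue

open MvPolynomial Set Pool.Agent.Lib.MP_e39d36_ag Pool.Agent.Lib.MP_e39d36_ag.Var

set_option linter.unusedSectionVars false
set_option linter.unusedVariables false

noncomputable section

namespace Pool.Agent.Lib.MV

namespace NyB

lemma mem_of_loc {K : Type} [Field K] {B : Subring K} {z : K}
    (h : ∀ T, IsLoc T → LocOf B T → z ∈ T) : z ∈ B := by
  let I : Ideal B :=
    { carrier := {b | (b : K) * z ∈ B}
      zero_mem' := by simp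
      add_mem' := fun {a b} ha hb => by
        rw [mem_ofPred_eq, Subring.coe_add, add_mul]; exact add_mem ha hb
      smul_mem' := fun c b hb => by
        rw [mem_ofPred_eq, smul_eq_mul, Subring.coe_mul, mul_assoc]; exact mul_mem c.2 hb }
  by_contra hz
  obtain ⟨p, hp, hI⟩ := Ideal.exists_le_maximal I fun e => hz (by
    simpa [I] using (Ideal.eq_top_iff_one I).1 e)
  obtain ⟨T, h1, h2, h3⟩ := exists_locP p
  obtain ⟨b, h4, h5, h6⟩ := h2.2 z (h T h1 h2)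
  exact (h3 ⟨b, h4⟩).1 h5 (hI h6)

lemma un_zpow {K : Type} [Field K] {R : Subring K} {a : K} (h : Un R a) (n : ℤ) : Un R (a ^ n) := by
  cases n with
  | ofNat n => simpa using h.pow n
  | negSucc n => rw [zpow_negSucc]; exact (h.pow _).inv

variable {D : Dat} {F : Type} [Field F] [Algebra ℂ F] {x : ∀ i, Fin (D.n i + 1) → F}

lemma Bs_mono : Monotone (D.Bs x) := fun s s' h => Algebra.adjoin_mono
  fun _ ⟨t, ht, e⟩ => ⟨t, h ht, e⟩

lemma div_mem_Bs {s : Finset D.Vx} {t t' : D.Vx} (ht : t ∈ s) (h : D.sl t' = D.sl t) :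
    D.y x t' / D.y x t ∈ D.Bs x s := Algebra.subset_adjoin ⟨t, ht, t', h, rfl⟩

lemma B_le_Bs {s : Finset D.Vx} {τ : D.Ch} (h : ∀ μ, τ.1 μ ∈ s) : D.B x τ ≤ D.Bs x s :=
  Algebra.adjoin_le (by rintro _ ⟨t, rfl⟩; exact div_mem_Bs (h _) (τ.2 _).symm)

lemma Ms_mono (v : D.Λ) : Monotone (D.Ms x Finset.univ v) := fun s s' h =>
  AddSubgroup.closure_mono fun _ ⟨τ, h1, h2⟩ => ⟨τ, fun μ hμ => h (h1 μ hμ), Bs_mono h h2⟩

lemma Ms_zero {v : D.Λ} {s : Finset D.Vx} (h : ¬∃ τ : D.Ch, ∀ μ, τ.1 μ ∈ s) {z : F}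
    (hz : z ∈ D.Ms x Finset.univ v s) : z = 0 := by
  have : D.Ms x Finset.univ v s ≤ ⊥ := (AddSubgroup.closure_le ⊥).2 (by
    rintro _ ⟨τ, h1, -⟩
    exact (h ⟨τ, fun μ => h1 μ (Finset.mem_univ _)⟩).elim)
  exact this hz

lemma gen_ne (hy : ∀ t, D.y x t ≠ 0) (v : D.Λ) (τ : D.Ch) : D.gen x v τ ≠ 0 :=
  Finset.prod_ne_zero_iff.2 fun _ _ => zpow_ne_zero _ (hy _)

lemma mem_Ms (hy : ∀ t, D.y x t ≠ 0) {v : D.Λ} {s : Finset D.Vx} {τ : D.Ch}
    (h : ∀ μ, τ.1 μ ∈ s) {z : F} : z ∈ D.Ms x Finset.univ v s ↔ z / D.gen x v τ ∈ D.Bs x s := by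
  refine ⟨fun hz => ?_, fun hz => AddSubgroup.subset_closure ⟨τ, fun μ _ => h μ, hz⟩⟩
  induction hz using AddSubgroup.closure_induction with
  | zero => rw [zero_div]; exact zero_mem _
  | add a b _ _ ha hb => rw [add_div]; exact add_mem ha hb
  | neg a _ ha => rw [neg_div]; exact neg_mem ha
  | mem a ha =>
    obtain ⟨τ', h1, h2⟩ := ha
    have h3 : Un (D.Bs x s).toSubring (D.gen x v τ' / D.gen x v τ) := by
      rw [Dat.gen, Dat.gen, Dat.gA, Dat.gA, ← Finset.prod_div_distrib]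
      refine Un.prod fun μ hμ => ?_
      rw [← div_zpow]
      refine un_zpow ⟨div_ne_zero (hy _) (hy _), div_mem_Bs (h μ) ((τ'.2 μ).trans (τ.2 μ).symm), ?_⟩ _
      rw [inv_div]
      exact div_mem_Bs (h1 μ hμ) ((τ.2 μ).trans (τ'.2 μ).symm)
    have := mul_mem h2 h3.2.1
    rwa [div_mul_div_cancel₀ (gen_ne hy v τ')] at this

lemma gen_neg (v : D.Λ) (τ : D.Ch) : D.gen x (-v) τ = (D.gen x v τ)⁻¹ := by
  simp [Dat.gen, Dat.gA]

lemma gen_h (μ : D.Sl) (τ : D.Ch) : D.gen x (D.h μ) τ = D.y x (τ.1 μ) := by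
  rw [Dat.gen, Dat.gA, Finset.prod_eq_single_of_mem μ (Finset.mem_univ _)]
  · simp [Dat.h]
  · rintro ⟨i, o⟩ - hne
    obtain ⟨j, o'⟩ := μ
    by_cases e : i = j
    · subst e
      have : o ≠ o' := fun e => hne (by rw [e])
      simp [Dat.h, this]
    · simp [Dat.h, e]

lemma mem_Ps (hy : ∀ t, D.y x t ≠ 0) {s : Finset D.Vx} {τ : D.Ch} (h : ∀ μ, τ.1 μ ∈ s)
    {g : D.Vx → F} : g ∈ D.Ps x s ↔ ∀ t, g t * D.y x (τ.1 (D.sl t)) ∈ D.Bs x s := by
  refine forall_congr' fun t => (imp_iff_right (mem_univ t)).trans ((mem_Ms hy h).trans ?_)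
  rw [gen_neg, gen_h, div_inv_eq_mul]

lemma B_le (hy : ∀ t, D.y x t ≠ 0) {R V : Subring F} (h : Dom R V) {τ τ' : D.Ch}
    (h1 : (D.B x τ').toSubring ≤ R) (h2 : (D.B x τ).toSubring ≤ V) : (D.B x τ).toSubring ≤ R := by
  let R' : Subalgebra ℂ F := { R with algebraMap_mem' := fun a => h1 ((D.B x τ').algebraMap_mem a) }
  refine (show D.B x τ ≤ R' from Algebra.adjoin_le ?_)
  rintro _ ⟨t, rfl⟩
  have a1 : ∀ (σ : D.Ch) t, D.rat x σ t ∈ D.B x σ := fun σ t => Algebra.subset_adjoin ⟨t, rfl⟩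
  have a2 := h1 (a1 τ' (τ.1 (D.sl t)))
  have a3 := h2 (a1 τ (τ'.1 (D.sl t)))
  rw [Dat.rat, τ.2] at a2
  rw [Dat.rat, τ'.2] at a3
  have a4 := (h.2 _ a2 ⟨div_ne_zero (hy _) (hy _), h.1 a2, by rwa [inv_div]⟩).div_mem (h1 (a1 τ' t))
  rwa [Dat.rat, div_div_div_cancel_right₀ (hy _)] at a4

lemma exists_pt {K : Type} [Field K] [Algebra ℂ K] (M : D.Mod K) {τ : D.Ch} {T : Subring K}
    (hT : IsLoc T) (h : (D.B M.x τ).toSubring ≤ T) :
    ∃ z, (D.B M.x τ).toSubring ≤ M.X.O z ∧ M.X.O z ≤ T := by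
  obtain ⟨V, hV⟩ := hT.exists_val
  obtain ⟨i, hi⟩ := M.X.exists_chart_val V fun a => hV.1 (h ((D.B M.x τ).algebraMap_mem a))
  obtain ⟨z, hz, -⟩ := exists_centre (isLoc_of_val V.mem_or_inv_mem) hi
  obtain ⟨τ', h1⟩ := M.hyp.chart z
  have h2 := B_le M.hyp.ne hV h (h1.1.trans hz.1)
  exact ⟨z, B_le M.hyp.ne hz h1.1 (h.trans hV.1),
    h1.le h2 fun b hb hu => hV.2 b (h2 hb) (hu.mono hz.1)⟩

end NyB

open NyB in
theorem st_ny (hDRV : St_DRV) (hXI : St_XI) (hREL : St_REL) (hSAT : St_SAT) (hDF : St_DF)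
    (hVANY : St_VANY) : St_NY := by
  intro D K _ _ M
  have hy := M.hyp.ne
  obtain ⟨x1, -, x3⟩ := hXI D K M.x hy
  obtain ⟨s1, s2⟩ := hSAT D K M.x hy
  obtain ⟨v1, v2, v3⟩ := hVANY D K M
  obtain ⟨η, hη⟩ := M.X.exists_top
  obtain ⟨τ0, -⟩ := M.hyp.chart η
  have hd : ∀ τ, ∃ δ, D.Drv M.x τ δ := fun τ =>
    (hDRV D K M η τ (hη ▸ le_top)).imp fun _ h => h.2
  obtain ⟨δ0, h0⟩ := hd τ0
  have hα : ∀ (τ : D.Ch) δ, D.Drv M.x τ δ → ∀ a, D.ξ M.x τ δ (D.α M.x a) = 0 := fun τ δ h a => by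
    simp only [Dat.α, Fintype.linearCombination_apply, map_sum, map_smul, (x3 τ δ h).2.1,
      smul_zero, Finset.sum_const_zero]
  have hφ : D.φ M.x ≠ 0 := fun e => gen_ne hy D.κ τ0 (by rw [← (x3 τ0 δ0 h0).2.2, e, map_zero])
  obtain ⟨ξ0, hξ⟩ : ∃ ξ0 : (D.Vx → K) →ₗ[K] K, ∀ a m, ξ0 (D.α M.x a + m • D.φ M.x) = m :=
    ⟨(D.gen M.x D.κ τ0)⁻¹ • D.ξ M.x τ0 δ0, fun a m => by
      rw [LinearMap.smul_apply, map_add, map_smul, hα τ0 δ0 h0, (x3 τ0 δ0 h0).2.2, zero_add,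
        smul_eq_mul, smul_eq_mul, mul_comm m, inv_mul_cancel_left₀ (gen_ne hy _ _)]⟩
  have key : ∀ (τ : D.Ch) δ, D.Drv M.x τ δ → ∀ g, D.β M.x g = 0 →
      D.ξ M.x τ δ g = ξ0 g * D.gen M.x D.κ τ := fun τ δ h g hg => by
    obtain ⟨a, m, rfl⟩ := hREL D K M hφ g hg
    rw [hξ, map_add, map_smul, hα τ δ h, (x3 τ δ h).2.2, zero_add, smul_eq_mul]
  have mP : Monotone (D.Ps M.x) := fun s s' h g hg t ht => Ms_mono _ h (hg t ht)
  have mN : Monotone (D.Ns M.x) := fun s s' h => inf_le_inf_right _ (mP h)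
  have S1 : SES (D.Rs M.x) (D.Ns M.x) (D.Ms M.x Finset.univ (-D.κ)) (D.α M.x).toAddMonoidHom
      ξ0.toAddMonoidHom :=
    { mA := fun s s' h g hg t ht => Ms_mono _ h (hg t ht)
      mB := mN
      inj := fun s a _ h => s1 a h
      fm := fun s a ha => ⟨(s2 s a).2 ha, show D.β M.x (D.α M.x a) = 0 by
        simp only [Dat.α, Fintype.linearCombination_apply, map_sum, map_smul, x1, smul_zero,
          Finset.sum_const_zero]⟩
      gm := fun s g hg => by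
        change ξ0 g ∈ _
        by_cases hs : ∃ τ : D.Ch, ∀ μ, τ.1 μ ∈ s
        · obtain ⟨τ, hτ⟩ := hs
          rw [mem_Ms hy hτ, gen_neg, div_inv_eq_mul]
          refine mem_of_loc (B := (D.Bs M.x s).toSubring) fun T hT hB => ?_
          obtain ⟨z, h1, h2⟩ := exists_pt M hT fun b hb => hB.1 (B_le_Bs hτ hb)
          obtain ⟨δ, h3, h4⟩ := hDRV D K M z τ h1
          rw [← key τ δ h4 g hg.2, Dat.ξ, Fintype.linearCombination_apply]
          refine sum_mem fun t _ => ?_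
          rw [smul_eq_mul, ← mul_assoc]
          exact mul_mem (hB.1 ((mem_Ps hy hτ).1 hg.1 t)) (h2 (h3 t))
        · rw [show g = 0 from funext fun t => Ms_zero hs (hg.1 t trivial), map_zero]
          exact zero_mem _
      gf := fun s a _ => by simpa using hξ a 0
      ex := fun s g hg h => by
        obtain ⟨a, m, rfl⟩ := hREL D K M hφ g hg.2
        have h1 : m = 0 := (hξ a m).symm.trans h
        subst h1
        rw [zero_smul, add_zero] at hg ⊢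
        exact ⟨a, (s2 s a).1 hg.1, rfl⟩
      su := fun s z hz => by
        by_cases hs : ∃ τ : D.Ch, ∀ μ, τ.1 μ ∈ s
        · obtain ⟨τ, hτ⟩ := hs
          rw [mem_Ms hy hτ, gen_neg, div_inv_eq_mul] at hz
          obtain ⟨g, h1, h2, h3⟩ := hDF D K M τ
          obtain ⟨δ, h4⟩ := hd τ
          refine ⟨(z * D.gen M.x D.κ τ) • g, ⟨(mem_Ps hy hτ).2 fun t => ?_, ?_⟩, ?_⟩
          · rw [Pi.smul_apply, smul_eq_mul, mul_assoc]
            exact mul_mem hz (B_le_Bs hτ (h1 t))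
          · change D.β M.x _ = 0
            rw [map_smul, h2, smul_zero]
          · change ξ0 _ = z
            rw [map_smul, smul_eq_mul, mul_assoc, mul_comm _ (ξ0 g), ← key τ δ h4 g h2, h3 δ h4,
              mul_one]
        · exact ⟨0, zero_mem _, (map_zero _).trans (Ms_zero hs hz).symm⟩ }
  have S2 : SES (D.Ns M.x) (D.Ps M.x) (D.Es M.x) (AddMonoidHom.id _) (D.β M.x).toAddMonoidHom :=
    { mA := mN
      mB := mP
      inj := fun s a _ h => h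
      fm := fun s a ha => ha.1
      gm := fun s g hg => ⟨g, hg, rfl⟩
      gf := fun s a ha => ha.2
      ex := fun s g hg h => ⟨g, ⟨hg, h⟩, rfl⟩
      su := fun s z hz => hz }
  exact S2.exC (Ex.pi fun t => v1 (D.sl t)) (S1.exB (Ex.pi fun w => v2 w.1 w.2) v3)

end Pool.Agent.Lib.MV
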