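import Mathlib

/-! Cochains on finite sets of vertices with coefficients in a system of subgroups. -/

namespace Pool.Agent.Lib.MV

open Finset

variable {V : Type} [LinearOrder V] {A B C : Type} [AddCommGroup A] [AddCommGroup B]
  [AddCommGroup C]

/-- sign of the vertex `t` in `s` -/
def sg (t : V) (s : Finset V) : ℤ := (-1) ^ (s.filter (· < t)).card

/-- the coboundary -/
def cb (c : Finset V → A) (s : Finset V) : A := ∑ t ∈ s, sg t s • c (s.erase t)

/-- cocycles on subsets of `W` with `q` elements are coboundaries -/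
def Ex (W : Finset V) (M : Finset V → AddSubgroup A) (q : ℕ) : Prop :=
  ∀ c : Finset V → A, (∀ s, c s ∈ M s) → (∀ s ⊆ W, s.card = q + 1 → cb c s = 0) →
    ∃ b : Finset V → A, (∀ s, b s ∈ M s) ∧ ∀ s ⊆ W, s.card = q → c s = cb b s

lemma sg_mul_self (t : V) (s : Finset V) : sg t s * sg t s = 1 := by
  rw [sg, ← mul_pow]; simp

lemma sg_smul_smul (t : V) (s : Finset V) (a : A) : sg t s • sg t s • a = a := by
  rw [smul_smul, sg_mul_self, one_smul]

lemma sg_erase_self (t : V) (s : Finset V) : sg t (s.erase t) = sg t s := by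
  unfold sg
  congr 2
  ext u
  simp only [mem_filter, mem_erase]
  exact ⟨fun h => ⟨h.1.2, h.2⟩, fun h => ⟨⟨h.2.ne, h.1⟩, h.2⟩⟩

lemma sg_insert {t u : V} {s : Finset V} (hu : u ∉ s) :
    sg t (insert u s) = if u < t then -sg t s else sg t s := by
  unfold sg
  rw [filter_insert]
  split_ifs with h
  · rw [card_insert_of_notMem fun h' => hu (mem_filter.1 h').1, pow_succ]; ring
  · rfl

lemma sg_insert_self (t : V) (s : Finset V) : sg t (insert t s) = sg t s := by
  by_cases h : t ∈ s
  · rw [insert_eq_of_mem h]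
  · rw [sg_insert h, if_neg (lt_irrefl t)]

/-- the basic anticommutation relation -/
lemma sg_anti {t u : V} {s : Finset V} (h : t ≠ u) (ht : t ∉ s) (hu : u ∉ s) :
    sg t (insert u s) * sg u s = -(sg u (insert t s) * sg t s) := by
  rw [sg_insert hu, sg_insert ht]
  rcases lt_or_gt_of_ne h with h | h
  · rw [if_neg h.not_gt, if_pos h]; ring
  · rw [if_pos h, if_neg h.not_gt]; ring

lemma sg_anti' {t u : V} {s : Finset V} (h : t ≠ u) (ht : t ∈ s) (hu : u ∈ s) :
    sg t s * sg u (s.erase t) = -(sg u s * sg t (s.erase u)) := by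
  have e1 : insert u ((s.erase t).erase u) = s.erase t := insert_erase (mem_erase.2 ⟨h.symm, hu⟩)
  have e2 : insert t ((s.erase t).erase u) = s.erase u := by
    rw [erase_right_comm]; exact insert_erase (mem_erase.2 ⟨h, ht⟩)
  have := sg_anti (s := (s.erase t).erase u) h (by simp) (by simp)
  rw [e1, e2, sg_erase_self, sg_erase_self, sg_erase_self, erase_right_comm, sg_erase_self] at this
  exact this

lemma cb_cb (c : Finset V → A) (s : Finset V) : cb (cb c) s = 0 := by
  unfold cb
  simp only [smul_sum, smul_smul]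
  rw [sum_sigma']
  refine sum_involution (fun p _ => ⟨p.2, p.1⟩) (fun p hp => ?_) (fun p hp _ h => ?_)
    (fun p hp => ?_) fun _ _ => rfl
  · obtain ⟨h1, h2⟩ := mem_sigma.1 hp
    rw [sg_anti' (mem_erase.1 h2).1.symm h1 (mem_erase.1 h2).2, erase_right_comm, neg_smul,
      neg_add_cancel]
  · exact (mem_erase.1 (mem_sigma.1 hp).2).1 (congrArg Sigma.fst h)
  · obtain ⟨h1, h2⟩ := mem_sigma.1 hp
    exact mem_sigma.2 ⟨(mem_erase.1 h2).2, mem_erase.2 ⟨(mem_erase.1 h2).1.symm, h1⟩⟩

lemma map_cb (f : A →+ B) (c : Finset V → A) (s : Finset V) :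
    f (cb c s) = cb (fun s => f (c s)) s := by simp [cb]

lemma cb_add (c c' : Finset V → A) (s : Finset V) :
    cb (fun s => c s + c' s) s = cb c s + cb c' s := by simp [cb, sum_add_distrib]

lemma cb_sub (c c' : Finset V → A) (s : Finset V) :
    cb (fun s => c s - c' s) s = cb c s - cb c' s := by simp [cb, smul_sub]

lemma cb_congr {c c' : Finset V → A} {s : Finset V} (h : ∀ t ∈ s, c (s.erase t) = c' (s.erase t)) :
    cb c s = cb c' s := sum_congr rfl fun t ht => by rw [h t ht]

lemma cb_congr' {c c' : Finset V → A} {W s : Finset V} {q : ℕ} (hs : s ⊆ W) (hq : s.card = q + 1)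
    (h : ∀ s ⊆ W, s.card = q → c s = c' s) : cb c s = cb c' s :=
  cb_congr fun t ht => h _ ((erase_subset _ _).trans hs) (by rw [card_erase_of_mem ht, hq]; rfl)

lemma cb_mem {M : Finset V → AddSubgroup A} (hM : Monotone M) {c : Finset V → A}
    (hc : ∀ s, c s ∈ M s) (s : Finset V) : cb c s ∈ M s :=
  sum_mem fun t _ => zsmul_mem (hM (erase_subset t s) (hc _)) _

lemma cb_insert {t : V} {s : Finset V} (ht : t ∉ s) (c : Finset V → A) : cb c (insert t s) =
    sg t s • c s + ∑ u ∈ s, sg u (insert t s) • c (insert t (s.erase u)) := by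
  rw [cb, sum_insert ht, erase_insert ht, sg_insert_self]
  congr 1
  refine sum_congr rfl fun u hu => ?_
  rw [erase_insert_of_ne (by rintro rfl; exact ht hu)]

/-- restriction of a cochain to the sets containing `t` -/
def io (t : V) (c : Finset V → A) (s : Finset V) : A := sg t s • c (insert t s)

lemma cb_io {t : V} {s : Finset V} (ht : t ∉ s) (c : Finset V → A) :
    cb (io t c) s = c s - io t (cb c) s := by
  rw [io, cb_insert ht, smul_add, sg_smul_smul, sub_add_cancel_left, cb, smul_sum,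
    ← sum_neg_distrib]
  refine sum_congr rfl fun u hu => ?_
  have h : u ≠ t := by rintro rfl; exact ht hu
  have := sg_anti' (s := insert t s) h (mem_insert_of_mem hu) (mem_insert_self _ _)
  rw [erase_insert ht, erase_insert_of_ne h.symm, sg_insert_self, sg_insert_self] at this
  rw [io, smul_smul, smul_smul, ← neg_smul]
  congr 1
  have a1 := sg_mul_self t s
  have a2 := sg_mul_self t (s.erase u)
  linear_combination (sg t s * sg t (s.erase u)) * this - sg u s * sg t (s.erase u) * a1 -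
    sg t s * sg u (insert t s) * a2

/-- contraction -/
def hm (t : V) (c : Finset V → A) (s : Finset V) : A := if t ∈ s then 0 else io t c s

lemma cb_hm_mem {t : V} {s : Finset V} (ht : t ∈ s) (c : Finset V → A) : cb (hm t c) s = c s := by
  rw [cb, sum_eq_single_of_mem t ht fun u _ h => by
    rw [hm, if_pos (mem_erase.2 ⟨h.symm, ht⟩), smul_zero]]
  rw [hm, if_neg (notMem_erase t s), io, sg_erase_self, sg_smul_smul, insert_erase ht]

lemma cb_hm {t : V} {s : Finset V} {c : Finset V → A} (h : t ∉ s → cb c (insert t s) = 0) :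
    cb (hm t c) s = c s := by
  by_cases ht : t ∈ s
  · exact cb_hm_mem ht c
  rw [cb_congr (c' := io t c) fun u _ => if_neg fun h => ht (mem_of_mem_erase h), cb_io ht, io,
    h ht, smul_zero, sub_zero]

lemma cb_two {t u : V} {s : Finset V} (h : t ≠ u) (ht : t ∉ s) (hu : u ∉ s) {c : Finset V → A}
    (hc : ∀ x ∈ s, c (insert t (insert u (s.erase x))) = 0) : cb c (insert t (insert u s)) =
      sg t (insert u s) • c (insert u s) + sg u (insert t s) • c (insert t s) := by
  rw [cb_insert (by simp [h, ht]), sum_insert hu, erase_insert hu, insert_comm t u, sg_insert_self,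
    sum_eq_zero, add_zero]
  intro x hx
  rw [erase_insert_of_ne (by rintro rfl; exact hu hx), hc x hx, smul_zero]

lemma io_eq_io {t u : V} {s : Finset V} (h : t ≠ u) (ht : t ∉ s) (hu : u ∉ s) {c : Finset V → A}
    (hc : ∀ x ∈ s, c (insert t (insert u (s.erase x))) = 0)
    (h0 : cb c (insert t (insert u s)) = 0) : io t c s = io u c s := by
  rw [cb_two h ht hu hc] at h0
  have h1 := congrArg (fun x => (sg t (insert u s) * sg u s) • x) h0
  have a1 := sg_mul_self t (insert u s)
  have a2 := sg_mul_self u (insert t s)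
  have e1 : sg t (insert u s) * sg u s * sg t (insert u s) = sg u s := by
    linear_combination sg u s * a1
  have e2 : sg t (insert u s) * sg u s * sg u (insert t s) = -sg t s := by
    rw [sg_anti h ht hu]; linear_combination (-sg t s) * a2
  simp only [smul_add, smul_smul, smul_zero, e1, e2, neg_smul] at h1
  exact (add_neg_eq_zero.1 h1).symm

variable {W : Finset V} {q : ℕ}

lemma Ex.zero {M : Finset V → AddSubgroup A} (h : M ∅ = ⊥) : Ex W M 0 := fun c hc _ =>
  ⟨0, fun _ => zero_mem _, fun s _ hs => by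
    rw [card_eq_zero.1 hs, cb, sum_empty]; simpa [h] using hc ∅⟩

lemma Ex.of_bot {M : Finset V → AddSubgroup A} (h : ∀ s ⊆ W, s.card = q → M s = ⊥) : Ex W M q :=
  fun c hc _ => ⟨0, fun _ => zero_mem _, fun s hs hq => by simpa [cb, h s hs hq] using hc s⟩

lemma Ex.contract {M : Finset V → AddSubgroup A} {t : V} (ht : t ∈ W)
    (h : ∀ s, t ∉ s → M (insert t s) ≤ M s) : Ex W M q := fun c hc h0 =>
  ⟨hm t c, fun s => by
    unfold hm
    split_ifs with h'
    · exact zero_mem _
    · exact zsmul_mem (h s h' (hc _)) _,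
  fun s hs hq => (cb_hm fun h' =>
    h0 _ (insert_subset ht hs) (by rw [card_insert_of_notMem h', hq])).symm⟩

/-- only the values of the system on subsets of `W` matter -/
lemma Ex.congr {M M' : Finset V → AddSubgroup A} (h : ∀ s ⊆ W, M s = M' s) (H : Ex W M q) :
    Ex W M' q := fun c hc h0 => by
  classical
  obtain ⟨b, hb, e⟩ := H (fun s => if s ⊆ W then c s else 0) (fun s => by
    split_ifs with hs
    · rw [h s hs]; exact hc s
    · exact zero_mem _) fun s hs hq => (cb_congr' hs hq fun u hu _ => if_pos hu).trans (h0 s hs hq)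
  refine ⟨fun s => if s ⊆ W then b s else 0, fun s => ?_, fun s hs hq => ?_⟩
  · beta_reduce
    split_ifs with hs
    · rw [← h s hs]; exact hb s
    · exact zero_mem _
  · rw [← (if_pos hs : (if s ⊆ W then c s else 0) = c s), e s hs hq]
    exact cb_congr fun t _ => (if_pos ((erase_subset _ _).trans hs)).symm

/-- transport along a cellwise bijection -/
lemma Ex.map {M : Finset V → AddSubgroup A} {N : Finset V → AddSubgroup B} (f : A →+ B)
    (hM : Monotone M) (hi : ∀ s, ∀ x ∈ M s, f x = 0 → x = 0) (hf : ∀ s, ∀ x ∈ M s, f x ∈ N s)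
    (hs : ∀ s, ∀ y ∈ N s, ∃ x ∈ M s, f x = y) : Ex W M q ↔ Ex W N q := by
  refine ⟨fun H c hc h0 => ?_, fun H c hc h0 => ?_⟩
  · choose a ha e using fun s => hs s _ (hc s)
    obtain ⟨b, hb, e'⟩ := H a ha fun s h1 h2 => hi s _ (cb_mem hM ha s) (by
      rw [map_cb, funext e, h0 s h1 h2])
    exact ⟨fun s => f (b s), fun s => hf s _ (hb s), fun s h1 h2 => by
      rw [← e, e' s h1 h2, map_cb]⟩
  · obtain ⟨b, hb, e⟩ := H (fun s => f (c s)) (fun s => hf s _ (hc s)) fun s h1 h2 => by
      rw [← map_cb, h0 s h1 h2, map_zero]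
    choose a ha e' using fun s => hs s _ (hb s)
    refine ⟨a, ha, fun s h1 h2 => sub_eq_zero.1 (hi s _ (sub_mem (hc s) (cb_mem hM ha s)) ?_)⟩
    rw [map_sub, map_cb, funext e', e s h1 h2, sub_self]

lemma Ex.pi {ι : Type} {G : ι → Type} [∀ i, AddCommGroup (G i)]
    {M : ∀ i, Finset V → AddSubgroup (G i)} (H : ∀ i, Ex W (M i) q) :
    Ex W (fun s => AddSubgroup.pi Set.univ fun i => M i s) q := fun c hc h0 => by
  choose b hb e using fun i => H i (fun s => c s i) (fun s => hc s i trivial) fun s h1 h2 =>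
    (map_cb (Pi.evalAddMonoidHom G i) c s).symm.trans (by rw [h0 s h1 h2]; rfl)
  exact ⟨fun s i => b i s, fun s i _ => hb i s, fun s h1 h2 => funext fun i =>
    (e i s h1 h2).trans (map_cb (Pi.evalAddMonoidHom G i) (fun s i => b i s) s).symm⟩

lemma Ex.prod {M : Finset V → AddSubgroup A} {N : Finset V → AddSubgroup B} :
    Ex W (fun s => (M s).prod (N s)) q ↔ Ex W M q ∧ Ex W N q := by
  refine ⟨fun H => ⟨fun c hc h0 => ?_, fun c hc h0 => ?_⟩, fun H c hc h0 => ?_⟩
  · obtain ⟨b, hb, e⟩ := H (fun s => AddMonoidHom.inl A B (c s)) (fun s => ⟨hc s, zero_mem _⟩)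
      fun s h1 h2 => by rw [← map_cb, h0 s h1 h2, map_zero]
    exact ⟨fun s => (b s).1, fun s => (hb s).1, fun s h1 h2 =>
      (congrArg Prod.fst (e s h1 h2)).trans (map_cb (AddMonoidHom.fst A B) b s)⟩
  · obtain ⟨b, hb, e⟩ := H (fun s => AddMonoidHom.inr A B (c s)) (fun s => ⟨zero_mem _, hc s⟩)
      fun s h1 h2 => by rw [← map_cb, h0 s h1 h2, map_zero]
    exact ⟨fun s => (b s).2, fun s => (hb s).2, fun s h1 h2 =>
      (congrArg Prod.snd (e s h1 h2)).trans (map_cb (AddMonoidHom.snd A B) b s)⟩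
  · obtain ⟨a, ha, e⟩ := H.1 (fun s => (c s).1) (fun s => (hc s).1) fun s h1 h2 =>
      (map_cb (AddMonoidHom.fst A B) c s).symm.trans (by rw [h0 s h1 h2]; rfl)
    obtain ⟨b, hb, e'⟩ := H.2 (fun s => (c s).2) (fun s => (hc s).2) fun s h1 h2 =>
      (map_cb (AddMonoidHom.snd A B) c s).symm.trans (by rw [h0 s h1 h2]; rfl)
    exact ⟨fun s => (a s, b s), fun s => ⟨ha s, hb s⟩, fun s h1 h2 => Prod.ext
      ((e s h1 h2).trans (map_cb (AddMonoidHom.fst A B) (fun s => (a s, b s)) s).symm)
      ((e' s h1 h2).trans (map_cb (AddMonoidHom.snd A B) (fun s => (a s, b s)) s).symm)⟩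

/-- cellwise short exact sequence -/
structure SES (MA : Finset V → AddSubgroup A) (MB : Finset V → AddSubgroup B)
    (MC : Finset V → AddSubgroup C) (f : A →+ B) (g : B →+ C) : Prop where
  mA : Monotone MA
  mB : Monotone MB
  inj : ∀ s, ∀ x ∈ MA s, f x = 0 → x = 0
  fm : ∀ s, ∀ x ∈ MA s, f x ∈ MB s
  gm : ∀ s, ∀ y ∈ MB s, g y ∈ MC s
  gf : ∀ s, ∀ x ∈ MA s, g (f x) = 0
  ex : ∀ s, ∀ y ∈ MB s, g y = 0 → ∃ x ∈ MA s, f x = y
  su : ∀ s, ∀ z ∈ MC s, ∃ y ∈ MB s, g y = z

namespace SES

variable {MA : Finset V → AddSubgroup A} {MB : Finset V → AddSubgroup B}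
  {MC : Finset V → AddSubgroup C} {f : A →+ B} {g : B →+ C} (S : SES MA MB MC f g)
include S

lemma lift {b : Finset V → B} (hb : ∀ s, b s ∈ MB s) (h : ∀ s ⊆ W, s.card = q → g (b s) = 0) :
    ∃ a : Finset V → A, (∀ s, a s ∈ MA s) ∧ ∀ s ⊆ W, s.card = q → f (a s) = b s := by
  have : ∀ s, ∃ x ∈ MA s, s ⊆ W → s.card = q → f x = b s := fun s => by
    by_cases h' : s ⊆ W ∧ s.card = q
    · obtain ⟨x, hx, e⟩ := S.ex s _ (hb s) (h s h'.1 h'.2)
      exact ⟨x, hx, fun _ _ => e⟩
    · exact ⟨0, zero_mem _, fun h1 h2 => absurd ⟨h1, h2⟩ h'⟩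
  choose a ha e using this
  exact ⟨a, ha, e⟩

lemma exC (hB : Ex W MB q) (hA : Ex W MA (q + 1)) : Ex W MC q := fun c hc h0 => by
  choose b hb e using fun s => S.su s _ (hc s)
  obtain ⟨a, ha, ea⟩ := S.lift (W := W) (q := q + 1) (cb_mem S.mB hb) fun s h1 h2 => by
    rw [map_cb, funext e, h0 s h1 h2]
  obtain ⟨a', ha', ea'⟩ := hA a ha fun s h1 h2 => S.inj s _ (cb_mem S.mA ha s) (by
    rw [map_cb, cb_congr' h1 h2 ea, cb_cb])
  obtain ⟨b', hb', eb'⟩ := hB (fun s => b s - f (a' s))
    (fun s => sub_mem (hb s) (S.fm s _ (ha' s))) fun s h1 h2 => by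
      rw [cb_sub, ← map_cb, ← ea' s h1 h2, ea s h1 h2, sub_self]
  refine ⟨fun s => g (b' s), fun s => S.gm s _ (hb' s), fun s h1 h2 => ?_⟩
  rw [← map_cb, ← eb' s h1 h2, map_sub, S.gf s _ (ha' s), sub_zero, e]

lemma exA (hC : Ex W MC q) (hB : Ex W MB (q + 1)) : Ex W MA (q + 1) := fun a ha h0 => by
  obtain ⟨b, hb, e⟩ := hB (fun s => f (a s)) (fun s => S.fm s _ (ha s)) fun s h1 h2 => by
    rw [← map_cb, h0 s h1 h2, map_zero]
  obtain ⟨z, hz, ez⟩ := hC (fun s => g (b s)) (fun s => S.gm s _ (hb s)) fun s h1 h2 => by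
    rw [← map_cb, ← e s h1 h2, S.gf s _ (ha s)]
  choose y hy ey using fun s => S.su s _ (hz s)
  obtain ⟨a', ha', ea⟩ := S.lift (W := W) (q := q) (b := fun s => b s - cb y s)
    (fun s => sub_mem (hb s) (cb_mem S.mB hy s)) fun s h1 h2 => by
      rw [map_sub, map_cb, funext ey, ez s h1 h2, sub_self]
  refine ⟨a', ha', fun s h1 h2 => sub_eq_zero.1
    (S.inj s _ (sub_mem (ha s) (cb_mem S.mA ha' s)) ?_)⟩
  rw [map_sub, map_cb, cb_congr' h1 h2 ea, cb_sub, cb_cb, sub_zero, e s h1 h2, sub_self]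

lemma exB (hA : Ex W MA q) (hC : Ex W MC q) : Ex W MB q := fun b hb h0 => by
  obtain ⟨z, hz, ez⟩ := hC (fun s => g (b s)) (fun s => S.gm s _ (hb s)) fun s h1 h2 => by
    rw [← map_cb, h0 s h1 h2, map_zero]
  choose y hy ey using fun s => S.su s _ (hz s)
  obtain ⟨a, ha, ea⟩ := S.lift (W := W) (q := q) (b := fun s => b s - cb y s)
    (fun s => sub_mem (hb s) (cb_mem S.mB hy s)) fun s h1 h2 => by
      rw [map_sub, map_cb, funext ey, ez s h1 h2, sub_self]
  obtain ⟨a', ha', ea'⟩ := hA a ha fun s h1 h2 => S.inj s _ (cb_mem S.mA ha s) (by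
    rw [map_cb, cb_congr' h1 h2 ea, cb_sub, cb_cb, h0 s h1 h2, sub_self])
  refine ⟨fun s => f (a' s) + y s, fun s => add_mem (S.fm s _ (ha' s)) (hy s), fun s h1 h2 => ?_⟩
  rw [cb_add, ← map_cb, ← ea' s h1 h2, ea s h1 h2, sub_add_cancel]

end SES

/-- finitely supported functions with support in a set depending on the cell -/
def supp {I : Type} (A : Type) [AddCommGroup A] (P : I → Finset V → Prop) (s : Finset V) :
    AddSubgroup (I →₀ A) where
  carrier := {f | ∀ β, ¬ P β s → f β = 0}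
  add_mem' := fun ha hb β h => by rw [Finsupp.add_apply, ha β h, hb β h, add_zero]
  zero_mem' := fun _ _ => rfl
  neg_mem' := fun ha β h => by rw [Finsupp.neg_apply, ha β h, neg_zero]

/-- monomial systems -/
lemma Ex.supp {I : Type} {P : I → Finset V → Prop} (h : ∀ β,
    (∃ t ∈ W, ∀ s, t ∉ s → P β (insert t s) → P β s) ∨ ∀ s ⊆ W, s.card = q → ¬ P β s) :
    Ex W (supp A P) q := fun c hc h0 => by
  classical
  have : ∀ β, ∃ o : Option V, (∀ t, o = some t → t ∈ W ∧ ∀ s, t ∉ s → P β (insert t s) → P β s) ∧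
      (o = none → ∀ s ⊆ W, s.card = q → ¬ P β s) := fun β => (h β).elim
    (fun ⟨t, h1, h2⟩ => ⟨some t, fun u e => Option.some.inj e ▸ ⟨h1, h2⟩, fun e => by simp at e⟩)
    fun h1 => ⟨none, fun u e => by simp at e, fun _ => h1⟩
  choose τ h1 h2 using this
  have ev : ∀ (b : Finset V → I →₀ A) s β, cb b s β = cb (fun s => b s β) s := fun b s β =>
    map_cb (Finsupp.applyAddHom β) b s
  let b : Finset V → I →₀ A := fun s => ∑ t ∈ W, (hm t c s).filter fun β => τ β = some t
  have hb : ∀ s β, b s β = (τ β).elim 0 fun t => hm t c s β := fun s β => by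
    simp only [b, Finsupp.finset_sum_apply, Finsupp.filter_apply]
    rcases e : τ β with _ | t
    · simp
    · simp [(h1 β t e).1]
  refine ⟨b, fun s β hβ => ?_, fun s hs hq => Finsupp.ext fun β => ?_⟩
  · rw [hb]
    rcases e : τ β with _ | t
    · rfl
    by_cases ht : t ∈ s
    · simp [hm, ht]
    · simp [hm, ht, io, hc _ β fun h => hβ ((h1 β t e).2 s ht h)]
  · rw [ev, funext fun s => hb s β]
    rcases e : τ β with _ | t
    · simpa [cb] using hc s β (h2 β e s hs hq)
    · refine Eq.trans ?_ (ev (hm t c) s β)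
      rw [cb_hm fun h' => h0 _ (insert_subset (h1 β t e).1 hs)
        (by rw [card_insert_of_notMem h', hq])]

lemma elim_aux {t u : V} {b c : Finset V → A} {s : Finset V} (h : t ≠ u) (ht : t ∉ s) (hu : u ∉ s)
    (e : io t c s = cb b s) : c (insert t s) = cb (fun s =>
      -((if t ∈ s then sg t s • b (s.erase t) else 0) +
        if u ∈ s then sg u s • b (s.erase u) else 0)) (insert t s) := by
  rw [← sg_smul_smul t s (c _), ← sg_smul_smul t s (cb _ _)]
  congr 1
  refine e.trans ?_
  have := cb_io ht (fun s => -((if t ∈ s then sg t s • b (s.erase t) else 0) +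
    if u ∈ s then sg u s • b (s.erase u) else 0))
  rw [if_neg ht, if_neg hu, add_zero, neg_zero, zero_sub, cb_congr (c' := fun s => 0 - b s)
    fun x _ => ?_, cb_sub, neg_eq_iff_eq_neg.symm.trans Iff.rfl] at this
  · simpa [cb, io] using this
  have h1 : t ∉ s.erase x := fun h => ht (mem_of_mem_erase h)
  have h2 : u ∉ insert t (s.erase x) := fun h' =>
    (mem_insert.1 h').elim (fun e => h e.symm) fun h => hu (mem_of_mem_erase h)
  simp only [io, if_pos (mem_insert_self t _), if_neg h2, add_zero, erase_insert h1, sg_insert_self,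
    smul_neg, sg_smul_smul, zero_sub]

/-- elimination of a slot with two vertices -/
lemma Ex.elim {M M' : Finset V → AddSubgroup A} {t u : V} (h : t ≠ u) (ht : t ∉ W) (hu : u ∉ W)
    (hM : Monotone M) (h0 : ∀ s ⊆ W, M s = ⊥)
    (h1 : ∀ s ⊆ W, M (insert t (insert u s)) ≤ M (insert t s) ⊔ M (insert u s))
    (h2 : ∀ s ⊆ W, M' s = M (insert t s) ⊓ M (insert u s)) (H : Ex W M' q) :
    Ex (insert t (insert u W)) M (q + 1) := fun c hc hz => by
  classical
  have sub : ∀ S ⊆ insert t (insert u W), (S.erase t).erase u ⊆ W := fun S hS x hx => by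
    have := hS (mem_of_mem_erase (mem_of_mem_erase hx))
    simp only [mem_erase, mem_insert] at hx this
    tauto
  have : ∀ S, ∃ y ∈ M (S.erase u), ∃ y' ∈ M (S.erase t),
      S ⊆ insert t (insert u W) → t ∈ S → u ∈ S → c S = y + y' := fun S => by
    by_cases hS : S ⊆ insert t (insert u W) ∧ t ∈ S ∧ u ∈ S
    · have e1 : insert u ((S.erase t).erase u) = S.erase t :=
        insert_erase (mem_erase.2 ⟨h.symm, hS.2.2⟩)
      have e2 : insert t ((S.erase t).erase u) = S.erase u := by
        rw [erase_right_comm]; exact insert_erase (mem_erase.2 ⟨h, hS.2.1⟩)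
      have := h1 _ (sub S hS.1)
      rw [e1, e2, insert_erase hS.2.1] at this
      obtain ⟨y, hy, y', hy', e⟩ := AddSubgroup.mem_sup.1 (this (hc S))
      exact ⟨y, hy, y', hy', fun _ _ _ => e.symm⟩
    · exact ⟨0, zero_mem _, 0, zero_mem _, fun a b d => absurd ⟨a, b, d⟩ hS⟩
  choose y hy y' hy' ey using this
  have hmm : ∀ (v : V) (y : Finset V → A), (∀ S, y S ∈ M (S.erase v)) → ∀ s, hm v y s ∈ M s :=
    fun v y hy s => by
      unfold hm
      split_ifs with h'
      · exact zero_mem _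
      · have := hy (insert v s)
        rw [erase_insert h'] at this
        exact zsmul_mem this _
  let b1 : Finset V → A := fun s => hm u y s + hm t y' s
  have hb1 : ∀ s, b1 s ∈ M s := fun s => add_mem (hmm u y hy s) (hmm t y' hy' s)
  let c' : Finset V → A := fun s => c s - cb b1 s
  have hc' : ∀ s, c' s ∈ M s := fun s => sub_mem (hc s) (cb_mem hM hb1 s)
  have z1 : ∀ S ⊆ insert t (insert u W), t ∈ S → u ∈ S → c' S = 0 := fun S a1 a2 a3 => by
    simp only [c', b1]
    rw [cb_add, cb_hm_mem a3, cb_hm_mem a2, ey S a1 a2 a3, sub_self]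
  have z2 : ∀ S ⊆ insert t (insert u W), S.card = q + 1 + 1 → cb c' S = 0 := fun S a1 a2 => by
    rw [cb_sub, cb_cb, hz S a1 a2, sub_self]
  have nt : ∀ s ⊆ W, t ∉ s := fun s hs h => ht (hs h)
  have nu : ∀ s ⊆ W, u ∉ s := fun s hs h => hu (hs h)
  have ee : ∀ s ⊆ W, s.card = q → io t c' s = io u c' s := fun s hs hq =>
    io_eq_io h (nt s hs) (nu s hs) (fun x _ => z1 _ (insert_subset_insert _
      (insert_subset_insert _ ((erase_subset _ _).trans hs))) (by simp) (by simp))
      (z2 _ (insert_subset_insert _ (insert_subset_insert _ hs)) (by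
        rw [card_insert_of_notMem (by simp [h, nt s hs]), card_insert_of_notMem (nu s hs), hq]))
  obtain ⟨b, hb, eb⟩ := H (fun s => if s ⊆ W ∧ s.card = q then io t c' s else 0) (fun s => by
    split_ifs with hs
    · rw [h2 s hs.1]
      exact ⟨zsmul_mem (hc' _) _, by rw [ee s hs.1 hs.2]; exact zsmul_mem (hc' _) _⟩
    · exact zero_mem _) fun s hs hq => by
      rw [cb_congr' (c' := io t c') hs hq fun x a1 a2 => if_pos ⟨a1, a2⟩, cb_io (nt s hs), io,
        z2 _ (insert_subset_insert _ (hs.trans (subset_insert _ _)))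
          (by rw [card_insert_of_notMem (nt s hs), hq]), smul_zero, sub_zero]
      simpa [h0 s hs] using hc' s
  let b' : Finset V → A := fun s => if s ⊆ W then b s else 0
  have eb' : ∀ s ⊆ W, s.card = q → io t c' s = cb b' s := fun s hs hq => by
    rw [← (if_pos ⟨hs, hq⟩ : (if s ⊆ W ∧ s.card = q then io t c' s else 0) = _), eb s hs hq]
    exact cb_congr fun x _ => (if_pos ((erase_subset _ _).trans hs)).symm
  let b2 : Finset V → A := fun s => -((if t ∈ s then sg t s • b' (s.erase t) else 0) +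
    if u ∈ s then sg u s • b' (s.erase u) else 0)
  have m2 : ∀ v s, (∀ s ⊆ W, M' s ≤ M (insert v s)) →
      (if v ∈ s then sg v s • b' (s.erase v) else 0) ∈ M s := fun v s hv => by
    simp only [b']
    split_ifs with a1 a2
    · have := hv _ a2 (hb _)
      rw [insert_erase a1] at this
      exact zsmul_mem this _
    · simp
    · exact zero_mem _
  refine ⟨fun s => b1 s + b2 s, fun s => add_mem (hb1 s) (neg_mem (add_mem
    (m2 t s fun s hs => (h2 s hs).trans_le inf_le_left)
    (m2 u s fun s hs => (h2 s hs).trans_le inf_le_right))), fun S hS hq => ?_⟩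
  rw [cb_add, ← sub_eq_iff_eq_add']
  change c' S = cb b2 S
  have sW := sub S hS
  by_cases a1 : t ∈ S <;> by_cases a2 : u ∈ S
  · rw [z1 S hS a1 a2, ← insert_erase a1, ← insert_erase (mem_erase.2 ⟨h.symm, a2⟩)]
    generalize (S.erase t).erase u = s at sW
    have n1 := nt s sW
    have n2 := nu s sW
    rw [cb_two h n1 n2 fun x _ => ?_]
    · simp only [b2, mem_insert, h, h.symm, n1, n2, or_self, true_or, if_true, if_false, zero_add,
        add_zero, erase_insert n1, erase_insert n2, sg_insert_self, smul_neg, smul_smul,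
        sg_anti h n1 n2, neg_smul, neg_neg, add_neg_cancel]
    have n3 : ¬ (insert t (insert u (s.erase x))).erase t ⊆ W := fun hh =>
      hu (hh (mem_erase.2 ⟨h.symm, by simp⟩))
    have n4 : ¬ (insert t (insert u (s.erase x))).erase u ⊆ W := fun hh =>
      ht (hh (mem_erase.2 ⟨h, by simp⟩))
    simp only [b2, b', if_neg n3, if_neg n4, smul_zero, ite_self, add_zero, neg_zero]
  · rw [erase_eq_of_notMem fun h => a2 (mem_of_mem_erase h)] at sW
    rw [← insert_erase a1]
    exact elim_aux h (nt _ sW) (nu _ sW) (eb' _ sW (by rw [card_erase_of_mem a1, hq]; rfl))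
  · rw [erase_eq_of_notMem a1] at sW
    have hq' : (S.erase u).card = q := by rw [card_erase_of_mem a2, hq]; rfl
    rw [← insert_erase a2, elim_aux h.symm (nu _ sW) (nt _ sW) ((ee _ sW hq').symm.trans
      (eb' _ sW hq'))]
    exact cb_congr fun x _ => by simp only [b2, add_comm]
  · rw [erase_eq_of_notMem a1, erase_eq_of_notMem a2] at sW
    have := hc' S
    rw [h0 S sW, AddSubgroup.mem_bot] at this
    rw [this, cb, sum_eq_zero]
    intro x _
    have n1 : t ∉ S.erase x := fun h => a1 (mem_of_mem_erase h)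
    have n2 : u ∉ S.erase x := fun h => a2 (mem_of_mem_erase h)
    simp only [b2, if_neg n1, if_neg n2, add_zero, neg_zero, smul_zero]

/-- exactness for all cardinalities below `N` -/
def ExLt (W : Finset V) (M : Finset V → AddSubgroup A) (N : ℤ) : Prop :=
  ∀ q : ℕ, (q : ℤ) < N → Ex W M q

lemma ExLt.mono {M : Finset V → AddSubgroup A} {N N' : ℤ} (h : ExLt W M N) (hN : N' ≤ N) :
    ExLt W M N' := fun q hq => h q (hq.trans_le hN)

section koszul

variable {MA MB MC : Finset V → AddSubgroup A} {f : A →+ A × A} {g : A × A →+ A} {N : ℤ}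
  (S : SES MA (fun s => (MB s).prod (MB s)) MC f g)
include S

lemma SES.ruleA (hB : ExLt W MB N) (hA : ExLt W MA (N + 1)) : ExLt W MC N := fun q hq =>
  S.exC (Ex.prod.2 ⟨hB q hq, hB q hq⟩) (hA _ (by push_cast; omega))

lemma SES.ruleB (h0 : MA ∅ = ⊥) (hB : ExLt W MB N) (hC : ExLt W MC (N - 1)) : ExLt W MA N :=
  fun q hq => by
    rcases q with _ | q
    · exact Ex.zero h0
    · exact S.exA (hC q (by push_cast at hq; omega)) (Ex.prod.2 ⟨hB _ hq, hB _ hq⟩)

lemma SES.ruleC (hA : ExLt W MA N) (hC : ExLt W MC N) : ExLt W MB N := fun q hq =>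
  (Ex.prod.1 (S.exB (hA q hq) (hC q hq))).1

end koszul

end Pool.Agent.Lib.MV
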