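import Mathlib

open Matrix

set_option linter.unusedSectionVars false
set_option linter.unusedVariables false

noncomputable section

namespace Pool.Agent.Lib.MV

section ring

variable {R : Type} [CommRing R]

/-- coefficients of a ternary cubic form, written as a trilinear form -/
abbrev Cf (R : Type) : Type := Fin 3 → Fin 3 → Fin 3 → R

/-- the trilinear form -/
def tri (c : Cf R) (x y z : Fin 3 → R) : R := ∑ i, ∑ j, ∑ l, c i j l * x i * y j * z l

/-- the cubic form -/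
def cub (c : Cf R) (x : Fin 3 → R) : R := tri c x x x

/-- the derivative of the cubic form at `a` in the direction `b` -/
def pol (c : Cf R) (a b : Fin 3 → R) : R := tri c b a a + tri c a b a + tri c a a b

/-- the gradient -/
def grad (c : Cf R) (a : Fin 3 → R) : Fin 3 → R := fun i => pol c a (Pi.single i 1)

/-- the third point of the cubic on the line through `P` and `x` -/
def thd (c : Cf R) (P x : Fin 3 → R) : Fin 3 → R := pol c x P • P - pol c P x • x

/-- a second point on the tangent line at `p` -/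
def tdir (c : Cf R) (p m : Fin 3 → R) : Fin 3 → R := grad c p ⨯₃ m

/-- the third point of the cubic on the tangent line at `p` -/
def tq (c : Cf R) (p m : Fin 3 → R) : Fin 3 → R :=
  cub c (tdir c p m) • p - pol c (tdir c p m) p • tdir c p m

variable (c : Cf R) (a b x y z P : Fin 3 → R) (s t : R)

lemma pol_eq_dot : pol c a b = grad c a ⬝ᵥ b := by
  simp [grad, pol, tri, dotProduct, Fin.sum_univ_three]; ring

lemma pol_self : pol c a a = 3 * cub c a := by simp only [pol, cub]; ring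

lemma cub_comb : cub c (s • a + t • b) =
    s ^ 3 * cub c a + s ^ 2 * t * pol c a b + s * t ^ 2 * pol c b a + t ^ 3 * cub c b := by
  simp only [cub, pol, tri, Fin.sum_univ_three, Pi.add_apply, Pi.smul_apply, smul_eq_mul]; ring

lemma pol_comb_right : pol c z (s • a + t • b) = s * pol c z a + t * pol c z b := by
  simp only [pol_eq_dot, dotProduct_add, dotProduct_smul, smul_eq_mul]

lemma pol_comb_self : pol c (s • a + t • b) a =
    3 * s ^ 2 * cub c a + 2 * s * t * pol c a b + t ^ 2 * pol c b a := by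
  simp only [cub, pol, tri, Fin.sum_univ_three, Pi.add_apply, Pi.smul_apply, smul_eq_mul]; ring

/-- the symmetrised trilinear form -/
def mix (c : Cf R) (a b z : Fin 3 → R) : R :=
  tri c a b z + tri c b a z + tri c a z b + tri c b z a + tri c z a b + tri c z b a

lemma pol_comb_left : pol c (s • a + t • b) z =
    s ^ 2 * pol c a z + s * t * mix c a b z + t ^ 2 * pol c b z := by
  simp only [mix, pol, tri, Fin.sum_univ_three, Pi.add_apply, Pi.smul_apply, smul_eq_mul]; ring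

lemma cub_smul : cub c (s • a) = s ^ 3 * cub c a := by
  simp only [cub, tri, Fin.sum_univ_three, Pi.smul_apply, smul_eq_mul]; ring

lemma pol_smul : pol c (s • a) (t • b) = s ^ 2 * t * pol c a b := by
  simp only [pol, tri, Fin.sum_univ_three, Pi.smul_apply, smul_eq_mul]; ring

lemma cub_csmul : cub (s • c) a = s * cub c a := by
  simp only [cub, tri, Fin.sum_univ_three, Pi.smul_apply, smul_eq_mul]; ring

lemma pol_csmul : pol (s • c) a b = s * pol c a b := by
  simp only [pol, tri, Fin.sum_univ_three, Pi.smul_apply, smul_eq_mul]; ring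

lemma grad_smul : grad c (s • a) = s ^ 2 • grad c a := funext fun i => by
  simpa [grad] using pol_smul c a (Pi.single i 1) s 1

lemma grad_csmul : grad (s • c) a = s • grad c a := funext fun i => pol_csmul ..

lemma thd_smul : thd c (s • P) (t • x) = (s ^ 2 * t ^ 2) • thd c P x := by
  simp only [thd, pol_smul]; module

lemma thd_csmul : thd (s • c) P x = s • thd c P x := by
  simp only [thd, pol_csmul]; module

lemma tdir_csmul : tdir (s • c) a b = s • tdir c a b := by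
  simp only [tdir, grad_csmul, map_smul, LinearMap.smul_apply]

lemma tq_csmul : tq (s • c) a b = s ^ 4 • tq c a b := by
  have := pol_smul c (tdir c a b) a s 1
  rw [one_smul] at this
  simp only [tq, tdir_csmul, cub_csmul, pol_csmul, cub_smul, this]; module

lemma thd_cross : thd c P x ⨯₃ P = -pol c P x • (x ⨯₃ P) := by
  simp only [thd, map_sub, map_smul, LinearMap.sub_apply, LinearMap.smul_apply, cross_self]; module

lemma cramer3 : (z ⬝ᵥ a ⨯₃ b) • x = (x ⬝ᵥ b ⨯₃ z) • a + (x ⬝ᵥ z ⨯₃ a) • b + (x ⬝ᵥ a ⨯₃ b) • z := by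
  ext i; fin_cases i <;> simp [cross_apply, dotProduct, Fin.sum_univ_three] <;> ring

lemma cramer3' : (z ⬝ᵥ a ⨯₃ b) • x = (x ⬝ᵥ a) • b ⨯₃ z + (x ⬝ᵥ b) • z ⨯₃ a + (x ⬝ᵥ z) • a ⨯₃ b := by
  ext i; fin_cases i <;> simp [cross_apply, dotProduct, Fin.sum_univ_three] <;> ring

lemma cross_cross3 : a ⨯₃ (x ⨯₃ y) = (a ⬝ᵥ y) • x - (a ⬝ᵥ x) • y := by
  ext i; fin_cases i <;> simp [cross_apply, dotProduct, Fin.sum_univ_three] <;> ring

variable {c a b x y z P} {p m : Fin 3 → R}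

lemma cub_thd (hP : cub c P = 0) (hx : cub c x = 0) : cub c (thd c P x) = 0 := by
  rw [thd, sub_eq_add_neg, ← neg_smul, cub_comb, hP, hx]; ring

lemma pol_tdir : pol c p (tdir c p m) = 0 := by rw [pol_eq_dot, tdir, dot_self_cross]

lemma cross_tdir (hp : cub c p = 0) (hm : m ⬝ᵥ p = 1) : p ⨯₃ tdir c p m = grad c p := by
  rw [tdir, cross_cross3, dotProduct_comm p m, hm, dotProduct_comm p, ← pol_eq_dot, pol_self, hp]
  simp

lemma cub_tq (hp : cub c p = 0) : cub c (tq c p m) = 0 := by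
  rw [tq, sub_eq_add_neg, ← neg_smul, cub_comb, hp, pol_tdir]; ring

lemma tq_cross (hp : cub c p = 0) (hm : m ⬝ᵥ p = 1) :
    tq c p m ⨯₃ p = pol c (tdir c p m) p • grad c p := by
  rw [← cross_tdir hp hm, ← cross_anticomm (tdir c p m) p]
  simp only [tq, map_sub, map_smul, LinearMap.sub_apply, LinearMap.smul_apply, cross_self]; module

section map

variable {S F : Type} [CommRing S] [FunLike F R S] [RingHomClass F R S] (f : F)

/-- coefficientwise image -/
def cmap (f : R → S) (c : Cf R) : Cf S := fun i j l => f (c i j l)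

lemma map_tri : f (tri c x y z) = tri (cmap f c) (f ∘ x) (f ∘ y) (f ∘ z) := by
  simp [tri, cmap]

lemma map_cub : f (cub c x) = cub (cmap f c) (f ∘ x) := map_tri f

lemma map_pol : f (pol c x y) = pol (cmap f c) (f ∘ x) (f ∘ y) := by
  simp only [pol, map_add, map_tri]

lemma map_cross : f ∘ (x ⨯₃ y) = (f ∘ x) ⨯₃ (f ∘ y) := by
  ext i; fin_cases i <;> simp [cross_apply]

lemma map_dot : f (x ⬝ᵥ y) = (f ∘ x) ⬝ᵥ (f ∘ y) := by simp [dotProduct]

lemma map_thd : f ∘ thd c P x = thd (cmap f c) (f ∘ P) (f ∘ x) := by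
  ext i; simp [thd, map_pol]

end map

section mem

variable {σ : Type} [SetLike σ R] [SubringClass σ R] {B : σ}

lemma tri_mem (hc : ∀ i j l, c i j l ∈ B) (hx : ∀ i, x i ∈ B) (hy : ∀ i, y i ∈ B)
    (hz : ∀ i, z i ∈ B) : tri c x y z ∈ B :=
  sum_mem fun i _ => sum_mem fun j _ => sum_mem fun l _ =>
    mul_mem (mul_mem (mul_mem (hc i j l) (hx i)) (hy j)) (hz l)

lemma cub_mem (hc : ∀ i j l, c i j l ∈ B) (hx : ∀ i, x i ∈ B) : cub c x ∈ B := tri_mem hc hx hx hx

lemma pol_mem (hc : ∀ i j l, c i j l ∈ B) (hx : ∀ i, x i ∈ B) (hy : ∀ i, y i ∈ B) :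
    pol c x y ∈ B :=
  add_mem (add_mem (tri_mem hc hy hx hx) (tri_mem hc hx hy hx)) (tri_mem hc hx hx hy)

lemma single_mem (i j : Fin 3) : (Pi.single i 1 : Fin 3 → R) j ∈ B := by
  rw [Pi.single_apply]; split_ifs; exacts [one_mem _, zero_mem _]

lemma grad_mem (hc : ∀ i j l, c i j l ∈ B) (hx : ∀ i, x i ∈ B) (i : Fin 3) : grad c x i ∈ B :=
  pol_mem hc hx (single_mem i)

lemma cross_mem (hx : ∀ i, x i ∈ B) (hy : ∀ i, y i ∈ B) (i : Fin 3) : (x ⨯₃ y) i ∈ B := by
  fin_cases i <;> simp only [cross_apply] <;>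
    exact sub_mem (mul_mem (hx _) (hy _)) (mul_mem (hx _) (hy _))

lemma dot_mem (hx : ∀ i, x i ∈ B) (hy : ∀ i, y i ∈ B) : x ⬝ᵥ y ∈ B :=
  sum_mem fun i _ => mul_mem (hx i) (hy i)

lemma tq_mem (hc : ∀ i j l, c i j l ∈ B) (hp : ∀ i, p i ∈ B) (hm : ∀ i, m i ∈ B) (i : Fin 3) :
    tq c p m i ∈ B :=
  have h := cross_mem (grad_mem hc hp) hm
  sub_mem (mul_mem (cub_mem hc h) (hp i)) (mul_mem (pol_mem hc h hp) (h i))

end mem

end ring

section val

variable {K Γ : Type} [Field K] [LinearOrderedCommGroupWithZero Γ] (v : Valuation K Γ)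

/-- the largest value of a coordinate -/
def nm {ι : Type} [Fintype ι] (y : ι → K) : Γ := Finset.univ.sup fun l => v (y l)

section basic

variable {v} {ι : Type} [Fintype ι] {y z : ι → K} {g : Γ}

lemma le_nm (y : ι → K) (l : ι) : v (y l) ≤ nm v y :=
  Finset.le_sup (f := fun l => v (y l)) (Finset.mem_univ l)

lemma nm_le : nm v y ≤ g ↔ ∀ l, v (y l) ≤ g := by simp [nm]

lemma exists_nm [Nonempty ι] (y : ι → K) : ∃ l, nm v y = v (y l) :=
  (Finset.exists_mem_eq_sup _ Finset.univ_nonempty _).imp fun _ h => h.2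

lemma nm_eq_zero : nm v y = 0 ↔ y = 0 := by
  rw [← le_zero_iff, nm_le]; simp [funext_iff]

lemma nm_ne (h : y ≠ 0) : nm v y ≠ 0 := mt nm_eq_zero.1 h

lemma nm_smul (a : K) (y : ι → K) : nm v (a • y) = v a * nm v y := by
  have h : ∀ (a : K) (y : ι → K), nm v (a • y) ≤ v a * nm v y := fun a y => nm_le.2 fun l => by
    rw [Pi.smul_apply, smul_eq_mul, map_mul]; exact mul_le_mul_right (le_nm y l) _
  refine le_antisymm (h a y) ?_
  by_cases ha : a = 0
  · simp [ha]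
  have := mul_le_mul_right (h a⁻¹ (a • y)) (v a)
  rwa [inv_smul_smul₀ ha, ← mul_assoc, ← map_mul, mul_inv_cancel₀ ha, map_one, one_mul] at this

lemma nm_neg (y : ι → K) : nm v (-y) = nm v y := by simp [nm]

lemma nm_add (y z : ι → K) : nm v (y + z) ≤ max (nm v y) (nm v z) := nm_le.2 fun l =>
  (v.map_add _ _).trans (max_le_max (le_nm y l) (le_nm z l))

lemma dot_le (y z : ι → K) : v (y ⬝ᵥ z) ≤ nm v y * nm v z :=
  v.map_sum_le fun l _ => by rw [map_mul]; exact mul_le_mul' (le_nm y l) (le_nm z l)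

lemma exists_prim [Nonempty ι] (h : y ≠ 0) :
    ∃ a : K, a ≠ 0 ∧ v a = nm v y ∧ nm v (a⁻¹ • y) = 1 := by
  obtain ⟨l, hl⟩ := exists_nm (v := v) y
  have h1 := nm_ne (v := v) h
  exact ⟨y l, fun h0 => h1 (by rw [hl, h0, map_zero]), hl.symm, by
    rw [nm_smul, map_inv₀, ← hl, inv_mul_cancel₀ h1]⟩

lemma exists_dual [Nonempty ι] [DecidableEq ι] (h : nm v y = 1) :
    ∃ m : ι → K, nm v m ≤ 1 ∧ m ⬝ᵥ y = 1 := by
  obtain ⟨l, hl⟩ := exists_nm (v := v) y
  rw [h] at hl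
  have h0 : y l ≠ 0 := fun h0 => by simp [h0] at hl
  refine ⟨Pi.single l (y l)⁻¹, nm_le.2 fun j => ?_, by simp [h0]⟩
  rw [Pi.single_apply]; split_ifs <;> simp [← hl]

end basic

variable {v} {c : Cf K} {a b x y z P Q p m : Fin 3 → K} {s t : K}

lemma cross_le (a b : Fin 3 → K) : nm v (a ⨯₃ b) ≤ nm v a * nm v b := nm_le.2 fun l => by
  have h : ∀ i j, v (a i * b j) ≤ nm v a * nm v b := fun i j => by
    rw [map_mul]; exact mul_le_mul' (le_nm a i) (le_nm b j)
  fin_cases l <;> simp only [cross_apply] <;> exact (v.map_sub _ _).trans (max_le (h _ _) (h _ _))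

lemma cross_le_one (ha : nm v a ≤ 1) (hb : nm v b ≤ 1) : nm v (a ⨯₃ b) ≤ 1 :=
  (cross_le a b).trans (mul_le_one' ha hb)

lemma dot_le_left (hb : nm v b ≤ 1) : v (a ⬝ᵥ b) ≤ nm v a :=
  (dot_le a b).trans (mul_le_of_le_one_right' hb)

lemma nm_cross_comm (a b : Fin 3 → K) : nm v (a ⨯₃ b) = nm v (b ⨯₃ a) := by
  rw [← cross_anticomm, nm_neg]

lemma nm_comb_le (ha : nm v a ≤ 1) (hb : nm v b ≤ 1) : nm v (s • a + t • b) ≤ max (v s) (v t) :=
  (nm_add _ _).trans (by
    rw [nm_smul, nm_smul]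
    exact max_le_max (mul_le_of_le_one_right' ha) (mul_le_of_le_one_right' hb))

/-- combinations of a primitive pair -/
lemma nm_comb (ha : nm v a ≤ 1) (hb : nm v b ≤ 1) (h : nm v (a ⨯₃ b) = 1) :
    nm v (s • a + t • b) = max (v s) (v t) := by
  refine le_antisymm (nm_comb_le ha hb) (max_le ?_ ?_)
  · have := (cross_le (v := v) (s • a + t • b) b).trans (mul_le_of_le_one_right' hb)
    simpa [nm_smul, h] using this
  · have := (cross_le (v := v) (s • a + t • b) a).trans (mul_le_of_le_one_right' ha)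
    simpa [nm_smul, nm_cross_comm b a, h] using this

/-- decomposition along a primitive vector -/
lemma exists_dec (hP : nm v P = 1) (h : x ⨯₃ P ≠ 0) : ∃ (s t : K) (y : Fin 3 → K),
    x = s • P + t • y ∧ t ≠ 0 ∧ v t = nm v (x ⨯₃ P) ∧ nm v y ≤ 1 ∧ nm v (P ⨯₃ y) = 1 := by
  obtain ⟨m, h1, h2⟩ := exists_dual hP
  have h3 : (m ⨯₃ (x ⨯₃ P)) ⨯₃ P = x ⨯₃ P := by simp [cross_cross3, h2]
  obtain ⟨t, h4, h5, h6⟩ := exists_prim (v := v) (y := m ⨯₃ (x ⨯₃ P)) fun h0 => h (by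
    rw [← h3, h0]; simp)
  have h7 : v t = nm v (x ⨯₃ P) := h5.trans (le_antisymm
    ((cross_le _ _).trans (mul_le_of_le_one_left' h1)) (by
      nth_rw 1 [← h3]; exact (cross_le _ _).trans (mul_le_of_le_one_right' hP.le)))
  refine ⟨m ⬝ᵥ x, t, _, ?_, h4, h7, h6.le, ?_⟩
  · rw [smul_inv_smul₀ h4, cross_cross3, h2]; simp
  · rw [nm_cross_comm, map_smul, LinearMap.smul_apply, h3, nm_smul, map_inv₀, h7,
      inv_mul_cancel₀ (nm_ne h)]

/-- Gauss lemma for two linear forms -/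
lemma gauss2 (l u p q : K) : max (max (v (u * p)) (v (l * p + u * q))) (v (l * q)) =
    max (v l) (v u) * max (v p) (v q) := by
  have h : ∀ {a b : K}, v a ≤ max (v l) (v u) → v b ≤ max (v p) (v q) →
      v (a * b) ≤ max (v l) (v u) * max (v p) (v q) := fun ha hb => by
    rw [map_mul]; exact mul_le_mul' ha hb
  refine le_antisymm (max_le (max_le (h (le_max_right ..) (le_max_left ..)) ((v.map_add _ _).trans
    (max_le (h (le_max_left ..) (le_max_left ..)) (h (le_max_right ..) (le_max_right ..)))))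
    (h (le_max_left ..) (le_max_right ..))) ?_
  rcases lt_trichotomy (v l) (v u) with h1 | h1 | h1 <;> rcases le_or_gt (v p) (v q) with h2 | h2
  · rcases h2.eq_or_lt with h2 | h2
    · rw [max_eq_right h1.le, ← h2, max_self, ← map_mul]; simp
    rw [max_eq_right h1.le, max_eq_right h2.le, v.map_add_eq_of_lt_right (by
      rw [map_mul, map_mul]; exact mul_lt_mul'' h1 h2 zero_le' zero_le'), ← map_mul]; simp
  · rw [max_eq_right h1.le, max_eq_left h2.le, ← map_mul]; simp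
  · rw [max_eq_left h1.ge, max_eq_right h2, ← map_mul]; simp
  · rw [max_eq_right h1.le, max_eq_left h2.le, ← map_mul]; simp
  · rw [max_eq_left h1.le, max_eq_right h2, ← map_mul]; simp
  · rw [max_eq_left h1.le, max_eq_left h2.le, v.map_add_eq_of_lt_left (by
      rw [map_mul, map_mul]; exact mul_lt_mul'' h1 h2 zero_le' zero_le'), ← map_mul]; simp

variable (v) in
/-- the distance between two points of the plane -/
def ds (x P : Fin 3 → K) : Γ := nm v (x ⨯₃ P) / (nm v x * nm v P)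

lemma ds_smul (hs : s ≠ 0) (ht : t ≠ 0) : ds v (s • x) (t • P) = ds v x P := by
  have h1 := v.ne_zero_iff.2 hs
  have h2 := v.ne_zero_iff.2 ht
  simp only [ds, map_smul, LinearMap.smul_apply, nm_smul]
  rw [mul_mul_mul_comm, mul_comm (v s) (v t), ← mul_assoc, mul_div_mul_left _ _ (mul_ne_zero h2 h1)]

lemma ds_smul_left (hs : s ≠ 0) : ds v (s • x) P = ds v x P := by
  simpa using ds_smul (v := v) (x := x) (P := P) hs one_ne_zero

lemma ds_smul_right (ht : t ≠ 0) : ds v x (t • P) = ds v x P := by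
  simpa using ds_smul (v := v) (x := x) (P := P) one_ne_zero ht

lemma ds_le_one : ds v x P ≤ 1 := div_le_one_of_le₀ (cross_le _ _) zero_le'

lemma ds_comm : ds v x P = ds v P x := by rw [ds, ds, nm_cross_comm, mul_comm]

lemma ds_prim (hx : nm v x = 1) (hP : nm v P = 1) : ds v x P = nm v (x ⨯₃ P) := by
  rw [ds, hx, hP, one_mul, div_one]

lemma left_ne (h : x ⨯₃ P ≠ 0) : x ≠ 0 := by rintro rfl; simp at h

lemma right_ne (h : x ⨯₃ P ≠ 0) : P ≠ 0 := by rintro rfl; simp at h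

lemma ds_ne (h : x ⨯₃ P ≠ 0) : ds v x P ≠ 0 :=
  div_ne_zero (nm_ne h) (mul_ne_zero (nm_ne (left_ne h)) (nm_ne (right_ne h)))

lemma nm_cross (h : x ⨯₃ P ≠ 0) : nm v (x ⨯₃ P) = ds v x P * (nm v x * nm v P) :=
  (div_mul_cancel₀ _ (mul_ne_zero (nm_ne (left_ne h)) (nm_ne (right_ne h)))).symm

lemma cross_ne_of_ds (h : ds v x P ≠ 0) : x ⨯₃ P ≠ 0 := fun h0 => h (by
  rw [ds, h0, nm_eq_zero.2 rfl, zero_div])

lemma exists_prim' (h : x ≠ 0) : ∃ (a : K) (y : Fin 3 → K), a ≠ 0 ∧ x = a • y ∧ nm v y = 1 := by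
  obtain ⟨a, h1, -, h2⟩ := exists_prim (v := v) h
  exact ⟨a, _, h1, (smul_inv_smul₀ h1 x).symm, h2⟩

lemma eq_smul_of_cross (hQ : Q ≠ 0) (h : P ⨯₃ Q = 0) : ∃ a : K, P = a • Q := by
  obtain ⟨l, hl⟩ := Function.ne_iff.1 hQ
  have := cross_cross3 (Pi.single l (Q l)⁻¹) P Q
  rw [h, map_zero, single_dotProduct, inv_mul_cancel₀ hl, one_smul, eq_comm, sub_eq_zero] at this
  exact ⟨_, this⟩

variable (v) in
/-- nonsingular reduction -/
def NS (c : Cf K) (P : Fin 3 → K) : Prop := nm v (grad c P) = nm v P ^ 2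

lemma NS.of_smul (h : NS v c (s • P)) (hs : s ≠ 0) : NS v c P := by
  rw [NS, grad_smul, nm_smul, nm_smul, map_pow, mul_pow] at h
  exact mul_left_cancel₀ (pow_ne_zero 2 (v.ne_zero_iff.2 hs)) h

lemma cub_of_smul (hs : s ≠ 0) (h : cub c (s • a) = 0) : cub c a = 0 := by
  rw [cub_smul] at h; exact (mul_eq_zero.1 h).resolve_left (pow_ne_zero _ hs)

variable (v) in
/-- integral coefficients, and no line in the reduction -/
structure Good (c : Cf K) : Prop where
  int : ∀ i j l, v (c i j l) ≤ 1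
  nl : ∀ a b, nm v a ≤ 1 → nm v b ≤ 1 → nm v (a ⨯₃ b) = 1 → v (cub c a) < 1 → v (pol c a b) < 1 →
    v (pol c b a) < 1 → v (cub c b) < 1 → False

namespace Good

variable (G : Good v c)
include G

lemma tri_le (hx : nm v x ≤ 1) (hy : nm v y ≤ 1) (hz : nm v z ≤ 1) : v (tri c x y z) ≤ 1 :=
  tri_mem (B := v.valuationSubring) G.int (nm_le.1 hx) (nm_le.1 hy) (nm_le.1 hz)

lemma cub_le (hx : nm v x ≤ 1) : v (cub c x) ≤ 1 := G.tri_le hx hx hx

lemma pol_le (hx : nm v x ≤ 1) (hy : nm v y ≤ 1) : v (pol c x y) ≤ 1 :=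
  pol_mem (B := v.valuationSubring) G.int (nm_le.1 hx) (nm_le.1 hy)

lemma mix_le (hx : nm v x ≤ 1) (hy : nm v y ≤ 1) (hz : nm v z ≤ 1) : v (mix c x y z) ≤ 1 :=
  v.map_add_le (v.map_add_le (v.map_add_le (v.map_add_le (v.map_add_le (G.tri_le hx hy hz)
    (G.tri_le hy hx hz)) (G.tri_le hx hz hy)) (G.tri_le hy hz hx)) (G.tri_le hz hx hy))
    (G.tri_le hz hy hx)

lemma grad_le (hx : nm v x ≤ 1) : nm v (grad c x) ≤ 1 :=
  nm_le.2 (grad_mem (B := v.valuationSubring) G.int (nm_le.1 hx))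

lemma cont (ha : nm v a ≤ 1) (hb : nm v b ≤ 1) (h : nm v (a ⨯₃ b) = 1) (h0 : cub c a = 0) :
    max (max (v (pol c a b)) (v (pol c b a))) (v (cub c b)) = 1 := by
  refine le_antisymm (max_le (max_le (G.pol_le ha hb) (G.pol_le hb ha)) (G.cub_le hb)) ?_
  by_contra! h1
  simp only [max_lt_iff] at h1
  exact G.nl a b ha hb h (by simp [h0]) h1.1.1 h1.1.2 h1.2

lemma key (hP : nm v P ≤ 1) (hy : nm v y ≤ 1) (h : nm v (P ⨯₃ y) = 1) (h0 : cub c P = 0)
    (ht : t ≠ 0) (hx : cub c (s • P + t • y) = 0) (h1 : max (v s) (v t) = 1) : ∃ p q : K,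
    thd c P (s • P + t • y) = (-t ^ 3) • (q • P + p • y) ∧ max (v q) (v p) = 1 ∧
      s * q = cub c y ∧ s * p + t * q = -pol c y P := by
  rw [cub_comb, h0] at hx
  have e1 : t * (pol c P y / t) = pol c P y := by field_simp
  have e2 : s * (-(t * pol c y P + s * pol c P y) / t ^ 2) = cub c y := by
    field_simp
    refine mul_left_cancel₀ ht ?_
    linear_combination -hx
  have e3 : s * (pol c P y / t) + t * (-(t * pol c y P + s * pol c P y) / t ^ 2) = -pol c y P := by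
    field_simp; ring
  refine ⟨_, _, ?_, ?_, e2, e3⟩
  · rw [thd, pol_comb_self, pol_comb_right, pol_self, h0]
    ext i
    simp only [Pi.add_apply, Pi.sub_apply, Pi.smul_apply, smul_eq_mul]
    field_simp; ring
  · have := gauss2 (v := v) s t (pol c P y / t) (-(t * pol c y P + s * pol c P y) / t ^ 2)
    rw [e1, e2, e3, h1, one_mul, Valuation.map_neg, G.cont hP hy h h0] at this
    rw [max_comm, ← this]

lemma A0 (hP : nm v P = 1) (hx : nm v x = 1) (h0 : cub c P = 0) (h1 : cub c x = 0)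
    (h : x ⨯₃ P ≠ 0) : nm v (thd c P x) = nm v (x ⨯₃ P) ^ 3 := by
  obtain ⟨s, t, y, rfl, ht, e, hy, h2⟩ := exists_dec hP h
  obtain ⟨p, q, e1, e2, -⟩ := G.key hP.le hy h2 h0 ht h1 (by rw [← nm_comb hP.le hy h2, hx])
  rw [e1, nm_smul, nm_comb hP.le hy h2, e2, ← e, Valuation.map_neg, map_pow, mul_one]

lemma ns_unit (ha : nm v a ≤ 1) (hb : nm v b ≤ 1) (hz : nm v z ≤ 1) (h : z ⬝ᵥ a ⨯₃ b = 1)
    (h0 : cub c a = 0) (hn : nm v (grad c a) = 1) (h1 : v (pol c a b) < 1) :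
    v (pol c a z) = 1 := by
  refine (G.pol_le ha hz).eq_or_lt.resolve_right fun h2 => ?_
  have := cramer3' a b (grad c a) z
  rw [h, one_smul, ← pol_eq_dot, ← pol_eq_dot, ← pol_eq_dot, pol_self, h0, mul_zero, zero_smul,
    zero_add] at this
  rw [this] at hn
  exact ((nm_comb_le (cross_le_one hz ha) (cross_le_one ha hb)).trans_lt (max_lt h1 h2)).ne hn

lemma B1 {β ε : K} (hP : nm v P = 1) (hQ : nm v Q = 1) (h0 : cub c P = 0) (h0' : cub c Q = 0)
    (hPQ : nm v (P ⨯₃ Q) = 1) (hn : nm v (grad c Q) = 1) (hz : nm v z ≤ 1) (hz' : z ⬝ᵥ P ⨯₃ Q = 1)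
    (hβ : v β ≤ 1) (hε : v ε ≤ 1) (h3 : nm v (P ⨯₃ (β • Q + ε • z)) = 1) (ht : t ≠ 0)
    (h4 : max (v s) (v t) = 1) (h1 : cub c (s • P + t • (β • Q + ε • z)) = 0) :
    nm v (thd c P (s • P + t • (β • Q + ε • z)) ⨯₃ Q) * nm v ((s • P + t • (β • Q + ε • z)) ⨯₃ Q) =
      v t ^ 2 * v (t * ε) := by
  have hy : nm v (β • Q + ε • z) ≤ 1 := (nm_comb_le hQ.le hz).trans (max_le hβ hε)
  obtain ⟨p, q, e1, e2, e3, e4⟩ := G.key hP.le hy h3 h0 ht h1 h4
  have hpair : nm v ((P ⨯₃ Q) ⨯₃ (z ⨯₃ Q)) = 1 := by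
    rw [cross_cross3, dotProduct_comm _ Q, dot_cross_self, dotProduct_comm _ z, hz']
    simpa [nm_neg] using hQ
  have hd : ∀ s t : K, nm v ((s • P + t • (β • Q + ε • z)) ⨯₃ Q) = max (v s) (v t * v ε) :=
    fun s t => by
      rw [← map_mul, ← nm_comb hPQ.le (cross_le_one hz hQ.le) hpair]; simp [smul_smul]
  rw [e1, map_smul, LinearMap.smul_apply, nm_smul, hd, hd, Valuation.map_neg, map_pow, map_mul,
    mul_assoc, ← mul_assoc (v t ^ 2), ← pow_succ]
  congr 1
  rcases hε.eq_or_lt with h5 | h5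
  · rw [h5, mul_one, mul_one, e2, h4, mul_one]
  have h6 : v β = 1 := hβ.eq_or_lt.resolve_right fun h6 => by
    rw [map_add, map_smul, map_smul] at h3
    exact ((nm_comb_le hPQ.le (cross_le_one hP.le hz)).trans_lt (max_lt h6 h5)).ne h3
  have e7 : s * q = ε * (β ^ 2 * pol c Q z + ε * (β * pol c z Q + ε * cub c z)) := by
    rw [e3, cub_comb, h0']; ring
  have h7 : v (ε * (β * pol c z Q + ε * cub c z)) < 1 := by
    rw [map_mul]
    exact mul_lt_one_of_lt_of_le h5 (v.map_add_le (by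
      rw [map_mul]; exact mul_le_one' hβ (G.pol_le hz hQ.le)) (by
      rw [map_mul]; exact mul_le_one' hε (G.cub_le hz)))
  have h8 : v s * v q ≤ v ε := by
    rw [← map_mul, e7, map_mul]
    exact mul_le_of_le_one_right' (v.map_add_le (by
      rw [map_mul, map_pow, h6, one_pow, one_mul]; exact G.pol_le hQ.le hz) h7.le)
  have hs : v s ≤ 1 := h4 ▸ le_max_left _ _
  have hq : v q ≤ 1 := e2 ▸ le_max_left _ _
  have ht1 : v s < 1 → v t = 1 := fun h => (max_eq_iff.1 h4).elim (fun h' => absurd h'.1 h.ne) (·.1)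
  have hp1 : v q < 1 → v p = 1 := fun h => (max_eq_iff.1 e2).elim (fun h' => absurd h'.1 h.ne) (·.1)
  have hle : ∀ {a : K}, v a ≤ 1 → v a * v ε ≤ 1 := fun h => mul_le_one' h hε
  rcases hs.eq_or_lt with h9 | h9
  · rw [h9, one_mul] at h8
    rw [h9, hp1 (h8.trans_lt h5), one_mul, max_eq_right h8,
      max_eq_left (hle (h4 ▸ le_max_right _ _)), mul_one]
  rcases hq.eq_or_lt with h10 | h10
  · rw [h10, mul_one] at h8
    rw [h10, ht1 h9, one_mul, max_eq_right h8, max_eq_left (hle (e2 ▸ le_max_right _ _)), one_mul]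
  have h11 : v (pol c Q P) < 1 := by
    have e8 : β ^ 2 * pol c Q P = -(s * p + t * q) - ε * (β * mix c Q z P + ε * pol c z P) := by
      rw [e4, pol_comb_left]; ring
    have := congrArg v e8
    rw [map_mul, map_pow, h6, one_pow, one_mul] at this
    rw [this]
    refine v.map_sub_lt (by
      rw [Valuation.map_neg]
      exact v.map_add_lt (by rw [map_mul, hp1 h10, mul_one]; exact h9)
        (by rw [map_mul, ht1 h9, one_mul]; exact h10)) ?_
    rw [map_mul]
    exact mul_lt_one_of_lt_of_le h5 (v.map_add_le (by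
      rw [map_mul]; exact mul_le_one' hβ (G.mix_le hQ.le hz hP.le)) (by
      rw [map_mul]; exact mul_le_one' hε (G.pol_le hz hP.le)))
  have h12 := G.ns_unit (z := -z) hQ.le hP.le (by rwa [nm_neg]) (by
    rw [neg_dotProduct, ← dotProduct_neg, cross_anticomm, hz']) h0' hn h11
  rw [pol_eq_dot, dotProduct_neg, Valuation.map_neg, ← pol_eq_dot] at h12
  have h13 : v s * v q = v ε := by
    have : v (β ^ 2 * pol c Q z) = 1 := by rw [map_mul, map_pow, h6, h12, one_pow, one_mul]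
    rw [← map_mul, e7, map_mul, v.map_add_eq_of_lt_left (this ▸ h7), this, mul_one]
  rw [ht1 h9, hp1 h10, one_mul, max_eq_left (h13 ▸ mul_le_of_le_one_left' hs),
    max_eq_left (h13 ▸ mul_le_of_le_one_right' hq), mul_comm, h13]

lemma B0 (hP : nm v P = 1) (hQ : nm v Q = 1) (hx : nm v x = 1) (h0 : cub c P = 0)
    (h0' : cub c Q = 0) (h1 : cub c x = 0) (h : x ⨯₃ P ≠ 0) (hPQ : nm v (P ⨯₃ Q) = 1)
    (hn : nm v (grad c Q) = 1) : nm v (thd c P x ⨯₃ Q) * nm v (x ⨯₃ Q) =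
      nm v (x ⨯₃ P) ^ 2 * v (x ⬝ᵥ P ⨯₃ Q) := by
  obtain ⟨z, hz, hz'⟩ := exists_dual hPQ
  obtain ⟨s0, t, y0, rfl, ht, e, hy0, h2⟩ := exists_dec hP h
  obtain ⟨α, β, ε, e0, hβ, hε, e5⟩ : ∃ α β ε : K, y0 = α • P + (β • Q + ε • z) ∧ v β ≤ 1 ∧
      v ε ≤ 1 ∧ (s0 • P + t • y0) ⬝ᵥ P ⨯₃ Q = t * ε := by
    have e0 := cramer3 P Q y0 z
    rw [hz', one_smul, add_assoc] at e0
    exact ⟨_, _, _, e0, (dot_le_left (cross_le_one hz hP.le)).trans hy0,
      (dot_le_left hPQ.le).trans hy0, by simp⟩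
  have e6 : s0 • P + t • y0 = (s0 + t * α) • P + t • (β • Q + ε • z) := by rw [e0]; module
  have h3 : nm v (P ⨯₃ (β • Q + ε • z)) = 1 := by
    rw [← h2, e0, map_add _ (α • P), map_smul, cross_self, smul_zero, zero_add]
  rw [e5, ← e, e6]
  rw [e6] at hx h1
  exact G.B1 hP hQ h0 h0' hPQ hn hz hz' hβ hε h3 ht
    (by rw [← nm_comb hP.le ((nm_comb_le hQ.le hz).trans (max_le hβ hε)) h3, hx]) h1

section tangent

variable (hp : nm v p = 1) (hm : nm v m ≤ 1) (hmp : m ⬝ᵥ p = 1) (h0 : cub c p = 0)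
  (hn : nm v (grad c p) = 1)
include hp hm hmp h0 hn

lemma tdir_le : nm v (tdir c p m) ≤ 1 := cross_le_one hn.le hm

lemma tq_max : max (v (pol c (tdir c p m) p)) (v (cub c (tdir c p m))) = 1 := by
  have := G.cont hp.le (G.tdir_le hp hm hmp h0 hn) (by rw [cross_tdir h0 hmp, hn]) h0
  rwa [pol_tdir, map_zero, max_eq_right zero_le'] at this

lemma nm_tq : nm v (tq c p m) = 1 := by
  rw [tq, sub_eq_add_neg, ← neg_smul, nm_comb hp.le (G.tdir_le hp hm hmp h0 hn)
    (by rw [cross_tdir h0 hmp, hn]), Valuation.map_neg, max_comm, G.tq_max hp hm hmp h0 hn]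

lemma ns_tq : nm v (grad c (tq c p m)) = 1 := by
  have h1 := G.nm_tq hp hm hmp h0 hn
  have h2 := G.tq_max hp hm hmp h0 hn
  have hy := G.tdir_le hp hm hmp h0 hn
  refine (G.grad_le h1.le).eq_or_lt.resolve_right fun h3 => ?_
  have h4 : ∀ z, nm v z ≤ 1 → v (pol c (tq c p m) z) < 1 := fun z hz => by
    rw [pol_eq_dot]; exact (dot_le_left hz).trans_lt h3
  have h5 := h4 p hp.le
  rw [tq, sub_eq_add_neg, ← neg_smul, pol_comb_self, h0, pol_tdir, mul_zero, mul_zero, add_zero,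
    zero_add, neg_sq, ← pow_succ, map_pow, pow_lt_one_iff (by norm_num)] at h5
  have h6 := (max_eq_iff.1 h2).elim (fun h => absurd h.1 h5.ne) (·.1)
  obtain ⟨z, hz, hz'⟩ := exists_dual hn
  have h7 := h4 z hz
  rw [tq, sub_eq_add_neg, ← neg_smul, pol_comb_left, add_assoc, pol_eq_dot c p, dotProduct_comm,
    hz', mul_one, v.map_add_eq_of_lt_left, map_pow, h6, one_pow] at h7
  · exact h7.false
  rw [map_pow, h6, one_pow]
  refine v.map_add_lt ?_ ?_
  · rw [map_mul, map_mul, h6, one_mul, Valuation.map_neg]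
    exact mul_lt_one_of_lt_of_le h5 (G.mix_le hp.le hy hz)
  · rw [map_mul, map_pow, Valuation.map_neg]
    exact mul_lt_one_of_lt_of_le (pow_lt_one₀ zero_le' h5 two_ne_zero) (G.pol_le hy hz)

lemma C0 (hx : nm v x = 1) (h1 : cub c x = 0) :
    v (pol c p x) = nm v (x ⨯₃ p) ^ 2 * nm v (x ⨯₃ tq c p m) := by
  have h2 := G.tq_max hp hm hmp h0 hn
  have hq := G.nm_tq hp hm hmp h0 hn
  have hy := G.tdir_le hp hm hmp h0 hn
  have h3 := cross_tdir h0 hmp
  have h4 : pol c p (tdir c p m) = 0 := pol_tdir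
  rw [tq] at hq ⊢
  generalize tdir c p m = y at *
  obtain ⟨z, hz, hz'⟩ := exists_dual hn
  have h5 : pol c p z = 1 := by rw [pol_eq_dot, dotProduct_comm, hz']
  rw [← h3] at hz' hn
  obtain ⟨X, Y, Z, rfl, hX, hY, hZ, hm⟩ : ∃ X Y Z : K, x = (X • p + Y • y) + Z • z ∧ v X ≤ 1 ∧
      v Y ≤ 1 ∧ v Z ≤ 1 ∧ (v Y < 1 → v Z < 1 → v X = 1) := by
    have e0 := cramer3 p y x z
    rw [hz', one_smul] at e0
    have hX := (dot_le_left (a := x) (cross_le_one hy hz)).trans hx.le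
    refine ⟨_, _, _, e0, hX, (dot_le_left (cross_le_one hz hp.le)).trans hx.le,
      (dot_le_left hn.le).trans hx.le, fun a1 a2 => hX.eq_or_lt.resolve_right fun a3 => ?_⟩
    rw [e0] at hx
    exact ((nm_add _ _).trans_lt (max_lt ((nm_comb_le hp.le hy).trans_lt (max_lt a3 a1)) (by
      rw [nm_smul]; exact mul_lt_one_of_lt_of_le a2 hz))).ne hx
  have hu : nm v (X • p + Y • y) ≤ 1 := (nm_comb_le hp.le hy).trans (max_le hX hY)
  have d1 : nm v ((X • p + Y • y + Z • z) ⨯₃ p) = max (v Y) (v Z) := by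
    rw [← nm_comb (cross_le_one hy hp.le) (cross_le_one hz hp.le) (by
      rw [cross_cross3, dotProduct_comm _ p, dot_cross_self, dotProduct_comm _ z,
        ← cross_anticomm p y, dotProduct_neg, hz']
      simpa using hp)]
    simp
  have d2 : nm v ((X • p + Y • y + Z • z) ⨯₃ (cub c y • p - pol c y p • y)) =
      max (v (pol c y p * X + cub c y * Y)) (v Z) := by
    rw [← Valuation.map_neg, ← nm_comb hn.le (cross_le_one hz hq.le) (by
      rw [cross_cross3, dotProduct_comm _ z, hz', dotProduct_comm]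
      rw [← nm_neg, neg_sub] at hq
      simpa [← triple_product_permutation] using hq)]
    congr 1
    ext i; fin_cases i <;> simp [cross_apply] <;> ring
  obtain ⟨g, e1, g1, g2⟩ : ∃ g : K, Z * g = -(Y ^ 2 * (pol c y p * X + cub c y * Y)) ∧ v g ≤ 1 ∧
      (v Y < 1 → v Z < 1 → v g = 1) := by
    have g0 : v (pol c z (X • p + Y • y) + Z * cub c z) ≤ 1 := v.map_add_le (G.pol_le hz hu) (by
      rw [map_mul]; exact mul_le_one' hZ (G.cub_le hz))
    refine ⟨pol c (X • p + Y • y) z + Z * (pol c z (X • p + Y • y) + Z * cub c z), ?_,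
      v.map_add_le (G.pol_le hu hz) (by rw [map_mul]; exact mul_le_one' hZ g0), fun a1 a2 => ?_⟩
    · rw [← one_smul K (X • p + Y • y), cub_comb, cub_comb, h0, h4] at h1
      linear_combination h1
    have a3 : v (X ^ 2 * 1) = 1 := by rw [mul_one, map_pow, hm a1 a2, one_pow]
    rw [pol_comb_left, h5, add_assoc, add_assoc, v.map_add_eq_of_lt_left, a3]
    rw [a3]
    refine v.map_add_lt ?_ (v.map_add_lt ?_ ?_)
    · rw [map_mul, map_mul, hm a1 a2, one_mul]
      exact mul_lt_one_of_lt_of_le a1 (G.mix_le hp.le hy hz)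
    · rw [map_mul, map_pow]
      exact mul_lt_one_of_lt_of_le (pow_lt_one₀ zero_le' a1 two_ne_zero) (G.pol_le hy hz)
    · rw [map_mul]; exact mul_lt_one_of_lt_of_le a2 g0
  have hL : v (pol c y p * X + cub c y * Y) ≤ 1 := v.map_add_le (by
    rw [map_mul]; exact mul_le_one' (h2 ▸ le_max_left _ _) hX) (by
    rw [map_mul]; exact mul_le_one' (h2 ▸ le_max_right _ _) hY)
  have e2 := congrArg v e1
  rw [Valuation.map_neg, map_mul, map_mul, map_pow] at e2
  have e3 : pol c p (X • p + Y • y + Z • z) = Z := by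
    rw [← one_smul K (X • p + Y • y), pol_comb_right, pol_comb_right, pol_self, h0, h4, h5]; ring
  rw [d1, d2, e3]
  generalize v (pol c y p * X + cub c y * Y) = L at *
  rcases hZ.eq_or_lt with a2 | a2
  · rw [a2, max_eq_right hY, max_eq_right hL, one_pow, one_mul]
  rcases hY.eq_or_lt with a1 | a1
  · rw [a1, one_pow, one_mul] at e2
    rw [a1, max_eq_left hZ, max_eq_right (e2 ▸ mul_le_of_le_one_right' g1), one_pow, one_mul]
  rw [g2 a1 a2, mul_one] at e2
  rw [max_eq_left (e2 ▸ mul_le_of_le_one_left' (pow_le_one' hY 2) : v Z ≤ L),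
    max_eq_left (a := v Y), e2]
  rw [e2, sq, mul_assoc]
  exact mul_le_of_le_one_right' (mul_le_one' hY hL)

lemma C (hx0 : x ≠ 0) (h1 : cub c x = 0) :
    v (pol c p x) = ds v x p ^ 2 * ds v x (tq c p m) * nm v x := by
  obtain ⟨a, x, ha, rfl, hx⟩ := exists_prim' (v := v) hx0
  rw [ds_smul_left ha, ds_smul_left ha, ds_prim hx hp, ds_prim hx (G.nm_tq hp hm hmp h0 hn),
    ← G.C0 hp hm hmp h0 hn hx (cub_of_smul ha h1), nm_smul, hx, mul_one, pol_eq_dot, pol_eq_dot,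
    dotProduct_smul, smul_eq_mul, map_mul, mul_comm]

end tangent

lemma A (h0 : cub c P = 0) (h1 : cub c x = 0) (h : x ⨯₃ P ≠ 0) :
    nm v (thd c P x) = ds v x P ^ 3 * (nm v x ^ 2 * nm v P ^ 2) := by
  obtain ⟨a, x, ha, rfl, hx⟩ := exists_prim' (v := v) (left_ne h)
  obtain ⟨b, P, hb, rfl, hP⟩ := exists_prim' (v := v) (right_ne h)
  rw [thd_smul, nm_smul, G.A0 hP hx (cub_of_smul hb h0) (cub_of_smul ha h1)
    (fun h2 => h (by simp [h2])), ds_smul ha hb, ds_prim hx hP, nm_smul, nm_smul, hx, hP]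
  simp [mul_comm]

lemma thd_ne (h0 : cub c P = 0) (h1 : cub c x = 0) (h : x ⨯₃ P ≠ 0) : thd c P x ≠ 0 := fun h2 => by
  have := G.A h0 h1 h
  rw [h2, nm_eq_zero.2 rfl] at this
  exact mul_ne_zero (pow_ne_zero _ (ds_ne h)) (mul_ne_zero (pow_ne_zero _ (nm_ne (left_ne h)))
    (pow_ne_zero _ (nm_ne (right_ne h)))) this.symm

lemma A2 (h0 : cub c P = 0) (h1 : cub c x = 0) (h : x ⨯₃ P ≠ 0) :
    ds v (thd c P x) P * ds v x P ^ 2 * (nm v x * nm v P ^ 2) = v (pol c P x) := by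
  have h2 := ds_ne (v := v) h
  have h3 := nm_ne (v := v) (left_ne h)
  have h4 := nm_ne (v := v) (right_ne h)
  rw [ds, thd_cross, nm_smul, Valuation.map_neg, G.A h0 h1 h, nm_cross h]
  field_simp

lemma B (h0 : cub c P = 0) (h0' : cub c Q = 0) (h1 : cub c x = 0) (h : x ⨯₃ P ≠ 0)
    (hPQ : ds v P Q = 1) (hn : NS v c Q) : ds v (thd c P x) Q * ds v x Q * ds v x P *
      (nm v x * nm v P * nm v Q) = v (x ⬝ᵥ P ⨯₃ Q) := by
  have h5 := right_ne (cross_ne_of_ds (hPQ ▸ one_ne_zero : ds v P Q ≠ 0))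
  obtain ⟨a, x, ha, rfl, hx⟩ := exists_prim' (v := v) (left_ne h)
  obtain ⟨b, P, hb, rfl, hP⟩ := exists_prim' (v := v) (right_ne h)
  obtain ⟨d, Q, hd, rfl, hQ⟩ := exists_prim' (v := v) h5
  replace h : x ⨯₃ P ≠ 0 := fun h2 => h (by simp [h2])
  rw [ds_smul hb hd, ds_prim hP hQ] at hPQ
  have h2 := G.B0 hP hQ hx (cub_of_smul hb h0) (cub_of_smul hd h0') (cub_of_smul ha h1) h hPQ
    (by simpa [NS, hQ] using hn.of_smul hd)
  have h3 := G.A0 hP hx (cub_of_smul hb h0) (cub_of_smul ha h1) h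
  have h4 := nm_ne (v := v) h
  rw [thd_smul, ds_smul (mul_ne_zero (pow_ne_zero _ hb) (pow_ne_zero _ ha)) hd, ds_smul ha hd,
    ds_smul ha hb, ds_prim hx hP, ds_prim hx hQ, ds, h3, hQ, div_mul_eq_mul_div, h2]
  simp only [nm_smul, hx, hP, hQ, map_smul, LinearMap.smul_apply, dotProduct_smul, smul_dotProduct,
    smul_eq_mul, map_mul]
  field_simp

lemma E (h0 : cub c P = 0) (h0' : cub c Q = 0) (h1 : cub c x = 0) (h : x ⨯₃ P ≠ 0)
    (h' : x ⨯₃ Q ≠ 0) (hPQ : ds v P Q = 1 ∨ P ⨯₃ Q = 0) (hn : NS v c P) (hn' : NS v c Q) :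
    ds v (thd c P x) Q = ds v (thd c Q x) P := by
  rcases hPQ with hPQ | hPQ
  · have e1 := G.B h0 h0' h1 h hPQ hn'
    have e2 := G.B h0' h0 h1 h' (ds_comm.trans hPQ) hn
    rw [← cross_anticomm P Q, dotProduct_neg, Valuation.map_neg, ← e1, mul_right_comm (nm v x),
      mul_right_comm _ (ds v x P)] at e2
    exact (mul_right_cancel₀ (ds_ne h') (mul_right_cancel₀ (ds_ne h) (mul_right_cancel₀
      (mul_ne_zero (mul_ne_zero (nm_ne (left_ne h)) (nm_ne (right_ne h))) (nm_ne (right_ne h')))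
      e2))).symm
  · obtain ⟨a, rfl⟩ := eq_smul_of_cross (right_ne h') hPQ
    have ha : a ≠ 0 := fun ha => right_ne h (by simp [ha])
    rw [← one_smul K x, thd_smul, ds_smul_left (by simp [ha]), ds_smul_right ha, one_smul]

lemma D (hp : nm v p = 1) (hm : nm v m ≤ 1) (hmp : m ⬝ᵥ p = 1) (h0 : cub c p = 0)
    (hn : nm v (grad c p) = 1) (h1 : cub c x = 0) (h : x ⨯₃ p ≠ 0) (h' : x ⨯₃ tq c p m ≠ 0)
    (hq : ds v (tq c p m) p = 1 ∨ tq c p m ⨯₃ p = 0) :
    ds v (thd c (tq c p m) x) p = ds v x p := by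
  have e1 := G.C hp hm hmp h0 hn (left_ne h) h1
  have e0 := G.nm_tq hp hm hmp h0 hn
  have h2 := ds_ne (v := v) h
  have h3 := nm_ne (v := v) (left_ne h)
  rcases hq with hq | hq
  · have e2 := G.B (cub_tq h0) h0 h1 h' hq (by rw [NS, hn, hp, one_pow])
    rw [ds_prim e0 hp, tq_cross h0 hmp, nm_smul, hn, mul_one] at hq
    rw [tq_cross h0 hmp, dotProduct_smul, smul_eq_mul, map_mul, hq, dotProduct_comm, ← pol_eq_dot,
      e1, e0, hp, sq, one_mul, mul_one, mul_one] at e2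
    exact mul_right_cancel₀ h2 (mul_right_cancel₀ (ds_ne h') (mul_right_cancel₀ h3 e2))
  · obtain ⟨a, e2⟩ := eq_smul_of_cross (right_ne h) hq
    have ha : a ≠ 0 := fun ha => right_ne h' (by simp [e2, ha])
    have e3 := G.A2 h0 h1 h
    rw [e1, e2, ds_smul_right ha, hp, one_pow, mul_one, mul_comm (ds v x p ^ 2)] at e3
    rw [e2, ← one_smul K x, thd_smul, ds_smul_left (by simp [ha]), one_smul]
    exact mul_right_cancel₀ (pow_ne_zero 2 h2) (mul_right_cancel₀ h3 e3)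

end Good

end val

end Pool.Agent.Lib.MV
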