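import Pool.Agent.Lib.MV.Hyp0
import Pool.Agent.Lib.MV.Cub
import Pool.Agent.Lib.MV.Coch
import Pool.Agent.Lib.DU.Blue

open MvPolynomial Set WithZero Pool.Agent.Lib.MP_e39d36_ag Pool.Agent.Lib.MP_e39d36_ag.Var
  Pool.Agent.Lib.MP_cc3443_ag Pool.Agent.Lib.DU

set_option linter.unusedSectionVars false
set_option linter.unusedVariables false

noncomputable section

namespace Pool.Agent.Lib.MV

section var

variable {K : Type} [Field K]

/-- Minimal order of the entries of a nonzero vector. -/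
def mo {J : Type} [Fintype J] (v : Valuation K ℤᵐ⁰) (a : J → K) : ℤ := -log (nm v a)

lemma mo_eq_zero {J : Type} [Fintype J] {v : Valuation K ℤᵐ⁰} {a : J → K}
    (h : ∀ l, od v (a l) = 0) : mo v a = 0 := by
  have h1 : nm v a = 0 ∨ nm v a = 1 := by
    refine Finset.sup_induction (p := fun z => z = 0 ∨ z = 1) (Or.inl rfl) ?_ fun l _ => ?_
    · rintro _ (rfl | rfl) _ (rfl | rfl) <;> simp
    · by_cases h0 : a l = 0
      · simp [h0]
      · right
        rw [val_eq_exp h0, h l]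
        rfl
  rcases h1 with h1 | h1 <;> simp [mo, h1]

variable [Algebra ℂ K] (X : Var K)

/-- Weil divisors. -/
abbrev Dv : Type := X.PD →₀ ℤ

/-- The divisor of common zeros of a vector of rational functions. -/
def vd {J : Type} [Fintype J] (a : J → K) : Dv X :=
  Finsupp.ofSupportFinite (fun E => mo (val E) a)
    ((finite_iUnion fun l => finite_ord (X := X) (a l)).subset fun E hE => by
      by_contra h
      simp only [mem_iUnion, mem_ofPred_eq, not_exists, not_not] at h
      exact hE (mo_eq_zero fun l => by rw [← ord_val]; exact h l))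

lemma vd_apply {J : Type} [Fintype J] (a : J → K) (E : X.PD) : vd X a E = mo (val E) a := rfl

variable {X}

/-- Residue divisors of logarithmic forms. -/
def Res (Δ : X.PD → ℂ) : Prop :=
  ∃ η : Ω[K⁄ℂ], ∀ (E : X.PD) (π : K), X.ord π E.1 = 1 → η - Δ E • dlog π ∈ frm (X.O E.1)

/-- A complex combination of divisors. -/
def cmb {J : Type} [Fintype J] (c : J → ℂ) (W : J → Dv X) : X.PD → ℂ :=
  fun E => ∑ j, c j * (W j E : ℂ)

variable (X)

/-- Consequences of smoothness. -/
structure Sm : Prop where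
  fac : ∀ W : Dv X, Cart W
  inj : ∀ z, Function.Injective (KaehlerDifferential.map ℂ ℂ (X.O z) K)
  reg : ∀ z (ω : Ω[K⁄ℂ]), (∀ E : X.PD, X.O z ≤ X.O E.1 → ω ∈ frm (X.O E.1)) → ω ∈ frm (X.O z)

end var

/-- Derivations of lower bounds for the degrees of nonvanishing cohomology on one factor; `Pn` is
the set of classes of base point free pencils. -/
inductive Der (n : ℕ) {r : ℕ} (Pn : (Option (Fin r) → ℤ) → Prop) :
    (Option (Fin r) → ℤ) → ℤ → Prop
  | base (v : Option (Fin r) → ℤ) (q : ℤ) : (∀ a, v (some a) = 0 ∨ v (some a) = -1) →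
      ((-(n : ℤ) ≤ ∑ o, v o ∧ ∑ o, v o ≤ -1) ∨ (∑ o, v o < 0 ∧ q ≤ n) ∨ q ≤ 0) → Der n Pn v q
  | sub (v c : Option (Fin r) → ℤ) (q : ℤ) : Pn c →
      Der n Pn (v + c) q → Der n Pn (v + c + c) (q - 1) → Der n Pn v q
  | quo (v c : Option (Fin r) → ℤ) (q : ℤ) : Pn c →
      Der n Pn (v + c) q → Der n Pn v (q + 1) → Der n Pn (v + c + c) q
  | mid (v c : Option (Fin r) → ℤ) (q : ℤ) : Pn c →
      Der n Pn v q → Der n Pn (v + c + c) q → Der n Pn (v + c) q

/-- The anticanonical class of one factor in the basis `H`, `H - e a`. -/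
def kz (n r : ℕ) : Option (Fin r) → ℤ := fun o => o.elim ((n : ℤ) + 1 - r) fun _ => 1

/-- The class of the conics through four points. -/
def conic {r : ℕ} (a b c d : Fin r) : Option (Fin r) → ℤ :=
  Pi.single none (-2) + Pi.single (some a) 1 + Pi.single (some b) 1 + Pi.single (some c) 1 +
    Pi.single (some d) 1

namespace Dat

variable (D : Dat)

/-- The lattice of divisor classes of `Z`. -/
abbrev Λ : Type := ∀ i, Option (Fin (D.r i)) → ℤ

/-- The basis. -/
def h (μ : D.Sl) : D.Λ := Pi.single μ.1 (Pi.single μ.2 1)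

/-- The anticanonical class. -/
def κ : D.Λ := fun i => kz (D.n i) (D.r i)

/-- The anticanonical class of the product of the other factors. -/
def κW (i : Fin D.k) : D.Λ := Function.update D.κ i 0

/-- The condition on the degrees of the surfaces. -/
def Ok : Prop := (∀ i, D.r i ≠ 4 ∧ D.r i ≠ 5) ∨ ∃! i, D.r i ≠ 0

/-- An order on the coordinates in which the slots are intervals. -/
instance : LinearOrder D.Vx :=
  LinearOrder.lift' (fun t => toLex ((Fintype.equivFin D.Sl (D.sl t) : ℕ),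
    (Fintype.equivFin D.Vx t : ℕ))) fun t t' h =>
      (Fintype.equivFin D.Vx).injective (Fin.ext (congrArg (fun z => (ofLex z).2) h))

/-- The coordinates in a set of slots. -/
def TA (A : Finset D.Sl) : Finset D.Vx := Finset.univ.filter fun t => D.sl t ∈ A

/-- The slots of the projective spaces. -/
def A0 : Finset D.Sl := Finset.univ.filter fun μ => μ.2 = none

/-- Homogeneous coordinates of the projective spaces. -/
abbrev Hx : Type := Σ i, Fin (D.n i + 1)

/-- Affine coordinates. -/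
abbrev Ax : Type := Σ i, Fin (D.n i)

/-- The linear forms through the points as polynomials. -/
def Up (i : Fin D.k) (a : Fin (D.r i)) (j : Fin 2) : MvPolynomial (Fin (D.n i + 1)) ℂ :=
  ∑ l, C (D.u i a j l) * MvPolynomial.X l

/-- The equation in homogeneous coordinates. -/
def Fp : MvPolynomial D.Hx ℂ := ∑ c, ∏ i, rename (Sigma.mk i) (D.G c i)

/-- The equation in affine coordinates. -/
def Fa : MvPolynomial D.Ax ℂ :=
  ∑ c, ∏ i, aeval (Fin.cons 1 fun l => MvPolynomial.X ⟨i, l⟩ : Fin (D.n i + 1) → _) (D.G c i)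

variable {F : Type} [Field F] [Algebra ℂ F] (x : ∀ i, Fin (D.n i + 1) → F)

/-- The affine coordinates of a point. -/
def xa (w : D.Ax) : F := x w.1 w.2.succ

/-- The value of the equation. -/
def Fx : F := ∑ c, ∏ i, aeval (x i) (D.G c i)

/-- The coordinate ring of an intersection of charts. -/
def Bs (s : Finset D.Vx) : Subalgebra ℂ F :=
  Algebra.adjoin ℂ {z | ∃ t ∈ s, ∃ t', D.sl t' = D.sl t ∧ z = D.y x t' / D.y x t}

/-- The generator of a line bundle on a chart, using only the slots in `A`. -/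
def gA (A : Finset D.Sl) (v : D.Λ) (τ : D.Ch) : F := ∏ μ ∈ A, D.y x (τ.1 μ) ^ v μ.1 μ.2

/-- The generator of a line bundle on a chart. -/
abbrev gen (v : D.Λ) (τ : D.Ch) : F := D.gA x Finset.univ v τ

/-- Sections of a line bundle over intersections of charts, using only the slots in `A`. -/
def Ms (A : Finset D.Sl) (v : D.Λ) (s : Finset D.Vx) : AddSubgroup F :=
  AddSubgroup.closure {z | ∃ τ : D.Ch, (∀ μ ∈ A, τ.1 μ ∈ s) ∧ z / D.gA x A v τ ∈ D.Bs x s}

/-- Exactness of the complex of a line bundle in cohomological degree `q`. -/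
def Van (v : D.Λ) (q : ℕ) : Prop :=
  Ex Finset.univ (D.Ms x Finset.univ v) (Fintype.card D.Sl + q)

/-- Global sections. -/
def Sec (v : D.Λ) (g : F) : Prop := ∀ τ, g / D.gen x v τ ∈ D.B x τ

/-- Base point free pencils. -/
def Pen (v : D.Λ) : Prop := ∃ g g' : F, D.Sec x v g ∧ D.Sec x v g' ∧ ∀ τ (T : Subring F),
  IsLoc T → (D.B x τ).toSubring ≤ T → Un T (g / D.gen x v τ) ∨ Un T (g' / D.gen x v τ)

/-- The coordinates of one slot. -/
def ys (μ : D.Sl) : {t // D.sl t = μ} → F := fun t => D.y x t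

/-- The function field of the product of the other factors. -/
def K' (i : Fin D.k) : Subfield F :=
  Subfield.closure (range (algebraMap ℂ F) ∪ {z | ∃ j, j ≠ i ∧ ∃ l, z = x j l})

/-- The fibre equation with coefficients in `K'`. -/
def Φ0 (i : Fin D.k) : MvPolynomial (Fin (D.n i + 1)) F :=
  ∑ c, (∏ j ∈ Finset.univ.erase i, aeval (x j) (D.G c j)) • map (algebraMap ℂ F) (D.G c i)

/-- The gradient of the equation. -/
def φ : D.Vx → F :=
  Sum.elim (fun v => aeval (fun w : D.Hx => x w.1 w.2) (pderiv v D.Fp)) fun _ => 0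

/-- The relations given by the incidence equations. -/
def ρ (w : Σ i, Fin (D.r i)) : D.Vx → F :=
  Pi.single (.inr (w, 0)) (D.y x (.inr (w, 1))) - Pi.single (.inr (w, 1)) (D.y x (.inr (w, 0))) +
    ∑ l, Pi.single (.inl ⟨w.1, l⟩) (D.u w.1 w.2 1 l • D.y x (.inr (w, 0)) -
      D.u w.1 w.2 0 l • D.y x (.inr (w, 1)))

/-- Combinations of these relations. -/
def α : ((Σ i, Fin (D.r i)) → F) →ₗ[F] D.Vx → F := Fintype.linearCombination F (D.ρ x)

/-- Differentials of the coordinates together with the weights. -/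
def β : (D.Vx → F) →ₗ[F] Ω[F⁄ℂ] × (D.Sl → F) where
  toFun g := (∑ t, g t • KaehlerDifferential.D ℂ F (D.y x t),
    fun μ => ∑ t with D.sl t = μ, g t * D.y x t)
  map_add' g g' := by
    ext μ <;> simp [add_smul, add_mul, Finset.sum_add_distrib]
  map_smul' c g := by
    ext μ <;> simp [Finset.smul_sum, smul_smul, Finset.mul_sum, mul_assoc]

/-- The sum of the line bundles dual to the coordinates. -/
def Ps (s : Finset D.Vx) : AddSubgroup (D.Vx → F) :=
  AddSubgroup.pi univ fun t => D.Ms x Finset.univ (-D.h (D.sl t)) s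

/-- The relations among the differentials. -/
def Ns (s : Finset D.Vx) : AddSubgroup (D.Vx → F) := D.Ps x s ⊓ (D.β x).toAddMonoidHom.ker

/-- The extension of the differentials given by the slots. -/
def Es (s : Finset D.Vx) : AddSubgroup (Ω[F⁄ℂ] × (D.Sl → F)) :=
  (D.Ps x s).map (D.β x).toAddMonoidHom

/-- The sum of the line bundles of the incidence equations. -/
def Rs (s : Finset D.Vx) : AddSubgroup ((Σ i, Fin (D.r i)) → F) :=
  AddSubgroup.pi univ fun w => D.Ms x Finset.univ (-D.h ⟨w.1, none⟩ - D.h ⟨w.1, some w.2⟩) s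

/-- Values on the chart coordinates of a derivation of `Z` along the hypersurface that sends the
local equation to one. -/
def Drv (τ : D.Ch) (δ : D.Vx → F) : Prop := ∀ P Q : MvPolynomial D.Vx ℂ,
  aeval (D.rat D.X τ) P = D.f D.X τ * aeval (D.rat D.X τ) Q →
    ∑ t, aeval (D.rat x τ) (pderiv t P) * δ t = aeval (D.rat x τ) Q

/-- The linear form attached to such values. -/
def ξ (τ : D.Ch) (δ : D.Vx → F) : (D.Vx → F) →ₗ[F] F :=
  Fintype.linearCombination F fun t => D.y x (τ.1 (D.sl t)) * δ t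

variable {x} in
/-- Points of `Z` with values in a field. -/
def Inc (z : D.Vx → F) : Prop := ∀ i a,
  z (.inr (⟨i, a⟩, 0)) * ∑ l, D.u i a 1 l • z (.inl ⟨i, l⟩) =
    z (.inr (⟨i, a⟩, 1)) * ∑ l, D.u i a 0 l • z (.inl ⟨i, l⟩)

variable {x} in
/-- Affine coordinates of a point. -/
def zr (z : D.Vx → F) (τ : D.Ch) (t : D.Vx) : F := z t / z (τ.1 (D.sl t))

/-- Restriction of rational functions from `Z` to the hypersurface. -/
structure Psi (O : Subalgebra ℂ D.L) (ψ : D.L →ₗ[ℂ] F) : Prop where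
  one : ψ 1 = 1
  mul : ∀ a ∈ O, ∀ b ∈ O, ψ (a * b) = ψ a * ψ b
  inv : ∀ a ∈ O, ψ a ≠ 0 → a⁻¹ ∈ O
  mem : ∀ t, D.y D.X t ∈ O
  val : ∀ t, ψ (D.y D.X t) = D.y x t
  le : ∀ s, D.Bs D.X s ≤ O
  map : ∀ s, ∀ b ∈ D.Bs D.X s, ψ b ∈ D.Bs x s
  surj : ∀ s, ∀ b ∈ D.Bs x s, ∃ b' ∈ D.Bs D.X s, ψ b' = b
  f_mem : ∀ τ, D.f D.X τ ∈ D.B D.X τ
  f_ne : ∀ τ, D.f D.X τ ≠ 0
  f_zero : ∀ τ, ψ (D.f D.X τ) = 0
  ker : ∀ s (τ : D.Ch), (∀ μ, τ.1 μ ∈ s) → ∀ b ∈ D.Bs D.X s, ψ b = 0 →
    ∃ b' ∈ D.Bs D.X s, b = D.f D.X τ * b'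

/-- A model of the hypersurface. -/
structure Mod (K : Type) [Field K] [Algebra ℂ K] where
  X : Var K
  Q : Prj X
  Γ : Curves X
  x : ∀ i, Fin (D.n i + 1) → K
  hyp : D.IsHyp x X.O X.pd
  fs : ∀ z, Algebra.FormallySmooth ℂ (X.O z)
  sm : Sm X

variable {D} {K : Type} [Field K] [Algebra ℂ K] (M : D.Mod K)

/-- The standard divisors of the slots. -/
def Mod.st (i : Fin D.k) (o : Option (Fin (D.r i))) : Dv M.X := -vd M.X (D.ys M.x ⟨i, o⟩)

/-- The standard divisor in a class. -/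
def Mod.std (v : D.Λ) : Dv M.X := ∑ μ : D.Sl, v μ.1 μ.2 • M.st μ.1 μ.2

/-- Reindexing for the surfaces. -/
def c3 {i : Fin D.k} (h : D.r i ≠ 0) : Fin 3 ≃ Fin (D.n i + 1) :=
  finCongr (by rw [D.n_eq i h])

end Dat

end Pool.Agent.Lib.MV
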