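import Pool.Agent.Lib.MV.Cub
import Pool.Agent.Lib.MP_e39d36_ag.Dim

open Matrix WithZero Pool.Agent.Lib.MP_e39d36_ag Pool.Agent.Lib.MP_e39d36_ag.Var

set_option linter.unusedSectionVars false
set_option linter.unusedVariables false

noncomputable section

namespace Pool.Agent.Lib.MV.Fb

section val

variable {K Γ : Type} [Field K] [LinearOrderedCommGroupWithZero Γ]

/-- `A` is the preimage of a subfield of the residue field that contains the roots of its
nonzero polynomials of degree at most three. -/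
structure RC (v : Valuation K Γ) (A : Subring K) : Prop where
  le : ∀ z ∈ A, v z ≤ 1
  mx : ∀ z, v z < 1 → z ∈ A
  inv : ∀ z ∈ A, v z = 1 → z⁻¹ ∈ A
  root : ∀ z a b c d : K, v z ≤ 1 → a ∈ A → b ∈ A → c ∈ A → d ∈ A →
    v (a * z ^ 3 + b * z ^ 2 + c * z + d) < 1 → (v a = 1 ∨ v b = 1 ∨ v c = 1 ∨ v d = 1) → z ∈ A

/-- The reduction of the projective point `y` has coordinates in `A`. -/
def Pin (v : Valuation K Γ) (A : Subring K) {ι : Type} [Fintype ι] (y : ι → K) : Prop :=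
  ∃ s : K, nm v (s • y) = 1 ∧ ∀ i, s * y i ∈ A

variable {v : Valuation K Γ} {A : Subring K} {ι : Type} [Fintype ι] {y : ι → K}

lemma Pin.ne (h : Pin v A y) : y ≠ 0 := by
  obtain ⟨s, h1, -⟩ := h
  rintro rfl
  rw [smul_zero, nm_eq_zero.2 rfl] at h1
  exact zero_ne_one h1

lemma Pin.div_mem (hA : RC v A) (h : Pin v A y) {j : ι} (hj : v (y j) = nm v y) (i : ι) :
    y i / y j ∈ A := by
  obtain ⟨s, h1, h2⟩ := h
  have h3 : v (s * y j) = 1 := by rw [map_mul, hj, ← nm_smul, h1]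
  have h4 : s ≠ 0 := fun h => by simp [h] at h3
  rw [← mul_div_mul_left _ _ h4, div_eq_mul_inv]
  exact mul_mem (h2 i) (hA.inv _ (h2 j) h3)

lemma pin_of_div {j : ι} (h0 : y j ≠ 0) (hj : v (y j) = nm v y) (h : ∀ i, y i / y j ∈ A) :
    Pin v A y :=
  ⟨(y j)⁻¹, by rw [nm_smul, map_inv₀, ← hj, inv_mul_cancel₀ (v.ne_zero_iff.2 h0)], fun i => by
    rw [mul_comm, ← div_eq_mul_inv]; exact h i⟩

lemma Pin.smul (h : Pin v A y) {a : K} (ha : a ≠ 0) : Pin v A (a • y) := by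
  obtain ⟨s, h1, h2⟩ := h
  exact ⟨s / a, by rwa [smul_smul, div_mul_cancel₀ _ ha], fun i => by
    rw [Pi.smul_apply, smul_eq_mul, ← mul_assoc, div_mul_cancel₀ _ ha]; exact h2 i⟩

end val

/-- There are `n` elements of `S` whose residues modulo the nonunits of `T` are algebraically
independent. -/
def IndIn {K : Type} [Field K] [Algebra ℂ K] (T : Subring K) (S : Set K) (n : ℕ) : Prop :=
  ∃ a : Fin n → K, (∀ i, a i ∈ S) ∧ ∀ P : MvPolynomial (Fin n) ℂ, P ≠ 0 →
    Un T (MvPolynomial.aeval a P)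

/-- `K` is generated over `k` by the coordinates of a generic point of a plane cubic. -/
structure Gen {k K : Type} [Field k] [Field K] [Algebra k K] (c : Cf K) (x : Fin 3 → K) :
    Prop where
  ck : ∀ i j l, c i j l ∈ (algebraMap k K).range
  x0 : x 0 = 1
  cx : cub c x = 0
  gen : IntermediateField.adjoin k (Set.range x) = ⊤
  tr : ∃ z : K, Transcendental k z
  nl : ∀ a b : Fin 3 → K, a ⨯₃ b ≠ 0 → cub c a = 0 → pol c a b = 0 → pol c b a = 0 →
    cub c b = 0 → False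

/-- A point of the cubic on a line defined over `A` is defined over `A`. -/
def St_LN : Prop := ∀ (K Γ : Type) [Field K] [LinearOrderedCommGroupWithZero Γ]
  (v : Valuation K Γ) (A : Subring K) (c : Cf K) (x l : Fin 3 → K), RC v A → Good v c →
    (∀ i j l, c i j l ∈ A) → cub c x = 0 → x ≠ 0 → Pin v A l → v (l ⬝ᵥ x) < nm v l * nm v x →
    Pin v A x

/-- The line through a point defined over `A` and a nonsingular point. -/
def St_UR : Prop := ∀ (K Γ : Type) [Field K] [LinearOrderedCommGroupWithZero Γ]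
  (v : Valuation K Γ) (A : Subring K) (c : Cf K) (x p : Fin 3 → K), RC v A → Good v c →
    (∀ i j l, c i j l ∈ A) → (∀ i, p i ∈ A) → nm v p = 1 → nm v (grad c p) = 1 → cub c p = 0 →
    cub c x = 0 → x ⨯₃ p ≠ 0 → (ds v x p < 1 → Pin v A x ∧ Pin v A (x ⨯₃ p) ∧
      ds v (x ⨯₃ p) (grad c p) < 1) ∧ (Pin v A x → Pin v A (x ⨯₃ p))

/-- Conjugation in a quadratic extension. -/
def St_QUAD : Prop := ∀ (L K : Type) [Field L] [Field K] [Algebra L K] (s : K) (a b c : L),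
  a ≠ 0 → algebraMap L K a * s ^ 2 + algebraMap L K b * s + algebraMap L K c = 0 →
    s ∉ (algebraMap L K).range → IntermediateField.adjoin L {s} = ⊤ →
    ∃ σ : K ≃ₐ[L] K, (∀ z, σ (σ z) = z) ∧ algebraMap L K a * (s + σ s) + algebraMap L K b = 0

/-- A rational root gives a linear root. -/
def St_IRR : Prop := ∀ (k : Type) [Field k] (a b c p q : Polynomial k), a ≠ 0 →
  a.natDegree ≤ 1 → b.natDegree ≤ 2 → c.natDegree ≤ 3 → q ≠ 0 →
    a * p ^ 2 + b * p * q + c * q ^ 2 = 0 → ∃ α β : k,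
      a * (Polynomial.C α + Polynomial.C β * Polynomial.X) ^ 2 +
        b * (Polynomial.C α + Polynomial.C β * Polynomial.X) + c = 0

/-- The involution given by projection from a nonsingular rational point. -/
def St_INVO : Prop := ∀ (k K : Type) [Field k] [Field K] [Algebra k K] (c : Cf K)
  (x P : Fin 3 → K), Gen (k := k) c x → (∀ i, P i ∈ (algebraMap k K).range) → cub c P = 0 →
    grad c P ≠ 0 → x ⨯₃ P ≠ 0 ∧ ∃ σ : K ≃ₐ[k] K, (∀ z, σ (σ z) = z) ∧
      ∃ w : K, w ≠ 0 ∧ σ ∘ x = w • thd c P x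

/-- The valuation centred at a nonsingular rational point. -/
def St_SEC0 : Prop := ∀ (k K : Type) [Field k] [Field K] [Algebra k K] (c : Cf K)
  (x P : Fin 3 → K), Gen (k := k) c x → (∀ i, P i ∈ (algebraMap k K).range) → cub c P = 0 →
    grad c P ≠ 0 → x ⨯₃ P ≠ 0 → ∀ v : Valuation K ℤᵐ⁰, Function.Surjective v →
    (∀ a : k, v (algebraMap k K a) ≤ 1) → ds v x P < 1 →
    ds v x P = exp (-1) ∧ (∀ z, v z ≤ 1 → ∃ a : k, v (z - algebraMap k K a) < 1) ∧
    ∀ w : Valuation K ℤᵐ⁰, Function.Surjective w → (∀ a : k, w (algebraMap k K a) ≤ 1) →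
      ds w x P < 1 → w = v

/-- The residue fields of prime divisors. -/
def St_DIM : Prop := ∀ (K : Type) [Field K] [Algebra ℂ K] (X : Var K), ∃ n : ℕ,
  (∀ E : X.PD, IndIn (X.O E.1) (X.O E.1) n) ∧ ¬IndIn (⊤ : Subring K) Set.univ (n + 2)

/-- Recognition of prime divisors. -/
def St_PRM : Prop := ∀ (K : Type) [Field K] [Algebra ℂ K] (X : Var K) (n : ℕ),
  ¬IndIn (⊤ : Subring K) Set.univ (n + 2) → ∀ (w : Valuation K ℤᵐ⁰) (V : Subring K) (y : X.Pt),
    IsV w V → Dom (X.O y) V → IndIn V (X.O y) n → ∃ E : X.PD, X.O E.1 = V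

/-- Independent residues inside an algebraically generating set. -/
def St_EXT : Prop := ∀ (K : Type) [Field K] [Algebra ℂ K] (v : Valuation K ℤᵐ⁰) (V : Subring K)
  (S : Set K) (n : ℕ), IsV v V → (∀ a : ℂ, algebraMap ℂ K a ∈ V) → S ⊆ V →
    (∀ A : Subring K, RC v A → (∀ a : ℂ, algebraMap ℂ K a ∈ A) → S ⊆ A → V ≤ A) →
    IndIn V V n → IndIn V S n

/-- Two more independent elements. -/
def St_TWO : Prop := ∀ (K : Type) [Field K] [Algebra ℂ K] (k : IntermediateField ℂ K)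
  (v : Valuation K ℤᵐ⁰) (V : Subring K) (n : ℕ), IsV v V → (∀ a : ℂ, algebraMap ℂ K a ∈ V) →
    ¬k.toSubring ≤ V → (∃ z : K, Transcendental k z) → IndIn V (k ∩ V) n →
    IndIn (⊤ : Subring K) Set.univ (n + 2)

/-- Involutions that permute the prime divisors. -/
def St_PERM0 : Prop := ∀ (K : Type) [Field K] [Algebra ℂ K] (X : Var K) (σ : K ≃ₐ[ℂ] K),
  (∀ z, σ (σ z) = z) → (∀ E : X.PD, ∃ S : Set K, S ⊆ X.O E.1 ∧ (∀ z ∈ S, σ z = z) ∧
    (∀ A : Subring K, RC (val E) A → (∀ a : ℂ, algebraMap ℂ K a ∈ A) → S ⊆ A → X.O E.1 ≤ A) ∧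
    ∀ y, Dom (X.O y) ((X.O E.1).comap σ.toRingEquiv.toRingHom) → S ⊆ X.O y) →
  ∃ e : X.PD ≃ X.PD, ∀ f E, val (e E) (σ f) = val E f

end Pool.Agent.Lib.MV.Fb
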