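import Pool.Agent.Lib.MV.FibA
import Pool.Agent.Lib.MV.EndDefs

open Set Matrix WithZero Pool.Agent.Lib.MP_e39d36_ag Pool.Agent.Lib.MP_e39d36_ag.Var
  Pool.Agent.Lib.MP_cc3443_ag Pool.Agent.Lib.MV.End

set_option linter.unusedSectionVars false
set_option linter.unusedVariables false

noncomputable section

namespace Pool.Agent.Lib.MV.Fb

variable {K : Type} [Field K] [Algebra ℂ K] (X : Var K)

section sd

variable {ι : Type} [Fintype ι]

/-- The divisor of common poles of a vector of rational functions. -/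
def sd (y : ι → K) : X.PD →₀ ℤ :=
  Finsupp.ofSupportFinite (fun E => log (nm (val E) y))
    ((finite_iUnion fun l => finite_ord (X := X) (y l)).subset fun E hE => by
      rcases isEmpty_or_nonempty ι with h | h
      · simp [nm] at hE
      obtain ⟨l, hl⟩ := exists_nm (v := val E) y
      exact mem_iUnion.2 ⟨l, fun h0 => hE ((congrArg log hl).trans
        (neg_eq_zero.1 ((ord_val _ E).symm.trans h0)))⟩)

/-- Base point free vectors. -/
def Bpf (y : ι → K) : Prop := ∀ z : X.Pt, ∃ l, y l ≠ 0 ∧ ∀ l', y l' / y l ∈ X.O z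

variable {X} {y : ι → K}

lemma sd_apply (y : ι → K) (E : X.PD) : sd X y E = log (nm (val E) y) := rfl

lemma ord_log (f : K) (E : X.PD) : X.ord f E.1 = -log (val E f) := ord_val f E

lemma sd_smul {a : K} (ha : a ≠ 0) (hy : y ≠ 0) : sd X (a • y) = sd X y - X.div a :=
  Finsupp.ext fun E => by
    rw [Finsupp.sub_apply, sd_apply, sd_apply, div_apply, ord_log, nm_smul,
      log_mul ((val E).ne_zero_iff.2 ha) (nm_ne hy)]
    ring

lemma LE_sd_smul {a : K} (ha : a ≠ 0) (hy : y ≠ 0) : LE (sd X (a • y)) (sd X y) :=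
  ⟨a⁻¹, inv_ne_zero ha, by rw [sd_smul ha hy, div_inv, sub_eq_add_neg]⟩

lemma val_const (E : X.PD) {a : ℂ} (ha : a ≠ 0) : val E (algebraMap ℂ K a) = 1 := by
  have := (isV E).un_iff.1 (X.un_const E.1 ha)
  rw [val_eq_exp this.1, this.2]; rfl

lemma nm_const (E : X.PD) {p : ι → ℂ} (hp : p ≠ 0) : nm (val E) (algebraMap ℂ K ∘ p) = 1 := by
  obtain ⟨l, hl⟩ := Function.ne_iff.1 hp
  exact le_antisymm (nm_le.2 fun l => ((isV E).2 _).1 (X.const_mem _ _))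
    (val_const E hl ▸ le_nm (algebraMap ℂ K ∘ p) l)

lemma sd_const {p : ι → ℂ} (hp : p ≠ 0) : sd X (algebraMap ℂ K ∘ p) = 0 :=
  Finsupp.ext fun E => by rw [sd_apply, nm_const E hp]; rfl

lemma Bpf.mem (h : Bpf X y) {z : X.Pt} {V : Subring K} (hV : Dom (X.O z) V) {j : ι} (h0 : y j ≠ 0)
    (hj : ∀ i, y i / y j ∈ V) (i : ι) : y i / y j ∈ X.O z := by
  obtain ⟨l, h1, h2⟩ := h z
  have h3 : Un (X.O z) (y j / y l) := hV.2 _ (h2 j)
    ⟨div_ne_zero h0 h1, hV.1 (h2 j), by rw [inv_div]; exact hj l⟩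
  have := h3.div_mem (h2 i)
  rwa [div_div_div_cancel_right₀ h1] at this

lemma Bpf.locEq (h : Bpf X y) {z : X.Pt} {l : ι} (h0 : y l ≠ 0) (hl : ∀ i, y i / y l ∈ X.O z) :
    LocEq (sd X y) z (y l)⁻¹ := .mk' (inv_ne_zero h0) fun E hE => by
  rw [sd_apply, ord_log, map_inv₀, log_inv, neg_neg]
  refine congrArg _ (le_antisymm (nm_le.2 fun i => ?_) (le_nm y l))
  have := ((isV E).2 _).1 (hE (hl i))
  rwa [map_div₀, div_le_one₀ (zero_lt_iff.2 ((val E).ne_zero_iff.2 h0))] at this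

lemma rc_self (E : X.PD) : RC (val E) (X.O E.1) :=
  ⟨fun z => ((isV E).2 z).1, fun z h => ((isV E).2 z).2 h.le, fun z _ h => ((isV E).2 _).2 (by
    rw [map_inv₀, h, inv_one]), fun z _ _ _ _ h _ _ _ _ _ _ => ((isV E).2 z).2 h⟩

lemma val_hor {k : IntermediateField ℂ K} {E : X.PD} (h : k.toSubring ≤ X.O E.1) {z : K}
    (hz : z ∈ k) (h0 : z ≠ 0) : val E z = 1 := by
  have := (isV E).un_iff.1 ⟨h0, h hz, h (inv_mem hz : z⁻¹ ∈ k)⟩
  rw [val_eq_exp h0, this.2]; rfl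

lemma nm_hor {k : IntermediateField ℂ K} {E : X.PD} (h : k.toSubring ≤ X.O E.1)
    (hy : ∀ i, y i ∈ k) (h0 : y ≠ 0) : nm (val E) y = 1 := by
  obtain ⟨l, hl⟩ := Function.ne_iff.1 h0
  exact le_antisymm (nm_le.2 fun l => ((isV E).2 _).1 (h (hy l)))
    (val_hor h (hy l) hl ▸ le_nm y l)

/-- `σ` fixes `k` and permutes the prime divisors through `e`. -/
def Inv (k : IntermediateField ℂ K) (σ : K ≃ₐ[ℂ] K) (e : X.PD ≃ X.PD) : Prop :=
  (∀ z ∈ k, σ z = z) ∧ ∀ f E, val (e E) (σ f) = val E f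

variable {k : IntermediateField ℂ K} {σ : K ≃ₐ[ℂ] K} {e : X.PD ≃ X.PD}

lemma Inv.ps (h : Inv k σ e) : Ps σ.toRingEquiv e :=
  ⟨σ.commutes, fun f E => by rw [ord_log, ord_log, ← h.2 f E]; rfl⟩

lemma Inv.nm (h : Inv k σ e) (y : ι → K) (E : X.PD) : nm (val (e E)) (σ ∘ y) = nm (val E) y := by
  simp only [MV.nm, Function.comp, h.2]

lemma Inv.push_sd (h : Inv k σ e) (y : ι → K) : push e (sd X y) = sd X (σ ∘ y) :=
  Finsupp.ext fun E => by rw [push_apply, sd_apply, sd_apply, ← h.nm, e.apply_symm_apply]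

lemma Inv.fix (h : Inv k σ e) (hy : ∀ i, y i ∈ k) : σ ∘ y = y := funext fun i => h.1 _ (hy i)

lemma Inv.push_fix (h : Inv k σ e) (hy : ∀ i, y i ∈ k) : push e (sd X y) = sd X y := by
  rw [h.push_sd, h.fix hy]

lemma Inv.ds (h : Inv k σ e) (x P : Fin 3 → K) (E : X.PD) :
    ds (val (e E)) (σ ∘ x) (σ ∘ P) = ds (val E) x P := by
  rw [MV.ds, MV.ds, ← map_cross, h.nm, h.nm, h.nm]

lemma Inv.hor (h : Inv k σ e) (E : X.PD) : k.toSubring ≤ X.O (e E).1 ↔ k.toSubring ≤ X.O E.1 :=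
  forall₂_congr fun z hz => by rw [(isV _).2, (isV _).2, ← h.2 z E, h.1 z hz]

variable (X) in
/-- The divisor cut out by a point of the plane. -/
def dd (x P : Fin 3 → K) : X.PD →₀ ℤ := sd X x + sd X P - sd X (x ⨯₃ P)

lemma dd_apply {x P : Fin 3 → K} (h : x ⨯₃ P ≠ 0) (E : X.PD) :
    dd X x P E = -log (ds (val E) x P) := by
  rw [dd, Finsupp.sub_apply, Finsupp.add_apply, sd_apply, sd_apply, sd_apply, nm_cross h,
    log_mul (ds_ne h) (mul_ne_zero (nm_ne (left_ne h)) (nm_ne (right_ne h))),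
    log_mul (nm_ne (left_ne h)) (nm_ne (right_ne h))]
  ring

lemma Inv.push_dd (h : Inv k σ e) (x P : Fin 3 → K) :
    push e (dd X x P) = dd X (σ ∘ x) (σ ∘ P) := by
  rw [dd, dd, map_sub, map_add, h.push_sd, h.push_sd, h.push_sd, map_cross]

end sd

section pb

variable {X}

/-- A prime divisor as a place. -/
def plc (E : X.PD) : Place K :=
  ⟨⟨X.O E.1, (isV E).val⟩, fun h => (isV E).ne_top (congrArg ValuationSubring.toSubring h),
    X.const_mem _⟩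

variable (γ : CMap X K)

lemma pb_fin {D : X.PD →₀ ℤ} {f : X.PD → K} {g : K} (hf : ∀ E, LocEq D (γ.ctr (plc E)) (f E))
    (hg : LocEq D γ.c g) : {E : X.PD | X.ord (γ.τ (f E / g)) E.1 ≠ 0}.Finite := by
  have h1 : ∀ i : X.ι, ∃ r, (X.A i).toSubring ≤ X.O γ.c → r ∈ (X.A i).toSubring ∧
      Un (X.O γ.c) r ∧ ∀ E : X.PD, (X.A i).toSubring ≤ X.O E.1 → D E ≠ X.ord g E.1 →
        1 ≤ X.ord r E.1 := by
    intro i
    by_cases hi : (X.A i).toSubring ≤ X.O γ.c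
    · obtain ⟨r, h1, h2, h3⟩ := exists_fix (locOf_of_le hi)
        (S := {E | (X.A i).toSubring ≤ X.O E.1 ∧ D E ≠ X.ord g E.1})
        ((D - X.div g).support.finite_toSet.subset fun E hE => by simpa [sub_eq_zero] using hE.2)
        (fun E hE => hE.1) (fun E hE h => hE.2 (hg.eq h)) fun _ => 1
      exact ⟨r, fun _ => ⟨h1, h2, fun E h4 h5 => h3 E ⟨h4, h5⟩⟩⟩
    · exact ⟨0, fun h => absurd h hi⟩
  choose r hr using h1
  refine (Set.finite_iUnion fun i => finite_ord (X := X) (γ.τ (r i))).subset fun P hP => ?_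
  by_contra h2
  simp only [mem_iUnion, mem_ofPred_eq, not_exists, not_not] at h2
  obtain ⟨i, hi⟩ := X.chart (γ.ctr (plc P))
  obtain ⟨h3, h4, h5⟩ := hr i (hi.1.trans (γ.ctr_le _))
  have h6 : Un (X.O (γ.ctr (plc P))) (r i) := (γ.dom_ctr _).2 _ (hi.1 h3)
    (CMap.un_T.2 ⟨h4, (isV P).un_iff.2 ⟨CMap.τ_ne h4, ord_val _ P ▸ h2 i⟩⟩)
  refine hP (ord_un (CMap.un_T.1 (((hf P).un (.mk' hg.1 fun E hE => ?_)).mono
    (γ.dom_ctr _).1)).2)
  by_contra h7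
  have := h5 E (hi.1.trans hE) h7
  rw [Var.ord_un (h6.mono hE)] at this
  omega

/-- Pull-back of divisors along a point with values in the function field. -/
def pb (hc : ∀ D : X.PD →₀ ℤ, Cart D) (D : X.PD →₀ ℤ) : X.PD →₀ ℤ :=
  Finsupp.ofSupportFinite (fun E => X.ord (γ.τ (lf D (γ.ctr (plc E)) / lf D γ.c)) E.1)
    (pb_fin γ (fun _ => (hc D).lf _) ((hc D).lf _))

lemma pb_apply (hc : ∀ D : X.PD →₀ ℤ, Cart D) (D : X.PD →₀ ℤ) (E : X.PD) :
    pb γ hc D E = X.ord (γ.τ (lf D (γ.ctr (plc E)) / lf D γ.c)) E.1 := rfl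

end pb

/-- A chart of the base of a fibration at the prime divisor `E`. -/
structure Base (k : IntermediateField ℂ K) (κ : X.PD →₀ ℤ) (E : X.PD) (g : K)
    (B : Subalgebra ℂ K) : Prop where
  g0 : g ≠ 0
  gk : g ∈ k
  ord : κ E = log (val E g)
  Bk : ∀ z ∈ B, z ∈ k
  BO : B.toSubring ≤ X.O E.1
  ctr : ∀ y (V : Subring K), Dom (X.O y) V → B.toSubring ≤ V → B.toSubring ≤ X.O y

/-- Local data of a fibration in plane cubics. -/
structure Cht (k : IntermediateField ℂ K) (κ : X.PD →₀ ℤ) (c : Cf K) (x : Fin 3 → K) {J : Type}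
    (P : J → Fin 3 → K) (E : X.PD) (g : K) (B : Subalgebra ℂ K) : Prop extends Base X k κ E g B where
  cB : ∀ i j l, (g⁻¹ • c) i j l ∈ B
  good : Good (val E) (g⁻¹ • c)
  ns : ∀ a, nm (val E) (grad (g⁻¹ • c) (P a)) = 1
  alg : ∀ A : Subring K, RC (val E) A → B.toSubring ≤ A → Pin (val E) A x →
    (∀ a, Pin (val E) A (x ⨯₃ P a)) → X.O E.1 ≤ A

/-- A fibration in plane cubics with constant points. -/
structure Fib (J : Type) where
  k : IntermediateField ℂ K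
  x : Fin 3 → K
  c : Cf K
  p : J → Fin 3 → ℂ
  κ : X.PD →₀ ℤ
  ck : ∀ i j l, c i j l ∈ k
  x0 : x 0 = 1
  cx : cub c x = 0
  gen : IntermediateField.adjoin k (range x) = ⊤
  tr : ∃ z : K, Transcendental k z
  cp : ∀ a, cub c (algebraMap ℂ K ∘ p a) = 0
  p0 : ∀ a, p a ≠ 0
  pp : ∀ a b, a ≠ b → p a ⨯₃ p b ≠ 0
  bx : Bpf X x
  bp : ∀ a, Bpf X (x ⨯₃ (algebraMap ℂ K ∘ p a))
  loc : ∀ E, ∃ g B, Cht X k κ c x (fun a => algebraMap ℂ K ∘ p a) E g B

/-- A double cover given by a quadratic equation. -/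
structure Fib1 where
  k : IntermediateField ℂ K
  s : K
  q : Fin 3 → K
  κ : X.PD →₀ ℤ
  qk : ∀ i, q i ∈ k
  eq : q 2 * s ^ 2 + q 1 * s + q 0 = 0
  sk : s ∉ k
  gen : IntermediateField.adjoin k {s} = ⊤
  loc : ∀ E, ∃ g B, Base X k κ E g B ∧ (∀ i, g⁻¹ * q i ∈ B) ∧ nm (val E) q = val E g ∧
    ∀ A : Subring K, RC (val E) A → B.toSubring ≤ A → Pin (val E) A ![1, s] → X.O E.1 ≤ A

variable {X}

namespace Fib

variable {J : Type} (F : Fib X J)

/-- The constant points. -/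
abbrev P (a : J) : Fin 3 → K := algebraMap ℂ K ∘ F.p a

/-- The charts. -/
abbrev Ch (E : X.PD) (g : K) (B : Subalgebra ℂ K) : Prop := Cht X F.k F.κ F.c F.x F.P E g B

/-- The hyperplane class. -/
def H : X.PD →₀ ℤ := sd X F.x

/-- The pencil of lines through a point. -/
def h (a : J) : X.PD →₀ ℤ := sd X (F.x ⨯₃ F.P a)

/-- The exceptional class. -/
def e (a : J) : X.PD →₀ ℤ := F.H - F.h a

/-- Rational points with nonsingular reductions. -/
structure Pt (Q : Fin 3 → K) : Prop where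
  mem : ∀ i, Q i ∈ F.k
  cub : cub F.c Q = 0
  loc : ∀ E g B, F.Ch E g B → ∃ s : K, s ≠ 0 ∧ (∀ i, (s • Q) i ∈ B) ∧ nm (val E) (s • Q) = 1 ∧
    nm (val E) (grad (g⁻¹ • F.c) (s • Q)) = 1

lemma P_mem (a : J) (i : Fin 3) : F.P a i ∈ F.k := F.k.algebraMap_mem _

lemma nm_P (a : J) (E : X.PD) : nm (val E) (F.P a) = 1 := nm_const E (F.p0 a)

lemma e_eq (a : J) : F.e a = dd X F.x (F.P a) := by rw [dd, sd_const (F.p0 a), add_zero]; rfl

lemma x_ne : F.x ≠ 0 := fun h => one_ne_zero (F.x0.symm.trans (congrFun h 0))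

lemma κ_eq (a : J) : F.κ = sd X (grad F.c (F.P a)) := Finsupp.ext fun E => by
  obtain ⟨g, B, h⟩ := F.loc E
  have := h.ns a
  rw [grad_csmul, nm_smul, map_inv₀, inv_mul_eq_one₀ ((val E).ne_zero_iff.2 h.g0)] at this
  rw [h.ord, sd_apply, this]

lemma pt_P (a : J) : F.Pt (F.P a) := ⟨F.P_mem a, F.cp a, fun E g B h =>
  ⟨1, one_ne_zero, fun i => by rw [one_smul]; exact B.algebraMap_mem _, by
    rw [one_smul, F.nm_P], by rw [one_smul]; exact h.ns a⟩⟩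

include F in
lemma nePD : Nonempty X.PD := by
  obtain ⟨z, hz⟩ := F.tr
  by_contra h
  obtain ⟨a, rfl⟩ := X.eq_const (z := z) fun y => hartogs fun E _ => (h ⟨E⟩).elim
  exact hz (isAlgebraic_algebraMap (algebraMap ℂ F.k a))

lemma cross_ne {Q : Fin 3 → K} (hQ : ∀ i, Q i ∈ F.k) (h0 : Q ≠ 0) : F.x ⨯₃ Q ≠ 0 := fun h => by
  obtain ⟨a, ha⟩ := eq_smul_of_cross h0 h
  have h1 : a * Q 0 = 1 := (congrFun ha 0).symm.trans F.x0
  have h2 : a ∈ F.k := eq_inv_of_mul_eq_one_left h1 ▸ inv_mem (hQ 0)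
  obtain ⟨z, hz⟩ := F.tr
  have h3 : z ∈ IntermediateField.adjoin F.k (range F.x) := F.gen ▸ IntermediateField.mem_top
  have h4 : IntermediateField.adjoin F.k (range F.x) ≤ ⊥ := IntermediateField.adjoin_le_iff.2 (by
    rintro _ ⟨i, rfl⟩
    exact ⟨⟨a * Q i, mul_mem h2 (hQ i)⟩, (congrFun ha i).symm⟩)
  obtain ⟨w, rfl⟩ := h4 h3
  exact hz (isAlgebraic_algebraMap w)

lemma P_ne (a : J) : F.P a ≠ 0 := fun h => by
  obtain ⟨l, hl⟩ := Function.ne_iff.1 (F.p0 a)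
  exact hl ((map_eq_zero _).1 (congrFun h l))

lemma cross_P_ne (a : J) : F.x ⨯₃ F.P a ≠ 0 := F.cross_ne (F.P_mem a) (F.P_ne a)

lemma toGen : Gen (k := F.k) F.c F.x := by
  refine ⟨fun i j l => ⟨⟨_, F.ck i j l⟩, rfl⟩, F.x0, F.cx, F.gen, F.tr, fun a b h h1 h2 h3 h4 => ?_⟩
  obtain ⟨E⟩ := F.nePD
  obtain ⟨g, B, hE⟩ := F.loc E
  obtain ⟨s, a, hs, rfl, ha⟩ := exists_prim' (v := val E) (left_ne h)
  obtain ⟨u, t, y, rfl, ht, -, hy, h5⟩ := exists_dec (x := b) ha fun h0 => h (by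
    rw [map_smul, LinearMap.smul_apply, ← cross_anticomm, h0, neg_zero, smul_zero])
  replace h1 := cub_of_smul hs h1
  rw [← one_smul K (u • a + t • y), pol_smul, pol_comb_right, pol_self, h1] at h2
  have e2 : pol F.c a y = 0 := by simpa [hs, ht] using h2
  rw [← one_smul K (u • a + t • y), pol_smul, pol_comb_self, h1, e2] at h3
  have e3 : pol F.c y a = 0 := by simpa [hs, ht] using h3
  rw [cub_comb, h1, e2, e3] at h4
  have e4 : cub F.c y = 0 := by simpa [ht] using h4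
  refine hE.good.nl a y ha.le hy h5 ?_ ?_ ?_ ?_ <;> simp [cub_csmul, pol_csmul, h1, e2, e3, e4]

end Fib

/-- On vertical prime divisors the generic point stays away from the rational points. -/
def St_VT : Prop := ∀ (K : Type) [Field K] [Algebra ℂ K] (X : Var K) (J : Type) (F : Fib X J)
  (E : X.PD), ¬F.k.toSubring ≤ X.O E.1 → ∀ Q : Fin 3 → K, (∀ i, Q i ∈ F.k) → Q ≠ 0 →
    ds (val E) F.x Q = 1

/-- Projection from a good point gives a pseudo-automorphism. -/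
def St_PERM : Prop := ∀ (K : Type) [Field K] [Algebra ℂ K] (X : Var K) (J : Type) (F : Fib X J)
  (Q : Fin 3 → K), F.Pt Q → F.x ⨯₃ Q ≠ 0 ∧ ∃ σ e, Inv (X := X) F.k σ e ∧
    ∃ w : K, w ≠ 0 ∧ σ ∘ F.x = w • thd F.c Q F.x

/-- The involution of a constant point. -/
def St_SIGH : Prop := ∀ (K : Type) [Field K] [Algebra ℂ K] (X : Var K) (J : Type) (F : Fib X J)
  (a : J), ∃ σ e, Inv F.k σ e ∧ (∃ w : K, w ≠ 0 ∧ σ ∘ F.x = w • thd F.c (F.P a) F.x) ∧
    LE (push e F.H) ((2 : ℤ) • F.H - (3 : ℤ) • F.e a + F.κ) ∧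
    LE (push e (F.e a)) (F.H - (2 : ℤ) • F.e a + F.κ) ∧
    ∀ b, b ≠ a → LE (push e (F.e b)) (F.H - F.e a - F.e b)

/-- The involution of the tangential point. -/
def St_SIGE : Prop := ∀ (K : Type) [Field K] [Algebra ℂ K] (X : Var K) (J : Type) (F : Fib X J)
  (a : J), ∃ σ e, Inv F.k σ e ∧
    LE (push e F.H) ((6 : ℤ) • F.e a - F.H + (6 : ℤ) • F.κ) ∧ LE (push e (F.e a)) (F.e a) ∧
    ∀ b, b ≠ a → LE (push e (F.e b)) ((2 : ℤ) • F.e a - F.e b + (2 : ℤ) • F.κ)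

/-- The involution of a double cover. -/
def St_IOT : Prop := ∀ (K : Type) [Field K] [Algebra ℂ K] (X : Var K) (F : Fib1 X),
  ∃ σ e, Inv F.k σ e ∧ LE (push e (sd X ![1, F.s])) (F.κ - sd X ![1, F.s])

/-- The section over a constant point. -/
def St_SEC : Prop := ∀ (K : Type) [Field K] [Algebra ℂ K] (X : Var K) (J : Type) (F : Fib X J)
  (a : J), F.e a ≠ 0 → ∃ R : X.PD, F.e a = Finsupp.single R 1 ∧ ∃ γ : CMap X K, γ.c = R.1 ∧
    ∀ z ∈ F.k, z ∈ X.O R.1 ∧ γ.τ z = z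

/-- Properties of the pull-back. -/
def St_PB : Prop := ∀ (K : Type) [Field K] [Algebra ℂ K] (X : Var K) (γ : CMap X K)
  (hc : ∀ D : X.PD →₀ ℤ, Cart D),
    (∀ D, 0 ≤ D → (∀ E : X.PD, X.O γ.c ≤ X.O E.1 → D E = 0) → ∃ D', 0 ≤ D' ∧ LE (pb γ hc D) D') ∧
    ∀ (ι : Type) [Fintype ι] (y : ι → K) (s : K), Bpf X y → (∀ i, s * y i ∈ X.O γ.c) →
      (∃ i, γ.τ (s * y i) ≠ 0) → LE (pb γ hc (sd X y)) (sd X fun i => γ.τ (s * y i))

/-- Restriction of the standard divisors to a section. -/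
def St_RESF : Prop := ∀ (K : Type) [Field K] [Algebra ℂ K] (X : Var K) (J : Type) (F : Fib X J)
  (hc : ∀ D : X.PD →₀ ℤ, Cart D) (a : J) (R : X.PD) (γ : CMap X K), F.e a = Finsupp.single R 1 →
    γ.c = R.1 → (∀ z ∈ F.k, z ∈ X.O R.1 ∧ γ.τ z = z) →
    LE (pb γ hc F.H) 0 ∧ LE (pb γ hc (F.h a)) F.κ ∧ (∀ b, b ≠ a → LE (pb γ hc (F.h b)) 0) ∧
    ∀ (ι : Type) [Fintype ι] (y : ι → K), Bpf X y → (∀ i, y i ∈ F.k) →
      LE (pb γ hc (sd X y)) (sd X y)

end Pool.Agent.Lib.MV.Fb
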