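import Pool.Agent.Lib.MV.FibB
import Pool.Agent.Lib.MV.Defs

open Set Matrix WithZero MvPolynomial Pool.Agent.Lib.MP_e39d36_ag Pool.Agent.Lib.MP_e39d36_ag.Var
  Pool.Agent.Lib.MV.End

set_option linter.unusedSectionVars false
set_option linter.unusedVariables false

noncomputable section

namespace Pool.Agent.Lib.MV.Fb

section defs

variable (D : Dat) {F : Type} [Field F] [Algebra ℂ F] (x : ∀ i, Fin (D.n i + 1) → F)

/-- The function field of the product of the other factors. -/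
def kI (i : Fin D.k) : IntermediateField ℂ F :=
  (D.K' x i).toIntermediateField fun a => Subfield.subset_closure (Or.inl ⟨a, rfl⟩)

/-- The part of a chart ring coming from one factor. -/
def BI (τ : D.Ch) (i : Fin D.k) : Subalgebra ℂ F :=
  Algebra.adjoin ℂ (D.rat x τ '' {t | (D.sl t).1 = i})

/-- The part of a chart ring coming from the other factors. -/
def BW (τ : D.Ch) (i : Fin D.k) : Subalgebra ℂ F :=
  Algebra.adjoin ℂ (D.rat x τ '' {t | (D.sl t).1 ≠ i})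

/-- The generator of the anticanonical bundle of the other factors. -/
def gW (τ : D.Ch) (i : Fin D.k) : F := ∏ j ∈ Finset.univ.erase i, D.kap x τ j

/-- The weights in the fibre equation. -/
def wt (i : Fin D.k) (c : Fin D.m) : F := ∏ j ∈ Finset.univ.erase i, aeval (x j) (D.G c j)

/-- The affine fibre equation. -/
def Φa (i : Fin D.k) : MvPolynomial (Fin (D.n i)) F :=
  aeval (Fin.cons 1 MvPolynomial.X : Fin (D.n i + 1) → _) (D.Φ0 x i)

variable {D x}

lemma x_mem {i j : Fin D.k} (h : j ≠ i) (l : Fin (D.n j + 1)) : x j l ∈ kI D x i :=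
  Subfield.subset_closure (Or.inr ⟨j, h, l, rfl⟩)

lemma y_mem {i : Fin D.k} {t : D.Vx} (h : (D.sl t).1 ≠ i) : D.y x t ∈ kI D x i := by
  rcases t with t | t
  · exact x_mem h _
  · change ∑ l, D.u t.1.1 t.1.2 t.2 l • x t.1.1 l ∈ _
    refine sum_mem fun l _ => ?_
    rw [Algebra.smul_def]
    exact mul_mem ((kI D x i).algebraMap_mem _) (x_mem (j := t.1.1) h l)

lemma ys_mem {i j : Fin D.k} (h : j ≠ i) (o : Option (Fin (D.r j))) (t) :
    D.ys x ⟨j, o⟩ t ∈ kI D x i := y_mem (by rw [t.2]; exact h)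

lemma wt_mem (i : Fin D.k) (c : Fin D.m) : wt D x i c ∈ kI D x i :=
  prod_mem fun j hj => by
    rw [aeval_def, eval₂_eq']
    exact sum_mem fun d _ => mul_mem (algebraMap_mem _ _) (prod_mem fun l _ =>
      pow_mem (x_mem (Finset.ne_of_mem_erase hj) l) _)

lemma Φ_eq (τ : D.Ch) (i : Fin D.k) : D.Φ x τ i = (gW D x τ i)⁻¹ • D.Φ0 x i := by
  simp only [Dat.Φ, Dat.Φ0, gW, Finset.smul_sum, smul_smul, Finset.prod_div_distrib]
  simp only [div_eq_inv_mul]

lemma Fx_eq (i : Fin D.k) : D.Fx x = ∑ c, wt D x i c * aeval (x i) (D.G c i) :=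
  Finset.sum_congr rfl fun c _ => (Finset.prod_erase_mul _ _ (Finset.mem_univ i)).symm

end defs

section mod

variable {D : Dat} {K : Type} [Field K] [Algebra ℂ K] (M : D.Mod K)

lemma st_eq (i : Fin D.k) (o : Option (Fin (D.r i))) : M.st i o = sd M.X (D.ys M.x ⟨i, o⟩) :=
  Finsupp.ext fun E => neg_neg _

lemma bpf_ys (μ : D.Sl) : Bpf M.X (D.ys M.x μ) := fun z => by
  obtain ⟨τ, h⟩ := M.hyp.chart z
  refine ⟨⟨τ.1 μ, τ.2 μ⟩, M.hyp.ne _, fun t => h.1 (Algebra.subset_adjoin ⟨t.1, ?_⟩)⟩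
  rw [Dat.rat, t.2]; rfl

end mod

/-- Anticanonical sections are regular on the charts. -/
def St_GK : Prop := ∀ (D : Dat) (F : Type) [Field F] [Algebra ℂ F]
  (x : ∀ i, Fin (D.n i + 1) → F), (∀ t, D.y x t ≠ 0) → ∀ τ c j,
    aeval (x j) (D.G c j) / D.kap x τ j ∈ BI D x τ j

/-- The ideal of the hypersurface in affine coordinates. -/
def St_KER : Prop := ∀ (D : Dat) (K : Type) [Field K] [Algebra ℂ K] (M : D.Mod K)
  (P : MvPolynomial D.Ax ℂ), aeval (D.xa M.x) P = 0 ↔ D.Fa ∣ P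

/-- The ideal of the generic fibre. -/
def St_KER2 : Prop := ∀ (D : Dat) (K : Type) [Field K] [Algebra ℂ K] (M : D.Mod K) (i : Fin D.k),
  D.Fx M.x = 0 ∧ IntermediateField.adjoin (kI D M.x i) (range (M.x i)) = ⊤ ∧
  ∀ P : MvPolynomial (Fin (D.n i)) (kI D M.x i), aeval (fun l => M.x i l.succ) P = 0 →
    Φa D M.x i ∣ map (algebraMap (kI D M.x i) K) P

/-- The generic fibre of a factor of dimension at least two has positive dimension. -/
def St_TR : Prop := ∀ (D : Dat) (K : Type) [Field K] [Algebra ℂ K] (M : D.Mod K) (i : Fin D.k),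
  2 ≤ D.n i → ∃ z : K, Transcendental (kI D M.x i) z

/-- Charts of the base. -/
def St_BASE : Prop := ∀ (D : Dat) (K : Type) [Field K] [Algebra ℂ K] (M : D.Mod K) (i : Fin D.k)
  (E : M.X.PD) (τ : D.Ch), LocOf (D.B M.x τ).toSubring (M.X.O E.1) →
    Base M.X (kI D M.x i) (dW D.n M.st i) E (gW D M.x τ i) (BW D M.x τ i) ∧
    (∀ c, (gW D M.x τ i)⁻¹ * wt D M.x i c ∈ BW D M.x τ i) ∧
    ∀ A : Subring K, RC (val E) A → (BW D M.x τ i).toSubring ≤ A →
      (∀ o, Pin (val E) A (D.ys M.x ⟨i, o⟩)) → M.X.O E.1 ≤ A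

/-- Ternary cubic forms come from trilinear forms. -/
def St_TRI : Prop := ∀ G : MvPolynomial (Fin 3) ℂ, G.IsHomogeneous 3 → ∃ c : Cf ℂ,
  ∀ (R : Type) [CommRing R] [Algebra ℂ R] (z : Fin 3 → R),
    aeval z G = cub (cmap (algebraMap ℂ R) c) z ∧
      ∀ l, aeval z (pderiv l G) = grad (cmap (algebraMap ℂ R) c) z l

/-- The two linear forms through a point and the cross product define the same pencil. -/
def St_PEN : Prop := ∀ (K : Type) [Field K] [Algebra ℂ K] (X : Var K) (ι : Type) [Fintype ι]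
  (e : Fin 2 ≃ ι) (p : Fin 3 → ℂ) (u : Fin 2 → Fin 3 → ℂ) (x : Fin 3 → K) (y : ι → K), p ≠ 0 →
    LinearIndependent ℂ u → (∀ j, u j ⬝ᵥ p = 0) → (∀ j, y (e j) = ∑ l, u j l • x l) →
    sd X (x ⨯₃ (algebraMap ℂ K ∘ p)) = sd X y ∧ (Bpf X y → Bpf X (x ⨯₃ (algebraMap ℂ K ∘ p))) ∧
    ∀ (E : X.PD) (A : Subring K), (∀ a : ℂ, algebraMap ℂ K a ∈ A) →
      Pin (val E) A (x ⨯₃ (algebraMap ℂ K ∘ p)) → Pin (val E) A y

/-- The cubic fibration given by a surface factor. -/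
def St_FIB : Prop := ∀ (D : Dat) (K : Type) [Field K] [Algebra ℂ K] (M : D.Mod K) (i : Fin D.k),
  D.r i ≠ 0 → ∃ F : Fib M.X (Fin (D.r i)), F.k = kI D M.x i ∧ F.H = M.st i none ∧
    (∀ a, F.h a = M.st i (some a)) ∧ F.κ = dW D.n M.st i

/-- The double cover given by a projective line. -/
def St_FIB1 : Prop := ∀ (D : Dat) (K : Type) [Field K] [Algebra ℂ K] (M : D.Mod K) (i : Fin D.k),
  D.n i = 1 → LE (M.st i none) (dW D.n M.st i) ∨ ∃ F : Fib1 M.X, F.k = kI D M.x i ∧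
    sd M.X ![1, F.s] = M.st i none ∧ F.κ = dW D.n M.st i

/-- Pull-back of residue divisors. -/
def St_PBR : Prop := ∀ (K : Type) [Field K] [Algebra ℂ K] (X : Var K) (hs : Sm X) (γ : CMap X K)
  (J : Type) [Fintype J] (c : J → ℂ) (W : J → Dv X),
    Res (cmb c W) → Res (cmb c fun j => pb γ hs.fac (W j))

end Pool.Agent.Lib.MV.Fb
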