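import Pool.Agent.Lib.MV.F_PB

open Set Matrix WithZero Pool.Agent.Lib.MP_e39d36_ag Pool.Agent.Lib.MP_e39d36_ag.Var
  Pool.Agent.Lib.MP_cc3443_ag Pool.Agent.Lib.MV.End Pool.Agent.Lib.MV.Fb

set_option linter.unusedSectionVars false
set_option linter.unusedVariables false

noncomputable section

namespace Pool.Agent.Lib.MV.G2

variable {K : Type} [Field K]

/-- The entries of `y` generate a principal module over `A`, generated by one of them. -/
def Fr (A : Subring K) {ι : Type} (y : ι → K) : Prop := ∃ l, y l ≠ 0 ∧ ∀ l', y l' / y l ∈ A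

lemma Fr.smul {A : Subring K} {ι : Type} {y : ι → K} (h : Fr A y) {a : K} (ha : a ≠ 0) :
    Fr A (a • y) := h.imp fun l h => ⟨mul_ne_zero ha h.1, fun l' => by
  rw [Pi.smul_apply, Pi.smul_apply, smul_eq_mul, smul_eq_mul, mul_div_mul_left _ _ ha]
  exact h.2 l'⟩

lemma un_iff {V : ValuationSubring K} {z : K} : Un V.toSubring z ↔ V.valuation z = 1 := by
  refine ⟨fun h => le_antisymm ((V.valuation_le_one_iff z).2 h.2.1) ?_, fun h =>
    ⟨fun h0 => by simp [h0] at h, (V.valuation_le_one_iff z).1 h.le,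
      (V.valuation_le_one_iff _).1 (by simp [h])⟩⟩
  have h1 := (V.valuation_le_one_iff _).2 h.2.2
  rwa [map_inv₀, inv_le_one₀ (zero_lt_iff.2 (V.valuation.ne_zero_iff.2 h.1))] at h1

lemma isLoc_V (V : ValuationSubring K) : IsLoc V.toSubring := isLoc_of_val V.mem_or_inv_mem

/-- The norm of a vector with a generator. -/
lemma nm_gen {Γ ι : Type} [LinearOrderedCommGroupWithZero Γ] [Fintype ι] {v : Valuation K Γ}
    {y : ι → K} {l : ι} (h0 : y l ≠ 0) (h : ∀ l', v (y l' / y l) ≤ 1) : nm v y = v (y l) :=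
  le_antisymm (nm_le.2 fun l' => by
    have := h l'
    rwa [map_div₀, div_le_one₀ (zero_lt_iff.2 (v.ne_zero_iff.2 h0))] at this) (le_nm y l)

variable [Algebra ℂ K]

lemma indIn_le {T : Subring K} {S : Set K} {m n : ℕ} (h : IndIn T S n) (hm : m ≤ n) :
    IndIn T S m := by
  obtain ⟨a, h1, h2⟩ := h
  refine ⟨a ∘ Fin.castLE hm, fun i => h1 _, fun P hP => ?_⟩
  rw [← MvPolynomial.aeval_rename]
  exact h2 _ fun h => hP (MvPolynomial.rename_injective _ (Fin.castLE_injective hm)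
    (h.trans (map_zero _).symm))

lemma indIn_mono {T T' : Subring K} {S S' : Set K} {n : ℕ} (h : IndIn T S n) (hT : T ≤ T')
    (hS : S ⊆ S') : IndIn T' S' n :=
  h.imp fun a h => ⟨fun i => hS (h.1 i), fun P hP => (h.2 P hP).mono hT⟩

lemma nm_const' {Γ ι : Type} [LinearOrderedCommGroupWithZero Γ] [Fintype ι] {v : Valuation K Γ}
    (hv : ∀ a : ℂ, v (algebraMap ℂ K a) ≤ 1) {p : ι → ℂ} (hp : p ≠ 0) :
    nm v (algebraMap ℂ K ∘ p) = 1 := by
  obtain ⟨l, hl⟩ := Function.ne_iff.1 hp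
  refine le_antisymm (nm_le.2 fun l => hv _) (le_trans ?_ (le_nm (algebraMap ℂ K ∘ p) l))
  have h1 : v (algebraMap ℂ K (p l)) * v (algebraMap ℂ K (p l)⁻¹) = 1 := by
    rw [← map_mul, ← map_mul, mul_inv_cancel₀ hl, map_one, map_one]
  rw [← h1]
  exact mul_le_of_le_one_right' (hv _)

/-- Pull-back of a subring. -/
abbrev cs (A : Subring K) (σ : K ≃ₐ[ℂ] K) : Subring K := A.comap σ.toRingEquiv.toRingHom

/-- Pull-back of a valuation ring. -/
def cm (V : ValuationSubring K) (σ : K ≃ₐ[ℂ] K) : ValuationSubring K :=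
  V.comap σ.toRingEquiv.toRingHom

lemma mem_cs {A : Subring K} {σ : K ≃ₐ[ℂ] K} {z : K} : z ∈ cs A σ ↔ σ z ∈ A := Iff.rfl

lemma un_cs {A : Subring K} {σ : K ≃ₐ[ℂ] K} {z : K} : Un (cs A σ) z ↔ Un A (σ z) := un_comap

lemma mem_cm {V : ValuationSubring K} {σ : K ≃ₐ[ℂ] K} {z : K} : z ∈ cm V σ ↔ σ z ∈ V := Iff.rfl

lemma cm_toSubring (V : ValuationSubring K) (σ : K ≃ₐ[ℂ] K) :
    (cm V σ).toSubring = cs V.toSubring σ := rfl

lemma cm_cm (V : ValuationSubring K) (σ σ' : K ≃ₐ[ℂ] K) : cm (cm V σ) σ' = cm V (σ * σ') := rfl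

lemma cm_one (V : ValuationSubring K) : cm V (1 : K ≃ₐ[ℂ] K) = V := rfl

lemma dom_cs {A T : Subring K} (h : Dom A T) (σ : K ≃ₐ[ℂ] K) : Dom (cs A σ) (cs T σ) :=
  ⟨fun z hz => h.1 hz, fun z hz hu => un_cs.2 (h.2 _ hz (un_cs.1 hu))⟩

variable {X : Var K}

/-- `y` is the centre of `V`. -/
abbrev Cen (V : ValuationSubring K) (y : X.Pt) : Prop := Dom (X.O y) V.toSubring

lemma exists_cen {V : ValuationSubring K} (h : ∀ a : ℂ, algebraMap ℂ K a ∈ V) :
    ∃ y : X.Pt, Cen V y := by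
  obtain ⟨i, hi⟩ := X.exists_chart_val V h
  exact (exists_centre (isLoc_V V) hi).imp fun _ h => h.1

lemma cen_eq {V : ValuationSubring K} {y y' : X.Pt} (h : Cen V y) (h' : Cen V y') : y = y' :=
  X.sep _ _ _ (isLoc_V V) h h'

lemma cen_const {V : ValuationSubring K} {y : X.Pt} (h : Cen V y) (a : ℂ) :
    algebraMap ℂ K a ∈ V := h.1 (X.const_mem y a)

lemma cen_cm {V : ValuationSubring K} {y : X.Pt} (h : Cen V y) (σ : K ≃ₐ[ℂ] K) :
    ∃ y' : X.Pt, Cen (cm V σ) y' :=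
  exists_cen fun a => mem_cm.2 (by rw [σ.commutes]; exact cen_const h a)

lemma cen_of_cm {V : ValuationSubring K} {y : X.Pt} {σ : K ≃ₐ[ℂ] K} (h : Cen (cm V σ) y) :
    ∃ y' : X.Pt, Cen V y' :=
  exists_cen fun a => by rw [← σ.commutes]; exact mem_cm.1 (cen_const h a)

/-- Points of codimension at most two. -/
def Big (z : X.Pt) : Prop :=
  ∀ m, IndIn (⊤ : Subring K) univ (m + 2) → IndIn (X.O z) (X.O z) m

/-- Valuation rings on the prime divisor `R` whose centre has codimension at most one in `R`. -/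
def Adm (R : X.PD) : Set (ValuationSubring K) :=
  {V | V.toSubring ≤ X.O R.1 ∧ ∃ y : X.Pt, Cen V y ∧ Big y}

/-- `γ` is the residue map of `R`, onto the field `k`. -/
structure Sc (k : IntermediateField ℂ K) (γ : CMap X K) (R : X.PD) : Prop where
  c : γ.c = R.1
  fix : ∀ z ∈ k, z ∈ X.O R.1 ∧ γ.τ z = z
  im : ∀ z ∈ X.O R.1, γ.τ z ∈ k

variable (X) in
/-- Composites of a rational section and a prime divisor. -/
def Cmp (k : IntermediateField ℂ K) : Set (ValuationSubring K) :=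
  {V | ∃ (γ : CMap X K) (R E : X.PD), Sc k γ R ∧ V.toSubring = γ.T (plc E)}

variable (X) in
/-- `σ` preserves the class `𝒜` and is regular at the centres. -/
def Li (𝒜 : Set (ValuationSubring K)) (σ : K ≃ₐ[ℂ] K) : Prop :=
  ∀ V, (V ∈ 𝒜 ↔ cm V σ ∈ 𝒜) ∧
    (V ∈ 𝒜 → ∀ y y' : X.Pt, Cen V y → Cen (cm V σ) y' → X.O y' ≤ cs (X.O y) σ)

/-- The local equation at the centre lies in `V`. -/
def Rg (D : X.PD →₀ ℤ) (V : ValuationSubring K) : Prop :=
  ∀ y f, Cen V y → LocEq D y f → f ∈ V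

/-- The local equation at the centre is a unit of `V`. -/
def Uv (D : X.PD →₀ ℤ) (V : ValuationSubring K) : Prop :=
  ∀ y f, Cen V y → LocEq D y f → Un V.toSubring f

lemma Li.one (𝒜 : Set (ValuationSubring K)) : Li X 𝒜 1 := fun V =>
  ⟨Iff.rfl, fun _ y y' h h' => by rw [cen_eq h h']; exact le_rfl⟩

lemma Li.mul {𝒜 : Set (ValuationSubring K)} {σ σ' : K ≃ₐ[ℂ] K} (h : Li X 𝒜 σ) (h' : Li X 𝒜 σ') :
    Li X 𝒜 (σ * σ') := fun V => ⟨(h V).1.trans (h' _).1, fun hV y y'' h1 h2 z hz => by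
  obtain ⟨y', h3⟩ := cen_cm h1 σ
  exact (h V).2 hV y y' h1 h3 ((h' _).2 ((h V).1.1 hV) y' y'' h3 h2 hz)⟩

lemma rg_of_nonneg {D : X.PD →₀ ℤ} (h : 0 ≤ D) (V : ValuationSubring K) : Rg D V :=
  fun y f h1 h2 => h1.1 (h2.mem h)

lemma uv_keep (hc : ∀ D : X.PD →₀ ℤ, Cart D) {D S : X.PD →₀ ℤ} {V : ValuationSubring K}
    (h1 : Rg D V) (h2 : 0 ≤ S) (h3 : Uv (D + S) V) : Uv D V := fun y f hy hf =>
  (h3 y _ hy (hf.add ((hc S).lf y))).of_mul (h1 y f hy hf) (hy.1 (((hc S).lf y).mem h2))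

lemma exists_cmp {γ : CMap X K} {R : X.PD} (h : γ.c = R.1) (E : X.PD) :
    ∃ V : ValuationSubring K, V.toSubring = γ.T (plc E) := by
  refine ⟨⟨γ.T (plc E), fun z => ?_⟩, rfl⟩
  have key : ∀ z ∈ X.O γ.c, z ∈ γ.T (plc E) ∨ z⁻¹ ∈ γ.T (plc E) := fun z hz =>
    or_iff_not_imp_left.2 fun h0 => by
      have h1 : γ.τ z ∉ (plc E).O := fun h => h0 (CMap.mem_T.2 ⟨hz, h⟩)
      have h2 := CMap.un_of_ne hz fun h => h1 (h ▸ zero_mem _)
      exact CMap.mem_T.2 ⟨h2.2.2, CMap.τ_inv' h2 ▸ ((plc E).O.mem_or_inv_mem _).resolve_left h1⟩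
  rcases (isV R).val z with h1 | h1
  · exact key z (h ▸ h1)
  · have := key _ (h ▸ h1 : z⁻¹ ∈ X.O γ.c)
    rw [inv_inv] at this
    exact this.symm

lemma pb0 (hc : ∀ D : X.PD →₀ ℤ, Cart D) {γ : CMap X K} {R : X.PD} (h : γ.c = R.1)
    {D : X.PD →₀ ℤ} (hD : D R = 0) : ∃ Δ, LE (pb γ hc D) Δ ∧ ∀ E,
      Δ E = X.ord (γ.τ (lf D (γ.ctr (plc E)))) E.1 ∧ Un (X.O γ.c) (lf D (γ.ctr (plc E))) := by
  have hg : LocEq D γ.c 1 := .mk' one_ne_zero fun E hE => by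
    rw [h] at hE
    simp [← pd_eq hE, hD, ord_val]
  refine ⟨Finsupp.ofSupportFinite _ (pb_fin γ (fun _ => (hc D).lf _) hg),
    PB.pb_le hc (fun _ => (hc D).lf _) hg fun _ => rfl, fun E => ⟨?_, ?_⟩⟩
  · exact congrArg (fun t => X.ord (γ.τ t) E.1) (_root_.div_one _)
  · have := (((hc D).lf _).mono (γ.ctr_le (plc E))).un hg
    rwa [_root_.div_one] at this

section fib

variable {J : Type} (F : Fib X J)

/-- A chart of the base. -/
structure Bas (g : K) (B : Subalgebra ℂ K) : Prop where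
  g0 : g ≠ 0
  gk : g ∈ F.k
  ord : ∀ E : X.PD, B.toSubring ≤ X.O E.1 → F.κ E = log (val E g)
  Bk : ∀ z ∈ B, z ∈ F.k
  ctr : ∀ y (V : Subring K), Dom (X.O y) V → B.toSubring ≤ V → B.toSubring ≤ X.O y
  cB : ∀ i j l, (g⁻¹ • F.c) i j l ∈ B

/-- Charts at all points. -/
def Lc : Prop := ∀ y : X.Pt, ∃ g B, Bas F g B ∧ B.toSubring ≤ X.O y ∧
  ∀ (A : Subring K) (V : ValuationSubring K), Dom A V.toSubring → Cen V y → B.toSubring ≤ A →
    Fr A F.x → (∀ a, Fr A (F.x ⨯₃ F.P a)) → X.O y ≤ A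

/-- Good reduction of the normalised cubic. -/
def Gd {Γ : Type} [LinearOrderedCommGroupWithZero Γ] (v : Valuation K Γ) (g : K) : Prop :=
  Good v (g⁻¹ • F.c) ∧ ∀ a, nm v (grad (g⁻¹ • F.c) (F.P a)) = 1

/-- Good reduction at a valuation ring. -/
def GdV (V : ValuationSubring K) : Prop :=
  ∀ g B, Bas F g B → B.toSubring ≤ V.toSubring → Gd F V.valuation g

/-- Rational points that are nonsingular whenever the reduction is good. -/
structure Pv (Q : Fin 3 → K) : Prop where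
  mem : ∀ i, Q i ∈ F.k
  cub : cub F.c Q = 0
  loc : ∀ g B, Bas F g B → ∃ s : K, s ≠ 0 ∧ (∀ i, (s • Q) i ∈ B) ∧
    ∀ (Γ : Type) [LinearOrderedCommGroupWithZero Γ] (v : Valuation K Γ),
      (∀ a : ℂ, v (algebraMap ℂ K a) ≤ 1) → Gd F v g →
      nm v (s • Q) = 1 ∧ nm v (grad (g⁻¹ • F.c) (s • Q)) = 1

/-- `σ` is regular at the centres of good valuation rings. -/
def Iso (σ : K ≃ₐ[ℂ] K) : Prop := ∀ (V : ValuationSubring K) (y y' : X.Pt), GdV F V → Cen V y →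
  Cen (cm V σ) y' → X.O y' ≤ cs (X.O y) σ

/-- The fibration is defined on the generic fibre of another one with base field `L`. -/
structure Two (L : IntermediateField ℂ K) : Prop where
  x : ∀ l, F.x l ∈ L
  gen : ∀ N : Subfield K, (∀ z ∈ F.k, z ∈ L → z ∈ N) → (∀ l, F.x l ∈ N) → ∀ z ∈ L, z ∈ N

variable {F}

lemma Gd.of_eq {Γ : Type} [LinearOrderedCommGroupWithZero Γ] {v : Valuation K Γ} {g g' : K}
    (h : Gd F v g) (h0 : g ≠ 0) (h1 : v g = v g') : Gd F v g' := by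
  have h2 := v.ne_zero_iff.2 h0
  have h3 : g' ≠ 0 := v.ne_zero_iff.1 (h1 ▸ h2)
  have h4 : g'⁻¹ • F.c = (g / g') • g⁻¹ • F.c := by
    rw [smul_smul]; congr 1; field_simp
  have h5 : v (g / g') = 1 := by rw [map_div₀, ← h1, div_self h2]
  rw [Gd] at h ⊢
  rw [h4]
  generalize g⁻¹ • F.c = c at h
  refine ⟨⟨fun i j l => ?_, fun a b ha hb hab => ?_⟩, fun a => ?_⟩
  · simpa only [Pi.smul_apply, smul_eq_mul, map_mul, h5, one_mul] using h.1.int i j l
  · simpa only [cub_csmul, pol_csmul, map_mul, h5, one_mul] using h.1.nl a b ha hb hab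
  · rw [grad_csmul, nm_smul, h5, one_mul]; exact h.2 a

lemma Bas.gd {g : K} {B : Subalgebra ℂ K} (h : Bas F g B) {E : X.PD}
    (hE : B.toSubring ≤ X.O E.1) : Gd F (val E) g := by
  obtain ⟨g', B', h'⟩ := F.loc E
  refine Gd.of_eq ⟨h'.good, h'.ns⟩ h'.g0 ?_
  rw [← exp_log ((val E).ne_zero_iff.2 h'.g0), ← h'.ord, h.ord E hE,
    exp_log ((val E).ne_zero_iff.2 h.g0)]

lemma gdV_of_one {V : ValuationSubring K} {y : X.Pt} (hy : Cen V y) {g : K} {B : Subalgebra ℂ K}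
    (h : Bas F g B) (hB : B.toSubring ≤ V.toSubring) (h1 : Gd F V.valuation g) : GdV F V := by
  intro g' B' h' hB'
  have key : ∀ {g B}, Bas F g B → B.toSubring ≤ V.toSubring → LocEq F.κ y g⁻¹ := fun h hB =>
    .mk' (inv_ne_zero h.g0) fun E hE => by
      rw [h.ord E ((h.ctr y _ hy hB).trans hE), ord_log, map_inv₀, log_inv, neg_neg]
  have h2 := un_iff.1 (((key h' hB').un (key h hB)).mono hy.1)
  refine h1.of_eq h.g0 ?_
  rwa [inv_div_inv, map_div₀, div_eq_one_iff_eq (V.valuation.ne_zero_iff.2 h'.g0)] at h2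

end fib

/-- At a nonsingular point the pencil of lines is base point free. -/
def St_REG : Prop := ∀ (K : Type) [Field K] (T : Subring K) (c : Cf K) (x P : Fin 3 → K),
  IsLoc T → (∀ i j l, c i j l ∈ T) → (∀ i, P i ∈ T) → (∃ i, Un T (P i)) →
    (∃ i, Un T (grad c P i)) → cub c P = 0 → cub c x = 0 → Fr T x → x ⨯₃ P ≠ 0 → Fr T (x ⨯₃ P)

/-- The valuation centred at a nonsingular rational point, for any value group. -/
def St_SEC1 : Prop := ∀ (k K Γ : Type) [Field k] [Field K] [Algebra k K]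
  [LinearOrderedCommGroupWithZero Γ] (c : Cf K) (x P : Fin 3 → K),
    (∀ i j l, c i j l ∈ (algebraMap k K).range) → x 0 = 1 → cub c x = 0 →
    (∀ i, P i ∈ (algebraMap k K).range) → cub c P = 0 → grad c P ≠ 0 → x ⨯₃ P ≠ 0 →
    ∀ (v : Valuation K ℤᵐ⁰) (w : Valuation K Γ), (∀ a : k, v (algebraMap k K a) ≤ 1) →
    (∀ a : k, w (algebraMap k K a) ≤ 1) → ds v x P < 1 → ds w x P < 1 →
    ∀ z ∈ IntermediateField.adjoin k (range x), (w z ≤ 1 ↔ v z ≤ 1)

/-- Independent residues inside an algebraically generating set. -/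
def St_EXT2 : Prop := ∀ (K : Type) [Field K] [Algebra ℂ K] (V : ValuationSubring K) (S : Set K)
  (T : Subring K) (n : ℕ), (∀ a : ℂ, algebraMap ℂ K a ∈ V) → S ⊆ V → T ≤ V.toSubring →
    (∀ A : Subring K, RC V.valuation A → (∀ a : ℂ, algebraMap ℂ K a ∈ A) → S ⊆ A → T ≤ A) →
    IndIn V.toSubring T n → IndIn V.toSubring S n

/-- One more independent element. -/
def St_SUCC : Prop := ∀ (K : Type) [Field K] [Algebra ℂ K] (V W : Subring K) (S S' : Set K) (m : ℕ)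
  (b : K), IsLoc V → (∀ a : ℂ, algebraMap ℂ K a ∈ V) → V ≤ W → S ⊆ V → b ∈ V → ¬Un V b → Un W b →
    S ⊆ S' → b ∈ S' → IndIn V S m → IndIn W S' (m + 1)

/-- The codimension of a big point is not three. -/
def St_BIG3 : Prop := ∀ (K : Type) [Field K] [Algebra ℂ K] (X : Var K) (z : X.Pt), Big z →
  (∀ m, IndIn (X.O z) (X.O z) m → IndIn (⊤ : Subring K) univ (m + 3)) → False

/-- Big points have codimension at most one in a prime divisor. -/
def St_CHAIN : Prop := ∀ (K : Type) [Field K] [Algebra ℂ K] (X : Var K) (z : X.Pt) (E : X.PD),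
  Big z → ∀ w, X.O z ≤ X.O w → X.O w ≤ X.O E.1 → w = z ∨ w = E.1

/-- Composites are admissible. -/
def St_ADM : Prop := ∀ (K : Type) [Field K] [Algebra ℂ K] (X : Var K) (J : Type) (F : Fib X J)
  (γ : CMap X K) (R E : X.PD) (V : ValuationSubring K), Sc F.k γ R →
    V.toSubring = γ.T (plc E) → V ∈ Adm R

/-- Good reduction is invariant. -/
def St_GCM : Prop := ∀ (K : Type) [Field K] [Algebra ℂ K] (X : Var K) (J : Type) (F : Fib X J)
  (σ : K ≃ₐ[ℂ] K) (V : ValuationSubring K), (∀ z ∈ F.k, σ z = z) → GdV F V → GdV F (cm V σ)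

/-- Composites have good reduction. -/
def St_GOODT : Prop := ∀ (K : Type) [Field K] [Algebra ℂ K] (X : Var K) (J : Type) (F : Fib X J)
  (V : ValuationSubring K), V ∈ Cmp X F.k → GdV F V

/-- Projections are regular where the reduction is good. -/
def St_LISO : Prop := ∀ (K : Type) [Field K] [Algebra ℂ K] (X : Var K) (J : Type) (F : Fib X J)
  (Q : Fin 3 → K) (σ : K ≃ₐ[ℂ] K) (w : K), Lc F → Pv F Q → (∀ z ∈ F.k, σ z = z) → w ≠ 0 →
    σ ∘ F.x = w • thd F.c Q F.x → Iso F σ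

/-- Projections are involutions. -/
def St_INV2 : Prop := ∀ (K : Type) [Field K] [Algebra ℂ K] (X : Var K) (J : Type) (F : Fib X J)
  (Q : Fin 3 → K) (σ : K ≃ₐ[ℂ] K) (w : K), (∀ i, Q i ∈ F.k) → cub F.c Q = 0 →
    (∀ z ∈ F.k, σ z = z) → σ ∘ F.x = w • thd F.c Q F.x → σ * σ = 1

/-- The centres of the projections. -/
def St_PV : Prop := ∀ (K : Type) [Field K] [Algebra ℂ K] (X : Var K) (J : Type) (F : Fib X J)
  (a : J), Pv F (F.P a) ∧ ∀ m : Fin 3 → ℂ, m ⬝ᵥ F.p a = 1 →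
    Pv F (tq F.c (F.P a) (algebraMap ℂ K ∘ m))

/-- The section over a constant point. -/
def St_SEC2 : Prop := ∀ (K : Type) [Field K] [Algebra ℂ K] (X : Var K) (J : Type) (F : Fib X J)
  (a : J), F.e a ≠ 0 → ∃ R γ, F.e a = Finsupp.single R 1 ∧ Sc F.k γ R

/-- Transport of sections. -/
def St_TW : Prop := ∀ (K : Type) [Field K] [Algebra ℂ K] (X : Var K) (k : IntermediateField ℂ K)
  (σ : K ≃ₐ[ℂ] K) (e : X.PD ≃ X.PD) (γ : CMap X K) (R : X.PD), Inv k σ e → Sc k γ R →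
    ∃ γ' : CMap X K, Sc k γ' (e.symm R) ∧ ∀ z, γ'.τ z = γ.τ (σ z)

/-- Involutions preserve the admissible valuation rings. -/
def St_LIA : Prop := ∀ (K : Type) [Field K] [Algebra ℂ K] (X : Var K) (J : Type) (F : Fib X J)
  (σ : K ≃ₐ[ℂ] K) (e : X.PD ≃ X.PD) (R : X.PD), Inv F.k σ e → σ * σ = 1 → Iso F σ → e R = R →
    (∀ V ∈ Adm R, GdV F V) → Li X (Adm R) σ

/-- Involutions preserve the composites. -/
def St_LIC : Prop := ∀ (K : Type) [Field K] [Algebra ℂ K] (X : Var K) (J : Type) (F : Fib X J)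
  (σ : K ≃ₐ[ℂ] K) (e : X.PD ≃ X.PD), Inv F.k σ e → σ * σ = 1 → Iso F σ → Li X (Cmp X F.k) σ

/-- Transport of local equations. -/
def St_TRG : Prop := ∀ (K : Type) [Field K] [Algebra ℂ K] (X : Var K)
  (hc : ∀ D : X.PD →₀ ℤ, Cart D) (k : IntermediateField ℂ K) (σ : K ≃ₐ[ℂ] K) (e : X.PD ≃ X.PD)
  (𝒜 : Set (ValuationSubring K)), Inv k σ e → Li X 𝒜 σ → ∀ D : X.PD →₀ ℤ,
    ((∀ V ∈ 𝒜, Rg (push e D) V) ↔ ∀ V ∈ 𝒜, Rg D V)

/-- Transport of pull-backs. -/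
def St_PBT : Prop := ∀ (K : Type) [Field K] [Algebra ℂ K] (X : Var K)
  (hc : ∀ D : X.PD →₀ ℤ, Cart D) (k : IntermediateField ℂ K) (σ : K ≃ₐ[ℂ] K) (e : X.PD ≃ X.PD)
  (γ γ' : CMap X K) (R : X.PD), Inv k σ e → Li X (Cmp X k) σ → Sc k γ R → Sc k γ' (e.symm R) →
    (∀ z, γ'.τ z = γ.τ (σ z)) → ∀ D, LE (pb γ hc (push e D)) (pb γ' hc D)

/-- Admissible valuation rings on a section are horizontal. -/
def St_HOR : Prop := ∀ (K : Type) [Field K] [Algebra ℂ K] (X : Var K) (J : Type) (F : Fib X J)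
  (R : X.PD) (V : ValuationSubring K) (a : J), Lc F → ¬F.k.toSubring ≤ X.O R.1 → V ∈ Adm R →
    GdV F V → ds V.valuation F.x (F.P a) < 1 → ∀ t ∈ F.k, t ∈ X.O R.1 → t ∈ V

/-- A horizontal valuation ring on a section is the composite. -/
def St_UNIQ : Prop := ∀ (K : Type) [Field K] [Algebra ℂ K] (X : Var K) (J : Type) (F : Fib X J)
  (L : IntermediateField ℂ K) (γ : CMap X K) (R S : X.PD) (V : ValuationSubring K) (a : J),
    Two F L → Sc L γ R → V.toSubring ≤ X.O R.1 → (∀ t ∈ F.k, t ∈ X.O R.1 → t ∈ V) →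
    (∀ t ∈ F.k, t ∈ X.O R.1 → γ.τ t ∈ X.O S.1) → ds V.valuation F.x (F.P a) < 1 →
    ds (val S) F.x (F.P a) < 1 → V.toSubring = γ.T (plc S)

/-- Subtracting a section. -/
def St_STEP : Prop := ∀ (K : Type) [Field K] [Algebra ℂ K] (X : Var K)
  (hc : ∀ D : X.PD →₀ ℤ, Cart D) (J : Type) (F : Fib X J) (L : IntermediateField ℂ K)
  (γ : CMap X K) (R S : X.PD) (V₁ : ValuationSubring K) (a : J), Lc F → Two F L → Sc L γ R →
    ¬F.k.toSubring ≤ X.O R.1 → (∀ V ∈ Adm R, GdV F V) → V₁.toSubring = γ.T (plc S) →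
    V₁ ∈ Adm R → F.e a = Finsupp.single S 1 → ∀ D : X.PD →₀ ℤ, (∀ V ∈ Adm R, Rg D V) → D R = 0 →
    ∃ n : ℕ, (∀ V ∈ Adm R, Rg (D - n • Finsupp.single S 1) V) ∧
      Uv (D - n • Finsupp.single S 1) V₁

end Pool.Agent.Lib.MV.G2
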