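import Pool.Agent.Lib.MV.G2A
import Pool.Agent.Lib.MV.F_DIM
import Pool.Agent.Lib.MV.F_EXT
import Pool.Agent.Lib.MV.F_LN

open Set Matrix WithZero Pool.Agent.Lib.MP_e39d36_ag Pool.Agent.Lib.MP_e39d36_ag.Var
  Pool.Agent.Lib.MP_cc3443_ag Pool.Agent.Lib.MV.End Pool.Agent.Lib.MV.Fb

set_option linter.unusedSectionVars false
set_option linter.unusedVariables false

noncomputable section

namespace Pool.Agent.Lib.MV.G2

namespace ADM

variable {K : Type} [Field K] [Algebra ℂ K]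

/-- Removing one element costs at most one independent residue. -/
lemma drop {T : Subring K} {S : Set K} {t : K} {m : ℕ} (h : IndIn T (insert t S) (m + 1)) :
    IndIn T S m := by
  obtain ⟨a, h1, h2⟩ := h
  have h3 : ∃ i, ∀ j, j ≠ i → a j ∈ S := by
    by_cases h4 : ∃ i, a i ∉ S
    · obtain ⟨i, hi⟩ := h4
      refine ⟨i, fun j hj => ?_⟩
      by_contra h5
      have e : a j = a i := ((h1 j).resolve_right h5).trans ((h1 i).resolve_right hi).symm
      refine (h2 (MvPolynomial.X j - MvPolynomial.X i) (sub_ne_zero.2 fun h6 =>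
        hj (MvPolynomial.X_injective h6))).1 ?_
      rw [map_sub, MvPolynomial.aeval_X, MvPolynomial.aeval_X, e, sub_self]
    · exact ⟨0, fun j _ => not_not.1 fun h5 => h4 ⟨j, h5⟩⟩
  obtain ⟨i, hi⟩ := h3
  refine ⟨a ∘ i.succAbove, fun j => hi _ (i.succAbove_ne j), fun P hP => ?_⟩
  rw [← MvPolynomial.aeval_rename]
  exact h2 _ fun h => hP (MvPolynomial.rename_injective _ (Fin.succAbove_right_injective)
    (h.trans (map_zero _).symm))

variable {X : Var K}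

/-- A line through the generic point that is defined over one new element. -/
lemma line {x : Fin 3 → K} (h0 : x 0 = 1) (E : X.PD) : ∃ (t : K) (l : Fin 3 → K), t ∈ X.O E.1 ∧
    (∀ A : Subring K, t ∈ A → ∀ i, l i ∈ A) ∧ nm (val E) l = 1 ∧ l ⬝ᵥ x = 0 := by
  have key : ∀ (t : K) (l : Fin 3 → K) (j : Fin 3), t ∈ X.O E.1 →
      (∀ A : Subring K, t ∈ A → ∀ i, l i ∈ A) → val E (l j) = 1 → nm (val E) l = 1 :=
    fun t l j ht hl hj => le_antisymm (nm_le.2 fun i => ((isV E).2 _).1 (hl _ ht i))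
      (hj ▸ le_nm l j)
  by_cases h1 : x 1 ∈ X.O E.1
  · have h2 : ∀ A : Subring K, x 1 ∈ A → ∀ i, (![x 1, -1, 0] : Fin 3 → K) i ∈ A := by
      intro A hA i
      fin_cases i
      · exact hA
      · exact neg_mem (one_mem A)
      · exact zero_mem A
    refine ⟨x 1, ![x 1, -1, 0], h1, h2, key _ _ 1 h1 h2 (by simp), ?_⟩
    simp [dotProduct, Fin.sum_univ_three, h0]
  · have h3 := ((isV E).val (x 1)).resolve_left h1
    have h4 : x 1 ≠ 0 := fun h => h1 (h ▸ zero_mem _)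
    have h2 : ∀ A : Subring K, (x 1)⁻¹ ∈ A → ∀ i, (![1, -(x 1)⁻¹, 0] : Fin 3 → K) i ∈ A := by
      intro A hA i
      fin_cases i
      · exact one_mem A
      · exact neg_mem hA
      · exact zero_mem A
    refine ⟨(x 1)⁻¹, ![1, -(x 1)⁻¹, 0], h3, h2, key _ _ 0 h3 h2 (by simp), ?_⟩
    simp [dotProduct, Fin.sum_univ_three, h0, h4]

lemma one {J : Type} (F : Fib X J) {E : X.PD} {g : K} {B : Subalgebra ℂ K} (hB : F.Ch E g B)
    {m : ℕ} (h : IndIn (⊤ : Subring K) univ (m + 2)) : IndIn (X.O E.1) B m := by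
  obtain ⟨n, h1, h2⟩ := Fb.st_dim K X
  have h3 : m + 1 ≤ n := by
    by_contra h4
    exact h2 (indIn_le h (by omega))
  obtain ⟨t, l, ht, hl, hn, hd⟩ := line F.x0 E
  refine drop (t := t) (st_ext K (val E) (X.O E.1) _ (m + 1) (isV E) (X.const_mem _)
    (insert_subset ht fun z hz => hB.BO hz) (fun A hA hC hS => ?_) (indIn_le (h1 E) h3))
  have hBA : B.toSubring ≤ A := fun z hz => hS (Or.inr hz)
  have hc : ∀ i j l, (g⁻¹ • F.c) i j l ∈ A := fun i j l => hBA (hB.cB i j l)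
  have hx0 : cub (g⁻¹ • F.c) F.x = 0 := by rw [cub_csmul, F.cx, mul_zero]
  have hx : Pin (val E) A F.x := st_ln K _ (val E) A (g⁻¹ • F.c) F.x l hA hB.good hc hx0 F.x_ne
    ⟨1, by rw [one_smul, hn], fun i => by rw [one_mul]; exact hl A (hS (Or.inl rfl)) i⟩ (by
      rw [hd, map_zero, hn, one_mul]
      exact zero_lt_iff.2 (nm_ne F.x_ne))
  refine hB.alg A hA hBA hx fun a => ?_
  exact (st_ur K _ (val E) A (g⁻¹ • F.c) F.x (F.P a) hA hB.good hc
    (fun i => hC _) (F.nm_P a E) (hB.ns a) (by rw [cub_csmul, F.cp a, mul_zero])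
    hx0 (F.cross_P_ne a)).2 hx

end ADM

theorem st_adm : St_ADM := by
  intro K _ _ X J F γ R E V hS hV
  have hd : Dom (X.O (γ.ctr (plc E))) (γ.T (plc E)) := γ.dom_ctr _
  refine ⟨fun z hz => hS.c ▸ (CMap.mem_T.1 (hV ▸ hz)).1, γ.ctr (plc E), ?_, fun m hm => ?_⟩
  · change Dom _ V.toSubring
    rw [hV]
    exact hd
  obtain ⟨g, B, hB⟩ := F.loc E
  have hBT : B.toSubring ≤ γ.T (plc E) := fun z hz => by
    obtain ⟨h1, h2⟩ := hS.fix z (hB.Bk z hz)
    exact CMap.mem_T.2 ⟨hS.c ▸ h1, by rw [h2]; exact hB.BO hz⟩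
  have hBy := hB.ctr _ _ hd hBT
  obtain ⟨a, h1, h2⟩ := ADM.one F hB hm
  refine ⟨a, fun i => hBy (h1 i), fun P hP => ?_⟩
  have h3 : MvPolynomial.aeval a P ∈ B := by
    rw [MvPolynomial.aeval_def]
    exact MvPolynomial.eval₂_mem (fun _ _ => B.algebraMap_mem _) h1
  have h4 := h2 P hP
  have h5 := hB.Bk _ h3
  refine hd.2 _ (hBy h3) (CMap.un_T.2 ⟨⟨h4.1, hS.c ▸ (hS.fix _ h5).1,
    hS.c ▸ (hS.fix _ (inv_mem h5)).1⟩, ?_⟩)
  rw [(hS.fix _ h5).2]
  exact h4

end Pool.Agent.Lib.MV.G2
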