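import Pool.Agent.Lib.MV.G2B
import Pool.Agent.Lib.MV.F_BASE
import Pool.Agent.Lib.MV.F_GK
import Pool.Agent.Lib.MV.F_TRI

open Set Matrix WithZero Pool.Agent.Lib.MP_e39d36_ag Pool.Agent.Lib.MP_e39d36_ag.Var
  Pool.Agent.Lib.MV.End Pool.Agent.Lib.MV.Fb

noncomputable section

namespace Pool.Agent.Lib.MV.G2

namespace BAS2

variable {D : Dat} {K : Type} [Field K] [Algebra ℂ K]

lemma nm_eq (M : D.Mod K) {E : M.X.PD} {τ : D.Ch} {i : Fin D.k}
    (h : (BW D M.x τ i).toSubring ≤ M.X.O E.1) (μ : D.Sl) (hμ : μ.1 ≠ i) :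
    val E (D.ys M.x μ ⟨τ.1 μ, τ.2 μ⟩) = nm (val E) (D.ys M.x μ) := by
  refine le_antisymm (le_nm _ _) (nm_le.2 fun t => ?_)
  have h1 : D.rat M.x τ t.1 ∈ BW D M.x τ i :=
    Algebra.subset_adjoin ⟨t.1, by rw [mem_ofPred_eq, t.2]; exact hμ, rfl⟩
  have := ((isV E).2 _).1 (h h1)
  have h0 : D.ys M.x μ ⟨τ.1 μ, τ.2 μ⟩ ≠ 0 := M.hyp.ne _
  rwa [← BASE.rat_eq, map_div₀, div_le_one₀ (zero_lt_iff.2 ((val E).ne_zero_iff.2 h0))] at this

lemma st_val (M : D.Mod K) {E : M.X.PD} {τ : D.Ch} {i : Fin D.k}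
    (h : (BW D M.x τ i).toSubring ≤ M.X.O E.1) {j : Fin D.k} (hj : j ≠ i)
    (o : Option (Fin (D.r j))) : M.st j o E = log (val E (D.y M.x (τ.1 ⟨j, o⟩))) := by
  rw [st_eq, sd_apply, ← nm_eq M h ⟨j, o⟩ hj]; rfl

lemma dK_val (M : D.Mod K) {E : M.X.PD} {τ : D.Ch} {i : Fin D.k}
    (h : (BW D M.x τ i).toSubring ≤ M.X.O E.1) {j : Fin D.k} (hj : j ≠ i) :
    dK D.n M.st j E = log (val E (D.kap M.x τ j)) := by
  have h0 : ∀ t, val E (D.y M.x t) ≠ 0 := fun t => (val E).ne_zero_iff.2 (M.hyp.ne t)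
  rw [Dat.kap, map_mul, map_zpow₀, map_prod, log_mul (zpow_ne_zero _ (h0 _))
    (Finset.prod_ne_zero_iff.2 fun _ _ => h0 _), log_zpow, BASE.log_prod' _ fun _ => h0 _]
  simp only [dK, dE, Finsupp.sub_apply, Finsupp.smul_apply, Finsupp.finsetSum_apply,
    st_val M h hj, Finset.sum_sub_distrib, Finset.sum_const, Finset.card_univ, Fintype.card_fin,
    smul_eq_mul, nsmul_eq_mul]
  ring

lemma lin_fr {ι κ : Type} [Fintype ι] [Fintype κ] {y : ι → K} {w : κ → K} {A : Subring K}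
    (hA : IsLoc A) (hc : ∀ a : ℂ, algebraMap ℂ K a ∈ A) (h : TRI.Lin y w) (h' : TRI.Lin w y)
    (hy : Fr A y) : Fr A w := by
  obtain ⟨l, h0, h1⟩ := hy
  have h2 := h'.mem hc (s := (y l)⁻¹) fun i => by
    rw [mul_comm, ← div_eq_mul_inv]; exact h1 i
  obtain ⟨a, ha⟩ := h.sum l (y l)⁻¹
  rw [inv_mul_cancel₀ h0] at ha
  obtain ⟨m, -, hm⟩ := hA.of_sum (fun m _ => mul_mem (hc (a m)) (h2 m)) (ha ▸ Un.one)
  have h3 := hm.of_mul' (hc _) (h2 m)
  refine ⟨m, right_ne_zero_of_mul h3.1, fun m' => ?_⟩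
  have h4 := h3.div_mem (h2 m')
  rwa [mul_div_mul_left _ _ (inv_ne_zero h0)] at h4

end BAS2

open BASE in
theorem st_bas2 : St_BAS2 := by
  intro D K _ _ M i τ
  have hsl : ∀ (j : Fin D.k) (o : Option (Fin (D.r j))), j ≠ i → (D.sl (τ.1 ⟨j, o⟩)).1 ≠ i :=
    fun j o hj => by rw [τ.2]; exact hj
  refine ⟨⟨Finset.prod_ne_zero_iff.2 fun j _ => kap_ne M τ j, ?_, fun E hE => ?_, ?_,
    fun y V hV hB => ?_, fun c => ?_⟩, fun y hτ A V hA hy hB hP => ?_⟩
  · refine prod_mem fun j hj => mul_mem (zpow_mem (y_mem (hsl j _ (Finset.ne_of_mem_erase hj))) _)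
      (prod_mem fun a _ => y_mem (hsl j _ (Finset.ne_of_mem_erase hj)))
  · rw [gW, map_prod, log_prod' _ fun j => (val E).ne_zero_iff.2 (kap_ne M τ j), dW,
      Finsupp.finsetSum_apply]
    exact Finset.sum_congr rfl fun j hj => BAS2.dK_val M hE (Finset.ne_of_mem_erase hj)
  · refine fun z hz => adj_le (A := (kI D M.x i).toSubring) (kI D M.x i).algebraMap_mem
      (fun t ht => ?_) hz
    exact (div_mem (y_mem ht) (y_mem (by rw [τ.2]; exact ht)) : _ ∈ kI D M.x i)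
  · refine adj_le (M.X.const_mem y) fun t ht => ?_
    rw [← rat_eq M.x τ (D.sl t) ⟨t, rfl⟩]
    refine (bpf_ys M _).mem hV (M.hyp.ne _) (fun t' => hB ?_) _
    rw [rat_eq]
    exact Algebra.subset_adjoin ⟨t'.1, by rw [mem_ofPred_eq, t'.2]; exact ht, rfl⟩
  · rw [gW, wt, ← div_eq_inv_mul, ← Finset.prod_div_distrib]
    refine prod_mem fun j hj => Algebra.adjoin_mono (image_mono fun t ht => ?_)
      (st_gk D K M.x M.hyp.ne τ c j)
    rw [mem_ofPred_eq] at ht ⊢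
    rw [ht]; exact Finset.ne_of_mem_erase hj
  · have hc : ∀ a : ℂ, algebraMap ℂ K a ∈ A := fun a => hB ((BW D M.x τ i).algebraMap_mem a)
    have h1 : (D.B M.x τ).toSubring ≤ A := by
      rw [Dat.B, ← image_univ]
      refine adj_le hc fun t _ => ?_
      by_cases ht : (D.sl t).1 = i
      · have h2 : ∀ μ : D.Sl, μ.1 = i → Fr A (D.ys M.x μ) := by
          rintro ⟨j, o⟩ rfl
          exact hP o
        obtain ⟨l, h0, hl⟩ := h2 _ ht
        have h3 : D.ys M.x (D.sl t) ⟨τ.1 (D.sl t), τ.2 (D.sl t)⟩ ≠ 0 := M.hyp.ne _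
        have h4 : Un A (D.ys M.x (D.sl t) ⟨τ.1 (D.sl t), τ.2 (D.sl t)⟩ / D.ys M.x (D.sl t) l) := by
          refine hA.2 _ (hl _) ⟨div_ne_zero h3 h0, hA.1 (hl _), ?_⟩
          rw [inv_div, rat_eq]
          exact hy.1 (hτ.1 (rat_mem M.x τ _))
        have h5 := h4.div_mem (hl ⟨t, rfl⟩)
        rwa [div_div_div_cancel_right₀ h0, rat_eq] at h5
      · exact hB (Algebra.subset_adjoin ⟨t, ht, rfl⟩)
    intro z hz
    obtain ⟨b, hb, hu, hbz⟩ := hτ.2 z hz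
    have h3 : Un A b := hA.2 b (h1 hb) (hu.mono hy.1)
    have := mul_mem h3.2.2 (h1 hbz)
    rwa [inv_mul_cancel_left₀ hu.1] at this

theorem st_pen2 : St_PEN2 := by
  intro K _ _ A p u x y hA hc hp hu hup hy
  have hy' : ∀ j, y j = x ⬝ᵥ (algebraMap ℂ K ∘ u j) := fun j => by
    rw [hy, dotProduct]
    exact Finset.sum_congr rfl fun l _ => by rw [Algebra.smul_def, mul_comm]; rfl
  have h1 : TRI.Lin y (x ⨯₃ (algebraMap ℂ K ∘ p)) := fun j => by
    obtain ⟨l, hl⟩ := Function.ne_iff.1 hp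
    have h2 := cross_cross3 p (u j) (Pi.single l (p l)⁻¹)
    rw [dotProduct_single, mul_inv_cancel₀ hl, dotProduct_comm, hup, one_smul, zero_smul,
      sub_zero] at h2
    rw [hy', ← h2, map_cross, triple_product_permutation, triple_product_permutation, dotProduct]
    refine Submodule.sum_mem _ fun m _ => ?_
    rw [Function.comp_apply, ← Algebra.smul_def]
    exact Submodule.smul_mem _ _ (Submodule.subset_span ⟨m, rfl⟩)
  have h2 : TRI.Lin (x ⨯₃ (algebraMap ℂ K ∘ p)) y := fun i => by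
    have h3 : u 0 ⨯₃ u 1 ≠ 0 := crossProduct_ne_zero_iff_linearIndependent.2 (by
      have : ![u 0, u 1] = u := by ext j; fin_cases j <;> rfl
      rwa [this])
    obtain ⟨a, ha⟩ := eq_smul_of_cross h3 (P := p) (by
      rw [cross_cross3, dotProduct_comm p, dotProduct_comm p, hup, hup, zero_smul, zero_smul,
        sub_zero])
    have h4 : algebraMap ℂ K ∘ p =
        algebraMap ℂ K a • ((algebraMap ℂ K ∘ u 0) ⨯₃ (algebraMap ℂ K ∘ u 1)) := by
      rw [← map_cross, ha]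
      ext m
      simp
    have h5 : (x ⨯₃ (algebraMap ℂ K ∘ p)) i = (a * u 0 i) • y 1 - (a * u 1 i) • y 0 := by
      rw [h4, map_smul, cross_cross3, ← hy', ← hy', Algebra.smul_def (a * u 0 i),
        Algebra.smul_def (a * u 1 i)]
      simp only [Pi.smul_apply, Pi.sub_apply, Function.comp_apply, smul_eq_mul, map_mul]
      ring
    rw [h5]
    exact Submodule.sub_mem _ (Submodule.smul_mem _ _ (Submodule.subset_span ⟨_, rfl⟩))
      (Submodule.smul_mem _ _ (Submodule.subset_span ⟨_, rfl⟩))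
  exact BAS2.lin_fr hA hc h2 h1

end Pool.Agent.Lib.MV.G2
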