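import Pool.Agent.Lib.MV.G2A
import Pool.Agent.Lib.MV.F_DIM

open Set Pool.Agent.Lib.MP_e39d36_ag Pool.Agent.Lib.MP_e39d36_ag.Var Pool.Agent.Lib.MV.Fb

namespace Pool.Agent.Lib.MV.G2

theorem st_succ : St_SUCC := by
  intro K _ _ V W S S' m b hV hc hy hS h3 h5 h4 hS' hb ⟨a, h1, h2⟩
  have hm : ∀ P : MvPolynomial (Fin m) ℂ, MvPolynomial.aeval a P ∈ V := fun P => by
    induction P using MvPolynomial.induction_on with
    | C c => simpa using hc c
    | add p q hp hq => rw [map_add]; exact add_mem hp hq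
    | mul_X p i hp => rw [map_mul, MvPolynomial.aeval_X]; exact mul_mem hp (hS (h1 i))
  refine ⟨Fin.cons b a, Fin.cases hb fun i => hS' (h1 i), fun P hP => ?_⟩
  rw [aeval_cons]
  obtain ⟨Q, h6, h7⟩ := Polynomial.exists_eq_pow_rootMultiplicity_mul_and_not_dvd
    (MvPolynomial.finSuccEquiv ℂ m P) (by simpa using hP) 0
  rw [map_zero, sub_zero] at h6 h7
  rw [h6, Polynomial.eval₂_mul, Polynomial.eval₂_X_pow, ← Q.X_mul_divX_add, add_comm (_ * _),
    Polynomial.eval₂_add, Polynomial.eval₂_C, Polynomial.eval₂_mul, Polynomial.eval₂_X]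
  have h8 : Q.divX.eval₂ (MvPolynomial.aeval a).toRingHom b ∈ V := by
    rw [Polynomial.eval₂_eq_sum]
    exact sum_mem fun n _ => mul_mem (hm _) (pow_mem h3 _)
  exact (h4.pow _).mul ((hV.add_un (h2 _ (mt Polynomial.X_dvd_iff.2 h7))
    (mul_mem h3 h8) fun h => h5 (h.of_mul h3 h8)).mono hy)

theorem st_big3 : St_BIG3 := by
  intro K _ _ X z hz h
  have h1 : ∀ m, IndIn (X.O z) (X.O z) m := fun m => by
    induction m with
    | zero => exact indep_zero z
    | succ m ih => exact hz (m + 1) (h m ih)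
  obtain ⟨n, -, h2⟩ := st_dim K X
  exact h2 (indIn_le (h n (h1 n)) (by omega))

theorem st_chain : St_CHAIN := by
  intro K _ _ X z E hz w h1 h2
  by_contra! h
  obtain ⟨t, ht⟩ := X.exists_top
  have h3 : X.O z < X.O w := h1.lt_of_ne fun e => h.1 (X.O_inj e).symm
  have h4 : X.O w < X.O E.1 := h2.lt_of_ne fun e => h.2 (X.O_inj e)
  have h5 : X.O E.1 < X.O t := ht ▸ (isV E).ne_top.lt_top
  refine st_big3 K X z hz fun m hm => ?_
  have h6 : IndIn (X.O t) (X.O t) (m + 3) := ((Indep.succ hm h3).succ h4).succ h5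
  exact indIn_mono h6 le_top (subset_univ _)

end Pool.Agent.Lib.MV.G2
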