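import Pool.Agent.Lib.MV.G2A
import Pool.Agent.Lib.MV.F_EXT

open Matrix WithZero Pool.Agent.Lib.MP_e39d36_ag Pool.Agent.Lib.MP_e39d36_ag.Var
  Pool.Agent.Lib.MV.Fb

set_option linter.unusedSectionVars false
set_option linter.unusedVariables false
set_option linter.style.haveILetI false

noncomputable section

namespace Pool.Agent.Lib.MV.G2

/-- Independent elements inside a set over which an independent family is algebraic. -/
lemma ext2_pick {E : Type} [Field E] [Algebra ℂ E] (T : Set E) {n : ℕ} {a : Fin n → E}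
    (h : ∀ i, a i ∈ algebraicClosure (IntermediateField.adjoin ℂ T) E)
    (ha : AlgebraicIndependent ℂ a) :
    ∃ b : Fin n → E, (∀ i, b i ∈ T) ∧ AlgebraicIndependent ℂ b := by
  obtain ⟨I, hI⟩ := (AlgebraicIndependent.matroid ℂ E).exists_isBasis T
  have h0 : (AlgebraicIndependent.matroid ℂ E).Indep (Set.range a) :=
    AlgebraicIndependent.matroid_indep_iff.2 ha.to_subtype_range
  have h1 : Set.range a ⊆ (AlgebraicIndependent.matroid ℂ E).closure T := by
    rintro _ ⟨i, rfl⟩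
    rw [AlgebraicIndependent.matroid_closure_eq]
    exact IntermediateField.isAlgebraic_adjoin_iff.1 (mem_algebraicClosure_iff.1 (h i))
  have h2 := h0.cardinalMk_le_isBasis hI.isBasis_closure_right h1
  rw [Cardinal.mk_range_eq a ha.injective] at h2
  obtain ⟨e⟩ := (Cardinal.le_def _ _).1 h2
  have h3 : AlgebraicIndependent ℂ ((↑) : I → E) :=
    AlgebraicIndependent.matroid_indep_iff.1 hI.indep
  exact ⟨fun i => e i, fun i => hI.subset (e i).2, h3.comp e e.injective⟩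

theorem st_ext2 : St_EXT2 := by
  intro K _ _ W S T₀ n hC₀ hS₀ hT hA hI
  obtain ⟨a, ha, hP⟩ := hI
  have hun : ∀ z, Un W.toSubring z ↔ W.valuation z = 1 := fun z => un_iff
  have hloc : IsLoc W.toSubring := isLoc_V W
  have hv : ∀ z, z ∈ W.toSubring ↔ W.valuation z ≤ 1 := fun z => (W.valuation_le_one_iff z).symm
  have hC : ∀ a : ℂ, algebraMap ℂ K a ∈ W.toSubring := hC₀
  have hS : S ⊆ W.toSubring := hS₀
  clear hC₀ hS₀
  generalize W.valuation = v at hA hun hv
  generalize W.toSubring = V at hT hP hun hloc hv hC hS ⊢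
  haveI := hloc.isLocalRing
  letI : Algebra ℂ V := ((algebraMap ℂ K).codRestrict V hC).toAlgebra
  let ι : V →ₐ[ℂ] K := ⟨V.subtype, fun _ => rfl⟩
  let ρ : V →ₐ[ℂ] IsLocalRing.ResidueField V := IsScalarTower.toAlgHom ℂ V _
  have hρ : ∀ z : V, ρ z ≠ 0 ↔ v z = 1 := fun z => by
    rw [← hun, ← isUnit_iff_un]
    exact IsLocalRing.residue_ne_zero_iff_isUnit z
  have hρ0 : ∀ z : V, v z < 1 → ρ z = 0 := fun z h => of_not_not fun h1 => h.ne ((hρ z).1 h1)
  have hind : ∀ b : Fin n → V, (∀ P : MvPolynomial (Fin n) ℂ, P ≠ 0 →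
      Un V (MvPolynomial.aeval (fun i => (b i : K)) P)) ↔
      AlgebraicIndependent ℂ fun i => ρ (b i) := fun b => by
    rw [algebraicIndependent_iff]
    refine forall_congr' fun P => ?_
    have h1 := MvPolynomial.comp_aeval_apply b ι P
    rw [← MvPolynomial.comp_aeval_apply]
    refine (imp_congr_right fun _ => ?_).trans not_imp_not
    rw [hun]
    exact (Eq.congr_left (congrArg v h1)).symm.trans (hρ _).symm
  let T : Set (IsLocalRing.ResidueField V) := ρ '' {z | z.1 ∈ S}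
  let L := algebraicClosure (IntermediateField.adjoin ℂ T) (IsLocalRing.ResidueField V)
  let A : Subring K := (L.toSubring.comap ρ.toRingHom).map V.subtype
  have hm : ∀ z : V, ρ z ∈ L → z.1 ∈ A := fun z h => ⟨z, h, rfl⟩
  have hF : ∀ z ∈ IntermediateField.adjoin ℂ T, z ∈ L := fun z h => L.algebraMap_mem ⟨z, h⟩
  have hVA := hA A ⟨by
      rintro _ ⟨z, -, rfl⟩
      exact (hv _).1 z.2, fun z h => hm ⟨z, (hv _).2 h.le⟩ (by
      rw [hρ0 _ h]; exact zero_mem _), by
      rintro _ ⟨z, hz, rfl⟩ h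
      have h1 := (hun _).2 h
      refine hm ⟨_, h1.2.2⟩ ?_
      have h2 : ρ z * ρ ⟨_, h1.2.2⟩ = 1 := by
        rw [← map_mul, ← map_one ρ]
        exact congrArg ρ (Subtype.ext (mul_inv_cancel₀ h1.1))
      rw [← inv_eq_of_mul_eq_one_right h2]
      exact inv_mem hz, by
      rintro z _ _ _ _ hz ⟨a, ha, rfl⟩ ⟨b, hb, rfl⟩ ⟨c, hc, rfl⟩ ⟨d, hd, rfl⟩ h h0
      refine hm ⟨z, (hv _).2 hz⟩ (EXT.root_mem ha hb hc hd ?_
        (h0.imp (hρ a).2 (Or.imp (hρ b).2 (Or.imp (hρ c).2 (hρ d).2))))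
      have h1 := hρ0 (a * ⟨z, (hv _).2 hz⟩ ^ 3 + b * ⟨z, (hv _).2 hz⟩ ^ 2 +
        c * ⟨z, (hv _).2 hz⟩ + d) h
      simp only [map_add, map_mul, map_pow] at h1
      exact h1⟩
    (fun c => hm ⟨_, hC c⟩ (hF _ (by
      rw [show ρ ⟨_, hC c⟩ = algebraMap ℂ _ c from ρ.commutes c]
      exact IntermediateField.algebraMap_mem _ c)))
    (fun z h => hm ⟨z, hS h⟩ (hF _ (IntermediateField.subset_adjoin _ _ ⟨_, h, rfl⟩)))
  obtain ⟨b, hb, hb'⟩ := ext2_pick T (a := fun i => ρ ⟨a i, hT (ha i)⟩) (fun i => by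
    obtain ⟨y, hy, hyz⟩ := hVA (ha i)
    obtain rfl : y = ⟨a i, hT (ha i)⟩ := Subtype.ext hyz
    exact hy) ((hind fun i => ⟨a i, hT (ha i)⟩).1 hP)
  choose c hc hcb using hb
  obtain rfl : (fun i => ρ (c i)) = b := funext hcb
  exact ⟨fun i => c i, hc, (hind c).2 hb'⟩

end Pool.Agent.Lib.MV.G2
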