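import Pool.Agent.Lib.MV.G2B
import Pool.Agent.Lib.MV.F_FIB

open Set Matrix WithZero MvPolynomial Pool.Agent.Lib.MP_e39d36_ag Pool.Agent.Lib.MP_e39d36_ag.Var
  Pool.Agent.Lib.MV.End Pool.Agent.Lib.MV.Fb

noncomputable section

namespace Pool.Agent.Lib.MV.G2

namespace FIBX

variable {K Γ : Type} [Field K] [LinearOrderedCommGroupWithZero Γ] {v : Valuation K Γ}
  {T : Subring K}

lemma fr_range {ι ι' : Type} {y : ι → K} {y' : ι' → K} (h : range y = range y') (hy : Fr T y) :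
    Fr T y' := by
  obtain ⟨l, h1, h2⟩ := hy
  obtain ⟨l', e⟩ : y l ∈ range y' := h ▸ mem_range_self l
  refine ⟨l', e ▸ h1, ?_⟩
  rwa [e, ← forall_mem_range (p := fun w => w / y l ∈ T), ← h, forall_mem_range]

lemma un_val (hT : ∀ z, z ∈ T ↔ v z ≤ 1) {z : K} : Un T z ↔ v z = 1 := by
  refine ⟨fun h => le_antisymm ((hT z).1 h.2.1) ?_, fun h =>
    ⟨fun h0 => by simp [h0] at h, (hT z).2 h.le, (hT _).2 (by simp [h])⟩⟩
  have h1 := (hT _).1 h.2.2
  rwa [map_inv₀, inv_le_one₀ (zero_lt_iff.2 (v.ne_zero_iff.2 h.1))] at h1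

variable [Algebra ℂ K] {n : ℕ} (e : Fin 3 ≃ Fin n) {c : Cf K} {Φ : MvPolynomial (Fin n) K}

lemma good (hT : ∀ z, z ∈ T ↔ v z ≤ 1) (hC : ∀ a : ℂ, algebraMap ℂ K a ∈ T)
    (K1 : ∀ w, cub c (w ∘ e) = eval w Φ) (cB : ∀ a b l, c a b l ∈ T)
    (nl : ∀ A A' : Fin n → K, (∀ l, A l ∈ T) → (∀ l, A' l ∈ T) →
      (∃ l l', Un T (A l * A' l' - A l' * A' l)) → ∃ s t : ℂ, Un T (eval (s • A + t • A') Φ)) :
    Good v c := by
  refine ⟨fun a b l => (hT _).1 (cB a b l), fun a b ha hb hab h1 h2 h3 h4 => ?_⟩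
  obtain ⟨s, t, hu⟩ := nl (a ∘ e.symm) (b ∘ e.symm)
    (fun l => (hT _).2 (nm_le.1 ha _)) (fun l => (hT _).2 (nm_le.1 hb _)) (by
      obtain ⟨l, hl⟩ := exists_nm (v := v) (a ⨯₃ b)
      rw [hab, eq_comm, ← un_val hT] at hl
      fin_cases l
      · exact ⟨e 1, e 2, by simpa [cross_apply] using hl⟩
      · exact ⟨e 2, e 0, by simpa [cross_apply] using hl⟩
      · exact ⟨e 0, e 1, by simpa [cross_apply] using hl⟩)
  rw [← K1, un_val hT, show (s • a ∘ e.symm + t • b ∘ e.symm) ∘ e =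
    algebraMap ℂ K s • a + algebraMap ℂ K t • b from funext fun l => by
      simp [Algebra.smul_def], cub_comb] at hu
  have hs := (hT _).1 (hC s)
  have ht := (hT _).1 (hC t)
  have q : ∀ {u z : K}, v u ≤ 1 → v z < 1 → v (u * z) < 1 := fun hu hz => by
    rw [map_mul]; exact mul_lt_one_of_nonneg_of_lt_one_right hu zero_le hz
  refine hu.not_lt (v.map_add_lt (v.map_add_lt (v.map_add_lt (q ?_ h1)
    (q ?_ h2)) (q ?_ h3)) (q ?_ h4)) <;> simp only [map_mul, map_pow]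
  exacts [pow_le_one' hs _, mul_le_one' (pow_le_one' hs _) ht,
    mul_le_one' hs (pow_le_one' ht _), pow_le_one' ht _]

lemma ns (hT : ∀ z, z ∈ T ↔ v z ≤ 1) (hC : ∀ a : ℂ, algebraMap ℂ K a ∈ T) (hg : Good v c)
    (K2 : ∀ w l, grad c (w ∘ e) l = eval w (pderiv (e l) Φ)) {p : Fin n → ℂ}
    (h : ∃ l, Un T (eval (algebraMap ℂ K ∘ p) (pderiv l Φ))) :
    nm v (grad c (algebraMap ℂ K ∘ p ∘ e)) = 1 := by
  refine le_antisymm (hg.grad_le (nm_le.2 fun l => (hT _).1 (hC _))) ?_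
  obtain ⟨l, hl⟩ := h
  rw [← e.apply_symm_apply l, ← K2, un_val hT] at hl
  rw [← hl]
  exact le_nm (v := v) (grad c _) (e.symm l)

end FIBX

open FIB FIBX in
theorem st_fibx (hK : St_KER2) (hT : St_TR) (hB : St_BASE) (hTri : St_TRI) (hP : St_PEN)
    (hB2 : St_BAS2) (hP2 : St_PEN2) : St_FIBX := by
  intro D K _ _ M i h
  have hn := D.n_eq i h
  obtain ⟨e, e0⟩ : ∃ e : Fin 3 ≃ Fin (D.n i + 1), e 0 = 0 := ⟨Dat.c3 h, Fin.ext rfl⟩
  choose cG hG using fun c => hTri (rename e.symm (D.G c i))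
    (by simpa only [hn] using (D.G_hom c i).rename_isHomogeneous (f := e.symm))
  obtain ⟨c, hc⟩ : ∃ c : Cf K, c = ∑ j, wt D M.x i j • cmap (algebraMap ℂ K) (cG j) := ⟨_, rfl⟩
  have hcs : ∀ a b l, c a b l = ∑ j, wt D M.x i j * algebraMap ℂ K (cG j a b l) := fun a b l => by
    simp [hc, cmap, Finset.sum_apply]
  have K1 : ∀ w, cub c (w ∘ e) = eval w (D.Φ0 M.x i) := fun w => by
    rw [eval_Φ0, hc, cub, tri_sum]
    refine Finset.sum_congr rfl fun j _ => ?_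
    rw [← cub, cub_csmul, ← (hG j K _).1, aeval_rename, Function.comp_assoc, e.self_comp_symm,
      Function.comp_id]
  have K2 : ∀ w l, grad c (w ∘ e) l = eval w (pderiv (e l) (D.Φ0 M.x i)) := fun w l => by
    rw [eval_dΦ0, hc, grad, pol, tri_sum, tri_sum, tri_sum, ← Finset.sum_add_distrib,
      ← Finset.sum_add_distrib]
    refine Finset.sum_congr rfl fun j _ => ?_
    have := pderiv_rename e.symm.injective (e l) (D.G j i)
    rw [e.symm_apply_apply] at this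
    rw [← pol, pol_csmul, ← grad, ← (hG j K _).2, this, aeval_rename, Function.comp_assoc,
      e.self_comp_symm, Function.comp_id]
  have rx : range (M.x i ∘ e) = range (D.ys M.x ⟨i, none⟩) := by
    rw [e.surjective.range_comp, range_none]
  have li : ∀ v : Fin 2 → Fin (D.n i + 1) → ℂ, LinearIndependent ℂ v →
      LinearIndependent ℂ fun j => v j ∘ e := fun v hv =>
    hv.map' (LinearEquiv.funCongrLeft ℂ ℂ e).toLinearMap (LinearEquiv.ker _)
  have p0 : ∀ a, D.p i a ∘ e ≠ 0 := fun a h0 => D.p_ne i a (funext fun l => by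
    simpa using congrFun h0 (e.symm l))
  have up : ∀ a j, (D.u i a j ∘ e) ⬝ᵥ (D.p i a ∘ e) = 0 := fun a j => by
    rw [comp_equiv_dotProduct_comp_equiv, D.u_p]
  have uy : ∀ a j, D.y M.x (.inr (⟨i, a⟩, j)) = ∑ l, (D.u i a j ∘ e) l • (M.x i ∘ e) l :=
    fun a j => (e.sum_comp fun l => D.u i a j l • M.x i l).symm
  have pen := fun a => hP K M.X (Fin 2) (Equiv.refl _) (D.p i a ∘ e) (fun j => D.u i a j ∘ e)
    (M.x i ∘ e) (fun j => D.y M.x (.inr (⟨i, a⟩, j))) (p0 a) (li _ (D.u_ind i a)) (up a) (uy a)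
  have cB : ∀ τ a b l, ((gW D M.x τ i)⁻¹ • c) a b l ∈ BW D M.x τ i := fun τ a b l => by
    simp only [Pi.smul_apply, smul_eq_mul, hcs, Finset.mul_sum, ← mul_assoc]
    exact sum_mem fun j _ => mul_mem ((hB2 D K M i τ).1.2.2.2.2.2 j) (algebraMap_mem _ _)
  have WB : ∀ τ, (BW D M.x τ i).toSubring ≤ (D.B M.x τ).toSubring := fun τ =>
    Algebra.adjoin_mono (R := ℂ) (image_subset_range _ _)
  have gd : ∀ (Γ : Type) [LinearOrderedCommGroupWithZero Γ] (v : Valuation K Γ) (T : Subring K) τ,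
      (∀ z, z ∈ T ↔ v z ≤ 1) → (D.B M.x τ).toSubring ≤ T → D.Irr M.x T i →
      Good v ((gW D M.x τ i)⁻¹ • c) ∧
        ∀ a, nm v (grad ((gW D M.x τ i)⁻¹ • c) (algebraMap ℂ K ∘ D.p i a ∘ e)) = 1 := by
    intro Γ _ v T τ h1 h2 h3
    have hC : ∀ a : ℂ, algebraMap ℂ K a ∈ T := fun a => h2 ((D.B M.x τ).algebraMap_mem a)
    have g := good e h1 hC (fun w => by rw [Φ_eq, smul_eval, ← K1, cub_csmul])
      (fun a b l => h2 (WB τ (cB τ a b l))) (h3 τ h2).1
    exact ⟨g, fun a => ns e h1 hC g (fun w l => by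
      rw [Φ_eq, Derivation.map_smul, smul_eval, ← K2, grad_csmul]; rfl) ((h3 τ h2).2 a)⟩
  obtain ⟨F, ek, ex, ec, ep, eκ⟩ : ∃ F : Fib M.X (Fin (D.r i)), F.k = kI D M.x i ∧
      F.x = M.x i ∘ e ∧ F.c = c ∧ (∀ a, F.P a = algebraMap ℂ K ∘ D.p i a ∘ e) ∧
      F.κ = dW D.n M.st i := by
    refine ⟨{ k := kI D M.x i, x := M.x i ∘ e, c := c, p := fun a => D.p i a ∘ e
              κ := dW D.n M.st i, ck := fun a b l => ?_, x0 := ?_, cx := ?_, gen := ?_
              tr := hT D K M i hn.ge, cp := fun a => ?_, p0 := p0, pp := fun a b hab => ?_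
              bx := bpf_range rx.symm (bpf_ys M _)
              bp := fun a => (pen a).2.1 (bpf_range (range_some M.x i a).symm (bpf_ys M _))
              loc := fun E => ?_ }, rfl, rfl, rfl, fun _ => rfl, rfl⟩
    · rw [hcs]
      exact sum_mem fun j _ => mul_mem (wt_mem i j) (algebraMap_mem _ _)
    · rw [Function.comp_apply, e0, M.hyp.one]
    · rw [K1, eval_Φ0, ← Fx_eq, (hK D K M i).1]
    · rw [e.surjective.range_comp, (hK D K M i).2.1]
    · rw [← Function.comp_assoc, K1, eval_Φ0]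
      refine Finset.sum_eq_zero fun j _ => ?_
      rw [aeval_algebraMap_apply, aeval_eq_eval, D.G_p, map_zero, mul_zero]
    · rw [crossProduct_ne_zero_iff_linearIndependent]
      have := li _ (D.dist i a b hab)
      rwa [show (fun j => ![D.p i a, D.p i b] j ∘ e) = ![D.p i a ∘ e, D.p i b ∘ e] from
        funext fun j => by fin_cases j <;> rfl] at this
    · obtain ⟨τ, hτ⟩ := M.hyp.chart E.1
      obtain ⟨b1, -, b3⟩ := hB D K M i E τ hτ
      obtain ⟨g1, g2⟩ := gd _ (val E) (M.X.O E.1) τ (isV E).2 hτ.1 fun τ' h' =>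
        ⟨M.hyp.noline E.1 E.2 τ' h' i h, M.hyp.nonsing E.1 E.2 τ' h' i⟩
      refine ⟨_, _, b1, cB τ, g1, g2, fun A hA hBA h1 h2 => b3 A hA hBA fun o => ?_⟩
      rcases o with _ | a
      · exact pin_range rx h1
      · exact pin_range (range_some M.x i a) ((pen a).2.2 E A
          (fun z => hBA ((BW D M.x τ i).algebraMap_mem z)) (h2 a))
  have bas : ∀ τ, Bas F (gW D M.x τ i) (BW D M.x τ i) := fun τ => by
    obtain ⟨⟨b1, b2, b3, b4, b5, -⟩, -⟩ := hB2 D K M i τ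
    exact ⟨b1, by rwa [ek], by rwa [eκ], by rwa [ek], b5, by rw [ec]; exact cB τ⟩
  refine ⟨F, ⟨ek, ?_, fun a => ?_, eκ⟩, fun y => ?_, fun j hj => ⟨fun l => ?_, ?_⟩,
    fun V y hy hI => ?_⟩
  · rw [st_eq, Fib.H, ex]; exact sd_range rx
  · rw [st_eq, Fib.h, ex, ep]; exact (pen a).1.trans (sd_range (range_some M.x i a))
  · obtain ⟨τ, hτ⟩ := M.hyp.chart y
    refine ⟨_, _, bas τ, (WB τ).trans hτ.1, fun A V hA hy hBA h1 h2 =>
      (hB2 D K M i τ).2 y hτ A _ hA hy hBA fun o => ?_⟩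
    rw [ex] at h1
    rcases o with _ | a
    · exact fr_range rx h1
    · have h3 := h2 a
      rw [ex, ep] at h3
      exact fr_range (range_some M.x i a) (hP2 K A (D.p i a ∘ e) (fun j => D.u i a j ∘ e)
        (M.x i ∘ e) _ (hA.isLoc (isLoc_V V)) (fun z => hBA ((BW D M.x τ i).algebraMap_mem z))
        (p0 a) (li _ (D.u_ind i a)) (up a) (uy a) h3)
  · rw [ex]; exact x_mem hj.symm _
  · intro N h1 h2 z hz
    rw [ek] at h1
    rw [ex] at h2
    refine (Subfield.closure_le.2 ?_ : D.K' M.x j ≤ N) hz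
    rintro _ (⟨a, rfl⟩ | ⟨m, hm, l, rfl⟩)
    · exact h1 _ (algebraMap_mem _ _) (algebraMap_mem _ _)
    · by_cases hi : m = i
      · subst hi
        simpa using h2 (e.symm l)
      · exact h1 _ (x_mem hi l) (x_mem hm l)
  · obtain ⟨τ, hτ⟩ := M.hyp.chart y
    have hV := hτ.1.trans hy.1
    obtain ⟨g1, g2⟩ := gd _ V.valuation V.toSubring τ
      (fun z => (V.valuation_le_one_iff z).symm) hV hI
    refine gdV_of_one hy (bas τ) ((WB τ).trans hV) ⟨by rwa [ec], fun a => ?_⟩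
    rw [ec, ep]; exact g2 a

end Pool.Agent.Lib.MV.G2
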