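import Pool.Agent.Lib.MV.G2A

open Set Matrix WithZero Pool.Agent.Lib.MP_e39d36_ag Pool.Agent.Lib.MP_e39d36_ag.Var
  Pool.Agent.Lib.MP_cc3443_ag Pool.Agent.Lib.MV.End Pool.Agent.Lib.MV.Fb

set_option linter.unusedSectionVars false
set_option linter.unusedVariables false

noncomputable section

namespace Pool.Agent.Lib.MV.G2

namespace GTR

variable {K Γ : Type} [Field K] [LinearOrderedCommGroupWithZero Γ]

lemma un_iff' {w : Valuation K Γ} {R : Subring K} (h : ∀ z, z ∈ R ↔ w z ≤ 1) {z : K} :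
    Un R z ↔ w z = 1 := by
  refine ⟨fun hz => le_antisymm ((h z).1 hz.2.1) ?_, fun hz =>
    ⟨fun h0 => by simp [h0] at hz, (h z).2 hz.le, (h _).2 (by simp [hz])⟩⟩
  have h1 := (h _).1 hz.2.2
  rwa [map_inv₀, inv_le_one₀ (zero_lt_iff.2 (w.ne_zero_iff.2 hz.1))] at h1

lemma nm_one_iff {w : Valuation K Γ} {y : Fin 3 → K} (h : ∀ l, w (y l) ≤ 1) :
    nm w y = 1 ↔ ∃ l, w (y l) = 1 := by
  constructor
  · intro h1
    obtain ⟨l, hl⟩ := exists_nm (v := w) y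
    exact ⟨l, hl ▸ h1⟩
  · rintro ⟨l, hl⟩
    exact le_antisymm (nm_le.2 h) (hl ▸ le_nm y l)

lemma map_grad' {R S : Type} [CommRing R] [CommRing S] (f : R →+* S) (c : Cf R) (P : Fin 3 → R) :
    f ∘ grad c P = grad (cmap f c) (f ∘ P) := by
  ext i
  simp only [Function.comp_apply, grad, map_pol]
  congr 1
  ext j
  simp only [Function.comp_apply, Pi.single_apply]
  split_ifs <;> simp

section tr

variable {V : ValuationSubring K} {ψ : V →+* K} {w : Valuation K Γ}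
  (h1 : ∀ z : V, w (ψ z) ≤ 1) (h2 : ∀ z : V, V.valuation (z : K) = 1 ↔ w (ψ z) = 1)

include h1 h2

lemma lt_tr {z : V} (h : V.valuation (V.subtype z) < 1) : w (ψ z) < 1 :=
  lt_of_le_of_ne (h1 z) fun h3 => h.ne ((h2 z).2 h3)

lemma nm_tr (y : Fin 3 → V) : nm V.valuation (V.subtype ∘ y) = 1 ↔ nm w (ψ ∘ y) = 1 := by
  rw [nm_one_iff (y := V.subtype ∘ y) (fun l => V.valuation_le_one (y l)),
    nm_one_iff (y := ψ ∘ y) (fun l => h1 (y l))]
  exact exists_congr fun l => h2 (y l)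

lemma good_tr (c : Cf V) (h : Good w (cmap ψ c)) : Good V.valuation (cmap V.subtype c) := by
  refine ⟨fun i j l => V.valuation_le_one _, fun a b ha hb hab e1 e2 e3 e4 => ?_⟩
  obtain ⟨a, rfl⟩ : ∃ a' : Fin 3 → V, V.subtype ∘ a' = a :=
    ⟨fun l => ⟨a l, (V.valuation_le_one_iff _).1 (nm_le.1 ha l)⟩, rfl⟩
  obtain ⟨b, rfl⟩ : ∃ b' : Fin 3 → V, V.subtype ∘ b' = b :=
    ⟨fun l => ⟨b l, (V.valuation_le_one_iff _).1 (nm_le.1 hb l)⟩, rfl⟩
  rw [← map_cross, nm_tr h1 h2, map_cross] at hab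
  rw [← map_cub] at e1 e4
  rw [← map_pol] at e2 e3
  refine h.nl (ψ ∘ a) (ψ ∘ b) (nm_le.2 fun l => h1 _) (nm_le.2 fun l => h1 _) hab ?_ ?_ ?_ ?_
  · rw [← map_cub]; exact lt_tr h1 h2 e1
  · rw [← map_pol]; exact lt_tr h1 h2 e2
  · rw [← map_pol]; exact lt_tr h1 h2 e3
  · rw [← map_cub]; exact lt_tr h1 h2 e4

variable [Algebra ℂ K] {X : Var K} {J : Type} {F : Fib X J}

lemma gd_tr {g : K} {B : Subalgebra ℂ K} (hB : Bas F g B) (hV : B.toSubring ≤ V.toSubring)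
    (h3 : ∀ z : V, (z : K) ∈ B → ψ z = z) (h : Gd F w g) : Gd F V.valuation g := by
  let c : Cf V := fun i j l => ⟨(g⁻¹ • F.c) i j l, hV (hB.cB i j l)⟩
  have e1 : cmap V.subtype c = g⁻¹ • F.c := rfl
  have e2 : cmap ψ c = g⁻¹ • F.c := by
    ext i j l
    exact h3 _ (hB.cB i j l)
  rw [Gd] at h ⊢
  refine ⟨e1 ▸ good_tr h1 h2 c (e2 ▸ h.1), fun a => ?_⟩
  let P : Fin 3 → V := fun l => ⟨F.P a l, hV (B.algebraMap_mem _)⟩
  have e3 : V.subtype ∘ P = F.P a := rfl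
  have e4 : ψ ∘ P = F.P a := by
    ext l
    exact h3 _ (B.algebraMap_mem _)
  have h4 := h.2 a
  rw [← e2, ← e4, ← map_grad', ← nm_tr h1 h2, map_grad', e1, e3] at h4
  exact h4

end tr

end GTR

theorem st_gcm : St_GCM := by
  intro K _ _ X J F σ V hσ hV g B hB hle
  have h0 : B.toSubring ≤ V.toSubring := fun z hz => by
    have h1 : σ z ∈ V := mem_cm.1 (hle hz)
    rwa [hσ z (hB.Bk z hz)] at h1
  refine GTR.gd_tr (ψ := σ.toRingEquiv.toRingHom.comp (cm V σ).subtype) (w := V.valuation)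
    (fun z => (V.valuation_le_one_iff _).2 (mem_cm.1 z.2)) (fun z => ?_) hB hle
    (fun z hz => hσ z (hB.Bk z hz)) (hV g B hB h0)
  rw [← un_iff, ← un_iff, cm_toSubring, un_cs]
  rfl

theorem st_goodt : St_GOODT := by
  rintro K _ _ X J F V ⟨γ, R, E, hS, hT⟩ g B hB hle
  have h0 : V.toSubring ≤ X.O γ.c := fun z hz => (CMap.mem_T.1 (hT ▸ hz)).1
  have h1 : ∀ z ∈ V.toSubring, γ.τ z ∈ X.O E.1 := fun z hz => (CMap.mem_T.1 (hT ▸ hz)).2
  have h2 : ∀ z ∈ B, γ.τ z = z := fun z hz => (hS.fix z (hB.Bk z hz)).2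
  have h3 : B.toSubring ≤ X.O E.1 := fun z hz => h2 z hz ▸ h1 z (hle hz)
  refine GTR.gd_tr (ψ := γ.hom.comp (Subring.inclusion h0)) (w := val E)
    (fun z => ((isV E).2 _).1 (h1 z z.2)) (fun z => ?_) hB hle (fun z hz => h2 z hz) (hB.gd h3)
  rw [← un_iff, ← GTR.un_iff' (isV E).2]
  have h4 : Un V.toSubring (z : K) ↔ Un (γ.T (plc E)) (z : K) := by rw [hT]
  rw [h4, CMap.un_T]
  exact ⟨fun h => h.2, fun h => ⟨CMap.un_of_ne (h0 z.2) h.1, h⟩⟩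

end Pool.Agent.Lib.MV.G2
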