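import Pool.Agent.Lib.MV.G2A
import Pool.Agent.Lib.MV.F_VT
import Pool.Agent.Lib.MV.F_LN
import Pool.Agent.Lib.MV.F_PRM

open Set Matrix WithZero Pool.Agent.Lib.MP_e39d36_ag Pool.Agent.Lib.MP_e39d36_ag.Var
  Pool.Agent.Lib.MV.Fb

noncomputable section

namespace Pool.Agent.Lib.MV.G2

namespace HOR63

lemma fr_of_pin {K Γ ι : Type} [Field K] [LinearOrderedCommGroupWithZero Γ] [Fintype ι]
    [Nonempty ι] {v : Valuation K Γ} {A : Subring K} {y : ι → K} (hA : RC v A) (h : Pin v A y) :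
    Fr A y := by
  obtain ⟨j, hj⟩ := exists_nm (v := v) y
  exact ⟨j, fun h0 => nm_ne (v := v) h.ne (by rw [hj, h0, map_zero]), h.div_mem hA hj.symm⟩

lemma dom_of_rc {K : Type} [Field K] {V : ValuationSubring K} {A : Subring K}
    (hA : RC V.valuation A) : Dom A V.toSubring :=
  ⟨fun z hz => (V.valuation_le_one_iff z).1 (hA.le z hz),
    fun z hz hu => ⟨hu.1, hz, hA.inv z hz (un_iff.1 hu)⟩⟩

end HOR63

theorem st_hor (hEXT : St_EXT2) (hSUCC : St_SUCC) (hBIG : St_BIG3) : St_HOR := by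
  intro K _ _ X J F R V a hL hR hV hG hd t htk htR
  obtain ⟨hVR, y, hy, hbig⟩ := hV
  by_contra ht
  refine hBIG K X y hbig fun m hm => ?_
  obtain ⟨g, B, hB, hBy, halg⟩ := hL y
  have hC : ∀ c : ℂ, algebraMap ℂ K c ∈ V := cen_const hy
  have hC' : ∀ c : ℂ, V.valuation (algebraMap ℂ K c) ≤ 1 := fun c =>
    (V.valuation_le_one_iff _).2 (hC c)
  have hBV : B.toSubring ≤ V.toSubring := hBy.trans hy.1
  have hg := hG g B hB hBV
  have h1 : IndIn V.toSubring (B : Set K) m := by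
    refine hEXT K V B (X.O y) m hC hBV hy.1 (fun A hA hCA hS => ?_)
      (indIn_mono hm hy.1 subset_rfl)
    have hp : Pin V.valuation A (F.P a) :=
      ⟨1, by rw [one_smul]; exact nm_const' hC' (F.p0 a), fun i => by rw [one_mul]; exact hCA _⟩
    have hx := VT.pin_near hA hp (F.cross_P_ne a) hd
    refine halg A V (HOR63.dom_of_rc hA) hy hS (HOR63.fr_of_pin hA hx) fun b =>
      HOR63.fr_of_pin hA ?_
    exact (st_ur K _ V.valuation A (g⁻¹ • F.c) F.x (F.P b) hA hg.1 (fun i j l => hS (hB.cB i j l))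
      (fun i => hCA _) (nm_const' hC' (F.p0 b)) (hg.2 b) (by rw [cub_csmul, F.cp b, mul_zero])
      (by rw [cub_csmul, F.cx, mul_zero]) (F.cross_P_ne b)).2 hx
  have ht0 : t ≠ 0 := fun h => ht (h ▸ zero_mem V)
  have hti : t⁻¹ ∈ V := (V.mem_or_inv_mem t).resolve_left ht
  have h2 : IndIn (X.O R.1) ((F.k : Set K) ∩ X.O R.1) (m + 1) :=
    hSUCC K V.toSubring (X.O R.1) B _ m t⁻¹ (isLoc_V V) hC hVR hBV hti
      (fun hu => ht (by have := hu.2.2; rwa [inv_inv] at this))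
      ⟨inv_ne_zero ht0, hVR hti, by rwa [inv_inv]⟩
      (fun z hz => ⟨hB.Bk z hz, hVR (hBV hz)⟩) ⟨inv_mem htk, hVR hti⟩ h1
  exact st_two K F.k (val R) (X.O R.1) (m + 1) (isV R) (X.const_mem _) hR F.tr h2

end Pool.Agent.Lib.MV.G2
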