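import Pool.Agent.Lib.MV.G2A

open Set Matrix WithZero Pool.Agent.Lib.MP_e39d36_ag Pool.Agent.Lib.MP_e39d36_ag.Var
  Pool.Agent.Lib.MP_cc3443_ag Pool.Agent.Lib.MV.End Pool.Agent.Lib.MV.Fb

set_option linter.unusedSectionVars false
set_option linter.unusedVariables false

noncomputable section

namespace Pool.Agent.Lib.MV.G2

namespace LI

variable {K : Type} [Field K] [Algebra ℂ K] {X : Var K}

lemma cm_invol {σ : K ≃ₐ[ℂ] K} (hσ : σ * σ = 1) (V : ValuationSubring K) :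
    cm (cm V σ) σ = V := by rw [cm_cm, hσ, cm_one]

lemma li_of {J : Type} {F : Fib X J} {𝒜 : Set (ValuationSubring K)} {σ : K ≃ₐ[ℂ] K}
    (hσ : σ * σ = 1) (hI : Iso F σ) (h1 : ∀ V ∈ 𝒜, cm V σ ∈ 𝒜) (h2 : ∀ V ∈ 𝒜, GdV F V) :
    Li X 𝒜 σ := fun V =>
  ⟨⟨h1 V, fun h => cm_invol hσ V ▸ h1 _ h⟩, fun hV y y' hy hy' => hI V y y' (h2 V hV) hy hy'⟩

lemma mem_O {k : IntermediateField ℂ K} {σ : K ≃ₐ[ℂ] K} {e : X.PD ≃ X.PD} (h : Inv k σ e)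
    (E : X.PD) (z : K) : σ z ∈ X.O (e E).1 ↔ z ∈ X.O E.1 := by
  rw [(isV _).2, (isV _).2, h.2]

lemma big_of {σ : K ≃ₐ[ℂ] K} {y y' : X.Pt} (h : X.O y ≤ cs (X.O y') σ) (hy : Big y) : Big y' := by
  intro m hm
  obtain ⟨a, h1, h2⟩ := hy m hm
  refine ⟨fun i => σ (a i), fun i => h (h1 i), fun P hP => ?_⟩
  have h3 : MvPolynomial.aeval (fun i => σ (a i)) P = σ (MvPolynomial.aeval a P) :=
    (MvPolynomial.comp_aeval_apply (f := a) (φ := σ.toAlgHom) P).symm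
  rw [h3]
  exact un_cs.1 ((h2 P hP).mono h)

end LI

theorem st_lia (hG : St_GCM) : St_LIA := by
  intro K _ _ X J F σ e R hI hσ hiso hR hgd
  refine LI.li_of hσ hiso (fun V hV => ?_) hgd
  obtain ⟨h1, y, hy, hb⟩ := id hV
  obtain ⟨y', hy'⟩ := cen_cm hy σ
  refine ⟨fun z hz => (LI.mem_O hI R z).1 (by rw [hR]; exact h1 hz), y', hy',
    LI.big_of (σ := σ) ?_ hb⟩
  exact hiso (cm V σ) y' y (hG K X J F σ V hI.1 (hgd V hV)) hy' (by rw [LI.cm_invol hσ]; exact hy)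

theorem st_lic (hT : St_TW) (hG : St_GOODT) : St_LIC := by
  intro K _ _ X J F σ e hI hσ hiso
  refine LI.li_of hσ hiso (fun V hV => ?_) (hG K X J F)
  obtain ⟨γ, R, E, hs, hV⟩ := hV
  obtain ⟨γ', hs', hτ⟩ := hT K X F.k σ e γ R hI hs
  refine ⟨γ', e.symm R, E, hs', Subring.ext fun z => ?_⟩
  rw [cm_toSubring, mem_cs, hV, CMap.mem_T, CMap.mem_T, hτ, hs.c, hs'.c,
    ← LI.mem_O hI (e.symm R) z, e.apply_symm_apply]

end Pool.Agent.Lib.MV.G2
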