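import Pool.Agent.Lib.MV.G2A

open Set Matrix WithZero Pool.Agent.Lib.MP_e39d36_ag Pool.Agent.Lib.MP_e39d36_ag.Var
  Pool.Agent.Lib.MP_cc3443_ag Pool.Agent.Lib.MV.End Pool.Agent.Lib.MV.Fb

set_option linter.unusedSectionVars false
set_option linter.unusedVariables false

noncomputable section

namespace Pool.Agent.Lib.MV.G2

namespace LISO

variable {K : Type} [Field K]

lemma un_of_nm {A : Subring K} {V : ValuationSubring K} (h : Dom A V.toSubring) {z : Fin 3 → K}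
    (hz : ∀ i, z i ∈ A) (h1 : nm V.valuation z = 1) : ∃ i, Un A (z i) := by
  obtain ⟨i, hi⟩ := exists_nm (v := V.valuation) z
  exact ⟨i, h.2 _ (hz i) (un_iff.2 (hi.symm.trans h1))⟩

lemma fr_cs [Algebra ℂ K] {A : Subring K} {σ : K ≃ₐ[ℂ] K} {z : Fin 3 → K} (h : Fr A (σ ∘ z)) :
    Fr (cs A σ) z := by
  obtain ⟨l, h0, h1⟩ := h
  refine ⟨l, fun e => h0 ?_, fun l' => mem_cs.2 ?_⟩
  · rw [Function.comp_apply, e, map_zero]
  · rw [map_div₀]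
    exact h1 l'

end LISO

open LISO in
theorem st_liso (hR : St_REG) : St_LISO := by
  intro K _ _ X J F Q σ w hL hP hσ hw hx V y y' hG hy hy'
  obtain ⟨g, B, hB, hBy, -⟩ := hL y
  have Gv : Gd F V.valuation g := hG g B hB (hBy.trans hy.1)
  obtain ⟨s, hs, hsB, hQ⟩ := hP.loc g B hB
  have hV : ∀ z ∈ X.O y, V.valuation z ≤ 1 := fun z hz => (V.valuation_le_one_iff z).2 (hy.1 hz)
  have hcV : ∀ a : ℂ, V.valuation (algebraMap ℂ K a) ≤ 1 := fun a => hV _ (X.const_mem y a)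
  obtain ⟨q1, q2⟩ := hQ _ V.valuation hcV Gv
  have cO : ∀ i j l, (g⁻¹ • F.c) i j l ∈ X.O y := fun i j l => hBy (hB.cB i j l)
  have QO : ∀ i, (s • Q) i ∈ X.O y := fun i => hBy (hsB i)
  obtain ⟨l, hl0, hl⟩ := F.bx y
  have hl1 := inv_ne_zero hl0
  have xO : ∀ i, ((F.x l)⁻¹ • F.x) i ∈ X.O y := fun i => by
    rw [Pi.smul_apply, smul_eq_mul, ← div_eq_inv_mul]
    exact hl i
  have xl : ((F.x l)⁻¹ • F.x) l = 1 := inv_mul_cancel₀ hl0
  have Q0 : s • Q ≠ 0 := fun e => by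
    rw [e, nm_eq_zero.2 rfl] at q1
    exact zero_ne_one q1
  have xQ : ((F.x l)⁻¹ • F.x) ⨯₃ (s • Q) ≠ 0 := by
    rw [LinearMap.map_smul₂]
    exact smul_ne_zero hl1 (F.cross_ne (fun i => hB.Bk _ (hsB i)) Q0)
  have cQ : cub (g⁻¹ • F.c) (s • Q) = 0 := by rw [cub_csmul, cub_smul, hP.cub, mul_zero, mul_zero]
  have cx : cub (g⁻¹ • F.c) ((F.x l)⁻¹ • F.x) = 0 := by
    rw [cub_csmul, cub_smul, F.cx, mul_zero, mul_zero]
  obtain ⟨j, p0, hp⟩ := hR K (X.O y) _ _ _ (X.isLoc y) cO QO (un_of_nm hy QO q1)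
    (un_of_nm hy (grad_mem cO QO) q2) cQ cx (Fr.smul ⟨l, hl0, hl⟩ hl1) xQ
  generalize hπ : (((F.x l)⁻¹ • F.x) ⨯₃ (s • Q)) j = π at p0 hp
  generalize ht : (π ^ 3)⁻¹ • thd (g⁻¹ • F.c) (s • Q) ((F.x l)⁻¹ • F.x) = t
  have key : ∀ (Γ : Type) [LinearOrderedCommGroupWithZero Γ] (v : Valuation K Γ),
      (∀ z ∈ X.O y, v z ≤ 1) → Gd F v g → nm v t = 1 := fun Γ _ v hv G => by
    have e1 : nm v ((F.x l)⁻¹ • F.x) = 1 := le_antisymm (nm_le.2 fun i => hv _ (xO i)) (by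
      have := le_nm (v := v) ((F.x l)⁻¹ • F.x) l
      rwa [xl, map_one] at this)
    have e2 : nm v (((F.x l)⁻¹ • F.x) ⨯₃ (s • Q)) = v π := by
      rw [← hπ]
      exact nm_gen (hπ ▸ p0) fun i => hv _ (hπ ▸ hp i)
    rw [← ht, nm_smul, G.1.A0 (hQ _ v (fun a => hv _ (X.const_mem y a)) G).1 e1 cQ cx xQ, e2,
      map_inv₀, map_pow, inv_mul_cancel₀ (pow_ne_zero _ (v.ne_zero_iff.2 p0))]
  have tO : ∀ i, t i ∈ X.O y := fun i => hartogs fun E hE => ord_nonneg (((isV E).2 _).2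
    ((le_nm t i).trans (key _ (val E) (fun z hz => ((isV E).2 z).1 (hE hz))
      (hB.gd (hBy.trans hE))).le))
  obtain ⟨i0, hi0⟩ := un_of_nm hy tO (key _ V.valuation hV Gv)
  have Ft : Fr (X.O y) t := ⟨i0, hi0.1, fun i => hi0.div_mem (tO i)⟩
  have g0 := hB.g0
  obtain ⟨u, hu, e⟩ : ∃ u : K, u ≠ 0 ∧ σ ∘ F.x = u • t := by
    refine ⟨w * π ^ 3 * g * (s ^ 2 * (F.x l)⁻¹ ^ 2)⁻¹, by simp [hw, p0, g0, hs, hl0], ?_⟩
    rw [hx, ← ht, thd_csmul, thd_smul, smul_smul, smul_smul, smul_smul]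
    refine congrArg (· • thd F.c Q F.x) ?_
    field_simp
  have ct : cub (g⁻¹ • F.c) t = 0 := by rw [← ht, cub_smul, cub_thd cQ cx, mul_zero]
  have hcr : ∀ a, σ ∘ (F.x ⨯₃ F.P a) = u • (t ⨯₃ F.P a) := fun a => by
    have e1 : σ ∘ F.P a = F.P a := funext fun i => hσ _ (F.P_mem a i)
    rw [map_cross, e1, e, LinearMap.map_smul₂]
  obtain ⟨g', B', hB', hB'y, hfin⟩ := hL y'
  have hB'V : B'.toSubring ≤ V.toSubring := fun z hz => by
    have h1 : σ z ∈ V := mem_cm.1 (hy'.1 (hB'y hz))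
    rwa [hσ z (hB'.Bk z hz)] at h1
  refine hfin _ (cm V σ) (dom_cs hy σ) hy' (fun z hz => mem_cs.2 ?_) (fr_cs (e ▸ Ft.smul hu))
    fun a => fr_cs ?_
  · rw [hσ z (hB'.Bk z hz)]
    exact hB'.ctr y _ hy hB'V hz
  · have PO : ∀ i, F.P a i ∈ X.O y := fun i => X.const_mem y _
    rw [hcr]
    refine Fr.smul (hR K (X.O y) _ _ _ (X.isLoc y) cO PO
      (un_of_nm hy PO (nm_const' hcV (F.p0 a))) (un_of_nm hy (grad_mem cO PO) (Gv.2 a))
      (by rw [cub_csmul, F.cp a, mul_zero]) ct Ft fun h0 => F.cross_P_ne a (funext fun i => ?_)) hu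
    have := congrFun (hcr a) i
    rw [h0, smul_zero] at this
    exact (map_eq_zero σ).1 this

end Pool.Agent.Lib.MV.G2
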