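import Pool.Agent.Lib.MV.G2A
import Pool.Agent.Lib.MV.F_SEC

open Set Matrix WithZero Pool.Agent.Lib.MP_e39d36_ag Pool.Agent.Lib.MP_e39d36_ag.Var
  Pool.Agent.Lib.MP_cc3443_ag Pool.Agent.Lib.MV.End Pool.Agent.Lib.MV.Fb

set_option linter.unusedSectionVars false
set_option linter.unusedVariables false

noncomputable section

namespace Pool.Agent.Lib.MV.G2

namespace MISC

/-- Projecting twice from the same point of the cubic. -/
lemma thd_thd {R : Type} [CommRing R] {c : Cf R} {Q : Fin 3 → R} (x : Fin 3 → R)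
    (h : cub c Q = 0) : thd c Q (thd c Q x) = -(pol c Q x) ^ 3 • x := by
  have h1 : pol c (thd c Q x) Q = -(pol c x Q * pol c Q x ^ 2) := by
    rw [thd, sub_eq_add_neg, ← neg_smul, pol_comb_self, h]; ring
  have h2 : pol c Q (thd c Q x) = -pol c Q x ^ 2 := by
    rw [thd, sub_eq_add_neg, ← neg_smul, pol_comb_right, pol_self, h]; ring
  rw [thd, h1, h2, thd]
  module

end MISC

theorem st_inv2 : St_INV2 := by
  intro K _ _ X J F Q σ w hQ h0 hk hσ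
  have hc : cmap σ F.c = F.c := by
    funext i j l
    exact hk _ (F.ck i j l)
  have hQ' : σ ∘ Q = Q := funext fun i => hk _ (hQ i)
  have h1 : σ ∘ thd F.c Q F.x = (w ^ 2 * -(pol F.c Q F.x) ^ 3) • F.x := by
    rw [map_thd, hc, hQ', hσ, ← one_smul K Q, thd_smul, one_smul, MISC.thd_thd _ h0, smul_smul,
      one_pow, one_mul]
  have h2 : ∀ i, σ (σ (F.x i)) = σ w * (w ^ 2 * -(pol F.c Q F.x) ^ 3) * F.x i := fun i => by
    have e1 : σ (F.x i) = w * thd F.c Q F.x i := congrFun hσ i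
    have e2 : σ (thd F.c Q F.x i) = (w ^ 2 * -(pol F.c Q F.x) ^ 3) * F.x i := congrFun h1 i
    rw [e1, map_mul, e2, ← mul_assoc]
  have h3 := h2 0
  rw [F.x0, map_one, map_one, mul_one] at h3
  refine AlgEquiv.ext fun z => ?_
  have hz : z ∈ IntermediateField.adjoin F.k (range F.x) := F.gen ▸ IntermediateField.mem_top
  change σ (σ z) = z
  induction hz using IntermediateField.adjoin_induction with
  | mem z hz =>
    obtain ⟨i, rfl⟩ := hz
    rw [h2, ← h3, one_mul]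
  | algebraMap a =>
    change σ (σ a.1) = a.1
    rw [hk _ a.2, hk _ a.2]
  | add a b _ _ ha hb => rw [map_add, map_add, ha, hb]
  | inv a _ ha => rw [map_inv₀, map_inv₀, ha]
  | mul a b _ _ ha hb => rw [map_mul, map_mul, ha, hb]

theorem st_pv : St_PV := by
  intro K _ _ X J F a
  refine ⟨⟨F.P_mem a, F.cp a, fun g B h => ⟨1, one_ne_zero, fun i => ?_, fun Γ _ v hv hG => ?_⟩⟩,
    fun m hm => ⟨tq_mem F.ck (F.P_mem a) fun i => F.k.algebraMap_mem _, cub_tq (F.cp a),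
      fun g B h => ⟨g⁻¹ ^ 4, pow_ne_zero _ (inv_ne_zero h.g0), ?_, fun Γ _ v hv hG => ?_⟩⟩⟩
  · rw [one_smul]; exact B.algebraMap_mem _
  · rw [one_smul]; exact ⟨nm_const' hv (F.p0 a), hG.2 a⟩
  · rw [← tq_csmul]
    exact tq_mem h.cB (fun i => B.algebraMap_mem _) fun i => B.algebraMap_mem _
  · have hmp : (algebraMap ℂ K ∘ m) ⬝ᵥ F.P a = 1 := by rw [← map_dot, hm, map_one]
    have h1 : nm v (algebraMap ℂ K ∘ m) ≤ 1 := nm_le.2 fun l => hv _
    have h2 : cub (g⁻¹ • F.c) (F.P a) = 0 := by rw [cub_csmul, F.cp a, mul_zero]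
    rw [← tq_csmul]
    exact ⟨hG.1.nm_tq (nm_const' hv (F.p0 a)) h1 hmp h2 (hG.2 a),
      hG.1.ns_tq (nm_const' hv (F.p0 a)) h1 hmp h2 (hG.2 a)⟩

theorem st_sec2 (hVT : St_VT) (hS : St_SEC0) : St_SEC2 := by
  intro K _ _ X J F a h0
  obtain ⟨R, hR, γ, g1, g2⟩ := st_sec hVT hS K X J F a h0
  refine ⟨R, γ, hR, g1, g2, fun z hz => ?_⟩
  have hx := F.cross_P_ne a
  have h1 : ds (val R) F.x (F.P a) < 1 := ds_le_one.lt_of_ne fun h => by
    have h2 : F.e a R = 1 := by rw [hR, Finsupp.single_eq_same]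
    rw [F.e_eq, dd_apply hx, h, log_one, neg_zero] at h2
    exact zero_ne_one h2
  have hg : grad F.c (F.P a) ≠ 0 := fun h => by
    obtain ⟨g, B, hC⟩ := F.loc R
    have := hC.ns a
    rw [grad_csmul, h, smul_zero, nm_eq_zero.2 rfl] at this
    exact zero_ne_one this
  obtain ⟨-, e2, -⟩ := hS F.k K F.c F.x (F.P a) F.toGen (fun i => ⟨⟨_, F.P_mem a i⟩, rfl⟩)
    (F.cp a) hg hx (val R) (isV R).1 (fun u => ((isV R).2 _).1 (g2 _ u.2).1) h1
  obtain ⟨u, hu⟩ := e2 z (((isV R).2 z).1 hz)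
  change val R (z - u.1) < 1 at hu
  have h3 : z - u.1 ∈ X.O γ.c := g1 ▸ ((isV R).2 _).2 hu.le
  have h4 : γ.τ (z - u.1) = 0 := γ.zero _ h3 fun h => by
    have h5 := ((isV R).2 _).1 (g1 ▸ h.2.2)
    rw [map_inv₀, inv_le_one₀ (zero_lt_iff.2 ((val R).ne_zero_iff.2 h.1))] at h5
    exact hu.not_ge h5
  have h6 := γ.add _ (g1 ▸ (g2 _ u.2).1) _ h3
  rw [add_sub_cancel, h4, add_zero, (g2 _ u.2).2] at h6
  exact h6 ▸ u.2

theorem st_tw : St_TW := by
  intro K _ _ X k σ e γ R hI hS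
  have h1 : ∀ z, z ∈ X.O (e.symm R).1 ↔ σ z ∈ X.O γ.c := fun z => by
    rw [hS.c, (isV _).2, (isV _).2, ← hI.2 z (e.symm R), e.apply_symm_apply]
  refine ⟨⟨(e.symm R).1, fun z => γ.τ (σ z), fun a ha b hb => ?_, fun a ha b hb => ?_,
    fun a => ?_, fun a ha h => ?_⟩, ⟨rfl, fun z hz => ⟨?_, ?_⟩, fun z hz => ?_⟩, fun z => rfl⟩
  · rw [map_add]; exact γ.add _ ((h1 a).1 ha) _ ((h1 b).1 hb)
  · rw [map_mul]; exact γ.mul _ ((h1 a).1 ha) _ ((h1 b).1 hb)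
  · rw [σ.commutes]; exact γ.const a
  · refine γ.zero _ ((h1 a).1 ha) fun hu => h ⟨fun h0 => hu.1 ?_, ha, (h1 _).2 ?_⟩
    · rw [h0, map_zero]
    · rw [map_inv₀]; exact hu.2.2
  · rw [h1, hI.1 z hz, hS.c]; exact (hS.fix z hz).1
  · change γ.τ (σ z) = z
    rw [hI.1 z hz]; exact (hS.fix z hz).2
  · exact hS.im _ (hS.c ▸ (h1 z).1 hz)

end Pool.Agent.Lib.MV.G2
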