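import Pool.Agent.Lib.MV.L_GRP

open Set Submodule
open scoped NNReal

noncomputable section

namespace Pool.Agent.Lib.MV.Lat.Grp

variable {ι : Type} [Fintype ι] [DecidableEq ι] {n r : ι → ℕ} {i : ι}

/-- translations which lie in a monoid together with their inverses -/
def TG' (n : ι → ℕ) (S : Submonoid (Module.End ℝ (V r))) (i : ι) : AddSubgroup (F (r i)) where
  carrier := {a | dot a (kk 2 (r i)) = 0 ∧ tau n i a ∈ S ∧ tau n i (-a) ∈ S}
  zero_mem' := ⟨by simp, by rw [tau_zero]; exact one_mem _,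
    by rw [neg_zero, tau_zero]; exact one_mem _⟩
  add_mem' := fun {a b} ha hb => ⟨by rw [map_add, LinearMap.add_apply, ha.1, hb.1, add_zero],
    by rw [← tau_tau hb.1]; exact mul_mem ha.2.1 hb.2.1,
    by
      rw [neg_add, ← tau_tau (by rw [map_neg, LinearMap.neg_apply, hb.1, neg_zero])]
      exact mul_mem ha.2.2 hb.2.2⟩
  neg_mem' := fun {a} ha => ⟨by rw [map_neg, LinearMap.neg_apply, ha.1, neg_zero], ha.2.2,
    by rw [neg_neg]; exact ha.2.1⟩

lemma sub_mem_TG' {S : Submonoid (Module.End ℝ (V r))} {g g' : F (r i)}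
    (h : dot g (kk 2 (r i)) = 2) (h' : dot g' (kk 2 (r i)) = 2) (hg : sig n i g ∈ S)
    (hg' : sig n i g' ∈ S) : g - g' ∈ TG' n S i :=
  ⟨by rw [map_sub, LinearMap.sub_apply, h, h', sub_self],
    by rw [← sig_sig h']; exact mul_mem hg hg',
    by rw [neg_sub, ← sig_sig h]; exact mul_mem hg' hg⟩

lemma tau_mem' {S : Submonoid (Module.End ℝ (V r))} (hh' : ∀ a, sig n i (hh (some a)) ∈ S)
    (he : ∀ a, sig n i ((2 : ℝ) • ee a) ∈ S) (hi : 0 < r i) {α : F (r i)} (hz : IsZ α)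
    (hk : dot α (kk 2 (r i)) = 0) : tau n i α ∈ S := by
  let a0 : Fin (r i) := ⟨0, hi⟩
  obtain ⟨a, ha⟩ := hz.dot (isZ_hh none)
  choose m hm using fun b => hz.dot (isZ_ee b)
  have h1 : (∑ b, (m b : ℝ)) = 3 * a := by
    rw [dot_k, ← dot_H, ha] at hk
    simp only [← dot_e, hm] at hk
    push_cast at hk
    linarith
  have h2 : α = a • (hh (some a0) - (2 : ℝ) • ee a0) - ∑ b, m b • (hh (some a0) - hh (some b)) := by
    have h3 : ∀ b, m b • (hh (some a0) - hh (some b)) = (m b : ℝ) • ee b - (m b : ℝ) • ee a0 :=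
      fun b => by rw [hh_some, hh_some, ← Int.cast_smul_eq_zsmul ℝ]; module
    rw [Finset.sum_congr rfl fun b _ => h3 b, Finset.sum_sub_distrib, ← Finset.sum_smul, h1,
      ← Int.cast_smul_eq_zsmul ℝ, hh_some]
    have h4 := expand α
    rw [ha] at h4
    simp only [hm] at h4
    refine h4.trans ?_
    module
  have h5 : α ∈ TG' n S i := by
    rw [h2]
    exact sub_mem (zsmul_mem (sub_mem_TG' (dot_hk _) (dot_2ek _) (hh' _) (he _)) _)
      (sum_mem fun b _ => zsmul_mem (sub_mem_TG' (dot_hk _) (dot_hk _) (hh' _) (hh' _)) _)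
  exact h5.2.1

end Pool.Agent.Lib.MV.Lat.Grp
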