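import Pool.Agent.Lib.MV.G2B
import Pool.Agent.Lib.MV.F_ALL
import Pool.Agent.Lib.MV.L2_GRP

open Set Matrix WithZero Pool.Agent.Lib.MP_e39d36_ag Pool.Agent.Lib.MP_e39d36_ag.Var
  Pool.Agent.Lib.MV.End Pool.Agent.Lib.MV.Fb Pool.Agent.Lib.MV.Lat

noncomputable section

namespace Pool.Agent.Lib.MV.G2

theorem st_ncpb : St_NCPB := by
  intro D K _ _ M h1 h2 i F hF a S γ r1 hS W x w3
  obtain ⟨q1, q2, q3, q4⟩ := st_resf st_pb st_ur K M.X _ F M.sm.fac a S γ r1 hS.c hS.fix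
  have key : nc M.Γ M.sm.fac (pb γ M.sm.fac W) = cl M.Γ M.sm.fac M.st (Function.update x i 0) +
      x i (some a) • nc M.Γ M.sm.fac (dW D.n M.st i) := by
    rw [nc_pb M st_pbr h1 h2 _ w3, cl_apply,
      ← Finset.add_sum_erase _ _ (Finset.mem_univ i), ← Finset.add_sum_erase _ _ (Finset.mem_univ i),
      add_comm, Function.update_self]
    simp only [Pi.zero_apply, zero_smul, Finset.sum_const_zero, zero_add]
    refine congrArg₂ _ (Finset.sum_congr rfl fun j hj => Finset.sum_congr rfl fun o _ => ?_) ?_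
    · have hj' := Finset.ne_of_mem_erase hj
      rw [Function.update_of_ne hj', st_eq,
        (q4 _ _ (bpf_ys M _) fun t => hF.k ▸ ys_mem hj' o t).nc_eq M.Γ M.sm.fac]
    · rw [Fintype.sum_option, ← hF.H, q1.nc_eq M.Γ M.sm.fac, map_zero, smul_zero, zero_add,
        Finset.sum_eq_single a (fun b _ hb => by
          rw [← hF.h, (q3 b hb).nc_eq M.Γ M.sm.fac, map_zero, smul_zero]) (by simp),
        ← hF.h, q2.nc_eq M.Γ M.sm.fac, hF.κ]
  refine key.trans ?_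
  rw [rg_nc (rg_W i), Bf, mv_apply, map_add, map_smul, dot_ee]
  simp [dot_comm (ee a), dot_e]

theorem st_glm (hL : St_LISO) (hI : St_INV2) (hP : St_PV) : St_GLM := by
  intro D K _ _ M i F hF hc hi 𝒜 h𝒜 α hz hk
  refine Grp.tau_mem' (fun a => ?_) (fun a => ?_) hi hz hk
  · obtain ⟨σ, e, p1, ⟨w, hw, hσ⟩, p2⟩ := st_sigh all_perm K M.X _ F a
    simp only [hF.H, hF.κ, hF.e] at p2
    have hQ := (hP K M.X _ F a).1
    have h3 := sigh_rg (over_of_inv M (hF.k ▸ p1)) p2.1 p2.2.1 p2.2.2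
    exact ⟨σ, e, p1, h𝒜 σ e _ p1 (hI K M.X _ F _ σ w hQ.mem hQ.cub p1.1 hσ)
      (hL K M.X _ F _ σ w hc hQ p1.1 hw hσ) h3, h3⟩
  · obtain ⟨σ, e, p1, ⟨m, hm, w, hw, hσ⟩, p2⟩ :=
      st_sige2 all_perm all_vt (st_sigh all_perm) K M.X _ F a
    simp only [hF.H, hF.κ, hF.e] at p2
    have hQ := (hP K M.X _ F a).2 m hm
    have h3 := sige_rg (over_of_inv M (hF.k ▸ p1)) p2.1 p2.2.1 p2.2.2
    exact ⟨σ, e, p1, h𝒜 σ e _ p1 (hI K M.X _ F _ σ w hQ.mem hQ.cub p1.1 hσ)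
      (hL K M.X _ F _ σ w hc hQ p1.1 hw hσ) h3, h3⟩

end Pool.Agent.Lib.MV.G2
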