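import Pool.Agent.Lib.MV.G2A

open Set Matrix WithZero Pool.Agent.Lib.MP_e39d36_ag Pool.Agent.Lib.MP_e39d36_ag.Var
  Pool.Agent.Lib.MP_cc3443_ag Pool.Agent.Lib.MV.End Pool.Agent.Lib.MV.Fb

set_option linter.unusedSectionVars false
set_option linter.unusedVariables false

noncomputable section

namespace Pool.Agent.Lib.MV.G2

namespace REG

variable {K : Type} [Field K] {T : Subring K}

lemma dmem {a b : Fin 3 → K} (ha : ∀ i, a i ∈ T) (hb : ∀ i, b i ∈ T) : a ⬝ᵥ b ∈ T :=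
  sum_mem fun i _ => mul_mem (ha i) (hb i)

lemma ex_un (hT : IsLoc T) {w q : Fin 3 → K} (hw : ∀ i, w i ∈ T) (hq : ∀ i, q i ∈ T)
    (h : Un T (w ⬝ᵥ q)) : ∃ l, Un T (w l) := by
  obtain ⟨l, -, hl⟩ := hT.of_sum (fun i _ => mul_mem (hw i) (hq i)) h
  exact ⟨l, hl.of_mul (hw l) (hq l)⟩

lemma fr_of (hT : IsLoc T) {w q : Fin 3 → K} (hw : ∀ i, w i ∈ T) (hq : ∀ i, q i ∈ T)
    (h : Un T (w ⬝ᵥ q)) : Fr T w := by
  obtain ⟨l, hl⟩ := ex_un hT hw hq h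
  exact ⟨l, hl.1, fun l' => hl.div_mem (hw l')⟩

lemma dual {q : Fin 3 → K} (hq : ∃ i, Un T (q i)) :
    ∃ m : Fin 3 → K, (∀ i, m i ∈ T) ∧ m ⬝ᵥ q = 1 := by
  obtain ⟨l, hl⟩ := hq
  refine ⟨Pi.single l (q l)⁻¹, fun i => ?_, by
    rw [single_dotProduct]; exact inv_mul_cancel₀ hl.1⟩
  rw [Pi.single_apply]
  split_ifs
  exacts [hl.2.2, zero_mem _]

lemma dot1 (P y z : Fin 3 → K) (X Y Z : K) :
    ((X • P + Y • y + Z • z) ⨯₃ P) ⬝ᵥ z = -Y * (z ⬝ᵥ P ⨯₃ y) := by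
  simp [cross_apply, dotProduct, Fin.sum_univ_three]; ring

lemma dot2 (P y z : Fin 3 → K) (X Y Z : K) :
    ((X • P + Y • y + Z • z) ⨯₃ P) ⬝ᵥ y = Z * (z ⬝ᵥ P ⨯₃ y) := by
  simp [cross_apply, dotProduct, Fin.sum_univ_three]; ring

lemma cr (P y z : Fin 3 → K) (X Y t : K) :
    (X • P + Y • y + (Y * t) • z) ⨯₃ P = Y • (((0 : K) • P + (1 : K) • y + t • z) ⨯₃ P) := by
  ext i; fin_cases i <;> simp [cross_apply] <;> ring

lemma main {c : Cf K} {x P : Fin 3 → K} (hT : IsLoc T) (hc : ∀ i j l, c i j l ∈ T)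
    (hP : ∀ i, P i ∈ T) (hP' : ∃ i, Un T (P i)) (hg : ∃ i, Un T (grad c P i)) (h0 : cub c P = 0)
    (hx0 : cub c x = 0) (hx : ∀ i, x i ∈ T) (hx' : ∃ i, Un T (x i)) (hne : x ⨯₃ P ≠ 0) :
    Fr T (x ⨯₃ P) := by
  obtain ⟨m, m1, m2⟩ := dual hP'
  obtain ⟨z, z1, z2⟩ := dual hg
  have y1 : ∀ i, tdir c P m i ∈ T := cross_mem (grad_mem hc hP) m1
  have h3 := cross_tdir h0 m2
  have h4 : pol c P (tdir c P m) = 0 := pol_tdir
  generalize tdir c P m = y at y1 h3 h4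
  have h5 : pol c P z = 1 := by rw [pol_eq_dot, dotProduct_comm, z2]
  rw [← h3] at z2
  have e0 := cramer3 P y x z
  rw [z2, one_smul] at e0
  have hX : x ⬝ᵥ y ⨯₃ z ∈ T := dmem hx (cross_mem y1 z1)
  have hY : x ⬝ᵥ z ⨯₃ P ∈ T := dmem hx (cross_mem z1 hP)
  have hZ : x ⬝ᵥ P ⨯₃ y ∈ T := dmem hx (cross_mem hP y1)
  generalize x ⬝ᵥ y ⨯₃ z = X at e0 hX
  generalize x ⬝ᵥ z ⨯₃ P = Y at e0 hY
  generalize x ⬝ᵥ P ⨯₃ y = Z at e0 hZ
  have hw : ∀ i, (x ⨯₃ P) i ∈ T := cross_mem hx hP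
  by_cases uY : Un T Y
  · refine fr_of hT hw z1 ?_
    rw [e0, dot1, z2, mul_one]
    exact uY.neg
  by_cases uZ : Un T Z
  · refine fr_of hT hw y1 ?_
    rw [e0, dot2, z2, mul_one]
    exact uZ
  have uX : Un T X := by
    obtain ⟨i, hi⟩ := hx'
    rw [e0] at hi
    simp only [Pi.add_apply, Pi.smul_apply, smul_eq_mul] at hi
    rcases hT.of_add (add_mem (mul_mem hX (hP i)) (mul_mem hY (y1 i))) (mul_mem hZ (z1 i)) hi
      with h | h
    · rcases hT.of_add (mul_mem hX (hP i)) (mul_mem hY (y1 i)) h with h | h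
      · exact h.of_mul hX (hP i)
      · exact absurd (h.of_mul hY (y1 i)) uY
    · exact absurd (h.of_mul hZ (z1 i)) uZ
  have e2 : cub c ((1 : K) • (X • P + Y • y) + Z • z) = 0 := by rw [one_smul, ← e0, hx0]
  rw [cub_comb, cub_comb, pol_comb_left, pol_comb_right, h0, h4, h5] at e2
  have hA := pol_mem hc y1 hP
  have hB := cub_mem hc y1
  have hC : mix c P y z ∈ T := add_mem (add_mem (add_mem (add_mem (add_mem
    (tri_mem hc hP y1 z1) (tri_mem hc y1 hP z1)) (tri_mem hc hP z1 y1))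
    (tri_mem hc y1 z1 hP)) (tri_mem hc z1 hP y1)) (tri_mem hc z1 y1 hP)
  have hD := pol_mem hc y1 z1
  have hE := pol_mem hc z1 hP
  have hH := pol_mem hc z1 y1
  have hL := cub_mem hc z1
  generalize pol c y P = A at e2 hA
  generalize cub c y = B at e2 hB
  generalize mix c P y z = C at e2 hC
  generalize pol c y z = D at e2 hD
  generalize pol c z P = E at e2 hE
  generalize pol c z y = H at e2 hH
  generalize cub c z = L at e2 hL
  have m1 : X * C + Y * D ∈ T := add_mem (mul_mem hX hC) (mul_mem hY hD)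
  have m2 : X * E + Y * H + Z * L ∈ T :=
    add_mem (add_mem (mul_mem hX hE) (mul_mem hY hH)) (mul_mem hZ hL)
  have ug : Un T (X ^ 2 + Y * (X * C + Y * D) + Z * (X * E + Y * H + Z * L)) :=
    hT.add_un (hT.add_un (uX.pow 2) (mul_mem hY m1) fun h => uY (h.of_mul hY m1))
      (mul_mem hZ m2) fun h => uZ (h.of_mul hZ m2)
  obtain ⟨g, hg'⟩ : ∃ g, g = X ^ 2 + Y * (X * C + Y * D) + Z * (X * E + Y * H + Z * L) :=
    ⟨_, rfl⟩
  rw [← hg'] at ug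
  have e3 : Z * g = Y * -(Y * (X * A + Y * B)) := by
    rw [hg']
    linear_combination e2
  have ht : -(Y * (X * A + Y * B)) / g ∈ T :=
    ug.div_mem (neg_mem (mul_mem hY (add_mem (mul_mem hX hA) (mul_mem hY hB))))
  have e4 : Z = Y * (-(Y * (X * A + Y * B)) / g) := by
    rw [← mul_div_assoc, ← e3, mul_div_cancel_right₀ _ ug.1]
  generalize -(Y * (X * A + Y * B)) / g = t at ht e4
  rw [e0, e4, cr] at hne ⊢
  refine Fr.smul (fr_of hT (cross_mem (fun i => ?_) hP) z1 ?_) (left_ne_zero_of_smul hne)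
  · simp only [Pi.add_apply, Pi.smul_apply, smul_eq_mul]
    exact add_mem (add_mem (mul_mem (zero_mem _) (hP i)) (mul_mem (one_mem _) (y1 i)))
      (mul_mem ht (z1 i))
  · rw [dot1, z2, mul_one]
    exact Un.one.neg

end REG

theorem st_reg : St_REG := by
  intro K _ T c x P hT hc hP hP' hg h0 hx0 ⟨l, hl, hl'⟩ hne
  have e1 : x ⨯₃ P = x l • (((x l)⁻¹ • x) ⨯₃ P) := by
    rw [map_smul, LinearMap.smul_apply, smul_smul, mul_inv_cancel₀ hl, one_smul]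
  rw [e1] at hne ⊢
  refine Fr.smul (REG.main hT hc hP hP' hg h0 (by rw [cub_smul, hx0, mul_zero]) (fun i => ?_)
    ⟨l, ?_⟩ (right_ne_zero_of_smul hne)) hl
  · rw [Pi.smul_apply, smul_eq_mul, ← div_eq_inv_mul]
    exact hl' i
  · rw [Pi.smul_apply, smul_eq_mul, inv_mul_cancel₀ hl]
    exact Un.one

end Pool.Agent.Lib.MV.G2
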