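import Pool.Agent.Lib.MV.G2A
import Pool.Agent.Lib.MV.F_SEC0

open Set Matrix WithZero Pool.Agent.Lib.MP_e39d36_ag Pool.Agent.Lib.MP_e39d36_ag.Var
  Pool.Agent.Lib.MP_cc3443_ag Pool.Agent.Lib.MV.End Pool.Agent.Lib.MV.Fb

set_option linter.unusedSectionVars false
set_option linter.unusedVariables false

noncomputable section

namespace Pool.Agent.Lib.MV.G2

namespace SEC1

variable {k K Γ : Type} [Field k] [Field K] [Algebra k K] [LinearOrderedCommGroupWithZero Γ]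

lemma one {w : Valuation K Γ} (hw : ∀ a : k, w (algebraMap k K a) ≤ 1) {a : k} (ha : a ≠ 0) :
    w (algebraMap k K a) = 1 := by
  refine le_antisymm (hw a) ?_
  have h1 : w (algebraMap k K a) * w (algebraMap k K a⁻¹) = 1 := by
    rw [← map_mul, ← map_mul, mul_inv_cancel₀ ha, map_one, map_one]
  rw [← h1]
  exact mul_le_of_le_one_right' (hw _)

/-- the value of a power of the parameter times a unit with constant residue -/
lemma val (u : K) (T : Subalgebra k K) (w : Valuation K Γ) (hw : ∀ z ∈ T, w z ≤ 1) (hu : w u < 1)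
    (n : ℕ) {a : k} (ha : a ≠ 0) {y : K} (hy : y ∈ T) :
    w (u ^ n * (algebraMap k K a + u * y)) = w u ^ n := by
  have c2 := one (fun a => hw _ (T.algebraMap_mem a)) ha
  have c3 : w (u * y) < 1 := by
    rw [map_mul]
    exact mul_lt_one_of_lt_of_le hu (hw _ hy)
  rw [map_mul, map_pow, w.map_add_eq_of_lt_left (c2 ▸ c3), c2, mul_one]

/-- every nonzero element is a power of the parameter times a unit with constant residue -/
lemma core (u : K) (T : Subalgebra k K)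
    (hb : ∀ z ∈ T, ∃ a : k, ∃ y ∈ T, z = algebraMap k K a + u * y)
    (v : Valuation K ℤᵐ⁰) (hv : ∀ z ∈ T, v z ≤ 1) (hvu : v u < 1) (z : K) (hz : z ∈ T)
    (h0 : z ≠ 0) : ∃ (j : ℕ) (a : k) (y : K), a ≠ 0 ∧ y ∈ T ∧
      z = u ^ j * (algebraMap k K a + u * y) := by
  have s1 : ∀ n : ℕ, (∃ (j : ℕ) (a : k) (y : K), a ≠ 0 ∧ y ∈ T ∧
      z = u ^ j * (algebraMap k K a + u * y)) ∨ ∃ y ∈ T, z = u ^ n * y := by
    intro n
    induction n with
    | zero => exact Or.inr ⟨z, hz, by rw [pow_zero, one_mul]⟩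
    | succ n ih =>
      rcases ih with h | ⟨y, hy, rfl⟩
      · exact Or.inl h
      · obtain ⟨a, y', hy', rfl⟩ := hb y hy
        by_cases ha : a = 0
        · exact Or.inr ⟨y', hy', by rw [ha, map_zero, zero_add, pow_succ, mul_assoc]⟩
        · exact Or.inl ⟨n, a, y', ha, hy', rfl⟩
  obtain ⟨n, hn⟩ := exists_pow_lt₀ hvu (Units.mk0 (v z) (v.ne_zero_iff.2 h0))
  refine (s1 n).resolve_right ?_
  rintro ⟨y, hy, rfl⟩
  rw [Units.val_mk0, map_mul, map_pow] at hn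
  exact hn.not_ge (mul_le_of_le_one_right' (hv y hy))

lemma cmp {g : Γ} (h0 : g ≠ 0) (h1 : g < 1) (n m : ℕ) : g ^ n / g ^ m ≤ 1 ↔ m ≤ n := by
  rw [div_le_one₀ (zero_lt_iff.2 (pow_ne_zero _ h0)),
    pow_le_pow_iff_right_of_lt_one₀ (zero_lt_iff.2 h0) h1]

lemma fin (u : K) (T : Subalgebra k K) (hu : u ≠ 0)
    (hb : ∀ z ∈ T, ∃ a : k, ∃ y ∈ T, z = algebraMap k K a + u * y)
    (v : Valuation K ℤᵐ⁰) (hv : ∀ z ∈ T, v z ≤ 1) (hvu : v u < 1) (w : Valuation K Γ)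
    (hw : ∀ z ∈ T, w z ≤ 1) (hwu : w u < 1) {r s : K} (hr : r ∈ T) (hs : s ∈ T) :
    w (r / s) ≤ 1 ↔ v (r / s) ≤ 1 := by
  by_cases h0 : r / s = 0
  · simp [h0]
  obtain ⟨n, a, y, ha, hy, rfl⟩ := core u T hb v hv hvu r hr (div_ne_zero_iff.1 h0).1
  obtain ⟨m, b, y', hb', hy', rfl⟩ := core u T hb v hv hvu s hs (div_ne_zero_iff.1 h0).2
  rw [map_div₀, map_div₀, val u T w hw hwu n ha hy, val u T w hw hwu m hb' hy',
    val u T v hv hvu n ha hy, val u T v hv hvu m hb' hy', cmp (w.ne_zero_iff.2 hu) hwu,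
    cmp (v.ne_zero_iff.2 hu) hvu]

/-- the distance in adapted coordinates -/
lemma coord {w : Valuation K Γ} {p y z x : Fin 3 → K} (hp : nm w p = 1) (hy : nm w y ≤ 1)
    (hz : nm w z ≤ 1) (hz' : z ⬝ᵥ p ⨯₃ y = 1) {X Y Z : K} (hX : X = x ⬝ᵥ y ⨯₃ z)
    (hx : x = X • p + Y • y + Z • z) (h : ds w x p < 1) (h0 : x ≠ 0) :
    X ≠ 0 ∧ ds w x p = max (w (Y / X)) (w (Z / X)) := by
  have d1 : nm w (x ⨯₃ p) = max (w Y) (w Z) := by
    rw [hx, ← nm_comb (cross_le_one hy hp.le) (cross_le_one hz hp.le) (by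
      rw [cross_cross3, dotProduct_comm _ p, dot_cross_self, dotProduct_comm _ z,
        ← cross_anticomm p y, dotProduct_neg, hz']
      simpa using hp)]
    simp
  have d2 : w X ≤ nm w x := hX ▸ dot_le_left (cross_le_one hy hz)
  have d3 : nm w x ≤ max (w X) (max (w Y) (w Z)) := by
    nth_rw 1 [hx, add_assoc]
    refine (nm_add _ _).trans (max_le_max ?_ (nm_comb_le hy hz))
    rw [nm_smul, hp, mul_one]
  have d4 := nm_ne (v := w) h0
  rw [ds, hp, mul_one, d1] at h ⊢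
  rw [div_lt_one₀ (zero_lt_iff.2 d4)] at h
  have d5 : nm w x = w X := le_antisymm ((le_max_iff.1 d3).resolve_right h.not_ge) d2
  refine ⟨w.ne_zero_iff.1 (d5 ▸ d4), ?_⟩
  rw [d5, map_div₀, map_div₀]
  rcases le_total (w Y) (w Z) with a | a
  · rw [max_eq_right a, max_eq_right (div_le_div_of_nonneg_right a zero_le)]
  · rw [max_eq_left a, max_eq_left (div_le_div_of_nonneg_right a zero_le)]

end SEC1

open SEC1 in
theorem st_sec1 : St_SEC1 := by
  intro k K Γ _ _ _ _ c x P ck x0 cx hP h0 hg hx v w₀ hv hw₀ hd hd₀ s₀ hs₀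
  set F := (algebraMap k K).range with hF
  have inv : ∀ z ∈ F, z⁻¹ ∈ F := by
    rintro _ ⟨a, rfl⟩
    exact ⟨a⁻¹, map_inv₀ _ _⟩
  have dual : ∀ q : Fin 3 → K, q ≠ 0 → (∀ i, q i ∈ F) →
      ∃ m : Fin 3 → K, (∀ i, m i ∈ F) ∧ m ⬝ᵥ q = 1 := fun q hq hq' => by
    obtain ⟨l, hl⟩ := Function.ne_iff.1 hq
    refine ⟨Pi.single l (q l)⁻¹, fun i => ?_, by
      rw [single_dotProduct]; exact inv_mul_cancel₀ hl⟩
    rw [Pi.single_apply]
    split_ifs
    exacts [inv _ (hq' l), zero_mem _]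
  obtain ⟨m, m1, m2⟩ := dual P (right_ne hx) hP
  obtain ⟨z, z1, z2⟩ := dual _ hg (grad_mem ck hP)
  have y1 : ∀ i, tdir c P m i ∈ F := cross_mem (grad_mem ck hP) m1
  have h3 := cross_tdir h0 m2
  have h4 : pol c P (tdir c P m) = 0 := pol_tdir
  generalize tdir c P m = y at y1 h3 h4
  have h5 : pol c P z = 1 := by rw [pol_eq_dot, dotProduct_comm, z2]
  rw [← h3] at z2
  have e0 := cramer3 P y x z
  rw [z2, one_smul] at e0
  obtain ⟨X, hX⟩ : ∃ X, X = x ⬝ᵥ y ⨯₃ z := ⟨_, rfl⟩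
  rw [← hX] at e0
  generalize x ⬝ᵥ z ⨯₃ P = Y at e0
  generalize x ⬝ᵥ P ⨯₃ y = Z at e0
  have le1 : ∀ (Δ : Type) [LinearOrderedCommGroupWithZero Δ] (w : Valuation K Δ),
      (∀ a : k, w (algebraMap k K a) ≤ 1) → ∀ t ∈ F, w t ≤ 1 := by
    rintro _ _ w hw _ ⟨a, rfl⟩
    exact hw a
  have co : ∀ (Δ : Type) [LinearOrderedCommGroupWithZero Δ] (w : Valuation K Δ),
      (∀ a : k, w (algebraMap k K a) ≤ 1) → ds w x P < 1 →
      X ≠ 0 ∧ ds w x P = max (w (Y / X)) (w (Z / X)) := fun _ _ w hw h => by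
    have a1 : ∀ q : Fin 3 → K, (∀ i, q i ∈ F) → nm w q ≤ 1 := fun q hq =>
      nm_le.2 fun l => le1 _ w hw _ (hq l)
    refine coord (le_antisymm (a1 P hP) ?_) (a1 y y1) (a1 z z1) z2 hX e0 h (left_ne hx)
    have := dot_le (v := w) m P
    rw [m2, map_one] at this
    exact this.trans (mul_le_of_le_one_left' (a1 m m1))
  obtain ⟨X0, hds⟩ := co _ v hv hd
  obtain ⟨u, hu⟩ : ∃ u, u = Y / X := ⟨_, rfl⟩
  obtain ⟨u', hu'⟩ : ∃ u', u' = Z / X := ⟨_, rfl⟩
  rw [← hu, ← hu'] at co hds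
  have e1 : x = X • ((1 : K) • ((1 : K) • P + u • y) + u' • z) := by
    rw [one_smul, one_smul, smul_add, smul_add, smul_smul, smul_smul, hu, hu',
      mul_div_cancel₀ _ X0, mul_div_cancel₀ _ X0]
    exact e0
  have e2 : cub c ((1 : K) • ((1 : K) • P + u • y) + u' • z) = 0 :=
    cub_of_smul X0 (e1 ▸ cx)
  rw [cub_comb, cub_comb, pol_comb_left, pol_comb_right, h0, h4, h5] at e2
  obtain ⟨A, hA⟩ := pol_mem ck y1 hP
  obtain ⟨B, hB⟩ := cub_mem ck y1
  obtain ⟨C, hC⟩ : mix c P y z ∈ F := add_mem (add_mem (add_mem (add_mem (add_mem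
    (tri_mem ck hP y1 z1) (tri_mem ck y1 hP z1)) (tri_mem ck hP z1 y1))
    (tri_mem ck y1 z1 hP)) (tri_mem ck z1 hP y1)) (tri_mem ck z1 y1 hP)
  obtain ⟨D, hD⟩ := pol_mem ck y1 z1
  obtain ⟨E, hE⟩ := pol_mem ck z1 hP
  obtain ⟨H, hH⟩ := pol_mem ck z1 y1
  obtain ⟨L, hL⟩ := cub_mem ck z1
  rw [← hA, ← hB, ← hC, ← hD, ← hE, ← hH, ← hL] at e2
  obtain ⟨g, hg'⟩ : ∃ g, g = 1 + (u * (algebraMap k K C + u * algebraMap k K D) +
    u' * (algebraMap k K E + u * algebraMap k K H + u' * algebraMap k K L)) := ⟨_, rfl⟩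
  have e3 : u' * g = -(u * (u * (algebraMap k K A + u * algebraMap k K B))) := by
    rw [hg']
    linear_combination e2
  have wg : ∀ (Δ : Type) [LinearOrderedCommGroupWithZero Δ] (w : Valuation K Δ),
      (∀ a : k, w (algebraMap k K a) ≤ 1) → w u < 1 → w u' < 1 →
      w g = 1 := fun _ _ w hw a1 a2 => by
    have b : ∀ (t : K) (a : k), w t < 1 → w (t * algebraMap k K a) ≤ 1 := fun t a h => by
      rw [map_mul]
      exact mul_le_one' h.le (hw a)
    rw [hg']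
    refine w.map_one_add_of_lt (w.map_add_lt ?_ ?_)
    · rw [map_mul]
      exact mul_lt_one_of_lt_of_le a1 (w.map_add_le (hw _) (b _ _ a1))
    · rw [map_mul]
      exact mul_lt_one_of_lt_of_le a2 (w.map_add_le (w.map_add_le (hw _) (b _ _ a1)) (b _ _ a2))
  have lt1 : ∀ (Δ : Type) [LinearOrderedCommGroupWithZero Δ] (w : Valuation K Δ),
      (∀ a : k, w (algebraMap k K a) ≤ 1) → ds w x P < 1 →
      w u < 1 ∧ w u' < 1 := fun _ _ w hw h => max_lt_iff.1 ((co _ w hw h).2 ▸ h)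
  have g0 : g ≠ 0 := v.ne_zero_iff.1 (wg _ v hv (lt1 _ v hv hd).1 (lt1 _ v hv hd).2 ▸ one_ne_zero)
  obtain ⟨t, ht⟩ : ∃ t, t = -(u * (algebraMap k K A + u * algebraMap k K B)) * g⁻¹ := ⟨_, rfl⟩
  have e4 : u' = u * t := by
    rw [ht, ← mul_assoc, eq_mul_inv_iff_mul_eq₀ g0, e3, mul_neg]
  have u0 : u ≠ 0 := fun h => ds_ne (v := v) hx (by
    rw [hds, e4, h, zero_mul, map_zero, max_self])
  set T := Algebra.adjoin k ({u, u', g⁻¹} : Set K) with hT
  have t1 : u ∈ T := Algebra.subset_adjoin (by simp)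
  have t2 : u' ∈ T := Algebra.subset_adjoin (by simp)
  have t3 : g⁻¹ ∈ T := Algebra.subset_adjoin (by simp)
  have ta := T.algebraMap_mem
  have t4 : t ∈ T := ht ▸ T.mul_mem (T.neg_mem (T.mul_mem t1 (T.add_mem (ta A)
    (T.mul_mem t1 (ta B))))) t3
  have wT : ∀ (Δ : Type) [LinearOrderedCommGroupWithZero Δ] (w : Valuation K Δ),
      (∀ a : k, w (algebraMap k K a) ≤ 1) → ds w x P < 1 →
      ∀ s ∈ T, w s ≤ 1 := fun _ _ w hw h s hs => by
    obtain ⟨a1, a2⟩ := lt1 _ w hw h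
    induction hs using Algebra.adjoin_induction with
    | mem s hs =>
      rcases hs with rfl | rfl | rfl
      · exact a1.le
      · exact a2.le
      · rw [map_inv₀, wg _ w hw a1 a2, inv_one]
    | algebraMap a => exact hw a
    | add a b _ _ h1 h2 => exact w.map_add_le h1 h2
    | mul a b _ _ h1 h2 =>
      rw [map_mul]
      exact mul_le_one' h1 h2
  have hb : ∀ s ∈ T, ∃ a : k, ∃ y ∈ T, s = algebraMap k K a + u * y := fun s hs => by
    induction hs using Algebra.adjoin_induction with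
    | mem s hs =>
      rcases hs with h | h | h
      · exact ⟨0, 1, T.one_mem, by rw [h, map_zero, zero_add, mul_one]⟩
      · exact ⟨0, t, t4, by rw [h, map_zero, zero_add, e4]⟩
      · refine ⟨1, -((algebraMap k K C + u * algebraMap k K D) + t * (algebraMap k K E +
          u * algebraMap k K H + u' * algebraMap k K L)) * g⁻¹, T.mul_mem (T.neg_mem (T.add_mem
          (T.add_mem (ta C) (T.mul_mem t1 (ta D))) (T.mul_mem t4 (T.add_mem (T.add_mem (ta E)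
          (T.mul_mem t1 (ta H))) (T.mul_mem t2 (ta L)))))) t3, ?_⟩
        have h' : s = g⁻¹ := h
        have e5 : g * g⁻¹ = 1 := mul_inv_cancel₀ g0
        rw [h', map_one]
        linear_combination -g⁻¹ * hg' + e5 - g⁻¹ * (algebraMap k K E +
          u * algebraMap k K H + u' * algebraMap k K L) * e4
    | algebraMap a => exact ⟨a, 0, T.zero_mem, by rw [mul_zero, add_zero]⟩
    | add a b _ _ h1 h2 =>
      obtain ⟨a1, b1, c1, rfl⟩ := h1
      obtain ⟨a2, b2, c2, rfl⟩ := h2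
      exact ⟨a1 + a2, b1 + b2, T.add_mem c1 c2, by rw [map_add]; ring⟩
    | mul a b _ _ h1 h2 =>
      obtain ⟨a1, b1, c1, rfl⟩ := h1
      obtain ⟨a2, b2, c2, rfl⟩ := h2
      exact ⟨a1 * a2, algebraMap k K a1 * b2 + algebraMap k K a2 * b1 + u * (b1 * b2),
        T.add_mem (T.add_mem (T.mul_mem (ta a1) c2) (T.mul_mem (ta a2) c1))
          (T.mul_mem t1 (T.mul_mem c1 c2)), by rw [map_mul]; ring⟩
  have tF : ∀ q ∈ F, q ∈ T := by
    rintro _ ⟨a, rfl⟩
    exact ta a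
  have q1 : ∀ i, P i + u * y i + u' * z i ∈ T := fun i => T.add_mem (T.add_mem (tF _ (hP i))
    (T.mul_mem t1 (tF _ (y1 i)))) (T.mul_mem t2 (tF _ (z1 i)))
  have q2 : ∀ i, x i = X * (P i + u * y i + u' * z i) := fun i => by
    have := congrFun e1 i
    simpa only [one_smul, Pi.smul_apply, Pi.add_apply, smul_eq_mul] using this
  have q3 : IntermediateField.adjoin k (Set.range x) ≤
      IntermediateField.adjoin k ({u, u', g⁻¹} : Set K) := by
    rw [IntermediateField.adjoin_le_iff]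
    rintro _ ⟨i, rfl⟩
    refine IntermediateField.mem_adjoin_iff_div.2 ⟨_, q1 i, _, q1 0, ?_⟩
    rw [← mul_div_mul_left _ _ X0, ← q2, ← q2, x0, _root_.div_one]
  obtain ⟨r, hr, s, hs, rfl⟩ := IntermediateField.mem_adjoin_iff_div.1 (q3 hs₀)
  exact fin u T u0 hb v (wT _ v hv hd) (lt1 _ v hv hd).1 w₀ (wT _ w₀ hw₀ hd₀)
    (lt1 _ w₀ hw₀ hd₀).1 hr hs

end Pool.Agent.Lib.MV.G2
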