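import Pool.Agent.Lib.MV.G2A

open Set Matrix WithZero Pool.Agent.Lib.MP_e39d36_ag Pool.Agent.Lib.MP_e39d36_ag.Var
  Pool.Agent.Lib.MP_cc3443_ag Pool.Agent.Lib.MV.End Pool.Agent.Lib.MV.Fb

set_option linter.unusedSectionVars false
set_option linter.unusedVariables false

noncomputable section

namespace Pool.Agent.Lib.MV.G2

namespace TRG

variable {K : Type} [Field K] [Algebra ℂ K] {X : Var K} {k : IntermediateField ℂ K}
  {σ : K ≃ₐ[ℂ] K} {e : X.PD ≃ X.PD}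

lemma memO (h : Inv k σ e) (E : X.PD) (z : K) : σ z ∈ X.O E.1 ↔ z ∈ X.O (e.symm E).1 := by
  rw [(isV E).2, (isV (e.symm E)).2, ← h.2 z (e.symm E), e.apply_symm_apply]

lemma key (h : Inv k σ e) {y y' : X.Pt} (hle : X.O y' ≤ cs (X.O y) σ) {D : X.PD →₀ ℤ} {f : K}
    (hf : LocEq D y' f) : LocEq (End.push e D) y (σ f) :=
  .mk' ((map_ne_zero σ).2 hf.1) fun E hE => by
    rw [push_apply, hf.eq (E := e.symm E) fun z hz => (memO h E z).1 (hE (hle hz)),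
      ← h.ps.2 f (e.symm E), e.apply_symm_apply]
    rfl

end TRG

theorem st_trg : St_TRG := by
  intro K _ _ X hc k σ e 𝒜 h hL D
  refine ⟨fun H V hV y f hy hf => ?_, fun H V hV y f hy hf => ?_⟩
  · have e1 : cm (cm V σ⁻¹) σ = V := by rw [cm_cm, inv_mul_cancel, cm_one]
    have hW : cm V σ⁻¹ ∈ 𝒜 := (hL _).1.2 (by rwa [e1])
    have hy' : Cen (cm (cm V σ⁻¹) σ) y := by rwa [e1]
    obtain ⟨y0, h0⟩ := cen_of_cm hy'
    have h1 := H _ hW y0 _ h0 (TRG.key h ((hL _).2 hW y0 y h0 hy') hf)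
    rw [← e1]
    exact mem_cm.2 h1
  · obtain ⟨y', h0⟩ := cen_cm hy σ
    have hg := (hc D).lf y'
    have h1 : σ (lf D y') ∈ V := mem_cm.1 (H _ ((hL V).1.1 hV) y' _ h0 hg)
    have h2 := TRG.key h ((hL V).2 hV y y' hy h0) hg
    have h3 : f / σ (lf D y') ∈ V := hy.1 (hf.un h2).2.1
    have h4 := V.mul_mem _ _ h3 h1
    rwa [div_mul_cancel₀ _ h2.1] at h4

theorem st_pbt : St_PBT := by
  intro K _ _ X hc k σ e γ γ' R h hL hγ hγ' hτ D
  have hO : ∀ z, σ z ∈ X.O γ.c ↔ z ∈ X.O γ'.c := fun z => by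
    rw [hγ.c, hγ'.c]; exact TRG.memO h R z
  refine PB.pb_le hc (f := fun E => σ (lf D (γ'.ctr (plc E)))) (g := σ (lf D γ'.c))
    (fun E => ?_) (TRG.key h (fun z hz => (hO z).2 hz) ((hc D).lf _)) fun E => ?_
  · obtain ⟨V, hV⟩ := exists_cmp hγ.c E
    have h1 : Cen V (γ.ctr (plc E)) := by rw [Cen, hV]; exact γ.dom_ctr _
    have h2 : (cm V σ).toSubring = γ'.T (plc E) := by
      ext z
      rw [cm_toSubring, mem_cs, hV, CMap.mem_T, CMap.mem_T, hO, hτ]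
    have h3 : Cen (cm V σ) (γ'.ctr (plc E)) := by rw [Cen, h2]; exact γ'.dom_ctr _
    exact TRG.key h ((hL V).2 ⟨γ, R, E, hγ, hV⟩ _ _ h1 h3) ((hc D).lf _)
  · rw [pb_apply, hτ, map_div₀]

end Pool.Agent.Lib.MV.G2
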