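import Pool.Agent.Lib.MV.G2A

open Set Matrix WithZero Pool.Agent.Lib.MP_e39d36_ag Pool.Agent.Lib.MP_e39d36_ag.Var
  Pool.Agent.Lib.MP_cc3443_ag Pool.Agent.Lib.MV.End Pool.Agent.Lib.MV.Fb

set_option linter.unusedSectionVars false
set_option linter.unusedVariables false

noncomputable section

namespace Pool.Agent.Lib.MV.G2

namespace UNIQ

variable {K : Type} [Field K] [Algebra ℂ K] {X : Var K} (γ : CMap X K)

/-- The residue field of a subfield. -/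
def res (k : IntermediateField ℂ K) : Subfield K where
  carrier := {u | ∃ t ∈ k, t ∈ X.O γ.c ∧ γ.τ t = u}
  mul_mem' := by
    rintro _ _ ⟨s, h1, h2, rfl⟩ ⟨t, h3, h4, rfl⟩
    exact ⟨s * t, mul_mem h1 h3, mul_mem h2 h4, γ.mul s h2 t h4⟩
  one_mem' := ⟨1, one_mem _, one_mem _, γ.τ_one⟩
  add_mem' := by
    rintro _ _ ⟨s, h1, h2, rfl⟩ ⟨t, h3, h4, rfl⟩
    exact ⟨s + t, add_mem h1 h3, add_mem h2 h4, γ.add s h2 t h4⟩
  zero_mem' := ⟨0, zero_mem _, zero_mem _, γ.hom.map_zero⟩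
  neg_mem' := by
    rintro _ ⟨s, h1, h2, rfl⟩
    exact ⟨-s, neg_mem h1, neg_mem h2, γ.hom.map_neg ⟨s, h2⟩⟩
  inv_mem' := by
    rintro _ ⟨s, h1, h2, rfl⟩
    by_cases h : γ.τ s = 0
    · exact ⟨s, h1, h2, by rw [h, _root_.inv_zero]⟩
    · have h3 := CMap.un_of_ne h2 h
      exact ⟨s⁻¹, inv_mem h1, h3.2.2, CMap.τ_inv' h3⟩

variable {γ}

lemma tau_pol {c : Cf K} {u w : Fin 3 → K} (hc : ∀ i j l, c i j l ∈ X.O γ.c)
    (hu : ∀ i, u i ∈ X.O γ.c) (hw : ∀ i, w i ∈ X.O γ.c) :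
    γ.τ (pol c u w) = pol (cmap γ.τ c) (γ.τ ∘ u) (γ.τ ∘ w) := by
  have h1 := map_pol (c := fun i j l => (⟨c i j l, hc i j l⟩ : X.O γ.c))
    (x := fun i => ⟨u i, hu i⟩) (y := fun i => ⟨w i, hw i⟩) γ.hom
  have h2 := map_pol (c := fun i j l => (⟨c i j l, hc i j l⟩ : X.O γ.c))
    (x := fun i => ⟨u i, hu i⟩) (y := fun i => ⟨w i, hw i⟩) (X.O γ.c).subtype
  have h3 : pol c u w = (X.O γ.c).subtype (pol (fun i j l => (⟨c i j l, hc i j l⟩ : X.O γ.c))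
      (fun i => ⟨u i, hu i⟩) fun i => ⟨w i, hw i⟩) := h2.symm
  rw [h3]
  exact h1

lemma tau_cub {c : Cf K} {u : Fin 3 → K} (hc : ∀ i j l, c i j l ∈ X.O γ.c)
    (hu : ∀ i, u i ∈ X.O γ.c) : γ.τ (cub c u) = cub (cmap γ.τ c) (γ.τ ∘ u) := by
  have h1 := map_cub (c := fun i j l => (⟨c i j l, hc i j l⟩ : X.O γ.c))
    (x := fun i => ⟨u i, hu i⟩) γ.hom
  have h2 := map_cub (c := fun i j l => (⟨c i j l, hc i j l⟩ : X.O γ.c))
    (x := fun i => ⟨u i, hu i⟩) (X.O γ.c).subtype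
  have h3 : cub c u = (X.O γ.c).subtype (cub (fun i j l => (⟨c i j l, hc i j l⟩ : X.O γ.c))
      fun i => ⟨u i, hu i⟩) := h2.symm
  rw [h3]
  exact h1

end UNIQ

open UNIQ in
theorem st_uniq (hS : St_SEC1) : St_UNIQ := by
  intro K _ _ X J F L γ R S V a hT hγ hV h1 h2 hd1 hd2
  have hc := hγ.c
  have fx : ∀ z ∈ L, z ∈ X.O γ.c := fun z hz => hc ▸ (hγ.fix z hz).1
  have im : ∀ z ∈ X.O γ.c, γ.τ z ∈ L := fun z hz => hγ.im z (hc ▸ hz)
  have key : ∀ z ∈ X.O γ.c, z - γ.τ z ∈ V := fun z hz => by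
    have h3 := fx _ (im z hz)
    have h4 : γ.τ (z - γ.τ z) = 0 := by
      have := γ.hom.map_sub ⟨z, hz⟩ ⟨_, h3⟩
      exact this.trans (sub_eq_zero.2 (hγ.fix _ (im z hz)).2.symm)
    refine (V.mem_or_inv_mem _).elim id fun h5 => of_not_not fun h6 => ?_
    exact CMap.τ_ne (a := z - γ.τ z) ⟨fun h => h6 (by rw [h]; exact zero_mem _), sub_mem hz h3,
      hc ▸ hV h5⟩ h4
  have iffV : ∀ z ∈ X.O γ.c, (z ∈ V ↔ γ.τ z ∈ V) := fun z hz =>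
    ⟨fun h => by simpa using sub_mem h (key z hz), fun h => by simpa using add_mem (key z hz) h⟩
  obtain ⟨g, B, hB⟩ := F.loc R
  have cO : ∀ i j l, (g⁻¹ • F.c) i j l ∈ X.O γ.c := fun i j l => hc ▸ hB.BO (hB.cB i j l)
  have tx : γ.τ ∘ F.x = F.x := funext fun i => (hγ.fix _ (hT.x i)).2
  have tP : γ.τ ∘ F.P a = F.P a := funext fun i => γ.const _
  have PO : ∀ i, F.P a i ∈ X.O γ.c := fun i => X.const_mem _ _
  have t0 : γ.τ 0 = 0 := γ.hom.map_zero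
  have hg : grad (cmap γ.τ (g⁻¹ • F.c)) (F.P a) ≠ 0 := fun h => by
    obtain ⟨l, hl⟩ := exists_nm (v := val R) (grad (g⁻¹ • F.c) (F.P a))
    rw [hB.ns a] at hl
    have h3 : Un (X.O γ.c) (grad (g⁻¹ • F.c) (F.P a) l) :=
      hc ▸ (isV R).un_iff.2 ⟨fun h0 => by simp [h0] at hl, by simp [od, ← hl]⟩
    refine CMap.τ_ne h3 ?_
    have h4 : γ.τ ∘ (Pi.single l 1 : Fin 3 → K) = Pi.single l 1 := funext fun j => by
      rw [Function.comp_apply, Pi.single_apply]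
      split_ifs
      exacts [γ.τ_one, t0]
    rw [grad, tau_pol cO PO (single_mem l), tP, h4]
    exact congrFun h l
  have main := hS (res γ F.k) K _ (cmap γ.τ (g⁻¹ • F.c)) F.x (F.P a)
    (fun i j l => ⟨⟨_, _, hB.Bk _ (hB.cB i j l), cO i j l, rfl⟩, rfl⟩) F.x0
    (by rw [← tx, ← tau_cub cO fun i => fx _ (hT.x i), cub_csmul, F.cx, mul_zero, t0])
    (fun i => ⟨⟨_, _, F.P_mem a i, PO i, congrFun tP i⟩, rfl⟩)
    (by rw [← tP, ← tau_cub cO PO, cub_csmul, F.cp a, mul_zero, t0]) hg (F.cross_P_ne a)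
    (val S) V.valuation (by
      rintro ⟨_, t, h3, h4, rfl⟩
      exact ((isV S).2 _).1 (h2 t h3 (hc ▸ h4))) (by
      rintro ⟨_, t, h3, h4, rfl⟩
      exact (V.valuation_le_one_iff _).2 ((iffV t h4).1 (h1 t h3 (hc ▸ h4)))) hd2 hd1
  have hL : ∀ z ∈ L, (z ∈ V ↔ z ∈ X.O S.1) := fun z hz => by
    rw [← V.valuation_le_one_iff, (isV S).2]
    refine main z (hT.gen (IntermediateField.adjoin (res γ F.k) (range F.x)).toSubfield
      (fun t h3 h4 => ?_) (fun l => IntermediateField.subset_adjoin _ _ ⟨l, rfl⟩) z hz)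
    exact (IntermediateField.adjoin (res γ F.k) (range F.x)).algebraMap_mem
      ⟨t, t, h3, fx t h4, (hγ.fix t h4).2⟩
  ext z
  rw [CMap.mem_T]
  exact ⟨fun h => ⟨hc ▸ hV h, (hL _ (im z (hc ▸ hV h))).1 ((iffV z (hc ▸ hV h)).1 h)⟩,
    fun h => (iffV z h.1).2 ((hL _ (im z h.1)).2 h.2)⟩

end Pool.Agent.Lib.MV.G2
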