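import Pool.Agent.Lib.MV.G2B
import Pool.Agent.Lib.MV.L2_GRP

open Set Submodule Pool.Agent.Lib.MP_e39d36_ag Pool.Agent.Lib.MP_e39d36_ag.Var
  Pool.Agent.Lib.MP_cc3443_ag Pool.Agent.Lib.MV.End Pool.Agent.Lib.MV.Fb Pool.Agent.Lib.MV.Lat
open scoped NNReal

set_option linter.unusedSectionVars false
set_option linter.unusedVariables false
set_option linter.style.haveILetI false

noncomputable section

namespace Pool.Agent.Lib.MV.G2

namespace ZAR

lemma sub_all {P α : Type} {𝒟 : Set (P →₀ ℤ)} {R : P} (U : α → (P →₀ ℤ) → Prop)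
    (lam : (P →₀ ℤ) →+ ℝ) (L : List α) (hsub : ∀ w ∈ L, ∀ D ∈ 𝒟, D R = 0 → ∃ S, 0 ≤ S ∧ S R = 0 ∧
      0 ≤ lam S ∧ D - S ∈ 𝒟 ∧ U w (D - S))
    (keep : ∀ w ∈ L, ∀ D ∈ 𝒟, ∀ S, 0 ≤ S → U w (D + S) → U w D) :
    ∀ D ∈ 𝒟, D R = 0 → ∃ D₀ ∈ 𝒟, D₀ R = 0 ∧ (∀ w ∈ L, U w D₀) ∧ lam D₀ ≤ lam D := by
  intro D h1 h2
  induction L with
  | nil => exact ⟨D, h1, h2, by simp, le_rfl⟩
  | cons w L ih =>
    obtain ⟨D₁, a1, a2, a3, a4⟩ := ih (fun w h => hsub w (List.mem_cons_of_mem _ h))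
      fun w h => keep w (List.mem_cons_of_mem _ h)
    obtain ⟨S, b1, b2, b3, b4, b5⟩ := hsub w List.mem_cons_self D₁ a1 a2
    refine ⟨_, b4, by simp [a2, b2], fun w' h => ?_, by rw [map_sub]; linarith⟩
    rcases List.mem_cons.1 h with rfl | h
    · exact b5
    · exact keep w' (List.mem_cons_of_mem _ h) _ b4 S b1 (by rw [sub_add_cancel]; exact a3 w' h)

section lat

variable {ι : Type} [Fintype ι] [DecidableEq ι] {n r : ι → ℕ} {i j : ι}

lemma lam_nonneg {e : F (r j)} {L : List (F (r i))} {x : V r}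
    (h : ∀ w ∈ L, 0 ≤ dot e (Bf n i w x j)) : 0 ≤ lam n i j e L x := by
  induction L with
  | nil => exact le_rfl
  | cons w L ih =>
    rw [lam_cons]
    exact add_nonneg (h w List.mem_cons_self) (ih fun w hw => h w (List.mem_cons_of_mem _ hw))

lemma sub_k {w : F (r i)} (hk : dot w (kk 2 (r i)) = 1) (a : Fin (r i)) :
    dot (ee a - w) (kk 2 (r i)) = 0 := by
  rw [map_sub, LinearMap.sub_apply, dot_ek, hk, sub_self]

lemma of_tau {w : F (r i)} (hk : dot w (kk 2 (r i)) = 1) {a : Fin (r i)} {x : V r}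
    (h : tau n i (ee a - w) x = sl i (ee a)) : x = vh n i w := by
  rw [← Grp.vh_eq w a, ← h, ← Module.End.mul_apply, Grp.tau_tau (sub_k hk a), sub_add_sub_cancel,
    sub_self, Grp.tau_zero, Module.End.one_apply]

lemma vh_line {e : F (r j)} (he : Line e) : vh n j e = sl j e := by simp [vh, he.2.1]

lemma bf_line {e : F (r j)} (he : Line e) (h : j ≠ i) (x : V r) :
    Bf n j e x i = x i + dot e (x j) • kk (n i) (r i) := by
  rw [Bf, mv_ne h.symm, he.2.1]; simp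

lemma bb {e : F (r j)} (he : Line e) (h : j ≠ i) (hi : n i = 2) (hj : n j = 2) (h7 : r j ≤ 7)
    {a : Fin (r i)} {u : V r} (h0 : 0 ≤ dot (Bf n i (ee a) (Bf n j e u) j) (kk 2 (r j))) :
    0 ≤ dot e (Bf n i (ee a) u j) := by
  have h1 : Bf n j e u j = 0 := by rw [Bf, mv_self]; rfl
  have h2 : (0 : ℝ) < dot (kk 2 (r j)) (kk 2 (r j)) := by
    have : (r j : ℝ) ≤ 7 := by exact_mod_cast h7
    rw [dot_kk]; push_cast; linarith
  rw [bf_line (line_ee a) h.symm, bf_line he h, h1, zero_add, hi, hj, map_smul,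
    LinearMap.smul_apply, map_add, map_smul, dot_ek, smul_eq_mul, smul_eq_mul, mul_one] at h0
  rw [bf_line (line_ee a) h.symm, hj, map_add, map_smul, he.2.2, smul_eq_mul, mul_one, add_comm]
  exact nonneg_of_mul_nonneg_left h0 h2

end lat

variable {D : Dat} {K : Type} [Field K] [Algebra ℂ K] {M : D.Mod K}
  {R₀ : (i : Fin D.k) → Fin (D.r i) → M.X.PD} (I : Inp M.Γ M.sm.fac D.n M.st R₀)

/-- Coordinates of the class of a divisor. -/
def κ : Dv M.X →+ V D.r := I.Φ.symm.toLinearMap.toAddMonoidHom.comp (nc M.Γ M.sm.fac)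

lemma nc_κ (W : Dv M.X) : nc M.Γ M.sm.fac W = cl M.Γ M.sm.fac M.st (κ I W) :=
  (I.Φ.apply_symm_apply _).symm

variable {I}

lemma κ_eq {W : Dv M.X} {x : V D.r} (h : nc M.Γ M.sm.fac W = cl M.Γ M.sm.fac M.st x) :
    κ I W = x := I.Φ.symm_apply_eq.2 h

lemma κ_le {W W' : Dv M.X} (h : LE W W') : κ I W = κ I W' :=
  κ_eq ((h.nc_eq _ _).trans (nc_κ I W'))

lemma κ_push {k : IntermediateField ℂ K} {σ : K ≃ₐ[ℂ] K} {e : M.X.PD ≃ M.X.PD}
    {T : Module.End ℝ (V D.r)} (h : Inv k σ e) (h' : RGc M.st T e) (W : Dv M.X) :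
    κ I (push e W) = T (κ I W) := κ_eq (I.nc_push h.ps h' W)

lemma κ_eff {W : Dv M.X} (h : 0 ≤ W) : κ I W ∈ I.cm (M.Γ.cone {D | 0 ≤ D.1}) :=
  I.eff_of (nc_κ I W) h

lemma push_single (e : M.X.PD ≃ M.X.PD) (E : M.X.PD) :
    push e (Finsupp.single E (1 : ℤ)) = Finsupp.single (e E) 1 :=
  Finsupp.equivMapDomain_single e E 1

lemma one_le (E : M.X.PD) : 0 ≤ Finsupp.single E (1 : ℤ) := Finsupp.single_nonneg.2 zero_le_one

/-- A rational section with its class and the class of the pull-back. -/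
structure Se (I : Inp M.Γ M.sm.fac D.n M.st R₀) (i : Fin D.k) (w : F (D.r i)) (γ : CMap M.X K)
    (S : M.X.PD) : Prop where
  sc : Sc (kI D M.x i) γ S
  cls : κ I (Finsupp.single S 1) = sl i w
  pb : ∀ W, κ I (pb γ M.sm.fac W) = Bf D.n i w (κ I W)

lemma Se.pb0 {i : Fin D.k} {w : F (D.r i)} {γ : CMap M.X K} {S : M.X.PD} (h : Se I i w γ S)
    {W : Dv M.X} (h0 : W S = 0)
    (h1 : ∀ (E : M.X.PD) V, V.toSubring = γ.T (plc E) → Rg W V) :
    ∃ Δ, 0 ≤ Δ ∧ κ I Δ = Bf D.n i w (κ I W) ∧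
      (∀ E V, V.toSubring = γ.T (plc E) → Uv W V → Δ E = 0) ∧
      ∀ E : M.X.PD, (kI D M.x i).toSubring ≤ M.X.O E.1 → Δ E = 0 := by
  obtain ⟨Δ, a1, a2⟩ := G2.pb0 M.sm.fac h.sc.c h0
  have hc : ∀ {E : M.X.PD} {V : ValuationSubring K}, V.toSubring = γ.T (plc E) →
      Cen V (γ.ctr (plc E)) := fun hV => by rw [Cen, hV]; exact γ.dom_ctr _
  refine ⟨Δ, fun E => ?_, (κ_le a1).symm.trans (h.pb W), fun E V hV hU => ?_, fun E hE => ?_⟩
  · obtain ⟨V, hV⟩ := exists_cmp h.sc.c E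
    have : lf W _ ∈ V.toSubring := h1 E V hV _ _ (hc hV) ((M.sm.fac W).lf _)
    rw [hV] at this
    exact (a2 E).1 ▸ ord_nonneg (CMap.mem_T.1 this).2
  · have := hU _ _ (hc hV) ((M.sm.fac W).lf _)
    rw [hV] at this
    exact (a2 E).1.trans (ord_un (CMap.un_T.1 this).2)
  · rw [(a2 E).1, ord_log, val_hor hE (h.sc.im _ (h.sc.c ▸ (a2 E).2.2.1)) (CMap.τ_ne (a2 E).2)]
    rfl

section main

variable (hS : St_SEC2) (hN : St_NCPB) (h1 : N1 M) (h2 : N2 M)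
include hS hN h1 h2

lemma se_const {i : Fin D.k} {F : Fib M.X (Fin (D.r i))} (hF : IsF M i F) (a : Fin (D.r i)) :
    ∃ γ S, Se I i (ee a) γ S ∧ F.e a = Finsupp.single S 1 := by
  have h3 : κ I (F.e a) = sl i (ee a) := hF.e a ▸ I.symm_rg (rg_E i a)
  obtain ⟨S, γ, a1, a2⟩ := hS K M.X _ F a fun h => by
    rw [h, map_zero] at h3
    simpa [sl_self, ee, hh] using congrFun (congrFun h3 i) none
  exact ⟨γ, S, ⟨hF.k ▸ a2, a1 ▸ h3, fun W =>
    κ_eq (hN D K M h1 h2 i F hF a S γ a1 a2 W _ (nc_κ I W))⟩, a1⟩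

lemma se_line (hG : St_GLM) (hC : St_LIC) (hT : St_TW) (hP : St_PBT) {j : Fin D.k}
    {F : Fib M.X (Fin (D.r j))} (hF : IsF M j F) (hL : Lc F) (hj : 0 < D.r j) {e : Lat.F (D.r j)}
    (he : Line e) : ∃ γ R, Se I j e γ R := by
  obtain ⟨γ, S, a1, -⟩ := se_const (I := I) hS hN h1 h2 hF ⟨0, hj⟩
  obtain ⟨σ, ε, b1, b2, b3⟩ := hG D K M j F hF hL hj (Cmp M.X F.k)
    (fun σ ε _ p1 p2 p3 _ => hC K M.X _ F σ ε p1 p2 p3) _ ((isZ_ee ⟨0, hj⟩).sub he.1)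
    (sub_k he.2.2 _)
  rw [hF.k] at b1 b2
  obtain ⟨γ', c1, c2⟩ := hT K M.X _ σ ε γ S b1 a1.sc
  refine ⟨γ', _, c1, ?_, fun W => ?_⟩
  · rw [← vh_line (n := D.n) he]
    refine of_tau (a := ⟨0, hj⟩) he.2.2 ?_
    rw [← κ_push b1 b3, push_single, ε.apply_symm_apply, a1.cls]
  · rw [← κ_le (hP K M.X M.sm.fac _ σ ε γ γ' S b1 b2 a1.sc c1 c2 W), a1.pb, κ_push b1 b3,
      ← Module.End.mul_apply, Grp.bf_eq]

end main

end ZAR

open ZAR in
theorem st_nef (hX : St_FIBX) (hS : St_SEC2) (hN : St_NCPB) (hG : St_GLM) (hC : St_LIC)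
    (hA : St_LIA) (hT : St_TW) (hP : St_PBT) (hR : St_TRG) (hD : St_ADM) (hH : St_CHAIN)
    (hZ : St_STEP) (hL : St_LPOS7) (hM : St_MKE) : St_NEF := by
  intro D K _ _ M h1 h2 g2 ok R₀ I i j hij hb e he L hL1 hL2
  have hi : 0 < D.r i := by rcases hb with h | h | h <;> omega
  have hj : 0 < D.r j := Nat.pos_of_ne_zero fun h => (hM.2.1 _ h).2.2 e he
  have lp : ∀ m, 0 < D.r m → ∀ W : Dv M.X, 0 ≤ W → 0 ≤ dot (κ I W m) (kk 2 (D.r m)) :=
    fun m hm W hW => (hL _ _ _ (I.geo7 ok.n2 M.Q) ok).2 m hm _ (subset_closure (κ_eff hW))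
  obtain ⟨F, f1, f2, f3, f4⟩ := hX D K M i hi.ne'
  obtain ⟨F', g1, g3, -⟩ := hX D K M j hj.ne'
  obtain ⟨γ, R, sR⟩ := se_line (I := I) hS hN h1 h2 hG hC hT hP g1 g3 hj he
  obtain ⟨γ₁, S, sS, eS⟩ := se_const (I := I) hS hN h1 h2 f1 ⟨0, hi⟩
  have rig : ∀ W : Dv M.X, 0 ≤ W → κ I W = sl j e → W R ≠ 0 := fun W a1 a2 a3 => by
    obtain ⟨Δ, b1, b2, -⟩ := sR.pb0 a3 fun _ V _ => rg_of_nonneg a1 V
    have b3 := lp i hi Δ b1
    have b4 : (D.r i : ℝ) ≤ 7 := by exact_mod_cast ok.r7 i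
    rw [b2, a2, bf_line he hij, sl_ne hij.symm, sl_self, he.2.1, zero_add, ok.n2 i hi, map_smul,
      LinearMap.smul_apply, dot_kk, smul_eq_mul] at b3
    push_cast at b3
    linarith
  have fix : ∀ {σ ε T}, Inv F.k σ ε → RGc M.st T ε → T (sl j e) = sl j e → ε R = R :=
    fun p1 p2 p3 => by
      have := rig _ (one_le _) (by rw [← push_single, κ_push p1 p2, sR.cls, p3])
      exact (Finsupp.single_apply_ne_zero.1 this).1.symm
  have hRS : R ≠ S := fun h => by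
    have := congrFun (sR.cls.symm.trans (h ▸ sS.cls)) j
    rw [sl_self, sl_ne hij] at this
    simpa [this] using he.2.1
  have vert : ¬F.k.toSubring ≤ M.X.O R.1 := fun h => by
    obtain ⟨Δ, b1, b2, -, b3⟩ := sS.pb0 (W := Finsupp.single R 1)
      (Finsupp.single_eq_of_ne hRS.symm) fun _ V _ => rg_of_nonneg (one_le R) V
    exact rig Δ b1 (by rw [b2, sR.cls, Bf, mv_of_zero (sl_ne hij.symm _)]) (b3 R (f1.k ▸ h))
  have gd : ∀ V ∈ Adm R, GdV F V := by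
    rintro V ⟨a1, y, a2, a3⟩
    refine f4 V y a2 (g2 i j hij hb hj.ne' R.1 R.2 (fun z hz => (sR.sc.fix z hz).1)
      (fun a ha => ⟨γ.τ a, sR.sc.im a ha, fun hu => ?_⟩) (f1.k ▸ vert :) y (a2.1.trans a1)
      (hH K M.X y R a3) V a2)
    obtain ⟨b1, b2⟩ := sR.sc.fix _ (sR.sc.im a ha)
    rw [← sR.sc.c] at hu ha b1
    exact CMap.τ_ne hu ((γ.hom.map_sub ⟨a, ha⟩ ⟨_, b1⟩).trans (sub_eq_zero.2 b2.symm))
  have adm : ∀ E (V : ValuationSubring K), V.toSubring = γ.T (plc E) → V ∈ Adm R :=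
    fun E V => hD K M.X _ F' γ R E V (g1.k ▸ sR.sc)
  obtain ⟨V₁, hV₁⟩ := exists_cmp sR.sc.c S
  have hw : ∀ w, ∃ σ ε, w ∈ L → Inv F.k σ ε ∧ Li M.X (Adm R) σ ∧
      RGc M.st (tau D.n i (ee ⟨0, hi⟩ - w)) ε := fun w => by
    by_cases h : w ∈ L
    · obtain ⟨σ, ε, p⟩ := hG D K M i F f1 f2 hi (Adm R) (fun σ ε _ p1 p2 p3 p4 =>
        hA K M.X _ F σ ε R p1 p2 p3 (fix p1 p4 (mv_of_zero (sl_ne hij.symm _))) gd) _
        ((isZ_ee ⟨0, hi⟩).sub (hL1 w h).1) (sub_k (hL1 w h).2 _)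
      exact ⟨σ, ε, fun _ => p⟩
    · exact ⟨1, Equiv.refl _, fun h' => absurd h' h⟩
  choose σ ε hw using hw
  have tr := fun w h => hR K M.X M.sm.fac _ (σ w) (ε w) _ (hw w h).1 (hw w h).2.1
  have fx : ∀ w ∈ L, ∀ W : Dv M.X, push (ε w) W R = W R := fun w h W => by
    rw [push_apply, (ε w).symm_apply_eq.2
      (fix (hw w h).1 (hw w h).2.2 (mv_of_zero (sl_ne hij.symm _))).symm]
  have key : ∀ W : Dv M.X, 0 ≤ W → W R = 0 → 0 ≤ lam D.n i j e L (κ I W) := fun W a1 a2 => by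
    obtain ⟨W₀, b1, b2, b3, b4⟩ := sub_all (𝒟 := {W | ∀ V ∈ Adm R, Rg W V}) (R := R)
      (fun w W => Uv (push (ε w) W) V₁) ((lam D.n i j e L).toAddMonoidHom.comp (κ I)) L
      (fun w h W c1 c2 => by
        obtain ⟨m, d1, d2⟩ := hZ K M.X M.sm.fac _ F _ γ R S V₁ _ f2 (f3 j hij) sR.sc vert gd hV₁
          (adm S V₁ hV₁) eS _ ((tr w h W).2 c1) ((fx w h W).trans c2)
        have d3 : push (ε w) (Finsupp.single ((ε w).symm S) 1) = Finsupp.single S 1 := by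
          rw [push_single, Equiv.apply_symm_apply]
        have d4 : κ I (Finsupp.single ((ε w).symm S) 1) = vh D.n i w := of_tau (hL1 w h).2 (by
          rw [← κ_push (hw w h).1 (hw w h).2.2, d3, sS.cls])
        rw [← d3, ← map_nsmul, ← map_sub] at d1 d2
        refine ⟨_, nsmul_nonneg (one_le _) m, ?_, ?_, (tr w h _).1 d1, d2⟩
        · rw [← fx w h, map_nsmul, d3, Finsupp.smul_apply, Finsupp.single_eq_of_ne hRS, smul_zero]
        · rw [map_nsmul]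
          exact nsmul_nonneg (d4 ▸ hL2 w h :) m)
      (fun w h W c1 T c2 c3 => uv_keep M.sm.fac ((tr w h W).2 c1 V₁ (adm S V₁ hV₁))
        (S := push (ε w) T) (fun E => c2 _) (by rwa [map_add] at c3))
      W (fun V _ => rg_of_nonneg a1 V) a2
    refine (lam_nonneg fun w h => ?_).trans b4
    obtain ⟨Δ, c1, c2, c3, -⟩ := sR.pb0 ((fx w h W₀).trans b2)
      fun E V hV => (tr w h W₀).2 b1 V (adm E V hV)
    obtain ⟨Δ', d1, d2, -⟩ := sS.pb0 (c3 S V₁ hV₁ (b3 w h)) fun _ V _ => rg_of_nonneg c1 V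
    have d3 := lp j hj Δ' d1
    rw [d2, c2, κ_push (hw w h).1 (hw w h).2.2] at d3
    have d4 := bb he hij (ok.n2 i hi) (ok.n2 j hj) (ok.r7 j) d3
    rwa [← Module.End.mul_apply, Grp.bf_eq] at d4
  haveI := I.fd
  refine ⟨fun x hx => ?_, fun x hx => ?_⟩
  · refine closure_minimal (fun y hy => ?_) (isClosed_le continuous_const
      (lam D.n i j e L).continuous_of_finiteDimensional)
      ((I.cl_cm (C := M.Γ.cone {W | Mov W.1})).2 hx)
    refine CG.nonneg_of_mem_span LinearMap.id (fun _ h => h) (I.map_cone (lam D.n i j e L)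
      (C := span ℝ≥0 (Ici (0 : ℝ))) (fun W hW => subset_span ?_) hy)
    obtain ⟨f, a1, a2, a3⟩ := hW R
    have := key (W.1 + M.X.div f) a2 a3
    rwa [κ_le ⟨f, a1, rfl⟩] at this
  · let C : Submodule ℝ≥0 (V D.r) :=
      { carrier := {x | ∃ m : ℝ, x - m • sl j e ∈ (I.geo7 ok.n2 M.Q).Eff ∧
          0 ≤ lam D.n i j e L (x - m • sl j e)}
        zero_mem' := ⟨0, by simp⟩
        add_mem' := by
          rintro x y ⟨m, a1, a2⟩ ⟨m', a3, a4⟩
          refine ⟨m + m', ?_⟩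
          rw [add_smul, add_sub_add_comm, map_add]
          exact ⟨add_mem a1 a3, add_nonneg a2 a4⟩
        smul_mem' := by
          rintro c x ⟨m, a1, a2⟩
          refine ⟨c * m, ?_⟩
          rw [NNReal.smul_def, mul_smul, ← smul_sub, map_smul]
          exact ⟨CG.smul_mem' c.2 a1, mul_nonneg c.2 a2⟩ }
    refine I.map_cone LinearMap.id (C := C) (fun W hW => ⟨W.1 R, ?_⟩) hx
    have a1 : 0 ≤ W.1.erase R := fun E => by
      classical
      rw [Finsupp.erase_apply]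
      split_ifs
      exacts [le_rfl, hW E]
    have a2 : κ I (W.1.erase R) = κ I W.1 - (W.1 R : ℝ) • sl j e := by
      rw [eq_sub_iff_add_eq, ← sR.cls, Int.cast_smul_eq_zsmul, ← map_zsmul, ← map_add,
        Finsupp.smul_single_one, Finsupp.erase_add_single]
    have a3 := key _ a1 Finsupp.erase_same
    have a4 := κ_eff (I := I) a1
    rw [a2] at a3 a4
    exact ⟨a4, a3⟩

end Pool.Agent.Lib.MV.G2
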