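import Pool.Agent.Lib.MV.LatBlue

open Set Submodule
open scoped NNReal

noncomputable section

namespace Pool.Agent.Lib.MV.Lat

namespace CellP

variable {r : ℕ} {H : F r} {e : Fin r → F r}

lemma smul_mem_nn (C : Submodule ℝ≥0 (F r)) {c : ℝ} (hc : 0 ≤ c) {v : F r} (hv : v ∈ C) :
    c • v ∈ C := C.smul_mem (⟨c, hc⟩ : ℝ≥0) hv

/-- The reflection in a root. -/
def rf (α : F r) : F r →ₗ[ℝ] F r := LinearMap.id + (dot α).smulRight α

lemma rf_apply (α y : F r) : rf α y = y + dot α y • α := rfl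

lemma rf_adj (α y z : F r) : dot (rf α y) z = dot y (rf α z) := by
  simp only [rf_apply, map_add, map_smul, LinearMap.add_apply, LinearMap.smul_apply, smul_eq_mul,
    dot_comm y α]
  ring

lemma rf_rf {α : F r} (h : dot α α = -2) (y : F r) : rf α (rf α y) = y := by
  rw [rf_apply, rf_apply, map_add, map_smul, h, add_assoc, ← add_smul, smul_eq_mul,
    show dot α y + (dot α y + dot α y * -2) = 0 by ring, zero_smul, add_zero]

lemma rf_iso {α : F r} (h : dot α α = -2) (y z : F r) : dot (rf α y) (rf α z) = dot y z := by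
  rw [rf_adj, rf_rf h]

lemma rf_mk (h : IsMk H e) {α : F r} (hz : IsZ α) (h2 : dot α α = -2)
    (hk : dot α (kk 2 r) = 0) : IsMk (rf α H) fun a => rf α (e a) where
  zH := h.zH.add (hz.smul (hz.dot h.zH))
  ze a := (h.ze a).add (hz.smul (hz.dot (h.ze a)))
  HH := by rw [rf_iso h2, h.HH]
  He a := by rw [rf_iso h2, h.He]
  ee a b := by rw [rf_iso h2, h.ee]
  kk := by
    have : rf α (kk 2 r) = kk 2 r := by rw [rf_apply, hk, zero_smul, add_zero]
    rw [← this, ← map_smul, ← map_sum, ← map_sub, ← h.kk]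
  exp x := by
    have := congrArg (rf α) (h.exp (rf α x))
    rw [rf_rf h2, map_sub, map_smul, map_sum] at this
    simpa only [map_smul, rf_adj] using this

lemma eH (h : IsMk H e) (a : Fin r) : dot (e a) H = 0 := by rw [dot_comm, h.He]

lemma ek (h : IsMk H e) (a : Fin r) : dot (e a) (kk 2 r) = 1 := (h.line a).2.2

/-- The pencils give `m_b ≤ a`. -/
lemma le_a (h : IsMk H e) {x : F r} (hx : Cell x) (b : Fin r) : dot x (e b) ≤ dot x H := by
  have h0 : dot (H - e b) (H - e b) = 0 := by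
    simp [map_sub, LinearMap.sub_apply, h.HH, h.He, h.ee, eH h]
  have := hx (H - e b) (h.zH.sub (h.ze b)) (Or.inr (by
    rw [map_sub, LinearMap.sub_apply, h.Hk, ek h]; norm_num))
  rw [NN, h0, zero_div, zero_smul, sub_zero, map_sub] at this
  linarith

/-- Two, three and six points: the degree is nonnegative. -/
lemma deg_nonneg (h : IsMk H e) {x : F r} (hx : Cell x) (c : ℤ) (hc : (c : ℝ) < 3)
    (h1 : (c : ℝ) ^ 2 - r = -2) (h2 : (r : ℝ) - 3 * c = 0 ∨ (r : ℝ) - 3 * c = 2) :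
    0 ≤ dot x H := by
  have hq : dot (∑ a, e a - (c : ℝ) • H) (∑ a, e a - (c : ℝ) • H) = -2 := by
    simp only [map_sub, map_sum, map_smul, LinearMap.sub_apply, LinearMap.sum_apply,
      LinearMap.smul_apply, h.ee, h.HH, h.He, eH h, smul_eq_mul]
    simp
    linarith
  have hk : dot (∑ a, e a - (c : ℝ) • H) (kk 2 r) = r - 3 * c := by
    simp only [map_sub, map_sum, map_smul, LinearMap.sub_apply, LinearMap.sum_apply,
      LinearMap.smul_apply, h.Hk, ek h, smul_eq_mul]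
    simp
    ring
  have := hx _ ((IsZ.sum fun a _ => h.ze a).sub (h.zH.smul ⟨c, rfl⟩)) (by rw [hk]; exact h2)
  have hN : NN (∑ a, e a - (c : ℝ) • H) = (3 - (c : ℝ)) • H := by
    rw [NN, hq, h.kk]; module
  rw [hN, map_smul, smul_eq_mul] at this
  exact nonneg_of_mul_nonneg_right this (by linarith)

/-- A marking of minimal degree. -/
lemma exists_min (hF : St_FIN) (hr : r ≤ 6) (x : F r) : ∃ (H : F r) (e : Fin r → F r), IsMk H e ∧
    ∀ b c d, b ≠ c → b ≠ d → c ≠ d → dot x (e b) + dot x (e c) + dot x (e d) ≤ dot x H := by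
  have hf : {H : F r | ∃ e, IsMk H e}.Finite :=
    (hF r (by omega) 3 1).subset fun _ ⟨_, h⟩ => ⟨h.zH, h.Hk, h.HH⟩
  obtain ⟨H, ⟨e, h⟩, hm⟩ := exists_min_image _ (fun H => dot x H) hf ⟨_, _, isMk_std⟩
  refine ⟨H, e, h, fun b c d h1 h2 h3 => ?_⟩
  have hz : IsZ (H - e b - e c - e d) := ((h.zH.sub (h.ze b)).sub (h.ze c)).sub (h.ze d)
  have hq : dot (H - e b - e c - e d) (H - e b - e c - e d) = -2 := by
    simp [map_sub, LinearMap.sub_apply, h.HH, h.He, h.ee, eH h, h1, h2, h3, h1.symm, h2.symm,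
      h3.symm]
    norm_num
  have hk : dot (H - e b - e c - e d) (kk 2 r) = 0 := by
    simp only [map_sub, LinearMap.sub_apply, h.Hk, ek h]; norm_num
  have hH : dot (H - e b - e c - e d) H = 1 := by
    simp only [map_sub, LinearMap.sub_apply, h.HH, eH h]; norm_num
  have := hm _ ⟨_, rf_mk h hz hq hk⟩
  rw [rf_apply, hH, one_smul] at this
  simp only [map_add, map_sub] at this
  linarith

/-- Classes with at most two positive multiplicities. -/
lemma mem_two {b c : Fin r} (hbc : b ≠ c) (C : Submodule ℝ≥0 (F r)) (hH : H ∈ C)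
    (h1 : H - e b ∈ C) (h2 : H - e b - e c ∈ C) (h3 : ∀ a, e a ∈ C) {A : ℝ} {m : Fin r → ℝ}
    (hA : 0 ≤ A) (hb : m b ≤ A) (hc : m c ≤ m b) (ho : ∀ a, a ≠ b → a ≠ c → m a ≤ 0) :
    A • H - ∑ a, m a • e a ∈ C := by
  have hs : ∑ a, max (m a) 0 • e a = max (m b) 0 • e b + max (m c) 0 • e c := by
    rw [Finset.sum_eq_add_of_mem b c (Finset.mem_univ _) (Finset.mem_univ _) hbc]
    intro a _ ha
    rw [max_eq_right (ho a ha.1 ha.2), zero_smul]
  have : A • H - ∑ a, m a • e a = max (m c) 0 • (H - e b - e c) +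
      (max (m b) 0 - max (m c) 0) • (H - e b) + (A - max (m b) 0) • H +
      ∑ a, (max (m a) 0 - m a) • e a := by
    simp only [sub_smul, Finset.sum_sub_distrib, hs]
    module
  rw [this]
  exact add_mem (add_mem (add_mem (smul_mem_nn C (le_max_right _ _) h2)
    (smul_mem_nn C (sub_nonneg.2 (max_le_max hc le_rfl)) h1))
    (smul_mem_nn C (sub_nonneg.2 (max_le hb hA)) hH))
    (C.sum_mem fun a _ => smul_mem_nn C (sub_nonneg.2 (le_max_left _ _)) (h3 a))

lemma one_case {x : F 1} (hx : Cell x) : x ∈ Eb 1 := by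
  have h := isMk_std (r := 1)
  have h1 := le_a h hx 0
  have hq : dot ((2 : ℝ) • ee (0 : Fin 1)) ((2 : ℝ) • ee (0 : Fin 1)) = -4 := by
    simp [dot_ee]; norm_num
  have h2 := hx ((2 : ℝ) • ee 0) ((isZ_ee 0).smul ⟨2, by norm_num⟩)
    (Or.inr (by rw [map_smul, LinearMap.smul_apply, dot_ek]; norm_num))
  have hN : NN ((2 : ℝ) • ee (0 : Fin 1)) = (6 : ℝ) • hh none := by
    rw [NN, hq, h.kk, Fin.sum_univ_one]; module
  rw [hN, map_smul, smul_eq_mul] at h2
  have hg : ∀ o, (hh o : F 1) ∈ Eb 1 := fun o => subset_span (Or.inr ⟨le_rfl, o, rfl⟩)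
  have : x = max (dot x (ee 0)) 0 • hh (some 0) + (dot x (hh none) - max (dot x (ee 0)) 0) • hh none
      + (max (dot x (ee 0)) 0 - dot x (ee 0)) • ee 0 := by
    conv_lhs => rw [expand x, Fin.sum_univ_one]
    rw [hh_some]; module
  rw [this]
  exact add_mem (add_mem (smul_mem_nn _ (le_max_right _ _) (hg _))
    (smul_mem_nn _ (sub_nonneg.2 (max_le h1 (by linarith))) (hg _)))
    (smul_mem_nn _ (sub_nonneg.2 (le_max_left _ _)) (line_ee 0).mem_Eb)

lemma pos_case (hK : St_MKE) (h2 : 2 ≤ r) (hr : r ≤ 6) (h : IsMk H e) {x : F r} (hx : Cell x)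
    (hm : ∀ b c d, b ≠ c → b ≠ d → c ≠ d → dot x (e b) + dot x (e c) + dot x (e d) ≤ dot x H)
    (hA : 0 ≤ dot x H) : x ∈ Eb r := by
  obtain ⟨k1, k2, k3, k4⟩ := hK.2.2 r h2 hr H e h
  obtain ⟨b, -, hb⟩ := Finset.exists_max_image Finset.univ (fun a => dot x (e a))
    ⟨⟨0, by omega⟩, Finset.mem_univ _⟩
  obtain ⟨c, hc0, hc⟩ := Finset.exists_max_image (Finset.univ.erase b) (fun a => dot x (e a))
    (Finset.card_pos.1 (by simp; omega))
  have hbc : b ≠ c := (Finset.ne_of_mem_erase hc0).symm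
  have two : ∀ {A : ℝ} {m : Fin r → ℝ}, 0 ≤ A → m b ≤ A → m c ≤ m b →
      (∀ a, a ≠ b → a ≠ c → m a ≤ 0) → A • H - ∑ a, m a • e a ∈ Eb r :=
    mem_two hbc _ k1 (k2 b) (k4 b c hbc).mem_Eb fun a => (k3 a).mem_Eb
  by_cases ho : ∀ a, a ≠ b → a ≠ c → dot x (e a) ≤ 0
  · rw [h.exp x]
    exact two hA (le_a h hx b) (hb c (Finset.mem_univ _)) ho
  push Not at ho
  obtain ⟨a0, a1, a2, a3⟩ := ho
  obtain ⟨d, hd0, hd⟩ := Finset.exists_max_image ((Finset.univ.erase b).erase c)
    (fun a => dot x (e a)) ⟨a0, by simp [a1, a2]⟩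
  have hdc : d ≠ c := Finset.ne_of_mem_erase hd0
  have hdb : d ≠ b := Finset.ne_of_mem_erase (Finset.mem_of_mem_erase hd0)
  have t0 : 0 ≤ dot x (e d) := a3.le.trans (hd a0 (by simp [a1, a2]))
  have t1 := hm b c d hbc hdb.symm hdc.symm
  have t2 := hc d (Finset.mem_of_mem_erase hd0)
  have t3 := hb c (Finset.mem_univ _)
  have : x = ((dot x H - 3 * dot x (e d)) • H - ∑ a, (dot x (e a) - dot x (e d)) • e a) +
      dot x (e d) • kk 2 r := by
    conv_lhs => rw [h.exp x]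
    simp only [sub_smul, Finset.sum_sub_distrib, ← Finset.smul_sum, h.kk]
    module
  rw [this]
  refine add_mem (two (m := fun a => dot x (e a) - dot x (e d)) (by linarith) (by linarith)
    (by linarith) fun a ha ha' => sub_nonpos.2 (hd a (by simp [ha, ha'])))
    (smul_mem_nn _ t0 (hK.1 r hr))

lemma neg_case (h : IsMk H e) {x : F r} (hx : Cell x) (hA : dot x H ≤ 0) : x ∈ Sh H e := by
  have : x = (-dot x H) • (∑ a, e a - H) + ∑ a, (dot x H - dot x (e a)) • e a := by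
    conv_lhs => rw [h.exp x]
    simp only [sub_smul, Finset.sum_sub_distrib, ← Finset.smul_sum]
    module
  rw [this]
  exact add_mem (smul_mem_nn _ (neg_nonneg.2 hA) (subset_span (mem_insert _ _)))
    (Submodule.sum_mem _ fun a _ => smul_mem_nn _ (sub_nonneg.2 (le_a h hx a))
      (subset_span (mem_insert_of_mem _ ⟨a, rfl⟩)))

end CellP

open CellP

theorem st_cell (hF : St_FIN) (hK : St_MKE) : St_CELL := by
  intro r h1 h6 x hx
  rcases eq_or_lt_of_le h1 with rfl | h2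
  · exact Or.inl (one_case hx)
  obtain ⟨H, e, h, hm⟩ := exists_min hF h6 x
  by_cases hA : 0 ≤ dot x H
  · exact Or.inl (pos_case hK h2 h6 h hx hm hA)
  refine Or.inr ⟨?_, H, e, h, neg_case h hx (not_le.1 hA).le⟩
  by_contra h45
  have : r = 2 ∨ r = 3 ∨ r = 6 := by omega
  rcases this with rfl | rfl | rfl
  · exact hA (deg_nonneg h hx 0 (by norm_num) (by norm_num) (by norm_num))
  · exact hA (deg_nonneg h hx 1 (by norm_num) (by norm_num) (by norm_num))
  · exact hA (deg_nonneg h hx 2 (by norm_num) (by norm_num) (by norm_num))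

end Pool.Agent.Lib.MV.Lat
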