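import Pool.Agent.Lib.MV.LatBlue

open Set Submodule
open scoped NNReal

noncomputable section

namespace Pool.Agent.Lib.MV.Lat

namespace Mke

variable {r : ℕ}

lemma line2 {H : F r} {e : Fin r → F r} (h : IsMk H e) {a b : Fin r} (hab : a ≠ b) :
    Line (H - e a - e b) := by
  refine ⟨(h.zH.sub (h.ze a)).sub (h.ze b), ?_, ?_⟩
  · simp only [map_sub, LinearMap.sub_apply, h.HH, h.He, h.ee, dot_comm _ H, if_neg hab, if_neg hab.symm, if_true]
    norm_num
  · simp only [map_sub, LinearMap.sub_apply, h.Hk, (h.line _).2.2]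
    norm_num

lemma exists_ne (hr : 2 ≤ r) (a : Fin r) : ∃ b, a ≠ b := by
  have : Nontrivial (Fin r) := Fin.nontrivial_iff_two_le.2 hr
  obtain ⟨b, hb⟩ := _root_.exists_ne a
  exact ⟨b, hb.symm⟩

lemma sub_mem_Eb (hr : 2 ≤ r) {H : F r} {e : Fin r → F r} (h : IsMk H e) (a : Fin r) : H - e a ∈ Eb r := by
  obtain ⟨b, hb⟩ := exists_ne hr a
  have := add_mem (line2 h hb).mem_Eb (h.line b).mem_Eb
  rwa [sub_add_cancel] at this

lemma H_mem_Eb (hr : 2 ≤ r) {H : F r} {e : Fin r → F r} (h : IsMk H e) : H ∈ Eb r := by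
  have := add_mem (sub_mem_Eb hr h ⟨0, by omega⟩) (h.line ⟨0, by omega⟩).mem_Eb
  rwa [sub_add_cancel] at this

lemma hh_mem_Eb (o : Option (Fin r)) : hh o ∈ Eb r := by
  rcases le_or_gt r 1 with h | h
  · exact subset_span (Or.inr ⟨h, o, rfl⟩)
  · cases o with
    | none => exact H_mem_Eb h isMk_std
    | some a => rw [hh_some]; exact sub_mem_Eb h isMk_std a

lemma smul_mem_Eb {c : ℝ} (hc : 0 ≤ c) {x : F r} (hx : x ∈ Eb r) : c • x ∈ Eb r :=
  (Eb r).smul_mem (⟨c, hc⟩ : ℝ≥0) hx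

lemma kk_small (h : r ≤ 3) : kk 2 r ∈ Eb r := by
  have e : kk 2 r = ((3 : ℝ) - r) • hh none + ∑ a, hh (some a) := by
    funext o
    cases o <;> simp [kk, hh, Finset.sum_apply, Pi.single_apply]
    norm_num
  have h' : (r : ℝ) ≤ 3 := by exact_mod_cast h
  rw [e]
  exact add_mem (smul_mem_Eb (by linarith) (hh_mem_Eb _)) (sum_mem fun a _ => hh_mem_Eb _)

lemma l_mem {a b : Fin r} (hab : a ≠ b) : hh none - ee a - ee b ∈ Eb r := (line2 isMk_std hab).mem_Eb

lemma kk_mem (h : r ≤ 6) : kk 2 r ∈ Eb r := by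
  rcases le_or_gt r 3 with h3 | h3
  · exact kk_small h3
  obtain rfl | rfl | rfl : r = 4 ∨ r = 5 ∨ r = 6 := by omega
  · have e : kk 2 4 = (hh none - ee 0 - ee 1) + (hh none - ee 2 - ee 3) + hh none := by
      rw [kk_eq, Fin.sum_univ_four]; module
    rw [e]
    exact add_mem (add_mem (l_mem (by decide)) (l_mem (by decide))) (hh_mem_Eb _)
  · have e : kk 2 5 = (hh none - ee 0 - ee 1) + (hh none - ee 2 - ee 3) + hh (some 4) := by
      rw [kk_eq, Fin.sum_univ_five, hh_some]; module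
    rw [e]
    exact add_mem (add_mem (l_mem (by decide)) (l_mem (by decide))) (hh_mem_Eb _)
  · have e : kk 2 6 = (hh none - ee 0 - ee 1) + (hh none - ee 2 - ee 3) + (hh none - ee 4 - ee 5) := by
      rw [kk_eq, Fin.sum_univ_six]; module
    rw [e]
    exact add_mem (add_mem (l_mem (by decide)) (l_mem (by decide))) (l_mem (by decide))

lemma zero_eq (x : F 0) : x = x none • hh none := by
  funext o
  cases o with
  | none => simp [hh]
  | some a => exact a.elim0

lemma zero_line (x : F 0) : ¬ Line x := fun h => by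
  have h1 := h.2.1
  rw [dot_apply, Finset.univ_eq_empty, Finset.sum_empty] at h1
  nlinarith [mul_self_nonneg (dg x)]

lemma zero_mem (x : F 0) : x ∈ Eb 0 ↔ 0 ≤ x none := by
  refine ⟨fun h => ?_, fun h => by rw [zero_eq x]; exact smul_mem_Eb h (hh_mem_Eb _)⟩
  induction h using span_induction with
  | mem v hv =>
    rcases hv with hv | ⟨-, o, rfl⟩
    · exact (zero_line v hv).elim
    · cases o with
      | none => simp [hh]
      | some a => exact a.elim0
  | zero => exact le_rfl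
  | add x y _ _ hx hy => exact add_nonneg hx hy
  | smul c x _ hx => exact mul_nonneg c.2 hx

end Mke

theorem st_mke : St_MKE := by
  refine ⟨fun r h => Mke.kk_mem h, ?_, fun r hr _ H e h =>
    ⟨Mke.H_mem_Eb hr h, Mke.sub_mem_Eb hr h, h.line, fun a b hab => Mke.line2 h hab⟩⟩
  rintro r rfl
  exact ⟨Mke.zero_mem, Mke.zero_eq, Mke.zero_line⟩

end Pool.Agent.Lib.MV.Lat
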