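import Pool.Agent.Lib.MV.Lat2Blue
import Pool.Agent.Lib.MV.L_MKE
import Pool.Agent.Lib.MV.L_CELL

open Set Submodule
open scoped NNReal

noncomputable section

namespace Pool.Agent.Lib.MV.Lat

namespace Cell7B

open CellP

variable {r : ℕ} {H : F r} {e : Fin r → F r}

lemma kk_seven : kk 2 7 ∈ Eb 7 := by
  have h1 : Line (kk 2 7 - ee 0) := by
    refine ⟨(isZ_kk 2).sub (isZ_ee 0), ?_, ?_⟩
    · simp only [map_sub, LinearMap.sub_apply, dot_kk, dot_ek, dot_ee, dot_comm (kk 2 7) (ee 0)]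
      norm_num
    · simp only [map_sub, LinearMap.sub_apply, dot_kk, dot_ek]
      norm_num
  have := add_mem h1.mem_Eb (line_ee (0 : Fin 7)).mem_Eb
  rwa [sub_add_cancel] at this

/-- A marking of minimal degree. -/
lemma exists_min7 (hF : St_FIN) (hr : r ≤ 7) (x : F r) : ∃ (H : F r) (e : Fin r → F r), IsMk H e ∧
    ∀ b c d, b ≠ c → b ≠ d → c ≠ d → dot x (e b) + dot x (e c) + dot x (e d) ≤ dot x H := by
  have hf : {H : F r | ∃ e, IsMk H e}.Finite :=
    (hF r (by omega) 3 1).subset fun _ ⟨_, h⟩ => ⟨h.zH, h.Hk, h.HH⟩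
  obtain ⟨H, ⟨e, h⟩, hm⟩ := exists_min_image _ (fun H => dot x H) hf ⟨_, _, isMk_std⟩
  refine ⟨H, e, h, fun b c d h1 h2 h3 => ?_⟩
  have hz : IsZ (H - e b - e c - e d) := ((h.zH.sub (h.ze b)).sub (h.ze c)).sub (h.ze d)
  have hq : dot (H - e b - e c - e d) (H - e b - e c - e d) = -2 := by
    simp [map_sub, LinearMap.sub_apply, h.HH, h.He, h.ee, eH h, h1, h2, h3, h1.symm, h2.symm,
      h3.symm]
    norm_num
  have hk : dot (H - e b - e c - e d) (kk 2 r) = 0 := by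
    simp only [map_sub, LinearMap.sub_apply, h.Hk, ek h]; norm_num
  have hH : dot (H - e b - e c - e d) H = 1 := by
    simp only [map_sub, LinearMap.sub_apply, h.HH, eH h]; norm_num
  have := hm _ ⟨_, rf_mk h hz hq hk⟩
  rw [rf_apply, hH, one_smul] at this
  simp only [map_add, map_sub] at this
  linarith

lemma pos_case7 (hK : St_MKE7) (h2 : 2 ≤ r) (hr : r ≤ 7) (h : IsMk H e) {x : F r} (hx : Cell x)
    (hm : ∀ b c d, b ≠ c → b ≠ d → c ≠ d → dot x (e b) + dot x (e c) + dot x (e d) ≤ dot x H)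
    (hA : 0 ≤ dot x H) : x ∈ Eb r := by
  obtain ⟨k1, k2, k3, k4⟩ := hK.2 r h2 H e h
  obtain ⟨b, -, hb⟩ := Finset.exists_max_image Finset.univ (fun a => dot x (e a))
    ⟨⟨0, by omega⟩, Finset.mem_univ _⟩
  obtain ⟨c, hc0, hc⟩ := Finset.exists_max_image (Finset.univ.erase b) (fun a => dot x (e a))
    (Finset.card_pos.1 (by simp; omega))
  have hbc : b ≠ c := (Finset.ne_of_mem_erase hc0).symm
  have two : ∀ {A : ℝ} {m : Fin r → ℝ}, 0 ≤ A → m b ≤ A → m c ≤ m b →
      (∀ a, a ≠ b → a ≠ c → m a ≤ 0) → A • H - ∑ a, m a • e a ∈ Eb r :=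
    mem_two hbc _ k1 (k2 b) (k4 b c hbc).mem_Eb fun a => (k3 a).mem_Eb
  by_cases ho : ∀ a, a ≠ b → a ≠ c → dot x (e a) ≤ 0
  · rw [h.exp x]
    exact two hA (le_a h hx b) (hb c (Finset.mem_univ _)) ho
  push Not at ho
  obtain ⟨a0, a1, a2, a3⟩ := ho
  obtain ⟨d, hd0, hd⟩ := Finset.exists_max_image ((Finset.univ.erase b).erase c)
    (fun a => dot x (e a)) ⟨a0, by simp [a1, a2]⟩
  have hdc : d ≠ c := Finset.ne_of_mem_erase hd0
  have hdb : d ≠ b := Finset.ne_of_mem_erase (Finset.mem_of_mem_erase hd0)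
  have t0 : 0 ≤ dot x (e d) := a3.le.trans (hd a0 (by simp [a1, a2]))
  have t1 := hm b c d hbc hdb.symm hdc.symm
  have t2 := hc d (Finset.mem_of_mem_erase hd0)
  have t3 := hb c (Finset.mem_univ _)
  have : x = ((dot x H - 3 * dot x (e d)) • H - ∑ a, (dot x (e a) - dot x (e d)) • e a) +
      dot x (e d) • kk 2 r := by
    conv_lhs => rw [h.exp x]
    simp only [sub_smul, Finset.sum_sub_distrib, ← Finset.smul_sum, h.kk]
    module
  rw [this]
  refine add_mem (two (m := fun a => dot x (e a) - dot x (e d)) (by linarith) (by linarith)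
    (by linarith) fun a ha ha' => sub_nonpos.2 (hd a (by simp [ha, ha'])))
    (smul_mem_nn _ t0 (hK.1 r hr))

end Cell7B

open CellP Cell7B

theorem st_mke7 : St_MKE7 := by
  refine ⟨fun r h => ?_, fun r hr H e h =>
    ⟨Mke.H_mem_Eb hr h, Mke.sub_mem_Eb hr h, h.line, fun a b hab => Mke.line2 h hab⟩⟩
  rcases eq_or_lt_of_le h with rfl | h6
  · exact kk_seven
  · exact Mke.kk_mem (by omega)

theorem st_cell7 (hF : St_FIN) (hK : St_MKE7) : St_CELL7 := by
  intro r h1 h7 x hx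
  rcases eq_or_lt_of_le h1 with rfl | h2
  · exact Or.inl (one_case hx)
  obtain ⟨H, e, h, hm⟩ := exists_min7 hF h7 x
  by_cases hA : 0 ≤ dot x H
  · exact Or.inl (pos_case7 hK h2 h7 h hx hm hA)
  refine Or.inr ⟨?_, H, e, h, neg_case h hx (not_le.1 hA).le⟩
  by_contra h45
  have : r = 2 ∨ r = 3 ∨ r = 6 := by unfold Bad at h45; omega
  rcases this with rfl | rfl | rfl
  · exact hA (deg_nonneg h hx 0 (by norm_num) (by norm_num) (by norm_num))
  · exact hA (deg_nonneg h hx 1 (by norm_num) (by norm_num) (by norm_num))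
  · exact hA (deg_nonneg h hx 2 (by norm_num) (by norm_num) (by norm_num))

end Pool.Agent.Lib.MV.Lat
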