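import Pool.Agent.Lib.MV.LatBlue

open Set Submodule Filter Topology
open scoped NNReal

noncomputable section

namespace Pool.Agent.Lib.MV.Lat

namespace Lpos

variable {ι : Type} [Fintype ι] [DecidableEq ι] {n r : ι → ℕ}

lemma smul_cl {C : Submodule ℝ≥0 (V r)} {c : ℝ} (hc : 0 ≤ c) {x : V r}
    (hx : x ∈ closure (C : Set (V r))) : c • x ∈ closure (C : Set (V r)) :=
  map_mem_closure (f := fun y : V r => c • y) (continuous_const_smul c) hx
    fun _ hy => C.smul_mem (⟨c, hc⟩ : ℝ≥0) hy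

lemma lead {C : Submodule ℝ≥0 (V r)} {x y z : V r}
    (h : ∀ N : ℕ, x + (N : ℝ) • y + ((N : ℝ) ^ 2) • z ∈ closure (C : Set (V r))) :
    z ∈ closure (C : Set (V r)) := by
  have t0 : Tendsto (fun N : ℕ => ((N : ℝ))⁻¹) atTop (𝓝 0) := tendsto_inv_atTop_nhds_zero_nat
  have t1 : Tendsto (fun N : ℕ => (((N : ℝ))⁻¹ ^ 2) • x + ((N : ℝ))⁻¹ • y + z) atTop
      (𝓝 (((0 : ℝ) ^ 2) • x + (0 : ℝ) • y + z)) :=
    (((t0.pow 2).smul_const x).add (t0.smul_const y)).add_const z
  simp only [ne_eq, OfNat.ofNat_ne_zero, not_false_eq_true, zero_pow, zero_smul, zero_add,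
    add_zero] at t1
  refine isClosed_closure.mem_of_tendsto t1 ?_
  filter_upwards [eventually_gt_atTop 0] with N hN
  have hN' : (N : ℝ) ≠ 0 := by exact_mod_cast hN.ne'
  have := smul_cl (sq_nonneg ((N : ℝ))⁻¹) (h N)
  have e : (((N : ℝ))⁻¹ ^ 2) • (x + (N : ℝ) • y + ((N : ℝ) ^ 2) • z)
      = (((N : ℝ))⁻¹ ^ 2) • x + ((N : ℝ))⁻¹ • y + z := by
    have a1 : ((N : ℝ))⁻¹ ^ 2 * N = (N : ℝ)⁻¹ := by field_simp
    have a2 : ((N : ℝ))⁻¹ ^ 2 * (N : ℝ) ^ 2 = 1 := by field_simp
    rw [smul_add, smul_add, smul_smul, smul_smul, a1, a2, one_smul]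
  rwa [e] at this

lemma tau_eq (i : ι) (α : F (r i)) (t : ℝ) (x : V r) :
    tau n i (t • α) x = x + t • (dot (x i) (kk 2 (r i)) • sl i α - dot α (x i) • kW n r i)
      + (t ^ 2) • ((-(dot α α / 2) * dot (x i) (kk 2 (r i))) • kW n r i) := by
  funext j
  by_cases h : j = i
  · subst h
    simp only [tau, mv_self, Pi.add_apply, Pi.smul_apply, Pi.sub_apply, kW_self, sl_self,
      LinearMap.add_apply, Module.End.one_apply, LinearMap.smulRight_apply, dot_comm (kk 2 (r j))]
    module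
  · simp only [tau, mv_ne h, Pi.add_apply, Pi.smul_apply, Pi.sub_apply, kW_ne h, sl_ne h, NN,
      map_sub, map_neg, map_smul, LinearMap.sub_apply, LinearMap.neg_apply, LinearMap.smul_apply,
      smul_eq_mul, dot_comm (kk 2 (r i))]
    module

lemma inEb_kW (hM : St_MKE) (h : Ok n r) (i : ι) : InEb (kW n r i) := fun j => by
  by_cases hj : j = i
  · subst hj; rw [kW_self]; exact zero_mem _
  · rw [kW_ne hj]
    rcases Nat.eq_zero_or_pos (r j) with h0 | h0
    · refine ((hM.2.1 _ h0).1 _).2 ?_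
      simp only [kk, Option.elim, h0, Nat.cast_zero, sub_zero]
      positivity
    · rw [h.n2 j h0]; exact hM.1 _ (h.r6 j)

lemma coef (hL : St_LPOS) (G : Geo n r) (h : Ok n r) {i j : ι} (hi : 0 < r i) (hij : i ≠ j)
    {A : Module.End ℝ (F (r j))} {φ : F (r j) →ₗ[ℝ] ℝ} (hT : mv n j A φ ∈ G.Γ) {x : V r}
    (hx : x ∈ closure (G.Eff : Set (V r))) (h0 : x i = 0) : 0 ≤ φ (x j) := by
  have := hL ι n r G h i hi _ (G.Γ_cl hT hx)
  rw [mv_ne hij, h0, zero_add, h.n2 i hi, map_smul, LinearMap.smul_apply, dot_kk, smul_eq_mul] at this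
  have h6 : (r i : ℝ) ≤ 6 := by exact_mod_cast h.r6 i
  have hp : (0 : ℝ) < ((2 : ℕ) + 1 : ℝ) ^ 2 - r i := by push_cast; linarith
  exact nonneg_of_mul_nonneg_left this hp

end Lpos

open Lpos

theorem st_lpos (hG : St_GRP) (hE : St_EBE) (hM : St_MKE) : St_LPOS := by
  intro ι _ _ n r G h i hi x hx
  by_contra hl
  push Not at hl
  set a : Fin (r i) := ⟨0, hi⟩
  set α : F (r i) := hh none - (3 : ℝ) • ee a with hα
  have hz : IsZ α := (isZ_hh _).sub ((isZ_ee a).smul ⟨3, by norm_num⟩)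
  have hk : dot α (kk 2 (r i)) = 0 := by
    simp only [hα, map_sub, map_smul, LinearMap.sub_apply, LinearMap.smul_apply, dot_Hk, dot_ek]
    norm_num
  have hs : dot α α = -8 := by
    simp only [hα, map_sub, map_smul, LinearMap.sub_apply, LinearMap.smul_apply, dot_HH, dot_He,
      dot_ee, dot_comm (ee a) (hh none), if_true]
    norm_num
  have hlead := lead (C := G.Eff) (x := x)
    (y := dot (x i) (kk 2 (r i)) • sl i α - dot α (x i) • kW n r i)
    (z := (-(dot α α / 2) * dot (x i) (kk 2 (r i))) • kW n r i) fun N => by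
      rw [← tau_eq]
      refine G.Γ_cl (((hG ι n r).2.2.2 G i hi).2 _ (hz.smul ⟨N, by simp⟩) ?_) hx
      rw [map_smul, LinearMap.smul_apply, hk, smul_zero]
  rw [hs] at hlead
  have hW : kW n r i ∈ closure (G.Eff : Set (V r)) := subset_closure (hE ι n r G _ (inEb_kW hM h i))
  have hc : 0 < -(-(-8 / 2) * dot (x i) (kk 2 (r i))) := by linarith
  have h0 := G.sal _ hlead (by rw [← neg_smul]; exact smul_cl hc.le hW)
  obtain ⟨j, hj⟩ := h.two i
  rcases smul_eq_zero.1 h0 with h1 | h1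
  · linarith
  · have h2 := congrArg (fun y : V r => dg (y j)) h1
    simp only [kW_ne hj, dg_kk] at h2
    have h3 : dg ((0 : V r) j) = 0 := by simp [dg]
    have h4 : (0 : ℝ) ≤ n j := Nat.cast_nonneg _
    linarith

theorem st_lv (hG : St_GRP) (hL : St_LPOS) (hC : St_CELL) (hM : St_MKE) : St_LV := by
  intro ι _ _ n r G h i hi x hx h0 j
  by_cases hij : i = j
  · subst hij; rw [h0]; exact zero_mem _
  rcases Nat.eq_zero_or_pos (r j) with hj | hj
  · refine ((hM.2.1 _ hj).1 _).2 ?_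
    rcases (h.n1 j).eq_or_lt with h1 | h1
    · have := coef hL G h hi hij (G.iot_mem j h1.symm) hx h0
      rw [dot_comm, dot_H, dg] at this
      have he : ∑ a : Fin (r j), x j (some a) = 0 :=
        Finset.sum_eq_zero fun a _ => absurd a.2 (by omega)
      rwa [he, add_zero] at this
    · have hcl : IsClosed {y : V r | 0 ≤ y j none} :=
        isClosed_le continuous_const (by fun_prop)
      exact closure_minimal (fun y hy => G.posp j hj h1 y hy) hcl hx
  · have hcell : Cell (x j) := by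
      rintro γ hγ (hk | hk)
      · have hT := ((hG ι n r).2.2.2 G j hj).2 (-γ) hγ.neg (by simp [hk])
        have := coef hL G h hi hij hT hx h0
        rwa [neg_neg, dot_comm] at this
      · have := coef hL G h hi hij (((hG ι n r).2.2.2 G j hj).1 γ hγ hk) hx h0
        rwa [dot_comm] at this
    rcases hC _ hj (h.r6 j) _ hcell with h1 | ⟨h1, -⟩
    · exact h1
    · rcases h.hC with h2 | h2
      · have := h2 j; omega
      · exact absurd (h2 i j hi hj) hij

end Pool.Agent.Lib.MV.Lat
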