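import Pool.Agent.Lib.MV.LatBlue

open Set Submodule
open scoped NNReal

noncomputable section

namespace Pool.Agent.Lib.MV.Lat

namespace RED

variable {ι : Type} [Fintype ι] [DecidableEq ι] (n : ι → ℕ) {r : ι → ℕ}

/-- weighted sum of the fibre degrees -/
def ht (w : ι → ℝ) : V r →ₗ[ℝ] ℝ := ∑ j, w j • (dot (kk (n j) (r j)) ∘ₗ LinearMap.proj j)

omit [DecidableEq ι] in
lemma ht_apply (w : ι → ℝ) (x : V r) : ht n w x = ∑ j, w j * dot (kk (n j) (r j)) (x j) := by
  simp [ht, LinearMap.sum_apply]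

lemma ht_mv (w : ι → ℝ) (i : ι) (A : Module.End ℝ (F (r i))) (φ : F (r i) →ₗ[ℝ] ℝ) (y : V r) :
    ht n w (mv n i A φ y) = ht n w y + w i * dot (kk (n i) (r i)) (A (y i) - y i) +
      φ (y i) * ht n w (kW n r i) := by
  have h1 : Function.update y i (A (y i)) = y + sl i (A (y i) - y i) := by
    funext j
    by_cases h : j = i
    · subst h; simp [sl_self]
    · simp [sl_ne h, h]
  have h2 : ∀ v : F (r i), ht n w (sl i v) = w i * dot (kk (n i) (r i)) v := fun v => by
    rw [ht_apply, Finset.sum_eq_single i (fun j _ h => by rw [sl_ne h, map_zero, mul_zero])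
      (by simp), sl_self]
  rw [mv_apply, h1, map_add, map_add, h2, map_smul, smul_eq_mul]

lemma ht_kW {w : ι → ℝ} (hw : ∀ j, 0 ≤ w j * dot (kk (n j) (r j)) (kk (n j) (r j))) {i j : ι}
    (h : j ≠ i) : w j * dot (kk (n j) (r j)) (kk (n j) (r j)) ≤ ht n w (kW n r i) := by
  rw [ht_apply, ← congrArg (fun v => w j * dot (kk (n j) (r j)) v) (kW_ne (n := n) (r := r) h)]
  refine Finset.single_le_sum (f := fun j => w j * dot (kk (n j) (r j)) (kW n r i j))
    (fun k _ => ?_) (Finset.mem_univ j)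
  by_cases hk : k = i
  · subst hk; simp [kW_self]
  · simpa only [kW_ne hk] using hw k

lemma dg_zero {r : ℕ} (h : r = 0) (x : F r) (n : ℕ) :
    dot (hh none) x = x none ∧ dot (kk n r) x = (n + 1) * x none := by
  subst h
  rw [dot_comm, dot_H, dot_comm, dot_k]
  simp [dg]

end RED

open RED

theorem st_red (hM : St_MIN) (hG : St_GRP) (hL : St_LPOS) : St_RED := by
  intro ι _ _ n r G ok x hx
  obtain ⟨g1, g2, g3, g4⟩ := hG ι n r
  obtain ⟨i0, hi0⟩ := ok.ex
  have n0 := ok.n2 i0 hi0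
  have r1 : ∀ j, n j = 1 → r j = 0 := fun j h => by
    by_contra h1
    have := ok.n2 j (Nat.pos_of_ne_zero h1)
    omega
  have dpos : ∀ j, 0 < dot (kk (n j) (r j)) (kk (n j) (r j)) := fun j => by
    rw [dot_kk]
    rcases Nat.eq_zero_or_pos (r j) with h | h
    · rw [h, Nat.cast_zero, sub_zero]; positivity
    · have h1 : (r j : ℝ) ≤ 6 := by exact_mod_cast ok.r6 j
      rw [ok.n2 j h]
      push_cast
      linarith
  obtain ⟨d, hd⟩ : ∃ d : ℤ, dot (kk (n i0) (r i0)) (kk (n i0) (r i0)) = d := (isZ_kk _).dot (isZ_kk _)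
  have d0 : (0 : ℝ) < d := hd ▸ dpos i0
  let p : ℤ := ∑ j, if n j = 1 then 1 else 0
  let wz : ι → ℤ := fun j => (if n j = 1 then d else 1) + if j = i0 then 2 * p + 2 else 0
  have p0 : 0 ≤ p := Finset.sum_nonneg fun j _ => by split_ifs <;> norm_num
  have d1 : 0 < d := by exact_mod_cast d0
  have w0 : ∀ j, (0 : ℝ) < wz j := fun j => by
    have : 0 < wz j := by simp only [wz]; split_ifs <;> omega
    exact_mod_cast this
  have hw := fun j => (mul_pos (w0 j) (dpos j)).le
  have l0 : ∀ y ∈ G.Eff, ∀ j, 0 < r j → 0 ≤ dot (kk (n j) (r j)) (y j) := fun y hy j h => by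
    rw [ok.n2 j h, dot_comm]
    exact hL ι n r G ok j h y (subset_closure hy)
  obtain ⟨T, ⟨hT, T', hT', e⟩, hmin⟩ := hM ι n r G (ht n fun j => wz j) (fun y hy => by
      choose z hz using fun j => (isZ_kk (r := r j) (n j)).dot (hy j)
      exact ⟨∑ j, wz j * z j, by simp [ht_apply, hz]⟩) (fun y hy => by
      have h1 : ht n (fun j => (wz j : ℝ)) y = 2 * dot (kk (n i0) (r i0)) (y i0) +
          ∑ j, if n j = 1 then d * dot (kk (n j) (r j)) (y j) + 2 * dot (kk (n i0) (r i0)) (y i0)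
            else dot (kk (n j) (r j)) (y j) := by
        have h2 : ∀ j, (if n j = 1 then d * dot (kk (n j) (r j)) (y j) +
            2 * dot (kk (n i0) (r i0)) (y i0) else dot (kk (n j) (r j)) (y j)) =
            (if n j = 1 then (d : ℝ) else 1) * dot (kk (n j) (r j)) (y j) +
              (if n j = 1 then (1 : ℝ) else 0) * (2 * dot (kk (n i0) (r i0)) (y i0)) := fun j => by
          split_ifs <;> ring
        simp only [h2, ht_apply, wz, p, Finset.sum_add_distrib, ← Finset.sum_mul]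
        push_cast
        simp only [add_mul, Finset.sum_add_distrib, ite_mul (_ = i0), zero_mul, Finset.sum_ite_eq',
          Finset.mem_univ, if_true]
        ring
      rw [h1]
      refine add_nonneg (mul_nonneg zero_le_two (l0 y hy i0 hi0)) (Finset.sum_nonneg fun j _ => ?_)
      split_ifs with h
      · have h2 := l0 _ (G.Γ_eff _ (G.iot_mem j h) y hy) i0 hi0
        have h3 : i0 ≠ j := fun e => by rw [e] at n0; omega
        rw [iot, mv_ne h3, map_add, map_smul, hd, (dg_zero (r1 j h) _ 0).1, smul_eq_mul] at h2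
        rw [(dg_zero (r1 j h) _ _).2, h]
        push_cast
        linarith
      · rcases Nat.eq_zero_or_pos (r j) with h2 | h2
        · rw [(dg_zero h2 _ _).2]
          exact mul_nonneg (by positivity) (G.posp j h2 (by have := ok.n1 j; omega) y hy)
        · exact l0 y hy j h2)
    {T | T ∈ G.Γ ∧ ∃ T' ∈ G.Γ, T' * T = 1} ⟨1, one_mem _, 1, one_mem _, one_mul _⟩
    (fun _ h => h.1) x hx
  have key : ∀ i A φ, mv n i A φ ∈ G.Γ → (∃ S ∈ G.Γ, S * mv n i A φ = 1) →
      0 ≤ wz i * dot (kk (n i) (r i)) (A (T x i) - T x i) +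
        φ (T x i) * ht n (fun j => (wz j : ℝ)) (kW n r i) := by
    rintro i A φ h1 ⟨S, h2, h3⟩
    have h4 := hmin (mv n i A φ * T) ⟨mul_mem h1 hT, T' * S, mul_mem hT' h2, by
      rw [mul_assoc, ← mul_assoc S, h3, one_mul, e]⟩
    rw [Module.End.mul_apply, ht_mv] at h4
    linarith
  refine ⟨T, hT, T', hT', e, fun i hi γ hγ hk => ?_, fun j hj => ?_⟩
  · obtain ⟨j, hj⟩ := ok.two i
    have h1 := (mul_pos (w0 j) (dpos j)).trans_le (ht_kW n hw hj)
    obtain ⟨s1, s2⟩ := g4 G i hi
    rw [dot_comm]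
    refine nonneg_of_mul_nonneg_left ?_ h1
    rcases hk with hk | hk
    · have h2 : dot (-γ) (kk 2 (r i)) = 0 := by rw [map_neg, LinearMap.neg_apply, hk, neg_zero]
      have h3 := key i _ _ (s2 _ hγ.neg h2) ⟨_, s2 _ hγ.neg.neg (by rwa [neg_neg]), g2 i _ h2⟩
      rw [ok.n2 i hi, neg_neg] at h3
      simpa [dot_comm _ γ, hk] using h3
    · have h3 := key i _ _ (s1 _ hγ hk) ⟨_, s1 _ hγ hk, g1 i _ hk⟩
      rw [ok.n2 i hi] at h3
      have h4 : dot (kk 2 (r i)) (((dot (kk 2 (r i))).smulRight γ - 1 : Module.End ℝ _) (T x i) -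
          T x i) = 0 := by
        simp [dot_comm _ γ, hk]
        ring
      rwa [h4, mul_zero, zero_add] at h3
  · by_cases h : n j = 1
    swap
    · exact G.posp j hj (by have := ok.n1 j; omega) _ (G.Γ_eff T hT x hx)
    have h3 : i0 ≠ j := fun e => by rw [e] at n0; omega
    have h1 := ht_kW n hw h3
    have h2 := key j _ _ (G.iot_mem j h) ⟨_, G.iot_mem j h, g3 j⟩
    have p1 : 1 ≤ p := le_of_eq_of_le (if_pos h).symm (Finset.single_le_sum
      (f := fun j => if n j = 1 then (1 : ℤ) else 0) (fun j _ => by split_ifs <;> norm_num)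
      (Finset.mem_univ j))
    have e1 : wz j = d := by simp [wz, h, h3.symm]
    have e2 : (5 : ℝ) ≤ wz i0 := by
      have : 5 ≤ wz i0 := by simp only [wz, n0, if_true]; split_ifs <;> omega
      exact_mod_cast this
    rw [(dg_zero hj _ 0).1, (dg_zero hj _ _).2, h, e1] at h2
    rw [hd] at h1
    simp only [LinearMap.neg_apply, Module.End.one_apply, Pi.sub_apply, Pi.neg_apply] at h2
    push_cast at h2
    refine nonneg_of_mul_nonneg_left (b := ht n (fun j => (wz j : ℝ)) (kW n r j) - 4 * d)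
      (by linarith) ?_
    nlinarith

end Pool.Agent.Lib.MV.Lat
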