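import Pool.Agent.Lib.MV.LatBlue

open Set Submodule
open scoped NNReal

noncomputable section

namespace Pool.Agent.Lib.MV.Lat

namespace Grp

variable {ι : Type} [Fintype ι] [DecidableEq ι] {n r : ι → ℕ} {i : ι}

omit [Fintype ι] in
lemma mv_congr {A A' : Module.End ℝ (F (r i))} {φ φ' : F (r i) →ₗ[ℝ] ℝ} (h : ∀ x, A x = A' x)
    (h' : ∀ x, φ x = φ' x) : mv n i A φ = mv n i A' φ' := by
  rw [LinearMap.ext h, LinearMap.ext h']

lemma dot_NN {m : ℕ} (g x : F m) : dot (NN g) x = dot g x - dot g g / 2 * dot (kk 2 m) x := by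
  simp [NN]

lemma sig_sig {g g' : F (r i)} (h' : dot g' (kk 2 (r i)) = 2) :
    sig n i g * sig n i g' = tau n i (g - g') := by
  have h2 : dot (kk 2 (r i)) g' = 2 := by rw [dot_comm, h']
  rw [sig, sig, mv_mul, tau]
  refine mv_congr (fun x => ?_) fun x => ?_
  · simp only [Module.End.mul_apply, LinearMap.sub_apply, LinearMap.smulRight_apply,
      Module.End.one_apply, LinearMap.add_apply, map_sub, map_smul, h2]
    module
  · simp only [LinearMap.add_apply, LinearMap.comp_apply, LinearMap.sub_apply,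
      LinearMap.smulRight_apply, Module.End.one_apply, dot_NN, map_sub, map_smul, map_neg,
      LinearMap.neg_apply, h2, smul_eq_mul, dot_comm g' g]
    ring

lemma tau_tau {a b : F (r i)} (h : dot b (kk 2 (r i)) = 0) :
    tau n i a * tau n i b = tau n i (a + b) := by
  have h2 : dot (kk 2 (r i)) b = 0 := by rw [dot_comm, h]
  rw [tau, tau, mv_mul, tau]
  refine mv_congr (fun x => ?_) fun x => ?_
  · simp only [Module.End.mul_apply, LinearMap.smulRight_apply,
      Module.End.one_apply, LinearMap.add_apply, map_add, map_smul, h2]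
    module
  · simp only [LinearMap.add_apply, LinearMap.comp_apply,
      LinearMap.smulRight_apply, Module.End.one_apply, dot_NN, map_add, map_smul, map_neg,
      LinearMap.neg_apply, h2, smul_eq_mul, dot_comm b a]
    ring

lemma tau_zero : tau n i (0 : F (r i)) = 1 := by
  rw [tau, ← mv_one (n := n) (i := i)]
  exact mv_congr (fun x => by simp) fun x => by simp [dot_NN]

lemma tau_sig {a g : F (r i)} (h : dot g (kk 2 (r i)) = 2) :
    tau n i a * sig n i g = sig n i (g + a) := by
  have h2 : dot (kk 2 (r i)) g = 2 := by rw [dot_comm, h]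
  rw [tau, sig, mv_mul, sig]
  refine mv_congr (fun x => ?_) fun x => ?_
  · simp only [Module.End.mul_apply, LinearMap.smulRight_apply, LinearMap.sub_apply,
      Module.End.one_apply, LinearMap.add_apply, map_sub, map_smul, h2]
    module
  · simp only [LinearMap.add_apply, LinearMap.comp_apply, LinearMap.sub_apply,
      LinearMap.smulRight_apply, Module.End.one_apply, dot_NN, map_add, map_sub, map_smul, map_neg,
      LinearMap.neg_apply, h2, smul_eq_mul, dot_comm g a]
    ring

lemma dot_hk {m : ℕ} (a : Fin m) : dot (hh (some a)) (kk 2 m) = 2 := by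
  rw [hh_some, map_sub, LinearMap.sub_apply, dot_Hk, dot_ek]; norm_num

lemma dot_2ek {m : ℕ} (a : Fin m) : dot ((2 : ℝ) • ee a) (kk 2 m) = 2 := by
  rw [map_smul, LinearMap.smul_apply, dot_ek]; norm_num

/-- translations which are pull-backs together with their inverses -/
def TG (G : Geo n r) (i : ι) : AddSubgroup (F (r i)) where
  carrier := {a | dot a (kk 2 (r i)) = 0 ∧ tau n i a ∈ G.Γ ∧ tau n i (-a) ∈ G.Γ}
  zero_mem' := ⟨by simp, by rw [tau_zero]; exact one_mem _,
    by rw [neg_zero, tau_zero]; exact one_mem _⟩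
  add_mem' := fun {a b} ha hb => ⟨by rw [map_add, LinearMap.add_apply, ha.1, hb.1, add_zero],
    by rw [← tau_tau hb.1]; exact mul_mem ha.2.1 hb.2.1,
    by
      rw [neg_add, ← tau_tau (by rw [map_neg, LinearMap.neg_apply, hb.1, neg_zero])]
      exact mul_mem ha.2.2 hb.2.2⟩
  neg_mem' := fun {a} ha => ⟨by rw [map_neg, LinearMap.neg_apply, ha.1, neg_zero], ha.2.2,
    by rw [neg_neg]; exact ha.2.1⟩

lemma sub_mem_TG (G : Geo n r) {g g' : F (r i)} (h : dot g (kk 2 (r i)) = 2)
    (h' : dot g' (kk 2 (r i)) = 2) (hg : sig n i g ∈ G.Γ) (hg' : sig n i g' ∈ G.Γ) :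
    g - g' ∈ TG G i :=
  ⟨by rw [map_sub, LinearMap.sub_apply, h, h', sub_self],
    by rw [← sig_sig h']; exact mul_mem hg hg',
    by rw [neg_sub, ← sig_sig h]; exact mul_mem hg' hg⟩

lemma tau_mem (G : Geo n r) (hi : 0 < r i) {α : F (r i)} (hz : IsZ α)
    (hk : dot α (kk 2 (r i)) = 0) : tau n i α ∈ G.Γ := by
  let a0 : Fin (r i) := ⟨0, hi⟩
  obtain ⟨a, ha⟩ := hz.dot (isZ_hh none)
  choose m hm using fun b => hz.dot (isZ_ee b)
  have h1 : (∑ b, (m b : ℝ)) = 3 * a := by
    rw [dot_k, ← dot_H, ha] at hk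
    simp only [← dot_e, hm] at hk
    push_cast at hk
    linarith
  have h2 : α = a • (hh (some a0) - (2 : ℝ) • ee a0) - ∑ b, m b • (hh (some a0) - hh (some b)) := by
    have h3 : ∀ b, m b • (hh (some a0) - hh (some b)) = (m b : ℝ) • ee b - (m b : ℝ) • ee a0 :=
      fun b => by rw [hh_some, hh_some, ← Int.cast_smul_eq_zsmul ℝ]; module
    rw [Finset.sum_congr rfl fun b _ => h3 b, Finset.sum_sub_distrib, ← Finset.sum_smul, h1,
      ← Int.cast_smul_eq_zsmul ℝ, hh_some]
    have h4 := expand α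
    rw [ha] at h4
    simp only [hm] at h4
    refine h4.trans ?_
    module
  have h5 : α ∈ TG G i := by
    rw [h2]
    exact sub_mem (zsmul_mem (sub_mem_TG G (dot_hk _) (dot_2ek _) (G.sig_h _ _) (G.sig_e _ _)) _)
      (sum_mem fun b _ =>
        zsmul_mem (sub_mem_TG G (dot_hk _) (dot_hk _) (G.sig_h _ _) (G.sig_h _ _)) _)
  exact h5.2.1

lemma vh_eq (v : F (r i)) (a : Fin (r i)) : tau n i (v - ee a) (sl i (ee a)) = vh n i v := by
  have h1 : dot (kk 2 (r i)) (ee a) = 1 := by rw [dot_comm, dot_ek]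
  have h2 : dot (ee a) (ee a) = -1 := by simp [dot_ee]
  rw [tau, mv_sl, vh]
  simp only [LinearMap.add_apply, Module.End.one_apply, LinearMap.smulRight_apply, h1, dot_NN,
    map_neg, map_sub, LinearMap.neg_apply, LinearMap.sub_apply, h2, dot_comm (ee a) v, one_smul,
    add_sub_cancel]
  module

lemma bf_eq (v : F (r i)) (a : Fin (r i)) :
    Bf n i (ee a) * tau n i (ee a - v) = Bf n i v := by
  have h2 : dot (ee a) (ee a) = -1 := by simp [dot_ee]
  rw [tau, Bf, mv_mul, Bf]
  refine mv_congr (fun x => by simp) fun x => ?_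
  simp only [LinearMap.add_apply, LinearMap.comp_apply, LinearMap.sub_apply,
    LinearMap.smulRight_apply, Module.End.one_apply, dot_NN, map_add, map_sub, map_smul, map_neg,
    LinearMap.neg_apply, LinearMap.smul_apply, h2, smul_eq_mul, dot_comm (ee a) v]
  ring

lemma six (a : Fin (r i)) : sl i (hh none) + sig n i ((2 : ℝ) • ee a) (sl i (hh none)) =
    (6 : ℝ) • (sl i (ee a) + kW n r i) := by
  have h1 : dot (kk 2 (r i)) (hh none) = 3 := by rw [dot_comm, dot_Hk]; norm_num
  have h2 : dot (ee a) (ee a) = -1 := by simp [dot_ee]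
  have h3 : dot (ee a) (hh none) = 0 := by rw [dot_comm, dot_He]
  rw [sig, mv_sl]
  simp only [LinearMap.sub_apply, Module.End.one_apply, LinearMap.smulRight_apply, h1, dot_NN,
    map_smul, map_sub, LinearMap.smul_apply, h2, h3, smul_eq_mul]
  module

end Grp

open Grp

theorem st_grp : St_GRP := fun ι _ _ n r =>
  ⟨fun i γ h => by rw [sig_sig h, sub_self, tau_zero],
    fun i α h => by rw [tau_tau h, neg_add_cancel, tau_zero],
    fun j => by
      rw [iot, mv_mul, ← mv_one (n := n) (i := j)]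
      exact mv_congr (fun x => by simp) fun x => by simp,
    fun G i hi => ⟨fun γ hz hk => by
      have h := tau_sig (n := n) (a := γ - hh (some ⟨0, hi⟩)) (dot_hk (⟨0, hi⟩ : Fin (r i)))
      rw [add_sub_cancel] at h
      rw [← h]
      exact mul_mem (tau_mem G hi (hz.sub (isZ_hh _))
        (by rw [map_sub, LinearMap.sub_apply, hk, dot_hk, sub_self])) (G.sig_h _ _),
      fun α hz hk => tau_mem G hi hz hk⟩⟩

theorem st_vh (hG : St_GRP) : St_VH := by
  intro ι _ _ n r G i hi v hz hk
  let a : Fin (r i) := ⟨0, hi⟩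
  have hT := ((hG ι n r).2.2.2 G i hi).2
  have h1 : tau n i (v - ee a) ∈ G.Γ := hT _ (hz.sub (isZ_ee a))
    (by rw [map_sub, LinearMap.sub_apply, hk, dot_ek, sub_self])
  have h2 : tau n i (ee a - v) ∈ G.Γ := hT _ ((isZ_ee a).sub hz)
    (by rw [map_sub, LinearMap.sub_apply, hk, dot_ek, sub_self])
  refine ⟨?_, fun E hE => ?_, fun E => ?_, fun x hx => ?_⟩
  · rw [← vh_eq v a]; exact G.Γ_eff _ h1 _ (G.eff_e i a)
  · obtain ⟨e, e1, e2⟩ := G.Γ_fr _ h1
    obtain ⟨E, rfl⟩ := e.surjective E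
    rw [← vh_eq v a] at hE ⊢
    exact e2 E _ (G.fr_e E i a fun h => hE (by rw [e1, h]))
  · have h3 : tau n i (v - ee a) ((6 : ℝ) • (sl i (ee a) + kW n r i)) =
        (6 : ℝ) • (vh n i v + kW n r i) := by
      rw [map_smul, map_add, vh_eq, tau, mv_of_zero (kW_self i)]
    rw [← h3, ← six]
    exact G.Γ_all h1 (fun E => add_mem (G.fr_h E i none)
      (G.Γ_all (G.sig_e i a) (fun E => G.fr_h E i none) E)) E
  · rw [← bf_eq v a]
    exact G.res i a _ (G.Γ_mov _ h2 x hx)

theorem st_ebe (hV : St_VH) (hK : St_MKE) : St_EBE := by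
  intro ι _ _ n r G x hx
  rw [← sum_sl x]
  refine sum_mem fun i _ => ?_
  refine span_induction (p := fun y _ => sl i y ∈ G.Eff) (fun v hv => ?_) (by simp)
    (fun a b _ _ ha hb => by rw [map_add]; exact add_mem ha hb)
    (fun c a _ ha => by
      rw [NNReal.smul_def, map_smul, ← NNReal.smul_def]; exact smul_mem _ c ha) (hx i)
  rcases hv with hv | ⟨-, o, rfl⟩
  · have h := (hV ι n r G i (Nat.pos_of_ne_zero fun h0 => (hK.2.1 _ h0).2.2 _ hv) v hv.1 hv.2.2).1
    rw [vh, hv.2.1] at h
    simpa using h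
  · exact G.eff_h i o

end Pool.Agent.Lib.MV.Lat
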