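import Pool.Agent.Lib.MV.F_ALL
import Pool.Agent.Lib.MV.G_ADM
import Pool.Agent.Lib.MV.G_BAS2
import Pool.Agent.Lib.MV.G_BIG
import Pool.Agent.Lib.MV.G_EXT2
import Pool.Agent.Lib.MV.G_FIBX
import Pool.Agent.Lib.MV.G_GTR
import Pool.Agent.Lib.MV.G_HOR
import Pool.Agent.Lib.MV.G_LI
import Pool.Agent.Lib.MV.G_LISO
import Pool.Agent.Lib.MV.G_MISC
import Pool.Agent.Lib.MV.G_NCPB
import Pool.Agent.Lib.MV.G_REG
import Pool.Agent.Lib.MV.G_SEC1
import Pool.Agent.Lib.MV.G_STEP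
import Pool.Agent.Lib.MV.G_TRG
import Pool.Agent.Lib.MV.G_UNIQ
import Pool.Agent.Lib.MV.G_ZAR
import Pool.Agent.Lib.MV.L2_CELL
import Pool.Agent.Lib.MV.L2_RED
import Pool.Agent.Lib.MV.L_GRP
import Pool.Agent.Lib.MV.L_MKE

namespace Pool.Agent.Lib.MV.G2

open Fb Lat

theorem nef : St_NEF :=
  st_nef (st_fibx all_ker2 (st_tr all_ker2) (st_base st_gk) st_tri st_pen st_bas2 st_pen2)
    (st_sec2 all_vt st_sec0) st_ncpb (st_glm (st_liso st_reg) st_inv2 st_pv)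
    (st_lic st_tw st_goodt) (st_lia st_gcm) st_tw st_pbt st_trg st_adm st_chain
    (st_step (st_hor st_ext2 st_succ st_big3) (st_uniq st_sec1))
    (st_lpos7 st_grp (st_ebe (st_vh st_grp) st_mke) st_mke st_mke7) st_mke

end Pool.Agent.Lib.MV.G2
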