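import Pool.Agent.Lib.MV.G2A

open Set Matrix WithZero Pool.Agent.Lib.MP_e39d36_ag Pool.Agent.Lib.MP_e39d36_ag.Var
  Pool.Agent.Lib.MP_cc3443_ag Pool.Agent.Lib.MV.End Pool.Agent.Lib.MV.Fb

noncomputable section

namespace Pool.Agent.Lib.MV.G2

namespace STEPB

variable {K : Type} [Field K] [Algebra ℂ K] {X : Var K} {J : Type}

/-- A local equation of the section, with its value at every valuation above the point. -/
lemma exists_pi (F : Fib X J) (a : J) (y : X.Pt) : ∃ l l', LocEq (F.e a) y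
    ((F.x ⨯₃ F.P a) l / F.x l') ∧ (∀ i, (F.x ⨯₃ F.P a) i / (F.x ⨯₃ F.P a) l ∈ X.O y) ∧
    (∀ i, F.x i / F.x l' ∈ X.O y) ∧ ∀ (Γ : Type) [LinearOrderedCommGroupWithZero Γ]
      (v : Valuation K Γ), (∀ c : ℂ, v (algebraMap ℂ K c) ≤ 1) →
      (∀ i, v ((F.x ⨯₃ F.P a) i / (F.x ⨯₃ F.P a) l) ≤ 1) → (∀ i, v (F.x i / F.x l') ≤ 1) →
      ds v F.x (F.P a) = v ((F.x ⨯₃ F.P a) l / F.x l') := by
  obtain ⟨l, h1, h2⟩ := F.bp a y
  obtain ⟨l', h3, h4⟩ := F.bx y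
  refine ⟨l, l', ?_, h2, h4, fun Γ _ v hc h5 h6 => ?_⟩
  · have := (F.bx.locEq h3 h4).add ((F.bp a).locEq h1 h2).neg
    rwa [inv_inv, ← sub_eq_add_neg, mul_comm, ← div_eq_mul_inv] at this
  · rw [ds, nm_gen h1 h5, nm_gen h3 h6, nm_const' hc (F.p0 a), mul_one, map_div₀]

lemma locEq_nsmul {E : X.PD →₀ ℤ} {y : X.Pt} {π : K} (h : LocEq E y π) (n : ℕ) :
    LocEq (n • E) y (π ^ n) := by
  induction n with
  | zero => simpa using locEq_zero
  | succ n ih => rw [succ_nsmul, pow_succ]; exact ih.add h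

lemma locEq_sub {D E : X.PD →₀ ℤ} {y : X.Pt} {f π : K} (h : LocEq D y f) (h' : LocEq E y π)
    (n : ℕ) : LocEq (D - n • E) y (f / π ^ n) := by
  rw [sub_eq_add_neg, div_eq_mul_inv]
  exact h.add (locEq_nsmul h' n).neg

lemma rg_of {D : X.PD →₀ ℤ} {V : ValuationSubring K} {y : X.Pt} {f : K} (hy : Cen V y)
    (hf : LocEq D y f) (h : f ∈ V) : Rg D V := fun y' g hy' hg => by
  obtain rfl := cen_eq hy hy'
  have := mul_mem (hy.1 (hg.un hf).2.1) (show f ∈ V.toSubring from h)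
  rwa [div_mul_cancel₀ _ hf.1] at this

lemma uv_of {D : X.PD →₀ ℤ} {V : ValuationSubring K} {y : X.Pt} {f : K} (hy : Cen V y)
    (hf : LocEq D y f) (h : Un V.toSubring f) : Uv D V := fun y' g hy' hg => by
  obtain rfl := cen_eq hy hy'
  have := ((hg.un hf).mono hy.1).mul h
  rwa [div_mul_cancel₀ _ hf.1] at this

lemma exists_piV (F : Fib X J) (a : J) {V : ValuationSubring K} {y : X.Pt} (hy : Cen V y) :
    ∃ π, LocEq (F.e a) y π ∧ ds V.valuation F.x (F.P a) = V.valuation π := by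
  obtain ⟨l, l', h1, h2, h3, h4⟩ := exists_pi F a y
  exact ⟨_, h1, h4 _ _ (fun c => (V.valuation_le_one_iff _).2 (cen_const hy c))
    (fun i => (V.valuation_le_one_iff _).2 (hy.1 (h2 i)))
    fun i => (V.valuation_le_one_iff _).2 (hy.1 (h3 i))⟩

end STEPB

open STEPB in
theorem st_step (hH : St_HOR) (hU : St_UNIQ) : St_STEP := by
  intro K _ _ X hc J F L γ R S V₁ a hLc hT hS hk hG hV hA he D hD hR
  have hy : Cen V₁ (γ.ctr (plc S)) := by rw [Cen, hV]; exact γ.dom_ctr _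
  obtain ⟨l, l', p1, p2, p3, p4⟩ := exists_pi F a (γ.ctr (plc S))
  have hcL : ∀ i, (F.x ⨯₃ F.P a) i ∈ L :=
    cross_mem (B := L.toSubring) hT.x fun i => L.algebraMap_mem _
  have hOS : ∀ z ∈ L, z ∈ X.O (γ.ctr (plc S)) → val S z ≤ 1 := fun z hz h => by
    have := PB.τ_mem h
    rw [(hS.fix z hz).2] at this
    exact ((isV S).2 _).1 this
  have q1 := p4 _ (val S) (fun c => ((isV S).2 _).1 (X.const_mem _ _))
    (fun i => hOS _ (div_mem (hcL i) (hcL l)) (p2 i))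
    fun i => hOS _ (div_mem (hT.x i) (hT.x l')) (p3 i)
  have q2 := p4 _ V₁.valuation (fun c => (V₁.valuation_le_one_iff _).2 (cen_const hy c))
    (fun i => (V₁.valuation_le_one_iff _).2 (hy.1 (p2 i)))
    fun i => (V₁.valuation_le_one_iff _).2 (hy.1 (p3 i))
  have hπL : (F.x ⨯₃ F.P a) l / F.x l' ∈ L := div_mem (hcL l) (hT.x l')
  generalize (F.x ⨯₃ F.P a) l / F.x l' = π at p1 q1 q2 hπL
  have hord : X.ord π S.1 = 1 := by
    have := dd_apply (X := X) (F.cross_P_ne a) S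
    rw [← F.e_eq, he, Finsupp.single_eq_same, q1, ← ord_log] at this
    exact this.symm
  have hdS : ds (val S) F.x (F.P a) < 1 := by
    rw [q1, val_eq_exp p1.1, ← ord_val, hord, ← exp_zero, exp_lt_exp]
    norm_num
  have hd1 : ds V₁.valuation F.x (F.P a) < 1 := by
    refine lt_of_le_of_ne ds_le_one fun h => ?_
    rw [q2, ← un_iff, hV] at h
    have h1 := (CMap.un_T.1 h).2
    rw [(hS.fix π hπL).2] at h1
    have h2 : X.ord π S.1 = 0 := ord_un h1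
    omega
  have f1 := (hc D).lf (γ.ctr (plc S))
  obtain ⟨_, -, f2⟩ := pb0 hc hS.c hR
  have f3 := (f2 S).2
  have f4 : lf D (γ.ctr (plc S)) ∈ γ.T (plc S) := hV ▸ hD V₁ hA _ _ hy f1
  generalize lf D (γ.ctr (plc S)) = f at f1 f3 f4
  have f5 : 0 ≤ X.ord (γ.τ f) S.1 := ord_nonneg (CMap.mem_T.1 f4).2
  obtain ⟨n, hn⟩ := Int.eq_ofNat_of_zero_le f5
  have hπn : π ^ n ∈ L := pow_mem hπL n
  have u1 : Un (X.O γ.c) (π ^ n) :=
    ⟨pow_ne_zero _ p1.1, hS.c ▸ (hS.fix _ hπn).1, hS.c ▸ (hS.fix _ (inv_mem hπn)).1⟩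
  have u2 : Un V₁.toSubring (f / π ^ n) := by
    rw [hV]
    refine CMap.un_T.2 ⟨f3.div u1, ?_⟩
    rw [div_eq_mul_inv, γ.mul _ f3.2.1 _ u1.2.2, (hS.fix _ (inv_mem hπn)).2, ← div_eq_mul_inv]
    refine (isV S).un_iff.2 ⟨div_ne_zero (CMap.τ_ne f3) u1.1, ?_⟩
    rw [← ord_val, ord_div (CMap.τ_ne f3) u1.1, ord_val (π ^ n), od_pow, ← ord_val, hord, hn]
    simp
  rw [← he]
  refine ⟨n, fun V hVA => ?_, uv_of hy (locEq_sub f1 p1 n) u2⟩
  by_cases hd : ds V.valuation F.x (F.P a) < 1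
  · have key : ∀ t ∈ F.k, t ∈ X.O R.1 → t ∈ γ.T (plc S) := fun t ht ht' => by
      rw [← hV]
      exact hH K X J F R V₁ a hLc hk hA (hG V₁ hA) hd1 t ht ht'
    have h1 := hU K X J F L γ R S V a hT hS hVA.1 (hH K X J F R V a hLc hk hVA (hG V hVA) hd)
      (fun t ht ht' => (CMap.mem_T.1 (key t ht ht')).2) hd hdS
    obtain rfl : V = V₁ := ValuationSubring.toSubring_injective (h1.trans hV.symm)
    exact rg_of hy (locEq_sub f1 p1 n) u2.2.1
  · obtain ⟨y, hy', -⟩ := hVA.2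
    obtain ⟨ϖ, r1, r2⟩ := exists_piV F a hy'
    have r3 : Un V.toSubring ϖ := un_iff.2 (r2 ▸ le_antisymm ds_le_one (not_lt.1 hd))
    exact rg_of hy' (locEq_sub ((hc D).lf y) r1 n)
      ((r3.pow n).div_mem (hD V hVA _ _ hy' ((hc D).lf y)))

end Pool.Agent.Lib.MV.G2
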