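import Pool.Agent.Lib.MV.S_VALA

open MvPolynomial Set Pool.Agent.Lib.MP_e39d36_ag Pool.Agent.Lib.MP_e39d36_ag.Var
  Pool.Agent.Lib.MP_cc3443_ag Pool.Agent.Lib.MV.End Pool.Agent.Lib.MV.Dat

set_option linter.unusedSectionVars false
set_option linter.unusedVariables false

noncomputable section

namespace Pool.Agent.Lib.MV.S3

namespace VALBB

lemma taylor {σ A : Type} [Fintype σ] [CommRing A] [Algebra ℂ A] (a e : σ → A) (w : A)
    (G : MvPolynomial σ ℂ) : ∃ R : A, aeval (fun l => a l + w * e l) G =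
      aeval a G + w * (∑ l, aeval a (pderiv l G) * e l + w * R) := by
  classical
  induction G using MvPolynomial.induction_on with
  | C c => exact ⟨0, by simp⟩
  | add p q hp hq =>
    obtain ⟨R, hR⟩ := hp
    obtain ⟨S, hS⟩ := hq
    refine ⟨R + S, ?_⟩
    simp only [map_add, hR, hS, add_mul, Finset.sum_add_distrib]
    ring
  | mul_X p t hp =>
    obtain ⟨R, hR⟩ := hp
    refine ⟨(∑ l, aeval a (pderiv l p) * e l + w * R) * e t + R * a t, ?_⟩
    have h : ∑ l, aeval a (pderiv l (p * X t)) * e l =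
        (∑ l, aeval a (pderiv l p) * e l) * a t + aeval a p * e t := by
      simp only [Derivation.leibniz, smul_eq_mul, map_add, map_mul, aeval_X, add_mul,
        Finset.sum_add_distrib, Finset.sum_mul]
      rw [add_comm, Finset.sum_eq_single t (f := fun l => aeval a p * aeval a (pderiv l (X t)) * e l)
        (fun l _ hl => by simp [pderiv_X, hl.symm]) (by simp)]
      congr 1
      · exact Finset.sum_congr rfl fun l _ => by ring
      · simp
    rw [h, map_mul, map_mul, hR, aeval_X, aeval_X]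
    ring

lemma scale {σ A : Type} [Fintype σ] [CommRing A] [Algebra ℂ A] {G : MvPolynomial σ ℂ} {d : ℕ}
    (h : G.IsHomogeneous d) (p : σ → ℂ) (s : A) :
    aeval (fun l => p l • s) G = eval p G • s ^ d := by
  classical
  conv_lhs => rw [G.as_sum]
  conv_rhs => rw [G.as_sum]
  rw [map_sum, map_sum, Finset.sum_smul]
  refine Finset.sum_congr rfl fun m hm => ?_
  have h1 : ∑ l, m l = d := by
    have := h (mem_support_iff.1 hm)
    rw [Finsupp.weight_apply, Finsupp.sum_fintype _ _ (by simp)] at this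
    simpa using this
  rw [aeval_monomial, eval_monomial, Finsupp.prod_fintype _ _ (by simp),
    Finsupp.prod_fintype _ _ (by simp), ← h1]
  simp only [Algebra.smul_def, mul_pow, Finset.prod_mul_distrib, Finset.prod_pow_eq_pow_sum,
    map_mul, map_prod, map_pow]
  ring

variable {D : Dat}

lemma dec (i : Fin D.k) (a : Fin (D.r i)) : ∃ (l₀ : Fin (D.n i + 1))
    (c : Fin (D.n i + 1) → Fin 2 → ℂ), D.p i a l₀ ≠ 0 ∧ ∀ (A : Type) [CommRing A] [Algebra ℂ A]
      (z : Fin (D.n i + 1) → A) (l : Fin (D.n i + 1)),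
        z l = D.p i a l • ((D.p i a l₀)⁻¹ • z l₀) + ∑ j, c l j • ∑ l', D.u i a j l' • z l' := by
  obtain ⟨l₀, hl⟩ := Function.ne_iff.1 (D.p_ne i a)
  have hl' : D.p i a l₀ ≠ 0 := hl
  choose c hc using fun l => span_u i a
    (m := Pi.single l 1 - Pi.single l₀ (D.p i a l * (D.p i a l₀)⁻¹))
    (by simp [mul_assoc, inv_mul_cancel₀ hl'])
  refine ⟨l₀, c, hl', fun A _ _ z l => ?_⟩
  have h1 : ∑ j, c l j • ∑ l', D.u i a j l' • z l' = ∑ l', (∑ j, c l j • D.u i a j) l' • z l' := by
    simp [add_smul, Finset.sum_add_distrib, Finset.smul_sum, smul_smul]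
  rw [h1, ← hc l]
  simp [sub_smul, Finset.sum_sub_distrib, Pi.single_apply, ite_smul, smul_smul]

lemma u_ne {i : Fin D.k} {a b : Fin (D.r i)} (h : b ≠ a) : ∃ j, D.u i b j ⬝ᵥ D.p i a ≠ 0 := by
  by_contra! h1
  obtain ⟨l, hl⟩ := Function.ne_iff.1 (D.p_ne i a)
  obtain ⟨c, c', hc⟩ := two_pts h (Pi.single l 1)
  have := congrArg (· ⬝ᵥ D.p i a) hc
  simp only [add_dotProduct, sum_dotProduct, smul_dotProduct, h1, D.u_p, smul_zero,
    Finset.sum_const_zero, single_dotProduct, one_mul, add_zero] at this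
  exact hl this

lemma euler {i : Fin D.k} (a : Fin (D.r i)) (c : Fin D.m) :
    ∑ l, eval (D.p i a) (pderiv l (D.G c i)) * D.p i a l = 0 := by
  have := congrArg (eval (D.p i a)) (D.G_hom c i).sum_X_mul_pderiv
  simp only [map_sum, map_mul, eval_X, map_nsmul, D.G_p, smul_zero] at this
  rw [← this]
  exact Finset.sum_congr rfl fun l _ => mul_comm _ _

end VALBB

open VALAB VALBB in
theorem st_valb : St_VALB := by
  intro D F _ _ P i a s d hs hd
  choose k hk using fun b => exists_inr (sl_τ P.τ ⟨i, some b⟩)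
  obtain ⟨l₀, c, hl₀, hc⟩ := dec i a
  have hU : ∀ b j, aeval P.v (rename (ix i) (D.Up i b j)) = (D.u i b j ⬝ᵥ D.p i a) • s := by
    intro b j
    rw [aeval_rename, aeval_Up, dotProduct, Finset.sum_smul]
    exact Finset.sum_congr rfl fun l _ => by
      rw [Function.comp_apply, ix, hs, smul_smul]
  have hs0 : s ≠ 0 := by
    obtain ⟨l, hl⟩ := exists_inl (sl_τ P.τ ⟨i, none⟩)
    have := P.v_τ ⟨i, none⟩
    rw [hl, hs] at this
    rintro rfl
    simp at this
  have h1 : aeval P.v (∏ b ∈ Finset.univ.erase a, rename (ix i) (D.Up i b (k b))) ≠ 0 := by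
    rw [map_prod]
    refine Finset.prod_ne_zero_iff.2 fun b hb => ?_
    obtain ⟨j, hj⟩ := u_ne (Finset.ne_of_mem_erase hb)
    have h2 := hU b j
    rw [aeval_rename, aeval_Up] at h2 ⊢
    exact U_ne P i b (k b) (hk b) ⟨j, fun h => smul_ne_zero hj hs0 (h2.symm.trans h)⟩
  refine ⟨s ^ D.n i / aeval P.v (∏ b ∈ Finset.univ.erase a, rename (ix i) (D.Up i b (k b))),
    fun cc => ?_⟩
  let w : MvPolynomial D.Vx ℂ := rename (ix i) (D.Up i a (k a))
  let A : Fin (D.n i + 1) → MvPolynomial D.Vx ℂ := fun l =>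
    D.p i a l • ((D.p i a l₀)⁻¹ • X (ix i l₀))
  let e : Fin (D.n i + 1) → MvPolynomial D.Vx ℂ := fun l => ∑ j, c l j • X (.inr (⟨i, a⟩, j))
  obtain ⟨R, hR⟩ := taylor A e w (D.G cc i)
  rw [scale (D.G_hom cc i), D.G_p, zero_smul, zero_add] at hR
  have hw : aeval (D.rat D.X P.τ) w ≠ 0 := by
    rw [rat_U]
    exact div_ne_zero (yX_ne _) (yX_ne _)
  have h3 : ∀ l, aeval (D.rat D.X P.τ) (A l + w * e l) = D.rat D.X P.τ (ix i l) := by
    intro l
    rw [hc _ (fun l => D.rat D.X P.τ (ix i l)) l]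
    simp only [A, e, map_add, map_mul, map_smul, map_sum, aeval_X, Finset.mul_sum]
    congr 1
    refine Finset.sum_congr rfl fun j _ => ?_
    have h4 := rat_U P.τ i a j
    rw [aeval_rename, aeval_Up] at h4
    rw [mul_smul_comm, rat_U]
    congr 1
    refine Eq.trans ?_ h4.symm
    rw [Dat.rat, sl_inr, hk a]
    have := yX_ne (D := D) (.inr (⟨i, a⟩, k a))
    field_simp
  have h5 := congrArg (aeval (D.rat D.X P.τ)) hR
  rw [map_mul, ← AlgHom.comp_apply, comp_aeval] at h5
  simp only [h3] at h5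
  have h6 := key P.τ cc i k hk
  rw [aeval_rename, ← Finset.mul_prod_erase _ _ (Finset.mem_univ a), map_mul, mul_left_comm] at h6
  have h7 := mul_left_cancel₀ hw (h6.trans h5)
  rw [div_mul_eq_mul_div, eq_div_iff h1, ← P.θ_aeval, ZP.g, ← map_mul]
  refine Eq.trans (congrArg _ (Subtype.ext h7)) ((P.θ_aeval _).trans ?_)
  have h8 : ∀ l, aeval P.v (A l) = D.p i a l • s := by
    intro l
    simp only [A, map_smul, aeval_X, ix, hs, smul_smul, inv_mul_cancel_right₀ hl₀]
  have h9 : ∀ l, aeval P.v (e l) = d l - D.p i a l • ((D.p i a l₀)⁻¹ • d l₀) := by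
    intro l
    rw [eq_sub_iff_add_eq', hc _ d l]
    simp only [e, map_sum, map_smul, aeval_X, hd]
  have h10 : ∀ l, aeval P.v (aeval A (pderiv l (D.G cc i))) =
      eval (D.p i a) (pderiv l (D.G cc i)) • s ^ D.n i := by
    intro l
    rw [← AlgHom.comp_apply, comp_aeval]
    simp only [h8]
    exact scale (D.G_hom cc i).pderiv _ _
  rw [map_add, map_mul, hU, D.u_p, zero_smul, zero_mul, add_zero, map_sum]
  simp only [map_mul, h9, h10, mul_sub, Finset.sum_sub_distrib, Finset.mul_sum]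
  have h11 : ∑ l, eval (D.p i a) (pderiv l (D.G cc i)) • s ^ D.n i *
      D.p i a l • (D.p i a l₀)⁻¹ • d l₀ = 0 := by
    simp only [smul_mul_smul_comm, ← Finset.sum_smul, euler, zero_smul]
  rw [h11, sub_zero]
  exact Finset.sum_congr rfl fun l _ => by rw [smul_mul_assoc, mul_smul_comm]

end Pool.Agent.Lib.MV.S3
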