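import Pool.Agent.Lib.MV.G3A
import Pool.Agent.Lib.MV.S_VALB

open MvPolynomial Set Matrix Pool.Agent.Lib.MP_e39d36_ag Pool.Agent.Lib.MP_e39d36_ag.Var
  Pool.Agent.Lib.MV.End Pool.Agent.Lib.MV.Fb Pool.Agent.Lib.MV.S3 Pool.Agent.Lib.MV.Dat

set_option linter.unusedSectionVars false
set_option linter.unusedVariables false

noncomputable section

namespace Pool.Agent.Lib.MV.G3

namespace BPF3

open VALAB VALBB in
/-- Values of the sections on an exceptional curve, with a nonzero factor. -/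
lemma valb (D : Dat) (F : Type) [Field F] [Algebra ℂ F] (P : ZP D F) (i : Fin D.k)
    (a : Fin (D.r i)) (s : F) (d : Fin (D.n i + 1) → F)
    (hs : ∀ l, P.v (.inl ⟨i, l⟩) = D.p i a l • s)
    (hd : ∀ k, ∑ l, D.u i a k l • d l = P.v (.inr (⟨i, a⟩, k))) :
    ∃ κ : F, κ ≠ 0 ∧ ∀ c, P.g c i = κ * ∑ l, eval (D.p i a) (pderiv l (D.G c i)) • d l := by
  choose k hk using fun b => exists_inr (sl_τ P.τ ⟨i, some b⟩)
  obtain ⟨l₀, c, hl₀, hc⟩ := dec i a
  have hU : ∀ b j, aeval P.v (rename (ix i) (D.Up i b j)) = (D.u i b j ⬝ᵥ D.p i a) • s := by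
    intro b j
    rw [aeval_rename, aeval_Up, dotProduct, Finset.sum_smul]
    exact Finset.sum_congr rfl fun l _ => by
      rw [Function.comp_apply, ix, hs, smul_smul]
  have hs0 : s ≠ 0 := by
    obtain ⟨l, hl⟩ := exists_inl (sl_τ P.τ ⟨i, none⟩)
    have := P.v_τ ⟨i, none⟩
    rw [hl, hs] at this
    rintro rfl
    simp at this
  have h1 : aeval P.v (∏ b ∈ Finset.univ.erase a, rename (ix i) (D.Up i b (k b))) ≠ 0 := by
    rw [map_prod]
    refine Finset.prod_ne_zero_iff.2 fun b hb => ?_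
    obtain ⟨j, hj⟩ := u_ne (Finset.ne_of_mem_erase hb)
    have h2 := hU b j
    rw [aeval_rename, aeval_Up] at h2 ⊢
    exact U_ne P i b (k b) (hk b) ⟨j, fun h => smul_ne_zero hj hs0 (h2.symm.trans h)⟩
  refine ⟨s ^ D.n i / aeval P.v (∏ b ∈ Finset.univ.erase a, rename (ix i) (D.Up i b (k b))),
    div_ne_zero (pow_ne_zero _ hs0) h1, fun cc => ?_⟩
  let w : MvPolynomial D.Vx ℂ := rename (ix i) (D.Up i a (k a))
  let A : Fin (D.n i + 1) → MvPolynomial D.Vx ℂ := fun l =>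
    D.p i a l • ((D.p i a l₀)⁻¹ • X (ix i l₀))
  let e : Fin (D.n i + 1) → MvPolynomial D.Vx ℂ := fun l => ∑ j, c l j • X (.inr (⟨i, a⟩, j))
  obtain ⟨R, hR⟩ := taylor A e w (D.G cc i)
  rw [scale (D.G_hom cc i), D.G_p, zero_smul, zero_add] at hR
  have hw : aeval (D.rat D.X P.τ) w ≠ 0 := by
    rw [rat_U]
    exact div_ne_zero (yX_ne _) (yX_ne _)
  have h3 : ∀ l, aeval (D.rat D.X P.τ) (A l + w * e l) = D.rat D.X P.τ (ix i l) := by
    intro l
    rw [hc _ (fun l => D.rat D.X P.τ (ix i l)) l]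
    simp only [A, e, map_add, map_mul, map_smul, map_sum, aeval_X, Finset.mul_sum]
    congr 1
    refine Finset.sum_congr rfl fun j _ => ?_
    have h4 := rat_U P.τ i a j
    rw [aeval_rename, aeval_Up] at h4
    rw [mul_smul_comm, rat_U]
    congr 1
    refine Eq.trans ?_ h4.symm
    rw [Dat.rat, sl_inr, hk a]
    have := yX_ne (D := D) (.inr (⟨i, a⟩, k a))
    field_simp
  have h5 := congrArg (aeval (D.rat D.X P.τ)) hR
  rw [map_mul, ← AlgHom.comp_apply, comp_aeval] at h5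
  simp only [h3] at h5
  have h6 := key P.τ cc i k hk
  rw [aeval_rename, ← Finset.mul_prod_erase _ _ (Finset.mem_univ a), map_mul, mul_left_comm] at h6
  have h7 := mul_left_cancel₀ hw (h6.trans h5)
  rw [div_mul_eq_mul_div, eq_div_iff h1, ← P.θ_aeval, ZP.g, ← map_mul]
  refine Eq.trans (congrArg _ (Subtype.ext h7)) ((P.θ_aeval _).trans ?_)
  have h8 : ∀ l, aeval P.v (A l) = D.p i a l • s := by
    intro l
    simp only [A, map_smul, aeval_X, ix, hs, smul_smul, inv_mul_cancel_right₀ hl₀]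
  have h9 : ∀ l, aeval P.v (e l) = d l - D.p i a l • ((D.p i a l₀)⁻¹ • d l₀) := by
    intro l
    rw [eq_sub_iff_add_eq', hc _ d l]
    simp only [e, map_sum, map_smul, aeval_X, hd]
  have h10 : ∀ l, aeval P.v (aeval A (pderiv l (D.G cc i))) =
      eval (D.p i a) (pderiv l (D.G cc i)) • s ^ D.n i := by
    intro l
    rw [← AlgHom.comp_apply, comp_aeval]
    simp only [h8]
    exact scale (D.G_hom cc i).pderiv _ _
  rw [map_add, map_mul, hU, D.u_p, zero_smul, zero_mul, add_zero, map_sum]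
  simp only [map_mul, h9, h10, mul_sub, Finset.sum_sub_distrib, Finset.mul_sum]
  have h11 : ∑ l, eval (D.p i a) (pderiv l (D.G cc i)) • s ^ D.n i *
      D.p i a l • (D.p i a l₀)⁻¹ • d l₀ = 0 := by
    simp only [smul_mul_smul_comm, ← Finset.sum_smul, euler, zero_smul]
  rw [h11, sub_zero]
  exact Finset.sum_congr rfl fun l _ => by rw [smul_mul_assoc, mul_smul_comm]

/-- The data with one form in one factor. -/
@[reducible] def one (D : Dat) (j : Fin D.k) (g : MvPolynomial (Fin (D.n j + 1)) ℂ)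
    (h : AC D j g) : Dat :=
  { D with
    m := 1
    G := fun _ => Function.update (fun _ => 0) j g
    G_hom := fun _ i => by
      rcases eq_or_ne i j with rfl | hi
      · rw [Function.update_self]; exact h.1
      · rw [Function.update_of_ne hi]; exact isHomogeneous_zero _ _ _
    G_p := fun _ i a => by
      rcases eq_or_ne i j with rfl | hi
      · rw [Function.update_self]; exact h.2 a
      · rw [Function.update_of_ne hi, map_zero] }

variable {D : Dat} {Ω : Type} [Field Ω] [Algebra ℂ Ω] (P : ZP D Ω) {j : Fin D.k}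
  {g : MvPolynomial (Fin (D.n j + 1)) ℂ} (h : AC D j g)

/-- The point, for the data with one form. -/
def pt : ZP (one D j g h) Ω := ⟨P.τ, P.θ⟩

lemma one_G : (one D j g h).G 0 j = g :=
  Function.update_self (β := fun i => MvPolynomial (Fin (D.n i + 1)) ℂ) j g fun _ => 0

lemma pt_g : (pt P h).g 0 j = P.θ ⟨_, WPT0B.ac_mem st_kap' P.τ h⟩ := by
  refine congrArg P.θ (Subtype.ext ?_)
  change aeval (D.X j) ((one D j g h).G 0 j) / D.kap D.X P.τ j = _
  rw [one_G]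

lemma off (h1 : ∀ a, ∃ k, ∑ l, D.u j a k l • P.v (.inl ⟨j, l⟩) ≠ 0)
    (h2 : aeval (fun l => P.v (.inl ⟨j, l⟩)) g ≠ 0) :
    P.θ ⟨_, WPT0B.ac_mem st_kap' P.τ h⟩ ≠ 0 := by
  obtain ⟨κ, h3, h4⟩ := st_vala (one D j g h) Ω (pt P h) j h1
  rw [← pt_g P h, h4 0, one_G]
  exact mul_ne_zero h3 h2

lemma on (a : Fin (D.r j)) (s : Ω) (d : Fin (D.n j + 1) → Ω)
    (hs : ∀ l, P.v (.inl ⟨j, l⟩) = D.p j a l • s)
    (hd : ∀ k, ∑ l, D.u j a k l • d l = P.v (.inr (⟨j, a⟩, k)))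
    (h2 : ∑ l, eval (D.p j a) (pderiv l g) • d l ≠ 0) :
    P.θ ⟨_, WPT0B.ac_mem st_kap' P.τ h⟩ ≠ 0 := by
  obtain ⟨κ, h3, h4⟩ := valb (one D j g h) Ω (pt P h) j a s d hs hd
  rw [← pt_g P h, h4 0, one_G]
  exact mul_ne_zero h3 h2

lemma dual (a : Fin (D.r j)) (y : Fin 2 → Ω) :
    ∃ d : Fin (D.n j + 1) → Ω, ∀ k, ∑ l, D.u j a k l • d l = y k := by
  choose w hw using fun k => exists_dual_u j a (Pi.single k 1)
  refine ⟨fun l => ∑ k', w k' l • y k', fun k => ?_⟩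
  simp only [Finset.smul_sum, smul_smul]
  rw [Finset.sum_comm]
  simp only [← Finset.sum_smul]
  have h1 : ∀ k', ∑ l, D.u j a k l * w k' l = (Pi.single k' 1 : Fin 2 → ℂ) k := fun k' => hw k' k
  simp [h1, Pi.single_apply]

end BPF3

open BPF3 in
theorem st_bpf3 (hT : St_TAN) (hO : St_OFF) : St_BPF3 := by
  intro D hD Ω _ _ P j
  by_cases h1 : ∀ a, ∃ k, ∑ l, D.u j a k l • P.v (.inl ⟨j, l⟩) ≠ 0
  · by_cases hr : D.r j = 0
    · obtain ⟨l, hl⟩ := exists_inl (sl_τ P.τ ⟨j, none⟩)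
      have h : AC D j (X l ^ (D.n j + 1)) :=
        ⟨isHomogeneous_X_pow l _, fun a => absurd a.pos (by omega)⟩
      refine ⟨_, h, off P h h1 ?_⟩
      rw [map_pow, aeval_X, ← hl, P.v_τ, one_pow]
      exact one_ne_zero
    · obtain ⟨g, h, h2⟩ := hO D hD j hr Ω _ h1
      exact ⟨g, h, off P h h1 h2⟩
  · push Not at h1
    obtain ⟨a, ha⟩ := h1
    obtain ⟨l₀, c, hl₀, hc⟩ := VALBB.dec j a
    obtain ⟨d, hd⟩ := dual a fun k => P.v (.inr (⟨j, a⟩, k))
    obtain ⟨k, hk⟩ := exists_inr (sl_τ P.τ ⟨j, some a⟩)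
    obtain ⟨g, h, h2⟩ := hT D hD j a Ω d ⟨k, by
      rw [hd, ← hk, P.v_τ]
      exact one_ne_zero⟩
    refine ⟨g, h, on P h a ((D.p j a l₀)⁻¹ • P.v (.inl ⟨j, l₀⟩)) d (fun l => ?_) hd h2⟩
    have h3 := hc Ω (fun l => P.v (.inl ⟨j, l⟩)) l
    simpa only [ha, smul_zero, Finset.sum_const_zero, add_zero] using h3

end Pool.Agent.Lib.MV.G3
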