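import Pool.Agent.Lib.MV.G3A

open MvPolynomial Set Matrix Pool.Agent.Lib.MV.S3 Pool.Agent.Lib.MV.Dat

set_option linter.unusedSectionVars false
set_option linter.unusedVariables false

noncomputable section

namespace Pool.Agent.Lib.MV.G3

namespace CNT

variable {D : Dat} {Ω : Type} [Field Ω] [Algebra ℂ Ω] {i : Fin D.k}

lemma φ_mem (w : Fin D.m → Ω) : φ D i w ∈ AO D Ω i := by
  refine ⟨(homogeneousSubmodule _ Ω _).sum_mem fun c _ =>
    (homogeneousSubmodule _ Ω _).smul_mem _ ((D.G_hom c i).map _), fun a => ?_⟩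
  rw [φ, map_sum]
  refine Finset.sum_eq_zero fun c _ => ?_
  rw [smul_eval, eval_map, ← aeval_def, aeval_algebraMap_apply,
    show aeval (D.p i a) (D.G c i) = 0 from D.G_p c i a, map_zero, mul_zero]

lemma η_φ (η : MvPolynomial (Fin (D.n i + 1)) Ω →ₗ[Ω] Ω) (a ω : Fin D.m → Ω) :
    η (φ D i fun c => a c * ω c) = (fun c => ω c * η (map (algebraMap ℂ Ω) (D.G c i))) ⬝ᵥ a := by
  simp only [φ, map_sum, map_smul, smul_eq_mul, dotProduct]
  exact Finset.sum_congr rfl fun c _ => by ring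

lemma cod (hL : St_LIN) {a ω : Fin D.m → Ω} {S : Set Ω} {k : IntermediateField ℂ Ω}
    (hk : k ≤ acl S) (hω : ∀ c, ω c ∈ acl S)
    (hs : ∀ g ∈ AO D Ω i, ∃ a : Fin D.m → Ω, (φ D i fun c => a c * ω c) = g) {c : ℕ}
    (h : Cod (AO D Ω i) k (φ D i fun c => a c * ω c) c) : ∃ e, e + c = D.m ∧ Ov S (range a) e := by
  obtain ⟨η, h1, h2, h3⟩ := h
  obtain ⟨e, b, y, h4, h5, h6⟩ := hL Ω (acl S) (Fin D.m) c
    (fun j c => ω c * η j (map (algebraMap ℂ Ω) (D.G c i))) a
    (fun j c => mul_mem (hω c) (hk (h1 _ _)))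
    (Fintype.linearIndependent_iff.2 fun l hl j => congrFun (h3 l fun g hg => by
      obtain ⟨a', rfl⟩ := hs g hg
      have := congrArg (· ⬝ᵥ a') hl
      simpa only [η_φ, sum_dotProduct, smul_dotProduct, smul_eq_mul, zero_dotProduct] using this) j)
    fun j => (η_φ _ _ _).symm.trans (h2 j)
  refine ⟨e, by simpa using h4, ((Ov.range (S := S) y).mono (subset_acl _) le_rfl
    (by simp)).of_acl ?_⟩
  rintro _ ⟨n, rfl⟩
  rw [h6, Finset.sum_apply]
  exact sum_mem fun j _ => mul_mem (subset_acl _ (Or.inr ⟨j, rfl⟩))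
    (acl_mono subset_union_left (h5 j n))

end CNT

open CNT in
theorem st_cnt (hL : St_LIN) (hF : St_FAC) (hS : St_SURJ) (hC : St_CUBL) (hZ : St_CUBS) :
    St_CNT := by
  intro D hD hU Ω _ _ a P i hP e S hI
  set W : Set Ω := ⋃ j ∈ Finset.univ.erase i, co P j with hW
  have hω : ∀ c, P.ω i c ∈ acl W := fun c => prod_mem fun j hj =>
    acl_mono (subset_biUnion_of_mem (u := co P) hj) ((hF D Ω P j).2.1 c)
  have hs := hS D hD hU Ω P i
  obtain ⟨z1, z2, z3⟩ := hZ D hD Ω i
  have hg := φ_mem (i := i) fun c => a c * P.ω i c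
  have key : ∃ t, t + 3 ≤ D.m + D.n i ∧ Ov W (range a ∪ co P i) t := by
    by_cases h0 : (φ D i fun c => a c * P.ω i c) = 0
    · have h1 : D.r i ≠ 0 ∨ D.n i = 1 := hP.2.elim And.left fun ⟨b, _⟩ => .inl b.pos.ne'
      obtain ⟨e, h2, h3⟩ := cod hL bot_le hω hs (h0 ▸ z2 h1)
      exact ⟨e + D.n i, by omega, h3.trans ((hF D Ω P i).1.mono (empty_subset _) le_rfl le_rfl)⟩
    have h1 : D.r i ≠ 0 := hP.2.elim (fun h => h.1.resolve_right fun h' => h0 (z3 h' _ hg h.2))
      fun ⟨b, _⟩ => b.pos.ne'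
    have h2 := D.n_eq i h1
    have h3 : Ov (W ∪ range a) (co P i) 1 := by
      obtain ⟨-, -, ⟨s, h4⟩, h5⟩ := hF D Ω P i
      refine h5 _ _ 1 _ h2.symm h0 hg.1 (fun μ => ?_) ?_
      · rw [φ, coeff_sum]
        refine sum_mem fun c _ => ?_
        rw [coeff_smul, coeff_map]
        exact mul_mem (mul_mem (subset_acl _ (Or.inr ⟨c, rfl⟩)) (acl_mono subset_union_left (hω c)))
          (IntermediateField.algebraMap_mem _ _)
      · have h6 := congrArg (· * s) hP.1
        simp only [zero_mul, Finset.sum_mul] at h6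
        rw [φ, map_sum, ← h6]
        refine Finset.sum_congr rfl fun c _ => ?_
        rw [smul_eval, eval_map, ← aeval_def, h4, ZP.ω,
          ← Finset.prod_erase_mul _ _ (Finset.mem_univ i)]
        ring
    have h4 : ∃ (U : Finset Ω) (c : ℕ), U.card + 2 ≤ c ∧
        Cod (AO D Ω i) (acl U) (φ D i fun c => a c * P.ω i c) c := by
      rcases hP.2 with h | h
      · exact (hC D hD Ω i h1 _ hg h.2).resolve_left h0
      · obtain ⟨η, b1, b2⟩ := z1 _ h
        exact ⟨∅, 2, le_rfl, η, fun j G => (bot_le : ⊥ ≤ acl _) (b1 j G), b2⟩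
    obtain ⟨U, c, h5, h6⟩ := h4
    obtain ⟨e, h7, h8⟩ := cod hL (S := W ∪ U) (acl_mono subset_union_right)
      (fun c => acl_mono subset_union_left (hω c)) hs h6
    have h9 : Ov W (U : Set Ω) U.card := ⟨U, le_rfl, subset_union_right.trans (subset_acl _)⟩
    exact ⟨U.card + e + 1, by omega,
      ((h9.trans h8).mono (subset_acl _) subset_union_right le_rfl).trans h3⟩
  obtain ⟨t, k1, k2⟩ := key
  have fin : ∀ w, Ov ∅ W w → D.m + e ≤ w + t := fun w h => by
    have h1 := (h.trans (k2.mono (subset_union_right.trans (subset_acl _)) le_rfl le_rfl)).mono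
      (subset_acl _) (T' := range (Sum.elim a (P.v ∘ S))) (by
        rintro _ ⟨c | l, rfl⟩
        · exact Or.inr (Or.inl ⟨c, rfl⟩)
        · by_cases h : (D.sl (S l)).1 = i
          · exact Or.inr (Or.inr ⟨_, h, rfl⟩)
          · exact Or.inl (mem_biUnion (t := co P) (Finset.mem_erase.2 ⟨h, Finset.mem_univ _⟩)
              ⟨_, rfl, rfl⟩)) le_rfl
    simpa using h1.card_le hI
  have hsum := Finset.add_sum_erase _ D.n (Finset.mem_univ i)
  refine ⟨?_, fun j hj d g g0 g1 g2 => ?_⟩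
  · have := fin _ (Ov.biUnion _ fun j _ => (hF D Ω P j).1)
    omega
  · have hj' : j ∈ Finset.univ.erase i := Finset.mem_erase.2 ⟨hj, Finset.mem_univ _⟩
    have h1 := D.n_pos j
    have h2 := fin _ (Ov.biUnion (n := Function.update D.n j (D.n j - 1)) _ fun j' _ => by
      by_cases h : j' = j
      · subst h
        rw [Function.update_self]
        exact (hF D Ω P j').2.2.2 _ d _ (map (algebraMap ℂ Ω) g) (by omega)
          (fun h => g0 (map_injective _ (algebraMap ℂ Ω).injective (h.trans (map_zero _).symm)))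
          (g1.map _) (fun μ => by rw [coeff_map]; exact IntermediateField.algebraMap_mem _ _)
          (by rw [eval_map, ← aeval_def, g2])
      · rw [Function.update_of_ne h]
        exact (hF D Ω P j').1)
    rw [Finset.sum_update_of_mem hj', ← Finset.erase_eq] at h2
    have h3 := Finset.add_sum_erase _ D.n hj'
    omega

end Pool.Agent.Lib.MV.G3
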