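import Pool.Agent.Lib.MV.S3Blue

open MvPolynomial Set

noncomputable section

namespace Pool.Agent.Lib.MV.S3

theorem st_twoi : St_TWOI := by
  intro L _ _ t x hx h
  have h1 : (AlgebraicIndependent.matroid ℂ L).Indep (range x) := hx.to_subtype_range
  have h2 : range x ⊆ (AlgebraicIndependent.matroid ℂ L).closure {t} := by
    rintro _ ⟨j, rfl⟩
    rw [AlgebraicIndependent.matroid_closure_eq, SetLike.mem_coe, Subalgebra.mem_algebraicClosure]
    exact IntermediateField.isAlgebraic_adjoin_iff.1 (h j)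
  have h3 := hx.injective.encard_range.trans ((h1.encard_le_eRk_of_subset h2).trans
    ((Matroid.eRk_closure_eq _ _).le.trans (Matroid.eRk_le_encard _ _)))
  rw [encard_singleton] at h3
  simp at h3

namespace TWOIB

theorem eval_smul' {σ : Type} {G : MvPolynomial σ ℂ} {d : ℕ} (hG : G.IsHomogeneous d) (c : ℂ)
    (z : σ → ℂ) : eval (c • z) G = c ^ d * eval z G := by
  rw [eval_eq, eval_eq, Finset.mul_sum]
  refine Finset.sum_congr rfl fun s hs => ?_
  rw [hG.degree_eq_sum_deg_support hs, ← Finset.prod_pow_eq_pow_sum]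
  simp only [Pi.smul_apply, smul_eq_mul, mul_pow, Finset.prod_mul_distrib]
  ring

theorem conic {T : Type} {n : ℕ} (hn : n = 2) (A : Finset T) (hA : A.card ≤ 5)
    (p : T → Fin (n + 1) → ℂ) : ∃ C : MvPolynomial (Fin (n + 1)) ℂ,
      C ≠ 0 ∧ C.IsHomogeneous n ∧ ∀ a ∈ A, eval (p a) C = 0 := by
  subst hn
  let m : Fin 6 → MvPolynomial (Fin 3) ℂ :=
    ![X 0 * X 0, X 1 * X 1, X 2 * X 2, X 0 * X 1, X 0 * X 2, X 1 * X 2]
  let φ : (Fin 6 → ℂ) →ₗ[ℂ] (A → ℂ) := Fintype.linearCombination ℂ fun i a => eval (p a) (m i)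
  obtain ⟨c, hc, hc0⟩ := Submodule.exists_mem_ne_zero_of_ne_bot
    (LinearMap.ker_ne_bot_of_finrank_lt (f := φ) (by simp; omega))
  refine ⟨∑ i, c i • m i, fun h => hc0 ?_, ?_, fun a ha => ?_⟩
  · have h1 : ∀ z : Fin 3 → ℂ, c 0 * (z 0 * z 0) + c 1 * (z 1 * z 1) + c 2 * (z 2 * z 2) +
        c 3 * (z 0 * z 1) + c 4 * (z 0 * z 2) + c 5 * (z 1 * z 2) = 0 := fun z => by
      have := congrArg (eval z) h
      simpa [m, Fin.sum_univ_six] using this
    have e0 := h1 ![1, 0, 0]
    have e1 := h1 ![0, 1, 0]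
    have e2 := h1 ![0, 0, 1]
    have e3 := h1 ![1, 1, 0]
    have e4 := h1 ![1, 0, 1]
    have e5 := h1 ![0, 1, 1]
    simp at e0 e1 e2
    simp [e0, e1, e2] at e3 e4 e5
    funext i
    fin_cases i
    exacts [e0, e1, e2, e3, e4, e5]
  · refine (homogeneousSubmodule (Fin 3) ℂ 2).sum_mem fun i _ => Submodule.smul_mem _ _ ?_
    fin_cases i <;> exact (isHomogeneous_X ℂ _).mul (isHomogeneous_X ℂ _)
  · have h1 := congrFun (LinearMap.mem_ker.1 hc) ⟨a, ha⟩
    simpa [φ, Fintype.linearCombination_apply] using h1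

end TWOIB

open TWOIB in
theorem st_conq : St_CONQ := by
  intro D j
  refine ⟨fun d G hG h0 h => h0 ?_, fun A hA => ?_⟩
  · have h1 : aeval (Fin.cons 1 fun l => X ⟨j, l⟩ :
        Fin (D.n j + 1) → MvPolynomial (Σ i, Fin (D.n i)) ℂ) G = 0 := by
      refine IsFractionRing.injective (MvPolynomial (Σ i, Fin (D.n i)) ℂ) D.L ?_
      rw [map_zero, ← h, ← IsScalarTower.coe_toAlgHom' ℂ, comp_aeval_apply]
      refine congrArg (fun z => aeval z G) (funext fun l => ?_)
      exact Fin.cases (map_one _) (fun _ => rfl) l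
    have h2 : ∀ z : Fin (D.n j + 1) → ℂ, z 0 = 1 → eval z G = 0 := fun z hz => by
      have h3 := congrArg (aeval (Function.extend (Sigma.mk j) (fun l => z l.succ) 0 :
        (Σ i, Fin (D.n i)) → ℂ)) h1
      rw [map_zero, comp_aeval_apply] at h3
      rw [← h3, ← coe_aeval_eq_eval]
      refine congrArg (fun z => aeval z G) (funext fun l => ?_)
      refine Fin.cases (hz.trans (map_one _).symm) (fun l => ?_) l
      rw [Fin.cons_succ, aeval_X, sigma_mk_injective.extend_apply]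
    have h3 : (X 0 * G : MvPolynomial (Fin (D.n j + 1)) ℂ) = 0 := MvPolynomial.funext fun z => by
      rw [map_mul, eval_X, map_zero]
      by_cases hz : z 0 = 0
      · rw [hz, zero_mul]
      · rw [← smul_inv_smul₀ hz z, eval_smul' hG, h2 ((z 0)⁻¹ • z) (by simp [hz]), mul_zero,
          mul_zero]
    exact (mul_eq_zero.1 h3).resolve_left (X_ne_zero 0)
  · by_cases hr : D.r j = 0
    · refine ⟨X 0 ^ D.n j, pow_ne_zero _ (X_ne_zero 0), isHomogeneous_X_pow 0 _, fun a _ => ?_⟩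
      have := a.2
      omega
    · exact TWOIB.conic (D.n_eq j hr) A hA (D.p j)

end Pool.Agent.Lib.MV.S3
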