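import Pool.Agent.Lib.MV.G3A
import Pool.Agent.Lib.MV.S_TWOI

open MvPolynomial Set Matrix Pool.Agent.Lib.MV.S3 Pool.Agent.Lib.MV.Dat

set_option linter.unusedSectionVars false
set_option linter.unusedVariables false

noncomputable section

namespace Pool.Agent.Lib.MV.G3

namespace CONA

lemma dual {N : ℕ} {ι : Type} [Fintype ι] [DecidableEq ι] {v : ι → Fin N → ℂ}
    (hv : LinearIndependent ℂ v) (c : ι → ℂ) : ∃ w : Fin N → ℂ, ∀ j, w ⬝ᵥ v j = c j := by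
  have h1 : (Matrix.of v).rank = Fintype.card ι := hv.rank_matrix
  have h2 : LinearMap.range (Matrix.of v).mulVecLin = ⊤ :=
    Submodule.eq_top_of_finrank_eq (by simpa [Matrix.rank] using h1)
  obtain ⟨w, hw⟩ := LinearMap.range_eq_top.1 h2 c
  exact ⟨w, fun j => (dotProduct_comm _ _).trans (congrFun hw j)⟩

lemma two {T : Type} (S : Finset T) (h : S.card ≤ 2) (x y : T) :
    ∃ c d, (c ∈ S ∨ c = x) ∧ (d ∈ S ∨ d = y) ∧ ∀ t ∈ S, t = c ∨ t = d := by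
  classical
  obtain h | h | h : S.card = 0 ∨ S.card = 1 ∨ S.card = 2 := by omega
  · rw [Finset.card_eq_zero.1 h]
    exact ⟨x, y, .inr rfl, .inr rfl, by simp⟩
  · obtain ⟨c, rfl⟩ := Finset.card_eq_one.1 h
    exact ⟨c, y, .inl (by simp), .inr rfl, by simp⟩
  · obtain ⟨c, d, -, rfl⟩ := Finset.card_eq_two.1 h
    exact ⟨c, d, .inl (by simp), .inl (by simp), by simp⟩

lemma cover {T : Type} (A : Finset T) (hA : A.card ≤ 4) (G : T → T → Prop)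
    (h1 : ∀ a ∈ A, G a a) (hs : ∀ a b, G a b → G b a)
    (h2 : ∀ a ∈ A, ∀ b c, a ≠ b → a ≠ c → b ≠ c → G a b ∨ G a c) (hne : A.Nonempty) :
    ∃ a b c d, G a c ∧ G b d ∧ ∀ t ∈ A, (t = a ∨ t = c) ∨ t = b ∨ t = d := by
  classical
  have hc : ∀ a ∈ A, ∀ b ∈ A, a ≠ b → ((A.erase a).erase b).card ≤ 2 := fun a ha b hb h => by
    rw [Finset.card_erase_of_mem (Finset.mem_erase.2 ⟨h.symm, hb⟩), Finset.card_erase_of_mem ha]
    omega
  have key : ∃ a ∈ A, ∃ b ∈ A, ((A.erase a).erase b).card ≤ 2 ∧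
      ∀ c ∈ (A.erase a).erase b, G a c ∧ G b c := by
    by_cases hb : ∃ a ∈ A, ∃ b ∈ A, ¬G a b
    · obtain ⟨a, ha, b, hb, h⟩ := hb
      have hab : a ≠ b := fun e => h (e ▸ h1 a ha)
      refine ⟨a, ha, b, hb, hc a ha b hb hab, fun c hc => ?_⟩
      have e1 : c ≠ b := (Finset.mem_erase.1 hc).1
      have e2 : c ≠ a := (Finset.mem_erase.1 (Finset.mem_erase.1 hc).2).1
      exact ⟨(h2 a ha b c hab e2.symm e1.symm).resolve_left h,
        (h2 b hb a c hab.symm e1.symm e2.symm).resolve_left fun h' => h (hs _ _ h')⟩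
    · have hb' : ∀ a ∈ A, ∀ b ∈ A, G a b := fun a ha b hb' => by
        by_contra h
        exact hb ⟨a, ha, b, hb', h⟩
      have hm : ∀ a b, ∀ c ∈ (A.erase a).erase b, c ∈ A := fun a b c h =>
        Finset.mem_of_mem_erase (Finset.mem_of_mem_erase h)
      by_cases h : 1 < A.card
      · obtain ⟨a, ha, b, hb, h⟩ := Finset.one_lt_card.1 h
        exact ⟨a, ha, b, hb, hc a ha b hb h, fun c hc =>
          ⟨hb' a ha c (hm _ _ c hc), hb' b hb c (hm _ _ c hc)⟩⟩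
      · obtain ⟨a, ha⟩ := hne
        exact ⟨a, ha, a, ha, (Finset.card_le_card (hm a a)).trans (by omega), fun c hc =>
          ⟨hb' a ha c (hm _ _ c hc), hb' a ha c (hm _ _ c hc)⟩⟩
  obtain ⟨a, ha, b, hb, h3, h4⟩ := key
  obtain ⟨c, d, h5, h6, h7⟩ := two _ h3 a b
  refine ⟨a, b, c, d, h5.elim (fun h => (h4 c h).1) fun h => h ▸ h1 a ha,
    h6.elim (fun h => (h4 d h).2) fun h => h ▸ h1 b hb, fun t ht => ?_⟩
  by_cases e1 : t = a
  · exact .inl (.inl e1)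
  by_cases e2 : t = b
  · exact .inr (.inl e2)
  exact (h7 t (Finset.mem_erase.2 ⟨e2, Finset.mem_erase.2 ⟨e1, ht⟩⟩)).imp .inr .inr

/-- A linear form. -/
def lf {N : ℕ} (m : Fin N → ℂ) : MvPolynomial (Fin N) ℂ := ∑ l, C (m l) * X l

lemma lf_hom {N : ℕ} (m : Fin N → ℂ) : (lf m).IsHomogeneous 1 :=
  IsHomogeneous.sum _ _ _ fun l _ => isHomogeneous_C_mul_X _ _

lemma aeval_lf {N : ℕ} {Ω : Type} [Field Ω] [Algebra ℂ Ω] (m : Fin N → ℂ) (z : Fin N → Ω) :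
    aeval z (lf m) = ∑ l, m l • z l := by
  simp [lf, Algebra.smul_def]

lemma eval_lf {N : ℕ} (m z : Fin N → ℂ) : eval z (lf m) = m ⬝ᵥ z := by
  simp [lf, dotProduct]

lemma four (D : Dat) (j : Fin D.k) (A : Finset (Fin (D.r j))) (hA : A.card ≤ 4) (Ω : Type)
    [Field Ω] [Algebra ℂ Ω] (z : Fin (D.n j + 1) → Ω) (hz : z ≠ 0)
    (h : ∀ a ∈ A, ∃ k, ∑ l, D.u j a k l • z l ≠ 0) : ∃ q : MvPolynomial (Fin (D.n j + 1)) ℂ,
      q.IsHomogeneous 2 ∧ (∀ a ∈ A, eval (D.p j a) q = 0) ∧ aeval z q ≠ 0 := by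
  rcases A.eq_empty_or_nonempty with rfl | hne
  · obtain ⟨l, hl⟩ := Function.ne_iff.1 hz
    exact ⟨X l ^ 2, isHomogeneous_X_pow l 2, by simp, by simpa using hl⟩
  obtain ⟨a, b, c, d, ⟨m, e1, e2, e3⟩, ⟨m', e4, e5, e6⟩, h7⟩ := cover A hA
    (fun a b => ∃ m : Fin (D.n j + 1) → ℂ,
      m ⬝ᵥ D.p j a = 0 ∧ m ⬝ᵥ D.p j b = 0 ∧ ∑ l, m l • z l ≠ 0)
    (fun a ha => (h a ha).elim fun k hk => ⟨_, D.u_p j a k, D.u_p j a k, hk⟩)
    (fun a b h => h.imp fun _ h => ⟨h.2.1, h.1, h.2.2⟩)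
    (fun a ha b c hab hac hbc => by
      obtain ⟨k, hk⟩ := h a ha
      obtain ⟨w, hw⟩ := dual (D.col j a b c hab hac hbc) ![0, 0, D.u j a k ⬝ᵥ D.p j c]
      have w0 : w ⬝ᵥ D.p j a = 0 := hw 0
      have w1 : w ⬝ᵥ D.p j b = 0 := hw 1
      have w2 : w ⬝ᵥ D.p j c = D.u j a k ⬝ᵥ D.p j c := hw 2
      by_cases h0 : ∑ l, w l • z l = 0
      · refine .inr ⟨D.u j a k - w, by rw [sub_dotProduct, w0, D.u_p, sub_zero],
          by rw [sub_dotProduct, w2, sub_self], ?_⟩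
        simpa only [Pi.sub_apply, sub_smul, Finset.sum_sub_distrib, h0, sub_zero] using hk
      · exact .inl ⟨w, w0, w1, h0⟩) hne
  refine ⟨lf m * lf m', (lf_hom m).mul (lf_hom m'), fun t ht => ?_, ?_⟩
  · rw [map_mul, eval_lf, eval_lf]
    rcases h7 t ht with (rfl | rfl) | rfl | rfl
    · rw [e1, zero_mul]
    · rw [e2, zero_mul]
    · rw [e4, mul_zero]
    · rw [e5, mul_zero]
  · rw [map_mul, aeval_lf, aeval_lf]
    exact mul_ne_zero e3 e6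

end CONA

open CONA in
theorem st_cona : St_CONA := by
  intro D j hr A
  refine ⟨fun hA => four D j A hA, fun hD hA b hb => ?_⟩
  by_cases h4 : A.card ≤ 4
  · obtain ⟨q, h1, h2, h3⟩ := four D j A h4 ℂ (D.p j b) (D.p_ne j b) fun a ha => by
      by_contra! h
      obtain ⟨w, hw⟩ := dual (D.dist j a b fun e => hb (e ▸ ha)) ![0, 1]
      have w1 : w ⬝ᵥ D.p j b = 1 := hw 1
      obtain ⟨c, hc⟩ := span_u j a (m := w) (hw 0)
      have h5 : ∀ k, D.u j a k ⬝ᵥ D.p j b = 0 := h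
      rw [hc, sum_dotProduct] at w1
      simp [h5] at w1
    exact ⟨q, h1, h2, h3⟩
  · obtain ⟨q, h0, h1, h2⟩ := (st_conq D j).2 A hA
    have h3 : q.IsHomogeneous 2 := D.n_eq j hr ▸ h1
    refine ⟨q, h3, h2, fun h => h0 (hD j (insert b A) ?_ q h3 ?_)⟩
    · rw [Finset.card_insert_of_notMem hb]
      omega
    · exact Finset.forall_mem_insert _ _ _ |>.2 ⟨h, h2⟩

end Pool.Agent.Lib.MV.G3
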