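import Pool.Agent.Lib.MV.G3A

open MvPolynomial Set Matrix Pool.Agent.Lib.MV.Dat

set_option linter.unusedSectionVars false
set_option linter.unusedVariables false
set_option linter.style.haveILetI false

noncomputable section

namespace Pool.Agent.Lib.MV.G3

namespace CUBL

variable {F : Type} [Field F]

/-- The linear form with given coefficients. -/
def lf (m : Fin 3 → F) : MvPolynomial (Fin 3) F := ∑ l, C (m l) * X l

lemma lf_hom (m : Fin 3 → F) : (lf m).IsHomogeneous 1 :=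
  IsHomogeneous.sum _ _ _ fun l _ => isHomogeneous_C_mul_X _ _

lemma eval_lf (m z : Fin 3 → F) : eval z (lf m) = m ⬝ᵥ z := by
  simp [lf, dotProduct]

/-- The cross product. -/
def cr (a b : Fin 3 → F) : Fin 3 → F :=
  ![a 1 * b 2 - a 2 * b 1, a 2 * b 0 - a 0 * b 2, a 0 * b 1 - a 1 * b 0]

lemma cr_dot (a b c : Fin 3 → F) : cr a b ⬝ᵥ c = (a 1 * b 2 - a 2 * b 1) * c 0 +
    (a 2 * b 0 - a 0 * b 2) * c 1 + (a 0 * b 1 - a 1 * b 0) * c 2 := by
  simp [cr, dotProduct, Fin.sum_univ_three]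

lemma cramer (A A' e z : Fin 3 → F) : (cr A A' ⬝ᵥ e) • z =
    (cr z A' ⬝ᵥ e) • A + (cr A z ⬝ᵥ e) • A' + (cr A A' ⬝ᵥ z) • e := by
  funext k
  simp only [cr_dot, Pi.add_apply, Pi.smul_apply, smul_eq_mul]
  fin_cases k <;> simp <;> ring

lemma tri {l a b c : Fin 3 → F} (h : cr a b ⬝ᵥ c ≠ 0) (h1 : l ⬝ᵥ a = 0) (h2 : l ⬝ᵥ b = 0)
    (h3 : l ⬝ᵥ c = 0) : l = 0 := by
  funext k
  have h4 := congrArg (l ⬝ᵥ ·) (cramer a b c (Pi.single k 1))
  simp only [dotProduct_add, dotProduct_smul, h1, h2, h3, mul_zero, add_zero, dotProduct_single,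
    mul_one, smul_eq_mul] at h4
  exact (mul_eq_zero.1 h4).resolve_left h

lemma comp_mul {l : MvPolynomial (Fin 3) F} (hl : l.IsHomogeneous 1) (q : MvPolynomial (Fin 3) F) :
    homogeneousComponent 3 (l * q) = l * homogeneousComponent 2 q := by
  induction q using MvPolynomial.induction_on' with
  | monomial u a =>
    have h1 : (monomial u a).IsHomogeneous u.degree := isHomogeneous_monomial a rfl
    rw [homogeneousComponent_of_mem (hl.mul h1), homogeneousComponent_of_mem h1]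
    by_cases h : 2 = u.degree
    · rw [if_pos h, if_pos (by omega)]
    · rw [if_neg h, if_neg (by omega), mul_zero]
  | add p q hp hq => rw [mul_add, map_add, map_add, hp, hq, mul_add]

lemma division [Infinite F] {l e : Fin 3 → F} (he : l ⬝ᵥ e = 1) {g : MvPolynomial (Fin 3) F}
    (hg : g.IsHomogeneous 3) (hv : ∀ z, l ⬝ᵥ z = 0 → eval z g = 0) :
    ∃ q : MvPolynomial (Fin 3) F, q.IsHomogeneous 2 ∧ g = lf l * q := by
  let ρ : MvPolynomial (Fin 3) F →ₐ[F] MvPolynomial (Fin 3) F :=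
    aeval fun k => X k - C (e k) * lf l
  have h1 : ∀ G, lf l ∣ G - ρ G := by
    intro G
    induction G using MvPolynomial.induction_on with
    | C a => simp [ρ]
    | add p q hp hq => rw [map_add, add_sub_add_comm]; exact dvd_add hp hq
    | mul_X p t hp =>
      have : p * X t - ρ (p * X t) = (p - ρ p) * X t + ρ p * C (e t) * lf l := by
        simp only [ρ, map_mul, aeval_X]; ring
      rw [this]
      exact dvd_add (hp.mul_right _) (dvd_mul_left _ _)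
  have h2 : ρ g = 0 := by
    refine MvPolynomial.funext fun z => ?_
    have h3 : eval z (ρ g) = eval (z - (l ⬝ᵥ z) • e) g := by
      simp only [ρ]
      rw [← coe_aeval_eq_eval, ← coe_aeval_eq_eval]
      change aeval z (aeval _ g) = aeval _ g
      rw [← AlgHom.comp_apply, comp_aeval]
      refine congrArg (fun w => aeval w g) (funext fun k => ?_)
      have := eval_lf l z
      rw [← coe_aeval_eq_eval] at this
      simp only [map_sub, map_mul, aeval_X, aeval_C, Pi.sub_apply, Pi.smul_apply, smul_eq_mul]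
      erw [this]
      simp [mul_comm]
    rw [h3, map_zero]
    exact hv _ (by simp [he])
  obtain ⟨q, hq⟩ := h1 g
  rw [h2, sub_zero] at hq
  refine ⟨homogeneousComponent 2 q, homogeneousComponent_isHomogeneous _ _, ?_⟩
  rw [← comp_mul (lf_hom l), ← hq, homogeneousComponent_eq_self hg]

variable {Ω : Type} [Field Ω] [Algebra ℂ Ω]

lemma van {A A' : Fin 3 → Ω} {g : MvPolynomial (Fin 3) Ω}
    (h : ∀ s t : ℂ, eval (s • A + t • A') g = 0) (s t : Ω) : eval (s • A + t • A') g = 0 := by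
  have h1 : ∀ x : Fin 2 → Ω, eval x (aeval (fun k => C (A k) * X 0 + C (A' k) * X 1 :
      Fin 3 → MvPolynomial (Fin 2) Ω) g) = eval (x 0 • A + x 1 • A') g := by
    intro x
    rw [← coe_aeval_eq_eval, ← coe_aeval_eq_eval]
    change aeval x (aeval _ g) = aeval _ g
    rw [← AlgHom.comp_apply, comp_aeval]
    refine congrArg (fun w => aeval w g) (funext fun k => ?_)
    simp [mul_comm]
  have h2 : aeval (fun k => C (A k) * X 0 + C (A' k) * X 1 :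
      Fin 3 → MvPolynomial (Fin 2) Ω) g = 0 := by
    refine MvPolynomial.funext_set (fun _ => range (algebraMap ℂ Ω))
      (fun _ => infinite_range_of_injective (algebraMap ℂ Ω).injective) fun x hx => ?_
    obtain ⟨a, ha⟩ := hx 0 trivial
    obtain ⟨b, hb⟩ := hx 1 trivial
    rw [h1, ← ha, ← hb, algebraMap_smul, algebraMap_smul, h, map_zero]
  have h3 := h1 ![s, t]
  rw [h2, map_zero] at h3
  exact h3.symm

lemma cr_map (a b c : Fin 3 → ℂ) : cr (algebraMap ℂ Ω ∘ a) (algebraMap ℂ Ω ∘ b) ⬝ᵥ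
    (algebraMap ℂ Ω ∘ c) = algebraMap ℂ Ω (cr a b ⬝ᵥ c) := by
  simp [cr_dot]

lemma cr_ne {a b c : Fin 3 → ℂ} (h : cr a b ⬝ᵥ c ≠ 0) : cr (algebraMap ℂ Ω ∘ a)
    (algebraMap ℂ Ω ∘ b) ⬝ᵥ (algebraMap ℂ Ω ∘ c) ≠ 0 := by
  rw [cr_map]; exact (map_ne_zero _).2 h

lemma eval_map' (z : Fin 3 → ℂ) (q : MvPolynomial (Fin 3) ℂ) :
    eval (algebraMap ℂ Ω ∘ z) (map (algebraMap ℂ Ω) q) = algebraMap ℂ Ω (eval z q) := by
  rw [eval_map, ← eval₂_comp]

lemma cod {r : ℕ} {p : Fin r → Fin 3 → ℂ} {l P P' e : Fin 3 → Ω} {k : IntermediateField ℂ Ω}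
    {g : MvPolynomial (Fin 3) Ω} {c : ℕ} (hc : c ≤ 4) (hv : ∀ z, l ⬝ᵥ z = 0 → eval z g = 0)
    (hq : ∀ b, l ⬝ᵥ (algebraMap ℂ Ω ∘ p b) ≠ 0 → ∃ q : MvPolynomial (Fin 3) ℂ, q.IsHomogeneous 2 ∧
      (∀ a, a ≠ b → l ⬝ᵥ (algebraMap ℂ Ω ∘ p a) ≠ 0 → eval (p a) q = 0) ∧ eval (p b) q ≠ 0)
    (hP : l ⬝ᵥ P = 0) (hP' : l ⬝ᵥ P' = 0) (he : cr P P' ⬝ᵥ e ≠ 0) (kP : ∀ j, P j ∈ k)
    (kP' : ∀ j, P' j ∈ k) (hZ : ∀ b, l ⬝ᵥ (algebraMap ℂ Ω ∘ p b) = 0 →
      (algebraMap ℂ Ω ∘ p b = P ∧ c ≤ 3) ∨ (algebraMap ℂ Ω ∘ p b = P' ∧ c ≤ 2)) :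
    Cod {g | g.IsHomogeneous 3 ∧ ∀ a, eval (algebraMap ℂ Ω ∘ p a) g = 0} k g c := by
  classical
  haveI : CharZero Ω := charZero_of_injective_algebraMap (algebraMap ℂ Ω).injective
  let s : Fin 4 → ℤ := ![1, 1, 0, 1]
  let t : Fin 4 → ℤ := ![1, -1, 1, 0]
  let w : Fin 4 → Fin 3 → Ω := fun j => (s j : Ω) • P + (t j : Ω) • P'
  have hw : ∀ j, l ⬝ᵥ w j = 0 := fun j => by simp [w, hP, hP']
  have hst : ∀ j j', j' ≠ j → s j * t j' - s j' * t j ≠ 0 := by decide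
  have hd : ∀ j j', cr (w j') e ⬝ᵥ w j = ((s j * t j' - s j' * t j : ℤ) : Ω) * (cr P P' ⬝ᵥ e) := by
    intro j j'
    simp only [cr_dot, w, Pi.add_apply, Pi.smul_apply, smul_eq_mul]
    push_cast
    ring
  choose! q q1 q2 q3 using hq
  refine ⟨fun j => (aeval (w (Fin.castLE hc j))).toLinearMap, fun j G => ?_, fun j => hv _ (hw _),
    fun lam hl => funext fun j => ?_⟩
  · change aeval _ (map _ G) ∈ k
    rw [aeval_map_algebraMap]
    exact aeval_mem (fun j' => add_mem (mul_mem (intCast_mem k _) (kP j'))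
      (mul_mem (intCast_mem k _) (kP' j'))) G
  let h : MvPolynomial (Fin 3) Ω := ∏ j' ∈ Finset.univ.erase (Fin.castLE hc j), lf (cr (w j') e)
  have h1 : h.IsHomogeneous 3 := by
    have := IsHomogeneous.prod (Finset.univ.erase (Fin.castLE hc j)) (fun j' => lf (cr (w j') e))
      (fun _ => 1) fun j' _ => lf_hom _
    simpa using this
  have h2 : ∀ j', j' ≠ Fin.castLE hc j → eval (w j') h = 0 := fun j' hj => by
    rw [map_prod]
    exact Finset.prod_eq_zero (i := j') (by simp [hj]) (by rw [eval_lf, hd]; simp)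
  have h3 : eval (w (Fin.castLE hc j)) h ≠ 0 := by
    rw [map_prod]
    refine Finset.prod_ne_zero_iff.2 fun j' hj => ?_
    rw [eval_lf, hd]
    exact mul_ne_zero (Int.cast_ne_zero.2 (hst _ _ (Finset.mem_erase.1 hj).1)) he
  let B : Finset (Fin r) := Finset.univ.filter fun b => l ⬝ᵥ (algebraMap ℂ Ω ∘ p b) ≠ 0
  have hB : ∀ b, b ∈ B ↔ l ⬝ᵥ (algebraMap ℂ Ω ∘ p b) ≠ 0 := by simp [B]
  have h4 := hl (h - lf l * ∑ b ∈ B, C (eval (algebraMap ℂ Ω ∘ p b) h /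
    (l ⬝ᵥ (algebraMap ℂ Ω ∘ p b) * algebraMap ℂ Ω (eval (p b) (q b)))) *
      map (algebraMap ℂ Ω) (q b)) ⟨h1.sub ((lf_hom l).mul (IsHomogeneous.sum _ _ 2 fun b hb =>
        ((q1 b ((hB b).1 hb)).map _).C_mul _)), fun a => ?_⟩
  · have h5 : ∀ j' G, (aeval (w j')).toLinearMap (h - lf l * G) = eval (w j') h := by
      intro j' G
      change eval _ _ = _
      rw [map_sub, map_mul, eval_lf, hw, zero_mul, sub_zero]
    simp only [h5] at h4
    rw [Finset.sum_eq_single j (fun j' _ hj => by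
      rw [h2 _ fun h => hj (Fin.castLE_injective hc h), mul_zero]) (by simp)] at h4
    exact (mul_eq_zero.1 h4).resolve_right h3
  rw [map_sub, map_mul, eval_lf]
  by_cases ha : l ⬝ᵥ (algebraMap ℂ Ω ∘ p a) = 0
  · rw [ha, zero_mul, sub_zero]
    have hj := j.2
    rcases hZ a ha with ⟨h5, h6⟩ | ⟨h5, h6⟩
    · have := h2 3 fun h => by have := congrArg Fin.val h; simp at this; omega
      simpa [w, s, t, h5] using this
    · have := h2 2 fun h => by have := congrArg Fin.val h; simp at this; omega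
      simpa [w, s, t, h5] using this
  · rw [map_sum, Finset.sum_eq_single a (fun b hb hba => by
      rw [map_mul, eval_map', q2 b ((hB b).1 hb) a hba.symm ha, map_zero, mul_zero])
      (fun h => absurd ((hB a).2 ha) h), map_mul, eval_C, eval_map']
    have := (map_ne_zero (algebraMap ℂ Ω)).2 (q3 a ha)
    field_simp
    ring

lemma frame {l : Fin 3 → Ω} {a b c : Fin 3 → ℂ} (h : cr a b ⬝ᵥ c ≠ 0)
    (hc : l ⬝ᵥ (algebraMap ℂ Ω ∘ c) ≠ 0) : ∃ (x y : Ω) (P P' e : Fin 3 → Ω), l ⬝ᵥ P = 0 ∧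
      l ⬝ᵥ P' = 0 ∧ cr P P' ⬝ᵥ e ≠ 0 ∧ (l ⬝ᵥ (algebraMap ℂ Ω ∘ a) = 0 → x = 0 ∧
        algebraMap ℂ Ω ∘ a = P) ∧ ∀ k : IntermediateField ℂ Ω, (x ∈ k → ∀ j, P j ∈ k) ∧
          (y ∈ k → ∀ j, P' j ∈ k) := by
  refine ⟨l ⬝ᵥ (algebraMap ℂ Ω ∘ a) / l ⬝ᵥ (algebraMap ℂ Ω ∘ c),
    l ⬝ᵥ (algebraMap ℂ Ω ∘ b) / l ⬝ᵥ (algebraMap ℂ Ω ∘ c), algebraMap ℂ Ω ∘ a -
    (l ⬝ᵥ (algebraMap ℂ Ω ∘ a) / l ⬝ᵥ (algebraMap ℂ Ω ∘ c)) • (algebraMap ℂ Ω ∘ c),
    algebraMap ℂ Ω ∘ b - (l ⬝ᵥ (algebraMap ℂ Ω ∘ b) / l ⬝ᵥ (algebraMap ℂ Ω ∘ c)) •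
    (algebraMap ℂ Ω ∘ c), algebraMap ℂ Ω ∘ c, ?_, ?_, ?_, fun h => by simp [h],
    fun k => ⟨fun h j => sub_mem (k.algebraMap_mem (a j)) (mul_mem h (k.algebraMap_mem (c j))),
      fun h j => sub_mem (k.algebraMap_mem (b j)) (mul_mem h (k.algebraMap_mem (c j)))⟩⟩
  · rw [dotProduct_sub, dotProduct_smul, smul_eq_mul, div_mul_cancel₀ _ hc, sub_self]
  · rw [dotProduct_sub, dotProduct_smul, smul_eq_mul, div_mul_cancel₀ _ hc, sub_self]
  · refine fun h' => cr_ne (Ω := Ω) h (Eq.trans ?_ h')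
    simp only [cr_dot, Pi.sub_apply, Pi.smul_apply, smul_eq_mul]
    ring

lemma core (hB : St_BC) {n r : ℕ} (hn : n = 2) {p : Fin r → Fin (n + 1) → ℂ} (p0 : ∀ a, p a ≠ 0)
    (p1 : ∀ a b, a ≠ b → LinearIndependent ℂ ![p a, p b])
    (p2 : ∀ a b c, a ≠ b → a ≠ c → b ≠ c → LinearIndependent ℂ ![p a, p b, p c])
    (hDP : ∀ A : Finset (Fin r), A.card = 6 → ∀ q : MvPolynomial (Fin (n + 1)) ℂ,
      q.IsHomogeneous 2 → (∀ a ∈ A, eval (p a) q = 0) → q = 0)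
    (hq : ∀ A : Finset (Fin r), A.card ≤ 5 → ∀ b, b ∉ A → ∃ q : MvPolynomial (Fin (n + 1)) ℂ,
      q.IsHomogeneous 2 ∧ (∀ a ∈ A, eval (p a) q = 0) ∧ eval (p b) q ≠ 0)
    {g : MvPolynomial (Fin (n + 1)) Ω} (g1 : g.IsHomogeneous (n + 1))
    (g2 : ∀ a, eval (algebraMap ℂ Ω ∘ p a) g = 0) (hg : BadL g) : g = 0 ∨
    ∃ (U : Finset Ω) (c : ℕ), U.card + 2 ≤ c ∧
      Cod {g | g.IsHomogeneous (n + 1) ∧ ∀ a, eval (algebraMap ℂ Ω ∘ p a) g = 0} (acl U) g c := by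
  classical
  subst hn
  haveI : Infinite Ω := Infinite.of_injective _ (algebraMap ℂ Ω).injective
  obtain ⟨A, A', ⟨i, i', hi⟩, hA⟩ := hg
  obtain ⟨l, hl⟩ : ∃ l, l = cr A A' := ⟨_, rfl⟩
  have l0 : l ≠ 0 := by
    intro h
    have h0 := congrFun h 0
    have h1 := congrFun h 1
    have h2 := congrFun h 2
    simp only [hl, cr, cons_val_zero, cons_val_one, cons_val, Pi.zero_apply] at h0 h1 h2
    apply hi
    fin_cases i <;> fin_cases i' <;> simp <;> first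
      | linear_combination h0 | linear_combination -h0 | linear_combination h1
      | linear_combination -h1 | linear_combination h2 | linear_combination -h2
  obtain ⟨e, he⟩ : ∃ e, l ⬝ᵥ e = 1 := by
    obtain ⟨k, hk⟩ := Function.ne_iff.1 l0
    exact ⟨Pi.single k (l k)⁻¹, by simpa using mul_inv_cancel₀ hk⟩
  have hv : ∀ z, l ⬝ᵥ z = 0 → eval z g = 0 := by
    intro z hz
    have := cramer A A' e z
    rw [← hl, he, hz, one_smul, zero_smul, add_zero] at this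
    rw [this]
    exact van hA _ _
  let B : Finset (Fin r) := Finset.univ.filter fun b => l ⬝ᵥ (algebraMap ℂ Ω ∘ p b) ≠ 0
  have hB' : ∀ b, b ∈ B ↔ l ⬝ᵥ (algebraMap ℂ Ω ∘ p b) ≠ 0 := by simp [B]
  by_cases h6 : 6 ≤ B.card
  · obtain ⟨B', hB1, hB2⟩ := Finset.exists_subset_card_eq h6
    obtain ⟨q, q1, q2⟩ := division he g1 hv
    have h1 := hB Ω 3 2 B' (fun b => p b) q q1 fun b => by
      have := g2 b
      rw [q2, map_mul, eval_lf] at this
      exact (mul_eq_zero.1 this).resolve_left ((hB' b).1 (hB1 b.2))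
    have h2 : q = 0 := by
      refine (Submodule.mem_bot Ω).1 (Submodule.span_le.2 ?_ h1)
      rintro _ ⟨G, ⟨G1, G2⟩, rfl⟩
      simp [hDP B' hB2 G G1 fun a ha => G2 ⟨a, ha⟩]
    exact .inl (by rw [q2, h2, mul_zero])
  have hq' : ∀ b, l ⬝ᵥ (algebraMap ℂ Ω ∘ p b) ≠ 0 → ∃ q : MvPolynomial (Fin 3) ℂ,
      q.IsHomogeneous 2 ∧ (∀ a, a ≠ b → l ⬝ᵥ (algebraMap ℂ Ω ∘ p a) ≠ 0 → eval (p a) q = 0) ∧
        eval (p b) q ≠ 0 := fun b hb => by
    obtain ⟨q, q1, q2, q3⟩ := hq (B.erase b) (Finset.card_erase_le.trans (by omega)) b (by simp)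
    exact ⟨q, q1, fun a h1 h2 => q2 a (Finset.mem_erase.2 ⟨h1, (hB' a).2 h2⟩), q3⟩
  right
  by_cases hZ : ∃ a, l ⬝ᵥ (algebraMap ℂ Ω ∘ p a) = 0
  · obtain ⟨a, ha⟩ := hZ
    by_cases hZ : ∃ b, b ≠ a ∧ l ⬝ᵥ (algebraMap ℂ Ω ∘ p b) = 0
    · obtain ⟨b, hba, hb⟩ := hZ
      obtain ⟨c, hc⟩ : ∃ c, cr (p a) (p b) ⬝ᵥ c ≠ 0 := by
        obtain ⟨k, hk⟩ := Function.ne_iff.1 (crossProduct_ne_zero_iff_linearIndependent.2
          (p1 a b hba.symm))
        exact ⟨Pi.single k 1, by simpa [cr, cross_apply] using hk⟩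
      refine ⟨∅, 2, by simp, cod (by omega) hv hq' ha hb (cr_ne hc)
        (fun j => (acl _).algebraMap_mem _) (fun j => (acl _).algebraMap_mem _) fun d hd => ?_⟩
      by_cases h1 : d = a
      · exact .inl ⟨by rw [h1], by omega⟩
      by_cases h2 : d = b
      · exact .inr ⟨by rw [h2], le_rfl⟩
      refine absurd (tri (cr_ne ?_) ha hb hd) l0
      have h3 := (Matrix.isUnit_iff_isUnit_det _).1 (Matrix.linearIndependent_rows_iff_isUnit.1
        (show LinearIndependent ℂ (Matrix.of ![p a, p b, p d]).row from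
          p2 a b d hba.symm (Ne.symm h1) (Ne.symm h2)))
      refine fun h => h3.ne_zero (Eq.trans ?_ h)
      simp [det_fin_three, cr_dot]
      ring
    · obtain ⟨b, c, h1, h2⟩ : ∃ b c, cr (p a) b ⬝ᵥ c ≠ 0 ∧ l ⬝ᵥ (algebraMap ℂ Ω ∘ c) ≠ 0 := by
        obtain ⟨b, c, h⟩ : ∃ b c, cr (p a) b ⬝ᵥ c ≠ 0 := by
          by_contra! h
          have h0 := h ![0, 1, 0] ![0, 0, 1]
          have h1 := h ![0, 0, 1] ![1, 0, 0]
          have h2 := h ![1, 0, 0] ![0, 1, 0]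
          rw [cr_dot] at h0 h1 h2
          simp at h0 h1 h2
          exact p0 a (funext fun k => by fin_cases k <;> assumption)
        by_cases hc : l ⬝ᵥ (algebraMap ℂ Ω ∘ c) = 0
        · refine ⟨c, b, fun h' => h ?_, fun hb => l0 (tri (cr_ne h) ha hb hc)⟩
          rw [cr_dot] at h' ⊢
          linear_combination -h'
        · exact ⟨b, c, h, hc⟩
      obtain ⟨x, y, P, P', e', f1, f2, f3, f4, f5⟩ := frame h1 h2
      refine ⟨{y}, 3, by simp, cod (by omega) hv hq' f1 f2 f3 ((f5 _).1 ((f4 ha).1 ▸ zero_mem _))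
        ((f5 _).2 (subset_acl _ (by simp))) fun d hd => .inl ⟨?_, le_rfl⟩⟩
      obtain rfl : d = a := by_contra fun h => hZ ⟨d, h, hd⟩
      exact (f4 ha).2
  · obtain ⟨a, b, c, h1, h2⟩ : ∃ a b c : Fin 3 → ℂ, cr a b ⬝ᵥ c ≠ 0 ∧
        l ⬝ᵥ (algebraMap ℂ Ω ∘ c) ≠ 0 := by
      by_contra! h
      exact l0 (tri (cr_ne (a := ![1, 0, 0]) (b := ![0, 1, 0]) (c := ![0, 0, 1])
        (by rw [cr_dot]; simp)) (h ![0, 1, 0] ![0, 0, 1] _ (by rw [cr_dot]; simp))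
        (h ![0, 0, 1] ![1, 0, 0] _ (by rw [cr_dot]; simp))
        (h ![1, 0, 0] ![0, 1, 0] _ (by rw [cr_dot]; simp)))
    obtain ⟨x, y, P, P', e', f1, f2, f3, f4, f5⟩ := frame h1 h2
    exact ⟨{x, y}, 4, by have := Finset.card_le_two (a := x) (b := y); omega,
      cod le_rfl hv hq' f1 f2 f3 ((f5 _).1 (subset_acl _ (by simp)))
        ((f5 _).2 (subset_acl _ (by simp))) fun d hd => absurd ⟨d, hd⟩ hZ⟩

end CUBL

theorem st_cubl (hL : St_LIN) (hB : St_BC) (hC : St_CONA) : St_CUBL :=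
  fun D hD Ω _ _ i hi g hg hb => CUBL.core hB (D.n_eq i hi) (D.p_ne i) (D.dist i) (D.col i) (hD i)
    (fun A => (hC D i hi A).2 hD) hg.1 hg.2 hb

end Pool.Agent.Lib.MV.G3
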