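import Pool.Agent.Lib.MV.G3A

open MvPolynomial Set Matrix Pool.Agent.Lib.MP_e39d36_ag Pool.Agent.Lib.MP_e39d36_ag.Var
  Pool.Agent.Lib.MV.End Pool.Agent.Lib.MV.Fb Pool.Agent.Lib.MV.S3 Pool.Agent.Lib.MV.Dat

set_option linter.unusedSectionVars false
set_option linter.unusedVariables false
set_option linter.style.haveILetI false

noncomputable section

namespace Pool.Agent.Lib.MV.G3

namespace CUBS

variable {Ω : Type} [Field Ω] [Algebra ℂ Ω] {N : ℕ}

/-- Evaluation at a complex point. -/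
def ev (z : Fin N → ℂ) : MvPolynomial (Fin N) Ω →ₗ[Ω] Ω :=
  (aeval (algebraMap ℂ Ω ∘ z) : MvPolynomial (Fin N) Ω →ₐ[Ω] Ω).toLinearMap

lemma ev_apply (z : Fin N → ℂ) (g : MvPolynomial (Fin N) Ω) :
    ev z g = eval (algebraMap ℂ Ω ∘ z) g := rfl

lemma eval_map' (z : Fin N → ℂ) (G : MvPolynomial (Fin N) ℂ) :
    eval (algebraMap ℂ Ω ∘ z) (map (algebraMap ℂ Ω) G) = algebraMap ℂ Ω (eval z G) := by
  rw [eval_map, ← eval₂_comp]

/-- Derivative at a complex point in a complex direction. -/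
def tg (z d : Fin N → ℂ) : MvPolynomial (Fin N) Ω →ₗ[Ω] Ω :=
  ∑ l, algebraMap ℂ Ω (d l) • (ev z ∘ₗ (pderiv l : Derivation Ω _ _).toLinearMap)

lemma tg_apply (z d : Fin N → ℂ) (g : MvPolynomial (Fin N) Ω) :
    tg z d g = ∑ l, algebraMap ℂ Ω (d l) * eval (algebraMap ℂ Ω ∘ z) (pderiv l g) := by
  simp [tg, ev_apply, Algebra.smul_def]

lemma tg_map (z d : Fin N → ℂ) (G : MvPolynomial (Fin N) ℂ) :
    tg z d (map (algebraMap ℂ Ω) G) = algebraMap ℂ Ω (∑ l, d l * eval z (pderiv l G)) := by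
  rw [tg_apply, map_sum]
  refine Finset.sum_congr rfl fun l _ => ?_
  rw [pderiv_map, eval_map', map_mul]

lemma ac_mem {D : Dat} {i : Fin D.k} {G : MvPolynomial (Fin (D.n i + 1)) ℂ} (h : AC D i G) :
    map (algebraMap ℂ Ω) G ∈ AO D Ω i :=
  ⟨h.1.map _, fun a => by rw [eval_map', h.2, map_zero]⟩

lemma two (hT : St_TAN) {D : Dat} (hD : D.DP) (i : Fin D.k) (a : Fin (D.r i)) :
    ∃ d : Fin 2 → Fin (D.n i + 1) → ℂ, ∀ l : Fin 2 → Ω,
      (∀ g ∈ AO D Ω i, ∑ j, l j * tg (D.p i a) (d j) g = 0) → l = 0 := by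
  choose d hd using fun j : Fin 2 => exists_dual_u i a (Pi.single j 1)
  refine ⟨d, fun l hl => ?_⟩
  by_contra h0
  obtain ⟨k, hk⟩ := Function.ne_iff.1 h0
  obtain ⟨g, hg, h1⟩ := hT D hD i a Ω (fun t => ∑ j, l j * algebraMap ℂ Ω (d j t)) ⟨k, by
    have : ∑ t, D.u i a k t • ∑ j, l j * algebraMap ℂ Ω (d j t) =
        ∑ j, l j * algebraMap ℂ Ω (D.u i a k ⬝ᵥ d j) := by
      simp only [dotProduct, map_sum, Finset.mul_sum, Algebra.smul_def, map_mul]
      rw [Finset.sum_comm]
      exact Finset.sum_congr rfl fun _ _ => Finset.sum_congr rfl fun _ _ => by ring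
    rw [this]
    simpa [hd, Pi.single_apply, apply_ite (algebraMap ℂ Ω)] using hk⟩
  refine h1 (Eq.trans ?_ (hl _ (ac_mem hg)))
  simp only [tg_map, map_sum, Finset.mul_sum, Algebra.smul_def, map_mul]
  rw [Finset.sum_comm]
  exact Finset.sum_congr rfl fun _ _ => Finset.sum_congr rfl fun _ _ => by ring

lemma line {n : ℕ} (hn : n = 1) (g : MvPolynomial (Fin (n + 1)) Ω) (h : BadL g) : g = 0 := by
  obtain ⟨A, A', ⟨l, l', hl⟩, h⟩ := h
  have hi := (algebraMap ℂ Ω).injective
  haveI : Infinite Ω := Infinite.of_injective _ hi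
  have he : ∀ y : Fin 2 → Ω, eval y (aeval (fun t => C (A t) * X 0 + C (A' t) * X 1) g :
      MvPolynomial (Fin 2) Ω) = eval (fun t => A t * y 0 + A' t * y 1) g := fun y => by
    rw [← coe_aeval_eq_eval, ← coe_aeval_eq_eval]
    simp only [RingHom.coe_coe]
    rw [← AlgHom.comp_apply, comp_aeval]
    simp
  have h0 : (aeval (fun t => C (A t) * X 0 + C (A' t) * X 1) g : MvPolynomial (Fin 2) Ω) = 0 := by
    refine funext_set (fun _ => range (algebraMap ℂ Ω)) (fun _ => infinite_range_of_injective hi)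
      fun y hy => ?_
    obtain ⟨s, hs⟩ := hy 0 (mem_univ _)
    obtain ⟨t, ht⟩ := hy 1 (mem_univ _)
    rw [he, map_zero, ← h s t]
    congr 2
    funext m
    simp [← hs, ← ht, Algebra.smul_def, mul_comm]
  refine MvPolynomial.funext fun x => ?_
  have hne : l ≠ l' := fun e => hl (by rw [e, sub_self])
  have := he ![(x l * A' l' - x l' * A' l) / (A l * A' l' - A l' * A' l),
    (A l * x l' - A l' * x l) / (A l * A' l' - A l' * A' l)]
  rw [h0, map_zero] at this
  rw [map_zero, this]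
  congr 2
  funext m
  have hm : m = l ∨ m = l' := by
    have := m.2; have := l.2; have := l'.2
    have : (l : ℕ) ≠ l' := fun e => hne (Fin.ext e)
    simp only [Fin.ext_iff]; omega
  rcases hm with rfl | rfl <;>
  · simp only [cons_val_zero, cons_val_one]
    rw [← mul_div_assoc, ← mul_div_assoc, ← add_div, eq_div_iff hl]
    ring

end CUBS

open CUBS in
theorem st_cubs (hT : St_TAN) (hN : St_NOD) : St_CUBS := by
  intro D hD Ω _ _ i
  have hb : ∀ c : ℂ, algebraMap ℂ Ω c ∈ (⊥ : IntermediateField ℂ Ω) := fun c =>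
    IntermediateField.algebraMap_mem _ c
  refine ⟨fun g ⟨a, ha⟩ => ?_, fun h => ?_, fun h g _ hg => line h g hg⟩
  · obtain ⟨d, hd⟩ := two (Ω := Ω) hT hD i a
    exact ⟨fun j => tg (D.p i a) (d j), fun j G => by rw [tg_map]; exact hb _,
      fun j => by simp [tg_apply, ha], hd⟩
  by_cases hr : D.r i = 0
  · have hn := h.resolve_left (not_not.2 hr)
    have h01 : (0 : Fin (D.n i + 1)) ≠ Fin.last _ := by simp [Fin.ext_iff, hn]
    let μ : Fin 3 → Fin (D.n i + 1) →₀ ℕ := fun j =>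
      Finsupp.single (0 : Fin (D.n i + 1)) (2 - (j : ℕ)) + Finsupp.single (Fin.last (D.n i)) (j : ℕ)
    have hμ : Function.Injective μ := fun j j' e => by
      have := DFunLike.congr_fun e (Fin.last _)
      simpa [μ, Finsupp.single_apply, h01, Fin.ext_iff] using this
    refine ⟨fun j => lcoeff Ω (μ j), fun j G => by rw [lcoeff_apply, coeff_map]; exact hb _,
      fun j => map_zero _, fun l hl => funext fun j => ?_⟩
    have := hl (monomial (μ j) 1) ⟨isHomogeneous_monomial _ (by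
      have := j.2
      simp only [μ, map_add, Finsupp.degree_single]; omega), fun a => absurd a.2 (by omega)⟩
    simpa [coeff_monomial, hμ.eq_iff] using this
  · let a : Fin (D.r i) := ⟨0, Nat.pos_of_ne_zero hr⟩
    obtain ⟨d, hd⟩ := two (Ω := Ω) hT hD i a
    obtain ⟨g, hg, h0, h1⟩ := hN D i a
    obtain ⟨z, hz⟩ : ∃ z, eval z g ≠ 0 := by
      by_contra hc
      exact h0 (MvPolynomial.funext fun x => by simpa using not_exists.1 hc x)
    refine ⟨![tg (D.p i a) (d 0), tg (D.p i a) (d 1), ev z], fun j G => ?_,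
      fun j => map_zero _, fun l hl => ?_⟩
    · fin_cases j
      · exact (tg_map (Ω := Ω) _ _ G).symm ▸ hb _
      · exact (tg_map (Ω := Ω) _ _ G).symm ▸ hb _
      · exact (eval_map' (Ω := Ω) z G).symm ▸ hb _
    have h2 : l 2 = 0 := by
      have := hl _ (ac_mem hg)
      simpa [Fin.sum_univ_three, tg_map, h1, ev_apply, -eval_map, eval_map', hz] using this
    have h3 := hd ![l 0, l 1] fun g' hg' => by
      simpa [Fin.sum_univ_three, h2] using hl g' hg'
    funext j
    fin_cases j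
    exacts [congrFun h3 0, congrFun h3 1, h2]

end Pool.Agent.Lib.MV.G3
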