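import Pool.Agent.Lib.MV.S3Blue

open MvPolynomial Set Pool.Agent.Lib.MP_e39d36_ag Pool.Agent.Lib.MP_e39d36_ag.Var
  Pool.Agent.Lib.MP_cc3443_ag Pool.Agent.Lib.MV.End Pool.Agent.Lib.MV.Dat

set_option linter.unusedSectionVars false
set_option linter.unusedVariables false

noncomputable section

namespace Pool.Agent.Lib.MV.S3

namespace VALAB

variable {D : Dat}

/-- The homogeneous coordinates of one factor. -/
def ix (i : Fin D.k) (l : Fin (D.n i + 1)) : D.Vx := .inl ⟨i, l⟩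

lemma rat_G (τ : D.Ch) (c : Fin D.m) (i : Fin D.k) :
    aeval (D.rat D.X τ) (rename (VALAB.ix i) (D.G c i)) =
      aeval (D.X i) (D.G c i) / D.y D.X (τ.1 ⟨i, none⟩) ^ (D.n i + 1) := by
  rw [aeval_rename, ← aeval_div (D.G_hom c i)]
  rfl

lemma rat_U (τ : D.Ch) (i : Fin D.k) (a : Fin (D.r i)) (k : Fin 2) :
    aeval (D.rat D.X τ) (rename (VALAB.ix i) (D.Up i a k)) =
      D.y D.X (.inr (⟨i, a⟩, k)) / D.y D.X (τ.1 ⟨i, none⟩) := by
  rw [aeval_rename, aeval_Up, y_inr, Finset.sum_div]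
  refine Finset.sum_congr rfl fun l _ => ?_
  rw [smul_div_assoc]
  rfl

lemma key (τ : D.Ch) (c : Fin D.m) (i : Fin D.k) (k : Fin (D.r i) → Fin 2)
    (hk : ∀ a, τ.1 ⟨i, some a⟩ = .inr (⟨i, a⟩, k a)) :
    aeval (D.X i) (D.G c i) / D.kap D.X τ i *
      aeval (D.rat D.X τ) (∏ a, rename (VALAB.ix i) (D.Up i a (k a))) =
      aeval (D.rat D.X τ) (rename (VALAB.ix i) (D.G c i)) := by
  rw [rat_G, map_prod]
  simp only [rat_U, ← hk]
  have h1 : D.y D.X (τ.1 ⟨i, none⟩) ≠ 0 := yX_ne _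
  have h2 : ∏ a, D.y D.X (τ.1 ⟨i, some a⟩) ≠ 0 := Finset.prod_ne_zero_iff.2 fun _ _ => yX_ne _
  rw [kap, Finset.prod_div_distrib, Finset.prod_const, Finset.card_univ, Fintype.card_fin,
    zpow_sub₀ h1, zpow_natCast, zpow_add_one₀ h1, zpow_natCast]
  field_simp
  ring

variable {F : Type} [Field F] [Algebra ℂ F] (P : ZP D F)

lemma U_ne (i : Fin D.k) (a : Fin (D.r i)) (k₀ : Fin 2)
    (hk : P.τ.1 ⟨i, some a⟩ = .inr (⟨i, a⟩, k₀))
    (h : ∃ k, ∑ l, D.u i a k l • P.v (.inl ⟨i, l⟩) ≠ 0) :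
    ∑ l, D.u i a k₀ l • P.v (.inl ⟨i, l⟩) ≠ 0 := by
  obtain ⟨k, hk'⟩ := h
  have h1 := P.v_τ ⟨i, some a⟩
  rw [hk] at h1
  have h2 := P.inc i a
  intro h0
  refine hk' ?_
  revert k₀ k
  simp only [Fin.forall_fin_two]
  refine ⟨fun _ => ⟨fun _ _ h0 => h0, fun _ h1 h0 => ?_⟩,
    fun _ => ⟨fun _ h1 h0 => ?_, fun _ _ h0 => h0⟩⟩
  · rwa [h1, h0, one_mul, mul_zero] at h2
  · rw [h1, h0, one_mul, mul_zero] at h2
    exact h2.symm

end VALAB

open VALAB in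
theorem st_vala : St_VALA := by
  intro D F _ _ P i h
  choose k hk using fun a => exists_inr (sl_τ P.τ ⟨i, some a⟩)
  have h1 : aeval P.v (∏ a, rename (VALAB.ix i) (D.Up i a (k a))) ≠ 0 := by
    rw [map_prod]
    refine Finset.prod_ne_zero_iff.2 fun a _ => ?_
    rw [aeval_rename, aeval_Up]
    exact U_ne P i a (k a) (hk a) (h a)
  refine ⟨_, inv_ne_zero h1, fun c => ?_⟩
  rw [eq_inv_mul_iff_mul_eq₀ h1, mul_comm, ← P.θ_aeval, ZP.g, ← map_mul]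
  have h2 := (P.θ_aeval (rename (VALAB.ix i) (D.G c i))).trans (aeval_rename _ _ _)
  refine Eq.trans ?_ h2
  exact congrArg _ (Subtype.ext (key P.τ c i k hk))

end Pool.Agent.Lib.MV.S3
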