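import Pool.Agent.Lib.MV.G3A
import Pool.Agent.Lib.MV.S_VALA

open MvPolynomial Set Matrix Pool.Agent.Lib.MP_e39d36_ag Pool.Agent.Lib.MP_e39d36_ag.Var
  Pool.Agent.Lib.MV.End Pool.Agent.Lib.MV.Fb Pool.Agent.Lib.MV.S3 Pool.Agent.Lib.MV.Dat

set_option linter.unusedSectionVars false
set_option linter.unusedVariables false

noncomputable section

namespace Pool.Agent.Lib.MV.G3

namespace Fac

variable {D : Dat} {Ω : Type} [Field Ω] [Algebra ℂ Ω] (P : ZP D Ω) (j : Fin D.k)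

lemma slot {K : IntermediateField ℂ Ω} (hx : ∀ l, xb P j l ∈ K) (a : Fin (D.r j))
    (h : ∃ k, ∑ l, D.u j a k l • P.v (.inl ⟨j, l⟩) ≠ 0) (k : Fin 2) :
    P.v (.inr (⟨j, a⟩, k)) ∈ K := by
  obtain ⟨k₀, hk⟩ := exists_inr (sl_τ P.τ ⟨j, some a⟩)
  have h0 := VALAB.U_ne P j a k₀ hk h
  have h1 := P.v_τ ⟨j, some a⟩
  rw [hk] at h1
  have h2 := P.inc j a
  have hU : ∀ k, ∑ l, D.u j a k l • P.v (.inl ⟨j, l⟩) ∈ K := fun k =>
    sum_mem fun l _ => K.smul_mem (hx l)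
  revert k₀ k
  simp only [Fin.forall_fin_two]
  refine ⟨⟨fun _ h0 h1 => h1 ▸ one_mem _, fun _ h0 h1 => ?_⟩,
    ⟨fun _ h0 h1 => ?_, fun _ h0 h1 => h1 ▸ one_mem _⟩⟩
  · rw [h1, one_mul] at h2
    rw [eq_div_of_mul_eq h0 h2]
    exact div_mem (hU _) (hU _)
  · rw [h1, one_mul] at h2
    rw [eq_div_of_mul_eq h0 h2.symm]
    exact div_mem (hU _) (hU _)

lemma at_pt {l₀ : Fin (D.n j + 1)} (h₀ : xb P j l₀ = 1) (a : Fin (D.r j))
    (h : ∀ k, ∑ l, D.u j a k l • P.v (.inl ⟨j, l⟩) = 0) :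
    D.p j a l₀ ≠ 0 ∧ ∀ l, xb P j l = algebraMap ℂ Ω (D.p j a l / D.p j a l₀) := by
  have key : ∀ l, D.p j a l₀ • xb P j l = algebraMap ℂ Ω (D.p j a l) := by
    intro l
    obtain ⟨c, hc⟩ := span_u j a (m := Pi.single l (D.p j a l₀) - Pi.single l₀ (D.p j a l))
      (by simp [sub_dotProduct, mul_comm])
    have h1 : ∑ t, (Pi.single l (D.p j a l₀) - Pi.single l₀ (D.p j a l) : _ → ℂ) t • xb P j t = 0 := by
      rw [hc]
      simp only [Finset.sum_apply, Pi.smul_apply, Finset.sum_smul, smul_assoc]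
      rw [Finset.sum_comm]
      refine Finset.sum_eq_zero fun k _ => ?_
      rw [← Finset.smul_sum]
      exact (congrArg (c k • ·) (h k)).trans (smul_zero _)
    simp only [Pi.sub_apply, sub_smul, Finset.sum_sub_distrib, Pi.single_apply, ite_smul, zero_smul,
      Finset.sum_ite_eq', Finset.mem_univ, if_true, h₀, sub_eq_zero] at h1
    rw [h1, Algebra.algebraMap_eq_smul_one]
  have h2 : D.p j a l₀ ≠ 0 := fun h2 => D.p_ne j a (funext fun l => by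
    have := key l
    rw [h2, zero_smul, eq_comm, map_eq_zero] at this
    exact this)
  refine ⟨h2, fun l => ?_⟩
  rw [map_div₀, ← key l, Algebra.smul_def, mul_div_cancel_left₀ _ ((map_ne_zero _).2 h2)]

lemma co_sub {K : IntermediateField ℂ Ω} (hx : ∀ l, xb P j l ∈ K)
    (h : ∀ a k, P.v (.inr (⟨j, a⟩, k)) ∈ K) : co P j ⊆ K := by
  rintro _ ⟨⟨i, l⟩ | ⟨⟨i, a⟩, k⟩, ht, rfl⟩
  · obtain rfl : i = j := ht
    exact hx l
  · obtain rfl : i = j := ht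
    exact h a k

lemma cases {l₀ : Fin (D.n j + 1)} (h₀ : xb P j l₀ = 1) : co P j ⊆ acl (range (xb P j)) ∨
    D.n j = 2 ∧ ∃ w : Ω, co P j ⊆ acl {w} := by
  by_cases h : ∀ a, ∃ k, ∑ l, D.u j a k l • P.v (.inl ⟨j, l⟩) ≠ 0
  · have hx : ∀ l, xb P j l ∈ acl (range (xb P j)) := fun l => subset_acl _ ⟨l, rfl⟩
    exact Or.inl (co_sub P j hx fun a => slot P j hx a (h a))
  · push Not at h
    obtain ⟨a, ha⟩ := h
    obtain ⟨h1, h2⟩ := at_pt P j h₀ a ha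
    refine Or.inr ⟨D.n_eq j (Nat.ne_of_gt (Fin.pos a)),
      P.v (.inr (⟨j, a⟩, 0)) + P.v (.inr (⟨j, a⟩, 1)) - 1, ?_⟩
    set w := P.v (.inr (⟨j, a⟩, 0)) + P.v (.inr (⟨j, a⟩, 1)) - 1 with hw
    have hx : ∀ l, xb P j l ∈ acl {w} := fun l => h2 l ▸ (acl {w}).algebraMap_mem _
    refine co_sub P j hx fun b => ?_
    by_cases hb : b = a
    · subst hb
      obtain ⟨k₀, hk⟩ := exists_inr (sl_τ P.τ ⟨j, some b⟩)
      have h3 := P.v_τ ⟨j, some b⟩
      rw [hk] at h3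
      have h4 : w ∈ acl {w} := subset_acl _ rfl
      revert k₀
      simp only [Fin.forall_fin_two]
      refine ⟨fun _ h3 => ⟨h3 ▸ one_mem _, ?_⟩, fun _ h3 => ⟨?_, h3 ▸ one_mem _⟩⟩
      · rwa [show P.v (.inr (⟨j, b⟩, 1)) = w by rw [hw, h3]; ring]
      · rwa [show P.v (.inr (⟨j, b⟩, 0)) = w by rw [hw, h3]; ring]
    · refine slot P j hx b ?_
      by_contra hc
      push Not at hc
      obtain ⟨h3, h4⟩ := at_pt P j h₀ b hc
      have h5 := (LinearIndependent.pair_iff.1 (D.dist j b a hb)) (D.p j b l₀)⁻¹ (-(D.p j a l₀)⁻¹)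
        (funext fun l => by
          have := (algebraMap ℂ Ω).injective ((h4 l).symm.trans (h2 l))
          simp only [Pi.add_apply, Pi.smul_apply, smul_eq_mul, Pi.zero_apply]
          rw [div_eq_inv_mul, div_eq_inv_mul] at this
          rw [this]; ring)
      exact inv_ne_zero h3 h5.1

lemma ov_one (S : Set Ω) {T : Set Ω} {w : Ω} (h : T ⊆ acl {w}) : Ov S T 1 :=
  ⟨{w}, by simp, h.trans (acl_mono (by simp))⟩

lemma dep (hD : St_DEP) (S : Set Ω) {N e d : ℕ} (he : e + 1 = N) (z : Fin (N + 1) → Ω)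
    (l₀ : Fin (N + 1)) (g : MvPolynomial (Fin (N + 1)) Ω) (h0 : z l₀ = 1) (h1 : g ≠ 0)
    (h2 : g.IsHomogeneous d) (h3 : ∀ μ, coeff μ g ∈ acl S) (h4 : eval z g = 0) :
    Ov S (range z) e := by
  subst he
  exact hD Ω S e d z l₀ g h0 h1 h2 h3 h4

lemma θ_mem {b : D.L} (hb : b ∈ BI D D.X P.τ j) : P.θ ⟨b, BI_le _ _ _ hb⟩ ∈ acl (co P j) := by
  induction hb using Algebra.adjoin_induction with
  | mem w hw =>
    obtain ⟨t, ht, rfl⟩ := hw
    exact subset_acl _ ⟨t, ht, rfl⟩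
  | algebraMap r => exact (P.θ.commutes r).symm ▸ (acl (co P j)).algebraMap_mem r
  | add x y hx hy h1 h2 => exact (map_add P.θ ⟨x, _⟩ ⟨y, _⟩).symm ▸ add_mem h1 h2
  | mul x y hx hy h1 h2 => exact (map_mul P.θ ⟨x, _⟩ ⟨y, _⟩).symm ▸ mul_mem h1 h2

end Fac

theorem st_fac (hD : St_DEP) : St_FAC := by
  intro D Ω _ _ P j
  obtain ⟨l₀, hl⟩ := exists_inl (sl_τ P.τ ⟨j, none⟩)
  have h₀ : xb P j l₀ = 1 := by
    have := P.v_τ ⟨j, none⟩
    rwa [hl] at this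
  refine ⟨?_, fun c => Fac.θ_mem P j (Fb.st_gk D D.L D.X yX_ne P.τ c j), ?_,
    fun S d e g he h1 h2 h3 h4 => ?_⟩
  · rcases Fac.cases P j h₀ with h | ⟨hn, w, h⟩
    · have h1 := Ov.range (S := ∅) fun l => xb P j (l₀.succAbove l)
      rw [Fintype.card_fin] at h1
      refine h1.of_acl (h.trans (acl_le ?_))
      rintro _ ⟨l, rfl⟩
      refine Fin.succAboveCases l₀ ?_ (fun t => ?_) l
      · rw [h₀]; exact one_mem _
      · exact subset_acl _ (Or.inr ⟨t, rfl⟩)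
    · exact (Fac.ov_one ∅ h).mono (subset_acl _) le_rfl (D.n_pos j)
  · choose k hk using fun a => exists_inr (sl_τ P.τ ⟨j, some a⟩)
    refine ⟨aeval P.v (∏ a, rename (VALAB.ix j) (D.Up j a (k a))), fun c => ?_⟩
    rw [← P.θ_aeval, ZP.g, ← map_mul]
    have h2 := (P.θ_aeval (rename (VALAB.ix j) (D.G c j))).trans (aeval_rename _ _ _)
    refine h2.symm.trans ?_
    exact congrArg _ (Subtype.ext (VALAB.key P.τ c j k hk).symm)
  · rcases Fac.cases P j h₀ with h | ⟨hn, w, h⟩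
    · exact (Fac.dep hD S he _ l₀ g h₀ h1 h2 h3 h4).of_acl (h.trans (acl_mono subset_union_right))
    · exact (Fac.ov_one S h).mono (subset_acl _) le_rfl (by omega)

end Pool.Agent.Lib.MV.G3
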