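import Pool.Agent.Lib.MV.G3A
import Pool.Agent.Lib.MV.B_TRD
import Pool.Agent.Lib.MV.B_KER0
import Pool.Agent.Lib.MV.B_KER1
import Pool.Agent.Lib.MV.B_PTZ

open MvPolynomial Set Pool.Agent.Lib.MP_e39d36_ag Pool.Agent.Lib.MP_e39d36_ag.Var
  Pool.Agent.Lib.MV.End Pool.Agent.Lib.MV.Dat

noncomputable section

namespace Pool.Agent.Lib.MV.G3

namespace GEN3

theorem aeval_ne {K : Type} [Field K] [Algebra ℂ K] {n d : ℕ} {g : MvPolynomial (Fin (n + 1)) ℂ}
    (h0 : g ≠ 0) (hg : g.IsHomogeneous d) {x : Fin (n + 1) → K} (h1 : x 0 = 1)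
    (hx : AlgebraicIndependent ℂ fun l : Fin n => x l.succ) : aeval x g ≠ 0 := by
  intro h
  let φ : MvPolynomial (Fin (n + 1)) ℂ →ₐ[ℂ] MvPolynomial (Fin n) ℂ :=
    aeval (Fin.cons 1 fun l => X l : Fin (n + 1) → MvPolynomial (Fin n) ℂ)
  have e : ∀ {F : Type} [Field F] [Algebra ℂ F] (z : Fin (n + 1) → F), z 0 = 1 →
      aeval (fun l : Fin n => z l.succ) (φ g) = aeval z g := fun z hz => by
    have : (aeval fun l : Fin n => z l.succ).comp φ = aeval z :=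
      algHom_ext fun l => Fin.cases (by simp [φ, hz]) (fun l => by simp [φ]) l
    exact AlgHom.congr_fun this g
  have h2 : φ g = 0 := (algebraicIndependent_iff.1 hx) _ ((e x h1).trans h)
  refine mul_ne_zero (X_ne_zero (0 : Fin (n + 1))) h0 (MvPolynomial.funext fun z => ?_)
  rw [map_mul, eval_X, map_zero]
  by_cases hz : z 0 = 0
  · rw [hz, zero_mul]
  · have h3 := e (fun l => z l / z 0) (div_self hz)
    rw [h2, map_zero, aeval_div hg, eq_comm, div_eq_zero_iff] at h3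
    rw [← coe_aeval_eq_eval, RingHom.coe_coe, h3.resolve_right (pow_ne_zero _ hz), mul_zero]

end GEN3

theorem st_gen3 : St_GEN3 := by
  rintro D K _ _ M j e g₀ g d₀ v h0 hg he hL ⟨i, hi⟩
  have hx := ((st_trd st_ker0 (st_ker1 st_ker0 st_ptz) D K M).2.2.1 i).comp
    (fun l : Fin (D.n j) => (⟨⟨j, l⟩, hi⟩ : {w : D.Ax // w.1 ≠ i})) fun l l' h => by
      simpa using h
  have hs : aeval (M.x j) g₀ ≠ 0 := GEN3.aeval_ne h0 hg (M.hyp.one j) hx
  have key : ∀ (E : M.X.PD) τ, (D.B M.x τ).toSubring ≤ M.X.O E.1 →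
      (M.std (Pi.single j v) + M.X.div (aeval (M.x j) g₀)) E =
        M.X.ord (aeval (M.x j) g₀ / D.gen M.x (Pi.single j v) τ) E.1 := fun E τ h => by
    rw [Finsupp.add_apply, M.std_apply h, div_apply, ord_div hs (gA_ne M.ne)]
    exact neg_add_eq_sub _ _
  refine ⟨M.std (Pi.single j v) + M.X.div (aeval (M.x j) g₀), fun E => ?_,
    rg_nc ⟨Pi.single j v, fun a o => ?_, _, hs, ?_⟩, fun R hR T τ h1 h2 hu => hR ?_⟩
  · obtain ⟨τ, h⟩ := M.hyp.chart E.1
    rw [key E τ h.1]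
    exact ord_nonneg (h.1 (hL K M.x M.ne τ).1)
  · by_cases h : a = j
    · subst h
      simp [Lat.sl_self, he]
    · simp [Lat.sl_ne h, h]
  · rw [Mod.std, Fintype.sum_sigma]
  · obtain ⟨h3, b, h4, h5⟩ := hL K M.x M.ne τ
    rw [key R τ (h2.trans h1)]
    rw [h5] at hu
    exact ord_un ((hu.of_mul (h2 h3) (h2 h4)).mono h1)

end Pool.Agent.Lib.MV.G3
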