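import Pool.Agent.Lib.MV.LatBlue

open Set Submodule

namespace Pool.Agent.Lib.MV.Lat

namespace HODGE

variable {r : ℕ}

lemma cs (y : F r) : (∑ a, y (some a)) ^ 2 ≤ r * ∑ a, y (some a) * y (some a) := by
  have := sq_sum_le_card_mul_sum_sq (s := Finset.univ) (f := fun a : Fin r => y (some a))
  simpa only [Finset.card_univ, Fintype.card_fin, sq] using this

lemma q0 (y : F r) : 0 ≤ ∑ a, y (some a) * y (some a) :=
  Finset.sum_nonneg fun _ _ => mul_self_nonneg _

lemma le_q (y : F r) (b : Fin r) : y (some b) * y (some b) ≤ ∑ a, y (some a) * y (some a) :=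
  Finset.single_le_sum (f := fun a => y (some a) * y (some a)) (fun _ _ => mul_self_nonneg _)
    (Finset.mem_univ b)

lemma dk (y : F r) : dot y (kk 2 r) = 3 * dg y - ∑ a, y (some a) := by
  rw [dot_k]; norm_num

lemma ineq {r a S Q : ℝ} (h0 : r = 0 ∨ 1 ≤ r) (h8 : r ≤ 8) (hQ : 0 ≤ Q) (h : S ^ 2 ≤ r * Q) :
    (a * a - Q) * (9 - r) ≤ (3 * a - S) ^ 2 := by
  rcases h0 with rfl | h0
  · have : S = 0 := by nlinarith [sq_nonneg S]
    subst this
    nlinarith
  · have h1 : r * ((a * a - Q) * (9 - r)) ≤ r * (3 * a - S) ^ 2 := by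
      have h2 := mul_le_mul_of_nonneg_left h (show 0 ≤ 9 - r by linarith)
      nlinarith [sq_nonneg (r * a - 3 * S)]
    exact le_of_mul_le_mul_left h1 (by linarith)

lemma fin_sq (R : ℝ) : {x : ℝ | (∃ z : ℤ, x = z) ∧ x * x ≤ R}.Finite := by
  refine ((Set.finite_Icc (-⌈R⌉) ⌈R⌉).image (Int.cast : ℤ → ℝ)).subset ?_
  rintro x ⟨⟨z, rfl⟩, h⟩
  have h1 : ((z * z : ℤ) : ℝ) ≤ (⌈R⌉ : ℤ) := by push_cast; exact h.trans (Int.le_ceil R)
  have h2 : z * z ≤ ⌈R⌉ := by exact_mod_cast h1
  have h3 := Int.le_self_sq z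
  have h4 := Int.le_self_sq (-z)
  exact ⟨z, ⟨by nlinarith, by nlinarith⟩, rfl⟩

end HODGE

open HODGE

theorem st_hodge : St_HODGE := by
  intro r hr y
  have h8 : (r : ℝ) ≤ 8 := by exact_mod_cast hr
  have h0 : (r : ℝ) = 0 ∨ (1 : ℝ) ≤ r := by
    rcases Nat.eq_zero_or_pos r with h | h
    · left; exact_mod_cast h
    · right; exact_mod_cast h
  have hc := cs y
  have hq := q0 y
  rw [dk, dot_apply]
  refine ⟨ineq h0 h8 hq hc, fun h1 h2 => ?_⟩
  have ha : dg y = 0 := by
    have e1 : ∑ a, y (some a) = 3 * dg y := by linarith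
    have e2 : ∑ a, y (some a) * y (some a) = dg y * dg y := by linarith
    rw [e1, e2] at hc
    have h3 := mul_le_mul_of_nonneg_right h8 (mul_self_nonneg (dg y))
    exact mul_self_eq_zero.1 (le_antisymm (by nlinarith) (mul_self_nonneg _))
  have hm : ∀ b, y (some b) = 0 := fun b =>
    mul_self_eq_zero.1 (le_antisymm (by have := le_q y b; rw [ha] at h2; linarith)
      (mul_self_nonneg _))
  funext o
  cases o with
  | none => simpa [dg, hm] using ha
  | some b => exact hm b

theorem st_fin : St_FIN := by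
  intro r hr c s
  have h8 : (r : ℝ) ≤ 8 := by exact_mod_cast hr
  refine (Set.Finite.pi' fun _ : Option (Fin r) =>
    fin_sq (300 * (c * c) + 200 * |s|)).subset fun v hv => ?_
  obtain ⟨hz, h1, h2⟩ := hv
  have hc := cs v
  have hq := q0 v
  rw [dk] at h1
  rw [dot_apply] at h2
  have hs := neg_abs_le s
  have hs0 := abs_nonneg s
  have h3 := mul_le_mul_of_nonneg_right h8 hq
  have e1 : ∑ a, v (some a) = 3 * dg v - c := by linarith
  have e2 : ∑ a, v (some a) * v (some a) = dg v * dg v - s := by linarith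
  have hA : dg v * dg v ≤ 34 * (c * c) + 16 * |s| := by
    have h4 := hc.trans h3
    rw [e1, e2] at h4
    nlinarith [sq_nonneg (dg v - 6 * c)]
  intro o
  refine ⟨hz o, ?_⟩
  cases o with
  | none =>
    have e : v none = c - 2 * dg v := by
      have : dg v = v none + ∑ a, v (some a) := rfl
      linarith
    rw [e]
    nlinarith [sq_nonneg (c + 2 * dg v), mul_self_nonneg c]
  | some b =>
    have := le_q v b
    nlinarith [mul_self_nonneg c]

theorem st_ll (hH : St_HODGE) : St_LL := by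
  intro r hr g e hg he hne
  have h6 : (r : ℝ) ≤ 6 := by exact_mod_cast hr
  obtain ⟨z, hz⟩ := hg.1.dot he.1
  have d1 : dot (g - e) (g - e) = -2 - 2 * z := by
    simp only [map_sub, LinearMap.sub_apply, hg.2.1, he.2.1, dot_comm e g, hz]; ring
  have d2 : dot (g + e) (g + e) = -2 + 2 * z := by
    simp only [map_add, LinearMap.add_apply, hg.2.1, he.2.1, dot_comm e g, hz]; ring
  have k1 : dot (g - e) (kk 2 r) = 0 := by
    simp only [map_sub, LinearMap.sub_apply, hg.2.2, he.2.2]; ring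
  have k2 : dot (g + e) (kk 2 r) = 2 := by
    simp only [map_add, LinearMap.add_apply, hg.2.2, he.2.2]; ring
  obtain ⟨a1, a2⟩ := hH r (by omega) (g - e)
  obtain ⟨b1, -⟩ := hH r (by omega) (g + e)
  rw [d1, k1] at a1 a2
  rw [d2, k2] at b1
  have z1 : z ≠ -1 := by
    rintro rfl
    exact hne (sub_eq_zero.1 (a2 rfl (by norm_num)))
  have z2 : -2 < z := by
    by_contra h
    have : (z : ℝ) ≤ -2 := by exact_mod_cast not_lt.1 h
    nlinarith
  have z3 : z < 2 := by
    by_contra h
    have : (2 : ℝ) ≤ z := by exact_mod_cast not_lt.1 h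
    nlinarith
  have : z = 0 ∨ z = 1 := by omega
  rcases this with rfl | rfl <;> simp [hz]

end Pool.Agent.Lib.MV.Lat
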