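import Pool.Agent.Lib.MV.G3A
import Pool.Agent.Lib.MV.L_HODGE

set_option linter.unusedVariables false

namespace Pool.Agent.Lib.MV.G3

namespace LCL

variable {r : ℕ}

lemma nn (x : ℤ) : 0 ≤ x * (x - 1) := by
  rcases le_or_gt x 0 with h | h <;> nlinarith

lemma two (c : ℤ) (m : Fin r → ℤ) (h : ∑ a, (m a - c) * (m a - c - 1) ≤ 0) :
    ∃ A : Finset (Fin r), (∀ a, m a = if a ∈ A then c + 1 else c) ∧
      ∑ a, m a = c * r + A.card := by
  classical
  have h0 : ∀ a, (m a - c) * (m a - c - 1) = 0 := fun a =>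
    (Finset.sum_eq_zero_iff_of_nonneg fun a _ => nn (m a - c)).1
      (le_antisymm h (Finset.sum_nonneg fun a _ => nn _)) a (Finset.mem_univ a)
  have h1 : ∀ a, m a = if a ∈ Finset.univ.filter (fun a => m a = c + 1) then c + 1 else c := by
    intro a
    by_cases ha : m a = c + 1
    · simp [ha]
    · rcases mul_eq_zero.1 (h0 a) with h2 | h2
      · rw [if_neg (by simpa using ha)]; omega
      · omega
  refine ⟨_, h1, ?_⟩
  generalize Finset.univ.filter (fun a => m a = c + 1) = A at h1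
  have h2 : ∀ a, m a = c + if a ∈ A then 1 else 0 := fun a => by
    rw [h1 a]; split_ifs <;> simp
  simp only [h2, Finset.sum_add_distrib]
  simp [mul_comm]

lemma ex (c : ℤ) (m : Fin r → ℤ) : ∑ a, (m a - c) * (m a - c - 1) =
    ∑ a, m a * m a - (2 * c + 1) * ∑ a, m a + r * (c * (c + 1)) := by
  have : ∀ a, (m a - c) * (m a - c - 1) = m a * m a - (2 * c + 1) * m a + c * (c + 1) :=
    fun a => by ring
  simp only [this, Finset.sum_add_distrib, Finset.sum_sub_distrib]
  rw [← Finset.mul_sum]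
  simp

end LCL

open LCL

theorem st_lcl : St_LCL := by
  classical
  intro r hr e he
  obtain ⟨hz, h1, h2⟩ := he
  choose z hz using hz
  rw [Lat.dot_apply] at h1
  rw [Lat.HODGE.dk] at h2
  have hc := Lat.HODGE.cs e
  obtain ⟨m, hm⟩ : ∃ m : Fin r → ℤ, ∀ a, e (some a) = m a := ⟨fun a => z (some a), fun a => hz _⟩
  obtain ⟨n, hn⟩ : ∃ n : ℤ, e none = n := ⟨_, hz _⟩
  simp only [Lat.dg, hm, hn] at h1 h2 hc
  obtain ⟨S, hS⟩ : ∃ S, S = ∑ a, m a := ⟨_, rfl⟩
  obtain ⟨Q, hQ⟩ : ∃ Q, Q = ∑ a, m a * m a := ⟨_, rfl⟩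
  have e1 : (n + S) * (n + S) - Q = -1 := by rw [hS, hQ]; exact_mod_cast h1
  have e2 : 3 * (n + S) - S = 1 := by rw [hS]; exact_mod_cast h2
  have e3 : S ^ 2 ≤ r * Q := by rw [hS, hQ]; exact_mod_cast hc
  have h7 : (r : ℤ) ≤ 7 := by exact_mod_cast hr
  obtain ⟨d, hd⟩ : ∃ d, d = n + S := ⟨_, rfl⟩
  rw [← hd] at e1 e2
  have eS : S = 3 * d - 1 := by linarith
  have eQ : Q = d * d + 1 := by linarith
  have e4 : (3 * d - 1) ^ 2 ≤ 7 * (d * d + 1) := by
    rw [eS, eQ] at e3
    exact e3.trans (mul_le_mul_of_nonneg_right h7 (by nlinarith [mul_self_nonneg d]))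
  have d0 : 0 ≤ d := by by_contra h; nlinarith
  have d3 : d ≤ 3 := by by_contra h; nlinarith
  have mid : ∀ k : ℕ, d = k → d * d - 3 * d + 2 = 0 → ∃ A : Finset (Fin r),
      (A.card : ℤ) = 3 * k - 1 ∧ e none = (k : ℝ) - A.card ∧
        ∀ a, e (some a) = if a ∈ A then 1 else 0 := by
    intro k hk h0
    obtain ⟨A, a1, a2⟩ := two 0 m (by rw [ex, ← hS, ← hQ]; linarith)
    rw [← hS] at a2
    refine ⟨A, by linarith, ?_, fun a => ?_⟩
    · have : n = k - A.card := by linarith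
      rw [hn, this]; push_cast; rfl
    · rw [hm, a1 a]; split_ifs <;> simp
  have : d = 0 ∨ d = 1 ∨ d = 2 ∨ d = 3 := by omega
  rcases this with h | h | h | h
  · left
    obtain ⟨A, a1, a2⟩ := two 0 (fun a => -m a) (by
      rw [ex]
      simp only [neg_mul_neg, Finset.sum_neg_distrib, ← hS, ← hQ]
      rw [eS, eQ, h]; norm_num)
    simp only [Finset.sum_neg_distrib, ← hS] at a2
    have a3 : A.card = 1 := by omega
    obtain ⟨a, rfl⟩ := Finset.card_eq_one.1 a3
    refine ⟨a, funext fun o => ?_⟩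
    cases o with
    | none =>
      have : n = 1 := by omega
      simp [Lat.ee, Lat.hh, hn, this]
    | some b =>
      have a4 : m b = -(if b = a then 1 else 0) := by
        have := a1 b
        simp only [Finset.mem_singleton] at this
        split_ifs at this ⊢ <;> omega
      rw [hm, a4]
      by_cases hb : b = a <;> simp [Lat.ee, Lat.hh, hb]
  · obtain ⟨A, a1, a2⟩ := mid 1 h (by rw [h]; norm_num)
    exact Or.inr (Or.inl ⟨1, A, Or.inl ⟨rfl, by omega⟩, a2⟩)
  · obtain ⟨A, a1, a2⟩ := mid 2 h (by rw [h]; norm_num)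
    exact Or.inr (Or.inl ⟨2, A, Or.inr ⟨rfl, by omega⟩, a2⟩)
  · right; right
    have s8 : S = 8 := by omega
    have q10 : Q = 10 := by rw [eQ, h]; norm_num
    have b0 : 0 ≤ ∑ a, (m a - 1) * (m a - 1 - 1) := Finset.sum_nonneg fun a _ => nn _
    have b1 := ex 1 m
    rw [← hS, ← hQ, s8, q10] at b1
    have r7 : r = 7 := by omega
    obtain ⟨A, a1, a2⟩ := two 1 m (by omega)
    have a3 : A.card = 1 := by omega
    obtain ⟨a, rfl⟩ := Finset.card_eq_one.1 a3
    refine ⟨r7, a, ?_, fun b => ?_⟩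
    · have : n = -5 := by omega
      rw [hn, this]; norm_num
    · rw [hm, a1 b]
      by_cases hb : b = a <;> simp [hb]

end Pool.Agent.Lib.MV.G3
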