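import Pool.Agent.Lib.MV.G3A
import Pool.Agent.Lib.MV.S_TWOI

open MvPolynomial Set Matrix Pool.Agent.Lib.MV.S3 Pool.Agent.Lib.MV.Dat

set_option linter.unusedSectionVars false
set_option linter.unusedVariables false

noncomputable section

namespace Pool.Agent.Lib.MV.G3

namespace LSEC

lemma taylor {N : ℕ} {B : Type} [CommRing B] [Algebra ℂ B] {w : B} (c ε : Fin N → B)
    (h : ∀ l, w ∣ ε l) (g : MvPolynomial (Fin N) ℂ) :
    w ^ 2 ∣ aeval (c + ε) g - aeval c g - ∑ l, aeval c (pderiv l g) * ε l := by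
  induction g using MvPolynomial.induction_on with
  | C a => simp
  | add p q hp hq =>
    refine (dvd_add hp hq).trans (dvd_of_eq ?_)
    simp only [map_add, add_mul, Finset.sum_add_distrib]
    ring
  | mul_X p t hp =>
    have h1 : w ∣ ∑ l, aeval c (pderiv l p) * ε l := Finset.dvd_sum fun l _ => (h l).mul_left _
    have h2 : ∑ l, aeval c (pderiv l (p * X t)) * ε l =
        (∑ l, aeval c (pderiv l p) * ε l) * c t + aeval c p * ε t := by
      simp only [pderiv_mul, map_add, map_mul, aeval_X, add_mul, Finset.sum_add_distrib,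
        Finset.sum_mul]
      rw [Finset.sum_eq_single t (f := fun l => aeval c p * aeval c (pderiv l (X t)) * ε l)
        (fun l _ hl => by simp [pderiv_X_of_ne hl.symm]) (by simp)]
      simp [mul_right_comm]
    refine (dvd_add (hp.mul_right (c t + ε t)) (sq w ▸ mul_dvd_mul h1 (h t))).trans (dvd_of_eq ?_)
    rw [h2, map_mul, map_mul, aeval_X, aeval_X, Pi.add_apply]
    ring

lemma sq_dvd {N : ℕ} {B : Type} [CommRing B] [Algebra ℂ B] {z : Fin N → B} {w : B}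
    {p : Fin N → ℂ} (hp : p ≠ 0) (h : ∀ v, v ⬝ᵥ p = 0 → w ∣ Fintype.linearCombination ℂ z v)
    {g : MvPolynomial (Fin N) ℂ} {d : ℕ} (hg : g.IsHomogeneous d) (h0 : eval p g = 0)
    (h1 : ∀ l, eval p (pderiv l g) = 0) : w ^ 2 ∣ aeval z g := by
  obtain ⟨m, hm, -⟩ := KapB.exists_dot (W := ⊥) hp
  let c : Fin N → B := fun l => Fintype.linearCombination ℂ z m * algebraMap ℂ B (p l)
  have h2 : ∀ {G : MvPolynomial (Fin N) ℂ} {e : ℕ}, G.IsHomogeneous e → eval p G = 0 →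
      aeval c G = 0 := fun {G} _ hG h0 => by
    rw [KapB.aeval_mul hG, show (fun l => algebraMap ℂ B (p l)) = algebraMap ℂ _ ∘ p from rfl,
      aeval_algebraMap_apply, show aeval p G = 0 from h0, map_zero, mul_zero]
  have h3 := taylor (w := w) c (z - c) (fun l => by
    have h3 := h (Pi.single l 1 - p l • m) (by
      rw [sub_dotProduct, smul_dotProduct, hm, single_dotProduct]; simp)
    rwa [map_sub, map_smul, Fintype.linearCombination_apply_single, one_smul, Algebra.smul_def,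
      mul_comm] at h3) g
  simpa [h2 hg h0, fun l => h2 hg.pderiv (h1 l)] using h3

variable {D : Dat} {F : Type} [Field F] [Algebra ℂ F] {x : ∀ i, Fin (D.n i + 1) → F}
  {j : Fin D.k} {g : MvPolynomial (Fin (D.n j + 1)) ℂ} {d : ℕ} {m : Fin (D.r j) → ℕ}

lemma w_mem (τ : D.Ch) (a : Fin (D.r j)) :
    D.y x (τ.1 ⟨j, some a⟩) / D.y x (τ.1 ⟨j, none⟩) ∈ D.B x τ := by
  obtain ⟨k, hk⟩ := KapB.sl_some (τ.2 ⟨j, some a⟩)
  rw [hk]
  exact U_div_mem_B j a k

lemma core (hy : ∀ t, D.y x t ≠ 0) (τ : D.Ch) (hg : g.IsHomogeneous d)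
    (hm : ∀ a, m a ≤ 2 ∧ (1 ≤ m a → eval (D.p j a) g = 0) ∧
      (2 ≤ m a → ∀ l, eval (D.p j a) (pderiv l g) = 0)) :
    aeval (x j) g / (D.y x (τ.1 ⟨j, none⟩) ^ d *
      ∏ a, (D.y x (τ.1 ⟨j, some a⟩) / D.y x (τ.1 ⟨j, none⟩)) ^ m a) ∈ D.B x τ := by
  obtain ⟨l0, h0⟩ := KapB.sl_none (τ.2 ⟨j, none⟩)
  let z : Fin (D.n j + 1) → D.B x τ := fun l => ⟨_, rat_mem τ (.inl ⟨j, l⟩)⟩
  let w : Fin (D.r j) → D.B x τ := fun a => ⟨_, w_mem τ a⟩
  have h1 : ∀ a (c : Fin 2 → ℂ), w a ∣ Fintype.linearCombination ℂ z (∑ k, c k • D.u j a k) :=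
    fun a c => by
    rw [map_sum]
    refine Finset.dvd_sum fun k _ => ?_
    rw [map_smul, Algebra.smul_def]
    refine Dvd.dvd.mul_left ⟨⟨_, rat_mem τ (.inr (⟨j, a⟩, k))⟩, Subtype.ext ?_⟩ _
    change _ = _ / _ * (_ / D.y x (τ.1 ⟨j, some a⟩))
    rw [mul_comm, div_mul_div_cancel₀ (hy _), y_inr, Finset.sum_div]
    simp [Fintype.linearCombination_apply, z, rat, sl, smul_div_assoc]
  have h2 : ∀ a v, v ⬝ᵥ D.p j a = 0 → w a ∣ Fintype.linearCombination ℂ z v := fun a v hv => by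
    obtain ⟨c, rfl⟩ := span_u j a hv
    exact h1 a c
  have h3 : ∀ a b, a ≠ b → IsCoprime (w a) (w b) := fun a b hab => by
    obtain ⟨c, c', e⟩ := two_pts hab (Pi.single l0 1)
    obtain ⟨s, hs⟩ := h1 a c
    obtain ⟨s', hs'⟩ := h1 b c'
    refine ⟨s, s', ?_⟩
    rw [mul_comm s, mul_comm s', ← hs, ← hs', ← map_add, ← e,
      Fintype.linearCombination_apply_single, one_smul]
    exact Subtype.ext (h0 ▸ rat_self hy ⟨j, none⟩ :)
  obtain ⟨b, hb⟩ : ∏ a, w a ^ m a ∣ aeval z g :=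
    Finset.prod_dvd_of_coprime (fun a _ b _ hab => (h3 a b hab).pow) fun a _ => by
      obtain ⟨h4, h5, h6⟩ := hm a
      obtain h | h | h : m a = 0 ∨ m a = 1 ∨ m a = 2 := by omega
      · simp [h]
      · rw [h, pow_one]; exact KapB.dvd_aeval (D.p_ne j a) (h2 a) hg (h5 h.ge)
      · rw [h]; exact sq_dvd (D.p_ne j a) (h2 a) hg (h5 (by omega)) (h6 h.ge)
  have h4 := congrArg (D.B x τ).val hb
  rw [← AlgHom.comp_apply, comp_aeval, map_mul, map_prod] at h4
  simp only [map_pow] at h4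
  replace h4 : aeval (fun l => x j l / D.y x (τ.1 ⟨j, none⟩)) g =
    (∏ a, (D.y x (τ.1 ⟨j, some a⟩) / D.y x (τ.1 ⟨j, none⟩)) ^ m a) * b := h4
  rw [← div_div, ← aeval_div hg, h4, mul_div_cancel_left₀ _
    (Finset.prod_ne_zero_iff.2 fun a _ => pow_ne_zero _ (div_ne_zero (hy _) (hy _)))]
  exact b.2

lemma lsec (hg : g.IsHomogeneous d) (hm : ∀ a, m a ≤ 2 ∧ (1 ≤ m a → eval (D.p j a) g = 0) ∧
      (2 ≤ m a → ∀ l, eval (D.p j a) (pderiv l g) = 0)) :
    Lsec D j (fun o => o.elim ((d : ℤ) - ∑ a, m a) fun a => m a) g g := by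
  intro F _ _ x hy τ
  have h1 : D.gen x (Pi.single j fun o => o.elim ((d : ℤ) - ∑ a, m a) fun a => m a) τ =
      D.y x (τ.1 ⟨j, none⟩) ^ d *
        ∏ a, (D.y x (τ.1 ⟨j, some a⟩) / D.y x (τ.1 ⟨j, none⟩)) ^ m a := by
    rw [gen_single, Fintype.prod_option]
    simp only [Option.elim, zpow_sub₀ (hy _), zpow_natCast, div_pow, Finset.prod_div_distrib,
      Finset.prod_pow_eq_pow_sum]
    ring
  rw [h1]
  refine ⟨core hy τ hg hm, _, prod_mem (t := Finset.univ) fun a _ => pow_mem (w_mem τ a) (m a), ?_⟩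
  rw [← div_div, div_mul_cancel₀ _
    (Finset.prod_ne_zero_iff.2 fun a _ => pow_ne_zero _ (div_ne_zero (hy _) (hy _)))]
  exact aeval_div hg (x j) (D.y x (τ.1 ⟨j, none⟩))

lemma line (A : Finset (Fin (D.r j))) (hA : A.card ≤ D.n j) :
    ∃ g : MvPolynomial (Fin (D.n j + 1)) ℂ, g ≠ 0 ∧ g.IsHomogeneous 1 ∧
      ∀ a ∈ A, eval (D.p j a) g = 0 := by
  let φ : (Fin (D.n j + 1) → ℂ) →ₗ[ℂ] (A → ℂ) := Fintype.linearCombination ℂ fun l a => D.p j a l
  obtain ⟨c, hc, hc0⟩ := Submodule.exists_mem_ne_zero_of_ne_bot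
    (LinearMap.ker_ne_bot_of_finrank_lt (f := φ) (by simp; omega))
  refine ⟨∑ l, C (c l) * X l, fun h => hc0 (funext fun l => ?_),
    IsHomogeneous.sum _ _ _ fun l _ => isHomogeneous_C_mul_X _ _, fun a ha => ?_⟩
  · simpa [Pi.single_apply] using congrArg (eval (Pi.single l 1)) h
  · simpa [φ, Fintype.linearCombination_apply] using congrFun (LinearMap.mem_ker.1 hc) ⟨a, ha⟩

end LSEC

open LSEC

theorem st_kap2 : St_KAP2 := by
  intro D F _ _ x hy τ j a g hg h
  have h1 := core (m := fun b => 1 + if b = a then 1 else 0) hy τ hg.1 fun b =>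
    ⟨by split_ifs <;> simp, fun _ => hg.2 b, fun hb => by
      obtain rfl : b = a := by by_contra hb'; simp [hb'] at hb
      exact h⟩
  refine (congrArg (aeval (x j) g / · ∈ D.B x τ) ?_).mp h1
  simp only [pow_add, pow_one, Finset.prod_mul_distrib, pow_ite, pow_zero, Finset.prod_ite_eq',
    Finset.mem_univ, if_true, Finset.prod_div_distrib, Finset.prod_const, Finset.card_fin, kap,
    zpow_sub₀ (hy _), zpow_add₀ (hy _), zpow_natCast, zpow_one]
  ring

theorem st_lsec (hL : St_LCL) (hN : St_NOD) (hK : St_KAP2) : St_LSEC := by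
  intro D j e he
  obtain ⟨a, rfl⟩ | ⟨d, A, hd, h0, h1⟩ | ⟨hr, a, h0, h1⟩ := hL _ (D.r_le j) e he
  · refine ⟨1, D.Up j a 0, 0, 1, Pi.single none 1 - Pi.single (some a) 1, one_ne_zero,
      fun h => yX_ne (D := D) (.inr (⟨j, a⟩, 0)) (by rw [y_inr, ← aeval_Up, h, map_zero]),
      isHomogeneous_one _ _, isHomogeneous_Up j a 0, fun o => by
        simp [Lat.ee, Lat.hh, Pi.single_apply], fun F _ _ x hy τ => ?_⟩
    have h2 : aeval (x j) (1 : MvPolynomial _ ℂ) / D.gen x (Pi.single j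
        (Pi.single none 1 - Pi.single (some a) 1)) τ =
        D.y x (τ.1 ⟨j, some a⟩) / D.y x (τ.1 ⟨j, none⟩) := by
      rw [Pi.single_sub, gen, gA_sub hy, map_one, one_div_div]
      exact congrArg₂ _ (gen_h ⟨j, some a⟩) (gen_h ⟨j, none⟩)
    rw [h2]
    refine ⟨w_mem τ a, _, rat_mem τ (.inr (⟨j, a⟩, 0)), ?_⟩
    change aeval (fun l => x j l / D.y x (τ.1 ⟨j, none⟩)) _ =
      _ / _ * (_ / D.y x (τ.1 ⟨j, some a⟩))
    rw [aeval_div (isHomogeneous_Up j a 0), pow_one, aeval_Up, mul_comm,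
      div_mul_div_cancel₀ (hy _)]
    rfl
  · have hn : D.n j = 2 := D.n_eq j fun h => by
      have := A.card_le_univ
      rw [Fintype.card_fin] at this
      omega
    obtain ⟨g, h2, h3, h4⟩ : ∃ g : MvPolynomial (Fin (D.n j + 1)) ℂ, g ≠ 0 ∧ g.IsHomogeneous d ∧
        ∀ a ∈ A, eval (D.p j a) g = 0 := by
      obtain ⟨rfl, h⟩ | ⟨rfl, h⟩ := hd
      · exact line A (by omega)
      · exact hn ▸ (st_conq D j).2 A h.le
    refine ⟨g, g, d, d, _, h2, h2, h3, h3, fun o => ?_,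
      lsec (m := fun a => if a ∈ A then 1 else 0) h3 fun a => ⟨by split_ifs <;> simp,
        fun h => h4 a (by by_contra h'; simp [h'] at h), fun h => by split_ifs at h <;> omega⟩⟩
    cases o <;> simp [h0, h1]
  · obtain ⟨g, h2, h3, h4⟩ := hN D j a
    refine ⟨g, g, _, _, _, h3, h3, h2.1, h2.1, fun o => ?_,
      lsec (m := fun b => 1 + if b = a then 1 else 0) h2.1 fun b => ⟨by split_ifs <;> simp,
        fun _ => h2.2 b, fun hb => by
          obtain rfl : b = a := by by_contra hb'; simp [hb'] at hb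
          exact h4⟩⟩
    cases o with
    | none =>
      simp [h0, Finset.sum_add_distrib, D.n_eq j (by omega)]
      norm_num [hr]
    | some b =>
      simp only [h1, Option.elim]
      split_ifs <;> norm_num

end Pool.Agent.Lib.MV.G3
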