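import Pool.Agent.Lib.MV.G3A

open MvPolynomial Set Matrix Pool.Agent.Lib.MP_e39d36_ag Pool.Agent.Lib.MP_e39d36_ag.Var
  Pool.Agent.Lib.MV.End Pool.Agent.Lib.MV.Fb Pool.Agent.Lib.MV.S3 Pool.Agent.Lib.MV.Dat

set_option linter.unusedSectionVars false
set_option linter.unusedVariables false

noncomputable section

namespace Pool.Agent.Lib.MV.G3

namespace OFF

variable (D : Dat) (j : Fin D.k)

lemma spanU (a : Fin (D.r j)) {m : Fin (D.n j + 1) → ℂ} (h : m ⬝ᵥ D.p j a = 0) :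
    ∃ c : Fin 2 → ℂ, m = ∑ k, c k • D.u j a k := by
  let φ : (Fin (D.n j + 1) → ℂ) →ₗ[ℂ] ℂ := (dotProductBilin ℂ ℂ).flip (D.p j a)
  have h1 : LinearMap.range φ = ⊤ := by
    obtain ⟨l, hl⟩ := Function.ne_iff.1 (D.p_ne j a)
    refine LinearMap.range_eq_top.2 fun c => ⟨Pi.single l (c / D.p j a l), ?_⟩
    simpa [φ] using div_mul_cancel₀ c hl
  have h2 := φ.finrank_range_add_finrank_ker
  have h3 := D.n_eq j (Fin.pos a).ne'
  rw [h1] at h2
  have h4 : Submodule.span ℂ (range (D.u j a)) = LinearMap.ker φ :=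
    Submodule.eq_of_le_of_finrank_eq (Submodule.span_le.2 (by
      rintro _ ⟨k, rfl⟩; exact D.u_p j a k)) (by
        rw [finrank_span_eq_card (D.u_ind j a)]; simp at h2 ⊢; omega)
  obtain ⟨c, hc⟩ := (Submodule.mem_span_range_iff_exists_fun ℂ).1 (h4.ge (show m ∈ _ from h))
  exact ⟨c, hc.symm⟩

lemma ker (a b c : Fin (D.r j)) (hab : a ≠ b) (hac : a ≠ c) (hbc : b ≠ c) (s t : ℂ)
    (h : ∀ k, s * (D.u j a k ⬝ᵥ D.p j b) + t * (D.u j a k ⬝ᵥ D.p j c) = 0) : s = 0 ∧ t = 0 := by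
  obtain ⟨l, hl⟩ := Function.ne_iff.1 (D.p_ne j a)
  have hl' : D.p j a l ≠ 0 := hl
  have h1 := Fintype.linearIndependent_iff.1 (D.col j a b c hab hac hbc)
    ![-(s * D.p j b l + t * D.p j c l), D.p j a l * s, D.p j a l * t] (by
      funext l'
      obtain ⟨e, he⟩ := spanU D j a (m := Pi.single l' (D.p j a l) - Pi.single l (D.p j a l'))
        (by simp [mul_comm])
      have h2 := congrArg (· ⬝ᵥ D.p j b) he
      have h3 := congrArg (· ⬝ᵥ D.p j c) he
      simp only [sub_dotProduct, single_dotProduct, Fin.sum_univ_two, add_dotProduct,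
        smul_dotProduct, smul_eq_mul] at h2 h3
      simp only [Fin.sum_univ_three, Matrix.cons_val_zero, Matrix.cons_val_one, Matrix.cons_val_two,
        Matrix.head_cons, Matrix.tail_cons, Pi.add_apply, Pi.smul_apply, smul_eq_mul, Pi.zero_apply]
      linear_combination s * h2 + t * h3 + e 0 * h 0 + e 1 * h 1)
  exact ⟨(mul_eq_zero.1 (h1 1)).resolve_left hl', (mul_eq_zero.1 (h1 2)).resolve_left hl'⟩

/-- The line through two of the points. -/
def ln (a b : Fin (D.r j)) : MvPolynomial (Fin (D.n j + 1)) ℂ :=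
  C (D.u j a 1 ⬝ᵥ D.p j b) * D.Up j a 0 - C (D.u j a 0 ⬝ᵥ D.p j b) * D.Up j a 1

lemma up_hom (a : Fin (D.r j)) (k : Fin 2) : (D.Up j a k).IsHomogeneous 1 :=
  IsHomogeneous.sum _ _ _ fun l _ => (isHomogeneous_X ℂ l).C_mul _

lemma up_aeval {Ω : Type} [Field Ω] [Algebra ℂ Ω] (a : Fin (D.r j)) (k : Fin 2)
    (w : Fin (D.n j + 1) → Ω) : aeval w (D.Up j a k) = ∑ l, D.u j a k l • w l := by
  simp [Up, Algebra.smul_def]

lemma up_eval (a : Fin (D.r j)) (k : Fin 2) (w : Fin (D.n j + 1) → ℂ) :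
    eval w (D.Up j a k) = D.u j a k ⬝ᵥ w := by
  simp [Up, dotProduct]

lemma ln_hom (a b : Fin (D.r j)) : (ln D j a b).IsHomogeneous 1 :=
  ((up_hom D j a 0).C_mul _).sub ((up_hom D j a 1).C_mul _)

lemma ln_a (a b : Fin (D.r j)) : eval (D.p j a) (ln D j a b) = 0 := by
  simp [ln, up_eval, D.u_p]

lemma ln_b (a b : Fin (D.r j)) : eval (D.p j b) (ln D j a b) = 0 := by
  simp only [ln, map_sub, map_mul, eval_C, up_eval]
  ring

lemma bad {Ω : Type} [Field Ω] [Algebra ℂ Ω] (z : Fin (D.n j + 1) → Ω) (a b c : Fin (D.r j))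
    (hab : a ≠ b) (hac : a ≠ c) (hbc : b ≠ c) (hz : ∃ k, ∑ l, D.u j a k l • z l ≠ 0)
    (hb : aeval z (ln D j a b) = 0) (hc : aeval z (ln D j a c) = 0) : False := by
  simp only [ln, map_sub, map_mul, aeval_C, up_aeval] at hb hc
  obtain ⟨k, hk⟩ := hz
  have hd : algebraMap ℂ Ω ((D.u j a 0 ⬝ᵥ D.p j b) * (D.u j a 1 ⬝ᵥ D.p j c) -
      (D.u j a 1 ⬝ᵥ D.p j b) * (D.u j a 0 ⬝ᵥ D.p j c)) = 0 := by
    refine (mul_eq_zero.1 ?_).resolve_right hk
    rw [map_sub, map_mul, map_mul]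
    obtain rfl | rfl : k = 0 ∨ k = 1 := by fin_cases k <;> simp
    · linear_combination algebraMap ℂ Ω (D.u j a 0 ⬝ᵥ D.p j b) * hc -
        algebraMap ℂ Ω (D.u j a 0 ⬝ᵥ D.p j c) * hb
    · linear_combination algebraMap ℂ Ω (D.u j a 1 ⬝ᵥ D.p j b) * hc -
        algebraMap ℂ Ω (D.u j a 1 ⬝ᵥ D.p j c) * hb
  rw [map_eq_zero] at hd
  have h1 := ker D j a b c hab hac hbc (D.u j a 1 ⬝ᵥ D.p j c) (-(D.u j a 1 ⬝ᵥ D.p j b))
    (Fin.forall_fin_two.2 ⟨by linear_combination hd, by ring⟩)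
  have h0 := ker D j a b c hab hac hbc (D.u j a 0 ⬝ᵥ D.p j c) (-(D.u j a 0 ⬝ᵥ D.p j b))
    (Fin.forall_fin_two.2 ⟨by ring, by linear_combination -hd⟩)
  exact one_ne_zero (ker D j a b c hab hac hbc 1 0 (Fin.forall_fin_two.2
    ⟨by linear_combination -h0.2, by linear_combination -h1.2⟩)).1

lemma good {Ω : Type} [Field Ω] [Algebra ℂ Ω] (z : Fin (D.n j + 1) → Ω) (a : Fin (D.r j))
    (hr : 4 ≤ D.r j) (hz : ∃ k, ∑ l, D.u j a k l • z l ≠ 0) :
    ∃ b c, a ≠ b ∧ a ≠ c ∧ b ≠ c ∧ aeval z (ln D j a b) ≠ 0 ∧ aeval z (ln D j a c) ≠ 0 := by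
  classical
  have h1 : ((Finset.univ.erase a).filter fun b => aeval z (ln D j a b) = 0).card ≤ 1 := by
    refine Finset.card_le_one.2 fun b hb c hc => ?_
    by_contra hbc
    rw [Finset.mem_filter, Finset.mem_erase] at hb hc
    exact bad D j z a b c hb.1.1.symm hc.1.1.symm hbc hz hb.2 hc.2
  have h2 := Finset.card_filter_add_card_filter_not (s := Finset.univ.erase a)
    fun b => aeval z (ln D j a b) = 0
  rw [Finset.card_erase_of_mem (Finset.mem_univ a), Finset.card_univ, Fintype.card_fin] at h2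
  obtain ⟨b, hb, c, hc, hbc⟩ := Finset.one_lt_card.1 (show 1 < ((Finset.univ.erase a).filter
    fun b => ¬aeval z (ln D j a b) = 0).card by omega)
  rw [Finset.mem_filter, Finset.mem_erase] at hb hc
  exact ⟨b, c, hb.1.1.symm, hc.1.1.symm, hbc, hb.2, hc.2⟩

lemma ac (hr : D.r j ≠ 0) {l q : MvPolynomial (Fin (D.n j + 1)) ℂ} (hl : l.IsHomogeneous 1)
    (hq : q.IsHomogeneous 2) (h : ∀ a, eval (D.p j a) l = 0 ∨ eval (D.p j a) q = 0) :
    AC D j (l * q) := by
  have key : ∀ d, d = 1 + 2 → (l * q).IsHomogeneous d := by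
    rintro _ rfl
    exact hl.mul hq
  refine ⟨key _ (by have := D.n_eq j hr; omega), fun a => ?_⟩
  rw [map_mul]
  exact mul_eq_zero.2 (h a)

lemma ac2 (hr : D.r j ≠ 0) (a b : Fin (D.r j)) {q : MvPolynomial (Fin (D.n j + 1)) ℂ}
    (hq : q.IsHomogeneous 2) (h : ∀ e ∈ (Finset.univ.erase a).erase b, eval (D.p j e) q = 0) :
    AC D j (ln D j a b * q) := by
  refine ac D j hr (ln_hom D j a b) hq fun e => ?_
  by_cases h1 : e = a
  · exact Or.inl (h1 ▸ ln_a D j e b)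
  by_cases h2 : e = b
  · exact Or.inl (h2 ▸ ln_b D j a e)
  exact Or.inr (h e (by simp [h1, h2]))

end OFF

open OFF in
theorem st_off (hC : St_CONA) : St_OFF := by
  classical
  intro D hD j hr Ω _ _ z hz
  let a : Fin (D.r j) := ⟨0, Nat.pos_of_ne_zero hr⟩
  have z0 : z ≠ 0 := by
    rintro rfl
    obtain ⟨k, hk⟩ := hz a
    simp at hk
  have ca : (Finset.univ.erase a).card = D.r j - 1 := by
    rw [Finset.card_erase_of_mem (Finset.mem_univ a), Finset.card_univ, Fintype.card_fin]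
  by_cases h5 : D.r j ≤ 5
  · obtain ⟨q, h1, h2, h3⟩ := (hC D j hr (Finset.univ.erase a)).1 (by omega) Ω z z0
      fun e _ => hz e
    obtain ⟨k, hk⟩ := hz a
    refine ⟨D.Up j a k * q, ac D j hr (up_hom D j a k) h1 fun e => ?_, ?_⟩
    · by_cases he : e = a
      · exact Or.inl (by rw [he, up_eval, D.u_p])
      · exact Or.inr (h2 e (by simp [he]))
    · rw [map_mul, up_aeval]
      exact mul_ne_zero hk h3
  obtain ⟨b, c, hab, hac, hbc, hb, hc⟩ := good D j z a (by omega) (hz a)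
  have cb : ((Finset.univ.erase a).erase b).card = D.r j - 1 - 1 := by
    rw [Finset.card_erase_of_mem (by simp [hab.symm]), ca]
  have cc : ((Finset.univ.erase a).erase c).card = D.r j - 1 - 1 := by
    rw [Finset.card_erase_of_mem (by simp [hac.symm]), ca]
  have cbc : (((Finset.univ.erase a).erase b).erase c).card = D.r j - 1 - 1 - 1 := by
    rw [Finset.card_erase_of_mem (by simp [hac.symm, hbc.symm]), cb]
  have h7 := D.r_le j
  by_cases h6 : D.r j ≤ 6
  · obtain ⟨q, h1, h2, h3⟩ := (hC D j hr ((Finset.univ.erase a).erase b)).1 (by omega) Ω z z0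
      fun e _ => hz e
    exact ⟨_, ac2 D j hr a b h1 h2, by rw [map_mul]; exact mul_ne_zero hb h3⟩
  obtain ⟨q, h1, h2, h3⟩ := (hC D j hr ((Finset.univ.erase a).erase b)).2 hD (by omega) b (by simp)
  obtain ⟨q', h1', h2', h3'⟩ :=
    (hC D j hr ((Finset.univ.erase a).erase c)).2 hD (by omega) c (by simp)
  by_cases hq : aeval z q = 0
  swap
  · exact ⟨_, ac2 D j hr a b h1 h2, by rw [map_mul]; exact mul_ne_zero hb hq⟩
  by_cases hq' : aeval z q' = 0
  swap
  · exact ⟨_, ac2 D j hr a c h1' h2', by rw [map_mul]; exact mul_ne_zero hc hq'⟩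
  obtain ⟨q₀, g1, g2, g3⟩ := (hC D j hr (((Finset.univ.erase a).erase b).erase c)).1 (by omega)
    Ω z z0 fun e _ => hz e
  have h0 := hD j (Finset.univ.erase a) (by omega)
    (q₀ - C (eval (D.p j b) q₀ / eval (D.p j b) q) * q -
      C (eval (D.p j c) q₀ / eval (D.p j c) q') * q')
    ((g1.sub (h1.C_mul _)).sub (h1'.C_mul _)) fun e he => by
      have hea : e ≠ a := (Finset.mem_erase.1 he).1
      simp only [map_sub, map_mul, eval_C]
      by_cases e1 : e = b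
      · rw [e1, h2' b (by simp [hab.symm, hbc]), div_mul_cancel₀ _ h3]
        ring
      by_cases e2 : e = c
      · rw [e2, h2 c (by simp [hac.symm, hbc.symm]), div_mul_cancel₀ _ h3']
        ring
      rw [g2 e (by simp [hea, e1, e2]), h2 e (by simp [hea, e1]), h2' e (by simp [hea, e2])]
      ring
  have h8 := congrArg (aeval z) h0
  simp only [map_sub, map_mul, hq, hq', mul_zero, sub_zero, map_zero] at h8
  exact absurd h8 g3

end Pool.Agent.Lib.MV.G3
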