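import Pool.Agent.Lib.MV.G3A
import Pool.Agent.Lib.MV.S_VALA

open MvPolynomial Set Pool.Agent.Lib.MP_e39d36_ag Pool.Agent.Lib.MV.S3 Pool.Agent.Lib.MV.Dat

set_option linter.unusedVariables false
set_option linter.style.haveILetI false

noncomputable section

namespace Pool.Agent.Lib.MV.G3

namespace RES3

variable {K : Type} [Field K] [Algebra ℂ K]

lemma red {T : Subring K} (hT : IsLoc T) (hc : ∀ c : ℂ, algebraMap ℂ K c ∈ T) :
    ∃ (κ : Type) (_ : Field κ) (_ : Algebra ℂ κ) (π : K → κ),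
      (∀ z ∈ T, π z = 0 ↔ ¬Un T z) ∧ (∀ u ∈ T, ∀ v ∈ T, π (u * v) = π u * π v) ∧
      ∀ (σ : Type) (w : σ → K), (∀ t, w t ∈ T) → ∀ Q : MvPolynomial σ ℂ,
        aeval w Q ∈ T ∧ π (aeval w Q) = aeval (π ∘ w) Q := by
  classical
  haveI := hT.isLocalRing
  let ι : ℂ →+* T := (algebraMap ℂ K).codRestrict T hc
  letI : Algebra ℂ (IsLocalRing.ResidueField T) := ((IsLocalRing.residue T).comp ι).toAlgebra
  obtain ⟨π, hπ⟩ : ∃ π : K → IsLocalRing.ResidueField T,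
      ∀ z (h : z ∈ T), π z = IsLocalRing.residue T ⟨z, h⟩ :=
    ⟨fun z => if h : z ∈ T then IsLocalRing.residue T ⟨z, h⟩ else 0, fun z h => dif_pos h⟩
  refine ⟨IsLocalRing.ResidueField T, inferInstance, inferInstance, π, fun z hz => ?_,
    fun u hu v hv => ?_, fun σ w hw Q => ?_⟩
  · rw [hπ z hz, IsLocalRing.residue_eq_zero_iff, IsLocalRing.mem_maximalIdeal,
      mem_nonunits_iff, isUnit_iff_un]
  · rw [hπ _ (mul_mem hu hv), hπ _ hu, hπ _ hv, ← map_mul]; rfl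
  · induction Q using MvPolynomial.induction_on with
    | C c => rw [aeval_C, aeval_C]; exact ⟨hc c, hπ _ (hc c)⟩
    | add p q hp hq =>
      obtain ⟨a1, a2⟩ := hp
      obtain ⟨b1, b2⟩ := hq
      rw [map_add, map_add, ← a2, ← b2]
      refine ⟨add_mem a1 b1, ?_⟩
      rw [hπ _ (add_mem a1 b1), hπ _ a1, hπ _ b1]
      exact map_add (IsLocalRing.residue T) ⟨_, a1⟩ ⟨_, b1⟩
    | mul_X p t hp =>
      obtain ⟨a1, a2⟩ := hp
      rw [map_mul, map_mul, aeval_X, aeval_X, ← a2]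
      refine ⟨mul_mem a1 (hw t), ?_⟩
      rw [hπ _ (mul_mem a1 (hw t)), hπ _ a1, Function.comp, hπ _ (hw t)]
      exact map_mul (IsLocalRing.residue T) ⟨_, a1⟩ ⟨_, hw t⟩

lemma pick {σ : Type} [Finite σ] {v : σ → K} {e : ℕ} {b : Fin e → K}
    (h : AlgebraicIndependent ℂ b) (hb : ∀ i, b i ∈ acl (range v)) :
    ∃ S : Fin e → σ, AlgebraicIndependent ℂ (v ∘ S) := by
  obtain ⟨I, hI⟩ := (AlgebraicIndependent.matroid ℂ K).exists_isBasis (range v)
  have hf : I.Finite := (finite_range v).subset hI.subset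
  have h1 : Ov ∅ (range b) hf.toFinset.card := ⟨_, le_rfl, by
    rw [empty_union, hf.coe_toFinset, coe_acl, hI.closure_eq_closure, ← coe_acl]
    exact range_subset_iff.2 hb⟩
  haveI := hf.fintype
  obtain ⟨f⟩ := Function.Embedding.nonempty_of_card_le (α := Fin e) (β := I)
    ((h1.card_le h).trans (by simp))
  choose S hS using fun i => hI.subset (f i).2
  have h2 : AlgebraicIndependent ℂ (fun z : I => z.1) := hI.indep
  exact ⟨S, (funext hS : v ∘ S = (fun z : I => z.1) ∘ f) ▸ h2.comp f f.injective⟩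

variable {D : Dat}

lemma key {x : ∀ i, Fin (D.n i + 1) → K} (hy : ∀ t, D.y x t ≠ 0) (τ : D.Ch) (c : Fin D.m)
    (i : Fin D.k) (k : Fin (D.r i) → Fin 2) (hk : ∀ a, τ.1 ⟨i, some a⟩ = .inr (⟨i, a⟩, k a)) :
    aeval (D.rat x τ) (∏ a, rename (VALAB.ix i) (D.Up i a (k a))) ≠ 0 ∧
    aeval (x i) (D.G c i) / D.kap x τ i *
      aeval (D.rat x τ) (∏ a, rename (VALAB.ix i) (D.Up i a (k a))) =
      aeval (D.rat x τ) (rename (VALAB.ix i) (D.G c i)) := by
  have a1 : aeval (D.rat x τ) (rename (VALAB.ix i) (D.G c i)) =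
      aeval (x i) (D.G c i) / D.y x (τ.1 ⟨i, none⟩) ^ (D.n i + 1) := by
    rw [aeval_rename, ← aeval_div (D.G_hom c i)]
    rfl
  have a2 : ∀ a k, aeval (D.rat x τ) (rename (VALAB.ix i) (D.Up i a k)) =
      D.y x (.inr (⟨i, a⟩, k)) / D.y x (τ.1 ⟨i, none⟩) := fun a k => by
    rw [aeval_rename, aeval_Up, y_inr, Finset.sum_div]
    refine Finset.sum_congr rfl fun l _ => ?_
    rw [smul_div_assoc]
    rfl
  rw [a1, map_prod]
  simp only [a2, ← hk]
  have h1 : D.y x (τ.1 ⟨i, none⟩) ≠ 0 := hy _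
  have h2 : ∏ a, D.y x (τ.1 ⟨i, some a⟩) ≠ 0 := Finset.prod_ne_zero_iff.2 fun _ _ => hy _
  refine ⟨Finset.prod_ne_zero_iff.2 fun _ _ => div_ne_zero (hy _) h1, ?_⟩
  rw [kap, Finset.prod_div_distrib, Finset.prod_const, Finset.card_univ, Fintype.card_fin,
    zpow_sub₀ h1, zpow_natCast, zpow_add_one₀ h1, zpow_natCast]
  field_simp
  ring

lemma evs {m N : ℕ} (w : Fin m → K) (H : Fin m → MvPolynomial (Fin N) ℂ) (z : Fin N → K) :
    eval z (∑ c, w c • map (algebraMap ℂ K) (H c)) =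
      aeval (Sum.elim w z) (∑ c, X (.inl c) * rename .inr (H c)) := by
  simp only [map_sum, map_mul, aeval_X, aeval_rename, smul_eval, eval_map, Sum.elim_inl,
    Sum.elim_comp_inr, ← aeval_def]

end RES3

open RES3 in
theorem st_res3 : St_RES3 := by
  intro D a K _ _ x hy hC i b e few A T τ τ' hT hA hAT ⟨β, hβ, hβ'⟩ hτ hb
  have hc : ∀ c : ℂ, algebraMap ℂ K c ∈ T := fun c => hτ ((D.B x τ).algebraMap_mem c)
  obtain ⟨κ, _, _, π, p1, p2, p3⟩ := red hT hc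
  have hr : ∀ t, D.rat x τ t ∈ T := fun t => hτ (rat_mem τ t)
  have p0 : π 0 = 0 := (p1 0 (zero_mem _)).2 fun h => h.1 rfl
  have pm : ∀ {u v}, u ∈ T → v ∈ T → π (u * v) = π u * π v := fun hu hv => p2 _ hu _ hv
  have pc : ∀ c : ℂ, π (algebraMap ℂ K c) = algebraMap ℂ κ c := fun c => by
    simpa using (p3 _ (D.rat x τ) hr (C c)).2
  obtain ⟨P, rfl, hv⟩ := exists_ZP τ (π ∘ D.rat x τ) fun Q hQ => by
    rw [← (p3 _ _ hr Q).2, (hC τ Q).2 ⟨0, zero_mem _, by rw [hQ, mul_zero]⟩, p0]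
  choose Q hQ using fun c j => mem_B_iff.1 (g_mem D P.τ c j)
  have q1 : ∀ c j, P.g c j = aeval P.v (Q c j) := fun c j =>
    (congrArg _ (Subtype.ext (hQ c j).symm)).trans (P.θ_aeval _)
  have q2 : ∀ c j, aeval (x j) (D.G c j) / D.kap x P.τ j = aeval (D.rat x P.τ) (Q c j) :=
    fun c j => by
      choose k hk using fun a => exists_inr (sl_τ P.τ ⟨j, some a⟩)
      obtain ⟨h1, h2⟩ := key hy P.τ c j k hk
      have h3 := (hC P.τ (Q c j * (∏ a, rename (VALAB.ix j) (D.Up j a (k a))) -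
        rename (VALAB.ix j) (D.G c j))).2 ⟨0, zero_mem _, by
          rw [map_sub, map_mul, hQ, VALAB.key P.τ c j k hk, sub_self, mul_zero]⟩
      rw [map_sub, map_mul, ← h2, sub_eq_zero] at h3
      exact (mul_right_cancel₀ h1 h3).symm
  have on : ∑ c, (algebraMap ℂ κ ∘ a) c * ∏ j, P.g c j = 0 := by
    have h1 := (hC P.τ (∑ c, C (a c) * ∏ j, Q c j)).2 ⟨1, one_mem _, by
      simp only [map_sum, map_mul, map_prod, aeval_C, hQ, fa, Algebra.smul_def, mul_one]⟩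
    have h2 := (p3 _ _ hr (∑ c, C (a c) * ∏ j, Q c j)).2
    rw [h1, p0, ← hv] at h2
    simpa only [map_sum, map_mul, map_prod, aeval_C, ← q1, Function.comp] using h2.symm
  let w : Fin D.m → K := fun c => algebraMap ℂ K (a c) *
    ∏ j ∈ Finset.univ.erase i, aeval (x j) (D.G c j) / D.kap x P.τ j
  have hw : ∀ c, w c ∈ T ∧ π (w c) = (algebraMap ℂ κ ∘ a) c * P.ω i c := fun c => by
    have := p3 _ _ hr (C (a c) * ∏ j ∈ Finset.univ.erase i, Q c j)
    rw [← hv] at this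
    simp only [map_mul, map_prod, aeval_C, ← q1, ← q2] at this
    exact this
  have he : ∀ (H : Fin D.m → MvPolynomial (Fin (D.n i + 1)) ℂ) (z : Fin (D.n i + 1) → K),
      (∀ l, z l ∈ T) → ¬Un T (eval z (∑ c, w c • map (algebraMap ℂ K) (H c))) →
      eval (π ∘ z) (∑ c, ((algebraMap ℂ κ ∘ a) c * P.ω i c) • map (algebraMap ℂ κ) (H c)) = 0 :=
    fun H z hz h => by
      have h1 := p3 _ (Sum.elim w z) (Sum.rec (fun c => (hw c).1) hz)
        (∑ c, X (.inl c) * rename .inr (H c))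
      rw [evs] at h ⊢
      rw [← (p1 _ h1.1).2 h, h1.2, Sum.comp_elim]
      exact congrArg (fun u => aeval (Sum.elim u _) _) (funext fun c => (hw c).2.symm)
  have hk : ∀ z ∈ D.B x τ', π z ∈ acl (range P.v) := fun z hz => by
    obtain ⟨R, rfl⟩ := mem_B_iff.1 hz
    have h0 := hA.1.trans hAT
    rw [(p3 _ _ (fun t => h0 (rat_mem τ' t)) R).2]
    refine aeval_mem (fun t => ?_) R
    have h1 := un_of_B_le hy hτ h0 (D.sl t)
    have h2 : D.y x (τ'.1 (D.sl t)) / D.y x (P.τ.1 (D.sl t)) = D.rat x P.τ (τ'.1 (D.sl t)) := by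
      rw [rat, τ'.2]
    have h3 : D.rat x τ' t * D.rat x P.τ (τ'.1 (D.sl t)) = D.rat x P.τ t := by
      rw [← h2, rat, rat, div_mul_div_cancel₀ (hy _)]
    rw [h2] at h1
    have h4 := pm (h0 (rat_mem τ' t)) (hr (τ'.1 (D.sl t)))
    rw [h3, ← div_eq_iff fun h => (p1 _ (hr _)).1 h h1] at h4
    rw [Function.comp, ← h4]
    exact div_mem (subset_acl _ ⟨t, congrFun hv t⟩) (subset_acl _ ⟨_, congrFun hv _⟩)
  obtain ⟨S, hS⟩ := pick (v := P.v) (b := π ∘ β) (algebraicIndependent_iff.2 fun R hR => by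
    by_contra h
    have h1 := p3 _ β (fun l => hAT (hβ l)) R
    exact (p1 _ h1.1).1 (h1.2.trans hR) (hβ' R h)) fun l => by
      obtain ⟨u, u1, u2, u3⟩ := hA.2 _ (hβ l)
      have h1 := pm (hAT u2.2.1) (hAT (hβ l))
      rw [mul_comm (π u), ← div_eq_iff fun h => (p1 _ (hAT u2.2.1)).1 h (u2.mono hAT)] at h1
      rw [Function.comp, ← h1]
      exact div_mem (hk _ u3) (hk _ u1)
  have hb' : aeval P.v b = 0 := by
    rw [hv, ← (p3 _ _ hr b).2]; exact (p1 _ (p3 _ _ hr b).1).2 hb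
  refine ⟨fun hi A₁ A₂ m1 m2 ⟨l, l', m3⟩ => ?_, fun c => ?_⟩ <;> by_contra! h <;>
    refine few κ P ⟨on, ?_⟩ hb' S hS
  · have h1 := fun (l : Fin (D.n i + 1)) (R : MvPolynomial (Fin 2) ℂ) =>
      p3 _ ![A₁ l, A₂ l] (by simp [Fin.forall_fin_two, m1, m2]) R
    refine .inl ⟨hi, π ∘ A₁, π ∘ A₂, ⟨l, l', fun h2 => ?_⟩, fun s t => ?_⟩
    · have h3 := p3 _ ![A₁ l, A₂ l', A₁ l', A₂ l] (by simp [Fin.forall_fin_succ, m1, m2])
        (X 0 * X 1 - X 2 * X 3)
      refine (p1 _ m3.2.1).1 ?_ m3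
      simpa [show π (A₁ l) * π (A₂ l') - π (A₁ l') * π (A₂ l) = 0 from h2] using h3.2
    · have h3 : ∀ l, (s • A₁ + t • A₂) l ∈ T ∧ π ((s • A₁ + t • A₂) l) =
          (s • (π ∘ A₁) + t • (π ∘ A₂)) l := fun l => by
        have := h1 l (C s * X 0 + C t * X 1)
        simp only [map_add, map_mul, aeval_C, aeval_X, ← Algebra.smul_def] at this
        exact this
      rw [← (funext fun l => (h3 l).2 : π ∘ _ = _)]
      exact he (fun c => D.G c i) _ (fun l => (h3 l).1) (h s t)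
  · refine .inr ⟨c, fun l => ?_⟩
    have h1 := h l
    simp only [Φa, φ, map_sum, Derivation.map_smul, pderiv_map] at h1 ⊢
    rw [← map_sum] at h1 ⊢
    rw [← (funext fun l => pc _ : π ∘ algebraMap ℂ K ∘ D.p i c = algebraMap ℂ κ ∘ D.p i c)]
    exact he (fun c => pderiv l (D.G c i)) _ (fun l => hc _) h1

end Pool.Agent.Lib.MV.G3
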