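import Pool.Agent.Lib.MV.G3A

open MvPolynomial Set Matrix Pool.Agent.Lib.MP_e39d36_ag Pool.Agent.Lib.MP_e39d36_ag.Var
  Pool.Agent.Lib.MV.End Pool.Agent.Lib.MV.Fb Pool.Agent.Lib.MV.S3 Pool.Agent.Lib.MV.Dat

set_option linter.unusedSectionVars false
set_option linter.unusedVariables false

noncomputable section

namespace Pool.Agent.Lib.MV.G3

namespace SURJ

variable {D : Dat}

/-- The substitution that keeps the variables of one factor. -/
def sub (D : Dat) (i : Fin D.k) : ∀ j : Fin D.k, Fin (D.n j + 1) →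
    MvPolynomial (Fin (D.n i + 1)) D.L :=
  Function.update (β := fun j : Fin D.k => Fin (D.n j + 1) → MvPolynomial (Fin (D.n i + 1)) D.L)
    (fun j l => C (D.X j l)) i fun l => MvPolynomial.X l

lemma sub_prod (i : Fin D.k) (g : ∀ j, MvPolynomial (Fin (D.n j + 1)) ℂ) :
    aeval (fun s : Σ j, Fin (D.n j + 1) => sub D i s.1 s.2)
      (∏ j, rename (Sigma.mk j) (g j) : MvPolynomial (Σ j, Fin (D.n j + 1)) ℂ) =
      C (∏ j ∈ Finset.univ.erase i, aeval (D.X j) (g j)) * map (algebraMap ℂ D.L) (g i) := by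
  rw [map_prod, ← Finset.prod_erase_mul _ _ (Finset.mem_univ i), map_prod]
  have h1 : ∀ j, aeval (fun s : Σ j, Fin (D.n j + 1) => sub D i s.1 s.2)
      (rename (Sigma.mk j) (g j) : MvPolynomial (Σ j, Fin (D.n j + 1)) ℂ) =
      aeval (sub D i j) (g j) := fun j => by rw [aeval_rename]; rfl
  refine congrArg₂ (· * ·) (Finset.prod_congr rfl fun j hj => ?_) ?_
  · rw [h1, sub, Function.update_of_ne (Finset.ne_of_mem_erase hj)]
    induction g j using MvPolynomial.induction_on with
    | C a => simp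
    | add p q hp hq => rw [map_add, map_add, map_add, hp, hq]
    | mul_X p t hp => rw [map_mul, map_mul, map_mul, hp, aeval_X, aeval_X]
  · rw [h1, sub, Function.update_self]
    induction g i using MvPolynomial.induction_on with
    | C a => simp
    | add p q hp hq => rw [map_add, map_add, hp, hq]
    | mul_X p t hp => rw [map_mul, map_mul, hp, aeval_X, map_X]

variable {Ω : Type} [Field Ω] [Algebra ℂ Ω]

lemma one (hP : St_BPF3) (hD : D.DP) (hF : D.Full) (P : ZP D Ω) (i : Fin D.k)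
    (G : MvPolynomial (Fin (D.n i + 1)) ℂ) (hG : AC D i G) :
    ∃ a : Fin D.m → Ω, (φ D i fun c => a c * P.ω i c) = map (algebraMap ℂ Ω) G := by
  choose g h hg using hP D hD Ω P
  obtain ⟨a, ha⟩ := hF (Function.update g i G) fun j => by
    by_cases hj : j = i
    · subst hj; rw [Function.update_self]; exact hG
    · rw [Function.update_of_ne hj]; exact h j
  have h1 := congrArg (aeval (fun s : Σ j, Fin (D.n j + 1) => sub D i s.1 s.2)) ha
  rw [sub_prod, map_sum, Function.update_self, Finset.prod_congr rfl fun j hj => by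
    rw [Function.update_of_ne (Finset.ne_of_mem_erase hj)]] at h1
  simp only [map_smul, sub_prod] at h1
  set lam : Ω := ∏ j ∈ Finset.univ.erase i, P.θ ⟨_, WPT0B.ac_mem st_kap' P.τ (h j)⟩ with hl
  have hl0 : lam ≠ 0 := Finset.prod_ne_zero_iff.2 fun j _ => hg j
  refine ⟨fun c => algebraMap ℂ Ω (a c) / lam, MvPolynomial.ext _ _ fun μ => ?_⟩
  have h2 := congrArg (coeff μ) h1
  simp only [coeff_sum, coeff_smul, coeff_C_mul, coeff_map] at h2
  have h3 : coeff μ G • (∏ j ∈ Finset.univ.erase i,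
        (⟨_, WPT0B.ac_mem st_kap' P.τ (h j)⟩ : D.B D.X P.τ)) =
      ∑ c, (a c * coeff μ (D.G c i)) • ∏ j ∈ Finset.univ.erase i,
        (⟨_, g_mem D P.τ c j⟩ : D.B D.X P.τ) := by
    apply Subtype.ext
    simp only [SetLike.val_smul, AddSubmonoidClass.coe_finsetSum, SubmonoidClass.coe_finsetProd,
      Finset.prod_div_distrib]
    rw [Algebra.smul_def, ← mul_div_assoc, mul_comm, h2, Finset.sum_div]
    refine Finset.sum_congr rfl fun c _ => ?_
    simp only [Algebra.smul_def, map_mul]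
    ring
  have h4 := congrArg P.θ h3
  simp only [map_smul, map_sum, map_prod] at h4
  simp only [φ, coeff_sum, coeff_smul, coeff_map, smul_eq_mul]
  rw [← hl, Algebra.smul_def] at h4
  rw [← mul_div_cancel_right₀ (algebraMap ℂ Ω (coeff μ G)) hl0, h4, Finset.sum_div]
  refine Finset.sum_congr rfl fun c _ => ?_
  simp only [Algebra.smul_def, map_mul, ZP.ω, ZP.g]
  ring

end SURJ

theorem st_surj (hB : St_BC) (hP : St_BPF3) : St_SURJ := by
  intro D hD hF Ω _ _ P i g hg
  refine Submodule.span_induction (p := fun g _ => ∃ a : Fin D.m → Ω,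
    (φ D i fun c => a c * P.ω i c) = g) ?_ ?_ ?_ ?_ (hB Ω _ _ _ (D.p i) g hg.1 hg.2)
  · rintro _ ⟨G, hG, rfl⟩
    exact SURJ.one hP hD hF P i G hG
  · exact ⟨0, by simp [φ]⟩
  · rintro _ _ _ _ ⟨a, rfl⟩ ⟨b, rfl⟩
    exact ⟨a + b, by simp [φ, add_mul, add_smul, Finset.sum_add_distrib]⟩
  · rintro t _ _ ⟨a, rfl⟩
    exact ⟨t • a, by simp [φ, Finset.smul_sum, smul_smul, mul_assoc]⟩

end Pool.Agent.Lib.MV.G3
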