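import Pool.Agent.Lib.MV.H_OFF

open MvPolynomial Set Matrix Pool.Agent.Lib.MP_e39d36_ag Pool.Agent.Lib.MV.S3 Pool.Agent.Lib.MV.Dat

set_option linter.unusedVariables false

noncomputable section

namespace Pool.Agent.Lib.MV.G3

namespace TAN

variable {D : Dat} {j : Fin D.k} {Ω : Type} [Field Ω] [Algebra ℂ Ω]

lemma pd_up (a : Fin (D.r j)) (k : Fin 2) (l : Fin (D.n j + 1)) :
    pderiv l (D.Up j a k) = C (D.u j a k l) := by
  classical
  simp [Up, pderiv_X, Pi.single_apply]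

lemma dirv {N : ℕ} {L q : MvPolynomial (Fin N) ℂ} {p : Fin N → ℂ} {d : Fin N → Ω}
    (h0 : eval p L = 0) (h1 : ∑ l, eval p (pderiv l L) • d l = aeval d L) (h2 : eval p q ≠ 0)
    (h3 : aeval d L ≠ 0) : ∑ l, eval p (pderiv l (L * q)) • d l ≠ 0 := by
  simp only [pderiv_mul, map_add, map_mul, h0, zero_mul, add_zero, mul_comm _ (eval p q), mul_smul]
  rw [← Finset.smul_sum, h1]
  exact smul_ne_zero h2 h3

lemma cubic {T : Type} [Fintype T] {n : ℕ} (hn : n = 2) (hT : Fintype.card T ≤ 6)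
    (p₀ : Fin (n + 1) → ℂ) (p : T → Fin (n + 1) → ℂ) : ∃ g : MvPolynomial (Fin (n + 1)) ℂ,
      g ≠ 0 ∧ g.IsHomogeneous (n + 1) ∧ (∀ a, eval (p a) g = 0) ∧
        ∀ l, eval p₀ (pderiv l g) = 0 := by
  subst hn
  let f : Fin 10 → Fin 3 → ℕ := ![![3, 0, 0], ![0, 3, 0], ![0, 0, 3], ![2, 1, 0], ![2, 0, 1],
    ![1, 2, 0], ![0, 2, 1], ![1, 0, 2], ![0, 1, 2], ![1, 1, 1]]
  have f1 : Function.Injective f := by decide
  have f2 : ∀ i, ∑ l, f i l = 3 := by decide
  let m : Fin 10 → MvPolynomial (Fin 3) ℂ := fun i =>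
    monomial (Finsupp.equivFunOnFinite.symm (f i)) 1
  have hm : LinearIndependent ℂ m := by
    have := (basisMonomials (Fin 3) ℂ).linearIndependent.comp _
      (Finsupp.equivFunOnFinite.symm.injective.comp f1)
    rwa [coe_basisMonomials] at this
  let φ : (Fin 10 → ℂ) →ₗ[ℂ] (T ⊕ Fin 3 → ℂ) := Fintype.linearCombination ℂ fun i =>
    Sum.elim (fun a => eval (p a) (m i)) fun l => eval p₀ (pderiv l (m i))
  obtain ⟨c, hc, hc0⟩ := Submodule.exists_mem_ne_zero_of_ne_bot
    (LinearMap.ker_ne_bot_of_finrank_lt (f := φ) (by simp; omega))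
  refine ⟨∑ i, c i • m i, fun h => hc0 (funext (Fintype.linearIndependent_iff.1 hm c h)),
    (homogeneousSubmodule (Fin 3) ℂ 3).sum_mem fun i _ => Submodule.smul_mem _ _
      (isHomogeneous_monomial _ ((Finsupp.degree_eq_sum _).trans (f2 i))), fun a => ?_, fun l => ?_⟩
  · simpa [φ, Fintype.linearCombination_apply] using congrFun (LinearMap.mem_ker.1 hc) (.inl a)
  · simpa [φ, Fintype.linearCombination_apply] using congrFun (LinearMap.mem_ker.1 hc) (.inr l)

end TAN

open OFF TAN in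
theorem st_tan (hC : St_CONA) : St_TAN := by
  classical
  intro D hD j a Ω _ _ d hd
  have hr := a.pos.ne'
  have h7 := D.r_le j
  have ca : (Finset.univ.erase a).card = D.r j - 1 := by
    rw [Finset.card_erase_of_mem (Finset.mem_univ a), Finset.card_univ, Fintype.card_fin]
  by_cases h6 : D.r j ≤ 6
  · obtain ⟨q, h1, h2, h3⟩ := (hC D j hr (Finset.univ.erase a)).2 hD (by omega) a (by simp)
    obtain ⟨k, hk⟩ := hd
    refine ⟨D.Up j a k * q, ac D j hr (up_hom D j a k) h1 fun e => ?_,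
      dirv (by rw [up_eval, D.u_p]) (by simp only [pd_up, eval_C, up_aeval]) h3
        (by rwa [up_aeval])⟩
    by_cases he : e = a
    · exact Or.inl (by rw [he, up_eval, D.u_p])
    · exact Or.inr (h2 e (by simp [he]))
  · obtain ⟨b, -, hab, -, -, hb, -⟩ := good D j d a (by omega) hd
    obtain ⟨q, h1, h2, h3⟩ := (hC D j hr ((Finset.univ.erase a).erase b)).2 hD (by
      rw [Finset.card_erase_of_mem (by simp [hab.symm]), ca]; omega) a (by simp)
    refine ⟨_, ac2 D j hr a b h1 h2, dirv (ln_a D j a b) ?_ h3 hb⟩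
    simp only [ln, map_sub, pderiv_C_mul, pd_up, map_mul, eval_C, aeval_C, up_aeval, sub_smul,
      Finset.sum_sub_distrib, mul_smul, ← Finset.smul_sum, ← Algebra.smul_def]

theorem st_nod : St_NOD := by
  classical
  intro D j a
  have h7 := D.r_le j
  obtain ⟨g, h1, h2, h3, h4⟩ := TAN.cubic (T := {b // b ≠ a}) (D.n_eq j a.pos.ne')
    (by simp; omega) (D.p j a) fun b => D.p j b
  refine ⟨g, ⟨h2, fun b => ?_⟩, h1, h4⟩
  by_cases hb : b = a
  · have := congrArg (eval (D.p j a)) h2.sum_X_mul_pderiv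
    simp only [map_sum, map_mul, h4, mul_zero, Finset.sum_const_zero, map_nsmul] at this
    exact hb ▸ (smul_eq_zero.1 this.symm).resolve_left (Nat.succ_ne_zero _)
  · exact h3 ⟨b, hb⟩

end Pool.Agent.Lib.MV.G3
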