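import Pool.Agent.Lib.MV.G3A
import Pool.Agent.Lib.MV.F_KER
import Pool.Agent.Lib.MV.F_DIM

open MvPolynomial Set Matrix Pool.Agent.Lib.MP_e39d36_ag Pool.Agent.Lib.MP_e39d36_ag.Var
  Pool.Agent.Lib.MV.End Pool.Agent.Lib.MV.Fb Pool.Agent.Lib.MV.S3 Pool.Agent.Lib.MV.Dat

set_option linter.unusedSectionVars false
set_option linter.unusedVariables false

noncomputable section

namespace Pool.Agent.Lib.MV.G3

namespace TD0

open KER in
lemma ker_iff (D : Dat) {K : Type} [Field K] [Algebra ℂ K] (x : ∀ i, Fin (D.n i + 1) → K)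
    (hx : ∀ i, x i 0 = 1) (hk : ∀ τ (P : MvPolynomial D.Vx ℂ), aeval (D.rat x τ) P = 0 ↔
      ∃ b ∈ D.B D.X τ, aeval (D.rat D.X τ) P = D.f D.X τ * b) (P : MvPolynomial D.Ax ℂ) :
    aeval (D.xa x) P = 0 ↔ D.Fa ∣ P := by
  have hW : ∀ j : (Σ i, Fin (D.r i)) → Fin 2, aeval (D.xa D.X) (∏ w, U D w (j w)) ≠ 0 :=
    fun j h => W_ne j (ev_inj (h.trans (map_zero _).symm))
  refine ⟨fun h => ?_, ?_⟩
  · have h1 : ∀ j : (Σ i, Fin (D.r i)) → Fin 2, ∃ N, D.Fa ∣ P * (∏ w, U D w (j w)) ^ N := by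
      intro j
      obtain ⟨b, hb, e⟩ := (hk (ch D j) _).1 ((ev_rename hx j P).trans h)
      rw [ev_rename X_one, f_eq X_one] at e
      obtain ⟨N, q, hq⟩ := clear X_one j (fun w e h => U_ne w e (ev_inj
        (((ev_U X_one w e).trans h).trans (map_zero _).symm))) hb
      refine ⟨N + 1, q, ev_inj ?_⟩
      rw [map_mul, map_mul, map_pow, e, ← hq, pow_succ]
      have := hW j
      field_simp
    by_cases h0 : D.Fa = 0
    · obtain ⟨N, hN⟩ := h1 fun _ => 0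
      rw [h0, zero_dvd_iff] at hN
      rw [(mul_eq_zero.1 hN).resolve_right (pow_ne_zero _ (W_ne _))]
      exact dvd_zero _
    · refine dvd_of_primes _ h0 P fun π hπ => ?_
      choose j hj using exists_not_dvd hπ
      obtain ⟨N, hN⟩ := h1 j
      refine ⟨_, fun h2 => ?_, hN⟩
      obtain ⟨w, -, hw⟩ := (hπ.dvd_finsetProd_iff _).1 (hπ.dvd_of_dvd_pow h2)
      exact hj w hw
  · rintro ⟨q, rfl⟩
    have h1 := (hk (ch D fun _ => 0) _).2 ⟨_, W_mem X_one _, by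
      rw [ev_rename X_one _ D.Fa, f_eq X_one, div_mul_cancel₀ _ (hW _)]⟩
    rw [ev_rename hx] at h1
    rw [map_mul, h1, zero_mul]

lemma indep {σ K : Type} [Field K] [Algebra ℂ K] {e : ℕ} (ε : Fin (e + 1) ≃ σ) (z : σ → K)
    (f : MvPolynomial σ ℂ) (h : ∀ P, aeval z P = 0 ↔ f ∣ P) :
    IndIn (⊤ : Subring K) univ e := by
  classical
  have h1 : ∃ w : σ, ∀ P : MvPolynomial σ ℂ, P ≠ 0 → f ∣ P → w ∈ P.vars := by
    by_cases h0 : f = 0
    · exact ⟨ε 0, fun P hP hf => absurd (zero_dvd_iff.1 (h0 ▸ hf)) hP⟩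
    · have h2 : f.vars ≠ ∅ := fun h2 => by
        have h3 := vars_eq_empty_iff_eq_C.1 h2
        have h4 := (h f).2 dvd_rfl
        rw [h3, aeval_C, map_eq_zero] at h4
        exact h0 (by rw [h3, h4, map_zero])
      obtain ⟨w, hw⟩ := Finset.nonempty_iff_ne_empty.2 h2
      refine ⟨w, ?_⟩
      rintro _ hP ⟨q, rfl⟩
      rw [mem_vars_iff_degreeOf_ne_zero] at hw ⊢
      rw [degreeOf_mul_eq h0 (right_ne_zero_of_mul hP)]
      omega
  obtain ⟨w, hw⟩ := h1
  refine ⟨fun l => z (ε ((ε.symm w).succAbove l)), fun _ => trivial, fun P hP =>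
    un_top.2 fun h2 => ?_⟩
  have h3 : Function.Injective fun l => ε ((ε.symm w).succAbove l) :=
    ε.injective.comp Fin.succAbove_right_injective
  obtain ⟨i, -, hi⟩ := mem_vars_rename _ _ (hw (rename (fun l => ε ((ε.symm w).succAbove l)) P)
    (fun h4 => hP (rename_injective _ h3 (h4.trans (map_zero _).symm)))
    ((h _).1 (by rw [aeval_rename]; exact h2)))
  exact Fin.succAbove_ne _ i (ε.eq_symm_apply.2 hi)

end TD0

theorem st_td0 : St_TD0 := by
  intro D a K _ _ x hx hc e he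
  refine TD0.indep (Fintype.equivOfCardEq ?_) (D.xa x) (sc D a).Fa
    (TD0.ker_iff (sc D a) x hx fun τ P => by rw [f_sc]; exact hc τ P)
  simp [he]

end Pool.Agent.Lib.MV.G3
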