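import Pool.Agent.Lib.MV.S3Blue

/-! Degrees of the standard divisors on a curve. -/

open Set Pool.Agent.Lib.MP_e39d36_ag Pool.Agent.Lib.MP_e39d36_ag.Var
  Pool.Agent.Lib.MP_cc3443_ag Pool.Agent.Lib.MV.Dat

open scoped IntermediateField

noncomputable section

namespace Pool.Agent.Lib.MV.S3

theorem DEGB.const {F : Type} [Field F] [Algebra ℂ F] [IsFF F] {z : F}
    (h : ∀ P : Place F, z ∈ P.O) : ∃ c : ℂ, z = algebraMap ℂ F c := by
  obtain ⟨u, hu⟩ := IsFF.ex (K := F)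
  have := IsFF.fin u hu
  let e := RatFunc.algEquivOfTranscendental u hu
  let _ : Algebra (RatFunc ℂ) F := ((ℂ⟮u⟯.val).comp e.toAlgHom).toRingHom.toAlgebra
  have : IsScalarTower ℂ (RatFunc ℂ) F := IsScalarTower.of_algebraMap_eq fun a =>
    (((ℂ⟮u⟯.val).comp e.toAlgHom).commutes a).symm
  have : FiniteDimensional (RatFunc ℂ) F :=
    Module.Finite.of_equiv_equiv (A₁ := ℂ⟮u⟯) (B₁ := F) e.symm.toRingEquiv (RingEquiv.refl F) (by
      ext a
      change ((e (e.symm a) : ℂ⟮u⟯) : F) = a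
      simp)
  exact MP_cc3443_ag.exists_const h

theorem st_deg : St_DEG := by
  intro D K _ _ M F _ _ _ γ τ h μ
  choose c hc using fun P : Place F => M.hyp.chart (γ.ctr P)
  have hf := fun P => M.locEq_st (hc P).1 μ
  have hg := M.locEq_st h μ
  have e : ∀ P, (D.y M.x ((c P).1 μ))⁻¹ / (D.y M.x (τ.1 μ))⁻¹ =
      D.y M.x (τ.1 μ) / D.y M.x ((c P).1 μ) := fun P => by rw [inv_div_inv]
  have hu := fun P => un_of_B_le M.ne ((hc P).1.trans (γ.ctr_le P)) h μ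
  have hT : ∀ P t, D.sl t = μ → γ.τ (D.y M.x t / D.y M.x ((c P).1 μ)) ∈ P.O := fun P t ht =>
    (CMap.mem_T.1 ((γ.dom_ctr P).1 ((hc P).1 (div_mem_B ht)))).2
  have fin := CMap.finite_supp hf hg
  rw [CMap.deg_eq (M.sm.fac _) hf hg]
  simp only [e] at fin ⊢
  refine ⟨fun ha => finsum_eq_zero_of_forall_eq_zero fun P => ?_, fun t ht ha => ?_⟩
  · obtain ⟨a, ha⟩ := ha _ (sl_τ (c P) μ)
    rw [rat, sl_τ, ← inv_div, CMap.τ_inv' (hu P)] at ha
    have h1 := (place_isV P).od_nonneg (ha ▸ P.const a)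
    have h2 := (place_isV P).od_nonneg (hT P _ (sl_τ τ μ))
    rw [od_inv] at h1
    exact le_antisymm (neg_nonneg.1 h1) h2
  · obtain ⟨P, hP⟩ : ∃ P : Place F, γ.τ (D.rat M.x τ t) ∉ P.O := by
      by_contra h1
      push Not at h1
      obtain ⟨a, h2⟩ := DEGB.const h1
      exact ha ⟨a, h2.symm⟩
    refine finsum_pos (fun Q => (place_isV Q).od_nonneg (hT Q _ (sl_τ τ μ))) ⟨P, ?_⟩ fin
    refine ((place_isV P).od_nonneg (hT P _ (sl_τ τ μ))).lt_of_ne' fun h0 => hP ?_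
    have h1 := (place_isV P).un_iff.2 ⟨CMap.τ_ne (hu P), h0⟩
    have h2 : D.rat M.x τ t = D.y M.x t / D.y M.x ((c P).1 μ) *
        (D.y M.x (τ.1 μ) / D.y M.x ((c P).1 μ))⁻¹ := by
      rw [rat, ht, ← div_eq_mul_inv, div_div_div_cancel_right₀ (M.ne _)]
    rw [h2, γ.mul _ (γ.ctr_le P ((hc P).1 (div_mem_B ht))) _ (hu P).2.2, CMap.τ_inv' (hu P)]
    exact mul_mem (hT P t ht) h1.2.2

end Pool.Agent.Lib.MV.S3
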