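import Pool.Agent.Lib.MV.S3Blue

open Set Polynomial Pool.Agent.Lib.MP_cc3443_ag

set_option linter.unusedSectionVars false
set_option linter.unusedVariables false

noncomputable section

namespace Pool.Agent.Lib.MV.S3

namespace FIBCB

variable {F : Type} [Field F] [Algebra ℂ F]

/-- If all roots have value at least one, the constant coefficient is the largest. -/
lemma coeff_le {Γ : Type} [LinearOrderedCommGroupWithZero Γ] (v : Valuation F Γ) (c : F)
    (m : Multiset F) (hm : ∀ a ∈ m, 1 ≤ v a) (k : ℕ) :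
    v ((C c * (m.map (X - C ·)).prod).coeff k) ≤ v ((C c * (m.map (X - C ·)).prod).coeff 0) := by
  induction m using Multiset.induction_on generalizing k with
  | empty =>
    rcases k with _ | k
    · exact le_rfl
    · simp
  | cons a m ih =>
    have ha := hm a (Multiset.mem_cons_self a m)
    replace ih := ih fun b hb => hm b (Multiset.mem_cons_of_mem hb)
    rw [Multiset.map_cons, Multiset.prod_cons, mul_left_comm, mul_comm (X - C a)]
    generalize C c * (m.map (X - C ·)).prod = p at ih ⊢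
    rcases k with _ | k
    · exact le_rfl
    have h0 : v ((p * (X - C a)).coeff 0) = v (p.coeff 0) * v a := by
      simp [mul_coeff_zero]
    rw [h0, coeff_mul_X_sub_C]
    refine v.map_sub_le ((ih k).trans (le_mul_of_one_le_right' ha)) ?_
    rw [map_mul]
    exact mul_le_mul_left (ih _) _

lemma exists_root {Γ : Type} [LinearOrderedCommGroupWithZero Γ] (v : Valuation F Γ) {p : F[X]}
    (hp : p.Splits) {k : ℕ} (hk : v (p.coeff 0) < v (p.coeff k)) :
    ∃ a, v a < 1 ∧ p.eval a = 0 := by
  by_contra! h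
  have h0 : p ≠ 0 := by rintro rfl; simp at hk
  have := coeff_le v p.leadingCoeff p.roots
    (fun a ha => not_lt.1 fun h1 => h a h1 ((mem_roots h0).1 ha)) k
  rw [← hp.eq_prod_roots] at this
  exact absurd hk (not_lt.2 this)

lemma val_aeval [IsFF F] (Q : Place F) {s : F} (hs : Q.val s < 1) (g : ℂ[X]) :
    Q.val (aeval s g - algebraMap ℂ F (g.coeff 0)) < 1 := by
  have h1 : aeval s g - algebraMap ℂ F (g.coeff 0) = aeval s g.divX * s := by
    conv_lhs => rw [← divX_mul_X_add g]
    simp
  rw [h1, map_mul]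
  exact (mul_le_of_le_one_left' (Q.mem_iff.1 (Q.aeval_mem (Q.mem_iff.2 hs.le) _))).trans_lt hs

/-- A plane curve through the origin has a branch through the origin. -/
lemma exists_branch (G : ℂ[X][X]) (hG : (G.coeff 0).coeff 0 = 0) :
    ∃ (F : Type) (_ : Field F) (_ : Algebra ℂ F) (_ : IsFF F) (Q : Place F) (a b : F),
      (G.map (aeval a : ℂ[X] →ₐ[ℂ] F).toRingHom).eval b = 0 ∧ Q.val a < 1 ∧ Q.val b < 1 ∧
        (Transcendental ℂ a ∨ Transcendental ℂ b) := by
  let p : (RatFunc ℂ)[X] := G.map (algebraMap ℂ[X] (RatFunc ℂ))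
  let s : p.SplittingField := algebraMap (RatFunc ℂ) _ RatFunc.X
  have hs : Transcendental ℂ s :=
    (transcendental_algebraMap_iff (algebraMap (RatFunc ℂ) _).injective).2 RatFunc.transcendental_X
  obtain ⟨Q, hQ⟩ := exists_place_over hs 0
  rw [map_zero, sub_zero] at hQ
  refine ⟨p.SplittingField, inferInstance, inferInstance, inferInstance, Q, ?_⟩
  by_cases h : ∀ k, (G.coeff k).coeff 0 = 0
  · refine ⟨0, s, ?_, by simp, hQ, Or.inr hs⟩
    have h1 : G.map (aeval (0 : p.SplittingField) : ℂ[X] →ₐ[ℂ] _).toRingHom = 0 := by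
      ext k
      simp [← coeff_zero_eq_aeval_zero', h k]
    rw [h1, eval_zero]
  push Not at h
  obtain ⟨k, hk⟩ := h
  have h1 : G.map (aeval s : ℂ[X] →ₐ[ℂ] _).toRingHom =
      p.map (algebraMap (RatFunc ℂ) p.SplittingField) := by
    rw [Polynomial.map_map]
    congr 1
    ext c
    · simp [IsScalarTower.algebraMap_apply ℂ (RatFunc ℂ) p.SplittingField]
    · simp [s]
  have h2 : Q.val (aeval s (G.coeff 0)) < Q.val (aeval s (G.coeff k)) := by
    have h3 := val_aeval Q hQ (G.coeff 0)
    have h4 := val_aeval Q hQ (G.coeff k)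
    rw [hG, map_zero, sub_zero] at h3
    rw [← Q.val_const hk] at h4
    rw [Q.val.map_eq_of_sub_lt h4, Q.val_const hk]
    exact h3
  obtain ⟨b, h3, h4⟩ := exists_root Q.val (k := k) (h1 ▸ SplittingField.splits p) (by
    simpa using h2)
  exact ⟨s, b, h4, hQ, h3, Or.inl hs⟩

lemma exists_two {n : ℕ} (hn : 2 ≤ n) (l₀ : Fin (n + 1)) :
    ∃ i j : Fin (n + 1), i ≠ j ∧ i ≠ l₀ ∧ j ≠ l₀ :=
  ⟨l₀.succAbove ⟨0, by omega⟩, l₀.succAbove ⟨1, by omega⟩,
    Fin.succAbove_right_injective.ne (by simp), Fin.succAbove_ne _ _, Fin.succAbove_ne _ _⟩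

end FIBCB

open FIBCB in
theorem st_fibc : St_FIBC := by
  intro n hn Φ q l₀ hq
  obtain ⟨i, j, hij, hi, hj⟩ := exists_two hn l₀
  let w : Fin (n + 1) → ℂ[X][X] := fun l =>
    C (C (q l)) + ((if l = i then C X else 0) + if l = j then X else 0)
  let z : ∀ (F : Type) [Field F] [Algebra ℂ F], F → F → Fin (n + 1) → F := fun F _ _ a b l =>
    algebraMap ℂ F (q l) + ((if l = i then a else 0) + if l = j then b else 0)
  have h1 : ∀ (F : Type) [Field F] [Algebra ℂ F] (a b : F) (Ψ : MvPolynomial (Fin (n + 1)) ℂ),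
      ((MvPolynomial.aeval w Ψ).map (aeval a : ℂ[X] →ₐ[ℂ] F).toRingHom).eval b =
        MvPolynomial.aeval (z F a b) Ψ := by
    intro F _ _ a b Ψ
    induction Ψ using MvPolynomial.induction_on with
    | C c => simp
    | add p q hp hq => rw [map_add, map_add, Polynomial.map_add, eval_add, hp, hq]
    | mul_X p l hp =>
      rw [map_mul, map_mul, Polynomial.map_mul, eval_mul, hp, MvPolynomial.aeval_X,
        MvPolynomial.aeval_X]
      congr 1
      simp only [w, z]
      split_ifs <;> simp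
  obtain ⟨F, _, _, _, Q, a, b, h2, h3, h4, h5⟩ := exists_branch (MvPolynomial.aeval w Φ) (by
    have h2 := h1 ℂ 0 0 Φ
    rw [← coeff_zero_eq_eval_zero, coeff_map] at h2
    have h3 : z ℂ 0 0 = q := by
      funext l
      simp [z]
    rw [h3, MvPolynomial.aeval_eq_eval, hq] at h2
    rw [coeff_zero_eq_aeval_zero]
    exact h2)
  refine ⟨F, inferInstance, inferInstance, inferInstance, Q, z F a b, by rw [← h1, h2],
    by simp [z, hi.symm, hj.symm], fun l => ?_, ?_⟩
  · simp only [z, add_sub_cancel_left]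
    refine Q.val.map_add_lt ?_ ?_ <;> split_ifs <;> simp [h3, h4]
  · have h6 : ∀ (t : F) (c : ℂ), Transcendental ℂ t →
        algebraMap ℂ F c + t ∉ range (algebraMap ℂ F) := by
      rintro t c ht ⟨d, hd⟩
      apply ht
      rw [← sub_eq_iff_eq_add'.2 hd, ← map_sub]
      exact isAlgebraic_algebraMap _
    rcases h5 with h | h
    · exact ⟨i, by simpa [z, hij] using h6 a (q i) h⟩
    · exact ⟨j, by simpa [z, hij.symm] using h6 b (q j) h⟩

end Pool.Agent.Lib.MV.S3
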