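import Pool.Agent.Lib.MV.S_VALB

open MvPolynomial Set Pool.Agent.Lib.MV.Dat

set_option linter.unusedSectionVars false
set_option linter.unusedVariables false

noncomputable section

namespace Pool.Agent.Lib.MV.S3

theorem st_fibp (hM : St_MOD) (hV : St_VALA) (hC : St_FIBC) : St_FIBP := by
  classical
  intro D P i hn q l₀ hq h0
  obtain ⟨F, _, _, _, Q, z, h1, h2, h3, l₁, h4⟩ := hC _ hn (∑ c, C (P.ω i c) * D.G c i) q l₀
    (by simpa using h0)
  rw [hq, map_one] at h2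
  have hu : ∀ b, ∃ k, ∑ l, D.u i b k l • z l ≠ 0 := fun b => by
    by_contra! h5
    obtain ⟨l, c, -, h6⟩ := VALBB.dec i b
    have h7 : ∀ l', z l' = D.p i b l' • ((D.p i b l)⁻¹ • z l) := fun l' => by
      simpa [h5] using h6 F z l'
    have h8 := h2.symm.trans (h7 l₀)
    have h9 : D.p i b l₀ ≠ 0 := fun h => by simp [h] at h8
    refine h4 ⟨D.p i b l₁ / D.p i b l₀, ?_⟩
    rw [h7 l₁, Algebra.algebraMap_eq_smul_one, h8, smul_smul, div_mul_cancel₀ _ h9]
  let w : D.Vx → F := D.y (Function.update (fun _ _ => 1) i z)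
  have w1 : ∀ l, w (.inl ⟨i, l⟩) = z l := fun l => by simp [w]
  have w2 : ∀ b k, w (.inr (⟨i, b⟩, k)) = ∑ l, D.u i b k l • z l := fun b k => by simp [w, y_inr]
  obtain ⟨l, j, hτ⟩ := exists_mkCh P.τ
  have hk : ∀ t : Σ i, Fin (D.r i), ∃ k : Fin 2, (t.1 ≠ i → k = j t) ∧
      (t.1 = i → w (.inr (t, k)) ≠ 0) := by
    rintro ⟨i', b⟩
    by_cases h : i' = i
    · subst h
      obtain ⟨k, hk⟩ := hu b
      exact ⟨k, fun h => (h rfl).elim, fun _ => by rwa [w2]⟩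
    · exact ⟨j ⟨i', b⟩, fun _ => rfl, fun h1 => (h h1).elim⟩
  choose kk k1 k2 using hk
  have hτ' : ∀ μ : D.Sl, μ.1 ≠ i → (mkCh (Function.update l i l₀) kk).1 μ = P.τ.1 μ := by
    rintro ⟨i', _ | b⟩ h
    · rw [hτ, mkCh_none, mkCh_none, Function.update_of_ne h]
    · rw [hτ, mkCh_some, mkCh_some, k1 ⟨i', b⟩ h]
  obtain ⟨P', e1, e2, e3, e4⟩ := hM D ℂ F P (Algebra.ofId ℂ F) i w _
    (fun b => by simp only [w1, w2, mul_comm]) hτ' (by
      rintro (_ | b)
      · rw [mkCh_none, Function.update_self, w1, h2]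
        exact one_ne_zero
      · exact k2 ⟨i, b⟩ rfl)
  have v1 : ∀ l, P'.v (.inl ⟨i, l⟩) = z l := fun l => by
    rw [e4 _ rfl, sl_inl, mkCh_none, Function.update_self, w1, w1, h2, div_one]
  refine ⟨F, _, _, ‹_›, Q, P', ?_, e1 ▸ hτ', by rw [e1, mkCh_none, Function.update_self], e2,
    fun l => by rw [v1]; exact h3 l, l₁, by rwa [v1]⟩
  obtain ⟨κ, -, hκ⟩ := hV D F P' i (by simpa only [v1] using hu)
  rw [P'.on_iff i]
  simp only [hκ, e3, v1, mul_left_comm _ κ, ← Finset.mul_sum]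
  simp only [map_sum, map_mul, aeval_C] at h1
  exact mul_eq_zero_of_right _ h1

end Pool.Agent.Lib.MV.S3
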