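import Pool.Agent.Lib.MV.S3Blue

open MvPolynomial Set Pool.Agent.Lib.MP_e39d36_ag Pool.Agent.Lib.MP_e39d36_ag.Var
  Pool.Agent.Lib.MP_cc3443_ag Pool.Agent.Lib.MV.End Pool.Agent.Lib.MV.Dat

set_option linter.unusedSectionVars false
set_option linter.unusedVariables false

noncomputable section

namespace Pool.Agent.Lib.MV.S3

namespace InjB

lemma key (hPTS : St_PTS) (hDEG : St_DEG) {D : Dat} {K : Type} [Field K] [Algebra ℂ K]
    (M : D.Mod K) {x : Lat.V D.r} (hx : cl M.Γ M.sm.fac M.st x = 0) {F : Type} [Field F]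
    [Algebra ℂ F] [IsFF F] (P : ZP D F) (hP : P.On) (t₀ : D.Vx)
    (h₀ : P.v t₀ ∉ range (algebraMap ℂ F))
    (h : ∀ μ : D.Sl, μ ≠ D.sl t₀ → x μ.1 μ.2 = 0 ∨
      ∀ t, D.sl t = μ → P.v t ∈ range (algebraMap ℂ F)) :
    x (D.sl t₀).1 (D.sl t₀).2 = 0 := by
  obtain ⟨γ, hB, hv⟩ := hPTS D K M F P hP
  obtain ⟨φ, h1, -⟩ := M.Γ.exists_fun γ
  have h2 := congrArg φ hx
  have h3 : ∀ i o, φ (nc M.Γ M.sm.fac (M.st i o)) = γ.deg (M.st i o) := fun i o =>
    h1 ⟨M.st i o, M.sm.fac _⟩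
  simp only [cl_apply, map_sum, map_smul, map_zero, smul_eq_mul, h3] at h2
  rw [← Fintype.sum_sigma (fun μ : D.Sl => x μ.1 μ.2 * (γ.deg (M.st μ.1 μ.2) : ℝ)),
    Finset.sum_eq_single (D.sl t₀) (fun μ _ hμ => ?_) (by simp)] at h2
  · have h4 := (hDEG D K M F γ P.τ hB (D.sl t₀)).2 t₀ rfl (by rw [hv]; exact h₀)
    exact (mul_eq_zero.1 h2).resolve_right (by exact_mod_cast h4.ne')
  · rcases h μ hμ with h5 | h5
    · rw [h5, zero_mul]
    · rw [(hDEG D K M F γ P.τ hB μ).1 fun t ht => by rw [hv]; exact h5 t ht]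
      simp

lemma exists_FF : ∃ (F : Type) (_ : Field F) (_ : Algebra ℂ F) (_ : IsFF F) (T : F),
    Transcendental ℂ T :=
  ⟨RatFunc ℂ, inferInstance, inferInstance, inferInstance, _, RatFunc.transcendental_X⟩

variable {F : Type} [Field F] [Algebra ℂ F] {T : F}

lemma X_notMem (hT : Transcendental ℂ T) : T ∉ range (algebraMap ℂ F) := by
  rintro ⟨c, hc⟩
  exact hT (hc ▸ isAlgebraic_algebraMap c)

lemma pow_ind (hT : Transcendental ℂ T) {n : ℕ} {c : Fin n → ℂ}
    (h : ∑ l, c l • T ^ (l : ℕ) = 0) : c = 0 := by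
  have h1 : (∑ l : Fin n, Polynomial.monomial (l : ℕ) (c l) : Polynomial ℂ) = 0 :=
    transcendental_iff.1 hT _ (by simpa [Polynomial.aeval_monomial, Algebra.smul_def] using h)
  funext l
  have := congrArg (Polynomial.coeff · (l : ℕ)) h1
  simpa [Polynomial.coeff_monomial, Fin.val_inj] using this

lemma dual {D : Dat} {i : Fin D.k} {a : Fin (D.r i)}
    {w : Fin (D.n i + 1) → ℂ} {k : Fin 2} {c : ℂ} (h : D.u i a k ⬝ᵥ w = c) (s : F) :
    ∑ l, D.u i a k l • (w l • s) = c • s := by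
  simp only [smul_smul, ← Finset.sum_smul]
  rw [← h]; rfl

end InjB

open InjB

theorem st_inj (hWPT : St_WPT) (hSECT : St_SECT) (hMOD : St_MOD) (hFIBP : St_FIBP)
    (hPTS : St_PTS) (hDEG : St_DEG) : St_INJ := by
  intro D K _ _ M x hx
  obtain ⟨F, _, _, _, T, hT⟩ := exists_FF
  have h1 : ∀ i a, x i (some a) = 0 := fun i a => by
    obtain ⟨P, hP⟩ := hWPT D i a
    obtain ⟨q₀, e₀⟩ := exists_dual_u i a ![1, 0]
    obtain ⟨q₁, e₁⟩ := exists_dual_u i a ![0, 1]
    have e : ∀ k, ∑ l, D.u i a k l • (q₀ l • (1 : F) + q₁ l • T) =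
        (![1, 0] : Fin 2 → ℂ) k • (1 : F) + (![0, 1] : Fin 2 → ℂ) k • T :=
      fun k => by
        simp only [smul_add, Finset.sum_add_distrib]
        rw [dual (e₀ k), dual (e₁ k)]
    obtain ⟨P', g1, g2, g3, g4⟩ := hSECT D ℂ F P (Algebra.ofId ℂ _) i a
      (fun l => q₀ l • (1 : F) + q₁ l • T) 0 (by rw [e]; simp) (by simp [hP])
    refine key hPTS hDEG M hx P' g1 (.inr (⟨i, a⟩, 1)) ?_ fun μ hμ => Or.inr fun t ht => ?_
    · rw [g4, e, e]
      simpa using X_notMem hT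
    · by_cases hi : (D.sl t).1 = i
      · exact g3 t hi (ht ▸ hμ)
      · exact ⟨_, (g2 t hi).symm⟩
  have h2 : ∀ j, x j none = 0 := fun j => by
    obtain ⟨i, hi⟩ := D.surf
    let a : Fin (D.r i) := ⟨0, Nat.pos_of_ne_zero hi⟩
    obtain ⟨P, -⟩ := hWPT D i a
    by_cases hj : j = i
    · subst hj
      obtain ⟨l₀, hl⟩ := Function.ne_iff.1 (D.p_ne j a)
      obtain ⟨F', _, _, _, Q, P', g1, -, -, g2, -, l, g3⟩ := hFIBP D P j (D.n_eq j hi).ge
        (fun l => D.p j a l / D.p j a l₀) l₀ (div_self hl) (Finset.sum_eq_zero fun c _ => by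
          have := aeval_div (F := ℂ) (D.G_hom c j) (D.p j a) (D.p j a l₀)
          rw [aeval_eq_eval, aeval_eq_eval] at this
          rw [this, D.G_p, zero_div, mul_zero])
      refine key hPTS hDEG M hx P' g1 (.inl ⟨j, l⟩) g3 fun μ hμ => ?_
      rcases μ with ⟨i', _ | b⟩
      · refine Or.inr fun t ht => ⟨_, (g2 t ?_).symm⟩
        rw [ht]
        rintro (rfl : i' = j)
        exact hμ rfl
      · exact Or.inl (h1 _ _)
    · let z : D.Vx → F := D.y fun i l => T ^ (l : ℕ)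
      have hz : ∀ t, z t ≠ 0 := fun t => by
        rcases t with v | ⟨w, k⟩
        · exact pow_ne_zero _ fun h => X_notMem hT ⟨0, by rw [h, map_zero]⟩
        · exact fun h => (D.u_ind w.1 w.2).ne_zero k (pow_ind hT h)
      obtain ⟨P₁, f1, f2, -, f3⟩ := hMOD D ℂ F P (Algebra.ofId ℂ _) j z
        (updCh P.τ (.inl ⟨j, 0⟩)) (fun b => mul_comm _ _)
        (fun μ hμ => updCh_ne _ _ fun h => hμ (congrArg Sigma.fst h)) fun o => hz _
      obtain ⟨q₀, e₀⟩ := exists_dual_u i a ![1, 0]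
      obtain ⟨q₁, e₁⟩ := exists_dual_u i a ![0, 1]
      have hd : ∃ (d : Fin (D.n i + 1) → F) (k₀ : Fin 2), ∑ l, D.u i a k₀ l • d l ≠ 0 ∧
          ∑ l, d l * AlgHom.id ℂ _ (P₁.gr i a l) = 0 := by
        by_cases h0 : ∑ l, q₀ l • P₁.gr i a l = 0
        · refine ⟨fun l => q₀ l • 1, 0, (dual (e₀ 0) 1).trans_ne (by simp), ?_⟩
          simpa using h0
        · refine ⟨fun l => q₀ l • (∑ l, q₁ l • P₁.gr i a l) - q₁ l • ∑ l, q₀ l • P₁.gr i a l, 1,
            ?_, ?_⟩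
          · simp only [smul_sub, Finset.sum_sub_distrib]
            rw [dual (e₀ 1), dual (e₁ 1)]
            simpa using h0
          · simp only [sub_mul, Finset.sum_sub_distrib, AlgHom.id_apply, smul_mul_assoc]
            simp only [← mul_smul_comm, ← Finset.mul_sum]
            ring
      obtain ⟨d, k₀, d1, d2⟩ := hd
      obtain ⟨P', g1, g2, g3, -⟩ := hSECT D _ F P₁ (AlgHom.id ℂ _) i a d k₀ d1 d2
      refine key hPTS hDEG M hx P' g1 (.inl ⟨j, ⟨1, by have := D.n_pos j; omega⟩⟩) ?_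
        fun μ hμ => ?_
      · rw [g2 (.inl ⟨j, _⟩) hj, AlgHom.id_apply, f3 _ rfl]
        have : (updCh P.τ (.inl ⟨j, 0⟩)).1 ⟨j, none⟩ = .inl ⟨j, 0⟩ :=
          updCh_self P.τ (.inl ⟨j, 0⟩)
        rw [sl_inl, this]
        simpa [z] using X_notMem hT
      · rcases μ with ⟨i', _ | b⟩
        · refine Or.inr fun t ht => ?_
          by_cases h3 : (D.sl t).1 = i
          · refine g3 t h3 ?_
            rw [ht]
            intro h4
            obtain rfl : i' = i := congrArg Sigma.fst h4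
            simp at h4
          · rw [g2 t h3, AlgHom.id_apply]
            refine ⟨_, (f2 t ?_).symm⟩
            rw [ht]
            rintro (rfl : i' = j)
            exact hμ rfl
        · exact Or.inl (h1 _ _)
  funext i o
  rcases o with _ | a
  exacts [h2 i, h1 i a]

end Pool.Agent.Lib.MV.S3
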