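import Pool.Agent.Lib.MV.S3Blue
import Pool.Agent.Lib.MV.Blue

open MvPolynomial Set Pool.Agent.Lib.MP_e39d36_ag Pool.Agent.Lib.MP_e39d36_ag.Var
  Pool.Agent.Lib.MP_cc3443_ag Pool.Agent.Lib.MV.End Pool.Agent.Lib.MV.Dat

set_option linter.unusedSectionVars false
set_option linter.unusedVariables false

noncomputable section

namespace Pool.Agent.Lib.MV.S3

namespace MODB

variable {D : Dat} {F₀ F : Type} [Field F₀] [Algebra ℂ F₀] [Field F] [Algebra ℂ F]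

lemma θ_eq {P : ZP D F₀} {P' : ZP D F} {φ : F₀ →ₐ[ℂ] F} {j : Fin D.k}
    (hτ : ∀ o, P'.τ.1 ⟨j, o⟩ = P.τ.1 ⟨j, o⟩)
    (hv : ∀ t, (D.sl t).1 = j → P'.v t = φ (P.v t)) {b : D.L} (hb : b ∈ Fb.BI D D.X P'.τ j) :
    ∃ h : b ∈ D.B D.X P.τ, P'.θ ⟨b, BI_le _ _ _ hb⟩ = φ (P.θ ⟨b, h⟩) := by
  induction hb using Algebra.adjoin_induction with
  | mem b hb =>
    obtain ⟨t, ht, rfl⟩ := hb
    have e : D.rat D.X P'.τ t = D.rat D.X P.τ t := by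
      have h1 : D.sl t = ⟨j, (show (D.sl t).1 = j from ht) ▸ (D.sl t).2⟩ := by
        have h2 : (D.sl t).1 = j := ht
        subst h2
        rfl
      rw [Dat.rat, Dat.rat, h1, hτ]
    refine ⟨e ▸ rat_mem P.τ t, (hv t ht).trans (congrArg φ (congrArg P.θ (Subtype.ext e.symm)))⟩
  | algebraMap c =>
    refine ⟨Subalgebra.algebraMap_mem _ c, ?_⟩
    exact (P'.θ.commutes c).trans ((φ.commutes c).symm.trans (congrArg φ (P.θ.commutes c).symm))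
  | add a b ha hb iha ihb =>
    obtain ⟨h1, e1⟩ := iha
    obtain ⟨h2, e2⟩ := ihb
    refine ⟨add_mem h1 h2, ?_⟩
    refine (map_add P'.θ ⟨a, BI_le _ _ _ ha⟩ ⟨b, BI_le _ _ _ hb⟩).trans ?_
    rw [e1, e2, ← map_add, ← map_add]
    rfl
  | mul a b ha hb iha ihb =>
    obtain ⟨h1, e1⟩ := iha
    obtain ⟨h2, e2⟩ := ihb
    refine ⟨mul_mem h1 h2, ?_⟩
    refine (map_mul P'.θ ⟨a, BI_le _ _ _ ha⟩ ⟨b, BI_le _ _ _ hb⟩).trans ?_
    rw [e1, e2, ← map_mul, ← map_mul]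
    rfl

lemma g_eq {P : ZP D F₀} {P' : ZP D F} {φ : F₀ →ₐ[ℂ] F} {j : Fin D.k}
    (hτ : ∀ o, P'.τ.1 ⟨j, o⟩ = P.τ.1 ⟨j, o⟩)
    (hv : ∀ t, (D.sl t).1 = j → P'.v t = φ (P.v t)) (c : Fin D.m) : P'.g c j = φ (P.g c j) := by
  obtain ⟨h, e⟩ := θ_eq hτ hv (Fb.st_gk D D.L D.X yX_ne P'.τ c j)
  refine e.trans (congrArg φ (congrArg P.θ (Subtype.ext ?_)))
  show _ / D.kap D.X P'.τ j = _ / D.kap D.X P.τ j
  simp only [Dat.kap, hτ]

end MODB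

open MODB in
theorem st_mod (h : St_PTZ) : St_MOD := by
  intro D F₀ F _ _ _ _ P φ i z τ hz hτ h0
  classical
  let z' : D.Vx → F := fun t => if (D.sl t).1 = i then z t else φ (P.v t)
  have e1 : ∀ t, (D.sl t).1 = i → z' t = z t := fun t ht => if_pos ht
  have e2 : ∀ t, (D.sl t).1 ≠ i → z' t = φ (P.v t) := fun t ht => if_neg ht
  have hinc : D.Inc z' := fun j a => by
    by_cases hj : j = i
    · subst hj
      rw [e1 _ rfl, e1 _ rfl]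
      simp only [e1 (.inl ⟨j, _⟩) rfl]
      exact hz a
    · rw [e2 (.inr (⟨j, a⟩, 0)) hj, e2 (.inr (⟨j, a⟩, 1)) hj]
      simp only [e2 (.inl ⟨j, _⟩) hj]
      simpa only [map_mul, map_sum, map_smul] using congrArg φ (P.inc j a)
  have e3 : ∀ μ : D.Sl, μ.1 ≠ i → z' (τ.1 μ) = 1 := fun μ hμ => by
    rw [e2 _ (by rwa [sl_τ]), hτ μ hμ, P.v_τ, map_one]
  have hne : ∀ μ, z' (τ.1 μ) ≠ 0 := fun μ => by
    by_cases hμ : μ.1 = i
    · rw [e1 _ (by rwa [sl_τ])]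
      obtain ⟨j, o⟩ := μ
      subst hμ
      exact h0 o
    · rw [e3 μ hμ]; exact one_ne_zero
  obtain ⟨P', hP1, hP2⟩ := exists_ZP τ (D.zr z' τ) (h D F z' τ hinc hne)
  have hv : ∀ t, (D.sl t).1 ≠ i → P'.v t = φ (P.v t) := fun t ht => by
    rw [hP2, Dat.zr, e3 _ ht, _root_.div_one, e2 t ht]
  refine ⟨P', hP1, hv, fun c => ?_, fun t ht => ?_⟩
  · rw [ZP.ω, ZP.ω, map_prod]
    refine Finset.prod_congr rfl fun j hj => ?_
    have hj' : j ≠ i := Finset.ne_of_mem_erase hj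
    exact g_eq (fun o => by rw [hP1]; exact hτ ⟨j, o⟩ hj') (fun t ht => hv t (ht ▸ hj')) c
  · rw [hP2, Dat.zr, e1 t ht, e1 _ (by rwa [sl_τ])]

end Pool.Agent.Lib.MV.S3
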