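import Pool.Agent.Lib.MV.S3Blue

open MvPolynomial Set Pool.Agent.Lib.MP_e39d36_ag Pool.Agent.Lib.MP_e39d36_ag.Var
  Pool.Agent.Lib.MP_cc3443_ag Pool.Agent.Lib.MV.End Pool.Agent.Lib.MV.Dat

set_option linter.unusedSectionVars false
set_option linter.unusedVariables false

noncomputable section

namespace Pool.Agent.Lib.MV.S3

namespace POSPB

variable {K F σ : Type} [Field K] [Algebra ℂ K] [Field F] [Algebra ℂ F]

lemma τ_aeval {X : Var K} (γ : CMap X F) {w : σ → K} (hw : ∀ t, w t ∈ X.O γ.c)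
    (Q : MvPolynomial σ ℂ) :
    aeval w Q ∈ X.O γ.c ∧ γ.τ (aeval w Q) = aeval (fun t => γ.τ (w t)) Q := by
  induction Q using MvPolynomial.induction_on with
  | C a => rw [aeval_C, aeval_C]; exact ⟨X.const_mem _ a, γ.const a⟩
  | add p q hp hq =>
    rw [map_add, map_add, γ.add _ hp.1 _ hq.1, hp.2, hq.2]
    exact ⟨add_mem hp.1 hq.1, rfl⟩
  | mul_X p t hp =>
    rw [map_mul, map_mul, aeval_X, aeval_X, γ.mul _ hp.1 _ (hw t), hp.2]
    exact ⟨mul_mem hp.1 (hw t), rfl⟩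

variable [IsFF F] (Q : Place F)

lemma val_const (c : ℂ) : Q.val (algebraMap ℂ F c) ≤ 1 := Q.mem_iff.1 (Q.const c)

lemma val_aeval {z : σ → F} {q : σ → ℂ} (h : ∀ t, Q.val (z t - algebraMap ℂ F (q t)) < 1)
    (R : MvPolynomial σ ℂ) : Q.val (aeval z R - algebraMap ℂ F (aeval q R)) < 1 := by
  induction R using MvPolynomial.induction_on with
  | C a => simp
  | add p r hp hr =>
    rw [map_add, map_add, map_add, add_sub_add_comm]
    exact Q.val.map_add_lt hp hr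
  | mul_X p t hp =>
    have h1 : Q.val (z t) ≤ 1 := by
      rw [← sub_add_cancel (z t) (algebraMap ℂ F (q t))]
      exact Q.val.map_add_le (h t).le (val_const Q _)
    rw [map_mul, map_mul, map_mul, aeval_X, aeval_X, show aeval z p * z t -
      algebraMap ℂ F (aeval q p) * algebraMap ℂ F (q t) = (aeval z p - algebraMap ℂ F (aeval q p)) *
        z t + (z t - algebraMap ℂ F (q t)) * algebraMap ℂ F (aeval q p) by ring]
    refine Q.val.map_add_lt ?_ ?_ <;> rw [map_mul]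
    exacts [mul_lt_one_of_lt_of_le hp h1, mul_lt_one_of_lt_of_le (h t) (val_const Q _)]

lemma ne_of_val {a : F} {c : ℂ} (hc : c ≠ 0) (h : Q.val (a - algebraMap ℂ F c) < 1) : a ≠ 0 := by
  rintro rfl
  rw [zero_sub, Valuation.map_neg] at h
  have := mul_lt_one_of_lt_of_le h (val_const Q c⁻¹)
  rw [← map_mul, ← map_mul, mul_inv_cancel₀ hc, map_one, map_one] at this
  exact lt_irrefl _ this

end POSPB

open POSPB in
theorem st_posp (hCLP : St_CLP) (hPTY : St_PTY) (hVALA : St_VALA) (hFIBP : St_FIBP)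
    (hPTS : St_PTS) (hDEG : St_DEG) : St_POSP := fun D K _ _ M j hr hn W x hW hx => by
  have : IsEmpty (Fin (D.r j)) := by rw [hr]; infer_instance
  have ho : ∀ o : Option (Fin (D.r j)), o = none := fun o => by
    rcases o with _ | a
    exacts [rfl, isEmptyElim a]
  obtain ⟨γ₀, h0⟩ := hCLP K M.X W.support W.support.finite_toSet
  obtain ⟨τ, hτ⟩ := M.hyp.chart γ₀.c
  obtain ⟨P, rfl, hOn, hv⟩ := hPTY D K M ℂ γ₀ τ hτ.1
  obtain ⟨l₀, hl₀⟩ := exists_inl (sl_τ P.τ ⟨j, none⟩)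
  obtain ⟨κ, hκ, hg⟩ := hVALA D ℂ P j fun a => isEmptyElim a
  obtain ⟨F, _, _, _, Q, P', hOn', h1, h2, h3, h4, l, h5⟩ :=
    hFIBP D P j hn (fun l => P.v (.inl ⟨j, l⟩)) l₀ (by rw [← hl₀]; exact P.v_τ _) (by
      have := (P.on_iff j).1 hOn
      simp only [hg, mul_left_comm _ κ, ← Finset.mul_sum] at this
      exact (mul_eq_zero.1 this).resolve_left hκ)
  have e : P'.τ = P.τ := Subtype.ext (funext fun μ => by
    by_cases h : μ.1 = j
    · obtain ⟨i, o⟩ := μ
      subst h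
      rw [ho o, h2, hl₀]
    · exact h1 μ h)
  have h6 : ∀ t, Q.val (P'.v t - algebraMap ℂ F (P.v t)) < 1 := fun t => by
    by_cases h : (D.sl t).1 = j
    · obtain ⟨l, rfl⟩ := exists_inl (t := t) (i := j) (by
        generalize D.sl t = μ at h
        obtain ⟨i, o⟩ := μ
        subst h
        rw [ho o])
      exact h4 l
    · simp [h3 t h]
  obtain ⟨γ, hγ, hγv⟩ := hPTS D K M F P' hOn'
  rw [e] at hγ hγv
  have h7 : M.X.O γ₀.c ≤ M.X.O γ.c := hτ.le hγ fun b hb hu => by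
    obtain ⟨R, rfl⟩ := mem_B_iff.1 hb
    have a1 := (τ_aeval γ₀ (fun t => hτ.1 (rat_mem P.τ t)) R).2
    have a2 := (τ_aeval γ (fun t => hγ (rat_mem P.τ t)) R).2
    refine CMap.un_of_ne (hγ hb) (ne_of_val Q (CMap.τ_ne hu) ?_)
    rw [a1, a2, funext hγv, ← funext hv]
    exact val_aeval Q h6 R
  have h8 : 0 ≤ γ.deg W := CMap.deg_nonneg (M.sm.fac W) hW fun E hE => of_not_not fun h =>
    h0 E (Finsupp.mem_support_iff.2 h) (h7.trans hE)
  have h9 : 0 < γ.deg (M.st j none) :=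
    (hDEG D K M F γ P.τ hγ ⟨j, none⟩).2 (.inl ⟨j, l⟩) rfl (by rwa [hγv])
  obtain ⟨φ, hφ, -⟩ := M.Γ.exists_fun γ
  have hφ' : ∀ V, φ (nc M.Γ M.sm.fac V) = γ.deg V := fun V => hφ ⟨V, M.sm.fac V⟩
  have h10 := congrArg φ hx
  rw [cl_apply, map_sum, Finset.sum_eq_single j (fun i _ hi => ?_) (by simp), map_sum,
    Fintype.sum_eq_single none fun o h => absurd (ho o) h, map_smul, hφ', hφ',
    smul_eq_mul] at h10
  · exact nonneg_of_mul_nonneg_left (h10 ▸ Int.cast_nonneg h8) (Int.cast_pos.2 h9)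
  · rw [map_sum]
    refine Finset.sum_eq_zero fun o _ => ?_
    rw [map_smul, hφ', (hDEG D K M F γ P.τ hγ ⟨i, o⟩).1 fun t ht => ?_, Int.cast_zero, smul_zero]
    rw [hγv, h3 t (by rw [ht]; exact hi)]
    exact mem_range_self _

end Pool.Agent.Lib.MV.S3
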