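import Pool.Agent.Lib.MV.S3Blue

open MvPolynomial Set Pool.Agent.Lib.MP_e39d36_ag Pool.Agent.Lib.MP_e39d36_ag.Var
  Pool.Agent.Lib.MV.Dat

set_option linter.unusedSectionVars false
set_option linter.unusedVariables false
set_option linter.style.haveILetI false

noncomputable section

namespace Pool.Agent.Lib.MV.S3

namespace PtsB

lemma exists_hom {K F V : Type} [Field K] [Algebra ℂ K] [Field F] [Algebra ℂ F] (r : V → K)
    (z : V → F) (B : Subalgebra ℂ K) (hB : ∀ Q : MvPolynomial V ℂ, aeval r Q ∈ B)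
    (hs : ∀ b ∈ B, ∃ Q : MvPolynomial V ℂ, aeval r Q = b)
    (h : ∀ Q : MvPolynomial V ℂ, aeval r Q = 0 → aeval z Q = 0) :
    ∃ χ : B.toSubring →+* F, ∀ Q, χ ⟨_, hB Q⟩ = aeval z Q := by
  let e : MvPolynomial V ℂ →+* B.toSubring := (aeval r).toRingHom.codRestrict _ hB
  have he : Function.Surjective e := fun b => by
    obtain ⟨Q, hQ⟩ := hs b b.2
    exact ⟨Q, Subtype.ext hQ⟩
  exact ⟨e.liftOfSurjective he ⟨(aeval z).toRingHom, fun Q hQ => h Q (congrArg Subtype.val hQ)⟩,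
    fun Q => RingHom.liftOfRightInverse_comp_apply e _ _ _ Q⟩

lemma exists_ext {K F : Type} [Field K] [Field F] {B : Subring K} (χ : B →+* F) :
    ∃ (T : Subring K) (h : LocOf B T) (ψ : T →+* F), IsLoc T ∧ (∀ b : B, ψ ⟨b, h.1 b.2⟩ = χ b) ∧
      ∀ a : T, ¬Un T a → ψ a = 0 := by
  haveI := RingHom.ker_isPrime χ
  obtain ⟨T, h1, h2, h3⟩ := exists_locP (RingHom.ker χ)
  letI := (Subring.inclusion h2.1).toAlgebra
  haveI := h2.isLocalization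
  have hu : ∀ y : (unS T).comap B.subtype, IsUnit (χ y) := fun y =>
    isUnit_iff_ne_zero.2 ((h3 y.1).1 y.2)
  have he : ∀ b : B, IsLocalization.lift (S := T) hu ⟨b, h2.1 b.2⟩ = χ b := fun b =>
    IsLocalization.lift_eq hu b
  refine ⟨T, h2, IsLocalization.lift hu, h1, he, fun a ha => ?_⟩
  obtain ⟨b, h4, h5, h6⟩ := h2.2 a a.2
  have h7 : χ ⟨_, h6⟩ = 0 := by
    by_contra h8
    exact ha (((h3 ⟨_, h6⟩).2 h8).of_mul' (h2.1 h4) a.2)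
  have h8 : χ ⟨b, h4⟩ ≠ 0 := (h3 ⟨b, h4⟩).1 h5
  rw [← he] at h7 h8
  refine (mul_eq_zero.1 ?_).resolve_left h8
  rw [← map_mul]
  exact h7

lemma τ_aeval {K F V : Type} [Field K] [Algebra ℂ K] [Field F] [Algebra ℂ F] {X : Var K}
    (γ : CMap X F) (r : V → K) (hr : ∀ Q : MvPolynomial V ℂ, aeval r Q ∈ X.O γ.c)
    (Q : MvPolynomial V ℂ) : γ.τ (aeval r Q) = aeval (fun t => γ.τ (r t)) Q := by
  induction Q using MvPolynomial.induction_on with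
  | C a => rw [aeval_C, aeval_C, γ.const]
  | add p q hp hq => rw [map_add, map_add, γ.add _ (hr p) _ (hr q), hp, hq]
  | mul_X p t hp => rw [map_mul, map_mul, γ.mul _ (hr p) _ (hr _), hp, aeval_X, aeval_X]

end PtsB

theorem st_pts : St_PTS := fun D K _ _ M F _ _ P hP => by
  classical
  have rel : ∀ Q : MvPolynomial D.Vx ℂ, aeval (D.rat M.x P.τ) Q = 0 → aeval P.v Q = 0 :=
    fun Q hQ => by
      obtain ⟨b, hb, e⟩ := (M.hyp.ker P.τ Q).1 hQ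
      have h1 : (⟨_, aeval_mem_B Q⟩ : D.B D.X P.τ) = ⟨_, ZP.f_mem P.τ⟩ * ⟨b, hb⟩ := Subtype.ext e
      have h2 : P.θ ⟨_, ZP.f_mem P.τ⟩ = 0 := P.θ_f.trans hP
      rw [← P.θ_aeval, h1, map_mul, h2, zero_mul]
  obtain ⟨χ, hχ⟩ := PtsB.exists_hom _ P.v (D.B M.x P.τ) aeval_mem_B (fun b hb => mem_B_iff.1 hb) rel
  obtain ⟨T, h1, ψ, h2, h3, h4⟩ := PtsB.exists_ext χ
  obtain ⟨z, rfl⟩ := M.pt h2 h1
  have hv : ∀ Q : MvPolynomial D.Vx ℂ,
      (if h : aeval (D.rat M.x P.τ) Q ∈ M.X.O z then ψ ⟨_, h⟩ else 0) = aeval P.v Q := fun Q => by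
    rw [dif_pos (h1.1 (aeval_mem_B Q)), ← hχ]
    exact h3 ⟨_, aeval_mem_B Q⟩
  refine ⟨⟨z, fun a => if h : a ∈ M.X.O z then ψ ⟨a, h⟩ else 0, fun a ha b hb => ?_,
    fun a ha b hb => ?_, fun a => ?_, fun a ha h => ?_⟩, h1.1, fun t => ?_⟩
  · rw [dif_pos ha, dif_pos hb, dif_pos (add_mem ha hb), ← map_add]
    rfl
  · rw [dif_pos ha, dif_pos hb, dif_pos (mul_mem ha hb), ← map_mul]
    rfl
  · simpa only [aeval_C] using hv (C a)
  · rw [dif_pos ha]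
    exact h4 ⟨a, ha⟩ h
  · simpa only [aeval_X] using hv (X t)

theorem st_pty : St_PTY := fun D K _ _ M F _ _ γ τ hτ => by
  have hv := PtsB.τ_aeval γ (D.rat M.x τ) fun Q => hτ (aeval_mem_B Q)
  have h0 : γ.τ 0 = 0 := γ.hom.map_zero
  obtain ⟨P, rfl, h2⟩ := exists_ZP τ (fun t => γ.τ (D.rat M.x τ t)) fun Q hQ => by
    rw [← hv, (M.hyp.ker τ Q).2 ⟨0, zero_mem _, by rw [hQ, mul_zero]⟩, h0]
  refine ⟨P, rfl, ?_, fun t => congrFun h2 t⟩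
  obtain ⟨Q, hQ⟩ := mem_B_iff.1 (ZP.f_mem P.τ)
  have h1 : (⟨_, ZP.f_mem P.τ⟩ : D.B D.X P.τ) = ⟨_, aeval_mem_B Q⟩ := Subtype.ext hQ.symm
  rw [ZP.On, ← P.θ_f, h1, P.θ_aeval, h2, ← hv,
    (M.hyp.ker P.τ Q).2 ⟨1, one_mem _, by rw [hQ, mul_one]⟩, h0]

end Pool.Agent.Lib.MV.S3
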