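import Pool.Agent.Lib.MV.S3Blue

open MvPolynomial Set Pool.Agent.Lib.MV.Dat

set_option linter.unusedSectionVars false
set_option linter.unusedVariables false

noncomputable section

namespace Pool.Agent.Lib.MV.S3

namespace SECTB

variable {D : Dat}

lemma exists_u_ne {i : Fin D.k} {a b : Fin (D.r i)} (h : a ≠ b) :
    ∃ k, D.u i b k ⬝ᵥ D.p i a ≠ 0 := by
  by_contra! h1
  obtain ⟨l, hl⟩ := Function.ne_iff.1 (D.p_ne i a)
  obtain ⟨c, c', e⟩ := two_pts h (Pi.single l 1)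
  have := congrArg (· ⬝ᵥ D.p i a) e
  simp only [add_dotProduct, sum_dotProduct, smul_dotProduct, h1, D.u_p, smul_zero,
    Finset.sum_const_zero, add_zero, single_dotProduct, one_mul] at this
  exact hl this

lemma sum_alg {F : Type} [Field F] [Algebra ℂ F] {n : ℕ} (u p : Fin n → ℂ) :
    ∑ l, u l • algebraMap ℂ F (p l) = algebraMap ℂ F (u ⬝ᵥ p) := by
  simp only [dotProduct, map_sum, map_mul, Algebra.smul_def]

end SECTB

open SECTB in
theorem st_sect (hM : St_MOD) (hV : St_VALB) : St_SECT := by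
  classical
  intro D F₀ F _ _ _ _ P φ i a d k₀ hU hd
  have inj := (algebraMap ℂ F).injective
  let z : D.Vx → F := fun t => if D.sl t = ⟨i, some a⟩ then
    D.y (Function.update (fun _ _ => 1) i d) t else
    D.y (Function.update (fun _ _ => 1) i fun l => algebraMap ℂ F (D.p i a l)) t
  have z1 : ∀ l, z (.inl ⟨i, l⟩) = algebraMap ℂ F (D.p i a l) := fun l => by
    simp [z]
  have z2 : ∀ k, z (.inr (⟨i, a⟩, k)) = ∑ l, D.u i a k l • d l := fun k => by
    simp [z, y_inr]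
  have z3 : ∀ b k, b ≠ a → z (.inr (⟨i, b⟩, k)) = algebraMap ℂ F (D.u i b k ⬝ᵥ D.p i a) :=
    fun b k h => by
      simp only [z, sl_inr, Sigma.mk.injEq, heq_eq_eq, Option.some.injEq, h, and_false, if_false,
        y_inr, Function.update_self, sum_alg]
  obtain ⟨l, j, hτ⟩ := exists_mkCh P.τ
  obtain ⟨l₀, hl₀⟩ := Function.ne_iff.1 (D.p_ne i a)
  have hk : ∀ w : Σ i, Fin (D.r i), ∃ k : Fin 2, (w.1 ≠ i → k = j w) ∧
      (w.1 = i → z (.inr (w, k)) ≠ 0) ∧ (w = ⟨i, a⟩ → k = k₀) := by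
    rintro ⟨i', b⟩
    by_cases h : i' = i
    · subst h
      by_cases h1 : b = a
      · subst h1
        exact ⟨k₀, fun h => (h rfl).elim, fun _ => by rwa [z2], fun _ => rfl⟩
      · obtain ⟨k, hk⟩ := exists_u_ne (Ne.symm h1)
        exact ⟨k, fun h => (h rfl).elim, fun _ => by
          rw [z3 _ _ h1]; exact (map_ne_zero_iff _ inj).2 hk, fun h => (h1 (by simpa using h)).elim⟩
    · exact ⟨j ⟨i', b⟩, fun _ => rfl, fun h1 => (h h1).elim, fun h1 =>
        (h (congrArg Sigma.fst h1)).elim⟩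
  choose kk k1 k2 k3 using hk
  obtain ⟨P', e1, e2, e3, e4⟩ := hM D F₀ F P φ i z (mkCh (Function.update l i l₀) kk) (fun b => by
      simp only [z1, sum_alg]
      by_cases h : b = a
      · subst h
        simp only [D.u_p, map_zero, mul_zero]
      · rw [z3 _ _ h, z3 _ _ h, mul_comm]) (by
      rintro ⟨i', _ | b⟩ h
      · rw [hτ, mkCh_none, mkCh_none, Function.update_of_ne h]
      · rw [hτ, mkCh_some, mkCh_some, k1 ⟨i', b⟩ h]) (by
      rintro (_ | b)
      · rw [mkCh_none, Function.update_self, z1]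
        exact (map_ne_zero_iff _ inj).2 hl₀
      · exact k2 ⟨i, b⟩ rfl)
  have v1 : ∀ l, P'.v (.inl ⟨i, l⟩) = D.p i a l • (algebraMap ℂ F (D.p i a l₀))⁻¹ := fun l => by
    rw [e4 _ rfl, sl_inl, mkCh_none, Function.update_self, z1, z1, Algebra.smul_def, div_eq_mul_inv]
  have v2 : ∀ k, P'.v (.inr (⟨i, a⟩, k)) =
      (∑ l, D.u i a k l • d l) / ∑ l, D.u i a k₀ l • d l := fun k => by
    rw [e4 _ rfl, sl_inr, mkCh_some, k3 _ rfl, z2, z2]
  refine ⟨P', ?_, e2, ?_, v2⟩
  · obtain ⟨κ, hκ⟩ := hV D F P' i a _ (fun l => d l / ∑ l, D.u i a k₀ l • d l) v1 fun k => by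
      rw [v2, Finset.sum_div]
      exact Finset.sum_congr rfl fun l _ => (smul_div_assoc _ _ _).symm
    rw [P'.on_iff i]
    have h1 : ∑ c, P'.ω i c * P'.g c i =
        κ / (∑ l, D.u i a k₀ l • d l) * ∑ l, d l * φ (P.gr i a l) := by
      simp only [hκ, e3, ZP.gr, map_sum, map_smul, Finset.mul_sum]
      rw [Finset.sum_comm]
      refine Finset.sum_congr rfl fun l _ => Finset.sum_congr rfl fun c _ => ?_
      generalize (∑ l, D.u i a k₀ l • d l) = U
      simp only [Algebra.smul_def]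
      ring
    rw [h1, hd, mul_zero]
  · rintro (⟨i', l'⟩ | ⟨⟨i', b⟩, k⟩) h1 h2
    · obtain rfl : i' = i := h1
      rw [v1, Algebra.smul_def, ← map_inv₀, ← map_mul]
      exact ⟨_, rfl⟩
    · obtain rfl : i' = i := h1
      have h : b ≠ a := fun h => h2 (by rw [h]; rfl)
      rw [e4 _ rfl, sl_inr, mkCh_some, z3 _ _ h, z3 _ _ h, ← map_div₀]
      exact ⟨_, rfl⟩

end Pool.Agent.Lib.MV.S3
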