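import Pool.Agent.Lib.MV.S3Blue

open MvPolynomial Set Pool.Agent.Lib.MP_e39d36_ag Pool.Agent.Lib.MP_e39d36_ag.Var
  Pool.Agent.Lib.MP_cc3443_ag Pool.Agent.Lib.MV.End Pool.Agent.Lib.MV.Dat

noncomputable section

namespace Pool.Agent.Lib.MV.S3

namespace WPTB

variable (D : Dat) (i : Fin D.k) (a : Fin (D.r i))

/-- The gradient of the fibre equation as a function on a chart. -/
def W (l : Fin (D.n i + 1)) (τ : D.Ch) : D.B D.X τ :=
  ∑ c, eval (D.p i a) (pderiv l (D.G c i)) •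
    ∏ j ∈ Finset.univ.erase i, (⟨_, g_mem D τ c j⟩ : D.B D.X τ)

/-- The gradient of the fibre equation as a rational section. -/
def w (l : Fin (D.n i + 1)) : D.L :=
  ∑ c, eval (D.p i a) (pderiv l (D.G c i)) • Fb.wt D D.X i c

lemma W_val (l : Fin (D.n i + 1)) (τ : D.Ch) :
    (W D i a l τ : D.L) = w D i a l / Fb.gW D D.X τ i := by
  simp only [W, w, Fb.wt, Fb.gW, AddSubmonoidClass.coe_finsetSum, SetLike.val_smul,
    SubmonoidClass.coe_finsetProd, Finset.sum_div, Finset.prod_div_distrib, smul_div_assoc]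

lemma θ_W (P : ZP D ℂ) (l : Fin (D.n i + 1)) : P.θ (W D i a l P.τ) = P.gr i a l := by
  simp only [W, map_sum, map_smul, map_prod, ZP.gr, ZP.ω, ZP.g]

lemma euler (c : Fin D.m) : ∑ l, D.p i a l * eval (D.p i a) (pderiv l (D.G c i)) = 0 := by
  have h := congrArg (eval (D.p i a)) (D.G_hom c i).sum_X_mul_pderiv
  rw [map_sum, map_nsmul, D.G_p, smul_zero] at h
  simpa only [map_mul, eval_X] using h

lemma sum_gr (P : ZP D ℂ) : ∑ l, D.p i a l * P.gr i a l = 0 := by
  simp only [ZP.gr, Finset.mul_sum, smul_eq_mul, ← mul_assoc]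
  rw [Finset.sum_comm]
  simp only [← Finset.sum_mul, euler, zero_mul, Finset.sum_const_zero]

end WPTB

open WPTB in
theorem st_wpt (h0 : St_WPT0) : St_WPT := by
  intro D i a
  have hr : D.r i ≠ 0 := fun h => (h ▸ a : Fin 0).elim0
  have hn := D.n_eq i hr
  obtain ⟨l₀, hl₀⟩ := Function.ne_iff.1 (D.p_ne i a)
  replace hl₀ : D.p i a l₀ ≠ 0 := hl₀
  obtain ⟨P, hP⟩ := h0 D i hr (fun k => w D i a (l₀.succAbove (Fin.cast hn.symm k)))
    fun k τ => W_val D i a _ τ ▸ (W D i a _ τ).2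
  have h1 : ∀ l, l ≠ l₀ → P.gr i a l = 0 := fun l hl => by
    obtain ⟨k, rfl⟩ := Fin.exists_succAbove_eq hl
    rw [← θ_W, ← hP (Fin.cast hn k)]
    exact congrArg _ (Subtype.ext (W_val D i a _ _))
  refine ⟨P, fun l => ?_⟩
  by_cases hl : l = l₀
  · have h2 := sum_gr D i a P
    rw [Finset.sum_eq_single l₀ (fun b _ hb => by rw [h1 b hb, mul_zero])
      fun h => absurd (Finset.mem_univ _) h] at h2
    rw [hl]
    exact (mul_eq_zero.1 h2).resolve_left hl₀
  · exact h1 l hl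

end Pool.Agent.Lib.MV.S3
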