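import Pool.Agent.Lib.MV.S_WPT0

open MvPolynomial Set Pool.Agent.Lib.MP_e39d36_ag Pool.Agent.Lib.MP_e39d36_ag.Var
  Pool.Agent.Lib.MP_cc3443_ag Pool.Agent.Lib.MV.End Pool.Agent.Lib.MV.Dat

set_option linter.unusedSectionVars false
set_option linter.unusedVariables false

noncomputable section

namespace Pool.Agent.Lib.MV.S3

namespace WPT7B

lemma cover {r : ℕ} (h : r ≤ 7) : ∃ (N : ℕ) (A : Fin N → Finset (Fin r)), N ≤ 7 ∧
    (∀ c, (A c).card ≤ 5) ∧ ∀ a, (Finset.univ.filter fun c => a ∈ A c).card = 5 := by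
  by_cases h5 : r ≤ 5
  · exact ⟨5, fun _ => Finset.univ, by norm_num, fun _ => by simpa using h5, fun a => by simp⟩
  obtain rfl | rfl : r = 6 ∨ r = 7 := by omega
  · exact ⟨6, fun c => Finset.univ.erase c, by norm_num, by decide, by decide⟩
  · exact ⟨7, fun c => (Finset.univ.erase c).erase (c + 1), le_rfl, by decide, by decide⟩

lemma zsum {F J : Type} [Field F] {a : F} (h : a ≠ 0) (s : Finset J) (f : J → ℤ) :
    ∏ c ∈ s, a ^ f c = a ^ ∑ c ∈ s, f c := by
  classical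
  induction s using Finset.induction_on with
  | empty => simp
  | insert c s hc ih => rw [Finset.prod_insert hc, Finset.sum_insert hc, ih, zpow_add₀ h]

lemma five (hK : St_KAP) (hC : St_CONQ) (D : Dat) (j : Fin D.k) : ∃ P : D.L, P ≠ 0 ∧
    ∀ l τ, D.X j l * P / D.kap D.X τ j ^ 5 ∈ D.B D.X τ := by
  have hx : ∀ (τ : D.Ch) l, D.X j l / D.y D.X (τ.1 ⟨j, none⟩) ∈ D.B D.X τ := fun τ l =>
    div_mem_B (t := .inl ⟨j, l⟩) rfl
  by_cases h0 : D.r j = 0
  · refine ⟨1, one_ne_zero, fun l τ => ?_⟩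
    have : IsEmpty (Fin (D.r j)) := h0 ▸ inferInstance
    have := mul_mem (hx τ l) (pow_mem (hx τ 0) (5 * D.n j + 4))
    have h1 := yX_ne (τ.1 ⟨j, none⟩)
    rw [X_zero, div_pow, one_pow, div_mul_div_comm, ← pow_succ'] at this
    rw [Dat.kap, Finset.univ_eq_empty, Finset.prod_empty, mul_one (_ ^ _), Nat.cast_eq_zero.2 h0,
      sub_zero, ← Nat.cast_succ, zpow_natCast, ← pow_mul]
    rwa [show (D.n j).succ * 5 = 5 * D.n j + 4 + 1 by omega]
  have hn := D.n_eq j h0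
  obtain ⟨N, A, h1, h2, h3⟩ := cover (r := D.r j) (by have := D.r_le j; omega)
  choose C c1 c2 c3 using fun c => (hC D j).2 (A c) (h2 c)
  refine ⟨∏ c, aeval (D.X j) (C c), Finset.prod_ne_zero_iff.2 fun c _ =>
    (hC D j).1 _ _ (c2 c) (c1 c), fun l τ => ?_⟩
  have h4 := mul_mem (mul_mem (hx τ l) (pow_mem (hx τ 0) (14 - 2 * N)))
    (prod_mem (t := Finset.univ) fun c _ => hK D D.L D.X yX_ne τ j (A c) _ (C c) (c2 c) (c3 c))
  have h5 : ∏ c, ∏ a ∈ A c, D.y D.X (τ.1 ⟨j, some a⟩) = (∏ a, D.y D.X (τ.1 ⟨j, some a⟩)) ^ 5 := by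
    rw [Finset.prod_comm' (t' := Finset.univ) (s' := fun a => Finset.univ.filter fun c => a ∈ A c)
      (by simp), ← Finset.prod_pow]
    exact Finset.prod_congr rfl fun a _ => by rw [Finset.prod_const, h3]
  have h6 : ∑ c, ((A c).card : ℤ) = 5 * D.r j := by
    have := Finset.sum_card_bipartiteAbove_eq_sum_card_bipartiteBelow (s := Finset.univ)
      (t := Finset.univ) fun c a => a ∈ A c
    simp only [Finset.bipartiteAbove, Finset.bipartiteBelow, h3, Finset.filter_univ_mem,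
      Finset.sum_const, Finset.card_univ, Fintype.card_fin, smul_eq_mul] at this
    rw [← Nat.cast_sum, this]
    push_cast
    ring
  have h7 := yX_ne (τ.1 ⟨j, none⟩)
  rw [X_zero, div_pow, one_pow, Finset.prod_div_distrib, Finset.prod_mul_distrib, h5,
    zsum h7, Finset.sum_sub_distrib, h6, div_mul_div_comm, div_mul_div_comm, mul_one,
    ← mul_assoc, ← pow_succ', ← zpow_natCast, ← zpow_add₀ h7] at h4
  rw [Dat.kap, mul_pow, ← zpow_natCast (_ ^ _), ← zpow_mul]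
  have h8 : ((D.n j : ℤ) + 1 - D.r j) * (5 : ℕ) =
      (14 - 2 * N + 1 : ℕ) + (∑ c : Fin N, (D.n j : ℤ) - 5 * D.r j) := by
    rw [Finset.sum_const, Finset.card_univ, Fintype.card_fin, hn, nsmul_eq_mul]
    omega
  rwa [h8]

open WPT0B in
lemma core (hK : St_KAP) (hT : St_TWOI) (hC : St_CONQ) (D : Dat) (i : Fin D.k) (hi : D.r i ≠ 0)
    (w0 w1 : D.L) (h0 : w0 ≠ 0) (comb : ∀ τ, ∃ p ∈ D.B D.X τ, ∃ q ∈ D.B D.X τ,
      p * (w0 / Fb.gW D D.X τ i) + q * (w1 / Fb.gW D D.X τ i) = 1) : False := by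
  classical
  let k0 := IntermediateField.adjoin ℂ {w1 / w0}
  have ht : w1 / w0 ∈ k0 := IntermediateField.mem_adjoin_simple_self ℂ _
  have alg : ∀ s : D.L, (∀ τ, s / Fb.gW D D.X τ i ^ 5 ∈ D.B D.X τ) →
      s / w0 ^ 5 ∈ algebraicClosure k0 D.L := fun s hs => by
    have h1 : IsIntegral k0.toSubalgebra.toSubring (s / w0 ^ 5) := isIntegral_of_val fun V hV => by
      obtain ⟨τ, hτ⟩ := exists_ch_val (D := D) (x := D.X) yX_ne V
        fun c => hV (k0.algebraMap_mem c)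
      obtain ⟨p, hp, q, hq, e⟩ := comb τ
      have hg : Fb.gW D D.X τ i ≠ 0 := fun z => by simp [z] at e
      have e2 : s / w0 ^ 5 = s / Fb.gW D D.X τ i ^ 5 * (p + q * (w1 / w0)) ^ 5 := by
        have : p + q * (w1 / w0) = Fb.gW D D.X τ i / w0 := by
          field_simp at e ⊢
          exact e
        rw [this, div_pow, div_mul_div_cancel₀ (pow_ne_zero 5 hg)]
      rw [e2]
      exact V.toSubring.mul_mem (hτ (hs τ)) (V.toSubring.pow_mem
        (V.toSubring.add_mem (hτ hp) (V.toSubring.mul_mem (hτ hq) (hV ht))) 5)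
    exact mem_algebraicClosure_iff'.2 h1
  choose P hP hP' using five hK hC D
  have hX : ∀ j, j ≠ i → ∀ l, IsAlgebraic k0 (D.X j l) := fun j hj l => by
    have hji : j ∈ Finset.univ.erase i := Finset.mem_erase.2 ⟨hj, Finset.mem_univ _⟩
    have hc : P j * ∏ j' ∈ (Finset.univ.erase i).erase j, P j' ≠ 0 :=
      mul_ne_zero (hP j) (Finset.prod_ne_zero_iff.2 fun j' _ => hP j')
    have key : ∀ l, D.X j l * (P j * ∏ j' ∈ (Finset.univ.erase i).erase j, P j') / w0 ^ 5 ∈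
        algebraicClosure k0 D.L := fun l => alg _ fun τ => by
      rw [Fb.gW, ← Finset.mul_prod_erase _ _ hji, mul_pow, ← mul_assoc, mul_div_mul_comm,
        ← Finset.prod_pow, ← Finset.prod_div_distrib]
      exact mul_mem (hP' j l τ) (prod_mem fun j' _ => by simpa [X_zero] using hP' j' 0 τ)
    have := div_mem (key l) (key 0)
    rw [div_div_div_cancel_right₀ (pow_ne_zero 5 h0), mul_div_mul_right _ _ hc, X_zero,
      _root_.div_one] at this
    exact mem_algebraicClosure_iff.1 this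
  obtain ⟨a, b, hab, ha, hb⟩ := two D i hi
  have hind : AlgebraicIndependent ℂ fun w : Σ j, Fin (D.n j) =>
      algebraMap (MvPolynomial (Σ j, Fin (D.n j)) ℂ) D.L (MvPolynomial.X w) :=
    (MvPolynomial.algebraicIndependent_X _ ℂ).map'
      (f := IsScalarTower.toAlgHom ℂ (MvPolynomial (Σ j, Fin (D.n j)) ℂ) D.L)
      (IsFractionRing.injective _ _)
  have hinj : Function.Injective ![a, b] := by
    intro u v h
    fin_cases u <;> fin_cases v <;> simp_all [eq_comm]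
  refine hT D.L (w1 / w0) _ (hind.comp _ hinj) fun u => ?_
  fin_cases u
  · exact hX a.1 ha a.2.succ
  · exact hX b.1 hb b.2.succ

end WPT7B

open WPT0B in
theorem st_wpt7 (hK : St_KAP) (hT : St_TWOI) (hC : St_CONQ) : St_WPT0 := by
  intro D i hi w h
  by_contra hcon
  have comb : ∀ τ, ∃ p ∈ D.B D.X τ, ∃ q ∈ D.B D.X τ,
      p * (w 0 / Fb.gW D D.X τ i) + q * (w 1 / Fb.gW D D.X τ i) = 1 := fun τ => by
    have := finiteType D τ
    rcases zero_or_comb (⟨_, h 0 τ⟩ : D.B D.X τ) ⟨_, h 1 τ⟩ with ⟨θ, a, b⟩ | ⟨p, q, e⟩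
    · exact absurd ⟨⟨τ, θ⟩, Fin.forall_fin_two.2 ⟨a, b⟩⟩ hcon
    · exact ⟨p, p.2, q, q.2, congrArg Subtype.val e⟩
  by_cases h0 : w 0 = 0
  · obtain ⟨τ⟩ : Nonempty D.Ch := inferInstance
    have h1 : w 1 ≠ 0 := fun h1 => by
      obtain ⟨p, -, q, -, e⟩ := comb τ
      simp [h0, h1] at e
    refine WPT7B.core hK hT hC D i hi (w 1) (w 0) h1 fun τ => ?_
    obtain ⟨p, hp, q, hq, e⟩ := comb τ
    exact ⟨q, hq, p, hp, by rw [add_comm]; exact e⟩
  · exact WPT7B.core hK hT hC D i hi (w 0) (w 1) h0 comb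

end Pool.Agent.Lib.MV.S3
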