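import Pool.Agent.Lib.MV.S_CLP
import Pool.Agent.Lib.MV.S_DEG
import Pool.Agent.Lib.MV.S_FIBC
import Pool.Agent.Lib.MV.S_FIBP
import Pool.Agent.Lib.MV.S_INJ
import Pool.Agent.Lib.MV.S_MOD
import Pool.Agent.Lib.MV.S_POSP
import Pool.Agent.Lib.MV.S_PTS
import Pool.Agent.Lib.MV.S_SECT
import Pool.Agent.Lib.MV.S_TWOI
import Pool.Agent.Lib.MV.S_VALA
import Pool.Agent.Lib.MV.S_VALB
import Pool.Agent.Lib.MV.S_WPT
import Pool.Agent.Lib.MV.S_WPT7
import Pool.Agent.Lib.MV.B_KAP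
import Pool.Agent.Lib.MV.B_PTZ

namespace Pool.Agent.Lib.MV.S3

theorem fibp7 : St_FIBP := st_fibp (st_mod st_ptz) st_vala st_fibc

theorem inj7 : St_INJ :=
  st_inj (st_wpt (st_wpt7 st_kap' st_twoi st_conq)) (st_sect (st_mod st_ptz) st_valb)
    (st_mod st_ptz) fibp7 st_pts st_deg

theorem posp7 : St_POSP := st_posp st_clp st_pty st_vala fibp7 st_pts st_deg

end Pool.Agent.Lib.MV.S3
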