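import Pool.Agent.Lib.MV.A_ALL
import Pool.Agent.Lib.MV.Asm3
import Pool.Agent.Lib.MV.B_SM
import Pool.Agent.Lib.MV.H_BPF3
import Pool.Agent.Lib.MV.H_CNT
import Pool.Agent.Lib.MV.H_CONA
import Pool.Agent.Lib.MV.H_CUBL
import Pool.Agent.Lib.MV.H_CUBS
import Pool.Agent.Lib.MV.H_DEP
import Pool.Agent.Lib.MV.H_FAC
import Pool.Agent.Lib.MV.H_GEN3
import Pool.Agent.Lib.MV.H_LCL
import Pool.Agent.Lib.MV.H_LIN
import Pool.Agent.Lib.MV.H_LSEC
import Pool.Agent.Lib.MV.H_NEF3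
import Pool.Agent.Lib.MV.H_OFF
import Pool.Agent.Lib.MV.H_RES3
import Pool.Agent.Lib.MV.H_SPR
import Pool.Agent.Lib.MV.H_SURJ
import Pool.Agent.Lib.MV.H_TAN
import Pool.Agent.Lib.MV.H_TD0
import Pool.Agent.Lib.MV.S3_ALL7

open AlgebraicGeometry CategoryTheory Order Pool.Agent.Lib.MP_e39d36_ag

namespace Pool.Agent.Lib.MV.G3

theorem cnt : St_CNT :=
  st_cnt st_lin (st_fac st_dep) (st_surj st_bc (st_bpf3 (st_tan st_cona) (st_off st_cona)))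
    (st_cubl st_lin st_bc st_cona) (st_cubs (st_tan st_cona) st_nod)

theorem main3 (D : Dat) (hD : D.DP) (hF : D.Full) :
    ∃ Q : MvPolynomial (Fin D.m) ℂ, Q ≠ 0 ∧ ∀ a, MvPolynomial.eval a Q ≠ 0 →
      ∀ (Y : Scheme.{0}) [IsIntegral Y] [IsLocallyNoetherian Y] (s : Y ⟶ Spec (.of ℂ)) [Smooth s],
        IsProjective s → ∀ x : ∀ i, Fin (D.n i + 1) → Y.functionField,
        @Dat.HypA D a Y.functionField _ (algK s) x Y OX →
        ∃ S : Set (CDiv Y), S.Finite ∧ Covers s (cone S) ∧ ∀ φ L, IsPull s φ L → L ≠ 1 →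
          interior (cone S) ∩ L '' interior (cone S) = ∅ :=
  (gen_cone cnt (st_spr st_spr0) st_td0 st_res3 (st_lsec st_lcl st_nod st_kap2) st_gen3 nef3 all_L
    S3.inj7 S3.posp7 D hD hF).mono fun _ H _ _ _ s _ hY x h => sch_end3 s st_sm H hY x h

end Pool.Agent.Lib.MV.G3
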