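import Pool.Agent.Lib.MV.G3A
import Pool.Agent.Lib.MV.G_ALL

open Set Submodule Pool.Agent.Lib.MP_e39d36_ag Pool.Agent.Lib.MP_e39d36_ag.Var
  Pool.Agent.Lib.MP_cc3443_ag Pool.Agent.Lib.MV.End Pool.Agent.Lib.MV.Fb Pool.Agent.Lib.MV.Lat
  Pool.Agent.Lib.MV.G2 Pool.Agent.Lib.MV.G2.ZAR
open scoped NNReal

set_option linter.unusedSectionVars false
set_option linter.unusedVariables false
set_option linter.style.haveILetI false

noncomputable section

namespace Pool.Agent.Lib.MV.G3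

theorem st_nef3 (hX : St_FIBX) (hS : St_SEC2) (hN : St_NCPB) (hG : St_GLM) (hC : St_LIC)
    (hA : St_LIA) (hT : St_TW) (hP : St_PBT) (hR : St_TRG) (hD : St_ADM)
    (hZ : St_STEP) (hL : St_LPOS7) (hM : St_MKE) : St_NEF3 := by
  intro D K _ _ M h1 h2 g2 ok R₀ I i j hij hb e he L hL1 hL2
  have hi : 0 < D.r i := by rcases hb with h | h | h <;> omega
  have hj : 0 < D.r j := Nat.pos_of_ne_zero fun h => (hM.2.1 _ h).2.2 e he
  have lp : ∀ m, 0 < D.r m → ∀ W : Dv M.X, 0 ≤ W → 0 ≤ dot (κ I W m) (kk 2 (D.r m)) :=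
    fun m hm W hW => (hL _ _ _ (I.geo7 ok.n2 M.Q) ok).2 m hm _ (subset_closure (κ_eff hW))
  obtain ⟨F, f1, f2, f3, f4⟩ := hX D K M i hi.ne'
  obtain ⟨F', g1, g3, -⟩ := hX D K M j hj.ne'
  obtain ⟨γ, R, sR⟩ := se_line (I := I) hS hN h1 h2 hG hC hT hP g1 g3 hj he
  obtain ⟨γ₁, S, sS, eS⟩ := se_const (I := I) hS hN h1 h2 f1 ⟨0, hi⟩
  have rig : ∀ W : Dv M.X, 0 ≤ W → κ I W = sl j e → W R ≠ 0 := fun W a1 a2 a3 => by
    obtain ⟨Δ, b1, b2, -⟩ := sR.pb0 a3 fun _ V _ => rg_of_nonneg a1 V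
    have b3 := lp i hi Δ b1
    have b4 : (D.r i : ℝ) ≤ 7 := by exact_mod_cast ok.r7 i
    rw [b2, a2, bf_line he hij, sl_ne hij.symm, sl_self, he.2.1, zero_add, ok.n2 i hi, map_smul,
      LinearMap.smul_apply, dot_kk, smul_eq_mul] at b3
    push_cast at b3
    linarith
  have fix : ∀ {σ ε T}, Inv F.k σ ε → RGc M.st T ε → T (sl j e) = sl j e → ε R = R :=
    fun p1 p2 p3 => by
      have := rig _ (one_le _) (by rw [← push_single, κ_push p1 p2, sR.cls, p3])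
      exact (Finsupp.single_apply_ne_zero.1 this).1.symm
  have hRS : R ≠ S := fun h => by
    have := congrFun (sR.cls.symm.trans (h ▸ sS.cls)) j
    rw [sl_self, sl_ne hij] at this
    simpa [this] using he.2.1
  have vert : ¬F.k.toSubring ≤ M.X.O R.1 := fun h => by
    obtain ⟨Δ, b1, b2, -, b3⟩ := sS.pb0 (W := Finsupp.single R 1)
      (Finsupp.single_eq_of_ne hRS.symm) fun _ V _ => rg_of_nonneg (one_le R) V
    exact rig Δ b1 (by rw [b2, sR.cls, Bf, mv_of_zero (sl_ne hij.symm _)]) (b3 R (f1.k ▸ h))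
  have gd : ∀ V ∈ Adm R, GdV F V := fun V hV => by
    obtain ⟨W, w1, w2, w3⟩ := g2 i j hij hi.ne' e he
    obtain ⟨-, y, a2, -⟩ := id hV
    exact f4 V y a2 (w3 R (rig W w1 (κ_eq w2)) V hV)
  have adm : ∀ E (V : ValuationSubring K), V.toSubring = γ.T (plc E) → V ∈ Adm R :=
    fun E V => hD K M.X _ F' γ R E V (g1.k ▸ sR.sc)
  obtain ⟨V₁, hV₁⟩ := exists_cmp sR.sc.c S
  have hw : ∀ w, ∃ σ ε, w ∈ L → Inv F.k σ ε ∧ Li M.X (Adm R) σ ∧
      RGc M.st (tau D.n i (ee ⟨0, hi⟩ - w)) ε := fun w => by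
    by_cases h : w ∈ L
    · obtain ⟨σ, ε, p⟩ := hG D K M i F f1 f2 hi (Adm R) (fun σ ε _ p1 p2 p3 p4 =>
        hA K M.X _ F σ ε R p1 p2 p3 (fix p1 p4 (mv_of_zero (sl_ne hij.symm _))) gd) _
        ((isZ_ee ⟨0, hi⟩).sub (hL1 w h).1) (sub_k (hL1 w h).2 _)
      exact ⟨σ, ε, fun _ => p⟩
    · exact ⟨1, Equiv.refl _, fun h' => absurd h' h⟩
  choose σ ε hw using hw
  have tr := fun w h => hR K M.X M.sm.fac _ (σ w) (ε w) _ (hw w h).1 (hw w h).2.1
  have fx : ∀ w ∈ L, ∀ W : Dv M.X, push (ε w) W R = W R := fun w h W => by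
    rw [push_apply, (ε w).symm_apply_eq.2
      (fix (hw w h).1 (hw w h).2.2 (mv_of_zero (sl_ne hij.symm _))).symm]
  have key : ∀ W : Dv M.X, 0 ≤ W → W R = 0 → 0 ≤ lam D.n i j e L (κ I W) := fun W a1 a2 => by
    obtain ⟨W₀, b1, b2, b3, b4⟩ := sub_all (𝒟 := {W | ∀ V ∈ Adm R, Rg W V}) (R := R)
      (fun w W => Uv (push (ε w) W) V₁) ((lam D.n i j e L).toAddMonoidHom.comp (κ I)) L
      (fun w h W c1 c2 => by
        obtain ⟨m, d1, d2⟩ := hZ K M.X M.sm.fac _ F _ γ R S V₁ _ f2 (f3 j hij) sR.sc vert gd hV₁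
          (adm S V₁ hV₁) eS _ ((tr w h W).2 c1) ((fx w h W).trans c2)
        have d3 : push (ε w) (Finsupp.single ((ε w).symm S) 1) = Finsupp.single S 1 := by
          rw [push_single, Equiv.apply_symm_apply]
        have d4 : κ I (Finsupp.single ((ε w).symm S) 1) = vh D.n i w := of_tau (hL1 w h).2 (by
          rw [← κ_push (hw w h).1 (hw w h).2.2, d3, sS.cls])
        rw [← d3, ← map_nsmul, ← map_sub] at d1 d2
        refine ⟨_, nsmul_nonneg (one_le _) m, ?_, ?_, (tr w h _).1 d1, d2⟩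
        · rw [← fx w h, map_nsmul, d3, Finsupp.smul_apply, Finsupp.single_eq_of_ne hRS, smul_zero]
        · rw [map_nsmul]
          exact nsmul_nonneg (d4 ▸ hL2 w h :) m)
      (fun w h W c1 T c2 c3 => uv_keep M.sm.fac ((tr w h W).2 c1 V₁ (adm S V₁ hV₁))
        (S := push (ε w) T) (fun E => c2 _) (by rwa [map_add] at c3))
      W (fun V _ => rg_of_nonneg a1 V) a2
    refine (lam_nonneg fun w h => ?_).trans b4
    obtain ⟨Δ, c1, c2, c3, -⟩ := sR.pb0 ((fx w h W₀).trans b2)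
      fun E V hV => (tr w h W₀).2 b1 V (adm E V hV)
    obtain ⟨Δ', d1, d2, -⟩ := sS.pb0 (c3 S V₁ hV₁ (b3 w h)) fun _ V _ => rg_of_nonneg c1 V
    have d3 := lp j hj Δ' d1
    rw [d2, c2, κ_push (hw w h).1 (hw w h).2.2] at d3
    have d4 := bb he hij (ok.n2 i hi) (ok.n2 j hj) (ok.r7 j) d3
    rwa [← Module.End.mul_apply, Grp.bf_eq] at d4
  haveI := I.fd
  refine ⟨fun x hx => ?_, fun x hx => ?_⟩
  · refine closure_minimal (fun y hy => ?_) (isClosed_le continuous_const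
      (lam D.n i j e L).continuous_of_finiteDimensional)
      ((I.cl_cm (C := M.Γ.cone {W | Mov W.1})).2 hx)
    refine CG.nonneg_of_mem_span LinearMap.id (fun _ h => h) (I.map_cone (lam D.n i j e L)
      (C := span ℝ≥0 (Ici (0 : ℝ))) (fun W hW => subset_span ?_) hy)
    obtain ⟨f, a1, a2, a3⟩ := hW R
    have := key (W.1 + M.X.div f) a2 a3
    rwa [κ_le ⟨f, a1, rfl⟩] at this
  · let C : Submodule ℝ≥0 (V D.r) :=
      { carrier := {x | ∃ m : ℝ, x - m • sl j e ∈ (I.geo7 ok.n2 M.Q).Eff ∧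
          0 ≤ lam D.n i j e L (x - m • sl j e)}
        zero_mem' := ⟨0, by simp⟩
        add_mem' := by
          rintro x y ⟨m, a1, a2⟩ ⟨m', a3, a4⟩
          refine ⟨m + m', ?_⟩
          rw [add_smul, add_sub_add_comm, map_add]
          exact ⟨add_mem a1 a3, add_nonneg a2 a4⟩
        smul_mem' := by
          rintro c x ⟨m, a1, a2⟩
          refine ⟨c * m, ?_⟩
          rw [NNReal.smul_def, mul_smul, ← smul_sub, map_smul]
          exact ⟨CG.smul_mem' c.2 a1, mul_nonneg c.2 a2⟩ }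
    refine I.map_cone LinearMap.id (C := C) (fun W hW => ⟨W.1 R, ?_⟩) hx
    have a1 : 0 ≤ W.1.erase R := fun E => by
      classical
      rw [Finsupp.erase_apply]
      split_ifs
      exacts [le_rfl, hW E]
    have a2 : κ I (W.1.erase R) = κ I W.1 - (W.1 R : ℝ) • sl j e := by
      rw [eq_sub_iff_add_eq, ← sR.cls, Int.cast_smul_eq_zsmul, ← map_zsmul, ← map_add,
        Finsupp.smul_single_one, Finsupp.erase_add_single]
    have a3 := key _ a1 Finsupp.erase_same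
    have a4 := κ_eff (I := I) a1
    rw [a2] at a3 a4
    exact ⟨a4, a3⟩

theorem nef3 : St_NEF3 :=
  st_nef3 (st_fibx all_ker2 (st_tr all_ker2) (st_base st_gk) st_tri st_pen st_bas2 st_pen2)
    (st_sec2 all_vt st_sec0) st_ncpb (st_glm (st_liso st_reg) st_inv2 st_pv)
    (st_lic st_tw st_goodt) (st_lia st_gcm) st_tw st_pbt st_trg st_adm
    (st_step (st_hor st_ext2 st_succ st_big3) (st_uniq st_sec1))
    (st_lpos7 st_grp (st_ebe (st_vh st_grp) st_mke) st_mke st_mke7) st_mke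

end Pool.Agent.Lib.MV.G3
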