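import Pool.Agent.Lib.MV.SDefs

open MvPolynomial Set Pool.Agent.Lib.MP_e39d36_ag

noncomputable section

namespace Pool.Agent.Lib.MV.Dat

variable (D : Dat) {F : Type} [Field F] [Algebra ℂ F] (x : ∀ i, Fin (D.n i + 1) → F)

/-- The local rings `O` are those of the hypersurface in `Z`, and the fibres through the prime
divisors (the points satisfying `pd`) are general. -/
structure IsHyp {Pt : Type} (O : Pt → Subring F) (pd : Pt → Prop) : Prop where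
  one : ∀ i, x i 0 = 1
  ne : ∀ t, D.y x t ≠ 0
  chart : ∀ z, ∃ τ, LocOf (D.B x τ).toSubring (O z)
  ker : ∀ τ (P : MvPolynomial D.Vx ℂ), aeval (D.rat x τ) P = 0 ↔
    ∃ b ∈ D.B D.X τ, aeval (D.rat D.X τ) P = D.f D.X τ * b
  noline : ∀ E, pd E → ∀ τ, (D.B x τ).toSubring ≤ O E → ∀ i, D.r i ≠ 0 →
    ∀ A A' : Fin (D.n i + 1) → F, (∀ l, A l ∈ O E) → (∀ l, A' l ∈ O E) →
      (∃ l l', Un (O E) (A l * A' l' - A l' * A' l)) →
      ∃ s t : ℂ, Un (O E) (eval (s • A + t • A') (D.Φ x τ i))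
  nonsing : ∀ E, pd E → ∀ τ, (D.B x τ).toSubring ≤ O E → ∀ i a, ∃ l,
    Un (O E) (eval (algebraMap ℂ F ∘ D.p i a) (pderiv l (D.Φ x τ i)))
  nonzero : ∀ E, pd E → ∀ τ, (D.B x τ).toSubring ≤ O E → ∀ i, D.n i = 1 →
    ∃ z : Fin (D.n i + 1) → ℂ, Un (O E) (eval (algebraMap ℂ F ∘ z) (D.Φ x τ i))

end Pool.Agent.Lib.MV.Dat
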