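import Pool.Agent.Lib.MV.Lat2Nef

open Set Submodule Filter Topology
open scoped NNReal

noncomputable section

namespace Pool.Agent.Lib.MV.Lat

namespace HVRB

variable {ι : Type} [Fintype ι] [DecidableEq ι] {n r : ι → ℕ}

lemma cc_pos (m : ℕ) : 0 < cc m := by
  unfold cc
  split_ifs <;> norm_num

lemma pos_of_line (hM : St_MKE) {m : ℕ} {e : F m} (he : Line e) : 0 < m :=
  Nat.pos_of_ne_zero fun h => (hM.2.1 m h).2.2 e he

lemma coef (hL : St_LPOS7) (G : Geo n r) (h : Ok7 n r) {i j : ι} (hi : 0 < r i) (hij : i ≠ j)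
    {A : Module.End ℝ (F (r j))} {φ : F (r j) →ₗ[ℝ] ℝ} (hT : mv n j A φ ∈ G.Γ) {x : V r}
    (hx : x ∈ closure (G.Eff : Set (V r))) (h0 : x i = 0) : 0 ≤ φ (x j) := by
  have := (hL ι n r G h).2 i hi _ (G.Γ_cl hT hx)
  rw [mv_ne hij, h0, zero_add, h.n2 i hi, map_smul, LinearMap.smul_apply, dot_kk,
    smul_eq_mul] at this
  have h6 : (r i : ℝ) ≤ 7 := by exact_mod_cast h.r7 i
  have hp : (0 : ℝ) < ((2 : ℕ) + 1 : ℝ) ^ 2 - r i := by push_cast; linarith
  exact nonneg_of_mul_nonneg_left this hp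

lemma ineq (hN : St_NUM) (hL : St_LPOS7) (hM : St_MKE) (G : Geo n r) (h : Ok7 n r) (hG : Nef G)
    {i j : ι} (hij : j ≠ i) (hb : Bad (r i)) {e : F (r j)} (he : Line e) {H : F (r i)}
    {e' : Fin (r i) → F (r i)} (hm : IsMk H e') {x : V r} (hx : x ∈ closure (G.Eff : Set (V r))) :
    0 ≤ cc (r i) * (dot (x j) e + dot (x j) (kk 2 (r j))) + dot (x i) H := by
  have hj := pos_of_line hM he
  obtain ⟨L, C, hC, h1, h2, h3⟩ := hN ι n r i j hij (h.n2 j hj) hb e he H e' hm
  have c : ∀ (l : ι) (w : F (r l)), Continuous fun y : V r => dot (y l) w := fun l w =>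
    (dot.flip w).continuous_of_finiteDimensional.comp (continuous_apply l)
  have hcl : IsClosed
      {y : V r | 0 ≤ cc (r i) * (dot (y j) e + dot (y j) (kk 2 (r j))) + dot (y i) H} :=
    isClosed_le continuous_const ((continuous_const.mul ((c j _).add (c j _))).add (c i _))
  refine closure_minimal (fun y hy => ?_) hcl hx
  obtain ⟨m, h4, h5⟩ := (hG i j hij hb e he L h1 h2).2 y hy
  have h6 := (hL ι n r G h).2 j hj _ (subset_closure h4)
  rw [h3] at h5
  have h7 := nonneg_of_mul_nonneg_right h5 hC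
  simp only [Pi.sub_apply, Pi.smul_apply, sl_self, sl_ne hij.symm, map_sub, map_smul,
    LinearMap.sub_apply, LinearMap.smul_apply, smul_eq_mul, he.2.1, he.2.2, smul_zero,
    sub_zero] at h6 h7
  have h8 := mul_nonneg (cc_pos (r i)).le h6
  rw [mem_ofPred_eq]
  linarith

lemma sh_eb {m : ℕ} {H x : F m} {e : Fin m → F m} (hm : IsMk H e) (hx : x ∈ Sh H e)
    (h0 : 0 ≤ dot x H) : x ∈ Eb m := by
  obtain ⟨a, z, hz, rfl⟩ := mem_span_insert.1 hx
  have h1 : z ∈ Eb m := span_le.2 (range_subset_iff.2 fun b => (hm.line b).mem_Eb) hz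
  have h2 : dot z H = 0 := by
    clear hx h0 h1
    induction hz using span_induction with
    | mem y hy =>
      obtain ⟨b, rfl⟩ := hy
      rw [dot_comm, hm.He]
    | zero => simp
    | add y y' _ _ hy hy' => rw [map_add, LinearMap.add_apply, hy, hy', add_zero]
    | smul c y _ hy => rw [NNReal.smul_def, map_smul, LinearMap.smul_apply, hy, smul_zero]
  have h3 : dot (∑ b, e b - H) H = -1 := by
    rw [dot_comm, map_sub, map_sum, hm.HH]
    simp [hm.He]
  rw [map_add, LinearMap.add_apply, h2, NNReal.smul_def, map_smul, LinearMap.smul_apply, h3,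
    smul_eq_mul] at h0
  have h4 : a = 0 := NNReal.coe_eq_zero.1 (le_antisymm (by linarith) a.2)
  rwa [h4, zero_smul, zero_add]

end HVRB

open HVRB in
theorem st_hvr (hN : St_NUM) (hG : St_GRP) (hV : St_VH) (hL : St_LPOS7) (hC : St_CELL7)
    (hM : St_MKE) : St_HVR := by
  intro ι _ _ n r G h hn
  refine ⟨fun y hy i hi v hv hk j => ?_, fun x hx i j hij hb H e hm v hv => ?_⟩
  · have hx := (hV ι n r G i hi v hv hk).2.2.2 y hy
    have h0 : Bf n i v y i = 0 := mv_self y
    generalize Bf n i v y = x at hx h0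
    by_cases hij : i = j
    · subst hij
      rw [h0]
      exact zero_mem _
    rcases Nat.eq_zero_or_pos (r j) with hj | hj
    · refine ((hM.2.1 _ hj).1 _).2 ?_
      rcases (h.n1 j).eq_or_lt with h1 | h1
      · have := coef hL G h hi hij (G.iot_mem j h1.symm) hx h0
        rw [dot_comm, dot_H, dg] at this
        have he : ∑ a : Fin (r j), x j (some a) = 0 :=
          Finset.sum_eq_zero fun a _ => absurd a.2 (by omega)
        rwa [he, add_zero] at this
      · have hcl : IsClosed {y : V r | 0 ≤ y j none} :=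
          isClosed_le continuous_const (by fun_prop)
        exact closure_minimal (fun y hy => G.posp j hj h1 y hy) hcl hx
    · have hcell : Cell (x j) := by
        rintro γ hγ (hk | hk)
        · have hT := ((hG ι n r).2.2.2 G j hj).2 (-γ) hγ.neg (by simp [hk])
          have := coef hL G h hi hij hT hx h0
          rwa [neg_neg, dot_comm] at this
        · have := coef hL G h hi hij (((hG ι n r).2.2.2 G j hj).1 γ hγ hk) hx h0
          rwa [dot_comm] at this
      rcases hC _ hj (h.r7 j) _ hcell with h1 | ⟨hb, H, e, hm, h1⟩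
      · exact h1
      · refine sh_eb hm h1 ?_
        have := ineq hN hL hM G h hn hij hb (line_ee ⟨0, hi⟩) hm hx
        simpa [h0] using this
  · obtain ⟨L, C, hC, h1, h2, h3⟩ := hN ι n r i j hij (h.n2 j (pos_of_line hM hv)) hb v hv H e hm
    have h4 := (hn i j hij hb v hv L h1 h2).1 x hx
    rw [h3] at h4
    exact nonneg_of_mul_nonneg_right h4 hC

end Pool.Agent.Lib.MV.Lat
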