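import Pool.Agent.Lib.MV.LatBlue

open Set Submodule
open scoped NNReal

noncomputable section

namespace Pool.Agent.Lib.MV.Lat

namespace Main

lemma fin_line (hF : St_FIN) {r : ℕ} (hr : r ≤ 6) : {v : F r | Line v}.Finite :=
  (hF r (by omega) 1 (-1)).subset fun _ hv => ⟨hv.1, hv.2.2, hv.2.1⟩

lemma fin_gen (hF : St_FIN) {r : ℕ} (hr : r ≤ 6) : (Gen r).Finite :=
  ((fin_line hF hr).union (finite_range hh)).subset fun _ hv =>
    hv.imp id fun ⟨_, o, h⟩ => ⟨o, h.symm⟩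

lemma fin_mk (hF : St_FIN) {r : ℕ} (hr : r ≤ 6) :
    {p : F r × (Fin r → F r) | IsMk p.1 p.2}.Finite :=
  ((hF r (by omega) 3 1).prod (Finite.pi' fun _ => fin_line hF hr)).subset fun _ hp =>
    ⟨⟨hp.zH, hp.Hk, hp.HH⟩, hp.line⟩

variable {ι : Type} [Fintype ι] [DecidableEq ι] {n r : ι → ℕ}

lemma bf_int {i : ι} {v : F (r i)} (hv : IsZ v) (h : ∃ z : ℤ, (dot v v + 1) / 2 = z) (x : V r)
    (hx : IsZV x) : IsZV (Bf n i v x) :=
  mv_int (fun _ _ => isZ_zero) (fun _ hw => (hv.sub ((isZ_kk 2).smul h)).dot hw) hx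

omit [DecidableEq ι] in
lemma fin_sigma {β : ι → Type} {s : (i : ι) → Set (β i)} (h : ∀ i, (s i).Finite) :
    {p : Σ i, β i | p.2 ∈ s p.1}.Finite :=
  (finite_iUnion fun i => (h i).image (Sigma.mk i)).subset fun p hp =>
    mem_iUnion.2 ⟨p.1, p.2, hp, rfl⟩

end Main

open Main

theorem st_lat (hF : St_FIN) (hK : St_MKE) (hC : St_CELL) (hR : St_RP) (hV : St_VH) (hE : St_EBE)
    (hD : St_RED) (hL : St_LV) (hP : St_PM) (hS : St_PS) : St_LAT := by
  intro ι _ _ n r G ok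
  obtain ⟨R1, R2⟩ := hR ι r
  have h0 : RP {x : V r | InEb x} := R1 _ (fun i => fin_gen hF (ok.r6 i)) fun i v => gen_int
  have hb : ∀ x ∈ G.Mov, ∀ i, 0 < r i → ∀ v : F (r i), IsZ v → dot v (kk 2 (r i)) = 1 →
      InEb (Bf n i v x) := fun x hx i hi v h1 h2 =>
    hL ι n r G ok i hi _ ((hV ι n r G i hi v h1 h2).2.2.2 x hx) (mv_self x)
  obtain ⟨S0, a1, a2, a3⟩ := R2 (Σ i, F (r i)) {p | p.2 ∈ {v | Line v}}
    (fin_sigma fun i => fin_line hF (ok.r6 i)) (fun p => Bf n p.1 p.2) _ _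
    (fun p hp => bf_int hp.1 ⟨0, by rw [hp.2.1]; simp⟩) h0 h0
  have key : ∀ p : Σ i, F (r i) × (Fin (r i) → F (r i)), ∃ S : Set (V r), S.Finite ∧
      (∀ x ∈ S, IsZV x ∧ x ∈ G.Mov ∧ x ∈ G.Eff) ∧
      ((r p.1 = 4 ∨ r p.1 = 5) → (∀ j, j ≠ p.1 → r j = 0) → IsMk p.2.1 p.2.2 → ∀ y ∈ G.Mov,
        y p.1 ∈ Sh p.2.1 p.2.2 → (∀ j, j ≠ p.1 → y j ∈ Eb (r j)) → y ∈ span ℝ≥0 S) := by
    rintro ⟨i, H, e⟩
    by_cases h : (r i = 4 ∨ r i = 5) ∧ (∀ j, j ≠ i → r j = 0) ∧ IsMk H e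
    swap
    · exact ⟨∅, finite_empty, by simp, fun a b c => absurd ⟨a, b, c⟩ h⟩
    obtain ⟨h1, h2, h3⟩ := h
    have hi : 0 < r i := by omega
    have hz : IsZ (∑ a, e a - H) := (IsZ.sum fun a _ => h3.ze a).sub h3.zH
    have b0 := R1 (Function.update (fun j => Gen (r j)) i (insert (∑ a, e a - H) (range e)))
      (fun j => by
        by_cases hj : j = i
        · subst hj; simpa using finite_range e
        · simpa [hj] using fin_gen hF (ok.r6 j))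
      (fun j => by
        by_cases hj : j = i
        · subst hj
          rw [Function.update_self]
          rintro v (rfl | ⟨a, rfl⟩)
          exacts [hz, h3.ze a]
        · rw [Function.update_of_ne hj]
          exact fun v => gen_int)
    obtain ⟨S, b1, b2, b3⟩ := R2 (F (r i)) (range e ∪ {v | r i = 4 ∧ v = ∑ a, e a - H})
      ((finite_range e).union ((finite_singleton _).subset fun v hv => hv.2))
      (fun v => Bf n i v) _ _ (by
        rintro v (⟨a, rfl⟩ | ⟨h4, rfl⟩)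
        · exact bf_int (h3.ze a) ⟨0, by rw [(h3.line a).2.1]; simp⟩
        · exact bf_int hz ⟨-1, by rw [h3.sq, h4]; norm_num⟩) b0 h0
    refine ⟨S, b1, fun x hx => ⟨b2 x hx, ?_⟩, fun _ _ _ y hy h5 h6 => ?_⟩
    · have hx' := b3.ge (subset_span hx)
      refine hS ι n r G i h1 h2 H e h3 x ?_ (fun a => hx'.2 _ (Or.inl ⟨a, rfl⟩))
        fun h4 => hx'.2 _ (Or.inr ⟨h4, rfl⟩)
      simpa [Sh] using hx'.1 i
    · refine b3.le ⟨fun j => ?_, ?_⟩
      · by_cases hj : j = i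
        · subst hj; simpa [Sh] using h5
        · simpa [hj, Eb] using h6 j hj
      · rintro v (⟨a, rfl⟩ | ⟨h4, rfl⟩)
        · exact hb y hy i hi _ (h3.ze a) (h3.line a).2.2
        · refine hb y hy i hi _ hz ?_
          rw [h3.apex_k, h4]
          norm_num
  choose S k1 k2 k3 using key
  let I : Set (Σ i, F (r i) × (Fin (r i) → F (r i))) := {p | p.2 ∈ {q | IsMk q.1 q.2}}
  have hI : I.Finite := fin_sigma fun i => fin_mk hF (ok.r6 i)
  refine ⟨S0 ∪ ⋃ p ∈ I, S p, a1.union (hI.biUnion fun p _ => k1 p), ?_, fun x hx hx' => ?_⟩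
  · rintro x (hx | hx)
    · have hx' := a3.ge (subset_span hx)
      exact ⟨a2 x hx, hP ι n r G ok x hx'.1 fun i e he => hx'.2 ⟨i, e⟩ he, hE ι n r G x hx'.1⟩
    · obtain ⟨p, -, hp⟩ := mem_iUnion₂.1 hx
      exact k2 p x hp
  obtain ⟨T, t1, T', t2, t3, t4, t5⟩ := hD ι n r G ok x hx'
  have hy := G.Γ_mov T t1 x hx
  refine ⟨T', t2, T x, ?_, by rw [← Module.End.mul_apply, t3]; rfl⟩
  have h7 : ∀ j, r j = 0 → T x j ∈ Eb (r j) := fun j hj => ((hK.2.1 _ hj).1 _).2 (t5 j hj)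
  by_cases h : InEb (T x)
  · refine span_mono subset_union_left (a3.le ⟨h, fun p hp => ?_⟩)
    refine hb _ hy p.1 (Nat.pos_of_ne_zero fun h0 => (hK.2.1 _ h0).2.2 _ hp) _ hp.1 hp.2.2
  · obtain ⟨i, hi⟩ := not_forall.1 h
    have hi' : 0 < r i := Nat.pos_of_ne_zero fun h0 => hi (h7 i h0)
    obtain ⟨h45, H, e, h3, h4⟩ := (hC _ hi' (ok.r6 i) _ (t4 i hi')).resolve_left hi
    have h8 : ∀ j, j ≠ i → r j = 0 := fun j hj => by
      rcases ok.hC with h9 | h9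
      · have := h9 i; omega
      · exact Nat.eq_zero_of_not_pos fun h0 => hj (h9 j i h0 hi')
    exact span_mono ((subset_biUnion_of_mem (u := S) (x := ⟨i, H, e⟩) h3).trans subset_union_right)
      (k3 ⟨i, H, e⟩ h45 h8 h3 _ hy h4 fun j hj => h7 j (h8 j hj))

end Pool.Agent.Lib.MV.Lat
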