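import Pool.Agent.Lib.MV.Lat2Blue
import Pool.Agent.Lib.MV.L_LAT

open Set Submodule
open scoped NNReal

noncomputable section

namespace Pool.Agent.Lib.MV.Lat

namespace Main7

lemma fin_line (hF : St_FIN) {r : ℕ} (hr : r ≤ 7) : {v : F r | Line v}.Finite :=
  (hF r (by omega) 1 (-1)).subset fun _ hv => ⟨hv.1, hv.2.2, hv.2.1⟩

lemma fin_gen (hF : St_FIN) {r : ℕ} (hr : r ≤ 7) : (Gen r).Finite :=
  ((fin_line hF hr).union (finite_range hh)).subset fun _ hv =>
    hv.imp id fun ⟨_, o, h⟩ => ⟨o, h.symm⟩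

lemma fin_mk (hF : St_FIN) {r : ℕ} (hr : r ≤ 7) :
    {p : F r × (Fin r → F r) | IsMk p.1 p.2}.Finite :=
  ((hF r (by omega) 3 1).prod (Finite.pi' fun _ => fin_line hF hr)).subset fun _ hp =>
    ⟨⟨hp.zH, hp.Hk, hp.HH⟩, hp.line⟩

lemma cc_int (m : ℕ) : ∃ z : ℤ, cc m = z := by
  unfold cc
  split_ifs
  exacts [⟨2, by norm_num⟩, ⟨1, by norm_num⟩]

section one

variable {r : ℕ} {H : F r} {e : Fin r → F r}

lemma ap_int (h : IsMk H e) : IsZ (∑ a, e a - cc r • H) :=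
  (IsZ.sum fun a _ => h.ze a).sub (h.zH.smul (cc_int r))

lemma ap_k (h : IsMk H e) (hb : Bad r) (h5 : r ≠ 5) :
    dot (∑ a, e a - cc r • H) (kk 2 r) = 1 := by
  have h1 : dot (∑ a, e a - cc r • H) (kk 2 r) = r - cc r * 3 := by
    rw [map_sub, map_sum, map_smul, LinearMap.sub_apply, LinearMap.sum_apply,
      LinearMap.smul_apply, h.Hk]
    simp [(h.line _).2.2]
  rw [h1]
  rcases hb with hb | hb | hb
  · subst hb; norm_num [cc]
  · exact absurd hb h5
  · subst hb; norm_num [cc]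

lemma ap_sq (h : IsMk H e) (hb : Bad r) (h5 : r ≠ 5) :
    dot (∑ a, e a - cc r • H) (∑ a, e a - cc r • H) = -3 := by
  have h1 : dot (∑ a, e a - cc r • H) (∑ a, e a - cc r • H) = cc r * cc r - r := by
    simp only [map_sub, map_sum, map_smul, LinearMap.sub_apply, LinearMap.sum_apply,
      LinearMap.smul_apply, h.ee, h.HH, h.He, dot_comm _ H]
    simp
    ring
  rw [h1]
  rcases hb with hb | hb | hb
  · subst hb; norm_num [cc]
  · exact absurd hb h5
  · subst hb; norm_num [cc]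

lemma sh_le (h : IsMk H e) (a : Fin r) {x : F r} (hx : x ∈ Sh H e) : dot (e a) x ≤ 0 := by
  induction hx using Submodule.span_induction with
  | mem y hy =>
    rcases hy with rfl | ⟨b, rfl⟩
    · rw [dot_comm, h.apex_e]; norm_num
    · rw [h.ee]; split_ifs <;> norm_num
  | zero => simp
  | add y z _ _ hy hz => rw [map_add]; linarith
  | smul c y _ hy =>
    rw [NNReal.smul_def, map_smul, smul_eq_mul]
    exact mul_nonpos_of_nonneg_of_nonpos c.2 hy

end one

variable {ι : Type} [Fintype ι] [DecidableEq ι] {n r : ι → ℕ}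

/-- The wall functional times a fixed vector. -/
def wl (i : ι) (H : F (r i)) (t : Σ j, F (r j)) : Module.End ℝ (V r) :=
  (cc (r i) • (dot t.2 ∘ₗ LinearMap.proj t.1) + dot H ∘ₗ LinearMap.proj i).smulRight
    (sl (r := r) i (hh none))

omit [Fintype ι] in
lemma wl_apply (i : ι) (H : F (r i)) (t : Σ j, F (r j)) (x : V r) :
    wl i H t x = (cc (r i) * dot (x t.1) t.2 + dot (x i) H) • sl (r := r) i (hh none) := by
  rw [dot_comm (x t.1), dot_comm (x i)]
  rfl

omit [Fintype ι] in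
lemma ray_iff (i : ι) (c : ℝ) :
    c • sl (r := r) i (hh none) ∈ span ℝ≥0 ({sl (r := r) i (hh none)} : Set (V r)) ↔ 0 ≤ c := by
  rw [mem_span_singleton]
  constructor
  · rintro ⟨a, ha⟩
    have h1 := congrFun (congrFun ha i) none
    have h2 : (a : ℝ) = c := by simpa [sl, hh, NNReal.smul_def] using h1
    exact h2 ▸ a.2
  · exact fun hc => ⟨⟨c, hc⟩, rfl⟩

end Main7

open Main7

theorem st_lat7 (hF : St_FIN) (hK : St_MKE) (hC : St_CELL7) (hR : St_RP) (hE : St_EBE)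
    (hD : St_RED7) (hP : St_PM7) (hS : St_PS7) (hL : St_LPOS7) : St_LAT7 := by
  intro ι _ _ n r G ok hb hw
  obtain ⟨R1, R2⟩ := hR ι r
  have h0 : RP {x : V r | InEb x} := R1 _ (fun i => fin_gen hF (ok.r7 i)) fun i v => gen_int
  have fl : {p : Σ i, F (r i) | p.2 ∈ {v | Line v}}.Finite :=
    Main.fin_sigma fun i => fin_line hF (ok.r7 i)
  obtain ⟨S0, a1, a2, a3⟩ := R2 (Σ i, F (r i)) {p | p.2 ∈ {v | Line v}} fl
    (fun p => Bf n p.1 p.2) _ _
    (fun p hp => Main.bf_int hp.1 ⟨0, by rw [hp.2.1]; simp⟩) h0 h0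
  have key : ∀ p : Σ i, F (r i) × (Fin (r i) → F (r i)), ∃ S : Set (V r), S.Finite ∧
      (∀ x ∈ S, IsZV x ∧ x ∈ G.Mov ∧ x ∈ G.Eff) ∧
      (Bad (r p.1) → IsMk p.2.1 p.2.2 → ∀ y ∈ G.Mov,
        y p.1 ∈ Sh p.2.1 p.2.2 → y ∈ span ℝ≥0 S) := by
    rintro ⟨i, H, e⟩
    by_cases h : Bad (r i) ∧ IsMk H e
    swap
    · exact ⟨∅, finite_empty, by simp, fun a b => absurd ⟨a, b⟩ h⟩
    obtain ⟨h1, h3⟩ := h
    have hi : 0 < r i := by rcases h1 with h | h | h <;> omega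
    have hz : IsZ (∑ a, e a - H) := (IsZ.sum fun a _ => h3.ze a).sub h3.zH
    have b0 := R1 (Function.update (fun j => Gen (r j)) i (insert (∑ a, e a - H) (range e)))
      (fun j => by
        by_cases hj : j = i
        · subst hj; simpa using finite_range e
        · simpa [hj] using fin_gen hF (ok.r7 j))
      (fun j => by
        by_cases hj : j = i
        · subst hj
          rw [Function.update_self]
          rintro v (rfl | ⟨a, rfl⟩)
          exacts [hz, h3.ze a]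
        · rw [Function.update_of_ne hj]
          exact fun v => gen_int)
    have b1 := R2 (F (r i)) (range e ∪ {v | r i ≠ 5 ∧ v = ∑ a, e a - cc (r i) • H})
      ((finite_range e).union ((finite_singleton _).subset fun v hv => hv.2))
      (fun v => Bf n i v) _ _ (by
        rintro v (⟨a, rfl⟩ | ⟨h4, rfl⟩)
        · exact Main.bf_int (h3.ze a) ⟨0, by rw [(h3.line a).2.1]; simp⟩
        · exact Main.bf_int (ap_int h3) ⟨-1, by rw [ap_sq h3 h1 h4]; norm_num⟩) b0 h0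
    have hw0 : IsZV (sl (r := r) i (hh none)) := isZV_sl (isZ_hh none)
    have c0 : RP (span ℝ≥0 ({sl (r := r) i (hh none)} : Set (V r)) : Set (V r)) :=
      ⟨_, finite_singleton _, fun x hx => by rw [mem_singleton_iff.1 hx]; exact hw0, rfl⟩
    obtain ⟨S, d1, d2, d3⟩ := R2 (Σ j, F (r j)) {t | t.1 ≠ i ∧ Line t.2}
      (fl.subset fun t ht => ht.2) (wl i H) _ _ (by
        intro t ht x hx j
        obtain ⟨z1, e1⟩ := cc_int (r i)
        obtain ⟨z2, e2⟩ := (hx t.1).dot ht.2.1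
        obtain ⟨z3, e3⟩ := (hx i).dot h3.zH
        rw [wl_apply, Pi.smul_apply]
        exact (hw0 j).smul ⟨z1 * z2 + z3, by rw [e1, e2, e3]; push_cast; rfl⟩) b1 c0
    refine ⟨S, d1, fun x hx => ⟨d2 x hx, ?_⟩, fun _ _ y hy h5 => ?_⟩
    · have hx' := d3.ge (subset_span hx)
      refine hS ι n r G ok i h1 H e h3 x ?_ (fun a => hx'.1.2 _ (Or.inl ⟨a, rfl⟩))
        (fun h4 => hx'.1.2 _ (Or.inr ⟨h4, rfl⟩)) fun j hj v hv => ?_
      · simpa [Sh] using hx'.1.1 i
      · have h6 := hx'.2 ⟨j, v⟩ ⟨hj, hv⟩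
        rw [wl_apply] at h6
        exact (ray_iff i _).1 h6
    · refine d3.le ⟨⟨fun j => ?_, ?_⟩, fun t ht => ?_⟩
      · by_cases hj : j = i
        · subst hj; simpa [Sh] using h5
        · let a : Fin (r i) := ⟨0, hi⟩
          have h6 := hb y hy i hi _ (h3.ze a) (h3.line a).2.2 j
          have h7 := (hL ι n r G ok).1 i j
          rw [kW_ne hj] at h7
          rw [Bf, mv_ne hj, (h3.line a).2.1] at h6
          have h8 : (-dot (e a) (y i)) • kk (n j) (r j) ∈ Eb (r j) :=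
            smul_mem (Eb (r j)) (⟨-dot (e a) (y i), neg_nonneg.2 (sh_le h3 a h5)⟩ : ℝ≥0) h7
          have h9 : y j ∈ Eb (r j) := by simpa using add_mem h6 h8
          simpa [hj, Eb] using h9
      · rintro v (⟨a, rfl⟩ | ⟨h4, rfl⟩)
        · exact hb y hy i hi _ (h3.ze a) (h3.line a).2.2
        · exact hb y hy i hi _ (ap_int h3) (ap_k h3 h1 h4)
      · rw [wl_apply]
        exact (ray_iff i _).2 (hw y hy i t.1 ht.1 h1 H e h3 t.2 ht.2)
  choose S k1 k2 k3 using key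
  let I : Set (Σ i, F (r i) × (Fin (r i) → F (r i))) := {p | p.2 ∈ {q | IsMk q.1 q.2}}
  have hI : I.Finite := Main.fin_sigma fun i => fin_mk hF (ok.r7 i)
  refine ⟨S0 ∪ ⋃ p ∈ I, S p, a1.union (hI.biUnion fun p _ => k1 p), ?_, fun x hx hx' => ?_⟩
  · rintro x (hx | hx)
    · have hx' := a3.ge (subset_span hx)
      exact ⟨a2 x hx, hP ι n r G ok x hx'.1 fun i e he => hx'.2 ⟨i, e⟩ he, hE ι n r G x hx'.1⟩
    · obtain ⟨p, -, hp⟩ := mem_iUnion₂.1 hx
      exact k2 p x hp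
  obtain ⟨T, t1, T', t2, t3, t4, t5⟩ := hD ι n r G ok x hx'
  have hy := G.Γ_mov T t1 x hx
  refine ⟨T', t2, T x, ?_, by rw [← Module.End.mul_apply, t3]; rfl⟩
  have h7 : ∀ j, r j = 0 → T x j ∈ Eb (r j) := fun j hj => ((hK.2.1 _ hj).1 _).2 (t5 j hj)
  by_cases h : InEb (T x)
  · refine span_mono subset_union_left (a3.le ⟨h, fun p hp => ?_⟩)
    refine hb _ hy p.1 (Nat.pos_of_ne_zero fun h0 => (hK.2.1 _ h0).2.2 _ hp) _ hp.1 hp.2.2
  · obtain ⟨i, hi⟩ := not_forall.1 h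
    have hi' : 0 < r i := Nat.pos_of_ne_zero fun h0 => hi (h7 i h0)
    obtain ⟨h45, H, e, h3, h4⟩ := (hC _ hi' (ok.r7 i) _ (t4 i hi')).resolve_left hi
    exact span_mono ((subset_biUnion_of_mem (u := S) (x := ⟨i, H, e⟩) h3).trans subset_union_right)
      (k3 ⟨i, H, e⟩ h45 h3 _ hy h4)

end Pool.Agent.Lib.MV.Lat
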