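import Pool.Agent.Lib.MV.Lat2Nef

open Set Submodule
open scoped NNReal

noncomputable section

namespace Pool.Agent.Lib.MV.Lat

namespace NUMB

/-- The vector of the functional attached to a section. -/
def NW {m : ℕ} (w : F m) : F m := w - ((dot w w + 1) / 2) • kk 2 m

/-- The conditions on one section. -/
def Cd {m : ℕ} (H w : F m) : Prop :=
  (IsZ w ∧ dot w (kk 2 m) = 1) ∧ cc m * ((dot w w + 1) / 2) ≤ dot w H

variable {m : ℕ} {H : F m} {e : Fin m → F m}

lemma nw_e (h : IsMk H e) (a : Fin m) : NW (e a) = e a := by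
  rw [NW, (h.line a).2.1]; simp

lemma cd_e (h : IsMk H e) (a : Fin m) : Cd H (e a) := by
  refine ⟨⟨h.ze a, (h.line a).2.2⟩, ?_⟩
  rw [(h.line a).2.1, dot_comm, h.He]; simp

lemma nw_three {w : F m} (hw : dot w w = -3) : NW w = w + kk 2 m := by
  rw [NW, hw]; module

lemma cc_pos : 0 < cc m := by unfold cc; split_ifs <;> norm_num

lemma sq_u (h : IsMk H e) {a b c : Fin m} (hab : a ≠ b) (hac : a ≠ c) (hbc : b ≠ c) :
    dot (e a + e b - e c) (e a + e b - e c) = -3 := by
  simp only [map_sub, map_add, LinearMap.sub_apply, LinearMap.add_apply, h.ee, if_neg hab,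
    if_neg hab.symm, if_neg hac, if_neg hac.symm, if_neg hbc, if_neg hbc.symm, if_true]
  norm_num

lemma cd_u (h : IsMk H e) {a b c : Fin m} (hab : a ≠ b) (hac : a ≠ c) (hbc : b ≠ c) :
    Cd H (e a + e b - e c) := by
  refine ⟨⟨((h.ze a).add (h.ze b)).sub (h.ze c), ?_⟩, ?_⟩
  · simp only [map_sub, map_add, LinearMap.sub_apply, LinearMap.add_apply, (h.line _).2.2]
    norm_num
  · rw [sq_u h hab hac hbc, dot_comm]
    simp only [map_sub, map_add, h.He]
    have := cc_pos (m := m)
    linarith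

lemma sq_s (h : IsMk H e) (s : Finset (Fin m)) (c : ℝ) :
    dot (∑ a ∈ s, e a - c • H) (∑ a ∈ s, e a - c • H) = c ^ 2 - s.card := by
  simp only [map_sub, map_sum, map_smul, LinearMap.sub_apply, LinearMap.sum_apply,
    LinearMap.smul_apply, h.ee, h.HH, h.He, dot_comm _ H]
  have : ∑ x ∈ s, ∑ y ∈ s, (if y = x then (-1 : ℝ) else 0) = -s.card := by
    rw [Finset.sum_congr rfl fun x hx => (Finset.sum_ite_eq' s x fun _ => (-1 : ℝ)).trans (if_pos hx)]
    simp
  simp only [smul_eq_mul, mul_zero, sub_zero, Finset.sum_const_zero, this]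
  ring

lemma cd_s (h : IsMk H e) (s : Finset (Fin m)) (h1 : (s.card : ℝ) = cc m ^ 2 + 3)
    (h2 : (s.card : ℝ) = 3 * cc m + 1) : Cd H (∑ a ∈ s, e a - cc m • H) := by
  refine ⟨⟨(IsZ.sum fun a _ => h.ze a).sub (h.zH.smul ?_), ?_⟩, ?_⟩
  · unfold cc; split_ifs
    exacts [⟨2, by norm_num⟩, ⟨1, by norm_num⟩]
  · simp only [map_sub, map_sum, map_smul, LinearMap.sub_apply, LinearMap.sum_apply,
      LinearMap.smul_apply, (h.line _).2.2, h.Hk]
    simp only [Finset.sum_const, nsmul_eq_mul, smul_eq_mul, h2]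
    ring
  · rw [sq_s h, dot_comm, h1]
    simp only [map_sub, map_sum, map_smul, h.He, h.HH, smul_eq_mul, Finset.sum_const_zero]
    linarith

lemma nw_s (h : IsMk H e) (s : Finset (Fin m)) (h1 : (s.card : ℝ) = cc m ^ 2 + 3) :
    NW (∑ a ∈ s, e a - cc m • H) = ∑ a ∈ s, e a - cc m • H + kk 2 m :=
  nw_three (by rw [sq_s h, h1]; ring)

lemma key (hB : Bad m) (h : IsMk H e) : ∃ (L : List (F m)) (C : ℝ), 0 < C ∧
    (∀ w ∈ L, Cd H w) ∧ (L.length : ℝ) = C * cc m ∧ (L.map NW).sum = C • H := by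
  obtain rfl | rfl | rfl := hB
  · have c1 : cc 4 = 1 := by norm_num [cc]
    have h1 : ((Finset.univ : Finset (Fin 4)).card : ℝ) = cc 4 ^ 2 + 3 := by rw [c1]; norm_num
    have h2 : ((Finset.univ : Finset (Fin 4)).card : ℝ) = 3 * cc 4 + 1 := by rw [c1]; norm_num
    refine ⟨[e 2, e 2, e 3, ∑ a, e a - cc 4 • H, e 0 + e 1 - e 2], 5, by norm_num, ?_,
      by rw [c1]; norm_num, ?_⟩
    · simp only [List.forall_mem_cons, List.not_mem_nil, false_imp_iff, implies_true, and_true]
      exact ⟨cd_e h _, cd_e h _, cd_e h _, cd_s h _ h1 h2,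
        cd_u h (by decide) (by decide) (by decide)⟩
    · simp only [List.map_cons, List.map_nil, List.sum_cons, List.sum_nil, nw_e h, nw_s h _ h1,
        nw_three (sq_u h (a := 0) (b := 1) (c := 2) (by decide) (by decide) (by decide))]
      rw [h.kk, c1, Fin.sum_univ_four]
      module
  · have c1 : cc 5 = 1 := by norm_num [cc]
    have h0 : (({1, 2, 3, 4} : Finset (Fin 5)).card : ℝ) = 4 := by
      rw [show ({1, 2, 3, 4} : Finset (Fin 5)).card = 4 by decide]; norm_num
    have h1 : (({1, 2, 3, 4} : Finset (Fin 5)).card : ℝ) = cc 5 ^ 2 + 3 := by rw [c1, h0]; norm_num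
    have h2 : (({1, 2, 3, 4} : Finset (Fin 5)).card : ℝ) = 3 * cc 5 + 1 := by rw [c1, h0]; norm_num
    refine ⟨[e 0, ∑ a ∈ ({1, 2, 3, 4} : Finset (Fin 5)), e a - cc 5 • H], 2, by norm_num, ?_,
      by rw [c1]; norm_num, ?_⟩
    · simp only [List.forall_mem_cons, List.not_mem_nil, false_imp_iff, implies_true, and_true]
      exact ⟨cd_e h _, cd_s h _ h1 h2⟩
    · simp only [List.map_cons, List.map_nil, List.sum_cons, List.sum_nil, nw_e h, nw_s h _ h1]
      rw [h.kk, c1, Fin.sum_univ_five, Finset.sum_insert (by decide), Finset.sum_insert (by decide),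
        Finset.sum_pair (by decide)]
      module
  · have c1 : cc 7 = 2 := by norm_num [cc]
    have h1 : ((Finset.univ : Finset (Fin 7)).card : ℝ) = cc 7 ^ 2 + 3 := by rw [c1]; norm_num
    have h2 : ((Finset.univ : Finset (Fin 7)).card : ℝ) = 3 * cc 7 + 1 := by rw [c1]; norm_num
    refine ⟨[e 2, e 2, e 3, e 4, e 5, e 6, ∑ a, e a - cc 7 • H, e 0 + e 1 - e 2], 4, by norm_num,
      ?_, by rw [c1]; norm_num, ?_⟩
    · simp only [List.forall_mem_cons, List.not_mem_nil, false_imp_iff, implies_true, and_true]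
      exact ⟨cd_e h _, cd_e h _, cd_e h _, cd_e h _, cd_e h _, cd_e h _, cd_s h _ h1 h2,
        cd_u h (by decide) (by decide) (by decide)⟩
    · simp only [List.map_cons, List.map_nil, List.sum_cons, List.sum_nil, nw_e h, nw_s h _ h1,
        nw_three (sq_u h (a := 0) (b := 1) (c := 2) (by decide) (by decide) (by decide))]
      rw [h.kk, c1, Fin.sum_univ_seven]
      module

variable {ι : Type} [Fintype ι] [DecidableEq ι] {n r : ι → ℕ} {i j : ι}

lemma lam_eq (hj : j ≠ i) (hn : n j = 2) {v : F (r j)} (hv : Line v) (L : List (F (r i)))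
    (x : V r) : lam n i j v L x = L.length * dot (x j) v + dot (x i) (L.map NW).sum := by
  induction L with
  | nil => simp [lam_nil]
  | cons w L ih =>
    rw [lam_cons, ih, Bf, mv_ne hj, hn, map_add, map_smul, hv.2.2, List.map_cons, List.sum_cons,
      map_add, List.length_cons, dot_comm v, dot_comm _ (x i), NW]
    push_cast
    simp only [smul_eq_mul]
    ring

end NUMB

open NUMB in
theorem st_num : St_NUM := by
  intro ι _ _ n r i j hj hn hB v hv H e h
  obtain ⟨L, C, hC, hL, hlen, hsum⟩ := key hB h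
  have main : ∀ x, lam n i j v L x = C * (cc (r i) * dot (x j) v + dot (x i) H) := fun x => by
    rw [lam_eq hj hn hv, hlen, hsum, map_smul, smul_eq_mul]; ring
  refine ⟨L, C, hC, fun w hw => (hL w hw).1, fun w hw => ?_, main⟩
  rw [main]
  refine mul_nonneg hC.le ?_
  have e1 : vh n i w i = w := by simp [vh, sl_self, kW_self]
  have e2 : dot (vh n i w j) v = -((dot w w + 1) / 2) := by
    have : vh n i w j = -((dot w w + 1) / 2) • kk 2 (r j) := by
      simp only [vh, Pi.sub_apply, Pi.smul_apply, sl_ne hj, kW_ne hj, hn, zero_sub, neg_smul]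
    rw [this, map_smul, LinearMap.smul_apply, dot_comm (kk 2 (r j)), hv.2.2, smul_eq_mul, mul_one]
  rw [e1, e2]
  have := (hL w hw).2
  linarith

end Pool.Agent.Lib.MV.Lat
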