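import Pool.Agent.Lib.MV.LatBlue

open Set Submodule
open scoped NNReal

set_option linter.unusedSectionVars false

noncomputable section

namespace Pool.Agent.Lib.MV.Lat

namespace PM

variable {ι : Type} [Fintype ι] [DecidableEq ι] {n r : ι → ℕ}

/-- Lattice points that are free at every prime in `Q`. -/
def MQ (G : Geo n r) (Q : Set G.PD) : AddSubmonoid (V r) :=
  (ZV r).toAddSubmonoid ⊓ ⨅ E ∈ Q, G.Fr E

lemma mem_MQ {G : Geo n r} {Q : Set G.PD} {x : V r} :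
    x ∈ MQ G Q ↔ IsZV x ∧ ∀ E ∈ Q, x ∈ G.Fr E := by
  simp only [MQ, AddSubmonoid.mem_inf, AddSubmonoid.mem_iInf, AddSubgroup.mem_toAddSubmonoid,
    mem_ZV]

/-- The cone spanned by `MQ`. -/
def CQ (G : Geo n r) (Q : Set G.PD) : Submodule ℝ≥0 (V r) := span ℝ≥0 (MQ G Q : Set (V r))

/-- The trace of `CQ` on one factor. -/
def CF (G : Geo n r) (Q : Set G.PD) (i : ι) : Submodule ℝ≥0 (F (r i)) where
  carrier := {v | sl i v ∈ CQ G Q}
  zero_mem' := by rw [mem_ofPred_eq, map_zero]; exact (CQ G Q).zero_mem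
  add_mem' := fun ha hb => by rw [mem_ofPred_eq, map_add]; exact (CQ G Q).add_mem ha hb
  smul_mem' := fun c v hv => by
    rw [mem_ofPred_eq, NNReal.smul_def, map_smul]; exact (CQ G Q).smul_mem c hv

lemma mem_CF {G : Geo n r} {Q : Set G.PD} {i : ι} {v : F (r i)} :
    v ∈ CF G Q i ↔ sl i v ∈ CQ G Q := Iff.rfl

lemma smul_CQ {G : Geo n r} {Q : Set G.PD} {x : V r} (hx : x ∈ CQ G Q) {c : ℝ} (hc : 0 ≤ c) :
    c • x ∈ CQ G Q := (CQ G Q).smul_mem (⟨c, hc⟩ : ℝ≥0) hx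

lemma h_MQ (G : Geo n r) (Q : Set G.PD) (i : ι) (o : Option (Fin (r i))) :
    sl i (hh o) ∈ MQ G Q := mem_MQ.2 ⟨isZV_sl (isZ_hh o), fun E _ => G.fr_h E i o⟩

lemma vh_line {i : ι} {g : F (r i)} (hg : Line g) : vh n i g = sl i g := by
  rw [vh, hg.2.1]; simp

lemma line_pos (hK : St_MKE) {m : ℕ} {g : F m} (hg : Line g) : 0 < m :=
  Nat.pos_of_ne_zero fun h0 => (hK.2.1 _ h0).2.2 _ hg

lemma line_ne {m : ℕ} {g : F m} (hg : Line g) : g ≠ 0 := fun h => by
  have := hg.2.1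
  rw [h] at this
  simp at this

lemma line_CF (hV : St_VH) (hK : St_MKE) (G : Geo n r) {Q : Set G.PD} {i : ι} {g : F (r i)}
    (hg : Line g) (h : ∀ E ∈ Q, G.pc E ≠ sl i g) : g ∈ CF G Q i := by
  have h1 := (hV ι n r G i (line_pos hK hg) g hg.1 hg.2.2).2.1
  rw [vh_line hg] at h1
  exact subset_span (mem_MQ.2 ⟨isZV_sl hg.1, fun E hE => h1 E (h E hE)⟩)

lemma eb_CF (hV : St_VH) (hK : St_MKE) (G : Geo n r) {Q : Set G.PD} {i : ι}
    (h : ∀ g : F (r i), Line g → ∀ E ∈ Q, G.pc E ≠ sl i g) : Eb (r i) ≤ CF G Q i := by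
  refine span_le.2 ?_
  rintro g (hg | ⟨-, o, rfl⟩)
  · exact line_CF hV hK G hg (h g hg)
  · exact subset_span (h_MQ G Q i o)

lemma sum_CQ {G : Geo n r} {Q : Set G.PD} {x : V r} (h : ∀ i, x i ∈ CF G Q i) : x ∈ CQ G Q := by
  rw [← sum_sl x]
  exact (CQ G Q).sum_mem fun i _ => h i

lemma at_line (hV : St_VH) (hS : St_SPL) (hK : St_MKE) (G : Geo n r) (ok : Ok n r) {x : V r}
    (hx : InEb x) {i : ι} {e : F (r i)} (he : Line e) (hb : InEb (Bf n i e x)) :
    x ∈ CQ G {E | G.pc E = sl i e} := by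
  set Q : Set G.PD := {E | G.pc E = sl i e} with hQ
  have h1 : x i - max 0 (-dot (x i) e) • e ∈ CF G Q i :=
    hS _ (ok.r6 i) (CF G Q i) e he
      (fun g hg hge => line_CF hV hK G hg fun E hE h => hge (by
        have h2 := congrFun (h.symm.trans hE) i
        rwa [sl_self, sl_self] at h2))
      (fun o => subset_span (h_MQ G Q i o)) _ (hx i)
  have h2 : sl i e + kW n r i ∈ CQ G Q := by
    have h3 := (hV ι n r G i (line_pos hK he) e he.1 he.2.2).2.2.1
    rw [vh_line he] at h3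
    have h4 : (6 : ℝ) • (sl i e + kW n r i) ∈ CQ G Q :=
      subset_span (mem_MQ.2 ⟨fun j => ((isZV_sl he.1 j).add (isZV_kW i j)).smul ⟨6, by norm_num⟩,
        fun E _ => h3 E⟩)
    have h5 := smul_CQ h4 (c := 6⁻¹) (by norm_num)
    rwa [smul_smul, inv_mul_cancel₀ (by norm_num), one_smul] at h5
  have h3 : x - sl i (x i) - max 0 (-dot (x i) e) • kW n r i ∈ CQ G Q := by
    refine sum_CQ fun j => ?_
    by_cases hj : j = i
    · subst hj
      simp [sl_self, kW_self]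
    · refine eb_CF hV hK G (fun g _ E hE h => line_ne he ?_) ?_
      · have h4 := congrFun (h.symm.trans hE) i
        rw [sl_self, sl_ne (Ne.symm hj)] at h4
        exact h4.symm
      · rcases le_total 0 (-dot (x i) e) with h | h
        · have h4 := hb j
          rw [Bf, mv_ne hj, he.2.1, dot_comm] at h4
          rw [max_eq_right h]
          simpa [sl_ne hj, kW_ne hj] using h4
        · rw [max_eq_left h]
          simpa [sl_ne hj] using hx j
  have h4 := (CQ G Q).add_mem ((CQ G Q).add_mem (mem_CF.1 h1)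
    (smul_CQ h2 (le_max_left 0 (-dot (x i) e)))) h3
  rw [map_sub, map_smul, smul_add] at h4
  have h5 : ∀ a b c d : V r, a - b + (b + c) + (d - a - c) = d := fun a b c d => by abel
  rwa [h5] at h4

end PM

open PM

theorem st_pm (hF : St_FIN) (hR : St_REAL) (hV : St_VH) (hS : St_SPL) (hK : St_MKE) : St_PM := by
  intro ι _ _ n r G ok x hx hb
  let L : Set (V r) := ⋃ i, sl i '' {e | Line e}
  have hL : L.Finite := finite_iUnion fun i => Finite.image _
    ((hF (r i) (by have := ok.r6 i; omega) 1 (-1)).subset fun _ hv => ⟨hv.1, hv.2.2, hv.2.1⟩)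
  have h0 : ∀ t ∈ insert {E | G.pc E ∉ L} ((fun v => {E | G.pc E = v}) '' L), x ∈ CQ G t := by
    rintro t (rfl | ⟨v, hv, rfl⟩)
    · exact sum_CQ fun i => eb_CF hV hK G
        (fun g hg E (hE : G.pc E ∉ L) h => hE (mem_iUnion.2 ⟨i, g, hg, h.symm⟩)) (hx i)
    · obtain ⟨i, e, he, rfl⟩ := mem_iUnion.1 hv
      exact at_line hV hS hK G ok hx he (hb i e he)
  have h := hR ι r (Set G.PD) _ ((hL.image _).insert _) (MQ G) (fun t _ y hy => (mem_MQ.1 hy).1)
    (fun t _ i o => h_MQ G t i o) x h0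
  refine closure_minimal (fun y hy => (span_le.2 ?_ : _ ≤ G.Mov) hy) G.mov_cl h
  rintro y ⟨h1, h2⟩
  refine G.fr_mov y h1 fun E => ?_
  by_cases hE : G.pc E ∈ L
  · exact (mem_MQ.1 (h2 _ (Or.inr ⟨_, hE, rfl⟩))).2 E rfl
  · exact (mem_MQ.1 (h2 _ (Or.inl rfl))).2 E hE

end Pool.Agent.Lib.MV.Lat
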