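import Pool.Agent.Lib.MV.LatBlue

open Set Submodule
open scoped NNReal

set_option linter.unusedSectionVars false

noncomputable section

namespace Pool.Agent.Lib.MV.Lat

open Pool.Agent.Lib.MP_e39d36_ag

namespace PS

variable {ι : Type} [Fintype ι] [DecidableEq ι] {n r : ι → ℕ}

/-- Lattice points that are free along all primes whose class lies in `t`. -/
def Mt (G : Geo n r) (t : Set (V r)) : AddSubmonoid (V r) where
  carrier := {y | IsZV y ∧ ∀ E, G.pc E ∈ t → y ∈ G.Fr E}
  zero_mem' := ⟨fun _ => isZ_zero, fun E _ => (G.Fr E).zero_mem⟩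
  add_mem' := fun hx hy =>
    ⟨fun j => (hx.1 j).add (hy.1 j), fun E hE => (G.Fr E).add_mem (hx.2 E hE) (hy.2 E hE)⟩

lemma mem_Mt {G : Geo n r} {t : Set (V r)} {y : V r} :
    y ∈ Mt G t ↔ IsZV y ∧ ∀ E, G.pc E ∈ t → y ∈ G.Fr E := Iff.rfl

lemma wpart (hK : St_MKE) {i : ι} (h0 : ∀ j, j ≠ i → r j = 0) {C : Submodule ℝ≥0 (V r)}
    (hC : ∀ j, sl j (hh none) ∈ C) {y : V r} (hi : y i = 0) (hy : ∀ j, j ≠ i → y j ∈ Eb (r j)) :
    y ∈ C := by
  rw [← sum_sl y]
  refine C.sum_mem fun j _ => ?_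
  by_cases h : j = i
  · subst h; rw [hi, map_zero]; exact C.zero_mem
  · obtain ⟨h1, h2, -⟩ := hK.2.1 (r j) (h0 j h)
    rw [h2 (y j), map_smul]
    exact CG.smul_mem' ((h1 _).1 (hy j h)) (hC j)

lemma kW_mem (hK : St_MKE) {i : ι} (h0 : ∀ j, j ≠ i → r j = 0) {C : Submodule ℝ≥0 (V r)}
    (hC : ∀ j, sl j (hh none) ∈ C) : kW n r i ∈ C := by
  refine wpart hK h0 hC (kW_self i) fun j h => ?_
  rw [kW_ne h, ((hK.2.1 (r j) (h0 j h)).1 _)]
  have : ((r j : ℕ) : ℝ) = 0 := by rw [h0 j h]; simp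
  simp only [kk, Option.elim, this, sub_zero]
  positivity

lemma bf_self (i : ι) (v : F (r i)) (x : V r) : Bf n i v x i = 0 := by
  rw [Bf, mv_self]; rfl

lemma bf_eq (i : ι) (v : F (r i)) (x : V r) :
    Bf n i v x = x - sl i (x i) + dot (v - ((dot v v + 1) / 2) • kk 2 (r i)) (x i) • kW n r i := by
  rw [Bf, mv_apply]
  refine congrArg (· + _) (funext fun j => ?_)
  by_cases h : j = i
  · subst h; simp [sl_self]
  · simp [h, sl_ne h]

lemma vh_line {i : ι} {v : F (r i)} (h : dot v v = -1) : vh n i v = sl i v := by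
  simp [vh, h]

lemma vh_three {i : ι} {v : F (r i)} (h : dot v v = -3) : vh n i v = sl i v + kW n r i := by
  rw [vh, h]; norm_num

lemma sl_inj {i : ι} {v w : F (r i)} (h : sl i v = sl i w) : v = w := by
  have := congrFun h i
  rwa [sl_self, sl_self] at this

lemma slk_inj {i : ι} {v w : F (r i)} (h : sl i v + kW n r i = sl i w) : v = w := by
  have := congrFun h i
  rwa [Pi.add_apply, kW_self, add_zero, sl_self, sl_self] at this

end PS

open PS

theorem st_ps (hR : St_REAL) (hV : St_VH) (hK : St_MKE) : St_PS := by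
  intro ι _ _ n r G i hr h0 H e hM x hx hB hB4
  have hpos : 0 < r i := by omega
  obtain ⟨g, hg⟩ : ∃ g, g = ∑ a, e a - H := ⟨_, rfl⟩
  have gz : IsZ g := hg ▸ (IsZ.sum fun a _ => hM.ze a).sub hM.zH
  have gg : dot g g = 1 - r i := hg ▸ hM.sq
  have gk : dot g (kk 2 (r i)) = r i - 3 := hg ▸ hM.apex_k
  have ge : ∀ b, dot g (e b) = -1 := fun b => hg ▸ hM.apex_e b
  have ee1 : ∀ a, dot (e a) (e a) = -1 := fun a => (hM.line a).2.1
  have ek : ∀ a, dot (e a) (kk 2 (r i)) = 1 := fun a => (hM.line a).2.2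
  have einj : ∀ a b, e a = e b → a = b := fun a b h => by
    by_contra hab
    have := hM.ee a b
    rw [if_neg hab, h, ee1] at this
    norm_num at this
  have gne : ∀ a, g ≠ e a := fun a h => by
    rw [h, ee1] at gg
    rcases hr with hr | hr <;> rw [hr] at gg <;> norm_num at gg
  rw [← hg] at hB4
  rw [Sh, ← hg, mem_span_insert] at hx
  obtain ⟨a0, z, hz, hx⟩ := hx
  obtain ⟨b, rfl⟩ := (mem_span_range_iff_exists_fun _).1 hz
  simp only [NNReal.smul_def] at hx
  obtain ⟨u, hu⟩ : ∃ u, u = sl i g + kW n r i := ⟨_, rfl⟩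
  have uz : IsZV u := hu ▸ fun j => (isZV_sl gz j).add (isZV_kW i j)
  have hxs : sl i (x i) = (a0 : ℝ) • sl i g + ∑ a, (b a : ℝ) • sl i (e a) := by
    rw [hx, map_add, map_smul, map_sum]; simp only [map_smul]
  have hBe : ∀ a, Bf n i (e a) x = x - sl i (x i) - ((a0 : ℝ) + b a) • kW n r i := fun a => by
    rw [bf_eq, ee1, sub_eq_add_neg (x - _), ← neg_smul]
    refine congrArg (fun c : ℝ => _ + c • _) ?_
    rw [hx]
    simp [dot_comm (e a) g, ge, hM.ee]
    ring
  have hVe := fun a => hV ι n r G i hpos (e a) (hM.ze a) (ek a)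
  simp only [vh_line (ee1 _)] at hVe
  -- the generic decomposition
  have coreA : ∀ C : Submodule ℝ≥0 (V r), (∀ j, sl j (hh none) ∈ C) → (∀ a, sl i (e a) ∈ C) →
      u ∈ C → x ∈ C := fun C h1 h2 h3 => by
    have a1 : Fin (r i) := ⟨0, hpos⟩
    have : x = (∑ a, (b a : ℝ) • sl i (e a)) + (a0 : ℝ) • u +
        (Bf n i (e a1) x + (b a1 : ℝ) • kW n r i) := by
      rw [hBe, hxs, hu]; module
    rw [this]
    exact C.add_mem (C.add_mem (C.sum_mem fun a _ => CG.smul_mem' (b a).2 (h2 a))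
      (CG.smul_mem' a0.2 h3)) (C.add_mem (wpart hK h0 h1 (bf_self _ _ _) fun j _ => hB a1 j)
      (CG.smul_mem' (b a1).2 (kW_mem hK h0 h1)))
  -- the class `u`
  have hU : u ∈ G.Eff ∧ (∀ E, (r i = 5 ∨ G.pc E ≠ u) → u ∈ G.Fr E) ∧
      (r i = 4 → ∀ E, (6 : ℝ) • (u + kW n r i) ∈ G.Fr E) := by
    rcases hr with hr | hr
    · have h3 : dot g g = -3 := by rw [gg, hr]; norm_num
      have := hV ι n r G i hpos g gz (by rw [gk, hr]; norm_num)
      rw [vh_three h3, ← hu] at this
      exact ⟨this.1, fun E h => this.2.1 E (h.resolve_left (by omega)), fun _ => this.2.2.1⟩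
    · have h3 : ∀ c, dot (g - e c) (g - e c) = -3 := fun c => by
        simp only [map_sub, LinearMap.sub_apply, gg, ge, dot_comm (e c) g, ee1, hr]; norm_num
      have hW := fun c => hV ι n r G i hpos (g - e c) (gz.sub (hM.ze c))
        (by rw [map_sub, LinearMap.sub_apply, gk, ek, hr]; norm_num)
      simp only [vh_three (h3 _)] at hW
      have hs : ∀ c, u = sl i (e c) + (sl i (g - e c) + kW n r i) := fun c => by
        rw [hu, map_sub]; abel
      refine ⟨?_, fun E _ => ?_, fun h => by omega⟩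
      · rw [hs ⟨0, hpos⟩]; exact G.Eff.add_mem (hVe _).1 (hW _).1
      · have : ∃ c, G.pc E ≠ sl i (e c) ∧ G.pc E ≠ sl i (g - e c) + kW n r i := by
          by_contra hc
          push Not at hc
          have key : ∀ c d, c ≠ d → G.pc E = sl i (e c) → G.pc E ≠ sl i (e d) :=
            fun c d h h1 h2 => h (einj _ _ (sl_inj (h1.symm.trans h2)))
          have key' : ∀ c d, c ≠ d → G.pc E = sl i (g - e c) + kW n r i →
              G.pc E ≠ sl i (g - e d) + kW n r i := fun c d h h1 h2 =>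
            h (einj _ _ (sub_right_injective (sl_inj (add_right_cancel (h1.symm.trans h2)))))
          have c0 : Fin (r i) := ⟨0, hpos⟩
          have n01 : (⟨0, by omega⟩ : Fin (r i)) ≠ ⟨1, by omega⟩ := by simp
          have n02 : (⟨0, by omega⟩ : Fin (r i)) ≠ ⟨2, by omega⟩ := by simp
          have n12 : (⟨1, by omega⟩ : Fin (r i)) ≠ ⟨2, by omega⟩ := by simp
          by_cases p0 : G.pc E = sl i (e ⟨0, by omega⟩)
          · exact key' _ _ n12 (hc _ (key _ _ n01 p0)) (hc _ (key _ _ n02 p0))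
          · by_cases p1 : G.pc E = sl i (e ⟨1, by omega⟩)
            · exact key' _ _ n02 (hc _ p0) (hc _ (key _ _ n12 p1))
            · exact key' _ _ n01 (hc _ p0) (hc _ p1)
        obtain ⟨c, h1, h2⟩ := this
        rw [hs c]
        exact (G.Fr E).add_mem ((hVe c).2.1 E h1) ((hW c).2.1 E h2)
  refine ⟨?_, coreA G.Eff (fun j => G.eff_h j none) (fun a => (hVe a).1) hU.1⟩
  obtain ⟨L, hL⟩ : ∃ L : Set (V r), L = insert u (range fun a => sl i (e a)) := ⟨_, rfl⟩
  have hLf : L.Finite := hL ▸ (finite_range _).insert u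
  have hh' : ∀ t j o, sl j (hh o) ∈ Mt G t := fun t j o =>
    ⟨isZV_sl (isZ_hh o), fun E _ => G.fr_h E j o⟩
  have he' : ∀ t a, sl i (e a) ∉ t → sl i (e a) ∈ Mt G t := fun t a h =>
    ⟨isZV_sl (hM.ze a), fun E hE => (hVe a).2.1 E fun h' => h (h' ▸ hE)⟩
  have hu' : ∀ t, (r i = 5 ∨ u ∉ t) → u ∈ Mt G t := fun t h =>
    ⟨uz, fun E hE => hU.2.1 E (h.imp_right fun h h' => h (h' ▸ hE))⟩
  have six : ∀ t (w : V r), IsZV w → (∀ E, (6 : ℝ) • w ∈ G.Fr E) →
      w ∈ span ℝ≥0 (Mt G t : Set (V r)) := fun t w hw h => by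
    have : w = (1 / 6 : ℝ) • ((6 : ℝ) • w) := by rw [smul_smul]; norm_num
    rw [this]
    exact CG.smul_mem' (by norm_num)
      (subset_span ⟨fun j => (hw j).smul ⟨6, by norm_num⟩, fun E _ => h E⟩)
  have une : ∀ a, u ≠ sl i (e a) := fun a h => gne a (slk_inj (hu ▸ h))
  have key := hR ι r (Set (V r)) (insert Lᶜ ((fun v => {v}) '' L)) ((hLf.image _).insert _)
    (Mt G) (fun t _ y hy => hy.1) (fun t _ j o => hh' t j o) x ?_
  · refine closure_minimal ?_ G.mov_cl key
    refine span_le.2 fun y hy => G.fr_mov y hy.1 fun E => ?_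
    by_cases hE : G.pc E ∈ L
    · exact (hy.2 {G.pc E} (Or.inr ⟨_, hE, rfl⟩)).2 E rfl
    · exact (hy.2 Lᶜ (Or.inl rfl)).2 E hE
  · have hW : ∀ t, ∀ j, sl j (hh none) ∈ span ℝ≥0 (Mt G t : Set (V r)) := fun t j =>
      subset_span (hh' t j none)
    rintro t (rfl | ⟨v, hv, rfl⟩)
    · refine coreA _ (hW _) (fun a => subset_span (he' _ a ?_)) (subset_span (hu' _ (Or.inr ?_)))
      · exact fun h => h (hL ▸ Or.inr ⟨a, rfl⟩)
      · exact fun h => h (hL ▸ Or.inl rfl)
    · rw [hL] at hv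
      rcases hv with rfl | ⟨a, rfl⟩
      · rcases hr with hr | hr
        · have hBg : Bf n i g x = x - sl i (x i) - (2 * (a0 : ℝ)) • kW n r i := by
            rw [bf_eq, gg, sub_eq_add_neg (x - _), ← neg_smul]
            refine congrArg (fun c : ℝ => _ + c • _) ?_
            rw [hx]
            simp [dot_comm (kk 2 (r i)), ge, gg, gk, ek]
            have h4 : ((r i : ℕ) : ℝ) = 4 := by rw [hr]; norm_num
            rw [h4]
            ring
          have : x = (∑ a, (b a : ℝ) • sl i (e a)) + (a0 : ℝ) • (v + kW n r i) + Bf n i g x := by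
            rw [hBg, hxs, hu]; module
          rw [this]
          refine Submodule.add_mem _ (Submodule.add_mem _ (Submodule.sum_mem _ fun a _ =>
            CG.smul_mem' (b a).2 (subset_span (he' _ a fun h => une a h.symm)))
            (CG.smul_mem' a0.2 (six _ _ (fun j => (uz j).add (isZV_kW i j)) (hU.2.2 hr))))
            (wpart hK h0 (hW _) (bf_self _ _ _) fun j _ => hB4 hr j)
        · exact coreA _ (hW _) (fun a => subset_span (he' _ a fun h => une a h.symm))
            (subset_span (hu' _ (Or.inl hr)))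
      · have : x = (b a : ℝ) • (sl i (e a) + kW n r i) +
            (∑ c ∈ Finset.univ.erase a, (b c : ℝ) • sl i (e c)) + (a0 : ℝ) • u +
            Bf n i (e a) x := by
          rw [hBe, hxs, hu, ← Finset.add_sum_erase _ _ (Finset.mem_univ a)]; module
        rw [this]
        refine Submodule.add_mem _ (Submodule.add_mem _ (Submodule.add_mem _
          (CG.smul_mem' (b a).2 (six _ _ (fun j => (isZV_sl (hM.ze a) j).add (isZV_kW i j))
            (hVe a).2.2.1))
          (Submodule.sum_mem _ fun c hc => CG.smul_mem' (b c).2 (subset_span (he' _ c fun h =>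
            Finset.ne_of_mem_erase hc (einj _ _ (sl_inj h))))))
          (CG.smul_mem' a0.2 (subset_span (hu' _ (Or.inr (une a))))))
          (wpart hK h0 (hW _) (bf_self _ _ _) fun j _ => hB a j)

end Pool.Agent.Lib.MV.Lat
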