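import Pool.Agent.Lib.MV.Lat2Blue
import Pool.Agent.Lib.MV.L_PS
import Pool.Agent.Lib.MV.L_PM

open Set Submodule
open scoped NNReal

set_option linter.unusedSectionVars false

noncomputable section

namespace Pool.Agent.Lib.MV.Lat

open Pool.Agent.Lib.MP_e39d36_ag

namespace PS7

open PM

variable {ι : Type} [Fintype ι] [DecidableEq ι] {n r : ι → ℕ}

lemma vert (hV : St_VH) (hK : St_MKE) (G : Geo n r) {Q : Set G.PD} {i : ι} {y : V r}
    (hi : y i = 0) (hy : InEb y)
    (h : ∀ j, j ≠ i → ∀ g : F (r j), Line g → ∀ E ∈ Q, G.pc E ≠ sl j g) : y ∈ CQ G Q := by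
  refine sum_CQ fun j => ?_
  by_cases hj : j = i
  · subst hj
    rw [hi]
    exact (CF G Q j).zero_mem
  · exact eb_CF hV hK G (h j hj) (hy j)

lemma six {G : Geo n r} {Q : Set G.PD} {w : V r} (hw : IsZV w)
    (h : ∀ E, (6 : ℝ) • w ∈ G.Fr E) : w ∈ CQ G Q := by
  have h4 : (6 : ℝ) • w ∈ CQ G Q :=
    subset_span (mem_MQ.2 ⟨fun j => (hw j).smul ⟨6, by norm_num⟩, fun E _ => h E⟩)
  have h5 := smul_CQ h4 (c := 6⁻¹) (by norm_num)
  rwa [smul_smul, inv_mul_cancel₀ (by norm_num), one_smul] at h5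

lemma sl_ne_sl {i j : ι} (h : j ≠ i) {v : F (r i)} (hv : Line v) (g : F (r j)) :
    sl i v ≠ sl j g := fun e => by
  have h4 := congrFun e i
  rw [sl_self, sl_ne (Ne.symm h)] at h4
  exact line_ne hv h4

/-- The abstract movability argument. -/
lemma core (hF : St_FIN) (hR : St_REAL) (hV : St_VH) (hS : St_SPL7) (hK : St_MKE) (G : Geo n r)
    (ok : Ok7 n r) {i : ι} {e : Fin (r i) → F (r i)} (he : ∀ a, Line (e a))
    (einj : Function.Injective e) {u w x : V r} {be : Fin (r i) → ℝ} {b0 : ℝ}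
    (hbe : ∀ a, 0 ≤ be a) (hb0 : 0 ≤ b0) (hx : x = ∑ a, be a • sl i (e a) + b0 • u + w)
    (uz : IsZV u) (u0 : u i ≠ 0) (u1 : ¬ Line (u i)) (ufr : ∀ E, G.pc E ≠ u → u ∈ G.Fr E)
    (uu : (∀ E, u ∈ G.Fr E) ∨
      ((∀ E, (6 : ℝ) • (u + kW n r i) ∈ G.Fr E) ∧ InEb (w - b0 • kW n r i)))
    (wi : w i = 0) (wE : InEb w) (we : ∀ a, InEb (w - be a • kW n r i))
    (wl : ∀ j, j ≠ i → ∀ v, Line v → 0 ≤ dot (w j) v) : x ∈ G.Mov := by
  let L : Set (V r) := insert u (⋃ j, sl j '' {e | Line e})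
  have hL : L.Finite := (finite_iUnion fun j => Finite.image _
    ((hF (r j) (by have := ok.r7 j; omega) 1 (-1)).subset
      fun _ hv => ⟨hv.1, hv.2.2, hv.2.1⟩)).insert u
  have une : ∀ j (g : F (r j)), Line g → u ≠ sl j g := fun j g hg h => by
    by_cases hj : j = i
    · subst hj
      rw [h, sl_self] at u1
      exact u1 hg
    · rw [h, sl_ne (Ne.symm hj)] at u0
      exact u0 rfl
  have hu : ∀ Q : Set G.PD, (∀ E ∈ Q, G.pc E ≠ u) → u ∈ CQ G Q := fun Q h =>
    subset_span (mem_MQ.2 ⟨uz, fun E hE => ufr E (h E hE)⟩)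
  have sub0 : ∀ c : ℝ, (w - c • kW n r i) i = 0 := fun c => by simp [wi, kW_self]
  have gen : ∀ Q : Set G.PD, (∀ a, ∀ E ∈ Q, G.pc E ≠ sl i (e a)) → b0 • u + w ∈ CQ G Q →
      x ∈ CQ G Q := fun Q h1 h2 => by
    rw [hx, add_assoc]
    exact (CQ G Q).add_mem ((CQ G Q).sum_mem fun a _ =>
      smul_CQ (mem_CF.1 (line_CF hV hK G (he a) (h1 a))) (hbe a)) h2
  have h0 : ∀ t ∈ insert {E | G.pc E ∉ L} ((fun v => {E | G.pc E = v}) '' L), x ∈ CQ G t := by
    rintro t (rfl | ⟨v, hv, rfl⟩)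
    · have h1 : ∀ j (g : F (r j)), Line g → ∀ E ∈ {E | G.pc E ∉ L}, G.pc E ≠ sl j g :=
        fun j g hg E hE h => hE (Or.inr (mem_iUnion.2 ⟨j, g, hg, h.symm⟩))
      exact gen _ (fun a => h1 i _ (he a)) (Submodule.add_mem _
        (smul_CQ (hu _ fun E (hE : G.pc E ∉ L) h => hE (Or.inl h)) hb0)
        (vert hV hK G wi wE fun j _ => h1 j))
    · rcases hv with rfl | hv0
      · have h1 : ∀ j (g : F (r j)), Line g → ∀ E ∈ {E | G.pc E = v}, G.pc E ≠ sl j g :=
          fun j g hg E hE h => une j g hg (hE.symm.trans h)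
        refine gen _ (fun a => h1 i _ (he a)) ?_
        rcases uu with uu | ⟨u6, uw⟩
        · exact Submodule.add_mem _ (smul_CQ (subset_span (mem_MQ.2 ⟨uz, fun E _ => uu E⟩)) hb0)
            (vert hV hK G wi wE fun j _ => h1 j)
        · have : b0 • v + w = b0 • (v + kW n r i) + (w - b0 • kW n r i) := by module
          rw [this]
          exact Submodule.add_mem _ (smul_CQ (six (fun j => (uz j).add (isZV_kW i j)) u6) hb0)
            (vert hV hK G (sub0 _) uw fun j _ => h1 j)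
      · obtain ⟨j, v, hv, rfl⟩ := mem_iUnion.1 hv0
        clear hv0
        have h2 : b0 • u ∈ CQ G {E | G.pc E = sl j v} :=
          smul_CQ (hu _ fun E hE h => une j v hv (h.symm.trans hE)) hb0
        have h3 : ∀ l, l ≠ j → ∀ g : F (r l), Line g → ∀ E ∈ {E | G.pc E = sl j v},
            G.pc E ≠ sl l g := fun l hl g _ E hE h => sl_ne_sl hl hv g (hE.symm.trans h)
        by_cases hj : j = i
        · subst hj
          by_cases hve : ∃ a, e a = v
          · obtain ⟨a, rfl⟩ := hve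
            have : x = be a • (sl j (e a) + kW n r j) +
                (∑ c ∈ Finset.univ.erase a, be c • sl j (e c)) + b0 • u +
                (w - be a • kW n r j) := by
              rw [hx, ← Finset.add_sum_erase _ _ (Finset.mem_univ a)]; module
            rw [this]
            have h4 := (hV ι n r G j (line_pos hK hv) _ hv.1 hv.2.2).2.2.1
            rw [vh_line hv] at h4
            refine Submodule.add_mem _ (Submodule.add_mem _ (Submodule.add_mem _
              (smul_CQ (six (fun l => (isZV_sl hv.1 l).add (isZV_kW j l)) h4) (hbe a))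
              (Submodule.sum_mem _ fun c hc => smul_CQ (mem_CF.1 (line_CF hV hK G (he c)
                fun E hE h => ?_)) (hbe c))) h2) (vert hV hK G (sub0 _) (we a) h3)
            exact Finset.ne_of_mem_erase hc (einj (PS.sl_inj (h.symm.trans hE)))
          · exact gen _ (fun a E hE h => hve ⟨a, PS.sl_inj (h.symm.trans hE)⟩)
              (Submodule.add_mem _ h2 (vert hV hK G wi wE h3))
        · refine gen _ (fun a => h3 i (Ne.symm hj) _ (he a))
            (Submodule.add_mem _ h2 (sum_CQ fun l => ?_))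
          by_cases hl : l = j
          · subst hl
            have h5 := hS _ (ok.r7 l) (CF G {E | G.pc E = sl l v} l) v hv
              (fun g hg hge => line_CF hV hK G hg fun E hE h => hge (PS.sl_inj (h.symm.trans hE)))
              (fun o => subset_span (h_MQ G _ l o)) _ (wE l)
            rwa [max_eq_left (neg_nonpos.2 (wl l hj v hv)), zero_smul, sub_zero] at h5
          · exact eb_CF hV hK G (h3 l hl) (wE l)
  have h := hR ι r (Set G.PD) _ ((hL.image _).insert _) (MQ G) (fun t _ y hy => (mem_MQ.1 hy).1)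
    (fun t _ i o => h_MQ G t i o) x h0
  refine closure_minimal (fun y hy => (span_le.2 ?_ : _ ≤ G.Mov) hy) G.mov_cl h
  rintro y ⟨h1, h2⟩
  refine G.fr_mov y h1 fun E => ?_
  by_cases hE : G.pc E ∈ L
  · exact (mem_MQ.1 (h2 _ (Or.inr ⟨_, hE, rfl⟩))).2 E rfl
  · exact (mem_MQ.1 (h2 _ (Or.inl rfl))).2 E hE

/-- For five points the apex class is free everywhere. -/
lemma five (hV : St_VH) (G : Geo n r) {i : ι} (hr : r i = 5) {e : Fin (r i) → F (r i)}
    (he : ∀ a, Line (e a)) (einj : Function.Injective e) {g : F (r i)} (gz : IsZ g)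
    (gg : dot g g = -4) (gk : dot g (kk 2 (r i)) = 2) (ge : ∀ b, dot g (e b) = -1) :
    sl i g + kW n r i ∈ G.Eff ∧ ∀ E, sl i g + kW n r i ∈ G.Fr E := by
  have hpos : 0 < r i := by omega
  have hVe := fun a => hV ι n r G i hpos (e a) (he a).1 (he a).2.2
  simp only [vh_line (he _)] at hVe
  have h3 : ∀ c, dot (g - e c) (g - e c) = -3 := fun c => by
    simp only [map_sub, LinearMap.sub_apply, gg, ge, dot_comm (e c) g, (he c).2.1]; norm_num
  have hW := fun c => hV ι n r G i hpos (g - e c) (gz.sub (he c).1)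
    (by rw [map_sub, LinearMap.sub_apply, gk, (he c).2.2]; norm_num)
  simp only [PS.vh_three (h3 _)] at hW
  have hs : ∀ c, sl i g + kW n r i = sl i (e c) + (sl i (g - e c) + kW n r i) := fun c => by
    rw [map_sub]; abel
  refine ⟨?_, fun E => ?_⟩
  · rw [hs ⟨0, hpos⟩]; exact G.Eff.add_mem (hVe _).1 (hW _).1
  · have : ∃ c, G.pc E ≠ sl i (e c) ∧ G.pc E ≠ sl i (g - e c) + kW n r i := by
      by_contra hc
      push Not at hc
      have key : ∀ c d, c ≠ d → G.pc E = sl i (e c) → G.pc E ≠ sl i (e d) :=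
        fun c d h h1 h2 => h (einj (PS.sl_inj (h1.symm.trans h2)))
      have key' : ∀ c d, c ≠ d → G.pc E = sl i (g - e c) + kW n r i →
          G.pc E ≠ sl i (g - e d) + kW n r i := fun c d h h1 h2 =>
        h (einj (sub_right_injective (PS.sl_inj (add_right_cancel (h1.symm.trans h2)))))
      have n01 : (⟨0, by omega⟩ : Fin (r i)) ≠ ⟨1, by omega⟩ := by simp
      have n02 : (⟨0, by omega⟩ : Fin (r i)) ≠ ⟨2, by omega⟩ := by simp
      have n12 : (⟨1, by omega⟩ : Fin (r i)) ≠ ⟨2, by omega⟩ := by simp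
      by_cases p0 : G.pc E = sl i (e ⟨0, by omega⟩)
      · exact key' _ _ n12 (hc _ (key _ _ n01 p0)) (hc _ (key _ _ n02 p0))
      · by_cases p1 : G.pc E = sl i (e ⟨1, by omega⟩)
        · exact key' _ _ n02 (hc _ p0) (hc _ (key _ _ n12 p1))
        · exact key' _ _ n01 (hc _ p0) (hc _ p1)
    obtain ⟨c, h1, h2⟩ := this
    rw [hs c]
    exact (G.Fr E).add_mem ((hVe c).2.1 E h1) ((hW c).2.1 E h2)

end PS7

theorem st_ps7 (hF : St_FIN) (hR : St_REAL) (hV : St_VH) (hS : St_SPL7) (hK : St_MKE)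
    (hL : St_LPOS7) (hE : St_EBE) : St_PS7 := by
  intro ι _ _ n r G ok i hr H e hM x hx hB hB4 hW
  have hpos : 0 < r i := by rcases hr with h | h | h <;> omega
  have ee1 : ∀ a, dot (e a) (e a) = -1 := fun a => (hM.line a).2.1
  have ek : ∀ a, dot (e a) (kk 2 (r i)) = 1 := fun a => (hM.line a).2.2
  have einj : Function.Injective e := fun a b h => by
    by_contra hab
    have := hM.ee a b
    rw [if_neg hab, h, ee1] at this
    norm_num at this
  obtain ⟨c, hc⟩ : ∃ c, c = cc (r i) := ⟨_, rfl⟩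
  have hc' : (r i = 4 ∧ c = 1) ∨ (r i = 5 ∧ c = 1) ∨ (r i = 7 ∧ c = 2) := by
    rcases hr with h | h | h <;> simp [hc, cc, h]
  have c1 : 1 ≤ c := by rcases hc' with h | h | h <;> linarith [h.2]
  have c0 : c ≠ 0 := by linarith
  rw [← hc] at hB4 hW
  obtain ⟨g, hg⟩ : ∃ g, g = ∑ a, e a - c • H := ⟨_, rfl⟩
  have gz : IsZ g := hg ▸ (IsZ.sum fun a _ => hM.ze a).sub (hM.zH.smul (by
    rcases hc' with h | h | h
    exacts [⟨1, by simp [h.2]⟩, ⟨1, by simp [h.2]⟩, ⟨2, by simp [h.2]⟩]))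
  have ge : ∀ b, dot g (e b) = -1 := fun b => by
    rw [hg, map_sub, map_sum, map_smul, LinearMap.sub_apply, LinearMap.sum_apply,
      LinearMap.smul_apply, hM.He]
    simp [hM.ee]
  have gH : dot g H = -c := by
    rw [dot_comm, hg, map_sub, map_sum, map_smul, hM.HH]
    simp [hM.He]
  have gg : dot g g = c ^ 2 - r i := by
    conv_lhs => enter [2]; rw [hg]
    rw [map_sub, map_sum, map_smul, gH]
    simp [ge]
    ring
  have gk : dot g (kk 2 (r i)) = r i - 3 * c := by
    rw [hg, map_sub, map_sum, map_smul, LinearMap.sub_apply, LinearMap.sum_apply,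
      LinearMap.smul_apply, hM.Hk]
    simp [ek]
    ring
  rw [← hg] at hB4
  rw [Sh, mem_span_insert] at hx
  obtain ⟨a0, z, hz, hx⟩ := hx
  obtain ⟨b, rfl⟩ := (mem_span_range_iff_exists_fun _).1 hz
  simp only [NNReal.smul_def] at hx
  obtain ⟨b0, hb0⟩ : ∃ b0 : ℝ, b0 = a0 / c := ⟨_, rfl⟩
  have a0c : (a0 : ℝ) = b0 * c := by rw [hb0]; field_simp
  have b0p : 0 ≤ b0 := by rw [hb0]; exact div_nonneg a0.2 (by linarith)
  obtain ⟨be, hbe⟩ : ∃ be : Fin (r i) → ℝ, be = fun a => (b a : ℝ) + b0 * (c - 1) := ⟨_, rfl⟩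
  have bep : ∀ a, 0 ≤ be a := fun a => by
    rw [hbe]
    exact add_nonneg (b a).2 (mul_nonneg b0p (by linarith))
  have hx' : x i = ∑ a, be a • e a + b0 • g := by
    rw [hx, hg, hbe, a0c]
    simp only [add_smul, Finset.sum_add_distrib, ← Finset.smul_sum]
    module
  clear hx
  obtain ⟨u, hu⟩ : ∃ u, u = sl i g + kW n r i := ⟨_, rfl⟩
  obtain ⟨w, hw⟩ : ∃ w, w = x - sl i (x i) - b0 • kW n r i := ⟨_, rfl⟩
  have uz : IsZV u := hu ▸ fun j => (isZV_sl gz j).add (isZV_kW i j)
  have ui : u i = g := by rw [hu, Pi.add_apply, kW_self, add_zero, sl_self]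
  have hxd : x = ∑ a, be a • sl i (e a) + b0 • u + w := by
    have : sl i (x i) = ∑ a, be a • sl i (e a) + b0 • sl i g := by
      rw [hx', map_add, map_smul, map_sum]; simp only [map_smul]
    rw [hw, this, hu]; module
  have hBe : ∀ a, Bf n i (e a) x = w - be a • kW n r i := fun a => by
    have : dot (e a - ((dot (e a) (e a) + 1) / 2) • kk 2 (r i)) (x i) = -(b0 + be a) := by
      rw [ee1, hx']
      simp [dot_comm (e a) g, ge, hM.ee]
    rw [PS.bf_eq, this, hw]; module
  have hk := (hL ι n r G ok).1 i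
  have wi : w i = 0 := by simp [hw, sl_self, kW_self]
  have wE : InEb w := fun j => by
    have h1 := hB ⟨0, hpos⟩ j
    rw [hBe] at h1
    have h2 := (Eb (r j)).add_mem h1 (CG.smul_mem' (bep ⟨0, hpos⟩) (hk j))
    simpa using h2
  have wl : ∀ j, j ≠ i → ∀ v, Line v → 0 ≤ dot (w j) v := fun j hj v hv => by
    have h1 := hW j hj v hv
    have h2 : dot (x i) H = -(b0 * c) := by
      rw [dot_comm, hx', map_add, map_smul, map_sum, dot_comm H g, gH]
      simp [hM.He]
    have h3 : dot (w j) v = dot (x j) v - b0 := by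
      simp [hw, sl_ne hj, kW_ne hj, ok.n2 j (PM.line_pos hK hv), dot_comm (kk 2 (r j)), hv.2.2]
    rw [h2] at h1
    rw [h3]
    by_contra hn
    nlinarith
  have gsq : dot g g ≤ -3 := by
    rw [gg]
    rcases hc' with h | h | h <;> rw [h.1, h.2] <;> norm_num
  have hU : u ∈ G.Eff ∧ (∀ E, G.pc E ≠ u → u ∈ G.Fr E) ∧ ((∀ E, u ∈ G.Fr E) ∨
      ((∀ E, (6 : ℝ) • (u + kW n r i) ∈ G.Fr E) ∧ InEb (w - b0 • kW n r i))) := by
    by_cases h5 : r i = 5
    · have hc1 : c = 1 := by rcases hc' with h | h | h <;> first | exact h.2 | omega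
      have := PS7.five hV G h5 hM.line einj gz (by rw [gg, h5, hc1]; norm_num)
        (by rw [gk, h5, hc1]; norm_num) ge
      rw [← hu] at this
      exact ⟨this.1, fun E _ => this.2 E, Or.inl this.2⟩
    · have h3 : dot g g = -3 ∧ dot g (kk 2 (r i)) = 1 := by
        rw [gg, gk]
        rcases hc' with h | h | h
        · rw [h.1, h.2]; norm_num
        · exact absurd h.1 h5
        · rw [h.1, h.2]; norm_num
      have := hV ι n r G i hpos g gz h3.2
      rw [PS.vh_three h3.1, ← hu] at this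
      refine ⟨this.1, this.2.1, Or.inr ⟨this.2.2.1, ?_⟩⟩
      have h4 : dot (g - ((dot g g + 1) / 2) • kk 2 (r i)) (x i) = -(2 * b0) := by
        rw [h3.1, hx']
        simp [dot_comm (kk 2 (r i)), ge, h3.1, h3.2, ek]
        ring
      have h6 : Bf n i g x = w - b0 • kW n r i := by
        rw [PS.bf_eq, h4, hw]; module
      exact h6 ▸ hB4 h5
  refine ⟨PS7.core hF hR hV hS hK G ok hM.line einj bep b0p hxd uz ?_ ?_ hU.2.1 hU.2.2 wi wE
    (fun a => hBe a ▸ hB a) wl, ?_⟩
  · rw [ui]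
    intro h
    rw [h] at gsq
    norm_num at gsq
  · rw [ui]
    intro h
    rw [h.2.1] at gsq
    norm_num at gsq
  · rw [hxd]
    refine G.Eff.add_mem (G.Eff.add_mem (G.Eff.sum_mem fun a _ => CG.smul_mem' (bep a) ?_)
      (CG.smul_mem' b0p hU.1)) (hE ι n r G w wE)
    have := (hV ι n r G i hpos (e a) (hM.ze a) (ek a)).1
    rwa [PM.vh_line (hM.line a)] at this

end Pool.Agent.Lib.MV.Lat
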