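import Pool.Agent.Lib.MV.LatBlue

namespace Pool.Agent.Lib.MV.Lat

namespace CONIC

/-- all vectors with entries `-1, 0, 1` -/
def cand : (r : ℕ) → List (Fin r → ℤ)
  | 0 => [fun i => i.elim0]
  | r + 1 => (cand r).flatMap fun m => [Fin.cons (-1) m, Fin.cons 0 m, Fin.cons 1 m]

theorem rlz : True := by have := @cand.eq_def; trivial

theorem mem_cand : ∀ (r : ℕ) (m : Fin r → ℤ), (∀ i, -1 ≤ m i ∧ m i ≤ 1) → m ∈ cand r
  | 0, m, _ => by
    rw [cand, List.mem_singleton]; exact Subsingleton.elim _ _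
  | r + 1, m, h => by
    rw [cand, List.mem_flatMap]
    refine ⟨Fin.tail m, mem_cand r _ fun i => h i.succ, ?_⟩
    have e := (Fin.cons_self_tail m).symm
    have h0 : m 0 = -1 ∨ m 0 = 0 ∨ m 0 = 1 := by have := h 0; omega
    rcases h0 with a | a | a <;> rw [a] at e <;> simp only [List.mem_cons] <;> tauto

/-- the integral form -/
def d {r : ℕ} (x y : ℤ × (Fin r → ℤ)) : ℤ := x.1 * y.1 - ∑ i, x.2 i * y.2 i

/-- the lines -/
def lines (r : ℕ) : List (ℤ × (Fin r → ℤ)) :=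
  ([0, 1, 2].flatMap fun a => (cand r).map fun m => (a, m)).filter
    fun x => d x x = -1 ∧ 3 * x.1 - ∑ i, x.2 i = 1

theorem mem_lines {r : ℕ} (hr : r ≤ 6) {x : ℤ × (Fin r → ℤ)} (h1 : d x x = -1)
    (h2 : 3 * x.1 - ∑ i, x.2 i = 1) : x ∈ lines r := by
  obtain ⟨a, m⟩ := x
  have k1 : ∑ i, m i ^ 2 = a ^ 2 + 1 := by
    simp only [d, sq] at h1 ⊢; linarith
  have k2 : ∑ i, m i = 3 * a - 1 := by linarith
  have k3 := sq_sum_le_card_mul_sum_sq (s := Finset.univ) (f := m)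
  rw [k1, k2, Finset.card_univ, Fintype.card_fin] at k3
  have k4 : (r : ℤ) * (a ^ 2 + 1) ≤ 6 * (a ^ 2 + 1) :=
    mul_le_mul_of_nonneg_right (by exact_mod_cast hr) (by positivity)
  have a0 : 0 ≤ a := by nlinarith
  have a2 : a ≤ 2 := by nlinarith
  have k5 : ∀ i, -1 ≤ m i ∧ m i ≤ 1 := by
    intro i
    have b1 := Finset.single_le_sum (f := fun i => m i ^ 2) (fun j _ => sq_nonneg (m j))
      (Finset.mem_univ i)
    have b2 := Finset.single_le_sum (f := fun i => m i ^ 2 - m i)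
      (fun j _ => by rcases le_or_gt (m j) 0 with h | h <;> nlinarith) (Finset.mem_univ i)
    rw [Finset.sum_sub_distrib, k1, k2] at b2
    rw [k1] at b1
    interval_cases a <;> constructor <;> nlinarith
  refine List.mem_filter.2 ⟨List.mem_flatMap.2 ⟨a, ?_, List.mem_map.2 ⟨m, mem_cand r m k5, rfl⟩⟩,
    decide_eq_true ⟨h1, h2⟩⟩
  simp only [List.mem_cons]
  omega

/-- the finite check -/
def chk {r : ℕ} (L : List (ℤ × (Fin r → ℤ))) : Bool :=
  L.all fun g => L.all fun e => d g e != 1 ||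
    (decide (∃ b, g.1 + e.1 = 1 ∧ ∀ i, g.2 i + e.2 i = if i = b then 1 else 0) ||
      L.any fun x => d x g == 0 && d x e == 0)

theorem chk_lines {r : ℕ} (hr : r ≤ 6) : chk (lines r) = true := by
  interval_cases r <;> decide +kernel

/-- the real vector -/
def toF {r : ℕ} (x : ℤ × (Fin r → ℤ)) : F r :=
  fun o => o.elim ((x.1 - ∑ i, x.2 i : ℤ) : ℝ) fun i => x.2 i

theorem dg_toF {r : ℕ} (x : ℤ × (Fin r → ℤ)) : dg (toF x) = x.1 := by simp [dg, toF]

theorem dot_toF {r : ℕ} (x y : ℤ × (Fin r → ℤ)) : dot (toF x) (toF y) = d x y := by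
  rw [dot_apply, dg_toF, dg_toF]; simp [toF, d]

theorem dot_toF_k {r : ℕ} (x : ℤ × (Fin r → ℤ)) :
    dot (toF x) (kk 2 r) = ((3 * x.1 - ∑ i, x.2 i : ℤ) : ℝ) := by
  rw [dot_k, dg_toF]; simp [toF]; norm_num

theorem of_line {r : ℕ} (hr : r ≤ 6) {v : F r} (h : Line v) : ∃ x ∈ lines r, v = toF x := by
  obtain ⟨h1, h2, h3⟩ := h
  choose z hz using h1
  have e : v = toF (z none + ∑ i, z (some i), fun i => z (some i)) := by
    funext o; cases o <;> simp [toF, hz]
  rw [e, dot_toF] at h2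
  rw [e, dot_toF_k] at h3
  exact ⟨_, mem_lines hr (by exact_mod_cast h2) (by exact_mod_cast h3), e⟩

theorem line_of {r : ℕ} {x : ℤ × (Fin r → ℤ)} (h : x ∈ lines r) : Line (toF x) := by
  obtain ⟨h1, h2⟩ := of_decide_eq_true (List.mem_filter.1 h).2
  refine ⟨fun o => ?_, by rw [dot_toF, h1]; simp, by rw [dot_toF_k, h2]; simp⟩
  cases o
  exacts [⟨_, rfl⟩, ⟨_, rfl⟩]

end CONIC

open CONIC in
theorem st_conic : St_CONIC := by
  intro r hr g e hg he h
  obtain ⟨x, hx, rfl⟩ := of_line hr hg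
  obtain ⟨y, hy, rfl⟩ := of_line hr he
  have k := List.all_eq_true.1 (List.all_eq_true.1 (chk_lines hr) x hx) y hy
  rw [dot_toF] at h
  have h' : d x y = 1 := by exact_mod_cast h
  simp only [h', bne_self_eq_false, Bool.false_or, Bool.or_eq_true, decide_eq_true_eq,
    List.any_eq_true, Bool.and_eq_true, beq_iff_eq] at k
  rcases k with ⟨b, b1, b2⟩ | ⟨w, w1, w2, w3⟩
  · refine Or.inl ⟨b, funext fun o => ?_⟩
    have s : ∑ i, x.2 i + ∑ i, y.2 i = 1 := by
      rw [← Finset.sum_add_distrib]; simp [b2]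
    cases o with
    | none =>
      have : (x.1 - ∑ i, x.2 i) + (y.1 - ∑ i, y.2 i) = 0 := by linarith
      simp only [Pi.add_apply, toF, Option.elim, hh]
      rw [← Int.cast_add, this]; simp
    | some i =>
      simp only [Pi.add_apply, toF, Option.elim, hh]
      rw [← Int.cast_add, b2]; simp [Pi.single_apply]
  · have c1 : dot (toF w) (toF x) = 0 := by rw [dot_toF, w2]; simp
    have c2 : dot (toF w) (toF y) = 0 := by rw [dot_toF, w3]; simp
    refine Or.inr ⟨toF w, line_of w1, fun a => ?_, fun a => ?_, by rw [map_add, c1, c2, add_zero]⟩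
    · rw [a, hg.2.1] at c1; norm_num at c1
    · rw [a, he.2.1] at c2; norm_num at c2

open CONIC in
theorem line_one {r : ℕ} (hr : r = 1) {v : F r} (h : Line v) : ∃ a, v = ee a := by
  subst hr
  obtain ⟨x, hx, rfl⟩ := of_line (by norm_num) h
  have k : ∀ x ∈ lines 1, x.1 = 0 ∧ x.2 0 = -1 := by decide +kernel
  obtain ⟨a, b⟩ := k x hx
  refine ⟨0, funext fun o => ?_⟩
  cases o with
  | none => simp [toF, ee, hh, a, b]
  | some i => obtain rfl := Subsingleton.elim i 0; simp [toF, ee, hh, b]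

end Pool.Agent.Lib.MV.Lat
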