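import Pool.Agent.Lib.MV.LatBlue

open Set Submodule
open scoped NNReal

noncomputable section

namespace Pool.Agent.Lib.MV.Lat

namespace SPL

variable {r : ℕ}

lemma nsm {C : Submodule ℝ≥0 (F r)} {c : ℝ} (hc : 0 ≤ c) {x : F r} (hx : x ∈ C) : c • x ∈ C :=
  C.smul_mem (⟨c, hc⟩ : ℝ≥0) hx

lemma line_small (hr : r ≤ 1) {e : F r} (he : Line e) : ∃ a, e = ee a ∧ ∀ b, b = a := by
  obtain ⟨hz, h1, h2⟩ := he
  rw [dot_k] at h2
  rw [dot_apply] at h1
  rcases Nat.le_one_iff_eq_zero_or_eq_one.1 hr with rfl | rfl
  · simp only [Finset.univ_eq_empty, Finset.sum_empty, sub_zero] at h1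
    nlinarith [mul_self_nonneg (dg e)]
  · refine ⟨0, ?_, fun b => Subsingleton.elim _ _⟩
    obtain ⟨a, ha⟩ := hz none
    obtain ⟨b, hb⟩ := hz (some 0)
    simp only [dg, Finset.univ_unique, Fin.default_eq_zero, Finset.sum_singleton, ha, hb] at h1 h2
    have h1' : (a + b) * (a + b) - b * b = -1 := by exact_mod_cast h1
    have h2' : (2 + 1) * (a + b) - b = 1 := by exact_mod_cast h2
    have h3 : (a + b) * (4 * (a + b) - 3) = 0 := by
      have : b = 3 * (a + b) - 1 := by linarith
      nlinarith
    have h4 : a + b = 0 := by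
      rcases mul_eq_zero.1 h3 with h | h
      · exact h
      · omega
    have hb' : b = -1 := by omega
    have ha' : a = 1 := by omega
    funext o
    cases o with
    | none => simp [ha, ha', ee, hh]
    | some c =>
      obtain rfl : c = 0 := Subsingleton.elim _ _
      simp [hb, hb', ee, hh]

end SPL

theorem st_spl (hLL : St_LL) (hCO : St_CONIC) : St_SPL := by
  intro r hr C e he hL hH x hx
  have key : ∃ z : F r, ∃ t : ℝ, 0 ≤ t ∧ x = z + t • e ∧ z ∈ C ∧ 0 ≤ dot z e ∧
      z + dot z e • e ∈ C := by
    induction hx using span_induction with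
    | zero => exact ⟨0, 0, le_rfl, by simp, C.zero_mem, by simp, by simp⟩
    | add x y _ _ hx hy =>
      obtain ⟨z, t, ht, rfl, hz, hze, hz'⟩ := hx
      obtain ⟨w, s, hs, rfl, hw, hwe, hw'⟩ := hy
      refine ⟨z + w, t + s, add_nonneg ht hs, by rw [add_smul]; abel, C.add_mem hz hw, ?_, ?_⟩
      · rw [map_add, LinearMap.add_apply]; exact add_nonneg hze hwe
      · have := C.add_mem hz' hw'
        rw [map_add, LinearMap.add_apply, add_smul]
        rwa [add_add_add_comm] at this
    | smul c x _ hx =>
      obtain ⟨z, t, ht, rfl, hz, hze, hz'⟩ := hx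
      refine ⟨(c : ℝ) • z, c * t, mul_nonneg c.2 ht, ?_, SPL.nsm c.2 hz, ?_, ?_⟩
      · rw [mul_smul, ← smul_add]; rfl
      · rw [map_smul, LinearMap.smul_apply]; exact mul_nonneg c.2 hze
      · rw [map_smul, LinearMap.smul_apply, smul_eq_mul, mul_smul, ← smul_add]
        exact SPL.nsm c.2 hz'
    | mem g hg =>
      rcases hg with hg | ⟨h1, o, rfl⟩
      · by_cases hge : g = e
        · exact ⟨0, 1, zero_le_one, by simp [hge], C.zero_mem, by simp, by simp⟩
        refine ⟨g, 0, le_rfl, by simp, hL g hg hge, ?_⟩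
        rcases hLL r hr g e hg he hge with h | h
        · rw [h]; exact ⟨le_rfl, by simpa using hL g hg hge⟩
        rw [h, one_smul]
        refine ⟨zero_le_one, ?_⟩
        rcases hCO r hr g e hg he h with ⟨a, ha⟩ | ⟨g', hg', h1, h2, h3⟩
        · rw [ha]; exact hH _
        have h4 : Line (g + e - g') := by
          refine ⟨(hg.1.add he.1).sub hg'.1, ?_, ?_⟩
          · have h5 : dot (g + e) (g + e) = 0 := by
              simp only [map_add, LinearMap.add_apply, hg.2.1, he.2.1, h, dot_comm e g]
              norm_num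
            rw [map_sub, map_sub, LinearMap.sub_apply, LinearMap.sub_apply, h5, h3,
              dot_comm (g + e) g', h3, hg'.2.1]
            norm_num
          · simp only [map_sub, map_add, LinearMap.sub_apply, LinearMap.add_apply, hg.2.2,
              he.2.2, hg'.2.2]
            norm_num
        have h6 : g + e - g' ≠ e := fun h7 => h1 (by
          have : g' = g + e - (g + e - g') := by abel
          rw [this, h7]; abel)
        have := C.add_mem (hL g' hg' h2) (hL _ h4 h6)
        rwa [add_sub_cancel] at this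
      · obtain ⟨a, rfl, ha⟩ := SPL.line_small h1 he
        refine ⟨hh o, 0, le_rfl, by simp, hH o, ?_⟩
        cases o with
        | none => rw [dot_He]; exact ⟨le_rfl, by simpa using hH none⟩
        | some b =>
          obtain rfl := ha b
          have h2 : dot (hh (some b)) (ee b) = 1 := by rw [dot_e]; simp [hh]
          rw [h2, one_smul, hh_some, sub_add_cancel]
          exact ⟨zero_le_one, hH none⟩
  obtain ⟨z, t, ht, rfl, hz, hze, hz'⟩ := key
  have h1 : dot (z + t • e) e = dot z e - t := by
    rw [map_add, map_smul, LinearMap.add_apply, LinearMap.smul_apply, he.2.1, smul_eq_mul]; ring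
  rw [h1]
  rcases le_total t (dot z e) with h | h
  · rw [max_eq_left (by linarith), zero_smul, sub_zero]
    rcases eq_or_lt_of_le hze with h0 | h0
    · obtain rfl : t = 0 := by linarith
      simpa using hz
    · have h2 : z + t • e = (1 - t / dot z e) • z + (t / dot z e) • (z + dot z e • e) := by
        rw [smul_add, smul_smul, div_mul_cancel₀ _ h0.ne', sub_smul, one_smul]; abel
      rw [h2]
      exact C.add_mem (SPL.nsm (sub_nonneg.2 ((div_le_one h0).2 h)) hz)
        (SPL.nsm (div_nonneg ht hze) hz')
  · rw [max_eq_right (by linarith)]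
    have h2 : z + t • e - (-(dot z e - t)) • e = z + dot z e • e := by
      rw [neg_sub, sub_smul]; abel
    rw [h2]; exact hz'

end Pool.Agent.Lib.MV.Lat
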