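import Pool.Agent.Lib.MV.Lat2Blue
import Pool.Agent.Lib.MV.L_SPL
import Pool.Agent.Lib.MV.L_CONIC
import Pool.Agent.Lib.MV.L_HODGE

open Set Submodule
open scoped NNReal

noncomputable section

namespace Pool.Agent.Lib.MV.Lat

namespace SPL7

open CONIC

/-- integral vectors for seven points -/
abbrev T : Type := ℤ × ℤ × ℤ × ℤ × ℤ × ℤ × ℤ × ℤ

/-- the form in coordinates -/
def dl (x y : T) : ℤ := x.1 * y.1 - (x.2.1 * y.2.1 + x.2.2.1 * y.2.2.1 + x.2.2.2.1 * y.2.2.2.1 +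
  x.2.2.2.2.1 * y.2.2.2.2.1 + x.2.2.2.2.2.1 * y.2.2.2.2.2.1 +
  x.2.2.2.2.2.2.1 * y.2.2.2.2.2.2.1 + x.2.2.2.2.2.2.2 * y.2.2.2.2.2.2.2)

/-- the vector of a tuple -/
def up (x : T) : ℤ × (Fin 7 → ℤ) := (x.1, ![x.2.1, x.2.2.1, x.2.2.2.1, x.2.2.2.2.1,
  x.2.2.2.2.2.1, x.2.2.2.2.2.2.1, x.2.2.2.2.2.2.2])

theorem d_up (x y : T) : d (up x) (up y) = dl x y := by
  simp [d, up, dl, Fin.sum_univ_seven]

/-- the anticanonical class -/
def kT : T := (3, 1, 1, 1, 1, 1, 1, 1)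

/-- the lines for seven points -/
def lin : List T := [
    (0, -1, 0, 0, 0, 0, 0, 0), (0, 0, -1, 0, 0, 0, 0, 0), (0, 0, 0, -1, 0, 0, 0, 0), (0, 0, 0,
    0, -1, 0, 0, 0), (0, 0, 0, 0, 0, -1, 0, 0), (0, 0, 0, 0, 0, 0, -1, 0), (0, 0, 0, 0, 0, 0, 0,
    -1), (1, 0, 0, 0, 0, 0, 1, 1), (1, 0, 0, 0, 0, 1, 0, 1), (1, 0, 0, 0, 0, 1, 1, 0), (1, 0, 0,
    0, 1, 0, 0, 1), (1, 0, 0, 0, 1, 0, 1, 0), (1, 0, 0, 0, 1, 1, 0, 0), (1, 0, 0, 1, 0, 0, 0,
    1), (1, 0, 0, 1, 0, 0, 1, 0), (1, 0, 0, 1, 0, 1, 0, 0), (1, 0, 0, 1, 1, 0, 0, 0), (1, 0, 1,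
    0, 0, 0, 0, 1), (1, 0, 1, 0, 0, 0, 1, 0), (1, 0, 1, 0, 0, 1, 0, 0), (1, 0, 1, 0, 1, 0, 0,
    0), (1, 0, 1, 1, 0, 0, 0, 0), (1, 1, 0, 0, 0, 0, 0, 1), (1, 1, 0, 0, 0, 0, 1, 0), (1, 1, 0,
    0, 0, 1, 0, 0), (1, 1, 0, 0, 1, 0, 0, 0), (1, 1, 0, 1, 0, 0, 0, 0), (1, 1, 1, 0, 0, 0, 0,
    0), (2, 0, 0, 1, 1, 1, 1, 1), (2, 0, 1, 0, 1, 1, 1, 1), (2, 0, 1, 1, 0, 1, 1, 1), (2, 0, 1,
    1, 1, 0, 1, 1), (2, 0, 1, 1, 1, 1, 0, 1), (2, 0, 1, 1, 1, 1, 1, 0), (2, 1, 0, 0, 1, 1, 1,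
    1), (2, 1, 0, 1, 0, 1, 1, 1), (2, 1, 0, 1, 1, 0, 1, 1), (2, 1, 0, 1, 1, 1, 0, 1), (2, 1, 0,
    1, 1, 1, 1, 0), (2, 1, 1, 0, 0, 1, 1, 1), (2, 1, 1, 0, 1, 0, 1, 1), (2, 1, 1, 0, 1, 1, 0,
    1), (2, 1, 1, 0, 1, 1, 1, 0), (2, 1, 1, 1, 0, 0, 1, 1), (2, 1, 1, 1, 0, 1, 0, 1), (2, 1, 1,
    1, 0, 1, 1, 0), (2, 1, 1, 1, 1, 0, 0, 1), (2, 1, 1, 1, 1, 0, 1, 0), (2, 1, 1, 1, 1, 1, 0,
    0), (3, 1, 1, 1, 1, 1, 1, 2), (3, 1, 1, 1, 1, 1, 2, 1), (3, 1, 1, 1, 1, 2, 1, 1), (3, 1, 1,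
    1, 2, 1, 1, 1), (3, 1, 1, 2, 1, 1, 1, 1), (3, 1, 2, 1, 1, 1, 1, 1), (3, 2, 1, 1, 1, 1, 1, 1)]

/-- the possible entries -/
def en : List ℤ := [-1, 0, 1, 2]

theorem all_lin : ([0, 1, 2, 3].all fun a : ℤ => en.all fun b => en.all fun c => en.all fun d =>
    en.all fun e => en.all fun f => en.all fun g =>
      dl (a, b, c, d, e, f, g, 3 * a - 1 - b - c - d - e - f - g)
        (a, b, c, d, e, f, g, 3 * a - 1 - b - c - d - e - f - g) != -1 ||
      lin.contains (a, b, c, d, e, f, g, 3 * a - 1 - b - c - d - e - f - g)) = true := by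
  decide +kernel

theorem lin_ok : (lin.all fun x => dl x x == -1 && dl x kT == 1) = true := by decide +kernel

theorem chk_lin : (lin.all fun g => lin.all fun e => dl g e == 0 ||
    (dl g e == 1 && lin.any fun x => dl x g == 0 && dl x e == 0) ||
    (dl g e == 2 && lin.any fun x => dl x e == 0 && dl x g == 1 &&
      lin.any fun y => dl y e == 0 && dl y g == 1 && dl x y == 1) || g == e) = true := by
  decide +kernel

theorem mem_lin {x : ℤ × (Fin 7 → ℤ)} (h1 : d x x = -1)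
    (h2 : 3 * x.1 - ∑ i, x.2 i = 1) : ∃ y ∈ lin, x = up y := by
  obtain ⟨a, m⟩ := x
  have k1 : ∑ i, m i ^ 2 = a ^ 2 + 1 := by
    simp only [d, sq] at h1 ⊢; linarith
  have k2 : ∑ i, m i = 3 * a - 1 := by linarith
  have k3 := sq_sum_le_card_mul_sum_sq (s := Finset.univ) (f := m)
  rw [k1, k2, Finset.card_univ, Fintype.card_fin] at k3
  push_cast at k3
  have a0 : 0 ≤ a := by nlinarith
  have a2 : a ≤ 3 := by nlinarith
  have k5 : ∀ i, m i ∈ en := by
    intro i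
    have b1 := Finset.single_le_sum (f := fun i => m i ^ 2 - m i)
      (fun j _ => by rcases le_or_gt (m j) 0 with h | h <;> nlinarith) (Finset.mem_univ i)
    rw [Finset.sum_sub_distrib, k1, k2] at b1
    have : -1 ≤ m i ∧ m i ≤ 2 := by interval_cases a <;> constructor <;> nlinarith
    simp only [en, List.mem_cons]
    omega
  have ha : a ∈ ([0, 1, 2, 3] : List ℤ) := by
    simp only [List.mem_cons]
    omega
  have e6 : m 6 = 3 * a - 1 - m 0 - m 1 - m 2 - m 3 - m 4 - m 5 := by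
    rw [Fin.sum_univ_seven] at k2; linarith
  have e : ((a, m) : ℤ × (Fin 7 → ℤ)) = up (a, m 0, m 1, m 2, m 3, m 4, m 5, m 6) := by
    refine Prod.ext rfl (funext fun i => ?_)
    fin_cases i <;> rfl
  have k := all_lin
  simp only [List.all_eq_true] at k
  have k' := k a ha _ (k5 0) _ (k5 1) _ (k5 2) _ (k5 3) _ (k5 4) _ (k5 5)
  rw [← e6, ← d_up, ← e, h1] at k'
  exact ⟨_, by simpa using k', e⟩

theorem of_line {v : F 7} (h : Line v) : ∃ x ∈ lin, v = toF (up x) := by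
  obtain ⟨h1, h2, h3⟩ := h
  choose z hz using h1
  have e : v = toF (z none + ∑ i, z (some i), fun i => z (some i)) := by
    funext o; cases o <;> simp [toF, hz]
  rw [e, dot_toF] at h2
  rw [e, dot_toF_k] at h3
  obtain ⟨y, hy, e'⟩ := mem_lin (by exact_mod_cast h2) (by exact_mod_cast h3)
  exact ⟨y, hy, by rw [e, e']⟩

theorem dot_up (x y : T) : dot (toF (up x)) (toF (up y)) = dl x y := by rw [dot_toF, d_up]

theorem line_up {x : T} (h : x ∈ lin) : Line (toF (up x)) := by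
  have k := List.all_eq_true.1 lin_ok x h
  simp only [Bool.and_eq_true, beq_iff_eq] at k
  have h2 : 3 * (up x).1 - ∑ i, (up x).2 i = 1 := by
    rw [← k.2]; simp [up, dl, kT, Fin.sum_univ_seven]; ring
  refine ⟨fun o => ?_, by rw [dot_up, k.1]; simp, by rw [dot_toF_k, h2]; simp⟩
  cases o
  exacts [⟨_, rfl⟩, ⟨_, rfl⟩]

/-- The position of two different lines. -/
theorem pair {g e : F 7} (hg : Line g) (he : Line e) (hne : g ≠ e) :
    dot g e = 0 ∨ (dot g e = 1 ∧ ∃ x, Line x ∧ dot x g = 0 ∧ dot x e = 0) ∨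
    (dot g e = 2 ∧ ∃ x y, Line x ∧ Line y ∧ dot x e = 0 ∧ dot x g = 1 ∧ dot y e = 0 ∧
      dot y g = 1 ∧ dot x y = 1) := by
  obtain ⟨x, hx, rfl⟩ := of_line hg
  obtain ⟨y, hy, rfl⟩ := of_line he
  have k := List.all_eq_true.1 (List.all_eq_true.1 chk_lin x hx) y hy
  simp only [Bool.or_eq_true, List.any_eq_true, Bool.and_eq_true, beq_iff_eq] at k
  rcases k with ((k | ⟨k, w, w1, w2, w3⟩) | ⟨k, w, w1, ⟨w2, w3⟩, u, u1, ⟨u2, u3⟩, u4⟩) | k
  · left; rw [dot_up, k]; simp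
  · exact Or.inr (Or.inl ⟨by rw [dot_up, k]; simp, toF (up w), line_up w1,
      by rw [dot_up, w2]; simp, by rw [dot_up, w3]; simp⟩)
  · exact Or.inr (Or.inr ⟨by rw [dot_up, k]; simp, toF (up w), toF (up u), line_up w1,
      line_up u1, by rw [dot_up, w2]; simp, by rw [dot_up, w3]; simp, by rw [dot_up, u2]; simp,
      by rw [dot_up, u3]; simp, by rw [dot_up, u4]; simp⟩)
  · exact absurd (by rw [k]) hne

/-- The reflection of a line along another line stays in the cone. -/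
theorem step {C : Submodule ℝ≥0 (F 7)} {g e : F 7} (hg : Line g)
    (he : Line e) (hne : g ≠ e) (hL : ∀ g, Line g → g ≠ e → g ∈ C) :
    0 ≤ dot g e ∧ g + dot g e • e ∈ C := by
  have ne0 : ∀ x, dot x e = 0 → x ≠ e := fun x hx h => by
    rw [h, he.2.1] at hx; norm_num at hx
  rcases pair hg he hne with h | ⟨h, x, hx, x1, x2⟩ | ⟨h, x, y, hx, hy, x1, x2, y1, y2, xy⟩
  · rw [h]; exact ⟨le_rfl, by simpa using hL g hg hne⟩
  · rw [h, one_smul]
    refine ⟨zero_le_one, ?_⟩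
    have h4 : Line (g + e - x) := by
      refine ⟨(hg.1.add he.1).sub hx.1, ?_, ?_⟩
      · simp only [map_add, map_sub, LinearMap.add_apply, LinearMap.sub_apply, hg.2.1, he.2.1,
          hx.2.1, h, dot_comm e g, dot_comm g x, dot_comm e x, x1, x2]
        norm_num
      · simp only [map_sub, map_add, LinearMap.sub_apply, LinearMap.add_apply, hg.2.2,
          he.2.2, hx.2.2]
        norm_num
    have h6 : g + e - x ≠ e := ne0 _ (by
      simp only [map_add, map_sub, LinearMap.add_apply, LinearMap.sub_apply, he.2.1, h, x2]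
      norm_num)
    have := C.add_mem (hL x hx (ne0 x x2)) (hL _ h4 h6)
    rwa [add_sub_cancel] at this
  · rw [h, two_smul]
    refine ⟨zero_le_two, ?_⟩
    have h4 : Line (g + (e + e) - x - y) := by
      refine ⟨((hg.1.add (he.1.add he.1)).sub hx.1).sub hy.1, ?_, ?_⟩
      · simp only [map_add, map_sub, LinearMap.add_apply, LinearMap.sub_apply, hg.2.1, he.2.1,
          hx.2.1, hy.2.1, h, dot_comm e g, dot_comm g x, dot_comm e x, dot_comm g y,
          dot_comm e y, dot_comm y x, x1, x2, y1, y2, xy]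
        norm_num
      · simp only [map_sub, map_add, LinearMap.sub_apply, LinearMap.add_apply, hg.2.2,
          he.2.2, hx.2.2, hy.2.2]
        norm_num
    have h6 : g + (e + e) - x - y ≠ e := ne0 _ (by
      simp only [map_add, map_sub, LinearMap.add_apply, LinearMap.sub_apply, he.2.1, h, x1, y1]
      norm_num)
    have := C.add_mem (C.add_mem (hL x hx (ne0 x x1)) (hL y hy (ne0 y y1))) (hL _ h4 h6)
    have e1 : x + y + (g + (e + e) - x - y) = g + (e + e) := by abel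
    rwa [e1] at this

end SPL7

theorem st_spl7 (hHo : St_HODGE) : St_SPL7 := by
  intro r hr C e he hL hH x hx
  rcases lt_or_eq_of_le hr with hr6 | rfl
  · exact st_spl (st_ll hHo) st_conic r (by omega) C e he hL hH x hx
  have key : ∃ z : F 7, ∃ t : ℝ, 0 ≤ t ∧ x = z + t • e ∧ z ∈ C ∧ 0 ≤ dot z e ∧
      z + dot z e • e ∈ C := by
    induction hx using span_induction with
    | zero => exact ⟨0, 0, le_rfl, by simp, C.zero_mem, by simp, by simp⟩
    | add x y _ _ hx hy =>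
      obtain ⟨z, t, ht, rfl, hz, hze, hz'⟩ := hx
      obtain ⟨w, s, hs, rfl, hw, hwe, hw'⟩ := hy
      refine ⟨z + w, t + s, add_nonneg ht hs, by rw [add_smul]; abel, C.add_mem hz hw, ?_, ?_⟩
      · rw [map_add, LinearMap.add_apply]; exact add_nonneg hze hwe
      · have := C.add_mem hz' hw'
        rw [map_add, LinearMap.add_apply, add_smul]
        rwa [add_add_add_comm] at this
    | smul c x _ hx =>
      obtain ⟨z, t, ht, rfl, hz, hze, hz'⟩ := hx
      refine ⟨(c : ℝ) • z, c * t, mul_nonneg c.2 ht, ?_, SPL.nsm c.2 hz, ?_, ?_⟩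
      · rw [mul_smul, ← smul_add]; rfl
      · rw [map_smul, LinearMap.smul_apply]; exact mul_nonneg c.2 hze
      · rw [map_smul, LinearMap.smul_apply, smul_eq_mul, mul_smul, ← smul_add]
        exact SPL.nsm c.2 hz'
    | mem g hg =>
      rcases hg with hg | ⟨h1, o, rfl⟩
      · by_cases hge : g = e
        · exact ⟨0, 1, zero_le_one, by simp [hge], C.zero_mem, by simp, by simp⟩
        exact ⟨g, 0, le_rfl, by simp, hL g hg hge, SPL7.step hg he hge hL⟩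
      · omega
  obtain ⟨z, t, ht, rfl, hz, hze, hz'⟩ := key
  have h1 : dot (z + t • e) e = dot z e - t := by
    rw [map_add, map_smul, LinearMap.add_apply, LinearMap.smul_apply, he.2.1, smul_eq_mul]; ring
  rw [h1]
  rcases le_total t (dot z e) with h | h
  · rw [max_eq_left (by linarith), zero_smul, sub_zero]
    rcases eq_or_lt_of_le hze with h0 | h0
    · obtain rfl : t = 0 := by linarith
      simpa using hz
    · have h2 : z + t • e = (1 - t / dot z e) • z + (t / dot z e) • (z + dot z e • e) := by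
        rw [smul_add, smul_smul, div_mul_cancel₀ _ h0.ne', sub_smul, one_smul]; abel
      rw [h2]
      exact C.add_mem (SPL.nsm (sub_nonneg.2 ((div_le_one h0).2 h)) hz)
        (SPL.nsm (div_nonneg ht hze) hz')
  · rw [max_eq_right (by linarith)]
    have h2 : z + t • e - (-(dot z e - t)) • e = z + dot z e • e := by
      rw [neg_sub, sub_smul]; abel
    rw [h2]; exact hz'

end Pool.Agent.Lib.MV.Lat
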