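import Pool.Agent.Lib.MV.LatBlue

open Set Submodule
open scoped NNReal

set_option linter.unusedSectionVars false

noncomputable section

namespace Pool.Agent.Lib.MV.Lat

namespace REAL

variable {ι : Type} [Fintype ι] [DecidableEq ι] {r : ι → ℕ}

/-- Vectors with natural number coordinates lie in a monoid containing the basis. -/
lemma nat_mem (M : AddSubmonoid (V r)) (hM : ∀ i o, sl i (hh o) ∈ M) (d : V r)
    (hd : ∀ i o, ∃ m : ℕ, d i o = m) : d ∈ M := by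
  rw [← sum_sl d]
  refine M.sum_mem fun i _ => ?_
  have h1 : d i = ∑ o, d i o • hh o := by
    funext o'
    simp [hh, Finset.sum_apply, Pi.single_apply]
  rw [h1, map_sum]
  refine M.sum_mem fun o _ => ?_
  obtain ⟨m, hm⟩ := hd i o
  rw [map_smul, hm, Nat.cast_smul_eq_nsmul]
  exact M.nsmul_mem (hM i o) m

/-- One sided approximation of the multiples of a point of the cone by points of the monoid. -/
lemma approx (M : AddSubmonoid (V r)) {x : V r} (hx : x ∈ span ℝ≥0 (M : Set (V r))) :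
    ∃ B : ℝ, ∀ s : ℝ, 0 ≤ s → ∃ y ∈ M, ∀ i o, y i o ≤ s * x i o + B := by
  induction hx using span_induction with
  | mem x hx =>
    refine ⟨‖x‖, fun s hs => ⟨⌊s⌋₊ • x, M.nsmul_mem hx _, fun i o => ?_⟩⟩
    have h1 : |x i o| ≤ ‖x‖ := (norm_le_pi_norm (x i) o).trans (norm_le_pi_norm x i)
    have h2 := Nat.floor_le hs
    have h3 := Nat.lt_floor_add_one s
    have h4 := neg_abs_le (x i o)
    have h5 := abs_nonneg (x i o)
    simp only [Pi.smul_apply, nsmul_eq_mul]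
    nlinarith
  | zero => exact ⟨0, fun s _ => ⟨0, M.zero_mem, fun i o => by simp⟩⟩
  | add x x' _ _ h h' =>
    obtain ⟨B, h⟩ := h
    obtain ⟨B', h'⟩ := h'
    refine ⟨B + B', fun s hs => ?_⟩
    obtain ⟨y, hy, h⟩ := h s hs
    obtain ⟨y', hy', h'⟩ := h' s hs
    refine ⟨y + y', M.add_mem hy hy', fun i o => ?_⟩
    have h1 := h i o
    have h2 := h' i o
    simp only [Pi.add_apply]
    linarith
  | smul c x _ h =>
    obtain ⟨B, h⟩ := h
    refine ⟨B, fun s hs => ?_⟩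
    obtain ⟨y, hy, h⟩ := h (s * c) (mul_nonneg hs c.2)
    refine ⟨y, hy, fun i o => ?_⟩
    have h1 := h i o
    simp only [Pi.smul_apply, NNReal.smul_def, smul_eq_mul]
    linarith

/-- Only finitely many heights below a bound occur on the orbit of an effective class. -/
lemma fin_ht {n : ι → ℕ} (G : Geo n r) (ht : V r →ₗ[ℝ] ℝ)
    (hz : ∀ x, IsZV x → ∃ z : ℤ, ht x = z) (hp : ∀ x ∈ G.Eff, 0 ≤ ht x) {x : V r}
    (hx : x ∈ span ℝ≥0 {x | x ∈ G.Eff ∧ IsZV x}) :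
    x ∈ G.Eff ∧ ∀ b : ℝ, {h | h ≤ b ∧ ∃ T ∈ G.Γ, h = ht (T x)}.Finite := by
  induction hx using span_induction with
  | mem x hx =>
    refine ⟨hx.1, fun b => ((Set.finite_Icc (0 : ℤ) ⌈b⌉).image fun z : ℤ => (z : ℝ)).subset ?_⟩
    rintro h ⟨hb, T, hT, rfl⟩
    obtain ⟨z, hz⟩ := hz _ (G.Γ_int T hT x hx.2)
    have h0 := hp _ (G.Γ_eff T hT x hx.1)
    rw [hz] at hb h0
    exact ⟨z, ⟨by exact_mod_cast h0, by exact_mod_cast hb.trans (Int.le_ceil b)⟩, hz.symm⟩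
  | zero =>
    refine ⟨G.Eff.zero_mem, fun b => (Set.finite_singleton 0).subset ?_⟩
    rintro h ⟨-, T, -, rfl⟩
    simp
  | add x x' _ _ h h' =>
    refine ⟨G.Eff.add_mem h.1 h'.1, fun b => ((h.2 b).image2 (· + ·) (h'.2 b)).subset ?_⟩
    rintro _ ⟨hb, T, hT, rfl⟩
    have h0 := hp _ (G.Γ_eff T hT x h.1)
    have h0' := hp _ (G.Γ_eff T hT x' h'.1)
    rw [map_add, map_add] at hb ⊢
    exact ⟨_, ⟨by linarith, T, hT, rfl⟩, _, ⟨by linarith, T, hT, rfl⟩, rfl⟩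
  | smul c x _ h =>
    refine ⟨G.Eff.smul_mem c h.1, fun b => ?_⟩
    rcases eq_or_lt_of_le c.2 with hc | hc
    · refine (Set.finite_singleton 0).subset ?_
      rintro _ ⟨-, T, -, rfl⟩
      have hc' : (c : ℝ) = 0 := hc.symm
      simp [NNReal.smul_def, hc']
    · have hc' : (0 : ℝ) < c := hc
      refine ((h.2 (b / c)).image fun t => (c : ℝ) * t).subset ?_
      rintro _ ⟨hb, T, hT, rfl⟩
      rw [NNReal.smul_def, map_smul, map_smul, smul_eq_mul] at hb ⊢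
      exact ⟨_, ⟨by rw [le_div_iff₀ hc']; linarith, T, hT, rfl⟩, rfl⟩

end REAL

theorem st_real : St_REAL := by
  intro ι _ _ r α T hT M hZ hb x hx
  have hB : ∃ B : ℝ, 0 ≤ B ∧ ∀ t ∈ T, ∀ s : ℝ, 0 ≤ s →
      ∃ y ∈ M t, ∀ i o, y i o ≤ s * x i o + B := by
    choose! B hB using fun t ht => REAL.approx (M t) (hx t ht)
    obtain ⟨C, hC⟩ := (hT.image B).bddAbove
    refine ⟨max C 0, le_max_right _ _, fun t ht s hs => ?_⟩
    obtain ⟨y, hy, h⟩ := hB t ht s hs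
    refine ⟨y, hy, fun i o => ?_⟩
    have h1 := h i o
    have h2 : B t ≤ C := hC ⟨t, ht, rfl⟩
    have h3 := le_max_left C 0
    linarith
  obtain ⟨B, hB0, hB⟩ := hB
  refine Metric.mem_closure_iff.2 fun ε hε => ?_
  have hN : (0 : ℝ) < (B + 1) / ε := by positivity
  set N : ℝ := (B + 1) / ε with hNd
  have hNe : N * ε = B + 1 := by rw [hNd]; field_simp
  let z : V r := fun i o => (⌈N * x i o + B⌉ : ℤ)
  have hz : IsZV z := fun i o => ⟨_, rfl⟩
  have hzM : ∀ t ∈ T, z ∈ M t := fun t ht => by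
    obtain ⟨y, hy, h⟩ := hB t ht N hN.le
    have h1 : z = y + (z - y) := by abel
    rw [h1]
    refine (M t).add_mem hy (REAL.nat_mem _ (hb t ht) _ fun i o => ?_)
    obtain ⟨w, hw⟩ := (hz i).sub (hZ t ht y hy i) o
    have h2 : (0 : ℝ) ≤ w := by
      rw [← hw]
      exact sub_nonneg.2 ((h i o).trans (Int.le_ceil _))
    obtain ⟨m, rfl⟩ := Int.eq_ofNat_of_zero_le (by exact_mod_cast h2 : (0 : ℤ) ≤ w)
    exact ⟨m, by simpa using hw⟩
  refine ⟨(⟨N⁻¹, by positivity⟩ : ℝ≥0) • z, Submodule.smul_mem _ _ (subset_span ⟨hz, hzM⟩), ?_⟩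
  refine (dist_pi_lt_iff hε).2 fun i => (dist_pi_lt_iff hε).2 fun o => ?_
  have h1 := Int.le_ceil (N * x i o + B)
  have h2 := Int.ceil_lt_add_one (N * x i o + B)
  have h3 : ((⟨N⁻¹, by positivity⟩ : ℝ≥0) • z) i o = (⌈N * x i o + B⌉ : ℤ) / N := by
    simp only [Pi.smul_apply, z]
    rw [div_eq_inv_mul]
    rfl
  rw [h3, Real.dist_eq, abs_lt]
  constructor
  · have h4 : ((⌈N * x i o + B⌉ : ℤ) : ℝ) / N < x i o + ε := by
      rw [div_lt_iff₀ hN]
      nlinarith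
    linarith
  · have h4 : x i o ≤ ((⌈N * x i o + B⌉ : ℤ) : ℝ) / N := by
      rw [le_div_iff₀ hN]
      nlinarith
    linarith

theorem st_min : St_MIN := by
  intro ι _ _ n r G ht hz hp Γ' hne hsub x hx
  obtain ⟨T₀, hT₀⟩ := hne
  have hf := (REAL.fin_ht G ht hz hp (G.eff_gen hx)).2 (ht (T₀ x))
  have hf' : {h | h ≤ ht (T₀ x) ∧ ∃ T ∈ Γ', h = ht (T x)}.Finite :=
    hf.subset fun h ⟨h1, T, hT, h2⟩ => ⟨h1, T, hsub hT, h2⟩
  obtain ⟨_, ⟨h1, T, hT, rfl⟩, hm⟩ := Set.exists_min_image _ id hf' ⟨_, le_rfl, T₀, hT₀, rfl⟩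
  refine ⟨T, hT, fun T' hT' => ?_⟩
  rcases le_total (ht (T' x)) (ht (T₀ x)) with h | h
  · exact hm _ ⟨h, T', hT', rfl⟩
  · exact h1.trans h

end Pool.Agent.Lib.MV.Lat
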