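import Pool.Agent.Lib.MV.LatBlue

open Set Submodule
open scoped NNReal

noncomputable section

namespace Pool.Agent.Lib.MV.Lat

open Pool.Agent.Lib.MP_e39d36_ag

namespace RPf

variable {ι : Type} [Fintype ι] [DecidableEq ι] {r : ι → ℕ}

lemma prod (G : (i : ι) → Set (F (r i))) (hG : ∀ i, (G i).Finite)
    (hZ : ∀ i, ∀ v ∈ G i, IsZ v) : RP {x : V r | ∀ i, x i ∈ span ℝ≥0 (G i)} := by
  refine ⟨⋃ i, sl i '' G i, finite_iUnion fun i => (hG i).image _, ?_, ?_⟩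
  · intro x hx
    obtain ⟨i, v, hv, rfl⟩ := mem_iUnion.1 hx
    exact isZV_sl (hZ i v hv)
  · ext x
    constructor
    · intro hx
      rw [← sum_sl x]
      refine Submodule.sum_mem _ fun i _ => ?_
      exact CG.map_mem_span (sl i) (s := G i) (E := span ℝ≥0 (⋃ i, sl i '' G i))
        (fun v hv => subset_span (mem_iUnion.2 ⟨i, mem_image_of_mem _ hv⟩)) (hx i)
    · intro hx i
      refine CG.map_mem_span (LinearMap.proj i : V r →ₗ[ℝ] F (r i)) (s := ⋃ i, sl i '' G i)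
        (E := span ℝ≥0 (G i)) ?_ hx
      intro v hv
      obtain ⟨j, w, hw, rfl⟩ := mem_iUnion.1 hv
      by_cases h : i = j
      · subst h
        rw [LinearMap.proj_apply, sl_self]
        exact subset_span hw
      · rw [LinearMap.proj_apply, sl_ne h]
        exact zero_mem _

/-- The coordinate functional of `f x - y`, with a sign. -/
def fn (f : Module.End ℝ (V r)) (p : (Σ i : ι, Option (Fin (r i))) × Bool) :
    Module.Dual ℝ (V r × V r) :=
  (if p.2 then (1 : ℝ) else -1) •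
    ((LinearMap.proj p.1.2 : F (r p.1.1) →ₗ[ℝ] ℝ) ∘ₗ
      (LinearMap.proj p.1.1 : V r →ₗ[ℝ] F (r p.1.1)) ∘ₗ
        (f ∘ₗ LinearMap.fst ℝ (V r) (V r) - LinearMap.snd ℝ (V r) (V r)))

omit [Fintype ι] [DecidableEq ι] in
lemma fn_apply (f : Module.End ℝ (V r)) (p : (Σ i : ι, Option (Fin (r i))) × Bool)
    (z : V r × V r) :
    fn f p z = (if p.2 then (1 : ℝ) else -1) * (f z.1 p.1.1 p.1.2 - z.2 p.1.1 p.1.2) := rfl

lemma one (f : Module.End ℝ (V r)) (C C' : Set (V r)) (hf : ∀ x, IsZV x → IsZV (f x))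
    (hC : RP C) (hC' : RP C') : RP {x | x ∈ C ∧ f x ∈ C'} := by
  obtain ⟨S₁, h1, z1, rfl⟩ := hC
  obtain ⟨S₂, h2, z2, rfl⟩ := hC'
  let S : Set (V r × V r) :=
    LinearMap.inl ℝ (V r) (V r) '' S₁ ∪ LinearMap.inr ℝ (V r) (V r) '' S₂
  have hS : S.Finite := (h1.image _).union (h2.image _)
  have hΛ : S ⊆ ((ZV r).prod (ZV r) : AddSubgroup (V r × V r)) := by
    rintro z (⟨v, hv, rfl⟩ | ⟨v, hv, rfl⟩)
    · exact ⟨mem_ZV.2 (z1 v hv), (ZV r).zero_mem⟩
    · exact ⟨(ZV r).zero_mem, mem_ZV.2 (z2 v hv)⟩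
  have hmem : ∀ z : V r × V r, z ∈ span ℝ≥0 S ↔ z.1 ∈ span ℝ≥0 S₁ ∧ z.2 ∈ span ℝ≥0 S₂ := by
    intro z
    constructor
    · intro hz
      constructor
      · refine CG.map_mem_span (LinearMap.fst ℝ (V r) (V r)) (s := S) (E := span ℝ≥0 S₁) ?_ hz
        rintro w (⟨v, hv, rfl⟩ | ⟨v, hv, rfl⟩)
        · exact subset_span hv
        · exact zero_mem _
      · refine CG.map_mem_span (LinearMap.snd ℝ (V r) (V r)) (s := S) (E := span ℝ≥0 S₂) ?_ hz
        rintro w (⟨v, hv, rfl⟩ | ⟨v, hv, rfl⟩)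
        · exact zero_mem _
        · exact subset_span hv
    · rintro ⟨ha, hb⟩
      have e : z = LinearMap.inl ℝ (V r) (V r) z.1 + LinearMap.inr ℝ (V r) (V r) z.2 := by
        simp
      rw [e]
      refine add_mem ?_ ?_
      · exact CG.map_mem_span (LinearMap.inl ℝ (V r) (V r)) (s := S₁) (E := span ℝ≥0 S)
          (fun v hv => subset_span (Or.inl ⟨v, hv, rfl⟩)) ha
      · exact CG.map_mem_span (LinearMap.inr ℝ (V r) (V r)) (s := S₂) (E := span ℝ≥0 S)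
          (fun v hv => subset_span (Or.inr ⟨v, hv, rfl⟩)) hb
  have hint : ∀ p ∈ (univ : Set ((Σ i : ι, Option (Fin (r i))) × Bool)),
      ∀ z ∈ ((ZV r).prod (ZV r) : AddSubgroup (V r × V r)), ∃ n : ℤ, fn f p z = n := by
    intro p _ z hz
    obtain ⟨a, ha⟩ := hf z.1 (mem_ZV.1 hz.1) p.1.1 p.1.2
    obtain ⟨b, hb⟩ := (mem_ZV.1 hz.2) p.1.1 p.1.2
    rw [fn_apply, ha, hb]
    by_cases h : p.2
    · exact ⟨a - b, by simp [h]⟩
    · exact ⟨b - a, by simp [h]⟩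
  obtain ⟨S', hS', hΛ', hiff⟩ :=
    CG.cuts ((ZV r).prod (ZV r)) univ finite_univ (fn f) hint S hS hΛ
  have hz : ∀ z : V r × V r, z ∈ span ℝ≥0 S' ↔
      (z.1 ∈ span ℝ≥0 S₁ ∧ z.2 ∈ span ℝ≥0 S₂) ∧ f z.1 = z.2 := by
    intro z
    rw [hiff, hmem]
    refine and_congr_right fun _ => ⟨fun h => ?_, fun h p _ => ?_⟩
    · funext i o
      have ht := h (⟨i, o⟩, true) trivial
      have hf' := h (⟨i, o⟩, false) trivial
      rw [fn_apply] at ht hf'
      simp only [if_true, Bool.false_eq_true, if_false] at ht hf'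
      linarith
    · rw [fn_apply, h, sub_self, mul_zero]
  refine ⟨LinearMap.fst ℝ (V r) (V r) '' S', hS'.image _, ?_, ?_⟩
  · rintro x ⟨z, hz', rfl⟩
    exact mem_ZV.1 (hΛ' hz').1
  · ext x
    constructor
    · rintro ⟨ha, hb⟩
      exact CG.map_mem_span (LinearMap.fst ℝ (V r) (V r)) (s := S')
        (E := span ℝ≥0 (LinearMap.fst ℝ (V r) (V r) '' S'))
        (fun v hv => subset_span ⟨v, hv, rfl⟩) ((hz (x, f x)).2 ⟨⟨ha, hb⟩, rfl⟩)
    · intro hx
      constructor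
      · refine (span_le.2 ?_ : span ℝ≥0 (LinearMap.fst ℝ (V r) (V r) '' S') ≤ span ℝ≥0 S₁) hx
        rintro y ⟨z, hz', rfl⟩
        exact ((hz z).1 (subset_span hz')).1.1
      · refine CG.map_mem_span f (s := LinearMap.fst ℝ (V r) (V r) '' S') (E := span ℝ≥0 S₂) ?_ hx
        rintro y ⟨z, hz', rfl⟩
        have h := (hz z).1 (subset_span hz')
        have e : f (LinearMap.fst ℝ (V r) (V r) z) = z.2 := h.2
        rw [e]
        exact h.1.2

lemma many {α : Type} (T : Set α) (hT : T.Finite) (f : α → Module.End ℝ (V r))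
    (C C' : Set (V r)) (hf : ∀ t ∈ T, ∀ x, IsZV x → IsZV (f t x)) (hC : RP C) (hC' : RP C') :
    RP {x | x ∈ C ∧ ∀ t ∈ T, f t x ∈ C'} := by
  induction T, hT using Set.Finite.induction_on with
  | empty => simpa using hC
  | @insert j T _ hT ih =>
    have h1 := ih fun t ht => hf t (mem_insert_of_mem _ ht)
    have h2 := one (f j) _ C' (hf j (mem_insert _ _)) h1 hC'
    have e : {x | x ∈ C ∧ ∀ t ∈ insert j T, f t x ∈ C'} =
        {x | x ∈ {x | x ∈ C ∧ ∀ t ∈ T, f t x ∈ C'} ∧ f j x ∈ C'} := by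
      ext x
      simp only [mem_ofPred_eq, forall_mem_insert]
      tauto
    rw [e]
    exact h2

end RPf

theorem st_rp : St_RP := fun _ _ _ _ =>
  ⟨fun G hG hZ => RPf.prod G hG hZ,
    fun _ T hT f C C' hf hC hC' => RPf.many T hT f C C' hf hC hC'⟩

end Pool.Agent.Lib.MV.Lat
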