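import Pool.Agent.Lib.MV.L_CELL
import Pool.Agent.Lib.MV.L_CONIC
import Pool.Agent.Lib.MV.L_GRP
import Pool.Agent.Lib.MV.L_HODGE
import Pool.Agent.Lib.MV.L_LAT
import Pool.Agent.Lib.MV.L_LPOS
import Pool.Agent.Lib.MV.L_MKE
import Pool.Agent.Lib.MV.L_PM
import Pool.Agent.Lib.MV.L_PS
import Pool.Agent.Lib.MV.L_REAL
import Pool.Agent.Lib.MV.L_RED
import Pool.Agent.Lib.MV.L_RP
import Pool.Agent.Lib.MV.L_SPL

namespace Pool.Agent.Lib.MV.Lat

theorem lat : St_LAT :=
  have hV := st_vh st_grp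
  have hE := st_ebe hV st_mke
  have hP := st_lpos st_grp hE st_mke
  have hC := st_cell st_fin st_mke
  st_lat st_fin st_mke hC st_rp hV hE (st_red st_min st_grp hP) (st_lv st_grp hP hC st_mke)
    (st_pm st_fin st_real hV (st_spl (st_ll st_hodge) st_conic) st_mke) (st_ps st_real hV st_mke)

end Pool.Agent.Lib.MV.Lat
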