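import Pool.Agent.Lib.MV.L2_CELL
import Pool.Agent.Lib.MV.L2_HVR
import Pool.Agent.Lib.MV.L2_LAT
import Pool.Agent.Lib.MV.L2_NUM
import Pool.Agent.Lib.MV.L2_PM
import Pool.Agent.Lib.MV.L2_PS
import Pool.Agent.Lib.MV.L2_RED
import Pool.Agent.Lib.MV.L2_SPL
import Pool.Agent.Lib.MV.L_ALL

namespace Pool.Agent.Lib.MV.Lat

theorem lpos7 : St_LPOS7 := st_lpos7 st_grp (st_ebe (st_vh st_grp) st_mke) st_mke st_mke7

theorem hvr : St_HVR :=
  st_hvr st_num st_grp (st_vh st_grp) lpos7 (st_cell7 st_fin st_mke7) st_mke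

theorem red7 : St_RED7 := st_red7 st_min st_grp lpos7

theorem pm7 : St_PM7 := st_pm7 st_fin st_real (st_vh st_grp) (st_spl7 st_hodge) st_mke

theorem ps7 : St_PS7 := st_ps7 st_fin st_real (st_vh st_grp) (st_spl7 st_hodge) st_mke lpos7
  (st_ebe (st_vh st_grp) st_mke)

theorem lat7 : St_LAT7 := st_lat7 st_fin st_mke (st_cell7 st_fin st_mke7) st_rp
  (st_ebe (st_vh st_grp) st_mke) red7 pm7 ps7 lpos7

end Pool.Agent.Lib.MV.Lat
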