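import Pool.Agent.Lib.MV.LatBlue

open Set Submodule
open scoped NNReal

noncomputable section

namespace Pool.Agent.Lib.MV.Lat

/-- The numbers of points for which the cell is larger than the effective cone. -/
def Bad (m : ℕ) : Prop := m = 4 ∨ m = 5 ∨ m = 7

/-- The weight in the wall inequality. -/
def cc (m : ℕ) : ℝ := if m = 7 then 2 else 1

/-- The numerical hypotheses. -/
structure Ok7 {ι : Type} (n r : ι → ℕ) : Prop where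
  n1 : ∀ i, 1 ≤ n i
  r7 : ∀ i, r i ≤ 7
  n2 : ∀ i, 0 < r i → n i = 2
  two : ∀ i : ι, ∃ j, j ≠ i
  ex : ∃ i, 0 < r i

/-- Standard classes of a marking lie in the effective cone. -/
def St_MKE7 : Prop := (∀ (r : ℕ), r ≤ 7 → kk 2 r ∈ Eb r) ∧
  ∀ (r : ℕ), 2 ≤ r → ∀ (H : F r) (e : Fin r → F r), IsMk H e →
    H ∈ Eb r ∧ (∀ a, H - e a ∈ Eb r) ∧ (∀ a, Line (e a)) ∧ ∀ a b, a ≠ b → Line (H - e a - e b)

/-- The cell lies in the effective cone, with exceptions. -/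
def St_CELL7 : Prop := ∀ (r : ℕ), 1 ≤ r → r ≤ 7 → ∀ x : F r, Cell x →
  x ∈ Eb r ∨ (Bad r ∧ ∃ H e, IsMk H e ∧ x ∈ Sh H e)

/-- Splitting off a line. -/
def St_SPL7 : Prop := ∀ (r : ℕ), r ≤ 7 → ∀ (C : Submodule ℝ≥0 (F r)) (e : F r), Line e →
  (∀ g, Line g → g ≠ e → g ∈ C) → (∀ o, hh o ∈ C) → ∀ x ∈ Eb r,
    x - max 0 (-dot x e) • e ∈ C

/-- The fibre degree is nonnegative on pseudo-effective classes. -/
def St_LPOS7 : Prop := ∀ (ι : Type) [Fintype ι] [DecidableEq ι] (n r : ι → ℕ) (G : Geo n r),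
  Ok7 n r → (∀ i, InEb (kW n r i)) ∧
    ∀ i, 0 < r i → ∀ x ∈ closure (G.Eff : Set (V r)), 0 ≤ dot (x i) (kk 2 (r i))

/-- Reduction of an effective class to the cell. -/
def St_RED7 : Prop := ∀ (ι : Type) [Fintype ι] [DecidableEq ι] (n r : ι → ℕ) (G : Geo n r),
  Ok7 n r → ∀ x ∈ G.Eff, ∃ T ∈ G.Γ, ∃ T' ∈ G.Γ, T' * T = 1 ∧ (∀ i, 0 < r i → Cell (T x i)) ∧
    ∀ j, r j = 0 → 0 ≤ T x j none

/-- The main cone is movable. -/
def St_PM7 : Prop := ∀ (ι : Type) [Fintype ι] [DecidableEq ι] (n r : ι → ℕ) (G : Geo n r),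
  Ok7 n r → ∀ x : V r, InEb x → (∀ i e, Line e → InEb (Bf n i e x)) → x ∈ G.Mov

/-- The exceptional cones are movable and effective. -/
def St_PS7 : Prop := ∀ (ι : Type) [Fintype ι] [DecidableEq ι] (n r : ι → ℕ) (G : Geo n r),
  Ok7 n r → ∀ i, Bad (r i) → ∀ (H : F (r i)) (e : Fin (r i) → F (r i)), IsMk H e →
    ∀ x : V r, x i ∈ Sh H e → (∀ a, InEb (Bf n i (e a) x)) →
    (r i ≠ 5 → InEb (Bf n i (∑ a, e a - cc (r i) • H) x)) →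
    (∀ j, j ≠ i → ∀ v, Line v → 0 ≤ cc (r i) * dot (x j) v + dot (x i) H) →
    x ∈ G.Mov ∧ x ∈ G.Eff

/-- Restrictions of movable classes to sections. -/
def HV {ι : Type} [Fintype ι] [DecidableEq ι] {n r : ι → ℕ} (G : Geo n r) : Prop :=
  ∀ x ∈ G.Mov, ∀ i, 0 < r i → ∀ v : F (r i), IsZ v → dot v (kk 2 (r i)) = 1 → InEb (Bf n i v x)

/-- The wall inequalities. -/
def HR {ι : Type} [Fintype ι] [DecidableEq ι] {n r : ι → ℕ} (G : Geo n r) : Prop :=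
  ∀ x ∈ G.Mov, ∀ i j, j ≠ i → Bad (r i) → ∀ (H : F (r i)) (e : Fin (r i) → F (r i)), IsMk H e →
    ∀ v, Line v → 0 ≤ cc (r i) * dot (x j) v + dot (x i) H

/-- The result of the lattice part. -/
def St_LAT7 : Prop := ∀ (ι : Type) [Fintype ι] [DecidableEq ι] (n r : ι → ℕ) (G : Geo n r),
  Ok7 n r → HV G → HR G → ∃ S : Set (V r), S.Finite ∧ (∀ x ∈ S, IsZV x ∧ x ∈ G.Mov ∧ x ∈ G.Eff) ∧
    ∀ x ∈ G.Mov, x ∈ G.Eff → ∃ T ∈ G.Γ, ∃ y ∈ span ℝ≥0 S, T y = x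

/-- Subtracting sections. -/
def St_SUBL : Prop := ∀ (ι : Type) [Fintype ι] [DecidableEq ι] (n r : ι → ℕ) (i : ι), Bad (r i) →
  ∀ (H : F (r i)) (e : Fin (r i) → F (r i)), IsMk H e → ∀ (ψ : V r →ₗ[ℝ] ℝ), ψ (kW n r i) = 1 →
    (∀ v, ψ (sl i v) = 0) → ∀ x : V r,
    (∀ (J : Type) [Fintype J] (v : J → F (r i)), Function.Injective v → (∀ a, IsZ (v a)) →
      (∀ a, dot (v a) (kk 2 (r i)) = 1) → ∃ m : J → ℝ,
      0 ≤ dot ((x - ∑ a, m a • vh n i (v a)) i) (kk 2 (r i)) ∧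
      ∀ b, 0 ≤ ψ (Bf n i (v b) (x - ∑ a, m a • vh n i (v a)))) →
    0 ≤ cc (r i) * ψ x + dot (x i) H

end Pool.Agent.Lib.MV.Lat
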