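import Pool.Agent.Lib.MV.LatDefs

open Set Submodule
open scoped NNReal

noncomputable section

namespace Pool.Agent.Lib.MV.Lat

/-- Hodge index inequality and definiteness on the orthogonal complement of `k`. -/
def St_HODGE : Prop := ∀ (r : ℕ), r ≤ 8 → ∀ y : F r,
  dot y y * (9 - r) ≤ dot y (kk 2 r) ^ 2 ∧ (dot y (kk 2 r) = 0 → dot y y = 0 → y = 0)

/-- Finitely many lattice points of given degree and square. -/
def St_FIN : Prop := ∀ (r : ℕ), r ≤ 8 → ∀ c s : ℝ,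
  {v : F r | IsZ v ∧ dot v (kk 2 r) = c ∧ dot v v = s}.Finite

/-- Two different lines have product zero or one. -/
def St_LL : Prop := ∀ (r : ℕ), r ≤ 6 → ∀ g e : F r, Line g → Line e → g ≠ e →
  dot g e = 0 ∨ dot g e = 1

/-- A reducible conic is a basis pencil or has a second reducible member. -/
def St_CONIC : Prop := ∀ (r : ℕ), r ≤ 6 → ∀ g e : F r, Line g → Line e → dot g e = 1 →
  (∃ a, g + e = hh (some a)) ∨ ∃ g', Line g' ∧ g' ≠ g ∧ g' ≠ e ∧ dot g' (g + e) = 0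

/-- Standard classes of a marking lie in the effective cone. -/
def St_MKE : Prop := (∀ (r : ℕ), r ≤ 6 → kk 2 r ∈ Eb r) ∧
  (∀ (r : ℕ), r = 0 → (∀ x : F r, x ∈ Eb r ↔ 0 ≤ x none) ∧ (∀ x : F r, x = x none • hh none) ∧
    ∀ x : F r, ¬ Line x) ∧
  ∀ (r : ℕ), 2 ≤ r → r ≤ 6 → ∀ (H : F r) (e : Fin r → F r), IsMk H e →
    H ∈ Eb r ∧ (∀ a, H - e a ∈ Eb r) ∧ (∀ a, Line (e a)) ∧ ∀ a b, a ≠ b → Line (H - e a - e b)

/-- The cell lies in the effective cone, with exceptions for four and five points. -/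
def St_CELL : Prop := ∀ (r : ℕ), 1 ≤ r → r ≤ 6 → ∀ x : F r, Cell x →
  x ∈ Eb r ∨ ((r = 4 ∨ r = 5) ∧ ∃ H e, IsMk H e ∧ x ∈ Sh H e)

/-- Splitting off a line. -/
def St_SPL : Prop := ∀ (r : ℕ), r ≤ 6 → ∀ (C : Submodule ℝ≥0 (F r)) (e : F r), Line e →
  (∀ g, Line g → g ≠ e → g ∈ C) → (∀ o, hh o ∈ C) → ∀ x ∈ Eb r,
    x - max 0 (-dot x e) • e ∈ C

/-- Cones generated by finitely many lattice points. -/
def RP {ι : Type} {r : ι → ℕ} (C : Set (V r)) : Prop :=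
  ∃ S : Set (V r), S.Finite ∧ (∀ x ∈ S, IsZV x) ∧ C = span ℝ≥0 S

/-- Products, and intersections with preimages. -/
def St_RP : Prop := ∀ (ι : Type) [Fintype ι] [DecidableEq ι] (r : ι → ℕ),
  (∀ G : (i : ι) → Set (F (r i)), (∀ i, (G i).Finite) → (∀ i, ∀ v ∈ G i, IsZ v) →
    RP {x : V r | ∀ i, x i ∈ span ℝ≥0 (G i)}) ∧
  ∀ (α : Type) (T : Set α), T.Finite → ∀ (f : α → Module.End ℝ (V r)) (C C' : Set (V r)),
    (∀ t ∈ T, ∀ x, IsZV x → IsZV (f t x)) → RP C → RP C' → RP {x | x ∈ C ∧ ∀ t ∈ T, f t x ∈ C'}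

/-- A real class that is free in finitely many ways is a limit of free lattice classes. -/
def St_REAL : Prop := ∀ (ι : Type) [Fintype ι] [DecidableEq ι] (r : ι → ℕ) (α : Type) (T : Set α),
  T.Finite → ∀ M : α → AddSubmonoid (V r), (∀ t ∈ T, ∀ y ∈ M t, IsZV y) →
  (∀ t ∈ T, ∀ i o, sl i (hh o) ∈ M t) → ∀ x : V r, (∀ t ∈ T, x ∈ span ℝ≥0 (M t : Set (V r))) →
    x ∈ closure (span ℝ≥0 {y | IsZV y ∧ ∀ t ∈ T, y ∈ M t} : Set (V r))

/-- An integral height has a minimum on the orbit of an effective class. -/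
def St_MIN : Prop := ∀ (ι : Type) [Fintype ι] [DecidableEq ι] (n r : ι → ℕ) (G : Geo n r)
  (ht : V r →ₗ[ℝ] ℝ), (∀ x, IsZV x → ∃ z : ℤ, ht x = z) → (∀ x ∈ G.Eff, 0 ≤ ht x) →
  ∀ (Γ' : Set (Module.End ℝ (V r))), Γ'.Nonempty → Γ' ⊆ G.Γ → ∀ x ∈ G.Eff,
    ∃ T ∈ Γ', ∀ T' ∈ Γ', ht (T x) ≤ ht (T' x)

/-- Group law, and all involutions and translations are pull-backs. -/
def St_GRP : Prop := ∀ (ι : Type) [Fintype ι] [DecidableEq ι] (n r : ι → ℕ),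
  (∀ (i : ι) (γ : F (r i)), dot γ (kk 2 (r i)) = 2 → sig n i γ * sig n i γ = 1) ∧
  (∀ (i : ι) (α : F (r i)), dot α (kk 2 (r i)) = 0 → tau n i (-α) * tau n i α = 1) ∧
  (∀ j, iot n (r := r) j * iot n j = 1) ∧
  ∀ (G : Geo n r) (i : ι), 0 < r i → (∀ γ, IsZ γ → dot γ (kk 2 (r i)) = 2 → sig n i γ ∈ G.Γ) ∧
    ∀ α, IsZ α → dot α (kk 2 (r i)) = 0 → tau n i α ∈ G.Γ

/-- The sections. -/
def St_VH : Prop := ∀ (ι : Type) [Fintype ι] [DecidableEq ι] (n r : ι → ℕ) (G : Geo n r) (i : ι),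
  0 < r i → ∀ v : F (r i), IsZ v → dot v (kk 2 (r i)) = 1 →
    vh n i v ∈ G.Eff ∧ (∀ E, G.pc E ≠ vh n i v → vh n i v ∈ G.Fr E) ∧
    (∀ E, (6 : ℝ) • (vh n i v + kW n r i) ∈ G.Fr E) ∧
    ∀ x ∈ G.Mov, Bf n i v x ∈ closure (G.Eff : Set (V r))

/-- The product cone is effective. -/
def St_EBE : Prop := ∀ (ι : Type) [Fintype ι] [DecidableEq ι] (n r : ι → ℕ) (G : Geo n r)
  (x : V r), InEb x → x ∈ G.Eff

/-- The fibre degree is nonnegative on pseudo-effective classes. -/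
def St_LPOS : Prop := ∀ (ι : Type) [Fintype ι] [DecidableEq ι] (n r : ι → ℕ) (G : Geo n r),
  Ok n r → ∀ i, 0 < r i → ∀ x ∈ closure (G.Eff : Set (V r)), 0 ≤ dot (x i) (kk 2 (r i))

/-- Reduction of an effective class to the cell. -/
def St_RED : Prop := ∀ (ι : Type) [Fintype ι] [DecidableEq ι] (n r : ι → ℕ) (G : Geo n r),
  Ok n r → ∀ x ∈ G.Eff, ∃ T ∈ G.Γ, ∃ T' ∈ G.Γ, T' * T = 1 ∧ (∀ i, 0 < r i → Cell (T x i)) ∧
    ∀ j, r j = 0 → 0 ≤ T x j none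

/-- Vertical pseudo-effective classes. -/
def St_LV : Prop := ∀ (ι : Type) [Fintype ι] [DecidableEq ι] (n r : ι → ℕ) (G : Geo n r),
  Ok n r → ∀ i, 0 < r i → ∀ x ∈ closure (G.Eff : Set (V r)), x i = 0 → InEb x

/-- The main cone is movable. -/
def St_PM : Prop := ∀ (ι : Type) [Fintype ι] [DecidableEq ι] (n r : ι → ℕ) (G : Geo n r),
  Ok n r → ∀ x : V r, InEb x → (∀ i e, Line e → InEb (Bf n i e x)) → x ∈ G.Mov

/-- The exceptional cones are movable and effective. -/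
def St_PS : Prop := ∀ (ι : Type) [Fintype ι] [DecidableEq ι] (n r : ι → ℕ) (G : Geo n r),
  ∀ i, (r i = 4 ∨ r i = 5) → (∀ j, j ≠ i → r j = 0) →
  ∀ (H : F (r i)) (e : Fin (r i) → F (r i)), IsMk H e → ∀ x : V r, x i ∈ Sh H e →
    (∀ a, InEb (Bf n i (e a) x)) → (r i = 4 → InEb (Bf n i (∑ a, e a - H) x)) →
    x ∈ G.Mov ∧ x ∈ G.Eff

/-- The result of the lattice part. -/
def St_LAT : Prop := ∀ (ι : Type) [Fintype ι] [DecidableEq ι] (n r : ι → ℕ) (G : Geo n r),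
  Ok n r → ∃ S : Set (V r), S.Finite ∧ (∀ x ∈ S, IsZV x ∧ x ∈ G.Mov ∧ x ∈ G.Eff) ∧
    ∀ x ∈ G.Mov, x ∈ G.Eff → ∃ T ∈ G.Γ, ∃ y ∈ span ℝ≥0 S, T y = x

end Pool.Agent.Lib.MV.Lat
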