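import Pool.Agent.Lib.MP_e39d36_ag.CG1

open Set Submodule
open scoped NNReal

set_option linter.unusedSectionVars false

noncomputable section

namespace Pool.Agent.Lib.MV.Lat

/-- Coordinates on one factor, in the basis `H` (index `none`) and `h_a = H - e_a`. -/
abbrev F (r : ℕ) : Type := Option (Fin r) → ℝ

section one

variable {r : ℕ}

/-- Degree, the product with `H`. -/
def dg (x : F r) : ℝ := x none + ∑ a, x (some a)

/-- The intersection form. -/
def dot : F r →ₗ[ℝ] F r →ₗ[ℝ] ℝ :=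
  LinearMap.mk₂ ℝ (fun x y => dg x * dg y - ∑ a, x (some a) * y (some a))
    (fun x x' y => by simp only [dg, Pi.add_apply, Finset.sum_add_distrib, add_mul]; ring)
    (fun c x y => by
      simp only [dg, Pi.smul_apply, smul_eq_mul, mul_assoc, ← Finset.mul_sum]; ring)
    (fun x y y' => by simp only [dg, Pi.add_apply, Finset.sum_add_distrib, mul_add]; ring)
    (fun c x y => by
      simp only [dg, Pi.smul_apply, smul_eq_mul, mul_left_comm _ c, ← Finset.mul_sum]; ring)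

/-- The anticanonical class `(n+1) H - sum e_a`. -/
def kk (n r : ℕ) : F r := fun o => o.elim ((n : ℝ) + 1 - r) fun _ => 1

/-- Basis vectors. -/
def hh (o : Option (Fin r)) : F r := Pi.single o 1

/-- Exceptional classes. -/
def ee (a : Fin r) : F r := hh none - hh (some a)

/-- Lattice points. -/
def IsZ (x : F r) : Prop := ∀ o, ∃ z : ℤ, x o = z

/-- Classes of lines. -/
def Line (v : F r) : Prop := IsZ v ∧ dot v v = -1 ∧ dot v (kk 2 r) = 1

/-- Generators of the effective cone of one factor. -/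
def Gen (r : ℕ) : Set (F r) := {v | Line v ∨ (r ≤ 1 ∧ ∃ o, v = hh o)}

/-- The effective cone of one factor. -/
def Eb (r : ℕ) : Submodule ℝ≥0 (F r) := span ℝ≥0 (Gen r)

/-- The wall vector of `γ`. -/
def NN (γ : F r) : F r := γ - (dot γ γ / 2) • kk 2 r

/-- The Voronoi type cell. -/
def Cell (x : F r) : Prop :=
  ∀ γ, IsZ γ → (dot γ (kk 2 r) = 0 ∨ dot γ (kk 2 r) = 2) → 0 ≤ dot x (NN γ)

/-- Markings. -/
structure IsMk (H : F r) (e : Fin r → F r) : Prop where
  zH : IsZ H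
  ze : ∀ a, IsZ (e a)
  HH : dot H H = 1
  He : ∀ a, dot H (e a) = 0
  ee : ∀ a b, dot (e a) (e b) = if a = b then -1 else 0
  kk : kk 2 r = (3 : ℝ) • H - ∑ a, e a
  exp : ∀ x, x = dot x H • H - ∑ a, dot x (e a) • e a

/-- The exceptional simplicial cone of a marking. -/
def Sh (H : F r) (e : Fin r → F r) : Submodule ℝ≥0 (F r) :=
  span ℝ≥0 (insert (∑ a, e a - H) (range e))

lemma dot_apply (x y : F r) : dot x y = dg x * dg y - ∑ a, x (some a) * y (some a) := rfl

lemma dot_comm (x y : F r) : dot x y = dot y x := by simp only [dot_apply, mul_comm]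

lemma dg_hh (o : Option (Fin r)) : dg (hh o) = 1 := by
  cases o <;> simp [dg, hh, Pi.single_apply]

lemma dg_ee (a : Fin r) : dg (ee a) = 0 := by
  simp [dg, ee, hh, Pi.single_apply]

lemma dg_kk (n : ℕ) : dg (kk n r) = n + 1 := by simp [dg, kk]

lemma dot_H (x : F r) : dot x (hh none) = dg x := by
  rw [dot_apply, dg_hh]; simp [hh]

lemma dot_h (x : F r) (a : Fin r) : dot x (hh (some a)) = dg x - x (some a) := by
  rw [dot_apply, dg_hh]; simp [hh, Pi.single_apply]

lemma dot_e (x : F r) (a : Fin r) : dot x (ee a) = x (some a) := by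
  rw [ee, map_sub, dot_H, dot_h]; ring

lemma dot_k (x : F r) (n : ℕ) : dot x (kk n r) = (n + 1) * dg x - ∑ a, x (some a) := by
  rw [dot_apply, dg_kk]; simp [kk, mul_comm]

lemma dot_kk (n : ℕ) : dot (kk n r) (kk n r) = (n + 1) ^ 2 - r := by
  rw [dot_k, dg_kk]; simp [kk, sq]

lemma dot_HH : dot (hh none : F r) (hh none) = 1 := by rw [dot_H, dg_hh]

lemma dot_He (a : Fin r) : dot (hh none) (ee a) = 0 := by rw [dot_e]; simp [hh]

lemma dot_ee (a b : Fin r) : dot (ee a) (ee b) = if a = b then -1 else 0 := by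
  rw [dot_e]; by_cases h : a = b <;> simp [ee, hh, h, eq_comm]

lemma dot_Hk (n : ℕ) : dot (hh none : F r) (kk n r) = n + 1 := by rw [dot_comm, dot_H, dg_kk]

lemma dot_ek (n : ℕ) (a : Fin r) : dot (ee a) (kk n r) = 1 := by rw [dot_comm, dot_e]; rfl

lemma hh_some (a : Fin r) : hh (some a) = hh none - ee a := by simp [ee]

lemma kk_eq (n : ℕ) : kk n r = ((n : ℝ) + 1) • hh none - ∑ a, ee a := by
  funext o
  cases o <;> simp [kk, hh, ee, Finset.sum_apply, Pi.single_apply]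

lemma expand (x : F r) : x = dot x (hh none) • hh none - ∑ a, dot x (ee a) • ee a := by
  simp only [dot_H, dot_e]
  funext o
  cases o <;> simp [dg, hh, ee, Finset.sum_apply, Pi.single_apply]

/-- The lattice of one factor. -/
def ZF (r : ℕ) : AddSubgroup (F r) where
  carrier := {x | IsZ x}
  zero_mem' := fun _ => ⟨0, by simp⟩
  add_mem' := fun hx hy o => by
    obtain ⟨a, ha⟩ := hx o
    obtain ⟨b, hb⟩ := hy o
    exact ⟨a + b, by simp [ha, hb]⟩
  neg_mem' := fun hx o => by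
    obtain ⟨a, ha⟩ := hx o
    exact ⟨-a, by simp [ha]⟩

lemma IsZ.add {x y : F r} (hx : IsZ x) (hy : IsZ y) : IsZ (x + y) := (ZF r).add_mem hx hy

lemma IsZ.neg {x : F r} (hx : IsZ x) : IsZ (-x) := (ZF r).neg_mem hx

lemma IsZ.sub {x y : F r} (hx : IsZ x) (hy : IsZ y) : IsZ (x - y) := (ZF r).sub_mem hx hy

lemma IsZ.sum {α : Type*} {s : Finset α} {f : α → F r} (h : ∀ a ∈ s, IsZ (f a)) :
    IsZ (∑ a ∈ s, f a) := (ZF r).sum_mem h

lemma IsZ.smul {x : F r} (hx : IsZ x) {c : ℝ} (hc : ∃ z : ℤ, c = z) : IsZ (c • x) := by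
  obtain ⟨z, rfl⟩ := hc
  rw [Int.cast_smul_eq_zsmul]
  exact (ZF r).zsmul_mem hx z

lemma isZ_zero : IsZ (0 : F r) := (ZF r).zero_mem

lemma isZ_hh (o : Option (Fin r)) : IsZ (hh o) := fun o' => by
  by_cases h : o' = o
  · exact ⟨1, by simp [hh, h]⟩
  · exact ⟨0, by simp [hh, h]⟩

lemma isZ_ee (a : Fin r) : IsZ (ee a) := (isZ_hh _).sub (isZ_hh _)

lemma isZ_kk (n : ℕ) : IsZ (kk n r) := fun o => by
  cases o
  · exact ⟨n + 1 - r, by simp [kk]⟩
  · exact ⟨1, by simp [kk]⟩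

lemma IsZ.dot {x y : F r} (hx : IsZ x) (hy : IsZ y) : ∃ z : ℤ, dot x y = z := by
  choose a ha using hx
  choose b hb using hy
  exact ⟨(a none + ∑ c, a (some c)) * (b none + ∑ c, b (some c)) - ∑ c, a (some c) * b (some c),
    by simp [dot_apply, dg, ha, hb]⟩

lemma isMk_std : IsMk (hh none : F r) ee :=
  ⟨isZ_hh _, isZ_ee, dot_HH, dot_He, dot_ee, by rw [kk_eq]; norm_num, expand⟩

lemma IsMk.line {H : F r} {e : Fin r → F r} (h : IsMk H e) (a : Fin r) : Line (e a) :=
  ⟨h.ze a, by simp [h.ee], by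
    rw [h.kk, map_sub, map_smul, map_sum, dot_comm, h.He]
    simp [h.ee]⟩

lemma IsMk.Hk {H : F r} {e : Fin r → F r} (h : IsMk H e) : dot H (Lat.kk 2 r) = 3 := by
  rw [h.kk, map_sub, map_smul, map_sum, h.HH]
  simp [h.He]

lemma IsMk.sq {H : F r} {e : Fin r → F r} (h : IsMk H e) :
    dot (∑ a, e a - H) (∑ a, e a - H) = 1 - r := by
  simp only [map_sub, map_sum, LinearMap.sub_apply, LinearMap.sum_apply, h.ee, h.HH, h.He,
    dot_comm _ H]
  simp
  ring

lemma IsMk.apex_k {H : F r} {e : Fin r → F r} (h : IsMk H e) :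
    dot (∑ a, e a - H) (Lat.kk 2 r) = r - 3 := by
  rw [map_sub, map_sum, LinearMap.sub_apply, LinearMap.sum_apply, h.Hk]
  simp [(h.line _).2.2]

lemma IsMk.apex_e {H : F r} {e : Fin r → F r} (h : IsMk H e) (b : Fin r) :
    dot (∑ a, e a - H) (e b) = -1 := by
  rw [map_sub, map_sum, LinearMap.sub_apply, LinearMap.sum_apply, h.He]
  simp [h.ee]

lemma gen_int {v : F r} (h : v ∈ Gen r) : IsZ v := by
  rcases h with h | ⟨-, o, rfl⟩
  exacts [h.1, isZ_hh o]

lemma Line.mem_Eb {v : F r} (h : Line v) : v ∈ Eb r := subset_span (Or.inl h)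

lemma line_ee (a : Fin r) : Line (ee a) := ⟨isZ_ee a, by simp [dot_ee], dot_ek 2 a⟩

end one

section all

variable {ι : Type} [Fintype ι] [DecidableEq ι]

/-- Coordinates on the product. -/
abbrev V (r : ι → ℕ) : Type := (i : ι) → F (r i)

variable (n r : ι → ℕ)

/-- The numerical hypotheses. -/
structure Ok : Prop where
  n1 : ∀ i, 1 ≤ n i
  r6 : ∀ i, r i ≤ 6
  n2 : ∀ i, 0 < r i → n i = 2
  two : ∀ i : ι, ∃ j, j ≠ i
  ex : ∃ i, 0 < r i
  hC : (∀ i, r i ≠ 4 ∧ r i ≠ 5) ∨ ∀ i j, 0 < r i → 0 < r j → i = j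

/-- The anticanonical class of the product of the other factors. -/
def kW (i : ι) : V r := Function.update (fun j => kk (n j) (r j)) i 0

/-- The lattice of the product. -/
def ZV : AddSubgroup (V r) := AddSubgroup.pi univ fun i => ZF (r i)

variable {r}

/-- The inclusion of one factor. -/
def sl (i : ι) : F (r i) →ₗ[ℝ] V r := LinearMap.single ℝ (fun i => F (r i)) i

/-- Lattice points. -/
def IsZV (x : V r) : Prop := ∀ i, IsZ (x i)

lemma mem_ZV {x : V r} : x ∈ ZV r ↔ IsZV x := ⟨fun h i => h i trivial, fun h i _ => h i⟩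

/-- The product of the effective cones of the factors. -/
def InEb (x : V r) : Prop := ∀ j, x j ∈ Eb (r j)

/-- Act by `A` on the factor `i` and add `φ` times the class `kW i`. -/
def mv (i : ι) (A : Module.End ℝ (F (r i))) (φ : F (r i) →ₗ[ℝ] ℝ) : Module.End ℝ (V r) where
  toFun x := Function.update x i (A (x i)) + φ (x i) • kW n r i
  map_add' x y := by
    funext j
    by_cases h : j = i
    · subst h; simp [kW]
    · simp [kW, h, add_smul]; abel
  map_smul' c x := by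
    funext j
    by_cases h : j = i
    · subst h; simp [kW]
    · simp [kW, h, smul_smul]

/-- The involution attached to `γ`. -/
def sig (i : ι) (γ : F (r i)) : Module.End ℝ (V r) :=
  mv n i ((dot (kk 2 (r i))).smulRight γ - 1) (dot (NN γ))

/-- The translation attached to `α`. -/
def tau (i : ι) (α : F (r i)) : Module.End ℝ (V r) :=
  mv n i (1 + (dot (kk 2 (r i))).smulRight α) (dot (NN (-α)))

/-- The involution attached to a projective line. -/
def iot (j : ι) : Module.End ℝ (V r) := mv n j (-1) (dot (hh none))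

/-- Restriction to the section of class `v`. -/
def Bf (i : ι) (v : F (r i)) : Module.End ℝ (V r) :=
  mv n i 0 (dot (v - ((dot v v + 1) / 2) • kk 2 (r i)))

/-- The class of the section attached to `v`. -/
def vh (i : ι) (v : F (r i)) : V r := sl i v - ((dot v v + 1) / 2) • kW n r i

variable {n}

lemma kW_self (i : ι) : kW n r i i = 0 := by simp [kW]

lemma kW_ne {i j : ι} (h : j ≠ i) : kW n r i j = kk (n j) (r j) := by simp [kW, h]

lemma isZV_kW (i : ι) : IsZV (kW n r i) := fun j => by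
  by_cases h : j = i
  · subst h; rw [kW_self]; exact isZ_zero
  · rw [kW_ne h]; exact isZ_kk _

lemma sl_self (i : ι) (v : F (r i)) : sl i v i = v := by simp [sl]

lemma sl_ne {i j : ι} (h : j ≠ i) (v : F (r i)) : sl i v j = 0 := by simp [sl, h]

lemma sum_sl (x : V r) : ∑ i, sl i (x i) = x := by simp [sl, Finset.univ_sum_single]

lemma isZV_sl {i : ι} {v : F (r i)} (h : IsZ v) : IsZV (sl i v) := fun j => by
  by_cases hj : j = i
  · subst hj; rwa [sl_self]
  · rw [sl_ne hj]; exact isZ_zero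

section mv

variable {i j : ι} {A A' : Module.End ℝ (F (r i))} {φ φ' : F (r i) →ₗ[ℝ] ℝ}

lemma mv_apply (x : V r) : mv n i A φ x = Function.update x i (A (x i)) + φ (x i) • kW n r i := rfl

lemma mv_self (x : V r) : mv n i A φ x i = A (x i) := by simp [mv_apply, kW]

lemma mv_ne (h : j ≠ i) (x : V r) : mv n i A φ x j = x j + φ (x i) • kk (n j) (r j) := by
  simp [mv_apply, kW, h]

lemma mv_mul : mv n i A φ * mv n i A' φ' = mv n i (A * A') (φ' + φ ∘ₗ A') := by
  refine LinearMap.ext fun x => funext fun j => ?_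
  by_cases h : j = i
  · subst h; simp [mv_self]
  · simp [mv_self, mv_ne h, add_smul, add_assoc]

lemma mv_one : mv n i 1 0 = (1 : Module.End ℝ (V r)) :=
  LinearMap.ext fun x => by simp [mv_apply]

lemma mv_sl (v : F (r i)) : mv n i A φ (sl i v) = sl i (A v) + φ v • kW n r i := by
  funext j
  by_cases h : j = i
  · subst h; simp [mv_self, kW, sl_self]
  · simp [mv_ne h, h, kW, sl_self, sl_ne h]

lemma mv_of_zero {x : V r} (h : x i = 0) : mv n i A φ x = x := by
  rw [mv_apply, h, map_zero, map_zero, zero_smul, add_zero, ← h, Function.update_eq_self]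

lemma mv_int (hA : ∀ v, IsZ v → IsZ (A v)) (hφ : ∀ v, IsZ v → ∃ z : ℤ, φ v = z) {x : V r}
    (hx : IsZV x) : IsZV (mv n i A φ x) := fun j => by
  by_cases h : j = i
  · subst h; rw [mv_self]; exact hA _ (hx _)
  · rw [mv_ne h]; exact (hx j).add ((isZ_kk _).smul (hφ _ (hx i)))

end mv

variable (n r)

/-- What the geometry has to provide. `pc E` is the class of the prime divisor `E`; `Fr E` is the
monoid of lattice points whose standard divisor is linearly equivalent to an effective divisor not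
containing `E`; `Mov` is the closed movable cone; `Γ` is a monoid of pull-back maps. -/
structure Geo where
  PD : Type
  pc : PD → V r
  Fr : PD → AddSubmonoid (V r)
  Eff : Submodule ℝ≥0 (V r)
  Mov : Submodule ℝ≥0 (V r)
  Γ : Submonoid (Module.End ℝ (V r))
  fr_int : ∀ E, ∀ x ∈ Fr E, IsZV x
  fr_h : ∀ E i o, sl i (hh o) ∈ Fr E
  fr_e : ∀ E i a, pc E ≠ sl i (ee a) → sl i (ee a) ∈ Fr E
  fr_mov : ∀ x, IsZV x → (∀ E, x ∈ Fr E) → x ∈ Mov
  mov_cl : IsClosed (Mov : Set (V r))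
  eff_h : ∀ i o, sl i (hh o) ∈ Eff
  eff_e : ∀ i a, sl i (ee a) ∈ Eff
  eff_gen : Eff ≤ span ℝ≥0 {x | x ∈ Eff ∧ IsZV x}
  sal : ∀ x ∈ closure (Eff : Set (V r)), -x ∈ closure (Eff : Set (V r)) → x = 0
  posp : ∀ j, r j = 0 → 2 ≤ n j → ∀ x ∈ Eff, 0 ≤ x j none
  res : ∀ i a, ∀ x ∈ Mov, Bf n i (ee a) x ∈ closure (Eff : Set (V r))
  Γ_int : ∀ T ∈ Γ, ∀ x, IsZV x → IsZV (T x)
  Γ_eff : ∀ T ∈ Γ, ∀ x ∈ Eff, T x ∈ Eff
  Γ_mov : ∀ T ∈ Γ, ∀ x ∈ Mov, T x ∈ Mov
  Γ_fr : ∀ T ∈ Γ, ∃ e : PD ≃ PD, (∀ E, pc (e E) = T (pc E)) ∧ ∀ E, ∀ x ∈ Fr E, T x ∈ Fr (e E)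
  sig_h : ∀ i a, sig n i (hh (some a)) ∈ Γ
  sig_e : ∀ i a, sig n i ((2 : ℝ) • ee a) ∈ Γ
  iot_mem : ∀ j, n j = 1 → iot n j ∈ Γ

variable {n r}

lemma Geo.Γ_cl (G : Geo n r) {T : Module.End ℝ (V r)} (hT : T ∈ G.Γ) {x : V r}
    (hx : x ∈ closure (G.Eff : Set (V r))) : T x ∈ closure (G.Eff : Set (V r)) :=
  map_mem_closure T.continuous_of_finiteDimensional hx (G.Γ_eff T hT)

lemma Geo.Γ_all (G : Geo n r) {T : Module.End ℝ (V r)} (hT : T ∈ G.Γ) {x : V r}
    (hx : ∀ E, x ∈ G.Fr E) (E : G.PD) : T x ∈ G.Fr E := by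
  obtain ⟨e, -, h⟩ := G.Γ_fr T hT
  obtain ⟨E, rfl⟩ := e.surjective E
  exact h E x (hx E)

end all

end Pool.Agent.Lib.MV.Lat
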