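import Pool.Agent.Lib.MV.SDefs2

open MvPolynomial Set Pool.Agent.Lib.MP_e39d36_ag

noncomputable section

namespace Pool.Agent.Lib.MV.Dat

variable (D : Dat) {F : Type} [Field F] [Algebra ℂ F] (x : ∀ i, Fin (D.n i + 1) → F)

/-- On every chart, the relations among the affine coordinates of `x` are those of `X` modulo the
local equation. -/
def Cut {L : Type} [Field L] [Algebra ℂ L] (X : ∀ i, Fin (D.n i + 1) → L) : Prop :=
  ∀ τ (P : MvPolynomial D.Vx ℂ), aeval (D.rat x τ) P = 0 ↔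
    ∃ b ∈ D.B X τ, aeval (D.rat X τ) P = D.f X τ * b

/-- Modulo the nonunits of `T` the equation of the fibre is not zero. -/
def Nz (T : Subring F) (i : Fin D.k) : Prop := ∀ τ, (D.B x τ).toSubring ≤ T →
  ∃ z : Fin (D.n i + 1) → ℂ, Un T (eval (algebraMap ℂ F ∘ z) (D.Φ x τ i))

/-- The local rings `O` are those of the hypersurface in `Z`, and the fibres through the prime
divisors (the points satisfying `pd`) are general. -/
def Hyp {Pt : Type} (O : Pt → Subring F) (pd : Pt → Prop) : Prop :=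
  (∀ i, x i 0 = 1) ∧ (∀ t, D.y x t ≠ 0) ∧ (∀ z, ∃ τ, LocOf (D.B x τ).toSubring (O z)) ∧
  D.Cut x D.X ∧
  (∀ E, pd E → ∀ i, (D.r i ≠ 0 → D.Irr x (O E) i) ∧ (D.n i = 1 → D.Nz x (O E) i)) ∧
  D.Gen2 x O pd

end Pool.Agent.Lib.MV.Dat
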