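import Pool.Agent.Lib.MV.A_ALL
import Pool.Agent.Lib.MV.Asm2
import Pool.Agent.Lib.MV.S3_ALL7
import Pool.Agent.Lib.MV.B_SM
import Pool.Agent.Lib.MV.Stmt

open AlgebraicGeometry CategoryTheory Order Pool.Agent.Lib.MP_e39d36_ag

namespace Pool.Agent.Lib.MV

theorem Dat.Hyp.isHyp {D : Dat} {F : Type} [Field F] [Algebra ℂ F]
    {x : ∀ i, Fin (D.n i + 1) → F} {Pt : Type} {O : Pt → Subring F} {pd : Pt → Prop}
    (h : D.Hyp x O pd) : D.IsHyp x O pd :=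
  ⟨h.1, h.2.1, h.2.2.1, h.2.2.2.1, fun E e τ t i hi => ((h.2.2.2.2.1 E e i).1 hi τ t).1,
    fun E e τ t i a => ((h.2.2.2.2.1 E e i).1 a.pos.ne' τ t).2 a,
    fun E e τ t i hi => (h.2.2.2.2.1 E e i).2 hi τ t⟩

theorem main_of (hN : G2.St_NEF) (D : Dat) {Y : Scheme.{0}} [IsIntegral Y] [IsLocallyNoetherian Y]
    (s : Y ⟶ Spec (.of ℂ)) [Smooth s] (hY : IsProjective s)
    (x : ∀ i, Fin (D.n i + 1) → Y.functionField)
    (h : @Dat.Hyp D Y.functionField _ (algK s) x Y OX fun E => coheight E = 1) :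
    ∃ S : Set (CDiv Y), S.Finite ∧ Covers s (cone S) ∧ ∀ φ L, IsPull s φ L → L ≠ 1 →
      interior (cone S) ∩ L '' interior (cone S) = ∅ :=
  sch_end2 s st_sm D (cone_of7 all_L S3.inj7 S3.posp7 hN D) hY x
    (@Dat.Hyp.isHyp D _ _ (algK s) x _ _ _ h) h.2.2.2.2.2

end Pool.Agent.Lib.MV
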