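import Pool.Agent.Lib.MP_e39d36_ag.Sch2

open MvPolynomial Set Pool.Agent.Lib.MP_e39d36_ag

noncomputable section

namespace Pool.Agent.Lib.MV

/-- A product `Z` of `k` factors, each a projective space or a plane blown up in at most seven
points with no three collinear, and a section `∑ c, ∏ i, G c i` of the anticanonical bundle.
The linear forms `u i a 0`, `u i a 1` cut out the point `p i a`. -/
structure Dat where
  k : ℕ
  n : Fin k → ℕ
  r : Fin k → ℕ
  p : ∀ i, Fin (r i) → Fin (n i + 1) → ℂ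
  u : ∀ i, Fin (r i) → Fin 2 → Fin (n i + 1) → ℂ
  m : ℕ
  G : Fin m → ∀ i, MvPolynomial (Fin (n i + 1)) ℂ
  n_pos : ∀ i, 1 ≤ n i
  n_eq : ∀ i, r i ≠ 0 → n i = 2
  r_le : ∀ i, r i ≤ 7
  dim : 4 ≤ ∑ i, n i
  surf : ∃ i, r i ≠ 0
  p_ne : ∀ i a, p i a ≠ 0
  u_ind : ∀ i a, LinearIndependent ℂ (u i a)
  u_p : ∀ i a j, u i a j ⬝ᵥ p i a = 0
  dist : ∀ i a b, a ≠ b → LinearIndependent ℂ ![p i a, p i b]
  col : ∀ i a b c, a ≠ b → a ≠ c → b ≠ c → LinearIndependent ℂ ![p i a, p i b, p i c]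
  G_hom : ∀ c i, (G c i).IsHomogeneous (n i + 1)
  G_p : ∀ c i a, eval (p i a) (G c i) = 0

namespace Dat

variable (D : Dat)

/-- Slots: the projective spaces into whose product `Z` embeds. -/
abbrev Sl : Type := Σ i, Option (Fin (D.r i))

/-- Homogeneous coordinates of the slots. -/
abbrev Vx : Type := (Σ i, Fin (D.n i + 1)) ⊕ (Σ i, Fin (D.r i)) × Fin 2

/-- The slot of a coordinate. -/
def sl : D.Vx → D.Sl := Sum.elim (fun v => ⟨v.1, none⟩) fun v => ⟨v.1.1, some v.1.2⟩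

/-- Standard charts: a choice of one coordinate in each slot. -/
abbrev Ch : Type := {τ : D.Sl → D.Vx // ∀ μ, D.sl (τ μ) = μ}

variable {F : Type} [Field F] [Algebra ℂ F] (x : ∀ i, Fin (D.n i + 1) → F)

/-- Values of the slot coordinates. -/
def y : D.Vx → F :=
  Sum.elim (fun v => x v.1 v.2) fun v => ∑ l, D.u v.1.1 v.1.2 v.2 l • x v.1.1 l

/-- Affine coordinates in a chart. -/
def rat (τ : D.Ch) (t : D.Vx) : F := D.y x t / D.y x (τ.1 (D.sl t))

/-- The coordinate ring of a chart. -/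
def B (τ : D.Ch) : Subalgebra ℂ F := Algebra.adjoin ℂ (range (D.rat x τ))

/-- The generator on a chart of the anticanonical bundle of the `i`-th factor. -/
def kap (τ : D.Ch) (i : Fin D.k) : F :=
  D.y x (τ.1 ⟨i, none⟩) ^ ((D.n i : ℤ) + 1 - D.r i) * ∏ a, D.y x (τ.1 ⟨i, some a⟩)

/-- The local equation of the hypersurface on a chart. -/
def f (τ : D.Ch) : F := ∑ c, ∏ i, aeval (x i) (D.G c i) / D.kap x τ i

/-- The equation of the fibre in the `i`-th factor. -/
def Φ (τ : D.Ch) (i : Fin D.k) : MvPolynomial (Fin (D.n i + 1)) F :=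
  ∑ c, (∏ j ∈ Finset.univ.erase i, aeval (x j) (D.G c j) / D.kap x τ j) •
    map (algebraMap ℂ F) (D.G c i)

/-- The function field of `Z`. -/
abbrev L : Type := FractionRing (MvPolynomial (Σ i, Fin (D.n i)) ℂ)

/-- The coordinates on `Z`. -/
def X (i : Fin D.k) : Fin (D.n i + 1) → D.L :=
  Fin.cons 1 fun l => algebraMap (MvPolynomial (Σ i, Fin (D.n i)) ℂ) _ (MvPolynomial.X ⟨i, l⟩)

end Dat

end Pool.Agent.Lib.MV
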