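import Pool.Agent.Lib.MV.S_PTS

open Set Pool.Agent.Lib.MP_e39d36_ag Pool.Agent.Lib.MP_e39d36_ag.Var

set_option linter.unusedVariables false
set_option linter.style.haveILetI false

noncomputable section

namespace Pool.Agent.Lib.MV.S3

namespace ClpB

lemma exists_char {A : Type} [CommRing A] [IsDomain A] [Algebra ℂ A] [Algebra.FiniteType ℂ A]
    {r : A} (hr : r ≠ 0) : ∃ χ : A →ₐ[ℂ] ℂ, χ r ≠ 0 := by
  haveI : IsJacobsonRing A := isJacobsonRing_of_finiteType (A := ℂ)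
  have h1 : r ∉ (⊥ : Ideal A).jacobson := by
    rw [IsJacobsonRing.out inferInstance (Ideal.isPrime_bot.isRadical)]
    exact hr
  obtain ⟨m, hm, h2⟩ : ∃ m : Ideal A, m.IsMaximal ∧ r ∉ m := by
    by_contra! h
    exact h1 (Ideal.mem_sInf.2 fun {J} hJ => h J hJ.2)
  letI := Ideal.Quotient.field m
  haveI : Module.Finite ℂ (A ⧸ m) := finite_of_finite_type_of_isJacobsonRing ℂ (A ⧸ m)
  let φ : (A ⧸ m) →ₐ[ℂ] ℂ := IsAlgClosed.lift
  refine ⟨φ.comp (Ideal.Quotient.mkₐ ℂ m), fun h => h2 ?_⟩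
  exact Ideal.Quotient.eq_zero_iff_mem.1 ((map_eq_zero φ).1 h)

end ClpB

theorem st_clp : St_CLP := fun K _ _ X S hS => by
  classical
  obtain ⟨i⟩ := X.nei
  obtain ⟨x, hx⟩ := X.exists_top
  obtain ⟨r, h1, h2, h3⟩ := exists_fix (locOf_of_le (i := i) (x := x) (hx ▸ le_top))
    (hS.subset (sep_subset S fun E => (X.A i).toSubring ≤ X.O E.1)) (fun E hE => hE.2)
    (fun E _ h => (isV E).ne_top (top_le_iff.1 (hx ▸ h))) fun _ => 1
  haveI : Algebra.FiniteType ℂ (X.A i) := (Subalgebra.fg_iff_finiteType _).1 (X.fg i)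
  obtain ⟨χ, hχ⟩ := ClpB.exists_char (A := X.A i) (r := ⟨r, h1⟩)
    fun h => h2.1 (congrArg Subtype.val h)
  obtain ⟨T, h4, ψ, h5, h6, h7⟩ := PtsB.exists_ext (B := (X.A i).toSubring) χ.toRingHom
  obtain ⟨z, rfl⟩ := X.pt i T h5 h4
  refine ⟨⟨z, fun a => if h : a ∈ X.O z then ψ ⟨a, h⟩ else 0, fun a ha b hb => ?_,
    fun a ha b hb => ?_, fun a => ?_, fun a ha h => ?_⟩, fun E hE h => ?_⟩
  · rw [dif_pos ha, dif_pos hb, dif_pos (add_mem ha hb), ← map_add]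
    rfl
  · rw [dif_pos ha, dif_pos hb, dif_pos (mul_mem ha hb), ← map_mul]
    rfl
  · rw [dif_pos (X.const_mem z a)]
    exact (h6 ⟨_, (X.A i).algebraMap_mem a⟩).trans (χ.commutes a)
  · rw [dif_pos ha]
    exact h7 ⟨a, ha⟩ h
  · have h8 : Un (X.O z) r := of_not_not fun h9 =>
      hχ ((h6 ⟨r, h1⟩).symm.trans (h7 ⟨r, h4.1 h1⟩ h9))
    have h9 := h3 E ⟨hE, h4.1.trans h⟩
    rw [ord_un (h8.mono h)] at h9
    omega

end Pool.Agent.Lib.MV.S3
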