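import Pool.Agent.Lib.MV.S3Blue
import Pool.Agent.Lib.MV.Blue

open MvPolynomial Set Pool.Agent.Lib.MP_e39d36_ag Pool.Agent.Lib.MP_e39d36_ag.Var
  Pool.Agent.Lib.MP_cc3443_ag Pool.Agent.Lib.MV.End Pool.Agent.Lib.MV.Dat

set_option linter.unusedSectionVars false
set_option linter.unusedVariables false

noncomputable section

namespace Pool.Agent.Lib.MV.S3

namespace WPT0B

/-- Two elements of a finitely generated algebra generate the unit ideal or have a common zero. -/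
lemma zero_or_comb {B : Type} [CommRing B] [Algebra ℂ B] [Algebra.FiniteType ℂ B] (a b : B) :
    (∃ θ : B →ₐ[ℂ] ℂ, θ a = 0 ∧ θ b = 0) ∨ ∃ p q : B, p * a + q * b = 1 := by
  by_cases h : Ideal.span {a, b} = ⊤
  · exact Or.inr (Ideal.mem_span_pair.1 (h ▸ Submodule.mem_top : (1 : B) ∈ Ideal.span {a, b}))
  · obtain ⟨m, hm, hle⟩ := Ideal.exists_le_maximal _ h
    let _ := Ideal.Quotient.field m
    have : Module.Finite ℂ (B ⧸ m) := finite_of_finite_type_of_isJacobsonRing ℂ (B ⧸ m)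
    have hb : Function.Bijective (Algebra.ofId ℂ (B ⧸ m)) :=
      IsAlgClosed.algebraMap_bijective_of_isIntegral
    refine Or.inl ⟨(AlgEquiv.ofBijective _ hb).symm.toAlgHom.comp (Ideal.Quotient.mkₐ ℂ m), ?_, ?_⟩
    · have : Ideal.Quotient.mkₐ ℂ m a = 0 :=
        Ideal.Quotient.eq_zero_iff_mem.2 (hle (Ideal.subset_span (by simp)))
      rw [AlgHom.comp_apply, this, map_zero]
    · have : Ideal.Quotient.mkₐ ℂ m b = 0 :=
        Ideal.Quotient.eq_zero_iff_mem.2 (hle (Ideal.subset_span (by simp)))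
      rw [AlgHom.comp_apply, this, map_zero]

lemma finiteType (D : Dat) (τ : D.Ch) : Algebra.FiniteType ℂ (D.B D.X τ) :=
  (Subalgebra.fg_iff_finiteType _).1 (Subalgebra.fg_def.2 ⟨_, finite_range _, rfl⟩)

lemma ac_mem (hK : St_KAP) {D : Dat} (τ : D.Ch) {j : Fin D.k}
    {G : MvPolynomial (Fin (D.n j + 1)) ℂ} (h : AC D j G) :
    aeval (D.X j) G / D.kap D.X τ j ∈ D.B D.X τ := by
  have := hK D D.L D.X yX_ne τ j Finset.univ (D.n j + 1) G h.1 fun a _ => h.2 a
  simpa [Dat.kap] using this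

lemma two (D : Dat) (i : Fin D.k) (hi : D.r i ≠ 0) :
    ∃ a b : Σ j, Fin (D.n j), a ≠ b ∧ a.1 ≠ i ∧ b.1 ≠ i := by
  classical
  have h1 := Finset.card_filter_add_card_filter_not (s := (Finset.univ : Finset (Σ j, Fin (D.n j))))
    (fun w => w.1 = i)
  have h2 : (Finset.univ.filter fun w : Σ j, Fin (D.n j) => w.1 = i).card ≤ D.n i := by
    refine (Finset.card_le_card (t := Finset.univ.image (Sigma.mk i)) ?_).trans
      (Finset.card_image_le.trans (by simp))
    rintro ⟨j, l⟩ hw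
    obtain rfl : j = i := (Finset.mem_filter.1 hw).2
    exact Finset.mem_image.2 ⟨l, Finset.mem_univ _, rfl⟩
  have h3 : (Finset.univ : Finset (Σ j, Fin (D.n j))).card = ∑ j, D.n j := by simp
  have h4 := D.dim
  have h5 := D.n_eq i hi
  obtain ⟨a, ha, b, hb, hab⟩ := Finset.one_lt_card.1
    (show 1 < (Finset.univ.filter fun w : Σ j, Fin (D.n j) => ¬w.1 = i).card by omega)
  exact ⟨a, b, hab, (Finset.mem_filter.1 ha).2, (Finset.mem_filter.1 hb).2⟩

lemma core (hK : St_KAP) (hT : St_TWOI) (hR : St_RAT) (D : Dat) (i : Fin D.k) (hi : D.r i ≠ 0)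
    (w0 w1 : D.L) (h0 : w0 ≠ 0) (comb : ∀ τ, ∃ p ∈ D.B D.X τ, ∃ q ∈ D.B D.X τ,
      p * (w0 / Fb.gW D D.X τ i) + q * (w1 / Fb.gW D D.X τ i) = 1) : False := by
  classical
  let k0 := IntermediateField.adjoin ℂ {w1 / w0}
  have ht : w1 / w0 ∈ k0 := IntermediateField.mem_adjoin_simple_self ℂ _
  have alg : ∀ s : D.L, (∀ τ, s / Fb.gW D D.X τ i ∈ D.B D.X τ) →
      s / w0 ∈ algebraicClosure k0 D.L := fun s hs => by
    have h1 : IsIntegral k0.toSubalgebra.toSubring (s / w0) := isIntegral_of_val fun V hV => by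
      obtain ⟨τ, hτ⟩ := exists_ch_val (D := D) (x := D.X) yX_ne V
        fun c => hV (k0.algebraMap_mem c)
      obtain ⟨p, hp, q, hq, e⟩ := comb τ
      have hg : Fb.gW D D.X τ i ≠ 0 := fun z => by simp [z] at e
      have e2 : s / w0 = s / Fb.gW D D.X τ i * (p + q * (w1 / w0)) := by
        have : Fb.gW D D.X τ i = p * w0 + q * w1 := by
          field_simp at e
          exact e.symm
        rw [eq_comm, div_mul_eq_mul_div, div_eq_div_iff hg h0, this]
        field_simp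
      rw [e2]
      exact V.toSubring.mul_mem (hτ (hs τ))
        (V.toSubring.add_mem (hτ hp) (V.toSubring.mul_mem (hτ hq) (hV ht)))
    exact mem_algebraicClosure_iff'.2 h1
  choose G0 hG0 hG0' using fun j => (hR D j).1
  have hX : ∀ j, j ≠ i → ∀ l, IsAlgebraic k0 (D.X j l) := fun j hj l => by
    have hji : j ∈ Finset.univ.erase i := Finset.mem_erase.2 ⟨hj, Finset.mem_univ _⟩
    have hc : ∏ j' ∈ (Finset.univ.erase i).erase j, aeval (D.X j') (G0 j') ≠ 0 :=
      Finset.prod_ne_zero_iff.2 fun j' _ => hG0' j'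
    have key : ∀ G, AC D j G → aeval (D.X j) G *
        (∏ j' ∈ (Finset.univ.erase i).erase j, aeval (D.X j') (G0 j')) / w0 ∈
          algebraicClosure k0 D.L := fun G hG => alg _ fun τ => by
      rw [Fb.gW, ← Finset.mul_prod_erase _ _ hji, mul_div_mul_comm, ← Finset.prod_div_distrib]
      exact mul_mem (ac_mem hK τ hG) (prod_mem fun j' _ => ac_mem hK τ (hG0 j'))
    refine mem_algebraicClosure_iff.1 ((hR D j).2 ((algebraicClosure k0 D.L).restrictScalars ℂ)
      (fun G G' hG hG' => ?_) l)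
    have := div_mem (key G hG) (key G' hG')
    rwa [div_div_div_cancel_right₀ h0, mul_div_mul_right _ _ hc] at this
  obtain ⟨a, b, hab, ha, hb⟩ := two D i hi
  have hind : AlgebraicIndependent ℂ fun w : Σ j, Fin (D.n j) =>
      algebraMap (MvPolynomial (Σ j, Fin (D.n j)) ℂ) D.L (MvPolynomial.X w) :=
    (MvPolynomial.algebraicIndependent_X _ ℂ).map'
      (f := IsScalarTower.toAlgHom ℂ (MvPolynomial (Σ j, Fin (D.n j)) ℂ) D.L)
      (IsFractionRing.injective _ _)
  have hinj : Function.Injective ![a, b] := by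
    intro u v h
    fin_cases u <;> fin_cases v <;> simp_all [eq_comm]
  refine hT D.L (w1 / w0) _ (hind.comp _ hinj) fun u => ?_
  fin_cases u
  · exact hX a.1 ha a.2.succ
  · exact hX b.1 hb b.2.succ

end WPT0B

open WPT0B in
theorem st_wpt0 (hK : St_KAP) (hT : St_TWOI) (hR : St_RAT) : St_WPT0 := by
  intro D i hi w h
  by_contra hcon
  have comb : ∀ τ, ∃ p ∈ D.B D.X τ, ∃ q ∈ D.B D.X τ,
      p * (w 0 / Fb.gW D D.X τ i) + q * (w 1 / Fb.gW D D.X τ i) = 1 := fun τ => by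
    have := finiteType D τ
    rcases zero_or_comb (⟨_, h 0 τ⟩ : D.B D.X τ) ⟨_, h 1 τ⟩ with ⟨θ, a, b⟩ | ⟨p, q, e⟩
    · exact absurd ⟨⟨τ, θ⟩, Fin.forall_fin_two.2 ⟨a, b⟩⟩ hcon
    · exact ⟨p, p.2, q, q.2, congrArg Subtype.val e⟩
  by_cases h0 : w 0 = 0
  · obtain ⟨τ⟩ : Nonempty D.Ch := inferInstance
    have h1 : w 1 ≠ 0 := fun h1 => by
      obtain ⟨p, -, q, -, e⟩ := comb τ
      simp [h0, h1] at e
    refine core hK hT hR D i hi (w 1) (w 0) h1 fun τ => ?_
    obtain ⟨p, hp, q, hq, e⟩ := comb τ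
    exact ⟨q, hq, p, hp, by rw [add_comm]; exact e⟩
  · exact core hK hT hR D i hi (w 0) (w 1) h0 comb

end Pool.Agent.Lib.MV.S3
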